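import Mathlib

/-!
Theorem C, block (i), abstract part: functions of the generator `A = K⁻¹`, where `K ≥ 0` is a bounded
injective selfadjoint operator on a complex Hilbert space. `fA φ K = φ(A)`.
-/

set_option autoImplicit false

open MeasureTheory Set Filter Topology
open scoped InnerProductSpace

namespace Pool.Agent.Lib.MP_79abb3_an.SC

section gf

/-- `gf φ x = φ (1/x)` for `x > 0` and `0` otherwise -/
noncomputable def gf (φ : ℝ → ℝ) (x : ℝ) : ℝ := if 0 < x then φ x⁻¹ else 0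

/-- admissible multipliers: continuous on `(0,∞)` with limit `0` at infinity -/
structure Adm (φ : ℝ → ℝ) : Prop where
  cont : ContinuousOn φ (Ioi 0)
  lim : Tendsto φ atTop (𝓝 0)

theorem gf_pos {φ : ℝ → ℝ} {x : ℝ} (hx : 0 < x) : gf φ x = φ x⁻¹ := if_pos hx

theorem gf_nonpos {φ : ℝ → ℝ} {x : ℝ} (hx : x ≤ 0) : gf φ x = 0 := if_neg hx.not_gt

theorem gf_continuous {φ : ℝ → ℝ} (h : Adm φ) : Continuous (gf φ) := by
  rw [continuous_iff_continuousAt]
  intro x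
  rcases lt_trichotomy x 0 with hx | hx | hx
  · have : gf φ =ᶠ[𝓝 x] fun _ => 0 := by
      filter_upwards [Iio_mem_nhds hx] with y hy
      exact gf_nonpos (le_of_lt hy)
    exact (continuousAt_const.congr this.symm)
  · subst hx
    rw [ContinuousAt, gf_nonpos le_rfl]
    have h1 : Tendsto (gf φ) (𝓝[>] 0) (𝓝 0) := by
      have : (fun x => φ x⁻¹) =ᶠ[𝓝[>] 0] gf φ := by
        filter_upwards [self_mem_nhdsWithin] with y hy
        exact (gf_pos hy).symm
      exact (h.lim.comp tendsto_inv_nhdsGT_zero).congr' this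
    have h2 : Tendsto (gf φ) (𝓝[≤] 0) (𝓝 0) := by
      have : (fun _ => (0:ℝ)) =ᶠ[𝓝[≤] 0] gf φ := by
        filter_upwards [self_mem_nhdsWithin] with y hy
        exact (gf_nonpos hy).symm
      exact tendsto_const_nhds.congr' this
    have h3 := h2.sup h1
    rwa [nhdsLE_sup_nhdsGT] at h3
  · have : gf φ =ᶠ[𝓝 x] fun y => φ y⁻¹ := by
      filter_upwards [Ioi_mem_nhds hx] with y hy
      exact gf_pos hy
    refine ContinuousAt.congr ?_ this.symm
    have h1 : ContinuousAt φ x⁻¹ := h.cont.continuousAt (Ioi_mem_nhds (inv_pos.2 hx))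
    exact ContinuousAt.comp (f := fun y : ℝ => y⁻¹) h1 (continuousAt_inv₀ hx.ne')

theorem gf_mul (φ ψ : ℝ → ℝ) (x : ℝ) : gf (fun l => φ l * ψ l) x = gf φ x * gf ψ x := by
  unfold gf; split_ifs <;> simp

theorem gf_add (φ ψ : ℝ → ℝ) (x : ℝ) : gf (fun l => φ l + ψ l) x = gf φ x + gf ψ x := by
  unfold gf; split_ifs <;> simp

theorem gf_sub (φ ψ : ℝ → ℝ) (x : ℝ) : gf (fun l => φ l - ψ l) x = gf φ x - gf ψ x := by
  unfold gf; split_ifs <;> simp

theorem gf_smul (c : ℝ) (φ : ℝ → ℝ) (x : ℝ) : gf (fun l => c * φ l) x = c * gf φ x := by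
  unfold gf; split_ifs <;> simp

theorem Adm.mul {φ ψ : ℝ → ℝ} (h : Adm φ) (h' : Adm ψ) : Adm fun l => φ l * ψ l :=
  ⟨h.cont.mul h'.cont, by simpa using h.lim.mul h'.lim⟩

theorem Adm.add {φ ψ : ℝ → ℝ} (h : Adm φ) (h' : Adm ψ) : Adm fun l => φ l + ψ l :=
  ⟨h.cont.add h'.cont, by simpa using h.lim.add h'.lim⟩

theorem Adm.sub {φ ψ : ℝ → ℝ} (h : Adm φ) (h' : Adm ψ) : Adm fun l => φ l - ψ l :=
  ⟨h.cont.sub h'.cont, by simpa using h.lim.sub h'.lim⟩

theorem Adm.smul {φ : ℝ → ℝ} (c : ℝ) (h : Adm φ) : Adm fun l => c * φ l :=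
  ⟨continuousOn_const.mul h.cont, by simpa using h.lim.const_mul c⟩

/-- `l ^ p * exp (-t l)` is admissible -/
theorem adm_rpow_exp {p t : ℝ} (ht : 0 < t) : Adm fun l => l ^ p * Real.exp (-(t * l)) := by
  constructor
  · apply ContinuousOn.mul
    · intro l hl
      exact (Real.continuousAt_rpow_const l p (Or.inl (ne_of_gt hl))).continuousWithinAt
    · fun_prop
  · have := tendsto_rpow_mul_exp_neg_mul_atTop_nhds_zero p t ht
    simpa [neg_mul] using this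

theorem adm_exp {t : ℝ} (ht : 0 < t) : Adm fun l => Real.exp (-(t * l)) := by
  have := adm_rpow_exp (p := 0) ht
  simpa using this

theorem adm_mul_exp {t : ℝ} (ht : 0 < t) : Adm fun l => l * Real.exp (-(t * l)) := by
  have := adm_rpow_exp (p := 1) ht
  simpa using this

theorem adm_sqrt_exp {t : ℝ} (ht : 0 < t) : Adm fun l => √l * Real.exp (-(t * l)) := by
  have := adm_rpow_exp (p := 1 / 2) ht
  simpa [Real.sqrt_eq_rpow] using this

theorem adm_inv : Adm fun l => l⁻¹ :=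
  ⟨fun _ hl => (continuousAt_inv₀ (ne_of_gt hl)).continuousWithinAt, tendsto_inv_atTop_zero⟩

end gf

section fA

variable {E : Type} [NormedAddCommGroup E] [InnerProductSpace ℂ E] [CompleteSpace E]
  {K : E →L[ℂ] E}

/-- `φ(A)` for `A = K⁻¹` -/
noncomputable def fA (φ : ℝ → ℝ) (K : E →L[ℂ] E) : E →L[ℂ] E := cfc (gf φ) K

theorem fA_selfAdjoint (φ : ℝ → ℝ) (K : E →L[ℂ] E) : IsSelfAdjoint (fA φ K) := IsSelfAdjoint.cfc

theorem fA_inner (φ : ℝ → ℝ) (K : E →L[ℂ] E) (x y : E) : ⟪fA φ K x, y⟫_ℂ = ⟪x, fA φ K y⟫_ℂ := by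
  have := (ContinuousLinearMap.isSelfAdjoint_iff_isSymmetric.1 (fA_selfAdjoint φ K)) x y
  exact this

theorem fA_mul {φ ψ : ℝ → ℝ} (h : Adm φ) (h' : Adm ψ) :
    fA (fun l => φ l * ψ l) K = fA φ K * fA ψ K := by
  unfold fA
  rw [← cfc_mul _ _ _ (gf_continuous h).continuousOn (gf_continuous h').continuousOn]
  congr 1; funext x; exact gf_mul φ ψ x

theorem fA_comp {φ ψ : ℝ → ℝ} (h : Adm φ) (h' : Adm ψ) (x : E) :
    fA φ K (fA ψ K x) = fA (fun l => φ l * ψ l) K x := by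
  rw [fA_mul h h']; rfl

theorem fA_add {φ ψ : ℝ → ℝ} (h : Adm φ) (h' : Adm ψ) :
    fA (fun l => φ l + ψ l) K = fA φ K + fA ψ K := by
  unfold fA
  rw [← cfc_add _ _ _ (gf_continuous h).continuousOn (gf_continuous h').continuousOn]
  congr 1; funext x; exact gf_add φ ψ x

theorem fA_sub {φ ψ : ℝ → ℝ} (h : Adm φ) (h' : Adm ψ) :
    fA (fun l => φ l - ψ l) K = fA φ K - fA ψ K := by
  unfold fA
  rw [← cfc_sub _ _ _ (gf_continuous h).continuousOn (gf_continuous h').continuousOn]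
  congr 1; funext x; exact gf_sub φ ψ x

theorem fA_smul {φ : ℝ → ℝ} (c : ℝ) (h : Adm φ) :
    fA (fun l => c * φ l) K = c • fA φ K := by
  unfold fA
  rw [← cfc_const_mul _ _ _ (gf_continuous h).continuousOn]
  congr 1; funext x; exact gf_smul c φ x

theorem fA_norm_le (hK : 0 ≤ K) {φ : ℝ → ℝ} {c : ℝ} (hc : 0 ≤ c) (h : ∀ l, 0 < l → |φ l| ≤ c) :
    ‖fA φ K‖ ≤ c := by
  unfold fA
  refine norm_cfc_le hc fun x hx => ?_
  rcases le_or_gt x 0 with h0 | h0
  · rw [gf_nonpos h0]; simpa using hc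
  · rw [gf_pos h0]; exact h _ (inv_pos.2 h0)

theorem fA_congr {φ ψ : ℝ → ℝ} (h : ∀ l, 0 < l → φ l = ψ l) : fA φ K = fA ψ K := by
  unfold fA
  congr 1
  funext x
  unfold gf
  split_ifs with hx
  · exact h _ (inv_pos.2 hx)
  · rfl

theorem selfAdjoint_of_nonneg (hK : 0 ≤ K) : IsSelfAdjoint K := IsSelfAdjoint.of_nonneg hK

theorem K_mul_fA (hK : 0 ≤ K) {φ : ℝ → ℝ} (h : Adm fun l => l * φ l) :
    K * fA (fun l => l * φ l) K = fA φ K := by
  have hs := selfAdjoint_of_nonneg hK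
  unfold fA
  nth_rewrite 1 [← cfc_id ℝ K hs]
  rw [← cfc_mul _ _ _ continuousOn_id (gf_continuous h).continuousOn]
  apply cfc_congr
  intro x hx
  have hx0 : 0 ≤ x := spectrum_nonneg_of_nonneg hK hx
  rcases hx0.eq_or_lt with h0 | h0
  · subst h0; simp [gf_nonpos]
  · simp only [gf_pos h0, id]
    field_simp

/-- the square root of `K` -/
noncomputable def Kh (K : E →L[ℂ] E) : E →L[ℂ] E := cfc Real.sqrt K

theorem Kh_selfAdjoint (K : E →L[ℂ] E) : IsSelfAdjoint (Kh K) := IsSelfAdjoint.cfc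

theorem Kh_inner (K : E →L[ℂ] E) (x y : E) : ⟪Kh K x, y⟫_ℂ = ⟪x, Kh K y⟫_ℂ :=
  (ContinuousLinearMap.isSelfAdjoint_iff_isSymmetric.1 (Kh_selfAdjoint K)) x y

theorem Kh_nonneg (K : E →L[ℂ] E) : 0 ≤ Kh K := cfc_nonneg fun x _ => Real.sqrt_nonneg x

theorem Kh_mul (hK : 0 ≤ K) : Kh K * Kh K = K := by
  have hs := selfAdjoint_of_nonneg hK
  unfold Kh
  rw [← cfc_mul _ _ _ Real.continuous_sqrt.continuousOn Real.continuous_sqrt.continuousOn]
  nth_rewrite 2 [← cfc_id ℝ K hs]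
  apply cfc_congr
  intro x hx
  exact Real.mul_self_sqrt (spectrum_nonneg_of_nonneg hK hx)

theorem Kh_Kh (hK : 0 ≤ K) (x : E) : Kh K (Kh K x) = K x := by
  conv_rhs => rw [← Kh_mul hK]
  rfl

theorem Kh_mul_fA (hK : 0 ≤ K) {φ : ℝ → ℝ} (h : Adm fun l => √l * φ l) :
    Kh K * fA (fun l => √l * φ l) K = fA φ K := by
  unfold fA Kh
  rw [← cfc_mul _ _ _ Real.continuous_sqrt.continuousOn (gf_continuous h).continuousOn]
  apply cfc_congr
  intro x hx
  have hx0 : 0 ≤ x := spectrum_nonneg_of_nonneg hK hx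
  rcases hx0.eq_or_lt with h0 | h0
  · subst h0; simp [gf_nonpos]
  · simp only [gf_pos h0]
    rw [← mul_assoc, ← Real.sqrt_mul h0.le, mul_inv_cancel₀ h0.ne', Real.sqrt_one, one_mul]

theorem fA_comm_Kh {φ : ℝ → ℝ} (h : Adm φ) : Kh K * fA φ K = fA φ K * Kh K := by
  unfold fA Kh
  rw [← cfc_mul _ _ _ Real.continuous_sqrt.continuousOn (gf_continuous h).continuousOn,
    ← cfc_mul _ _ _ (gf_continuous h).continuousOn Real.continuous_sqrt.continuousOn]
  congr 1; funext x; ring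

theorem fA_comm_K (hK : 0 ≤ K) {φ : ℝ → ℝ} (h : Adm φ) : K * fA φ K = fA φ K * K := by
  have h1 : Kh K * fA φ K = fA φ K * Kh K := fA_comm_Kh h
  calc K * fA φ K = (Kh K * Kh K) * fA φ K := by rw [Kh_mul hK]
    _ = Kh K * (Kh K * fA φ K) := mul_assoc _ _ _
    _ = Kh K * (fA φ K * Kh K) := by rw [h1]
    _ = (Kh K * fA φ K) * Kh K := (mul_assoc _ _ _).symm
    _ = (fA φ K * Kh K) * Kh K := by rw [h1]
    _ = fA φ K * (Kh K * Kh K) := mul_assoc _ _ _
    _ = fA φ K * K := by rw [Kh_mul hK]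

end fA

section bounds

theorem exp_mul_le_one (x : ℝ) (hx : 0 ≤ x) : x * Real.exp (-x) ≤ 1 := by
  have h1 := Real.add_one_le_exp x
  have h2 : 0 < Real.exp (-x) := Real.exp_pos _
  have h3 : Real.exp x * Real.exp (-x) = 1 := by rw [← Real.exp_add]; simp
  nlinarith

/-- `l e^{-tl} ≤ 1/t` -/
theorem mul_exp_le {t l : ℝ} (ht : 0 < t) (hl : 0 ≤ l) : l * Real.exp (-(t * l)) ≤ t⁻¹ := by
  have h := exp_mul_le_one (t * l) (by positivity)
  rw [← mul_le_mul_iff_right₀ ht, mul_inv_cancel₀ ht.ne', ← mul_assoc]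
  exact h

/-- `l² e^{-tl} ≤ 4/t²` -/
theorem sq_mul_exp_le {t l : ℝ} (ht : 0 < t) (hl : 0 ≤ l) :
    l ^ 2 * Real.exp (-(t * l)) ≤ 4 * (t⁻¹) ^ 2 := by
  have h := mul_exp_le (t := t / 2) (by positivity) hl
  have h0 : 0 ≤ l * Real.exp (-(t / 2 * l)) := by positivity
  have h2 : (l * Real.exp (-(t / 2 * l))) ^ 2 ≤ ((t / 2)⁻¹) ^ 2 := by gcongr
  have h3 : (l * Real.exp (-(t / 2 * l))) ^ 2 = l ^ 2 * Real.exp (-(t * l)) := by
    rw [mul_pow, ← Real.exp_nat_mul]; congr 2; push_cast; ring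
  rw [h3] at h2
  have h4 : ((t / 2)⁻¹) ^ 2 = 4 * (t⁻¹) ^ 2 := by field_simp; norm_num
  linarith

/-- `√l e^{-tl} ≤ 1/√t` -/
theorem sqrt_mul_exp_le {t l : ℝ} (ht : 0 < t) (hl : 0 ≤ l) :
    √l * Real.exp (-(t * l)) ≤ (√t)⁻¹ := by
  have h := mul_exp_le (t := 2 * t) (by positivity) hl
  have h3 : (√l * Real.exp (-(t * l))) ^ 2 = l * Real.exp (-(2 * t * l)) := by
    rw [mul_pow, Real.sq_sqrt hl, ← Real.exp_nat_mul]; congr 2; push_cast; ring
  have h4 : ((√t)⁻¹) ^ 2 = t⁻¹ := by rw [inv_pow, Real.sq_sqrt ht.le]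
  have h5 : (2 * t)⁻¹ ≤ t⁻¹ := by
    apply inv_anti₀ ht; linarith
  have h6 : (√l * Real.exp (-(t * l))) ^ 2 ≤ ((√t)⁻¹) ^ 2 := by rw [h3, h4]; linarith
  exact (sq_le_sq₀ (by positivity) (by positivity)).1 h6

/-- `|e^x - 1 - x| ≤ x² e^|x|` -/
theorem abs_exp_sub_le (x : ℝ) : |Real.exp x - 1 - x| ≤ x ^ 2 * Real.exp |x| := by
  have h0 : 0 ≤ Real.exp x - 1 - x := by have := Real.add_one_le_exp x; linarith
  have h1 : Real.exp x - 1 ≤ x * Real.exp x := by
    have h2 := Real.add_one_le_exp (-x)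
    have h3 : Real.exp x * Real.exp (-x) = 1 := by rw [← Real.exp_add]; simp
    nlinarith [Real.exp_pos x]
  rw [abs_of_nonneg h0]
  have h4 : 1 ≤ Real.exp |x| := Real.one_le_exp (abs_nonneg x)
  rcases le_total 0 x with hx | hx
  · rw [abs_of_nonneg hx]
    nlinarith [mul_le_mul_of_nonneg_left h1 hx]
  · have h5 := Real.add_one_le_exp x
    nlinarith [mul_nonneg (sq_nonneg x) (sub_nonneg.2 h4),
      mul_le_mul_of_nonneg_left h5 (neg_nonneg.2 hx)]

end bounds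

section SG

variable {E : Type} [NormedAddCommGroup E] [InnerProductSpace ℂ E] [CompleteSpace E]
  {K : E →L[ℂ] E}

/-- the semigroup `S(t) = exp(-t A)`, `S(t) = 1` for `t ≤ 0` -/
noncomputable def Sg (K : E →L[ℂ] E) (t : ℝ) : E →L[ℂ] E :=
  if t ≤ 0 then 1 else fA (fun l => Real.exp (-(t * l))) K

/-- `A^{1/2} S(t)` -/
noncomputable def HS (K : E →L[ℂ] E) (t : ℝ) : E →L[ℂ] E := fA (fun l => √l * Real.exp (-(t * l))) K

/-- `A S(t)` -/
noncomputable def AS (K : E →L[ℂ] E) (t : ℝ) : E →L[ℂ] E := fA (fun l => l * Real.exp (-(t * l))) K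

/-- `A^{3/2} S(t)` -/
noncomputable def CS (K : E →L[ℂ] E) (t : ℝ) : E →L[ℂ] E :=
  fA (fun l => √l * (l * Real.exp (-(t * l)))) K

theorem Sg_zero : Sg K 0 = 1 := if_pos le_rfl

theorem Sg_pos {t : ℝ} (ht : 0 < t) : Sg K t = fA (fun l => Real.exp (-(t * l))) K :=
  if_neg ht.not_ge

theorem Sg_nonpos {t : ℝ} (ht : t ≤ 0) : Sg K t = 1 := if_pos ht

theorem Sg_selfAdjoint (K : E →L[ℂ] E) (t : ℝ) : IsSelfAdjoint (Sg K t) := by
  unfold Sg; split_ifs
  · exact IsSelfAdjoint.one _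
  · exact fA_selfAdjoint _ _

theorem Sg_inner (K : E →L[ℂ] E) (t : ℝ) (x y : E) : ⟪Sg K t x, y⟫_ℂ = ⟪x, Sg K t y⟫_ℂ :=
  (ContinuousLinearMap.isSelfAdjoint_iff_isSymmetric.1 (Sg_selfAdjoint K t)) x y

theorem HS_inner (K : E →L[ℂ] E) (t : ℝ) (x y : E) : ⟪HS K t x, y⟫_ℂ = ⟪x, HS K t y⟫_ℂ :=
  fA_inner _ _ _ _

theorem AS_inner (K : E →L[ℂ] E) (t : ℝ) (x y : E) : ⟪AS K t x, y⟫_ℂ = ⟪x, AS K t y⟫_ℂ :=
  fA_inner _ _ _ _

theorem Sg_norm (hK : 0 ≤ K) (t : ℝ) : ‖Sg K t‖ ≤ 1 := by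
  unfold Sg; split_ifs with ht
  · exact ContinuousLinearMap.norm_id_le
  · push Not at ht
    refine fA_norm_le hK zero_le_one fun l hl => ?_
    rw [abs_of_pos (Real.exp_pos _)]
    exact Real.exp_le_one_iff.2 (by nlinarith)

theorem Sg_norm_apply (hK : 0 ≤ K) (t : ℝ) (x : E) : ‖Sg K t x‖ ≤ ‖x‖ :=
  ((Sg K t).le_of_opNorm_le (Sg_norm hK t) x).trans (by rw [one_mul])

theorem HS_norm (hK : 0 ≤ K) {t : ℝ} (ht : 0 < t) : ‖HS K t‖ ≤ (√t)⁻¹ := by
  refine fA_norm_le hK (by positivity) fun l hl => ?_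
  rw [abs_of_nonneg (by positivity)]
  exact sqrt_mul_exp_le ht hl.le

theorem AS_norm (hK : 0 ≤ K) {t : ℝ} (ht : 0 < t) : ‖AS K t‖ ≤ t⁻¹ := by
  refine fA_norm_le hK (by positivity) fun l hl => ?_
  rw [abs_of_nonneg (by positivity)]
  exact mul_exp_le ht hl.le

/-- product rule for `S(s) φ(A)`, `ψ l = exp(-s l) φ l` -/
theorem Sg_fA {s : ℝ} (hs : 0 ≤ s) {φ ψ : ℝ → ℝ} (h : Adm φ)
    (hψ : ∀ l, 0 < l → ψ l = Real.exp (-(s * l)) * φ l) : Sg K s * fA φ K = fA ψ K := by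
  rcases hs.eq_or_lt with h0 | h0
  · subst h0
    rw [Sg_zero, one_mul]
    apply fA_congr
    intro l hl
    rw [hψ l hl]; simp
  · rw [Sg_pos h0, ← fA_mul (adm_exp h0) h]
    exact fA_congr fun l hl => (hψ l hl).symm

theorem Sg_add {s t : ℝ} (hs : 0 ≤ s) (ht : 0 ≤ t) : Sg K (s + t) = Sg K s * Sg K t := by
  rcases ht.eq_or_lt with h0 | h0
  · subst h0; rw [add_zero, Sg_zero, mul_one]
  · rw [Sg_pos h0, Sg_fA hs (adm_exp h0) (ψ := fun l => Real.exp (-((s + t) * l))),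
      Sg_pos (by linarith)]
    intro l _
    rw [← Real.exp_add]; congr 1; ring

theorem Sg_HS {s t : ℝ} (hs : 0 ≤ s) (ht : 0 < t) : Sg K s * HS K t = HS K (s + t) := by
  refine Sg_fA hs (adm_sqrt_exp ht) fun l _ => ?_
  rw [mul_left_comm, ← Real.exp_add]; congr 2; ring

theorem Sg_AS {s t : ℝ} (hs : 0 ≤ s) (ht : 0 < t) : Sg K s * AS K t = AS K (s + t) := by
  refine Sg_fA hs (adm_mul_exp ht) fun l _ => ?_
  rw [mul_left_comm, ← Real.exp_add]; congr 2; ring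

theorem HS_HS {s t : ℝ} (hs : 0 < s) (ht : 0 < t) : HS K s * HS K t = AS K (s + t) := by
  unfold HS AS
  rw [← fA_mul (adm_sqrt_exp hs) (adm_sqrt_exp ht)]
  refine fA_congr fun l hl => ?_
  calc √l * Real.exp (-(s * l)) * (√l * Real.exp (-(t * l)))
      = (√l * √l) * (Real.exp (-(s * l)) * Real.exp (-(t * l))) := by ring
    _ = l * Real.exp (-((s + t) * l)) := by
      rw [Real.mul_self_sqrt hl.le, ← Real.exp_add]; congr 2; ring

theorem K_AS (hK : 0 ≤ K) {t : ℝ} (ht : 0 < t) : K * AS K t = Sg K t := by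
  rw [Sg_pos ht]
  exact K_mul_fA hK (adm_mul_exp ht)

theorem Kh_HS (hK : 0 ≤ K) {t : ℝ} (ht : 0 < t) : Kh K * HS K t = Sg K t := by
  rw [Sg_pos ht]
  exact Kh_mul_fA hK (adm_sqrt_exp ht)

theorem Kh_AS (hK : 0 ≤ K) {t : ℝ} (ht : 0 < t) : Kh K * AS K t = HS K t := by
  unfold AS HS
  have h1 : Adm fun l => √l * (√l * Real.exp (-(t * l))) := by
    constructor
    · have := (adm_sqrt_exp ht).cont
      exact Real.continuous_sqrt.continuousOn.mul this
    · refine (adm_mul_exp ht).lim.congr' ?_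
      filter_upwards [eventually_ge_atTop 0] with l hl
      rw [← mul_assoc, Real.mul_self_sqrt hl]
  rw [← Kh_mul_fA hK h1]
  congr 1
  refine fA_congr fun l hl => ?_
  rw [← mul_assoc, Real.mul_self_sqrt hl.le]

theorem Kh_comm_Sg {t : ℝ} : Kh K * Sg K t = Sg K t * Kh K := by
  unfold Sg; split_ifs with ht
  · simp
  · exact fA_comm_Kh (adm_exp (not_le.1 ht))

theorem Kh_comm_HS {t : ℝ} (ht : 0 < t) : Kh K * HS K t = HS K t * Kh K := fA_comm_Kh (adm_sqrt_exp ht)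

theorem Kh_comm_AS {t : ℝ} (ht : 0 < t) : Kh K * AS K t = AS K t * Kh K := fA_comm_Kh (adm_mul_exp ht)

theorem AS_K (hK : 0 ≤ K) {t : ℝ} (ht : 0 < t) (x : E) : AS K t (K x) = Sg K t x := by
  have h6 : K * AS K t = AS K t * K := fA_comm_K hK (adm_mul_exp ht)
  rw [← K_AS hK ht, h6]; rfl

theorem AS_Kh (hK : 0 ≤ K) {t : ℝ} (ht : 0 < t) (x : E) : AS K t (Kh K x) = HS K t x := by
  have h2 := Kh_AS hK ht
  rw [Kh_comm_AS ht] at h2
  rw [← h2]; rfl

theorem HS_Kh (hK : 0 ≤ K) {t : ℝ} (ht : 0 < t) (x : E) : HS K t (Kh K x) = Sg K t x := by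
  have h2 := Kh_HS hK ht
  rw [Kh_comm_HS ht] at h2
  rw [← h2]; rfl

theorem K_comm_Sg (hK : 0 ≤ K) {t : ℝ} : K * Sg K t = Sg K t * K := by
  unfold Sg; split_ifs with ht
  · simp
  · exact fA_comm_K hK (adm_exp (not_le.1 ht))

/-- `‖S(t) K x - K x‖ ≤ t ‖x‖` -/
theorem Sg_K_sub (hK : 0 ≤ K) {t : ℝ} (ht : 0 ≤ t) : ‖Sg K t * K - K‖ ≤ t := by
  rcases ht.eq_or_lt with h0 | h0
  · subst h0; simp [Sg_zero]
  have hs := selfAdjoint_of_nonneg hK
  have h1 : Sg K t * K - K = cfc (fun x => gf (fun l => Real.exp (-(t * l))) x * x - x) K := by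
    have h2 : cfc (fun x : ℝ => x) K = K := cfc_id ℝ K hs
    rw [cfc_sub (fun x => gf (fun l => Real.exp (-(t * l))) x * x) (fun x => x) K
        ((gf_continuous (adm_exp h0)).mul continuous_id).continuousOn continuousOn_id,
      cfc_mul (gf (fun l => Real.exp (-(t * l)))) (fun x => x) K
        (gf_continuous (adm_exp h0)).continuousOn continuousOn_id, Sg_pos h0, h2]
    rfl
  rw [h1]
  refine norm_cfc_le h0.le fun x hx => ?_
  have hx0 : 0 ≤ x := spectrum_nonneg_of_nonneg hK hx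
  rcases hx0.eq_or_lt with h | h
  · subst h; simpa using h0.le
  · rw [gf_pos h, Real.norm_eq_abs]
    have h3 : 1 - t * x⁻¹ ≤ Real.exp (-(t * x⁻¹)) := by
      have := Real.add_one_le_exp (-(t * x⁻¹)); linarith
    have h4 : Real.exp (-(t * x⁻¹)) ≤ 1 := Real.exp_le_one_iff.2 (by
      have : 0 < t * x⁻¹ := by positivity
      linarith)
    have h5 : t * x⁻¹ * x = t := by field_simp
    rw [abs_le]; constructor <;> nlinarith

/-- `‖S(t+h) - S(t) + h A S(t)‖ ≤ 2 h² 4 / t²` for `|h| ≤ t/2` -/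
theorem Sg_deriv_bound (hK : 0 ≤ K) {t h : ℝ} (ht : 0 < t) (hh : |h| ≤ t / 2) :
    ‖Sg K (t + h) - Sg K t + h • AS K t‖ ≤ 16 * (t⁻¹) ^ 2 * h ^ 2 := by
  have hh' := abs_le.1 hh
  have hth : 0 < t + h := by linarith
  have e : Sg K (t + h) - Sg K t + h • AS K t =
      fA (fun l => (Real.exp (-((t + h) * l)) - Real.exp (-(t * l))) +
        h * (l * Real.exp (-(t * l)))) K := by
    rw [fA_add ((adm_exp hth).sub (adm_exp ht)) ((adm_mul_exp ht).smul h),
      fA_sub (adm_exp hth) (adm_exp ht), fA_smul h (adm_mul_exp ht), Sg_pos hth, Sg_pos ht]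
    rfl
  rw [e]
  refine fA_norm_le hK (by positivity) fun l hl => ?_
  -- pointwise bound
  have h1 : (Real.exp (-((t + h) * l)) - Real.exp (-(t * l))) + h * (l * Real.exp (-(t * l)))
      = Real.exp (-(t * l)) * (Real.exp (-(h * l)) - 1 - (-(h * l))) := by
    rw [show -((t + h) * l) = -(t * l) + -(h * l) by ring, Real.exp_add]; ring
  have h2 : |Real.exp (-(h * l)) - 1 - (-(h * l))| ≤ (h * l) ^ 2 * Real.exp |h * l| := by
    have := abs_exp_sub_le (-(h * l))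
    rwa [neg_sq, abs_neg] at this
  rw [h1, abs_mul, abs_of_pos (Real.exp_pos _)]
  calc Real.exp (-(t * l)) * |Real.exp (-(h * l)) - 1 - (-(h * l))|
      ≤ Real.exp (-(t * l)) * ((h * l) ^ 2 * Real.exp |h * l|) := by gcongr
    _ = h ^ 2 * (l ^ 2 * Real.exp (-(t * l) + |h * l|)) := by rw [Real.exp_add]; ring
    _ ≤ h ^ 2 * (l ^ 2 * Real.exp (-(t / 2 * l))) := by
      gcongr
      rw [abs_mul, abs_of_pos hl]
      nlinarith
    _ ≤ h ^ 2 * (4 * ((t / 2)⁻¹) ^ 2) :=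
      mul_le_mul_of_nonneg_left (sq_mul_exp_le (by positivity) hl.le) (sq_nonneg h)
    _ = 16 * (t⁻¹) ^ 2 * h ^ 2 := by field_simp; ring

theorem Sg_hasDerivAt (hK : 0 ≤ K) {t : ℝ} (ht : 0 < t) :
    HasDerivAt (fun t => Sg K t) (-AS K t) t := by
  rw [hasDerivAt_iff_isLittleO_nhds_zero]
  have h1 : (fun h : ℝ => Sg K (t + h) - Sg K t - h • -AS K t) =O[𝓝 0] fun h => h ^ 2 := by
    refine Asymptotics.IsBigO.of_bound (16 * (t⁻¹) ^ 2) ?_
    have : ∀ᶠ h : ℝ in 𝓝 0, |h| < t / 2 := by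
      have := Metric.ball_mem_nhds (0:ℝ) (half_pos ht)
      filter_upwards [this] with h hh
      simpa using hh
    filter_upwards [this] with h hh
    rw [smul_neg, sub_neg_eq_add, Real.norm_eq_abs, abs_of_nonneg (sq_nonneg h)]
    exact Sg_deriv_bound hK ht hh.le
  refine h1.trans_isLittleO ?_
  have := Asymptotics.isLittleO_pow_id (𝕜 := ℝ) (n := 2) one_lt_two
  simpa using this

theorem Sg_hasDerivAt_apply (hK : 0 ≤ K) {t : ℝ} (ht : 0 < t) (x : E) :
    HasDerivAt (fun t => Sg K t x) (-(AS K t x)) t := by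
  let A : (E →L[ℂ] E) →L[ℝ] E := (ContinuousLinearMap.apply ℂ E x).restrictScalars ℝ
  exact A.hasFDerivAt.comp_hasDerivAt t (Sg_hasDerivAt hK ht)

theorem Sg_continuousOn (hK : 0 ≤ K) : ContinuousOn (fun t => Sg K t) (Ioi 0) :=
  fun _ ht => (Sg_hasDerivAt hK ht).continuousAt.continuousWithinAt

theorem HS_continuousOn (hK : 0 ≤ K) : ContinuousOn (fun t => HS K t) (Ioi 0) := by
  intro t ht
  have ht' : 0 < t := ht
  have h1 : (fun s => Sg K (s - t / 2) * HS K (t / 2)) =ᶠ[𝓝 t] fun s => HS K s := by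
    filter_upwards [Ioi_mem_nhds (half_lt_self ht')] with s hs
    rw [Sg_HS (by linarith [show t / 2 < s from hs]) (by positivity)]
    congr 1; ring
  have h2 : ContinuousAt (fun s => Sg K (s - t / 2) * HS K (t / 2)) t := by
    refine ContinuousAt.mul ?_ continuousAt_const
    have h3 : ContinuousAt (fun t => Sg K t) (t - t / 2) :=
      (Sg_hasDerivAt hK (by linarith)).continuousAt
    exact ContinuousAt.comp (f := fun s => s - t / 2) h3 (by fun_prop)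
  exact (h2.congr h1).continuousWithinAt

theorem AS_continuousOn (hK : 0 ≤ K) : ContinuousOn (fun t => AS K t) (Ioi 0) := by
  intro t ht
  have ht' : 0 < t := ht
  have h1 : (fun s => Sg K (s - t / 2) * AS K (t / 2)) =ᶠ[𝓝 t] fun s => AS K s := by
    filter_upwards [Ioi_mem_nhds (half_lt_self ht')] with s hs
    rw [Sg_AS (by linarith [show t / 2 < s from hs]) (by positivity)]
    congr 1; ring
  have h2 : ContinuousAt (fun s => Sg K (s - t / 2) * AS K (t / 2)) t := by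
    refine ContinuousAt.mul ?_ continuousAt_const
    have h3 : ContinuousAt (fun t => Sg K t) (t - t / 2) :=
      (Sg_hasDerivAt hK (by linarith)).continuousAt
    exact ContinuousAt.comp (f := fun s => s - t / 2) h3 (by fun_prop)
  exact (h2.congr h1).continuousWithinAt

/-- the range of a selfadjoint injective operator is dense -/
theorem denseRange_of_inj {L : E →L[ℂ] E} (hL : IsSelfAdjoint L) (hi : ∀ x, L x = 0 → x = 0) :
    DenseRange L := by
  have h1 : (LinearMap.range (L : E →ₗ[ℂ] E))ᗮ = ⊥ := by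
    rw [Submodule.eq_bot_iff]
    intro x hx
    apply hi
    rw [← inner_self_eq_zero (𝕜 := ℂ)]
    have h2 : ⟪L x, L x⟫_ℂ = ⟪L (L x), x⟫_ℂ :=
      ((ContinuousLinearMap.isSelfAdjoint_iff_isSymmetric.1 hL) (L x) x).symm
    rw [h2]
    exact (Submodule.mem_orthogonal _ x).1 hx _ ⟨L x, rfl⟩
  have h3 := (Submodule.topologicalClosure_eq_top_iff (K := LinearMap.range (L : E →ₗ[ℂ] E))).2 h1
  rw [DenseRange, dense_iff_closure_eq]
  have h4 : ((LinearMap.range (L : E →ₗ[ℂ] E)).topologicalClosure : Set E) = Set.univ := by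
    rw [h3]; rfl
  rw [Submodule.topologicalClosure_coe] at h4
  exact h4

theorem Kh_inj (hK : 0 ≤ K) (hi : ∀ x, K x = 0 → x = 0) (x : E) (hx : Kh K x = 0) : x = 0 := by
  apply hi; rw [← Kh_Kh hK, hx, map_zero]

/-- strong continuity at `0` -/
theorem Sg_tendsto_zero (hK : 0 ≤ K) (hi : ∀ x, K x = 0 → x = 0) (x : E) :
    Tendsto (fun t => Sg K t x) (𝓝 0) (𝓝 x) := by
  rw [Metric.tendsto_nhds]
  intro ε hε
  obtain ⟨y, hy⟩ := (denseRange_of_inj (selfAdjoint_of_nonneg hK) hi).exists_dist_lt x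
    (show 0 < ε / 3 by positivity)
  have h1 : ∀ᶠ t : ℝ in 𝓝 0, |t| * ‖y‖ < ε / 3 := by
    have : Tendsto (fun t : ℝ => |t| * ‖y‖) (𝓝 0) (𝓝 (|0| * ‖y‖)) :=
      (continuous_abs.tendsto 0).mul_const _
    rw [abs_zero, zero_mul] at this
    exact this.eventually (gt_mem_nhds (by positivity))
  filter_upwards [h1] with t ht
  rcases le_or_gt t 0 with h0 | h0
  · rw [Sg_nonpos h0]; simpa using hε
  have h2 : ‖Sg K t (K y) - K y‖ ≤ |t| * ‖y‖ := by
    have := ((Sg K t * K - K).le_of_opNorm_le (Sg_K_sub hK h0.le) y)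
    rw [abs_of_pos h0]
    exact this
  have h3 : ‖Sg K t (x - K y)‖ ≤ ‖x - K y‖ := Sg_norm_apply hK t _
  rw [dist_eq_norm] at hy ⊢
  calc ‖Sg K t x - x‖ = ‖Sg K t (x - K y) + (Sg K t (K y) - K y) - (x - K y)‖ := by
        rw [map_sub]; congr 1; abel
    _ ≤ ‖Sg K t (x - K y) + (Sg K t (K y) - K y)‖ + ‖x - K y‖ := norm_sub_le _ _
    _ ≤ ‖Sg K t (x - K y)‖ + ‖Sg K t (K y) - K y‖ + ‖x - K y‖ := by
        gcongr; exact norm_add_le _ _
    _ < ε := by linarith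

theorem Sg_continuousOn_apply (hK : 0 ≤ K) (hi : ∀ x, K x = 0 → x = 0) (x : E) :
    Continuous fun t => Sg K t x := by
  rw [continuous_iff_continuousAt]
  intro t
  rcases lt_trichotomy t 0 with ht | ht | ht
  · have : (fun t => Sg K t x) =ᶠ[𝓝 t] fun _ => x := by
      filter_upwards [Iio_mem_nhds ht] with s hs
      rw [Sg_nonpos (le_of_lt hs)]; rfl
    exact continuousAt_const.congr this.symm
  · subst ht
    rw [ContinuousAt, Sg_zero]
    exact Sg_tendsto_zero hK hi x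
  · have h1 := (Sg_hasDerivAt hK ht).continuousAt
    exact h1.clm_apply continuousAt_const

end SG

end Pool.Agent.Lib.MP_79abb3_an.SC
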