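import Pool.Agent.Lib.MP_79abb3_an.SC.ExT

/-!
Theorem C, stage for `L²` data: definitions. `n1 v w = ∑ (|v_n|_{L²} + |w_n|_{L²})` is the size of a velocity
in `ℓ¹(L²(0,H))`.
-/

set_option autoImplicit false
set_option linter.unusedSectionVars false

open MeasureTheory Set Filter Topology Function
open scoped ENNReal InnerProductSpace

namespace Pool.Agent.Lib.MP_79abb3_an.SC

open Pool.Agent.Lib.MP_79abb3_an.P25

section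
variable {H : ℝ} [hH : Fact (0 < H)]

/-- velocities in `ℓ¹(L²)` -/
def Sm1 (v w : ℤ → CI H) : Prop := (Summable fun n => ‖io v n‖) ∧ Summable fun n => ‖io w n‖

/-- the norm of velocities in `ℓ¹(L²)` -/
noncomputable def n1 (v w : ℤ → CI H) : ℝ := ∑' n, ‖io v n‖ + ∑' n, ‖io w n‖

theorem n1_nonneg (v w : ℤ → CI H) : 0 ≤ n1 v w :=
  add_nonneg (tsum_nonneg fun _ => norm_nonneg _) (tsum_nonneg fun _ => norm_nonneg _)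

namespace Geo
variable (G : Geo H)

/-- A background (`κ = 0`, no control) on `(0, b]` which is small in the scale invariant norms:
`|g_L| ≤ η r^{-1/2}`, `|u_e + u[V_L]|_{ℓ¹(L²)} ≤ η r^{-1/4}`, `|F_L| ≤ η r^{-1}`, `∫ |F_L| ≤ η`. -/
structure KB (B : Bg H) (b η : ℝ) : Prop where
  hb : 0 < b
  hη : 0 ≤ η
  cont : ∀ a, 0 < a → a ≤ b → B.Cont a b
  κ0 : ∀ t, B.κ t = 0
  κ1 : ∀ t, B.κ1 t = 0
  fc : ∀ t, B.fc t = 0
  g : ∀ r ∈ Ioc 0 b, ‖B.gL r‖ ≤ η * r ^ (-(1 / 2 : ℝ))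
  e1 : ∀ r ∈ Ioc 0 b, Sm1 (G.vf B r 0) (G.wf B r 0)
  e2 : ∀ r ∈ Ioc 0 b, n1 (G.vf B r 0) (G.wf B r 0) ≤ η * r ^ (-(1 / 4 : ℝ))
  F1 : ∀ r ∈ Ioc 0 b, ‖B.FL r‖ ≤ η * r⁻¹
  F2 : ∀ a ∈ Ioc 0 b, ∫ r in a..b, ‖B.FL r‖ ≤ η

end Geo

end

end Pool.Agent.Lib.MP_79abb3_an.SC
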