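import Pool.Agent.Lib.MP_79abb3_an.SC.ExA
import Pool.Agent.Lib.MP_79abb3_an.SC.L2Def

/-!
Theorem C, stage for `L²` data: Carlson's inequality and the sharp bound of the vortex force.
-/

set_option autoImplicit false
set_option linter.unusedSectionVars false

open MeasureTheory Set Filter Topology Function
open scoped ENNReal InnerProductSpace

namespace Pool.Agent.Lib.MP_79abb3_an.SC

open Pool.Agent.Lib.MP_79abb3_an.P25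

section
variable {H : ℝ} [hH : Fact (0 < H)]

/-- `∑_{n ≥ 0} (R+n)^{-2} ≤ 2/R` -/
private theorem nat_sum {R : ℝ} (hR : 1 ≤ R) :
    (Summable fun n : ℕ => ((R + n) ^ 2)⁻¹) ∧ ∑' n : ℕ, ((R + n) ^ 2)⁻¹ ≤ 2 / R := by
  have key : ∀ N : ℕ, ∑ n ∈ Finset.range N, ((R + n) ^ 2)⁻¹ ≤ 2 / R - 2 / (R + N) := by
    intro N
    induction N with
    | zero => simp
    | succ N ih =>
      rw [Finset.sum_range_succ]
      have hN : (0:ℝ) ≤ N := Nat.cast_nonneg N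
      have h1 : 0 < R + N := by linarith
      have h2 : 0 < R + N + 1 := by linarith
      have h3 : ((R + N) ^ 2)⁻¹ ≤ 2 / (R + N) - 2 / (R + N + 1) := by
        rw [div_sub_div _ _ h1.ne' h2.ne', inv_eq_one_div, div_le_div_iff₀ (by positivity) (by positivity)]
        nlinarith
      push_cast
      rw [← add_assoc]
      linarith
  have hnn : ∀ n : ℕ, 0 ≤ ((R + n) ^ 2)⁻¹ := fun n => by positivity
  have hb : ∀ N : ℕ, ∑ n ∈ Finset.range N, ((R + n) ^ 2)⁻¹ ≤ 2 / R := fun N => by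
    have hN : (0:ℝ) ≤ N := Nat.cast_nonneg N
    have h1 : 0 < R + N := by linarith
    have : 0 ≤ 2 / (R + N) := by positivity
    linarith [key N]
  exact ⟨summable_of_sum_range_le hnn hb, Real.tsum_le_of_sum_range_le hnn hb⟩

/-- `∑ (R² + λ_n²)^{-1} ≤ C/R` -/
private theorem lat_sum {lam : ℤ → ℝ} {c : ℝ} (hc : 0 < c) (hc1 : c ≤ 1)
    (h : ∀ n : ℤ, c * |(n : ℝ)| ≤ lam n) {R : ℝ} (hR : 1 ≤ R) :
    (Summable fun n : ℤ => (R ^ 2 + lam n ^ 2)⁻¹) ∧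
      ∑' n : ℤ, (R ^ 2 + lam n ^ 2)⁻¹ ≤ 8 / c ^ 2 / R := by
  have hR0 : 0 < R := by linarith
  have key : ∀ n : ℤ, (R ^ 2 + lam n ^ 2)⁻¹ ≤ 2 / c ^ 2 * ((R + |(n : ℝ)|) ^ 2)⁻¹ := by
    intro n
    have h0 := h n
    have ha := abs_nonneg (n : ℝ)
    have h1 : c ^ 2 * (R + |(n : ℝ)|) ^ 2 ≤ 2 * (R ^ 2 + lam n ^ 2) := by
      have h2 : (c * |(n : ℝ)|) ^ 2 ≤ lam n ^ 2 := pow_le_pow_left₀ (by positivity) h0 2
      have h3 : c ^ 2 * R ^ 2 ≤ R ^ 2 := by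
        have : c ^ 2 ≤ 1 := by nlinarith
        nlinarith [sq_nonneg R]
      nlinarith [sq_nonneg (c * R - c * |(n : ℝ)|)]
    rw [inv_eq_one_div, inv_eq_one_div, div_mul_div_comm, mul_one,
      div_le_div_iff₀ (by positivity) (by positivity)]
    linarith
  obtain ⟨s1, b1⟩ := nat_sum hR
  obtain ⟨g, hg⟩ : ∃ g : ℤ → ℝ, ∀ n, g n = ((R + |(n : ℝ)|) ^ 2)⁻¹ := ⟨_, fun _ => rfl⟩
  have hg0 : ∀ n, 0 ≤ g n := fun n => by rw [hg]; positivity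
  -- the sum over the integers
  have he : ∀ n : ℕ, g n = ((R + n) ^ 2)⁻¹ := fun n => by rw [hg]; simp
  have hs1 : Summable fun n : ℕ => g n := s1.congr fun n => (he n).symm
  have hle : ∀ n : ℕ, g (-(n + 1)) ≤ ((R + n) ^ 2)⁻¹ := by
    intro n
    have hn : (0:ℝ) ≤ n := Nat.cast_nonneg n
    have e : |((-((n : ℤ) + 1) : ℤ) : ℝ)| = (n : ℝ) + 1 := by
      push_cast
      rw [abs_neg, abs_of_nonneg (by linarith)]
    rw [hg, e]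
    exact inv_anti₀ (by positivity) (pow_le_pow_left₀ (by linarith) (by linarith) 2)
  have hs2 : Summable fun n : ℕ => g (-(n + 1)) :=
    Summable.of_nonneg_of_le (fun n => hg0 _) hle s1
  have hs : Summable g := Summable.of_nat_of_neg_add_one hs1 hs2
  have ht : ∑' n : ℤ, g n ≤ 4 / R := by
    have h0 : ∑' n : ℤ, g n = ∑' n : ℕ, g n + ∑' n : ℕ, g (-(n + 1)) :=
      tsum_of_nat_of_neg_add_one hs1 hs2
    have h1 : ∑' n : ℕ, g n ≤ 2 / R := le_trans (le_of_eq (tsum_congr fun n => he n)) b1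
    have h2 : ∑' n : ℕ, g (-(n + 1)) ≤ 2 / R := (hs2.tsum_le_tsum hle s1).trans b1
    have h3 : 4 / R = 2 / R + 2 / R := by ring
    rw [h3, h0]
    exact add_le_add h1 h2
  have hs' := hs.mul_left (2 / c ^ 2)
  have key' : ∀ n : ℤ, (R ^ 2 + lam n ^ 2)⁻¹ ≤ 2 / c ^ 2 * g n := fun n => by
    rw [hg]; exact key n
  have hfin : Summable fun n : ℤ => (R ^ 2 + lam n ^ 2)⁻¹ :=
    Summable.of_nonneg_of_le (fun n => by positivity) key' hs'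
  refine ⟨hfin, (hfin.tsum_le_tsum key' hs').trans ?_⟩
  rw [tsum_mul_left]
  calc 2 / c ^ 2 * ∑' n : ℤ, g n ≤ 2 / c ^ 2 * (4 / R) :=
        mul_le_mul_of_nonneg_left ht (by positivity)
    _ = 8 / c ^ 2 / R := by ring

/-- Carlson's inequality for sequences of numbers -/
private theorem carlson_num {lam : ℤ → ℝ} {c : ℝ} (hc : 0 < c) (hc1 : c ≤ 1) (h1 : ∀ n, 1 ≤ lam n)
    (h : ∀ n : ℤ, c * |(n : ℝ)| ≤ lam n) {x : ℤ → ℝ} (hx : ∀ n, 0 ≤ x n)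
    (s1 : Summable fun n => (lam n * x n) ^ 2) :
    Summable x ∧ ∑' n, x n ≤ 4 / c * √(√(∑' n, x n ^ 2) * √(∑' n, (lam n * x n) ^ 2)) := by
  have hle : ∀ n, x n ^ 2 ≤ (lam n * x n) ^ 2 := fun n =>
    pow_le_pow_left₀ (hx n) (le_mul_of_one_le_left (hx n) (h1 n)) 2
  have s0 : Summable fun n => x n ^ 2 := Summable.of_nonneg_of_le (fun n => sq_nonneg _) hle s1
  obtain ⟨A0, hA0⟩ : ∃ A0, A0 = √(∑' n, x n ^ 2) := ⟨_, rfl⟩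
  obtain ⟨A1, hA1⟩ : ∃ A1, A1 = √(∑' n, (lam n * x n) ^ 2) := ⟨_, rfl⟩
  have q0 : A0 ^ 2 = ∑' n, x n ^ 2 := by
    rw [hA0, Real.sq_sqrt (tsum_nonneg fun n => sq_nonneg _)]
  have q1 : A1 ^ 2 = ∑' n, (lam n * x n) ^ 2 := by
    rw [hA1, Real.sq_sqrt (tsum_nonneg fun n => sq_nonneg _)]
  have hA0' : 0 ≤ A0 := by rw [hA0]; exact Real.sqrt_nonneg _
  have hA1' : 0 ≤ A1 := by rw [hA1]; exact Real.sqrt_nonneg _
  have h01 : A0 ≤ A1 := by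
    rw [hA0, hA1]
    exact Real.sqrt_le_sqrt (s0.tsum_le_tsum hle s1)
  rw [← hA0, ← hA1]
  rcases eq_or_lt_of_le hA0' with hz | hpos
  · -- all numbers vanish
    have hall : ∀ n, x n = 0 := by
      intro n
      have h2 : ∑' n, x n ^ 2 = 0 := by rw [← q0, ← hz]; norm_num
      have h3 := (s0.hasSum_iff.2 h2)
      have h4 := (hasSum_zero_iff_of_nonneg (fun n => sq_nonneg (x n))).1 h3
      have h5 := congrFun h4 n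
      exact pow_eq_zero_iff (two_ne_zero) |>.1 h5
    have hx0 : x = fun _ => 0 := funext hall
    rw [hx0]
    refine ⟨summable_zero, ?_⟩
    rw [tsum_zero]
    positivity
  · obtain ⟨R, hR⟩ : ∃ R, R = A1 / A0 := ⟨_, rfl⟩
    have hR1 : 1 ≤ R := by rw [hR, le_div_iff₀ hpos, one_mul]; exact h01
    have hR0 : 0 < R := by linarith
    obtain ⟨sL, bL⟩ := lat_sum hc hc1 h hR1
    have hw : ∀ n, 0 < R ^ 2 + lam n ^ 2 := fun n => by positivity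
    -- Cauchy and Schwarz
    have e1 : ∀ n, (√(R ^ 2 + lam n ^ 2))⁻¹ ^ 2 = (R ^ 2 + lam n ^ 2)⁻¹ := fun n => by
      rw [inv_pow, Real.sq_sqrt (hw n).le]
    have e2 : ∀ n, (√(R ^ 2 + lam n ^ 2) * x n) ^ 2 = R ^ 2 * x n ^ 2 + (lam n * x n) ^ 2 := fun n => by
      rw [mul_pow, Real.sq_sqrt (hw n).le]; ring
    have s2 : Summable fun n => (√(R ^ 2 + lam n ^ 2) * x n) ^ 2 := by
      simp only [e2]
      exact (s0.mul_left _).add s1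
    obtain ⟨c1, c2⟩ := cs_tsum (x := fun n => (√(R ^ 2 + lam n ^ 2))⁻¹)
      (y := fun n => √(R ^ 2 + lam n ^ 2) * x n) (fun n => inv_nonneg.2 (Real.sqrt_nonneg _))
      (fun n => mul_nonneg (Real.sqrt_nonneg _) (hx n)) (by simp only [e1]; exact sL) s2
    have e3 : ∀ n, (√(R ^ 2 + lam n ^ 2))⁻¹ * (√(R ^ 2 + lam n ^ 2) * x n) = x n := fun n => by
      rw [← mul_assoc, inv_mul_cancel₀ (Real.sqrt_pos.2 (hw n)).ne', one_mul]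
    simp only [e3] at c1 c2
    refine ⟨c1, c2.trans ?_⟩
    simp only [e1, e2]
    have e4 : ∑' n, (R ^ 2 * x n ^ 2 + (lam n * x n) ^ 2) = 2 * A1 ^ 2 := by
      rw [(s0.mul_left _).tsum_add s1, tsum_mul_left, ← q0, ← q1, hR]
      field_simp
      ring
    rw [e4, ← Real.sqrt_mul (tsum_nonneg fun n => (inv_pos.2 (hw n)).le)]
    have e5 : 4 / c * √(A0 * A1) = √((4 / c) ^ 2 * (A0 * A1)) := by
      rw [Real.sqrt_mul (sq_nonneg (4 / c)) (A0 * A1), Real.sqrt_sq (by positivity)]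
    rw [e5]
    refine Real.sqrt_le_sqrt ?_
    calc (∑' n, (R ^ 2 + lam n ^ 2)⁻¹) * (2 * A1 ^ 2) ≤ 8 / c ^ 2 / R * (2 * A1 ^ 2) :=
          mul_le_mul_of_nonneg_right bL (by positivity)
      _ = (4 / c) ^ 2 * (A0 * A1) := by
          have hA1p : 0 < A1 := lt_of_lt_of_le hpos h01
          rw [hR]
          field_simp
          ring

/-- **Carlson's inequality.** Proof: `λ_n = N₀ + |ωn| ≥ max(1, ω|n|)`; for `R ≥ 1`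
`∑ 1/(R² + λ_n²) ≤ ∑ 1/(R²+ω²n²) ≤ C/R`; `∑ ‖a_n‖ ≤ (∑ 1/(R²+λ_n²))^{1/2} (∑ (R²+λ_n²) ‖a_n‖²)^{1/2}`, with
`R = N2 1 a / N2 0 a ≥ 1` (if `a ≠ 0`) the last factor is `√2 N2 1 a`. -/
theorem Geo.carlson (G : Geo H) : ∃ C, 0 ≤ C ∧ ∀ a : ℤ → Z2 H, S2 G.lam 1 a →
    (Summable fun n => ‖a n‖) ∧ ∑' n, ‖a n‖ ≤ C * √(N2 G.lam 0 a * N2 G.lam 1 a) := by
  have hω := G.ω_pos
  have hc : 0 < min G.ω 1 := lt_min hω one_pos
  refine ⟨4 / min G.ω 1, by positivity, fun a ha => ?_⟩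
  have h1 := G.lw.h1
  have h2 : ∀ n : ℤ, min G.ω 1 * |(n : ℝ)| ≤ G.lam n := by
    intro n
    have h3 : min G.ω 1 * |(n : ℝ)| ≤ G.ω * |(n : ℝ)| :=
      mul_le_mul_of_nonneg_right (min_le_left _ _) (abs_nonneg _)
    have h4 : G.ω * |(n : ℝ)| = |G.ω * n| := by rw [abs_mul, abs_of_pos hω]
    have h5 := G.hN
    unfold Geo.lam
    linarith
  have s1 : Summable fun n => (G.lam n * ‖a n‖) ^ 2 := by
    unfold S2 at ha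
    simpa only [Real.rpow_one] using ha
  obtain ⟨c1, c2⟩ := carlson_num hc (min_le_right _ _) h1 h2 (fun n => norm_nonneg (a n)) s1
  refine ⟨c1, ?_⟩
  unfold N2
  simpa only [Real.rpow_one, Real.rpow_zero, one_mul] using c2

/-- Endpoint trilinear bound (Young): `|∑_n ⟪r_n, ∑_j u_{n-j} y_j⟫| ≤ ∑ |r_n|_∞ |u_{n-j}|_2 |y_j|_2`.
Use `norm_inner_mz_le`, `young21`, `cs_tsum`. -/
theorem dp_pz_end {lam : ℤ → ℝ} (pw : PrW lam 0 (1 / 2) (1 / 4)) (y : HH H) {u r : ℤ → CI H}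
    (s2 : S2 lam (1 / 2) u) (su : Summable fun n => ‖io u n‖) (sr : Summable fun n => ‖r n‖ ^ 2) :
    ‖dp (io r) (pz y u)‖ ≤ ‖y‖ * (∑' n, ‖io u n‖) * √(∑' n, ‖r n‖ ^ 2) := by
  obtain ⟨c1, -, -⟩ := cvm_bd zero_le_one mz_bd pw.h1 pw.ha pw.hb pw.hc pw.hs (S2_l2 lam y) s2
  obtain ⟨y1, y2, y3⟩ := young21 (a := fun n => ‖y n‖) (b := fun n => ‖io u n‖)
    (fun n => norm_nonneg _) (fun n => norm_nonneg _) (l2_summable y) su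
  obtain ⟨z1, z2⟩ := cs_tsum (x := fun n => ‖r n‖) (y := fun n => ∑' m, ‖y m‖ * ‖io u (n - m)‖)
    (fun n => norm_nonneg _) (fun n => tsum_nonneg fun m => by positivity) sr y2
  have key : ∀ n, ‖⟪io r n, pz y u n⟫_ℂ‖ ≤ ‖r n‖ * ∑' m, ‖y m‖ * ‖io u (n - m)‖ := by
    intro n
    have hs := ((c1 n).of_norm).hasSum
    have h1 := hs.mapL (innerSL ℂ (io r n))
    have h2 : ⟪io r n, pz y u n⟫_ℂ = ∑' j, ⟪io r n, mz (u (n - j)) (y j)⟫_ℂ := h1.tsum_eq.symm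
    have h3 : ∀ j, ‖⟪io r n, mz (u (n - j)) (y j)⟫_ℂ‖ ≤ ‖r n‖ * (‖y j‖ * ‖io u (n - j)‖) := fun j =>
      (norm_inner_mz_le (r n) (u (n - j)) (y j)).trans (le_of_eq (by unfold io; ring))
    have h4 : Summable fun j => ‖r n‖ * (‖y j‖ * ‖io u (n - j)‖) := (y1 n).mul_left _
    have h5 : Summable fun j => ‖⟪io r n, mz (u (n - j)) (y j)⟫_ℂ‖ :=
      Summable.of_nonneg_of_le (fun _ => norm_nonneg _) h3 h4
    rw [h2, ← tsum_mul_left]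
    exact (norm_tsum_le_tsum_norm h5).trans (h5.tsum_le_tsum h3 h4)
  have h5 : Summable fun n => ‖⟪io r n, pz y u n⟫_ℂ‖ :=
    Summable.of_nonneg_of_le (fun _ => norm_nonneg _) key z1
  have hy0 : ∑' n, ‖y n‖ ^ 2 = ‖y‖ ^ 2 := (l2_norm_sq y).symm
  have h6 : √(∑' n, (∑' m, ‖y m‖ * ‖io u (n - m)‖) ^ 2) ≤ ‖y‖ * ∑' n, ‖io u n‖ := by
    rw [Real.sqrt_le_left (mul_nonneg (norm_nonneg _) (tsum_nonneg fun n => norm_nonneg _)), mul_pow,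
      ← hy0]
    exact y3
  calc ‖dp (io r) (pz y u)‖ ≤ ∑' n, ‖⟪io r n, pz y u n⟫_ℂ‖ := norm_tsum_le_tsum_norm h5
    _ ≤ ∑' n, ‖r n‖ * ∑' m, ‖y m‖ * ‖io u (n - m)‖ := h5.tsum_le_tsum key z1
    _ ≤ √(∑' n, ‖r n‖ ^ 2) * √(∑' n, (∑' m, ‖y m‖ * ‖io u (n - m)‖) ^ 2) := z2
    _ ≤ √(∑' n, ‖r n‖ ^ 2) * (‖y‖ * ∑' n, ‖io u n‖) :=
        mul_le_mul_of_nonneg_left h6 (Real.sqrt_nonneg _)
    _ = _ := by ring

/-- `u[T g]` in `ℓ²(CI)`: Agmon's inequality (as in `N2_Vf`, weight `0`): `‖V‖² ≤ 2 |V| |V_z|`, `V(H) = 0`, and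
`‖D E V‖² ≤ 2 |D E V| |D (V - D E V)|`, `(E V)(0) = 0`. -/
theorem Geo.ninf (G : Geo H) : ∃ C, 0 ≤ C ∧ ∀ g : HH H,
    ((Summable fun n => ‖uV G.ω (Vf G.ω g) n‖ ^ 2) ∧ Summable fun n => ‖wV G.ω (Vf G.ω g) n‖ ^ 2) ∧
    √(∑' n, ‖uV G.ω (Vf G.ω g) n‖ ^ 2) + √(∑' n, ‖wV G.ω (Vf G.ω g) n‖ ^ 2) ≤
      C * √(‖TT G.ω g‖ * ‖g‖) := by
  refine ⟨6, by norm_num, fun g => ?_⟩
  have eZ : (fun n => ka G.ω n • (iota (Vf G.ω g n) : Z2 H) - g n) = ⇑(Xz G.ω g) := by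
    funext n
    rw [Xz_apply]; rfl
  have h2 : (2 : ℝ) * 0 = 0 := by norm_num
  have h1 := agmon_fam0 (s := 0) G.lw.h1 (Vf_dz G.ω g)
    (fun n => ⟨H, H_memI, Vf_H G.ω g n⟩)
    (by rw [io_Vf, h2]; exact S2_l2 _ _) (by rw [eZ]; exact S2_l2 _ _)
  rw [eZ, h2, io_Vf, N2_l2, N2_l2] at h1
  have h3 := norm_Xz_le G.ω g
  have h4 : N2 G.lam 0 (Vf G.ω g) ^ 2 ≤ (2 * √(‖TT G.ω g‖ * ‖g‖)) ^ 2 := by
    rw [mul_pow, Real.sq_sqrt (by positivity)]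
    refine h1.2.trans ?_
    have := norm_nonneg (TT G.ω g)
    nlinarith [mul_le_mul_of_nonneg_left h3 this]
  have h5 : N2 G.lam 0 (Vf G.ω g) ≤ 2 * √(‖TT G.ω g‖ * ‖g‖) :=
    abs_le_of_sq_le_sq' h4 (by positivity) |>.2
  obtain ⟨a1, a2⟩ := S2_dom (s := 0) G.lw.h1 (by norm_num) (norm_uV_le G.ω (Vf G.ω g)) h1.1
  obtain ⟨b1, b2⟩ := S2_dom (s := 0) G.lw.h1 (by norm_num) (norm_wV_le G.ω (Vf G.ω g)) h1.1
  unfold S2 at a1 b1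
  unfold N2 at a2 b2 h5
  simp only [Real.rpow_zero, one_mul] at a1 a2 b1 b2 h5
  exact ⟨⟨a1, b1⟩, by linarith⟩

/-- `u[T g]` in `ℓ¹(L²)`. Proof: `carlson` for `io (uV ..)`, `io (wV ..)`; `|u| ≤ 2 |T g|`, `|Λ u| ≤ C |g|`
(`norm_iuV_le`, `norm_iwV_le`, `N2_TT`, `norm_LT`). -/
theorem Geo.n1_U (G : Geo H) : ∃ C, 0 ≤ C ∧ ∀ g : HH H,
    Sm1 (uV G.ω (Vf G.ω g)) (wV G.ω (Vf G.ω g)) ∧
    n1 (uV G.ω (Vf G.ω g)) (wV G.ω (Vf G.ω g)) ≤ C * √(‖TT G.ω g‖ * ‖g‖) := by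
  obtain ⟨C, hC, hcar⟩ := G.carlson
  refine ⟨3 * (C * √‖(LT G.ω G.lam 1 : HH H →L[ℂ] HH H)‖), by positivity, fun g => ?_⟩
  obtain ⟨s1, b1⟩ := hcar (TT G.ω g) (S2_TT G g).1
  rw [N2_l2, N2_TT G le_rfl] at b1
  have h1 : ∑' n, ‖TT G.ω g n‖ ≤
      C * √‖(LT G.ω G.lam 1 : HH H →L[ℂ] HH H)‖ * √(‖TT G.ω g‖ * ‖g‖) := by
    refine b1.trans ?_
    rw [mul_assoc]
    refine mul_le_mul_of_nonneg_left ?_ hC
    rw [← Real.sqrt_mul (norm_nonneg _)]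
    refine Real.sqrt_le_sqrt ?_
    have h2 := (LT G.ω G.lam 1 : HH H →L[ℂ] HH H).le_opNorm g
    calc ‖TT G.ω g‖ * ‖LT G.ω G.lam 1 g‖ ≤ ‖TT G.ω g‖ *
          (‖(LT G.ω G.lam 1 : HH H →L[ℂ] HH H)‖ * ‖g‖) :=
          mul_le_mul_of_nonneg_left h2 (norm_nonneg _)
      _ = _ := by ring
  have hu : ∀ n, ‖io (uV G.ω (Vf G.ω g)) n‖ ≤ 2 * ‖TT G.ω g n‖ := fun n => by
    have := norm_iuV_le G.ω (Vf G.ω g) n
    rwa [io_Vf] at this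
  have hw : ∀ n, ‖io (wV G.ω (Vf G.ω g)) n‖ ≤ 1 * ‖TT G.ω g n‖ := fun n => by
    have := norm_iwV_le G.ω (Vf G.ω g) n
    rwa [io_Vf] at this
  have su : Summable fun n => ‖io (uV G.ω (Vf G.ω g)) n‖ :=
    Summable.of_nonneg_of_le (fun _ => norm_nonneg _) hu (s1.mul_left 2)
  have sw : Summable fun n => ‖io (wV G.ω (Vf G.ω g)) n‖ :=
    Summable.of_nonneg_of_le (fun _ => norm_nonneg _) hw (s1.mul_left 1)
  refine ⟨⟨su, sw⟩, ?_⟩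
  have t1 := su.tsum_le_tsum hu (s1.mul_left 2)
  have t2 := sw.tsum_le_tsum hw (s1.mul_left 1)
  rw [tsum_mul_left] at t1 t2
  unfold n1
  linarith

private theorem tZ_io' (ω : ℝ) (V : ℤ → CI H) : tZ ω (io V) = io (uV ω V) := by
  funext n
  unfold tZ io uV
  rw [map_sub, map_smul, E2_apply]

private theorem tY_io' (ω : ℝ) (V : ℤ → CI H) : tY ω (io V) = io (fun n => -wV ω V n) := by
  funext n
  unfold tY io wV
  rw [map_neg, map_smul, E2_apply, neg_smul, neg_neg]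

/-- **Sharp bound of the vortex force.** Proof: `inner_LT_Pw`, `bf = dp (tZ f) (pz y w) + dp (tY f) (pz y v)`,
`f = TT g = io (Vf g)`, `tZ (io V) = io (uV V)`, `tY (io V) = - io (wV V)`, `dp_pz_end`, `ninf`. -/
theorem Geo.Pw_sharp (G : Geo H) : ∃ C, 0 ≤ C ∧ ∀ (g y : HH H) (U W : l2 (CI H)),
    Sm1 (hf G.lam U) (hf G.lam W) →
    ‖⟪LT G.ω G.lam (1 / 4) g, G.Pw y U W⟫_ℂ‖ ≤
      C * ‖y‖ * n1 (hf G.lam U) (hf G.lam W) * √(‖TT G.ω g‖ * ‖g‖) := by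
  obtain ⟨C, hC, hn⟩ := G.ninf
  refine ⟨C, hC, fun g y U W hS => ?_⟩
  obtain ⟨⟨su, sw⟩, hb⟩ := hn g
  rw [inner_LT_Pw, ← io_Vf]
  unfold bf
  rw [tZ_io', tY_io']
  have hsw : Summable fun n => ‖(fun n => -wV G.ω (Vf G.ω g) n) n‖ ^ 2 := by
    simpa only [norm_neg] using sw
  have h1 := dp_pz_end G.pw y (S2_hf G.lw.h1 W).1 hS.2 su
  have h2 := dp_pz_end G.pw y (S2_hf G.lw.h1 U).1 hS.1 hsw
  have e : √(∑' n, ‖(fun n => -wV G.ω (Vf G.ω g) n) n‖ ^ 2) =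
      √(∑' n, ‖wV G.ω (Vf G.ω g) n‖ ^ 2) := by simp only [norm_neg]
  rw [e] at h2
  obtain ⟨a, ha⟩ : ∃ a, a = √(∑' n, ‖uV G.ω (Vf G.ω g) n‖ ^ 2) := ⟨_, rfl⟩
  obtain ⟨b, hb'⟩ : ∃ b, b = √(∑' n, ‖wV G.ω (Vf G.ω g) n‖ ^ 2) := ⟨_, rfl⟩
  rw [← ha] at h1 hb
  rw [← hb'] at h2 hb
  have ha0 : 0 ≤ a := by rw [ha]; exact Real.sqrt_nonneg _
  have hb0 : 0 ≤ b := by rw [hb']; exact Real.sqrt_nonneg _
  obtain ⟨p, hp⟩ : ∃ p, p = ∑' n, ‖io (hf G.lam U) n‖ := ⟨_, rfl⟩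
  obtain ⟨q, hq⟩ : ∃ q, q = ∑' n, ‖io (hf G.lam W) n‖ := ⟨_, rfl⟩
  have hp0 : 0 ≤ p := by rw [hp]; exact tsum_nonneg fun _ => norm_nonneg _
  have hq0 : 0 ≤ q := by rw [hq]; exact tsum_nonneg fun _ => norm_nonneg _
  rw [← hq] at h1
  rw [← hp] at h2
  have en : n1 (hf G.lam U) (hf G.lam W) = p + q := by unfold n1; rw [hp, hq]
  rw [en]
  have hy := norm_nonneg y
  calc ‖_ + _‖ ≤ _ := norm_add_le _ _
    _ ≤ ‖y‖ * q * a + ‖y‖ * p * b := add_le_add h1 h2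
    _ ≤ ‖y‖ * (p + q) * (a + b) := by
        have h3 : 0 ≤ ‖y‖ * p * a := by positivity
        have h4 : 0 ≤ ‖y‖ * q * b := by positivity
        nlinarith
    _ ≤ ‖y‖ * (p + q) * (C * √(‖TT G.ω g‖ * ‖g‖)) :=
        mul_le_mul_of_nonneg_left hb (by positivity)
    _ = _ := by ring

/-- **Kernels.** Proof: `norm_le_of_inner`; `⟪φ, AS τ (J3 z)⟫ = ⟪LT (Qd (AS τ φ)), z⟫` (`AS_inner`, `inner_J3`);
`g = Qd (AS τ φ)`: `‖TT g‖ = ‖Kh (AS τ φ)‖ = ‖HS τ φ‖ ≤ τ^{-1/2} ‖φ‖`, `‖g‖ ≤ c ‖AS τ φ‖ ≤ c τ⁻¹ ‖φ‖` (`OD.QAS`); and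
`⟪φ, Kh (AS τ (J3 z))⟫ = ⟪LT (Qd (HS τ φ)), z⟫`, `g = Qd (HS τ φ)`: `‖TT g‖ = ‖Sg τ φ‖ ≤ ‖φ‖`,
`‖g‖ ≤ c τ^{-1/2} ‖φ‖` (see `LT_Qd_HS`, `kerW` in `ExD`). -/
theorem Geo.Pw_ker (G : Geo H) : ∃ C, 0 ≤ C ∧ ∀ (y : HH H) (U W : l2 (CI H)),
    Sm1 (hf G.lam U) (hf G.lam W) → ∀ τ, 0 < τ →
    ‖AS G.D.K τ (G.J3 (G.Pw y U W))‖ ≤
      C * ‖y‖ * n1 (hf G.lam U) (hf G.lam W) * τ ^ (-(3 / 4 : ℝ)) ∧
    ‖Kh G.D.K (AS G.D.K τ (G.J3 (G.Pw y U W)))‖ ≤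
      C * ‖y‖ * n1 (hf G.lam U) (hf G.lam W) * τ ^ (-(1 / 4 : ℝ)) := by
  obtain ⟨C, hC, hP⟩ := G.Pw_sharp
  obtain ⟨d, hd⟩ : ∃ d, d = (√G.D.c₀)⁻¹ := ⟨_, rfl⟩
  have hd0 : 0 ≤ d := by rw [hd]; positivity
  have hK := G.D.K_nonneg
  refine ⟨C * √d, by positivity, fun y U W hS τ hτ => ?_⟩
  have hn := n1_nonneg (hf G.lam U) (hf G.lam W)
  obtain ⟨m, hm⟩ : ∃ m, m = n1 (hf G.lam U) (hf G.lam W) := ⟨_, rfl⟩
  rw [← hm] at hn ⊢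
  have hrt : (√τ)⁻¹ = τ ^ (-(1 / 2 : ℝ)) := by rw [Real.rpow_neg hτ.le, ← Real.sqrt_eq_rpow]
  have hy := norm_nonneg y
  -- square roots
  have sq1 : ∀ (A B s t : ℝ) (φ : HH H), 0 ≤ A → 0 ≤ B → A ≤ τ ^ s * ‖φ‖ → B ≤ d * τ ^ t * ‖φ‖ →
      √(A * B) ≤ √d * τ ^ ((s + t) / 2) * ‖φ‖ := by
    intro A B s t φ hA hB h1 h2
    rw [Real.sqrt_le_left (by positivity)]
    refine (mul_le_mul h1 h2 hB (by positivity)).trans (le_of_eq ?_)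
    rw [mul_pow, mul_pow, Real.sq_sqrt hd0, ← Real.rpow_natCast (τ ^ ((s + t) / 2)) 2,
      ← Real.rpow_mul hτ.le]
    have e : (s + t) / 2 * ((2 : ℕ) : ℝ) = s + t := by push_cast; ring
    rw [e, Real.rpow_add hτ]
    ring
  constructor
  · refine norm_le_of_inner (by positivity) fun φ => ?_
    rw [← AS_inner, inner_J3]
    refine (hP (G.Qd (AS G.D.K τ φ)) y U W hS).trans ?_
    rw [← hm]
    have e1 : TT G.ω (G.Qd (AS G.D.K τ φ)) = HS G.D.K τ φ := by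
      rw [G.TT_Qd]
      exact congrArg (fun A : HH H →L[ℂ] HH H => A φ) (Kh_AS hK hτ)
    have h1 : ‖TT G.ω (G.Qd (AS G.D.K τ φ))‖ ≤ τ ^ (-(1 / 2 : ℝ)) * ‖φ‖ := by
      rw [e1, ← hrt]
      exact (HS G.D.K τ).le_of_opNorm_le (HS_norm hK hτ) φ
    have h2 : ‖G.Qd (AS G.D.K τ φ)‖ ≤ d * τ ^ (-1 : ℝ) * ‖φ‖ := by
      rw [hd, Real.rpow_neg_one]
      exact G.D.QAS hτ φ
    have h3 := sq1 _ _ _ _ φ (norm_nonneg _) (norm_nonneg _) h1 h2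
    rw [show (-(1 / 2 : ℝ) + -1) / 2 = -(3 / 4) by norm_num] at h3
    calc C * ‖y‖ * m * √(‖TT G.ω (G.Qd (AS G.D.K τ φ))‖ * ‖G.Qd (AS G.D.K τ φ)‖)
        ≤ C * ‖y‖ * m * (√d * τ ^ (-(3 / 4 : ℝ)) * ‖φ‖) :=
          mul_le_mul_of_nonneg_left h3 (by positivity)
      _ = _ := by ring
  · refine norm_le_of_inner (by positivity) fun φ => ?_
    rw [← Kh_inner, ← AS_inner, AS_Kh hK hτ, inner_J3]
    refine (hP (G.Qd (HS G.D.K τ φ)) y U W hS).trans ?_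
    rw [← hm]
    have e1 : TT G.ω (G.Qd (HS G.D.K τ φ)) = Sg G.D.K τ φ := by
      rw [G.TT_Qd]
      exact congrArg (fun A : HH H →L[ℂ] HH H => A φ) (Kh_HS hK hτ)
    have h1 : ‖TT G.ω (G.Qd (HS G.D.K τ φ))‖ ≤ τ ^ (0 : ℝ) * ‖φ‖ := by
      rw [e1, Real.rpow_zero, one_mul]
      exact Sg_norm_apply hK τ φ
    have h2 : ‖G.Qd (HS G.D.K τ φ)‖ ≤ d * τ ^ (-(1 / 2 : ℝ)) * ‖φ‖ := by
      refine (G.D.isKh.norm_Q_le _).trans ?_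
      rw [← hd, mul_assoc]
      refine mul_le_mul_of_nonneg_left ?_ hd0
      rw [← hrt]
      exact (HS G.D.K τ).le_of_opNorm_le (HS_norm hK hτ) φ
    have h3 := sq1 _ _ _ _ φ (norm_nonneg _) (norm_nonneg _) h1 h2
    rw [show ((0 : ℝ) + -(1 / 2)) / 2 = -(1 / 4) by norm_num] at h3
    calc C * ‖y‖ * m * √(‖TT G.ω (G.Qd (HS G.D.K τ φ))‖ * ‖G.Qd (HS G.D.K τ φ)‖)
        ≤ C * ‖y‖ * m * (√d * τ ^ (-(1 / 4 : ℝ)) * ‖φ‖) :=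
          mul_le_mul_of_nonneg_left h3 (by positivity)
      _ = _ := by ring

end

end Pool.Agent.Lib.MP_79abb3_an.SC
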