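import Pool.Agent.Lib.MP_79abb3_an.SC.ExA

/-!
Theorem C, phase 0 and free phase: `q` stays zero if `κ = 0`.
-/

set_option autoImplicit false
set_option linter.unusedSectionVars false

open MeasureTheory Set Filter Topology Function
open scoped ENNReal InnerProductSpace

namespace Pool.Agent.Lib.MP_79abb3_an.SC

open Pool.Agent.Lib.MP_79abb3_an.P25

section
variable {H : ℝ} [hH : Fact (0 < H)]

theorem Ms_zero' (x : HH H) : Ms (0 : CI H) x = 0 := by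
  ext1
  funext n
  rw [Ms_apply, map_zero]
  rfl

namespace Geo
variable {G : Geo H} {B : Bg H} {t₀ t₁ : ℝ} {x₀ : HH H × HH H} {x : ℝ → HH H × HH H}

/-- **`q = 0` is preserved if `κ = 0`.** -/
theorem Sol.q_zero (h : G.Sol B t₀ t₁ x₀ x) (hB : B.Cont t₀ t₁)
    (hκ : ∀ t ∈ Icc t₀ t₁, B.κ t = 0) (hκ1 : ∀ t ∈ Icc t₀ t₁, B.κ1 t = 0) (h0 : x₀.1 = 0) :
    ∀ t ∈ Icc t₀ t₁, (x t).1 = 0 := by
  obtain ⟨C, hC⟩ := ker_one G.lamOK G.Do rfl
  have hC0 := hC.C0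
  have cuv : ContinuousOn (fun t => G.uv B t (x t)) (Icc t₀ t₁) := by
    obtain ⟨M, hM⟩ := NlE.of_aff (uv_aff (G := G) hB)
    exact hM.cont_comp h.cont
  have cuw : ContinuousOn (fun t => G.uw B t (x t)) (Icc t₀ t₁) := by
    obtain ⟨M, hM⟩ := NlE.of_aff (uw_aff (G := G) hB)
    exact hM.cont_comp h.cont
  obtain ⟨Rv, hRv⟩ := isCompact_Icc.exists_bound_of_continuousOn cuv
  obtain ⟨Rw, hRw⟩ := isCompact_Icc.exists_bound_of_continuousOn cuw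
  obtain ⟨P, hP⟩ : ∃ P, P = CP G.lam (0 + 1 / 2 + 1 / 4) := ⟨_, rfl⟩
  have hP0 : 0 ≤ P := by rw [hP]; exact CP_nonneg _
  obtain ⟨Q, hQ⟩ : ∃ Q, Q = ‖G.Qo‖ := ⟨_, rfl⟩
  have hQ0 : 0 ≤ Q := by rw [hQ]; exact norm_nonneg _
  obtain ⟨M, hM⟩ : ∃ M, M = P * Q * |Rv| + P * (2 * Q) * |Rw| := ⟨_, rfl⟩
  have hM0 : 0 ≤ M := by rw [hM]; positivity
  have bf1 : ∀ r ∈ Icc t₀ t₁, ‖G.f1 B r (x r)‖ ≤ M * ‖(x r).1‖ := by
    intro r hr
    have b0 : ‖G.Qo (x r).1‖ ≤ Q * ‖(x r).1‖ := by rw [hQ]; exact G.Qo.le_opNorm _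
    have b1 := norm_Xy_le G.ω (G.Qo (x r).1)
    have b2 := norm_Xz_le G.ω (G.Qo (x r).1)
    have p1 := prd_le G.pw (Xy G.ω (G.Qo (x r).1)) (G.uv B r (x r))
    have p2 := prd_le G.pw (Xz G.ω (G.Qo (x r).1)) (G.uw B r (x r))
    rw [← hP] at p1 p2
    have v1 : ‖G.uv B r (x r)‖ ≤ |Rv| := (hRv r hr).trans (le_abs_self _)
    have v2 : ‖G.uw B r (x r)‖ ≤ |Rw| := (hRw r hr).trans (le_abs_self _)
    show ‖-(prd G.pw (Xy G.ω (G.Qo (x r).1)) (G.uv B r (x r)) +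
      prd G.pw (Xz G.ω (G.Qo (x r).1)) (G.uw B r (x r)))‖ ≤ _
    rw [norm_neg]
    have n0 := norm_nonneg (x r).1
    calc _ ≤ P * ‖Xy G.ω (G.Qo (x r).1)‖ * ‖G.uv B r (x r)‖ +
          P * ‖Xz G.ω (G.Qo (x r).1)‖ * ‖G.uw B r (x r)‖ := (norm_add_le _ _).trans (add_le_add p1 p2)
      _ ≤ P * (1 * (Q * ‖(x r).1‖)) * |Rv| + P * (2 * (Q * ‖(x r).1‖)) * |Rw| := by
          gcongr
          · exact b1.trans (mul_le_mul_of_nonneg_left b0 zero_le_one)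
          · exact b2.trans (mul_le_mul_of_nonneg_left b0 zero_le_two)
      _ = _ := by rw [hM]; ring
  have bf2 : ∀ r ∈ Icc t₀ t₁, G.f2 B r (x r) = 0 := by
    intro r hr
    show Ms (B.κ r) (G.gV B r (x r)) - Ms (B.κ1 r) (G.VV B r (x r)) = 0
    rw [hκ r hr, hκ1 r hr, Ms_zero', Ms_zero', sub_zero]
  obtain ⟨μ, hμ, hgr⟩ := kth_gron (show (0:ℝ) ≤ 5 / 8 by norm_num) (by norm_num)
    (show 0 ≤ C * M by positivity)
  have hc1 : ContinuousOn (fun t => ‖(x t).1‖) (Icc t₀ t₁) :=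
    (continuous_fst.comp_continuousOn h.cont).norm
  have key : ∀ t ∈ Icc t₀ t₁, ‖(x t).1‖ ≤ 0 + C * M * ∫ r in t₀..t, kth (5 / 8) (t - r) * ‖(x r).1‖ := by
    intro t ht
    rw [(h.eq12 hB ht).1, h0, map_zero, zero_add, zero_add]
    have i1 : IntervalIntegrable (fun r => C * M * (kth (5 / 8) (t - r) * ‖(x r).1‖)) volume t₀ t := by
      refine ((kth_int' (show (5 / 8 : ℝ) < 1 by norm_num) t t₀ t).mul_continuousOn ?_).const_mul _
      rw [uIcc_of_le ht.1]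
      exact hc1.mono (Icc_subset_Icc le_rfl ht.2)
    have e2 : ‖∫ r in t₀..t, AS G.Do.K (t - r) ((G.J1.coprod G.J2) (G.f1 B r (x r), G.f2 B r (x r)))‖ ≤
        ∫ r in t₀..t, C * M * (kth (5 / 8) (t - r) * ‖(x r).1‖) := by
      refine intervalIntegral.norm_integral_le_of_norm_le ht.1 ?_ i1
      have : ∀ᵐ r : ℝ ∂volume, r ≠ t := by simp [ae_iff, measure_singleton]
      filter_upwards [this] with r hrt hr
      have h3 : 0 < t - r := sub_pos.2 (lt_of_le_of_ne hr.2 hrt)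
      have hrI : r ∈ Icc t₀ t₁ := ⟨hr.1.le, hr.2.trans ht.2⟩
      have h4 := hC.lb (t - r) h3 (G.f1 B r (x r), G.f2 B r (x r))
      have h5 : ‖(G.f1 B r (x r), G.f2 B r (x r))‖ ≤ M * ‖(x r).1‖ := by
        rw [bf2 r hrI, Prod.norm_def]
        simp only [norm_zero]
        exact max_le (bf1 r hrI) (by positivity)
      have k0 := kth_pos (5 / 8) h3
      calc _ ≤ C * kth (5 / 8) (t - r) * ‖(G.f1 B r (x r), G.f2 B r (x r))‖ := h4
        _ ≤ C * kth (5 / 8) (t - r) * (M * ‖(x r).1‖) := by gcongr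
        _ = _ := by ring
    rw [intervalIntegral.integral_const_mul] at e2
    exact e2
  intro t ht
  have h1 := hgr t₀ t₁ 0 (fun t => ‖(x t).1‖) le_rfl hc1 (fun t _ => norm_nonneg _) key t ht
  rw [mul_zero, zero_mul] at h1
  exact norm_le_zero_iff.1 h1

end Geo

end

end Pool.Agent.Lib.MP_79abb3_an.SC
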