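import Pool.Agent.Lib.MP_79abb3_an.SC.ExZ
import Pool.Agent.Lib.MP_79abb3_an.SC.L2A
import Pool.Agent.Lib.MP_79abb3_an.SC.PzB

/-!
Theorem C, stage for `L²` data: limits of mild solutions, reduction to the second component.
-/

set_option autoImplicit false
set_option linter.unusedSectionVars false

open MeasureTheory Set Filter Topology Function
open scoped ENNReal InnerProductSpace

namespace Pool.Agent.Lib.MP_79abb3_an.SC

open Pool.Agent.Lib.MP_79abb3_an.P25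

section Abs
variable {X Y : Type} [NormedAddCommGroup X] [NormedSpace ℂ X] [CompleteSpace X]
  [NormedAddCommGroup Y] [NormedSpace ℂ Y]
variable {S : ℝ → (X →L[ℂ] X)} {L : ℝ → (Y →L[ℂ] X)} {C θ : ℝ} {Φ : ℝ → X → Y}

/-- Uniform limits of mild solutions are mild solutions. -/
theorem Mild.lim (hk : Ker S L C θ) {M a b : ℝ} (hΦ : Nl Φ M a b) (hab : a ≤ b) {x : ℕ → ℝ → X}
    {y : ℝ → X} (hs : ∀ k, Mild S L Φ a b (x k a) (x k))
    (hu : TendstoUniformlyOn x y atTop (Icc a b)) : Mild S L Φ a b (y a) y := by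
  have hyc : ContinuousOn y (Icc a b) :=
    hu.continuousOn (Eventually.of_forall fun k => (hs k).cont).frequently
  refine ⟨hyc, fun t ht => ?_⟩
  obtain ⟨R0, hR0⟩ := isCompact_Icc.exists_bound_of_continuousOn hyc
  obtain ⟨R, hR⟩ : ∃ R, R = |R0| := ⟨_, rfl⟩
  have hRb : ∀ r ∈ Icc a b, ‖y r‖ ≤ R := fun r hr => by
    rw [hR]; exact (hR0 r hr).trans (le_abs_self _)
  have hR' : 0 ≤ R := by rw [hR]; exact abs_nonneg _
  obtain ⟨I, hI⟩ : ∃ I, I = ∫ τ in (0:ℝ)..(t - a), kth θ τ := ⟨_, rfl⟩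
  have hI0 : 0 ≤ I := by
    rw [hI]
    exact intervalIntegral.integral_nonneg (sub_nonneg.2 ht.1) fun r hr => kth_nonneg θ hr.1
  have hM := hΦ.M0
  have hC := hk.C0
  have key : ∀ ε, 0 < ε → ‖y t - (S (t - a) (y a) + duh L a (fun r => Φ r (y r)) t)‖ ≤
      (2 + C * (M * (2 + 2 * R)) * I) * ε := by
    intro ε hε
    obtain ⟨δ, hδ⟩ : ∃ δ, δ = min ε 1 := ⟨_, rfl⟩
    have hδ0 : 0 < δ := by rw [hδ]; exact lt_min hε one_pos
    have hδε : δ ≤ ε := by rw [hδ]; exact min_le_left _ _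
    have hδ1 : δ ≤ 1 := by rw [hδ]; exact min_le_right _ _
    have h1 := Metric.tendstoUniformlyOn_iff.1 hu δ hδ0
    obtain ⟨k, hk1⟩ := h1.exists
    have hd : ∀ r ∈ Icc a b, ‖x k r - y r‖ ≤ δ := fun r hr => by
      have := hk1 r hr
      rw [dist_comm, dist_eq_norm] at this
      exact this.le
    have ha : a ∈ Icc a b := ⟨le_rfl, hab⟩
    have e1 := (hs k).eq' ht
    have hΦx := hΦ.cont_comp (hs k).cont
    have hΦy := hΦ.cont_comp hyc
    have e2 : duh L a (fun r => Φ r (x k r)) t - duh L a (fun r => Φ r (y r)) t =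
        ∫ r in a..t, L (t - r) (Φ r (x k r) - Φ r (y r)) := by
      unfold duh
      rw [← intervalIntegral.integral_sub (hk.int_aux hΦx ht ⟨le_rfl, ht.1⟩)
        (hk.int_aux hΦy ht ⟨le_rfl, ht.1⟩)]
      exact intervalIntegral.integral_congr fun r _ => (map_sub _ _ _).symm
    have b2 : ∀ r ∈ Icc a t, ‖Φ r (x k r) - Φ r (y r)‖ ≤ M * (2 + 2 * R) * δ := by
      intro r hr
      have hr' : r ∈ Icc a b := ⟨hr.1, hr.2.trans ht.2⟩
      refine (hΦ.lip r hr' _ _).trans ?_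
      have n1 := hd r hr'
      have n2 := hRb r hr'
      have n3 : ‖x k r‖ ≤ R + 1 := by
        have := norm_add_le (x k r - y r) (y r)
        rw [sub_add_cancel] at this
        linarith
      have n4 := norm_nonneg (x k r)
      have n5 := norm_nonneg (y r)
      calc M * (1 + ‖x k r‖ + ‖y r‖) * ‖x k r - y r‖ ≤ M * (1 + (R + 1) + R) * δ := by gcongr
        _ = _ := by ring
    have b1 := hk.duh_norm_le (hΦx.sub hΦy) ht (c := a) ⟨le_rfl, ht.1⟩ b2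
    rw [← hI] at b1
    have e3 : y t - (S (t - a) (y a) + duh L a (fun r => Φ r (y r)) t) =
        (y t - x k t) + S (t - a) (x k a - y a) +
          (duh L a (fun r => Φ r (x k r)) t - duh L a (fun r => Φ r (y r)) t) := by
      rw [map_sub, e1]; abel
    have n6 : ‖y t - x k t‖ ≤ δ := by rw [norm_sub_rev]; exact hd t ht
    have n7 : ‖S (t - a) (x k a - y a)‖ ≤ δ :=
      (hk.sb _ (sub_nonneg.2 ht.1) _).trans (hd a ha)
    rw [e3, e2]
    refine (norm_add_le _ _).trans ?_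
    refine (add_le_add (norm_add_le _ _) le_rfl).trans ?_
    have n8 : (2 + C * (M * (2 + 2 * R)) * I) * δ ≤ (2 + C * (M * (2 + 2 * R)) * I) * ε := by gcongr
    calc _ ≤ δ + δ + C * (M * (2 + 2 * R) * δ) * I := add_le_add (add_le_add n6 n7) b1
      _ = (2 + C * (M * (2 + 2 * R)) * I) * δ := by ring
      _ ≤ _ := n8
  have h0 : ‖y t - (S (t - a) (y a) + duh L a (fun r => Φ r (y r)) t)‖ ≤ 0 := by
    refine le_of_forall_pos_le_add fun ε hε => ?_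
    have hc : 0 < 2 + C * (M * (2 + 2 * R)) * I := by positivity
    have := key (ε / (2 + C * (M * (2 + 2 * R)) * I)) (by positivity)
    rw [mul_div_cancel₀ _ hc.ne'] at this
    linarith
  exact sub_eq_zero.1 (norm_le_zero_iff.1 h0)

end Abs

section
variable {H : ℝ} [hH : Fact (0 < H)]

namespace Geo
variable (G : Geo H)

/-- Restriction of solutions. -/
theorem Sol.rest {G : Geo H} {B : Bg H} {a b : ℝ} {x₀ : HH H × HH H} {x : ℝ → HH H × HH H}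
    (hs : G.Sol B a b x₀ x) (hB : B.Cont a b) {c d : ℝ} (hac : a ≤ c) (hcd : c ≤ d) (hdb : d ≤ b) :
    G.Sol B c d (x c) x := by
  obtain ⟨C, hC⟩ := G.ker
  obtain ⟨M, hM⟩ := Phi_nl (G := G) hB
  exact (Mild.restart hC hM hs ⟨hac, hcd.trans hdb⟩).restrict hdb

/-- Uniform limits of solutions are solutions. -/
theorem Sol.lim {G : Geo H} {B : Bg H} {a b : ℝ} (hab : a ≤ b) (hB : B.Cont a b)
    {x : ℕ → ℝ → HH H × HH H} {y : ℝ → HH H × HH H} (hs : ∀ k, G.Sol B a b (x k a) (x k))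
    (hu : TendstoUniformlyOn x y atTop (Icc a b)) : G.Sol B a b (y a) y := by
  obtain ⟨C, hC⟩ := G.ker
  obtain ⟨M, hM⟩ := Phi_nl (G := G) hB
  exact Mild.lim hC hM hab hs hu

/-- Reduction to the second component: `κ = 0`, `fc = 0`, `x₀.1 = 0`. -/
theorem Sol.eqh {G : Geo H} {B : Bg H} {a b : ℝ} {x₀ : HH H × HH H} {x : ℝ → HH H × HH H}
    (hs : G.Sol B a b x₀ x) (hB : B.Cont a b) (hκ : ∀ t, B.κ t = 0) (hκ1 : ∀ t, B.κ1 t = 0)
    (hf : ∀ t, B.fc t = 0) (h0 : x₀.1 = 0) (hab : a ≤ b) :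
    (∀ t ∈ Icc a b, (x t).1 = 0) ∧ (x a).2 = x₀.2 ∧
    (∀ t ∈ Icc a b, G.f3 B t (x t) = G.Pw (Ms G.ζ (cm G.a (G.Qd (x t).2 + B.gL t)))
      (G.uv B t (x t)) (G.uw B t (x t)) ∧ G.f4 B t (x t) = B.FL t) ∧
    ∀ t ∈ Icc a b, (x t).2 = Sg G.D.K (t - a) (x a).2 +
      ∫ r in a..t, AS G.D.K (t - r) (G.J3 (G.f3 B r (x r)) + Kh G.D.K (B.FL r)) := by
  have hq := hs.q_zero hB (fun t _ => hκ t) (fun t _ => hκ1 t) h0
  obtain ⟨C, hC⟩ := G.ker
  have hi : x a = x₀ := hs.init hC hab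
  have hqL : ∀ t ∈ Icc a b, G.qL (x t).1 = 0 := fun t ht => by rw [hq t ht, map_zero]
  have hgV : ∀ t ∈ Icc a b, G.gV B t (x t) = G.Qd (x t).2 + B.gL t := by
    intro t ht
    show G.Qd (x t).2 + B.gL t - Ms G.ζ (cm G.J (G.qL (x t).1)) = _
    rw [hqL t ht, map_zero, map_zero, sub_zero]
  have h4 : ∀ t ∈ Icc a b, G.f4 B t (x t) = B.FL t := by
    intro t ht
    show (-(2:ℂ) • Xz G.ω (Ms G.ζ1 (G.qL (x t).1)) +
      TT G.ω (Ms G.ζ2 (G.qL (x t).1) + Ms G.ζ1 (Ms (B.κ t) (G.VV B t (x t)))) +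
      LT G.ω G.lam (1 / 4) (Ms G.ζ1 (prd G.pw (G.qL (x t).1) (G.uw B t (x t))))) +
      (Ms G.ζ (Ms (B.κ t) (G.VV B t (x t))) - Ms (B.κ t) (G.VV B t (x t))) + (B.FL t + B.fc t) = _
    rw [hqL t ht, hκ t, hf t, G.prd_zero, Ms_zero', map_zero (Ms G.ζ1), map_zero (Ms G.ζ2),
      map_zero (Xz G.ω), map_zero (LT G.ω G.lam (1 / 4)), map_zero (Ms G.ζ), add_zero, add_zero,
      map_zero (TT G.ω), smul_zero, sub_zero, add_zero, add_zero, zero_add, add_zero]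
  refine ⟨hq, by rw [hi], fun t ht => ⟨?_, h4 t ht⟩, fun t ht => ?_⟩
  · show G.Pw (Ms G.ζ (G.qL (x t).1) + Ms G.ζ (cm G.a (G.gV B t (x t)))) _ _ = _
    rw [hqL t ht, map_zero, zero_add, hgV t ht]
  · rw [(hs.eq12 hB ht).2, hi]
    congr 1
    refine intervalIntegral.integral_congr fun r hr => ?_
    rw [uIcc_of_le ht.1] at hr
    have hr' : r ∈ Icc a b := ⟨hr.1, hr.2.trans ht.2⟩
    show AS G.D.K (t - r) (G.J3 (G.f3 B r (x r)) + G.J4 (G.f4 B r (x r))) = _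
    rw [h4 r hr', J4_eq]

theorem uV_Vf_add (ω : ℝ) (g g' : HH H) (n : ℤ) :
    uV ω (Vf ω (g + g')) n = uV ω (Vf ω g) n + uV ω (Vf ω g') n := by
  have e : Vf ω (g + g') n = Vf ω g n + Vf ω g' n := map_add (Tz (ω * n)) (g n) (g' n)
  have h1 : uV ω (Vf ω (g + g')) n = uV ω (fun _ => Vf ω g n + Vf ω g' n) n := uV_congr ω e
  rw [h1, uV_add]
  rfl

theorem wV_Vf_add (ω : ℝ) (g g' : HH H) (n : ℤ) :
    wV ω (Vf ω (g + g')) n = wV ω (Vf ω g) n + wV ω (Vf ω g') n := by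
  have e : Vf ω (g + g') n = Vf ω g n + Vf ω g' n := map_add (Tz (ω * n)) (g n) (g' n)
  have h1 : wV ω (Vf ω (g + g')) n = wV ω (fun _ => Vf ω g n + Vf ω g' n) n := wV_congr ω e
  rw [h1, wV_add]
  rfl

/-- The velocity is the sum of `u[W]` and of the background velocity. -/
theorem vf_split (B : Bg H) (t : ℝ) (x : HH H × HH H) (n : ℤ) :
    G.vf B t x n = uV G.ω (Vf G.ω (G.Qd x.2)) n + G.vf B t 0 n := by
  rw [vf_apply, vf_apply, ← add_assoc]
  congr 1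
  have e : G.gt B t 0 = B.gL t := by
    show G.Qd (0 : HH H × HH H).2 + B.gL t = _
    rw [Prod.snd_zero, map_zero, zero_add]
  rw [e, ← uV_Vf_add]
  rfl

theorem wf_split (B : Bg H) (t : ℝ) (x : HH H × HH H) (n : ℤ) :
    G.wf B t x n = wV G.ω (Vf G.ω (G.Qd x.2)) n + G.wf B t 0 n := by
  rw [wf_apply, wf_apply, ← add_assoc]
  congr 1
  have e : G.gt B t 0 = B.gL t := by
    show G.Qd (0 : HH H × HH H).2 + B.gL t = _
    rw [Prod.snd_zero, map_zero, zero_add]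
  rw [e, ← wV_Vf_add]
  rfl

theorem n1_add {v w v' w' : ℤ → CI H} (h : Sm1 v w) (h' : Sm1 v' w') :
    Sm1 (fun n => v n + v' n) (fun n => w n + w' n) ∧
    n1 (fun n => v n + v' n) (fun n => w n + w' n) ≤ n1 v w + n1 v' w' := by
  have b1 : ∀ n, ‖io (fun n => v n + v' n) n‖ ≤ ‖io v n‖ + ‖io v' n‖ := fun n => by
    rw [io_apply, map_add]; exact norm_add_le _ _
  have b2 : ∀ n, ‖io (fun n => w n + w' n) n‖ ≤ ‖io w n‖ + ‖io w' n‖ := fun n => by
    rw [io_apply, map_add]; exact norm_add_le _ _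
  have s1 := h.1.add h'.1
  have s2 := h.2.add h'.2
  have t1 : Summable fun n => ‖io (fun n => v n + v' n) n‖ :=
    Summable.of_nonneg_of_le (fun _ => norm_nonneg _) b1 s1
  have t2 : Summable fun n => ‖io (fun n => w n + w' n) n‖ :=
    Summable.of_nonneg_of_le (fun _ => norm_nonneg _) b2 s2
  refine ⟨⟨t1, t2⟩, ?_⟩
  have c1 := t1.tsum_le_tsum b1 s1
  have c2 := t2.tsum_le_tsum b2 s2
  rw [h.1.tsum_add h'.1] at c1
  rw [h.2.tsum_add h'.2] at c2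
  unfold n1
  linarith

theorem n1_vf : ∃ C, 0 ≤ C ∧ ∀ (B : Bg H) (t : ℝ) (x : HH H × HH H), Sm1 (G.vf B t 0) (G.wf B t 0) →
    Sm1 (G.vf B t x) (G.wf B t x) ∧
    n1 (G.vf B t x) (G.wf B t x) ≤ C * √(‖Kh G.D.K x.2‖ * ‖x.2‖) + n1 (G.vf B t 0) (G.wf B t 0) := by
  obtain ⟨C, hC, h1⟩ := G.n1_U
  refine ⟨C * √‖G.Qd‖, by positivity, fun B t x hs => ?_⟩
  obtain ⟨a1, a2⟩ := h1 (G.Qd x.2)
  obtain ⟨b1, b2⟩ := n1_add a1 hs
  have e1 : (fun n => uV G.ω (Vf G.ω (G.Qd x.2)) n + G.vf B t 0 n) = G.vf B t x :=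
    funext fun n => (G.vf_split B t x n).symm
  have e2 : (fun n => wV G.ω (Vf G.ω (G.Qd x.2)) n + G.wf B t 0 n) = G.wf B t x :=
    funext fun n => (G.wf_split B t x n).symm
  rw [e1, e2] at b1 b2
  refine ⟨b1, b2.trans (add_le_add (a2.trans ?_) le_rfl)⟩
  rw [G.TT_Qd, mul_assoc]
  refine mul_le_mul_of_nonneg_left ?_ hC
  rw [← Real.sqrt_mul (norm_nonneg _)]
  refine Real.sqrt_le_sqrt ?_
  have := G.Qd.le_opNorm x.2
  calc ‖Kh G.D.K x.2‖ * ‖G.Qd x.2‖ ≤ ‖Kh G.D.K x.2‖ * (‖G.Qd‖ * ‖x.2‖) := by gcongr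
    _ = _ := by ring

/-- `KB` on a shorter interval. -/
theorem KB.mono {G : Geo H} {B : Bg H} {b b' η : ℝ} (h : G.KB B b η) (hb : 0 < b') (hbb : b' ≤ b) :
    G.KB B b' η where
  hb := hb
  hη := h.hη
  cont a ha hab := by
    have := h.cont a ha (hab.trans hbb)
    have hs : Icc a b' ⊆ Icc a b := Icc_subset_Icc le_rfl hbb
    exact ⟨this.ve.mono hs, this.we.mono hs, this.gL.mono hs, this.FL.mono hs, this.fc.mono hs,
      this.κ.mono hs, this.κ1.mono hs⟩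
  κ0 := h.κ0
  κ1 := h.κ1
  fc := h.fc
  g r hr := h.g r ⟨hr.1, hr.2.trans hbb⟩
  e1 r hr := h.e1 r ⟨hr.1, hr.2.trans hbb⟩
  e2 r hr := h.e2 r ⟨hr.1, hr.2.trans hbb⟩
  F1 r hr := h.F1 r ⟨hr.1, hr.2.trans hbb⟩
  F2 a ha := by
    refine le_trans ?_ (h.F2 a ⟨ha.1, ha.2.trans hbb⟩)
    have hc := (h.cont a ha.1 (ha.2.trans hbb)).FL
    refine intervalIntegral.integral_mono_interval le_rfl ha.2 hbb ?_ ?_
    · exact Eventually.of_forall fun _ => norm_nonneg _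
    · refine (hc.norm).intervalIntegrable_of_Icc (ha.2.trans hbb)

end Geo

end

end Pool.Agent.Lib.MP_79abb3_an.SC
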