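import Pool.Agent.Lib.MP_79abb3_an.SC.PieceDef

/-!
Theorem C (MP_79abb3_an), block (v): charts of the flow region by a region of the upper half plane,
and solutions in the strip.
-/

set_option autoImplicit false

open MeasureTheory Set Filter Topology Function
open scoped RealInnerProductSpace ComplexConjugate

namespace Pool.Agent.Lib.MP_79abb3_an.SC

/-- The point `y + i z`. -/
def cxp (q : ℝ × ℝ) : ℂ := ⟨q.1, q.2⟩

@[simp] theorem cxp_re (q : ℝ × ℝ) : (cxp q).re = q.1 := rfl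
@[simp] theorem cxp_im (q : ℝ × ℝ) : (cxp q).im = q.2 := rfl

/-- The derivative of `F` (where `F` is conformal). -/
noncomputable def dF (F : ℂ → ℂ) (ζ : ℂ) : ℂ := fderiv ℝ F ζ 1

/-- A chart `F : O → Ω`: `O` is an open subset of the rectangle `|y| ≤ r`, `0 < z ≤ r`, `F` is smooth on
the plane, holomorphic on `O`, injective on the closure of `O` with non vanishing derivative, and the
wall `∂Ω ∖ Γ` is contained in the image of the line `z = 0`. -/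
structure IsChart (F : ℂ → ℂ) (O Ω Γ : Set ℂ) (r : ℝ) : Prop where
  smooth : ContDiff ℝ ((⊤ : ℕ∞) : WithTop ℕ∞) F
  op : IsOpen O
  pos : ∀ ζ ∈ O, 0 < ζ.im
  box : ∀ ζ ∈ O, |ζ.re| ≤ r ∧ ζ.im ≤ r
  holo : DifferentiableOn ℂ F O
  inj : InjOn F (closure O)
  der : ∀ ζ ∈ closure O, dF F ζ ≠ 0
  img : Ω = F '' O
  wall : frontier Ω \ Γ ⊆ F '' (closure O ∩ {ζ | ζ.im = 0})

section
variable {E : Type*} [NormedAddCommGroup E] [NormedSpace ℝ E]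

/-- Derivatives of functions of `(t, (y, z))`. -/
noncomputable def st (G : ℝ × (ℝ × ℝ) → E) (p : ℝ × (ℝ × ℝ)) : E := fderiv ℝ G p (1, (0, 0))
noncomputable def sy (G : ℝ × (ℝ × ℝ) → E) (p : ℝ × (ℝ × ℝ)) : E := fderiv ℝ G p (0, (1, 0))
noncomputable def sz (G : ℝ × (ℝ × ℝ) → E) (p : ℝ × (ℝ × ℝ)) : E := fderiv ℝ G p (0, (0, 1))

/-- Test functions on `(0,T) × (-H,H) × (0,h)`. -/
structure IsTs (T H h : ℝ) (G : ℝ × (ℝ × ℝ) → E) : Prop where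
  smooth : ContDiff ℝ ((⊤ : ℕ∞) : WithTop ℕ∞) G
  cpt : HasCompactSupport G
  supp : tsupport G ⊆ Ioo 0 T ×ˢ (Ioo (-H) H ×ˢ Ioo 0 h)

/-- Pull back of a function on `ℝ × Ω` to the strip. -/
noncomputable def pb (F : ℂ → ℂ) (O : Set ℂ) (φ : ℝ × ℂ → E) (p : ℝ × (ℝ × ℝ)) : E :=
  open Classical in if cxp p.2 ∈ O then φ (p.1, F (cxp p.2)) else 0

end

/-- Solutions in the strip on `(0,T]` with data `(v₀, w₀)`. `grad` says (in duality form) that the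
gradient of the velocity is in `L²((0,T) × (-H,H) × (0,h))`. -/
structure StripSol (H h : ℝ) (a : ℝ × ℝ → ℝ) (T : ℝ) (v w : ℝ → ℝ × ℝ → ℝ) (v₀ w₀ : ℝ × ℝ → ℝ) :
    Prop where
  piece : ∀ t₁ ∈ Ioc 0 T, Piece H h a t₁ T v w
  grad : ∃ C, ∀ φ : ℝ × (ℝ × ℝ) → ℝ, IsTs T H h φ →
    |∫ p, v p.1 p.2 * sy φ p| ≤ C * √(∫ p, φ p ^ 2) ∧
    |∫ p, v p.1 p.2 * sz φ p| ≤ C * √(∫ p, φ p ^ 2) ∧
    |∫ p, w p.1 p.2 * sy φ p| ≤ C * √(∫ p, φ p ^ 2) ∧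
    |∫ p, w p.1 p.2 * sz φ p| ≤ C * √(∫ p, φ p ^ 2)
  bdd : ∃ C, ∀ t ∈ Ioc 0 T, ∫ q in Icc (-H) H ×ˢ Icc 0 h, (v t q ^ 2 + w t q ^ 2) ≤ C
  meas₁ : MemLp v₀ 2 (volume.restrict (Icc (-H) H ×ˢ Icc 0 h))
  meas₂ : MemLp w₀ 2 (volume.restrict (Icc (-H) H ×ˢ Icc 0 h))
  init : Tendsto (fun t => ∫ q in Icc (-H) H ×ˢ Icc 0 h, ((v t q - v₀ q) ^ 2 + (w t q - w₀ q) ^ 2))
    (𝓝[>] 0) (𝓝 0)

end Pool.Agent.Lib.MP_79abb3_an.SC
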