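import Mathlib

/-!
Theorem C, block (ii): abstract semilinear parabolic equations
`x(t) = S(t-a) x₀ + ∫_a^t L(t-r) Φ(r, x(r)) dr` with a contraction semigroup `S` and kernels
`‖L τ‖ ≤ C (1 + τ^{-θ})`, `θ < 1`.
-/

set_option autoImplicit false
set_option linter.unusedSectionVars false

open MeasureTheory Set Filter Topology

namespace Pool.Agent.Lib.MP_79abb3_an.SC

/-- the singular kernel bound `1 + τ^{-θ}` -/
noncomputable def kth (θ τ : ℝ) : ℝ := 1 + τ ^ (-θ)

section kth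

variable {θ : ℝ}

theorem kth_pos (θ : ℝ) {τ : ℝ} (h : 0 < τ) : 0 < kth θ τ := by
  unfold kth
  have := Real.rpow_pos_of_pos h (-θ)
  linarith

theorem kth_nonneg (θ : ℝ) {τ : ℝ} (h : 0 ≤ τ) : 0 ≤ kth θ τ := by
  unfold kth
  have := Real.rpow_nonneg h (-θ)
  linarith

theorem one_le_kth (θ : ℝ) {τ : ℝ} (h : 0 ≤ τ) : 1 ≤ kth θ τ := by
  unfold kth
  have := Real.rpow_nonneg h (-θ)
  linarith

theorem kth_int (h1 : θ < 1) (a b : ℝ) : IntervalIntegrable (kth θ) volume a b := by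
  unfold kth
  exact (intervalIntegrable_const).add (intervalIntegral.intervalIntegrable_rpow' (by linarith))

theorem kth_int' (h1 : θ < 1) (t a b : ℝ) :
    IntervalIntegrable (fun r => kth θ (t - r)) volume a b := by
  have := (kth_int h1 (t - a) (t - b)).comp_sub_left t
  simpa using this

theorem kth_integral (h1 : θ < 1) (T : ℝ) :
    ∫ τ in (0:ℝ)..T, kth θ τ = T + T ^ (1 - θ) / (1 - θ) := by
  unfold kth
  rw [intervalIntegral.integral_add intervalIntegrable_const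
    (intervalIntegral.intervalIntegrable_rpow' (by linarith)),
    integral_rpow (Or.inl (by linarith))]
  simp only [intervalIntegral.integral_const, sub_zero, smul_eq_mul, mul_one]
  rw [Real.zero_rpow (by linarith), sub_zero, show -θ + 1 = 1 - θ by ring]

/-- the smallness of the integral for short times -/
theorem kth_small (h1 : θ < 1) {ε : ℝ} (hε : 0 < ε) :
    ∃ h > 0, h ≤ 1 ∧ ∀ T, 0 ≤ T → T ≤ h → ∫ τ in (0:ℝ)..T, kth θ τ ≤ ε := by
  have h2 : Tendsto (fun T : ℝ => T + T ^ (1 - θ) / (1 - θ)) (𝓝 0) (𝓝 (0 + 0 ^ (1 - θ) / (1 - θ))) := by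
    refine Tendsto.add tendsto_id ?_
    refine Tendsto.div_const ?_ _
    exact (Real.continuousAt_rpow_const 0 (1 - θ) (Or.inr (by linarith))).tendsto
  rw [Real.zero_rpow (by linarith), zero_div, add_zero] at h2
  obtain ⟨d, hd, h3⟩ := Metric.eventually_nhds_iff.1 (h2.eventually (gt_mem_nhds hε))
  refine ⟨min (d / 2) 1, by positivity, min_le_right _ _, fun T hT hT' => ?_⟩
  rw [kth_integral h1 T]
  refine le_of_lt (h3 ?_)
  rw [Real.dist_eq, sub_zero, abs_of_nonneg hT]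
  exact lt_of_le_of_lt (hT'.trans (min_le_left _ _)) (by linarith)

end kth

section Abs

variable {X Y : Type} [NormedAddCommGroup X] [NormedSpace ℂ X] [CompleteSpace X]
  [NormedAddCommGroup Y] [NormedSpace ℂ Y]

/-- a contraction semigroup `S` on `X` and kernels `L τ : Y → X` -/
structure Ker (S : ℝ → (X →L[ℂ] X)) (L : ℝ → (Y →L[ℂ] X)) (C θ : ℝ) : Prop where
  C0 : 0 ≤ C
  th0 : 0 ≤ θ
  th1 : θ < 1
  s0 : ∀ x, S 0 x = x
  sadd : ∀ s t, 0 ≤ s → 0 ≤ t → ∀ x, S (s + t) x = S s (S t x)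
  scont : ∀ x, Continuous fun t => S t x
  sb : ∀ t, 0 ≤ t → ∀ x, ‖S t x‖ ≤ ‖x‖
  ls : ∀ s t, 0 ≤ s → 0 < t → ∀ y, L (s + t) y = S s (L t y)
  lb : ∀ t, 0 < t → ∀ y, ‖L t y‖ ≤ C * kth θ t * ‖y‖

/-- the nonlinearity on `[a, b]` -/
structure Nl (Φ : ℝ → X → Y) (M a b : ℝ) : Prop where
  M0 : 0 ≤ M
  cont : ∀ x, ContinuousOn (fun t => Φ t x) (Icc a b)
  lip : ∀ t ∈ Icc a b, ∀ x y, ‖Φ t x - Φ t y‖ ≤ M * (1 + ‖x‖ + ‖y‖) * ‖x - y‖
  bd : ∀ t ∈ Icc a b, ‖Φ t 0‖ ≤ M

/-- mild solutions on `[a, b]` -/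
structure Mild (S : ℝ → (X →L[ℂ] X)) (L : ℝ → (Y →L[ℂ] X)) (Φ : ℝ → X → Y) (a b : ℝ) (x₀ : X)
    (x : ℝ → X) : Prop where
  cont : ContinuousOn x (Icc a b)
  eq : ∀ t ∈ Icc a b, x t = S (t - a) x₀ + ∫ r in a..t, L (t - r) (Φ r (x r))

variable {S : ℝ → (X →L[ℂ] X)} {L : ℝ → (Y →L[ℂ] X)} {C θ : ℝ} {Φ : ℝ → X → Y}

theorem Ker.lcont (hk : Ker S L C θ) (y : Y) : ContinuousOn (fun t => L t y) (Ioi 0) := by
  intro t ht
  have ht' : 0 < t := ht
  have h1 : (fun s => S (s - t / 2) (L (t / 2) y)) =ᶠ[𝓝 t] fun s => L s y := by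
    filter_upwards [Ioi_mem_nhds (half_lt_self ht')] with s hs
    have hs' : t / 2 < s := hs
    rw [← hk.ls _ _ (by linarith) (by positivity)]
    congr 2; ring
  have h2 : ContinuousAt (fun s => S (s - t / 2) (L (t / 2) y)) t :=
    ((hk.scont (L (t / 2) y)).comp (continuous_id.sub continuous_const)).continuousAt
  exact (h2.congr h1).continuousWithinAt

/-- joint continuity of `(τ, y) ↦ L τ y` along curves -/
theorem Ker.lcont_comp (hk : Ker S L C θ) {Z : Type} [TopologicalSpace Z] {s : Set Z} {τ : Z → ℝ}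
    {y : Z → Y} (hτ : ContinuousOn τ s) (hy : ContinuousOn y s) (hpos : ∀ z ∈ s, 0 < τ z) :
    ContinuousOn (fun z => L (τ z) (y z)) s := by
  intro z hz
  have h1 : Tendsto (fun w => L (τ w) (y z)) (𝓝[s] z) (𝓝 (L (τ z) (y z))) := by
    have h2 : ContinuousAt (fun t => L t (y z)) (τ z) :=
      (hk.lcont (y z)).continuousAt (Ioi_mem_nhds (hpos z hz))
    exact h2.tendsto.comp (hτ z hz)
  have h3 : Tendsto (fun w => L (τ w) (y w - y z)) (𝓝[s] z) (𝓝 0) := by
    rw [tendsto_zero_iff_norm_tendsto_zero]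
    have h4 : Tendsto (fun w => C * kth θ (τ w) * ‖y w - y z‖) (𝓝[s] z)
        (𝓝 (C * kth θ (τ z) * 0)) := by
      refine Tendsto.mul (Tendsto.const_mul C ?_) ?_
      · have h5 : ContinuousAt (kth θ) (τ z) := by
          unfold kth
          exact continuousAt_const.add
            (Real.continuousAt_rpow_const _ _ (Or.inl (hpos z hz).ne'))
        exact h5.tendsto.comp (hτ z hz)
      · exact tendsto_iff_norm_sub_tendsto_zero.1 (hy z hz)
    rw [mul_zero] at h4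
    refine squeeze_zero' (Eventually.of_forall fun _ => norm_nonneg _) ?_ h4
    filter_upwards [self_mem_nhdsWithin] with w hw
    exact hk.lb _ (hpos w hw) _
  have h6 := h1.add h3
  rw [add_zero] at h6
  refine h6.congr fun w => ?_
  rw [map_sub]; abel

theorem Ker.scont_comp (hk : Ker S L C θ) {Z : Type} [TopologicalSpace Z] {s : Set Z} {τ : Z → ℝ}
    {x : Z → X} (hτ : ContinuousOn τ s) (hx : ContinuousOn x s) (hpos : ∀ z ∈ s, 0 ≤ τ z) :
    ContinuousOn (fun z => S (τ z) (x z)) s := by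
  intro z hz
  have h1 : Tendsto (fun w => S (τ w) (x z)) (𝓝[s] z) (𝓝 (S (τ z) (x z))) :=
    ((hk.scont (x z)).tendsto (τ z)).comp (hτ z hz)
  have h3 : Tendsto (fun w => S (τ w) (x w - x z)) (𝓝[s] z) (𝓝 0) := by
    rw [tendsto_zero_iff_norm_tendsto_zero]
    have h4 := tendsto_iff_norm_sub_tendsto_zero.1 (hx z hz)
    refine squeeze_zero' (Eventually.of_forall fun _ => norm_nonneg _) ?_ h4
    filter_upwards [self_mem_nhdsWithin] with w hw
    exact hk.sb _ (hpos w hw) _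
  have h6 := h1.add h3
  rw [add_zero] at h6
  refine h6.congr fun w => ?_
  rw [map_sub]; abel

/-- the Duhamel integral -/
noncomputable def duh (L : ℝ → (Y →L[ℂ] X)) (a : ℝ) (f : ℝ → Y) (t : ℝ) : X :=
  ∫ r in a..t, L (t - r) (f r)

theorem duh_self (a : ℝ) (f : ℝ → Y) : duh L a f a = 0 := intervalIntegral.integral_same

theorem Ker.int_aux (hk : Ker S L C θ) {a b t : ℝ} {f : ℝ → Y} (hf : ContinuousOn f (Icc a b))
    (ht : t ∈ Icc a b) {c : ℝ} (hc : c ∈ Icc a t) :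
    IntervalIntegrable (fun r => L (t - r) (f r)) volume c t := by
  obtain ⟨R, hR⟩ := isCompact_Icc.exists_bound_of_continuousOn hf
  have h1 : ContinuousOn (fun r => L (t - r) (f r)) (Ioo c t) := by
    refine hk.lcont_comp (by fun_prop) (hf.mono ?_) ?_
    · exact fun r hr => ⟨hc.1.trans hr.1.le, hr.2.le.trans ht.2⟩
    · exact fun r hr => sub_pos.2 hr.2
  rw [intervalIntegrable_iff_integrableOn_Ioo_of_le hc.2]
  have h2 : IntegrableOn (fun r => C * kth θ (t - r) * R) (Ioo c t) volume := by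
    rw [← intervalIntegrable_iff_integrableOn_Ioo_of_le hc.2]
    exact ((kth_int' hk.th1 t c t).const_mul C).mul_const R
  refine Integrable.mono' h2 (h1.aestronglyMeasurable measurableSet_Ioo) ?_
  rw [ae_restrict_iff' measurableSet_Ioo]
  refine Eventually.of_forall fun r hr => ?_
  have h3 : 0 < t - r := sub_pos.2 hr.2
  refine (hk.lb _ h3 _).trans ?_
  have h4 := hR r ⟨hc.1.trans hr.1.le, hr.2.le.trans ht.2⟩
  have h5 := kth_pos θ h3
  have h6 := hk.C0
  gcongr

theorem Ker.duh_norm (hk : Ker S L C θ) {a b t : ℝ} {f : ℝ → Y} (hf : ContinuousOn f (Icc a b))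
    (ht : t ∈ Icc a b) {c : ℝ} (hc : c ∈ Icc a t) :
    ‖∫ r in c..t, L (t - r) (f r)‖ ≤ C * ∫ r in c..t, kth θ (t - r) * ‖f r‖ := by
  rw [← intervalIntegral.integral_const_mul]
  obtain ⟨R, hR⟩ := isCompact_Icc.exists_bound_of_continuousOn hf
  have hfn : ContinuousOn (fun r => ‖f r‖) (uIcc c t) := by
    rw [uIcc_of_le hc.2]
    exact (hf.mono (Icc_subset_Icc hc.1 ht.2)).norm
  have h2 : IntervalIntegrable (fun r => C * (kth θ (t - r) * ‖f r‖)) volume c t :=
    ((kth_int' hk.th1 t c t).mul_continuousOn hfn).const_mul C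
  refine intervalIntegral.norm_integral_le_of_norm_le hc.2 ?_ h2
  have : ∀ᵐ r : ℝ ∂volume, r ≠ t := by
    simp [ae_iff, measure_singleton]
  filter_upwards [this] with r hrt hr
  have h3 : 0 < t - r := sub_pos.2 (lt_of_le_of_ne hr.2 hrt)
  refine (hk.lb _ h3 _).trans (le_of_eq (by ring))

theorem Ker.duh_norm_le (hk : Ker S L C θ) {a b t : ℝ} {f : ℝ → Y} (hf : ContinuousOn f (Icc a b))
    (ht : t ∈ Icc a b) {c : ℝ} (hc : c ∈ Icc a t) {R : ℝ}
    (hR : ∀ r ∈ Icc c t, ‖f r‖ ≤ R) :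
    ‖∫ r in c..t, L (t - r) (f r)‖ ≤ C * R * ∫ τ in (0:ℝ)..(t - c), kth θ τ := by
  refine (hk.duh_norm hf ht hc).trans ?_
  rw [mul_assoc]
  refine mul_le_mul_of_nonneg_left ?_ hk.C0
  have h1 : ∫ r in c..t, kth θ (t - r) = ∫ τ in (0:ℝ)..(t - c), kth θ τ := by
    rw [intervalIntegral.integral_comp_sub_left (fun τ => kth θ τ) t, sub_self]
  rw [← h1, ← intervalIntegral.integral_const_mul]
  have hfn : ContinuousOn (fun r => ‖f r‖) (uIcc c t) := by
    rw [uIcc_of_le hc.2]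
    exact (hf.mono (Icc_subset_Icc hc.1 ht.2)).norm
  refine intervalIntegral.integral_mono_on hc.2 ((kth_int' hk.th1 t c t).mul_continuousOn hfn)
    ((kth_int' hk.th1 t c t).const_mul R) ?_
  intro r hr
  rw [mul_comm]
  exact mul_le_mul_of_nonneg_right (hR r hr) (kth_nonneg θ (sub_nonneg.2 hr.2))

/-- restart: `D_a f t = S(t-c) D_a f c + D_c f t` -/
theorem Ker.duh_restart (hk : Ker S L C θ) {a b t : ℝ} {f : ℝ → Y} (hf : ContinuousOn f (Icc a b))
    (ht : t ∈ Icc a b) {c : ℝ} (hc : c ∈ Icc a t) :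
    duh L a f t = S (t - c) (duh L a f c) + duh L c f t := by
  have hct : c ∈ Icc a b := ⟨hc.1, hc.2.trans ht.2⟩
  unfold duh
  rw [← ContinuousLinearMap.intervalIntegral_comp_comm (S (t - c))
    (hk.int_aux hf hct (c := a) ⟨le_rfl, hc.1⟩)]
  have h1 : ∫ r in a..c, S (t - c) (L (c - r) (f r)) = ∫ r in a..c, L (t - r) (f r) := by
    apply intervalIntegral.integral_congr_ae
    have : ∀ᵐ r : ℝ ∂volume, r ≠ c := by
      simp [ae_iff, measure_singleton]
    filter_upwards [this] with r hrt hr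
    rw [uIoc_of_le hc.1] at hr
    have h3 : 0 < c - r := sub_pos.2 (lt_of_le_of_ne hr.2 hrt)
    rw [← hk.ls _ _ (sub_nonneg.2 hc.2) h3]
    congr 2; ring
  rw [h1]
  have h2 := hk.int_aux hf ht (c := a) ⟨le_rfl, ht.1⟩
  have h3 := hk.int_aux hf ht hc
  have h4 : IntervalIntegrable (fun r => L (t - r) (f r)) volume a c :=
    h2.mono_set (by rw [uIcc_of_le hc.1, uIcc_of_le ht.1]; exact Icc_subset_Icc le_rfl hc.2)
  exact (intervalIntegral.integral_add_adjacent_intervals h4 h3).symm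

/-- continuity of the Duhamel integral -/
theorem Ker.duh_cont (hk : Ker S L C θ) {a b : ℝ} {f : ℝ → Y} (hf : ContinuousOn f (Icc a b)) :
    ContinuousOn (duh L a f) (Icc a b) := by
  rcases lt_or_ge b a with hab | hab
  · rw [Icc_eq_empty (not_le.2 hab)]; exact continuousOn_empty _
  obtain ⟨R0, hR0⟩ := isCompact_Icc.exists_bound_of_continuousOn hf
  set R := |R0| with hRdef
  have hR : ∀ r ∈ Icc a b, ‖f r‖ ≤ R := fun r hr => (hR0 r hr).trans (le_abs_self _)
  -- it suffices: uniform short time control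
  rw [Metric.continuousOn_iff]
  intro t0 ht0 ε hε
  have hCR : 0 ≤ C * R := mul_nonneg hk.C0 (abs_nonneg _)
  obtain ⟨h, hh, _, hsm⟩ := kth_small hk.th1 (show 0 < ε / (4 * (C * R + 1)) by positivity)
  have hsm' : ∀ c t, c ∈ Icc a t → t ∈ Icc a b → t - c ≤ h →
      ‖∫ r in c..t, L (t - r) (f r)‖ ≤ ε / 4 := by
    intro c t hc ht hct
    refine (hk.duh_norm_le hf ht hc
      (fun r hr => hR r ⟨hc.1.trans hr.1, hr.2.trans ht.2⟩)).trans ?_
    have h1 := hsm (t - c) (sub_nonneg.2 hc.2) hct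
    calc C * R * ∫ τ in (0:ℝ)..(t - c), kth θ τ ≤ (C * R + 1) * (ε / (4 * (C * R + 1))) := by
          refine mul_le_mul (by linarith) h1 ?_ (by positivity)
          exact intervalIntegral.integral_nonneg (sub_nonneg.2 hc.2)
            fun τ hτ => kth_nonneg θ hτ.1
      _ = ε / 4 := by field_simp
  -- reference point `c = max a (t0 - h/2)`
  set c := max a (t0 - h / 2) with hcdef
  have hca : a ≤ c := le_max_left _ _
  have hct0 : c ≤ t0 := max_le ht0.1 (by linarith)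
  set z := duh L a f c with hz
  have h5 : ContinuousAt (fun t => S (t - c) z) t0 :=
    ((hk.scont z).comp (continuous_id.sub continuous_const)).continuousAt
  obtain ⟨d, hd, h6⟩ := Metric.continuousAt_iff.1 h5 (ε / 4) (by positivity)
  rcases eq_or_lt_of_le hct0 with hcc | hcc
  · -- `t0 = c`, so `t0 = a`
    have ht0a : t0 = a := by
      rcases max_choice a (t0 - h / 2) with h7 | h7
      · rw [← hcc, hcdef, h7]
      · rw [← hcdef] at h7; linarith
    refine ⟨min d h, lt_min hd hh, fun t ht htt => ?_⟩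
    have h8 : t0 ≤ t := by rw [ht0a]; exact ht.1
    rw [Real.dist_eq, abs_of_nonneg (sub_nonneg.2 h8)] at htt
    have h9 := hsm' a t ⟨le_rfl, ht.1⟩ ht (by rw [← ht0a]; exact (htt.trans_le (min_le_right _ _)).le)
    rw [ht0a, duh_self, dist_zero_right]
    exact lt_of_le_of_lt h9 (by linarith)
  · refine ⟨min d (min (h / 2) (t0 - c)), lt_min hd (lt_min (by positivity) (sub_pos.2 hcc)),
      fun t ht htt => ?_⟩
    have h10 : |t - t0| < d := lt_of_lt_of_le htt (min_le_left _ _)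
    have h11 : |t - t0| < h / 2 :=
      lt_of_lt_of_le htt ((min_le_right _ _).trans (min_le_left _ _))
    have h12 : |t - t0| < t0 - c :=
      lt_of_lt_of_le htt ((min_le_right _ _).trans (min_le_right _ _))
    have h13 := abs_lt.1 h11
    have h14 := abs_lt.1 h12
    have hct : c ≤ t := by linarith
    have h15 : t0 - h / 2 ≤ c := le_max_right _ _
    have e1 := hk.duh_restart hf ht (c := c) ⟨hca, hct⟩
    have e2 := hk.duh_restart hf ht0 (c := c) ⟨hca, hct0⟩
    have h16 := hsm' c t ⟨hca, hct⟩ ht (by linarith)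
    have h17 := hsm' c t0 ⟨hca, hct0⟩ ht0 (by linarith)
    have h18 := h6 (show dist t t0 < d from h10)
    rw [e1, e2, dist_eq_norm]
    rw [dist_eq_norm] at h18
    have e3 : S (t - c) z + duh L c f t - (S (t0 - c) z + duh L c f t0)
        = (S (t - c) z - S (t0 - c) z) + duh L c f t - duh L c f t0 := by abel
    rw [e3]
    calc ‖(S (t - c) z - S (t0 - c) z) + duh L c f t - duh L c f t0‖
        ≤ ‖(S (t - c) z - S (t0 - c) z) + duh L c f t‖ + ‖duh L c f t0‖ := norm_sub_le _ _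
      _ ≤ ‖S (t - c) z - S (t0 - c) z‖ + ‖duh L c f t‖ + ‖duh L c f t0‖ := by
          gcongr; exact norm_add_le _ _
      _ < ε := by unfold duh; linarith

/-! ### Nonlinearities along curves -/

theorem Nl.bound {M a b : ℝ} (hΦ : Nl Φ M a b) {t : ℝ} (ht : t ∈ Icc a b) (x : X) :
    ‖Φ t x‖ ≤ M * (1 + ‖x‖) ^ 2 := by
  have h1 := hΦ.lip t ht x 0
  rw [norm_zero, sub_zero, add_zero] at h1
  have h2 := hΦ.bd t ht
  have h3 : ‖Φ t x‖ ≤ ‖Φ t x - Φ t 0‖ + ‖Φ t 0‖ := by
    have := norm_add_le (Φ t x - Φ t 0) (Φ t 0)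
    simpa using this
  have h4 := norm_nonneg x
  have h5 := hΦ.M0
  nlinarith [mul_nonneg h5 h4]

theorem Nl.mono {M a b c d : ℝ} (hΦ : Nl Φ M a b) (h1 : a ≤ c) (h2 : d ≤ b) : Nl Φ M c d where
  M0 := hΦ.M0
  cont x := (hΦ.cont x).mono (Icc_subset_Icc h1 h2)
  lip t ht := hΦ.lip t (Icc_subset_Icc h1 h2 ht)
  bd t ht := hΦ.bd t (Icc_subset_Icc h1 h2 ht)

theorem Nl.cont_comp {M a b : ℝ} (hΦ : Nl Φ M a b) {x : ℝ → X} (hx : ContinuousOn x (Icc a b)) :
    ContinuousOn (fun t => Φ t (x t)) (Icc a b) := by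
  intro t ht
  have h1 := hΦ.cont (x t) t ht
  have h2 : Tendsto (fun s => Φ s (x s) - Φ s (x t)) (𝓝[Icc a b] t) (𝓝 0) := by
    rw [tendsto_zero_iff_norm_tendsto_zero]
    have h3 : Tendsto (fun s => M * (1 + ‖x s‖ + ‖x t‖) * ‖x s - x t‖) (𝓝[Icc a b] t)
        (𝓝 (M * (1 + ‖x t‖ + ‖x t‖) * 0)) := by
      have h4 : Tendsto x (𝓝[Icc a b] t) (𝓝 (x t)) := hx t ht
      refine Tendsto.mul (Tendsto.const_mul M ?_) (tendsto_iff_norm_sub_tendsto_zero.1 h4)
      exact (h4.norm.const_add 1).add_const _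
    rw [mul_zero] at h3
    refine squeeze_zero' (Eventually.of_forall fun _ => norm_nonneg _) ?_ h3
    filter_upwards [self_mem_nhdsWithin] with s hs
    exact hΦ.lip s hs _ _
  have h5 := h2.add h1.tendsto
  rw [zero_add] at h5
  refine h5.congr fun s => ?_
  abel

/-! ### Mild solutions: restriction, restart, gluing -/

theorem Mild.eq' {a b : ℝ} {x₀ : X} {x : ℝ → X} (h : Mild S L Φ a b x₀ x) {t : ℝ}
    (ht : t ∈ Icc a b) : x t = S (t - a) x₀ + duh L a (fun r => Φ r (x r)) t := h.eq t ht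

theorem Mild.init (hk : Ker S L C θ) {a b : ℝ} {x₀ : X} {x : ℝ → X} (h : Mild S L Φ a b x₀ x)
    (hab : a ≤ b) : x a = x₀ := by
  rw [h.eq' ⟨le_rfl, hab⟩, duh_self, sub_self, hk.s0, add_zero]

theorem Mild.restrict {a b c : ℝ} {x₀ : X} {x : ℝ → X} (h : Mild S L Φ a b x₀ x) (hc : c ≤ b) :
    Mild S L Φ a c x₀ x where
  cont := h.cont.mono (Icc_subset_Icc le_rfl hc)
  eq t ht := h.eq t (Icc_subset_Icc le_rfl hc ht)

theorem Mild.restart (hk : Ker S L C θ) {M a b c : ℝ} {x₀ : X} {x : ℝ → X}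
    (hΦ : Nl Φ M a b) (h : Mild S L Φ a b x₀ x) (hc : c ∈ Icc a b) :
    Mild S L Φ c b (x c) x where
  cont := h.cont.mono (Icc_subset_Icc hc.1 le_rfl)
  eq t ht := by
    have ht' : t ∈ Icc a b := ⟨hc.1.trans ht.1, ht.2⟩
    have h1 := hk.duh_restart (hΦ.cont_comp h.cont) ht' (c := c) ⟨hc.1, ht.1⟩
    rw [h.eq' ht', h.eq' hc, h1, map_add, ← hk.sadd _ _ (sub_nonneg.2 ht.1) (sub_nonneg.2 hc.1)]
    rw [show t - c + (c - a) = t - a by ring, add_assoc]
    rfl

theorem Mild.glue (hk : Ker S L C θ) {M a b c : ℝ} {x₀ : X} {x y : ℝ → X} (hΦ : Nl Φ M a b)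
    (hac : a ≤ c) (hcb : c ≤ b) (hx : Mild S L Φ a c x₀ x) (hy : Mild S L Φ c b (x c) y) :
    Mild S L Φ a b x₀ (fun t => if t ≤ c then x t else y t) := by
  set z : ℝ → X := fun t => if t ≤ c then x t else y t with hz
  have hyc : y c = x c := hy.init hk hcb
  have hzx : ∀ t ∈ Icc a c, z t = x t := fun t ht => if_pos ht.2
  have hzy : ∀ t ∈ Icc c b, z t = y t := by
    intro t ht
    rcases ht.1.eq_or_lt with h | h
    · rw [← h, hyc]; exact if_pos le_rfl
    · exact if_neg h.not_ge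
  have hzc : ContinuousOn z (Icc a b) := by
    rw [← Icc_union_Icc_eq_Icc hac hcb]
    exact (hx.cont.congr hzx).union_of_isClosed (hy.cont.congr hzy) isClosed_Icc isClosed_Icc
  refine ⟨hzc, fun t ht => ?_⟩
  rcases le_total t c with htc | htc
  · rw [hzx t ⟨ht.1, htc⟩, hx.eq t ⟨ht.1, htc⟩]
    congr 1
    apply intervalIntegral.integral_congr
    intro r hr
    rw [uIcc_of_le ht.1] at hr
    simp only
    rw [hzx r ⟨hr.1, hr.2.trans htc⟩]
  · have h1 := hk.duh_restart (hΦ.cont_comp hzc) ht (c := c) ⟨hac, htc⟩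
    have h2 : duh L a (fun r => Φ r (z r)) c = duh L a (fun r => Φ r (x r)) c := by
      unfold duh
      apply intervalIntegral.integral_congr
      intro r hr
      rw [uIcc_of_le hac] at hr
      simp only
      rw [hzx r hr]
    have h3 : duh L c (fun r => Φ r (z r)) t = duh L c (fun r => Φ r (y r)) t := by
      unfold duh
      apply intervalIntegral.integral_congr
      intro r hr
      rw [uIcc_of_le htc] at hr
      simp only
      rw [hzy r ⟨hr.1, hr.2.trans ht.2⟩]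
    have h4 : (∫ r in a..t, L (t - r) (Φ r (z r))) = duh L a (fun r => Φ r (z r)) t := rfl
    rw [h4, hzy t ⟨htc, ht.2⟩, hy.eq' ⟨htc, ht.2⟩, hx.eq' ⟨hac, le_rfl⟩, h1, h2, h3, map_add,
      ← hk.sadd _ _ (sub_nonneg.2 htc) (sub_nonneg.2 hac),
      show t - c + (c - a) = t - a by ring, add_assoc]

/-! ### Singular Gronwall inequality -/

theorem kth_exp_small (hθ : 0 ≤ θ) (h1 : θ < 1) {B : ℝ} (hB : 0 ≤ B) : ∃ μ, 0 < μ ∧ ∀ T, 0 ≤ T →
    B * ∫ τ in (0:ℝ)..T, kth θ τ * Real.exp (-(μ * τ)) ≤ 1 / 2 := by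
  obtain ⟨h, hh, _, hsm⟩ := kth_small h1 (show 0 < 1 / (4 * (B + 1)) by positivity)
  set k := kth θ h with hkdef
  have hk1 : 1 ≤ k := one_le_kth θ hh.le
  refine ⟨4 * (B + 1) * k, by positivity, fun T hT => ?_⟩
  set μ := 4 * (B + 1) * k with hμ
  have hμ0 : 0 < μ := by positivity
  have hint : ∀ a b, IntervalIntegrable (fun τ => kth θ τ * Real.exp (-(μ * τ))) volume a b :=
    fun a b => (kth_int h1 a b).mul_continuousOn (by fun_prop)
  have hA : ∀ T, 0 ≤ T → T ≤ h →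
      ∫ τ in (0:ℝ)..T, kth θ τ * Real.exp (-(μ * τ)) ≤ 1 / (4 * (B + 1)) := by
    intro T hT hTh
    refine le_trans ?_ (hsm T hT hTh)
    refine intervalIntegral.integral_mono_on hT (hint _ _) (kth_int h1 _ _) fun τ hτ => ?_
    have : Real.exp (-(μ * τ)) ≤ 1 := Real.exp_le_one_iff.2 (by
      have := mul_nonneg hμ0.le hτ.1; linarith)
    exact mul_le_of_le_one_right (kth_nonneg θ hτ.1) this
  have hfin : ∫ τ in (0:ℝ)..T, kth θ τ * Real.exp (-(μ * τ)) ≤ 1 / (2 * (B + 1)) := by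
    rcases le_total T h with hTh | hTh
    · refine (hA T hT hTh).trans ?_
      gcongr; norm_num
    · rw [← intervalIntegral.integral_add_adjacent_intervals (hint 0 h) (hint h T)]
      have h2 : ∫ τ in h..T, kth θ τ * Real.exp (-(μ * τ)) ≤ k * μ⁻¹ := by
        have h3 : ∫ τ in h..T, kth θ τ * Real.exp (-(μ * τ)) ≤
            ∫ τ in h..T, k * Real.exp (-(μ * τ)) := by
          refine intervalIntegral.integral_mono_on hTh (hint _ _)
            (Continuous.intervalIntegrable (by fun_prop) _ _) fun τ hτ => ?_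
          refine mul_le_mul_of_nonneg_right ?_ (Real.exp_pos _).le
          rw [hkdef]; unfold kth
          have := Real.rpow_le_rpow_of_nonpos hh hτ.1 (show -θ ≤ 0 by linarith)
          linarith
        refine h3.trans ?_
        rw [intervalIntegral.integral_const_mul]
        refine mul_le_mul_of_nonneg_left ?_ (by linarith)
        have h4 : ∫ τ in h..T, Real.exp (-(μ * τ)) =
            μ⁻¹ * (Real.exp (-(μ * h)) - Real.exp (-(μ * T))) := by
          have : ∀ τ ∈ uIcc h T, HasDerivAt (fun τ => -μ⁻¹ * Real.exp (-(μ * τ)))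
              (Real.exp (-(μ * τ))) τ := by
            intro τ _
            have h5 : HasDerivAt (fun τ : ℝ => -(μ * τ)) (-(μ * 1)) τ :=
              ((hasDerivAt_id τ).const_mul μ).neg
            have h6 := (h5.exp).const_mul (-μ⁻¹)
            refine h6.congr_deriv ?_
            have h7 : μ⁻¹ * μ = 1 := inv_mul_cancel₀ hμ0.ne'
            linear_combination Real.exp (-(μ * τ)) * h7
          rw [intervalIntegral.integral_eq_sub_of_hasDerivAt this
            (Continuous.intervalIntegrable (by fun_prop) _ _)]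
          ring
        rw [h4]
        have h5 : Real.exp (-(μ * h)) ≤ 1 := Real.exp_le_one_iff.2 (by
          have := mul_nonneg hμ0.le hh.le; linarith)
        have h6 := Real.exp_pos (-(μ * T))
        have h7 : 0 < μ⁻¹ := by positivity
        nlinarith
      have h8 : k * μ⁻¹ = 1 / (4 * (B + 1)) := by rw [hμ]; field_simp
      have h9 := hA h hh.le le_rfl
      have h10 : 1 / (4 * (B + 1)) + 1 / (4 * (B + 1)) = 1 / (2 * (B + 1)) := by field_simp; norm_num
      linarith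
  calc B * ∫ τ in (0:ℝ)..T, kth θ τ * Real.exp (-(μ * τ)) ≤ B * (1 / (2 * (B + 1))) := by gcongr
    _ ≤ 1 / 2 := by
      rw [mul_one_div, div_le_div_iff₀ (by positivity) (by norm_num)]
      linarith

theorem kth_gron (hθ : 0 ≤ θ) (h1 : θ < 1) {B : ℝ} (hB : 0 ≤ B) : ∃ μ, 0 < μ ∧ ∀ (a b A : ℝ) (u : ℝ → ℝ),
    0 ≤ A → ContinuousOn u (Icc a b) → (∀ t ∈ Icc a b, 0 ≤ u t) →
    (∀ t ∈ Icc a b, u t ≤ A + B * ∫ r in a..t, kth θ (t - r) * u r) →
    ∀ t ∈ Icc a b, u t ≤ 2 * A * Real.exp (μ * (t - a)) := by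
  obtain ⟨μ, hμ, hsm⟩ := kth_exp_small hθ h1 hB
  refine ⟨μ, hμ, fun a b A u hA hu hu0 h t ht => ?_⟩
  have hab : a ≤ b := ht.1.trans ht.2
  set w : ℝ → ℝ := fun t => Real.exp (-(μ * (t - a))) * u t with hw
  have hwc : ContinuousOn w (Icc a b) := by
    refine ContinuousOn.mul ?_ hu
    fun_prop
  obtain ⟨m, hm, hmax⟩ := isCompact_Icc.exists_isMaxOn ⟨a, le_rfl, hab⟩ hwc
  have hmax' : ∀ r ∈ Icc a b, w r ≤ w m := fun r hr => hmax hr
  have hwm : 0 ≤ w m := mul_nonneg (Real.exp_pos _).le (hu0 m hm)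
  have h2 : w m ≤ A + B * ∫ r in a..m, (kth θ (m - r) * Real.exp (-(μ * (m - r)))) * w m := by
    have h3 := h m hm
    have h4 : w m ≤ Real.exp (-(μ * (m - a))) * (A + B * ∫ r in a..m, kth θ (m - r) * u r) :=
      mul_le_mul_of_nonneg_left h3 (Real.exp_pos _).le
    refine h4.trans ?_
    rw [mul_add]
    have h5 : Real.exp (-(μ * (m - a))) ≤ 1 := Real.exp_le_one_iff.2 (by
      have := mul_nonneg hμ.le (sub_nonneg.2 hm.1); linarith)
    refine add_le_add (mul_le_of_le_one_left hA h5) ?_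
    rw [mul_left_comm, ← intervalIntegral.integral_const_mul]
    refine mul_le_mul_of_nonneg_left ?_ hB
    have hum : ContinuousOn u (uIcc a m) := by
      rw [uIcc_of_le hm.1]; exact hu.mono (Icc_subset_Icc le_rfl hm.2)
    refine intervalIntegral.integral_mono_on hm.1
      (((kth_int' h1 m a m).mul_continuousOn hum).const_mul _)
      (((kth_int' h1 m a m).mul_continuousOn (by fun_prop)).mul_const _) fun r hr => ?_
    have h6 := hmax' r ⟨hr.1, hr.2.trans hm.2⟩
    have h7 : Real.exp (-(μ * (m - a))) * (kth θ (m - r) * u r)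
        = (kth θ (m - r) * Real.exp (-(μ * (m - r)))) * w r := by
      simp only [hw]
      rw [show -(μ * (m - a)) = -(μ * (m - r)) + -(μ * (r - a)) by ring, Real.exp_add]
      ring
    rw [h7]
    refine mul_le_mul_of_nonneg_left h6 ?_
    exact mul_nonneg (kth_nonneg θ (sub_nonneg.2 hr.2)) (Real.exp_pos _).le
  have h8 : ∫ r in a..m, (kth θ (m - r) * Real.exp (-(μ * (m - r)))) * w m
      = (∫ τ in (0:ℝ)..(m - a), kth θ τ * Real.exp (-(μ * τ))) * w m := by
    rw [intervalIntegral.integral_mul_const]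
    congr 1
    rw [intervalIntegral.integral_comp_sub_left (fun τ => kth θ τ * Real.exp (-(μ * τ))) m, sub_self]
  rw [h8, ← mul_assoc] at h2
  have h9 := mul_le_mul_of_nonneg_right (hsm (m - a) (sub_nonneg.2 hm.1)) hwm
  have h10 : w m ≤ 2 * A := by linarith
  have h11 := (hmax' t ht).trans h10
  have h12 : u t = Real.exp (μ * (t - a)) * w t := by
    simp only [hw]
    rw [← mul_assoc, ← Real.exp_add]; simp
  rw [h12, mul_comm]
  exact mul_le_mul_of_nonneg_right h11 (Real.exp_pos _).le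

/-! ### Uniqueness, local existence, global existence -/

theorem Mild.bdd {a b : ℝ} {x₀ : X} {x : ℝ → X} (h : Mild S L Φ a b x₀ x) :
    ∃ R, 0 ≤ R ∧ ∀ t ∈ Icc a b, ‖x t‖ ≤ R := by
  obtain ⟨R, hR⟩ := isCompact_Icc.exists_bound_of_continuousOn h.cont
  exact ⟨|R|, abs_nonneg _, fun t ht => (hR t ht).trans (le_abs_self _)⟩

theorem Mild.unique (hk : Ker S L C θ) {M a b : ℝ} {x₀ : X} {x y : ℝ → X} (hΦ : Nl Φ M a b)
    (hx : Mild S L Φ a b x₀ x) (hy : Mild S L Φ a b x₀ y) : ∀ t ∈ Icc a b, x t = y t := by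
  obtain ⟨R, hR0, hR⟩ := hx.bdd
  obtain ⟨R', hR0', hR'⟩ := hy.bdd
  have hM := hΦ.M0
  have hC := hk.C0
  set B := C * (M * (1 + R + R')) with hB
  have hB0 : 0 ≤ B := by positivity
  obtain ⟨μ, _, hg⟩ := kth_gron hk.th0 hk.th1 hB0
  have key := hg a b 0 (fun t => ‖x t - y t‖) le_rfl (hx.cont.sub hy.cont).norm
    (fun t _ => norm_nonneg _) (fun t ht => by
      have hfx := hΦ.cont_comp hx.cont
      have hfy := hΦ.cont_comp hy.cont
      have h1 : x t - y t = ∫ r in a..t, L (t - r) (Φ r (x r) - Φ r (y r)) := by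
        rw [hx.eq t ht, hy.eq t ht]
        simp only [map_sub]
        rw [intervalIntegral.integral_sub (hk.int_aux hfx ht ⟨le_rfl, ht.1⟩)
          (hk.int_aux hfy ht ⟨le_rfl, ht.1⟩)]
        abel
      have h2 := hk.duh_norm (hfx.sub hfy) ht (c := a) ⟨le_rfl, ht.1⟩
      rw [zero_add]
      show ‖x t - y t‖ ≤ _
      rw [h1]
      refine h2.trans ?_
      rw [hB, mul_assoc C]
      refine mul_le_mul_of_nonneg_left ?_ hC
      rw [← intervalIntegral.integral_const_mul]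
      have hsub : Icc a t ⊆ Icc a b := Icc_subset_Icc le_rfl ht.2
      have e1 : ContinuousOn (fun r => ‖Φ r (x r) - Φ r (y r)‖) (uIcc a t) := by
        rw [uIcc_of_le ht.1]; exact ((hfx.sub hfy).mono hsub).norm
      have e2 : ContinuousOn (fun r => ‖x r - y r‖) (uIcc a t) := by
        rw [uIcc_of_le ht.1]; exact ((hx.cont.sub hy.cont).mono hsub).norm
      refine intervalIntegral.integral_mono_on ht.1
        ((kth_int' hk.th1 t a t).mul_continuousOn e1)
        (((kth_int' hk.th1 t a t).mul_continuousOn e2).const_mul _) fun r hr => ?_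
      have hr' := hsub hr
      have h3 := hΦ.lip r hr' (x r) (y r)
      have h4 : M * (1 + ‖x r‖ + ‖y r‖) * ‖x r - y r‖ ≤ M * (1 + R + R') * ‖x r - y r‖ := by
        have := hR r hr'
        have := hR' r hr'
        gcongr
      calc kth θ (t - r) * ‖Φ r (x r) - Φ r (y r)‖
          ≤ kth θ (t - r) * (M * (1 + R + R') * ‖x r - y r‖) :=
            mul_le_mul_of_nonneg_left (h3.trans h4) (kth_nonneg θ (sub_nonneg.2 hr.2))
        _ = M * (1 + R + R') * (kth θ (t - r) * ‖x r - y r‖) := by ring)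
  intro t ht
  have h5 := key t ht
  simp only [mul_zero, zero_mul] at h5
  exact sub_eq_zero.1 (norm_le_zero_iff.1 h5)

/-- the fixed point map -/
theorem Ker.local_aux (hk : Ker S L C θ) {M R h : ℝ} (hR : 0 ≤ R)
    (hsm : ∀ T, 0 ≤ T → T ≤ h → ∫ τ in (0:ℝ)..T, kth θ τ ≤ 1 / (2 * (C * M * (2 * R + 4) ^ 2 + 1)))
    {a b : ℝ} (hab : a ≤ b) (hbh : b ≤ a + h) (hΦ : Nl Φ M a b) (x₀ : X)
    (hx₀ : ‖x₀‖ ≤ R) : ∃ x, Mild S L Φ a b x₀ x ∧ ∀ t ∈ Icc a b, ‖x t‖ ≤ R + 1 := by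
  have hM := hΦ.M0
  have hC := hk.C0
  set I := Icc a b with hI
  have : Nonempty I := ⟨⟨a, le_rfl, hab⟩⟩
  -- extension of a continuous function
  let ext : C(I, X) → ℝ → X := fun u => IccExtend hab u
  have hext : ∀ u : C(I, X), Continuous (ext u) := fun u => u.continuous.Icc_extend'
  have hext' : ∀ (u : C(I, X)) (t : ℝ) (ht : t ∈ I), ext u t = u ⟨t, ht⟩ :=
    fun u t ht => IccExtend_of_mem hab u ht
  let f : C(I, X) → ℝ → Y := fun u r => Φ r (ext u r)
  have hf : ∀ u, ContinuousOn (f u) (Icc a b) := fun u => hΦ.cont_comp (hext u).continuousOn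
  let G : C(I, X) → C(I, X) := fun u =>
    ⟨fun t => S (t.1 - a) x₀ + duh L a (f u) t.1, by
      have h1 : ContinuousOn (fun t => S (t - a) x₀ + duh L a (f u) t) (Icc a b) :=
        (((hk.scont x₀).comp (continuous_id.sub continuous_const)).continuousOn).add
          (hk.duh_cont (hf u))
      exact continuousOn_iff_continuous_domRestrict.1 h1⟩
  have hbd : ∀ (u : C(I, X)), ‖u‖ ≤ R + 1 → ∀ r ∈ I, ‖f u r‖ ≤ M * (2 * R + 4) ^ 2 := by
    intro u hu r hr
    refine (hΦ.bound hr _).trans ?_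
    rw [hext' u r hr]
    have h0 := (u.norm_coe_le_norm ⟨r, hr⟩).trans hu
    have h1 : 1 + ‖u ⟨r, hr⟩‖ ≤ 2 * R + 4 := by linarith
    exact mul_le_mul_of_nonneg_left (pow_le_pow_left₀ (by positivity) h1 2) hM
  have hkint : ∀ t ∈ I, 0 ≤ ∫ τ in (0:ℝ)..(t - a), kth θ τ := fun t ht =>
    intervalIntegral.integral_nonneg (sub_nonneg.2 ht.1) fun τ hτ => kth_nonneg θ hτ.1
  set D := C * M * (2 * R + 4) ^ 2 with hD
  have hD0 : 0 ≤ D := by positivity
  have hmaps : MapsTo G (Metric.closedBall 0 (R + 1)) (Metric.closedBall 0 (R + 1)) := by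
    intro u hu
    rw [mem_closedBall_zero_iff] at hu ⊢
    refine (ContinuousMap.norm_le _ (by linarith)).2 fun t => ?_
    have h1 := hk.duh_norm_le (hf u) t.2 (c := a) ⟨le_rfl, t.2.1⟩
      (fun r hr => hbd u hu r ⟨hr.1, hr.2.trans t.2.2⟩)
    have h2 := hsm (t.1 - a) (sub_nonneg.2 t.2.1) (by linarith [t.2.2])
    have h3 : C * (M * (2 * R + 4) ^ 2) * ∫ τ in (0:ℝ)..(t.1 - a), kth θ τ ≤ 1 := by
      calc C * (M * (2 * R + 4) ^ 2) * ∫ τ in (0:ℝ)..(t.1 - a), kth θ τ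
          ≤ (D + 1) * (1 / (2 * (D + 1))) := by
            refine mul_le_mul ?_ h2 (hkint t.1 t.2) (by positivity)
            rw [hD]; linarith
        _ ≤ 1 := by field_simp; norm_num
    show ‖S (t.1 - a) x₀ + duh L a (f u) t.1‖ ≤ R + 1
    refine (norm_add_le _ _).trans ?_
    have h4 := (hk.sb (t.1 - a) (sub_nonneg.2 t.2.1) x₀).trans hx₀
    have h5 : ‖duh L a (f u) t.1‖ ≤ 1 := h1.trans h3
    linarith
  have hlip : ∀ u ∈ Metric.closedBall (0 : C(I, X)) (R + 1),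
      ∀ v ∈ Metric.closedBall (0 : C(I, X)) (R + 1), dist (G u) (G v) ≤ (1 / 2 : ℝ) * dist u v := by
    intro u hu v hv
    rw [mem_closedBall_zero_iff] at hu hv
    rw [dist_eq_norm, dist_eq_norm]
    refine (ContinuousMap.norm_le _ (by positivity)).2 fun t => ?_
    have e1 : (G u - G v) t = ∫ r in a..t.1, L (t.1 - r) (f u r - f v r) := by
      show (S (t.1 - a) x₀ + duh L a (f u) t.1) - (S (t.1 - a) x₀ + duh L a (f v) t.1) = _
      simp only [map_sub]
      rw [intervalIntegral.integral_sub (hk.int_aux (hf u) t.2 ⟨le_rfl, t.2.1⟩)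
        (hk.int_aux (hf v) t.2 ⟨le_rfl, t.2.1⟩)]
      unfold duh; abel
    have h1 : ∀ r ∈ Icc a t.1, ‖f u r - f v r‖ ≤ M * (2 * R + 4) ^ 2 * ‖u - v‖ := by
      intro r hr
      have hr' : r ∈ I := ⟨hr.1, hr.2.trans t.2.2⟩
      refine (hΦ.lip r hr' _ _).trans ?_
      rw [hext' u r hr', hext' v r hr']
      have h2 := (u.norm_coe_le_norm ⟨r, hr'⟩).trans hu
      have h3 := (v.norm_coe_le_norm ⟨r, hr'⟩).trans hv
      have h4 : ‖u ⟨r, hr'⟩ - v ⟨r, hr'⟩‖ ≤ ‖u - v‖ := (u - v).norm_coe_le_norm ⟨r, hr'⟩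
      have h5 : 1 + ‖u ⟨r, hr'⟩‖ + ‖v ⟨r, hr'⟩‖ ≤ (2 * R + 4) ^ 2 := by nlinarith
      gcongr
    rw [e1]
    refine (hk.duh_norm_le ((hf u).sub (hf v)) t.2 (c := a) ⟨le_rfl, t.2.1⟩ h1).trans ?_
    have h2 := hsm (t.1 - a) (sub_nonneg.2 t.2.1) (by linarith [t.2.2])
    have h6 : C * (M * (2 * R + 4) ^ 2) * (∫ τ in (0:ℝ)..(t.1 - a), kth θ τ) ≤ 1 / 2 := by
      calc C * (M * (2 * R + 4) ^ 2) * ∫ τ in (0:ℝ)..(t.1 - a), kth θ τ
          ≤ (D + 1) * (1 / (2 * (D + 1))) := by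
            refine mul_le_mul ?_ h2 (hkint t.1 t.2) (by positivity)
            rw [hD]; linarith
        _ = 1 / 2 := by field_simp
    calc C * (M * (2 * R + 4) ^ 2 * ‖u - v‖) * ∫ τ in (0:ℝ)..(t.1 - a), kth θ τ
        = (C * (M * (2 * R + 4) ^ 2) * ∫ τ in (0:ℝ)..(t.1 - a), kth θ τ) * ‖u - v‖ := by ring
      _ ≤ 1 / 2 * ‖u - v‖ := by gcongr
  have hcon : ContractingWith (1 / 2 : NNReal) (hmaps.restrict G _ _) := by
    refine ⟨by rw [← NNReal.coe_lt_coe]; norm_num, ?_⟩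
    refine LipschitzWith.of_dist_le_mul fun u v => ?_
    have := hlip u.1 u.2 v.1 v.2
    show dist (G u.1) (G v.1) ≤ ((1 / 2 : NNReal) : ℝ) * dist u.1 v.1
    simpa using this
  obtain ⟨u, hu, hfix, -⟩ := ContractingWith.exists_fixedPoint' Metric.isClosed_closedBall.isComplete
    hmaps hcon (x := 0) (Metric.mem_closedBall_self (by linarith)) (edist_ne_top _ _)
  refine ⟨ext u, ⟨(hext u).continuousOn, fun t ht => ?_⟩, fun t ht => ?_⟩
  · have h1 : G u = u := hfix
    have h2 : (G u) ⟨t, ht⟩ = ext u t := by rw [h1, hext' u t ht]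
    exact h2.symm
  · rw [hext' u t ht]
    rw [mem_closedBall_zero_iff] at hu
    exact (u.norm_coe_le_norm _).trans hu

/-- local existence with a uniform step -/
theorem Ker.local (hk : Ker S L C θ) {M R : ℝ} (hM : 0 ≤ M) (hR : 0 ≤ R) : ∃ h > 0, ∀ {Φ : ℝ → X → Y}
    {a b : ℝ}, a ≤ b → b ≤ a + h → Nl Φ M a b → ∀ x₀ : X, ‖x₀‖ ≤ R →
    ∃ x, Mild S L Φ a b x₀ x ∧ ∀ t ∈ Icc a b, ‖x t‖ ≤ R + 1 := by
  have hC := hk.C0
  obtain ⟨h, hh, _, hsm⟩ := kth_small hk.th1
    (show 0 < 1 / (2 * (C * M * (2 * R + 4) ^ 2 + 1)) by positivity)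
  exact ⟨h, hh, fun hab hbh hΦ x₀ hx₀ => hk.local_aux hR hsm hab hbh hΦ x₀ hx₀⟩

/-- global existence from an a priori bound -/
theorem Ker.global (hk : Ker S L C θ) {M a b R : ℝ} (hab : a ≤ b) (hΦ : Nl Φ M a b) (x₀ : X)
    (hap : ∀ c ∈ Icc a b, ∀ x, Mild S L Φ a c x₀ x → ‖x c‖ ≤ R) :
    ∃ x, Mild S L Φ a b x₀ x := by
  obtain ⟨h, hh, hloc⟩ := hk.local hΦ.M0 (abs_nonneg R)
  have hx₀ : ∀ c ∈ Icc a b, ∀ x, Mild S L Φ a c x₀ x → ‖x c‖ ≤ |R| :=
    fun c hc x hx => (hap c hc x hx).trans (le_abs_self R)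
  have key : ∀ n : ℕ, ∃ x, Mild S L Φ a (min b (a + n * h)) x₀ x := by
    intro n
    induction n with
    | zero =>
      have e : min b (a + ((0 : ℕ) : ℝ) * h) = a := by simp [hab]
      rw [e]
      refine ⟨fun _ => x₀, continuousOn_const, fun t ht => ?_⟩
      have : t = a := le_antisymm ht.2 ht.1
      subst this
      rw [intervalIntegral.integral_same, sub_self, hk.s0, add_zero]
    | succ n ih =>
      obtain ⟨x, hx⟩ := ih
      set c := min b (a + n * h) with hc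
      set d := min b (a + ((n + 1 : ℕ) : ℝ) * h) with hd
      have hn : (0:ℝ) ≤ n * h := by positivity
      have hac : a ≤ c := le_min hab (by linarith)
      have hcb : c ≤ b := min_le_left _ _
      have hdb : d ≤ b := min_le_left _ _
      have hcd : c ≤ d := by
        refine min_le_min le_rfl ?_
        push_cast; nlinarith
      have hdc : d ≤ c + h := by
        rcases le_total b (a + n * h) with h1 | h1
        · have : c = b := min_eq_left h1
          rw [this]; linarith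
        · have h2 : c = a + n * h := min_eq_right h1
          have h3 : d ≤ a + ((n + 1 : ℕ) : ℝ) * h := min_le_right _ _
          push_cast at h3
          rw [h2]; linarith
      obtain ⟨y, hy, -⟩ := hloc (Φ := Φ) hcd hdc (hΦ.mono hac hdb) (x c) (hx₀ c ⟨hac, hcb⟩ x hx)
      exact ⟨_, Mild.glue hk (hΦ.mono le_rfl hdb) hac hcd hx hy⟩
  obtain ⟨n, hn⟩ := exists_nat_ge ((b - a) / h)
  obtain ⟨x, hx⟩ := key n
  have e : min b (a + n * h) = b := by
    apply min_eq_left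
    rw [div_le_iff₀ hh] at hn
    linarith
  rw [e] at hx
  exact ⟨x, hx⟩

end Abs

end Pool.Agent.Lib.MP_79abb3_an.SC
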