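import Pool.Agent.Lib.MP_79abb3_an.SC.LaA

/-!
MP_79abb3_an, Theorem C, base file D: `ℓ²(ℤ;E)`, operators with Toeplitz dominated entries.
-/

set_option autoImplicit false
set_option linter.unusedSectionVars false

open MeasureTheory Set Filter Topology Function
open scoped ENNReal InnerProductSpace

namespace Pool.Agent.Lib.MP_79abb3_an.SC

open Pool.Agent.Lib.MP_79abb3_an.P25

/-- `ℓ²(ℤ;E)` -/
abbrev l2 (E : Type) [NormedAddCommGroup E] : Type := lp (fun _ : ℤ => E) 2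

/-- The basic Hilbert space `ℓ²(ℤ;L²(0,H))`. -/
abbrev HH (H : ℝ) : Type := l2 (Z2 H)

section
variable {E F G : Type} [NormedAddCommGroup E] [NormedSpace ℂ E]
  [NormedAddCommGroup F] [NormedSpace ℂ F] [NormedAddCommGroup G] [NormedSpace ℂ G]

theorem l2_summable (x : l2 E) : Summable fun n => ‖x n‖ ^ 2 := by
  have := (lp.memℓp x).summable (by simp)
  simpa using this

theorem l2_norm_sq (x : l2 E) : ‖x‖ ^ 2 = ∑' n, ‖x n‖ ^ 2 := by
  have := lp.norm_rpow_eq_tsum (p := 2) (by simp) x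
  simpa using this

/-- Element of `ℓ²` from a family. -/
def mkl2 (a : ℤ → E) (h : Summable fun n => ‖a n‖ ^ 2) : l2 E :=
  ⟨a, memℓp_gen (by simpa using h)⟩

@[simp] theorem mkl2_apply (a : ℤ → E) (h : Summable fun n => ‖a n‖ ^ 2) (n : ℤ) :
    mkl2 a h n = a n := rfl

theorem norm_sq_mkl2 (a : ℤ → E) (h : Summable fun n => ‖a n‖ ^ 2) :
    ‖mkl2 a h‖ ^ 2 = ∑' n, ‖a n‖ ^ 2 := l2_norm_sq _

theorem l2_norm_apply_le (x : l2 E) (n : ℤ) : ‖x n‖ ≤ ‖x‖ := lp.norm_apply_le_norm (by simp) x n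

theorem l2_norm_le {x : l2 E} {C : ℝ} (hC : 0 ≤ C)
    (h : ∀ S : Finset ℤ, ∑ n ∈ S, ‖x n‖ ^ 2 ≤ C ^ 2) : ‖x‖ ≤ C := by
  refine (sq_le_sq₀ (norm_nonneg _) hC).1 ?_
  rw [l2_norm_sq]
  exact (l2_summable x).tsum_le_of_sum_le h

theorem l2_sum_le (x : l2 E) (S : Finset ℤ) : ∑ n ∈ S, ‖x n‖ ^ 2 ≤ ‖x‖ ^ 2 := by
  rw [l2_norm_sq]
  exact (l2_summable x).sum_le_tsum S (fun _ _ => by positivity)

theorem l2_summable_of_le {a : ℤ → E} {x : l2 F} {C : ℝ} (h : ∀ n, ‖a n‖ ≤ C * ‖x n‖) :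
    Summable fun n => ‖a n‖ ^ 2 := by
  refine Summable.of_nonneg_of_le (fun n => by positivity) (fun n => ?_)
    ((l2_summable x).mul_left (C ^ 2))
  rw [← mul_pow]
  exact pow_le_pow_left₀ (norm_nonneg _) (h n) 2

/-- Diagonal operators (zero if the family is unbounded). -/
noncomputable def dg (A : ℤ → E →L[ℂ] F) : l2 E →L[ℂ] l2 F :=
  open Classical in
  if h : ∃ C, ∀ n, ‖A n‖ ≤ C then
    LinearMap.mkContinuous
    { toFun := fun x => mkl2 (fun n => A n (x n)) (l2_summable_of_le (x := x) (C := h.choose)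
        fun n => ((A n).le_opNorm _).trans
          (mul_le_mul_of_nonneg_right (h.choose_spec n) (norm_nonneg _)))
      map_add' := fun x y => by
        ext n
        simp
      map_smul' := fun c x => by
        ext n
        simp } h.choose (fun x => by
      have hC : 0 ≤ h.choose := (norm_nonneg _).trans (h.choose_spec 0)
      refine l2_norm_le (by positivity) fun S => ?_
      calc ∑ n ∈ S, ‖A n (x n)‖ ^ 2 ≤ ∑ n ∈ S, h.choose ^ 2 * ‖x n‖ ^ 2 := by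
            refine Finset.sum_le_sum fun n _ => ?_
            rw [← mul_pow]
            exact pow_le_pow_left₀ (norm_nonneg _) (((A n).le_opNorm _).trans
              (mul_le_mul_of_nonneg_right (h.choose_spec n) (norm_nonneg _))) 2
        _ = h.choose ^ 2 * ∑ n ∈ S, ‖x n‖ ^ 2 := by rw [Finset.mul_sum]
        _ ≤ h.choose ^ 2 * ‖x‖ ^ 2 := by
            gcongr
            exact l2_sum_le x S
        _ = (h.choose * ‖x‖) ^ 2 := by ring)
  else 0

theorem dg_apply {A : ℤ → E →L[ℂ] F} {C : ℝ} (hA : ∀ n, ‖A n‖ ≤ C) (x : l2 E) (n : ℤ) :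
    dg A x n = A n (x n) := by
  have h : ∃ C, ∀ n, ‖A n‖ ≤ C := ⟨C, hA⟩
  rw [dg, dif_pos h]
  rfl

theorem norm_dg_le {A : ℤ → E →L[ℂ] F} {C : ℝ} (hA : ∀ n, ‖A n‖ ≤ C) : ‖dg A‖ ≤ C := by
  have hC : 0 ≤ C := (norm_nonneg _).trans (hA 0)
  refine ContinuousLinearMap.opNorm_le_bound _ hC fun x => ?_
  refine l2_norm_le (by positivity) fun S => ?_
  calc ∑ n ∈ S, ‖dg A x n‖ ^ 2 ≤ ∑ n ∈ S, C ^ 2 * ‖x n‖ ^ 2 := by
        refine Finset.sum_le_sum fun n _ => ?_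
        rw [dg_apply hA, ← mul_pow]
        exact pow_le_pow_left₀ (norm_nonneg _) (((A n).le_opNorm _).trans
          (mul_le_mul_of_nonneg_right (hA n) (norm_nonneg _))) 2
    _ = C ^ 2 * ∑ n ∈ S, ‖x n‖ ^ 2 := by rw [Finset.mul_sum]
    _ ≤ C ^ 2 * ‖x‖ ^ 2 := by
        gcongr
        exact l2_sum_le x S
    _ = (C * ‖x‖) ^ 2 := by ring

/-- The matrix `A` is dominated by the Toeplitz matrix of the summable family `b`. -/
structure TD (b : ℤ → ℝ) (A : ℤ → ℤ → E →L[ℂ] F) : Prop where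
  s : Summable b
  d : ∀ n j, ‖A n j‖ ≤ b (n - j)

theorem TD.nonneg {b : ℤ → ℝ} {A : ℤ → ℤ → E →L[ℂ] F} (h : TD b A) (m : ℤ) : 0 ≤ b m := by
  have := h.d m 0
  rw [sub_zero] at this
  exact (norm_nonneg _).trans this

theorem TD.bs {b : ℤ → ℝ} {A : ℤ → ℤ → E →L[ℂ] F} (h : TD b A) (n : ℤ) :
    Summable fun j => b (n - j) := (Equiv.subLeft n).summable_iff.2 h.s

theorem TD.bt {b : ℤ → ℝ} (n : ℤ) : ∑' j, b (n - j) = ∑' m, b m := (Equiv.subLeft n).tsum_eq b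

theorem TD.bt' {b : ℤ → ℝ} (j : ℤ) : ∑' n, b (n - j) = ∑' m, b m := (Equiv.subRight j).tsum_eq b

theorem TD.le {b : ℤ → ℝ} {A : ℤ → ℤ → E →L[ℂ] F} (h : TD b A) (x : l2 E) (n j : ℤ) :
    ‖A n j (x j)‖ ≤ b (n - j) * ‖x j‖ :=
  ((A n j).le_opNorm _).trans (mul_le_mul_of_nonneg_right (h.d n j) (norm_nonneg _))

theorem TD.s1 {b : ℤ → ℝ} {A : ℤ → ℤ → E →L[ℂ] F} (h : TD b A) (x : l2 E) (n : ℤ) :
    Summable fun j => b (n - j) * ‖x j‖ :=
  Summable.of_nonneg_of_le (fun j => mul_nonneg (h.nonneg _) (norm_nonneg _))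
    (fun j => mul_le_mul_of_nonneg_left (l2_norm_apply_le x j) (h.nonneg _))
    ((h.bs n).mul_right ‖x‖)

theorem TD.s2 {b : ℤ → ℝ} {A : ℤ → ℤ → E →L[ℂ] F} (h : TD b A) (x : l2 E) (n : ℤ) :
    Summable fun j => b (n - j) * ‖x j‖ ^ 2 :=
  Summable.of_nonneg_of_le (fun j => mul_nonneg (h.nonneg _) (by positivity))
    (fun j => mul_le_mul_of_nonneg_left (pow_le_pow_left₀ (norm_nonneg _) (l2_norm_apply_le x j) 2)
      (h.nonneg _)) ((h.bs n).mul_right (‖x‖ ^ 2))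

/-- Cauchy-Schwarz for weighted sums. -/
theorem tsum_cs {ι : Type} {b c : ι → ℝ} (hb : ∀ j, 0 ≤ b j) (hc : ∀ j, 0 ≤ c j) (sb : Summable b)
    (s1 : Summable fun j => b j * c j) (s2 : Summable fun j => b j * c j ^ 2) :
    (∑' j, b j * c j) ^ 2 ≤ (∑' j, b j) * ∑' j, b j * c j ^ 2 := by
  have h0 : 0 ≤ (∑' j, b j) * ∑' j, b j * c j ^ 2 :=
    mul_nonneg (tsum_nonneg hb) (tsum_nonneg fun j => mul_nonneg (hb j) (by positivity))
  have h1 : ∑' j, b j * c j ≤ √((∑' j, b j) * ∑' j, b j * c j ^ 2) := by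
    refine s1.tsum_le_of_sum_le fun S => ?_
    refine Real.le_sqrt_of_sq_le ?_
    have h2 := Finset.sum_mul_sq_le_sq_mul_sq S (fun j => √(b j)) (fun j => √(b j) * c j)
    have e1 : ∀ j, √(b j) * (√(b j) * c j) = b j * c j := fun j => by
      rw [← mul_assoc, Real.mul_self_sqrt (hb j)]
    have e2 : ∀ j, √(b j) ^ 2 = b j := fun j => Real.sq_sqrt (hb j)
    have e3 : ∀ j, (√(b j) * c j) ^ 2 = b j * c j ^ 2 := fun j => by rw [mul_pow, e2]
    simp only [e1, e2, e3] at h2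
    refine h2.trans ?_
    apply mul_le_mul (sb.sum_le_tsum S fun j _ => hb j)
      (s2.sum_le_tsum S fun j _ => mul_nonneg (hb j) (by positivity))
      (Finset.sum_nonneg fun j _ => mul_nonneg (hb j) (by positivity)) (tsum_nonneg hb)
  calc (∑' j, b j * c j) ^ 2 ≤ √((∑' j, b j) * ∑' j, b j * c j ^ 2) ^ 2 :=
        pow_le_pow_left₀ (tsum_nonneg fun j => mul_nonneg (hb j) (hc j)) h1 2
    _ = _ := Real.sq_sqrt h0

theorem TD.bound {b : ℤ → ℝ} {A : ℤ → ℤ → E →L[ℂ] F} (h : TD b A) (x : l2 E) (n : ℤ) :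
    (∑' j, b (n - j) * ‖x j‖) ^ 2 ≤ (∑' m, b m) * ∑' j, b (n - j) * ‖x j‖ ^ 2 := by
  have := tsum_cs (fun j => h.nonneg (n - j)) (fun j => norm_nonneg (x j)) (h.bs n) (h.s1 x n) (h.s2 x n)
  rwa [TD.bt] at this

theorem TD.norm_le {b : ℤ → ℝ} {A : ℤ → ℤ → E →L[ℂ] F} (h : TD b A) (x : l2 E) (n : ℤ) :
    ‖∑' j, A n j (x j)‖ ≤ ∑' j, b (n - j) * ‖x j‖ :=
  tsum_of_norm_bounded (h.s1 x n).hasSum (fun j => h.le x n j)

theorem TD.sum_le {b : ℤ → ℝ} {A : ℤ → ℤ → E →L[ℂ] F} (h : TD b A) (x : l2 E) (S : Finset ℤ) :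
    ∑ n ∈ S, ‖∑' j, A n j (x j)‖ ^ 2 ≤ ((∑' m, b m) * ‖x‖) ^ 2 := by
  have hB : 0 ≤ ∑' m, b m := tsum_nonneg h.nonneg
  calc ∑ n ∈ S, ‖∑' j, A n j (x j)‖ ^ 2
      ≤ ∑ n ∈ S, (∑' m, b m) * ∑' j, b (n - j) * ‖x j‖ ^ 2 :=
        Finset.sum_le_sum fun n _ =>
          (pow_le_pow_left₀ (norm_nonneg _) (h.norm_le x n) 2).trans (h.bound x n)
    _ = (∑' m, b m) * ∑' j, ∑ n ∈ S, b (n - j) * ‖x j‖ ^ 2 := by
        rw [← Finset.mul_sum, Summable.tsum_finsetSum fun n _ => h.s2 x n]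
    _ ≤ (∑' m, b m) * ∑' j, (∑' m, b m) * ‖x j‖ ^ 2 := by
        gcongr
        · exact summable_sum fun n _ => h.s2 x n
        · exact (l2_summable x).mul_left _
        · rename_i j
          rw [← Finset.sum_mul]
          gcongr
          rw [← TD.bt' (b := b) j]
          exact ((Equiv.subRight j).summable_iff.2 h.s).sum_le_tsum S fun n _ => h.nonneg _
    _ = ((∑' m, b m) * ‖x‖) ^ 2 := by
        rw [tsum_mul_left, ← l2_norm_sq]
        ring

variable [CompleteSpace F]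

theorem TD.s3 {b : ℤ → ℝ} {A : ℤ → ℤ → E →L[ℂ] F} (h : TD b A) (x : l2 E) (n : ℤ) :
    Summable fun j => A n j (x j) :=
  Summable.of_norm_bounded (h.s1 x n) (h.le x n)

theorem TD.s4 {b : ℤ → ℝ} {A : ℤ → ℤ → E →L[ℂ] F} (h : TD b A) (x : l2 E) :
    Summable fun n => ‖∑' j, A n j (x j)‖ ^ 2 :=
  summable_of_sum_le (fun _ => by positivity) (h.sum_le x)

/-- The operator `(mo A x) n = ∑_j A n j (x j)` (zero if `A` is not dominated). -/
noncomputable def mo (A : ℤ → ℤ → E →L[ℂ] F) : l2 E →L[ℂ] l2 F :=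
  open Classical in
  if h : ∃ b, TD b A then
    LinearMap.mkContinuous
    { toFun := fun x => mkl2 (fun n => ∑' j, A n j (x j)) (h.choose_spec.s4 x)
      map_add' := fun x y => by
        ext n
        show ∑' j, A n j ((x + y) j) = (∑' j, A n j (x j)) + ∑' j, A n j (y j)
        rw [← (h.choose_spec.s3 x n).tsum_add (h.choose_spec.s3 y n)]
        refine tsum_congr fun j => ?_
        rw [lp.coeFn_add, Pi.add_apply, map_add]
      map_smul' := fun c x => by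
        ext n
        show ∑' j, A n j ((c • x) j) = c • ∑' j, A n j (x j)
        rw [← tsum_const_smul'']
        refine tsum_congr fun j => ?_
        rw [lp.coeFn_smul, Pi.smul_apply, map_smul] } (∑' m, h.choose m) (fun x =>
      l2_norm_le (mul_nonneg (tsum_nonneg h.choose_spec.nonneg) (norm_nonneg _))
        (h.choose_spec.sum_le x))
  else 0

theorem mo_apply {b : ℤ → ℝ} {A : ℤ → ℤ → E →L[ℂ] F} (h : TD b A) (x : l2 E) (n : ℤ) :
    mo A x n = ∑' j, A n j (x j) := by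
  have h' : ∃ b, TD b A := ⟨b, h⟩
  rw [mo, dif_pos h']
  rfl

theorem mo_hasSum {b : ℤ → ℝ} {A : ℤ → ℤ → E →L[ℂ] F} (h : TD b A) (x : l2 E) (n : ℤ) :
    HasSum (fun j => A n j (x j)) (mo A x n) := by
  rw [mo_apply h]
  exact (h.s3 x n).hasSum

theorem norm_mo_le {b : ℤ → ℝ} {A : ℤ → ℤ → E →L[ℂ] F} (h : TD b A) : ‖mo A‖ ≤ ∑' m, b m := by
  refine ContinuousLinearMap.opNorm_le_bound _ (tsum_nonneg h.nonneg) fun x => ?_
  refine l2_norm_le (mul_nonneg (tsum_nonneg h.nonneg) (norm_nonneg _)) fun S => ?_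
  simp only [mo_apply h]
  exact h.sum_le x S

theorem mo_eq {b : ℤ → ℝ} {A : ℤ → ℤ → E →L[ℂ] F} (h : TD b A) {T : l2 E →L[ℂ] l2 F}
    (hT : ∀ x n, HasSum (fun j => A n j (x j)) (T x n)) : mo A = T := by
  ext1 x
  ext n
  exact (mo_hasSum h x n).unique (hT x n)

/-- Coordinates as functionals. -/
noncomputable def co (n : ℤ) : l2 E →L[ℂ] E :=
  LinearMap.mkContinuous
    { toFun := fun x => x n
      map_add' := fun _ _ => rfl
      map_smul' := fun _ _ => rfl } 1 (fun x => by rw [one_mul]; exact l2_norm_apply_le x n)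

@[simp] theorem co_apply (n : ℤ) (x : l2 E) : co n x = x n := rfl

end

end Pool.Agent.Lib.MP_79abb3_an.SC
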