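import Pool.Agent.Lib.MP_79abb3_an.SC.LaC
import Pool.Agent.Lib.MP_79abb3_an.SC.LaD

/-!
MP_79abb3_an, Theorem C, base file E: `T`, `E`, the projection `P`, convolution operators on `HH H`.
-/

set_option autoImplicit false
set_option linter.unusedSectionVars false

open MeasureTheory Set Filter Topology Function
open scoped ENNReal InnerProductSpace

namespace Pool.Agent.Lib.MP_79abb3_an.SC

open Pool.Agent.Lib.MP_79abb3_an.P25

/-! ### Adjoints of diagonal and Toeplitz dominated operators -/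

section
variable {E F : Type} [NormedAddCommGroup E] [InnerProductSpace ℂ E]
  [NormedAddCommGroup F] [InnerProductSpace ℂ F]

theorem inner_dg {A : ℤ → E →L[ℂ] F} {A' : ℤ → F →L[ℂ] E} {C C' : ℝ} (hA : ∀ n, ‖A n‖ ≤ C)
    (hA' : ∀ n, ‖A' n‖ ≤ C') (h : ∀ n x y, ⟪A n x, y⟫_ℂ = ⟪x, A' n y⟫_ℂ) (x : l2 E) (y : l2 F) :
    ⟪dg A x, y⟫_ℂ = ⟪x, dg A' y⟫_ℂ := by
  rw [lp.inner_eq_tsum, lp.inner_eq_tsum]
  refine tsum_congr fun n => ?_
  rw [dg_apply hA, dg_apply hA', h]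

/-- Products of two square summable families. -/
theorem summable_l2_mul (x : l2 E) (y : l2 F) : Summable fun n => ‖x n‖ * ‖y n‖ := by
  refine Summable.of_nonneg_of_le (fun n => by positivity) (fun n => ?_)
    ((l2_summable x).add (l2_summable y))
  nlinarith [sq_nonneg (‖x n‖ - ‖y n‖), sq_nonneg ‖x n‖, sq_nonneg ‖y n‖]

theorem inner_mo [CompleteSpace E] [CompleteSpace F] {b b' : ℤ → ℝ} {A : ℤ → ℤ → E →L[ℂ] F}
    {A' : ℤ → ℤ → F →L[ℂ] E} (hA : TD b A) (hA' : TD b' A')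
    (h : ∀ n j x y, ⟪A n j x, y⟫_ℂ = ⟪x, A' j n y⟫_ℂ) (x : l2 E) (y : l2 F) :
    ⟪mo A x, y⟫_ℂ = ⟪x, mo A' y⟫_ℂ := by
  have hsum : Summable (Function.uncurry fun n j => ⟪A n j (x j), y n⟫_ℂ) := by
    apply Summable.of_norm_bounded (g := fun p : ℤ × ℤ => b (p.1 - p.2) * ‖x p.2‖ * ‖y p.1‖)
    · rw [summable_prod_of_nonneg (fun p => mul_nonneg (mul_nonneg (hA.nonneg _) (norm_nonneg _))
        (norm_nonneg _))]
      constructor
      · intro n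
        show Summable fun j => b (n - j) * ‖x j‖ * ‖y n‖
        exact (hA.s1 x n).mul_right _
      · have h1 : ∀ n, ∑' j, b (n - j) * ‖x j‖ * ‖y n‖ = (∑' j, b (n - j) * ‖x j‖) * ‖y n‖ :=
          fun n => tsum_mul_right
        simp only [h1]
        have h2 : Summable fun n => (∑' j, b (n - j) * ‖x j‖) ^ 2 := by
          have hB : 0 ≤ ∑' m, b m := tsum_nonneg hA.nonneg
          let xr : l2 ℂ := mkl2 (fun n => ((‖x n‖ : ℝ) : ℂ)) (by
            simpa using l2_summable x)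
          let Ar : ℤ → ℤ → ℂ →L[ℂ] ℂ := fun n j => ((b (n - j) : ℝ) : ℂ) • ContinuousLinearMap.id ℂ ℂ
          have hAr : TD b Ar := by
            refine ⟨hA.s, fun n j => ?_⟩
            show ‖((b (n - j) : ℝ) : ℂ) • ContinuousLinearMap.id ℂ ℂ‖ ≤ _
            rw [norm_smul, Complex.norm_real, Real.norm_eq_abs, abs_of_nonneg (hA.nonneg _)]
            exact mul_le_of_le_one_right (hA.nonneg _) ContinuousLinearMap.norm_id_le
          have h3 := hAr.s4 xr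
          refine h3.congr fun n => ?_
          have h4 : ∑' j, Ar n j (xr j) = ((∑' j, b (n - j) * ‖x j‖ : ℝ) : ℂ) := by
            rw [Complex.ofReal_tsum]
            refine tsum_congr fun j => ?_
            show ((b (n - j) : ℝ) : ℂ) • ((‖x j‖ : ℝ) : ℂ) = _
            push_cast
            rfl
          rw [h4, Complex.norm_real, Real.norm_eq_abs, sq_abs]
        refine Summable.of_nonneg_of_le (fun n => mul_nonneg (tsum_nonneg fun j =>
          mul_nonneg (hA.nonneg _) (norm_nonneg _)) (norm_nonneg _)) (fun n => ?_)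
          (h2.add (l2_summable y))
        have h5 : 0 ≤ ∑' j, b (n - j) * ‖x j‖ :=
          tsum_nonneg fun j => mul_nonneg (hA.nonneg _) (norm_nonneg _)
        nlinarith [sq_nonneg ((∑' j, b (n - j) * ‖x j‖) - ‖y n‖), norm_nonneg (y n),
          sq_nonneg ‖y n‖, sq_nonneg (∑' j, b (n - j) * ‖x j‖)]
    · rintro ⟨n, j⟩
      show ‖⟪A n j (x j), y n⟫_ℂ‖ ≤ _
      exact (norm_inner_le_norm _ _).trans (mul_le_mul_of_nonneg_right (hA.le x n j) (norm_nonneg _))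
  rw [lp.inner_eq_tsum, lp.inner_eq_tsum]
  have e1 : ∀ n, ⟪mo A x n, y n⟫_ℂ = ∑' j, ⟪A n j (x j), y n⟫_ℂ := by
    intro n
    have h1 := (innerSL ℂ (y n)).hasSum (mo_hasSum hA x n)
    have h2 : HasSum (fun j => ⟪A n j (x j), y n⟫_ℂ) ⟪mo A x n, y n⟫_ℂ := by
      have h3 := Complex.hasSum_conj'.2 h1
      simpa [inner_conj_symm] using h3
    exact h2.tsum_eq.symm
  have e2 : ∀ j, ⟪x j, mo A' y j⟫_ℂ = ∑' n, ⟪A n j (x j), y n⟫_ℂ := by
    intro j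
    have h1 := (innerSL ℂ (x j)).hasSum (mo_hasSum hA' y j)
    have h2 : HasSum (fun n => ⟪A n j (x j), y n⟫_ℂ) ⟪x j, mo A' y j⟫_ℂ := by
      simp only [h]
      exact h1
    exact h2.tsum_eq.symm
  simp only [e1, e2]
  exact hsum.tsum_comm.symm

end


/-! ### The fibre operators -/

section
variable {H : ℝ} [hH : Fact (0 < H)]

theorem Pz_injective {f : Z2 H} (h : Pz f = 0) : f = 0 := by
  have h1 := (ii_Z2 f zero_memI H_memI).ae_hasDerivAt_integral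
  rw [Lp.eq_zero_iff_ae_eq_zero]
  show ∀ᵐ x ∂(mH H), f x = 0
  rw [ae_restrict_iff' measurableSet_Ioc]
  have h2 : ∀ᵐ x : ℝ, x ≠ H := by simp [ae_iff, measure_singleton]
  filter_upwards [h1, h2] with x hx hxH hx2
  rw [uIcc_of_le hH.out.le] at hx
  have h3 := hx ⟨hx2.1.le, hx2.2⟩ 0 zero_memI
  have h4 : HasDerivAt (fun x => ∫ t in (0:ℝ)..x, f t) 0 x := by
    have h5 : (fun x => ∫ t in (0:ℝ)..x, f t) =ᶠ[𝓝 x] fun _ => 0 := by
      have h6 : Ioo (0:ℝ) H ∈ 𝓝 x := Ioo_mem_nhds hx2.1 (lt_of_le_of_ne hx2.2 hxH)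
      filter_upwards [h6] with y hy
      rw [← Pz_apply f ⟨hy.1.le, hy.2.le⟩, h, ex_zero]
    exact (hasDerivAt_const x (0:ℂ)).congr_of_eventuallyEq h5
  exact h3.unique h4

theorem DZ.unique {F : CI H} {f g : Z2 H} (h : DZ F f) (h' : DZ F g) : f = g := by
  have h1 := h.sub h'
  rw [sub_self] at h1
  have h2 : Pz (f - g) = 0 := by
    apply ci_ext
    intro z hz
    have := h1 z hz
    rw [ex_zero, ex_zero, zero_add] at this
    rw [← this, ex_zero]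
  exact sub_eq_zero.1 (Pz_injective h2)

/-- `T_k` on `L²` -/
noncomputable def T2 (k : ℝ) : Z2 H →L[ℂ] Z2 H := iota.comp (Tz k)

/-- `E_k` on `L²` -/
noncomputable def E2 (k : ℝ) : Z2 H →L[ℂ] Z2 H := iota.comp (Ez k)

theorem T2_apply (k : ℝ) (f : Z2 H) : T2 k f = iota (Tz k f) := rfl
theorem E2_apply (k : ℝ) (f : Z2 H) : E2 k f = iota (Ez k f) := rfl

theorem norm_iota_le (b : CI H) : ‖(iota b : Z2 H)‖ ≤ √H * ‖b‖ := by
  have h0 := hH.out
  refine (sq_le_sq₀ (norm_nonneg _) (by positivity)).1 ?_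
  rw [norm_sq_iota, mul_pow, Real.sq_sqrt h0.le]
  have h2 : ∫ z in (0:ℝ)..H, ‖ex b z‖ ^ 2 ≤ ∫ _z in (0:ℝ)..H, ‖b‖ ^ 2 := by
    apply intervalIntegral.integral_mono_on h0.le
    · exact Continuous.intervalIntegrable ((continuous_ex b).norm.pow 2) _ _
    · exact continuous_const.intervalIntegrable _ _
    · intro z _
      exact pow_le_pow_left₀ (norm_nonneg _) (norm_ex_le b z) 2
  refine h2.trans ?_
  rw [intervalIntegral.integral_const, sub_zero, smul_eq_mul]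

theorem norm_T2_le (k : ℝ) : ‖(T2 k : Z2 H →L[ℂ] Z2 H)‖ ≤ H := by
  have h0 := hH.out
  refine ContinuousLinearMap.opNorm_le_bound _ h0.le fun f => ?_
  have h1 : ‖Tz k f‖ ≤ √H * ‖f‖ := by
    refine (sq_le_sq₀ (norm_nonneg _) (by positivity)).1 ?_
    rw [mul_pow, Real.sq_sqrt h0.le]
    exact (Tz_sup_sq k f).1
  calc ‖T2 k f‖ ≤ √H * ‖Tz k f‖ := norm_iota_le _
    _ ≤ √H * (√H * ‖f‖) := by gcongr
    _ = H * ‖f‖ := by rw [← mul_assoc, Real.mul_self_sqrt h0.le]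

theorem norm_E2_le (k : ℝ) : ‖(E2 k : Z2 H →L[ℂ] Z2 H)‖ ≤ H := by
  have h0 := hH.out
  refine ContinuousLinearMap.opNorm_le_bound _ h0.le fun f => ?_
  have h1 : ‖Ez k f‖ ≤ √H * ‖f‖ := by
    refine (sq_le_sq₀ (norm_nonneg _) (by positivity)).1 ?_
    rw [mul_pow, Real.sq_sqrt h0.le]
    exact (Ez_sup_sq k f).1
  calc ‖E2 k f‖ ≤ √H * ‖Ez k f‖ := norm_iota_le _
    _ ≤ √H * (√H * ‖f‖) := by gcongr
    _ = H * ‖f‖ := by rw [← mul_assoc, Real.mul_self_sqrt h0.le]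

theorem norm_kT2_le (k : ℝ) (f : Z2 H) : |k| * ‖T2 k f‖ ≤ ‖f‖ := by
  refine (sq_le_sq₀ (by positivity) (norm_nonneg _)).1 ?_
  rw [mul_pow, sq_abs, Tz_energy k f, T2_apply]
  nlinarith [sq_nonneg ‖((|k| : ℝ) : ℂ) • iota (Tz k f) - f‖,
    mul_nonneg (abs_nonneg k) (sq_nonneg ‖ex (Tz k f) 0‖)]

theorem norm_kE2_le (k : ℝ) (f : Z2 H) : |k| * ‖E2 k f‖ ≤ ‖f‖ := by
  refine (sq_le_sq₀ (by positivity) (norm_nonneg _)).1 ?_
  rw [mul_pow, sq_abs, Ez_energy k f, E2_apply]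
  nlinarith [sq_nonneg ‖f - ((|k| : ℝ) : ℂ) • iota (Ez k f)‖,
    mul_nonneg (abs_nonneg k) (sq_nonneg ‖ex (Ez k f) H‖)]

theorem inner_T2 (k : ℝ) (f g : Z2 H) : ⟪T2 k f, g⟫_ℂ = ⟪f, E2 k g⟫_ℂ := inner_Tz k f g

theorem T2_injective (k : ℝ) {f : Z2 H} (h : T2 k f = 0) : f = 0 := by
  have h1 : Tz k f = 0 := iota_injective (by rw [map_zero]; exact h)
  have h2 := Tz_dz k f
  rw [h1, map_zero, smul_zero, zero_sub] at h2
  have h3 := h2.unique DZ.zero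
  rwa [neg_eq_zero] at h3

/-- Normalised `exp(-|k| z)`. -/
noncomputable def gk (k : ℝ) : Z2 H := ((‖(iota (fe (-|k|)) : Z2 H)‖⁻¹ : ℝ) : ℂ) • iota (fe (-|k|))

theorem iota_fe_ne (m : ℝ) : (iota (fe m : CI H) : Z2 H) ≠ 0 := by
  intro h
  have h1 : (fe m : CI H) = 0 := iota_injective (by rw [map_zero]; exact h)
  have h2 := ex_fe_zero (H := H) m
  rw [h1, ex_zero] at h2
  exact zero_ne_one h2

theorem norm_gk (k : ℝ) : ‖(gk k : Z2 H)‖ = 1 := by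
  rw [gk, norm_smul, Complex.norm_real, norm_inv, norm_norm]
  exact inv_mul_cancel₀ (norm_ne_zero_iff.2 (iota_fe_ne _))

/-- Projection onto the orthogonal complement of `exp(-|k| z)`. -/
noncomputable def P2 (k : ℝ) : Z2 H →L[ℂ] Z2 H :=
  ContinuousLinearMap.id ℂ (Z2 H) - (innerSL ℂ (gk k)).smulRight (gk k)

theorem P2_apply (k : ℝ) (f : Z2 H) : P2 k f = f - ⟪gk k, f⟫_ℂ • gk k := rfl

theorem inner_gk_gk (k : ℝ) : ⟪(gk k : Z2 H), gk k⟫_ℂ = 1 := by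
  rw [inner_self_eq_norm_sq_to_K, norm_gk]
  norm_num

theorem P2_P2 (k : ℝ) (f : Z2 H) : P2 k (P2 k f) = P2 k f := by
  rw [P2_apply k (P2 k f), P2_apply k f, inner_sub_right, inner_smul_right, inner_gk_gk, mul_one,
    sub_self, zero_smul, sub_zero]

theorem inner_P2 (k : ℝ) (f g : Z2 H) : ⟪P2 k f, g⟫_ℂ = ⟪f, P2 k g⟫_ℂ := by
  rw [P2_apply, P2_apply, inner_sub_left, inner_sub_right, inner_smul_left, inner_smul_right,
    inner_conj_symm]
  ring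

theorem norm_P2_le (k : ℝ) : ‖(P2 k : Z2 H →L[ℂ] Z2 H)‖ ≤ 1 := by
  refine ContinuousLinearMap.opNorm_le_bound _ zero_le_one fun f => ?_
  rw [one_mul]
  have h1 : ‖P2 k f‖ ^ 2 ≤ ‖P2 k f‖ * ‖f‖ := by
    have h2 : ‖P2 k f‖ ^ 2 = (⟪P2 k f, f⟫_ℂ).re := by
      rw [inner_P2 k f f, ← P2_P2 k f, ← inner_P2, inner_self_eq_norm_sq_to_K, P2_P2]
      norm_cast
    rw [h2]
    exact (Complex.re_le_norm _).trans (norm_inner_le_norm _ _)
  rcases eq_or_lt_of_le (norm_nonneg (P2 k f)) with h0 | h0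
  · rw [← h0]; exact norm_nonneg _
  · nlinarith

/-- `P_k f = f` iff `(T_k f)(0) = 0`. -/
theorem Tz_zero_eq (k : ℝ) (f : Z2 H) : ex (Tz k f) 0 = ⟪(iota (fe (-|k|)) : Z2 H), f⟫_ℂ := by
  rw [Tz_apply k f zero_memI, inner_Z2]
  refine ii_congr ?_ zero_memI H_memI
  filter_upwards [coe_iota (fe (-|k|) : CI H), ae_restrict_mem measurableSet_Ioc] with x h1 h2
  rw [h1, ex_fe _ ⟨h2.1.le, h2.2⟩, sub_zero]
  congr 1
  exact (Complex.conj_ofReal _).symm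

theorem P2_iff (k : ℝ) (f : Z2 H) : P2 k f = f ↔ ex (Tz k f) 0 = 0 := by
  rw [P2_apply, sub_eq_self, smul_eq_zero, Tz_zero_eq, gk, inner_smul_left, mul_eq_zero, smul_eq_zero]
  have h1 : ((‖(iota (fe (-|k|)) : Z2 H)‖⁻¹ : ℝ) : ℂ) ≠ 0 := by
    rw [Complex.ofReal_ne_zero]
    exact inv_ne_zero (norm_ne_zero_iff.2 (iota_fe_ne _))
  have h2 : (starRingEnd ℂ) ((‖(iota (fe (-|k|)) : Z2 H)‖⁻¹ : ℝ) : ℂ) ≠ 0 := by
    rwa [Ne, map_eq_zero]
  constructor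
  · rintro ((h | h) | (h | h))
    · exact absurd h h2
    · exact h
    · exact absurd h h1
    · exact absurd h (iota_fe_ne _)
  · intro h
    exact Or.inl (Or.inr h)

theorem P2_range (k : ℝ) (f : Z2 H) : f - P2 k f = ⟪gk k, f⟫_ℂ • gk k := by
  rw [P2_apply, sub_sub_cancel]

theorem PE2_injective (k : ℝ) {f : Z2 H} (h : P2 k (E2 k f) = 0) : f = 0 := by
  have h1 := P2_range k (E2 k f)
  rw [h, sub_zero, gk, smul_smul] at h1
  set c := ⟪(((‖(iota (fe (-|k|)) : Z2 H)‖⁻¹ : ℝ) : ℂ) • iota (fe (-|k|)) : Z2 H), E2 k f⟫_ℂ *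
    ((‖(iota (fe (-|k|)) : Z2 H)‖⁻¹ : ℝ) : ℂ) with hc
  have h2 : Ez k f = c • fe (-|k|) := iota_injective (by rw [map_smul]; exact h1)
  have h3 := Ez_zero k f
  rw [h2, ex_smul, ex_fe_zero, mul_one] at h3
  have h5 : Ez k f = 0 := by
    rw [h2, h3]
    apply ci_ext
    intro z _
    rw [ex_smul, zero_mul, ex_zero]
  have h4 := Ez_dz k f
  rw [h5, map_zero, smul_zero, sub_zero] at h4
  exact h4.unique DZ.zero

end

end Pool.Agent.Lib.MP_79abb3_an.SC
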