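import Pool.Agent.Lib.MP_79abb3_an.SC.LaSG

/-!
MP_79abb3_an, Theorem C, block (i): the abstract operator `A = b⁻¹ B* a B b⁻¹` with Dirichlet
conditions, through its bounded inverse `K = b T R E b`.
-/

set_option autoImplicit false
set_option linter.unusedSectionVars false

open ContinuousLinearMap Filter Topology
open scoped InnerProductSpace ComplexConjugate

namespace Pool.Agent.Lib.MP_79abb3_an.SC

/-- The bounded operators from which `A` is built: `T = B⁻¹` (zero at `z = H`), `E` its adjoint,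
`P` = orthogonal projection onto the functions `g` with `(T g)(0) = 0`. -/
structure OD (X : Type) [NormedAddCommGroup X] [InnerProductSpace ℂ X] [CompleteSpace X] where
  T : X →L[ℂ] X
  E : X →L[ℂ] X
  P : X →L[ℂ] X
  a : X →L[ℂ] X
  b : X →L[ℂ] X
  bi : X →L[ℂ] X
  c₀ : ℝ
  c₀_pos : 0 < c₀
  adjT : ∀ x y, ⟪T x, y⟫_ℂ = ⟪x, E y⟫_ℂ
  adjP : ∀ x y, ⟪P x, y⟫_ℂ = ⟪x, P y⟫_ℂ
  adja : ∀ x y, ⟪a x, y⟫_ℂ = ⟪x, a y⟫_ℂ
  adjb : ∀ x y, ⟪b x, y⟫_ℂ = ⟪x, b y⟫_ℂ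
  PP : ∀ x, P (P x) = P x
  coer : ∀ x, c₀ * ‖x‖ ^ 2 ≤ (⟪a x, x⟫_ℂ).re
  bbi : ∀ x, b (bi x) = x
  bib : ∀ x, bi (b x) = x
  injT : ∀ x, T x = 0 → x = 0
  injE : ∀ x, P (E x) = 0 → x = 0

namespace OD
variable {X : Type} [NormedAddCommGroup X] [InnerProductSpace ℂ X] [CompleteSpace X] (D : OD X)

theorem adjE (x y : X) : ⟪D.E x, y⟫_ℂ = ⟪x, D.T y⟫_ℂ := by
  rw [← inner_conj_symm, ← D.adjT, inner_conj_symm]

/-- `P a P + (1 - P)` -/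
noncomputable def S0 : X →L[ℂ] X := D.P ∘L D.a ∘L D.P + (1 - D.P)

theorem S0_apply (x : X) : D.S0 x = D.P (D.a (D.P x)) + (x - D.P x) := rfl

theorem inner_P_sub (x y : X) : ⟪D.P x, y - D.P y⟫_ℂ = 0 := by
  rw [D.adjP, map_sub, D.PP, sub_self, inner_zero_right]

theorem S0_coer (x : X) : min D.c₀ 1 * ‖x‖ ^ 2 ≤ (⟪D.S0 x, x⟫_ℂ).re := by
  have h1 : ⟪D.S0 x, x⟫_ℂ = ⟪D.a (D.P x), D.P x⟫_ℂ + ⟪x - D.P x, x - D.P x⟫_ℂ := by
    rw [S0_apply, inner_add_left, D.adjP]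
    congr 1
    have h2 : ⟪x - D.P x, D.P x⟫_ℂ = 0 := by
      rw [← inner_conj_symm, D.inner_P_sub, map_zero]
    rw [inner_sub_right, h2, sub_zero]
  have h3 : ‖x‖ ^ 2 = ‖D.P x‖ ^ 2 + ‖x - D.P x‖ ^ 2 := by
    have h4 := @norm_add_sq ℂ X _ _ _ (D.P x) (x - D.P x)
    rw [D.inner_P_sub, add_sub_cancel] at h4
    simpa using h4
  have h5 : (⟪x - D.P x, x - D.P x⟫_ℂ).re = ‖x - D.P x‖ ^ 2 := by
    rw [inner_self_eq_norm_sq_to_K]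
    norm_cast
  have h6 := D.coer (D.P x)
  rw [h1, Complex.add_re, h5, h3]
  have h7 : min D.c₀ 1 ≤ D.c₀ := min_le_left _ _
  have h8 : min D.c₀ 1 ≤ 1 := min_le_right _ _
  nlinarith [sq_nonneg ‖D.P x‖, sq_nonneg ‖x - D.P x‖]

theorem isUnit_S0 : IsUnit D.S0 := by
  have hc : 0 < min D.c₀ 1 := lt_min D.c₀_pos one_pos
  refine isUnit_of_forall_le_norm_inner_map D.S0 (c := ⟨min D.c₀ 1, hc.le⟩) hc fun x => ?_
  have h := D.S0_coer x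
  calc ‖x‖ ^ 2 * min D.c₀ 1 = min D.c₀ 1 * ‖x‖ ^ 2 := mul_comm _ _
    _ ≤ (⟪D.S0 x, x⟫_ℂ).re := h
    _ ≤ ‖⟪D.S0 x, x⟫_ℂ‖ := Complex.re_le_norm _

/-- Inverse of `P a P + (1 - P)`. -/
noncomputable def Si : X →L[ℂ] X := (D.isUnit_S0.unit⁻¹ : (X →L[ℂ] X)ˣ)

theorem S0_Si (x : X) : D.S0 (D.Si x) = x := by
  have h : D.S0 * D.Si = 1 := D.isUnit_S0.mul_val_inv
  exact congrArg (fun f : X →L[ℂ] X => f x) h

theorem Si_S0 (x : X) : D.Si (D.S0 x) = x := by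
  have h : D.Si * D.S0 = 1 := D.isUnit_S0.val_inv_mul
  exact congrArg (fun f : X →L[ℂ] X => f x) h

theorem P_S0 (x : X) : D.P (D.S0 x) = D.S0 (D.P x) := by
  rw [S0_apply, S0_apply, map_add, map_sub, D.PP, D.PP, sub_self]

theorem P_Si (x : X) : D.P (D.Si x) = D.Si (D.P x) := by
  rw [← D.Si_S0 (D.P (D.Si x)), ← D.P_S0, D.S0_Si]

/-- `R = (P a P)⁻¹ P` -/
noncomputable def R : X →L[ℂ] X := D.Si ∘L D.P

theorem R_apply (x : X) : D.R x = D.Si (D.P x) := rfl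

theorem P_R (x : X) : D.P (D.R x) = D.R x := by rw [R_apply, D.P_Si, D.PP]

theorem R_P (x : X) : D.R (D.P x) = D.R x := by rw [R_apply, D.PP, R_apply]

theorem P_a_R (x : X) : D.P (D.a (D.R x)) = D.P x := by
  have h : D.S0 (D.R x) = D.P x := by rw [R_apply, D.S0_Si]
  rwa [S0_apply, D.P_R, sub_self, add_zero] at h

theorem R_a_P (x : X) : D.R (D.a (D.P x)) = D.P x := by
  have h : D.Si (D.S0 (D.P x)) = D.P x := D.Si_S0 _
  rw [S0_apply, D.PP, sub_self, add_zero] at h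
  exact h

/-- Tested form of `R`. -/
theorem inner_a_R (x y : X) : ⟪D.a (D.R x), D.P y⟫_ℂ = ⟪x, D.P y⟫_ℂ := by
  rw [← D.adjP, D.P_a_R, D.adjP]

theorem adjR (x y : X) : ⟪D.R x, y⟫_ℂ = ⟪x, D.R y⟫_ℂ := by
  have h1 : ⟪D.R x, y⟫_ℂ = ⟪D.R x, D.a (D.R y)⟫_ℂ := by
    rw [← D.P_R x, D.adjP, D.adjP, D.P_a_R]
  have h2 : ⟪x, D.R y⟫_ℂ = ⟪D.a (D.R x), D.R y⟫_ℂ := by
    have := D.inner_a_R x (D.R y)
    rw [D.P_R] at this
    exact this.symm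
  rw [h1, h2, D.adja]

theorem norm_R_le (x : X) : ‖D.R x‖ ≤ D.c₀⁻¹ * ‖x‖ := by
  have h1 := D.coer (D.R x)
  have h2 : ⟪D.a (D.R x), D.R x⟫_ℂ = ⟪x, D.R x⟫_ℂ := by
    have := D.inner_a_R x (D.R x)
    rwa [D.P_R] at this
  rw [h2] at h1
  have h3 : (⟪x, D.R x⟫_ℂ).re ≤ ‖x‖ * ‖D.R x‖ := (Complex.re_le_norm _).trans (norm_inner_le_norm _ _)
  have hc := D.c₀_pos
  rcases eq_or_lt_of_le (norm_nonneg (D.R x)) with h0 | h0
  · rw [← h0]; positivity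
  · have h4 : D.c₀ * ‖D.R x‖ ≤ ‖x‖ := by
      refine le_of_mul_le_mul_right ?_ h0
      nlinarith
    rw [inv_mul_eq_div, le_div_iff₀ hc]
    linarith

/-- `G = R E b`, i.e. `B V` for `V = b⁻¹ K F`. -/
noncomputable def G : X →L[ℂ] X := D.R ∘L D.E ∘L D.b

theorem G_apply (x : X) : D.G x = D.R (D.E (D.b x)) := rfl

theorem P_G (x : X) : D.P (D.G x) = D.G x := D.P_R _

/-- `K = b T R E b = A⁻¹` -/
noncomputable def K : X →L[ℂ] X := D.b ∘L D.T ∘L D.G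

theorem K_apply (x : X) : D.K x = D.b (D.T (D.G x)) := rfl

/-- Tested equation: `⟪a G F, g⟫ = ⟪F, b T g⟫` for `P g = g`. -/
theorem inner_aG (F g : X) (hg : D.P g = g) : ⟪D.a (D.G F), g⟫_ℂ = ⟪F, D.b (D.T g)⟫_ℂ := by
  rw [G_apply, ← hg, D.inner_a_R, hg, ← D.adjb, D.adjE]

theorem inner_aG_G (x y : X) : ⟪D.a (D.G x), D.G y⟫_ℂ = ⟪x, D.K y⟫_ℂ :=
  D.inner_aG x (D.G y) (D.P_G y)

theorem adjK (x y : X) : ⟪D.K x, y⟫_ℂ = ⟪x, D.K y⟫_ℂ := by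
  rw [← D.inner_aG_G, D.adja, ← inner_conj_symm, ← inner_conj_symm (D.G x), D.inner_aG_G]

theorem K_isSelfAdjoint : IsSelfAdjoint D.K := by
  rw [ContinuousLinearMap.isSelfAdjoint_iff_isSymmetric]
  exact fun x y => D.adjK x y

theorem inner_K_re (x : X) : D.c₀ * ‖D.G x‖ ^ 2 ≤ (⟪x, D.K x⟫_ℂ).re := by
  rw [← D.inner_aG_G]; exact D.coer _

theorem K_nonneg : 0 ≤ D.K := by
  rw [ContinuousLinearMap.nonneg_iff_isPositive, ContinuousLinearMap.isPositive_def]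
  refine ⟨fun x y => D.adjK x y, fun x => ?_⟩
  have h := D.inner_K_re x
  have hc := D.c₀_pos
  rw [ContinuousLinearMap.reApplyInnerSelf_apply, D.adjK]
  exact (by positivity : 0 ≤ D.c₀ * ‖D.G x‖ ^ 2).trans h

theorem G_injective (x : X) (h : D.G x = 0) : x = 0 := by
  have h1 : D.P (D.E (D.b x)) = 0 := by
    rw [← D.P_a_R, ← G_apply, h, map_zero, map_zero]
  have h2 := D.injE _ h1
  rw [← D.bib x, h2, map_zero]

theorem K_injective (x : X) (h : D.K x = 0) : x = 0 := by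
  refine D.G_injective x (D.injT _ ?_)
  rw [← D.bib (D.T (D.G x)), ← K_apply, h, map_zero]

/-! ### The square root of `K` and the form domain -/

section Kh
variable (Kh : X →L[ℂ] X)

/-- `Kh` is a selfadjoint square root of `K`. -/
structure IsKh : Prop where
  adj : ∀ x y, ⟪Kh x, y⟫_ℂ = ⟪x, Kh y⟫_ℂ
  sq : ∀ x, Kh (Kh x) = D.K x

variable {D Kh} (h : D.IsKh Kh)
include h

theorem IsKh.injective (x : X) (hx : Kh x = 0) : x = 0 :=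
  D.K_injective x (by rw [← h.sq, hx, map_zero])

theorem IsKh.dense : DenseRange Kh := by
  have h1 : (Kh : X →L[ℂ] X).rangeᗮ = ⊥ := by
    rw [eq_bot_iff]
    intro x hx
    rw [Submodule.mem_bot]
    refine h.injective x ?_
    have h2 : ⟪Kh (Kh x), x⟫_ℂ = 0 := (Submodule.mem_orthogonal _ _).1 hx _ ⟨Kh x, rfl⟩
    rw [h.adj] at h2
    exact inner_self_eq_zero.1 h2
  have h3 := Submodule.topologicalClosure_eq_top_iff.2 h1
  intro x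
  have h4 : x ∈ (Kh : X →L[ℂ] X).range.topologicalClosure := by rw [h3]; trivial
  exact h4

theorem IsKh.inner_aG (x y : X) : ⟪D.a (D.G x), D.G y⟫_ℂ = ⟪Kh x, Kh y⟫_ℂ := by
  rw [D.inner_aG_G, ← h.sq, h.adj]

theorem IsKh.norm_G_le (x : X) : ‖D.G x‖ ≤ (√D.c₀)⁻¹ * ‖Kh x‖ := by
  have h1 := D.coer (D.G x)
  rw [h.inner_aG, inner_self_eq_norm_sq_to_K] at h1
  have h2 : D.c₀ * ‖D.G x‖ ^ 2 ≤ ‖Kh x‖ ^ 2 := by
    refine h1.trans (le_of_eq ?_)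
    norm_cast
  have hc : 0 < √D.c₀ := Real.sqrt_pos.2 D.c₀_pos
  have h3 : (√D.c₀ * ‖D.G x‖) ^ 2 ≤ ‖Kh x‖ ^ 2 := by
    rw [mul_pow, Real.sq_sqrt D.c₀_pos.le]; exact h2
  have h4 := abs_le_of_sq_le_sq h3 (norm_nonneg _)
  rw [inv_mul_eq_div, le_div_iff₀ hc]
  have := (abs_le.1 h4).2
  linarith

variable (D Kh) in
omit h in
/-- `Q = B V` as a function of `x`, where `b V = K^{1/2} x`. -/
noncomputable def Q : X →L[ℂ] X := (D.G : X →ₗ[ℂ] X).extendOfNorm (Kh : X →ₗ[ℂ] X)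

theorem IsKh.Q_Kh (x : X) : D.Q Kh (Kh x) = D.G x :=
  LinearMap.extendOfNorm_eq (f := (D.G : X →ₗ[ℂ] X)) (e := (Kh : X →ₗ[ℂ] X)) h.dense
    ⟨_, h.norm_G_le⟩ x

theorem IsKh.norm_Q_le (x : X) : ‖D.Q Kh x‖ ≤ (√D.c₀)⁻¹ * ‖x‖ :=
  LinearMap.norm_extendOfNorm_apply_le (f := (D.G : X →ₗ[ℂ] X)) (e := (Kh : X →ₗ[ℂ] X)) h.dense
    _ h.norm_G_le x

/-- `b T Q = K^{1/2}` -/
theorem IsKh.bTQ (x : X) : D.b (D.T (D.Q Kh x)) = Kh x := by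
  refine h.dense.induction (P := fun x => D.b (D.T (D.Q Kh x)) = Kh x) ?_
    (isClosed_eq (by fun_prop) (by fun_prop)) x
  rintro _ ⟨y, rfl⟩
  rw [h.Q_Kh, ← K_apply, h.sq]

theorem IsKh.P_Q (x : X) : D.P (D.Q Kh x) = D.Q Kh x := by
  refine h.dense.induction (P := fun x => D.P (D.Q Kh x) = D.Q Kh x) ?_
    (isClosed_eq (by fun_prop) (by fun_prop)) x
  rintro _ ⟨y, rfl⟩
  rw [h.Q_Kh, D.P_G]

/-- `⟪a Q x, Q y⟫ = ⟪x, y⟫` -/
theorem IsKh.inner_aQ (x y : X) : ⟪D.a (D.Q Kh x), D.Q Kh y⟫_ℂ = ⟪x, y⟫_ℂ := by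
  refine h.dense.induction (P := fun x => ⟪D.a (D.Q Kh x), D.Q Kh y⟫_ℂ = ⟪x, y⟫_ℂ) ?_
    (isClosed_eq (by fun_prop) (by fun_prop)) x
  rintro _ ⟨x', rfl⟩
  refine h.dense.induction (P := fun y => ⟪D.a (D.Q Kh (Kh x')), D.Q Kh y⟫_ℂ = ⟪Kh x', y⟫_ℂ)
    ?_ (isClosed_eq (by fun_prop) (by fun_prop)) y
  rintro _ ⟨y', rfl⟩
  rw [h.Q_Kh, h.Q_Kh, h.inner_aG]

theorem IsKh.norm_sq_eq (x : X) : ‖x‖ ^ 2 = (⟪D.a (D.Q Kh x), D.Q Kh x⟫_ℂ).re := by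
  rw [h.inner_aQ, inner_self_eq_norm_sq_to_K]
  norm_cast

theorem IsKh.norm_le (x : X) : ‖x‖ ≤ √‖D.a‖ * ‖D.Q Kh x‖ := by
  have h1 := h.norm_sq_eq x
  have h2 : (⟪D.a (D.Q Kh x), D.Q Kh x⟫_ℂ).re ≤ ‖D.a‖ * ‖D.Q Kh x‖ ^ 2 := by
    refine (Complex.re_le_norm _).trans ((norm_inner_le_norm _ _).trans ?_)
    have := D.a.le_opNorm (D.Q Kh x)
    nlinarith [norm_nonneg (D.Q Kh x)]
  have h3 : ‖x‖ ^ 2 ≤ (√‖D.a‖ * ‖D.Q Kh x‖) ^ 2 := by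
    rw [mul_pow, Real.sq_sqrt (norm_nonneg _), h1]; exact h2
  exact (abs_le.1 (abs_le_of_sq_le_sq h3 (by positivity))).2

/-- The form domain: if `P g = g` then `b T g = K^{1/2} y` with `Q y = g`. -/
theorem IsKh.exists_of_P (g : X) (hg : D.P g = g) :
    ∃ y, D.Q Kh y = g ∧ Kh y = D.b (D.T g) := by
  have h1 : Kh (adjoint (D.Q Kh) (D.a g)) = D.b (D.T g) := by
    refine ext_inner_left ℂ fun x => ?_
    rw [← h.adj, ContinuousLinearMap.adjoint_inner_right, h.Q_Kh, ← D.adja, D.inner_aG x g hg]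
  refine ⟨adjoint (D.Q Kh) (D.a g), ?_, h1⟩
  have h2 : D.b (D.T (D.Q Kh (adjoint (D.Q Kh) (D.a g)) - g)) = 0 := by
    rw [map_sub, map_sub, h.bTQ, h1, sub_self]
  have h3 := D.injT (D.Q Kh (adjoint (D.Q Kh) (D.a g)) - g) (by
    rw [← D.bib (D.T _), h2, map_zero])
  exact sub_eq_zero.1 h3

/-- Tested equation for the form domain. -/
theorem IsKh.inner_Kh (F y : X) : ⟪F, Kh y⟫_ℂ = ⟪D.a (D.G F), D.Q Kh y⟫_ℂ := by
  rw [D.inner_aG F _ (h.P_Q y), h.bTQ]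

end Kh

/-- `Kh D.K` of `LaSG` is the square root. -/
theorem isKh : D.IsKh (SC.Kh D.K) :=
  ⟨Kh_inner D.K, Kh_Kh D.K_nonneg⟩

/-! ### Weights commuting with `T` and `P` -/

/-- A bounded selfadjoint weight commuting with `T` and `P`. -/
structure Wt (W : X →L[ℂ] X) : Prop where
  adj : ∀ x y, ⟪W x, y⟫_ℂ = ⟪x, W y⟫_ℂ
  T : ∀ x, W (D.T x) = D.T (W x)
  P : ∀ x, W (D.P x) = D.P (W x)

variable {D}

theorem Wt.E {W : X →L[ℂ] X} (h : D.Wt W) (x : X) : W (D.E x) = D.E (W x) := by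
  refine ext_inner_left ℂ fun y => ?_
  rw [← D.adjT, ← h.adj, ← D.adjT, ← h.T, h.adj]

/-- Regularity: `c₀ |W g| ≤ |W T| |f| + |[W,a]| |g|` for `g = R E f`. -/
theorem Wt.reg {W : X →L[ℂ] X} (h : D.Wt W) {CW Ca : ℝ} (h1 : ∀ x, ‖W (D.T x)‖ ≤ CW * ‖x‖)
    (h2 : ∀ x, ‖W (D.a x) - D.a (W x)‖ ≤ Ca * ‖x‖) (f : X) :
    D.c₀ * ‖W (D.R (D.E f))‖ ≤ CW * ‖f‖ + Ca * ‖D.R (D.E f)‖ := by
  set g := D.R (D.E f) with hg
  have hPg : D.P g = g := D.P_R _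
  have hc := D.coer (W g)
  have e1 : ⟪D.a g, W (W g)⟫_ℂ = ⟪D.E f, W (W g)⟫_ℂ := by
    have h3 : D.P (W (W g)) = W (W g) := by rw [← h.P, ← h.P, hPg]
    rw [← h3]
    exact D.inner_a_R _ _
  have e2 : ⟪D.E f, W (W g)⟫_ℂ = ⟪f, W (D.T (W g))⟫_ℂ := by
    rw [D.adjE, ← h.T]
  have e3 : ⟪D.a g, W (W g)⟫_ℂ = ⟪W (D.a g) - D.a (W g), W g⟫_ℂ + ⟪D.a (W g), W g⟫_ℂ := by
    rw [← h.adj, inner_sub_left, sub_add_cancel]
  have e4 : ⟪D.a (W g), W g⟫_ℂ = ⟪f, W (D.T (W g))⟫_ℂ - ⟪W (D.a g) - D.a (W g), W g⟫_ℂ := by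
    rw [← e2, ← e1, e3]; ring
  rw [e4, Complex.sub_re] at hc
  have b1 : (⟪f, W (D.T (W g))⟫_ℂ).re ≤ ‖f‖ * (CW * ‖W g‖) :=
    (Complex.re_le_norm _).trans ((norm_inner_le_norm _ _).trans
      (mul_le_mul_of_nonneg_left (h1 _) (norm_nonneg _)))
  have b2 : -(⟪W (D.a g) - D.a (W g), W g⟫_ℂ).re ≤ (Ca * ‖g‖) * ‖W g‖ :=
    (neg_le_abs _).trans ((Complex.abs_re_le_norm _).trans ((norm_inner_le_norm _ _).trans
      (mul_le_mul_of_nonneg_right (h2 _) (norm_nonneg _))))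
  rcases eq_or_lt_of_le (norm_nonneg (W g)) with h0 | h0
  · rw [← h0, mul_zero]
    have c1 := (norm_nonneg _).trans (h1 f)
    have c2 := (norm_nonneg _).trans (h2 g)
    linarith
  · refine le_of_mul_le_mul_right ?_ h0
    nlinarith

/-- Contraction of the semigroup in weighted norms. -/
theorem Wt.contract {W : X →L[ℂ] X} (h : D.Wt W) (hb : ∀ x, D.b x = x)
    (h3 : ∀ g, ‖W (D.a g) - D.a (W g)‖ ≤ D.c₀ * ‖W g‖) {t : ℝ} (ht : 0 ≤ t) (x : X) :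
    ‖W (Sg D.K t x)‖ ≤ ‖W x‖ := by
  have key : ∀ w : X, 0 ≤ (⟪W (D.K w), W w⟫_ℂ).re := by
    intro w
    have e0 : D.K w = D.T (D.G w) := by rw [K_apply, hb]
    have hPg : D.P (D.G w) = D.G w := D.P_G w
    have h5 : D.P (W (W (D.G w))) = W (W (D.G w)) := by rw [← h.P, ← h.P, hPg]
    have e1 : ⟪W (D.K w), W w⟫_ℂ = ⟪W (D.G w), W (D.a (D.G w))⟫_ℂ := by
      rw [← h.adj, ← h.adj, e0, h.T, h.T]
      have := D.inner_aG w (W (W (D.G w))) h5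
      rw [hb] at this
      rw [← inner_conj_symm, ← this, inner_conj_symm]
    have e2 : ⟪W (D.G w), W (D.a (D.G w))⟫_ℂ = ⟪W (D.G w), W (D.a (D.G w)) - D.a (W (D.G w))⟫_ℂ +
        ⟪W (D.G w), D.a (W (D.G w))⟫_ℂ := by
      rw [inner_sub_right, sub_add_cancel]
    have h6 := D.coer (W (D.G w))
    rw [D.adja] at h6
    have h7 : -(⟪W (D.G w), W (D.a (D.G w)) - D.a (W (D.G w))⟫_ℂ).re ≤
        ‖W (D.G w)‖ * (D.c₀ * ‖W (D.G w)‖) :=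
      (neg_le_abs _).trans ((Complex.abs_re_le_norm _).trans ((norm_inner_le_norm _ _).trans
        (mul_le_mul_of_nonneg_left (h3 _) (norm_nonneg _))))
    rw [e1, e2, Complex.add_re]
    nlinarith
  have hK := D.K_nonneg
  have hcont : Continuous fun t => Sg D.K t x := Sg_continuousOn_apply hK D.K_injective x
  have hanti : AntitoneOn (fun t => ‖W (Sg D.K t x)‖ ^ 2) (Set.Ici 0) := by
    have hd : ∀ t, 0 < t → HasDerivAt (fun t => ‖W (Sg D.K t x)‖ ^ 2)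
        (2 * (⟪W (Sg D.K t x), W (-(AS D.K t x))⟫_ℂ).re) t := by
      intro t ht
      have h1 : HasDerivAt (fun t => Sg D.K t x) (-(AS D.K t x)) t := by
        exact ((ContinuousLinearMap.apply ℂ X x).restrictScalars ℝ).hasFDerivAt.comp_hasDerivAt t
          (Sg_hasDerivAt hK ht)
      have h2 : HasDerivAt (fun t => W (Sg D.K t x)) (W (-(AS D.K t x))) t :=
        (W.restrictScalars ℝ).hasFDerivAt.comp_hasDerivAt t h1
      have h3 := (h2.inner ℂ h2)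
      have h4 := Complex.reCLM.hasFDerivAt.comp_hasDerivAt t (h3.restrictScalars ℝ)
      have h5 : (fun t => ‖W (Sg D.K t x)‖ ^ 2) = fun t => (⟪W (Sg D.K t x), W (Sg D.K t x)⟫_ℂ).re := by
        funext t
        rw [inner_self_eq_norm_sq_to_K]
        norm_cast
      have h6 : 2 * (⟪W (Sg D.K t x), W (-(AS D.K t x))⟫_ℂ).re =
          (⟪W (Sg D.K t x), W (-(AS D.K t x))⟫_ℂ + ⟪W (-(AS D.K t x)), W (Sg D.K t x)⟫_ℂ).re := by
        rw [Complex.add_re]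
        rw [← inner_conj_symm (W (-(AS D.K t x))), Complex.conj_re]
        ring
      rw [h5, h6]
      exact h4
    refine antitoneOn_of_deriv_nonpos (convex_Ici 0) ?_ ?_ ?_
    · exact ((W.continuous.comp hcont).norm.pow 2).continuousOn
    · intro t ht
      rw [interior_Ici] at ht
      exact (hd t ht).differentiableAt.differentiableWithinAt
    · intro t ht
      rw [interior_Ici] at ht
      rw [(hd t ht).deriv, map_neg, inner_neg_right, Complex.neg_re]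
      have e1 : Sg D.K t x = D.K (AS D.K t x) := by
        rw [← K_AS hK ht]; rfl
      rw [e1]
      have := key (AS D.K t x)
      linarith
  have h1 : ‖W (Sg D.K t x)‖ ^ 2 ≤ ‖W (Sg D.K 0 x)‖ ^ 2 := hanti (Set.self_mem_Ici) ht ht
  rw [Sg_zero] at h1
  exact (pow_le_pow_iff_left₀ (norm_nonneg _) (norm_nonneg _) two_ne_zero).1 h1

end OD

end Pool.Agent.Lib.MP_79abb3_an.SC
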