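import Pool.Agent.Lib.MP_79abb3_an.SC.LaSG
import Pool.Agent.Lib.MP_79abb3_an.SC.ExAbs
import Pool.Agent.Lib.MP_79abb3_an.SC.LaE
import Pool.Agent.Lib.MP_79abb3_an.SC.LaOp

section

/-!
Theorem C, block (ii): mild solutions and tested identities.

A mild solution is `h(t) = S(t-a) h_a + ∫_a^t A S(t-r) J g(r) dr`, the velocity variable is
`V = K^{1/2} h`. The tested identity is `K^{1/2} V(t) - K^{1/2} V(s) = ∫_s^t ℓ`, with `ℓ = J g - h`.
-/

set_option autoImplicit false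
set_option linter.unusedSectionVars false

open MeasureTheory Set Filter Topology
open scoped InnerProductSpace

namespace Pool.Agent.Lib.MP_79abb3_an.SC

section

variable {E : Type} [NormedAddCommGroup E] [InnerProductSpace ℂ E] [CompleteSpace E]
  {K : E →L[ℂ] E} {Y : Type} [NormedAddCommGroup Y] [NormedSpace ℂ Y]

/-- kernels `A S(τ) J` -/
theorem ker_AS (hK : 0 ≤ K) (hi : ∀ x, K x = 0 → x = 0) {J : Y →L[ℂ] E} {C θ : ℝ} (hC : 0 ≤ C)
    (h0 : 0 ≤ θ) (h1 : θ < 1) (hJ : ∀ τ, 0 < τ → ∀ y, ‖AS K τ (J y)‖ ≤ C * kth θ τ * ‖y‖) :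
    Ker (Sg K) (fun τ => (AS K τ).comp J) C θ where
  C0 := hC
  th0 := h0
  th1 := h1
  s0 x := by rw [Sg_zero]; rfl
  sadd s t hs ht x := by rw [Sg_add hs ht]; rfl
  scont x := Sg_continuousOn_apply hK hi x
  sb t _ x := Sg_norm_apply hK t x
  ls s t hs ht y := by
    show AS K (s + t) (J y) = Sg K s (AS K t (J y))
    rw [← Sg_AS hs ht]; rfl
  lb t ht y := hJ t ht y

/-- `J = K^{1/2}`: sources with values in `E` -/
theorem AS_Kh_bound (hK : 0 ≤ K) {τ : ℝ} (hτ : 0 < τ) (y : E) :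
    ‖AS K τ (Kh K y)‖ ≤ 1 * kth (1 / 2) τ * ‖y‖ := by
  rw [AS_Kh hK hτ, one_mul]
  refine ((HS K τ).le_of_opNorm_le (HS_norm hK hτ) y).trans ?_
  refine mul_le_mul_of_nonneg_right ?_ (norm_nonneg y)
  unfold kth
  rw [Real.rpow_neg hτ.le, ← Real.sqrt_eq_rpow]
  linarith

theorem int_Sg (hK : 0 ≤ K) (hi : ∀ x, K x = 0 → x = 0) (x : E) {δ : ℝ} (hδ : 0 ≤ δ) :
    ∫ σ in (0:ℝ)..δ, Sg K σ x = K x - Sg K δ (K x) := by
  have h1 : ∫ σ in (0:ℝ)..δ, Sg K σ x = (-Sg K δ (K x)) - (-Sg K 0 (K x)) := by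
    refine intervalIntegral.integral_eq_sub_of_hasDeriv_right (f := fun σ => -Sg K σ (K x))
      (Sg_continuousOn_apply hK hi (K x)).neg.continuousOn ?_
      ((Sg_continuousOn_apply hK hi x).intervalIntegrable _ _)
    intro σ hσ
    rw [min_eq_left hδ, max_eq_right hδ] at hσ
    have h2 := Sg_hasDerivAt_apply hK hσ.1 (K x)
    rw [AS_K hK hσ.1] at h2
    have h7 := h2.neg
    rw [neg_neg] at h7
    exact h7.hasDerivWithinAt
  rw [h1, Sg_zero]
  show -Sg K δ (K x) - -(K x) = _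
  abel

/-- mild formula ⇒ `K h` is `C¹` with derivative `J g - h` -/
theorem mild_K (hK : 0 ≤ K) (hi : ∀ x, K x = 0 → x = 0) {J : Y →L[ℂ] E} {C θ : ℝ}
    (hk : Ker (Sg K) (fun τ => (AS K τ).comp J) C θ) {a b : ℝ} {g : ℝ → Y}
    (hg : ContinuousOn g (Icc a b)) {h₀ : E} {h : ℝ → E} (hc : ContinuousOn h (Icc a b))
    (hh : ∀ t ∈ Icc a b, h t = Sg K (t - a) h₀ + ∫ r in a..t, AS K (t - r) (J (g r)))
    {s t : ℝ} (hs : a ≤ s) (hst : s ≤ t) (ht : t ≤ b) :
    K (h t) - K (h s) = ∫ r in s..t, (J (g r) - h r) := by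
  have hcg : ContinuousOn (fun r => J (g r) - h r) (Icc a b) :=
    (J.continuous.comp_continuousOn hg).sub hc
  -- the right derivative
  have key : ∀ x ∈ Ico a b, HasDerivWithinAt (fun t => K (h t)) (J (g x) - h x) (Ioi x) x := by
    intro x hx
    have hxI : x ∈ Icc a b := ⟨hx.1, hx.2.le⟩
    -- the formula to the right of `x`
    have e1 : ∀ y ∈ Icc x b, K (h y) = (K (h x) - ∫ σ in (0:ℝ)..(y - x), Sg K σ (h x)) +
        ∫ r in x..y, Sg K (y - r) (J (g r)) := by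
      intro y hy
      have hyI : y ∈ Icc a b := ⟨hx.1.trans hy.1, hy.2⟩
      have h1 := hk.duh_restart hg hyI (c := x) ⟨hx.1, hy.1⟩
      have h2 : h y = Sg K (y - a) h₀ + duh (fun τ => (AS K τ).comp J) a g y := hh y hyI
      have h3 : h x = Sg K (x - a) h₀ + duh (fun τ => (AS K τ).comp J) a g x := hh x hxI
      have h4 : h y = Sg K (y - x) (h x) + duh (fun τ => (AS K τ).comp J) x g y := by
        rw [h2, h1, h3, map_add]
        have h5 : Sg K (y - a) h₀ = Sg K (y - x) (Sg K (x - a) h₀) := by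
          rw [show y - a = (y - x) + (x - a) by ring,
            Sg_add (sub_nonneg.2 hy.1) (sub_nonneg.2 hx.1)]; rfl
        rw [h5, add_assoc]
      rw [h4, map_add]
      congr 1
      · rw [int_Sg hK hi _ (sub_nonneg.2 hy.1), sub_sub_cancel]
        have : K * Sg K (y - x) = Sg K (y - x) * K := K_comm_Sg hK
        exact congrArg (fun L : E →L[ℂ] E => L (h x)) this
      · unfold duh
        rw [← ContinuousLinearMap.intervalIntegral_comp_comm K
          (hk.int_aux hg hyI (c := x) ⟨hx.1, hy.1⟩)]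
        apply intervalIntegral.integral_congr_ae
        have : ∀ᵐ r : ℝ ∂volume, r ≠ y := by simp [ae_iff, measure_singleton]
        filter_upwards [this] with r hry hr
        rw [uIoc_of_le hy.1] at hr
        have h6 : 0 < y - r := sub_pos.2 (lt_of_le_of_ne hr.2 hry)
        have h7 := K_AS hK h6
        exact congrArg (fun L : E →L[ℂ] E => L (J (g r))) h7
    -- derivative of the first part
    have d1 : HasDerivAt (fun y => K (h x) - ∫ σ in (0:ℝ)..(y - x), Sg K σ (h x)) (-(h x)) x := by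
      have h1 : HasDerivAt (fun u => ∫ σ in (0:ℝ)..u, Sg K σ (h x)) (Sg K (x - x) (h x)) (x - x) :=
        intervalIntegral.integral_hasDerivAt_right
          ((Sg_continuousOn_apply hK hi (h x)).intervalIntegrable _ _)
          ((Sg_continuousOn_apply hK hi (h x)).stronglyMeasurableAtFilter _ _)
          (Sg_continuousOn_apply hK hi (h x)).continuousAt
      have h2 : HasDerivAt (fun y => y - x) (1:ℝ) x := (hasDerivAt_id x).sub_const x
      have h3 := HasDerivAt.scomp (h := fun y : ℝ => y - x) x h1 h2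
      rw [sub_self, Sg_zero, one_smul] at h3
      have h4 := h3.const_sub (K (h x))
      exact h4
    -- derivative of the second part
    have d2 : HasDerivWithinAt (fun y => ∫ r in x..y, Sg K (y - r) (J (g r))) (J (g x)) (Ioi x) x := by
      rw [hasDerivWithinAt_iff_isLittleO, Asymptotics.isLittleO_iff]
      intro ε hε
      have c1 : ContinuousWithinAt (fun r => J (g r)) (Icc a b) x :=
        (J.continuous.comp_continuousOn hg) x hxI
      obtain ⟨d, hd, h1⟩ := Metric.continuousWithinAt_iff.1 c1 (ε / 2) (by positivity)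
      obtain ⟨d', hd', h2⟩ := Metric.tendsto_nhds_nhds.1 (Sg_tendsto_zero hK hi (J (g x)))
        (ε / 2) (by positivity)
      have h3 : ∀ᶠ y in 𝓝[>] x, y < min (min (x + d) (x + d')) b :=
        (nhdsWithin_le_nhds) (Iio_mem_nhds (lt_min (lt_min (by linarith) (by linarith)) hx.2))
      filter_upwards [h3, self_mem_nhdsWithin] with y hy hxy
      have hxy' : x < y := hxy
      have hy1 : y < x + d := hy.trans_le ((min_le_left _ _).trans (min_le_left _ _))
      have hy2 : y < x + d' := hy.trans_le ((min_le_left _ _).trans (min_le_right _ _))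
      have hy3 : y < b := hy.trans_le (min_le_right _ _)
      rw [intervalIntegral.integral_same, sub_zero]
      have h4 : (∫ r in x..y, Sg K (y - r) (J (g r))) - (y - x) • J (g x)
          = ∫ r in x..y, (Sg K (y - r) (J (g r)) - J (g x)) := by
        rw [intervalIntegral.integral_sub, intervalIntegral.integral_const]
        · have h5 : ContinuousOn (fun r => Sg K (y - r) (J (g r))) (uIcc x y) := by
            rw [uIcc_of_le hxy'.le]
            refine hk.scont_comp (by fun_prop) ?_ (fun r hr => sub_nonneg.2 hr.2)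
            exact (J.continuous.comp_continuousOn hg).mono (Icc_subset_Icc hx.1 hy3.le)
          exact h5.intervalIntegrable
        · exact intervalIntegrable_const
      rw [h4]
      have h5 : ∀ r ∈ uIoc x y, ‖Sg K (y - r) (J (g r)) - J (g x)‖ ≤ ε := by
        intro r hr
        rw [uIoc_of_le hxy'.le] at hr
        have h6 : Sg K (y - r) (J (g r)) - J (g x) =
            Sg K (y - r) (J (g r) - J (g x)) + (Sg K (y - r) (J (g x)) - J (g x)) := by
          rw [map_sub]; abel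
        rw [h6]
        have h7 := Sg_norm_apply hK (y - r) (J (g r) - J (g x))
        have h8 : dist (J (g r)) (J (g x)) < ε / 2 := by
          refine h1 ⟨hx.1.trans hr.1.le, hr.2.trans hy3.le⟩ ?_
          rw [Real.dist_eq, abs_of_pos (sub_pos.2 hr.1)]; linarith [hr.2]
        have h9 : dist (Sg K (y - r) (J (g x))) (J (g x)) < ε / 2 := by
          refine h2 ?_
          rw [Real.dist_eq, sub_zero, abs_of_nonneg (sub_nonneg.2 hr.2)]; linarith [hr.1]
        rw [dist_eq_norm] at h8 h9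
        refine (norm_add_le _ _).trans ?_
        linarith
      have h6 := intervalIntegral.norm_integral_le_of_norm_le_const h5
      rw [Real.norm_eq_abs]
      exact h6
    have d3 := (d1.hasDerivWithinAt (s := Ioi x)).add d2
    have e2 : -(h x) + J (g x) = J (g x) - h x := by abel
    rw [e2] at d3
    refine d3.congr_of_eventuallyEq ?_ ?_
    · have h3 : ∀ᶠ y in 𝓝[>] x, y < b := nhdsWithin_le_nhds (Iio_mem_nhds hx.2)
      filter_upwards [h3, self_mem_nhdsWithin] with y hy hxy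
      exact e1 y ⟨le_of_lt hxy, hy.le⟩
    · exact e1 x ⟨le_rfl, hx.2.le⟩
  have hsub : Icc s t ⊆ Icc a b := Icc_subset_Icc hs ht
  have h1 : ContinuousOn (fun r => J (g r) - h r) (uIcc s t) := by
    rw [uIcc_of_le hst]; exact hcg.mono hsub
  refine (intervalIntegral.integral_eq_sub_of_hasDeriv_right (f := fun t => K (h t)) ?_ ?_
    h1.intervalIntegrable).symm
  · rw [uIcc_of_le hst]
    exact K.continuous.comp_continuousOn (hc.mono hsub)
  · intro x hx
    rw [min_eq_left hst, max_eq_right hst] at hx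
    exact key x ⟨hs.trans hx.1.le, hx.2.trans_le ht⟩

/-! ### Tested identities -/

/-- `V` solves `V_t = K^{-1/2} ℓ` in the tested sense: `<V(t),K^{1/2}φ> - <V(s),K^{1/2}φ> = ∫ <ℓ,φ>` -/
structure Tst (K : E →L[ℂ] E) (a b : ℝ) (V ℓ : ℝ → E) : Prop where
  cV : ContinuousOn V (Icc a b)
  cl : ContinuousOn ℓ (Icc a b)
  eq : ∀ s t, a ≤ s → s ≤ t → t ≤ b → Kh K (V t) - Kh K (V s) = ∫ r in s..t, ℓ r

/-- mild solutions are tested solutions -/
theorem mild_Tst (hK : 0 ≤ K) (hi : ∀ x, K x = 0 → x = 0) {J : Y →L[ℂ] E} {C θ : ℝ}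
    (hk : Ker (Sg K) (fun τ => (AS K τ).comp J) C θ) {a b : ℝ} {g : ℝ → Y}
    (hg : ContinuousOn g (Icc a b)) {h₀ : E} {h : ℝ → E} (hc : ContinuousOn h (Icc a b))
    (hh : ∀ t ∈ Icc a b, h t = Sg K (t - a) h₀ + ∫ r in a..t, AS K (t - r) (J (g r))) :
    Tst K a b (fun t => Kh K (h t)) (fun t => J (g t) - h t) where
  cV := (Kh K).continuous.comp_continuousOn hc
  cl := (J.continuous.comp_continuousOn hg).sub hc
  eq s t hs hst ht := by
    rw [Kh_Kh hK, Kh_Kh hK]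
    exact mild_K hK hi hk hg hc hh hs hst ht

theorem Tst.restrict {a b c d : ℝ} {V ℓ : ℝ → E} (h : Tst K a b V ℓ) (h1 : a ≤ c) (h2 : d ≤ b) :
    Tst K c d V ℓ where
  cV := h.cV.mono (Icc_subset_Icc h1 h2)
  cl := h.cl.mono (Icc_subset_Icc h1 h2)
  eq s t hs hst ht := h.eq s t (h1.trans hs) hst (ht.trans h2)

theorem Tst.sub {a b : ℝ} {V ℓ V' ℓ' : ℝ → E} (h : Tst K a b V ℓ) (h' : Tst K a b V' ℓ') :
    Tst K a b (fun t => V t - V' t) (fun t => ℓ t - ℓ' t) where
  cV := h.cV.sub h'.cV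
  cl := h.cl.sub h'.cl
  eq s t hs hst ht := by
    have hsub : uIcc s t ⊆ Icc a b := by rw [uIcc_of_le hst]; exact Icc_subset_Icc hs ht
    rw [intervalIntegral.integral_sub (h.cl.mono hsub).intervalIntegrable
      (h'.cl.mono hsub).intervalIntegrable, ← h.eq s t hs hst ht, ← h'.eq s t hs hst ht, map_sub,
      map_sub]
    abel

theorem Tst.add {a b : ℝ} {V ℓ V' ℓ' : ℝ → E} (h : Tst K a b V ℓ) (h' : Tst K a b V' ℓ') :
    Tst K a b (fun t => V t + V' t) (fun t => ℓ t + ℓ' t) where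
  cV := h.cV.add h'.cV
  cl := h.cl.add h'.cl
  eq s t hs hst ht := by
    have hsub : uIcc s t ⊆ Icc a b := by rw [uIcc_of_le hst]; exact Icc_subset_Icc hs ht
    rw [intervalIntegral.integral_add (h.cl.mono hsub).intervalIntegrable
      (h'.cl.mono hsub).intervalIntegrable, ← h.eq s t hs hst ht, ← h'.eq s t hs hst ht, map_add,
      map_add]
    abel

/-- a `C¹` function with values in `E` is a tested solution with `ℓ = K^{1/2} V'` -/
theorem Tst.of_hasDeriv {a b : ℝ} {V V' : ℝ → E}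
    (hd : ∀ t ∈ Icc a b, HasDerivWithinAt V (V' t) (Icc a b) t) (hc : ContinuousOn V' (Icc a b)) :
    Tst K a b V (fun t => Kh K (V' t)) where
  cV t ht := (hd t ht).continuousWithinAt
  cl := (Kh K).continuous.comp_continuousOn hc
  eq s t hs hst ht := by
    have hsub : uIcc s t ⊆ Icc a b := by rw [uIcc_of_le hst]; exact Icc_subset_Icc hs ht
    rw [ContinuousLinearMap.intervalIntegral_comp_comm _ (hc.mono hsub).intervalIntegrable,
      ← map_sub]
    congr 1
    refine (intervalIntegral.integral_eq_sub_of_hasDeriv_right ?_ ?_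
      (hc.mono hsub).intervalIntegrable).symm
    · exact fun r hr => ((hd r (hsub hr)).continuousWithinAt).mono hsub
    · intro r hr
      rw [min_eq_left hst, max_eq_right hst] at hr
      have hr' : r ∈ Icc a b := ⟨hs.trans hr.1.le, hr.2.le.trans ht⟩
      exact ((hd r hr').hasDerivAt (Icc_mem_nhds (hs.trans_lt hr.1) (hr.2.trans_le ht))).hasDerivWithinAt

/-- differentiability of a primitive of a function which is continuous on a compact interval -/
theorem hasDerivWithinAt_prim {X : Type} [NormedAddCommGroup X] [NormedSpace ℝ X] [CompleteSpace X]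
    {a b : ℝ} {f : ℝ → X} (hf : ContinuousOn f (Icc a b)) {t : ℝ} (ht : t ∈ Icc a b) :
    HasDerivWithinAt (fun t => ∫ r in a..t, f r) (f t) (Icc a b) t := by
  have hab : a ≤ b := ht.1.trans ht.2
  have hc : Continuous (IccExtend hab (domRestrict (Icc a b) f)) :=
    (continuousOn_iff_continuous_domRestrict.1 hf).Icc_extend'
  have h1 : ∀ r ∈ Icc a b, IccExtend hab (domRestrict (Icc a b) f) r = f r := by
    intro r hr
    rw [IccExtend_of_mem hab _ hr]; rfl
  have h2 : HasDerivAt (fun t => ∫ r in a..t, IccExtend hab (domRestrict (Icc a b) f) r)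
      (IccExtend hab (domRestrict (Icc a b) f) t) t :=
    intervalIntegral.integral_hasDerivAt_right (hc.intervalIntegrable _ _)
      (hc.stronglyMeasurableAtFilter _ _) hc.continuousAt
  rw [h1 t ht] at h2
  have h3 : ∀ s ∈ Icc a b, ∫ r in a..s, f r =
      ∫ r in a..s, IccExtend hab (domRestrict (Icc a b) f) r := by
    intro s hs
    refine intervalIntegral.integral_congr fun r hr => ?_
    rw [uIcc_of_le hs.1] at hr
    exact (h1 r ⟨hr.1, hr.2.trans hs.2⟩).symm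
  exact h2.hasDerivWithinAt.congr h3 (h3 t ht)

theorem Tst.hasDeriv {a b : ℝ} {V ℓ : ℝ → E} (h : Tst K a b V ℓ) {t : ℝ} (ht : t ∈ Icc a b) :
    HasDerivWithinAt (fun t => Kh K (V t)) (ℓ t) (Icc a b) t := by
  have h1 : ∀ s ∈ Icc a b, Kh K (V s) = Kh K (V a) + ∫ r in a..s, ℓ r := by
    intro s hs
    rw [← h.eq a s le_rfl hs.1 hs.2]; abel
  have h2 := (hasDerivWithinAt_prim h.cl ht).const_add (Kh K (V a))
  exact h2.congr h1 (h1 t ht)

/-- (b) time dependent test functions -/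
theorem Tst.pair {a b : ℝ} {V ℓ f : ℝ → E} {f' φ : E} (h : Tst K a b V ℓ) {t : ℝ}
    (ht : t ∈ Icc a b) (hφ : f t = Kh K φ) (hf : HasDerivWithinAt f f' (Icc a b) t) :
    HasDerivWithinAt (fun t => ⟪f t, V t⟫_ℂ) (⟪f', V t⟫_ℂ + ⟪φ, ℓ t⟫_ℂ) (Icc a b) t := by
  have h1 := h.hasDeriv ht
  rw [hasDerivWithinAt_iff_tendsto_slope] at h1 hf ⊢
  have hV : Tendsto V (𝓝[Icc a b \ {t}] t) (𝓝 (V t)) :=
    (h.cV t ht).mono_left (nhdsWithin_mono _ sdiff_subset)
  have h2 : ∀ s, slope (fun t => ⟪f t, V t⟫_ℂ) t s =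
      ⟪slope f t s, V s⟫_ℂ + ⟪φ, slope (fun t => Kh K (V t)) t s⟫_ℂ := by
    intro s
    simp only [slope_def_module]
    rw [inner_smul_left_eq_smul, inner_smul_right_eq_smul, ← smul_add]
    congr 1
    rw [inner_sub_left, inner_sub_right]
    have e1 : ⟪φ, Kh K (V s)⟫_ℂ = ⟪f t, V s⟫_ℂ := by rw [hφ, Kh_inner]
    have e2 : ⟪φ, Kh K (V t)⟫_ℂ = ⟪f t, V t⟫_ℂ := by rw [hφ, Kh_inner]
    rw [e1, e2]; ring
  refine Tendsto.congr (fun s => (h2 s).symm) ?_
  exact (hf.inner hV).add (tendsto_const_nhds.inner h1)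

/-- (a) the derivative lemma -/
theorem Tst.energy {a b : ℝ} {V ℓ p : ℝ → E} (h : Tst K a b V ℓ) {M : E →L[ℂ] E}
    (hM : ∀ x y, ⟪M x, y⟫_ℂ = ⟪x, M y⟫_ℂ) (hp : ContinuousOn p (Icc a b))
    (hMp : ∀ t ∈ Icc a b, M (V t) = Kh K (p t)) {t : ℝ} (ht : t ∈ Icc a b) :
    HasDerivWithinAt (fun t => (⟪M (V t), V t⟫_ℂ).re) (2 * (⟪p t, ℓ t⟫_ℂ).re) (Icc a b) t := by
  have h1 := h.hasDeriv ht
  rw [hasDerivWithinAt_iff_tendsto_slope] at h1 ⊢
  have hpt : Tendsto p (𝓝[Icc a b \ {t}] t) (𝓝 (p t)) :=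
    (hp t ht).mono_left (nhdsWithin_mono _ sdiff_subset)
  have h2 : ∀ s ∈ Icc a b, slope (fun t => (⟪M (V t), V t⟫_ℂ).re) t s =
      (⟪p s + p t, slope (fun t => Kh K (V t)) t s⟫_ℂ).re := by
    intro s hs
    simp only [slope_def_module]
    rw [inner_smul_right_eq_smul, Complex.smul_re, smul_eq_mul]
    congr 1
    have e0 : ⟪p s + p t, Kh K (V s) - Kh K (V t)⟫_ℂ = ⟪M (V s) + M (V t), V s - V t⟫_ℂ := by
      rw [← map_sub, ← Kh_inner, map_add, hMp s hs, hMp t ht]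
    rw [e0, inner_add_left, inner_sub_right, inner_sub_right]
    have e1 : (⟪M (V t), V s⟫_ℂ).re = (⟪M (V s), V t⟫_ℂ).re := by
      rw [hM (V t) (V s), ← inner_conj_symm, Complex.conj_re]
    simp only [Complex.add_re, Complex.sub_re]
    rw [e1]; ring
  have h3 : Tendsto (fun s => (⟪p s + p t, slope (fun t => Kh K (V t)) t s⟫_ℂ).re)
      (𝓝[Icc a b \ {t}] t) (𝓝 (⟪p t + p t, ℓ t⟫_ℂ).re) :=
    (Complex.continuous_re.tendsto _).comp ((hpt.add_const (p t)).inner h1)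
  have h4 : (⟪p t + p t, ℓ t⟫_ℂ).re = 2 * (⟪p t, ℓ t⟫_ℂ).re := by
    rw [inner_add_left, Complex.add_re]; ring
  rw [h4] at h3
  refine h3.congr' ?_
  filter_upwards [self_mem_nhdsWithin] with s hs
  exact (h2 s hs.1).symm

/-- (a), integrated form -/
theorem Tst.energy_int {a b : ℝ} {V ℓ p : ℝ → E} (h : Tst K a b V ℓ) {M : E →L[ℂ] E}
    (hM : ∀ x y, ⟪M x, y⟫_ℂ = ⟪x, M y⟫_ℂ) (hp : ContinuousOn p (Icc a b))
    (hMp : ∀ t ∈ Icc a b, M (V t) = Kh K (p t)) {s t : ℝ} (hs : a ≤ s) (hst : s ≤ t) (ht : t ≤ b) :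
    (⟪M (V t), V t⟫_ℂ).re - (⟪M (V s), V s⟫_ℂ).re = 2 * ∫ r in s..t, (⟪p r, ℓ r⟫_ℂ).re := by
  have hsub : uIcc s t ⊆ Icc a b := by rw [uIcc_of_le hst]; exact Icc_subset_Icc hs ht
  rw [← intervalIntegral.integral_const_mul]
  have hc : ContinuousOn (fun r => 2 * (⟪p r, ℓ r⟫_ℂ).re) (uIcc s t) :=
    (continuousOn_const.mul (Complex.continuous_re.comp_continuousOn (hp.inner h.cl))).mono hsub
  refine (intervalIntegral.integral_eq_sub_of_hasDeriv_right
    (f := fun t => (⟪M (V t), V t⟫_ℂ).re) ?_ ?_ hc.intervalIntegrable).symm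
  · exact fun r hr => ((h.energy hM hp hMp (hsub hr)).continuousWithinAt).mono hsub
  · intro r hr
    rw [min_eq_left hst, max_eq_right hst] at hr
    have hr' : r ∈ Icc a b := ⟨hs.trans hr.1.le, hr.2.le.trans ht⟩
    exact ((h.energy hM hp hMp hr').hasDerivAt
      (Icc_mem_nhds (hs.trans_lt hr.1) (hr.2.trans_le ht))).hasDerivWithinAt

/-- the mild function defined by a source -/
noncomputable def mildF (K : E →L[ℂ] E) (J : Y →L[ℂ] E) (a : ℝ) (g : ℝ → Y) (h₀ : E) (t : ℝ) : E :=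
  Sg K (t - a) h₀ + ∫ r in a..t, AS K (t - r) (J (g r))

theorem mildF_cont (hK : 0 ≤ K) (hi : ∀ x, K x = 0 → x = 0) {J : Y →L[ℂ] E} {C θ : ℝ}
    (hk : Ker (Sg K) (fun τ => (AS K τ).comp J) C θ) {a b : ℝ} {g : ℝ → Y}
    (hg : ContinuousOn g (Icc a b)) (h₀ : E) : ContinuousOn (mildF K J a g h₀) (Icc a b) := by
  have h1 := hk.duh_cont hg
  have h2 : Continuous fun t => Sg K (t - a) h₀ :=
    (Sg_continuousOn_apply hK hi h₀).comp (continuous_id.sub continuous_const)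
  exact h2.continuousOn.add h1

/-- uniqueness for tested solutions: tested solutions are mild solutions -/
theorem Tst_mild (hK : 0 ≤ K) (hi : ∀ x, K x = 0 → x = 0) {J : Y →L[ℂ] E} {C θ : ℝ}
    (hk : Ker (Sg K) (fun τ => (AS K τ).comp J) C θ) {a b : ℝ} {g : ℝ → Y}
    (hg : ContinuousOn g (Icc a b)) {h : ℝ → E} (hc : ContinuousOn h (Icc a b))
    (hT : Tst K a b (fun t => Kh K (h t)) (fun t => J (g t) - h t)) :
    ∀ t ∈ Icc a b, h t = Sg K (t - a) (h a) + ∫ r in a..t, AS K (t - r) (J (g r)) := by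
  intro t ht
  set h' : ℝ → E := mildF K J a g (h a) with hh'
  have hc' : ContinuousOn h' (Icc a b) := mildF_cont hK hi hk hg (h a)
  have hT' : Tst K a b (fun t => Kh K (h' t)) (fun t => J (g t) - h' t) :=
    mild_Tst hK hi hk hg hc' (fun _ _ => rfl)
  have hD := hT.sub hT'
  have hd : ContinuousOn (fun t => h t - h' t) (Icc a b) := hc.sub hc'
  have h1 := hD.energy_int (M := 1) (fun _ _ => rfl) hd
    (fun r _ => by show Kh K (h r) - Kh K (h' r) = _; rw [map_sub]) le_rfl ht.1 ht.2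
  have h2 : h a - h' a = 0 := by
    have : h' a = h a := by
      simp only [hh', mildF, sub_self, intervalIntegral.integral_same, add_zero]
      rw [Sg_zero]; rfl
    rw [this, sub_self]
  have h3 : ∀ r, (⟪h r - h' r, (J (g r) - h r) - (J (g r) - h' r)⟫_ℂ).re = -‖h r - h' r‖ ^ 2 := by
    intro r
    have e : (J (g r) - h r) - (J (g r) - h' r) = -(h r - h' r) := by abel
    rw [e, inner_neg_right, Complex.neg_re]
    have := inner_self_eq_norm_sq (𝕜 := ℂ) (h r - h' r)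
    rw [← this]; rfl
  have h4 : ∀ r, (⟪(1 : E →L[ℂ] E) (Kh K (h r) - Kh K (h' r)), Kh K (h r) - Kh K (h' r)⟫_ℂ).re
      = ‖Kh K (h r) - Kh K (h' r)‖ ^ 2 := by
    intro r
    have := inner_self_eq_norm_sq (𝕜 := ℂ) (Kh K (h r) - Kh K (h' r))
    rw [← this]; rfl
  rw [h4, h4, ← map_sub (Kh K) (h a), h2, map_zero, norm_zero] at h1
  have h5 : ∫ r in a..t, (⟪h r - h' r, (J (g r) - h r) - (J (g r) - h' r)⟫_ℂ).re ≤ 0 := by
    simp only [h3]
    rw [intervalIntegral.integral_neg]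
    have : 0 ≤ ∫ r in a..t, ‖h r - h' r‖ ^ 2 :=
      intervalIntegral.integral_nonneg ht.1 fun r _ => sq_nonneg _
    linarith
  have h6 : ‖Kh K (h t) - Kh K (h' t)‖ ^ 2 ≤ 0 := by
    have h7 := sq_nonneg ‖Kh K (h t) - Kh K (h' t)‖
    nlinarith
  have h7 : Kh K (h t - h' t) = 0 := by
    rw [map_sub]
    have := pow_eq_zero_iff (two_ne_zero) |>.1 (le_antisymm h6 (sq_nonneg _))
    exact norm_eq_zero.1 this
  exact sub_eq_zero.1 (Kh_inj hK hi _ h7)

/-- gluing of tested solutions -/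
theorem Tst.glue {a b c : ℝ} {V ℓ : ℝ → E} (hac : a ≤ c) (hcb : c ≤ b) (h : Tst K a c V ℓ)
    (h' : Tst K c b V ℓ) : Tst K a b V ℓ := by
  have hcl : ContinuousOn ℓ (Icc a b) := by
    rw [← Icc_union_Icc_eq_Icc hac hcb]
    exact h.cl.union_of_isClosed h'.cl isClosed_Icc isClosed_Icc
  refine ⟨?_, hcl, fun s t hs hst ht => ?_⟩
  · rw [← Icc_union_Icc_eq_Icc hac hcb]
    exact h.cV.union_of_isClosed h'.cV isClosed_Icc isClosed_Icc
  · rcases le_total t c with h1 | h1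
    · exact h.eq s t hs hst h1
    · rcases le_total c s with h2 | h2
      · exact h'.eq s t h2 hst ht
      · have e1 := h.eq s c hs h2 le_rfl
        have e2 := h'.eq c t le_rfl h1 ht
        have i1 : IntervalIntegrable ℓ volume s c := by
          refine (hcl.mono ?_).intervalIntegrable
          rw [uIcc_of_le h2]; exact Icc_subset_Icc hs hcb
        have i2 : IntervalIntegrable ℓ volume c t := by
          refine (hcl.mono ?_).intervalIntegrable
          rw [uIcc_of_le h1]; exact Icc_subset_Icc hac ht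
        rw [← intervalIntegral.integral_add_adjacent_intervals i1 i2, ← e1, ← e2]
        abel

end

end Pool.Agent.Lib.MP_79abb3_an.SC
end

section

/-!
Theorem C, block (ii): operators of the background system on the level of modes, and the links with
the trilinear forms of families.
-/

set_option autoImplicit false
set_option linter.unusedSectionVars false

open MeasureTheory Set Filter Topology Function
open scoped ENNReal InnerProductSpace

namespace Pool.Agent.Lib.MP_79abb3_an.SC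

open Pool.Agent.Lib.MP_79abb3_an.P25

/-! ### The form domain -/

section
variable {X : Type} [NormedAddCommGroup X] [InnerProductSpace ℂ X] [CompleteSpace X] (D : OD X)

/-- `K^{-1/2}` of `T g` as an element of `X` (`P g = g`). -/
noncomputable def OD.qi : X →L[ℂ] X := (D.Q (Kh D.K)).adjoint ∘L D.a

theorem OD.Q_qi {g : X} (hg : D.P g = g) : D.Q (Kh D.K) (D.qi g) = g := by
  obtain ⟨y, hy, -⟩ := D.isKh.exists_of_P g hg
  have h1 : D.qi g = y := by
    refine ext_inner_right ℂ fun z => ?_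
    show ⟪(D.Q (Kh D.K)).adjoint (D.a g), z⟫_ℂ = _
    rw [ContinuousLinearMap.adjoint_inner_left, ← hy, D.isKh.inner_aQ]
  rw [h1, hy]

theorem OD.qi_Q (y : X) : D.qi (D.Q (Kh D.K) y) = y := by
  refine ext_inner_right ℂ fun z => ?_
  show ⟪(D.Q (Kh D.K)).adjoint (D.a _), z⟫_ℂ = _
  rw [ContinuousLinearMap.adjoint_inner_left, D.isKh.inner_aQ]

end

section
variable {H : ℝ} [hH : Fact (0 < H)]

/-! ### Fibres -/

theorem star_star_ci (f : CI H) : star (star f) = f := _root_.star_star f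

theorem ex_mul_zero_right {f g : CI H} {z : ℝ} (h : ex g z = 0) : ex (f * g) z = 0 := by
  rw [ex_mul, h, mul_zero]

theorem ex_mul_zero_left {f g : CI H} {z : ℝ} (h : ex f z = 0) : ex (f * g) z = 0 := by
  rw [ex_mul, h, zero_mul]

/-- `m T g = T (m g - m' T g)` -/
theorem Tz_mul (k : ℝ) {m m1 : CI H} (hm : IsD m m1) (g : Z2 H) :
    Tz k (mz m g - mz m1 (T2 k g)) = m * Tz k g := by
  refine (Tz_unique ?_ ?_).symm
  · have h1 := (IsD.dz hm).mul (Tz_dz k g)
    have e : mz (Tz k g) (iota m1) + mz m (((|k| : ℝ) : ℂ) • iota (Tz k g) - g) =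
        ((|k| : ℝ) : ℂ) • iota (m * Tz k g) - (mz m g - mz m1 (T2 k g)) := by
      rw [map_sub, map_smul, mz_iota, mz_iota, T2_apply, mz_iota, mul_comm (Tz k g) m1]
      abel
    rwa [e] at h1
  · rw [ex_mul, Tz_H, mul_zero]

/-- `ζ E f = T (B (ζ E f))` -/
theorem Tz_zeta (k : ℝ) {m m1 : CI H} (hm : IsD m m1) (mH : ex m H = 0) (f : Z2 H) :
    Tz k (-(mz m1 (E2 k f)) - mz m f + (2:ℂ) • mz m (((|k| : ℝ) : ℂ) • E2 k f)) = m * Ez k f := by
  refine (Tz_unique ?_ ?_).symm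
  · have h1 := (IsD.dz hm).mul (Ez_dz k f)
    have e : mz (Ez k f) (iota m1) + mz m (f - ((|k| : ℝ) : ℂ) • iota (Ez k f)) =
        ((|k| : ℝ) : ℂ) • iota (m * Ez k f) -
          (-(mz m1 (E2 k f)) - mz m f + (2:ℂ) • mz m (((|k| : ℝ) : ℂ) • E2 k f)) := by
      rw [map_sub, map_smul, map_smul, mz_iota, mz_iota, E2_apply, mz_iota, mz_iota,
        mul_comm (Ez k f) m1, two_smul]
      abel
    rwa [e] at h1
  · rw [ex_mul, mH, zero_mul]

theorem T2_zeta (k : ℝ) {m m1 : CI H} (hm : IsD m m1) (mH : ex m H = 0) (f : Z2 H) :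
    T2 k (-(mz m1 (E2 k f)) - mz m f + (2:ℂ) • mz m (((|k| : ℝ) : ℂ) • E2 k f)) = mz m (E2 k f) := by
  rw [T2_apply, Tz_zeta k hm mH, ← mz_iota, E2_apply]

theorem P2_zeta (k : ℝ) {m m1 : CI H} (hm : IsD m m1) (mH : ex m H = 0) (f : Z2 H) :
    P2 k (-(mz m1 (E2 k f)) - mz m f + (2:ℂ) • mz m (((|k| : ℝ) : ℂ) • E2 k f)) =
      -(mz m1 (E2 k f)) - mz m f + (2:ℂ) • mz m (((|k| : ℝ) : ℂ) • E2 k f) := by
  rw [P2_iff, Tz_zeta k hm mH, ex_mul, Ez_zero, mul_zero]

theorem T2_mul (k : ℝ) {m m1 : CI H} (hm : IsD m m1) (g : Z2 H) :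
    T2 k (mz m g - mz m1 (T2 k g)) = mz m (T2 k g) := by
  rw [T2_apply, Tz_mul k hm, ← mz_iota, T2_apply]

theorem P2_mul (k : ℝ) {m m1 : CI H} (hm : IsD m m1) {g : Z2 H}
    (h0 : ex m 0 = 0 ∨ P2 k g = g) :
    P2 k (mz m g - mz m1 (T2 k g)) = mz m g - mz m1 (T2 k g) := by
  rw [P2_iff, Tz_mul k hm, ex_mul]
  rcases h0 with h | h
  · rw [h, zero_mul]
  · rw [(P2_iff k g).1 h, mul_zero]

theorem inner_smul_ka_left (k : ℝ) (x y : Z2 H) :
    ⟪((|k| : ℝ) : ℂ) • x, y⟫_ℂ = ((|k| : ℝ) : ℂ) * ⟪x, y⟫_ℂ := by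
  rw [inner_smul_left, Complex.conj_ofReal]

/-- `⟨Φ, g⟩ = ⟨B* Φ, T g⟩` if `(T g)(0) = 0` -/
theorem ibp_B (k : ℝ) {F : CI H} {F1 : Z2 H} (hF : DZ F F1) {g : Z2 H} (hg : P2 k g = g) :
    ⟪(iota F : Z2 H), g⟫_ℂ = ⟪((|k| : ℝ) : ℂ) • iota F + F1, T2 k g⟫_ℂ := by
  have h1 := DZ.ibp hF (Tz_dz k g)
  rw [Tz_H, (P2_iff k g).1 hg, mul_zero, mul_zero, sub_zero, inner_sub_right, inner_smul_right,
    ← T2_apply] at h1
  rw [inner_add_left, inner_smul_ka_left]
  linear_combination -h1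

/-- identity (i): `⟨B(ζθ), Bq⟩ = ⟨Bf, ζq⟩ - 2⟨θ_z, ζ'q⟩ - ⟨θ, ζ''q⟩`, `θ = E f`, `f = T G` -/
theorem zeta_mode_i (k : ℝ) {m m1 m2 : CI H} (hm : IsD m m1) (hm1 : IsD m1 m2) (mr : star m = m)
    (mr1 : star m1 = m1) (mr2 : star m2 = m2) (G : Z2 H) {g : Z2 H} (hg : P2 k g = g) :
    ⟪-(mz m1 (E2 k (T2 k G))) - mz m (T2 k G) + (2:ℂ) • mz m (((|k| : ℝ) : ℂ) • E2 k (T2 k G)), g⟫_ℂ =
      ⟪G, mz m (T2 k g)⟫_ℂ -
        2 * ⟪T2 k G - ((|k| : ℝ) : ℂ) • E2 k (T2 k G), mz m1 (T2 k g)⟫_ℂ -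
        ⟪E2 k (T2 k G), mz m2 (T2 k g)⟫_ℂ := by
  set f : CI H := Tz k G with hf
  set θ : CI H := Ez k (T2 k G) with hθ
  set c : ℂ := ((|k| : ℝ) : ℂ) with hc
  have df : DZ f (c • iota f - G) := Tz_dz k G
  have dθ : DZ θ (iota f - c • iota θ) := Ez_dz k (T2 k G)
  set F : CI H := -(m1 * θ) - m * f + (2:ℂ) • (c • (m * θ)) with hF
  have dF : DZ F (-(mz θ (iota m2) + mz m1 (iota f - c • iota θ)) -
      (mz f (iota m1) + mz m (c • iota f - G)) +
      (2:ℂ) • (c • (mz θ (iota m1) + mz m (iota f - c • iota θ)))) := by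
    have d1 := (IsD.dz hm1).mul dθ
    have d2 := (IsD.dz hm).mul df
    have d3 := (IsD.dz hm).mul dθ
    have d4 := ((d1.smul (-1)).sub d2).add ((d3.smul c).smul (2:ℂ))
    have e5 : F = (-1 : ℂ) • (m1 * θ) - m * f + (2:ℂ) • (c • (m * θ)) := by
      rw [hF]
      congr 2
      apply ci_ext
      intro z _
      rw [ex_neg, ex_smul, neg_one_mul]
    rw [e5]
    convert d4 using 3
    rw [neg_one_smul]
  have e0 : -(mz m1 (E2 k (T2 k G))) - mz m (T2 k G) + (2:ℂ) • mz m (c • E2 k (T2 k G)) =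
      (iota F : Z2 H) := by
    rw [hF, map_add iota, map_sub iota, map_neg iota, map_smul iota, map_smul iota, ← mz_iota,
      ← mz_iota, ← mz_iota, map_smul (mz m)]
    rfl
  rw [e0, ibp_B k dF hg]
  have e1 : c • iota F + (-(mz θ (iota m2) + mz m1 (iota f - c • iota θ)) -
      (mz f (iota m1) + mz m (c • iota f - G)) +
      (2:ℂ) • (c • (mz θ (iota m1) + mz m (iota f - c • iota θ)))) =
      mz m G - (2:ℂ) • (mz m1 (iota f - c • iota θ)) - mz m2 (iota θ) := by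
    rw [hF]
    simp only [map_add, map_sub, map_neg, map_smul, mz_iota, smul_add, smul_sub, smul_neg,
      mul_comm θ m2, mul_comm f m1, mul_comm θ m1, smul_smul]
    module
  rw [e1, inner_sub_left, inner_sub_left, inner_smul_left, inner_mz, inner_mz, inner_mz, mr, mr1, mr2]
  have e2 : (starRingEnd ℂ) (2:ℂ) = 2 := map_ofNat (starRingEnd ℂ) 2
  rw [e2]
  rfl

/-- identity (iii): `⟨ζθ, κ g - κ' T g⟩ = ⟨ζ f + ζ'θ, κ T g⟩`, `θ = E f` -/
theorem zeta_mode_iii (k : ℝ) {m m1 κ κ1 : CI H} (hm : IsD m m1) (mH : ex m H = 0) (hκ : IsD κ κ1)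
    (f g : Z2 H) :
    ⟪mz m (E2 k f), mz κ g - mz κ1 (T2 k g)⟫_ℂ = ⟪mz m f + mz m1 (E2 k f), mz κ (T2 k g)⟫_ℂ := by
  have d1 := (IsD.dz hm).mul (Ez_dz k f)
  have d2 := (IsD.dz hκ).mul (Tz_dz k g)
  have h1 := DZ.ibp d1 d2
  rw [ex_mul_zero_left mH, ex_mul_zero_right (Ez_zero k f), star_zero, zero_mul, zero_mul,
    sub_zero] at h1
  have e1 : mz m (E2 k f) = iota (m * Ez k f) := by rw [E2_apply, mz_iota]
  have e2 : mz κ (T2 k g) = iota (κ * Tz k g) := by rw [T2_apply, mz_iota]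
  have e3 : mz κ g - mz κ1 (T2 k g) = ((|k| : ℝ) : ℂ) • iota (κ * Tz k g) -
      (mz (Tz k g) (iota κ1) + mz κ (((|k| : ℝ) : ℂ) • iota (Tz k g) - g)) := by
    rw [map_sub, map_smul, mz_iota, mz_iota, T2_apply, mz_iota, mul_comm (Tz k g) κ1]
    abel
  have e4 : mz m f + mz m1 (E2 k f) = ((|k| : ℝ) : ℂ) • iota (m * Ez k f) +
      (mz (Ez k f) (iota m1) + mz m (f - ((|k| : ℝ) : ℂ) • iota (Ez k f))) := by
    rw [map_sub, map_smul, mz_iota, mz_iota, E2_apply, mz_iota, mul_comm (Ez k f) m1]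
    abel
  rw [e1, e2, e3, e4, inner_sub_right, inner_smul_right, inner_add_left, inner_smul_ka_left]
  linear_combination -h1

/-- `⟨g, B(κV)⟩ = ⟨B* g, κV⟩` for `g = T G`, `(T G)(0) = 0`. -/
theorem kappa_mode (k : ℝ) {κ κ1 : CI H} (hκ : IsD κ κ1) {G : Z2 H} (hG : P2 k G = G) (g : Z2 H) :
    ⟪T2 k G, mz κ g - mz κ1 (T2 k g)⟫_ℂ =
      ⟪((|k| : ℝ) : ℂ) • T2 k G - G + ((|k| : ℝ) : ℂ) • T2 k G, mz κ (T2 k g)⟫_ℂ := by
  have d2 := (IsD.dz hκ).mul (Tz_dz k g)
  have h1 := DZ.ibp (Tz_dz k G) d2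
  rw [Tz_H, (P2_iff k G).1 hG, star_zero, zero_mul, zero_mul, sub_zero] at h1
  have e2 : mz κ (T2 k g) = iota (κ * Tz k g) := by rw [T2_apply, mz_iota]
  have e3 : mz κ g - mz κ1 (T2 k g) = ((|k| : ℝ) : ℂ) • iota (κ * Tz k g) -
      (mz (Tz k g) (iota κ1) + mz κ (((|k| : ℝ) : ℂ) • iota (Tz k g) - g)) := by
    rw [map_sub, map_smul, mz_iota, mz_iota, T2_apply, mz_iota, mul_comm (Tz k g) κ1]
    abel
  rw [e2, e3, inner_sub_right, inner_smul_right, inner_add_left, inner_smul_ka_left, T2_apply]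
  linear_combination -h1

end

end Pool.Agent.Lib.MP_79abb3_an.SC
end
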