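import Pool.Agent.Lib.MP_79abb3_an.SC.ExAbs
import Pool.Agent.Lib.MP_79abb3_an.SC.LaSG

/-!
MP_79abb3_an, Theorem C: the class `DD = {W : sup_{0<d≤1} d^{1/8} |A S(d) W| < ∞}` and the lift of
its elements to a smaller Banach space `Y` into which the semigroup smooths.
-/

set_option autoImplicit false
set_option linter.unusedSectionVars false

open ContinuousLinearMap Filter Topology MeasureTheory Set Function
open scoped InnerProductSpace ComplexConjugate Interval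

namespace Pool.Agent.Lib.MP_79abb3_an.SC

section DD
variable {X : Type} [NormedAddCommGroup X] [InnerProductSpace ℂ X] [CompleteSpace X]
variable {K : X →L[ℂ] X}

/-- The class `DD` with constant `C`. -/
def DDC (K : X →L[ℂ] X) (C : ℝ) (W : X) : Prop :=
  ∀ d, 0 < d → d ≤ 1 → ‖AS K d W‖ ≤ C * d ^ (-(1 / 8 : ℝ))

/-- The class `DD`. -/
def DD (K : X →L[ℂ] X) (W : X) : Prop := ∃ C, DDC K C W

theorem DDC.nonneg {C : ℝ} {W : X} (h : DDC K C W) : 0 ≤ C := by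
  have := (norm_nonneg _).trans (h 1 one_pos le_rfl)
  rwa [Real.one_rpow, mul_one] at this

theorem DDC.mono {C C' : ℝ} {W : X} (h : DDC K C W) (hC : C ≤ C') : DDC K C' W := fun d h0 h1 =>
  (h d h0 h1).trans (mul_le_mul_of_nonneg_right hC (Real.rpow_nonneg h0.le _))

theorem DDC.add {C C' : ℝ} {W W' : X} (h : DDC K C W) (h' : DDC K C' W') :
    DDC K (C + C') (W + W') := fun d h0 h1 => by
  rw [map_add, add_mul]
  exact (norm_add_le _ _).trans (add_le_add (h d h0 h1) (h' d h0 h1))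

theorem DDC.zero : DDC K 0 (0 : X) := fun d _ _ => by simp

theorem DDC.smul {C : ℝ} {W : X} (c : ℂ) (h : DDC K C W) : DDC K (‖c‖ * C) (c • W) :=
  fun d h0 h1 => by
    rw [map_smul, norm_smul, mul_assoc]
    exact mul_le_mul_of_nonneg_left (h d h0 h1) (norm_nonneg _)

theorem AS_comm_Sg (t : ℝ) {d : ℝ} (hd : 0 < d) (ht : 0 ≤ t) (x : X) :
    AS K d (Sg K t x) = Sg K t (AS K d x) := by
  have h1 : Sg K t * AS K d = AS K (t + d) := Sg_AS ht hd
  rcases ht.eq_or_lt with h0 | h0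
  · rw [← h0, Sg_zero]; rfl
  · have h2 : AS K d * Sg K t = Sg K t * AS K d := by
      have e1 : AS K d = fA (fun l => l * Real.exp (-(d * l))) K := rfl
      rw [e1, Sg_pos h0, ← fA_mul (adm_mul_exp hd) (adm_exp h0), ← fA_mul (adm_exp h0) (adm_mul_exp hd)]
      congr 1
      funext l
      ring
    exact congrArg (fun f : X →L[ℂ] X => f x) h2

theorem DDC.sg {C : ℝ} {W : X} (hK : 0 ≤ K) (h : DDC K C W) {t : ℝ} (ht : 0 ≤ t) :
    DDC K C (Sg K t W) := fun d h0 h1 => by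
  rw [AS_comm_Sg t h0 ht]
  exact (Sg_norm_apply hK t _).trans (h d h0 h1)

/-- Elements of `Ran K` are in `DD`. -/
theorem DDC.of_K (hK : 0 ≤ K) (x : X) : DDC K ‖x‖ (K x) := fun d h0 h1 => by
  have e : AS K d (K x) = Sg K d x := by
    have h2 : K * AS K d = AS K d * K := fA_comm_K hK (adm_mul_exp h0)
    have h3 := congrArg (fun f : X →L[ℂ] X => f x) h2
    have h4 : K (AS K d x) = AS K d (K x) := h3
    rw [← h4]
    have h5 := congrArg (fun f : X →L[ℂ] X => f x) (K_AS hK h0)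
    exact h5
  rw [e]
  have h6 : 1 ≤ d ^ (-(1 / 8 : ℝ)) := Real.one_le_rpow_of_pos_of_le_one_of_nonpos h0 h1 (by norm_num)
  calc ‖Sg K d x‖ ≤ ‖x‖ := Sg_norm_apply hK d x
    _ = ‖x‖ * 1 := (mul_one _).symm
    _ ≤ _ := mul_le_mul_of_nonneg_left h6 (norm_nonneg _)

theorem dd_Sg_deriv (hK : 0 ≤ K) (W : X) {s : ℝ} (hs : 0 < s) :
    HasDerivAt (fun t => Sg K t W) (-(AS K s W)) s :=
  ((ContinuousLinearMap.apply ℂ X W).restrictScalars ℝ).hasFDerivAt.comp_hasDerivAt s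
    (Sg_hasDerivAt hK hs)

theorem AS_cont_apply (hK : 0 ≤ K) (W : X) : ContinuousOn (fun s => AS K s W) (Ioi 0) :=
  (AS_continuousOn hK).clm_apply continuousOn_const

theorem DDC.int {C : ℝ} {W : X} (hK : 0 ≤ K) (h : DDC K C W) {d : ℝ} (h0 : 0 ≤ d) (h1 : d ≤ 1) :
    IntervalIntegrable (fun s => AS K s W) volume 0 d := by
  rw [intervalIntegrable_iff_integrableOn_Ioc_of_le h0]
  have h3 : IntegrableOn (fun s : ℝ => C * s ^ (-(1 / 8 : ℝ))) (Ioc 0 d) := by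
    rw [← intervalIntegrable_iff_integrableOn_Ioc_of_le h0]
    exact (intervalIntegral.intervalIntegrable_rpow' (by norm_num)).const_mul C
  refine Integrable.mono' h3 (((AS_cont_apply hK W).mono Ioc_subset_Ioi_self).aestronglyMeasurable
    measurableSet_Ioc) ?_
  filter_upwards [ae_restrict_mem measurableSet_Ioc] with s hs
  exact h s hs.1 (hs.2.trans h1)

/-- `W - S(d) W = ∫₀^d A S(s) W ds` -/
theorem DDC.sub_eq {C : ℝ} {W : X} (hK : 0 ≤ K) (hi : ∀ x, K x = 0 → x = 0) (h : DDC K C W)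
    {d : ℝ} (h0 : 0 ≤ d) (h1 : d ≤ 1) : W - Sg K d W = ∫ s in (0:ℝ)..d, AS K s W := by
  have h2 : ∫ s in (0:ℝ)..d, -(AS K s W) = Sg K d W - Sg K 0 W :=
    intervalIntegral.integral_eq_sub_of_hasDerivAt_of_le h0
      (Sg_continuousOn_apply hK hi W).continuousOn
      (fun s hs => dd_Sg_deriv hK W hs.1) (h.int hK h0 h1).neg
  rw [intervalIntegral.integral_neg, Sg_zero] at h2
  have h3 : (1 : X →L[ℂ] X) W = W := rfl
  rw [h3] at h2
  rw [← neg_sub, ← h2, neg_neg]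

theorem DDC.sub_le {C : ℝ} {W : X} (hK : 0 ≤ K) (hi : ∀ x, K x = 0 → x = 0) (h : DDC K C W)
    {d : ℝ} (h0 : 0 < d) (h1 : d ≤ 1) : ‖W - Sg K d W‖ ≤ 8 / 7 * C * d ^ (7 / 8 : ℝ) := by
  rw [h.sub_eq hK hi h0.le h1]
  have h2 : ‖∫ s in (0:ℝ)..d, AS K s W‖ ≤ ∫ s in (0:ℝ)..d, C * s ^ (-(1 / 8 : ℝ)) := by
    refine intervalIntegral.norm_integral_le_of_norm_le h0.le ?_
      ((intervalIntegral.intervalIntegrable_rpow' (by norm_num)).const_mul C)
    filter_upwards with s hs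
    exact h s hs.1 (hs.2.trans h1)
  refine h2.trans (le_of_eq ?_)
  rw [intervalIntegral.integral_const_mul, integral_rpow (Or.inl (by norm_num))]
  have h3 : (-(1 / 8) + 1 : ℝ) = 7 / 8 := by norm_num
  rw [h3, Real.zero_rpow (by norm_num), sub_zero]
  ring

/-- Operators which map `Ran K` to itself preserve `DD`. -/
theorem DDC.recut {C : ℝ} {W : X} (hK : 0 ≤ K) (hi : ∀ x, K x = 0 → x = 0) (h : DDC K C W)
    (M M' : X →L[ℂ] X) (hM : ∀ x, M (K x) = K (M' x)) :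
    DDC K ((8 / 7 * ‖M‖ + ‖M'‖) * C) (M W) := by
  intro d h0 h1
  have e0 : Sg K d W = K (AS K d W) := by
    rw [← K_AS hK h0]; rfl
  have e1 : M W = M (W - Sg K d W) + K (M' (AS K d W)) := by
    rw [← hM, ← e0, ← map_add, sub_add_cancel]
  have e2 : AS K d (K (M' (AS K d W))) = Sg K d (M' (AS K d W)) := by
    have h2 : K * AS K d = AS K d * K := fA_comm_K hK (adm_mul_exp h0)
    have h4 : K (AS K d (M' (AS K d W))) = AS K d (K (M' (AS K d W))) :=
      congrArg (fun f : X →L[ℂ] X => f (M' (AS K d W))) h2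
    rw [← h4]
    exact congrArg (fun f : X →L[ℂ] X => f (M' (AS K d W))) (K_AS hK h0)
  rw [e1, map_add, e2]
  have hC := h.nonneg
  have b1 : ‖AS K d (M (W - Sg K d W))‖ ≤ d⁻¹ * (‖M‖ * (8 / 7 * C * d ^ (7 / 8 : ℝ))) := by
    refine ((AS K d).le_of_opNorm_le (AS_norm hK h0) _).trans ?_
    refine mul_le_mul_of_nonneg_left ?_ (by positivity)
    exact (M.le_opNorm _).trans (mul_le_mul_of_nonneg_left (h.sub_le hK hi h0 h1) (norm_nonneg _))
  have b2 : ‖Sg K d (M' (AS K d W))‖ ≤ ‖M'‖ * (C * d ^ (-(1 / 8 : ℝ))) :=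
    (Sg_norm_apply hK d _).trans ((M'.le_opNorm _).trans
      (mul_le_mul_of_nonneg_left (h d h0 h1) (norm_nonneg _)))
  have e3 : d⁻¹ * d ^ (7 / 8 : ℝ) = d ^ (-(1 / 8 : ℝ)) := by
    rw [← Real.rpow_neg_one, ← Real.rpow_add h0]
    norm_num
  calc _ ≤ d⁻¹ * (‖M‖ * (8 / 7 * C * d ^ (7 / 8 : ℝ))) + ‖M'‖ * (C * d ^ (-(1 / 8 : ℝ))) :=
        (norm_add_le _ _).trans (add_le_add b1 b2)
    _ = ‖M‖ * (8 / 7 * C) * (d⁻¹ * d ^ (7 / 8 : ℝ)) + ‖M'‖ * (C * d ^ (-(1 / 8 : ℝ))) := by ring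
    _ = _ := by rw [e3]; ring

/-! ### Duhamel terms -/

theorem AS_half {Z : Type} [NormedAddCommGroup Z] [NormedSpace ℂ Z] {L : ℝ → (Z →L[ℂ] X)}
    {CL : ℝ} (hk : Ker (Sg K) L CL (1 / 8)) {d τ : ℝ} (hd : 0 < d) (hτ : 0 < τ) (z : Z) :
    AS K d (L τ z) = AS K ((d + τ) / 2) (L ((d + τ) / 2) z) := by
  rcases le_total d τ with h | h
  · -- move semigroup from `L τ` to `AS`
    rcases h.eq_or_lt with h0 | h0
    · have e : (d + τ) / 2 = τ := by rw [h0]; ring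
      rw [e, h0]
    · have e1 : τ = (τ - d) / 2 + (d + τ) / 2 := by ring
      have e2 : L τ z = Sg K ((τ - d) / 2) (L ((d + τ) / 2) z) := by
        conv_lhs => rw [e1]
        exact hk.ls _ _ (by linarith) (by linarith) z
      rw [e2, AS_comm_Sg _ hd (by linarith)]
      have e3 : Sg K ((τ - d) / 2) * AS K d = AS K ((τ - d) / 2 + d) := Sg_AS (by linarith) hd
      have e4 : (τ - d) / 2 + d = (d + τ) / 2 := by ring
      rw [e4] at e3
      exact congrArg (fun f : X →L[ℂ] X => f (L ((d + τ) / 2) z)) e3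
  · rcases h.eq_or_lt with h0 | h0
    · have e : (d + τ) / 2 = τ := by rw [h0]; ring
      rw [e, h0]
    · have e2 : L ((d + τ) / 2) z = Sg K ((d - τ) / 2) (L τ z) := by
        have := hk.ls ((d - τ) / 2) τ (by linarith) hτ z
        rw [← this]
        congr 2
        ring
      rw [e2, AS_comm_Sg _ (by linarith) (by linarith)]
      have e3 : Sg K ((d - τ) / 2) * AS K ((d + τ) / 2) = AS K ((d - τ) / 2 + (d + τ) / 2) :=
        Sg_AS (by linarith) (by linarith)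
      have e4 : (d - τ) / 2 + (d + τ) / 2 = d := by ring
      rw [e4] at e3
      exact (congrArg (fun f : X →L[ℂ] X => f (L τ z)) e3).symm

theorem AS_L_norm {Z : Type} [NormedAddCommGroup Z] [NormedSpace ℂ Z] {L : ℝ → (Z →L[ℂ] X)}
    {CL : ℝ} (hK : 0 ≤ K) (hk : Ker (Sg K) L CL (1 / 8)) {d τ S : ℝ} (hd : 0 < d) (hτ : 0 < τ)
    (hS : 1 ≤ S) (hdS : (d + τ) / 2 ≤ S) (z : Z) :
    ‖AS K d (L τ z)‖ ≤ CL * (S + 1) * 4 * (d + τ) ^ (-(9 / 8 : ℝ)) * ‖z‖ := by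
  have hσ : 0 < (d + τ) / 2 := by linarith
  rw [AS_half hk hd hτ]
  set σ := (d + τ) / 2 with hσdef
  have h1 := (AS K σ).le_of_opNorm_le (AS_norm hK hσ) (L σ z)
  have h2 := hk.lb σ hσ z
  have hC := hk.C0
  have e1 : σ⁻¹ * kth (1 / 8) σ ≤ (S + 1) * σ ^ (-(9 / 8 : ℝ)) := by
    rw [kth, mul_add, mul_one, add_mul, one_mul]
    have e2 : σ⁻¹ * σ ^ (-(1 / 8 : ℝ)) = σ ^ (-(9 / 8 : ℝ)) := by
      rw [← Real.rpow_neg_one, ← Real.rpow_add hσ]
      norm_num
    rw [e2]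
    have e3 : σ⁻¹ = σ ^ (1 / 8 : ℝ) * σ ^ (-(9 / 8 : ℝ)) := by
      rw [← Real.rpow_neg_one, ← Real.rpow_add hσ]
      norm_num
    have e4 : σ ^ (1 / 8 : ℝ) ≤ S := by
      calc σ ^ (1 / 8 : ℝ) ≤ S ^ (1 / 8 : ℝ) := Real.rpow_le_rpow hσ.le hdS (by norm_num)
        _ ≤ S ^ (1 : ℝ) := Real.rpow_le_rpow_of_exponent_le hS (by norm_num)
        _ = S := Real.rpow_one _
    have e5 : 0 ≤ σ ^ (-(9 / 8 : ℝ)) := Real.rpow_nonneg hσ.le _
    rw [e3]
    gcongr
  have e6 : σ ^ (-(9 / 8 : ℝ)) ≤ 4 * (d + τ) ^ (-(9 / 8 : ℝ)) := by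
    have e7 : σ ^ (-(9 / 8 : ℝ)) = (2⁻¹ : ℝ) ^ (-(9 / 8 : ℝ)) * (d + τ) ^ (-(9 / 8 : ℝ)) := by
      rw [← Real.mul_rpow (by norm_num) (by linarith)]
      congr 1
      rw [hσdef]; ring
    have e8 : (2⁻¹ : ℝ) ^ (-(9 / 8 : ℝ)) ≤ 4 := by
      rw [Real.inv_rpow (by norm_num), ← Real.rpow_neg (by norm_num), neg_neg]
      calc (2:ℝ) ^ (9 / 8 : ℝ) ≤ 2 ^ (2 : ℝ) :=
            Real.rpow_le_rpow_of_exponent_le (by norm_num) (by norm_num)
        _ = 4 := by norm_num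
    rw [e7]
    exact mul_le_mul_of_nonneg_right e8 (Real.rpow_nonneg (by linarith) _)
  calc ‖AS K σ (L σ z)‖ ≤ σ⁻¹ * ‖L σ z‖ := h1
    _ ≤ σ⁻¹ * (CL * kth (1 / 8) σ * ‖z‖) := mul_le_mul_of_nonneg_left h2 (by positivity)
    _ = CL * (σ⁻¹ * kth (1 / 8) σ) * ‖z‖ := by ring
    _ ≤ CL * ((S + 1) * (4 * (d + τ) ^ (-(9 / 8 : ℝ)))) * ‖z‖ :=
        mul_le_mul_of_nonneg_right (mul_le_mul_of_nonneg_left
          (e1.trans (mul_le_mul_of_nonneg_left e6 (by linarith))) hC) (norm_nonneg _)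
    _ = _ := by ring

theorem cont_rpow_aux {d : ℝ} (hd : 0 < d) {a t : ℝ} :
    ContinuousOn (fun r => (d + (t - r)) ^ (-(9 / 8 : ℝ))) (Icc a t) := by
  refine ContinuousOn.rpow_const (by fun_prop) fun r hr => Or.inl ?_
  have := hr.2
  intro h
  linarith

theorem int_rpow_le {d : ℝ} (hd : 0 < d) {a t : ℝ} (hat : a ≤ t) :
    ∫ r in a..t, (d + (t - r)) ^ (-(9 / 8 : ℝ)) ≤ 8 * d ^ (-(1 / 8 : ℝ)) := by
  have h1 : ∀ r ∈ uIcc a t, HasDerivAt (fun r => 8 * (d + (t - r)) ^ (-(1 / 8 : ℝ)))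
      ((d + (t - r)) ^ (-(9 / 8 : ℝ))) r := by
    intro r hr
    rw [uIcc_of_le hat] at hr
    have hp : d + (t - r) ≠ 0 := by have := hr.2; intro h; linarith
    have h2 : HasDerivAt (fun r => d + (t - r)) (-1) r := by
      have := ((hasDerivAt_id r).const_sub t).const_add d
      simpa using this
    have h3 := (h2.rpow_const (p := (-(1 / 8 : ℝ))) (Or.inl hp)).const_mul 8
    have e : (d + (t - r)) ^ (-(9 / 8 : ℝ)) =
        8 * (-1 * -(1 / 8 : ℝ) * (d + (t - r)) ^ (-(1 / 8 : ℝ) - 1)) := by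
      rw [show (-(1 / 8) - 1 : ℝ) = -(9 / 8) by norm_num]
      ring
    rw [e]
    exact h3
  have hc : IntervalIntegrable (fun r => (d + (t - r)) ^ (-(9 / 8 : ℝ))) volume a t := by
    refine ContinuousOn.intervalIntegrable ?_
    rw [uIcc_of_le hat]
    exact cont_rpow_aux hd
  rw [intervalIntegral.integral_eq_sub_of_hasDerivAt h1 hc, sub_self, add_zero]
  have h4 : 0 ≤ (d + (t - a)) ^ (-(1 / 8 : ℝ)) := Real.rpow_nonneg (by linarith) _
  linarith

/-- Duhamel terms are in `DD`. -/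
theorem DDC.duh {Z : Type} [NormedAddCommGroup Z] [NormedSpace ℂ Z] {L : ℝ → (Z →L[ℂ] X)}
    {CL : ℝ} (hK : 0 ≤ K) (hk : Ker (Sg K) L CL (1 / 8)) {a b : ℝ} {f : ℝ → Z}
    (hf : ContinuousOn f (Icc a b)) {B : ℝ} (hB : ∀ r ∈ Icc a b, ‖f r‖ ≤ B) {t : ℝ}
    (ht : t ∈ Icc a b) : DDC K (32 * CL * (2 + b - a) * B) (SC.duh L a f t) := by
  intro d h0 h1
  have hC := hk.C0
  have hint := hk.int_aux hf ht (c := a) ⟨le_rfl, ht.1⟩
  have hab : a ≤ b := ht.1.trans ht.2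
  have e1 : AS K d (SC.duh L a f t) = ∫ r in a..t, AS K d (L (t - r) (f r)) :=
    ((AS K d).intervalIntegral_comp_comm hint).symm
  rw [e1]
  have hb : ∀ᵐ r : ℝ ∂volume, r ∈ Ioc a t → ‖AS K d (L (t - r) (f r))‖ ≤
      CL * (1 + b - a + 1) * 4 * B * (d + (t - r)) ^ (-(9 / 8 : ℝ)) := by
    have : ∀ᵐ r : ℝ ∂volume, r ≠ t := by
      simp [ae_iff, measure_singleton]
    filter_upwards [this] with r hrt hr
    have h3 : 0 < t - r := sub_pos.2 (lt_of_le_of_ne hr.2 hrt)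
    have h4 := AS_L_norm hK hk (S := 1 + b - a) h0 h3 (by linarith) (by
      have := ht.2; have := hr.1; linarith) (f r)
    refine h4.trans ?_
    have h5 : 0 ≤ (d + (t - r)) ^ (-(9 / 8 : ℝ)) := Real.rpow_nonneg (by linarith) _
    have h6 := hB r ⟨hr.1.le, hr.2.trans ht.2⟩
    calc CL * (1 + b - a + 1) * 4 * (d + (t - r)) ^ (-(9 / 8 : ℝ)) * ‖f r‖
        ≤ CL * (1 + b - a + 1) * 4 * (d + (t - r)) ^ (-(9 / 8 : ℝ)) * B := by
          refine mul_le_mul_of_nonneg_left h6 ?_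
          have : 0 ≤ 1 + b - a + 1 := by linarith
          positivity
      _ = _ := by ring
  have hgi : IntervalIntegrable (fun r => CL * (1 + b - a + 1) * 4 * B *
      (d + (t - r)) ^ (-(9 / 8 : ℝ))) volume a t := by
    refine ContinuousOn.intervalIntegrable ?_
    rw [uIcc_of_le ht.1]
    exact (cont_rpow_aux h0).const_smul (CL * (1 + b - a + 1) * 4 * B)
  refine (intervalIntegral.norm_integral_le_of_norm_le ht.1 hb hgi).trans ?_
  rw [intervalIntegral.integral_const_mul]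
  have hB0 : 0 ≤ B := (norm_nonneg _).trans (hB t ht)
  have h7 : 0 ≤ CL * (1 + b - a + 1) * 4 * B := by
    have : 0 ≤ 1 + b - a + 1 := by linarith
    positivity
  calc _ ≤ CL * (1 + b - a + 1) * 4 * B * (8 * d ^ (-(1 / 8 : ℝ))) :=
        mul_le_mul_of_nonneg_left (int_rpow_le h0 ht.1) h7
    _ = _ := by ring

end DD

/-! ### The lift to a smaller space -/

section Lift
variable {X Y : Type} [NormedAddCommGroup X] [InnerProductSpace ℂ X] [CompleteSpace X]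
  [NormedAddCommGroup Y] [NormedSpace ℂ Y] [CompleteSpace Y]

/-- The semigroup `S(s)` smooths from `X` into the space `Y` (embedded by `ι`), with norm
`≤ C s^{-θ}`, `θ < 7/8`. -/
structure Smo (K : X →L[ℂ] X) (ι : Y →L[ℂ] X) (P : ℝ → X →L[ℂ] Y) (C θ : ℝ) : Prop where
  hK : 0 ≤ K
  hi : ∀ x, K x = 0 → x = 0
  inj : ∀ y, ι y = 0 → y = 0
  eq : ∀ s, 0 < s → ∀ x, ι (P s x) = Sg K s x
  C0 : 0 ≤ C
  th0 : 0 ≤ θ
  th1 : θ < 7 / 8
  nb : ∀ s, 0 < s → s ≤ 1 → ∀ x, ‖P s x‖ ≤ C * s ^ (-θ) * ‖x‖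

variable {K : X →L[ℂ] X} {ι : Y →L[ℂ] X} {P : ℝ → X →L[ℂ] Y} {C θ : ℝ}

theorem Smo.ext (h : Smo K ι P C θ) {y y' : Y} (e : ι y = ι y') : y = y' :=
  sub_eq_zero.1 (h.inj _ (by rw [map_sub, e, sub_self]))

theorem Smo.P_add (h : Smo K ι P C θ) {s t : ℝ} (hs : 0 < s) (ht : 0 ≤ t) (x : X) :
    P (s + t) x = P s (Sg K t x) := by
  refine h.ext ?_
  rw [h.eq _ (by linarith), h.eq _ hs, Sg_add hs.le ht]
  rfl

theorem Smo.P_cont (h : Smo K ι P C θ) : ContinuousOn P (Ioi 0) := by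
  intro t ht
  have ht' : 0 < t := ht
  have h1 : (fun s => P (t / 2) ∘L Sg K (s - t / 2)) =ᶠ[𝓝 t] P := by
    filter_upwards [Ioi_mem_nhds (half_lt_self ht')] with s hs
    have hs' : t / 2 < s := hs
    ext1 x
    have := h.P_add (s := t / 2) (t := s - t / 2) (by linarith) (by linarith) x
    rw [add_sub_cancel] at this
    exact this.symm
  have h2 : ContinuousAt (fun s => Sg K (s - t / 2)) t := by
    have h3 : ContinuousAt (fun t => Sg K t) (t - t / 2) :=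
      (Sg_hasDerivAt h.hK (by linarith)).continuousAt
    exact ContinuousAt.comp (f := fun s => s - t / 2) h3 (by fun_prop)
  have h4 : ContinuousAt (fun s => P (t / 2) ∘L Sg K (s - t / 2)) t :=
    (continuousAt_const (y := P (t / 2))).clm_comp h2
  exact (h4.congr h1).continuousWithinAt

/-- `A S(s) W` as an element of `Y`. -/
noncomputable def liftI (K : X →L[ℂ] X) (P : ℝ → X →L[ℂ] Y) (W : X) (s : ℝ) : Y :=
  P (s / 2) (AS K (s / 2) W)

theorem Smo.iota_liftI (h : Smo K ι P C θ) (W : X) {s : ℝ} (hs : 0 < s) :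
    ι (liftI K P W s) = AS K s W := by
  have h2 : 0 < s / 2 := by linarith
  rw [liftI, h.eq _ h2]
  have h3 : Sg K (s / 2) * AS K (s / 2) = AS K (s / 2 + s / 2) := Sg_AS h2.le h2
  rw [add_halves] at h3
  exact congrArg (fun f : X →L[ℂ] X => f W) h3

theorem Smo.liftI_cont (h : Smo K ι P C θ) (W : X) : ContinuousOn (liftI K P W) (Ioi 0) := by
  have h1 : ContinuousOn (fun s : ℝ => P (s / 2)) (Ioi 0) :=
    h.P_cont.comp (by fun_prop) fun s hs => by
      have : (0:ℝ) < s := hs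
      show 0 < s / 2
      linarith
  have h2 : ContinuousOn (fun s : ℝ => AS K (s / 2) W) (Ioi 0) :=
    (AS_cont_apply h.hK W).comp (by fun_prop) fun s hs => by
      have : (0:ℝ) < s := hs
      show 0 < s / 2
      linarith
  exact h1.clm_apply h2

theorem Smo.liftI_norm (h : Smo K ι P C θ) {C' : ℝ} {W : X} (hW : DDC K C' W) {s : ℝ}
    (hs : 0 < s) (hs1 : s ≤ 1) : ‖liftI K P W s‖ ≤ 2 * (C * C') * s ^ (-(θ + 1 / 8)) := by
  have h2 : 0 < s / 2 := by linarith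
  have hC := h.C0
  have hC' := hW.nonneg
  have h3 := h.nb (s / 2) h2 (by linarith) (AS K (s / 2) W)
  have h4 := hW (s / 2) h2 (by linarith)
  have e1 : (s / 2) ^ (-θ) * (s / 2) ^ (-(1 / 8 : ℝ)) ≤ 2 * s ^ (-(θ + 1 / 8)) := by
    rw [← Real.rpow_add h2, ← neg_add, Real.div_rpow hs.le (by norm_num), div_eq_mul_inv,
      ← Real.rpow_neg (by norm_num), neg_neg, mul_comm]
    refine mul_le_mul_of_nonneg_right ?_ (Real.rpow_nonneg hs.le _)
    calc (2:ℝ) ^ (θ + 1 / 8) ≤ 2 ^ (1 : ℝ) :=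
          Real.rpow_le_rpow_of_exponent_le (by norm_num) (by linarith [h.th1])
      _ = 2 := Real.rpow_one 2
  calc ‖liftI K P W s‖ ≤ C * (s / 2) ^ (-θ) * ‖AS K (s / 2) W‖ := h3
    _ ≤ C * (s / 2) ^ (-θ) * (C' * (s / 2) ^ (-(1 / 8 : ℝ))) :=
        mul_le_mul_of_nonneg_left h4 (mul_nonneg hC (Real.rpow_nonneg h2.le _))
    _ = (C * C') * ((s / 2) ^ (-θ) * (s / 2) ^ (-(1 / 8 : ℝ))) := by ring
    _ ≤ (C * C') * (2 * s ^ (-(θ + 1 / 8))) := mul_le_mul_of_nonneg_left e1 (by positivity)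
    _ = _ := by ring

theorem Smo.liftI_int (h : Smo K ι P C θ) {C' : ℝ} {W : X} (hW : DDC K C' W) {d : ℝ}
    (h0 : 0 ≤ d) (h1 : d ≤ 1) : IntervalIntegrable (liftI K P W) volume 0 d := by
  rw [intervalIntegrable_iff_integrableOn_Ioc_of_le h0]
  have h3 : IntegrableOn (fun s : ℝ => 2 * (C * C') * s ^ (-(θ + 1 / 8))) (Ioc 0 d) := by
    rw [← intervalIntegrable_iff_integrableOn_Ioc_of_le h0]
    exact (intervalIntegral.intervalIntegrable_rpow' (by linarith [h.th1])).const_mul _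
  refine Integrable.mono' h3 (((h.liftI_cont W).mono Ioc_subset_Ioi_self).aestronglyMeasurable
    measurableSet_Ioc) ?_
  filter_upwards [ae_restrict_mem measurableSet_Ioc] with s hs
  exact h.liftI_norm hW hs.1 (hs.2.trans h1)

/-- The lift of an element of `DD`. -/
noncomputable def lift (K : X →L[ℂ] X) (P : ℝ → X →L[ℂ] Y) (W : X) : Y :=
  P 1 W + ∫ s in (0:ℝ)..1, liftI K P W s

theorem Smo.iota_lift (h : Smo K ι P C θ) {C' : ℝ} {W : X} (hW : DDC K C' W) :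
    ι (lift K P W) = W := by
  rw [lift, map_add, h.eq 1 one_pos, ← ContinuousLinearMap.intervalIntegral_comp_comm ι
    (h.liftI_int hW zero_le_one le_rfl)]
  have h1 : ∫ s in (0:ℝ)..1, ι (liftI K P W s) = ∫ s in (0:ℝ)..1, AS K s W := by
    refine intervalIntegral.integral_congr_ae ?_
    filter_upwards with s hs
    rw [uIoc_of_le zero_le_one] at hs
    exact h.iota_liftI W hs.1
  rw [h1, ← hW.sub_eq h.hK h.hi zero_le_one le_rfl]
  abel

/-- `|lift W - P(ε) W| ≤ C'' ε^{7/8-θ}` -/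
theorem Smo.lift_sub (h : Smo K ι P C θ) {C' : ℝ} {W : X} (hW : DDC K C' W) {ε : ℝ}
    (hε : 0 < ε) (hε1 : ε ≤ 1) :
    ‖lift K P W - P ε W‖ ≤ 2 * (C * C') * (ε ^ (7 / 8 - θ) / (7 / 8 - θ)) := by
  have h1 : lift K P W - P ε W = ∫ s in (0:ℝ)..ε, liftI K P W s := by
    refine h.ext ?_
    rw [map_sub, h.iota_lift hW, h.eq ε hε, ← ContinuousLinearMap.intervalIntegral_comp_comm ι
      (h.liftI_int hW hε.le hε1), hW.sub_eq h.hK h.hi hε.le hε1]
    refine (intervalIntegral.integral_congr_ae ?_).symm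
    filter_upwards with s hs
    rw [uIoc_of_le hε.le] at hs
    exact h.iota_liftI W hs.1
  rw [h1]
  have hth := h.th1
  have hi3 : IntervalIntegrable (fun s : ℝ => 2 * (C * C') * s ^ (-(θ + 1 / 8))) volume 0 ε :=
    (intervalIntegral.intervalIntegrable_rpow' (by linarith)).const_mul _
  refine (intervalIntegral.norm_integral_le_of_norm_le hε.le (by
    filter_upwards with s hs
    exact h.liftI_norm hW hs.1 (hs.2.trans hε1)) hi3).trans (le_of_eq ?_)
  rw [intervalIntegral.integral_const_mul, integral_rpow (Or.inl (by linarith))]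
  have h3 : (-(θ + 1 / 8) + 1 : ℝ) = 7 / 8 - θ := by ring
  rw [h3, Real.zero_rpow (by linarith), sub_zero]

/-- Continuity of the lift of a continuous path with uniform `DD` constant. -/
theorem Smo.lift_cont (h : Smo K ι P C θ) {Z : Type} [TopologicalSpace Z] {s : Set Z} {W : Z → X}
    (hc : ContinuousOn W s) {C' : ℝ} (hW : ∀ t ∈ s, DDC K C' (W t)) :
    ContinuousOn (fun t => lift K P (W t)) s := by
  have hth := h.th1
  have h1 : TendstoUniformlyOn (fun ε t => P ε (W t)) (fun t => lift K P (W t)) (𝓝[>] (0:ℝ)) s := by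
    rw [Metric.tendstoUniformlyOn_iff]
    intro e he
    have h2 : Tendsto (fun ε : ℝ => 2 * (C * C') * (ε ^ (7 / 8 - θ) / (7 / 8 - θ))) (𝓝[>] 0)
        (𝓝 0) := by
      have h3 : Tendsto (fun ε : ℝ => ε ^ (7 / 8 - θ)) (𝓝[>] 0) (𝓝 0) := by
        have := (Real.continuousAt_rpow_const 0 (7 / 8 - θ) (Or.inr (by linarith))).tendsto
        rw [Real.zero_rpow (by linarith)] at this
        exact this.mono_left nhdsWithin_le_nhds
      have h4 := (h3.div_const (7 / 8 - θ)).const_mul (2 * (C * C'))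
      simpa using h4
    have h5 : ∀ᶠ ε : ℝ in 𝓝[>] 0, ε ≤ 1 := by
      filter_upwards [Ioc_mem_nhdsGT (zero_lt_one (α := ℝ))] with ε hε using hε.2
    filter_upwards [h2.eventually (gt_mem_nhds he), h5, self_mem_nhdsWithin] with ε hε1 hε2 hε3 t ht
    rw [dist_eq_norm]
    exact (h.lift_sub (hW t ht) hε3 hε2).trans_lt hε1
  refine h1.continuousOn (Frequently.of_forall fun ε => ?_)
  exact (P ε).continuous.comp_continuousOn hc

end Lift

end Pool.Agent.Lib.MP_79abb3_an.SC
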