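import Pool.Agent.Lib.MP_79abb3_an.SC.BgDef
import Pool.Agent.Lib.MP_79abb3_an.SC.ExF
import Pool.Agent.Lib.MP_79abb3_an.P25.FldDef
import Pool.Agent.Lib.MP_79abb3_an.SC.ChDef
import Pool.Agent.Lib.MP_79abb3_an.SC.LaDD

section

/-!
Theorem C, block (ii), EX1 part 1: the kernels of the background system.
-/

set_option autoImplicit false
set_option linter.unusedSectionVars false

open MeasureTheory Set Filter Topology Function
open scoped ENNReal InnerProductSpace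

namespace Pool.Agent.Lib.MP_79abb3_an.SC

open Pool.Agent.Lib.MP_79abb3_an.P25

/-! ### Products of kernels -/

section prod
variable {X X' Y Y' : Type} [NormedAddCommGroup X] [NormedSpace ℂ X] [CompleteSpace X]
  [NormedAddCommGroup Y] [NormedSpace ℂ Y] [NormedAddCommGroup X'] [NormedSpace ℂ X']
  [CompleteSpace X'] [NormedAddCommGroup Y'] [NormedSpace ℂ Y']

theorem Ker.prod {S : ℝ → (X →L[ℂ] X)} {L : ℝ → (Y →L[ℂ] X)} {S' : ℝ → (X' →L[ℂ] X')}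
    {L' : ℝ → (Y' →L[ℂ] X')} {C C' θ : ℝ} (h : Ker S L C θ) (h' : Ker S' L' C' θ) :
    Ker (fun t => (S t).prodMap (S' t)) (fun t => (L t).prodMap (L' t)) (max C C') θ where
  C0 := h.C0.trans (le_max_left _ _)
  th0 := h.th0
  th1 := h.th1
  s0 x := Prod.ext (h.s0 x.1) (h'.s0 x.2)
  sadd s t hs ht x := Prod.ext (h.sadd s t hs ht x.1) (h'.sadd s t hs ht x.2)
  scont x := (h.scont x.1).prodMk (h'.scont x.2)
  sb t ht x := by
    show max ‖S t x.1‖ ‖S' t x.2‖ ≤ max ‖x.1‖ ‖x.2‖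
    exact max_le_max (h.sb t ht x.1) (h'.sb t ht x.2)
  ls s t hs ht y := Prod.ext (h.ls s t hs ht y.1) (h'.ls s t hs ht y.2)
  lb t ht y := by
    have hk := kth_nonneg θ ht.le
    have h1 : ‖y.1‖ ≤ ‖y‖ := le_max_left _ _
    have h2 : ‖y.2‖ ≤ ‖y‖ := le_max_right _ _
    show max ‖L t y.1‖ ‖L' t y.2‖ ≤ max C C' * kth θ t * ‖y‖
    refine max_le ?_ ?_
    · refine (h.lb t ht y.1).trans ?_
      have := le_max_left C C'
      have := h.C0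
      gcongr
    · refine (h'.lb t ht y.2).trans ?_
      have := le_max_right C C'
      have := h'.C0
      gcongr

end prod

theorem kth_half_le {τ : ℝ} (hτ : 0 < τ) {θ : ℝ} (h : 1 / 2 ≤ θ) : kth (1 / 2) τ ≤ 2 * kth θ τ := by
  unfold kth
  have h1 : τ ^ (-(1 / 2 : ℝ)) ≤ 1 + τ ^ (-θ) := by
    rcases le_total τ 1 with h2 | h2
    · have := Real.rpow_le_rpow_of_exponent_ge hτ h2 (show -θ ≤ -(1 / 2 : ℝ) by linarith)
      linarith
    · have := Real.rpow_le_one_of_one_le_of_nonpos h2 (show -(1 / 2 : ℝ) ≤ 0 by norm_num)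
      have h3 := Real.rpow_nonneg hτ.le (-θ)
      linarith
  have h3 := Real.rpow_nonneg hτ.le (-θ)
  linarith

section abs
variable {E : Type} [NormedAddCommGroup E] [InnerProductSpace ℂ E] [CompleteSpace E]
  {K : E →L[ℂ] E}

/-- duality for `A S(τ) L*` -/
theorem AS_adjoint_bound {F : Type} [NormedAddCommGroup F] [InnerProductSpace ℂ F] [CompleteSpace F]
    {L : E →L[ℂ] F} {c τ : ℝ} (hc : 0 ≤ c) (h : ∀ φ, ‖L (AS K τ φ)‖ ≤ c * ‖φ‖) (y : F) :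
    ‖AS K τ (L.adjoint y)‖ ≤ c * ‖y‖ := by
  have h1 : ‖(L.comp (AS K τ)).adjoint‖ ≤ c := by
    rw [LinearIsometryEquiv.norm_map]
    exact ContinuousLinearMap.opNorm_le_bound _ hc h
  have h2 : (L.comp (AS K τ)).adjoint = (AS K τ).comp L.adjoint := by
    rw [ContinuousLinearMap.adjoint_comp]
    congr 1
    exact (fA_selfAdjoint _ _)
  rw [h2] at h1
  exact ContinuousLinearMap.le_of_opNorm_le _ h1 y

variable (D : OD E)

/-- `‖Q A S(τ)‖ ≤ c₀^{-1/2} τ⁻¹` -/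
theorem OD.QAS {τ : ℝ} (hτ : 0 < τ) (φ : E) :
    ‖D.Q (Kh D.K) (AS D.K τ φ)‖ ≤ (√D.c₀)⁻¹ * τ⁻¹ * ‖φ‖ := by
  refine (D.isKh.norm_Q_le _).trans ?_
  rw [mul_assoc]
  refine mul_le_mul_of_nonneg_left ?_ (by positivity)
  exact (AS D.K τ).le_of_opNorm_le (AS_norm D.K_nonneg hτ) φ

/-- `T Q = b⁻¹ K^{1/2}` -/
theorem OD.TQ (φ : E) : D.T (D.Q (Kh D.K) φ) = D.bi (Kh D.K φ) := by
  rw [← D.isKh.bTQ φ, D.bib]

/-- `‖T Q A S(τ)‖ ≤ ‖b⁻¹‖ τ^{-1/2}` -/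
theorem OD.TQAS {τ : ℝ} (hτ : 0 < τ) (φ : E) :
    ‖D.T (D.Q (Kh D.K) (AS D.K τ φ))‖ ≤ ‖D.bi‖ * (√τ)⁻¹ * ‖φ‖ := by
  rw [D.TQ]
  have h1 : Kh D.K (AS D.K τ φ) = HS D.K τ φ := by
    rw [← Kh_AS D.K_nonneg hτ]; rfl
  rw [h1, mul_assoc]
  refine (D.bi.le_opNorm _).trans ?_
  exact mul_le_mul_of_nonneg_left ((HS D.K τ).le_of_opNorm_le (HS_norm D.K_nonneg hτ) φ)
    (norm_nonneg _)

end abs

section
variable {H : ℝ} [hH : Fact (0 < H)]

theorem norm_smul_T2 {c : ℝ} (hc : 0 ≤ c) {k M : ℝ} (h : ∀ f : Z2 H, c * ‖T2 k f‖ ≤ M * ‖f‖)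
    (hM : 0 ≤ M) : ‖((c : ℝ) : ℂ) • (T2 k : Z2 H →L[ℂ] Z2 H)‖ ≤ M := by
  refine ContinuousLinearMap.opNorm_le_bound _ hM fun f => ?_
  rw [smul_apply, norm_smul, Complex.norm_real, Real.norm_of_nonneg hc]
  exact h f

/-- weights comparable to `1 + |n|` -/
structure LamOK (ω : ℝ) (lam : ℤ → ℝ) (C : ℝ) : Prop where
  one : ∀ n, 1 ≤ lam n
  le : ∀ n : ℤ, lam n ≤ C * (1 + |(n : ℝ)|)
  ω : 0 < ω
  C0 : 0 ≤ C

theorem LamOK.T2_le {ω C : ℝ} {lam : ℤ → ℝ} (h : LamOK ω lam C) (n : ℤ) (f : Z2 H) :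
    lam n * ‖T2 (ω * n) f‖ ≤ C * (H + ω⁻¹) * ‖f‖ := by
  have h1 := norm_kT2_le (ω * n) f
  have h2 : ‖T2 (ω * n) f‖ ≤ H * ‖f‖ := (T2 (ω * n)).le_of_opNorm_le (norm_T2_le _) f
  have h3 : |(n : ℝ)| = ω⁻¹ * |ω * n| := by
    rw [abs_mul, abs_of_pos h.ω, ← mul_assoc, inv_mul_cancel₀ h.ω.ne', one_mul]
  have hω := h.ω
  calc lam n * ‖T2 (ω * n) f‖ ≤ C * (1 + |(n : ℝ)|) * ‖T2 (ω * n) f‖ := by
        gcongr; exact h.le n
    _ = C * (‖T2 (ω * n) f‖ + ω⁻¹ * (|ω * n| * ‖T2 (ω * n) f‖)) := by rw [h3]; ring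
    _ ≤ C * (H * ‖f‖ + ω⁻¹ * ‖f‖) := by
        have := h.C0
        gcongr
    _ = C * (H + ω⁻¹) * ‖f‖ := by ring

theorem LamOK.rpow_T2_le {ω C : ℝ} {lam : ℤ → ℝ} (h : LamOK ω lam C) {s : ℝ} (hs : s ≤ 1)
    (n : ℤ) (f : Z2 H) : lam n ^ s * ‖T2 (ω * n) f‖ ≤ C * (H + ω⁻¹) * ‖f‖ := by
  refine le_trans ?_ (h.T2_le n f)
  refine mul_le_mul_of_nonneg_right ?_ (norm_nonneg _)
  have := Real.rpow_le_rpow_of_exponent_le (h.one n) hs
  rwa [Real.rpow_one] at this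

theorem LamOK.norm_LT {ω C : ℝ} {lam : ℤ → ℝ} (h : LamOK ω lam C) {s : ℝ} (hs : s ≤ 1) (n : ℤ) :
    ‖((lam n ^ s : ℝ) : ℂ) • (T2 (ω * n) : Z2 H →L[ℂ] Z2 H)‖ ≤ C * (H + ω⁻¹) := by
  have hω := h.ω
  have hH' := hH.out
  have := h.C0
  exact norm_smul_T2 (Real.rpow_nonneg (by linarith [h.one n]) _) (h.rpow_T2_le hs n) (by positivity)

theorem LamOK.LT_apply {ω C : ℝ} {lam : ℤ → ℝ} (h : LamOK ω lam C) {s : ℝ} (hs : s ≤ 1) (x : HH H)
    (n : ℤ) : LT ω lam s x n = ((lam n ^ s : ℝ) : ℂ) • T2 (ω * n) (x n) :=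
  dg_apply (fun n => h.norm_LT hs n) x n

theorem LamOK.norm_LT_le {ω C : ℝ} {lam : ℤ → ℝ} (h : LamOK ω lam C) {s : ℝ} (hs : s ≤ 1) :
    ‖(LT ω lam s : HH H →L[ℂ] HH H)‖ ≤ C * (H + ω⁻¹) := norm_dg_le fun n => h.norm_LT hs n

/-- pointwise domination by two sequences -/
theorem l2_norm_le_two {E F G : Type} [NormedAddCommGroup E] [NormedSpace ℂ E]
    [NormedAddCommGroup F] [NormedSpace ℂ F] [NormedAddCommGroup G] [NormedSpace ℂ G]
    {x : l2 E} {y : l2 F} {z : l2 G} {a b : ℝ} (ha : 0 ≤ a) (hb : 0 ≤ b)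
    (h : ∀ n, ‖x n‖ ≤ a * ‖y n‖ + b * ‖z n‖) : ‖x‖ ≤ 2 * (a * ‖y‖ + b * ‖z‖) := by
  refine l2_norm_le (by positivity) fun S => ?_
  calc ∑ n ∈ S, ‖x n‖ ^ 2 ≤ ∑ n ∈ S, (2 * a ^ 2 * ‖y n‖ ^ 2 + 2 * b ^ 2 * ‖z n‖ ^ 2) := by
        refine Finset.sum_le_sum fun n _ => ?_
        have h1 := pow_le_pow_left₀ (norm_nonneg _) (h n) 2
        nlinarith [sq_nonneg (a * ‖y n‖ - b * ‖z n‖)]
    _ = 2 * a ^ 2 * ∑ n ∈ S, ‖y n‖ ^ 2 + 2 * b ^ 2 * ∑ n ∈ S, ‖z n‖ ^ 2 := by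
        rw [Finset.sum_add_distrib, Finset.mul_sum, Finset.mul_sum]
    _ ≤ 2 * a ^ 2 * ‖y‖ ^ 2 + 2 * b ^ 2 * ‖z‖ ^ 2 := by
        gcongr
        · exact l2_sum_le y S
        · exact l2_sum_le z S
    _ ≤ (2 * (a * ‖y‖ + b * ‖z‖)) ^ 2 := by
        have h1 := norm_nonneg y
        have h2 := norm_nonneg z
        have h3 : 0 ≤ a * ‖y‖ := by positivity
        have h4 : 0 ≤ b * ‖z‖ := by positivity
        nlinarith [mul_nonneg h3 h4]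

/-- interpolation of the weight `Λ^{s}` between `1` and `Λ` -/
theorem rpow_interp {l μ s : ℝ} (hl : 1 ≤ l) (hμ : 0 < μ) (hs0 : 0 ≤ s) (hs1 : s ≤ 1) :
    l ^ s ≤ μ ^ s + μ ^ (s - 1) * l := by
  have l0 : 0 < l := by linarith
  rcases le_total l μ with h | h
  · have h1 := Real.rpow_le_rpow l0.le h hs0
    have h2 : 0 ≤ μ ^ (s - 1) * l := by positivity
    linarith
  · have h1 : l ^ (s - 1) ≤ μ ^ (s - 1) :=
      Real.rpow_le_rpow_of_nonpos hμ h (by linarith)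
    have h2 : l ^ s = l ^ (s - 1) * l := by
      rw [← Real.rpow_add_one l0.ne']; congr 1; ring
    have h3 : 0 ≤ μ ^ s := by positivity
    rw [h2]
    have := mul_le_mul_of_nonneg_right h1 l0.le
    linarith

theorem LamOK.LT_interp {ω C : ℝ} {lam : ℤ → ℝ} (h : LamOK ω lam C) {s μ : ℝ} (hs0 : 0 ≤ s)
    (hs1 : s ≤ 1) (hμ : 0 < μ) (g : HH H) :
    ‖LT ω lam s g‖ ≤ 2 * (μ ^ s * ‖TT ω g‖ + μ ^ (s - 1) * (C * (H + ω⁻¹)) * ‖g‖) := by
  have hω := h.ω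
  have hH' := hH.out
  have hC := h.C0
  refine l2_norm_le_two (by positivity) (by positivity) fun n => ?_
  rw [h.LT_apply hs1, TT_apply, norm_smul, Complex.norm_real,
    Real.norm_of_nonneg (Real.rpow_nonneg (by linarith [h.one n]) _)]
  have h1 := rpow_interp (h.one n) hμ hs0 hs1
  have h2 := h.T2_le n (g n)
  have h3 : 0 ≤ μ ^ (s - 1) := by positivity
  calc lam n ^ s * ‖T2 (ω * n) (g n)‖ ≤ (μ ^ s + μ ^ (s - 1) * lam n) * ‖T2 (ω * n) (g n)‖ := by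
        gcongr
    _ = μ ^ s * ‖T2 (ω * n) (g n)‖ + μ ^ (s - 1) * (lam n * ‖T2 (ω * n) (g n)‖) := by ring
    _ ≤ μ ^ s * ‖T2 (ω * n) (g n)‖ + μ ^ (s - 1) * (C * (H + ω⁻¹) * ‖g n‖) := by gcongr
    _ = _ := by ring

/-- `‖Λ^s T Q A S(τ)‖ ≤ C τ^{-(1+s)/2}` -/
theorem LamOK.LTQAS {ω C : ℝ} {lam : ℤ → ℝ} (h : LamOK ω lam C) (D : OD (HH H)) (hT : D.T = TT ω)
    {s : ℝ} (hs0 : 0 ≤ s) (hs1 : s ≤ 1) {τ : ℝ} (hτ : 0 < τ) (φ : HH H) :
    ‖LT ω lam s (D.Q (Kh D.K) (AS D.K τ φ))‖ ≤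
      2 * (‖D.bi‖ + C * (H + ω⁻¹) * (√D.c₀)⁻¹) * τ ^ (-((1 + s) / 2)) * ‖φ‖ := by
  have hω := h.ω
  have hH' := hH.out
  have hC := h.C0
  set μ : ℝ := τ ^ (-(1 / 2 : ℝ)) with hμdef
  have hμ : 0 < μ := by positivity
  refine (h.LT_interp hs0 hs1 hμ _).trans ?_
  have h1 := D.TQAS hτ φ
  rw [hT] at h1
  have h2 := D.QAS hτ φ
  have e1 : μ ^ s * (√τ)⁻¹ = τ ^ (-((1 + s) / 2)) := by
    rw [hμdef, ← Real.rpow_mul hτ.le, Real.sqrt_eq_rpow, ← Real.rpow_neg hτ.le, ← Real.rpow_add hτ]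
    congr 1; ring
  have e2 : μ ^ (s - 1) * τ⁻¹ = τ ^ (-((1 + s) / 2)) := by
    rw [hμdef, ← Real.rpow_mul hτ.le, ← Real.rpow_neg_one, ← Real.rpow_add hτ]
    congr 1; ring
  calc 2 * (μ ^ s * ‖TT ω (D.Q (Kh D.K) (AS D.K τ φ))‖ +
        μ ^ (s - 1) * (C * (H + ω⁻¹)) * ‖D.Q (Kh D.K) (AS D.K τ φ)‖)
      ≤ 2 * (μ ^ s * (‖D.bi‖ * (√τ)⁻¹ * ‖φ‖) +
        μ ^ (s - 1) * (C * (H + ω⁻¹)) * ((√D.c₀)⁻¹ * τ⁻¹ * ‖φ‖)) := by gcongr
    _ = 2 * (‖D.bi‖ * (μ ^ s * (√τ)⁻¹) + C * (H + ω⁻¹) * (√D.c₀)⁻¹ * (μ ^ (s - 1) * τ⁻¹)) * ‖φ‖ := by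
        ring
    _ = _ := by rw [e1, e2]; ring

/-- the sources of one equation -/
theorem ker_one {ω C : ℝ} {lam : ℤ → ℝ} (h : LamOK ω lam C) (D : OD (HH H)) (hT : D.T = TT ω) :
    ∃ C', Ker (Sg D.K) (fun τ => (AS D.K τ).comp
      (((LT ω lam (1 / 4) ∘L D.Q (Kh D.K)).adjoint).coprod ((TT ω ∘L D.Q (Kh D.K)).adjoint)))
      C' (5 / 8) := by
  have hω := h.ω
  have hH' := hH.out
  have hC := h.C0
  set c1 := 2 * (‖D.bi‖ + C * (H + ω⁻¹) * (√D.c₀)⁻¹) with hc1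
  have hc10 : 0 ≤ c1 := by positivity
  refine ⟨c1 + 2 * ‖D.bi‖, ker_AS D.K_nonneg D.K_injective (by positivity) (by norm_num)
    (by norm_num) fun τ hτ y => ?_⟩
  have hk := kth_pos (5 / 8) hτ
  have h1 : ‖AS D.K τ ((LT ω lam (1 / 4) ∘L D.Q (Kh D.K)).adjoint y.1)‖ ≤
      c1 * kth (5 / 8) τ * ‖y.1‖ := by
    refine AS_adjoint_bound (by positivity) (fun φ => ?_) y.1
    refine (h.LTQAS D hT (by norm_num) (by norm_num) hτ φ).trans ?_
    rw [show -((1 + (1 / 4 : ℝ)) / 2) = -(5 / 8) by norm_num]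
    have : τ ^ (-(5 / 8) : ℝ) ≤ kth (5 / 8) τ := by unfold kth; linarith
    gcongr
  have h2 : ‖AS D.K τ ((TT ω ∘L D.Q (Kh D.K)).adjoint y.2)‖ ≤
      2 * ‖D.bi‖ * kth (5 / 8) τ * ‖y.2‖ := by
    refine AS_adjoint_bound (by positivity) (fun φ => ?_) y.2
    have h3 := D.TQAS hτ φ
    rw [hT] at h3
    refine h3.trans ?_
    have h4 : (√τ)⁻¹ ≤ kth (1 / 2) τ := by
      unfold kth
      rw [Real.rpow_neg hτ.le, ← Real.sqrt_eq_rpow]; linarith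
    have h5 := kth_half_le hτ (show (1 / 2 : ℝ) ≤ 5 / 8 by norm_num)
    have h6 : (√τ)⁻¹ ≤ 2 * kth (5 / 8) τ := h4.trans h5
    calc ‖D.bi‖ * (√τ)⁻¹ * ‖φ‖ ≤ ‖D.bi‖ * (2 * kth (5 / 8) τ) * ‖φ‖ := by gcongr
      _ = _ := by ring
  rw [ContinuousLinearMap.coprod_apply, map_add]
  have h3 : ‖y.1‖ ≤ ‖y‖ := le_max_left _ _
  have h4 : ‖y.2‖ ≤ ‖y‖ := le_max_right _ _
  calc ‖_ + _‖ ≤ _ := norm_add_le _ _
    _ ≤ c1 * kth (5 / 8) τ * ‖y‖ + 2 * ‖D.bi‖ * kth (5 / 8) τ * ‖y‖ := by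
        refine add_le_add (h1.trans ?_) (h2.trans ?_) <;> gcongr
    _ = _ := by ring

theorem Geo.lamOK (G : Geo H) : LamOK G.ω G.lam (G.N₀ + G.ω) where
  one := G.lw.h1
  le n := by
    have h1 := abs_nonneg (n : ℝ)
    have h2 := G.hN
    have h3 := G.ω_pos
    unfold Geo.lam
    rw [abs_mul, abs_of_pos h3]
    nlinarith
  ω := G.ω_pos
  C0 := by
    have h2 := G.hN
    have h3 := G.ω_pos
    linarith

/-- **EX1, kernels.** -/
theorem Geo.ker (G : Geo H) : ∃ C, Ker G.SS G.LL C (5 / 8) := by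
  obtain ⟨C1, h1⟩ := ker_one G.lamOK G.Do rfl
  obtain ⟨C2, h2⟩ := ker_one G.lamOK G.D rfl
  exact ⟨_, h1.prod h2⟩

end

end Pool.Agent.Lib.MP_79abb3_an.SC
end

section

/-!
Theorem C, block (ii), EX1 part 2: the nonlinearity of the background system.
-/

set_option autoImplicit false
set_option linter.unusedSectionVars false

open MeasureTheory Set Filter Topology Function
open scoped ENNReal InnerProductSpace

namespace Pool.Agent.Lib.MP_79abb3_an.SC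

open Pool.Agent.Lib.MP_79abb3_an.P25

section abs
variable {X Z Z' W : Type} [NormedAddCommGroup X] [NormedSpace ℂ X] [NormedAddCommGroup Z]
  [NormedSpace ℂ Z] [NormedAddCommGroup Z'] [NormedSpace ℂ Z'] [NormedAddCommGroup W]
  [NormedSpace ℂ W] {a b : ℝ}

/-- time dependent affine maps -/
structure AffE (A : ℝ → X → Z) (a b : ℝ) : Prop where
  ex : ∃ M, 0 ≤ M ∧ (∀ t ∈ Icc a b, ∀ x y, ‖A t x - A t y‖ ≤ M * ‖x - y‖) ∧
    ∀ t ∈ Icc a b, ‖A t 0‖ ≤ M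
  cont : ∀ x, ContinuousOn (fun t => A t x) (Icc a b)

/-- quadratic maps -/
def NlE (Φ : ℝ → X → Z) (a b : ℝ) : Prop := ∃ M, Nl Φ M a b

theorem AffE.const {f : ℝ → Z} (hf : ContinuousOn f (Icc a b)) :
    AffE (fun t (_ : X) => f t) a b := by
  obtain ⟨R, hR⟩ := isCompact_Icc.exists_bound_of_continuousOn hf
  refine ⟨⟨|R|, abs_nonneg _, fun t _ x y => ?_, fun t ht => (hR t ht).trans (le_abs_self _)⟩,
    fun _ => hf⟩
  rw [sub_self, norm_zero]; positivity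

theorem AffE.lin (L : X →L[ℂ] Z) : AffE (fun _ x => L x) a b where
  ex := ⟨‖L‖, norm_nonneg _, fun t _ x y => by rw [← map_sub]; exact L.le_opNorm _,
    fun t _ => by rw [map_zero, norm_zero]; exact norm_nonneg _⟩
  cont _ := continuousOn_const

theorem AffE.add {A A' : ℝ → X → Z} (h : AffE A a b) (h' : AffE A' a b) :
    AffE (fun t x => A t x + A' t x) a b := by
  obtain ⟨M, hM, h1, h2⟩ := h.ex
  obtain ⟨M', hM', h1', h2'⟩ := h'.ex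
  refine ⟨⟨M + M', by positivity, fun t ht x y => ?_, fun t ht => ?_⟩,
    fun x => (h.cont x).add (h'.cont x)⟩
  · have e : A t x + A' t x - (A t y + A' t y) = (A t x - A t y) + (A' t x - A' t y) := by abel
    rw [e, add_mul]
    exact (norm_add_le _ _).trans (add_le_add (h1 t ht x y) (h1' t ht x y))
  · exact (norm_add_le _ _).trans (add_le_add (h2 t ht) (h2' t ht))

theorem AffE.clm {A : ℝ → X → Z} (h : AffE A a b) (L : Z →L[ℂ] Z') :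
    AffE (fun t x => L (A t x)) a b := by
  obtain ⟨M, hM, h1, h2⟩ := h.ex
  refine ⟨⟨‖L‖ * M, by positivity, fun t ht x y => ?_, fun t ht => ?_⟩,
    fun x => L.continuous.comp_continuousOn (h.cont x)⟩
  · rw [← map_sub, mul_assoc]
    exact (L.le_opNorm _).trans (mul_le_mul_of_nonneg_left (h1 t ht x y) (norm_nonneg _))
  · exact (L.le_opNorm _).trans (mul_le_mul_of_nonneg_left (h2 t ht) (norm_nonneg _))

theorem AffE.neg {A : ℝ → X → Z} (h : AffE A a b) : AffE (fun t x => -A t x) a b :=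
  h.clm (-(ContinuousLinearMap.id ℂ Z))

theorem AffE.sub {A A' : ℝ → X → Z} (h : AffE A a b) (h' : AffE A' a b) :
    AffE (fun t x => A t x - A' t x) a b := by
  have := h.add h'.neg
  simpa only [sub_eq_add_neg] using this

theorem AffE.bil {A : ℝ → X → Z} (h : AffE A a b) {f : ℝ → W} (hf : ContinuousOn f (Icc a b))
    (B : W →L[ℂ] Z →L[ℂ] Z') : AffE (fun t x => B (f t) (A t x)) a b := by
  obtain ⟨M, hM, h1, h2⟩ := h.ex
  obtain ⟨R, hR⟩ := isCompact_Icc.exists_bound_of_continuousOn hf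
  have hR' : ∀ t ∈ Icc a b, ‖f t‖ ≤ |R| := fun t ht => (hR t ht).trans (le_abs_self _)
  refine ⟨⟨‖B‖ * |R| * M, by positivity, fun t ht x y => ?_, fun t ht => ?_⟩, fun x => ?_⟩
  · rw [← map_sub, mul_assoc]
    refine (B.le_opNorm₂ _ _).trans ?_
    have := hR' t ht
    have := h1 t ht x y
    calc ‖B‖ * ‖f t‖ * ‖A t x - A t y‖ ≤ ‖B‖ * |R| * (M * ‖x - y‖) := by gcongr
      _ = _ := by ring
  · refine (B.le_opNorm₂ _ _).trans ?_
    have := hR' t ht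
    have := h2 t ht
    gcongr
  · exact ContinuousOn.clm_apply (B.continuous.comp_continuousOn hf) (h.cont x)

/-- linear growth -/
theorem AffE.bound {A : ℝ → X → Z} {M : ℝ} (h1 : ∀ t ∈ Icc a b, ∀ x y, ‖A t x - A t y‖ ≤ M * ‖x - y‖)
    (h2 : ∀ t ∈ Icc a b, ‖A t 0‖ ≤ M) {t : ℝ} (ht : t ∈ Icc a b) (x : X) :
    ‖A t x‖ ≤ M * (1 + ‖x‖) := by
  have h3 := h1 t ht x 0
  have h4 := h2 t ht
  rw [sub_zero] at h3
  have h5 : ‖A t x‖ ≤ ‖A t x - A t 0‖ + ‖A t 0‖ := by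
    have := norm_add_le (A t x - A t 0) (A t 0)
    simpa using this
  linarith

theorem AffE.fst {X' : Type} [NormedAddCommGroup X'] [NormedSpace ℂ X'] (L : X →L[ℂ] Z) :
    AffE (fun _ (x : X × X') => L x.1) a b :=
  AffE.lin (L ∘L ContinuousLinearMap.fst ℂ X X')

theorem AffE.snd {X' : Type} [NormedAddCommGroup X'] [NormedSpace ℂ X'] (L : X' →L[ℂ] Z) :
    AffE (fun _ (x : X × X') => L x.2) a b :=
  AffE.lin (L ∘L ContinuousLinearMap.snd ℂ X X')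

theorem AffE.congr {A A' : ℝ → X → Z} (h : AffE A a b) (e : ∀ t x, A' t x = A t x) : AffE A' a b := by
  have : A' = A := by funext t x; exact e t x
  rwa [this]

theorem NlE.congr {A A' : ℝ → X → Z} (h : NlE A a b) (e : ∀ t x, A' t x = A t x) : NlE A' a b := by
  have : A' = A := by funext t x; exact e t x
  rwa [this]

theorem NlE.of_aff {A : ℝ → X → Z} (h : AffE A a b) : NlE A a b := by
  obtain ⟨M, hM, h1, h2⟩ := h.ex
  refine ⟨M, hM, h.cont, fun t ht x y => (h1 t ht x y).trans ?_, h2⟩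
  have := norm_nonneg x
  have := norm_nonneg y
  have := norm_nonneg (x - y)
  have : M ≤ M * (1 + ‖x‖ + ‖y‖) := le_mul_of_one_le_right hM (by linarith)
  gcongr

theorem NlE.bil {A : ℝ → X → Z} {A' : ℝ → X → W} (h : AffE A a b) (h' : AffE A' a b)
    (B : Z →L[ℂ] W →L[ℂ] Z') : NlE (fun t x => B (A t x) (A' t x)) a b := by
  obtain ⟨M, hM, h1, h2⟩ := h.ex
  obtain ⟨M', hM', h1', h2'⟩ := h'.ex
  refine ⟨2 * ‖B‖ * M * M', by positivity, fun x => ?_, fun t ht x y => ?_, fun t ht => ?_⟩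
  · exact ContinuousOn.clm_apply (B.continuous.comp_continuousOn (h.cont x)) (h'.cont x)
  · have e : B (A t x) (A' t x) - B (A t y) (A' t y) =
        B (A t x - A t y) (A' t x) + B (A t y) (A' t x - A' t y) := by
      simp only [map_sub, sub_apply]; abel
    rw [e]
    refine (norm_add_le _ _).trans ?_
    have b1 := AffE.bound h1' h2' ht x
    have b2 := AffE.bound h1 h2 ht y
    have c1 := h1 t ht x y
    have c2 := h1' t ht x y
    calc ‖B (A t x - A t y) (A' t x)‖ + ‖B (A t y) (A' t x - A' t y)‖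
        ≤ ‖B‖ * ‖A t x - A t y‖ * ‖A' t x‖ + ‖B‖ * ‖A t y‖ * ‖A' t x - A' t y‖ :=
          add_le_add (B.le_opNorm₂ _ _) (B.le_opNorm₂ _ _)
      _ ≤ ‖B‖ * (M * ‖x - y‖) * (M' * (1 + ‖x‖)) + ‖B‖ * (M * (1 + ‖y‖)) * (M' * ‖x - y‖) := by
          gcongr
      _ = ‖B‖ * M * M' * (2 + ‖x‖ + ‖y‖) * ‖x - y‖ := by ring
      _ ≤ 2 * ‖B‖ * M * M' * (1 + ‖x‖ + ‖y‖) * ‖x - y‖ := by
          have h0 : 0 ≤ ‖B‖ * M * M' := by positivity
          have h3 := norm_nonneg x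
          have h4 := norm_nonneg y
          refine mul_le_mul_of_nonneg_right ?_ (norm_nonneg _)
          nlinarith
  · refine (B.le_opNorm₂ _ _).trans ?_
    have := h2 t ht
    have := h2' t ht
    calc ‖B‖ * ‖A t 0‖ * ‖A' t 0‖ ≤ ‖B‖ * M * M' := by gcongr
      _ ≤ 2 * ‖B‖ * M * M' := by
          have h0 : 0 ≤ ‖B‖ * M * M' := by positivity
          linarith

theorem NlE.add {A A' : ℝ → X → Z} (h : NlE A a b) (h' : NlE A' a b) :
    NlE (fun t x => A t x + A' t x) a b := by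
  obtain ⟨M, h⟩ := h
  obtain ⟨M', h'⟩ := h'
  have hM := h.M0
  have hM' := h'.M0
  refine ⟨M + M', by positivity, fun x => (h.cont x).add (h'.cont x), fun t ht x y => ?_,
    fun t ht => ?_⟩
  · have e : A t x + A' t x - (A t y + A' t y) = (A t x - A t y) + (A' t x - A' t y) := by abel
    rw [e, add_mul, add_mul]
    exact (norm_add_le _ _).trans (add_le_add (h.lip t ht x y) (h'.lip t ht x y))
  · exact (norm_add_le _ _).trans (add_le_add (h.bd t ht) (h'.bd t ht))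

theorem NlE.clm {A : ℝ → X → Z} (h : NlE A a b) (L : Z →L[ℂ] Z') :
    NlE (fun t x => L (A t x)) a b := by
  obtain ⟨M, h⟩ := h
  have hM := h.M0
  refine ⟨‖L‖ * M, by positivity, fun x => L.continuous.comp_continuousOn (h.cont x),
    fun t ht x y => ?_, fun t ht => ?_⟩
  · rw [← map_sub, mul_assoc, mul_assoc]
    refine (L.le_opNorm _).trans (mul_le_mul_of_nonneg_left ?_ (norm_nonneg _))
    rw [← mul_assoc]
    exact h.lip t ht x y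
  · exact (L.le_opNorm _).trans (mul_le_mul_of_nonneg_left (h.bd t ht) (norm_nonneg _))

theorem NlE.neg {A : ℝ → X → Z} (h : NlE A a b) : NlE (fun t x => -A t x) a b :=
  h.clm (-(ContinuousLinearMap.id ℂ Z))

theorem NlE.sub {A A' : ℝ → X → Z} (h : NlE A a b) (h' : NlE A' a b) :
    NlE (fun t x => A t x - A' t x) a b := by
  have := h.add h'.neg
  simpa only [sub_eq_add_neg] using this

theorem NlE.prodMk {A : ℝ → X → Z} {A' : ℝ → X → Z'} (h : NlE A a b) (h' : NlE A' a b) :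
    NlE (fun t x => (A t x, A' t x)) a b := by
  obtain ⟨M, h⟩ := h
  obtain ⟨M', h'⟩ := h'
  have hM := h.M0
  have hM' := h'.M0
  refine ⟨max M M', hM.trans (le_max_left _ _), fun x => (h.cont x).prodMk (h'.cont x),
    fun t ht x y => ?_, fun t ht => ?_⟩
  · show max ‖A t x - A t y‖ ‖A' t x - A' t y‖ ≤ _
    have h1 := h.lip t ht x y
    have h2 := h'.lip t ht x y
    refine max_le (h1.trans ?_) (h2.trans ?_)
    · have := le_max_left M M'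
      gcongr
    · have := le_max_right M M'
      gcongr
  · show max ‖A t 0‖ ‖A' t 0‖ ≤ _
    exact max_le_max (h.bd t ht) (h'.bd t ht)

end abs

section
variable {H : ℝ} [hH : Fact (0 < H)]

theorem Ms_apply (b : CI H) (x : HH H) (n : ℤ) : Ms b x n = mz b (x n) :=
  dg_apply (C := ‖b‖) (fun _ => norm_mz_le b) x n

theorem norm_Ms_le (b : CI H) : ‖Ms b‖ ≤ ‖b‖ := norm_dg_le fun _ => norm_mz_le b

variable (H) in
/-- multiplication by functions of `z` as a bilinear map -/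
noncomputable def MsB : CI H →L[ℂ] HH H →L[ℂ] HH H :=
  LinearMap.mkContinuous₂ (LinearMap.mk₂ ℂ (fun b x => Ms b x)
    (fun b b' x => by
      ext n
      rw [lp.coeFn_add, Pi.add_apply, Ms_apply, Ms_apply, Ms_apply, map_add]; rfl)
    (fun c b x => by
      ext n
      rw [lp.coeFn_smul, Pi.smul_apply, Ms_apply, Ms_apply, map_smul]; rfl)
    (fun b x x' => map_add _ _ _)
    (fun c b x => map_smul _ _ _)) 1 (fun b x => by
      rw [one_mul]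
      exact (Ms b).le_of_opNorm_le (norm_Ms_le b) x)

theorem MsB_apply (b : CI H) (x : HH H) : MsB H b x = Ms b x := rfl

namespace Geo
variable {G : Geo H} {B : Bg H} {t₀ t₁ : ℝ}

theorem q_aff : AffE (fun _ (x : HH H × HH H) => G.qL x.1) t₀ t₁ := AffE.fst (X' := HH H) G.qL

theorem gt_aff (hB : B.Cont t₀ t₁) : AffE (fun t (x : HH H × HH H) => G.Qd x.2 + B.gL t) t₀ t₁ :=
  AffE.add (AffE.snd (X := HH H) G.Qd) (AffE.const hB.gL)

theorem gV_aff (hB : B.Cont t₀ t₁) : AffE (G.gV B) t₀ t₁ :=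
  AffE.congr (AffE.sub (gt_aff hB) (AffE.clm (AffE.clm (q_aff (G := G)) (cm G.J)) (Ms G.ζ)))
    fun _ _ => rfl

theorem VV_aff (hB : B.Cont t₀ t₁) : AffE (G.VV B) t₀ t₁ :=
  AffE.congr (AffE.clm (gV_aff hB) (TT G.ω)) fun _ _ => rfl

theorem uv_aff (hB : B.Cont t₀ t₁) : AffE (G.uv B) t₀ t₁ :=
  AffE.congr (AffE.add (AffE.clm (gt_aff (G := G) hB) (UV G.ω G.lam)) (AffE.const hB.ve))
    fun _ _ => rfl

theorem uw_aff (hB : B.Cont t₀ t₁) : AffE (G.uw B) t₀ t₁ :=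
  AffE.congr (AffE.add (AffE.clm (gt_aff (G := G) hB) (UW G.ω G.lam)) (AffE.const hB.we))
    fun _ _ => rfl

theorem om_aff (hB : B.Cont t₀ t₁) : AffE (G.om B) t₀ t₁ :=
  AffE.congr (AffE.add (AffE.clm (q_aff (G := G)) (Ms G.ζ))
    (AffE.clm (AffE.clm (gV_aff hB) (cm G.a)) (Ms G.ζ))) fun _ _ => rfl

theorem Bq_aff : AffE (fun _ (x : HH H × HH H) => G.Qo x.1) t₀ t₁ := AffE.fst (X' := HH H) G.Qo

theorem f1_nl (hB : B.Cont t₀ t₁) : NlE (G.f1 B) t₀ t₁ := by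
  have h1 := NlE.bil (AffE.clm (Bq_aff (G := G) (t₀ := t₀) (t₁ := t₁)) (Xy G.ω)) (uv_aff (G := G) hB) (prd G.pw)
  have h2 := NlE.bil (AffE.clm (Bq_aff (G := G) (t₀ := t₀) (t₁ := t₁)) (Xz G.ω)) (uw_aff (G := G) hB) (prd G.pw)
  exact NlE.congr (NlE.neg (NlE.add h1 h2)) fun _ _ => rfl

theorem f2_nl (hB : B.Cont t₀ t₁) : NlE (G.f2 B) t₀ t₁ := by
  have h1 := AffE.bil (gV_aff (G := G) hB) hB.κ (MsB H)
  have h2 := AffE.bil (VV_aff (G := G) hB) hB.κ1 (MsB H)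
  exact NlE.congr (NlE.of_aff (AffE.sub h1 h2)) fun _ _ => rfl

theorem f3_nl (hB : B.Cont t₀ t₁) : NlE (G.f3 B) t₀ t₁ := by
  have h1 := NlE.clm (NlE.bil (om_aff (G := G) hB) (uw_aff (G := G) hB) (prd G.pw)) (Xz G.ω)
  have h2 := NlE.clm (NlE.bil (om_aff (G := G) hB) (uv_aff (G := G) hB) (prd G.pw)) (Xy G.ω)
  exact NlE.congr (NlE.neg (NlE.add h1 h2)) fun _ _ => rfl

theorem kV_aff (hB : B.Cont t₀ t₁) : AffE (fun t x => Ms (B.κ t) (G.VV B t x)) t₀ t₁ :=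
  AffE.congr (AffE.bil (VV_aff (G := G) hB) hB.κ (MsB H)) fun _ _ => rfl

theorem jj_nl (hB : B.Cont t₀ t₁) : NlE (G.jj B) t₀ t₁ := by
  have h1 := AffE.clm (AffE.clm (AffE.clm (q_aff (G := G) (t₀ := t₀) (t₁ := t₁)) (Ms G.ζ1)) (Xz G.ω))
    (-(2:ℂ) • ContinuousLinearMap.id ℂ (HH H))
  have h2 := AffE.clm (AffE.add (AffE.clm (q_aff (G := G) (t₀ := t₀) (t₁ := t₁)) (Ms G.ζ2))
    (AffE.clm (kV_aff (G := G) hB) (Ms G.ζ1))) (TT G.ω)
  have h3 := NlE.clm (NlE.clm (NlE.bil (q_aff (G := G) (t₀ := t₀) (t₁ := t₁)) (uw_aff (G := G) hB) (prd G.pw))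
    (Ms G.ζ1)) (LT G.ω G.lam (1 / 4))
  exact NlE.congr (NlE.add (NlE.add (NlE.of_aff h1) (NlE.of_aff h2)) h3) fun _ _ => rfl

theorem f4_nl (hB : B.Cont t₀ t₁) : NlE (G.f4 B) t₀ t₁ := by
  have h1 := NlE.of_aff (AffE.sub (AffE.clm (kV_aff (G := G) hB) (Ms G.ζ)) (kV_aff (G := G) hB))
  have h2 : NlE (fun t (_ : HH H × HH H) => B.FL t + B.fc t) t₀ t₁ := NlE.of_aff (AffE.add (AffE.const hB.FL) (AffE.const hB.fc))
  exact NlE.congr (NlE.add (NlE.add (jj_nl hB) h1) h2) fun _ _ => rfl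

/-- **EX1, nonlinearity.** -/
theorem Phi_nl (hB : B.Cont t₀ t₁) : NlE (G.Phi B) t₀ t₁ :=
  NlE.congr (NlE.prodMk (NlE.prodMk (f1_nl hB) (f2_nl hB)) (NlE.prodMk (f3_nl hB) (f4_nl hB)))
    fun _ _ => rfl

/-- **EX1, uniqueness.** -/
theorem Sol.unique (hB : B.Cont t₀ t₁) {x₀ : HH H × HH H}
    {x y : ℝ → HH H × HH H} (hx : G.Sol B t₀ t₁ x₀ x) (hy : G.Sol B t₀ t₁ x₀ y) :
    ∀ t ∈ Icc t₀ t₁, x t = y t := by
  obtain ⟨C, hC⟩ := G.ker
  obtain ⟨M, hM⟩ := Phi_nl (G := G) hB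
  exact Mild.unique hC hM hx hy

/-- **EX1/EX2, existence from an a priori bound.** -/
theorem Sol.exists (h01 : t₀ ≤ t₁) (hB : B.Cont t₀ t₁) {x₀ : HH H × HH H}
    {R : ℝ} (hap : ∀ c ∈ Icc t₀ t₁, ∀ x, G.Sol B t₀ c x₀ x → ‖x c‖ ≤ R) :
    ∃ x, G.Sol B t₀ t₁ x₀ x := by
  obtain ⟨C, hC⟩ := G.ker
  obtain ⟨M, hM⟩ := Phi_nl (G := G) hB
  exact hC.global h01 hM x₀ hap

end Geo

end

end Pool.Agent.Lib.MP_79abb3_an.SC
end

section

/-!
Theorem C, block (ii): operators on `HH H` and trilinear forms of families.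
-/

set_option autoImplicit false
set_option linter.unusedSectionVars false

open MeasureTheory Set Filter Topology Function
open scoped ENNReal InnerProductSpace

namespace Pool.Agent.Lib.MP_79abb3_an.SC

open Pool.Agent.Lib.MP_79abb3_an.P25

section
variable {H : ℝ} [hH : Fact (0 < H)]

/-! ### Operators on `HH H` -/

theorem norm_DT_fam (ω : ℝ) (n : ℤ) : ‖((|ω * n| : ℝ) : ℂ) • (T2 (ω * n) : Z2 H →L[ℂ] Z2 H)‖ ≤ 1 :=
  norm_smul_T2 (abs_nonneg _) (fun f => by rw [one_mul]; exact norm_kT2_le _ f) zero_le_one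

theorem DTc_apply (ω : ℝ) (x : HH H) (n : ℤ) : DTc ω x n = ka ω n • T2 (ω * n) (x n) :=
  dg_apply (norm_DT_fam ω) x n

theorem Xz_apply (ω : ℝ) (x : HH H) (n : ℤ) : Xz ω x n = ka ω n • T2 (ω * n) (x n) - x n := by
  show (DTc ω x - x) n = _
  rw [lp.coeFn_sub, Pi.sub_apply, DTc_apply]

theorem norm_Xy_fam (ω : ℝ) (n : ℤ) :
    ‖(Complex.I * ((ω * n : ℝ) : ℂ)) • (T2 (ω * n) : Z2 H →L[ℂ] Z2 H)‖ ≤ 1 := by
  refine ContinuousLinearMap.opNorm_le_bound _ zero_le_one fun f => ?_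
  rw [smul_apply, norm_smul, norm_mul, Complex.norm_I, one_mul, Complex.norm_real,
    Real.norm_eq_abs, one_mul]
  exact norm_kT2_le _ f

theorem Xy_apply (ω : ℝ) (x : HH H) (n : ℤ) : Xy ω x n = kI ω n • T2 (ω * n) (x n) :=
  dg_apply (norm_Xy_fam ω) x n

theorem norm_DE_fam (ω : ℝ) (n : ℤ) :
    ‖((|ω * n| : ℝ) : ℂ) • (E2 (ω * n) : Z2 H →L[ℂ] Z2 H)‖ ≤ 1 := by
  refine ContinuousLinearMap.opNorm_le_bound _ zero_le_one fun f => ?_
  rw [smul_apply, norm_smul, Complex.norm_real, Real.norm_of_nonneg (abs_nonneg _), one_mul]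
  exact norm_kE2_le _ f

theorem DEc_apply (ω : ℝ) (x : HH H) (n : ℤ) : DEc ω x n = ka ω n • E2 (ω * n) (x n) :=
  dg_apply (norm_DE_fam ω) x n

theorem norm_kIE_fam (ω : ℝ) (n : ℤ) :
    ‖(Complex.I * ((ω * n : ℝ) : ℂ)) • (E2 (ω * n) : Z2 H →L[ℂ] Z2 H)‖ ≤ 1 := by
  refine ContinuousLinearMap.opNorm_le_bound _ zero_le_one fun f => ?_
  rw [smul_apply, norm_smul, norm_mul, Complex.norm_I, one_mul, Complex.norm_real,
    Real.norm_eq_abs, one_mul]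
  exact norm_kE2_le _ f

/-- `∂_y E` -/
noncomputable def Yy (ω : ℝ) : HH H →L[ℂ] HH H :=
  dg (fun n : ℤ => (Complex.I * ((ω * n : ℝ) : ℂ)) • E2 (ω * n))

/-- `∂_z E = 1 - |D| E` -/
noncomputable def Yz (ω : ℝ) : HH H →L[ℂ] HH H := 1 - DEc ω

theorem Yy_apply (ω : ℝ) (x : HH H) (n : ℤ) : Yy ω x n = tY ω x n := dg_apply (norm_kIE_fam ω) x n

theorem Yz_apply (ω : ℝ) (x : HH H) (n : ℤ) : Yz ω x n = tZ ω x n := by
  show (x - DEc ω x) n = _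
  rw [lp.coeFn_sub, Pi.sub_apply, DEc_apply]; rfl

theorem inner_Ms (m : CI H) (x y : HH H) : ⟪Ms m x, y⟫_ℂ = ⟪x, Ms (star m) y⟫_ℂ :=
  inner_dg (fun _ => norm_mz_le m) (fun _ => norm_mz_le (star m)) (fun _ f g => inner_mz m f g) x y

theorem Ms_cm (m : CI H) {a : ℤ → CI H} (ha : Summable fun n => ‖a n‖) (x : HH H) :
    Ms m (cm a x) = cm a (Ms m x) := by
  ext1
  funext n
  rw [Ms_apply]
  have h1 := (cm_hasSum ha x n).mapL (mz m)
  have h2 := cm_hasSum ha (Ms m x) n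
  have e : (fun j => mz m (mz (a (n - j)) (x j))) = fun j => mz (a (n - j)) (Ms m x j) := by
    funext j
    rw [Ms_apply, mz_comm]
  rw [e] at h1
  exact h1.unique h2

/-- `B (ζ E f)` -/
noncomputable def Bz (ω : ℝ) (m m1 : CI H) : HH H →L[ℂ] HH H :=
  -(Ms m1 ∘L EE ω) - Ms m + (2:ℂ) • (Ms m ∘L DEc ω)

/-- `B (m T g)` -/
noncomputable def Bm (ω : ℝ) (m m1 : CI H) : HH H →L[ℂ] HH H := Ms m - Ms m1 ∘L TT ω

theorem Bz_apply (ω : ℝ) (m m1 : CI H) (f : HH H) (n : ℤ) : Bz ω m m1 f n =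
    -(mz m1 (E2 (ω * n) (f n))) - mz m (f n) +
      (2:ℂ) • mz m (((|ω * n| : ℝ) : ℂ) • E2 (ω * n) (f n)) := by
  show (-(Ms m1 (EE ω f)) - Ms m f + (2:ℂ) • (Ms m (DEc ω f))) n = _
  rw [lp.coeFn_add, Pi.add_apply, lp.coeFn_sub, Pi.sub_apply, lp.coeFn_neg, Pi.neg_apply,
    lp.coeFn_smul, Pi.smul_apply, Ms_apply, Ms_apply, Ms_apply, EE_apply, DEc_apply]
  rfl

theorem Bm_apply (ω : ℝ) (m m1 : CI H) (g : HH H) (n : ℤ) : Bm ω m m1 g n =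
    mz m (g n) - mz m1 (T2 (ω * n) (g n)) := by
  show (Ms m g - Ms m1 (TT ω g)) n = _
  rw [lp.coeFn_sub, Pi.sub_apply, Ms_apply, Ms_apply, TT_apply]

theorem TT_Bz (ω : ℝ) {m m1 : CI H} (hm : IsD m m1) (mH : ex m H = 0) (f : HH H) :
    TT ω (Bz ω m m1 f) = Ms m (EE ω f) := by
  ext1
  funext n
  rw [TT_apply, Bz_apply, T2_zeta _ hm mH, Ms_apply, EE_apply]

theorem PP_Bz (ω : ℝ) {m m1 : CI H} (hm : IsD m m1) (mH : ex m H = 0) (f : HH H) :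
    PP ω (Bz ω m m1 f) = Bz ω m m1 f := by
  ext1
  funext n
  rw [PP_apply, Bz_apply, P2_zeta _ hm mH]

theorem TT_Bm (ω : ℝ) {m m1 : CI H} (hm : IsD m m1) (g : HH H) :
    TT ω (Bm ω m m1 g) = Ms m (TT ω g) := by
  ext1
  funext n
  rw [TT_apply, Bm_apply, T2_mul _ hm, Ms_apply, TT_apply]

theorem PP_Bm (ω : ℝ) {m m1 : CI H} (hm : IsD m m1) {g : HH H} (h0 : ex m 0 = 0 ∨ PP ω g = g) :
    PP ω (Bm ω m m1 g) = Bm ω m m1 g := by
  ext1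
  funext n
  rw [PP_apply, Bm_apply, P2_mul _ hm]
  rcases h0 with h | h
  · exact Or.inl h
  · right
    have : PP ω g n = g n := by rw [h]
    rwa [PP_apply] at this

/-- `∂_y (ζ E f) = ζ θ_y` -/
theorem Xy_Bz (ω : ℝ) {m m1 : CI H} (hm : IsD m m1) (mH : ex m H = 0) (f : HH H) :
    Xy ω (Bz ω m m1 f) = Ms m (Yy ω f) := by
  ext1
  funext n
  rw [Xy_apply, ← TT_apply, TT_Bz ω hm mH, Ms_apply, Ms_apply, Yy_apply, EE_apply, tY, map_smul]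

/-- `∂_z (ζ E f) = ζ' θ + ζ θ_z` -/
theorem Xz_Bz (ω : ℝ) {m m1 : CI H} (hm : IsD m m1) (mH : ex m H = 0) (f : HH H) :
    Xz ω (Bz ω m m1 f) = Ms m1 (EE ω f) + Ms m (Yz ω f) := by
  ext1
  funext n
  rw [Xz_apply, ← TT_apply, TT_Bz ω hm mH, lp.coeFn_add, Pi.add_apply, Ms_apply, Ms_apply, Ms_apply,
    Bz_apply, Yz_apply, EE_apply, tZ, map_sub, map_smul, map_smul]
  unfold ka
  module

/-- identity (i) -/
theorem zeta_i (ω : ℝ) {m m1 m2 : CI H} (hm : IsD m m1) (hm1 : IsD m1 m2) (mr : star m = m)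
    (mr1 : star m1 = m1) (mr2 : star m2 = m2) (G : HH H) {g : HH H} (hg : PP ω g = g) :
    ⟪Bz ω m m1 (TT ω G), g⟫_ℂ = ⟪G, Ms m (TT ω g)⟫_ℂ -
      2 * ⟪Yz ω (TT ω G), Ms m1 (TT ω g)⟫_ℂ - ⟪EE ω (TT ω G), Ms m2 (TT ω g)⟫_ℂ := by
  have h1 := lp.hasSum_inner (𝕜 := ℂ) (Bz ω m m1 (TT ω G)) g
  have h2 := ((lp.hasSum_inner (𝕜 := ℂ) G (Ms m (TT ω g))).sub
    ((lp.hasSum_inner (𝕜 := ℂ) (Yz ω (TT ω G)) (Ms m1 (TT ω g))).mul_left 2)).sub
    (lp.hasSum_inner (𝕜 := ℂ) (EE ω (TT ω G)) (Ms m2 (TT ω g)))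
  have e : ∀ n, ⟪Bz ω m m1 (TT ω G) n, g n⟫_ℂ = ⟪G n, Ms m (TT ω g) n⟫_ℂ -
      2 * ⟪Yz ω (TT ω G) n, Ms m1 (TT ω g) n⟫_ℂ - ⟪EE ω (TT ω G) n, Ms m2 (TT ω g) n⟫_ℂ := by
    intro n
    have hgn : P2 (ω * n) (g n) = g n := by rw [← PP_apply, hg]
    rw [Bz_apply, Yz_apply, EE_apply, Ms_apply, Ms_apply, Ms_apply, tZ, TT_apply, TT_apply]
    exact zeta_mode_i (ω * n) hm hm1 mr mr1 mr2 (G n) hgn
  have e2 := funext e
  rw [← e2] at h2
  exact h1.unique h2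

/-- identity (iii) -/
theorem zeta_iii (ω : ℝ) {m m1 κ κ1 : CI H} (hm : IsD m m1) (mH : ex m H = 0) (hκ : IsD κ κ1)
    (f g : HH H) :
    ⟪Ms m (EE ω f), Ms κ g - Ms κ1 (TT ω g)⟫_ℂ =
      ⟪Ms m f, Ms κ (TT ω g)⟫_ℂ + ⟪Ms m1 (EE ω f), Ms κ (TT ω g)⟫_ℂ := by
  rw [← inner_add_left]
  have h1 := lp.hasSum_inner (𝕜 := ℂ) (Ms m (EE ω f)) (Ms κ g - Ms κ1 (TT ω g))
  have h2 := lp.hasSum_inner (𝕜 := ℂ) (Ms m f + Ms m1 (EE ω f)) (Ms κ (TT ω g))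
  refine h1.unique ?_
  convert h2 using 2 with n
  rw [lp.coeFn_sub, Pi.sub_apply, lp.coeFn_add, Pi.add_apply, Ms_apply, Ms_apply, Ms_apply, Ms_apply,
    Ms_apply, Ms_apply, EE_apply, TT_apply]
  exact zeta_mode_iii (ω * n) hm mH hκ (f n) (g n)

/-- `⟨g, B(κV)⟩ = ⟨B* g, κV⟩` for `g = T G`, `(T G)(0) = 0` -/
theorem kappa_i (ω : ℝ) {κ κ1 : CI H} (hκ : IsD κ κ1) {G : HH H} (hG : PP ω G = G) (g : HH H) :
    ⟪TT ω G, Ms κ g - Ms κ1 (TT ω g)⟫_ℂ = ⟪Xz ω G + DTc ω G, Ms κ (TT ω g)⟫_ℂ := by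
  have h1 := lp.hasSum_inner (𝕜 := ℂ) (TT ω G) (Ms κ g - Ms κ1 (TT ω g))
  have h2 := lp.hasSum_inner (𝕜 := ℂ) (Xz ω G + DTc ω G) (Ms κ (TT ω g))
  refine h1.unique ?_
  convert h2 using 2 with n
  have hGn : P2 (ω * n) (G n) = G n := by rw [← PP_apply, hG]
  rw [lp.coeFn_sub, Pi.sub_apply, lp.coeFn_add, Pi.add_apply, Ms_apply, Ms_apply, Ms_apply,
    TT_apply, TT_apply, Xz_apply, DTc_apply]
  exact kappa_mode (ω * n) hκ hGn (g n)

/-! ### Links with families -/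

theorem inner_dp (x y : HH H) : ⟪x, y⟫_ℂ = dp x y := lp.inner_eq_tsum x y

theorem S2_l2 (lam : ℤ → ℝ) (x : HH H) : S2 lam 0 x := by
  unfold S2
  simp only [Real.rpow_zero, one_mul]
  exact l2_summable x

theorem N2_l2 (lam : ℤ → ℝ) (x : HH H) : N2 lam 0 x = ‖x‖ := by
  unfold N2
  simp only [Real.rpow_zero, one_mul]
  rw [← l2_norm_sq, Real.sqrt_sq (norm_nonneg x)]

theorem io_Vf (ω : ℝ) (g : HH H) : io (Vf ω g) = ⇑(TT ω g) := by
  funext n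
  rw [TT_apply]; rfl

variable {lam : ℤ → ℝ}

/-- the family `Λ^{-1/2} x` -/
noncomputable def hf (lam : ℤ → ℝ) (x : l2 (CI H)) : ℤ → CI H := uw lam (1 / 2) x

theorem S2_hf (h1 : ∀ n, 1 ≤ lam n) (x : l2 (CI H)) :
    S2 lam (1 / 2) (hf lam x) ∧ N2 lam (1 / 2) (hf lam x) = ‖x‖ := uw_S2 h1 (1 / 2) x

theorem hf_apply (x : l2 (CI H)) (n : ℤ) : hf lam x n = ((lam n ^ (-(1 / 2 : ℝ)) : ℝ) : ℂ) • x n := rfl

theorem hf_add (x y : l2 (CI H)) (n : ℤ) : hf lam (x + y) n = hf lam x n + hf lam y n := by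
  rw [hf_apply, hf_apply, hf_apply, lp.coeFn_add, Pi.add_apply]
  exact smul_add ((lam n ^ (-(1 / 2 : ℝ)) : ℝ) : ℂ) (x n : CI H) (y n : CI H)

theorem prd_apply (pw : PrW lam 0 (1 / 2) (1 / 4)) (x : HH H) (v : l2 (CI H)) (n : ℤ) :
    prd pw x v n = ((lam n ^ (-(1 / 4 : ℝ)) : ℝ) : ℂ) • pz x (hf lam v) n := by
  show uw lam (1 / 4) (cvm (fun e f => mz f e) (uw lam 0 x) (uw lam (1 / 2) v)) n = _
  have e : uw lam 0 (⇑x) = ⇑x := by
    funext j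
    unfold uw
    rw [neg_zero, Real.rpow_zero, Complex.ofReal_one, one_smul]
  rw [e]
  rfl

theorem lam_cancel {l : ℝ} (hl : 0 < l) (s : ℝ) (x y : Z2 H) :
    ⟪((l ^ s : ℝ) : ℂ) • x, ((l ^ (-s) : ℝ) : ℂ) • y⟫_ℂ = ⟪x, y⟫_ℂ := by
  rw [inner_smul_left, inner_smul_right, Complex.conj_ofReal, ← mul_assoc, ← Complex.ofReal_mul,
    ← Real.rpow_add hl, add_neg_cancel, Real.rpow_zero, Complex.ofReal_one, one_mul]

theorem inner_LT_prd {ω C : ℝ} (h : LamOK ω lam C) (pw : PrW lam 0 (1 / 2) (1 / 4)) (G x : HH H)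
    (v : l2 (CI H)) :
    ⟪LT ω lam (1 / 4) G, prd pw x v⟫_ℂ = dp (TT ω G) (pz x (hf lam v)) := by
  rw [inner_dp]
  refine tsum_congr fun n => ?_
  rw [h.LT_apply (by norm_num), prd_apply, TT_apply]
  exact lam_cancel (lt_of_lt_of_le one_pos (h.one n)) _ _ _

theorem smul_T2_comm (c : ℂ) (k : ℝ) (x : Z2 H) : T2 k (c • x) = c • T2 k x := map_smul _ _ _

/-- `⟨f, P(om,u)⟩ = b(om,u;f)`, `f = T G` -/
theorem inner_LT_Pw (Ge : Geo H) (G om : HH H) (v w : l2 (CI H)) :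
    ⟪LT Ge.ω Ge.lam (1 / 4) G, Ge.Pw om v w⟫_ℂ =
      bf Ge.ω om (hf Ge.lam v) (hf Ge.lam w) (TT Ge.ω G) := by
  have pw := Ge.pw
  have h1 := Ge.lw.h1
  have sG : S2 Ge.lam (1 / 4) (⇑(TT Ge.ω G)) := by
    have h2 := l2_summable (LT Ge.ω Ge.lam (1 / 4) G)
    refine h2.congr fun n => ?_
    rw [Ge.lamOK.LT_apply (by norm_num), TT_apply, norm_smul, Complex.norm_real,
      Real.norm_of_nonneg (Real.rpow_nonneg (Ge.lw.pos n).le _)]
  rw [← dp_Pv pw Ge.ω (S2_l2 _ om) (S2_hf h1 v).1 (S2_hf h1 w).1 sG, inner_dp]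
  refine tsum_congr fun n => ?_
  have e1 : Ge.Pw om v w n = ((Ge.lam n ^ (-(1 / 4 : ℝ)) : ℝ) : ℂ) •
      Pv Ge.ω om (hf Ge.lam v) (hf Ge.lam w) n := by
    show (-(Xz Ge.ω (prd Ge.pw om w) + Xy Ge.ω (prd Ge.pw om v))) n = _
    rw [lp.coeFn_neg, Pi.neg_apply, lp.coeFn_add, Pi.add_apply, Xz_apply, Xy_apply, prd_apply,
      prd_apply, smul_T2_comm, smul_T2_comm]
    unfold Pv
    module
  rw [Ge.lamOK.LT_apply (by norm_num), TT_apply, e1]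
  exact lam_cancel (Ge.lw.pos n) _ _ _

theorem S2_TT (Ge : Geo H) (G : HH H) : S2 Ge.lam 1 (⇑(TT Ge.ω G)) ∧
    N2 Ge.lam 1 (⇑(TT Ge.ω G)) = ‖LT Ge.ω Ge.lam 1 G‖ := by
  have e : ∀ n, Ge.lam n ^ (1:ℝ) * ‖TT Ge.ω G n‖ = ‖LT Ge.ω Ge.lam 1 G n‖ := fun n => by
    rw [Ge.lamOK.LT_apply le_rfl, TT_apply, norm_smul, Complex.norm_real,
      Real.norm_of_nonneg (Real.rpow_nonneg (Ge.lw.pos n).le _)]
  constructor
  · unfold S2; simp only [e]; exact l2_summable _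
  · unfold N2; simp only [e]; rw [← l2_norm_sq, Real.sqrt_sq (norm_nonneg _)]

theorem S2_TT' (Ge : Geo H) {s : ℝ} (hs : s ≤ 1) (G : HH H) : S2 Ge.lam s (⇑(TT Ge.ω G)) :=
  (S2_mono Ge.lw.h1 hs (S2_TT Ge G).1).1

theorem N2_TT (Ge : Geo H) {s : ℝ} (hs : s ≤ 1) (G : HH H) :
    N2 Ge.lam s (⇑(TT Ge.ω G)) = ‖LT Ge.ω Ge.lam s G‖ := by
  have e : ∀ n, Ge.lam n ^ s * ‖TT Ge.ω G n‖ = ‖LT Ge.ω Ge.lam s G n‖ := fun n => by
    rw [Ge.lamOK.LT_apply hs, TT_apply, norm_smul, Complex.norm_real,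
      Real.norm_of_nonneg (Real.rpow_nonneg (Ge.lw.pos n).le _)]
  unfold N2; simp only [e]; rw [← l2_norm_sq, Real.sqrt_sq (norm_nonneg _)]

/-- **identity (ii)**: `⟨h, u·∇q⟩ = -⟨∇h, q u⟩` for `h = T G`, `q = T g`, `q(0) = 0`, `div u = 0`. -/
theorem anti_fam (Ge : Geo H) {v w : ℤ → CI H}
    (dw : ∀ n, DZ (w n) (-(kI Ge.ω n) • (iota (v n) : Z2 H))) (sv : S2 Ge.lam (1 / 2) v)
    (sw : S2 Ge.lam (1 / 2) w) (G : HH H) {g : HH H} (hg : PP Ge.ω g = g) :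
    dp (TT Ge.ω G) (pz (Xy Ge.ω g) v) + dp (TT Ge.ω G) (pz (Xz Ge.ω g) w) =
      -(dp (Xy Ge.ω G) (pz (TT Ge.ω g) v) + dp (Xz Ge.ω G) (pz (TT Ge.ω g) w)) := by
  have pw := Ge.pw
  have pw' : PrW Ge.lam (1 / 4) (1 / 2) 0 :=
    Ge.prW (by norm_num) (by norm_num) (by norm_num) (by norm_num)
  have hl : (1 / 4 : ℝ) ≤ 1 := by norm_num
  have eY : ∀ x : HH H, dy Ge.ω (io (Vf Ge.ω x)) = ⇑(Xy Ge.ω x) := fun x => by
    funext n
    rw [Xy_apply, dy_apply]; rfl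
  have eZ : ∀ x : HH H, (fun n => ka Ge.ω n • (iota (Vf Ge.ω x n) : Z2 H) - x n) = ⇑(Xz Ge.ω x) :=
    fun x => by
      funext n
      rw [Xz_apply]; rfl
  have hq0 : ∀ n, ex (Vf Ge.ω g n) 0 = 0 := fun n => by
    refine (P2_iff _ _).1 ?_
    rw [← PP_apply, hg]
  have key := T3_anti pw pw' dw (fun n => Vf_dz Ge.ω g n) (fun n => Vf_dz Ge.ω G n) hq0
    (fun n => Vf_H Ge.ω g n) sv sw (by rw [io_Vf]; exact S2_TT' Ge hl g)
    (by rw [eZ]; exact S2_l2 _ _) (by rw [eY]; exact S2_l2 _ _)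
    (by rw [io_Vf]; exact S2_TT' Ge hl G) (by rw [eZ]; exact S2_l2 _ _)
    (by rw [eY]; exact S2_l2 _ _)
  rw [eY, eY, eZ, eZ, io_Vf, io_Vf] at key
  rw [dp_pz pw (S2_l2 _ _) sv (S2_TT' Ge hl G), dp_pz pw (S2_l2 _ _) sw (S2_TT' Ge hl G),
    dp_pz pw' (S2_TT' Ge hl g) sv (S2_l2 _ _), dp_pz pw' (S2_TT' Ge hl g) sw (S2_l2 _ _)]
  linear_combination key

/-- multiplication by a function of `z` moves through products -/
theorem dp_Ms (m : CI H) (x : HH H) (y : ℤ → Z2 H) :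
    dp (Ms m x) y = dp x (fun n => mz (star m) (y n)) := by
  refine tsum_congr fun n => ?_
  rw [Ms_apply, inner_mz]

theorem mz_pz {s : ℝ} (pw' : PrW lam s (1 / 2) 0) (m : CI H) {q : ℤ → Z2 H} (sq : S2 lam s q)
    {v : ℤ → CI H} (sv : S2 lam (1 / 2) v) (n : ℤ) :
    mz m (pz q v n) = pz (fun j => mz m (q j)) v n := by
  obtain ⟨c1, -, -⟩ := cvm_bd zero_le_one mz_bd pw'.h1 pw'.ha pw'.hb pw'.hc pw'.hs sq sv
  have h1 := ((c1 n).of_norm).hasSum.mapL (mz m)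
  have h2 : mz m (pz q v n) = ∑' j, mz m (mz (v (n - j)) (q j)) := h1.tsum_eq.symm
  rw [h2]
  refine tsum_congr fun j => ?_
  rw [mz_comm]

end

end Pool.Agent.Lib.MP_79abb3_an.SC
end

section

/-!
Theorem C, assembly: states, arcs (no-slip pieces between states) and the statements exported by the
blocks (as definitions, so that the assembly can be proved before the blocks).
-/

set_option autoImplicit false
set_option linter.unusedSectionVars false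

open MeasureTheory Set Filter Topology Function
open scoped ENNReal InnerProductSpace

namespace Pool.Agent.Lib.MP_79abb3_an.SC

open Pool.Agent.Lib.MP_79abb3_an.P25

section
variable {H : ℝ} [hH : Fact (0 < H)]

/-- real elements of `HH H` -/
def Rl (x : HH H) : Prop := ∀ n : ℤ, x (-n) = star (x n)

/-- `v` for the velocity `u[V]`, `V = T g` -/
noncomputable def fV (ω : ℝ) (g : HH H) (q : ℝ × ℝ) : ℝ := fld ω (uV ω (Vf ω g)) q.1 q.2

/-- `w` for the velocity `u[V]`, `V = T g` -/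
noncomputable def fW (ω : ℝ) (g : HH H) (q : ℝ × ℝ) : ℝ := fld ω (wV ω (Vf ω g)) q.1 q.2

namespace Geo
variable (G : Geo H)

/-- A state is `x` with `W = K^{1/2} x` real and in the class `DD`. -/
structure St (x : HH H) : Prop where
  real : Rl x
  dd : DD G.D.K (Kh G.D.K x)

/-- The physical velocity `(v, w)` is `u[W]` for `z ∈ [0, h]`. -/
def Fl (h : ℝ) (x : HH H) (v w : ℝ × ℝ → ℝ) : Prop :=
  ∀ y : ℝ, ∀ z ∈ Icc (0:ℝ) h, v (y, z) = fV G.ω (G.Qd x) (y, z) ∧ w (y, z) = fW G.ω (G.Qd x) (y, z)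

/-- A no-slip piece of length `T` from the state `x₀` to the state `x₁`. -/
def Arc (a : ℝ × ℝ → ℝ) (h T : ℝ) (x₀ x₁ : HH H) : Prop :=
  G.St x₁ ∧ ∃ v w : ℝ → ℝ × ℝ → ℝ, Piece H h a 0 T v w ∧ NoSlip 0 T v w ∧
    G.Fl h x₀ (v 0) (w 0) ∧ G.Fl h x₁ (v T) (w T)

/-- `|Λ^{3/8} W|` -/
noncomputable def sz (x : HH H) : ℝ := N2 G.lam (3 / 8) (fun n => Kh G.D.K x n)

/-- NULL THEOREM (block iv). -/
def NullThm (a : ℝ × ℝ → ℝ) (h : ℝ) : Prop :=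
  ∀ T, 0 < T → T ≤ 1 / 2 → ∃ ε, 0 < ε ∧ ∀ x, G.St x → ‖x‖ ≤ ε → G.Arc a h T x 0

/-- SMALL DATA (EX5). -/
def SmallThm (a : ℝ × ℝ → ℝ) (h : ℝ) : Prop :=
  ∀ T, 0 < T → T ≤ 1 → ∀ ε, 0 < ε → ∃ δ, 0 < δ ∧ ∀ x, G.St x → G.sz x ≤ δ →
    ∃ x₁, ‖x₁‖ ≤ ε ∧ G.Arc a h T x x₁

/-- the vorticity `B W` is supported in `[0, ρ]` -/
def Low (x : HH H) : Prop := ∀ m : CI H, (∀ z ∈ Icc (0:ℝ) G.ρ, ex m z = 0) → Ms m (G.Qd x) = 0

/-- FLUSH THEOREM (block iii). -/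
def FlushThm (a : ℝ × ℝ → ℝ) (h : ℝ) : Prop :=
  ∀ x, G.St x → G.Low x → ∀ T, 0 < T → ∀ δ, 0 < δ → ∃ t, 0 < t ∧ t ≤ T ∧
    ∃ x₁, G.sz x₁ ≤ δ ∧ G.Arc a h t x x₁

/-- RECUT. -/
def RecutThm (h : ℝ) : Prop :=
  ∀ x, G.St x → ∃ x', G.St x' ∧ G.Low x' ∧ ∀ v w, G.Fl h x v w → G.Fl h x' v w

/-- PHASE 0 with the data `(v₀, w₀)`, `S` = the wall. -/
def Phase0Thm (a : ℝ × ℝ → ℝ) (h : ℝ) (S : Set ℝ) (v₀ w₀ : ℝ × ℝ → ℝ) : Prop :=
  ∀ T, 0 < T → ∃ t, 0 < t ∧ t ≤ T ∧ ∃ x, G.St x ∧ ∃ v w : ℝ → ℝ × ℝ → ℝ,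
    StripSol H h a t v w v₀ w₀ ∧ (∀ s ∈ Ioc 0 t, ∀ y ∈ S, v s (y, 0) = 0 ∧ w s (y, 0) = 0) ∧
    G.Fl h x (v t) (w t)

/-- MAIN THEOREM in the strip. -/
def StripThm (H h : ℝ) (a : ℝ × ℝ → ℝ) (S : Set ℝ) (v₀ w₀ : ℝ × ℝ → ℝ) : Prop :=
  ∀ T, 0 < T → ∃ v w : ℝ → ℝ × ℝ → ℝ, StripSol H h a T v w v₀ w₀ ∧
    (∀ s ∈ Ioc 0 T, ∀ y ∈ S, v s (y, 0) = 0 ∧ w s (y, 0) = 0) ∧
    ∀ y : ℝ, ∀ z ∈ Icc (0:ℝ) h, v T (y, z) = 0 ∧ w T (y, z) = 0

end Geo

end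

end Pool.Agent.Lib.MP_79abb3_an.SC
end

section

/-!
Theorem C, block (ii): reality of solutions.
-/

set_option autoImplicit false
set_option linter.unusedSectionVars false

open MeasureTheory Set Filter Topology Function
open scoped ENNReal InnerProductSpace

namespace Pool.Agent.Lib.MP_79abb3_an.SC

open Pool.Agent.Lib.MP_79abb3_an.P25

section abs
variable {E : Type} [NormedAddCommGroup E] [InnerProductSpace ℂ E] [CompleteSpace E]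

/-- A conjugation. -/
structure Cnj (J : E →L[ℝ] E) : Prop where
  inv : ∀ x, J (J x) = x
  anti : ∀ (c : ℂ) (x : E), J (c • x) = star c • J x
  inner : ∀ x y, ⟪J x, J y⟫_ℂ = ⟪y, x⟫_ℂ

variable {J : E →L[ℝ] E} {K : E →L[ℂ] E}

theorem Cnj.norm (h : Cnj J) (x : E) : ‖J x‖ = ‖x‖ := by
  have h1 := h.inner x x
  rw [inner_self_eq_norm_sq_to_K, inner_self_eq_norm_sq_to_K] at h1
  have h2 : ‖J x‖ ^ 2 = ‖x‖ ^ 2 := by
    have := congrArg Complex.re h1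
    norm_cast at this
  exact (sq_eq_sq₀ (norm_nonneg _) (norm_nonneg _)).1 h2

/-- `J A J` -/
noncomputable def cjA (h : Cnj J) (A : E →L[ℂ] E) : E →L[ℂ] E :=
  LinearMap.mkContinuous
    { toFun := fun x => J (A (J x))
      map_add' := fun x y => by rw [map_add, map_add, map_add]
      map_smul' := fun c x => by
        rw [h.anti, map_smul, h.anti, star_star]; rfl } ‖A‖ (fun x => by
      show ‖J (A (J x))‖ ≤ _
      rw [h.norm]
      refine (A.le_opNorm _).trans ?_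
      rw [h.norm])

theorem cjA_apply (h : Cnj J) (A : E →L[ℂ] E) (x : E) : cjA h A x = J (A (J x)) := rfl

theorem norm_cjA_le (h : Cnj J) (A : E →L[ℂ] E) : ‖cjA h A‖ ≤ ‖A‖ :=
  LinearMap.mkContinuous_norm_le _ (norm_nonneg _) _

/-- `A ↦ J A J` as a star homomorphism of real algebras -/
noncomputable def cjHm (h : Cnj J) : (E →L[ℂ] E) →⋆ₐ[ℝ] (E →L[ℂ] E) where
  toFun A := cjA h A
  map_one' := by ext1 x; exact h.inv x
  map_mul' A B := by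
    ext1 x
    show J ((A * B) (J x)) = J (A (J (J (B (J x)))))
    rw [h.inv]; rfl
  map_zero' := by ext1 x; exact map_zero J
  map_add' A B := by ext1 x; exact map_add J _ _
  commutes' r := by
    ext1 x
    show J ((algebraMap ℝ (E →L[ℂ] E) r) (J x)) = (algebraMap ℝ (E →L[ℂ] E) r) x
    rw [Algebra.algebraMap_eq_smul_one]
    show J (r • J x) = r • x
    rw [map_smul, h.inv]
  map_star' A := by
    refine ContinuousLinearMap.ext fun x => ext_inner_left ℂ fun y => ?_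
    show ⟪y, J ((star A) (J x))⟫_ℂ = ⟪y, (cjA h A).adjoint x⟫_ℂ
    rw [ContinuousLinearMap.adjoint_inner_right, cjA_apply]
    have h1 := h.inner (J y) ((star A) (J x))
    rw [h.inv] at h1
    have h2 := h.inner (A (J y)) (J x)
    rw [h.inv] at h2
    rw [h1, h2]
    show ⟪A.adjoint (J x), J y⟫_ℂ = _
    rw [ContinuousLinearMap.adjoint_inner_left]

theorem cjHm_cont (h : Cnj J) : Continuous (cjHm h) :=
  AddMonoidHomClass.continuous_of_bound (cjHm h) 1 fun A => by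
    rw [one_mul]; exact norm_cjA_le h A

theorem Cnj.comm_iff (h : Cnj J) (A : E →L[ℂ] E) : cjHm h A = A ↔ ∀ x, J (A x) = A (J x) := by
  constructor
  · intro h1 x
    have h2 : cjA h A (J x) = A (J x) := congrArg (fun B : E →L[ℂ] E => B (J x)) h1
    rw [cjA_apply, h.inv] at h2
    exact h2
  · intro h1
    ext1 x
    show J (A (J x)) = A x
    rw [h1, h.inv]

theorem Cnj.cfc (h : Cnj J) (hs : IsSelfAdjoint K) (hK : ∀ x, J (K x) = K (J x)) {f : ℝ → ℝ}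
    (hf : Continuous f) (x : E) : J (_root_.cfc f K x) = _root_.cfc f K (J x) := by
  have h1 : cjHm h K = K := (h.comm_iff K).2 hK
  have h2 := StarAlgHomClass.map_cfc (R := ℝ) (S := ℝ) (cjHm h) f K hf.continuousOn (cjHm_cont h) hs
    (by rw [h1]; exact hs)
  rw [h1] at h2
  exact (h.comm_iff _).1 h2 x

theorem Cnj.Kh (h : Cnj J) (hK0 : 0 ≤ K) (hK : ∀ x, J (K x) = K (J x)) (x : E) :
    J (SC.Kh K x) = SC.Kh K (J x) :=
  h.cfc (selfAdjoint_of_nonneg hK0) hK Real.continuous_sqrt x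

theorem Cnj.fA (h : Cnj J) (hK0 : 0 ≤ K) (hK : ∀ x, J (K x) = K (J x)) {φ : ℝ → ℝ} (hφ : Adm φ)
    (x : E) : J (SC.fA φ K x) = SC.fA φ K (J x) :=
  h.cfc (selfAdjoint_of_nonneg hK0) hK (gf_continuous hφ) x

theorem Cnj.AS (h : Cnj J) (hK0 : 0 ≤ K) (hK : ∀ x, J (K x) = K (J x)) {τ : ℝ} (hτ : 0 < τ)
    (x : E) : J (SC.AS K τ x) = SC.AS K τ (J x) := h.fA hK0 hK (adm_mul_exp hτ) x

theorem Cnj.HS (h : Cnj J) (hK0 : 0 ≤ K) (hK : ∀ x, J (K x) = K (J x)) {τ : ℝ} (hτ : 0 < τ)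
    (x : E) : J (SC.HS K τ x) = SC.HS K τ (J x) := h.fA hK0 hK (adm_sqrt_exp hτ) x

theorem Cnj.Sg (h : Cnj J) (hK0 : 0 ≤ K) (hK : ∀ x, J (K x) = K (J x)) {t : ℝ} (ht : 0 ≤ t)
    (x : E) : J (SC.Sg K t x) = SC.Sg K t (J x) := by
  rcases ht.eq_or_lt with h0 | h0
  · rw [← h0, Sg_zero]; rfl
  · rw [Sg_pos h0]
    exact h.fA hK0 hK (adm_exp h0) x

/-- the adjoint of an operator which commutes with `J` -/
theorem Cnj.adjoint (h : Cnj J) {A : E →L[ℂ] E} (hA : ∀ x, J (A x) = A (J x)) (x : E) :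
    J (A.adjoint x) = A.adjoint (J x) := by
  refine ext_inner_left ℂ fun y => ?_
  rw [ContinuousLinearMap.adjoint_inner_right]
  have h1 := h.inner (J y) (A.adjoint x)
  rw [h.inv] at h1
  have h2 := h.inner (A (J y)) x
  rw [hA, h.inv] at h2
  rw [h1, h2, ContinuousLinearMap.adjoint_inner_left]

/-- `J` commutes with all operators of an `OD` -/
structure OD.Cj (D : OD E) (J : E →L[ℝ] E) : Prop where
  T : ∀ x, J (D.T x) = D.T (J x)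
  E : ∀ x, J (D.E x) = D.E (J x)
  P : ∀ x, J (D.P x) = D.P (J x)
  a : ∀ x, J (D.a x) = D.a (J x)
  b : ∀ x, J (D.b x) = D.b (J x)

variable {D : OD E}

theorem OD.Cj.cSi (h : D.Cj J) (x : E) : J (D.Si x) = D.Si (J x) := by
  have hS : ∀ x, J (D.S0 x) = D.S0 (J x) := by
    intro x
    show J (D.P (D.a (D.P x)) + (x - D.P x)) = D.P (D.a (D.P (J x))) + (J x - D.P (J x))
    rw [map_add, map_sub, h.P, h.a, h.P]
  have e1 : ∀ y, D.Si (D.S0 y) = y := fun y =>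
    congrArg (fun A : E →L[ℂ] E => A y) (IsUnit.val_inv_mul D.isUnit_S0)
  have e2 : ∀ y, D.S0 (D.Si y) = y := fun y =>
    congrArg (fun A : E →L[ℂ] E => A y) (IsUnit.mul_val_inv D.isUnit_S0)
  calc J (D.Si x) = D.Si (D.S0 (J (D.Si x))) := (e1 _).symm
    _ = D.Si (J (D.S0 (D.Si x))) := by rw [hS]
    _ = D.Si (J x) := by rw [e2]

theorem OD.Cj.cG (h : D.Cj J) (x : E) : J (D.G x) = D.G (J x) := by
  show J (D.Si (D.P (D.E (D.b x)))) = D.Si (D.P (D.E (D.b (J x))))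
  rw [h.cSi, h.P, h.E, h.b]

theorem OD.Cj.cK (h : D.Cj J) (x : E) : J (D.K x) = D.K (J x) := by
  show J (D.b (D.T (D.G x))) = D.b (D.T (D.G (J x)))
  rw [h.b, h.T, h.cG]

theorem OD.Cj.cQ (hj : Cnj J) (h : D.Cj J) (x : E) :
    J (D.Q (SC.Kh D.K) x) = D.Q (SC.Kh D.K) (J x) := by
  have hd : DenseRange (SC.Kh D.K) := D.isKh.dense
  have e : ∀ y, D.Q (SC.Kh D.K) (SC.Kh D.K y) = D.G y := fun y => D.isKh.Q_Kh y
  refine hd.induction_on (p := fun x => J (D.Q (SC.Kh D.K) x) = D.Q (SC.Kh D.K) (J x)) x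
    (isClosed_eq (J.continuous.comp (D.Q (SC.Kh D.K)).continuous)
      ((D.Q (SC.Kh D.K)).continuous.comp J.continuous)) fun y => ?_
  rw [e, h.cG, ← e, hj.Kh D.K_nonneg h.cK]

end abs

section
variable {H : ℝ} [hH : Fact (0 < H)]

/-! ### Conjugation on `ℓ²` -/

/-- conjugation on `ℓ²(CI)` -/
noncomputable def cjC : l2 (CI H) →L[ℝ] l2 (CI H) :=
  LinearMap.mkContinuous
    { toFun := fun x => mk2 (fun n => star (x (-n))) (by
        have h1 := (Equiv.neg ℤ).summable_iff.2 (l2_summable x)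
        refine h1.congr fun n => ?_
        show ‖x (-n)‖ ^ 2 = ‖star (x (-n))‖ ^ 2
        rw [norm_star_ci])
      map_add' := fun x y => by
        ext1; funext n
        show star ((x + y) (-n)) = star (x (-n)) + star (y (-n))
        rw [lp.coeFn_add, Pi.add_apply, star_add]
      map_smul' := fun c x => by
        ext1; funext n
        show star ((c • x) (-n)) = c • star (x (-n))
        rw [lp.coeFn_smul, Pi.smul_apply]
        exact ci_ext fun z _ => by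
          rw [ex_star, ex_rsmul, ex_rsmul, ex_star, star_mul', Complex.star_def, Complex.conj_ofReal] }
    1 (fun x => by
      rw [one_mul]
      refine le_of_eq ?_
      have h1 : ∀ y : l2 (CI H), ‖y‖ ^ 2 = ∑' n, ‖y n‖ ^ 2 := fun y => l2_norm_sq y
      refine (sq_eq_sq₀ (norm_nonneg _) (norm_nonneg _)).1 ?_
      rw [h1, h1, ← (Equiv.neg ℤ).tsum_eq (fun n => ‖x n‖ ^ 2)]
      refine tsum_congr fun n => ?_
      show ‖star (x (-n))‖ ^ 2 = ‖x (-n)‖ ^ 2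
      rw [norm_star_ci])

theorem cjC_apply (x : l2 (CI H)) (n : ℤ) : cjC x n = star (x (-n)) := rfl

theorem rsmul_Z2 (c : ℝ) (y : Z2 H) : c • y = (c : ℂ) • y := (algebraMap_smul ℂ c y).symm

/-- conjugation on `Z2` -/
noncomputable def czL : Z2 H →L[ℝ] Z2 H :=
  LinearMap.mkContinuous
    { toFun := cz
      map_add' := cz_add
      map_smul' := fun c x => by
        rw [rsmul_Z2, cz_smul, Complex.star_def, Complex.conj_ofReal, RingHom.id_apply, rsmul_Z2] }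
    1 (fun x => by rw [one_mul]; exact (norm_cz x).le)

/-- conjugation on `HH` -/
noncomputable def cjX : HH H →L[ℝ] HH H :=
  LinearMap.mkContinuous
    { toFun := fun x => mk2 (fun n => cz (x (-n))) (by
        have h1 := (Equiv.neg ℤ).summable_iff.2 (l2_summable x)
        refine h1.congr fun n => ?_
        show ‖x (-n)‖ ^ 2 = ‖cz (x (-n))‖ ^ 2
        rw [norm_cz])
      map_add' := fun x y => by
        ext1; funext n
        show cz ((x + y) (-n)) = cz (x (-n)) + cz (y (-n))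
        rw [lp.coeFn_add, Pi.add_apply, cz_add]
      map_smul' := fun c x => by
        ext1; funext n
        show cz ((c • x) (-n)) = c • cz (x (-n))
        rw [lp.coeFn_smul, Pi.smul_apply]
        rw [rsmul_Z2, rsmul_Z2, cz_smul, Complex.star_def, Complex.conj_ofReal] }
    1 (fun x => by
      rw [one_mul]
      refine le_of_eq ?_
      have h1 : ∀ y : HH H, ‖y‖ ^ 2 = ∑' n, ‖y n‖ ^ 2 := fun y => l2_norm_sq y
      refine (sq_eq_sq₀ (norm_nonneg _) (norm_nonneg _)).1 ?_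
      rw [h1, h1, ← (Equiv.neg ℤ).tsum_eq (fun n => ‖x n‖ ^ 2)]
      refine tsum_congr fun n => ?_
      show ‖cz (x (-n))‖ ^ 2 = ‖x (-n)‖ ^ 2
      rw [norm_cz])

theorem cjX_apply (x : HH H) (n : ℤ) : cjX x n = cz (x (-n)) := rfl

theorem Rl_iff (x : HH H) : Rl x ↔ cjX x = x := by
  constructor
  · intro h
    ext1; funext n
    rw [cjX_apply, h n]
    exact cz_cz _
  · intro h n
    have h1 : cjX x (-n) = x (-n) := by rw [h]
    rw [cjX_apply, neg_neg] at h1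
    exact h1.symm

theorem cjX_cnj : Cnj (cjX : HH H →L[ℝ] HH H) where
  inv x := by
    ext1; funext n
    show cz (cz (x (- -n))) = x n
    rw [neg_neg, cz_cz]
  anti c x := by
    ext1; funext n
    show cz ((c • x) (-n)) = star c • cz (x (-n))
    rw [lp.coeFn_smul, Pi.smul_apply, cz_smul]
  inner x y := by
    have h1 := lp.hasSum_inner (𝕜 := ℂ) (cjX x) (cjX y)
    have h2 := (Equiv.neg ℤ).hasSum_iff.2 (lp.hasSum_inner (𝕜 := ℂ) y x)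
    refine h1.unique ?_
    have e : (fun n => ⟪cjX x n, cjX y n⟫_ℂ) = (fun n => ⟪y n, x n⟫_ℂ) ∘ (Equiv.neg ℤ) := by
      funext n
      rw [cjX_apply, cjX_apply, inner_cz]; rfl
    rw [e]; exact h2

/-- diagonal operators -/
theorem cjX_dg {A : ℤ → (Z2 H →L[ℂ] Z2 H)} {C : ℝ} (hA : ∀ n, ‖A n‖ ≤ C)
    (h : ∀ n f, cz (A (-n) f) = A n (cz f)) (x : HH H) : cjX (dg A x) = dg A (cjX x) := by
  ext1; funext n
  rw [cjX_apply, dg_apply hA, dg_apply hA, h, cjX_apply]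

theorem fe_starE (m : ℝ) : star (fe m : CI H) = fe m := ci_ext fun z hz => by
  rw [ex_star, ex_fe m hz, Complex.star_def, Complex.conj_ofReal]

theorem star_Ez (k : ℝ) (f : Z2 H) : star (Ez k f) = Ez k (cz f) := by
  rw [Ez_eq, Ez_eq, star_mul', fe_starE, ← Pz_cz, cz_mz, fe_starE]

theorem star_const (c : ℂ) : star (ContinuousMap.const _ c : CI H) = ContinuousMap.const _ (star c) := by
  ext z; rfl

theorem star_Tz (k : ℝ) (f : Z2 H) : star (Tz k f) = Tz k (cz f) := by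
  rw [Tz_eq, Tz_eq, star_mul', fe_starE, star_sub, star_const, ← ex_star, ← Pz_cz, cz_mz, fe_starE]

theorem cz_T2 (k : ℝ) (f : Z2 H) : cz (T2 k f) = T2 k (cz f) := by
  rw [T2_apply, T2_apply, cz_iota, star_Tz]

theorem cz_E2 (k : ℝ) (f : Z2 H) : cz (E2 k f) = E2 k (cz f) := by
  rw [E2_apply, E2_apply, cz_iota, star_Ez]

theorem cz_gkE (k : ℝ) : cz (gk k : Z2 H) = gk k := by
  rw [gk, cz_smul, cz_iota, fe_starE, Complex.star_def, Complex.conj_ofReal]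

theorem cz_P2 (k : ℝ) (f : Z2 H) : cz (P2 k f) = P2 k (cz f) := by
  have h1 : ⟪(gk k : Z2 H), cz f⟫_ℂ = star ⟪(gk k : Z2 H), f⟫_ℂ := by
    have := inner_cz (gk k : Z2 H) f
    rw [cz_gkE] at this
    rw [this]
    exact (inner_conj_symm _ _).symm
  rw [P2_apply, P2_apply, h1, sub_eq_add_neg, cz_add, ← neg_one_smul ℂ, cz_smul, cz_smul, cz_gkE]
  simp [sub_eq_add_neg]

theorem Tz_negE (ω : ℝ) (n : ℤ) : (Tz (ω * ((-n : ℤ) : ℝ)) : Z2 H →L[ℂ] CI H) = Tz (ω * n) := by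
  unfold Tz
  have : |ω * ((-n : ℤ) : ℝ)| = |ω * n| := by push_cast; rw [mul_neg, abs_neg]
  rw [this]

theorem Ez_negE (ω : ℝ) (n : ℤ) : (Ez (ω * ((-n : ℤ) : ℝ)) : Z2 H →L[ℂ] CI H) = Ez (ω * n) := by
  unfold Ez
  have : |ω * ((-n : ℤ) : ℝ)| = |ω * n| := by push_cast; rw [mul_neg, abs_neg]
  rw [this]

theorem T2_neg (ω : ℝ) (n : ℤ) : (T2 (ω * ((-n : ℤ) : ℝ)) : Z2 H →L[ℂ] Z2 H) = T2 (ω * n) := by
  unfold T2; rw [Tz_negE]

theorem E2_neg (ω : ℝ) (n : ℤ) : (E2 (ω * ((-n : ℤ) : ℝ)) : Z2 H →L[ℂ] Z2 H) = E2 (ω * n) := by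
  unfold E2; rw [Ez_negE]

theorem P2_neg (ω : ℝ) (n : ℤ) : (P2 (ω * ((-n : ℤ) : ℝ)) : Z2 H →L[ℂ] Z2 H) = P2 (ω * n) := by
  unfold P2 gk
  have : |ω * ((-n : ℤ) : ℝ)| = |ω * n| := by push_cast; rw [mul_neg, abs_neg]
  rw [this]

theorem cj_TT (ω : ℝ) (x : HH H) : cjX (TT ω x) = TT ω (cjX x) :=
  cjX_dg (fun _ => norm_T2_le _) (fun n f => by rw [T2_neg, cz_T2]) x

theorem cj_EE (ω : ℝ) (x : HH H) : cjX (EE ω x) = EE ω (cjX x) :=
  cjX_dg (fun _ => norm_E2_le _) (fun n f => by rw [E2_neg, cz_E2]) x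

theorem cj_PP (ω : ℝ) (x : HH H) : cjX (PP ω x) = PP ω (cjX x) :=
  cjX_dg (fun _ => norm_P2_le _) (fun n f => by rw [P2_neg, cz_P2]) x

theorem cj_DTc (ω : ℝ) (x : HH H) : cjX (DTc ω x) = DTc ω (cjX x) :=
  cjX_dg (norm_DT_fam ω) (fun n f => by
    have e : |ω * ((-n : ℤ) : ℝ)| = |ω * n| := by push_cast; rw [mul_neg, abs_neg]
    rw [smul_apply, smul_apply, T2_neg, cz_smul, cz_T2, Complex.star_def, Complex.conj_ofReal, e]) x

theorem cj_Xz (ω : ℝ) (x : HH H) : cjX (Xz ω x) = Xz ω (cjX x) := by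
  show cjX (DTc ω x - x) = DTc ω (cjX x) - cjX x
  rw [map_sub, cj_DTc]

theorem cj_Xy (ω : ℝ) (x : HH H) : cjX (Xy ω x) = Xy ω (cjX x) :=
  cjX_dg (norm_Xy_fam ω) (fun n f => by
    rw [smul_apply, smul_apply, T2_neg, cz_smul, cz_T2]
    congr 1
    rw [Complex.star_def, map_mul, Complex.conj_I, Complex.conj_ofReal]
    push_cast; ring) x

theorem cj_LT {ω C : ℝ} {lam : ℤ → ℝ} (h : LamOK ω lam C) (hn : ∀ n, lam (-n) = lam n) {s : ℝ}
    (hs : s ≤ 1) (x : HH H) : cjX (LT ω lam s x) = LT ω lam s (cjX x) :=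
  cjX_dg (fun n => h.norm_LT hs n) (fun n f => by
    rw [smul_apply, smul_apply, T2_neg, cz_smul, cz_T2, Complex.star_def, Complex.conj_ofReal, hn]) x

theorem cj_Ms {m : CI H} (mr : star m = m) (x : HH H) : cjX (Ms m x) = Ms m (cjX x) :=
  cjX_dg (fun _ => norm_mz_le m) (fun n f => by rw [cz_mz, mr]) x

theorem cj_cm {a : ℤ → CI H} {p : ℕ} (ha : Cf p a) (x : HH H) : cjX (cm a x) = cm a (cjX x) := by
  ext1; funext n
  rw [cjX_apply]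
  have h1 := cm_hasSum ha.s0 x (-n)
  have h2 := cm_hasSum ha.s0 (cjX x) n
  have h3 : HasSum (fun j => cz (mz (a (-n - j)) (x j))) (cz (cm a x (-n))) := h1.mapL czL
  have h4 := (Equiv.neg ℤ).hasSum_iff.2 h3
  have e : (fun j => cz (mz (a (-n - j)) (x j))) ∘ (Equiv.neg ℤ) =
      fun j => mz (a (n - j)) (cjX x j) := by
    funext j
    show cz (mz (a (-n - -j)) (x (-j))) = _
    rw [cz_mz, cjX_apply, show -n - -j = -(n - j) by ring, ha.re, star_star]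
  rw [e] at h4
  exact h4.unique h2

end

end Pool.Agent.Lib.MP_79abb3_an.SC
end
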