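import Pool.Agent.Lib.MP_79abb3_an.SC.LaSG
import Pool.Agent.Lib.MP_79abb3_an.SC.ExAbs

section

/-!
MP_79abb3_an, Theorem C, block (iv): maximal regularity in `L²` (abstract).
-/

set_option autoImplicit false
set_option linter.unusedSectionVars false

open ContinuousLinearMap Filter Topology MeasureTheory Set
open scoped InnerProductSpace ComplexConjugate Interval

namespace Pool.Agent.Lib.MP_79abb3_an.SC

section MaxReg
variable {X : Type} [NormedAddCommGroup X] [InnerProductSpace ℂ X] [CompleteSpace X]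
variable {K : X →L[ℂ] X}

theorem norm_Sg_sq_deriv (hK : 0 ≤ K) (y : X) {s : ℝ} (hs : 0 < s) :
    HasDerivAt (fun s => -(1 / 2 : ℝ) * ‖Sg K s y‖ ^ 2) (‖HS K s y‖ ^ 2) s := by
  have h1 : HasDerivAt (fun t => Sg K t y) (-(AS K s y)) s :=
    ((ContinuousLinearMap.apply ℂ X y).restrictScalars ℝ).hasFDerivAt.comp_hasDerivAt s
      (Sg_hasDerivAt hK hs)
  have h3 := h1.inner ℂ h1
  have h4 := Complex.reCLM.hasFDerivAt.comp_hasDerivAt s (h3.restrictScalars ℝ)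
  have h5 : (fun t => ‖Sg K t y‖ ^ 2) = fun t => (⟪Sg K t y, Sg K t y⟫_ℂ).re := by
    funext t
    rw [inner_self_eq_norm_sq_to_K]
    norm_cast
  have h6 : HasDerivAt (fun t => ‖Sg K t y‖ ^ 2)
      (⟪Sg K s y, -(AS K s y)⟫_ℂ + ⟪-(AS K s y), Sg K s y⟫_ℂ).re s := by
    rw [h5]; exact h4
  have h7 := h6.const_mul (-(1 / 2 : ℝ))
  have h8 : ⟪Sg K s y, AS K s y⟫_ℂ = ((‖HS K s y‖ ^ 2 : ℝ) : ℂ) := by
    have e1 : ⟪Sg K s y, AS K s y⟫_ℂ = ⟪HS K s y, HS K s y⟫_ℂ := by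
      have e2 : Sg K s y = Kh K (HS K s y) := by rw [← Kh_HS hK hs]; rfl
      have e3 : HS K s y = Kh K (AS K s y) := by rw [← Kh_AS hK hs]; rfl
      rw [e2, Kh_inner, ← e3]
    rw [e1, inner_self_eq_norm_sq_to_K]
    push_cast
    rfl
  have h9 : -(1 / 2 : ℝ) * (⟪Sg K s y, -(AS K s y)⟫_ℂ + ⟪-(AS K s y), Sg K s y⟫_ℂ).re =
      ‖HS K s y‖ ^ 2 := by
    rw [Complex.add_re, inner_neg_right, inner_neg_left, ← inner_conj_symm (AS K s y), h8]
    simp only [Complex.neg_re, Complex.conj_re, Complex.ofReal_re]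
    ring
  rw [← h9]
  exact h7

theorem HS_sq_int (hK : 0 ≤ K) (hi : ∀ x, K x = 0 → x = 0) (y : X) {t : ℝ} (ht : 0 ≤ t) :
    IntervalIntegrable (fun s => ‖HS K s y‖ ^ 2) volume 0 t ∧
      ∫ s in (0:ℝ)..t, ‖HS K s y‖ ^ 2 ≤ 1 / 2 * ‖y‖ ^ 2 := by
  have hc : ContinuousOn (fun s => -(1 / 2 : ℝ) * ‖Sg K s y‖ ^ 2) (Icc 0 t) :=
    (continuous_const.mul ((Sg_continuousOn_apply hK hi y).norm.pow 2)).continuousOn
  have hd : ∀ s ∈ Ioo (0:ℝ) t, HasDerivAt (fun s => -(1 / 2 : ℝ) * ‖Sg K s y‖ ^ 2)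
      (‖HS K s y‖ ^ 2) s := fun s hs => norm_Sg_sq_deriv hK y hs.1
  have hint : IntervalIntegrable (fun s => ‖HS K s y‖ ^ 2) volume 0 t := by
    rw [intervalIntegrable_iff_integrableOn_Ioc_of_le ht]
    exact intervalIntegral.integrableOn_deriv_of_nonneg hc hd fun s _ => by positivity
  refine ⟨hint, ?_⟩
  rw [intervalIntegral.integral_eq_sub_of_hasDerivAt_of_le ht hc hd hint, Sg_zero]
  have : (1 : X →L[ℂ] X) y = y := rfl
  rw [this]
  have := sq_nonneg ‖Sg K t y‖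
  linarith

theorem HS_conv_integrable (hK : 0 ≤ K) {t : ℝ} (ht : 0 ≤ t) {f : ℝ → X}
    (hf : ContinuousOn f (Icc 0 t)) :
    IntervalIntegrable (fun r => HS K (t - r) (f r)) volume 0 t := by
  rw [intervalIntegrable_iff_integrableOn_Ioo_of_le ht]
  obtain ⟨C, hC⟩ := isCompact_Icc.exists_bound_of_continuousOn hf
  have h1 : ContinuousOn (fun r => HS K (t - r) (f r)) (Ioo 0 t) := by
    have h2 : ContinuousOn (fun r => HS K (t - r)) (Ioo 0 t) :=
      (HS_continuousOn hK).comp (by fun_prop) fun r hr => by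
        have := hr.2
        show 0 < t - r
        linarith
    exact h2.clm_apply (hf.mono Ioo_subset_Icc_self)
  have h3 : IntegrableOn (fun r : ℝ => C * (t - r) ^ (-(1 / 2 : ℝ))) (Ioo 0 t) := by
    rw [← intervalIntegrable_iff_integrableOn_Ioo_of_le ht]
    have h4 : IntervalIntegrable (fun r : ℝ => r ^ (-(1 / 2 : ℝ))) volume 0 t :=
      intervalIntegral.intervalIntegrable_rpow' (by norm_num)
    have h5 := (h4.comp_sub_left t).symm
    rw [sub_zero, sub_self] at h5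
    exact (h5.const_mul C)
  refine Integrable.mono' h3 (h1.aestronglyMeasurable measurableSet_Ioo) ?_
  filter_upwards [ae_restrict_mem measurableSet_Ioo] with r hr
  have h6 : 0 < t - r := by linarith [hr.2]
  have h7 := (HS K (t - r)).le_of_opNorm_le (HS_norm hK h6) (f r)
  have h8 : (√(t - r))⁻¹ = (t - r) ^ (-(1 / 2 : ℝ)) := by
    rw [Real.sqrt_eq_rpow, ← Real.rpow_neg h6.le]
  calc ‖HS K (t - r) (f r)‖ ≤ (√(t - r))⁻¹ * ‖f r‖ := h7
    _ ≤ (√(t - r))⁻¹ * C := mul_le_mul_of_nonneg_left (hC r ⟨hr.1.le, hr.2.le⟩) (by positivity)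
    _ = _ := by rw [h8, mul_comm]

/-- Maximal regularity: `|∫₀ᵗ A^{1/2} S(t-r) f(r) dr|² ≤ (1/2) ∫₀ᵗ |f|²`. -/
theorem HS_conv_sq_le (hK : 0 ≤ K) (hi : ∀ x, K x = 0 → x = 0) {t : ℝ} (ht : 0 ≤ t) {f : ℝ → X}
    (hf : ContinuousOn f (Icc 0 t)) :
    ‖∫ r in (0:ℝ)..t, HS K (t - r) (f r)‖ ^ 2 ≤ 1 / 2 * ∫ r in (0:ℝ)..t, ‖f r‖ ^ 2 := by
  set y := ∫ r in (0:ℝ)..t, HS K (t - r) (f r) with hy
  have hint := HS_conv_integrable hK ht hf
  have hfi : IntervalIntegrable (fun r => ‖f r‖ ^ 2) volume 0 t := by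
    refine ContinuousOn.intervalIntegrable ?_
    rw [uIcc_of_le ht]
    exact hf.norm.pow 2
  obtain ⟨hHi, hHle⟩ := HS_sq_int hK hi y ht
  have hHi' : IntervalIntegrable (fun r => ‖HS K (t - r) y‖ ^ 2) volume 0 t := by
    have := (hHi.comp_sub_left t).symm
    rw [sub_zero, sub_self] at this
    exact this
  have hHle' : ∫ r in (0:ℝ)..t, ‖HS K (t - r) y‖ ^ 2 ≤ 1 / 2 * ‖y‖ ^ 2 := by
    have := intervalIntegral.integral_comp_sub_left (a := 0) (b := t)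
      (fun s => ‖HS K s y‖ ^ 2) t
    rw [sub_zero, sub_self] at this
    rw [this]; exact hHle
  have h1 : ⟪y, y⟫_ℂ = ∫ r in (0:ℝ)..t, ⟪y, HS K (t - r) (f r)⟫_ℂ := by
    conv_lhs => rw [hy]
    have := (innerSL ℂ y).intervalIntegral_comp_comm hint
    rw [← hy] at this ⊢
    exact this.symm
  have h2 : ‖y‖ ^ 2 ≤ ∫ r in (0:ℝ)..t, (1 / 4 * ‖f r‖ ^ 2 + ‖HS K (t - r) y‖ ^ 2) := by
    have h3 : ‖y‖ ^ 2 = ‖⟪y, y⟫_ℂ‖ := by
      rw [inner_self_eq_norm_sq_to_K, norm_pow, RCLike.norm_ofReal, abs_of_nonneg (norm_nonneg _)]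
    rw [h3, h1]
    refine (intervalIntegral.norm_integral_le_integral_norm ht).trans ?_
    refine intervalIntegral.integral_mono_on ht ?_ ((hfi.const_mul _).add hHi') fun r _ => ?_
    · exact (intervalIntegrable_iff.2
        ((innerSL ℂ y).integrable_comp (intervalIntegrable_iff.1 hint))).norm
    · rw [← HS_inner]
      refine (norm_inner_le_norm _ _).trans ?_
      nlinarith [sq_nonneg (‖f r‖ / 2 - ‖HS K (t - r) y‖)]
  rw [intervalIntegral.integral_add (hfi.const_mul _) hHi', intervalIntegral.integral_const_mul] at h2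
  linarith

end MaxReg

end Pool.Agent.Lib.MP_79abb3_an.SC
end

section

/-!
MP_79abb3_an, Theorem C, block (iv): the nonlinear control step, abstract version.
-/

set_option autoImplicit false
set_option linter.unusedSectionVars false

open ContinuousLinearMap Filter Topology MeasureTheory Set Function
open scoped InnerProductSpace ComplexConjugate Interval

namespace Pool.Agent.Lib.MP_79abb3_an.SC

/-- Continuity argument. -/
theorem boot_lt {φ : ℝ → ℝ} {a b R : ℝ} (hc : ContinuousOn φ (Icc a b)) (h0 : φ a < R)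
    (step : ∀ t ∈ Icc a b, (∀ s ∈ Icc a t, φ s ≤ R) → φ t < R) : ∀ t ∈ Icc a b, φ t < R := by
  by_contra hcon
  push Not at hcon
  obtain ⟨t1, ht1, hR1⟩ := hcon
  set S : Set ℝ := {t | t ∈ Icc a b ∧ φ t ∈ Ici R} with hS
  have hSc : IsClosed S := hc.preimage_isClosed_of_isClosed isClosed_Icc isClosed_Ici
  have hSne : S.Nonempty := ⟨t1, ht1, hR1⟩
  have hSb : BddBelow S := ⟨a, fun t ht => ht.1.1⟩
  have ht0 : sInf S ∈ S := hSc.csInf_mem hSne hSb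
  set t0 := sInf S with ht0def
  have hlt : ∀ s ∈ Ico a t0, φ s ≤ R := by
    intro s hs
    by_contra hs'
    push Not at hs'
    have : t0 ≤ s := csInf_le hSb ⟨⟨hs.1, hs.2.le.trans ht0.1.2⟩, hs'.le⟩
    linarith [hs.2]
  rcases ht0.1.1.eq_or_lt with h | h
  · have := ht0.2
    rw [← h] at this
    exact absurd h0 (not_lt.2 this)
  have hA : IsClosed {t | t ∈ Icc a b ∧ φ t ∈ Iic R} :=
    hc.preimage_isClosed_of_isClosed isClosed_Icc isClosed_Iic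
  have hsub : Icc a t0 ⊆ {t | t ∈ Icc a b ∧ φ t ∈ Iic R} := by
    rw [← closure_Ico h.ne]
    exact closure_minimal (fun s hs => ⟨⟨hs.1, hs.2.le.trans ht0.1.2⟩, hlt s hs⟩) hA
  exact absurd (step t0 ht0.1 fun s hs => (hsub hs).2) (not_lt.2 ht0.2)

section Abs
variable {X Y : Type} [NormedAddCommGroup X] [NormedSpace ℂ X] [CompleteSpace X]
  [NormedAddCommGroup Y] [NormedSpace ℂ Y]
variable {S : ℝ → (X →L[ℂ] X)} {L : ℝ → (Y →L[ℂ] X)} {C θ : ℝ} {Φ : ℝ → X → Y}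

/-- Global existence for small data. -/
theorem Ker.small (hk : Ker S L C θ) {M a b : ℝ} (hab : a ≤ b) (hΦ : Nl Φ M a b) {x₀ : X}
    {l : ℝ → X} {m B : ℝ} (hm : 0 < m) (hB : 0 ≤ B) (hx₀ : ‖x₀‖ ≤ m)
    (hl : ∀ t ∈ Icc a b, ‖l t‖ ≤ m)
    (hN : ∀ c ∈ Icc a b, ∀ x, Mild S L Φ a c x₀ x → ∀ R, 0 ≤ R → (∀ t ∈ Icc a c, ‖x t‖ ≤ R) →
      ‖x c - l c‖ ≤ B * R ^ 2) (hBm : 8 * B * m ≤ 1) :
    ∃ x, Mild S L Φ a b x₀ x ∧ ∀ t ∈ Icc a b, ‖x t‖ ≤ 2 * m ∧ ‖x t - l t‖ ≤ 4 * B * m ^ 2 := by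
  have key : ∀ c ∈ Icc a b, ∀ x, Mild S L Φ a c x₀ x → ∀ t ∈ Icc a c, ‖x t‖ < 2 * m := by
    intro c hc x hx
    have hstep : ∀ t ∈ Icc a c, (∀ s ∈ Icc a t, ‖x s‖ ≤ 2 * m) → ‖x t‖ < 2 * m := by
      intro t ht hs
      have h1 := hN t ⟨ht.1, ht.2.trans hc.2⟩ x (hx.restrict ht.2) (2 * m) (by positivity) hs
      have h2 := hl t ⟨ht.1, ht.2.trans hc.2⟩
      have h3 : ‖x t‖ ≤ ‖x t - l t‖ + ‖l t‖ := by
        have := norm_add_le (x t - l t) (l t)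
        simpa using this
      nlinarith
    have h0 : ‖x a‖ < 2 * m := by
      rw [hx.init hk hc.1]
      linarith
    exact boot_lt hx.cont.norm h0 hstep
  obtain ⟨x, hx⟩ := hk.global (R := 2 * m) hab hΦ x₀ fun c hc x hx =>
    (key c hc x hx c ⟨hc.1, le_rfl⟩).le
  refine ⟨x, hx, fun t ht => ⟨(key b ⟨hab, le_rfl⟩ x hx t ht).le, ?_⟩⟩
  have h1 := hN t ht x (hx.restrict ht.2) (2 * m) (by positivity) fun s hs =>
    (key b ⟨hab, le_rfl⟩ x hx s ⟨hs.1, hs.2.trans ht.2⟩).le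
  calc ‖x t - l t‖ ≤ B * (2 * m) ^ 2 := h1
    _ = 4 * B * m ^ 2 := by ring

/-- Reality of mild solutions. -/
theorem Mild.real (hk : Ker S L C θ) {M a b : ℝ} (hΦ : Nl Φ M a b) {x₀ : X} {x : ℝ → X}
    (hx : Mild S L Φ a b x₀ x) (J : X →L[ℝ] X) (J' : Y →L[ℝ] Y)
    (hJS : ∀ t, 0 ≤ t → ∀ x, J (S t x) = S t (J x)) (hJL : ∀ t, 0 < t → ∀ y, J (L t y) = L t (J' y))
    (hJΦ : ∀ t ∈ Icc a b, ∀ x, J' (Φ t x) = Φ t (J x)) (h0 : J x₀ = x₀) :
    ∀ t ∈ Icc a b, J (x t) = x t := by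
  have hJ : Mild S L Φ a b x₀ fun t => J (x t) := by
    refine ⟨J.continuous.comp_continuousOn hx.cont, fun t ht => ?_⟩
    rw [hx.eq t ht, map_add, hJS _ (sub_nonneg.2 ht.1), h0]
    congr 1
    have hint := hk.int_aux (hΦ.cont_comp hx.cont) ht (c := a) ⟨le_rfl, ht.1⟩
    rw [← J.intervalIntegral_comp_comm hint]
    refine intervalIntegral.integral_congr_ae ?_
    have : ∀ᵐ r : ℝ ∂volume, r ≠ t := by
      simp [ae_iff, measure_singleton]
    filter_upwards [this] with r hrt hr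
    rw [uIoc_of_le ht.1] at hr
    have h3 : 0 < t - r := sub_pos.2 (lt_of_le_of_ne hr.2 hrt)
    rw [hJL _ h3, hJΦ r ⟨hr.1.le, hr.2.trans ht.2⟩]
  intro t ht
  exact hJ.unique hk hΦ hx t ht

end Abs

/-! ### The control system -/

section Nc
variable {X Y : Type} [NormedAddCommGroup X] [InnerProductSpace ℂ X] [CompleteSpace X]
  [NormedAddCommGroup Y] [NormedSpace ℂ Y]

/-- The kernels of the controlled system: sources `(y, f)`, `y` through `J3`, `f` (in the space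
of the physical variable) through `K^{1/2}`. -/
noncomputable def Lc (K : X →L[ℂ] X) (J3 : Y →L[ℂ] X) (τ : ℝ) : Y × X →L[ℂ] X :=
  (AS K τ).comp (J3.coprod (Kh K))

/-- The nonlinearity `(N(x,x), f(t))`. -/
noncomputable def Pc (N : X →L[ℂ] X →L[ℂ] Y) (f : ℝ → X) (t : ℝ) (x : X) : Y × X := (N x x, f t)

variable {K : X →L[ℂ] X} {J3 : Y →L[ℂ] X} {N : X →L[ℂ] X →L[ℂ] Y} {f : ℝ → X} {CL θ : ℝ}

theorem Pc_nl (N : X →L[ℂ] X →L[ℂ] Y) {f : ℝ → X} (hf : Continuous f) (a b : ℝ) :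
    ∃ M, Nl (Pc N f) M a b := by
  obtain ⟨R, hR⟩ := isCompact_Icc.exists_bound_of_continuousOn (hf.continuousOn (s := Icc a b))
  refine ⟨‖N‖ + |R|, ⟨by positivity, fun x => ?_, fun t ht x y => ?_, fun t ht => ?_⟩⟩
  · exact (continuous_const.prodMk hf).continuousOn
  · have h1 : Pc N f t x - Pc N f t y = (N (x - y) x + N y (x - y), 0) := by
      simp [Pc, map_sub]
    rw [h1, Prod.norm_mk, norm_zero, max_eq_left (norm_nonneg _)]
    have h2 := N.le_opNorm₂ (x - y) x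
    have h3 := N.le_opNorm₂ y (x - y)
    have h4 : ‖N (x - y) x + N y (x - y)‖ ≤ ‖N‖ * (‖x‖ + ‖y‖) * ‖x - y‖ := by
      refine (norm_add_le _ _).trans ?_
      nlinarith
    refine h4.trans ?_
    have h5 : ‖N‖ * (‖x‖ + ‖y‖) ≤ (‖N‖ + |R|) * (1 + ‖x‖ + ‖y‖) := by
      have := norm_nonneg N
      have := norm_nonneg x
      have := norm_nonneg y
      have := abs_nonneg R
      nlinarith [mul_nonneg (abs_nonneg R) (norm_nonneg x), mul_nonneg (abs_nonneg R) (norm_nonneg y)]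
    exact mul_le_mul_of_nonneg_right h5 (norm_nonneg _)
  · have h1 : Pc N f t 0 = (0, f t) := by simp [Pc]
    rw [h1, Prod.norm_mk, norm_zero, max_eq_right (norm_nonneg _)]
    exact ((hR t ht).trans (le_abs_self R)).trans (by linarith [norm_nonneg N])

/-- The linear part of the controlled system. -/
noncomputable def lc (K : X →L[ℂ] X) (f : ℝ → X) (x₀ : X) (t : ℝ) : X :=
  Sg K t x₀ + ∫ r in (0:ℝ)..t, HS K (t - r) (f r)

theorem Lc_apply (hK : 0 ≤ K) {τ : ℝ} (hτ : 0 < τ) (y : Y) (u : X) :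
    Lc K J3 τ (y, u) = Lc K J3 τ (y, 0) + HS K τ u := by
  have h1 : Lc K J3 τ (y, u) = AS K τ (J3 y + Kh K u) := rfl
  have h2 : Lc K J3 τ (y, 0) = AS K τ (J3 y + Kh K 0) := rfl
  rw [h1, h2, map_zero, add_zero, map_add, AS_Kh hK hτ]

/-- The nonlinear part is quadratic. -/
theorem Mild.sub_lc (hK : 0 ≤ K) (hk : Ker (Sg K) (Lc K J3) CL θ) (hf : Continuous f) {c : ℝ}
    (hc : 0 ≤ c) (hc1 : c ≤ 1) {x₀ : X} {x : ℝ → X} (hx : Mild (Sg K) (Lc K J3) (Pc N f) 0 c x₀ x)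
    {R : ℝ} (hR0 : 0 ≤ R) (hR : ∀ t ∈ Icc 0 c, ‖x t‖ ≤ R) :
    ‖x c - lc K f x₀ c‖ ≤ CL * ‖N‖ * (∫ τ in (0:ℝ)..1, kth θ τ) * R ^ 2 := by
  have hcN : ContinuousOn (fun r => ((N (x r) (x r), 0) : Y × X)) (Icc 0 c) := by
    have h1 : ContinuousOn (fun r => N (x r) (x r)) (Icc 0 c) :=
      (N.continuous.comp_continuousOn hx.cont).clm_apply hx.cont
    exact h1.prodMk continuousOn_const
  have hmem : c ∈ Icc (0:ℝ) c := ⟨hc, le_rfl⟩
  have hi1 := hk.int_aux hcN hmem (c := 0) ⟨le_rfl, hc⟩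
  have hi2 := HS_conv_integrable hK hc (hf.continuousOn (s := Icc 0 c))
  have e1 : x c - lc K f x₀ c = ∫ r in (0:ℝ)..c, Lc K J3 (c - r) (N (x r) (x r), 0) := by
    rw [hx.eq c hmem, lc, sub_zero]
    have e2 : ∫ r in (0:ℝ)..c, Lc K J3 (c - r) (Pc N f r (x r)) =
        (∫ r in (0:ℝ)..c, Lc K J3 (c - r) (N (x r) (x r), 0)) +
          ∫ r in (0:ℝ)..c, HS K (c - r) (f r) := by
      rw [← intervalIntegral.integral_add hi1 hi2]
      refine intervalIntegral.integral_congr_ae ?_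
      have : ∀ᵐ r : ℝ ∂volume, r ≠ c := by
        simp [ae_iff, measure_singleton]
      filter_upwards [this] with r hrt hr
      rw [uIoc_of_le hc] at hr
      have h3 : 0 < c - r := sub_pos.2 (lt_of_le_of_ne hr.2 hrt)
      exact Lc_apply hK h3 _ _
    rw [e2]
    abel
  rw [e1]
  have h1 := hk.duh_norm_le hcN hmem (c := 0) ⟨le_rfl, hc⟩ (R := ‖N‖ * R ^ 2) (fun r hr => by
    rw [Prod.norm_mk, norm_zero, max_eq_left (norm_nonneg _)]
    refine (N.le_opNorm₂ _ _).trans ?_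
    have := hR r hr
    have := norm_nonneg (x r)
    have := norm_nonneg N
    calc ‖N‖ * ‖x r‖ * ‖x r‖ ≤ ‖N‖ * R * R := by gcongr
      _ = ‖N‖ * R ^ 2 := by ring)
  refine h1.trans ?_
  rw [sub_zero]
  have hC := hk.C0
  have h2 : ∫ τ in (0:ℝ)..c, kth θ τ ≤ ∫ τ in (0:ℝ)..1, kth θ τ := by
    refine intervalIntegral.integral_mono_interval le_rfl hc hc1 ?_ (kth_int hk.th1 _ _)
    filter_upwards [ae_restrict_mem measurableSet_Ioc] with τ hτ
    exact kth_nonneg θ hτ.1.le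
  have h3 : 0 ≤ CL * (‖N‖ * R ^ 2) := by positivity
  calc CL * (‖N‖ * R ^ 2) * ∫ τ in (0:ℝ)..c, kth θ τ
      ≤ CL * (‖N‖ * R ^ 2) * ∫ τ in (0:ℝ)..1, kth θ τ := mul_le_mul_of_nonneg_left h2 h3
    _ = _ := by ring

end Nc

end Pool.Agent.Lib.MP_79abb3_an.SC
end
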