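import Pool.Agent.Lib.MP_79abb3_an.SC.PieceDef

/-!
Theorem C: gluing of pieces.
-/

set_option autoImplicit false

open MeasureTheory Set Filter Topology Function

namespace Pool.Agent.Lib.MP_79abb3_an.SC

theorem gy_zero_of {g : ℝ × ℝ → ℝ} {q : ℝ × ℝ} (h : q ∉ tsupport g) : gy g q = 0 := by
  have : g =ᶠ[𝓝 q] fun _ => 0 := notMem_tsupport_iff_eventuallyEq.1 h
  rw [gy, this.fderiv_eq]
  simp

theorem gz_zero_of {g : ℝ × ℝ → ℝ} {q : ℝ × ℝ} (h : q ∉ tsupport g) : gz g q = 0 := by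
  have : g =ᶠ[𝓝 q] fun _ => 0 := notMem_tsupport_iff_eventuallyEq.1 h
  rw [gz, this.fderiv_eq]
  simp

theorem tsupport_gy (g : ℝ × ℝ → ℝ) : tsupport (gy g) ⊆ tsupport g :=
  closure_minimal (fun _ hq => by_contra fun h => hq (gy_zero_of h)) (isClosed_tsupport g)

theorem tsupport_gz (g : ℝ × ℝ → ℝ) : tsupport (gz g) ⊆ tsupport g :=
  closure_minimal (fun _ hq => by_contra fun h => hq (gz_zero_of h)) (isClosed_tsupport g)

theorem tsupport_lapg (g : ℝ × ℝ → ℝ) : tsupport (lapg g) ⊆ tsupport g := by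
  refine closure_minimal (fun q hq => by_contra fun h => hq ?_) (isClosed_tsupport g)
  rw [lapg, gy_zero_of (fun h' => h (tsupport_gy g h')), gz_zero_of (fun h' => h (tsupport_gz g h')),
    add_zero]

theorem tsupport_mul_r (a g : ℝ × ℝ → ℝ) : tsupport (fun p => a p * g p) ⊆ tsupport g :=
  tsupport_mul_subset_right

section
variable {H h : ℝ} {a : ℝ × ℝ → ℝ} {t₀ t₁ t₂ : ℝ} {v w v' w' : ℝ → ℝ × ℝ → ℝ}

theorem mG_congr {g : ℝ × ℝ → ℝ} (hg : IsTg H h g) {v w v' w' : ℝ × ℝ → ℝ}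
    (hv : ∀ q : ℝ × ℝ, q.2 ∈ Icc 0 h → v q = v' q) (hw : ∀ q : ℝ × ℝ, q.2 ∈ Icc 0 h → w q = w' q) :
    mG g v w = mG g v' w' := by
  rw [mG, mG]
  congr 1
  ext q
  by_cases hq : q ∈ tsupport g
  · have := (hg.supp hq).2
    rw [hv q ⟨this.1.le, this.2.le⟩, hw q ⟨this.1.le, this.2.le⟩]
  · rw [gy_zero_of hq, gz_zero_of hq]
    ring

theorem lG_congr {g : ℝ × ℝ → ℝ} (hg : IsTg H h g) {v w v' w' : ℝ × ℝ → ℝ}
    (hv : ∀ q : ℝ × ℝ, q.2 ∈ Icc 0 h → v q = v' q) (hw : ∀ q : ℝ × ℝ, q.2 ∈ Icc 0 h → w q = w' q) :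
    lG a g v w = lG a g v' w' := by
  rw [lG, lG]
  congr 1
  ext q
  by_cases hq : q ∈ tsupport g
  · have := (hg.supp hq).2
    rw [hv q ⟨this.1.le, this.2.le⟩, hw q ⟨this.1.le, this.2.le⟩]
  · have e1 : q ∉ tsupport fun p => a p * lapg g p := fun h1 =>
      hq (tsupport_lapg g (tsupport_mul_r a _ h1))
    have e2 : q ∉ tsupport fun p => a p * gy g p := fun h1 => hq (tsupport_gy g (tsupport_mul_r a _ h1))
    have e3 : q ∉ tsupport fun p => a p * gz g p := fun h1 => hq (tsupport_gz g (tsupport_mul_r a _ h1))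
    rw [gz_zero_of e1, gy_zero_of e1, gz_zero_of e2, gy_zero_of e2, gz_zero_of e3, gy_zero_of e3]
    ring

theorem int_congr_test {φ f f' χ : ℝ × ℝ → ℝ} (hφ : IsTg H h φ) (hχ : tsupport χ ⊆ tsupport φ)
    (hf : ∀ q : ℝ × ℝ, q.2 ∈ Icc 0 h → f q = f' q) : (fun q => f q * χ q) = fun q => f' q * χ q := by
  ext q
  by_cases hq : q ∈ tsupport χ
  · have := (hφ.supp (hχ hq)).2
    rw [hf q ⟨this.1.le, this.2.le⟩]
  · rw [image_eq_zero_of_notMem_tsupport hq, mul_zero, mul_zero]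

theorem Piece.congr (P : Piece H h a t₀ t₁ v w)
    (hv : ∀ t ∈ Icc t₀ t₁, ∀ q : ℝ × ℝ, q.2 ∈ Icc 0 h → v' t q = v t q)
    (hw : ∀ t ∈ Icc t₀ t₁, ∀ q : ℝ × ℝ, q.2 ∈ Icc 0 h → w' t q = w t q) :
    Piece H h a t₀ t₁ v' w' where
  cont₁ := P.cont₁.congr fun q hq => hv q.1 hq.1 q.2 hq.2.2
  cont₂ := P.cont₂.congr fun q hq => hw q.1 hq.1 q.2 hq.2.2
  h1 := by
    obtain ⟨C, hC⟩ := P.h1
    refine ⟨C, fun t ht φ hφ => ?_⟩
    rw [int_congr_test hφ (tsupport_gy φ) (hv t ht), int_congr_test hφ (tsupport_gz φ) (hv t ht),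
      int_congr_test hφ (tsupport_gy φ) (hw t ht), int_congr_test hφ (tsupport_gz φ) (hw t ht)]
    exact hC t ht φ hφ
  div := by
    intro t ht φ hφ
    have e1 := int_congr_test hφ (tsupport_gy φ) (hv t ht)
    have e2 := int_congr_test hφ (tsupport_gz φ) (hw t ht)
    have : (fun q => v' t q * gy φ q + w' t q * gz φ q) = fun q => v t q * gy φ q + w t q * gz φ q := by
      ext q
      rw [congrFun e1 q, congrFun e2 q]
    rw [this]
    exact P.div t ht φ hφ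
  ns := by
    intro g hg s₁ h₁ s₂ h₂
    rw [mG_congr hg (hv s₂ h₂) (hw s₂ h₂), mG_congr hg (hv s₁ h₁) (hw s₁ h₁), P.ns g hg s₁ h₁ s₂ h₂]
    refine intervalIntegral.integral_congr fun t ht => ?_
    have ht' : t ∈ Icc t₀ t₁ := by
      rw [uIcc, mem_Icc] at ht
      exact ⟨(le_min h₁.1 h₂.1).trans ht.1, ht.2.trans (max_le h₁.2 h₂.2)⟩
    exact (lG_congr hg (hv t ht') (hw t ht')).symm

/-- `t ↦ lG` is continuous along a piece. -/
theorem Piece.join (P : Piece H h a t₀ t₁ v w) (P' : Piece H h a t₁ t₂ v w) (h01 : t₀ ≤ t₁)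
    (h12 : t₁ ≤ t₂)
    (hI : ∀ g, IsTg H h g → IntervalIntegrable (fun t => lG a g (v t) (w t)) volume t₀ t₁)
    (hI' : ∀ g, IsTg H h g → IntervalIntegrable (fun t => lG a g (v t) (w t)) volume t₁ t₂) :
    Piece H h a t₀ t₂ v w := by
  have hU : Icc t₀ t₂ = Icc t₀ t₁ ∪ Icc t₁ t₂ := (Icc_union_Icc_eq_Icc h01 h12).symm
  have hcase : ∀ t ∈ Icc t₀ t₂, t ∈ Icc t₀ t₁ ∨ t ∈ Icc t₁ t₂ := fun t ht => by rwa [hU] at ht
  constructor
  · rw [hU, union_prod]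
    exact P.cont₁.union_of_isClosed P'.cont₁ (isClosed_Icc.prod (isClosed_univ.prod isClosed_Icc))
      (isClosed_Icc.prod (isClosed_univ.prod isClosed_Icc))
  · rw [hU, union_prod]
    exact P.cont₂.union_of_isClosed P'.cont₂ (isClosed_Icc.prod (isClosed_univ.prod isClosed_Icc))
      (isClosed_Icc.prod (isClosed_univ.prod isClosed_Icc))
  · obtain ⟨C, hC⟩ := P.h1
    obtain ⟨C', hC'⟩ := P'.h1
    refine ⟨max C C', fun t ht φ hφ => ?_⟩
    have hle : C * √(∫ q, φ q ^ 2) ≤ max C C' * √(∫ q, φ q ^ 2) := by gcongr; exact le_max_left _ _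
    have hle' : C' * √(∫ q, φ q ^ 2) ≤ max C C' * √(∫ q, φ q ^ 2) := by gcongr; exact le_max_right _ _
    rcases hcase t ht with h | h
    · obtain ⟨a1, a2, a3, a4⟩ := hC t h φ hφ
      exact ⟨a1.trans hle, a2.trans hle, a3.trans hle, a4.trans hle⟩
    · obtain ⟨a1, a2, a3, a4⟩ := hC' t h φ hφ
      exact ⟨a1.trans hle', a2.trans hle', a3.trans hle', a4.trans hle'⟩
  · intro t ht φ hφ
    rcases hcase t ht with h | h
    · exact P.div t h φ hφ
    · exact P'.div t h φ hφ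
  · intro g hg
    have key : ∀ s ∈ Icc t₀ t₂, mG g (v s) (w s) - mG g (v t₁) (w t₁) =
        ∫ t in t₁..s, lG a g (v t) (w t) := by
      intro s hs
      rcases hcase s hs with h | h
      · exact P.ns g hg t₁ ⟨h01, le_rfl⟩ s h
      · exact P'.ns g hg t₁ ⟨le_rfl, h12⟩ s h
    have hint : ∀ s ∈ Icc t₀ t₂, IntervalIntegrable (fun t => lG a g (v t) (w t)) volume t₁ s := by
      intro s hs
      rcases hcase s hs with h | h
      · exact (hI g hg).symm.mono_set (by rw [uIcc_of_ge h.2, uIcc_of_ge h01]; exact Icc_subset_Icc_left h.1)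
      · exact (hI' g hg).mono_set (by rw [uIcc_of_le h.1, uIcc_of_le h12]; exact Icc_subset_Icc_right h.2)
    intro s₁ h₁ s₂ h₂
    have e1 := key s₁ h₁
    have e2 := key s₂ h₂
    rw [← intervalIntegral.integral_interval_sub_left (hint s₂ h₂) (hint s₁ h₁), ← e1, ← e2]
    ring

end

end Pool.Agent.Lib.MP_79abb3_an.SC
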