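import Pool.Agent.Lib.MP_79abb3_an.SC.ChPb
import Pool.Agent.Lib.MP_79abb3_an.SC.PieceGlue

/-!
Theorem C (MP_79abb3_an), block (v): change of variables, the pull back identities at a fixed time.
-/

set_option autoImplicit false
set_option linter.unusedSectionVars false

open MeasureTheory Set Filter Topology Function
open scoped RealInnerProductSpace ComplexConjugate

namespace Pool.Agent.Lib.MP_79abb3_an.SC

theorem det_mul_c (c : ℂ) : (ContinuousLinearMap.mul ℝ ℂ c).det = ‖c‖ ^ 2 := by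
  have h1 : ((ContinuousLinearMap.mul ℝ ℂ c : ℂ →L[ℝ] ℂ) : ℂ →ₗ[ℝ] ℂ) = LinearMap.mul ℝ ℂ c := by
    ext; simp
  have h2 : Algebra.norm ℝ c = LinearMap.det (LinearMap.mul ℝ ℂ c) := rfl
  rw [ContinuousLinearMap.det, h1, ← h2, Algebra.norm_complex_apply, Complex.normSq_eq_norm_sq]

theorem integral_cxp (f : ℂ → ℝ) : ∫ x, f x = ∫ q : ℝ × ℝ, f (cxp q) := by
  have h := (Complex.volume_preserving_equiv_real_prod.symm).integral_comp
    (Complex.measurableEquivRealProd.symm.measurableEmbedding) f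
  rw [← h]
  rfl

section
variable {F : ℂ → ℂ} {O Ω Γ : Set ℂ} {r : ℝ}

open Classical in
theorem IsChart.integral (hC : IsChart F O Ω Γ r) (f : ℂ → ℝ) (hf : ∀ x, x ∉ Ω → f x = 0) :
    ∫ x, f x = ∫ q : ℝ × ℝ, (if cxp q ∈ O then ‖dF F (cxp q)‖ ^ 2 * f (F (cxp q)) else 0) := by
  have h1 : ∫ x, f x = ∫ x in Ω, f x := (setIntegral_eq_integral_of_forall_compl_eq_zero hf).symm
  have h2 : ∫ x in F '' O, f x = ∫ x in O, |(ContinuousLinearMap.mul ℝ ℂ (dF F x)).det| • f (F x) :=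
    integral_image_eq_integral_abs_det_fderiv_smul volume hC.op.measurableSet
      (fun ζ hζ => (hC.hasFDerivAt (subset_closure hζ)).hasFDerivWithinAt)
      (hC.inj.mono subset_closure) f
  rw [h1, hC.img, h2, ← integral_indicator hC.op.measurableSet, integral_cxp]
  congr 1
  funext q
  by_cases hq : cxp q ∈ O
  · rw [indicator_of_mem hq, if_pos hq, det_mul_c, abs_of_nonneg (by positivity), smul_eq_mul]
  · rw [indicator_of_notMem hq, if_neg hq]

/-- Set integrals of nonnegative functions: bounds for the norms. -/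
theorem IsChart.setIntegral (hC : IsChart F O Ω Γ r) (f : ℂ → ℝ) :
    ∫ x in Ω, f x = ∫ q in {q : ℝ × ℝ | cxp q ∈ O}, ‖dF F (cxp q)‖ ^ 2 * f (F (cxp q)) := by
  classical
  have hO : MeasurableSet {q : ℝ × ℝ | cxp q ∈ O} := (hC.op.preimage cxp_cont).measurableSet
  have h1 := hC.integral (Ω.indicator f) fun x hx => indicator_of_notMem hx f
  rw [integral_indicator hC.measurableSet] at h1
  rw [h1, ← integral_indicator hO]
  congr 1
  funext q
  by_cases hq : cxp q ∈ O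
  · have hq' : F (cxp q) ∈ Ω := (hC.mem_iff (subset_closure hq)).2 hq
    rw [indicator_of_mem (show q ∈ {q : ℝ × ℝ | cxp q ∈ O} from hq), if_pos hq, indicator_of_mem hq']
  · rw [indicator_of_notMem (show q ∉ {q : ℝ × ℝ | cxp q ∈ O} from hq), if_neg hq]

/-- `⟪A / conj c, B⟫ |c|² = ⟪A, conj c B⟫`. -/
theorem inner_key {u A B c : ℂ} (hu : conj c * u = A) : ‖c‖ ^ 2 * ⟪u, B⟫ = ⟪A, conj c * B⟫ := by
  rw [← hu, Complex.inner, Complex.inner, ← Complex.normSq_eq_norm_sq, Complex.normSq_apply]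
  simp only [Complex.mul_re, Complex.mul_im, Complex.conj_re, Complex.conj_im, map_mul,
    Complex.conj_conj]
  ring

/-- The momentum term. -/
theorem IsChart.mG_eq (hC : IsChart F O Ω Γ r) {φ u : ℂ → ℂ} {g v w : ℝ × ℝ → ℝ}
    (hφ : ∀ x, x ∉ Ω → φ x = 0) (hu : ∀ q, cxp q ∈ O → conj (dF F (cxp q)) * u (F (cxp q)) = ⟨v q, w q⟩)
    (hg : ∀ q, cxp q ∈ O → (⟨gz g q, -gy g q⟩ : ℂ) = conj (dF F (cxp q)) * φ (F (cxp q)))
    (hg0 : ∀ q, cxp q ∉ O → gz g q = 0 ∧ gy g q = 0) :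
    mG g v w = ∫ x, ⟪u x, φ x⟫ := by
  rw [hC.integral (fun x => ⟪u x, φ x⟫) fun x hx => by rw [hφ x hx, inner_zero_right], mG]
  congr 1
  funext q
  by_cases hq : cxp q ∈ O
  · rw [if_pos hq, inner_key (hu q hq), ← hg q hq, Complex.inner]
    simp
    ring
  · rw [if_neg hq, (hg0 q hq).1, (hg0 q hq).2]
    ring

/-- The algebraic identity behind the convective term. -/
theorem conv_alg {c A u p1 p2 : ℂ} (hc : c ≠ 0) (hu : conj c * u = A) (hdiv : p1.re + p2.im = 0) :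
    ‖c‖ ^ 2 * ⟪u, (u.re : ℂ) * p1 + (u.im : ℂ) * p2⟫ =
      A.re * A.im * (((-c.im : ℝ) * p1 + (c.re : ℝ) * p2 - Complex.I * ((c.re : ℝ) * p1 + (c.im : ℝ) * p2)) / c).re -
      (A.im ^ 2 - A.re ^ 2) / 2 * (((c.re : ℝ) * p1 + (c.im : ℝ) * p2 +
        Complex.I * ((-c.im : ℝ) * p1 + (c.re : ℝ) * p2)) / c).re := by
  have hn : Complex.normSq c ≠ 0 := by rwa [Ne, Complex.normSq_eq_zero]
  have hp : p2.im = -p1.re := by linarith
  rw [← hu, Complex.inner, ← Complex.normSq_eq_norm_sq, Complex.div_re, Complex.div_re]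
  field_simp
  rw [Complex.normSq_apply]
  simp only [Complex.mul_re, Complex.mul_im, Complex.conj_re, Complex.conj_im, Complex.add_re,
    Complex.add_im, Complex.sub_re, Complex.sub_im, Complex.ofReal_re, Complex.ofReal_im,
    Complex.I_re, Complex.I_im, hp]
  ring

end

end Pool.Agent.Lib.MP_79abb3_an.SC
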