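import Pool.Agent.Lib.MP_79abb3_an.SC.LaE
import Pool.Agent.Lib.MP_79abb3_an.SC.LaOp

/-!
MP_79abb3_an, Theorem C, base file F: the operators on `HH H` (`TT`, `EE`, `PP`, weights `wd`,
weighted convolutions `cv`, multiplication `cm`), and the instances of the abstract structure `OD`.
-/

set_option autoImplicit false
set_option linter.unusedSectionVars false

open MeasureTheory Set Filter Topology Function
open scoped ENNReal InnerProductSpace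

namespace Pool.Agent.Lib.MP_79abb3_an.SC

open Pool.Agent.Lib.MP_79abb3_an.P25

section
variable {H : ℝ} [hH : Fact (0 < H)]

/-! ### Diagonal operators -/

/-- `T` on `HH` -/
noncomputable def TT (ω : ℝ) : HH H →L[ℂ] HH H := dg fun n : ℤ => T2 (ω * n)

/-- `E` on `HH` -/
noncomputable def EE (ω : ℝ) : HH H →L[ℂ] HH H := dg fun n : ℤ => E2 (ω * n)

/-- The projection onto `{g : (T g)(0) = 0}`. -/
noncomputable def PP (ω : ℝ) : HH H →L[ℂ] HH H := dg fun n : ℤ => P2 (ω * n)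

/-- Multiplication of the modes by real numbers (zero if unbounded). -/
noncomputable def wd (w : ℤ → ℝ) : HH H →L[ℂ] HH H :=
  dg fun n : ℤ => ((w n : ℝ) : ℂ) • ContinuousLinearMap.id ℂ (Z2 H)

theorem TT_apply (ω : ℝ) (x : HH H) (n : ℤ) : TT ω x n = T2 (ω * n) (x n) :=
  dg_apply (fun _ => norm_T2_le _) x n

theorem EE_apply (ω : ℝ) (x : HH H) (n : ℤ) : EE ω x n = E2 (ω * n) (x n) :=
  dg_apply (fun _ => norm_E2_le _) x n

theorem PP_apply (ω : ℝ) (x : HH H) (n : ℤ) : PP ω x n = P2 (ω * n) (x n) :=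
  dg_apply (fun _ => norm_P2_le _) x n

theorem norm_star_ci (f : CI H) : ‖star f‖ = ‖f‖ := by
  have key : ∀ g : CI H, ‖star g‖ ≤ ‖g‖ := fun g =>
    ci_norm_le (norm_nonneg _) fun z _ => by
      rw [ex_star, norm_star]
      exact norm_ex_le g z
  refine le_antisymm (key f) ?_
  have := key (star f)
  rwa [star_star] at this

theorem norm_wd_fam {w : ℤ → ℝ} {C : ℝ} (hw : ∀ n, |w n| ≤ C) (n : ℤ) :
    ‖((w n : ℝ) : ℂ) • ContinuousLinearMap.id ℂ (Z2 H)‖ ≤ C := by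
  rw [norm_smul, Complex.norm_real, Real.norm_eq_abs]
  calc |w n| * ‖ContinuousLinearMap.id ℂ (Z2 H)‖ ≤ |w n| * 1 := by
        gcongr
        exact ContinuousLinearMap.norm_id_le
    _ ≤ C := by rw [mul_one]; exact hw n

theorem wd_apply {w : ℤ → ℝ} {C : ℝ} (hw : ∀ n, |w n| ≤ C) (x : HH H) (n : ℤ) :
    wd w x n = ((w n : ℝ) : ℂ) • x n :=
  dg_apply (fun n => norm_wd_fam hw n) x n

theorem norm_wd_le {w : ℤ → ℝ} {C : ℝ} (hw : ∀ n, |w n| ≤ C) : ‖(wd w : HH H →L[ℂ] HH H)‖ ≤ C :=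
  norm_dg_le (fun n => norm_wd_fam hw n)

theorem inner_TT (ω : ℝ) (x y : HH H) : ⟪TT ω x, y⟫_ℂ = ⟪x, EE ω y⟫_ℂ :=
  inner_dg (fun _ => norm_T2_le _) (fun _ => norm_E2_le _) (fun _ f g => inner_T2 _ f g) x y

theorem inner_PP (ω : ℝ) (x y : HH H) : ⟪PP ω x, y⟫_ℂ = ⟪x, PP ω y⟫_ℂ :=
  inner_dg (fun _ => norm_P2_le _) (fun _ => norm_P2_le _) (fun _ f g => inner_P2 _ f g) x y

theorem inner_wd {w : ℤ → ℝ} {C : ℝ} (hw : ∀ n, |w n| ≤ C) (x y : HH H) :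
    ⟪wd w x, y⟫_ℂ = ⟪x, wd w y⟫_ℂ := by
  refine inner_dg (fun n => norm_wd_fam hw n) (fun n => norm_wd_fam hw n) (fun n f g => ?_) x y
  show ⟪((w n : ℝ) : ℂ) • f, g⟫_ℂ = ⟪f, ((w n : ℝ) : ℂ) • g⟫_ℂ
  rw [inner_smul_left, inner_smul_right, Complex.conj_ofReal]

theorem PP_PP (ω : ℝ) (x : HH H) : PP ω (PP ω x) = PP ω x := by
  ext1
  funext n
  rw [PP_apply, PP_apply, P2_P2]

theorem TT_injective (ω : ℝ) (x : HH H) (h : TT ω x = 0) : x = 0 := by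
  ext1
  funext n
  have h1 : TT ω x n = 0 := by rw [h]; rfl
  rw [TT_apply] at h1
  exact T2_injective _ h1

theorem PPEE_injective (ω : ℝ) (x : HH H) (h : PP ω (EE ω x) = 0) : x = 0 := by
  ext1
  funext n
  have h1 : PP ω (EE ω x) n = 0 := by rw [h]; rfl
  rw [PP_apply, EE_apply] at h1
  exact PE2_injective _ h1

theorem wd_TT {w : ℤ → ℝ} {C : ℝ} (hw : ∀ n, |w n| ≤ C) (ω : ℝ) (x : HH H) :
    wd w (TT ω x) = TT ω (wd w x) := by
  ext1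
  funext n
  rw [wd_apply hw, TT_apply, TT_apply, wd_apply hw, map_smul]

theorem wd_EE {w : ℤ → ℝ} {C : ℝ} (hw : ∀ n, |w n| ≤ C) (ω : ℝ) (x : HH H) :
    wd w (EE ω x) = EE ω (wd w x) := by
  ext1
  funext n
  rw [wd_apply hw, EE_apply, EE_apply, wd_apply hw, map_smul]

theorem wd_PP {w : ℤ → ℝ} {C : ℝ} (hw : ∀ n, |w n| ≤ C) (ω : ℝ) (x : HH H) :
    wd w (PP ω x) = PP ω (wd w x) := by
  ext1
  funext n
  rw [wd_apply hw, PP_apply, PP_apply, wd_apply hw, map_smul]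

theorem wd_wd {w v : ℤ → ℝ} {C C' : ℝ} (hw : ∀ n, |w n| ≤ C) (hv : ∀ n, |v n| ≤ C') (x : HH H) :
    wd w (wd v x) = wd (fun n => w n * v n) x := by
  have hwv : ∀ n, |w n * v n| ≤ C * C' := fun n => by
    rw [abs_mul]
    exact mul_le_mul (hw n) (hv n) (abs_nonneg _) ((abs_nonneg _).trans (hw n))
  ext1
  funext n
  rw [wd_apply hw, wd_apply hv, wd_apply hwv, smul_smul]
  push_cast
  rfl

theorem norm_TT_le (ω : ℝ) : ‖(TT ω : HH H →L[ℂ] HH H)‖ ≤ H := norm_dg_le fun _ => norm_T2_le _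
theorem norm_EE_le (ω : ℝ) : ‖(EE ω : HH H →L[ℂ] HH H)‖ ≤ H := norm_dg_le fun _ => norm_E2_le _
theorem norm_PP_le (ω : ℝ) : ‖(PP ω : HH H →L[ℂ] HH H)‖ ≤ 1 := norm_dg_le fun _ => norm_P2_le _

/-- `|w T x| ≤ C |x|` if `|w n| ≤ C₀ + C₁ |k_n|`. -/
theorem norm_wd_TT_le {w : ℤ → ℝ} {C C₀ C₁ ω : ℝ} (hw : ∀ n, |w n| ≤ C) (h0 : 0 ≤ C₀) (h1 : 0 ≤ C₁)
    (h : ∀ n : ℤ, |w n| ≤ C₀ + C₁ * |ω * n|) (x : HH H) :
    ‖wd w (TT ω x)‖ ≤ (C₀ * H + C₁) * ‖x‖ := by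
  have hH0 := hH.out
  refine l2_norm_le (by positivity) fun S => ?_
  calc ∑ n ∈ S, ‖wd w (TT ω x) n‖ ^ 2 ≤ ∑ n ∈ S, ((C₀ * H + C₁) * ‖x n‖) ^ 2 := by
        refine Finset.sum_le_sum fun n _ => ?_
        rw [wd_apply hw, TT_apply, norm_smul, Complex.norm_real, Real.norm_eq_abs]
        refine pow_le_pow_left₀ (by positivity) ?_ 2
        have e1 : ‖T2 (ω * n) (x n)‖ ≤ H * ‖x n‖ :=
          ((T2 (ω * n)).le_opNorm _).trans (mul_le_mul_of_nonneg_right (norm_T2_le _) (norm_nonneg _))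
        have e2 := norm_kT2_le (ω * n) (x n)
        calc |w n| * ‖T2 (ω * n) (x n)‖ ≤ (C₀ + C₁ * |ω * n|) * ‖T2 (ω * n) (x n)‖ :=
              mul_le_mul_of_nonneg_right (h n) (norm_nonneg _)
          _ = C₀ * ‖T2 (ω * n) (x n)‖ + C₁ * (|ω * n| * ‖T2 (ω * n) (x n)‖) := by ring
          _ ≤ C₀ * (H * ‖x n‖) + C₁ * ‖x n‖ := by gcongr
          _ = (C₀ * H + C₁) * ‖x n‖ := by ring
    _ = (C₀ * H + C₁) ^ 2 * ∑ n ∈ S, ‖x n‖ ^ 2 := by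
        rw [Finset.mul_sum]
        exact Finset.sum_congr rfl fun n _ => by ring
    _ ≤ (C₀ * H + C₁) ^ 2 * ‖x‖ ^ 2 := by
        gcongr
        exact l2_sum_le x S
    _ = ((C₀ * H + C₁) * ‖x‖) ^ 2 := by ring

/-! ### Weighted convolutions -/

/-- Entries of a weighted convolution. -/
noncomputable def cvM (c : ℤ → ℤ → ℝ) (a : ℤ → CI H) (n j : ℤ) : Z2 H →L[ℂ] Z2 H :=
  ((c n j : ℝ) : ℂ) • mz (a (n - j))

/-- `(cv c a x) n = ∑_j c n j • (a (n-j) · x j)` -/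
noncomputable def cv (c : ℤ → ℤ → ℝ) (a : ℤ → CI H) : HH H →L[ℂ] HH H := mo (cvM c a)

theorem cvM_td {b : ℤ → ℝ} {c : ℤ → ℤ → ℝ} {a : ℤ → CI H} (hb : Summable b)
    (h : ∀ n j, |c n j| * ‖a (n - j)‖ ≤ b (n - j)) : TD b (cvM c a) := by
  refine ⟨hb, fun n j => ?_⟩
  rw [cvM, norm_smul, Complex.norm_real, Real.norm_eq_abs]
  exact (mul_le_mul_of_nonneg_left (norm_mz_le _) (abs_nonneg _)).trans (h n j)

theorem cv_hasSum {b : ℤ → ℝ} {c : ℤ → ℤ → ℝ} {a : ℤ → CI H} (hb : Summable b)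
    (h : ∀ n j, |c n j| * ‖a (n - j)‖ ≤ b (n - j)) (x : HH H) (n : ℤ) :
    HasSum (fun j => ((c n j : ℝ) : ℂ) • mz (a (n - j)) (x j)) (cv c a x n) :=
  mo_hasSum (cvM_td hb h) x n

theorem norm_cv_le {b : ℤ → ℝ} {c : ℤ → ℤ → ℝ} {a : ℤ → CI H} (hb : Summable b)
    (h : ∀ n j, |c n j| * ‖a (n - j)‖ ≤ b (n - j)) : ‖cv c a‖ ≤ ∑' m, b m :=
  norm_mo_le (cvM_td hb h)

/-- Coefficients of a real function with `∑ (1+|m|)^p |a_m| < ∞`. -/
structure Cf (p : ℕ) (a : ℤ → CI H) : Prop where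
  re : ∀ n, a (-n) = star (a n)
  s : Summable fun m : ℤ => (1 + |(m:ℝ)|) ^ p * ‖a m‖

theorem Cf.mono {p q : ℕ} (hpq : p ≤ q) {a : ℤ → CI H} (h : Cf q a) : Cf p a := by
  refine ⟨h.re, Summable.of_nonneg_of_le (fun m => by positivity) (fun m => ?_) h.s⟩
  gcongr
  have := abs_nonneg (m:ℝ)
  linarith

theorem Cf.s0 {p : ℕ} {a : ℤ → CI H} (h : Cf p a) : Summable fun m => ‖a m‖ := by
  have := (h.mono (Nat.zero_le p)).s
  simpa using this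

/-- Adjoint of a weighted convolution. -/
theorem inner_cv {b : ℤ → ℝ} {c : ℤ → ℤ → ℝ} {a : ℤ → CI H} (hb : Summable b)
    (h : ∀ n j, |c n j| * ‖a (n - j)‖ ≤ b (n - j)) (hr : ∀ n, a (-n) = star (a n)) (x y : HH H) :
    ⟪cv c a x, y⟫_ℂ = ⟪x, cv (fun n j => c j n) a y⟫_ℂ := by
  have h' : ∀ n j, |c j n| * ‖a (n - j)‖ ≤ b (-(n - j)) := by
    intro n j
    have := h j n
    rw [neg_sub]
    have e : a (n - j) = star (a (j - n)) := by rw [← hr, neg_sub]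
    rw [e, norm_star_ci]
    exact this
  have hb' : Summable fun m => b (-m) := (Equiv.neg ℤ).summable_iff.2 hb
  refine inner_mo (cvM_td hb h) (cvM_td hb' h') (fun n j f g => ?_) x y
  show ⟪((c n j : ℝ) : ℂ) • mz (a (n - j)) f, g⟫_ℂ = ⟪f, ((c n j : ℝ) : ℂ) • mz (a (j - n)) g⟫_ℂ
  rw [inner_smul_left, inner_smul_right, Complex.conj_ofReal, inner_mz, ← hr, neg_sub]

/-- Multiplication by the function with coefficients `a`. -/
noncomputable def cm (a : ℤ → CI H) : HH H →L[ℂ] HH H := cv (fun _ _ => 1) a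

theorem cm_hyp (a : ℤ → CI H) (n j : ℤ) : |(fun _ _ : ℤ => (1:ℝ)) n j| * ‖a (n - j)‖ ≤
    (fun m => ‖a m‖) (n - j) := by
  simp

theorem cm_hasSum {a : ℤ → CI H} (ha : Summable fun m => ‖a m‖) (x : HH H) (n : ℤ) :
    HasSum (fun j => mz (a (n - j)) (x j)) (cm a x n) := by
  have := cv_hasSum ha (cm_hyp a) x n
  simp only [Complex.ofReal_one, one_smul] at this
  exact this

theorem norm_cm_le {a : ℤ → CI H} (ha : Summable fun m => ‖a m‖) : ‖cm a‖ ≤ ∑' m, ‖a m‖ :=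
  norm_cv_le ha (cm_hyp a)

theorem inner_cm {p : ℕ} {a : ℤ → CI H} (ha : Cf p a) (x y : HH H) :
    ⟪cm a x, y⟫_ℂ = ⟪x, cm a y⟫_ℂ :=
  inner_cv ha.s0 (cm_hyp a) ha.re x y

/-- The commutator `[w, a]` as a weighted convolution. -/
theorem comm_cm {w : ℤ → ℝ} {C L : ℝ} (hw : ∀ n, |w n| ≤ C) (hL : ∀ n j, |w n - w j| ≤ L * |((n - j : ℤ) : ℝ)|)
    {a : ℤ → CI H} (ha : Cf 1 a) (x : HH H) :
    wd w (cm a x) - cm a (wd w x) = cv (fun n j => w n - w j) a x := by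
  have hL0 : 0 ≤ L := by
    have := (abs_nonneg _).trans (hL 1 0)
    simpa using this
  have hs : Summable fun m : ℤ => L * ((1 + |(m:ℝ)|) ^ 1 * ‖a m‖) := ha.s.mul_left L
  have hb : ∀ n j, |w n - w j| * ‖a (n - j)‖ ≤
      (fun m : ℤ => L * ((1 + |(m:ℝ)|) ^ 1 * ‖a m‖)) (n - j) := by
    intro n j
    show |w n - w j| * ‖a (n - j)‖ ≤ L * ((1 + |((n - j : ℤ) : ℝ)|) ^ 1 * ‖a (n - j)‖)
    calc |w n - w j| * ‖a (n - j)‖ ≤ (L * |((n - j : ℤ) : ℝ)|) * ‖a (n - j)‖ :=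
          mul_le_mul_of_nonneg_right (hL n j) (norm_nonneg _)
      _ ≤ (L * (1 + |((n - j : ℤ) : ℝ)|)) * ‖a (n - j)‖ := by
          gcongr
          linarith
      _ = _ := by ring
  ext1
  funext n
  have h1 := cm_hasSum ha.s0 x n
  have h2 := cm_hasSum ha.s0 (wd w x) n
  have h3 := cv_hasSum hs hb x n
  have h4 : HasSum (fun j => ((w n : ℝ) : ℂ) • mz (a (n - j)) (x j) - mz (a (n - j)) (wd w x j))
      (((w n : ℝ) : ℂ) • cm a x n - cm a (wd w x) n) := (h1.const_smul _).sub h2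
  have h5 : (fun j => ((w n : ℝ) : ℂ) • mz (a (n - j)) (x j) - mz (a (n - j)) (wd w x j)) =
      fun j => ((w n - w j : ℝ) : ℂ) • mz (a (n - j)) (x j) := by
    funext j
    rw [wd_apply hw, map_smul, ← sub_smul]
    push_cast
    rfl
  rw [h5] at h4
  have h6 : (wd w (cm a x) - cm a (wd w x)) n = ((w n : ℝ) : ℂ) • cm a x n - cm a (wd w x) n := by
    rw [lp.coeFn_sub, Pi.sub_apply, wd_apply hw]
  rw [h6]
  exact h4.unique h3

theorem norm_comm_cm_le {w : ℤ → ℝ} {C L : ℝ} (hw : ∀ n, |w n| ≤ C)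
    (hL : ∀ n j, |w n - w j| ≤ L * |((n - j : ℤ) : ℝ)|) {a : ℤ → CI H} (ha : Cf 1 a) (x : HH H) :
    ‖wd w (cm a x) - cm a (wd w x)‖ ≤ (∑' m : ℤ, L * (|(m:ℝ)| * ‖a m‖)) * ‖x‖ := by
  rw [comm_cm hw hL ha]
  have hs : Summable fun m : ℤ => L * (|(m:ℝ)| * ‖a m‖) := by
    refine Summable.mul_left _ (Summable.of_nonneg_of_le (fun m => by positivity) (fun m => ?_) ha.s)
    rw [pow_one]
    gcongr
    linarith
  have hb : ∀ n j, |w n - w j| * ‖a (n - j)‖ ≤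
      (fun m : ℤ => L * (|(m:ℝ)| * ‖a m‖)) (n - j) := by
    intro n j
    show |w n - w j| * ‖a (n - j)‖ ≤ L * (|((n - j : ℤ) : ℝ)| * ‖a (n - j)‖)
    rw [← mul_assoc]
    exact mul_le_mul_of_nonneg_right (hL n j) (norm_nonneg _)
  exact ((cv (fun n j => w n - w j) a).le_opNorm x).trans
    (mul_le_mul_of_nonneg_right (norm_cv_le hs hb) (norm_nonneg _))

/-! ### The instances of `OD` -/

/-- `a`: the metric factor; `A = B* a B`. -/
noncomputable def ODa (ω : ℝ) (a : ℤ → CI H) (c₀ : ℝ) (ha : Cf 0 a) (hc : 0 < c₀)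
    (h : ∀ x : HH H, c₀ * ‖x‖ ^ 2 ≤ (⟪cm a x, x⟫_ℂ).re) : OD (HH H) where
  T := TT ω
  E := EE ω
  P := PP ω
  a := cm a
  b := ContinuousLinearMap.id ℂ (HH H)
  bi := ContinuousLinearMap.id ℂ (HH H)
  c₀ := c₀
  c₀_pos := hc
  adjT := inner_TT ω
  adjP := inner_PP ω
  adja := inner_cm ha
  adjb := fun _ _ => rfl
  PP := PP_PP ω
  coer := h
  bbi := fun _ => rfl
  bib := fun _ => rfl
  injT := TT_injective ω
  injE := PPEE_injective ω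

/-- The operator `b (−Δ)⁻¹ b`, `b² = J`. -/
noncomputable def ODb (ω : ℝ) (b bi : ℤ → CI H) (hb : Cf 0 b)
    (h1 : ∀ x : HH H, cm b (cm bi x) = x) (h2 : ∀ x : HH H, cm bi (cm b x) = x) : OD (HH H) where
  T := TT ω
  E := EE ω
  P := PP ω
  a := ContinuousLinearMap.id ℂ (HH H)
  b := cm b
  bi := cm bi
  c₀ := 1
  c₀_pos := one_pos
  adjT := inner_TT ω
  adjP := inner_PP ω
  adja := fun _ _ => rfl
  adjb := inner_cm hb
  PP := PP_PP ω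
  coer := fun x => by
    show 1 * ‖x‖ ^ 2 ≤ (⟪x, x⟫_ℂ).re
    rw [one_mul, inner_self_eq_norm_sq_to_K]
    norm_cast
  bbi := h1
  bib := h2
  injT := TT_injective ω
  injE := PPEE_injective ω

theorem ODa_wt {ω : ℝ} {a : ℤ → CI H} {c₀ : ℝ} {ha : Cf 0 a} {hc : 0 < c₀}
    {h : ∀ x : HH H, c₀ * ‖x‖ ^ 2 ≤ (⟪cm a x, x⟫_ℂ).re} {w : ℤ → ℝ} {C : ℝ} (hw : ∀ n, |w n| ≤ C) :
    (ODa ω a c₀ ha hc h).Wt (wd w) where
  adj := inner_wd hw
  T := wd_TT hw ω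
  P := wd_PP hw ω

theorem ODb_wt {ω : ℝ} {b bi : ℤ → CI H} {hb : Cf 0 b}
    {h1 : ∀ x : HH H, cm b (cm bi x) = x} {h2 : ∀ x : HH H, cm bi (cm b x) = x} {w : ℤ → ℝ} {C : ℝ}
    (hw : ∀ n, |w n| ≤ C) : (ODb ω b bi hb h1 h2).Wt (wd w) where
  adj := inner_wd hw
  T := wd_TT hw ω
  P := wd_PP hw ω

end

end Pool.Agent.Lib.MP_79abb3_an.SC
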