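import Pool.Agent.Lib.MP_79abb3_an.SC.ApF
import Pool.Agent.Lib.MP_79abb3_an.SC.ExAbs
import Pool.Agent.Lib.MP_79abb3_an.SC.LaF

/-!
Theorem C, block (ii): the general background system (BG).

Unknown `(q, W)`, both homogeneous Dirichlet. `q` (physical vorticity) is represented by `p`,
`q = T (Qo p)`, `Qo p = B q`; `W` by `h`, `W = T (Qd h) = K^{1/2} h`, `Qd h = B W`.
`V = T gV`, `gV = BV = BW + g_L - ζ J q`, velocity `u = u_e + u[T (BW + g_L)]`, `om = ζ q + ζ a BV`.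
`(O) J q_t = Δ q - u·∇q + B(κ V)`,
`(W) W_t = -A W + P(om, u) + j + (ζ-1) κ V + F`.
-/

set_option autoImplicit false
set_option linter.unusedSectionVars false

open MeasureTheory Set Filter Topology Function
open scoped ENNReal InnerProductSpace

namespace Pool.Agent.Lib.MP_79abb3_an.SC

open Pool.Agent.Lib.MP_79abb3_an.P25

section
variable {H : ℝ} [hH : Fact (0 < H)]

/-! ### Operators on `HH H` -/

/-- multiplication by a function of `z` -/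
noncomputable def Ms (b : CI H) : HH H →L[ℂ] HH H := dg (fun _ => mz b)

/-- `|D| T` -/
noncomputable def DTc (ω : ℝ) : HH H →L[ℂ] HH H := dg (fun n : ℤ => ((|ω * n| : ℝ) : ℂ) • T2 (ω * n))

/-- `|D| E` -/
noncomputable def DEc (ω : ℝ) : HH H →L[ℂ] HH H := dg (fun n : ℤ => ((|ω * n| : ℝ) : ℂ) • E2 (ω * n))

/-- `∂_y T` -/
noncomputable def Xy (ω : ℝ) : HH H →L[ℂ] HH H :=
  dg (fun n : ℤ => (Complex.I * ((ω * n : ℝ) : ℂ)) • T2 (ω * n))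

/-- `∂_z T = |D| T - 1` -/
noncomputable def Xz (ω : ℝ) : HH H →L[ℂ] HH H := DTc ω - 1

/-- `Λ^s T` -/
noncomputable def LT (ω : ℝ) (lam : ℤ → ℝ) (s : ℝ) : HH H →L[ℂ] HH H :=
  dg (fun n : ℤ => ((lam n ^ s : ℝ) : ℂ) • T2 (ω * n))

/-- `v = V - |D| E V` for `V = T g`, one mode -/
noncomputable def vk (k : ℝ) : Z2 H →L[ℂ] CI H :=
  Tz k - ((|k| : ℝ) : ℂ) • (Ez k ∘L iota ∘L Tz k)

/-- `w = -∂_y E V` for `V = T g`, one mode -/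
noncomputable def wk (k : ℝ) : Z2 H →L[ℂ] CI H :=
  (-(Complex.I * (k : ℂ))) • (Ez k ∘L iota ∘L Tz k)

/-- `Λ^{1/2} v` -/
noncomputable def UV (ω : ℝ) (lam : ℤ → ℝ) : HH H →L[ℂ] l2 (CI H) :=
  dg (fun n : ℤ => ((lam n ^ (1 / 2 : ℝ) : ℝ) : ℂ) • vk (ω * n))

/-- `Λ^{1/2} w` -/
noncomputable def UW (ω : ℝ) (lam : ℤ → ℝ) : HH H →L[ℂ] l2 (CI H) :=
  dg (fun n : ℤ => ((lam n ^ (1 / 2 : ℝ) : ℝ) : ℂ) • wk (ω * n))

/-- `Λ^{-1/4} (x u)` for `x ∈ HH`, `u` given by `Λ^{1/2} u ∈ ℓ²(CI)` -/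
noncomputable def prd {lam : ℤ → ℝ} (pw : PrW lam 0 (1 / 2) (1 / 4)) :
    HH H →L[ℂ] l2 (CI H) →L[ℂ] HH H :=
  pr (mz : CI H →L[ℂ] Z2 H →L[ℂ] Z2 H).flip pw

/-- coefficients of a real `C²` function, `∑ (1+|n|)^4 (|a_n| + |a_n'| + |a_n''|) < ∞` -/
structure C2f (a : ℤ → CI H) : Prop where
  c : Cf 4 a
  d : ∃ a1 a2 : ℤ → CI H, (∀ n, IsD (a n) (a1 n)) ∧ (∀ n, IsD (a1 n) (a2 n)) ∧ Cf 4 a1 ∧ Cf 4 a2

/-! ### Geometry -/

variable (H) in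
/-- Geometric data: `ω = π / H`, the weights `lam n = N₀ + |ω n|`, the families of coefficients of
`a`, `J = 1/a`, `b = J^{1/2}`, `bi = J^{-1/2}`, the cut-off `ζ` with its derivatives (`ζ = 1` on
`[0, ρ]`, `ζ = 0` near `H`). -/
structure Geo where
  ω : ℝ
  N₀ : ℝ
  c₀ : ℝ
  ρ : ℝ
  a : ℤ → CI H
  J : ℤ → CI H
  b : ℤ → CI H
  bi : ℤ → CI H
  ζ : CI H
  ζ1 : CI H
  ζ2 : CI H
  hω : ω = Real.pi / H
  hN : 1 ≤ N₀
  ha : C2f a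
  hJ : C2f J
  hb : C2f b
  hbi : C2f bi
  hc : 0 < c₀
  coer : ∀ x : HH H, c₀ * ‖x‖ ^ 2 ≤ (⟪cm a x, x⟫_ℂ).re
  aJ : ∀ x : HH H, cm a (cm J x) = x
  Ja : ∀ x : HH H, cm J (cm a x) = x
  bb : ∀ x : HH H, cm b (cm b x) = cm J x
  b1 : ∀ x : HH H, cm b (cm bi x) = x
  b2 : ∀ x : HH H, cm bi (cm b x) = x
  ζ_d : IsD ζ ζ1
  ζ1_d : IsD ζ1 ζ2
  ζ_real : star ζ = ζ
  ρ0 : 0 < ρ
  ρH : ρ < H
  ζ_one : ∀ z ∈ Icc (0:ℝ) ρ, ex ζ z = 1
  ζ_zero : ∃ ρ' < H, ∀ z ∈ Icc ρ' H, ex ζ z = 0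

/-- the weights `lam n = N₀ + |ω n|` -/
noncomputable def Geo.lam (G : Geo H) (n : ℤ) : ℝ := G.N₀ + |G.ω * n|

theorem Geo.ω_pos (G : Geo H) : 0 < G.ω := by
  rw [G.hω]; exact div_pos Real.pi_pos hH.out

theorem Geo.lw (G : Geo H) : LW G.lam where
  h1 n := by
    have := abs_nonneg (G.ω * n)
    have := G.hN
    unfold Geo.lam; linarith
  neg n := by
    unfold Geo.lam
    push_cast
    rw [mul_neg, abs_neg]
  add m n := by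
    have h1 := abs_nonneg (G.ω * m)
    have h2 := abs_nonneg (G.ω * n)
    have h3 := G.hN
    have h4 : |G.ω * ((m + n : ℤ) : ℝ)| ≤ |G.ω * m| + |G.ω * n| := by
      push_cast
      rw [mul_add]
      exact abs_add_le _ _
    unfold Geo.lam
    nlinarith [mul_nonneg h1 h2]

theorem Geo.lam_k (G : Geo H) (n : ℤ) : |G.ω * n| ≤ G.lam n := by
  have := G.hN
  unfold Geo.lam; linarith

theorem Geo.lam_le (G : Geo H) (n : ℤ) : G.lam n ≤ G.N₀ * (1 + |G.ω * n|) := by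
  have h1 := abs_nonneg (G.ω * n)
  have h2 := G.hN
  unfold Geo.lam
  nlinarith

theorem Geo.prW (G : Geo H) {α β γ : ℝ} (hα : 0 ≤ α) (hβ : 0 ≤ β) (hγ : 0 ≤ γ)
    (hs : 1 / 2 < α + β + γ) : PrW G.lam α β γ := prW_of G.ω_pos G.lw.h1 G.lam_k hα hβ hγ hs

theorem Geo.pw (G : Geo H) : PrW G.lam 0 (1 / 2) (1 / 4) :=
  G.prW (by norm_num) (by norm_num) (by norm_num) (by norm_num)

/-- the operator `A = B* a B` -/
noncomputable def Geo.D (G : Geo H) : OD (HH H) :=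
  ODa G.ω G.a G.c₀ (G.ha.c.mono (Nat.zero_le 4)) G.hc G.coer

/-- the operator `J^{-1/2} (-Δ) J^{-1/2}` -/
noncomputable def Geo.Do (G : Geo H) : OD (HH H) :=
  ODb G.ω G.b G.bi (G.hb.c.mono (Nat.zero_le 4)) G.b1 G.b2

variable (H) in
/-- Background: `Λ^{1/2} u_e`, `g_L = B V_L`, `F_L = -∂_t V_L - B* a B V_L`, the control `fc`, the weight
`κ` and `κ1 = ∂_z κ`. -/
structure Bg where
  ve : ℝ → l2 (CI H)
  we : ℝ → l2 (CI H)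
  gL : ℝ → HH H
  FL : ℝ → HH H
  fc : ℝ → HH H
  κ : ℝ → CI H
  κ1 : ℝ → CI H

/-- continuity in time on `[t₀, t₁]` -/
structure Bg.Cont (B : Bg H) (t₀ t₁ : ℝ) : Prop where
  ve : ContinuousOn B.ve (Icc t₀ t₁)
  we : ContinuousOn B.we (Icc t₀ t₁)
  gL : ContinuousOn B.gL (Icc t₀ t₁)
  FL : ContinuousOn B.FL (Icc t₀ t₁)
  fc : ContinuousOn B.fc (Icc t₀ t₁)
  κ : ContinuousOn B.κ (Icc t₀ t₁)
  κ1 : ContinuousOn B.κ1 (Icc t₀ t₁)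

namespace Geo
variable (G : Geo H)

/-- `Qo p = B q` -/
noncomputable def Qo : HH H →L[ℂ] HH H := G.Do.Q (Kh G.Do.K)

/-- `Qd h = B W` -/
noncomputable def Qd : HH H →L[ℂ] HH H := G.D.Q (Kh G.D.K)

/-- `q = T (Qo p)` -/
noncomputable def qL : HH H →L[ℂ] HH H := TT G.ω ∘L G.Qo

/-- `W = T (Qd h)` -/
noncomputable def WL : HH H →L[ℂ] HH H := TT G.ω ∘L G.Qd

/-- `B V = B W + g_L - ζ J q` -/
noncomputable def gV (B : Bg H) (t : ℝ) (x : HH H × HH H) : HH H :=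
  G.Qd x.2 + B.gL t - Ms G.ζ (cm G.J (G.qL x.1))

/-- `V = T (B V)` -/
noncomputable def VV (B : Bg H) (t : ℝ) (x : HH H × HH H) : HH H := TT G.ω (G.gV B t x)

/-- `Λ^{1/2} v`, first component of the velocity -/
noncomputable def uv (B : Bg H) (t : ℝ) (x : HH H × HH H) : l2 (CI H) :=
  UV G.ω G.lam (G.Qd x.2 + B.gL t) + B.ve t

/-- `Λ^{1/2} w`, second component of the velocity -/
noncomputable def uw (B : Bg H) (t : ℝ) (x : HH H × HH H) : l2 (CI H) :=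
  UW G.ω G.lam (G.Qd x.2 + B.gL t) + B.we t

/-- `om = ζ q + ζ a B V` -/
noncomputable def om (B : Bg H) (t : ℝ) (x : HH H × HH H) : HH H :=
  Ms G.ζ (G.qL x.1) + Ms G.ζ (cm G.a (G.gV B t x))

/-- `Λ^{-1/4} P(om, u)`, `P(om,u) = -∂_z T (om w) - ∂_y T (om v)` -/
noncomputable def Pw (om : HH H) (v w : l2 (CI H)) : HH H :=
  -(Xz G.ω (prd G.pw om w) + Xy G.ω (prd G.pw om v))

/-- source of `(O)`, `Λ^{-1/4} (-u·∇q)` -/
noncomputable def f1 (B : Bg H) (t : ℝ) (x : HH H × HH H) : HH H :=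
  -(prd G.pw (Xy G.ω (G.Qo x.1)) (G.uv B t x) + prd G.pw (Xz G.ω (G.Qo x.1)) (G.uw B t x))

/-- source of `(O)`, `B(κ V) = κ B V - κ_z V` -/
noncomputable def f2 (B : Bg H) (t : ℝ) (x : HH H × HH H) : HH H :=
  Ms (B.κ t) (G.gV B t x) - Ms (B.κ1 t) (G.VV B t x)

/-- source of `(W)`, `Λ^{-1/4} P(om, u)` -/
noncomputable def f3 (B : Bg H) (t : ℝ) (x : HH H × HH H) : HH H :=
  G.Pw (G.om B t x) (G.uv B t x) (G.uw B t x)

/-- `j = T(-2∂_z(ζ'q) + ζ''q + ζ' w q + ζ' κ V)` -/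
noncomputable def jj (B : Bg H) (t : ℝ) (x : HH H × HH H) : HH H :=
  -(2:ℂ) • Xz G.ω (Ms G.ζ1 (G.qL x.1)) +
    TT G.ω (Ms G.ζ2 (G.qL x.1) + Ms G.ζ1 (Ms (B.κ t) (G.VV B t x))) +
    LT G.ω G.lam (1 / 4) (Ms G.ζ1 (prd G.pw (G.qL x.1) (G.uw B t x)))

/-- source of `(W)`, `j + (ζ-1) κ V + F_L + fc` -/
noncomputable def f4 (B : Bg H) (t : ℝ) (x : HH H × HH H) : HH H :=
  G.jj B t x + (Ms G.ζ (Ms (B.κ t) (G.VV B t x)) - Ms (B.κ t) (G.VV B t x)) + (B.FL t + B.fc t)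

/-- the nonlinearity -/
noncomputable def Phi (B : Bg H) (t : ℝ) (x : HH H × HH H) : (HH H × HH H) × (HH H × HH H) :=
  ((G.f1 B t x, G.f2 B t x), (G.f3 B t x, G.f4 B t x))

/-- `Λ^{1/4}` sources for `(O)`: the adjoint of `Λ^{1/4} T Qo` -/
noncomputable def J1 : HH H →L[ℂ] HH H := (LT G.ω G.lam (1 / 4) ∘L G.Qo).adjoint

/-- `HH` sources for `(O)`: the adjoint of `T Qo` -/
noncomputable def J2 : HH H →L[ℂ] HH H := (TT G.ω ∘L G.Qo).adjoint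

/-- `Λ^{1/4}` sources for `(W)`: the adjoint of `Λ^{1/4} T Qd` -/
noncomputable def J3 : HH H →L[ℂ] HH H := (LT G.ω G.lam (1 / 4) ∘L G.Qd).adjoint

/-- `HH` sources for `(W)`: the adjoint of `T Qd` (`= K^{1/2}`) -/
noncomputable def J4 : HH H →L[ℂ] HH H := (TT G.ω ∘L G.Qd).adjoint

/-- the semigroup on `HH × HH` -/
noncomputable def SS (t : ℝ) : HH H × HH H →L[ℂ] HH H × HH H :=
  (Sg G.Do.K t).prodMap (Sg G.D.K t)

/-- the kernels -/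
noncomputable def LL (τ : ℝ) : (HH H × HH H) × (HH H × HH H) →L[ℂ] HH H × HH H :=
  ((AS G.Do.K τ).comp (G.J1.coprod G.J2)).prodMap ((AS G.D.K τ).comp (G.J3.coprod G.J4))

/-- solutions of the background system on `[t₀, t₁]`, `x = (p, h)` -/
def Sol (B : Bg H) (t₀ t₁ : ℝ) (x₀ : HH H × HH H) (x : ℝ → HH H × HH H) : Prop :=
  Mild G.SS G.LL (G.Phi B) t₀ t₁ x₀ x

end Geo

end

end Pool.Agent.Lib.MP_79abb3_an.SC
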