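import Pool.Agent.Lib.MP_79abb3_an.SC.FcA
import Pool.Agent.Lib.MP_79abb3_an.SC.LaF

/-!
MP_79abb3_an, simply connected domains: families of Fourier coefficients, part B: inversion and
products.
-/

set_option autoImplicit false
set_option linter.unusedSectionVars false

open MeasureTheory Set Filter Topology Function
open scoped ENNReal InnerProductSpace

namespace Pool.Agent.Lib.MP_79abb3_an.SC

open Pool.Agent.Lib.MP_79abb3_an.P25 Pool.Agent.Lib.MP_79abb3_an.FW

/-- Fourier inversion on `[-Y, Y]` for functions with equal values at the end points. -/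
private theorem fcb_inversion {Y : ℝ} (hY : 0 < Y) {F : ℝ × ℝ → ℝ} (hF : Continuous F)
    (z : ℝ) (hv : F (-Y, z) = F (Y, z)) (hs : Summable fun n => fco Y F n z) {y : ℝ}
    (hy : y ∈ Icc (-Y) Y) :
    HasSum (fun n => fco Y F n z * ee (Real.pi / Y) n y) ((F (y, z) : ℝ) : ℂ) := by
  have : Fact (0 < 2 * Y) := ⟨by linarith⟩
  set g : ℝ → ℂ := fun y => ((F (y, z) : ℝ) : ℂ) with hg
  have hgc : Continuous g := Complex.continuous_ofReal.comp (hF.comp (by fun_prop))
  have hYY : -Y + 2 * Y = Y := by ring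
  set G : C(AddCircle (2 * Y), ℂ) := ⟨AddCircle.liftIco (2 * Y) (-Y) g,
    AddCircle.liftIco_continuous (by rw [hYY]; simp only [hg, hv]) hgc.continuousOn⟩ with hG
  have hGa : ∀ x : ℝ, x ∈ Ico (-Y) (-Y + 2 * Y) → G (x : AddCircle (2 * Y)) = g x := by
    intro x hx
    show AddCircle.liftIco (2 * Y) (-Y) g (x : AddCircle (2 * Y)) = g x
    exact AddCircle.liftIco_coe_apply hx
  have hfour : ∀ (n : ℤ) (x : ℝ), fourier n (x : AddCircle (2 * Y)) = ee (Real.pi / Y) n x := by
    intro n x
    rw [fourier_coe_apply, ee]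
    congr 1
    push_cast
    have : (Y : ℂ) ≠ 0 := by exact_mod_cast hY.ne'
    field_simp
  have hcoef : ∀ n, fourierCoeff G n = fco Y F n z := by
    intro n
    rw [fourierCoeff_eq_intervalIntegral _ _ (-Y), hYY, fco]
    have h1 : ((1 / (2 * Y) : ℝ)) • (∫ x in (-Y)..Y, fourier (-n) (x : AddCircle (2 * Y)) • G x) =
        ((2 * Y : ℝ) : ℂ)⁻¹ * ∫ x in (-Y)..Y, fourier (-n) (x : AddCircle (2 * Y)) • G x := by
      rw [Complex.real_smul]
      congr 1
      push_cast
      ring
    rw [h1]
    congr 1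
    refine intervalIntegral.integral_congr_Ioo_of_le (by linarith) fun x hx => ?_
    have h2 : G (x : AddCircle (2 * Y)) = g x := hGa x ⟨hx.1.le, by rw [hYY]; exact hx.2⟩
    rw [h2, hfour, fo_ee_neg, smul_eq_mul, mul_comm]
  have hsum : Summable (fourierCoeff G) := by
    have : fourierCoeff G = fun n => fco Y F n z := funext hcoef
    rw [this]
    exact hs
  have hval : G (y : AddCircle (2 * Y)) = ((F (y, z) : ℝ) : ℂ) := by
    rcases hy.2.lt_or_eq with h | h
    · exact hGa y ⟨hy.1, by rw [hYY]; exact h⟩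
    · have h1 : (y : AddCircle (2 * Y)) = ((-Y : ℝ) : AddCircle (2 * Y)) := by
        rw [h, ← AddCircle.coe_add_period (2 * Y) (-Y), hYY]
      rw [h1]
      have h2 : G ((-Y : ℝ) : AddCircle (2 * Y)) = g (-Y) :=
        hGa (-Y) ⟨le_rfl, by rw [hYY]; linarith⟩
      rw [h2, h]
      simp only [hg, hv]
  have h := has_pointwise_sum_fourier_series_of_summable hsum (y : AddCircle (2 * Y))
  rw [hval] at h
  have e : (fun i => fourierCoeff G i • fourier i (y : AddCircle (2 * Y))) =
      fun n => fco Y F n z * ee (Real.pi / Y) n y := by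
    funext n
    rw [hcoef, hfour, smul_eq_mul]
  rwa [e] at h

section
variable {H : ℝ} [hH : Fact (0 < H)] {F G : ℝ × ℝ → ℝ}

private theorem fcb_cont (hF : PY H F) : Continuous F := hF.smooth.continuous

private theorem fcb_sum (hF : PY H F) : Summable fun n : ℤ => ‖(fam F n : CI H)‖ := by
  have := fam_sum hF 0
  simpa using this

/-- Fourier inversion on `[-H, H]`. Proof: the proof of `P25.fo_inversion` uses the hypothesis `VanY`
only through `F (-Y, z) = F (Y, z)`, which is `PY.ends`; summability: `fam_sum` with `k = 0` and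
`ex_fam`, `norm_ex_le`. -/
theorem fam_inv (hF : PY H F) {y z : ℝ} (hy : y ∈ Icc (-H) H) (hz : z ∈ Icc (0:ℝ) H) :
    HasSum (fun n => ex (fam F n : CI H) z * ee (Real.pi / H) n y) ((F (y, z) : ℝ) : ℂ) := by
  have hs : Summable fun n => fco H F n z := by
    refine Summable.of_norm_bounded (fcb_sum hF) fun n => ?_
    rw [← ex_fam (fcb_cont hF) n hz]
    exact norm_ex_le _ _
  have h := fcb_inversion hH.out (fcb_cont hF) z (hF.ends z).symm hs hy
  have e : (fun n => ex (fam F n : CI H) z * ee (Real.pi / H) n y) =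
      fun n => fco H F n z * ee (Real.pi / H) n y := by
    funext n
    rw [ex_fam (fcb_cont hF) n hz]
  rw [e]
  exact h

/-- The same with `fld`. -/
theorem fld_fam (hF : PY H F) {y z : ℝ} (hy : y ∈ Icc (-H) H) (hz : z ∈ Icc (0:ℝ) H) :
    fld (Real.pi / H) (fam F : ℤ → CI H) y z = F (y, z) := by
  rw [fld, (fam_inv hF hy hz).tsum_eq, Complex.ofReal_re]

/-- Summability of the terms of a product. -/
private theorem fcb_mul_sum {a b : ℤ → CI H} (ha : Summable fun n => ‖a n‖)
    (hb : Summable fun n => ‖b n‖) (n : ℤ) : Summable fun j => a j * b (n - j) := by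
  refine Summable.of_norm_bounded (ha.mul_right (∑' k, ‖b k‖)) fun j => ?_
  refine (norm_mul_le _ _).trans (mul_le_mul_of_nonneg_left ?_ (norm_nonneg _))
  exact hb.le_tsum (n - j) fun _ _ => norm_nonneg _

/-- Products. Proof: for `z ∈ [0,H]`, `ex (fam (FG) n) z = (2H)⁻¹ ∫ F G conj(ee_n)`; insert the series
`F = ∑_j ex (fam F j) z ee_j` (`fam_inv`, dominated by the summable `‖fam F j‖`; exchange sum and
integral with `intervalIntegral.hasSum_integral_of_summable_norm` or `hasSum_integral_of_dominated`),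
and `ee_j conj(ee_n) = conj(ee_{n-j})` (`P25.ee_add`, `P25.ee_neg`). -/
theorem fam_mul (hF : PY H F) (hG : PY H G) (n : ℤ) :
    (fam (fun p => F p * G p) n : CI H) = ∑' j, fam F j * fam G (n - j) := by
  have h0 := hH.out
  have hFG : Continuous fun p => F p * G p := (fcb_cont hF).mul (fcb_cont hG)
  have hsF := fcb_sum hF
  have hsG := fcb_sum hG
  refine ci_ext fun z hz => ?_
  have e1 : ex (∑' j, fam F j * fam G (n - j) : CI H) z =
      ∑' j, ex (fam F j : CI H) z * ex (fam G (n - j) : CI H) z := by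
    have := (evC z).map_tsum (fcb_mul_sum hsF hsG n)
    simpa using this
  rw [e1, ex_fam hFG n hz, fco]
  obtain ⟨C, hC⟩ := (isCompact_uIcc (a := -H) (b := H)).prod (isCompact_Icc (a := (0:ℝ)) (b := H))
    |>.exists_bound_of_continuousOn (fcb_cont hG).continuousOn
  have key : HasSum (fun j => ∫ y in (-H)..H, ex (fam F j : CI H) z *
      (((G (y, z) : ℝ) : ℂ) * star (ee (Real.pi / H) (n - j) y)))
      (∫ y in (-H)..H, (((fun p => F p * G p) (y, z) : ℝ) : ℂ) * star (ee (Real.pi / H) n y)) := by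
    refine intervalIntegral.hasSum_integral_of_dominated_convergence
      (fun j _ => ‖(fam F j : CI H)‖ * C) (fun j => ?_) (fun j => ?_) ?_ ?_ ?_
    · exact ((fo_continuous_y (fcb_cont hG) (Real.pi / H) (n - j) z).const_mul _).aestronglyMeasurable
    · refine Eventually.of_forall fun y hy => ?_
      rw [norm_mul, norm_mul, norm_star, fo_norm_ee, mul_one, Complex.norm_real]
      exact mul_le_mul (norm_ex_le _ _) (hC (y, z) ⟨uIoc_subset_uIcc hy, hz⟩) (norm_nonneg _)
        (norm_nonneg _)
    · exact Eventually.of_forall fun y _ => hsF.mul_right C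
    · exact intervalIntegrable_const
    · refine Eventually.of_forall fun y hy => ?_
      have hy' : y ∈ Icc (-H) H := by
        have := uIoc_subset_uIcc hy
        rwa [uIcc_of_le (by linarith)] at this
      have h1 := (fam_inv hF hy' hz).mul_right
        (((G (y, z) : ℝ) : ℂ) * star (ee (Real.pi / H) n y))
      have e2 : ∀ j, ex (fam F j : CI H) z * (((G (y, z) : ℝ) : ℂ) *
          star (ee (Real.pi / H) (n - j) y)) = ex (fam F j : CI H) z * ee (Real.pi / H) j y *
          (((G (y, z) : ℝ) : ℂ) * star (ee (Real.pi / H) n y)) := by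
        intro j
        have e3 : star (ee (Real.pi / H) (n - j) y) =
            ee (Real.pi / H) j y * star (ee (Real.pi / H) n y) := by
          rw [← ee_neg, ← ee_neg, ← ee_add]
          congr 1
          ring
        rw [e3]
        ring
      simp only [e2]
      have e4 : (((fun p => F p * G p) (y, z) : ℝ) : ℂ) * star (ee (Real.pi / H) n y) =
          ((F (y, z) : ℝ) : ℂ) * (((G (y, z) : ℝ) : ℂ) * star (ee (Real.pi / H) n y)) := by
        rw [Complex.ofReal_mul, mul_assoc]
      rw [e4]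
      exact h1
  rw [← key.tsum_eq, ← tsum_mul_left]
  refine tsum_congr fun j => ?_
  rw [intervalIntegral.integral_const_mul, ex_fam (fcb_cont hG) (n - j) hz, fco]
  ring

/-- The operators `cm` multiply. -/
private theorem fcb_cm_cm {a b c : ℤ → CI H} (ha : Summable fun n => ‖a n‖)
    (hb : Summable fun n => ‖b n‖) (hc : Summable fun n => ‖c n‖)
    (h : ∀ n, c n = ∑' j, a j * b (n - j)) (x : HH H) : cm a (cm b x) = cm c x := by
  ext1
  funext n
  have hx : ∀ i, ‖x i‖ ≤ ‖x‖ := fun i => lp.norm_apply_le_norm (by norm_num) x i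
  set Φ : ℤ × ℤ → Z2 H := fun q => mz (a q.1 * b q.2) (x (n - q.1 - q.2)) with hΦ
  have hs : Summable Φ := by
    have h0a : (0 : ℤ → ℝ) ≤ fun n => ‖a n‖ := fun _ => norm_nonneg _
    have h0b : (0 : ℤ → ℝ) ≤ fun n => ‖b n‖ := fun _ => norm_nonneg _
    have h1 := Summable.mul_of_nonneg ha hb h0a h0b
    have h2 : ∀ q, ‖Φ q‖ ≤ ‖a q.1‖ * ‖b q.2‖ * ‖x‖ := fun q =>
      (norm_mz_apply_le (a q.1 * b q.2) (x (n - q.1 - q.2))).trans
        (mul_le_mul (norm_mul_le _ _) (hx _) (norm_nonneg _) (by positivity))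
    exact Summable.of_norm_bounded (h1.mul_right ‖x‖) h2
  have hS := hs.hasSum
  -- first side
  have h1f : ∀ m, HasSum (fun k => Φ (m, k)) (mz (a m) (cm b x (n - m))) := by
    intro m
    have e1 := cm_hasSum hb x (n - m)
    have e2 := ((Equiv.subLeft (n - m)).hasSum_iff).2 e1
    have e3 := (mz (a m) : Z2 H →L[ℂ] Z2 H).hasSum e2
    have e4 : (fun k => Φ (m, k)) = fun k => (mz (a m) : Z2 H →L[ℂ] Z2 H)
        (((fun j => mz (b (n - m - j)) (x j)) ∘ ⇑(Equiv.subLeft (n - m))) k) := by
      funext k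
      show mz (a m * b k) (x (n - m - k)) = mz (a m) (mz (b (n - m - (n - m - k))) (x (n - m - k)))
      rw [mz_mul, show n - m - (n - m - k) = k by ring]
    rw [e4]
    exact e3
  have h1 : HasSum (fun m => mz (a m) (cm b x (n - m))) (∑' q, Φ q) := hS.prod_fiberwise h1f
  have h2 : HasSum (fun m => mz (a m) (cm b x (n - m))) (cm a (cm b x) n) := by
    have e1 := cm_hasSum ha (cm b x) n
    have e2 := ((Equiv.subLeft n).hasSum_iff).2 e1
    have e3 : (fun m => mz (a m) (cm b x (n - m))) =
        (fun j => mz (a (n - j)) (cm b x j)) ∘ ⇑(Equiv.subLeft n) := by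
      funext k
      show mz (a k) (cm b x (n - k)) = mz (a (n - (n - k))) (cm b x (n - k))
      rw [show n - (n - k) = k by ring]
    rw [e3]
    exact e2
  -- second side
  let e : ℤ × ℤ ≃ ℤ × ℤ :=
    { toFun := fun q => (q.2, n - q.1 - q.2)
      invFun := fun q => (n - q.1 - q.2, q.1)
      left_inv := fun q => Prod.ext (by show n - q.2 - (n - q.1 - q.2) = q.1; ring) rfl
      right_inv := fun q => Prod.ext rfl
        (by show n - (n - q.1 - q.2) - q.1 = q.2; ring) }
  have e0 : HasSum (Φ ∘ e) (∑' q, Φ q) := e.hasSum_iff.2 hS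
  have h3f : ∀ i, HasSum (fun m => (Φ ∘ e) (i, m)) (mz (c (n - i)) (x i)) := by
    intro i
    have e1 : HasSum (fun m => a m * b (n - i - m)) (c (n - i)) := by
      rw [h (n - i)]
      exact (fcb_mul_sum ha hb (n - i)).hasSum
    have e2 := ((mz : CI H →L[ℂ] Z2 H →L[ℂ] Z2 H).flip (x i)).hasSum e1
    have e3 : (fun m => (Φ ∘ e) (i, m)) = fun m =>
        ((mz : CI H →L[ℂ] Z2 H →L[ℂ] Z2 H).flip (x i)) (a m * b (n - i - m)) := by
      funext m
      show mz (a m * b (n - i - m)) (x (n - m - (n - i - m))) = mz (a m * b (n - i - m)) (x i)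
      rw [show n - m - (n - i - m) = i by ring]
    rw [e3]
    exact e2
  have h3 : HasSum (fun i => mz (c (n - i)) (x i)) (∑' q, Φ q) := e0.prod_fiberwise h3f
  rw [h2.unique h1]
  exact h3.unique (cm_hasSum hc x n)

/-- The multiplication operators multiply. Proof: `cm_hasSum`; `(cm (fam F) (cm (fam G) x))_n =
∑_j ∑_i mz (fam F (n-j)) (mz (fam G (j-i)) (x i))`; reorder (absolutely convergent, Young) and use
`fam_mul`. Compare `pz_pz` in SC/ApU.lean. -/
theorem cm_fam_mul (hF : PY H F) (hG : PY H G) (x : HH H) :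
    cm (fam F) (cm (fam G) x) = cm (fam fun p => F p * G p) x :=
  fcb_cm_cm (fcb_sum hF) (fcb_sum hG) (fcb_sum (hF.mul hG)) (fam_mul hF hG) x

/-- Multiplication by a constant. -/
theorem cm_fam_const (c : ℝ) (x : HH H) : cm (fam fun _ => c) x = (c : ℂ) • x := by
  ext1
  funext n
  have e : ∀ m : ℤ, (fam (fun _ : ℝ × ℝ => c) m : CI H) =
      if m = 0 then ContinuousMap.const _ (c : ℂ) else 0 := by
    intro m
    rw [fam_z (g := fun _ => c) continuous_const m]
    split_ifs
    · exact ci_ext fun z hz => ex_rc _ _ hz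
    · rfl
  have h1 := cm_hasSum (fcb_sum (PY.const H c)) x n
  have h2 : HasSum (fun j => mz (fam (fun _ : ℝ × ℝ => c) (n - j) : CI H) (x j))
      (mz (fam (fun _ : ℝ × ℝ => c) (n - n) : CI H) (x n)) := by
    refine hasSum_single n fun j hj => ?_
    rw [e, if_neg (sub_ne_zero.2 hj.symm), map_zero]
    rfl
  rw [h1.unique h2, e, sub_self, if_pos rfl, mz_const, lp.coeFn_smul, Pi.smul_apply]

/-- Linearity. -/
theorem cm_fam_add (hF : PY H F) (hG : PY H G) (x : HH H) :
    cm (fam fun p => F p + G p) x = cm (fam F) x + cm (fam G) x := by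
  ext1
  funext n
  have h1 := (cm_hasSum (fcb_sum hF) x n).add (cm_hasSum (fcb_sum hG) x n)
  have h2 := cm_hasSum (fcb_sum (hF.add hG)) x n
  have e : (fun j => mz (fam (fun p => F p + G p) (n - j) : CI H) (x j)) =
      fun j => mz (fam F (n - j) : CI H) (x j) + mz (fam G (n - j) : CI H) (x j) := by
    funext j
    rw [fam_add (fcb_cont hF) (fcb_cont hG), map_add, add_apply]
  rw [e] at h2
  rw [h2.unique h1, lp.coeFn_add, Pi.add_apply]

theorem cm_fam_sub (hF : PY H F) (hG : PY H G) (x : HH H) :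
    cm (fam fun p => F p - G p) x = cm (fam F) x - cm (fam G) x := by
  ext1
  funext n
  have h1 := (cm_hasSum (fcb_sum hF) x n).sub (cm_hasSum (fcb_sum hG) x n)
  have h2 := cm_hasSum (fcb_sum (hF.sub hG)) x n
  have e : (fun j => mz (fam (fun p => F p - G p) (n - j) : CI H) (x j)) =
      fun j => mz (fam F (n - j) : CI H) (x j) - mz (fam G (n - j) : CI H) (x j) := by
    funext j
    rw [fam_sub (fcb_cont hF) (fcb_cont hG), map_sub, sub_apply]
  rw [e] at h2
  rw [h2.unique h1, lp.coeFn_sub, Pi.sub_apply]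

/-- In particular `F G = 1` on the cell gives inverse operators. -/
theorem cm_fam_inv (hF : PY H F) (hG : PY H G)
    (h : ∀ y ∈ Icc (-H) H, ∀ z ∈ Icc (0:ℝ) H, F (y, z) * G (y, z) = 1) (x : HH H) :
    cm (fam F) (cm (fam G) x) = x := by
  have e : (fam fun p => F p * G p : ℤ → CI H) = fam fun _ => (1:ℝ) := by
    funext n
    exact fam_congr ((fcb_cont hF).mul (fcb_cont hG)) continuous_const h n
  rw [cm_fam_mul hF hG, e, cm_fam_const, Complex.ofReal_one, one_smul]

end

end Pool.Agent.Lib.MP_79abb3_an.SC
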