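import Pool.Agent.Lib.MP_79abb3_an.SC.FcA
import Pool.Agent.Lib.MP_79abb3_an.SC.LaF

/-!
MP_79abb3_an, simply connected domains: families of Fourier coefficients, part C: positivity of
multiplication operators.
-/

set_option autoImplicit false
set_option linter.unusedSectionVars false

open MeasureTheory Set Filter Topology Function
open scoped ENNReal InnerProductSpace

namespace Pool.Agent.Lib.MP_79abb3_an.SC

open Pool.Agent.Lib.MP_79abb3_an.P25 Pool.Agent.Lib.MP_79abb3_an.FW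

section
variable {H : ℝ} [hH : Fact (0 < H)] {F G : ℝ × ℝ → ℝ}

/-- Pointwise positivity (Toeplitz form): for `z ∈ [0,H]`,
`∑_{n,j ∈ S} conj(ξ_n) ĉ_{n-j}(z) ξ_j = (2H)⁻¹ ∫_{-H}^{H} F(y,z) |∑_{j ∈ S} ξ_j ee_j(y)|² dy ≥ 0`.
(Finite sums and the definition of `fco`; `ee_{-n} = conj ee_n`, `ee_{m+n} = ee_m ee_n`.) -/
theorem toep_nonneg (hF : Continuous F) {z : ℝ} (hz : z ∈ Icc (0:ℝ) H)
    (h0 : ∀ y ∈ Icc (-H) H, 0 ≤ F (y, z)) (S : Finset ℤ) (ξ : ℤ → ℂ) :
    0 ≤ (∑ n ∈ S, ∑ j ∈ S, star (ξ n) * (ex (fam F (n - j) : CI H) z * ξ j)).re := by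
  have hH0 : 0 < H := hH.out
  set ω : ℝ := Real.pi / H with hω
  set P : ℝ → ℂ := fun y => ∑ j ∈ S, ξ j * ee ω j y with hP
  have hFc : Continuous fun y : ℝ => ((F (y, z) : ℝ) : ℂ) :=
    Complex.continuous_ofReal.comp (hF.comp (by fun_prop))
  have hee : ∀ n : ℤ, Continuous (ee ω n) := fun n => fo_ee_continuous ω n
  have hpt : ∀ y : ℝ, (((F (y, z) * ‖P y‖ ^ 2 : ℝ)) : ℂ) =
      ∑ n ∈ S, ∑ j ∈ S, star (ξ n) * ((((F (y, z) : ℝ) : ℂ) * star (ee ω (n - j) y)) * ξ j) := by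
    intro y
    have h1 : ((‖P y‖ ^ 2 : ℝ) : ℂ) = star (P y) * P y := by
      have h2 : (starRingEnd ℂ) (P y) * P y = (‖P y‖ : ℂ) ^ 2 := Complex.conj_mul' (P y)
      rw [Complex.ofReal_pow, ← h2]
      rfl
    rw [Complex.ofReal_mul, h1, hP]
    simp only [star_sum]
    rw [Finset.sum_mul_sum, Finset.mul_sum]
    refine Finset.sum_congr rfl fun n _ => ?_
    rw [Finset.mul_sum]
    refine Finset.sum_congr rfl fun j _ => ?_
    have h3 : star (ee ω (n - j) y) = ee ω j y * star (ee ω n y) := by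
      have h4 : ee ω (n - j) y = ee ω n y * star (ee ω j y) := by
        rw [sub_eq_add_neg, ee_add, fo_ee_neg]
      rw [h4, star_mul', star_star, mul_comm]
    rw [h3, star_mul']
    ring
  have key : ∑ n ∈ S, ∑ j ∈ S, star (ξ n) * (ex (fam F (n - j) : CI H) z * ξ j) =
      (((2 * H)⁻¹ * ∫ y in (-H)..H, F (y, z) * ‖P y‖ ^ 2 : ℝ) : ℂ) := by
    rw [Complex.ofReal_mul, ← intervalIntegral.integral_ofReal]
    have h1 : ∫ y in (-H)..H, (((F (y, z) * ‖P y‖ ^ 2 : ℝ)) : ℂ) =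
        ∑ n ∈ S, ∑ j ∈ S, star (ξ n) *
          ((∫ y in (-H)..H, ((F (y, z) : ℝ) : ℂ) * star (ee ω (n - j) y)) * ξ j) := by
      have hc : ∀ n j : ℤ, Continuous fun y : ℝ =>
          star (ξ n) * ((((F (y, z) : ℝ) : ℂ) * star (ee ω (n - j) y)) * ξ j) := fun n j =>
        continuous_const.mul ((hFc.mul (hee (n - j)).star).mul continuous_const)
      rw [intervalIntegral.integral_congr (fun y _ => hpt y)]
      rw [intervalIntegral.integral_finsetSum (fun n _ =>
        (continuous_finsetSum S fun j _ => hc n j).intervalIntegrable _ _)]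
      refine Finset.sum_congr rfl fun n _ => ?_
      rw [intervalIntegral.integral_finsetSum (fun j _ => (hc n j).intervalIntegrable _ _)]
      refine Finset.sum_congr rfl fun j _ => ?_
      rw [intervalIntegral.integral_const_mul, intervalIntegral.integral_mul_const]
    rw [h1, Finset.mul_sum]
    refine Finset.sum_congr rfl fun n _ => ?_
    rw [Finset.mul_sum]
    refine Finset.sum_congr rfl fun j _ => ?_
    rw [ex_fam hF _ hz, fco, Complex.ofReal_inv]
    ring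
  rw [key, Complex.ofReal_re]
  refine mul_nonneg (by positivity) ?_
  refine intervalIntegral.integral_nonneg (by linarith) fun y hy => ?_
  exact mul_nonneg (h0 y hy) (sq_nonneg _)

private theorem fcc_sum (hF : PY H F) : Summable fun n : ℤ => ‖(fam F n : CI H)‖ := by
  have := fam_sum (H := H) hF 0
  simpa using this

private theorem fcc_single {a : ℤ → CI H} (ha : Summable fun m => ‖a m‖) (j : ℤ) (v : Z2 H) (n : ℤ) :
    cm a (lp.single 2 j v : HH H) n = mz (a (n - j)) v := by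
  have h1 := cm_hasSum ha (lp.single 2 j v : HH H) n
  have h2 : HasSum (fun i : ℤ => mz (a (n - i)) ((lp.single 2 j v : HH H) i)) (mz (a (n - j)) v) := by
    have h3 : ∀ i, i ≠ j → mz (a (n - i)) ((lp.single 2 j v : HH H) i) = 0 := by
      intro i hi
      rw [lp.single_apply_ne _ _ _ hi, map_zero]
    have h4 := hasSum_single j h3
    rw [lp.single_apply_self] at h4
    exact h4
  exact h1.unique h2

/-- **Positivity.** Proof: both sides are continuous in `x` (`cm (fam F)` is bounded), so it is enough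
to treat `x` with finite support in a finite set `S` and with modes `x n = iota (f n)` continuous
(dense: `iota_dense`, finitely supported elements are dense in `lp`), where
`⟪x, cm (fam F) x⟫ = ∑_{n,j ∈ S} ∫_0^H conj(f_n) ĉ_{n-j} f_j dz` (`cm_hasSum`, `inner_Z2`, `mz_iota`,
`coe_iota`), and the integrand has nonnegative real part by `toep_nonneg`. Alternatively, directly for
`x n ∈ Z2 H` with `inner_Z2`, `coe_mz` (almost every `z`). -/
theorem cm_fam_nonneg (hF : PY H F) (h0 : ∀ y ∈ Icc (-H) H, ∀ z ∈ Icc (0:ℝ) H, 0 ≤ F (y, z))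
    (x : HH H) : 0 ≤ (⟪x, cm (fam F) x⟫_ℂ).re := by
  have ha := fcc_sum hF
  have hFc : Continuous F := hF.smooth.continuous
  -- finite sums
  have hfin : ∀ S : Finset ℤ, 0 ≤ (⟪∑ i ∈ S, (lp.single 2 i (x i) : HH H),
      cm (fam F) (∑ i ∈ S, (lp.single 2 i (x i) : HH H))⟫_ℂ).re := by
    intro S
    have h1 : ⟪∑ i ∈ S, (lp.single 2 i (x i) : HH H),
        cm (fam F) (∑ i ∈ S, (lp.single 2 i (x i) : HH H))⟫_ℂ =
        ∑ n ∈ S, ∑ j ∈ S, ⟪x n, mz (fam F (n - j) : CI H) (x j)⟫_ℂ := by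
      rw [map_sum, sum_inner]
      refine Finset.sum_congr rfl fun n _ => ?_
      rw [inner_sum]
      refine Finset.sum_congr rfl fun j _ => ?_
      rw [lp.inner_single_left, fcc_single ha]
    have h2 : ∀ n j : ℤ, Integrable (fun z => ⟪(x n) z, (mz (fam F (n - j) : CI H) (x j)) z⟫_ℂ)
        (mH H) := fun n j => L2.integrable_inner (𝕜 := ℂ) (x n) (mz (fam F (n - j) : CI H) (x j))
    have h3 : ∑ n ∈ S, ∑ j ∈ S, ⟪x n, mz (fam F (n - j) : CI H) (x j)⟫_ℂ =
        ∫ z, ∑ n ∈ S, ∑ j ∈ S, ⟪(x n) z, (mz (fam F (n - j) : CI H) (x j)) z⟫_ℂ ∂(mH H) := by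
      rw [integral_finsetSum _ fun n _ => integrable_finsetSum _ fun j _ => h2 n j]
      refine Finset.sum_congr rfl fun n _ => ?_
      rw [integral_finsetSum _ fun j _ => h2 n j]
      exact Finset.sum_congr rfl fun j _ => L2.inner_def _ _
    have h4 : Integrable (fun z => ∑ n ∈ S, ∑ j ∈ S,
        ⟪(x n) z, (mz (fam F (n - j) : CI H) (x j)) z⟫_ℂ) (mH H) :=
      integrable_finsetSum _ fun n _ => integrable_finsetSum _ fun j _ => h2 n j
    rw [h1, h3]
    have h5 := integral_re (𝕜 := ℂ) h4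
    rw [RCLike.re_eq_complex_re] at h5
    rw [← h5]
    refine integral_nonneg_of_ae ?_
    have h6 : ∀ᵐ z ∂(mH H), ∀ n j : ℤ, (mz (fam F (n - j) : CI H) (x j)) z =
        ex (fam F (n - j) : CI H) z * (x j) z := by
      rw [ae_all_iff]
      intro n
      rw [ae_all_iff]
      intro j
      exact coe_mz _ _
    filter_upwards [h6, ae_restrict_mem measurableSet_Ioc] with z hz hzI
    have h7 := toep_nonneg (H := H) hFc (z := z) ⟨hzI.1.le, hzI.2⟩
      (fun y hy => h0 y hy z ⟨hzI.1.le, hzI.2⟩) S (fun n => (x n) z)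
    show 0 ≤ (∑ n ∈ S, ∑ j ∈ S, ⟪(x n) z, (mz (fam F (n - j) : CI H) (x j)) z⟫_ℂ).re
    refine h7.trans (le_of_eq ?_)
    congr 1
    refine Finset.sum_congr rfl fun n _ => Finset.sum_congr rfl fun j _ => ?_
    rw [hz n j, RCLike.inner_apply, mul_comm]
    rfl
  -- the limit
  have hx : HasSum (fun i : ℤ => (lp.single 2 i (x i) : HH H)) x :=
    lp.hasSum_single (by simp) x
  have hx' : Tendsto (fun S : Finset ℤ => ∑ i ∈ S, (lp.single 2 i (x i) : HH H)) atTop (𝓝 x) := hx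
  have hlim : Tendsto (fun S : Finset ℤ => (⟪∑ i ∈ S, (lp.single 2 i (x i) : HH H),
      cm (fam F) (∑ i ∈ S, (lp.single 2 i (x i) : HH H))⟫_ℂ).re) atTop
      (𝓝 (⟪x, cm (fam F) x⟫_ℂ).re) := by
    refine (Complex.continuous_re.tendsto _).comp ?_
    exact hx'.inner (((cm (fam F)).continuous.tendsto x).comp hx')
  exact ge_of_tendsto' hlim hfin

private theorem fcc_sub (hF : PY H F) (hG : PY H G) (x : HH H) :
    cm (fam (fun p => G p - F p) : ℤ → CI H) x = cm (fam G) x - cm (fam F) x := by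
  ext1
  funext n
  have h1 := cm_hasSum (fcc_sum (hG.sub hF)) x n
  have h2 := (cm_hasSum (fcc_sum hG) x n).sub (cm_hasSum (fcc_sum hF) x n)
  have h3 : (fun j => mz (fam (fun p => G p - F p) (n - j) : CI H) (x j)) =
      fun j => mz (fam G (n - j) : CI H) (x j) - mz (fam F (n - j) : CI H) (x j) := by
    funext j
    rw [fam_sub hG.smooth.continuous hF.smooth.continuous, map_sub, sub_apply]
  rw [h3] at h1
  exact h1.unique h2

private theorem fcc_const (c : ℝ) (x : HH H) :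
    cm (fam (fun _ => c) : ℤ → CI H) x = (c : ℂ) • x := by
  ext1
  funext n
  have h1 := cm_hasSum (fcc_sum (PY.const H c)) x n
  have h2 : ∀ m : ℤ, (fam (fun _ : ℝ × ℝ => c) m : CI H) =
      if m = 0 then rc (fun _ => c) continuous_const else 0 := fun m =>
    fam_z (H := H) (g := fun _ => c) continuous_const m
  have h3 : ∀ i, i ≠ n → mz (fam (fun _ : ℝ × ℝ => c) (n - i) : CI H) (x i) = 0 := by
    intro i hi
    rw [h2, if_neg (sub_ne_zero.mpr hi.symm), map_zero]
    rfl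
  have h4 := hasSum_single n h3
  have h5 : mz (fam (fun _ : ℝ × ℝ => c) (n - n) : CI H) (x n) = (c : ℂ) • x n := by
    rw [h2, sub_self, if_pos rfl]
    have h6 : (rc (fun _ => c) continuous_const : CI H) = (c : ℂ) • (1 : CI H) := by
      apply ci_ext
      intro z hz
      rw [ex_rc _ _ hz, ex_smul]
      show (c : ℂ) = (c : ℂ) * 1
      rw [mul_one]
    rw [h6, map_smul, smul_apply, mz_one]
  rw [h5] at h4
  exact h1.unique h4

/-- Monotonicity: apply `cm_fam_nonneg` to `G - F` (`fam_sub`, linearity of `cm` in the family, from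
`cm_hasSum`). -/
theorem cm_fam_mono (hF : PY H F) (hG : PY H G)
    (h : ∀ y ∈ Icc (-H) H, ∀ z ∈ Icc (0:ℝ) H, F (y, z) ≤ G (y, z)) (x : HH H) :
    (⟪x, cm (fam F) x⟫_ℂ).re ≤ (⟪x, cm (fam G) x⟫_ℂ).re := by
  have h1 := cm_fam_nonneg (hG.sub hF) (fun y hy z hz => sub_nonneg.mpr (h y hy z hz)) x
  rw [fcc_sub hF hG, inner_sub_right, Complex.sub_re] at h1
  linarith

private theorem fcc_const_inner (c : ℝ) (x : HH H) :
    (⟪x, cm (fam (fun _ => c) : ℤ → CI H) x⟫_ℂ).re = c * ‖x‖ ^ 2 := by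
  rw [fcc_const, inner_smul_right, Complex.re_ofReal_mul]
  congr 1
  have := inner_self_eq_norm_sq (𝕜 := ℂ) x
  exact this

/-- Lower bound by a constant: `c |x|² ≤ Re ⟪x, F x⟫` if `F ≥ c`. -/
theorem cm_fam_coer (hF : PY H F) {c : ℝ}
    (h : ∀ y ∈ Icc (-H) H, ∀ z ∈ Icc (0:ℝ) H, c ≤ F (y, z)) (x : HH H) :
    c * ‖x‖ ^ 2 ≤ (⟪cm (fam F) x, x⟫_ℂ).re := by
  have h1 : (⟪cm (fam F) x, x⟫_ℂ).re = (⟪x, cm (fam F) x⟫_ℂ).re := by
    have := inner_re_symm (𝕜 := ℂ) (cm (fam F) x) x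
    exact this
  rw [h1, ← fcc_const_inner c x]
  exact cm_fam_mono (PY.const H c) hF h x

/-- Upper bound by a constant. -/
theorem cm_fam_le (hF : PY H F) {c : ℝ}
    (h : ∀ y ∈ Icc (-H) H, ∀ z ∈ Icc (0:ℝ) H, F (y, z) ≤ c) (x : HH H) :
    (⟪x, cm (fam F) x⟫_ℂ).re ≤ c * ‖x‖ ^ 2 := by
  rw [← fcc_const_inner c x]
  exact cm_fam_mono hF (PY.const H c) h x

end

end Pool.Agent.Lib.MP_79abb3_an.SC
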