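import Pool.Agent.Lib.MP_79abb3_an.SC.ChPb
import Pool.Agent.Lib.MP_79abb3_an.SC.FcB
import Pool.Agent.Lib.MP_79abb3_an.SC.FcC
import Pool.Agent.Lib.MP_79abb3_an.SC.BgDef

/-!
Theorem C (MP_79abb3_an), block (v): the geometric data `Geo (r+2)` of a chart.
-/

set_option autoImplicit false
set_option linter.unusedSectionVars false

open MeasureTheory Set Filter Topology Function
open scoped ENNReal InnerProductSpace

namespace Pool.Agent.Lib.MP_79abb3_an.SC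

open Pool.Agent.Lib.MP_79abb3_an.P25 Pool.Agent.Lib.MP_79abb3_an.FW

/-- The metric factor `|F'|²`, extended by a positive function which is `1` for `|y| ≥ r + 1`. -/
theorem IsChart.exists_J {F : ℂ → ℂ} {O Ω Γ : Set ℂ} {r : ℝ} (hC : IsChart F O Ω Γ r) :
    ∃ J : ℝ × ℝ → ℝ, ContDiff ℝ ((⊤ : ℕ∞) : WithTop ℕ∞) J ∧ (∀ q, 0 < J q) ∧
      (∀ q, cxp q ∈ closure O → J q = ‖dF F (cxp q)‖ ^ 2) ∧ ∀ y z, r + 1 ≤ |y| → J (y, z) = 1 := by
  have hd : ContDiff ℝ ((⊤ : ℕ∞) : WithTop ℕ∞) fun q : ℝ × ℝ => dF F (cxp q) :=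
    (dF_smooth hC.smooth).comp cxp_contDiff
  set U : Set (ℝ × ℝ) := {q | dF F (cxp q) ≠ 0 ∧ |q.1| < r + 1} with hU
  have hUo : IsOpen U := (isOpen_ne_fun hd.continuous continuous_const).inter
    (isOpen_lt (continuous_fst.abs) continuous_const)
  have hKc : IsClosed (cxp ⁻¹' closure O) := isClosed_closure.preimage cxp_cont
  have hKU : Disjoint Uᶜ (cxp ⁻¹' closure O) := by
    rw [disjoint_compl_left_iff_subset]
    intro q hq
    have h1 := (hC.closure_sub hq).1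
    exact ⟨hC.der _ hq, by simpa using lt_of_le_of_lt h1 (by linarith)⟩
  obtain ⟨f, hf0, hf1, hf⟩ := exists_contMDiffMap_zero_one_of_isClosed (n := ⊤)
    (modelWithCornersSelf ℝ (ℝ × ℝ))
    hUo.isClosed_compl hKc hKU
  have hfs : ContDiff ℝ ((⊤ : ℕ∞) : WithTop ℕ∞) f := f.contMDiff.contDiff
  refine ⟨fun q => f q * ‖dF F (cxp q)‖ ^ 2 + (1 - f q), ?_, fun q => ?_, fun q hq => ?_,
    fun y z hy => ?_⟩
  · exact (hfs.mul (hd.norm_sq ℝ)).add (contDiff_const.sub hfs)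
  · obtain ⟨h1, h2⟩ := hf q
    rcases h1.eq_or_lt with h3 | h3
    · show 0 < f q * ‖dF F (cxp q)‖ ^ 2 + (1 - f q)
      rw [← h3]
      norm_num
    · have hq : q ∈ U := by
        by_contra hq
        have h4 : f q = 0 := hf0 hq
        linarith
      have h5 : 0 < ‖dF F (cxp q)‖ ^ 2 := by
        have := norm_pos_iff.2 hq.1
        positivity
      have := mul_pos h3 h5
      show 0 < f q * ‖dF F (cxp q)‖ ^ 2 + (1 - f q)
      linarith
  · have h1 : f q = 1 := hf1 hq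
    show f q * ‖dF F (cxp q)‖ ^ 2 + (1 - f q) = _
    rw [h1]
    ring
  · have h1 : f (y, z) = 0 := hf0 fun hq => absurd hq.2 (not_lt.2 hy)
    show f (y, z) * ‖dF F (cxp (y, z))‖ ^ 2 + (1 - f (y, z)) = 1
    rw [h1]
    ring

section
variable {H : ℝ} [hH : Fact (0 < H)] {F J : ℝ × ℝ → ℝ}

theorem PY.c2f (hF : PY H F) : C2f (fam F : ℤ → CI H) where
  c := ⟨fam_neg_n hF.smooth.continuous, fam_sum hF 4⟩
  d := ⟨fam (SC.pZ F), fam (SC.pZ (SC.pZ F)), fam_isD hF, fam_isD hF.pZ,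
    ⟨fam_neg_n hF.pZ.smooth.continuous, fam_sum hF.pZ 4⟩,
    ⟨fam_neg_n hF.pZ.pZ.smooth.continuous, fam_sum hF.pZ.pZ 4⟩⟩

theorem PY.inv (hF : PY H F) (h0 : ∀ q, 0 < F q) : PY H (fun q => (F q)⁻¹) := by
  obtain ⟨e, he, h⟩ := hF.per
  exact ⟨hF.smooth.inv fun q => (h0 q).ne', e, he, fun y z hy => congrArg Inv.inv (h y z hy)⟩

theorem PY.sqrt (hF : PY H F) (h0 : ∀ q, 0 < F q) : PY H (fun q => √(F q)) := by
  obtain ⟨e, he, h⟩ := hF.per
  exact ⟨hF.smooth.sqrt fun q => (h0 q).ne', e, he, fun y z hy => congrArg Real.sqrt (h y z hy)⟩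

/-- the cut-off `1` for `z ≤ ρ`, `0` for `z ≥ ρ'` -/
noncomputable def ctf (ρ ρ' z : ℝ) : ℝ := Real.smoothTransition ((ρ' - z) / (ρ' - ρ))

theorem ctf_smooth (ρ ρ' : ℝ) : ContDiff ℝ ((⊤ : ℕ∞) : WithTop ℕ∞) (ctf ρ ρ') :=
  Real.smoothTransition.contDiff.comp ((contDiff_const.sub contDiff_id).div_const _)

theorem ctf_one {ρ ρ' z : ℝ} (h : ρ < ρ') (hz : z ≤ ρ) : ctf ρ ρ' z = 1 := by
  refine Real.smoothTransition.one_of_one_le ?_
  rw [le_div_iff₀ (by linarith)]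
  linarith

theorem ctf_zero {ρ ρ' z : ℝ} (h : ρ < ρ') (hz : ρ' ≤ z) : ctf ρ ρ' z = 0 := by
  refine Real.smoothTransition.zero_of_nonpos ?_
  exact div_nonpos_of_nonpos_of_nonneg (by linarith) (by linarith)

theorem rc_isD {g : ℝ → ℝ} (hg : ContDiff ℝ ((⊤ : ℕ∞) : WithTop ℕ∞) g) :
    IsD (rc g hg.continuous : CI H) (rc (deriv g) (hg.continuous_deriv (by simp))) := by
  intro z hz
  have h1 : HasDerivAt g (deriv g z) z :=
    (hg.differentiable (by simp)).differentiableAt.hasDerivAt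
  rw [ex_rc _ _ hz]
  exact h1.ofReal_comp.hasDerivWithinAt.congr (fun x hx => ex_rc _ _ hx) (ex_rc _ _ hz)

/-- **The geometric data of a positive weight.** -/
theorem exists_geo (hJ : PY H J) (h0 : ∀ q, 0 < J q) {N₀ ρ : ℝ} (hN : 1 ≤ N₀) (hρ : 0 < ρ)
    (hρH : ρ < H) : ∃ G : Geo H, G.ω = Real.pi / H ∧ G.N₀ = N₀ ∧ G.ρ = ρ ∧
      G.a = fam (fun q => (J q)⁻¹) ∧ G.J = fam J ∧ G.b = fam (fun q => √(J q)) ∧
      G.bi = fam (fun q => (√(J q))⁻¹) ∧
      G.ζ = rc (ctf ρ ((ρ + H) / 2)) (ctf_smooth _ _).continuous := by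
  have hH0 := hH.out
  have hb := hJ.sqrt h0
  have hb0 : ∀ q, 0 < √(J q) := fun q => Real.sqrt_pos.2 (h0 q)
  have hbi := hb.inv hb0
  have ha := hJ.inv h0
  -- the lower bound
  obtain ⟨C, hC⟩ := (isCompact_Icc (a := -H) (b := H)).prod (isCompact_Icc (a := (0:ℝ)) (b := H))
    |>.exists_bound_of_continuousOn hJ.smooth.continuous.continuousOn
  have hC0 : 0 < C := (h0 (0, 0)).trans_le ((le_abs_self _).trans
    (hC (0, 0) ⟨⟨by linarith, hH0.le⟩, le_rfl, hH0.le⟩))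
  have hco : ∀ y ∈ Icc (-H) H, ∀ z ∈ Icc (0:ℝ) H, C⁻¹ ≤ (fun q => (J q)⁻¹) (y, z) := by
    intro y hy z hz
    exact inv_anti₀ (h0 _) ((le_abs_self _).trans (hC (y, z) ⟨hy, hz⟩))
  set f := ctf ρ ((ρ + H) / 2) with hf
  have hfs : ContDiff ℝ ((⊤ : ℕ∞) : WithTop ℕ∞) f := ctf_smooth _ _
  have hfs1 : ContDiff ℝ ((⊤ : ℕ∞) : WithTop ℕ∞) (deriv f) :=
    ((contDiff_infty_iff_deriv (𝕜 := ℝ)).1 hfs).2
  refine ⟨{ ω := Real.pi / H
            N₀ := N₀
            c₀ := C⁻¹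
            ρ := ρ
            a := fam (fun q => (J q)⁻¹)
            J := fam J
            b := fam (fun q => √(J q))
            bi := fam (fun q => (√(J q))⁻¹)
            ζ := rc f hfs.continuous
            ζ1 := rc (deriv f) hfs1.continuous
            ζ2 := rc (deriv (deriv f)) (hfs1.continuous_deriv (by simp))
            hω := rfl
            hN := hN
            ha := ha.c2f
            hJ := hJ.c2f
            hb := hb.c2f
            hbi := hbi.c2f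
            hc := inv_pos.2 hC0
            coer := cm_fam_coer ha hco
            aJ := cm_fam_inv ha hJ fun y _ z _ => inv_mul_cancel₀ (h0 _).ne'
            Ja := cm_fam_inv hJ ha fun y _ z _ => mul_inv_cancel₀ (h0 _).ne'
            bb := fun x => ?_
            b1 := cm_fam_inv hb hbi fun y _ z _ => mul_inv_cancel₀ (hb0 _).ne'
            b2 := cm_fam_inv hbi hb fun y _ z _ => inv_mul_cancel₀ (hb0 _).ne'
            ζ_d := rc_isD hfs
            ζ1_d := rc_isD hfs1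
            ζ_real := ?_
            ρ0 := hρ
            ρH := hρH
            ζ_one := fun z hz => ?_
            ζ_zero := ⟨(ρ + H) / 2, by linarith, fun z hz => ?_⟩ }, rfl, rfl, rfl, rfl, rfl, rfl, rfl,
            rfl⟩
  · rw [cm_fam_mul hb hb]
    congr 2
    funext q
    exact congrArg (fun F : ℝ × ℝ → ℝ => (fam F q : CI H))
      (funext fun p => Real.mul_self_sqrt (h0 p).le)
  · refine ci_ext fun z hz => ?_
    rw [ex_star, ex_rc _ _ hz]
    exact Complex.conj_ofReal _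
  · rw [ex_rc _ _ ⟨hz.1, hz.2.trans hρH.le⟩, hf, ctf_one (by linarith) hz.2, Complex.ofReal_one]
  · rw [ex_rc _ _ ⟨by linarith [hz.1], hz.2⟩, hf, ctf_zero (by linarith) hz.1, Complex.ofReal_zero]

end

/-- **The geometric data of a chart**: `H = r + 2`, `a |F'|² = 1` on the closure of `O`. -/
theorem IsChart.exists_geo {F : ℂ → ℂ} {O Ω Γ : Set ℂ} {r : ℝ} [Fact (0 < r + 2)]
    (hC : IsChart F O Ω Γ r) {N₀ ρ : ℝ} (hN : 1 ≤ N₀) (hρ : 0 < ρ) (hρH : ρ < r + 2) :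
    ∃ (J : ℝ × ℝ → ℝ) (G : Geo (r + 2)), PY (r + 2) J ∧ (∀ q, 0 < J q) ∧
      PY (r + 2) (fun q => (J q)⁻¹) ∧
      (∀ q, cxp q ∈ closure O → J q = ‖dF F (cxp q)‖ ^ 2) ∧
      (∀ q, cxp q ∈ closure O → (J q)⁻¹ * ‖dF F (cxp q)‖ ^ 2 = 1) ∧
      G.ω = Real.pi / (r + 2) ∧ G.N₀ = N₀ ∧ G.ρ = ρ ∧
      G.a = fam (fun q => (J q)⁻¹) ∧ G.J = fam J ∧ G.b = fam (fun q => √(J q)) ∧
      G.bi = fam (fun q => (√(J q))⁻¹) ∧
      G.ζ = rc (ctf ρ ((ρ + (r + 2)) / 2)) (ctf_smooth _ _).continuous := by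
  obtain ⟨J, h1, h2, h3, h4⟩ := hC.exists_J
  have hJ : PY (r + 2) J := by
    refine ⟨h1, 1, one_pos, fun y z hy => ?_⟩
    obtain ⟨h5, h6⟩ := abs_lt.1 hy
    rw [h4 (y + 2 * (r + 2)) z (le_trans (by linarith) (le_abs_self _)),
      h4 y z (le_trans (by linarith) (neg_le_abs _))]
  obtain ⟨G, hG⟩ := SC.exists_geo hJ h2 hN hρ hρH
  refine ⟨J, G, hJ, h2, hJ.inv h2, h3, fun q hq => ?_, hG⟩
  rw [h3 q hq]
  exact inv_mul_cancel₀ (pow_ne_zero 2 (norm_ne_zero_iff.2 (hC.der _ hq)))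

end Pool.Agent.Lib.MP_79abb3_an.SC
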