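import Pool.Agent.Lib.MP_79abb3_an.SC.ExE
import Pool.Agent.Lib.MP_79abb3_an.SC.FcB
import Pool.Agent.Lib.MP_79abb3_an.SC.FcC

/-!
MP_79abb3_an, simply connected domains, block (iii): multiplication operators `cm (fam F)`: symmetry,
sup bounds, functions of `z`.
-/

set_option autoImplicit false
set_option linter.unusedSectionVars false

open MeasureTheory Set Filter Topology Function
open scoped ENNReal InnerProductSpace

namespace Pool.Agent.Lib.MP_79abb3_an.SC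

open Pool.Agent.Lib.MP_79abb3_an.P25 Pool.Agent.Lib.MP_79abb3_an.FW

section
variable {H : ℝ} [hH : Fact (0 < H)] {F G : ℝ × ℝ → ℝ}

/-- Proof: `fam_neg_n`, `fam_sum`. -/
theorem fam_cf (hF : PY H F) (p : ℕ) : Cf p (fam F : ℤ → CI H) := by
  exact ⟨fun n => fam_neg_n hF.smooth.continuous n, fam_sum hF p⟩

theorem fam_s0 (hF : PY H F) : Summable fun n => ‖(fam F n : CI H)‖ := by
  exact (fam_cf hF 0).s0

/-- Proof: `inner_cm` and `fam_cf`. -/
theorem inner_cm_fam (hF : PY H F) (x y : HH H) :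
    ⟪cm (fam F) x, y⟫_ℂ = ⟪x, cm (fam F) y⟫_ℂ := by
  exact inner_cm (fam_cf hF 0) x y

/-- Proof: `cm_comm` (ExE). -/
theorem cm_fam_comm (hF : PY H F) {a : ℤ → CI H} (ha : Summable fun n => ‖a n‖) (x : HH H) :
    cm (fam F) (cm a x) = cm a (cm (fam F) x) := by
  exact cm_comm (fam_s0 hF) ha x

/-- functions of `z`: `cm_hasSum`, `fam_z`, `Ms_apply` -/
theorem cm_fam_z {g : ℝ → ℝ} (hg : Continuous g) (x : HH H) :
    cm (fam fun p => g p.2) x = Ms (rc g hg) x := by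
  have hz : ∀ m : ℤ, (fam (fun p : ℝ × ℝ => g p.2) m : CI H) = if m = 0 then rc g hg else 0 :=
    fun m => fam_z hg m
  have hs : Summable fun m : ℤ => ‖(fam (fun p : ℝ × ℝ => g p.2) m : CI H)‖ := by
    refine summable_of_ne_finset_zero (s := {0}) fun m hm => ?_
    rw [hz m, if_neg (by simpa using hm), norm_zero]
  refine lp.ext (funext fun n => ?_)
  have h1 := cm_hasSum hs x n
  have h2 : HasSum (fun j => mz (fam (fun p : ℝ × ℝ => g p.2) (n - j) : CI H) (x j))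
      (mz (fam (fun p : ℝ × ℝ => g p.2) (n - n) : CI H) (x n)) := by
    refine hasSum_single n fun j hj => ?_
    rw [hz, if_neg (sub_ne_zero.2 hj.symm), map_zero]
    rfl
  rw [h1.unique h2, hz, sub_self, if_pos rfl]
  exact (Ms_apply _ x n).symm

private theorem fcd_sq (hG : PY H G) (x : HH H) :
    (⟪x, cm (fam fun p => G p * G p) x⟫_ℂ).re = ‖cm (fam G) x‖ ^ 2 := by
  rw [← cm_fam_mul hG hG x, ← inner_cm_fam hG]
  exact inner_self_eq_norm_sq (𝕜 := ℂ) (cm (fam G) x)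

/-- Proof: `|F x|² = ⟪x, F² x⟫` (`inner_cm_fam`, `cm_fam_mul`) and `cm_fam_mono` for `F² ≤ G²`. -/
theorem norm_cm_fam_mono (hF : PY H F) (hG : PY H G)
    (h : ∀ y ∈ Icc (-H) H, ∀ z ∈ Icc (0:ℝ) H, |F (y, z)| ≤ |G (y, z)|) (x : HH H) :
    ‖cm (fam F) x‖ ≤ ‖cm (fam G) x‖ := by
  have h1 := cm_fam_mono (hF.mul hF) (hG.mul hG) (fun y hy z hz => by
    have h2 := sq_le_sq.2 (h y hy z hz)
    rw [sq, sq] at h2
    exact h2) x
  rw [fcd_sq hF x, fcd_sq hG x] at h1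
  exact (sq_le_sq₀ (norm_nonneg _) (norm_nonneg _)).1 h1

/-- Proof: `norm_cm_fam_mono` with `G = C` and `cm_fam_const`. -/
theorem norm_cm_fam_le (hF : PY H F) {C : ℝ} (hC : 0 ≤ C)
    (h : ∀ y ∈ Icc (-H) H, ∀ z ∈ Icc (0:ℝ) H, |F (y, z)| ≤ C) (x : HH H) :
    ‖cm (fam F) x‖ ≤ C * ‖x‖ := by
  have h1 := norm_cm_fam_mono hF (PY.const H C) (fun y hy z hz => by
    rw [abs_of_nonneg hC]
    exact h y hy z hz) x
  rw [cm_fam_const, norm_smul, Complex.norm_real, Real.norm_eq_abs, abs_of_nonneg hC] at h1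
  exact h1

/-- `(a x)_n = 0` unless ...: `cm` of a sum of two squares dominates: `F² + G² ≤ K²` gives
`|F x|² + |G x|² ≤ |K x|²` -/
theorem norm_cm_fam_sq_add {K : ℝ × ℝ → ℝ} (hF : PY H F) (hG : PY H G) (hK : PY H K)
    (h : ∀ y ∈ Icc (-H) H, ∀ z ∈ Icc (0:ℝ) H, F (y, z) ^ 2 + G (y, z) ^ 2 ≤ K (y, z) ^ 2) (x : HH H) :
    ‖cm (fam F) x‖ ^ 2 + ‖cm (fam G) x‖ ^ 2 ≤ ‖cm (fam K) x‖ ^ 2 := by
  have h1 := cm_fam_mono ((hF.mul hF).add (hG.mul hG)) (hK.mul hK) (fun y hy z hz => by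
    have h2 := h y hy z hz
    rw [sq, sq, sq] at h2
    exact h2) x
  rw [cm_fam_add (hF.mul hF) (hG.mul hG), inner_add_right, Complex.add_re, fcd_sq hF x, fcd_sq hG x,
    fcd_sq hK x] at h1
  exact h1

/-- For `F ≥ 0` with a smooth square root. Proof: `inner_cm_fam`, `cm_fam_mul`. -/
theorem cm_fam_sq (hG : PY H G) (x : HH H) :
    (⟪x, cm (fam fun p => G p * G p) x⟫_ℂ).re = ‖cm (fam G) x‖ ^ 2 := by
  exact fcd_sq hG x

end

end Pool.Agent.Lib.MP_79abb3_an.SC
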