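import Pool.Agent.Lib.MP_79abb3_an.SC.ExM
import Pool.Agent.Lib.MP_79abb3_an.SC.FcB

/-!
Theorem C, phase 0: the lift of smooth data.
-/

set_option autoImplicit false
set_option linter.unusedSectionVars false

open MeasureTheory Set Filter Topology Function
open scoped ENNReal InnerProductSpace

namespace Pool.Agent.Lib.MP_79abb3_an.SC

open Pool.Agent.Lib.MP_79abb3_an.P25

section
variable {H : ℝ} [hH : Fact (0 < H)] {F G ψ : ℝ × ℝ → ℝ}

theorem pz_fam_sum0 (hF : PY H F) : Summable fun n : ℤ => ‖(fam F n : CI H)‖ := by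
  simpa using fam_sum hF 0

theorem pz_io_sq (hF : PY H F) : Summable fun n : ℤ => ‖io (fam F : ℤ → CI H) n‖ ^ 2 :=
  sq_summable_of (by
    refine Summable.of_nonneg_of_le (fun _ => norm_nonneg _) (fun n => ?_)
      ((pz_fam_sum0 hF).mul_left ‖(iota : CI H →L[ℂ] Z2 H)‖)
    exact iota.le_opNorm _)

/-- A smooth periodic function as an element of `HH`. -/
noncomputable def fH (hF : PY H F) : HH H := mkl2 (io (fam F)) (pz_io_sq hF)

@[simp] theorem fH_apply (hF : PY H F) (n : ℤ) : fH hF n = (iota (fam F n : CI H) : Z2 H) := rfl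

theorem fH_add (hF : PY H F) (hG : PY H G) : fH (hF.add hG) = fH hF + fH hG := by
  ext1
  funext n
  rw [lp.coeFn_add, Pi.add_apply, fH_apply, fH_apply, fH_apply,
    fam_add hF.smooth.continuous hG.smooth.continuous, map_add]

theorem fH_neg (hF : PY H F) : fH hF.neg = -fH hF := by
  ext1
  funext n
  have h1 : (fam (fun p => -F p) n : CI H) = -fam F n := by
    have h2 := fam_smul (H := H) (-1) hF.smooth.continuous n
    have e : (fun p => -1 * F p) = fun p => -F p := by funext p; ring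
    rw [e] at h2
    rw [h2, Complex.ofReal_neg, Complex.ofReal_one]
    exact neg_one_smul ℂ (fam F n : CI H)
  rw [lp.coeFn_neg, Pi.neg_apply, fH_apply, fH_apply, h1, map_neg]

/-- multiplication by a smooth periodic function -/
theorem cm_fH {a : ℝ × ℝ → ℝ} (ha : PY H a) (hF : PY H F) : cm (fam a) (fH hF) = fH (ha.mul hF) := by
  ext1
  funext n
  have h1 := cm_hasSum (pz_fam_sum0 ha) (fH hF) n
  rw [← h1.tsum_eq, fH_apply, fam_mul ha hF n]
  have hs : Summable fun j : ℤ => (fam a j : CI H) * fam F (n - j) := by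
    refine Summable.of_norm_bounded ((pz_fam_sum0 ha).mul_right (∑' k, ‖(fam F k : CI H)‖)) fun j => ?_
    exact (norm_mul_le _ _).trans (mul_le_mul_of_nonneg_left
      ((pz_fam_sum0 hF).le_tsum (n - j) fun _ _ => norm_nonneg _) (norm_nonneg _))
  rw [iota.map_tsum hs, ← (Equiv.subLeft n).tsum_eq]
  refine tsum_congr fun j => ?_
  show mz (fam a (n - (n - j)) : CI H) (fH hF (n - j)) = _
  rw [sub_sub_cancel, fH_apply, mz_iota]

/-! ### Differential operators -/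

/-- `-Δψ` -/
noncomputable def lapN (ψ : ℝ × ℝ → ℝ) (p : ℝ × ℝ) : ℝ := -(pY (pY ψ) p + pZ (pZ ψ) p)

theorem PY.lapN (h : PY H ψ) : PY H (lapN ψ) := (h.pY.pY.add h.pZ.pZ).neg

theorem kI_sq (ω : ℝ) (n : ℤ) : kI ω n * kI ω n = -((ω * n : ℝ) : ℂ) ^ 2 := by
  unfold kI
  have h : Complex.I * Complex.I = -1 := Complex.I_mul_I
  linear_combination (((ω * n : ℝ) : ℂ)) ^ 2 * h

theorem fam_lapN (h : PY H ψ) (n : ℤ) : (fam (lapN ψ) n : CI H) =
    ((Real.pi / H * n : ℝ) : ℂ) ^ 2 • fam ψ n - fam (pZ (pZ ψ)) n := by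
  have h1 : (fam (lapN ψ) n : CI H) = -(fam (fun p => pY (pY ψ) p + pZ (pZ ψ) p) n) := by
    have h2 := fam_smul (H := H) (-1) (h.pY.pY.add h.pZ.pZ).smooth.continuous n
    have e : (fun p => -1 * (pY (pY ψ) p + pZ (pZ ψ) p)) = lapN ψ := by
      funext p; unfold lapN; ring
    rw [e] at h2
    rw [h2, Complex.ofReal_neg, Complex.ofReal_one]
    exact neg_one_smul ℂ (fam (fun p => pY (pY ψ) p + pZ (pZ ψ) p) n : CI H)
  rw [h1, fam_add h.pY.pY.smooth.continuous h.pZ.pZ.smooth.continuous, fam_dy h.pY, fam_dy h,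
    smul_smul, kI_sq]
  refine ci_ext fun z hz => ?_
  rw [ex_neg, ex_add, ex_sub, ex_smul, ex_smul]
  ring

theorem pz_ka (n : ℤ) : ka (Real.pi / H) n = ((|Real.pi / H * n| : ℝ) : ℂ) := rfl

/-- weighted summability of the modes -/
theorem pz_wt (hF : PY H F) : Summable fun n : ℤ => |Real.pi / H * n| * ‖(fam F n : CI H)‖ := by
  have hH0 := hH.out
  refine Summable.of_nonneg_of_le (fun n => by positivity) (fun n => ?_)
    ((fam_sum hF 1).mul_left (Real.pi / H))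
  rw [abs_mul, abs_of_pos (div_pos Real.pi_pos hH0), mul_assoc]
  refine mul_le_mul_of_nonneg_left ?_ (div_pos Real.pi_pos hH0).le
  refine mul_le_mul_of_nonneg_right ?_ (norm_nonneg _)
  rw [pow_one]
  linarith [abs_nonneg (n:ℝ)]

/-- `B* F = ∂_z F + |D| F`, modes in `CI H` -/
noncomputable def bsF (F : ℝ × ℝ → ℝ) (n : ℤ) : CI H := ka (Real.pi / H) n • fam F n + fam (pZ F) n

theorem bsF_sum (hF : PY H F) : Summable fun n : ℤ => ‖(bsF F n : CI H)‖ := by
  refine Summable.of_nonneg_of_le (fun _ => norm_nonneg _) (fun n => ?_)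
    ((pz_wt hF).add (pz_fam_sum0 hF.pZ))
  refine (norm_add_le _ _).trans (add_le_add ?_ le_rfl)
  rw [norm_smul, norm_ka]

/-- `B* F` -/
noncomputable def bsH (hF : PY H F) : HH H := mkl2 (io (bsF F)) (sq_summable_of (by
    refine Summable.of_nonneg_of_le (fun _ => norm_nonneg _) (fun n => ?_)
      ((bsF_sum hF).mul_left ‖(iota : CI H →L[ℂ] Z2 H)‖)
    exact iota.le_opNorm _))

@[simp] theorem bsH_apply (hF : PY H F) (n : ℤ) : bsH hF n = (iota (bsF F n : CI H) : Z2 H) := rfl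

/-- functions which vanish near `z = H` -/
def VanT (H : ℝ) (F : ℝ × ℝ → ℝ) : Prop := ∃ ε > 0, ∀ y z, H - ε ≤ z → F (y, z) = 0

theorem VanT.fd (h : VanT H F) (v : ℝ × ℝ) : VanT H (fun p => fderiv ℝ F p v) := by
  obtain ⟨ε, hε, h1⟩ := h
  refine ⟨ε / 2, by positivity, fun y z hz => ?_⟩
  have h2 : F =ᶠ[𝓝 (y, z)] fun _ => 0 := by
    have h3 : IsOpen {p : ℝ × ℝ | H - ε < p.2} := isOpen_lt continuous_const continuous_snd
    filter_upwards [h3.mem_nhds (show (y, z) ∈ {p : ℝ × ℝ | H - ε < p.2} by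
      show H - ε < z; linarith)] with p hp
    exact h1 p.1 p.2 (le_of_lt hp)
  show fderiv ℝ F (y, z) v = 0
  rw [h2.fderiv_eq]
  simp

theorem VanT.fam (hc : Continuous F) (h : VanT H F) (n : ℤ) : ex (fam F n : CI H) H = 0 := by
  obtain ⟨ε, hε, h1⟩ := h
  rw [ex_fam hc n H_memI, fco]
  have h3 : ∀ y, F (y, H) = 0 := fun y => h1 y H (by linarith)
  simp only [h3, Complex.ofReal_zero, zero_mul, intervalIntegral.integral_zero, mul_zero]

/-- `T (-Δψ) = B* ψ` -/
theorem Tz_lapN (h : PY H ψ) (ht : VanT H ψ) (n : ℤ) :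
    Tz (Real.pi / H * n) (fH h.lapN n) = bsF ψ n := by
  have e : fH h.lapN n = ((Real.pi / H * n : ℝ) : ℂ) ^ 2 • (iota (fam ψ n : CI H) : Z2 H) -
      iota (fam (pZ (pZ ψ)) n) := by
    rw [fH_apply, fam_lapN h, map_sub, map_smul]
  rw [e]
  exact Tz_test _ (fam_isD h n) (fam_isD h.pZ n) (ht.fam h.smooth.continuous n)
    ((ht.fd (0, 1)).fam h.pZ.smooth.continuous n)

theorem TT_lapN (h : PY H ψ) (ht : VanT H ψ) : TT (Real.pi / H) (fH h.lapN) = bsH h := by
  ext1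
  funext n
  rw [TT_apply, T2_apply, Tz_lapN h ht]
  rfl

theorem Vf_lapN (h : PY H ψ) (ht : VanT H ψ) (n : ℤ) :
    Vf (Real.pi / H) (fH h.lapN) n = bsF ψ n := Tz_lapN h ht n

/-- `E (B* g) = g - e^{-|k|z} g(0)` -/
theorem Ez_bs (k : ℝ) {g g1 : CI H} (h1 : IsD g g1) :
    Ez k (iota (((|k| : ℝ) : ℂ) • g + g1)) = g - ex g 0 • fe (-|k|) := by
  refine (Ez_unique ?_ ?_).symm
  · have h2 := (IsD.dz h1).sub ((IsD.dz (fe_isD (H := H) (-|k|))).smul (ex g 0))
    have e : (iota (((|k| : ℝ) : ℂ) • g + g1) : Z2 H) -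
        ((|k| : ℝ) : ℂ) • iota (g - ex g 0 • fe (-|k|)) =
        iota g1 - ex g 0 • (iota (-|k| • fe (-|k|)) : Z2 H) := by
      rw [iota_rsmul, map_add, map_smul, map_sub, map_smul, smul_sub, Complex.ofReal_neg, neg_smul,
        smul_neg, smul_comm (ex g 0)]
      abel
    rw [e]
    exact h2
  · rw [ex_sub, ex_smul, ex_fe_zero, mul_one, sub_self]

/-- adjointness of `B` and `B*`: `⟨g, F⟩ = ⟨T g, B* F⟩` if `(T g)(0) = 0` -/
theorem inner_bsH (hF : PY H F) {g : HH H} (hg : PP (Real.pi / H) g = g) :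
    ⟪g, fH hF⟫_ℂ = ⟪TT (Real.pi / H) g, bsH hF⟫_ℂ := by
  have h1 := lp.hasSum_inner (𝕜 := ℂ) g (fH hF)
  have h2 := lp.hasSum_inner (𝕜 := ℂ) (TT (Real.pi / H) g) (bsH hF)
  refine h1.unique ?_
  have e : (fun n => ⟪g n, fH hF n⟫_ℂ) = fun n => ⟪TT (Real.pi / H) g n, bsH hF n⟫_ℂ := by
    funext n
    have hg' : P2 (Real.pi / H * n) (g n) = g n := by
      rw [← PP_apply, hg]
    have h3 := ibp_B (Real.pi / H * n) (IsD.dz (fam_isD hF n)) hg'
    have h4 := congrArg (starRingEnd ℂ) h3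
    rw [inner_conj_symm, inner_conj_symm] at h4
    rw [fH_apply, h4, TT_apply, bsH_apply, bsF, map_add, map_smul]
    rfl
  rw [e]; exact h2

end

end Pool.Agent.Lib.MP_79abb3_an.SC
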