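import Pool.Agent.Lib.MP_79abb3_an.SC.PzF
import Pool.Agent.Lib.MP_79abb3_an.SC.PzA

/-!
Theorem C, phase 0: the lift datum of a smooth stream function.
-/

set_option autoImplicit false
set_option linter.unusedSectionVars false

open MeasureTheory Set Filter Topology Function
open scoped ENNReal InnerProductSpace

namespace Pool.Agent.Lib.MP_79abb3_an.SC

open Pool.Agent.Lib.MP_79abb3_an.P25

section
variable {H : ℝ} [hH : Fact (0 < H)] {a ψ F : ℝ × ℝ → ℝ}

/-- the coefficients of `ψ(y, 0)` -/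
noncomputable def p0 (H : ℝ) [Fact (0 < H)] (ψ : ℝ × ℝ → ℝ) (n : ℤ) : ℂ := ex (fam ψ n : CI H) 0

theorem rap_p0 (h : PY H ψ) : Rap (p0 H ψ) where
  s p := Summable.of_nonneg_of_le (fun n => by positivity)
    (fun n => mul_le_mul_of_nonneg_left (norm_ex_le _ _) (by positivity)) (fam_sum h p)
  re n := by
    show ex (fam ψ (-n) : CI H) 0 = star (ex (fam ψ n : CI H) 0)
    rw [fam_neg_n h.smooth.continuous, ex_star]

theorem cj_fH (hF : PY H F) : cjX (fH hF) = fH hF := by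
  ext1
  funext n
  rw [cjX_apply, fH_apply, fH_apply, cz_iota, fam_neg_n hF.smooth.continuous, star_star_ci]

theorem bsF_neg (hF : PY H F) (n : ℤ) : (bsF F (-n) : CI H) = star (bsF F n) := by
  unfold bsF
  rw [fam_neg_n hF.smooth.continuous, fam_neg_n hF.pZ.smooth.continuous, star_add, star_smul_ci,
    star_ka, ka_neg]

theorem cj_bsH (hF : PY H F) : cjX (bsH hF) = bsH hF := by
  ext1
  funext n
  rw [cjX_apply, bsH_apply, bsH_apply, cz_iota, bsF_neg hF, star_star_ci]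

theorem ef_div (ω : ℝ) (p : ℤ → ℂ) (n : ℤ) :
    DZ (ef ω (fun n => -(kI ω n * p n)) n : CI H)
      (-(kI ω n) • (iota (ef ω (fun n => -(ka ω n * p n)) n : CI H) : Z2 H)) := by
  have h1 := IsD.dz (ef_isD (H := H) ω (fun n => -(kI ω n * p n)) n)
  have e : -(kI ω n) • (iota (ef ω (fun n => -(ka ω n * p n)) n : CI H) : Z2 H) =
      iota (ef ω (fun n => -(ka ω n * -(kI ω n * p n))) n : CI H) := by
    rw [← map_smul]
    congr 1
    refine ci_ext fun z _ => ?_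
    unfold ef
    rw [ex_smul, ex_smul, ex_smul]
    ring
  rw [e]; exact h1

theorem ka_sq (ω : ℝ) (n : ℤ) : ka ω n * ka ω n = -(kI ω n * kI ω n) := by
  rw [kI_sq, neg_neg]
  unfold ka
  rw [← Complex.ofReal_mul, ← Complex.ofReal_pow, abs_mul_abs_self]
  congr 1
  ring

theorem ef_curl (ω : ℝ) (p : ℤ → ℂ) (n : ℤ) :
    DZ (ef ω (fun n => -(ka ω n * p n)) n : CI H)
      (kI ω n • (iota (ef ω (fun n => -(kI ω n * p n)) n : CI H) : Z2 H)) := by
  have h1 := IsD.dz (ef_isD (H := H) ω (fun n => -(ka ω n * p n)) n)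
  have e : kI ω n • (iota (ef ω (fun n => -(kI ω n * p n)) n : CI H) : Z2 H) =
      iota (ef ω (fun n => -(ka ω n * -(ka ω n * p n))) n : CI H) := by
    rw [← map_smul]
    congr 1
    refine ci_ext fun z _ => ?_
    unfold ef
    rw [ex_smul, ex_smul, ex_smul]
    linear_combination (-(p n * ex (fe (-|ω * n|) : CI H) z)) * ka_sq ω n
  rw [e]; exact h1

namespace Geo

theorem Qd_fH {G : Geo H} (hF : PY H F) : G.Qd.adjoint (fH hF) = G.J4 (bsH hF) := by
  refine ext_inner_left ℂ fun φ => ?_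
  rw [ContinuousLinearMap.adjoint_inner_right, G.inner_J4]
  have h1 := G.PP_Qd φ
  have hω := G.hω
  rw [hω] at h1 ⊢
  exact inner_bsH hF h1

/-- **The lift datum of a smooth stream function.** -/
noncomputable def ld (G : Geo H) (ha : PY H a) (hGa : G.a = fam a) (hψ : PY H ψ) (ht : VanT H ψ) :
    G.LD where
  v := ef G.ω (fun n => -(ka G.ω n * p0 H ψ n))
  w := ef G.ω (fun n => -(kI G.ω n * p0 H ψ n))
  g := fH hψ.lapN
  A := bsH (ha.mul hψ.lapN)
  cv := ef_c1 _ ((rap_p0 hψ).kmul G.ω).1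
  cw := ef_c1 _ ((rap_p0 hψ).kmul G.ω).2
  div := ef_div G.ω _
  curl := ef_curl G.ω _
  gr := cj_fH _
  Ar := cj_bsH _
  adj := by
    rw [hGa, cm_fH ha]
    exact Qd_fH _
  l1 := by
    have hω := G.hω
    rw [hω]
    have e : (fun n => ‖Vf (Real.pi / H) (⇑(fH hψ.lapN)) n‖) = fun n => ‖(bsF ψ n : CI H)‖ := by
      funext n
      rw [Vf_lapN hψ ht]
    rw [e]
    exact bsF_sum hψ

variable (G : Geo H) (ha : PY H a) (hGa : G.a = fam a) (hψ : PY H ψ) (ht : VanT H ψ)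

/-- the total velocity of the lift datum is `(∂_z ψ, -∂_y ψ)` -/
theorem ld_v (n : ℤ) : uV G.ω (Vf G.ω (G.ld ha hGa hψ ht).g) n + (G.ld ha hGa hψ ht).v n =
    fam (pZ ψ) n := by
  show uV G.ω (Vf G.ω (⇑(fH hψ.lapN))) n + ef G.ω (fun n => -(ka G.ω n * p0 H ψ n)) n = _
  have hω := G.hω
  rw [hω]
  have e1 : uV (Real.pi / H) (Vf (Real.pi / H) (⇑(fH hψ.lapN))) n =
      bsF ψ n - ka (Real.pi / H) n • Ez (Real.pi / H * n) (iota (bsF ψ n)) := by
    unfold uV
    rw [Vf_lapN hψ ht]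
  have e2 : Ez (Real.pi / H * n) (iota (bsF ψ n)) =
      fam ψ n - ex (fam ψ n : CI H) 0 • fe (-|Real.pi / H * n|) := Ez_bs _ (fam_isD hψ n)
  rw [e1, e2]
  refine ci_ext fun z _ => ?_
  unfold bsF ef p0
  rw [ex_add, ex_sub, ex_add, ex_smul, ex_smul, ex_smul, ex_sub, ex_smul]
  ring

theorem ld_w (n : ℤ) : wV G.ω (Vf G.ω (G.ld ha hGa hψ ht).g) n + (G.ld ha hGa hψ ht).w n =
    -fam (pY ψ) n := by
  show wV G.ω (Vf G.ω (⇑(fH hψ.lapN))) n + ef G.ω (fun n => -(kI G.ω n * p0 H ψ n)) n = _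
  have hω := G.hω
  rw [hω]
  have e1 : wV (Real.pi / H) (Vf (Real.pi / H) (⇑(fH hψ.lapN))) n =
      -(kI (Real.pi / H) n) • Ez (Real.pi / H * n) (iota (bsF ψ n)) := by
    unfold wV
    rw [Vf_lapN hψ ht]
  have e2 : Ez (Real.pi / H * n) (iota (bsF ψ n)) =
      fam ψ n - ex (fam ψ n : CI H) 0 • fe (-|Real.pi / H * n|) := Ez_bs _ (fam_isD hψ n)
  rw [e1, e2, fam_dy hψ]
  refine ci_ext fun z _ => ?_
  unfold ef p0
  rw [ex_add, ex_smul, ex_smul, ex_sub, ex_smul, ex_neg, ex_smul]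
  ring

end Geo

end

end Pool.Agent.Lib.MP_79abb3_an.SC
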