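import Pool.Agent.Lib.MP_79abb3_an.SC.ApI
import Pool.Agent.Lib.MP_79abb3_an.SC.LaE

/-!
MP_79abb3_an, simply connected domains: the velocity `u[V]`, the projected vortex force `P(Om, u)` and
the trilinear form `b(Om, u; f) = ∫ Om (w θ_z + v θ_y)`, `θ = E f`, on families of modes.
-/

set_option autoImplicit false
set_option linter.unusedSectionVars false

open MeasureTheory Set Filter Topology Function
open scoped ENNReal InnerProductSpace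

namespace Pool.Agent.Lib.MP_79abb3_an.SC

open Pool.Agent.Lib.MP_79abb3_an.P25

section
variable {H : ℝ} [hH : Fact (0 < H)] {lam : ℤ → ℝ}

/-- `|k_n|` as a complex number -/
noncomputable def ka (ω : ℝ) (n : ℤ) : ℂ := ((|ω * n| : ℝ) : ℂ)

theorem norm_ka (ω : ℝ) (n : ℤ) : ‖ka ω n‖ = |ω * n| := by
  unfold ka; rw [Complex.norm_real, Real.norm_eq_abs, abs_abs]

theorem conj_ka (ω : ℝ) (n : ℤ) : (starRingEnd ℂ) (ka ω n) = ka ω n := Complex.conj_ofReal _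

theorem kI_mul_kI (ω : ℝ) (n : ℤ) : kI ω n * kI ω n = -(ka ω n * ka ω n) := by
  unfold kI ka
  have h : ((|ω * (n:ℝ)| : ℝ) : ℂ) * ((|ω * (n:ℝ)| : ℝ) : ℂ) = ((ω * n : ℝ) : ℂ) * ((ω * n : ℝ) : ℂ) := by
    rw [← Complex.ofReal_mul, ← Complex.ofReal_mul, abs_mul_abs_self]
  rw [h]
  have : Complex.I * Complex.I = -1 := Complex.I_mul_I
  linear_combination (((ω * n : ℝ) : ℂ) * ((ω * n : ℝ) : ℂ)) * this

/-- `v = V - |D| E V` -/
noncomputable def uV (ω : ℝ) (V : ℤ → CI H) (n : ℤ) : CI H := V n - ka ω n • Ez (ω * n) (iota (V n))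

/-- `w = -∂_y E V` -/
noncomputable def wV (ω : ℝ) (V : ℤ → CI H) (n : ℤ) : CI H := -(kI ω n) • Ez (ω * n) (iota (V n))

/-- `θ_z = f - |D| E f` -/
noncomputable def tZ (ω : ℝ) (f : ℤ → Z2 H) (n : ℤ) : Z2 H := f n - ka ω n • E2 (ω * n) (f n)

/-- `θ_y = ∂_y E f` -/
noncomputable def tY (ω : ℝ) (f : ℤ → Z2 H) (n : ℤ) : Z2 H := kI ω n • E2 (ω * n) (f n)

/-- `P(Om, u)` -/
noncomputable def Pv (ω : ℝ) (om : ℤ → Z2 H) (v w : ℤ → CI H) (n : ℤ) : Z2 H :=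
  pz om w n - ka ω n • T2 (ω * n) (pz om w n) - kI ω n • T2 (ω * n) (pz om v n)

/-- `b(Om, u; f)` (conjugate linear in `f`) -/
noncomputable def bf (ω : ℝ) (om : ℤ → Z2 H) (v w : ℤ → CI H) (f : ℤ → Z2 H) : ℂ :=
  dp (tZ ω f) (pz om w) + dp (tY ω f) (pz om v)

/-! Velocities. -/

theorem norm_kEz_le (k : ℝ) (F : CI H) : |k| * ‖Ez k (iota F)‖ ≤ ‖F‖ := by
  rw [Ez_iota]; exact norm_kEop_le k F

theorem norm_uV_le (ω : ℝ) (V : ℤ → CI H) (n : ℤ) : ‖uV ω V n‖ ≤ 2 * ‖V n‖ := by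
  unfold uV
  refine (norm_sub_le _ _).trans ?_
  rw [norm_smul, norm_ka]
  linarith [norm_kEz_le (ω * n) (V n)]

theorem norm_wV_le (ω : ℝ) (V : ℤ → CI H) (n : ℤ) : ‖wV ω V n‖ ≤ 1 * ‖V n‖ := by
  unfold wV
  rw [norm_smul, norm_neg, norm_kI, one_mul]
  exact norm_kEz_le (ω * n) (V n)

theorem norm_iuV_le (ω : ℝ) (V : ℤ → CI H) (n : ℤ) :
    ‖io (uV ω V) n‖ ≤ 2 * ‖io V n‖ := by
  unfold io uV
  rw [map_sub, map_smul]
  refine (norm_sub_le _ _).trans ?_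
  rw [norm_smul, norm_ka]
  have := norm_kE2_le (ω * n) (iota (V n) : Z2 H)
  rw [E2_apply] at this
  linarith

theorem norm_iwV_le (ω : ℝ) (V : ℤ → CI H) (n : ℤ) :
    ‖io (wV ω V) n‖ ≤ 1 * ‖io V n‖ := by
  unfold io wV
  rw [map_smul, norm_smul, norm_neg, norm_kI, one_mul]
  exact norm_kE2_le (ω * n) (iota (V n) : Z2 H)

theorem wV_zero (ω : ℝ) (V : ℤ → CI H) (n : ℤ) : ex (wV ω V n) 0 = 0 := by
  unfold wV
  rw [ex_smul, Ez_zero, mul_zero]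

theorem ex_uV_zero (ω : ℝ) (V : ℤ → CI H) (n : ℤ) : ex (uV ω V n) 0 = ex (V n) 0 := by
  unfold uV
  rw [ex_sub, ex_smul, Ez_zero, mul_zero, sub_zero]

/-- `w_z = -v_y` -/
theorem wV_dz (ω : ℝ) (V : ℤ → CI H) (n : ℤ) :
    DZ (wV ω V n) (-(kI ω n) • (iota (uV ω V n) : Z2 H)) := by
  have h := (Ez_dz (ω * n) (iota (V n) : Z2 H)).smul (-(kI ω n))
  have e : (iota (uV ω V n) : Z2 H) = iota (V n) - ka ω n • iota (Ez (ω * n) (iota (V n))) := by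
    unfold uV
    rw [map_sub, map_smul]
  rw [e]
  exact h

/-- `v_z = w_y - B V` -/
theorem uV_dz (ω : ℝ) {V : ℤ → CI H} {V1 : ℤ → Z2 H} {n : ℤ} (h : DZ (V n) (V1 n)) :
    DZ (uV ω V n) (kI ω n • (iota (wV ω V n) : Z2 H) - (ka ω n • (iota (V n) : Z2 H) - V1 n)) := by
  have h1 := h.sub ((Ez_dz (ω * n) (iota (V n) : Z2 H)).smul (ka ω n))
  have e : kI ω n • (iota (wV ω V n) : Z2 H) - (ka ω n • (iota (V n) : Z2 H) - V1 n) =
      V1 n - ka ω n • ((iota (V n) : Z2 H) - ((|ω * (n:ℝ)| : ℝ) : ℂ) • iota (Ez (ω * n) (iota (V n)))) := by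
    unfold wV
    rw [map_smul, smul_smul, show kI ω n * -kI ω n = ka ω n * ka ω n by
      rw [mul_neg, kI_mul_kI, neg_neg], smul_sub, smul_smul]
    have : ((|ω * (n:ℝ)| : ℝ) : ℂ) = ka ω n := rfl
    rw [this]
    abel
  rw [e]
  exact h1

/-! The test function `θ = E f`. -/

theorem norm_tZ_le (ω : ℝ) (f : ℤ → Z2 H) (n : ℤ) : ‖tZ ω f n‖ ≤ 2 * ‖f n‖ := by
  unfold tZ
  refine (norm_sub_le _ _).trans ?_
  rw [norm_smul, norm_ka]
  linarith [norm_kE2_le (ω * n) (f n)]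

theorem norm_tY_le (ω : ℝ) (f : ℤ → Z2 H) (n : ℤ) : ‖tY ω f n‖ ≤ 1 * ‖f n‖ := by
  unfold tY
  rw [norm_smul, norm_kI, one_mul]
  exact norm_kE2_le (ω * n) (f n)

theorem tZ_io (ω : ℝ) (f : ℤ → CI H) : tZ ω (io f) = io (uV ω f) := by
  funext n
  unfold tZ io uV
  rw [map_sub, map_smul]
  rfl

theorem tY_io (ω : ℝ) (f : ℤ → CI H) (n : ℤ) : tY ω (io f) n = -io (wV ω f) n := by
  unfold tY io wV
  rw [map_smul, neg_smul, neg_neg]
  rfl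

/-- mode by mode: `⟨f, P⟩ = ⟨θ_z, Om w⟩ + ⟨θ_y, Om v⟩` -/
theorem Pv_mode (ω : ℝ) (om : ℤ → Z2 H) (v w : ℤ → CI H) (f : ℤ → Z2 H) (n : ℤ) :
    ⟪f n, Pv ω om v w n⟫_ℂ = ⟪tZ ω f n, pz om w n⟫_ℂ + ⟪tY ω f n, pz om v n⟫_ℂ := by
  unfold Pv tZ tY
  have hT : ∀ (k : ℝ) (x y : Z2 H), ⟪x, T2 k y⟫_ℂ = ⟪E2 k x, y⟫_ℂ := fun k x y => by
    rw [← inner_conj_symm, inner_T2, inner_conj_symm]
  rw [inner_sub_right, inner_sub_right, inner_smul_right, inner_smul_right, hT, hT,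
    inner_sub_left, inner_smul_left, inner_smul_left, conj_ka, conj_kI]
  ring

theorem norm_Pv_le (ω : ℝ) (om : ℤ → Z2 H) (v w : ℤ → CI H) (n : ℤ) :
    ‖Pv ω om v w n‖ ≤ 2 * ‖pz om w n‖ + ‖pz om v n‖ := by
  unfold Pv
  refine (norm_sub_le _ _).trans ?_
  refine (add_le_add (norm_sub_le _ _) le_rfl).trans ?_
  rw [norm_smul, norm_smul, norm_ka, norm_kI]
  have h1 := norm_kT2_le (ω * n) (pz om w n)
  have h2 := norm_kT2_le (ω * n) (pz om v n)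
  linarith

/-! Families. -/

theorem S2_uV (h1 : ∀ n, 1 ≤ lam n) {s : ℝ} (ω : ℝ) {V : ℤ → CI H} (h : S2 lam s V) :
    (S2 lam s (uV ω V) ∧ N2 lam s (uV ω V) ≤ 2 * N2 lam s V) ∧
    (S2 lam s (wV ω V) ∧ N2 lam s (wV ω V) ≤ 1 * N2 lam s V) :=
  ⟨S2_dom h1 (by norm_num) (norm_uV_le ω V) h, S2_dom h1 (by norm_num) (norm_wV_le ω V) h⟩

theorem S2_iuV (h1 : ∀ n, 1 ≤ lam n) {s : ℝ} (ω : ℝ) {V : ℤ → CI H} (h : S2 lam s (io V)) :
    (S2 lam s (io (uV ω V)) ∧ N2 lam s (io (uV ω V)) ≤ 2 * N2 lam s (io V)) ∧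
    (S2 lam s (io (wV ω V)) ∧ N2 lam s (io (wV ω V)) ≤ 1 * N2 lam s (io V)) :=
  ⟨S2_dom h1 (by norm_num) (norm_iuV_le ω V) h, S2_dom h1 (by norm_num) (norm_iwV_le ω V) h⟩

theorem S2_tZ (h1 : ∀ n, 1 ≤ lam n) {s : ℝ} (ω : ℝ) {f : ℤ → Z2 H} (h : S2 lam s f) :
    (S2 lam s (tZ ω f) ∧ N2 lam s (tZ ω f) ≤ 2 * N2 lam s f) ∧
    (S2 lam s (tY ω f) ∧ N2 lam s (tY ω f) ≤ 1 * N2 lam s f) :=
  ⟨S2_dom h1 (by norm_num) (norm_tZ_le ω f) h, S2_dom h1 (by norm_num) (norm_tY_le ω f) h⟩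

/-- Products `Om v` in the space with weight `-γ`. -/
theorem S2_pz {α β γ : ℝ} (pw : PrW lam α β γ) {om : ℤ → Z2 H} {v : ℤ → CI H}
    (so : S2 lam α om) (sv : S2 lam β v) :
    S2 lam (-γ) (pz om v) ∧ N2 lam (-γ) (pz om v) ≤ CP lam (α + β + γ) * N2 lam α om * N2 lam β v := by
  obtain ⟨-, h1, h2⟩ := cvm_bd zero_le_one mz_bd pw.h1 pw.ha pw.hb pw.hc pw.hs so sv
  rw [mul_one] at h2
  exact ⟨h1, h2⟩

theorem S2_Pv {α β γ : ℝ} (pw : PrW lam α β γ) (ω : ℝ) {om : ℤ → Z2 H} {v w : ℤ → CI H}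
    (so : S2 lam α om) (sv : S2 lam β v) (sw : S2 lam β w) :
    S2 lam (-γ) (Pv ω om v w) ∧ N2 lam (-γ) (Pv ω om v w) ≤
      CP lam (α + β + γ) * N2 lam α om * (2 * N2 lam β w + N2 lam β v) := by
  obtain ⟨a1, a2⟩ := S2_pz pw so sw
  obtain ⟨b1, b2⟩ := S2_pz pw so sv
  -- dominate by the sum of norms
  set x : ℤ → ℝ := fun n => 2 * ‖pz om w n‖ with hx
  set y : ℤ → ℝ := fun n => ‖pz om v n‖ with hy
  have sx : S2 lam (-γ) x ∧ N2 lam (-γ) x ≤ 2 * N2 lam (-γ) (pz om w) :=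
    S2_dom pw.h1 (by norm_num) (fun n => by
      rw [hx]; simp only [norm_mul, Real.norm_eq_abs, abs_of_nonneg (norm_nonneg _)]
      norm_num) a1
  have sy : S2 lam (-γ) y ∧ N2 lam (-γ) y ≤ 1 * N2 lam (-γ) (pz om v) :=
    S2_dom pw.h1 (by norm_num) (fun n => by
      rw [hy]; simp only [Real.norm_eq_abs, abs_of_nonneg (norm_nonneg _), one_mul]; exact le_rfl) b1
  obtain ⟨c1, c2⟩ := S2_add pw.h1 sx.1 sy.1
  obtain ⟨d1, d2⟩ := S2_dom (x := Pv ω om v w) (y := fun n => x n + y n) pw.h1 zero_le_one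
    (fun n => by
      rw [one_mul, Real.norm_of_nonneg (add_nonneg (mul_nonneg zero_le_two (norm_nonneg _))
        (norm_nonneg _))]
      exact norm_Pv_le ω om v w n) c1
  refine ⟨d1, d2.trans ?_⟩
  rw [one_mul]
  refine c2.trans ?_
  have e1 := sx.2
  have e2 := sy.2
  rw [one_mul] at e2
  calc N2 lam (-γ) x + N2 lam (-γ) y ≤ 2 * N2 lam (-γ) (pz om w) + N2 lam (-γ) (pz om v) :=
        add_le_add e1 e2
    _ ≤ 2 * (CP lam (α + β + γ) * N2 lam α om * N2 lam β w) +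
        CP lam (α + β + γ) * N2 lam α om * N2 lam β v := by linarith
    _ = _ := by ring

/-- `⟨f, P(Om, u)⟩ = b(Om, u; f)` -/
theorem dp_Pv {α β γ : ℝ} (pw : PrW lam α β γ) (ω : ℝ) {om : ℤ → Z2 H} {v w : ℤ → CI H}
    {f : ℤ → Z2 H} (so : S2 lam α om) (sv : S2 lam β v) (sw : S2 lam β w) (sf : S2 lam γ f) :
    dp f (Pv ω om v w) = bf ω om v w f := by
  have a1 := (dp_sum pw.h1 (S2_tZ pw.h1 ω sf).1.1 (S2_pz pw so sw).1).1.of_norm
  have a2 := (dp_sum pw.h1 (S2_tZ pw.h1 ω sf).2.1 (S2_pz pw so sv).1).1.of_norm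
  unfold dp bf dp
  rw [← a1.tsum_add a2]
  exact tsum_congr fun n => Pv_mode ω om v w f n

/-- The form in terms of the trilinear form. -/
theorem bf_T3 {α β γ : ℝ} (pw : PrW lam α β γ) (ω : ℝ) {om : ℤ → Z2 H} {v w : ℤ → CI H}
    {f : ℤ → Z2 H} (so : S2 lam α om) (sv : S2 lam β v) (sw : S2 lam β w) (sf : S2 lam γ f) :
    bf ω om v w f = T3 (tZ ω f) w om + T3 (tY ω f) v om := by
  unfold bf
  rw [dp_pz pw so sw (S2_tZ pw.h1 ω sf).1.1, dp_pz pw so sv (S2_tZ pw.h1 ω sf).2.1]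

/-- Basic bound, the sup norm on the velocity. -/
theorem bf_le {α β γ : ℝ} (pw : PrW lam α β γ) (ω : ℝ) {om : ℤ → Z2 H} {v w : ℤ → CI H}
    {f : ℤ → Z2 H} (so : S2 lam α om) (sv : S2 lam β v) (sw : S2 lam β w) (sf : S2 lam γ f) :
    ‖bf ω om v w f‖ ≤ CP lam (α + β + γ) * N2 lam α om * (2 * N2 lam β w + N2 lam β v) * N2 lam γ f := by
  rw [bf_T3 pw ω so sv sw sf]
  obtain ⟨⟨s1, n1⟩, ⟨s2, n2⟩⟩ := S2_tZ pw.h1 ω sf
  have b1 := (T3_sum pw so sw s1).2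
  have b2 := (T3_sum pw so sv s2).2
  rw [one_mul] at n2
  have c0 := CP_nonneg (lam := lam) (α + β + γ)
  have c1 := N2_nonneg (lam := lam) α om
  have c2 := N2_nonneg (lam := lam) β w
  have c3 := N2_nonneg (lam := lam) β v
  have c4 := N2_nonneg (lam := lam) γ f
  refine (norm_add_le _ _).trans ((add_le_add b1 b2).trans ?_)
  calc CP lam (α + β + γ) * N2 lam α om * N2 lam β w * N2 lam γ (tZ ω f) +
        CP lam (α + β + γ) * N2 lam α om * N2 lam β v * N2 lam γ (tY ω f) ≤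
        CP lam (α + β + γ) * N2 lam α om * N2 lam β w * (2 * N2 lam γ f) +
        CP lam (α + β + γ) * N2 lam α om * N2 lam β v * N2 lam γ f := by
        gcongr
    _ = _ := by ring

/-- Basic bound, the sup norm on the test function. -/
theorem bf_le' {α β γ : ℝ} (pw : PrW lam α β γ) {pα pβ pγ : ℝ} (pw' : PrW lam pα pβ pγ) (ω : ℝ)
    {om : ℤ → Z2 H} {v w : ℤ → CI H} {f : ℤ → CI H} (so : S2 lam α om) (sv : S2 lam β (io v))
    (sw : S2 lam β (io w)) (sf : S2 lam γ f) (so' : S2 lam pα om) (sv' : S2 lam pβ v)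
    (sw' : S2 lam pβ w) (sf' : S2 lam pγ (io f)) :
    ‖bf ω om v w (io f)‖ ≤
      CP lam (α + β + γ) * N2 lam α om * (2 * N2 lam β (io w) + N2 lam β (io v)) * N2 lam γ f := by
  rw [bf_T3 pw' ω so' sv' sw' sf', tZ_io]
  have e : tY ω (io f) = io (fun n => -wV ω f n) := by
    funext n; rw [tY_io]; unfold io; rw [map_neg]
  rw [e]
  obtain ⟨⟨s1, n1⟩, ⟨s2, n2⟩⟩ := S2_uV pw.h1 ω sf
  have s2' : S2 lam γ (fun n => -wV ω f n) := S2_neg.2 s2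
  have n2' : N2 lam γ (fun n => -wV ω f n) ≤ N2 lam γ f := by rw [N2_neg]; linarith
  have b1 := (T3_sum' pw so sw s1).2
  have b2 := (T3_sum' pw so sv s2').2
  have c0 := CP_nonneg (lam := lam) (α + β + γ)
  have c1 := N2_nonneg (lam := lam) α om
  have c2 : 0 ≤ N2 lam β (fun n => (iota (w n) : Z2 H)) := N2_nonneg β _
  have c3 : 0 ≤ N2 lam β (fun n => (iota (v n) : Z2 H)) := N2_nonneg β _
  have c4 := N2_nonneg (lam := lam) γ f
  refine (norm_add_le _ _).trans ((add_le_add b1 b2).trans ?_)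
  show _ ≤ CP lam (α + β + γ) * N2 lam α om * (2 * N2 lam β (fun n => (iota (w n) : Z2 H)) +
    N2 lam β (fun n => (iota (v n) : Z2 H))) * N2 lam γ f
  calc _ ≤ CP lam (α + β + γ) * N2 lam α om * N2 lam β (fun n => (iota (w n) : Z2 H)) *
          (2 * N2 lam γ f) +
        CP lam (α + β + γ) * N2 lam α om * N2 lam β (fun n => (iota (v n) : Z2 H)) *
          N2 lam γ f := by
        gcongr
    _ = _ := by ring

end

end Pool.Agent.Lib.MP_79abb3_an.SC
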