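import Pool.Agent.Lib.MP_79abb3_an.SC.ApT
import Pool.Agent.Lib.MP_79abb3_an.SC.ApB

section

/-!
MP_79abb3_an, simply connected domains, block (iii): multiplication by functions in the Wiener algebra.
-/

set_option autoImplicit false
set_option linter.unusedSectionVars false

open MeasureTheory Set Filter Topology Function
open scoped ENNReal InnerProductSpace

namespace Pool.Agent.Lib.MP_79abb3_an.SC

open Pool.Agent.Lib.MP_79abb3_an.P25 Pool.Agent.Lib.MP_79abb3_an.FW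

/-- `∑ lam_n^s |b_n| < ∞` -/
def S1 {E : Type*} [NormedAddCommGroup E] (lam : ℤ → ℝ) (s : ℝ) (b : ℤ → E) : Prop :=
  Summable fun n => lam n ^ s * ‖b n‖

/-- `∑ lam_n^s |b_n|` -/
noncomputable def N1 {E : Type*} [NormedAddCommGroup E] (lam : ℤ → ℝ) (s : ℝ) (b : ℤ → E) : ℝ :=
  ∑' n, lam n ^ s * ‖b n‖

/-- Properties of the weight sequence. -/
structure LW (lam : ℤ → ℝ) : Prop where
  h1 : ∀ n, 1 ≤ lam n
  neg : ∀ n, lam (-n) = lam n
  add : ∀ m n, lam (m + n) ≤ lam m * lam n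

section
variable {lam : ℤ → ℝ}

theorem LW.pos (w : LW lam) (n : ℤ) : 0 < lam n := lt_of_lt_of_le one_pos (w.h1 n)

theorem LW.rpow_add (w : LW lam) {s : ℝ} (m n : ℤ) :
    lam (m + n) ^ s ≤ lam m ^ |s| * lam n ^ s := by
  rcases le_total 0 s with hs | hs
  · rw [abs_of_nonneg hs, ← Real.mul_rpow (w.pos m).le (w.pos n).le]
    exact Real.rpow_le_rpow (w.pos _).le (w.add m n) hs
  · rw [abs_of_nonpos hs]
    have h1 : lam n ≤ lam m * lam (m + n) := by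
      have := w.add (-m) (m + n)
      rwa [w.neg, show -m + (m + n) = n by ring] at this
    have h2 : (lam m * lam (m + n)) ^ s ≤ lam n ^ s :=
      Real.rpow_le_rpow_of_nonpos (w.pos n) h1 hs
    rw [Real.mul_rpow (w.pos m).le (w.pos _).le] at h2
    have h3 : lam m ^ (-s) * lam m ^ s = 1 := by rw [← Real.rpow_add (w.pos m)]; simp
    calc lam (m + n) ^ s = lam m ^ (-s) * (lam m ^ s * lam (m + n) ^ s) := by
          rw [← mul_assoc, h3, one_mul]
      _ ≤ lam m ^ (-s) * lam n ^ s :=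
          mul_le_mul_of_nonneg_left h2 (Real.rpow_nonneg (w.pos m).le _)

variable {E F G : Type*} [NormedAddCommGroup E] [NormedAddCommGroup F] [NormedAddCommGroup G]

theorem S1_mono (w : LW lam) {s t : ℝ} (hst : s ≤ t) {b : ℤ → E} (h : S1 lam t b) :
    S1 lam s b ∧ N1 lam s b ≤ N1 lam t b := by
  have key : ∀ n, lam n ^ s * ‖b n‖ ≤ lam n ^ t * ‖b n‖ := fun n =>
    mul_le_mul_of_nonneg_right (Real.rpow_le_rpow_of_exponent_le (w.h1 n) hst) (norm_nonneg _)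
  have hs : S1 lam s b := Summable.of_nonneg_of_le
    (fun n => mul_nonneg (Real.rpow_nonneg (w.pos n).le _) (norm_nonneg _)) key h
  exact ⟨hs, hs.tsum_le_tsum key h⟩

theorem N1_nonneg (w : LW lam) (s : ℝ) (b : ℤ → E) : 0 ≤ N1 lam s b :=
  tsum_nonneg fun n => mul_nonneg (Real.rpow_nonneg (w.pos n).le _) (norm_nonneg _)

theorem S1_zero_iff {b : ℤ → E} : S1 lam 0 b ↔ Summable fun n => ‖b n‖ := by
  unfold S1
  simp

/-- Products with the Wiener algebra. -/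
theorem cvm_S1 (w : LW lam) {m : E → F → G} {M : ℝ} (hM : 0 ≤ M)
    (hm : ∀ e f, ‖m e f‖ ≤ M * (‖e‖ * ‖f‖)) {s : ℝ} {x : ℤ → E} {b : ℤ → F}
    (sx : S2 lam s x) (sb : S1 lam |s| b) :
    (∀ n, Summable fun j => ‖m (x j) (b (n - j))‖) ∧ S2 lam s (cvm m x b) ∧
      N2 lam s (cvm m x b) ≤ M * N1 lam |s| b * N2 lam s x := by
  have r0 : ∀ (t : ℝ) n, 0 ≤ lam n ^ t := fun t n => Real.rpow_nonneg (w.pos n).le _
  obtain ⟨a1, a2, a3⟩ := young21 (a := fun n => lam n ^ s * ‖x n‖) (b := fun n => lam n ^ |s| * ‖b n‖)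
    (fun n => mul_nonneg (r0 _ n) (norm_nonneg _)) (fun n => mul_nonneg (r0 _ n) (norm_nonneg _)) sx sb
  have key : ∀ n j, lam n ^ s * (‖x j‖ * ‖b (n - j)‖) ≤
      lam j ^ s * ‖x j‖ * (lam (n - j) ^ |s| * ‖b (n - j)‖) := fun n j => by
    have h1 := w.rpow_add (s := s) (n - j) j
    rw [show n - j + j = n by ring] at h1
    calc lam n ^ s * (‖x j‖ * ‖b (n - j)‖) ≤ lam (n - j) ^ |s| * lam j ^ s * (‖x j‖ * ‖b (n - j)‖) :=
          mul_le_mul_of_nonneg_right h1 (mul_nonneg (norm_nonneg _) (norm_nonneg _))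
      _ = _ := by ring
  have sj : ∀ n, Summable fun j => ‖x j‖ * ‖b (n - j)‖ := fun n => by
    have h2 : Summable fun j => lam n ^ s * (‖x j‖ * ‖b (n - j)‖) :=
      Summable.of_nonneg_of_le (fun j => mul_nonneg (r0 _ n) (mul_nonneg (norm_nonneg _)
        (norm_nonneg _))) (key n) (a1 n)
    have h3 := h2.mul_left (lam n ^ (-s))
    refine h3.congr fun j => ?_
    rw [← mul_assoc, ← Real.rpow_add (w.pos n), neg_add_cancel, Real.rpow_zero, one_mul]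
  have bd : ∀ n j, ‖m (x j) (b (n - j))‖ ≤ M * (‖x j‖ * ‖b (n - j)‖) := fun n j => hm _ _
  have sm : ∀ n, Summable fun j => ‖m (x j) (b (n - j))‖ := fun n =>
    Summable.of_nonneg_of_le (fun j => norm_nonneg _) (bd n) ((sj n).mul_left _)
  have kn : ∀ n, (lam n ^ s * ‖cvm m x b n‖) ^ 2 ≤
      M ^ 2 * (∑' j, lam j ^ s * ‖x j‖ * (lam (n - j) ^ |s| * ‖b (n - j)‖)) ^ 2 := by
    intro n
    rw [← mul_pow]
    refine pow_le_pow_left₀ (mul_nonneg (r0 _ n) (norm_nonneg _)) ?_ 2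
    have h2 : ‖cvm m x b n‖ ≤ M * ∑' j, ‖x j‖ * ‖b (n - j)‖ := by
      rw [← tsum_mul_left]
      exact (norm_tsum_le_tsum_norm (sm n)).trans ((sm n).tsum_le_tsum (bd n) ((sj n).mul_left _))
    calc lam n ^ s * ‖cvm m x b n‖ ≤ lam n ^ s * (M * ∑' j, ‖x j‖ * ‖b (n - j)‖) :=
          mul_le_mul_of_nonneg_left h2 (r0 _ n)
      _ = M * ∑' j, lam n ^ s * (‖x j‖ * ‖b (n - j)‖) := by rw [tsum_mul_left]; ring
      _ ≤ M * _ := mul_le_mul_of_nonneg_left (((sj n).mul_left _).tsum_le_tsum (key n) (a1 n)) hM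
  have hS : Summable fun n => M ^ 2 *
      (∑' j, lam j ^ s * ‖x j‖ * (lam (n - j) ^ |s| * ‖b (n - j)‖)) ^ 2 := a2.mul_left _
  have hS2 : S2 lam s (cvm m x b) := Summable.of_nonneg_of_le (fun n => sq_nonneg _) kn hS
  refine ⟨sm, hS2, ?_⟩
  refine Real.sqrt_le_iff.2 ⟨mul_nonneg (mul_nonneg hM (N1_nonneg w _ _)) (N2_nonneg _ _), ?_⟩
  refine (hS2.tsum_le_tsum kn hS).trans ?_
  rw [tsum_mul_left]
  refine (mul_le_mul_of_nonneg_left a3 (sq_nonneg _)).trans (le_of_eq ?_)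
  rw [mul_pow, mul_pow, N2_sq]
  unfold N1
  ring

/-- Products in the Wiener algebra. -/
theorem cvm_S11 (w : LW lam) {m : E → F → G} {M : ℝ} (hM : 0 ≤ M)
    (hm : ∀ e f, ‖m e f‖ ≤ M * (‖e‖ * ‖f‖)) {s : ℝ} (hs : 0 ≤ s) {x : ℤ → E} {b : ℤ → F}
    (sx : S1 lam s x) (sb : S1 lam s b) :
    (∀ n, Summable fun j => ‖m (x j) (b (n - j))‖) ∧ S1 lam s (cvm m x b) ∧
      N1 lam s (cvm m x b) ≤ M * N1 lam s x * N1 lam s b := by
  have r0 : ∀ (t : ℝ) n, 0 ≤ lam n ^ t := fun t n => Real.rpow_nonneg (w.pos n).le _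
  obtain ⟨a1, a2, a3⟩ := young11 (a := fun n => lam n ^ s * ‖x n‖) (b := fun n => lam n ^ s * ‖b n‖)
    (fun n => mul_nonneg (r0 _ n) (norm_nonneg _)) (fun n => mul_nonneg (r0 _ n) (norm_nonneg _)) sx sb
  have key : ∀ n j, lam n ^ s * (‖x j‖ * ‖b (n - j)‖) ≤
      lam j ^ s * ‖x j‖ * (lam (n - j) ^ s * ‖b (n - j)‖) := fun n j => by
    have h1 := w.rpow_add (s := s) (n - j) j
    rw [show n - j + j = n by ring, abs_of_nonneg hs] at h1
    calc lam n ^ s * (‖x j‖ * ‖b (n - j)‖) ≤ lam (n - j) ^ s * lam j ^ s * (‖x j‖ * ‖b (n - j)‖) :=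
          mul_le_mul_of_nonneg_right h1 (mul_nonneg (norm_nonneg _) (norm_nonneg _))
      _ = _ := by ring
  have sj : ∀ n, Summable fun j => ‖x j‖ * ‖b (n - j)‖ := fun n => by
    have h2 : Summable fun j => lam n ^ s * (‖x j‖ * ‖b (n - j)‖) :=
      Summable.of_nonneg_of_le (fun j => mul_nonneg (r0 _ n) (mul_nonneg (norm_nonneg _)
        (norm_nonneg _))) (key n) (a1 n)
    have h3 := h2.mul_left (lam n ^ (-s))
    refine h3.congr fun j => ?_
    rw [← mul_assoc, ← Real.rpow_add (w.pos n), neg_add_cancel, Real.rpow_zero, one_mul]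
  have bd : ∀ n j, ‖m (x j) (b (n - j))‖ ≤ M * (‖x j‖ * ‖b (n - j)‖) := fun n j => hm _ _
  have sm : ∀ n, Summable fun j => ‖m (x j) (b (n - j))‖ := fun n =>
    Summable.of_nonneg_of_le (fun j => norm_nonneg _) (bd n) ((sj n).mul_left _)
  have kn : ∀ n, lam n ^ s * ‖cvm m x b n‖ ≤
      M * ∑' j, lam j ^ s * ‖x j‖ * (lam (n - j) ^ s * ‖b (n - j)‖) := by
    intro n
    have h2 : ‖cvm m x b n‖ ≤ M * ∑' j, ‖x j‖ * ‖b (n - j)‖ := by
      rw [← tsum_mul_left]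
      exact (norm_tsum_le_tsum_norm (sm n)).trans ((sm n).tsum_le_tsum (bd n) ((sj n).mul_left _))
    calc lam n ^ s * ‖cvm m x b n‖ ≤ lam n ^ s * (M * ∑' j, ‖x j‖ * ‖b (n - j)‖) :=
          mul_le_mul_of_nonneg_left h2 (r0 _ n)
      _ = M * ∑' j, lam n ^ s * (‖x j‖ * ‖b (n - j)‖) := by rw [tsum_mul_left]; ring
      _ ≤ M * _ := mul_le_mul_of_nonneg_left (((sj n).mul_left _).tsum_le_tsum (key n) (a1 n)) hM
  have hS : Summable fun n => M *
      ∑' j, lam j ^ s * ‖x j‖ * (lam (n - j) ^ s * ‖b (n - j)‖) := a2.mul_left _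
  have hS1 : S1 lam s (cvm m x b) := Summable.of_nonneg_of_le
    (fun n => mul_nonneg (r0 _ n) (norm_nonneg _)) kn hS
  refine ⟨sm, hS1, ?_⟩
  refine (hS1.tsum_le_tsum kn hS).trans ?_
  rw [tsum_mul_left, a3]
  unfold N1
  rw [mul_assoc]

/-- Summability of triple convolutions. -/
theorem tri_conv {x : ℤ → E} {b : ℤ → F} {u : ℤ → G} (sx : Summable fun n => ‖x n‖ ^ 2)
    (sb : Summable fun n => ‖b n‖) (su : Summable fun n => ‖u n‖ ^ 2) (n : ℤ) :
    Summable fun p : ℤ × ℤ => ‖x p.1‖ * ‖b p.2‖ * ‖u (n - p.1 - p.2)‖ := by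
  have h0 : Summable fun p : ℤ × ℤ => ‖x p.2‖ * ‖b p.1‖ * ‖u (n - p.2 - p.1)‖ := by
    refine (summable_prod_of_nonneg fun p => mul_nonneg (mul_nonneg (norm_nonneg _) (norm_nonneg _))
      (norm_nonneg _)).2 ⟨fun l => ?_, ?_⟩
    · have := ((conv22 (x := fun n => ‖x n‖) (y := fun n => ‖u n‖) (fun _ => norm_nonneg _)
        (fun _ => norm_nonneg _) sx su (n - l)).1).mul_left ‖b l‖
      refine this.congr fun i => ?_
      show ‖b l‖ * (‖x i‖ * ‖u (n - l - i)‖) = ‖x i‖ * ‖b l‖ * ‖u (n - i - l)‖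
      rw [show n - l - i = n - i - l by ring]; ring
    · refine Summable.of_nonneg_of_le (fun l => tsum_nonneg fun i => mul_nonneg (mul_nonneg
        (norm_nonneg _) (norm_nonneg _)) (norm_nonneg _)) (fun l => ?_)
        (sb.mul_right (√((∑' n, ‖x n‖ ^ 2) * ∑' n, ‖u n‖ ^ 2)))
      have h2 := (conv22 (x := fun n => ‖x n‖) (y := fun n => ‖u n‖) (fun _ => norm_nonneg _)
        (fun _ => norm_nonneg _) sx su (n - l)).2
      have h3 : ∑' i, ‖x i‖ * ‖b l‖ * ‖u (n - i - l)‖ = ‖b l‖ * ∑' i, ‖x i‖ * ‖u (n - l - i)‖ := by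
        rw [← tsum_mul_left]
        refine tsum_congr fun i => ?_
        rw [show n - l - i = n - i - l by ring]; ring
      show ∑' i, ‖x i‖ * ‖b l‖ * ‖u (n - i - l)‖ ≤ _
      rw [h3]
      exact mul_le_mul_of_nonneg_left (Real.le_sqrt_of_sq_le h2) (norm_nonneg _)
  have := (Equiv.prodComm ℤ ℤ).summable_iff.2 h0
  exact this

end

section
variable {H : ℝ} [hH : Fact (0 < H)] {lam : ℤ → ℝ}

/-- Multiplications commute. -/
theorem pz_pz {p : ℤ → Z2 H} {b u : ℤ → CI H} (sp : Summable fun n => ‖p n‖ ^ 2)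
    (sb : Summable fun n => ‖b n‖) (su : Summable fun n => ‖u n‖ ^ 2) :
    pz (pz p b) u = pz p (pc u b) ∧ pz (pz p u) b = pz p (pc u b) := by
  have key : ∀ n, pz (pz p b) u n = pz p (pc u b) n ∧ pz (pz p u) b n = pz p (pc u b) n := by
    intro n
    set F : ℤ × ℤ → Z2 H := fun x => mz (u (n - x.1 - x.2)) (mz (b x.2) (p x.1)) with hF
    have hFs : Summable F := by
      refine Summable.of_norm (Summable.of_nonneg_of_le (fun _ => norm_nonneg _) (fun x => ?_)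
        (tri_conv sp sb su n))
      calc ‖mz (u (n - x.1 - x.2)) (mz (b x.2) (p x.1))‖ ≤
            ‖u (n - x.1 - x.2)‖ * (‖b x.2‖ * ‖p x.1‖) :=
            (norm_mz_apply_le _ _).trans (mul_le_mul_of_nonneg_left (norm_mz_apply_le _ _)
              (norm_nonneg _))
        _ = _ := by ring
    have i1 : ∀ j, Summable fun i => mz (b (j - i)) (p i) := fun j => by
      refine Summable.of_norm (Summable.of_nonneg_of_le (fun _ => norm_nonneg _) (fun i => ?_)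
        ((young21 (a := fun n => ‖p n‖) (b := fun n => ‖b n‖) (fun _ => norm_nonneg _)
          (fun _ => norm_nonneg _) sp sb).1 j))
      rw [mul_comm]; exact norm_mz_apply_le _ _
    have i2 : ∀ j, Summable fun i => mz (u (j - i)) (p i) := fun j => by
      refine Summable.of_norm (Summable.of_nonneg_of_le (fun _ => norm_nonneg _) (fun i => ?_)
        ((conv22 (x := fun n => ‖p n‖) (y := fun n => ‖u n‖) (fun _ => norm_nonneg _)
          (fun _ => norm_nonneg _) sp su j).1))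
      rw [mul_comm]; exact norm_mz_apply_le _ _
    have i3 : ∀ j, Summable fun i => u i * b (j - i) := fun j => by
      refine Summable.of_norm (Summable.of_nonneg_of_le (fun _ => norm_nonneg _) (fun i => ?_)
        ((young21 (a := fun n => ‖u n‖) (b := fun n => ‖b n‖) (fun _ => norm_nonneg _)
          (fun _ => norm_nonneg _) su sb).1 j))
      exact norm_mul_le _ _
    let e1 : ℤ × ℤ ≃ ℤ × ℤ :=
      { toFun := fun q => (q.2, q.1 - q.2)
        invFun := fun q => (q.1 + q.2, q.1)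
        left_inv := fun q => by ext <;> simp
        right_inv := fun q => by ext <;> simp }
    let e2 : ℤ × ℤ ≃ ℤ × ℤ :=
      { toFun := fun q => (q.2, n - q.1)
        invFun := fun q => (n - q.2, q.1)
        left_inv := fun q => by ext <;> simp
        right_inv := fun q => by ext <;> simp }
    let e3 : ℤ × ℤ ≃ ℤ × ℤ :=
      { toFun := fun q => (q.1, n - q.1 - q.2)
        invFun := fun q => (q.1, n - q.1 - q.2)
        left_inv := fun q => by ext <;> simp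
        right_inv := fun q => by ext <;> simp }
    have h1 : pz (pz p b) u n = ∑' q, F q := by
      have s1 : Summable (F ∘ e1) := e1.summable_iff.2 hFs
      rw [← e1.tsum_eq F, show ∑' q, F (e1 q) = ∑' q, (F ∘ e1) q from rfl, s1.tsum_prod]
      show ∑' j, mz (u (n - j)) (∑' i, mz (b (j - i)) (p i)) = _
      refine tsum_congr fun j => ?_
      rw [(mz (u (n - j))).map_tsum (i1 j)]
      refine tsum_congr fun i => ?_
      show _ = mz (u (n - i - (j - i))) (mz (b (j - i)) (p i))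
      rw [show n - i - (j - i) = n - j by ring]
    have h2 : pz (pz p u) b n = ∑' q, F q := by
      have s1 : Summable (F ∘ e2) := e2.summable_iff.2 hFs
      rw [← e2.tsum_eq F, show ∑' q, F (e2 q) = ∑' q, (F ∘ e2) q from rfl, s1.tsum_prod]
      show ∑' j, mz (b (n - j)) (∑' i, mz (u (j - i)) (p i)) = _
      refine tsum_congr fun j => ?_
      rw [(mz (b (n - j))).map_tsum (i2 j)]
      refine tsum_congr fun i => ?_
      show _ = mz (u (n - i - (n - j))) (mz (b (n - j)) (p i))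
      rw [show n - i - (n - j) = j - i by ring, mz_comm]
    have h3 : pz p (pc u b) n = ∑' q, F q := by
      have s1 : Summable (F ∘ e3) := e3.summable_iff.2 hFs
      rw [← e3.tsum_eq F, show ∑' q, F (e3 q) = ∑' q, (F ∘ e3) q from rfl, s1.tsum_prod]
      show ∑' i, mz (∑' l, u l * b (n - i - l)) (p i) = _
      refine tsum_congr fun i => ?_
      have h4 := (mz.flip (p i)).map_tsum (i3 (n - i))
      rw [ContinuousLinearMap.flip_apply] at h4
      rw [h4]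
      refine tsum_congr fun l => ?_
      show mz (u l * b (n - i - l)) (p i) =
        mz (u (n - i - (n - i - l))) (mz (b (n - i - l)) (p i))
      rw [show n - i - (n - i - l) = l by ring, mz_mul]
    exact ⟨h1.trans h3.symm, h2.trans h3.symm⟩
  exact ⟨funext fun n => (key n).1, funext fun n => (key n).2⟩

theorem S2_norm {E : Type*} [NormedAddCommGroup E] {s : ℝ} {x : ℤ → E} :
    S2 lam s (fun n => ‖x n‖) ↔ S2 lam s x := by
  unfold S2; simp

theorem S1_norm {E : Type*} [NormedAddCommGroup E] {s : ℝ} {x : ℤ → E} :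
    S1 lam s (fun n => ‖x n‖) ↔ S1 lam s x := by
  unfold S1; simp

/-- The adjoint of a multiplication. -/
theorem dp_mul (w : LW lam) {s : ℝ} {r p : ℤ → Z2 H} {b : ℤ → CI H} (sr : S2 lam s r)
    (sp : S2 lam (-s) p) (sb : S1 lam |s| b) : dp r (pz p b) = dp (pz r (cj b)) p := by
  have sb' : S1 lam |-s| b := by rwa [abs_neg]
  -- absolute summability of the double sum
  obtain ⟨c1, c2, -⟩ := cvm_S1 w (m := fun x y : ℝ => x * y) zero_le_one
    (fun x y => by rw [one_mul, norm_mul]) (S2_norm.2 sp) (S1_norm.2 sb')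
  obtain ⟨d1, -⟩ := cs_tsum (x := fun n => lam n ^ s * ‖r n‖)
    (y := fun n => lam n ^ (-s) * ‖cvm (fun x y : ℝ => x * y) (fun n => ‖p n‖) (fun n => ‖b n‖) n‖)
    (fun n => mul_nonneg (Real.rpow_nonneg (w.pos n).le _) (norm_nonneg _))
    (fun n => mul_nonneg (Real.rpow_nonneg (w.pos n).le _) (norm_nonneg _)) sr c2
  have c1' : ∀ n, Summable fun j => ‖p j‖ * ‖b (n - j)‖ := fun n => by
    refine (c1 n).congr fun j => ?_
    rw [Real.norm_of_nonneg (mul_nonneg (norm_nonneg _) (norm_nonneg _))]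
  have hT : Summable fun q : ℤ × ℤ => ‖r q.1‖ * (‖p q.2‖ * ‖b (q.1 - q.2)‖) := by
    refine (summable_prod_of_nonneg fun q => mul_nonneg (norm_nonneg _)
      (mul_nonneg (norm_nonneg _) (norm_nonneg _))).2 ⟨fun n => (c1' n).mul_left ‖r n‖, ?_⟩
    refine d1.congr fun n => ?_
    have h1 : lam n ^ s * lam n ^ (-s) = 1 := by rw [← Real.rpow_add (w.pos n)]; simp
    have h2 : 0 ≤ cvm (fun x y : ℝ => x * y) (fun n => ‖p n‖) (fun n => ‖b n‖) n :=
      tsum_nonneg fun j => mul_nonneg (norm_nonneg _) (norm_nonneg _)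
    rw [Real.norm_of_nonneg h2]
    show lam n ^ s * ‖r n‖ * (lam n ^ (-s) * ∑' j, ‖p j‖ * ‖b (n - j)‖) =
      ∑' j, ‖r n‖ * (‖p j‖ * ‖b (n - j)‖)
    rw [tsum_mul_left]
    calc _ = (lam n ^ s * lam n ^ (-s)) * (‖r n‖ * ∑' j, ‖p j‖ * ‖b (n - j)‖) := by ring
      _ = _ := by rw [h1, one_mul]
  set F : ℤ × ℤ → ℂ := fun q => ⟪r q.1, mz (b (q.1 - q.2)) (p q.2)⟫_ℂ with hF
  have hFs : Summable F := by
    refine Summable.of_norm (Summable.of_nonneg_of_le (fun _ => norm_nonneg _) (fun q => ?_) hT)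
    refine (norm_inner_le_norm _ _).trans (mul_le_mul_of_nonneg_left ?_ (norm_nonneg _))
    rw [mul_comm]; exact norm_mz_apply_le _ _
  have h1 : dp r (pz p b) = ∑' q, F q := by
    rw [hFs.tsum_prod]
    refine tsum_congr fun n => ?_
    have i1 : Summable fun j => mz (b (n - j)) (p j) := by
      refine Summable.of_norm (Summable.of_nonneg_of_le (fun _ => norm_nonneg _) (fun i => ?_) (c1' n))
      rw [mul_comm]; exact norm_mz_apply_le _ _
    show ⟪r n, ∑' j, mz (b (n - j)) (p j)⟫_ℂ = _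
    have := (innerSL ℂ (r n)).map_tsum i1
    simpa using this
  have h2 : dp (pz r (cj b)) p = ∑' q, F q := by
    have hFs' : Summable (F ∘ (Equiv.prodComm ℤ ℤ)) := (Equiv.prodComm ℤ ℤ).summable_iff.2 hFs
    rw [← (Equiv.prodComm ℤ ℤ).tsum_eq F,
      show ∑' q, F ((Equiv.prodComm ℤ ℤ) q) = ∑' q, (F ∘ (Equiv.prodComm ℤ ℤ)) q from rfl,
      hFs'.tsum_prod]
    refine tsum_congr fun n => ?_
    have sbn : S1 lam |s| (cj b) := by
      have e : (fun n => lam n ^ |s| * ‖cj b n‖) = (fun n => lam n ^ |s| * ‖b n‖) ∘ (Equiv.neg ℤ) := by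
        funext n
        show lam n ^ |s| * ‖star (b (-n))‖ = lam (-n) ^ |s| * ‖b (-n)‖
        rw [norm_star_ci0, w.neg]
      unfold S1
      rw [e]
      exact (Equiv.neg ℤ).summable_iff.2 sb
    have i1 : Summable fun j => mz (cj b (n - j)) (r j) :=
      ((cvm_S1 w zero_le_one mz_bd sr sbn).1 n).of_norm
    show ⟪∑' j, mz (cj b (n - j)) (r j), p n⟫_ℂ = _
    have h3 := (innerSL ℂ (p n)).map_tsum i1
    have h4 : ⟪∑' j, mz (cj b (n - j)) (r j), p n⟫_ℂ =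
        star (∑' j, ⟪p n, mz (cj b (n - j)) (r j)⟫_ℂ) := by
      have h5 : ⟪p n, ∑' j, mz (cj b (n - j)) (r j)⟫_ℂ = ∑' j, ⟪p n, mz (cj b (n - j)) (r j)⟫_ℂ := by
        simpa using h3
      rw [← h5]
      exact (inner_conj_symm _ _).symm
    rw [h4, tsum_star]
    refine tsum_congr fun j => ?_
    show star ⟪p n, mz (star (b (-(n - j)))) (r j)⟫_ℂ = ⟪r j, mz (b (j - n)) (p n)⟫_ℂ
    rw [show -(n - j) = j - n by ring, ← inner_mz]
    exact inner_conj_symm _ _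
  rw [h1, h2]

theorem S1_cj (w : LW lam) {s : ℝ} {b : ℤ → CI H} (sb : S1 lam s b) :
    S1 lam s (cj b) ∧ N1 lam s (cj b) = N1 lam s b := by
  have e : (fun n => lam n ^ s * ‖cj b n‖) = (fun n => lam n ^ s * ‖b n‖) ∘ (Equiv.neg ℤ) := by
    funext n
    show lam n ^ s * ‖star (b (-n))‖ = lam (-n) ^ s * ‖b (-n)‖
    rw [norm_star_ci0, w.neg]
  constructor
  · unfold S1; rw [e]; exact (Equiv.neg ℤ).summable_iff.2 sb
  · unfold N1; rw [e]; exact (Equiv.neg ℤ).tsum_eq (fun n => lam n ^ s * ‖b n‖)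

theorem S2_sq (w : LW lam) {E : Type*} [NormedAddCommGroup E] {s : ℝ} (hs : 0 ≤ s) {x : ℤ → E}
    (h : S2 lam s x) : Summable fun n => ‖x n‖ ^ 2 := by
  have := (S2_mono w.h1 hs h).1
  unfold S2 at this
  simpa using this

theorem S1_abs (w : LW lam) {E : Type*} [NormedAddCommGroup E] {s : ℝ} (hs : 0 ≤ s) {x : ℤ → E}
    (h : S1 lam s x) : Summable fun n => ‖x n‖ := by
  have := (S1_mono w hs h).1
  unfold S1 at this
  simpa using this

/-- Multiplication by `b` moves to the outer factor. -/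
theorem T3_mul (w : LW lam) {α β γ : ℝ} (pw : PrW lam α β γ) {r : ℤ → Z2 H} {u b : ℤ → CI H}
    {p : ℤ → Z2 H} (sp : S2 lam α p) (su : S2 lam β u) (sr : S2 lam γ r)
    (sb : S1 lam (max α γ) b) :
    T3 r u (pz p b) = T3 (pz r (cj b)) u p := by
  have sba : S1 lam |α| b := by
    rw [abs_of_nonneg pw.ha]; exact (S1_mono w (le_max_left _ _) sb).1
  have sbc : S1 lam |γ| b := by
    rw [abs_of_nonneg pw.hc]; exact (S1_mono w (le_max_right _ _) sb).1
  have sbc' : S1 lam |γ| (cj b) := (S1_cj w sbc).1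
  have spb : S2 lam α (pz p b) := (cvm_S1 w zero_le_one mz_bd sp sba).2.1
  have srb : S2 lam γ (pz r (cj b)) := (cvm_S1 w zero_le_one mz_bd sr sbc').2.1
  have spu : S2 lam (-γ) (pz p u) :=
    (cvm_bd zero_le_one mz_bd pw.h1 pw.ha pw.hb pw.hc pw.hs sp su).2.1
  rw [← dp_pz pw spb su sr, ← dp_pz pw sp su srb]
  obtain ⟨e1, e2⟩ := pz_pz (S2_sq w pw.ha sp) (S1_abs w (abs_nonneg _) sba) (S2_sq w pw.hb su)
  rw [e1, ← e2]
  exact dp_mul w sr spu sbc

end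

end Pool.Agent.Lib.MP_79abb3_an.SC
end

section

/-!
MP_79abb3_an, simply connected domains, block (iii): functions `V = T g` as families of continuous
modes, Agmon inequalities, interpolation.
-/

set_option autoImplicit false
set_option linter.unusedSectionVars false

open MeasureTheory Set Filter Topology Function
open scoped ENNReal InnerProductSpace

namespace Pool.Agent.Lib.MP_79abb3_an.SC

open Pool.Agent.Lib.MP_79abb3_an.P25

/-- Admissibility of weights from a lower bound of `lam`. -/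
theorem prW_of {lam : ℤ → ℝ} {ω : ℝ} (hω : 0 < ω) (h1 : ∀ n, 1 ≤ lam n)
    (hk : ∀ n : ℤ, |ω * n| ≤ lam n) {α β γ : ℝ} (hα : 0 ≤ α) (hβ : 0 ≤ β) (hγ : 0 ≤ γ)
    (hs : 1 / 2 < α + β + γ) : PrW lam α β γ := by
  refine ⟨h1, hα, hβ, hγ, ?_⟩
  set s := α + β + γ with hsd
  have hs0 : 0 < s := by linarith
  have hsum : Summable fun n : ℤ => ω ^ (-(2 * s)) * (|(n:ℝ)|) ^ (-(2 * s)) := by
    refine Summable.mul_left _ ?_
    have h := Real.summable_abs_int_rpow (b := 2 * s) (by linarith)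
    exact h
  have hfin : Summable fun n : ℤ => (if n = 0 then (1:ℝ) else 0) := summable_of_hasFiniteSupport (by
    refine (Set.finite_singleton (0:ℤ)).subset fun n hn => ?_
    by_contra h
    exact hn (if_neg h))
  refine Summable.of_nonneg_of_le (fun n => sq_nonneg _) (fun n => ?_) (hfin.add hsum)
  have l0 : 0 < lam n := lt_of_lt_of_le one_pos (h1 n)
  have e : (lam n ^ (-s)) ^ 2 = lam n ^ (-(2 * s)) := by
    rw [← Real.rpow_natCast (lam n ^ (-s)) 2, ← Real.rpow_mul l0.le]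
    congr 1; push_cast; ring
  rw [e]
  by_cases hn : n = 0
  · rw [if_pos hn]
    have : lam n ^ (-(2 * s)) ≤ 1 := Real.rpow_le_one_of_one_le_of_nonpos (h1 n) (by linarith)
    have h0 : 0 ≤ ω ^ (-(2 * s)) * (|(n:ℝ)|) ^ (-(2 * s)) :=
      mul_nonneg (Real.rpow_nonneg hω.le _) (Real.rpow_nonneg (abs_nonneg _) _)
    linarith
  · rw [if_neg hn, zero_add]
    have hn' : 0 < |(n:ℝ)| := abs_pos.2 (Int.cast_ne_zero.2 hn)
    rw [← Real.mul_rpow hω.le hn'.le]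
    have h2 : ω * |(n:ℝ)| ≤ lam n := by
      have := hk n
      rwa [abs_mul, abs_of_pos hω] at this
    exact Real.rpow_le_rpow_of_nonpos (by positivity) h2 (by linarith)

section
variable {H : ℝ} [hH : Fact (0 < H)] {lam : ℤ → ℝ}

/-- `V = T g` as a family of continuous functions. -/
noncomputable def Vf (ω : ℝ) (g : ℤ → Z2 H) (n : ℤ) : CI H := Tz (ω * n) (g n)

theorem Vf_dz (ω : ℝ) (g : ℤ → Z2 H) (n : ℤ) :
    DZ (Vf ω g n) (ka ω n • (iota (Vf ω g n) : Z2 H) - g n) := Tz_dz (ω * n) (g n)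

theorem Vf_H (ω : ℝ) (g : ℤ → Z2 H) (n : ℤ) : ex (Vf ω g n) H = 0 := Tz_H _ _

theorem norm_iVf (ω : ℝ) (g : ℤ → Z2 H) (n : ℤ) :
    ‖io (Vf ω g) n‖ ≤ H * ‖g n‖ ∧ |ω * n| * ‖io (Vf ω g) n‖ ≤ ‖g n‖ := by
  refine ⟨?_, norm_kT2_le (ω * n) (g n)⟩
  exact ((T2 (ω * n)).le_opNorm (g n)).trans
    (mul_le_mul_of_nonneg_right (norm_T2_le _) (norm_nonneg _))

/-- `N_{1/2,∞}(T g) ≤ C |g|`, `|Λ T g| ≤ C |g|`. -/
theorem S2_Vf {ω Cl : ℝ} (h1 : ∀ n, 1 ≤ lam n) (hC : 0 ≤ Cl)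
    (hl : ∀ n : ℤ, lam n ≤ Cl * (1 + |ω * n|)) {g : ℤ → Z2 H} (sg : S2 lam 0 g) :
    (S2 lam (1 / 2) (Vf ω g) ∧ N2 lam (1 / 2) (Vf ω g) ≤ √(Cl * (H + 1)) * N2 lam 0 g) ∧
    (S2 lam 1 (io (Vf ω g)) ∧ N2 lam 1 (io (Vf ω g)) ≤ (Cl * (H + 1)) * N2 lam 0 g) := by
  have hH0 := hH.out
  have l0 : ∀ n, 0 < lam n := fun n => lt_of_lt_of_le one_pos (h1 n)
  constructor
  · have key : ∀ n, (lam n ^ (1 / 2 : ℝ) * ‖Vf ω g n‖) ^ 2 ≤ (Cl * (H + 1)) * (lam n ^ (0:ℝ) * ‖g n‖) ^ 2 := by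
      intro n
      obtain ⟨a1, a2⟩ := Tz_sup_sq (ω * n) (g n)
      have e : (lam n ^ (1 / 2 : ℝ)) ^ 2 = lam n := by
        rw [← Real.sqrt_eq_rpow, Real.sq_sqrt (l0 n).le]
      rw [mul_pow, e, Real.rpow_zero, one_mul]
      have a3 : (1 + |ω * n|) * ‖Vf ω g n‖ ^ 2 ≤ (H + 1) * ‖g n‖ ^ 2 := by
        have : (1 + |ω * n|) * ‖Tz (ω * n) (g n)‖ ^ 2 ≤ H * ‖g n‖ ^ 2 + ‖g n‖ ^ 2 := by nlinarith
        calc _ ≤ H * ‖g n‖ ^ 2 + ‖g n‖ ^ 2 := this
          _ = _ := by ring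
      calc lam n * ‖Vf ω g n‖ ^ 2 ≤ Cl * (1 + |ω * n|) * ‖Vf ω g n‖ ^ 2 :=
            mul_le_mul_of_nonneg_right (hl n) (sq_nonneg _)
        _ = Cl * ((1 + |ω * n|) * ‖Vf ω g n‖ ^ 2) := by ring
        _ ≤ Cl * ((H + 1) * ‖g n‖ ^ 2) := mul_le_mul_of_nonneg_left a3 hC
        _ = _ := by ring
    have hs : Summable fun n => (Cl * (H + 1)) * (lam n ^ (0:ℝ) * ‖g n‖) ^ 2 := sg.mul_left _
    have h2 : S2 lam (1 / 2) (Vf ω g) := Summable.of_nonneg_of_le (fun n => sq_nonneg _) key hs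
    refine ⟨h2, ?_⟩
    unfold N2
    rw [← Real.sqrt_mul (by positivity)]
    refine Real.sqrt_le_sqrt ((h2.tsum_le_tsum key hs).trans (le_of_eq ?_))
    rw [tsum_mul_left]
  · have key : ∀ n, (lam n ^ (1 : ℝ) * ‖io (Vf ω g) n‖) ^ 2 ≤ ((Cl * (H + 1)) * (lam n ^ (0:ℝ) * ‖g n‖)) ^ 2 := by
      intro n
      obtain ⟨a1, a2⟩ := norm_iVf ω g n
      rw [Real.rpow_one, Real.rpow_zero, one_mul]
      refine pow_le_pow_left₀ (mul_nonneg (l0 n).le (norm_nonneg _)) ?_ 2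
      calc lam n * ‖io (Vf ω g) n‖ ≤ Cl * (1 + |ω * n|) * ‖io (Vf ω g) n‖ :=
            mul_le_mul_of_nonneg_right (hl n) (norm_nonneg _)
        _ = Cl * (‖io (Vf ω g) n‖ + |ω * n| * ‖io (Vf ω g) n‖) := by ring
        _ ≤ Cl * (H * ‖g n‖ + ‖g n‖) := mul_le_mul_of_nonneg_left (add_le_add a1 a2) hC
        _ = _ := by ring
    have hs : Summable fun n => ((Cl * (H + 1)) * (lam n ^ (0:ℝ) * ‖g n‖)) ^ 2 := by
      simp only [mul_pow (Cl * (H + 1))]; exact sg.mul_left _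
    have h2 : S2 lam 1 (io (Vf ω g)) := Summable.of_nonneg_of_le (fun n => sq_nonneg _) key hs
    refine ⟨h2, ?_⟩
    refine Real.sqrt_le_iff.2 ⟨mul_nonneg (by positivity) (N2_nonneg _ _), ?_⟩
    refine (h2.tsum_le_tsum key hs).trans (le_of_eq ?_)
    simp only [mul_pow (Cl * (H + 1))]
    rw [tsum_mul_left, N2_sq]

/-! ### Agmon -/

/-- Agmon's inequality between two points. -/
theorem DZ.diff {F : CI H} {f : Z2 H} (h : DZ F f) {z a : ℝ} (hz : z ∈ Icc (0:ℝ) H)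
    (ha : a ∈ Icc (0:ℝ) H) : ‖ex F z‖ ^ 2 ≤ ‖ex F a‖ ^ 2 + 2 * (‖(iota F : Z2 H)‖ * ‖f‖) := by
  have h1 := h.star.mul h
  have e : ∀ w, ((ex (Star.star F * F) w)) = ((‖ex F w‖ ^ 2 : ℝ) : ℂ) := fun w => by
    rw [ex_mul, ex_star]
    have := Complex.conj_mul' (ex F w)
    push_cast
    exact this
  have h2 : ex (Star.star F * F) z - ex (Star.star F * F) a =
      (ex (Pz (mz F (cz f))) z - ex (Pz (mz F (cz f))) a) +
      (ex (Pz (mz (Star.star F) f)) z - ex (Pz (mz (Star.star F) f)) a) := by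
    rw [h1 z hz, h1 a ha, map_add, ex_add, ex_add]; ring
  have b1 := norm_Pz_mz_le F (cz f) ha hz
  have b2 := norm_Pz_mz_le (Star.star F) f ha hz
  rw [norm_cz] at b1
  have e3 : ‖(iota (Star.star F) : Z2 H)‖ = ‖(iota F : Z2 H)‖ := by rw [← cz_iota, norm_cz]
  rw [e3] at b2
  have h3 : ‖ex (Star.star F * F) z - ex (Star.star F * F) a‖ ≤ 2 * (‖(iota F : Z2 H)‖ * ‖f‖) := by
    rw [h2]
    refine (norm_add_le _ _).trans ?_
    linarith
  rw [e, e, ← Complex.ofReal_sub, Complex.norm_real, Real.norm_eq_abs] at h3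
  have := (abs_le.1 h3).2
  linarith

theorem sq_norm_ci_le {F : CI H} {C : ℝ} (hC : 0 ≤ C) (h : ∀ z ∈ Icc (0:ℝ) H, ‖ex F z‖ ^ 2 ≤ C) :
    ‖F‖ ^ 2 ≤ C := by
  have h1 : ‖F‖ ≤ √C := ci_norm_le (Real.sqrt_nonneg _) fun z hz => Real.le_sqrt_of_sq_le (h z hz)
  calc ‖F‖ ^ 2 ≤ √C ^ 2 := pow_le_pow_left₀ (norm_nonneg _) h1 2
    _ = C := Real.sq_sqrt hC

/-- Agmon's inequality for functions that vanish at a point. -/
theorem DZ.agmon0 {F : CI H} {f : Z2 H} (h : DZ F f) {a : ℝ} (ha : a ∈ Icc (0:ℝ) H)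
    (h0 : ex F a = 0) : ‖F‖ ^ 2 ≤ 2 * (‖(iota F : Z2 H)‖ * ‖f‖) := by
  refine sq_norm_ci_le (by positivity) fun z hz => ?_
  have := h.diff hz ha
  rw [h0, norm_zero] at this
  linarith

/-- Agmon's inequality in general. -/
theorem DZ.agmon {F : CI H} {f : Z2 H} (h : DZ F f) :
    ‖F‖ ^ 2 ≤ H⁻¹ * ‖(iota F : Z2 H)‖ ^ 2 + 2 * (‖(iota F : Z2 H)‖ * ‖f‖) := by
  have hH0 := hH.out
  refine sq_norm_ci_le (by positivity) fun z hz => ?_
  have h1 : H * ‖ex F z‖ ^ 2 ≤ ‖(iota F : Z2 H)‖ ^ 2 + H * (2 * (‖(iota F : Z2 H)‖ * ‖f‖)) := by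
    rw [norm_sq_iota]
    have e1 : H * ‖ex F z‖ ^ 2 = ∫ _a in (0:ℝ)..H, ‖ex F z‖ ^ 2 := by
      rw [intervalIntegral.integral_const, sub_zero, smul_eq_mul]
    have e2 : (∫ a in (0:ℝ)..H, ‖ex F a‖ ^ 2) + H * (2 * (‖(iota F : Z2 H)‖ * ‖f‖)) =
        ∫ a in (0:ℝ)..H, (‖ex F a‖ ^ 2 + 2 * (‖(iota F : Z2 H)‖ * ‖f‖)) := by
      have c1 : Continuous fun a => ‖ex F a‖ ^ 2 := (continuous_ex F).norm.pow 2
      rw [intervalIntegral.integral_add (c1.intervalIntegrable _ _)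
        (continuous_const.intervalIntegrable _ _), intervalIntegral.integral_const, sub_zero,
        smul_eq_mul]
    rw [e1, e2]
    refine intervalIntegral.integral_mono_on hH0.le (continuous_const.intervalIntegrable _ _)
      ((((continuous_ex F).norm.pow 2).add continuous_const).intervalIntegrable _ _) fun a ha => ?_
    exact h.diff hz ha
  calc ‖ex F z‖ ^ 2 = H⁻¹ * (H * ‖ex F z‖ ^ 2) := by field_simp
    _ ≤ H⁻¹ * (‖(iota F : Z2 H)‖ ^ 2 + H * (2 * (‖(iota F : Z2 H)‖ * ‖f‖))) :=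
        mul_le_mul_of_nonneg_left h1 (by positivity)
    _ = _ := by field_simp

/-- Agmon's inequality for families with a zero: `N_{s,∞}(F)² ≤ 2 |Λ^{2s} F| |F_z|`. -/
theorem agmon_fam0 (h1 : ∀ n, 1 ≤ lam n) {s : ℝ} {F : ℤ → CI H} {f : ℤ → Z2 H}
    (h : ∀ n, DZ (F n) (f n)) (h0 : ∀ n, ∃ a ∈ Icc (0:ℝ) H, ex (F n) a = 0)
    (sF : S2 lam (2 * s) (io F)) (sf : S2 lam 0 f) :
    S2 lam s F ∧ N2 lam s F ^ 2 ≤ 2 * (N2 lam (2 * s) (io F) * N2 lam 0 f) := by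
  have l0 : ∀ n, 0 < lam n := fun n => lt_of_lt_of_le one_pos (h1 n)
  obtain ⟨a1, a2⟩ := cs_tsum (x := fun n => lam n ^ (2 * s) * ‖io F n‖) (y := fun n => lam n ^ (0:ℝ) * ‖f n‖)
    (fun n => mul_nonneg (Real.rpow_nonneg (l0 n).le _) (norm_nonneg _))
    (fun n => mul_nonneg (Real.rpow_nonneg (l0 n).le _) (norm_nonneg _)) sF sf
  have key : ∀ n, (lam n ^ s * ‖F n‖) ^ 2 ≤
      2 * ((lam n ^ (2 * s) * ‖io F n‖) * (lam n ^ (0:ℝ) * ‖f n‖)) := by
    intro n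
    obtain ⟨a, ha, hz⟩ := h0 n
    have h2 := (h n).agmon0 ha hz
    have e : (lam n ^ s) ^ 2 = lam n ^ (2 * s) := by
      rw [← Real.rpow_natCast (lam n ^ s) 2, ← Real.rpow_mul (l0 n).le]
      congr 1; push_cast; ring
    rw [mul_pow, e, Real.rpow_zero, one_mul]
    calc lam n ^ (2 * s) * ‖F n‖ ^ 2 ≤ lam n ^ (2 * s) * (2 * (‖(iota (F n) : Z2 H)‖ * ‖f n‖)) :=
          mul_le_mul_of_nonneg_left h2 (Real.rpow_nonneg (l0 n).le _)
      _ = _ := by unfold io; ring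
  have hs : Summable fun n => 2 * ((lam n ^ (2 * s) * ‖io F n‖) * (lam n ^ (0:ℝ) * ‖f n‖)) :=
    a1.mul_left 2
  have h2 : S2 lam s F := Summable.of_nonneg_of_le (fun n => sq_nonneg _) key hs
  refine ⟨h2, ?_⟩
  rw [N2_sq]
  refine (h2.tsum_le_tsum key hs).trans ?_
  rw [tsum_mul_left]
  exact mul_le_mul_of_nonneg_left a2 zero_le_two

/-- Agmon's inequality for families in general:
`N_{s,∞}(F)² ≤ |Λ^{2s} F| (H⁻¹ |F| + 2 |F_z|)`. -/
theorem agmon_fam (h1 : ∀ n, 1 ≤ lam n) {s : ℝ} {F : ℤ → CI H} {f : ℤ → Z2 H}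
    (h : ∀ n, DZ (F n) (f n)) (sF : S2 lam (2 * s) (io F)) (sF0 : S2 lam 0 (io F))
    (sf : S2 lam 0 f) :
    S2 lam s F ∧ N2 lam s F ^ 2 ≤
      N2 lam (2 * s) (io F) * (H⁻¹ * N2 lam 0 (io F) + 2 * N2 lam 0 f) := by
  have hH0 := hH.out
  have l0 : ∀ n, 0 < lam n := fun n => lt_of_lt_of_le one_pos (h1 n)
  have p0 : ∀ (t : ℝ) (x : ℤ → Z2 H) n, 0 ≤ lam n ^ t * ‖x n‖ := fun t x n =>
    mul_nonneg (Real.rpow_nonneg (l0 n).le _) (norm_nonneg _)
  obtain ⟨a1, a2⟩ := cs_tsum (x := fun n => lam n ^ (2 * s) * ‖io F n‖) (y := fun n => lam n ^ (0:ℝ) * ‖f n‖)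
    (p0 _ _) (p0 _ _) sF sf
  obtain ⟨b1, b2⟩ := cs_tsum (x := fun n => lam n ^ (2 * s) * ‖io F n‖)
    (y := fun n => lam n ^ (0:ℝ) * ‖io F n‖) (p0 _ _) (p0 _ _) sF sF0
  have key : ∀ n, (lam n ^ s * ‖F n‖) ^ 2 ≤
      H⁻¹ * ((lam n ^ (2 * s) * ‖io F n‖) * (lam n ^ (0:ℝ) * ‖io F n‖)) +
      2 * ((lam n ^ (2 * s) * ‖io F n‖) * (lam n ^ (0:ℝ) * ‖f n‖)) := by
    intro n
    have h2 := (h n).agmon
    have e : (lam n ^ s) ^ 2 = lam n ^ (2 * s) := by
      rw [← Real.rpow_natCast (lam n ^ s) 2, ← Real.rpow_mul (l0 n).le]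
      congr 1; push_cast; ring
    rw [mul_pow, e, Real.rpow_zero, one_mul, one_mul]
    calc lam n ^ (2 * s) * ‖F n‖ ^ 2 ≤ lam n ^ (2 * s) *
          (H⁻¹ * ‖(iota (F n) : Z2 H)‖ ^ 2 + 2 * (‖(iota (F n) : Z2 H)‖ * ‖f n‖)) :=
          mul_le_mul_of_nonneg_left h2 (Real.rpow_nonneg (l0 n).le _)
      _ = _ := by unfold io; ring
  have hs := (b1.mul_left H⁻¹).add (a1.mul_left 2)
  have h2 : S2 lam s F := Summable.of_nonneg_of_le (fun n => sq_nonneg _) key hs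
  refine ⟨h2, ?_⟩
  rw [N2_sq]
  refine (h2.tsum_le_tsum key hs).trans ?_
  rw [(b1.mul_left H⁻¹).tsum_add (a1.mul_left 2), tsum_mul_left, tsum_mul_left]
  have c1 : ∑' n, lam n ^ (2 * s) * ‖io F n‖ * (lam n ^ (0:ℝ) * ‖io F n‖) ≤
      N2 lam (2 * s) (io F) * N2 lam 0 (io F) := b2
  have c2 : ∑' n, lam n ^ (2 * s) * ‖io F n‖ * (lam n ^ (0:ℝ) * ‖f n‖) ≤
      N2 lam (2 * s) (io F) * N2 lam 0 f := a2
  calc _ ≤ H⁻¹ * (N2 lam (2 * s) (io F) * N2 lam 0 (io F)) +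
        2 * (N2 lam (2 * s) (io F) * N2 lam 0 f) := by gcongr
    _ = _ := by ring

end

end Pool.Agent.Lib.MP_79abb3_an.SC
end
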