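import Pool.Agent.Lib.MP_79abb3_an.P25.Basic

/-!
MP_79abb3_an, simply connected planar domains (Theorem C), base file A: the space `L²(0,H)`,
multiplication by continuous functions, primitives.
-/

set_option autoImplicit false
set_option linter.unusedSectionVars false

open MeasureTheory Set Filter Topology Function
open scoped ENNReal InnerProductSpace

namespace Pool.Agent.Lib.MP_79abb3_an.SC

open Pool.Agent.Lib.MP_79abb3_an.P25

/-- Lebesgue measure on `(0,H]` -/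
noncomputable abbrev mH (H : ℝ) : Measure ℝ := volume.restrict (Ioc (0:ℝ) H)

/-- `L²(0,H)` -/
abbrev Z2 (H : ℝ) : Type := Lp ℂ 2 (mH H)

section
variable {H : ℝ} [hH : Fact (0 < H)]

theorem memLp_ex (f : CI H) : MemLp (ex f) 2 (mH H) :=
  MemLp.of_bound (continuous_ex f).aestronglyMeasurable ‖f‖ (Eventually.of_forall (norm_ex_le f))

theorem memLp_ex_mul (b : CI H) (f : Z2 H) : MemLp (fun z => ex b z * f z) 2 (mH H) := by
  have h1 : MemLp (ex b) ∞ (mH H) :=
    memLp_top_of_bound (continuous_ex b).aestronglyMeasurable ‖b‖ (Eventually.of_forall (norm_ex_le b))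
  exact (Lp.memLp f).mul (r := 2) h1

theorem norm_sq_Z2 (f : Z2 H) : ‖f‖ ^ 2 = ∫ z in (0:ℝ)..H, ‖f z‖ ^ 2 := by
  rw [intervalIntegral.integral_of_le hH.out.le]
  have h1 : ‖f‖ ^ 2 = (⟪f, f⟫_ℂ).re := by
    rw [inner_self_eq_norm_sq_to_K]
    norm_cast
  rw [h1, L2.inner_def]
  have h2 := integral_re (𝕜 := ℂ) (L2.integrable_inner (𝕜 := ℂ) f f)
  rw [← RCLike.re_eq_complex_re, ← h2]
  refine integral_congr_ae (Eventually.of_forall fun z => ?_)
  show RCLike.re (⟪f z, f z⟫_ℂ) = ‖f z‖ ^ 2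
  rw [inner_self_eq_norm_sq_to_K]
  norm_cast

theorem inner_Z2 (f g : Z2 H) : ⟪f, g⟫_ℂ = ∫ z in (0:ℝ)..H, star (f z) * g z := by
  rw [intervalIntegral.integral_of_le hH.out.le, L2.inner_def]
  refine integral_congr_ae (Eventually.of_forall fun z => ?_)
  show ⟪f z, g z⟫_ℂ = star (f z) * g z
  rw [RCLike.inner_apply, mul_comm]
  rfl

/-- Congruence for integrals over subintervals from almost everywhere equality on `(0,H]`. -/
theorem ii_congr {f g : ℝ → ℂ} (h : f =ᵐ[mH H] g) {a b : ℝ} (ha : a ∈ Icc (0:ℝ) H)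
    (hb : b ∈ Icc (0:ℝ) H) : ∫ x in a..b, f x = ∫ x in a..b, g x := by
  apply intervalIntegral.integral_congr_ae
  have h1 : ∀ᵐ x ∂volume, x ∈ Ioc (0:ℝ) H → f x = g x := (ae_restrict_iff' measurableSet_Ioc).1 h
  filter_upwards [h1] with x hx hx2
  apply hx
  rcases le_total a b with hab | hab
  · rw [uIoc_of_le hab] at hx2
    exact ⟨lt_of_le_of_lt ha.1 hx2.1, hx2.2.trans hb.2⟩
  · rw [uIoc_of_ge hab] at hx2
    exact ⟨lt_of_le_of_lt hb.1 hx2.1, hx2.2.trans ha.2⟩

theorem uIoc_sub {a b : ℝ} (ha : a ∈ Icc (0:ℝ) H) (hb : b ∈ Icc (0:ℝ) H) : uIoc a b ⊆ Ioc (0:ℝ) H := by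
  rcases le_total a b with hab | hab
  · rw [uIoc_of_le hab]
    exact fun x hx => ⟨lt_of_le_of_lt ha.1 hx.1, hx.2.trans hb.2⟩
  · rw [uIoc_of_ge hab]
    exact fun x hx => ⟨lt_of_le_of_lt hb.1 hx.1, hx.2.trans ha.2⟩

theorem ii_Z2 (f : Z2 H) {a b : ℝ} (ha : a ∈ Icc (0:ℝ) H) (hb : b ∈ Icc (0:ℝ) H) :
    IntervalIntegrable f volume a b := by
  rw [intervalIntegrable_iff]
  have h1 : Integrable f (mH H) := (Lp.memLp f).integrable (by norm_num)
  exact IntegrableOn.mono_set h1 (uIoc_sub ha hb)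

/-- Embedding of continuous functions. -/
noncomputable def iota : CI H →L[ℂ] Z2 H :=
  LinearMap.mkContinuous
    { toFun := fun f => (memLp_ex f).toLp (ex f)
      map_add' := fun f g => by
        rw [← MemLp.toLp_add]
        rfl
      map_smul' := fun c f => by
        rw [RingHom.id_apply, ← MemLp.toLp_const_smul]
        rfl } (√H) (fun f => by
      have h0 := hH.out
      refine (sq_le_sq₀ (norm_nonneg _) (by positivity)).1 ?_
      show ‖(memLp_ex f).toLp (ex f)‖ ^ 2 ≤ _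
      rw [norm_sq_Z2, mul_pow, Real.sq_sqrt h0.le]
      have h1 : ∫ z in (0:ℝ)..H, ‖((memLp_ex f).toLp (ex f) : Z2 H) z‖ ^ 2 =
          ∫ z in (0:ℝ)..H, ‖ex f z‖ ^ 2 := by
        rw [intervalIntegral.integral_of_le h0.le, intervalIntegral.integral_of_le h0.le]
        refine integral_congr_ae ?_
        filter_upwards [(memLp_ex f).coeFn_toLp] with z hz
        rw [hz]
      rw [h1]
      have h2 : ∫ z in (0:ℝ)..H, ‖ex f z‖ ^ 2 ≤ ∫ _z in (0:ℝ)..H, ‖f‖ ^ 2 := by
        apply intervalIntegral.integral_mono_on h0.le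
        · exact Continuous.intervalIntegrable ((continuous_ex f).norm.pow 2) _ _
        · exact continuous_const.intervalIntegrable _ _
        · intro z _
          exact pow_le_pow_left₀ (norm_nonneg _) (norm_ex_le f z) 2
      refine h2.trans ?_
      rw [intervalIntegral.integral_const, sub_zero, smul_eq_mul])

theorem coe_iota (f : CI H) : (iota f : Z2 H) =ᵐ[mH H] ex f := (memLp_ex f).coeFn_toLp

/-- Multiplication by a continuous function. -/
noncomputable def mz : CI H →L[ℂ] Z2 H →L[ℂ] Z2 H :=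
  LinearMap.mkContinuous₂
    (LinearMap.mk₂ ℂ (fun b f => (memLp_ex_mul b f).toLp (fun z => ex b z * f z))
      (fun b c f => by
        rw [← MemLp.toLp_add]
        apply MemLp.toLp_congr
        refine Eventually.of_forall fun z => ?_
        simp only [ex_add, Pi.add_apply]
        ring)
      (fun c b f => by
        rw [← MemLp.toLp_const_smul]
        apply MemLp.toLp_congr
        refine Eventually.of_forall fun z => ?_
        simp only [ex_smul, Pi.smul_apply, smul_eq_mul]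
        ring)
      (fun b f g => by
        rw [← MemLp.toLp_add]
        apply MemLp.toLp_congr
        filter_upwards [Lp.coeFn_add f g] with z hz
        rw [hz]
        simp only [Pi.add_apply]
        ring)
      (fun c b f => by
        rw [← MemLp.toLp_const_smul]
        apply MemLp.toLp_congr
        filter_upwards [Lp.coeFn_smul c f] with z hz
        rw [hz]
        simp only [Pi.smul_apply, smul_eq_mul]
        ring)) 1 (fun b f => by
      rw [one_mul]
      show ‖(memLp_ex_mul b f).toLp (fun z => ex b z * f z)‖ ≤ _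
      apply Lp.norm_le_mul_norm_of_ae_le_mul
      filter_upwards [(memLp_ex_mul b f).coeFn_toLp] with z hz
      rw [hz, norm_mul]
      gcongr
      exact norm_ex_le b z)

theorem coe_mz (b : CI H) (f : Z2 H) : (mz b f : Z2 H) =ᵐ[mH H] fun z => ex b z * f z :=
  (memLp_ex_mul b f).coeFn_toLp

theorem norm_mz_apply_le (b : CI H) (f : Z2 H) : ‖mz b f‖ ≤ ‖b‖ * ‖f‖ := by
  apply Lp.norm_le_mul_norm_of_ae_le_mul
  filter_upwards [coe_mz b f] with z hz
  rw [hz, norm_mul]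
  gcongr
  exact norm_ex_le b z

theorem norm_mz_le (b : CI H) : ‖(mz b : Z2 H →L[ℂ] Z2 H)‖ ≤ ‖b‖ :=
  ContinuousLinearMap.opNorm_le_bound _ (norm_nonneg _) (norm_mz_apply_le b)

theorem Z2_ext {f g : Z2 H} (h : (f : ℝ → ℂ) =ᵐ[mH H] g) : f = g := Lp.ext h

theorem mz_mul (b c : CI H) (f : Z2 H) : mz (b * c) f = mz b (mz c f) := by
  apply Z2_ext
  filter_upwards [coe_mz (b * c) f, coe_mz b (mz c f), coe_mz c f] with z h1 h2 h3
  rw [h1, h2, h3, ex_mul, mul_assoc]

theorem mz_comm (b c : CI H) (f : Z2 H) : mz b (mz c f) = mz c (mz b f) := by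
  rw [← mz_mul, ← mz_mul, mul_comm]

theorem mz_one (f : Z2 H) : mz 1 f = f := by
  apply Z2_ext
  filter_upwards [coe_mz 1 f] with z h1
  rw [h1]
  show 1 * f z = f z
  rw [one_mul]

theorem mz_iota (b c : CI H) : mz b (iota c) = iota (b * c) := by
  apply Z2_ext
  filter_upwards [coe_mz b (iota c), coe_iota c, coe_iota (b * c)] with z h1 h2 h3
  rw [h1, h2, h3, ex_mul]

/-- Complex conjugation on `L²(0,H)` -/
noncomputable def cz (f : Z2 H) : Z2 H := star f

theorem coe_cz (f : Z2 H) : (cz f : Z2 H) =ᵐ[mH H] fun z => star (f z) := Lp.coeFn_star f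

@[simp] theorem cz_cz (f : Z2 H) : cz (cz f) = f := star_star f

theorem cz_add (f g : Z2 H) : cz (f + g) = cz f + cz g := by
  apply Z2_ext
  filter_upwards [coe_cz (f + g), coe_cz f, coe_cz g, Lp.coeFn_add f g, Lp.coeFn_add (cz f) (cz g)]
    with z h1 h2 h3 h4 h5
  rw [h1, h5, Pi.add_apply, h2, h3, h4, Pi.add_apply, star_add]

theorem cz_smul (c : ℂ) (f : Z2 H) : cz (c • f) = star c • cz f := by
  apply Z2_ext
  filter_upwards [coe_cz (c • f), coe_cz f, Lp.coeFn_smul c f, Lp.coeFn_smul (star c) (cz f)]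
    with z h1 h2 h3 h4
  rw [h1, h4, Pi.smul_apply, h2, h3, Pi.smul_apply, smul_eq_mul, smul_eq_mul, star_mul']

theorem norm_cz (f : Z2 H) : ‖cz f‖ = ‖f‖ := by
  apply le_antisymm
  · apply Lp.norm_le_norm_of_ae_le
    filter_upwards [coe_cz f] with z h1
    rw [h1, norm_star]
  · apply Lp.norm_le_norm_of_ae_le
    filter_upwards [coe_cz f] with z h1
    rw [h1, norm_star]

theorem cz_iota (b : CI H) : cz (iota b) = iota (star b) := by
  apply Z2_ext
  filter_upwards [coe_cz (iota b), coe_iota b, coe_iota (star b)] with z h1 h2 h3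
  rw [h1, h2, h3, ex_star]

theorem cz_mz (b : CI H) (f : Z2 H) : cz (mz b f) = mz (star b) (cz f) := by
  apply Z2_ext
  filter_upwards [coe_cz (mz b f), coe_mz b f, coe_mz (star b) (cz f), coe_cz f] with z h1 h2 h3 h4
  rw [h1, h2, h3, h4, ex_star, star_mul']

theorem inner_cz (f g : Z2 H) : ⟪cz f, cz g⟫_ℂ = ⟪g, f⟫_ℂ := by
  rw [inner_Z2, inner_Z2]
  have h0 : (0:ℝ) ∈ Icc (0:ℝ) H := ⟨le_refl _, hH.out.le⟩
  have h1 : H ∈ Icc (0:ℝ) H := ⟨hH.out.le, le_refl _⟩
  refine ii_congr ?_ h0 h1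
  filter_upwards [coe_cz f, coe_cz g] with z h1 h2
  rw [h1, h2, star_star, mul_comm]

theorem inner_mz (b : CI H) (f g : Z2 H) : ⟪mz b f, g⟫_ℂ = ⟪f, mz (star b) g⟫_ℂ := by
  rw [inner_Z2, inner_Z2]
  have h0 : (0:ℝ) ∈ Icc (0:ℝ) H := ⟨le_refl _, hH.out.le⟩
  have h1 : H ∈ Icc (0:ℝ) H := ⟨hH.out.le, le_refl _⟩
  refine ii_congr ?_ h0 h1
  filter_upwards [coe_mz b f, coe_mz (star b) g] with z h1 h2
  rw [h1, h2, star_mul', ex_star]
  ring

/-- The primitive from `0`. -/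
noncomputable def PzF (f : Z2 H) : CI H :=
  mkCI (fun z => ∫ x in (0:ℝ)..z, f x) (by
    have h0 : (0:ℝ) ∈ Icc (0:ℝ) H := ⟨le_refl _, hH.out.le⟩
    have h1 : H ∈ Icc (0:ℝ) H := ⟨hH.out.le, le_refl _⟩
    have h2 := intervalIntegral.continuousOn_primitive_interval' (ii_Z2 f h0 h1)
      (a := (0:ℝ)) left_mem_uIcc
    rwa [uIcc_of_le hH.out.le] at h2)

theorem PzF_apply (f : Z2 H) {z : ℝ} (hz : z ∈ Icc (0:ℝ) H) : ex (PzF f) z = ∫ x in (0:ℝ)..z, f x :=
  ex_mkCI _ hz

/-- Cauchy-Schwarz on subintervals. -/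
theorem cs_Z2 (f g : Z2 H) {a b : ℝ} (ha : a ∈ Icc (0:ℝ) H) (hb : b ∈ Icc (0:ℝ) H) :
    ‖∫ x in a..b, f x * g x‖ ≤ ‖f‖ * ‖g‖ := by
  have h0 := hH.out
  have hf2 : MemLp (fun x => ‖f x‖) 2 (mH H) := (Lp.memLp f).norm
  have hg2 : MemLp (fun x => ‖g x‖) 2 (mH H) := (Lp.memLp g).norm
  have hfg : Integrable (fun x => ‖f x‖ * ‖g x‖) (mH H) := by
    have := hg2.integrable_mul hf2
    refine this.congr (Eventually.of_forall fun x => ?_)
    show ‖g x‖ * ‖f x‖ = _
    rw [mul_comm]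
  have e1 : ‖∫ x in a..b, f x * g x‖ ≤ ∫ x in (0:ℝ)..H, ‖f x‖ * ‖g x‖ := by
    rw [intervalIntegral.norm_integral_eq_norm_integral_uIoc, intervalIntegral.integral_of_le h0.le]
    refine (norm_integral_le_integral_norm _).trans ?_
    have e2 : ∫ x in uIoc a b, ‖f x * g x‖ = ∫ x in uIoc a b, ‖f x‖ * ‖g x‖ := by
      simp only [norm_mul]
    rw [e2]
    apply setIntegral_mono_set hfg
    · exact Eventually.of_forall fun x => by positivity
    · exact (uIoc_sub ha hb).eventuallyLE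
  refine e1.trans ?_
  have e3 := integral_mul_le_Lp_mul_Lq_of_nonneg (μ := mH H) (p := 2) (q := 2)
    (f := fun x => ‖f x‖) (g := fun x => ‖g x‖) Real.HolderConjugate.two_two
    (Eventually.of_forall fun x => norm_nonneg _) (Eventually.of_forall fun x => norm_nonneg _)
    (by simpa using hf2) (by simpa using hg2)
  rw [intervalIntegral.integral_of_le h0.le]
  refine e3.trans (le_of_eq ?_)
  have e4 : ∀ u : Z2 H, (∫ x, ‖u x‖ ^ (2:ℝ) ∂(mH H)) ^ (1 / 2 : ℝ) = ‖u‖ := by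
    intro u
    have e5 : ∫ x, ‖u x‖ ^ (2:ℝ) ∂(mH H) = ‖u‖ ^ 2 := by
      rw [norm_sq_Z2, intervalIntegral.integral_of_le h0.le]
      simp only [Real.rpow_two]
    rw [e5, ← Real.sqrt_eq_rpow, Real.sqrt_sq (norm_nonneg _)]
  rw [e4, e4]

theorem zero_memI : (0:ℝ) ∈ Icc (0:ℝ) H := ⟨le_refl _, hH.out.le⟩
theorem H_memI : H ∈ Icc (0:ℝ) H := ⟨hH.out.le, le_refl _⟩

theorem norm_sq_iota (b : CI H) : ‖(iota b : Z2 H)‖ ^ 2 = ∫ z in (0:ℝ)..H, ‖ex b z‖ ^ 2 := by
  rw [norm_sq_Z2, intervalIntegral.integral_of_le hH.out.le, intervalIntegral.integral_of_le hH.out.le]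
  refine integral_congr_ae ?_
  filter_upwards [coe_iota b] with z hz
  rw [hz]

theorem iota_injective : Injective (iota : CI H → Z2 H) := by
  intro b c hbc
  have h1 : (iota (b - c) : Z2 H) = 0 := by rw [map_sub, hbc, sub_self]
  have h2 := norm_sq_iota (b - c)
  rw [h1, norm_zero] at h2
  have h3 : ∀ z ∈ Icc (0:ℝ) H, ‖ex (b - c) z‖ ^ 2 = 0 := by
    intro z hz
    by_contra hne
    have hpos : 0 < ‖ex (b - c) z‖ ^ 2 := lt_of_le_of_ne (by positivity) (Ne.symm hne)
    have h4 : 0 < ∫ z in (0:ℝ)..H, ‖ex (b - c) z‖ ^ 2 :=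
      intervalIntegral.integral_pos hH.out ((continuous_ex (b - c)).norm.pow 2).continuousOn
        (fun x _ => by positivity) ⟨z, hz, hpos⟩
    rw [← h2] at h4
    norm_num at h4
  apply ci_ext
  intro z hz
  have h5 := h3 z hz
  rw [pow_eq_zero_iff two_ne_zero, norm_eq_zero, ex_sub, sub_eq_zero] at h5
  exact h5

theorem iota_dense : DenseRange (iota : CI H → Z2 H) := by
  intro f
  rw [Metric.mem_closure_range_iff]
  intro ε hε
  obtain ⟨g, _, hg2, hg3, hg4⟩ := (Lp.memLp f).exists_hasCompactSupport_eLpNorm_sub_le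
    (by norm_num) (ε := ENNReal.ofReal (ε / 2)) (by
      rw [Ne, ENNReal.ofReal_eq_zero, not_le]; positivity)
  refine ⟨mkCI g hg3.continuousOn, ?_⟩
  rw [dist_eq_norm, Lp.norm_def]
  have h1 : (↑↑(f - iota (mkCI g hg3.continuousOn) : Z2 H) : ℝ → ℂ) =ᵐ[mH H] f - g := by
    filter_upwards [Lp.coeFn_sub f (iota (mkCI g hg3.continuousOn)),
      coe_iota (mkCI g hg3.continuousOn : CI H), ae_restrict_mem measurableSet_Ioc] with z h2 h3 h4
    rw [h2, Pi.sub_apply, Pi.sub_apply, h3, ex_mkCI hg3.continuousOn ⟨h4.1.le, h4.2⟩]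
  rw [eLpNorm_congr_ae h1]
  have h5 : (eLpNorm (↑↑f - g) 2 (mH H)).toReal ≤ ε / 2 :=
    ENNReal.toReal_le_of_le_ofReal (by positivity) hg2
  linarith

end

end Pool.Agent.Lib.MP_79abb3_an.SC
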