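import Pool.Agent.Lib.MP_79abb3_an.SC.ApPr
import Pool.Agent.Lib.MP_79abb3_an.SC.LaA

/-!
MP_79abb3_an, simply connected domains, block (iii): pairings and trilinear forms of families of modes.
-/

set_option autoImplicit false
set_option linter.unusedSectionVars false

open MeasureTheory Set Filter Topology Function
open scoped ENNReal InnerProductSpace

namespace Pool.Agent.Lib.MP_79abb3_an.SC

open Pool.Agent.Lib.MP_79abb3_an.P25

section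
variable {H : ℝ} [hH : Fact (0 < H)] {lam : ℤ → ℝ}

/-- The pairing `∑_n ⟨f_n, g_n⟩`. -/
noncomputable def dp (f g : ℤ → Z2 H) : ℂ := ∑' n, ⟪f n, g n⟫_ℂ

/-- The product `(p u)_n = ∑_j u_{n-j} p_j`. -/
noncomputable def pz (p : ℤ → Z2 H) (u : ℤ → CI H) : ℤ → Z2 H := cvm (fun f v => mz v f) p u

/-- The product `(p u)_n = ∑_j p_j u_{n-j}` of continuous families. -/
noncomputable def pc (p u : ℤ → CI H) : ℤ → CI H := cvm (fun f g => f * g) p u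

/-- The trilinear form `∫ r̄ u p`. -/
noncomputable def T3 (r : ℤ → Z2 H) (u : ℤ → CI H) (p : ℤ → Z2 H) : ℂ :=
  ∑' x : ℤ × ℤ, ⟪r (x.1 + x.2), mz (u x.2) (p x.1)⟫_ℂ

theorem mz_bd (f : Z2 H) (u : CI H) : ‖mz u f‖ ≤ 1 * (‖f‖ * ‖u‖) := by
  rw [one_mul, mul_comm]
  exact norm_mz_apply_le u f

theorem mc_bd (f u : CI H) : ‖f * u‖ ≤ 1 * (‖f‖ * ‖u‖) := by
  rw [one_mul]
  exact norm_mul_le f u

/-- Summability of the trilinear form, first bound. -/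
theorem T3_sum {α β γ : ℝ} (w : PrW lam α β γ) {r : ℤ → Z2 H} {u : ℤ → CI H} {p : ℤ → Z2 H}
    (sp : S2 lam α p) (su : S2 lam β u) (sr : S2 lam γ r) :
    (Summable fun x : ℤ × ℤ => ‖⟪r (x.1 + x.2), mz (u x.2) (p x.1)⟫_ℂ‖) ∧
      ‖T3 r u p‖ ≤ CP lam (α + β + γ) * N2 lam α p * N2 lam β u * N2 lam γ r := by
  obtain ⟨h1, h2⟩ := tri_scalar w.h1 w.ha w.hb w.hc w.hs sp su sr
  have key : ∀ x : ℤ × ℤ, ‖⟪r (x.1 + x.2), mz (u x.2) (p x.1)⟫_ℂ‖ ≤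
      ‖p x.1‖ * ‖u x.2‖ * ‖r (x.1 + x.2)‖ := fun x => by
    refine (norm_inner_le_norm _ _).trans ?_
    calc ‖r (x.1 + x.2)‖ * ‖mz (u x.2) (p x.1)‖ ≤ ‖r (x.1 + x.2)‖ * (‖u x.2‖ * ‖p x.1‖) :=
          mul_le_mul_of_nonneg_left (norm_mz_apply_le _ _) (norm_nonneg _)
      _ = _ := by ring
  have hs : Summable fun x : ℤ × ℤ => ‖⟪r (x.1 + x.2), mz (u x.2) (p x.1)⟫_ℂ‖ :=
    Summable.of_nonneg_of_le (fun _ => norm_nonneg _) key h1
  exact ⟨hs, (norm_tsum_le_tsum_norm hs).trans ((hs.tsum_le_tsum key h1).trans h2)⟩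

/-- Cauchy-Schwarz for three functions, the sup norm on the outer factor. -/
theorem norm_inner_mz_le (r u : CI H) (p : Z2 H) :
    ‖⟪(iota r : Z2 H), mz u p⟫_ℂ‖ ≤ ‖p‖ * ‖(iota u : Z2 H)‖ * ‖r‖ := by
  have h1 : ⟪(iota r : Z2 H), mz u p⟫_ℂ = ⟪mz (star u) (iota r), p⟫_ℂ := by
    rw [inner_mz, star_star]
  have h2 : mz (star u) (iota r : Z2 H) = mz r (iota (star u)) := by
    rw [mz_iota, mz_iota, mul_comm]
  have h3 : ‖(iota (star u) : Z2 H)‖ = ‖(iota u : Z2 H)‖ := by rw [← cz_iota, norm_cz]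
  rw [h1, h2]
  refine (norm_inner_le_norm _ _).trans ?_
  calc ‖mz r (iota (star u) : Z2 H)‖ * ‖p‖ ≤ ‖r‖ * ‖(iota (star u) : Z2 H)‖ * ‖p‖ :=
        mul_le_mul_of_nonneg_right (norm_mz_apply_le _ _) (norm_nonneg _)
    _ = _ := by rw [h3]; ring

/-- Summability of the trilinear form, second bound. -/
theorem T3_sum' {α β γ : ℝ} (w : PrW lam α β γ) {r : ℤ → CI H} {u : ℤ → CI H} {p : ℤ → Z2 H}
    (sp : S2 lam α p) (su : S2 lam β fun n => (iota (u n) : Z2 H)) (sr : S2 lam γ r) :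
    (Summable fun x : ℤ × ℤ => ‖⟪(iota (r (x.1 + x.2)) : Z2 H), mz (u x.2) (p x.1)⟫_ℂ‖) ∧
      ‖T3 (fun n => iota (r n)) u p‖ ≤
        CP lam (α + β + γ) * N2 lam α p * N2 lam β (fun n => (iota (u n) : Z2 H)) * N2 lam γ r := by
  obtain ⟨h1, h2⟩ := tri_scalar w.h1 w.ha w.hb w.hc w.hs sp su sr
  have key : ∀ x : ℤ × ℤ, ‖⟪(iota (r (x.1 + x.2)) : Z2 H), mz (u x.2) (p x.1)⟫_ℂ‖ ≤
      ‖p x.1‖ * ‖(iota (u x.2) : Z2 H)‖ * ‖r (x.1 + x.2)‖ := fun x => norm_inner_mz_le _ _ _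
  have hs : Summable fun x : ℤ × ℤ => ‖⟪(iota (r (x.1 + x.2)) : Z2 H), mz (u x.2) (p x.1)⟫_ℂ‖ :=
    Summable.of_nonneg_of_le (fun _ => norm_nonneg _) key h1
  exact ⟨hs, (norm_tsum_le_tsum_norm hs).trans ((hs.tsum_le_tsum key h1).trans h2)⟩

theorem S2_iota (h1 : ∀ n, 1 ≤ lam n) {s : ℝ} {u : ℤ → CI H} (hu : S2 lam s u) :
    S2 lam s (fun n => (iota (u n) : Z2 H)) ∧
      N2 lam s (fun n => (iota (u n) : Z2 H)) ≤ √H * N2 lam s u := by
  refine S2_dom h1 (Real.sqrt_nonneg H) (fun n => ?_) hu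
  refine (iota.le_opNorm _).trans (mul_le_mul_of_nonneg_right ?_ (norm_nonneg _))
  exact LinearMap.mkContinuous_norm_le _ (Real.sqrt_nonneg H) _

/-- The pairing of square summable families. -/
theorem dp_sum {s : ℝ} (h1 : ∀ n, 1 ≤ lam n) {f g : ℤ → Z2 H} (hf : S2 lam s f)
    (hg : S2 lam (-s) g) :
    (Summable fun n => ‖⟪f n, g n⟫_ℂ‖) ∧ ‖dp f g‖ ≤ N2 lam s f * N2 lam (-s) g := by
  have l0 : ∀ n, 0 < lam n := fun n => by linarith [h1 n]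
  have p0 : ∀ n, 0 ≤ lam n ^ s * ‖f n‖ := fun n => mul_nonneg (Real.rpow_nonneg (l0 n).le _)
    (norm_nonneg _)
  have q0 : ∀ n, 0 ≤ lam n ^ (-s) * ‖g n‖ := fun n => mul_nonneg (Real.rpow_nonneg (l0 n).le _)
    (norm_nonneg _)
  obtain ⟨a1, a2⟩ := cs_tsum p0 q0 hf hg
  have e : ∀ n, lam n ^ s * ‖f n‖ * (lam n ^ (-s) * ‖g n‖) = ‖f n‖ * ‖g n‖ := fun n => by
    have : lam n ^ s * lam n ^ (-s) = 1 := by rw [← Real.rpow_add (l0 n)]; simp
    calc _ = (lam n ^ s * lam n ^ (-s)) * (‖f n‖ * ‖g n‖) := by ring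
      _ = _ := by rw [this, one_mul]
  simp only [e] at a1 a2
  have hs : Summable fun n => ‖⟪f n, g n⟫_ℂ‖ :=
    Summable.of_nonneg_of_le (fun _ => norm_nonneg _) (fun n => norm_inner_le_norm _ _) a1
  exact ⟨hs, (norm_tsum_le_tsum_norm hs).trans
    ((hs.tsum_le_tsum (fun n => norm_inner_le_norm _ _) a1).trans a2)⟩

/-- `∫ r̄ (p u)` as a trilinear form. -/
theorem dp_pz {α β γ : ℝ} (w : PrW lam α β γ) {r : ℤ → Z2 H} {u : ℤ → CI H} {p : ℤ → Z2 H}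
    (sp : S2 lam α p) (su : S2 lam β u) (sr : S2 lam γ r) : dp r (pz p u) = T3 r u p := by
  obtain ⟨h1, -⟩ := T3_sum w sp su sr
  obtain ⟨c1, -, -⟩ := cvm_bd zero_le_one mz_bd w.h1 w.ha w.hb w.hc w.hs sp su
  let e2 : ℤ × ℤ ≃ ℤ × ℤ :=
    { toFun := fun q => (q.2, q.1 - q.2)
      invFun := fun p => (p.1 + p.2, p.1)
      left_inv := fun p => by ext <;> simp
      right_inv := fun q => by ext <;> simp }
  set f : ℤ × ℤ → ℂ := fun x => ⟪r (x.1 + x.2), mz (u x.2) (p x.1)⟫_ℂ with hf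
  have hfs : Summable f := h1.of_norm
  have h2 : Summable (f ∘ e2) := e2.summable_iff.2 hfs
  have e3 : ∀ n j, (f ∘ e2) (n, j) = ⟪r n, mz (u (n - j)) (p j)⟫_ℂ := fun n j => by
    show ⟪r (j + (n - j)), mz (u (n - j)) (p j)⟫_ℂ = _
    rw [show j + (n - j) = n by ring]
  have e4 : T3 r u p = ∑' n, ∑' j, ⟪r n, mz (u (n - j)) (p j)⟫_ℂ := by
    unfold T3
    rw [← e2.tsum_eq f, show ∑' q, f (e2 q) = ∑' q, (f ∘ e2) q from rfl, h2.tsum_prod]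
    exact tsum_congr fun n => tsum_congr fun j => e3 n j
  rw [e4]
  unfold dp
  refine tsum_congr fun n => ?_
  show ⟪r n, ∑' j, mz (u (n - j)) (p j)⟫_ℂ = _
  have := (innerSL ℂ (r n)).map_tsum (c1 n).of_norm
  simpa using this

/-- Exchange of the inner factors. -/
theorem T3_swap (r : ℤ → Z2 H) (u v : ℤ → CI H) :
    T3 r u (fun n => iota (v n)) = T3 r v (fun n => iota (u n)) := by
  unfold T3
  rw [← (Equiv.prodComm ℤ ℤ).tsum_eq (fun x : ℤ × ℤ => ⟪r (x.1 + x.2), mz (v x.2) (iota (u x.1))⟫_ℂ)]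
  refine tsum_congr fun x => ?_
  show _ = ⟪r (x.2 + x.1), mz (v x.1) (iota (u x.2))⟫_ℂ
  rw [mz_iota, mz_iota, mul_comm, add_comm]

theorem norm_star_ci0 (u : CI H) : ‖star u‖ = ‖u‖ := by
  have key : ∀ v : CI H, ‖star v‖ ≤ ‖v‖ := fun v => ci_norm_le (norm_nonneg _) fun z _ => by
    rw [ex_star, norm_star]
    exact norm_ex_le v z
  refine le_antisymm (key u) ?_
  have := key (star u)
  rwa [star_star] at this

/-- The conjugate family `ū`. -/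
noncomputable def cj (u : ℤ → CI H) (n : ℤ) : CI H := star (u (-n))

theorem S2_cj {s : ℝ} (hl : ∀ n, lam (-n) = lam n) {u : ℤ → CI H} :
    (S2 lam s (cj u) ↔ S2 lam s u) ∧ N2 lam s (cj u) = N2 lam s u := by
  have e : (fun n => (lam n ^ s * ‖cj u n‖) ^ 2) =
      (fun n => (lam n ^ s * ‖u n‖) ^ 2) ∘ (Equiv.neg ℤ) := by
    funext n
    show (lam n ^ s * ‖star (u (-n))‖) ^ 2 = (lam (-n) ^ s * ‖u (-n)‖) ^ 2
    rw [show ‖star (u (-n))‖ = ‖u (-n)‖ from norm_star_ci0 _, hl]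
  constructor
  · unfold S2
    rw [e]
    exact (Equiv.neg ℤ).summable_iff
  · unfold N2
    rw [e]
    congr 1
    exact (Equiv.neg ℤ).tsum_eq (fun n => (lam n ^ s * ‖u n‖) ^ 2)

/-- Conjugation symmetry of the trilinear form. -/
theorem T3_conj (r : ℤ → Z2 H) (u : ℤ → CI H) (p : ℤ → Z2 H) :
    T3 p (cj u) r = star (T3 r u p) := by
  let e2 : ℤ × ℤ ≃ ℤ × ℤ :=
    { toFun := fun q => (q.1 + q.2, -q.2)
      invFun := fun q => (q.1 + q.2, -q.2)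
      left_inv := fun p => by ext <;> simp
      right_inv := fun q => by ext <;> simp }
  unfold T3
  rw [tsum_star]
  rw [← e2.tsum_eq]
  refine tsum_congr fun x => ?_
  show ⟪p (x.1 + x.2 + -x.2), mz (star (u (- -x.2))) (r (x.1 + x.2))⟫_ℂ = _
  rw [show x.1 + x.2 + -x.2 = x.1 by ring, neg_neg, ← inner_mz]
  exact (inner_conj_symm _ _).symm

end

end Pool.Agent.Lib.MP_79abb3_an.SC
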