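import Mathlib

/-!
Theorem C (MP_79abb3_an): definitions used in the final statement. The plane is `ℂ`, a velocity is a
function with values in `ℂ = ℝ²`.
-/

set_option autoImplicit false

open MeasureTheory Set Filter Topology Function
open scoped RealInnerProductSpace

namespace Pool.Agent.Lib.MP_79abb3_an.SC

section
variable {E : Type*} [NormedAddCommGroup E] [NormedSpace ℝ E]

/-- Test functions `φ ∈ C_c^∞((0,T) × Ω; E)`, `E = ℝ` or `E = ℂ = ℝ²`. -/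
structure IsTf (T : ℝ) (Ω : Set ℂ) (φ : ℝ × ℂ → E) : Prop where
  smooth : ContDiff ℝ ((⊤ : ℕ∞) : WithTop ℕ∞) φ
  cpt : HasCompactSupport φ
  supp : tsupport φ ⊆ Ioo 0 T ×ˢ Ω

/-- Derivative in the space direction `e`. -/
noncomputable def dS (φ : ℝ × ℂ → E) (e : ℂ) (p : ℝ × ℂ) : E := fderiv ℝ φ p (0, e)
/-- Derivative in time. -/
noncomputable def dT (φ : ℝ × ℂ → E) (p : ℝ × ℂ) : E := fderiv ℝ φ p (1, 0)
/-- Laplacian in space. -/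
noncomputable def lapS (φ : ℝ × ℂ → E) (p : ℝ × ℂ) : E :=
  dS (dS φ 1) 1 p + dS (dS φ Complex.I) Complex.I p

end

/-- Divergence of a field. -/
noncomputable def divS (φ : ℝ × ℂ → ℂ) (p : ℝ × ℂ) : ℝ := (dS φ 1 p).re + (dS φ Complex.I p).im

/-- `∇^⊥ Ψ = (∂_y Ψ, -∂_x Ψ)` for a stream function `Ψ` on the plane. -/
noncomputable def gradPerp (Ψ : ℂ → ℝ) (x : ℂ) : ℂ := ⟨fderiv ℝ Ψ x Complex.I, -fderiv ℝ Ψ x 1⟩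

/-- Weak (Leray type) trajectories on `[0,T]` of the Navier-Stokes system (viscosity one) in the open
set `Ω ⊂ ℝ²` with the condition `u = 0` on `∂Ω ∖ Γ` and the initial datum `u₀`:
`u(t) → u₀` in `L²(Ω)` as `t → 0+`, `u` is continuous on `(0,T] × closure Ω` and vanishes on
`∂Ω ∖ Γ` for `t > 0`, `u ∈ L^∞(0,T; L²(Ω))`, `∇u ∈ L²((0,T) × Ω)`, `div u = 0`, and
`∫ (u·∂_t φ + u·Δφ + ∑ u_i u_j ∂_j φ_i) = 0` for all divergence free `φ ∈ C_c^∞((0,T) × Ω)²`. -/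
structure IsLeray (Ω Γ : Set ℂ) (T : ℝ) (u₀ : ℂ → ℂ) (u : ℝ × ℂ → ℂ) : Prop where
  init : Tendsto (fun t => ∫ x in Ω, ‖u (t, x) - u₀ x‖ ^ 2) (𝓝[>] 0) (𝓝 0)
  initL2 : MemLp u₀ 2 (volume.restrict Ω)
  cont : ContinuousOn u (Ioc 0 T ×ˢ closure Ω)
  wall : ∀ t ∈ Ioc 0 T, ∀ x ∈ frontier Ω \ Γ, u (t, x) = 0
  bdd : ∃ C, ∀ t ∈ Ioc 0 T, ∫ x in Ω, ‖u (t, x)‖ ^ 2 ≤ C
  grad : ∃ C, ∀ φ : ℝ × ℂ → ℂ, IsTf T Ω φ → ∀ e : ℂ, ‖e‖ ≤ 1 →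
    |∫ p, ⟪u p, dS φ e p⟫| ≤ C * √(∫ p, ‖φ p‖ ^ 2)
  div : ∀ φ : ℝ × ℂ → ℝ, IsTf T Ω φ → ∫ p, ((u p).re * dS φ 1 p + (u p).im * dS φ Complex.I p) = 0
  ns : ∀ φ : ℝ × ℂ → ℂ, IsTf T Ω φ → (∀ p, divS φ p = 0) →
    ∫ p, (⟪u p, dT φ p⟫ + ⟪u p, lapS φ p⟫ + ⟪u p, dS φ (u p) p⟫) = 0

/-- `F` is a conformal map of the unit disc onto a bounded simply connected domain, smooth up to the
boundary (`F` is the restriction to the closed disc of a smooth map of the plane). -/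
structure IsConf (F : ℂ → ℂ) : Prop where
  smooth : ContDiff ℝ ((⊤ : ℕ∞) : WithTop ℕ∞) F
  holo : DifferentiableOn ℂ F (Metric.ball 0 1)
  inj : InjOn F (Metric.closedBall 0 1)
  der : ∀ ξ ∈ Metric.closedBall (0 : ℂ) 1, fderiv ℝ F ξ ≠ 0

/-- The flow region: `Ω ⊂ D = F(disc)` open, the uncontrolled boundary `∂Ω ∖ Γ` lies on `∂D` and is
not dense in `∂D`. -/
structure IsDom (F : ℂ → ℂ) (Ω Γ : Set ℂ) : Prop where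
  conf : IsConf F
  op : IsOpen Ω
  sub : Ω ⊆ F '' Metric.ball 0 1
  wall : frontier Ω \ Γ ⊆ F '' Metric.sphere 0 1
  free : ∃ ξ ∈ Metric.sphere (0 : ℂ) 1, F ξ ∉ closure (frontier Ω \ Γ)

/-- Admissible data: limits in `L²(ℝ²)` of `∇^⊥ Ψ`, `Ψ ∈ C_c^∞(ℝ²)`, `∇Ψ = 0` on the wall. -/
def IsAdm (Ω Γ : Set ℂ) (u₀ : ℂ → ℂ) : Prop :=
  MemLp u₀ 2 volume ∧ ∀ ε > 0, ∃ Ψ : ℂ → ℝ, ContDiff ℝ ((⊤ : ℕ∞) : WithTop ℕ∞) Ψ ∧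
    HasCompactSupport Ψ ∧ (∀ x ∈ frontier Ω \ Γ, fderiv ℝ Ψ x = 0) ∧
    ∫ x, ‖u₀ x - gradPerp Ψ x‖ ^ 2 ≤ ε

end Pool.Agent.Lib.MP_79abb3_an.SC
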