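import Pool.Agent.Lib.MP_79abb3_an.SC.ChDef
import Pool.Agent.Lib.MP_79abb3_an.SC.FinalDef

/-!
Theorem C (MP_79abb3_an), block (v): geometry of charts, pull back of test functions.
-/

set_option autoImplicit false
set_option linter.unusedSectionVars false

open MeasureTheory Set Filter Topology Function
open scoped RealInnerProductSpace ComplexConjugate

namespace Pool.Agent.Lib.MP_79abb3_an.SC

/-- `cxp` as a linear map. -/
noncomputable def cxpL : ℝ × ℝ →L[ℝ] ℂ := (Complex.equivRealProdCLM.symm : ℝ × ℝ →L[ℝ] ℂ)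

theorem cxpL_apply (q : ℝ × ℝ) : cxpL q = cxp q := by
  apply Complex.ext <;> simp [cxpL]

theorem cxp_cont : Continuous cxp := by
  have : cxp = cxpL := funext fun q => (cxpL_apply q).symm
  rw [this]
  exact cxpL.continuous

theorem cxp_contDiff {n : WithTop ℕ∞} : ContDiff ℝ n cxp := by
  have : cxp = cxpL := funext fun q => (cxpL_apply q).symm
  rw [this]
  exact cxpL.contDiff

theorem cxp_hasFDerivAt (q : ℝ × ℝ) : HasFDerivAt cxp cxpL q := by
  have : cxp = cxpL := funext fun q => (cxpL_apply q).symm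
  rw [this]
  exact cxpL.hasFDerivAt

theorem cxp_mk (ζ : ℂ) : cxp (ζ.re, ζ.im) = ζ := rfl

section
variable {F : ℂ → ℂ} {O Ω Γ : Set ℂ} {r : ℝ}

theorem dF_smooth (hF : ContDiff ℝ ((⊤ : ℕ∞) : WithTop ℕ∞) F) :
    ContDiff ℝ ((⊤ : ℕ∞) : WithTop ℕ∞) (dF F) :=
  (hF.fderiv_right (by simp)).clm_apply contDiff_const

namespace IsChart
variable (hC : IsChart F O Ω Γ r)
include hC

theorem diff : Differentiable ℝ F := hC.smooth.differentiable (by simp)

theorem closure_sub : closure O ⊆ {ζ | |ζ.re| ≤ r ∧ 0 ≤ ζ.im ∧ ζ.im ≤ r} := by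
  refine closure_minimal (fun ζ hζ => ⟨(hC.box ζ hζ).1, (hC.pos ζ hζ).le, (hC.box ζ hζ).2⟩) ?_
  exact (isClosed_le Complex.continuous_re.abs continuous_const).inter
    ((isClosed_le continuous_const Complex.continuous_im).inter
      (isClosed_le Complex.continuous_im continuous_const))

theorem compact : IsCompact (closure O) := by
  refine Metric.isCompact_of_isClosed_isBounded isClosed_closure ?_
  refine (Metric.isBounded_closedBall (x := (0:ℂ)) (r := r + r)).subset fun ζ hζ => ?_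
  obtain ⟨h1, h2, h3⟩ := hC.closure_sub hζ
  rw [mem_closedBall_zero_iff]
  refine (Complex.norm_le_abs_re_add_abs_im ζ).trans ?_
  rw [abs_of_nonneg h2]
  linarith

theorem fderiv_eq {ζ : ℂ} (hζ : ζ ∈ closure O) (η : ℂ) : fderiv ℝ F ζ η = dF F ζ * η := by
  have hI : fderiv ℝ F ζ Complex.I = dF F ζ * Complex.I := by
    have hcl : IsClosed {ζ | fderiv ℝ F ζ Complex.I = dF F ζ * Complex.I} := by
      have h1 : Continuous (fderiv ℝ F) := hC.smooth.continuous_fderiv (by simp)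
      have h2 : Continuous (dF F) := (dF_smooth hC.smooth).continuous
      exact isClosed_eq (h1.clm_apply continuous_const) (h2.mul continuous_const)
    refine closure_minimal (fun ζ hζ => ?_) hcl hζ
    have h1 : HasFDerivAt F ((ContinuousLinearMap.toSpanSingleton ℂ (deriv F ζ)).restrictScalars ℝ) ζ :=
      ((hC.holo.differentiableAt (hC.op.mem_nhds hζ)).hasDerivAt.hasFDerivAt).restrictScalars ℝ
    show fderiv ℝ F ζ Complex.I = fderiv ℝ F ζ 1 * Complex.I
    rw [h1.fderiv]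
    simp [mul_comm]
  have h2 : η = η.re • (1 : ℂ) + η.im • Complex.I := by
    apply Complex.ext <;> simp
  conv_lhs => rw [h2]
  rw [map_add, map_smul, map_smul, hI]
  show η.re • dF F ζ + η.im • (dF F ζ * Complex.I) = _
  conv_rhs => rw [h2]
  simp only [Complex.real_smul]
  ring

theorem hasFDerivAt {ζ : ℂ} (hζ : ζ ∈ closure O) :
    HasFDerivAt F (ContinuousLinearMap.mul ℝ ℂ (dF F ζ)) ζ := by
  have h1 := (hC.diff ζ).hasFDerivAt
  convert h1 using 1
  ext1 η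
  exact (hC.fderiv_eq hζ η).symm

theorem hasDerivAt {ζ : ℂ} (hζ : ζ ∈ O) : HasDerivAt F (dF F ζ) ζ := by
  have h1 := (hC.holo.differentiableAt (hC.op.mem_nhds hζ)).hasDerivAt
  have h2 : dF F ζ = deriv F ζ := by
    have h3 : HasFDerivAt F ((ContinuousLinearMap.toSpanSingleton ℂ (deriv F ζ)).restrictScalars ℝ) ζ :=
      h1.hasFDerivAt.restrictScalars ℝ
    rw [dF, h3.fderiv]
    simp
  rwa [h2]

theorem mem_iff {ζ : ℂ} (hζ : ζ ∈ closure O) : F ζ ∈ Ω ↔ ζ ∈ O := by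
  constructor
  · intro h
    rw [hC.img] at h
    obtain ⟨ξ, hξ, h1⟩ := h
    rwa [← hC.inj (subset_closure hξ) hζ h1]
  · intro h
    rw [hC.img]
    exact ⟨ζ, h, rfl⟩

theorem closure_img : closure Ω = F '' closure O := by
  apply subset_antisymm
  · refine closure_minimal ?_ (hC.compact.image hC.smooth.continuous).isClosed
    rw [hC.img]
    exact image_mono subset_closure
  · rw [hC.img]
    exact image_closure_subset_closure_image hC.smooth.continuous

theorem measurableSet : MeasurableSet Ω := by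
  rw [hC.img]
  exact hC.op.measurableSet.image_of_continuousOn_injOn hC.smooth.continuous.continuousOn
    (hC.inj.mono subset_closure)

/-- The inverse of `F` on `closure Ω`. -/
theorem exists_inv : ∃ g : ℂ → ℂ, ContinuousOn g (closure Ω) ∧ (∀ ζ ∈ closure O, g (F ζ) = ζ) ∧
    ∀ x ∈ closure Ω, g x ∈ closure O ∧ F (g x) = x := by
  classical
  set g := invFunOn F (closure O) with hg
  have h1 : ∀ ζ ∈ closure O, g (F ζ) = ζ := fun ζ hζ =>
    hC.inj.leftInvOn_invFunOn hζ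
  have h2 : ∀ x ∈ closure Ω, g x ∈ closure O ∧ F (g x) = x := by
    intro x hx
    rw [hC.closure_img] at hx
    exact ⟨invFunOn_mem hx, invFunOn_eq hx⟩
  refine ⟨g, ?_, h1, h2⟩
  rw [continuousOn_iff_isClosed]
  intro t ht
  refine ⟨F '' (closure O ∩ t), ((hC.compact.inter_right ht).image hC.smooth.continuous).isClosed, ?_⟩
  ext x
  constructor
  · rintro ⟨h3, h4⟩
    exact ⟨⟨g x, ⟨(h2 x h4).1, h3⟩, (h2 x h4).2⟩, h4⟩
  · rintro ⟨⟨ζ, ⟨h3, h4⟩, rfl⟩, h5⟩
    refine ⟨?_, h5⟩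
    show g (F ζ) ∈ t
    rwa [h1 ζ h3]

end IsChart

section
variable {E : Type*} [NormedAddCommGroup E] [NormedSpace ℝ E] {T : ℝ}

/-- The preimage of the support is a compact subset of `ℝ × O`. -/
theorem IsChart.pb_key (hC : IsChart F O Ω Γ r) {φ : ℝ × ℂ → E} (hφ : IsTf T Ω φ) :
    ∃ K : Set (ℝ × (ℝ × ℝ)), IsCompact K ∧ (∀ p ∈ K, p.1 ∈ Ioo 0 T ∧ cxp p.2 ∈ O) ∧
      ∀ p, p ∉ K → cxp p.2 ∈ O → (p.1, F (cxp p.2)) ∉ tsupport φ := by
  set K : Set (ℝ × (ℝ × ℝ)) := {p | cxp p.2 ∈ closure O ∧ (p.1, F (cxp p.2)) ∈ tsupport φ} with hK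
  have hKc : IsClosed K := by
    refine (isClosed_closure.preimage (cxp_cont.comp continuous_snd)).inter
      ((isClosed_tsupport φ).preimage ?_)
    exact continuous_fst.prodMk (hC.smooth.continuous.comp (cxp_cont.comp continuous_snd))
  refine ⟨K, ?_, ?_, ?_⟩
  · have h1 : IsCompact (Prod.fst '' tsupport φ) := hφ.cpt.isCompact.image continuous_fst
    have h2 : IsCompact ((fun ζ : ℂ => (ζ.re, ζ.im)) '' closure O) := hC.compact.image (by fun_prop)
    refine (h1.prod h2).of_isClosed_subset hKc ?_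
    rintro p ⟨h3, h4⟩
    exact ⟨⟨_, h4, rfl⟩, ⟨_, h3, rfl⟩⟩
  · rintro p ⟨h3, h4⟩
    have h5 := hφ.supp h4
    exact ⟨h5.1, (hC.mem_iff h3).1 h5.2⟩
  · intro p hp h1 h2
    exact hp ⟨subset_closure h1, h2⟩

theorem IsChart.pb_isTs (hC : IsChart F O Ω Γ r) {φ : ℝ × ℂ → E} (hφ : IsTf T Ω φ) :
    IsTs T (r + 2) (r + 1 / 2) (pb F O φ) := by
  obtain ⟨K, hK, hK1, hK2⟩ := hC.pb_key hφ
  have hout : ∀ p, p ∉ K → pb F O φ p = 0 := by
    intro p hp
    rw [pb]
    split_ifs with h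
    · exact image_eq_zero_of_notMem_tsupport (hK2 p hp h)
    · rfl
  have hts : tsupport (pb F O φ) ⊆ K :=
    closure_minimal (fun p hp => by_contra fun h => hp (hout p h)) hK.isClosed
  refine ⟨?_, hK.of_isClosed_subset (isClosed_tsupport _) hts, ?_⟩
  · rw [contDiff_iff_contDiffAt]
    intro p
    by_cases hp : p ∈ K
    · have ho : IsOpen {p : ℝ × (ℝ × ℝ) | cxp p.2 ∈ O} :=
        hC.op.preimage (cxp_cont.comp continuous_snd)
      have h1 : pb F O φ =ᶠ[𝓝 p] fun p => φ (p.1, F (cxp p.2)) := by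
        filter_upwards [ho.mem_nhds (hK1 p hp).2] with p' hp'
        rw [pb, if_pos hp']
      refine ContDiffAt.congr_of_eventuallyEq ?_ h1
      have h2 : ContDiff ℝ ((⊤ : ℕ∞) : WithTop ℕ∞) fun p : ℝ × (ℝ × ℝ) => (p.1, F (cxp p.2)) :=
        contDiff_fst.prodMk (hC.smooth.comp (cxp_contDiff.comp contDiff_snd))
      exact (hφ.smooth.comp h2).contDiffAt
    · have h1 : pb F O φ =ᶠ[𝓝 p] fun _ => 0 := by
        filter_upwards [hK.isClosed.isOpen_compl.mem_nhds hp] with p' hp'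
        exact hout p' hp'
      exact contDiffAt_const.congr_of_eventuallyEq h1
  · intro p hp
    obtain ⟨h1, h2⟩ := hK1 p (hts hp)
    obtain ⟨h3, h4⟩ := hC.box _ h2
    have h5 := hC.pos _ h2
    rw [cxp_re] at h3
    rw [cxp_im] at h4 h5
    rw [abs_le] at h3
    exact ⟨h1, ⟨by linarith [h3.1], by linarith [h3.2]⟩, ⟨h5, by linarith⟩⟩

/-- Chain rule for the pull back. -/
theorem IsChart.pb_fderiv (hC : IsChart F O Ω Γ r) {φ : ℝ × ℂ → E} (hφ : IsTf T Ω φ)
    (p e : ℝ × (ℝ × ℝ)) (hp : cxp p.2 ∈ O) :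
    fderiv ℝ (pb F O φ) p e = fderiv ℝ φ (p.1, F (cxp p.2)) (e.1, dF F (cxp p.2) * cxp e.2) := by
  have ho : IsOpen {p : ℝ × (ℝ × ℝ) | cxp p.2 ∈ O} := hC.op.preimage (cxp_cont.comp continuous_snd)
  have h1 : pb F O φ =ᶠ[𝓝 p] fun p => φ (p.1, F (cxp p.2)) := by
    filter_upwards [ho.mem_nhds hp] with p' hp'
    rw [pb, if_pos hp']
  rw [h1.fderiv_eq]
  have h2 : HasFDerivAt (fun p : ℝ × (ℝ × ℝ) => F (cxp p.2))
      ((ContinuousLinearMap.mul ℝ ℂ (dF F (cxp p.2))).comp (cxpL.comp (ContinuousLinearMap.snd ℝ ℝ (ℝ × ℝ)))) p :=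
    (hC.hasFDerivAt (subset_closure hp)).comp p ((cxp_hasFDerivAt p.2).comp p hasFDerivAt_snd)
  have h3 : HasFDerivAt (fun p : ℝ × (ℝ × ℝ) => (p.1, F (cxp p.2))) _ p := hasFDerivAt_fst.prodMk h2
  have h4 := ((hφ.smooth.differentiable (by simp) (p.1, F (cxp p.2))).hasFDerivAt.comp p h3).fderiv
  have h5 : (fun p : ℝ × (ℝ × ℝ) => φ (p.1, F (cxp p.2))) = φ ∘ fun p => (p.1, F (cxp p.2)) := rfl
  rw [h5, h4]
  simp [cxpL_apply]

/-- `pb` of a function vanishing off `O`. -/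
theorem pb_of_notMem {φ : ℝ × ℂ → E} {p : ℝ × (ℝ × ℝ)} (hp : cxp p.2 ∉ O) : pb F O φ p = 0 := by
  rw [pb, if_neg hp]

theorem pb_of_mem {φ : ℝ × ℂ → E} {p : ℝ × (ℝ × ℝ)} (hp : cxp p.2 ∈ O) :
    pb F O φ p = φ (p.1, F (cxp p.2)) := by
  rw [pb, if_pos hp]

theorem IsChart.pb_tsupport (hC : IsChart F O Ω Γ r) {φ : ℝ × ℂ → E} (hφ : IsTf T Ω φ) :
    tsupport (pb F O φ) ⊆ {p | cxp p.2 ∈ O} := by
  obtain ⟨K, hK, hK1, hK2⟩ := hC.pb_key hφ
  have h1 : support (pb F O φ) ⊆ K := by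
    intro p hp
    by_contra h
    apply hp
    rw [pb]
    split_ifs with h'
    · exact image_eq_zero_of_notMem_tsupport (hK2 p h h')
    · rfl
  exact (closure_minimal h1 hK.isClosed).trans fun p hp => (hK1 p hp).2

end

end

end Pool.Agent.Lib.MP_79abb3_an.SC
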