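import Pool.Agent.Lib.MP_79abb3_an.SC.L2P
import Pool.Agent.Lib.MP_79abb3_an.SC.PzG

/-!
Theorem C, stage for `L²` data: Parseval for the lift data of smooth stream functions, a subsequence.
-/

set_option autoImplicit false
set_option linter.unusedSectionVars false

open MeasureTheory Set Filter Topology Function
open scoped ENNReal InnerProductSpace

namespace Pool.Agent.Lib.MP_79abb3_an.SC

open Pool.Agent.Lib.MP_79abb3_an.P25

section
variable {H : ℝ} [hH : Fact (0 < H)] {a ψ χ F : ℝ × ℝ → ℝ}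

/-- The cell `[-H, H] × [0, H]`. -/
def Cel (H : ℝ) : Set (ℝ × ℝ) := Icc (-H) H ×ˢ Icc 0 H

theorem measurableSet_Cel : MeasurableSet (Cel H) := measurableSet_Icc.prod measurableSet_Icc

theorem isCompact_Cel : IsCompact (Cel H) := isCompact_Icc.prod isCompact_Icc

/-- Parseval for a smooth periodic function. -/
theorem Cel_parseval (hF : PY H F) :
    ∫ q in Cel H, F q ^ 2 = 2 * H * ∑' n : ℤ, ‖(iota (fam F n : CI H) : Z2 H)‖ ^ 2 := by
  rw [← parseval (pz_fam_sum0 hF) (fam_neg_n hF.smooth.continuous)]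
  refine setIntegral_congr_fun measurableSet_Cel fun q hq => ?_
  show F q ^ 2 = fld (Real.pi / H) (fam F : ℤ → CI H) q.1 q.2 ^ 2
  rw [fld_fam hF hq.1 hq.2]

namespace Geo
variable {G : Geo H}

/-- **The difference of two smooth flows.** Proof: `TT_lapN`: both sides are `bsH`, `bsF F n = fam (pZ F) n + ka n • fam F n`,
linear in `F`; `‖bsH (ψ - χ)‖ ≤ ‖fH (pZ (ψ - χ))‖ + ‖fH (pY (ψ - χ))‖` (`fam_dy`: `fam (pY F) n = kI n • fam F n`,
`‖ka n‖ = ‖kI n‖`), and by Parseval (`parseval`, `fld_fam`) `2 H ‖fH F‖² = ∫_cell F²`. -/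
theorem TT_ld_sub (G : Geo H) (ha : PY H a) (hGa : G.a = fam a) (hψ : PY H ψ) (hψt : VanT H ψ) (hχ : PY H χ)
    (hχt : VanT H χ) :
    ‖TT G.ω (G.ld ha hGa hψ hψt).g - TT G.ω (G.ld ha hGa hχ hχt).g‖ ^ 2 ≤
      H⁻¹ * ∫ q in Cel H, ((pZ ψ q - pZ χ q) ^ 2 + (pY ψ q - pY χ q) ^ 2) := by
  have hH0 := hH.out
  have hω := G.hω
  have hZ := hψ.pZ.sub hχ.pZ
  have hY := hψ.pY.sub hχ.pY
  have e1 : TT G.ω (G.ld ha hGa hψ hψt).g = bsH hψ := by
    rw [hω]; exact TT_lapN hψ hψt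
  have e2 : TT G.ω (G.ld ha hGa hχ hχt).g = bsH hχ := by
    rw [hω]; exact TT_lapN hχ hχt
  rw [e1, e2, l2_norm_sq]
  have sZ := iota_sq_sum (pz_fam_sum0 hZ)
  have sY := iota_sq_sum (pz_fam_sum0 hY)
  have e3 : ∫ q in Cel H, ((pZ ψ q - pZ χ q) ^ 2 + (pY ψ q - pY χ q) ^ 2) =
      2 * H * ∑' n : ℤ, (‖(iota (fam (fun p => pZ ψ p - pZ χ p) n : CI H) : Z2 H)‖ ^ 2 +
        ‖(iota (fam (fun p => pY ψ p - pY χ p) n : CI H) : Z2 H)‖ ^ 2) := by
    rw [sZ.tsum_add sY, mul_add, ← Cel_parseval hZ, ← Cel_parseval hY]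
    refine integral_add ?_ ?_
    · exact (hZ.smooth.continuous.pow 2).continuousOn.integrableOn_compact isCompact_Cel
    · exact (hY.smooth.continuous.pow 2).continuousOn.integrableOn_compact isCompact_Cel
  rw [e3, ← mul_assoc, show H⁻¹ * (2 * H) = 2 by field_simp, ← tsum_mul_left]
  have hb : ∀ n : ℤ, ‖(bsH hψ - bsH hχ) n‖ ^ 2 ≤
      2 * (‖(iota (fam (fun p => pZ ψ p - pZ χ p) n : CI H) : Z2 H)‖ ^ 2 +
        ‖(iota (fam (fun p => pY ψ p - pY χ p) n : CI H) : Z2 H)‖ ^ 2) := fun n => by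
    have h1 : (bsH hψ - bsH hχ) n = ka (Real.pi / H) n • (iota (fam ψ n - fam χ n : CI H) : Z2 H) +
        iota (fam (fun p => pZ ψ p - pZ χ p) n : CI H) := by
      rw [lp.coeFn_sub, Pi.sub_apply, bsH_apply, bsH_apply, ← map_sub, ← map_smul, ← map_add,
        fam_sub hψ.pZ.smooth.continuous hχ.pZ.smooth.continuous]
      congr 1
      unfold bsF
      rw [smul_sub]
      abel
    have h2 : (fam (fun p => pY ψ p - pY χ p) n : CI H) = kI (Real.pi / H) n • (fam ψ n - fam χ n) := by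
      rw [fam_sub hψ.pY.smooth.continuous hχ.pY.smooth.continuous, fam_dy hψ, fam_dy hχ, smul_sub]
    have h3 : ‖ka (Real.pi / H) n • (iota (fam ψ n - fam χ n : CI H) : Z2 H)‖ =
        ‖(iota (fam (fun p => pY ψ p - pY χ p) n : CI H) : Z2 H)‖ := by
      rw [h2, map_smul, norm_smul, norm_smul, norm_ka, norm_kI]
    rw [h1]
    have h4 := norm_add_le (ka (Real.pi / H) n • (iota (fam ψ n - fam χ n : CI H) : Z2 H))
      (iota (fam (fun p => pZ ψ p - pZ χ p) n : CI H))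
    rw [h3] at h4
    have h5 := norm_nonneg (ka (Real.pi / H) n • (iota (fam ψ n - fam χ n : CI H) : Z2 H) +
      iota (fam (fun p => pZ ψ p - pZ χ p) n : CI H))
    nlinarith [sq_nonneg (‖(iota (fam (fun p => pY ψ p - pY χ p) n : CI H) : Z2 H)‖ -
      ‖(iota (fam (fun p => pZ ψ p - pZ χ p) n : CI H) : Z2 H)‖)]
  have hs := (sZ.add sY).mul_left 2
  exact (Summable.of_nonneg_of_le (fun n => by positivity) hb hs).tsum_le_tsum hb hs

/-- **A subsequence.** Proof: `(x - y)² ≤ 2 (x - v)² + 2 (y - v)²`, choose `φ` with `∫ ≤ 16^{-k}`. -/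
theorem exists_subseq (G : Geo H) (ha : PY H a) (hGa : G.a = fam a) {ψ : ℕ → ℝ × ℝ → ℝ} (hψ : ∀ j, PY H (ψ j))
    (ht : ∀ j, VanT H (ψ j)) {v₀ w₀ : ℝ × ℝ → ℝ} (m₀ : MemLp v₀ 2 (volume.restrict (Cel H)))
    (m₁ : MemLp w₀ 2 (volume.restrict (Cel H)))
    (hl : Tendsto (fun j => ∫ q in Cel H, ((pZ (ψ j) q - v₀ q) ^ 2 + (-pY (ψ j) q - w₀ q) ^ 2)) atTop (𝓝 0)) :
    ∃ φ : ℕ → ℕ, StrictMono φ ∧ Summable fun k =>
      ‖TT G.ω (G.ld ha hGa (hψ (φ k)) (ht (φ k))).g -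
        TT G.ω (G.ld ha hGa (hψ (φ (k + 1))) (ht (φ (k + 1)))).g‖ := by
  have hH0 := hH.out
  obtain ⟨φ, hφ, h1⟩ : ∃ φ : ℕ → ℕ, StrictMono φ ∧ ∀ k,
      ∫ q in Cel H, ((pZ (ψ (φ k)) q - v₀ q) ^ 2 + (-pY (ψ (φ k)) q - w₀ q) ^ 2) < (1 / 4) ^ k := by
    have h2 : ∀ k : ℕ, ∀ᶠ j in atTop,
        ∫ q in Cel H, ((pZ (ψ j) q - v₀ q) ^ 2 + (-pY (ψ j) q - w₀ q) ^ 2) < (1 / 4) ^ k := fun k =>
      hl.eventually_lt_const (by positivity)
    exact extraction_forall_of_eventually h2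
  refine ⟨φ, hφ, ?_⟩
  have hm : ∀ {F : ℝ × ℝ → ℝ}, PY H F → MemLp F 2 (volume.restrict (Cel H)) := fun hF => by
    have : IsFiniteMeasure ((volume : Measure (ℝ × ℝ)).restrict (Cel H)) :=
      ⟨by rw [Measure.restrict_apply_univ]; exact isCompact_Cel.measure_lt_top⟩
    obtain ⟨C, hC⟩ := (isCompact_Cel (H := H)).exists_bound_of_continuousOn
      hF.smooth.continuous.continuousOn
    exact MemLp.of_bound hF.smooth.continuous.aestronglyMeasurable C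
      (by filter_upwards [ae_restrict_mem measurableSet_Cel] with q hq using hC q hq)
  have hi : ∀ j, Integrable (fun q => (pZ (ψ j) q - v₀ q) ^ 2 + (-pY (ψ j) q - w₀ q) ^ 2)
      (volume.restrict (Cel H)) := fun j =>
    ((hm (hψ j).pZ).sub m₀).integrable_sq.add (((hm (hψ j).pY).neg.sub m₁).integrable_sq)
  have h3 : ∀ k, ‖TT G.ω (G.ld ha hGa (hψ (φ k)) (ht (φ k))).g -
      TT G.ω (G.ld ha hGa (hψ (φ (k + 1))) (ht (φ (k + 1)))).g‖ ^ 2 ≤ 4 * H⁻¹ * (1 / 4) ^ k := fun k => by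
    refine (G.TT_ld_sub ha hGa (hψ (φ k)) (ht (φ k)) (hψ (φ (k + 1))) (ht (φ (k + 1)))).trans ?_
    have h4 : ∫ q in Cel H, ((pZ (ψ (φ k)) q - pZ (ψ (φ (k + 1))) q) ^ 2 +
        (pY (ψ (φ k)) q - pY (ψ (φ (k + 1))) q) ^ 2) ≤ ∫ q in Cel H,
        (2 * ((pZ (ψ (φ k)) q - v₀ q) ^ 2 + (-pY (ψ (φ k)) q - w₀ q) ^ 2) +
          2 * ((pZ (ψ (φ (k + 1))) q - v₀ q) ^ 2 + (-pY (ψ (φ (k + 1))) q - w₀ q) ^ 2)) := by
      refine integral_mono ?_ (((hi _).const_mul 2).add ((hi _).const_mul 2)) fun q => ?_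
      · exact ((hm (hψ _).pZ).sub (hm (hψ _).pZ)).integrable_sq.add
          ((hm (hψ _).pY).sub (hm (hψ _).pY)).integrable_sq
      · show (pZ (ψ (φ k)) q - pZ (ψ (φ (k + 1))) q) ^ 2 + (pY (ψ (φ k)) q - pY (ψ (φ (k + 1))) q) ^ 2 ≤
          2 * ((pZ (ψ (φ k)) q - v₀ q) ^ 2 + (-pY (ψ (φ k)) q - w₀ q) ^ 2) +
          2 * ((pZ (ψ (φ (k + 1))) q - v₀ q) ^ 2 + (-pY (ψ (φ (k + 1))) q - w₀ q) ^ 2)
        nlinarith [sq_nonneg ((pZ (ψ (φ k)) q - v₀ q) + (pZ (ψ (φ (k + 1))) q - v₀ q)),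
          sq_nonneg ((-pY (ψ (φ k)) q - w₀ q) + (-pY (ψ (φ (k + 1))) q - w₀ q))]
    rw [integral_add ((hi _).const_mul 2) ((hi _).const_mul 2), integral_const_mul,
      integral_const_mul] at h4
    have h5 := h1 k
    have h6 := h1 (k + 1)
    have h7 : ((1:ℝ) / 4) ^ (k + 1) ≤ (1 / 4) ^ k := by
      rw [pow_succ]
      have : (0:ℝ) ≤ (1 / 4) ^ k := by positivity
      linarith
    have h8 : 0 ≤ H⁻¹ := by positivity
    calc H⁻¹ * _ ≤ H⁻¹ * (4 * (1 / 4) ^ k) := mul_le_mul_of_nonneg_left (by linarith) h8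
      _ = 4 * H⁻¹ * (1 / 4) ^ k := by ring
  have h9 : ∀ k, ‖TT G.ω (G.ld ha hGa (hψ (φ k)) (ht (φ k))).g -
      TT G.ω (G.ld ha hGa (hψ (φ (k + 1))) (ht (φ (k + 1)))).g‖ ≤ √(4 * H⁻¹) * (1 / 2) ^ k := fun k => by
    refine (abs_le_of_sq_le_sq' ?_ (by positivity)).2
    rw [mul_pow, Real.sq_sqrt (by positivity)]
    refine (h3 k).trans (le_of_eq ?_)
    congr 1
    rw [← pow_mul, mul_comm k 2, pow_mul]
    norm_num
  exact Summable.of_nonneg_of_le (fun k => norm_nonneg _) h9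
    ((summable_geometric_of_lt_one (by norm_num) (by norm_num)).mul_left _)

end Geo

end

end Pool.Agent.Lib.MP_79abb3_an.SC
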