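import Pool.Agent.Lib.MP_79abb3_an.SC.LaA
import Pool.Agent.Lib.MP_79abb3_an.P25.OpA

/-!
MP_79abb3_an, Theorem C, base file B: primitives, weak derivatives, the operators `T_k`, `E_k` on `L²(0,H)`.
-/

set_option autoImplicit false
set_option linter.unusedSectionVars false

open MeasureTheory Set Filter Topology Function
open scoped ENNReal InnerProductSpace

namespace Pool.Agent.Lib.MP_79abb3_an.SC

open Pool.Agent.Lib.MP_79abb3_an.P25

section
variable {H : ℝ} [hH : Fact (0 < H)]

theorem norm_one_iota_le : ‖(iota (1 : CI H) : Z2 H)‖ ≤ √H := by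
  have h0 := hH.out
  refine (sq_le_sq₀ (norm_nonneg _) (by positivity)).1 ?_
  rw [norm_sq_iota, Real.sq_sqrt h0.le]
  have : ∫ z in (0:ℝ)..H, ‖ex (1 : CI H) z‖ ^ 2 = H := by
    have h1 : ∀ z : ℝ, ‖ex (1 : CI H) z‖ ^ 2 = 1 := by
      intro z
      show ‖(1:ℂ)‖ ^ 2 = 1
      norm_num
    simp only [h1]
    simp
  rw [this]

/-- The primitive from `0` as an operator. -/
noncomputable def Pz : Z2 H →L[ℂ] CI H :=
  LinearMap.mkContinuous
    { toFun := PzF
      map_add' := fun f g => ci_ext fun z hz => by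
        rw [ex_add, PzF_apply _ hz, PzF_apply _ hz, PzF_apply _ hz,
          ← intervalIntegral.integral_add (ii_Z2 f zero_memI hz) (ii_Z2 g zero_memI hz)]
        exact ii_congr (Lp.coeFn_add f g) zero_memI hz
      map_smul' := fun c f => ci_ext fun z hz => by
        rw [RingHom.id_apply, ex_smul, PzF_apply _ hz, PzF_apply _ hz,
          ← intervalIntegral.integral_const_mul]
        exact ii_congr (Lp.coeFn_smul c f) zero_memI hz } (√H) (fun f => by
      have h0 := hH.out
      refine ci_norm_le (by positivity) fun z hz => ?_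
      show ‖ex (PzF f) z‖ ≤ _
      rw [PzF_apply f hz]
      have h1 : ∫ x in (0:ℝ)..z, f x = ∫ x in (0:ℝ)..z, (iota (1 : CI H) : Z2 H) x * f x := by
        refine ii_congr ?_ zero_memI hz
        filter_upwards [coe_iota (1 : CI H)] with x hx
        rw [hx]
        show f x = 1 * f x
        rw [one_mul]
      rw [h1]
      exact (cs_Z2 _ _ zero_memI hz).trans
        (mul_le_mul_of_nonneg_right norm_one_iota_le (norm_nonneg _)))

theorem Pz_apply (f : Z2 H) {z : ℝ} (hz : z ∈ Icc (0:ℝ) H) : ex (Pz f) z = ∫ x in (0:ℝ)..z, f x :=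
  PzF_apply f hz

theorem norm_Pz_mz_le (b : CI H) (f : Z2 H) {a z : ℝ} (ha : a ∈ Icc (0:ℝ) H) (hz : z ∈ Icc (0:ℝ) H) :
    ‖ex (Pz (mz b f)) z - ex (Pz (mz b f)) a‖ ≤ ‖(iota b : Z2 H)‖ * ‖f‖ := by
  have h1 : ex (Pz (mz b f)) z - ex (Pz (mz b f)) a = ∫ x in a..z, (iota b : Z2 H) x * f x := by
    rw [Pz_apply _ hz, Pz_apply _ ha, intervalIntegral.integral_interval_sub_left
      (ii_Z2 _ zero_memI hz) (ii_Z2 _ zero_memI ha)]
    refine ii_congr ?_ ha hz
    filter_upwards [coe_mz b f, coe_iota b] with x h1 h2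
    rw [h1, h2]
  rw [h1]
  exact cs_Z2 _ _ ha hz

theorem Pz_zero (f : Z2 H) : ex (Pz f) 0 = 0 := by
  rw [Pz_apply f zero_memI, intervalIntegral.integral_same]

/-- Primitives of continuous functions. -/
theorem Pz_iota_isD (g : CI H) : IsD (Pz (iota g)) g := by
  intro z hz
  have h1 : ∀ y ∈ Icc (0:ℝ) H, ex (Pz (iota g)) y = ∫ x in (0:ℝ)..y, ex g x := by
    intro y hy
    rw [Pz_apply _ hy]
    exact ii_congr (coe_iota g) zero_memI hy
  have h2 : HasDerivAt (fun y : ℝ => ∫ x in (0:ℝ)..y, ex g x) (ex g z) z :=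
    intervalIntegral.integral_hasDerivAt_right ((continuous_ex g).intervalIntegrable _ _)
      ((continuous_ex g).stronglyMeasurableAtFilter _ _) (continuous_ex g).continuousAt
  exact h2.hasDerivWithinAt.congr h1 (h1 z hz)

/-- `F(b) - F(0) = ∫₀^b F'` for `C¹` functions. -/
theorem isD_Pz {F f : CI H} (h : IsD F f) : F = ContinuousMap.const _ (ex F 0) + Pz (iota f) := by
  have h1 : IsD (F - Pz (iota f)) 0 := by
    have h2 := IsD.sub h (Pz_iota_isD f)
    rwa [sub_self] at h2
  have h3 : ∀ z ∈ Icc (0:ℝ) H, ex (F - Pz (iota f)) z = ex (F - Pz (iota f)) 0 := by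
    have hc : ContinuousOn (ex (F - Pz (iota f))) (Icc 0 H) := (continuous_ex _).continuousOn
    apply constant_of_has_deriv_right_zero hc
    intro x hx
    have h4 := h1 x ⟨hx.1, hx.2.le⟩
    rw [ex_zero] at h4
    exact h4.mono_of_mem_nhdsWithin (Icc_mem_nhdsGE_of_mem hx)
  apply ci_ext
  intro z hz
  have h5 := h3 z hz
  rw [ex_sub, ex_sub, Pz_zero, sub_zero] at h5
  rw [ex_add]
  show ex F z = ex F 0 + _
  rw [← h5]
  ring

/-- `F` is continuous with weak derivative `f ∈ L²`. -/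
def DZ (F : CI H) (f : Z2 H) : Prop := ∀ z ∈ Icc (0:ℝ) H, ex F z = ex F 0 + ex (Pz f) z

theorem DZ.eq {F : CI H} {f : Z2 H} (h : DZ F f) : F = ContinuousMap.const _ (ex F 0) + Pz f :=
  ci_ext fun z hz => h z hz

theorem DZ_Pz (f : Z2 H) : DZ (Pz f) f := fun z _ => by rw [Pz_zero, zero_add]

theorem IsD.dz {F f : CI H} (h : IsD F f) : DZ F (iota f) := fun z _ => by
  conv_lhs => rw [isD_Pz h]
  rfl

theorem DZ.add {F G : CI H} {f g : Z2 H} (h : DZ F f) (h' : DZ G g) : DZ (F + G) (f + g) := by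
  intro z hz
  rw [map_add, ex_add, ex_add, ex_add, h z hz, h' z hz]
  ring

theorem DZ.sub {F G : CI H} {f g : Z2 H} (h : DZ F f) (h' : DZ G g) : DZ (F - G) (f - g) := by
  intro z hz
  rw [map_sub, ex_sub, ex_sub, ex_sub, h z hz, h' z hz]
  ring

theorem DZ.smul {F : CI H} {f : Z2 H} (c : ℂ) (h : DZ F f) : DZ (c • F) (c • f) := by
  intro z hz
  rw [map_smul, ex_smul, ex_smul, ex_smul, h z hz]
  ring

theorem DZ.zero : DZ (0 : CI H) 0 := by
  intro z _
  rw [map_zero, ex_zero, ex_zero, add_zero]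

theorem DZ.const (c : ℂ) : DZ (ContinuousMap.const _ c : CI H) 0 := by
  intro z _
  rw [map_zero, ex_zero, add_zero]
  rfl

theorem Pz_cz (f : Z2 H) : Pz (cz f) = star (Pz f) := by
  apply ci_ext
  intro z hz
  rw [Pz_apply _ hz, ex_star, Pz_apply _ hz]
  have h1 : ∫ x in (0:ℝ)..z, (cz f) x = ∫ x in (0:ℝ)..z, (starRingEnd ℂ) (f x) :=
    ii_congr (coe_cz f) zero_memI hz
  rw [h1, intervalIntegral.intervalIntegral_eq_integral_uIoc,
    intervalIntegral.intervalIntegral_eq_integral_uIoc, integral_conj, star_smul]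
  simp

theorem DZ.star {F : CI H} {f : Z2 H} (h : DZ F f) : DZ (Star.star F) (cz f) := by
  intro z hz
  rw [ex_star, ex_star, Pz_cz, ex_star, h z hz, star_add]

/-- Product rule. -/
theorem Pz_mul (f g : Z2 H) : Pz (mz (Pz g) f) + Pz (mz (Pz f) g) = Pz f * Pz g := by
  have h1 : ∀ a b : CI H, Pz (mz (Pz (iota b)) (iota a)) + Pz (mz (Pz (iota a)) (iota b)) =
      Pz (iota a) * Pz (iota b) := by
    intro a b
    have h2 : IsD (Pz (iota a) * Pz (iota b)) (a * Pz (iota b) + Pz (iota a) * b) := by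
      intro z hz
      exact (Pz_iota_isD a z hz).mul (Pz_iota_isD b z hz)
    have h3 := isD_Pz h2
    have h4 : ex (Pz (iota a) * Pz (iota b)) 0 = 0 := by rw [ex_mul, Pz_zero, zero_mul]
    rw [h4] at h3
    rw [mz_iota, mz_iota, ← map_add, ← map_add, h3]
    apply ci_ext
    intro z hz
    rw [ex_add]
    show _ = 0 + _
    rw [zero_add, mul_comm (Pz (iota b)) a]
  have h5 : ∀ (f : Z2 H) (b : CI H), Pz (mz (Pz (iota b)) f) + Pz (mz (Pz f) (iota b)) =
      Pz f * Pz (iota b) := by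
    intro f b
    refine iota_dense.induction_on (p := fun f => Pz (mz (Pz (iota b)) f) +
      Pz (mz (Pz f) (iota b)) = Pz f * Pz (iota b)) f ?_ (fun a => h1 a b)
    apply isClosed_eq
    · have e1 : Continuous fun f : Z2 H => mz (Pz f : CI H) (iota b : Z2 H) :=
        (mz.flip (iota b : Z2 H)).continuous.comp Pz.continuous
      exact ((Pz.comp (mz (Pz (iota b)))).continuous).add (Pz.continuous.comp e1)
    · exact Pz.continuous.mul continuous_const
  refine iota_dense.induction_on (p := fun g => Pz (mz (Pz g) f) +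
      Pz (mz (Pz f) g) = Pz f * Pz g) g ?_ (fun b => h5 f b)
  apply isClosed_eq
  · have e1 : Continuous fun g : Z2 H => mz (Pz g : CI H) f :=
      (mz.flip f).continuous.comp Pz.continuous
    exact (Pz.continuous.comp e1).add ((Pz.comp (mz (Pz f))).continuous)
  · exact continuous_const.mul Pz.continuous

theorem mz_const (c : ℂ) (f : Z2 H) : mz (ContinuousMap.const _ c) f = c • f := by
  have h1 : (ContinuousMap.const _ c : CI H) = c • (1 : CI H) := by
    ext z
    simp
  rw [h1, map_smul, smul_apply, mz_one]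

theorem DZ.mul {F G : CI H} {f g : Z2 H} (h : DZ F f) (h' : DZ G g) :
    DZ (F * G) (mz G f + mz F g) := by
  have hF := h.eq
  have hG := h'.eq
  set c := ex F 0
  set d := ex G 0
  have key : F * G = ContinuousMap.const _ (c * d) + Pz (mz G f + mz F g) := by
    rw [hF, hG]
    simp only [map_add, add_apply, mz_const, map_smul]
    have h1 := Pz_mul f g
    have e1 : (ContinuousMap.const _ c + Pz f) * (ContinuousMap.const _ d + Pz g) =
        ContinuousMap.const _ (c * d) + c • Pz g + d • Pz f + Pz f * Pz g := by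
      apply ci_ext
      intro z hz
      simp only [ex_mul, ex_add, ex_smul]
      show (c + _) * (d + _) = c * d + _ + _ + _
      ring
    rw [e1, ← h1]
    abel
  intro z hz
  rw [ex_mul F G 0]
  conv_lhs => rw [key]
  rfl

/-- Integration by parts. -/
theorem DZ.ibp {F G : CI H} {f g : Z2 H} (h : DZ F f) (h' : DZ G g) :
    ⟪(iota F : Z2 H), g⟫_ℂ + ⟪f, (iota G : Z2 H)⟫_ℂ =
      Star.star (ex F H) * ex G H - Star.star (ex F 0) * ex G 0 := by
  have h1 := (h.star.mul h') H H_memI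
  rw [map_add, ex_add, Pz_apply _ H_memI, Pz_apply _ H_memI, ex_mul, ex_mul, ex_star, ex_star] at h1
  rw [h1, inner_Z2, inner_Z2]
  have e1 : ∫ z in (0:ℝ)..H, Star.star ((iota F : Z2 H) z) * g z =
      ∫ x in (0:ℝ)..H, (mz (Star.star F) g : Z2 H) x := by
    refine ii_congr ?_ zero_memI H_memI
    filter_upwards [coe_iota F, coe_mz (Star.star F) g] with z h1 h2
    rw [h1, h2, ex_star]
  have e2 : ∫ z in (0:ℝ)..H, Star.star (f z) * (iota G : Z2 H) z =
      ∫ x in (0:ℝ)..H, (mz G (cz f) : Z2 H) x := by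
    refine ii_congr ?_ zero_memI H_memI
    filter_upwards [coe_iota G, coe_mz G (cz f), coe_cz f] with z h1 h2 h3
    rw [h1, h2, h3, mul_comm]
  rw [e1, e2]
  ring

end

end Pool.Agent.Lib.MP_79abb3_an.SC
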