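import Pool.Agent.Lib.MP_79abb3_an.SC.ApT
import Pool.Agent.Lib.MP_79abb3_an.SC.LaB

/-!
MP_79abb3_an, simply connected domains, block (iii): static identities (antisymmetry of the transport
term, divergence form of the symmetrised vortex force).
-/

set_option autoImplicit false
set_option linter.unusedSectionVars false

open MeasureTheory Set Filter Topology Function
open scoped ENNReal InnerProductSpace

namespace Pool.Agent.Lib.MP_79abb3_an.SC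

open Pool.Agent.Lib.MP_79abb3_an.P25

/-- `i k_n`, `k_n = ω n` -/
noncomputable def kI (ω : ℝ) (n : ℤ) : ℂ := Complex.I * ((ω * n : ℝ) : ℂ)

theorem kI_add (ω : ℝ) (m n : ℤ) : kI ω (m + n) = kI ω m + kI ω n := by
  unfold kI; push_cast; ring

theorem star_kI (ω : ℝ) (n : ℤ) : star (kI ω n) = -kI ω n := by
  unfold kI
  rw [star_mul']
  simp

theorem conj_kI (ω : ℝ) (n : ℤ) : (starRingEnd ℂ) (kI ω n) = -kI ω n := star_kI ω n

theorem norm_kI (ω : ℝ) (n : ℤ) : ‖kI ω n‖ = |ω * n| := by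
  unfold kI
  rw [norm_mul, Complex.norm_I, one_mul, Complex.norm_real, Real.norm_eq_abs]

section
variable {H : ℝ} [hH : Fact (0 < H)] {lam : ℤ → ℝ}

/-- The derivative in `y`. -/
noncomputable def dy {E : Type*} [SMul ℂ E] (ω : ℝ) (f : ℤ → E) (n : ℤ) : E := kI ω n • f n

/-- `ι` of a family. -/
noncomputable def io (f : ℤ → CI H) (n : ℤ) : Z2 H := iota (f n)

theorem io_apply (f : ℤ → CI H) (n : ℤ) : io f n = iota (f n) := rfl
theorem dy_apply {E : Type*} [SMul ℂ E] (ω : ℝ) (f : ℤ → E) (n : ℤ) : dy ω f n = kI ω n • f n := rfl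

/-- One triple of modes of the antisymmetry identity. -/
theorem anti_mode {ω : ℝ} {i l : ℤ} {v w q h : CI H} {q1 h1 : Z2 H}
    (dw : DZ w (-(kI ω l) • (iota v : Z2 H))) (dq : DZ q q1) (dh : DZ h h1) (q0 : ex q 0 = 0)
    (qH : ex q H = 0) :
    ⟪kI ω (i + l) • (iota h : Z2 H), mz v (iota q)⟫_ℂ + ⟪h1, mz w (iota q)⟫_ℂ +
      ⟪(iota h : Z2 H), mz v (kI ω i • (iota q : Z2 H))⟫_ℂ + ⟪(iota h : Z2 H), mz w q1⟫_ℂ = 0 := by
  have h2 := DZ.ibp dh (dw.mul dq)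
  rw [ex_mul, ex_mul, q0, qH, mul_zero, mul_zero, mul_zero, mul_zero, sub_zero] at h2
  rw [map_smul, inner_add_right, inner_smul_right] at h2
  rw [inner_smul_left, conj_kI, map_smul, inner_smul_right, kI_add, mz_iota, mz_iota]
  rw [mz_iota, mul_comm q v] at h2
  linear_combination h2

/-- **Antisymmetry of the transport term.** -/
theorem T3_anti {ω : ℝ} (pw : PrW lam 0 (1 / 2) (1 / 4)) (pw' : PrW lam (1 / 4) (1 / 2) 0)
    {v w q h : ℤ → CI H} {q1 h1 : ℤ → Z2 H}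
    (dw : ∀ n, DZ (w n) (-(kI ω n) • (iota (v n) : Z2 H))) (dq : ∀ n, DZ (q n) (q1 n))
    (dh : ∀ n, DZ (h n) (h1 n)) (q0 : ∀ n, ex (q n) 0 = 0) (qH : ∀ n, ex (q n) H = 0)
    (sv : S2 lam (1 / 2) v) (sw : S2 lam (1 / 2) w) (sq : S2 lam (1 / 4) (io q))
    (sq1 : S2 lam 0 q1) (sqy : S2 lam 0 (dy ω (io q))) (sh : S2 lam (1 / 4) (io h))
    (sh1 : S2 lam 0 h1) (shy : S2 lam 0 (dy ω (io h))) :
    T3 (dy ω (io h)) v (io q) + T3 h1 w (io q) =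
      -(T3 (io h) v (dy ω (io q)) + T3 (io h) w q1) := by
  have a1 := (T3_sum pw' sq sv shy).1.of_norm
  have a2 := (T3_sum pw' sq sw sh1).1.of_norm
  have a3 := (T3_sum pw sqy sv sh).1.of_norm
  have a4 := (T3_sum pw sq1 sw sh).1.of_norm
  have key : (T3 (dy ω (io h)) v (io q) + T3 h1 w (io q)) +
      T3 (io h) v (dy ω (io q)) + T3 (io h) w q1 = 0 := by
    unfold T3
    rw [← a1.tsum_add a2, ← (a1.add a2).tsum_add a3, ← ((a1.add a2).add a3).tsum_add a4]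
    rw [← tsum_zero (α := ℂ) (β := ℤ × ℤ)]
    refine tsum_congr fun x => ?_
    exact anti_mode (dw x.2) (dq x.1) (dh (x.1 + x.2)) (q0 x.1) (qH x.1)
  linear_combination key

/-- One triple of modes of the symmetrised vortex force. `g` multiplies `Om w`, `h` multiplies `Om v`. -/
theorem sym_mode {ω : ℝ} {i l : ℤ} {v w v' w' g h g1 h1 : CI H} {om om' : Z2 H}
    (dw : DZ w (-(kI ω i) • (iota v : Z2 H))) (dv : DZ v (kI ω i • (iota w : Z2 H) - om))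
    (dw' : DZ w' (-(kI ω l) • (iota v' : Z2 H))) (dv' : DZ v' (kI ω l • (iota w' : Z2 H) - om'))
    (dg : DZ g (iota g1)) (dh : DZ h (iota h1)) (w0 : ex w 0 = 0) (w0' : ex w' 0 = 0)
    (h0 : ex h 0 = 0) (gH : ex g H = 0) (hHH : ex h H = 0) :
    ⟪(iota g : Z2 H), mz w' om⟫_ℂ + ⟪(iota g : Z2 H), mz w om'⟫_ℂ +
      (⟪(iota h : Z2 H), mz v' om⟫_ℂ + ⟪(iota h : Z2 H), mz v om'⟫_ℂ) =
    -⟪kI ω (i + l) • (iota g : Z2 H) + iota h1, iota (w * w' - v * v')⟫_ℂ +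
      ⟪(iota g1 : Z2 H) - kI ω (i + l) • (iota h : Z2 H), iota (v * w' + v' * w)⟫_ℂ := by
  -- Q = v w' + v' w, R = w w' - v v'
  have dQ := (dv.mul dw').add (dv'.mul dw)
  have dR := (dw.mul dw').sub (dv.mul dv')
  have e1 := DZ.ibp dg dQ
  have e2 := DZ.ibp dh dR
  have Q0 : ex (v * w' + v' * w) 0 = 0 := by
    rw [ex_add, ex_mul, ex_mul, w0, w0', mul_zero, mul_zero, add_zero]
  rw [gH, Q0, star_zero, zero_mul, mul_zero, sub_zero] at e1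
  rw [hHH, h0, star_zero, zero_mul, zero_mul, sub_zero] at e2
  simp only [map_smul, map_sub, map_neg, neg_smul, mz_iota, inner_add_right, inner_sub_right,
    inner_add_left, inner_sub_left, inner_smul_right, inner_smul_left, inner_neg_right, conj_kI,
    kI_add, map_add] at e1 e2 ⊢
  have c1 : w' * w = w * w' := mul_comm _ _
  have c2 : v' * v = v * v' := mul_comm _ _
  have c3 : w' * v = v * w' := mul_comm _ _
  have c4 : w * v' = v' * w := mul_comm _ _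
  simp only [c1, c2, c3, c4] at e1 e2 ⊢
  linear_combination -e1 + e2

theorem T3_swap' (r : ℤ → Z2 H) (u : ℤ → CI H) (p : ℤ → Z2 H) :
    T3 r u p = ∑' x : ℤ × ℤ, ⟪r (x.1 + x.2), mz (u x.1) (p x.2)⟫_ℂ := by
  unfold T3
  rw [← (Equiv.prodComm ℤ ℤ).tsum_eq (fun x : ℤ × ℤ => ⟪r (x.1 + x.2), mz (u x.1) (p x.2)⟫_ℂ)]
  refine tsum_congr fun x => ?_
  show _ = ⟪r (x.2 + x.1), mz (u x.2) (p x.1)⟫_ℂ
  rw [add_comm]

/-- **The symmetrised vortex force in divergence form**: the bound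
`|b(c Om, u'; f) + b(c Om', u; f)| ≤ C |Lam^{3/8} u| |Lam^{3/8} u'| N_{0,∞}(∇ (c ∇ θ))`,
with `g = c θ_z`, `h = c θ_y`. -/
theorem T3_sym {ω : ℝ} (pw : PrW lam 0 (1 / 2) (1 / 4)) (pw' : PrW lam (3 / 8) (3 / 8) 0)
    {v w v' w' g h g1 h1 : ℤ → CI H} {om om' : ℤ → Z2 H}
    (dw : ∀ n, DZ (w n) (-(kI ω n) • (iota (v n) : Z2 H)))
    (dv : ∀ n, DZ (v n) (kI ω n • (iota (w n) : Z2 H) - om n))
    (dw' : ∀ n, DZ (w' n) (-(kI ω n) • (iota (v' n) : Z2 H)))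
    (dv' : ∀ n, DZ (v' n) (kI ω n • (iota (w' n) : Z2 H) - om' n))
    (dg : ∀ n, DZ (g n) (iota (g1 n))) (dh : ∀ n, DZ (h n) (iota (h1 n)))
    (w0 : ∀ n, ex (w n) 0 = 0) (w0' : ∀ n, ex (w' n) 0 = 0)
    (h0 : ∀ n, ex (h n) 0 = 0) (gH : ∀ n, ex (g n) H = 0) (hHH : ∀ n, ex (h n) H = 0)
    (sv : S2 lam (1 / 2) v) (sw : S2 lam (1 / 2) w) (sv' : S2 lam (1 / 2) v')
    (sw' : S2 lam (1 / 2) w') (so : S2 lam 0 om) (so' : S2 lam 0 om')
    (sg : S2 lam (1 / 4) (io g)) (sh : S2 lam (1 / 4) (io h))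
    (sr : S2 lam 0 fun n => dy ω g n + h1 n) (sr' : S2 lam 0 fun n => g1 n - dy ω h n) :
    ‖T3 (io g) w' om + T3 (io h) v' om + (T3 (io g) w om' + T3 (io h) v om')‖ ≤
      CP lam (3 / 8 + 3 / 8 + 0) *
        (N2 lam 0 (fun n => dy ω g n + h1 n) + N2 lam 0 (fun n => g1 n - dy ω h n)) *
        (N2 lam (3 / 8) (io v) + N2 lam (3 / 8) (io w)) *
        (N2 lam (3 / 8) (io v') + N2 lam (3 / 8) (io w')) := by
  have a1 := (T3_sum pw so sw' sg).1.of_norm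
  have a2 := (T3_sum pw so sv' sh).1.of_norm
  have a3' := (T3_sum pw so' sw sg).1.of_norm
  have a4' := (T3_sum pw so' sv sh).1.of_norm
  have a3 : Summable fun x : ℤ × ℤ => ⟪io g (x.1 + x.2), mz (w x.1) (om' x.2)⟫_ℂ := by
    have := (Equiv.prodComm ℤ ℤ).summable_iff.2 a3'
    refine this.congr fun x => ?_
    show ⟪io g (x.2 + x.1), mz (w x.1) (om' x.2)⟫_ℂ = ⟪io g (x.1 + x.2), mz (w x.1) (om' x.2)⟫_ℂ
    rw [add_comm]
  have a4 : Summable fun x : ℤ × ℤ => ⟪io h (x.1 + x.2), mz (v x.1) (om' x.2)⟫_ℂ := by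
    have := (Equiv.prodComm ℤ ℤ).summable_iff.2 a4'
    refine this.congr fun x => ?_
    show ⟪io h (x.2 + x.1), mz (v x.1) (om' x.2)⟫_ℂ = ⟪io h (x.1 + x.2), mz (v x.1) (om' x.2)⟫_ℂ
    rw [add_comm]
  rw [T3_swap' (io g) w om', T3_swap' (io h) v om']
  unfold T3
  rw [← a1.tsum_add a2, ← a3.tsum_add a4, ← (a1.add a2).tsum_add (a3.add a4)]
  -- norms below `3/8`
  have hh : (3 / 8 : ℝ) ≤ 1 / 2 := by norm_num
  have iv : S2 lam (3 / 8) (io v) := (S2_mono pw.h1 hh (S2_iota pw.h1 sv).1).1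
  have iw : S2 lam (3 / 8) (io w) := (S2_mono pw.h1 hh (S2_iota pw.h1 sw).1).1
  have iv' : S2 lam (3 / 8) (io v') := (S2_mono pw.h1 hh (S2_iota pw.h1 sv').1).1
  have iw' : S2 lam (3 / 8) (io w') := (S2_mono pw.h1 hh (S2_iota pw.h1 sw').1).1
  set r : ℤ → CI H := fun n => dy ω g n + h1 n with hr
  set r' : ℤ → CI H := fun n => g1 n - dy ω h n with hr'
  obtain ⟨t1, b1⟩ := tri_scalar pw'.h1 pw'.ha pw'.hb pw'.hc pw'.hs iw iw' sr
  obtain ⟨t2, b2⟩ := tri_scalar pw'.h1 pw'.ha pw'.hb pw'.hc pw'.hs iv iv' sr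
  obtain ⟨t3, b3⟩ := tri_scalar pw'.h1 pw'.ha pw'.hb pw'.hc pw'.hs iv iw' sr'
  obtain ⟨t4, b4⟩ := tri_scalar pw'.h1 pw'.ha pw'.hb pw'.hc pw'.hs iw iv' sr'
  have term : ∀ x : ℤ × ℤ,
      ‖⟪io g (x.1 + x.2), mz (w' x.2) (om x.1)⟫_ℂ + ⟪io h (x.1 + x.2), mz (v' x.2) (om x.1)⟫_ℂ +
        (⟪io g (x.1 + x.2), mz (w x.1) (om' x.2)⟫_ℂ + ⟪io h (x.1 + x.2), mz (v x.1) (om' x.2)⟫_ℂ)‖ ≤
      ‖io w x.1‖ * ‖io w' x.2‖ * ‖r (x.1 + x.2)‖ + ‖io v x.1‖ * ‖io v' x.2‖ * ‖r (x.1 + x.2)‖ +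
        (‖io v x.1‖ * ‖io w' x.2‖ * ‖r' (x.1 + x.2)‖ +
          ‖io w x.1‖ * ‖io v' x.2‖ * ‖r' (x.1 + x.2)‖) := by
    intro x
    have e := sym_mode (dw x.1) (dv x.1) (dw' x.2) (dv' x.2) (dg (x.1 + x.2)) (dh (x.1 + x.2))
      (w0 x.1) (w0' x.2) (h0 _) (gH _) (hHH _)
    have er : kI ω (x.1 + x.2) • (iota (g (x.1 + x.2)) : Z2 H) + iota (h1 (x.1 + x.2)) =
        iota (r (x.1 + x.2)) := by
      rw [hr]; simp only [dy, map_add, map_smul]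
    have er' : (iota (g1 (x.1 + x.2)) : Z2 H) - kI ω (x.1 + x.2) • iota (h (x.1 + x.2)) =
        iota (r' (x.1 + x.2)) := by
      rw [hr']; simp only [dy, map_sub, map_smul]
    rw [er, er'] at e
    have e2 : ⟪io g (x.1 + x.2), mz (w' x.2) (om x.1)⟫_ℂ +
        ⟪io h (x.1 + x.2), mz (v' x.2) (om x.1)⟫_ℂ +
        (⟪io g (x.1 + x.2), mz (w x.1) (om' x.2)⟫_ℂ + ⟪io h (x.1 + x.2), mz (v x.1) (om' x.2)⟫_ℂ) =
        -⟪(iota (r (x.1 + x.2)) : Z2 H), iota (w x.1 * w' x.2 - v x.1 * v' x.2)⟫_ℂ +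
          ⟪(iota (r' (x.1 + x.2)) : Z2 H), iota (v x.1 * w' x.2 + v' x.2 * w x.1)⟫_ℂ := by
      rw [← e]; unfold io; ring
    rw [e2]
    have m1 : ∀ (s a b : CI H), ‖⟪(iota s : Z2 H), iota (a * b)⟫_ℂ‖ ≤
        ‖(iota a : Z2 H)‖ * ‖(iota b : Z2 H)‖ * ‖s‖ := fun s a b => by
      have := norm_inner_mz_le s a (iota b)
      rw [mz_iota] at this
      calc _ ≤ ‖(iota b : Z2 H)‖ * ‖(iota a : Z2 H)‖ * ‖s‖ := this
        _ = _ := by ring
    refine (norm_add_le _ _).trans (add_le_add ?_ ?_)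
    · rw [norm_neg, map_sub, inner_sub_right]
      exact (norm_sub_le _ _).trans (add_le_add (m1 _ _ _) (m1 _ _ _))
    · rw [map_add, inner_add_right]
      refine (norm_add_le _ _).trans (add_le_add (m1 _ _ _) ?_)
      refine (m1 _ _ _).trans (le_of_eq ?_)
      unfold io; ring
  have tt := (t1.add t2).add (t3.add t4)
  have sL : Summable fun x : ℤ × ℤ =>
      ‖⟪io g (x.1 + x.2), mz (w' x.2) (om x.1)⟫_ℂ + ⟪io h (x.1 + x.2), mz (v' x.2) (om x.1)⟫_ℂ +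
        (⟪io g (x.1 + x.2), mz (w x.1) (om' x.2)⟫_ℂ + ⟪io h (x.1 + x.2), mz (v x.1) (om' x.2)⟫_ℂ)‖ :=
    Summable.of_nonneg_of_le (fun _ => norm_nonneg _) term tt
  refine (norm_tsum_le_tsum_norm sL).trans ((sL.tsum_le_tsum term tt).trans ?_)
  rw [(t1.add t2).tsum_add (t3.add t4), t1.tsum_add t2, t3.tsum_add t4]
  refine (add_le_add (add_le_add b1 b2) (add_le_add b3 b4)).trans ?_
  have n1 := N2_nonneg (lam := lam) (3 / 8) (io v)
  have n2 := N2_nonneg (lam := lam) (3 / 8) (io w)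
  have n3 := N2_nonneg (lam := lam) (3 / 8) (io v')
  have n4 := N2_nonneg (lam := lam) (3 / 8) (io w')
  have n5 := N2_nonneg (lam := lam) 0 r
  have n6 := N2_nonneg (lam := lam) 0 r'
  have n7 := CP_nonneg (lam := lam) (3 / 8 + 3 / 8 + 0)
  have key : ∀ C R R' V W V' W' : ℝ, 0 ≤ C → 0 ≤ R → 0 ≤ R' → 0 ≤ V → 0 ≤ W → 0 ≤ V' → 0 ≤ W' →
      C * W * W' * R + C * V * V' * R + (C * V * W' * R' + C * W * V' * R') ≤
        C * (R + R') * (V + W) * (V' + W') := by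
    intro C R R' V W V' W' h1 h2 h3 h4 h5 h6 h7
    have : C * (R + R') * (V + W) * (V' + W') - (C * W * W' * R + C * V * V' * R +
        (C * V * W' * R' + C * W * V' * R')) = C * V * W' * R + C * W * V' * R +
          (C * V * V' * R' + C * W * W' * R') := by ring
    have : 0 ≤ C * V * W' * R + C * W * V' * R + (C * V * V' * R' + C * W * W' * R') := by positivity
    linarith
  exact key _ _ _ _ _ _ _ n7 n5 n6 n1 n2 n3 n4

end

end Pool.Agent.Lib.MP_79abb3_an.SC
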