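import Pool.Agent.Lib.MP_79abb3_an.P25.Fourier

/-!
MP_79abb3_an, simply connected domains: families of Fourier coefficients of smooth functions of
`(y, z)`, `2H`-periodic in `y` (definitions).
-/

set_option autoImplicit false
set_option linter.unusedSectionVars false

open MeasureTheory Set Filter Topology Function

namespace Pool.Agent.Lib.MP_79abb3_an.SC

open Pool.Agent.Lib.MP_79abb3_an.P25

/-- Smooth functions of `(y, z)` whose values near `y = -H` and near `y = H` agree: `2H`-periodic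
functions, and functions which are constant for `|y| ≥ H - ε`. -/
structure PY (H : ℝ) (F : ℝ × ℝ → ℝ) : Prop where
  smooth : ContDiff ℝ ((⊤ : ℕ∞) : WithTop ℕ∞) F
  per : ∃ ε > 0, ∀ y z, |y + H| < ε → F (y + 2 * H, z) = F (y, z)

/-- `∂_y F` -/
noncomputable def pY (F : ℝ × ℝ → ℝ) (p : ℝ × ℝ) : ℝ := fderiv ℝ F p (1, 0)

/-- `∂_z F` -/
noncomputable def pZ (F : ℝ × ℝ → ℝ) (p : ℝ × ℝ) : ℝ := fderiv ℝ F p (0, 1)

section
variable {H : ℝ} [hH : Fact (0 < H)]

/-- The family of Fourier coefficients `(2H)⁻¹ ∫_{-H}^{H} F(y, z) e^{-iπny/H} dy`, as functions of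
`z ∈ [0, H]` (zero if `F` is not continuous). -/
noncomputable def fam (F : ℝ × ℝ → ℝ) (n : ℤ) : CI H :=
  open Classical in
  if h : Continuous F then
    ⟨fun z => fco H F n z, (fco_continuous h H n).comp continuous_subtype_val⟩
  else 0

theorem ex_fam {F : ℝ × ℝ → ℝ} (hF : Continuous F) (n : ℤ) {z : ℝ} (hz : z ∈ Icc (0:ℝ) H) :
    ex (fam F n : CI H) z = fco H F n z := by
  unfold fam
  rw [dif_pos hF]
  exact IccExtend_of_mem hH.out.le _ hz

end

end Pool.Agent.Lib.MP_79abb3_an.SC
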