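import Pool.Agent.Lib.MP_79abb3_an.FW.Def
import Pool.Agent.Lib.MP_79abb3_an.P25.Fld
import Pool.Agent.Lib.MP_79abb3_an.SC.ApI
import Pool.Agent.Lib.MP_79abb3_an.SC.FcDef

/-!
MP_79abb3_an, simply connected domains: families of Fourier coefficients, part A: stability of the
class `PY`, derivatives, decay, linearity, reality.
-/

set_option autoImplicit false
set_option linter.unusedSectionVars false

open MeasureTheory Set Filter Topology Function

namespace Pool.Agent.Lib.MP_79abb3_an.SC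

open Pool.Agent.Lib.MP_79abb3_an.P25 Pool.Agent.Lib.MP_79abb3_an.FW

/-! ### The class `PY` -/

section cls
variable {H : ℝ} {F G : ℝ × ℝ → ℝ}

theorem PY.const (H c : ℝ) : PY H (fun _ => c) := by
  exact ⟨contDiff_const, 1, one_pos, fun _ _ _ => rfl⟩

private theorem fa_per2 (hF : PY H F) (hG : PY H G) : ∃ ε > 0, ∀ y z, |y + H| < ε →
    F (y + 2 * H, z) = F (y, z) ∧ G (y + 2 * H, z) = G (y, z) := by
  obtain ⟨e1, h1, k1⟩ := hF.per
  obtain ⟨e2, h2, k2⟩ := hG.per
  exact ⟨min e1 e2, lt_min h1 h2, fun y z hy => ⟨k1 y z (hy.trans_le (min_le_left _ _)),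
    k2 y z (hy.trans_le (min_le_right _ _))⟩⟩

theorem PY.add (hF : PY H F) (hG : PY H G) : PY H (fun p => F p + G p) := by
  obtain ⟨e, he, h⟩ := fa_per2 hF hG
  exact ⟨hF.smooth.add hG.smooth, e, he, fun y z hy => by
    rw [(h y z hy).1, (h y z hy).2]⟩

theorem PY.sub (hF : PY H F) (hG : PY H G) : PY H (fun p => F p - G p) := by
  obtain ⟨e, he, h⟩ := fa_per2 hF hG
  exact ⟨hF.smooth.sub hG.smooth, e, he, fun y z hy => by
    rw [(h y z hy).1, (h y z hy).2]⟩

theorem PY.mul (hF : PY H F) (hG : PY H G) : PY H (fun p => F p * G p) := by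
  obtain ⟨e, he, h⟩ := fa_per2 hF hG
  exact ⟨hF.smooth.mul hG.smooth, e, he, fun y z hy => by
    rw [(h y z hy).1, (h y z hy).2]⟩

theorem PY.neg (hF : PY H F) : PY H (fun p => -F p) := by
  obtain ⟨e, he, h⟩ := hF.per
  exact ⟨hF.smooth.neg, e, he, fun y z hy => congrArg Neg.neg (h y z hy)⟩

/-- composition with a smooth function of one variable -/
theorem PY.comp {g : ℝ → ℝ} (hg : ContDiff ℝ ((⊤ : ℕ∞) : WithTop ℕ∞) g) (hF : PY H F) :
    PY H (fun p => g (F p)) := by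
  obtain ⟨e, he, h⟩ := hF.per
  exact ⟨hg.comp hF.smooth, e, he, fun y z hy => congrArg g (h y z hy)⟩

theorem PY.div (hF : PY H F) (hG : PY H G) (h0 : ∀ p, G p ≠ 0) : PY H (fun p => F p / G p) := by
  obtain ⟨e, he, h⟩ := fa_per2 hF hG
  exact ⟨hF.smooth.div hG.smooth h0, e, he, fun y z hy => by
    rw [(h y z hy).1, (h y z hy).2]⟩

/-- functions of `z` -/
theorem PY.of_z (H : ℝ) {g : ℝ → ℝ} (hg : ContDiff ℝ ((⊤ : ℕ∞) : WithTop ℕ∞) g) :
    PY H (fun p => g p.2) := by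
  exact ⟨hg.comp contDiff_snd, 1, one_pos, fun _ _ _ => rfl⟩

private theorem fa_arg {H ω : ℝ} (hω : ω * H = Real.pi) (N : ℤ) (y : ℝ) :
    ω * N * (y + 2 * H) = ω * N * y + N * (2 * Real.pi) := by
  rw [← hω]; ring

/-- `cos (ω N y)`, `sin (ω N y)` with `ω H = π` -/
theorem PY.cos {ω : ℝ} (hω : ω * H = Real.pi) (N : ℤ) : PY H (fun p => Real.cos (ω * N * p.1)) := by
  refine ⟨Real.contDiff_cos.comp (contDiff_const.mul contDiff_fst), 1, one_pos, fun y z _ => ?_⟩
  change Real.cos (ω * N * (y + 2 * H)) = Real.cos (ω * N * y)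
  rw [fa_arg hω, Real.cos_add_int_mul_two_pi]

theorem PY.sin {ω : ℝ} (hω : ω * H = Real.pi) (N : ℤ) : PY H (fun p => Real.sin (ω * N * p.1)) := by
  refine ⟨Real.contDiff_sin.comp (contDiff_const.mul contDiff_fst), 1, one_pos, fun y z _ => ?_⟩
  change Real.sin (ω * N * (y + 2 * H)) = Real.sin (ω * N * y)
  rw [fa_arg hω, Real.sin_add_int_mul_two_pi]

/-- a smooth function which vanishes for `|y| ≥ H - ε` -/
theorem PY.of_van {ε : ℝ} (hε : 0 < ε) (hH : 0 < H) (hF : ContDiff ℝ ((⊤ : ℕ∞) : WithTop ℕ∞) F)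
    (h : ∀ y z, H - ε ≤ |y| → F (y, z) = 0) : PY H F := by
  refine ⟨hF, ε, hε, fun y z hy => ?_⟩
  obtain ⟨h1, h2⟩ := abs_lt.1 hy
  rw [h (y + 2 * H) z (le_trans (by linarith) (le_abs_self _)),
    h y z (le_trans (by linarith) (neg_le_abs _))]

private theorem fa_fd (hF : PY H F) (v : ℝ × ℝ) : PY H (fun p => fderiv ℝ F p v) := by
  obtain ⟨e, he, h⟩ := hF.per
  refine ⟨fo_contDiff hF.smooth le_rfl v, e, he, fun y z hy => ?_⟩
  have h1 : (fun p : ℝ × ℝ => F (p + (2 * H, 0))) =ᶠ[𝓝 (y, z)] F := by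
    have h2 : IsOpen {p : ℝ × ℝ | |p.1 + H| < e} :=
      isOpen_lt (continuous_abs.comp (continuous_fst.add continuous_const)) continuous_const
    filter_upwards [h2.mem_nhds (show (y, z) ∈ {p : ℝ × ℝ | |p.1 + H| < e} from hy)] with p hp
    have h3 : p + (2 * H, 0) = (p.1 + 2 * H, p.2) := Prod.ext rfl (add_zero p.2)
    rw [h3]
    exact h p.1 p.2 hp
  have h4 : fderiv ℝ F ((y, z) + (2 * H, 0)) = fderiv ℝ F (y, z) := by
    rw [← h1.fderiv_eq, fderiv_comp_add_right]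
  have h5 : ((y, z) : ℝ × ℝ) + (2 * H, 0) = (y + 2 * H, z) := Prod.ext rfl (add_zero z)
  rw [h5] at h4
  change fderiv ℝ F (y + 2 * H, z) v = fderiv ℝ F (y, z) v
  rw [h4]

/-- the derivative in `y`.  (Near a point `(y, z)` with `|y + H| < ε` the functions `p ↦ F (p + (2H,0))`
and `F` agree, so their derivatives agree; `fderiv_comp_add_right`.) -/
theorem PY.pY (hF : PY H F) : PY H (pY F) := by
  exact fa_fd hF (1, 0)

theorem PY.pZ (hF : PY H F) : PY H (pZ F) := by
  exact fa_fd hF (0, 1)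

/-- equality at the end points of the cell: take `y = -H` in `per` -/
theorem PY.ends (hF : PY H F) (z : ℝ) : F (H, z) = F (-H, z) := by
  obtain ⟨e, he, h⟩ := hF.per
  have h1 := h (-H) z (by rw [neg_add_cancel, abs_zero]; exact he)
  rwa [show -H + 2 * H = H by ring] at h1

end cls

section
variable {H : ℝ} [hH : Fact (0 < H)] {F G : ℝ × ℝ → ℝ}

/-- `(fam F n)' = fam F_z n`. Proof: `fco_hasDerivAt` (see the definition of `IsD` in P25/Basic and
`ex_fam`). -/
theorem fam_isD (hF : PY H F) (n : ℤ) : IsD (fam F n : CI H) (fam (pZ F) n) := by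
  intro z hz
  have h1 : ContDiff ℝ 1 F := hF.smooth.of_le (by exact_mod_cast le_top)
  rw [ex_fam hF.pZ.smooth.continuous n hz]
  exact (fco_hasDerivAt h1 H n z).hasDerivWithinAt.congr
    (fun x hx => ex_fam hF.smooth.continuous n hx) (ex_fam hF.smooth.continuous n hz)

private theorem fa_ee {Y : ℝ} (hY : Y ≠ 0) (n : ℤ) : ee (Real.pi / Y) n Y = ee (Real.pi / Y) n (-Y) := by
  unfold ee
  refine Complex.exp_eq_exp_iff_exists_int.2 ⟨n, ?_⟩
  have h1 : Real.pi / Y * n * Y = Real.pi * n := by field_simp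
  have h2 : Real.pi / Y * n * -Y = -(Real.pi * n) := by field_simp
  rw [h1, h2]
  push_cast
  ring

/-- Integration by parts in `y` on a period. -/
private theorem fa_dy {Y : ℝ} (hY : Y ≠ 0) {F : ℝ × ℝ → ℝ} (hF : ContDiff ℝ 1 F) (n : ℤ) (z : ℝ)
    (h0 : F (Y, z) = F (-Y, z)) :
    fco Y (fun p => fderiv ℝ F p (1, 0)) n z =
      Complex.I * ((Real.pi / Y * n : ℝ) : ℂ) * fco Y F n z := by
  have hee := fa_ee hY n
  set ω : ℝ := Real.pi / Y with hω
  have hD : ContDiff ℝ 0 (fun p => fderiv ℝ F p (1, 0)) := fo_contDiff hF (by norm_num) _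
  have hv : ∀ y, HasDerivAt (fun y => star (ee ω n y))
      (star (ee ω n y * (Complex.I * ((ω * n : ℝ) : ℂ)))) y := fun y =>
    (fo_hasDerivAt_ee ω n y).star
  have hv' : ∀ y, star (ee ω n y * (Complex.I * ((ω * n : ℝ) : ℂ))) =
      -(Complex.I * ((ω * n : ℝ) : ℂ)) * star (ee ω n y) := by
    intro y
    rw [star_mul, star_mul]
    show (starRingEnd ℂ) ((ω * n : ℝ) : ℂ) * (starRingEnd ℂ) Complex.I * _ = _
    rw [Complex.conj_I, Complex.conj_ofReal]
    ring
  have e := intervalIntegral.integral_deriv_mul_eq_sub (a := -Y) (b := Y)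
    (u := fun y => ((F (y, z) : ℝ) : ℂ)) (v := fun y => star (ee ω n y))
    (u' := fun y => ((fderiv ℝ F (y, z) (1, 0) : ℝ) : ℂ))
    (v' := fun y => star (ee ω n y * (Complex.I * ((ω * n : ℝ) : ℂ))))
    (fun y _ => fo_hasDerivAt_y hF y z) (fun y _ => hv y)
    ((Complex.continuous_ofReal.comp (hD.continuous.comp (by fun_prop))).intervalIntegrable _ _)
    ((continuous_star.comp ((fo_ee_continuous ω n).mul continuous_const)).intervalIntegrable _ _)
  rw [h0, hee, sub_self] at e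
  simp only [hv'] at e
  have i1 : IntervalIntegrable (fun y => ((fderiv ℝ F (y, z) (1, 0) : ℝ) : ℂ) * star (ee ω n y))
      volume (-Y) Y := (fo_continuous_y hD.continuous ω n z).intervalIntegrable _ _
  have i2 : IntervalIntegrable (fun y => -(Complex.I * ((ω * n : ℝ) : ℂ)) *
      (((F (y, z) : ℝ) : ℂ) * star (ee ω n y))) volume (-Y) Y :=
    ((fo_continuous_y hF.continuous ω n z).const_mul _).intervalIntegrable _ _
  have e2 : ∫ y in (-Y)..Y, (((fderiv ℝ F (y, z) (1, 0) : ℝ) : ℂ) * star (ee ω n y) +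
      -(Complex.I * ((ω * n : ℝ) : ℂ)) * (((F (y, z) : ℝ) : ℂ) * star (ee ω n y))) = 0 := by
    rw [← e]
    refine intervalIntegral.integral_congr fun y _ => ?_
    ring
  rw [intervalIntegral.integral_add i1 i2, intervalIntegral.integral_const_mul] at e2
  have e3 := add_eq_zero_iff_eq_neg.1 e2
  rw [fco, fco, e3]
  ring

/-- `fam F_y n = i k_n fam F n`. Proof: as `fco_dy` (integration by parts in `y`; the boundary terms
cancel by `PY.ends` and `ee (π/H) n H = ee (π/H) n (-H)`, both are `(-1)^n`). -/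
theorem fam_dy (hF : PY H F) (n : ℤ) : (fam (pY F) n : CI H) = kI (Real.pi / H) n • fam F n := by
  have h1 : ContDiff ℝ 1 F := hF.smooth.of_le (by exact_mod_cast le_top)
  refine ci_ext fun z hz => ?_
  rw [ex_smul, ex_fam hF.pY.smooth.continuous n hz, ex_fam hF.smooth.continuous n hz]
  exact fa_dy hH.out.ne' h1 n z (hF.ends z)

private theorem fa_fco_le {Y : ℝ} (hY : 0 < Y) {F : ℝ × ℝ → ℝ} {C z : ℝ}
    (h : ∀ y ∈ Icc (-Y) Y, |F (y, z)| ≤ C) (n : ℤ) : ‖fco Y F n z‖ ≤ C := by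
  have h1 : ‖∫ y in (-Y)..Y, ((F (y, z) : ℝ) : ℂ) * star (ee (Real.pi / Y) n y)‖ ≤
      C * |Y - -Y| := by
    refine intervalIntegral.norm_integral_le_of_norm_le_const fun y hy => ?_
    rw [norm_mul, norm_star, fo_norm_ee, mul_one, Complex.norm_real]
    rw [uIoc_of_le (by linarith)] at hy
    exact h y ⟨hy.1.le, hy.2⟩
  have h2 : |Y - -Y| = 2 * Y := by rw [abs_of_pos (by linarith)]; ring
  rw [h2] at h1
  have h3 : ‖((2 * Y : ℝ) : ℂ)⁻¹‖ = (2 * Y)⁻¹ := by
    rw [norm_inv, Complex.norm_real, Real.norm_eq_abs, abs_of_pos (by linarith)]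
  rw [fco, norm_mul, h3]
  calc (2 * Y)⁻¹ * ‖∫ y in (-Y)..Y, ((F (y, z) : ℝ) : ℂ) * star (ee (Real.pi / Y) n y)‖
      ≤ (2 * Y)⁻¹ * (C * (2 * Y)) := mul_le_mul_of_nonneg_left h1 (by positivity)
    _ = C := by field_simp

private theorem fa_norm_le (hF : Continuous F) {C : ℝ}
    (h : ∀ y ∈ Icc (-H) H, ∀ z ∈ Icc (0:ℝ) H, |F (y, z)| ≤ C) (n : ℤ) : ‖(fam F n : CI H)‖ ≤ C := by
  have hH0 := hH.out
  have hC : 0 ≤ C := (abs_nonneg _).trans (h H ⟨by linarith, le_rfl⟩ H ⟨hH0.le, le_rfl⟩)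
  refine ci_norm_le hC fun z hz => ?_
  rw [ex_fam hF n hz]
  exact fa_fco_le hH0 (fun y hy => h y hy z hz) n

private theorem fa_iter (m : ℕ) : ∀ {F : ℝ × ℝ → ℝ}, PY H F →
    ∃ C : ℝ, ∀ n : ℤ, |Real.pi / H * n| ^ m * ‖(fam F n : CI H)‖ ≤ C := by
  induction m with
  | zero =>
    intro F hF
    obtain ⟨C, hC⟩ := (isCompact_Icc (a := -H) (b := H)).prod (isCompact_Icc (a := (0:ℝ)) (b := H))
      |>.exists_bound_of_continuousOn hF.smooth.continuous.continuousOn
    refine ⟨C, fun n => ?_⟩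
    rw [pow_zero, one_mul]
    exact fa_norm_le hF.smooth.continuous (fun y hy z hz => hC (y, z) ⟨hy, hz⟩) n
  | succ m ih =>
    intro F hF
    obtain ⟨C, hC⟩ := ih hF.pY
    refine ⟨C, fun n => ?_⟩
    have h1 := hC n
    rw [fam_dy hF n, norm_smul] at h1
    have h2 : ‖kI (Real.pi / H) n‖ = |Real.pi / H * n| := by
      rw [kI, norm_mul, Complex.norm_I, one_mul, Complex.norm_real, Real.norm_eq_abs]
    rw [h2] at h1
    rw [pow_succ, mul_assoc]
    exact h1

/-- Rapid decay. Proof: iterate `fam_dy` (as in `fco_decay`): `|k_n|^m |fam F n| = |fam (∂_y^m F) n| ≤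
sup_{[-H,H]×[0,H]} |∂_y^m F|` for `m = 0` and `m = k + 2`; `(1+|n|)^(k+2) ≤ C (1 + |k_n|^(k+2))`, and
`∑ (1+|n|)^{-2} < ∞`. -/
theorem fam_sum (hF : PY H F) (k : ℕ) : Summable fun n : ℤ => (1 + |(n:ℝ)|) ^ k * ‖(fam F n : CI H)‖ := by
  have hH0 := hH.out
  have hpi := Real.pi_pos
  obtain ⟨C1, h1⟩ := fa_iter (H := H) 2 hF
  obtain ⟨C2, h2⟩ := fa_iter (H := H) (k + 2) hF
  refine fo_summable hH0 (fun n => by positivity)
    (C := 2 ^ (k - 1) * (C1 + (H / Real.pi) ^ k * C2)) fun n => ?_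
  set a : ℝ := |Real.pi / H * n| with ha
  set N : ℝ := ‖(fam F n : CI H)‖ with hN
  have ha0 : 0 ≤ a := abs_nonneg _
  have hN0 : 0 ≤ N := norm_nonneg _
  have e1 : |(n:ℝ)| = H / Real.pi * a := by
    rw [ha, abs_mul, abs_of_pos (by positivity : 0 < Real.pi / H)]
    field_simp
  have e2 : (1 + |(n:ℝ)|) ^ k ≤ 2 ^ (k - 1) * (1 + (H / Real.pi) ^ k * a ^ k) := by
    have h3 := add_pow_le zero_le_one (abs_nonneg (n:ℝ)) k
    rw [one_pow] at h3
    refine h3.trans (le_of_eq ?_)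
    rw [e1, mul_pow]
  calc a ^ 2 * ((1 + |(n:ℝ)|) ^ k * N)
      ≤ a ^ 2 * ((2 ^ (k - 1) * (1 + (H / Real.pi) ^ k * a ^ k)) * N) := by gcongr
    _ = 2 ^ (k - 1) * (a ^ 2 * N + (H / Real.pi) ^ k * (a ^ (k + 2) * N)) := by ring
    _ ≤ 2 ^ (k - 1) * (C1 + (H / Real.pi) ^ k * C2) := by
        have h3 : a ^ 2 * N ≤ C1 := h1 n
        have h4 : a ^ (k + 2) * N ≤ C2 := h2 n
        gcongr

theorem fam_add (hF : Continuous F) (hG : Continuous G) (n : ℤ) :
    (fam (fun p => F p + G p) n : CI H) = fam F n + fam G n := by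
  refine ci_ext fun z hz => ?_
  have h1 : Continuous (fun p => F p + G p) := hF.add hG
  rw [ex_add, ex_fam h1 n hz, ex_fam hF n hz, ex_fam hG n hz, fco, fco, fco, ← mul_add,
    ← intervalIntegral.integral_add ((fo_continuous_y hF _ n z).intervalIntegrable _ _)
      ((fo_continuous_y hG _ n z).intervalIntegrable _ _)]
  congr 1
  refine intervalIntegral.integral_congr fun y _ => ?_
  push_cast
  ring

theorem fam_sub (hF : Continuous F) (hG : Continuous G) (n : ℤ) :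
    (fam (fun p => F p - G p) n : CI H) = fam F n - fam G n := by
  refine ci_ext fun z hz => ?_
  have h1 : Continuous (fun p => F p - G p) := hF.sub hG
  rw [ex_sub, ex_fam h1 n hz, ex_fam hF n hz, ex_fam hG n hz, fco, fco, fco, ← mul_sub,
    ← intervalIntegral.integral_sub ((fo_continuous_y hF _ n z).intervalIntegrable _ _)
      ((fo_continuous_y hG _ n z).intervalIntegrable _ _)]
  congr 1
  refine intervalIntegral.integral_congr fun y _ => ?_
  push_cast
  ring

theorem fam_smul (c : ℝ) (hF : Continuous F) (n : ℤ) :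
    (fam (fun p => c * F p) n : CI H) = (c : ℂ) • fam F n := by
  refine ci_ext fun z hz => ?_
  have h1 : Continuous (fun p => c * F p) := continuous_const.mul hF
  rw [ex_smul, ex_fam h1 n hz, ex_fam hF n hz, fco, fco, mul_left_comm,
    ← intervalIntegral.integral_const_mul (c : ℂ)]
  congr 1
  refine intervalIntegral.integral_congr fun y _ => ?_
  push_cast
  ring

/-- `fam` only depends on the values on `[-H,H] × [0,H]` -/
theorem fam_congr (hF : Continuous F) (hG : Continuous G)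
    (h : ∀ y ∈ Icc (-H) H, ∀ z ∈ Icc (0:ℝ) H, F (y, z) = G (y, z)) (n : ℤ) :
    (fam F n : CI H) = fam G n := by
  have hH0 := hH.out
  refine ci_ext fun z hz => ?_
  rw [ex_fam hF n hz, ex_fam hG n hz, fco, fco]
  congr 1
  refine intervalIntegral.integral_congr fun y hy => ?_
  rw [uIcc_of_le (by linarith)] at hy
  rw [h y hy z hz]

/-- reality: `fco_star` -/
theorem fam_neg_n (hF : Continuous F) (n : ℤ) : (fam F (-n) : CI H) = star (fam F n) := by
  refine ci_ext fun z hz => ?_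
  rw [ex_star, ex_fam hF (-n) hz, ex_fam hF n hz]
  exact fco_star H F n z

/-- functions of `z` only -/
theorem fam_z {g : ℝ → ℝ} (hg : Continuous g) (n : ℤ) :
    (fam (fun p => g p.2) n : CI H) = if n = 0 then rc g hg else 0 := by
  have hH0 := hH.out
  have hc1 : Continuous (fun _ : ℝ × ℝ => (1:ℝ)) := continuous_const
  have hcg : Continuous (fun p : ℝ × ℝ => g p.2) := hg.comp continuous_snd
  have h1 : ∀ z, fco H (fun p => g p.2) n z = ((g z : ℝ) : ℂ) * fco H (fun _ => 1) n z := by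
    intro z
    rw [fco, fco, mul_left_comm, ← intervalIntegral.integral_const_mul ((g z : ℝ) : ℂ)]
    congr 1
    refine intervalIntegral.integral_congr fun y _ => ?_
    push_cast
    ring
  refine ci_ext fun z hz => ?_
  rw [ex_fam hcg n hz, h1 z]
  by_cases hn : n = 0
  · rw [if_pos hn, ex_rc g hg hz, hn, fco]
    have h2 : ∫ y in (-H)..H, (((1:ℝ) : ℝ) : ℂ) * star (ee (Real.pi / H) 0 y) = ((2 * H : ℝ) : ℂ) := by
      have h3 : (fun y : ℝ => (((1:ℝ) : ℝ) : ℂ) * star (ee (Real.pi / H) 0 y)) = fun _ => (1:ℂ) := by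
        funext y
        have : ee (Real.pi / H) 0 y = 1 := by
          rw [ee, Int.cast_zero, mul_zero, zero_mul, Complex.ofReal_zero, mul_zero, Complex.exp_zero]
        rw [this, Complex.ofReal_one, star_one, mul_one]
      rw [h3, intervalIntegral.integral_const, sub_neg_eq_add, ← two_mul, Complex.real_smul,
        mul_one]
    rw [h2, inv_mul_cancel₀ (by
      have : (2 * H : ℝ) ≠ 0 := by positivity
      exact_mod_cast this), mul_one]
  · rw [if_neg hn, ex_zero]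
    have hcd : ContDiff ℝ 1 (fun _ : ℝ × ℝ => (1:ℝ)) := contDiff_const
    have h2 := fa_dy hH0.ne' hcd n z rfl
    have h3 : fco H (fun p => fderiv ℝ (fun _ : ℝ × ℝ => (1:ℝ)) p (1, 0)) n z = 0 := by
      rw [fco]
      have h4 : (fun y : ℝ => ((fderiv ℝ (fun _ : ℝ × ℝ => (1:ℝ)) (y, z) (1, 0) : ℝ) : ℂ) *
          star (ee (Real.pi / H) n y)) = fun _ => 0 := by
        funext y
        rw [fderiv_const_apply]
        simp
      rw [h4, intervalIntegral.integral_zero, mul_zero]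
    rw [h3] at h2
    have h5 : Complex.I * ((Real.pi / H * n : ℝ) : ℂ) ≠ 0 := by
      refine mul_ne_zero Complex.I_ne_zero ?_
      have hpi := Real.pi_pos
      have : Real.pi / H * (n:ℝ) ≠ 0 := mul_ne_zero (by positivity) (Int.cast_ne_zero.2 hn)
      exact_mod_cast this
    rw [(mul_eq_zero.1 h2.symm).resolve_left h5, mul_zero]

/-- bound by the sup norm -/
theorem norm_fam_le (hF : Continuous F) {C : ℝ}
    (h : ∀ y ∈ Icc (-H) H, ∀ z ∈ Icc (0:ℝ) H, |F (y, z)| ≤ C) (n : ℤ) : ‖(fam F n : CI H)‖ ≤ C := by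
  exact fa_norm_le hF h n

end

end Pool.Agent.Lib.MP_79abb3_an.SC
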