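import Pool.Agent.Lib.MP_79abb3_an.FW.FlAa
import Pool.Agent.Lib.MP_79abb3_an.SC.FcA

/-!
MP_79abb3_an, simply connected domains, block (iii): the flush weight as a smooth periodic function.
-/

set_option autoImplicit false
set_option linter.unusedSectionVars false

open MeasureTheory Set Filter Topology Function
open scoped ENNReal InnerProductSpace

namespace Pool.Agent.Lib.MP_79abb3_an.SC

open Pool.Agent.Lib.MP_79abb3_an.P25 Pool.Agent.Lib.MP_79abb3_an.FW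

section
variable {H : ℝ} [hH : Fact (0 < H)]

/-- the flush weight `π - arctan(μ φ)` and `ρ` as functions of `(y, z)` -/
noncomputable def gF (m μ : ℝ) (p : ℝ × ℝ) : ℝ := GG m μ p.1 p.2
noncomputable def rF (m μ : ℝ) (p : ℝ × ℝ) : ℝ := rho m μ p.1 p.2

private theorem flga_cos {ω : ℝ} (hω : ω * H = Real.pi) {N : ℕ} {m : ℝ} (hmN : m = ω * N) (y : ℝ) :
    Real.cos (m * (y + 2 * H)) = Real.cos (m * y) ∧ Real.sin (m * (y + 2 * H)) = Real.sin (m * y) := by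
  have h1 : m * (y + 2 * H) = m * y + N * (2 * Real.pi) := by
    rw [← hω, hmN]
    ring
  rw [h1, Real.cos_add_nat_mul_two_pi, Real.sin_add_nat_mul_two_pi]
  exact ⟨rfl, rfl⟩

private theorem flga_ph (m : ℝ) : ContDiff ℝ ((⊤ : ℕ∞) : WithTop ℕ∞) fun p : ℝ × ℝ => ph m p.1 p.2 := by
  have h1 : ContDiff ℝ ((⊤ : ℕ∞) : WithTop ℕ∞) fun p : ℝ × ℝ => Real.cos (m * p.1) :=
    Real.contDiff_cos.comp (contDiff_const.mul contDiff_fst)
  have h2 : ContDiff ℝ ((⊤ : ℕ∞) : WithTop ℕ∞) fun p : ℝ × ℝ => Real.cosh (m * p.2) :=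
    Real.contDiff_cosh.comp (contDiff_const.mul contDiff_snd)
  exact (h1.mul h2).div_const m

private theorem flga_ph_per {ω : ℝ} (hω : ω * H = Real.pi) {N : ℕ} {m : ℝ} (hmN : m = ω * N)
    (y z : ℝ) : ph m (y + 2 * H) z = ph m y z := by
  unfold ph
  rw [(flga_cos hω hmN y).1]

/-- Proof: `ContDiff` of `cos`, `cosh`, `arctan` (`Real.contDiff_arctan`), and periodicity of `cos`,
`sin` as in `FW.GG_weight` (`m (y + 2H) = m y + N (2π)`); in `PY` any `ε` works. -/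
theorem gF_PY {ω : ℝ} (hω : ω * H = Real.pi) {N : ℕ} {m : ℝ} (hmN : m = ω * N) (μ : ℝ) :
    PY H (gF m μ) := by
  refine ⟨?_, 1, one_pos, fun y z _ => ?_⟩
  · exact contDiff_const.sub (Real.contDiff_arctan.comp (contDiff_const.mul (flga_ph m)))
  · change Real.pi - Real.arctan (μ * ph m (y + 2 * H) z) = Real.pi - Real.arctan (μ * ph m y z)
    rw [flga_ph_per hω hmN]

theorem rF_PY {ω : ℝ} (hω : ω * H = Real.pi) {N : ℕ} {m : ℝ} (hmN : m = ω * N) (μ : ℝ) :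
    PY H (rF m μ) := by
  refine ⟨?_, 1, one_pos, fun y z _ => ?_⟩
  · have h1 : ContDiff ℝ ((⊤ : ℕ∞) : WithTop ℕ∞) fun p : ℝ × ℝ => Real.sinh (m * p.2) ^ 2 :=
      (Real.contDiff_sinh.comp (contDiff_const.mul contDiff_snd)).pow 2
    have h2 : ContDiff ℝ ((⊤ : ℕ∞) : WithTop ℕ∞) fun p : ℝ × ℝ => Real.sin (m * p.1) ^ 2 :=
      (Real.contDiff_sin.comp (contDiff_const.mul contDiff_fst)).pow 2
    have h3 : ContDiff ℝ ((⊤ : ℕ∞) : WithTop ℕ∞) fun p : ℝ × ℝ => 1 + (μ * ph m p.1 p.2) ^ 2 :=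
      contDiff_const.add ((contDiff_const.mul (flga_ph m)).pow 2)
    exact (h1.add h2).div h3 fun p => by positivity
  · change (Real.sinh (m * z) ^ 2 + Real.sin (m * (y + 2 * H)) ^ 2) / (1 + (μ * ph m (y + 2 * H) z) ^ 2) =
      (Real.sinh (m * z) ^ 2 + Real.sin (m * y) ^ 2) / (1 + (μ * ph m y z) ^ 2)
    rw [flga_ph_per hω hmN, (flga_cos hω hmN y).2]

private theorem flga_dy {F : ℝ × ℝ → ℝ} (hF : PY H F) (y z : ℝ) :
    HasDerivAt (fun y => F (y, z)) (pY F (y, z)) y := by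
  have h1 : HasFDerivAt F (fderiv ℝ F (y, z)) (y, z) :=
    (hF.smooth.differentiable (by norm_num) _).hasFDerivAt
  have h2 : HasDerivAt (fun y : ℝ => ((y, z) : ℝ × ℝ)) (1, 0) y :=
    (hasDerivAt_id y).prodMk (hasDerivAt_const y z)
  exact h1.comp_hasDerivAt y h2

private theorem flga_dz {F : ℝ × ℝ → ℝ} (hF : PY H F) (y z : ℝ) :
    HasDerivAt (fun z => F (y, z)) (pZ F (y, z)) z := by
  have h1 : HasFDerivAt F (fderiv ℝ F (y, z)) (y, z) :=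
    (hF.smooth.differentiable (by norm_num) _).hasFDerivAt
  have h2 : HasDerivAt (fun z : ℝ => ((y, z) : ℝ × ℝ)) (0, 1) z :=
    (hasDerivAt_const z y).prodMk (hasDerivAt_id z)
  exact h1.comp_hasDerivAt z h2

/-- The properties of the flush weight. Proof: `FW.GG_weight` gives functions `gy, gz, gyy, gzz` with
`HasDerivAt`, `HasDerivWithinAt` (on `Icc 0 H`) (structure `W2P`, FW/PhDef); `pY (gF m μ) (y,z) = gy y z`
etc. for `z ∈ [0,H]` by uniqueness of derivatives (`gF` is smooth by `gF_PY`). -/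
theorem gF_bd {ω : ℝ} (hω : ω * H = Real.pi) {N : ℕ} {m : ℝ} (hm : 0 < m) (hmN : m = ω * N) {μ : ℝ}
    (hμ : 0 < μ) (y : ℝ) {z : ℝ} (hz : z ∈ Icc (0:ℝ) H) :
    Real.pi / 2 ≤ gF m μ (y, z) ∧ gF m μ (y, z) ≤ 3 * Real.pi / 2 ∧
    |pY (gF m μ) (y, z)| ≤ μ * Real.cosh (m * z) ∧ |pZ (gF m μ) (y, z)| ≤ μ * Real.cosh (m * z) ∧
    pY (gF m μ) (y, z) ^ 2 + pZ (gF m μ) (y, z) ^ 2 ≤ μ ^ 2 * rF m μ (y, z) ∧
    ∀ a, pY (pY (gF m μ)) (y, z) + pZ (pZ (gF m μ)) (y, z) +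
      (-(a * Real.sin (m * y) * Real.cosh (m * z))) * pY (gF m μ) (y, z) +
      a * Real.cos (m * y) * Real.sinh (m * z) * pZ (gF m μ) (y, z) ≤ -(a * μ - μ ^ 2) * rF m μ (y, z) := by
  obtain ⟨gy, gz, gyy, gzz, hW, h1, h2, h3, h4⟩ := GG_weight (H := H) hm hω hmN hμ
  have hF : PY H (gF m μ) := gF_PY hω hmN μ
  have ey : ∀ y, ∀ z ∈ Icc (0:ℝ) H, pY (gF m μ) (y, z) = gy y z := fun y z hz =>
    (flga_dy hF y z).unique (hW.g1.dy y z hz)
  have hu : ∀ z ∈ Icc (0:ℝ) H, UniqueDiffWithinAt ℝ (Icc (0:ℝ) H) z := fun z hz =>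
    uniqueDiffOn_Icc hH.out z hz
  have ez : ∀ y, ∀ z ∈ Icc (0:ℝ) H, pZ (gF m μ) (y, z) = gz y z := fun y z hz =>
    (hu z hz).eq_deriv _ (flga_dz hF y z).hasDerivWithinAt (hW.g1.dz y z hz)
  have eyy : pY (pY (gF m μ)) (y, z) = gyy y z := by
    refine (flga_dy hF.pY y z).unique ?_
    have e : (fun y => pY (gF m μ) (y, z)) = fun y => gy y z := funext fun y => ey y z hz
    rw [e]
    exact hW.dyy y z hz
  have ezz : pZ (pZ (gF m μ)) (y, z) = gzz y z := by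
    refine (hu z hz).eq_deriv _ (flga_dz hF.pZ y z).hasDerivWithinAt ?_
    exact (hW.dzz y z hz).congr (fun z hz => ez y z hz) (ez y z hz)
  rw [eyy, ezz, ey y z hz, ez y z hz]
  exact ⟨(h1 y z).1, (h1 y z).2, (h2 y z).1, (h2 y z).2, h3 y z, fun a => h4 a y z⟩

theorem rF_nonneg (m μ : ℝ) (p : ℝ × ℝ) : 0 ≤ rF m μ p := by
  change 0 ≤ (Real.sinh (m * p.2) ^ 2 + Real.sin (m * p.1) ^ 2) / (1 + (μ * ph m p.1 p.2) ^ 2)
  positivity

end

end Pool.Agent.Lib.MP_79abb3_an.SC
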