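import Pool.Agent.Lib.MP_79abb3_an.SC.ApDef
import Pool.Agent.Lib.MP_79abb3_an.SC.FcD
import Pool.Agent.Lib.MP_79abb3_an.SC.FlGa

/-!
MP_79abb3_an, simply connected domains, block (iii): the cell flow as a family, transport of the weight.
-/

set_option autoImplicit false
set_option linter.unusedSectionVars false

open MeasureTheory Set Filter Topology Function
open scoped ENNReal InnerProductSpace

namespace Pool.Agent.Lib.MP_79abb3_an.SC

open Pool.Agent.Lib.MP_79abb3_an.P25 Pool.Agent.Lib.MP_79abb3_an.FW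

section
variable {H : ℝ} [hH : Fact (0 < H)]

private theorem flgb_per {ω : ℝ} (hω : ω * H = Real.pi) (n : ℤ) (y : ℝ) :
    ee ω n (y + 2 * H) = ee ω n y := by
  unfold ee
  rw [Complex.exp_eq_exp_iff_exists_int]
  refine ⟨n, ?_⟩
  have h1 : (ω : ℂ) * (H : ℂ) = (Real.pi : ℂ) := by
    rw [← Complex.ofReal_mul, hω]
  push_cast
  rw [← h1]
  ring

private theorem flgb_int {ω : ℝ} (hω : ω * H = Real.pi) (k : ℤ) :
    ∫ y in (-H)..H, ee ω k y = if k = 0 then (2 * H : ℂ) else 0 := by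
  have hH0 := hH.out
  by_cases hk : k = 0
  · rw [if_pos hk, hk]
    have h1 : ∀ y : ℝ, ee ω 0 y = 1 := by
      intro y
      unfold ee
      simp
    simp only [h1]
    rw [intervalIntegral.integral_const]
    simp
    ring
  · rw [if_neg hk]
    have hω0 : ω ≠ 0 := by
      rintro rfl
      rw [zero_mul] at hω
      exact Real.pi_ne_zero hω.symm
    have hc : Complex.I * ((ω * k : ℝ) : ℂ) ≠ 0 := by
      apply mul_ne_zero Complex.I_ne_zero
      rw [Complex.ofReal_ne_zero]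
      exact mul_ne_zero hω0 (by exact_mod_cast hk)
    have h1 : ∀ y : ℝ, ee ω k y = Complex.exp ((Complex.I * ((ω * k : ℝ) : ℂ)) * y) := by
      intro y
      unfold ee
      congr 1
      push_cast
      ring
    simp only [h1]
    rw [integral_exp_mul_complex hc]
    have h2 : Complex.exp (Complex.I * ((ω * k : ℝ) : ℂ) * ((H : ℝ) : ℂ)) =
        Complex.exp (Complex.I * ((ω * k : ℝ) : ℂ) * ((-H : ℝ) : ℂ)) := by
      rw [← h1 H, ← h1 (-H), ← flgb_per hω k (-H)]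
      congr 1
      ring
    rw [h2, sub_self, zero_div]

private theorem flgb_ee_add (ω : ℝ) (a b : ℤ) (y : ℝ) : ee ω (a + b) y = ee ω a y * ee ω b y := by
  unfold ee
  rw [← Complex.exp_add]
  congr 1
  push_cast
  ring

private theorem flgb_omega {ω : ℝ} (hω : ω * H = Real.pi) : Real.pi / H = ω := by
  rw [← hω]
  exact mul_div_cancel_right₀ ω hH.out.ne'

private theorem flgb_fco {ω : ℝ} (hω : ω * H = Real.pi) {F : ℝ × ℝ → ℝ} {a b : ℂ} {k l n : ℤ} {z : ℝ}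
    (h : ∀ y, ((F (y, z) : ℝ) : ℂ) = a * ee ω k y + b * ee ω l y) :
    fco H F n z = (if n = k then a else 0) + (if n = l then b else 0) := by
  have hH0 := hH.out
  have hH1 : (2 * H : ℂ) ≠ 0 := by
    have : (2 * H : ℝ) ≠ 0 := by positivity
    exact_mod_cast this
  have h1 : ∀ y, ((F (y, z) : ℝ) : ℂ) * star (ee (Real.pi / H) n y) =
      a * ee ω (k + -n) y + b * ee ω (l + -n) y := by
    intro y
    rw [h y, flgb_omega hω, ← fo_ee_neg, flgb_ee_add, flgb_ee_add]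
    ring
  rw [fco]
  simp only [h1]
  have i1 : IntervalIntegrable (fun y : ℝ => a * ee ω (k + -n) y) volume (-H) H :=
    (continuous_const.mul (fo_ee_continuous ω _)).intervalIntegrable _ _
  have i2 : IntervalIntegrable (fun y : ℝ => b * ee ω (l + -n) y) volume (-H) H :=
    (continuous_const.mul (fo_ee_continuous ω _)).intervalIntegrable _ _
  rw [intervalIntegral.integral_add i1 i2,
    intervalIntegral.integral_const_mul, intervalIntegral.integral_const_mul, flgb_int hω, flgb_int hω]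
  have e1 : (k + -n = 0) ↔ n = k := by omega
  have e2 : (l + -n = 0) ↔ n = l := by omega
  simp only [e1, e2]
  push_cast
  have g : ∀ (P Q : Prop) [Decidable P] [Decidable Q], (2 * (H : ℂ))⁻¹ *
      (a * (if P then 2 * (H : ℂ) else 0) + b * (if Q then 2 * (H : ℂ) else 0)) =
      (if P then a else 0) + (if Q then b else 0) := by
    intro P Q _ _
    have e : ∀ c : ℂ, (2 * (H : ℂ))⁻¹ * (c * (2 * (H : ℂ))) = c := fun c => by
      rw [mul_comm c, ← mul_assoc, inv_mul_cancel₀ hH1, one_mul]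
    rw [mul_add]
    congr 1
    · by_cases c1 : P
      · rw [if_pos c1, if_pos c1, e]
      · rw [if_neg c1, if_neg c1, mul_zero, mul_zero]
    · by_cases c2 : Q
      · rw [if_pos c2, if_pos c2, e]
      · rw [if_neg c2, if_neg c2, mul_zero, mul_zero]
  exact g _ _

private theorem flgb_cos (ω : ℝ) (N : ℕ) (y : ℝ) :
    ((Real.cos (ω * N * y) : ℝ) : ℂ) = (1 / 2) * ee ω N y + (1 / 2) * ee ω (-N) y := by
  rw [Complex.ofReal_cos, Complex.cos]
  unfold ee
  have h1 : ((ω * N * y : ℝ) : ℂ) * Complex.I = Complex.I * ((ω * ((N : ℤ) : ℝ) * y : ℝ) : ℂ) := by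
    push_cast; ring
  have h2 : -((ω * N * y : ℝ) : ℂ) * Complex.I = Complex.I * ((ω * ((-(N : ℤ) : ℤ) : ℝ) * y : ℝ) : ℂ) := by
    push_cast; ring
  rw [h1, h2]
  ring

private theorem flgb_sin (ω : ℝ) (N : ℕ) (y : ℝ) :
    ((Real.sin (ω * N * y) : ℝ) : ℂ) = (-(Complex.I / 2)) * ee ω N y + (Complex.I / 2) * ee ω (-N) y := by
  rw [Complex.ofReal_sin, Complex.sin]
  unfold ee
  have h1 : ((ω * N * y : ℝ) : ℂ) * Complex.I = Complex.I * ((ω * ((N : ℤ) : ℝ) * y : ℝ) : ℂ) := by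
    push_cast; ring
  have h2 : -((ω * N * y : ℝ) : ℂ) * Complex.I = Complex.I * ((ω * ((-(N : ℤ) : ℤ) : ℝ) * y : ℝ) : ℂ) := by
    push_cast; ring
  rw [h1, h2]
  ring

/-- The Fourier coefficients of the cell flow. Proof: `fco` of `sin`, `cos` times a function of `z`:
`ee`-orthogonality on `[-H,H]` (`integral_ee...` in P25, or `fam_z`-type computation), `sN`. -/
theorem fam_cellV {ω : ℝ} (hω : ω * H = Real.pi) {N : ℕ} (hN : 1 ≤ N) (α : ℝ) (n : ℤ) :
    (fam (fun p => -(α * Real.sin (ω * N * p.1) * Real.cosh (ω * N * p.2))) n : CI H) =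
      cellV (ω * N) N α n := by
  have hc : Continuous (fun p : ℝ × ℝ => -(α * Real.sin (ω * N * p.1) * Real.cosh (ω * N * p.2))) := by
    fun_prop
  refine ci_ext fun z hz => ?_
  rw [ex_fam hc n hz]
  unfold cellV
  rw [ex_smul, ex_rc _ _ hz]
  have h1 : ∀ y, (((fun p : ℝ × ℝ => -(α * Real.sin (ω * N * p.1) * Real.cosh (ω * N * p.2))) (y, z) : ℝ) : ℂ) =
      (Complex.I * ((α / 2 : ℝ) : ℂ) * ((Real.cosh (ω * N * z) : ℝ) : ℂ)) * ee ω N y +
      (-(Complex.I * ((α / 2 : ℝ) : ℂ) * ((Real.cosh (ω * N * z) : ℝ) : ℂ))) * ee ω (-N) y := by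
    intro y
    show ((-(α * Real.sin (ω * N * y) * Real.cosh (ω * N * z)) : ℝ) : ℂ) = _
    rw [Complex.ofReal_neg, Complex.ofReal_mul, Complex.ofReal_mul, flgb_sin ω N y]
    push_cast
    ring
  rw [flgb_fco hω h1]
  unfold sN
  have hN' : (1:ℤ) ≤ (N : ℤ) := by exact_mod_cast hN
  by_cases c1 : n = (N : ℤ)
  · have c2 : ¬ n = -(N : ℤ) := by omega
    rw [if_pos c1, if_neg c2, if_pos c1]
    push_cast
    ring
  · rw [if_neg c1, if_neg c1]
    by_cases c2 : n = -(N : ℤ)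
    · rw [if_pos c2, if_pos c2]
      push_cast
      ring
    · rw [if_neg c2, if_neg c2]
      push_cast
      ring

theorem fam_cellW {ω : ℝ} (hω : ω * H = Real.pi) {N : ℕ} (hN : 1 ≤ N) (α : ℝ) (n : ℤ) :
    (fam (fun p => α * Real.cos (ω * N * p.1) * Real.sinh (ω * N * p.2)) n : CI H) =
      cellW (ω * N) N α n := by
  have hc : Continuous (fun p : ℝ × ℝ => α * Real.cos (ω * N * p.1) * Real.sinh (ω * N * p.2)) := by
    fun_prop
  refine ci_ext fun z hz => ?_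
  rw [ex_fam hc n hz]
  unfold cellW
  rw [ex_smul, ex_rc _ _ hz]
  have h1 : ∀ y, (((fun p : ℝ × ℝ => α * Real.cos (ω * N * p.1) * Real.sinh (ω * N * p.2)) (y, z) : ℝ) : ℂ) =
      (((α / 2 : ℝ) : ℂ) * ((Real.sinh (ω * N * z) : ℝ) : ℂ)) * ee ω N y +
      (((α / 2 : ℝ) : ℂ) * ((Real.sinh (ω * N * z) : ℝ) : ℂ)) * ee ω (-N) y := by
    intro y
    show ((α * Real.cos (ω * N * y) * Real.sinh (ω * N * z) : ℝ) : ℂ) = _
    rw [Complex.ofReal_mul, Complex.ofReal_mul, flgb_cos ω N y]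
    push_cast
    ring
  rw [flgb_fco hω h1]
  unfold sN
  have hN' : (1:ℤ) ≤ (N : ℤ) := by exact_mod_cast hN
  by_cases c1 : n = (N : ℤ)
  · have c2 : ¬ n = -(N : ℤ) := by omega
    rw [if_pos c1, if_neg c2, if_pos c1, abs_one]
    push_cast
    ring
  · rw [if_neg c1, if_neg c1]
    by_cases c2 : n = -(N : ℤ)
    · rw [if_pos c2, if_pos c2, abs_neg, abs_one]
      push_cast
      ring
    · rw [if_neg c2, if_neg c2, abs_zero]
      push_cast
      ring

theorem cellV_PY {ω : ℝ} (hω : ω * H = Real.pi) (N : ℕ) (α : ℝ) :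
    PY H (fun p => -(α * Real.sin (ω * N * p.1) * Real.cosh (ω * N * p.2))) := by
  have h1 := PY.sin hω (N : ℤ)
  have h2 : PY H (fun p => Real.cosh (ω * N * p.2)) :=
    PY.of_z H (g := fun z => Real.cosh (ω * N * z))
      (Real.contDiff_cosh.comp (contDiff_const.mul contDiff_id))
  have h3 := (((PY.const H α).mul h1).mul h2).neg
  simp only [Int.cast_natCast] at h3
  exact h3

theorem cellW_PY {ω : ℝ} (hω : ω * H = Real.pi) (N : ℕ) (α : ℝ) :
    PY H (fun p => α * Real.cos (ω * N * p.1) * Real.sinh (ω * N * p.2)) := by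
  have h1 := PY.cos hω (N : ℤ)
  have h2 : PY H (fun p => Real.sinh (ω * N * p.2)) :=
    PY.of_z H (g := fun z => Real.sinh (ω * N * z))
      (Real.contDiff_sinh.comp (contDiff_const.mul contDiff_id))
  have h3 := ((PY.const H α).mul h1).mul h2
  simp only [Int.cast_natCast] at h3
  exact h3

/-- Transport of a weight `F` by the cell flow. Proof: `pz q (cellV ..) = cm (fam U_v) q` (`cm_pz`,
`fam_cellV`), `inner_dp`, `inner_cm_fam`, `cm_fam_mul`, `cm_fam_add`. -/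
theorem dp_cell {ω : ℝ} (hω : ω * H = Real.pi) {N : ℕ} (hN : 1 ≤ N) (α : ℝ) {F : ℝ × ℝ → ℝ}
    (hF : PY H F) (q : HH H) :
    dp (cm (fam (pY F)) q) (pz q (cellV (ω * N) N α)) +
      dp (cm (fam (pZ F)) q) (pz q (cellW (ω * N) N α)) =
    ⟪cm (fam fun p => -(α * Real.sin (ω * N * p.1) * Real.cosh (ω * N * p.2)) * pY F p +
      α * Real.cos (ω * N * p.1) * Real.sinh (ω * N * p.2) * pZ F p) q, q⟫_ℂ := by
  have hV := cellV_PY hω N α
  have hW := cellW_PY hω N α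
  have eV : (fam (fun p => -(α * Real.sin (ω * N * p.1) * Real.cosh (ω * N * p.2))) : ℤ → CI H) =
      cellV (ω * N) N α := funext fun n => fam_cellV hω hN α n
  have eW : (fam (fun p => α * Real.cos (ω * N * p.1) * Real.sinh (ω * N * p.2)) : ℤ → CI H) =
      cellW (ω * N) N α := funext fun n => fam_cellW hω hN α n
  have key : ∀ {U G : ℝ × ℝ → ℝ}, PY H U → PY H G →
      dp (cm (fam G) q) (pz q (fam U)) = ⟪cm (fam fun p => U p * G p) q, q⟫_ℂ := by
    intro U G hU hG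
    rw [← cm_pz (fam_s0 hU) q, ← inner_dp, ← inner_cm_fam hU, cm_fam_mul hU hG]
  rw [← eV, ← eW, key hV hF.pY, key hW hF.pZ, ← inner_add_left,
    ← cm_fam_add (hV.mul hF.pY) (hW.mul hF.pZ)]

/-- **Elliptic and cell terms of the flush identity.** Proof: `dp_cell`, `cm_fam_add`, `cm_fam_mono` with
`gF_bd`. (`⟪F q, q⟫ = ⟪q, F q⟫` by `inner_cm_fam`.) -/
theorem flush_cell {ω : ℝ} (hω : ω * H = Real.pi) (h0 : 0 < ω) {N : ℕ} (hN : 1 ≤ N) (α : ℝ) {μ : ℝ}
    (hμ : 0 < μ) (q : HH H) :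
    (⟪cm (fam (pY (pY (gF (ω * N) μ)))) q, q⟫_ℂ).re + (⟪cm (fam (pZ (pZ (gF (ω * N) μ)))) q, q⟫_ℂ).re +
      (dp (cm (fam (pY (gF (ω * N) μ))) q) (pz q (cellV (ω * N) N α)) +
        dp (cm (fam (pZ (gF (ω * N) μ))) q) (pz q (cellW (ω * N) N α))).re ≤
    -(α * μ - μ ^ 2) * (⟪cm (fam (rF (ω * N) μ)) q, q⟫_ℂ).re := by
  have hNr : (1:ℝ) ≤ (N : ℝ) := by exact_mod_cast hN
  have hm : 0 < ω * N := mul_pos h0 (by linarith)
  have hG : PY H (gF (ω * N) μ) := gF_PY hω rfl μ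
  have hR : PY H (rF (ω * N) μ) := rF_PY hω rfl μ
  have hV := cellV_PY hω N α
  have hW := cellW_PY hω N α
  rw [dp_cell hω hN α hG q]
  have hS := (hV.mul hG.pY).add (hW.mul hG.pZ)
  have hL := (hG.pY.pY.add hG.pZ.pZ).add hS
  have hQ := (PY.const H (-(α * μ - μ ^ 2))).mul hR
  have h1 : (⟪q, cm (fam (pY (pY (gF (ω * N) μ)))) q⟫_ℂ).re + (⟪q, cm (fam (pZ (pZ (gF (ω * N) μ)))) q⟫_ℂ).re +
      (⟪q, cm (fam fun p => -(α * Real.sin (ω * N * p.1) * Real.cosh (ω * N * p.2)) * pY (gF (ω * N) μ) p +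
        α * Real.cos (ω * N * p.1) * Real.sinh (ω * N * p.2) * pZ (gF (ω * N) μ) p) q⟫_ℂ).re ≤
      (⟪q, cm (fam fun p => -(α * μ - μ ^ 2) * rF (ω * N) μ p) q⟫_ℂ).re := by
    have h2 := cm_fam_mono hL hQ (fun y _ z hz => ?_) q
    · rw [cm_fam_add (hG.pY.pY.add hG.pZ.pZ) hS, cm_fam_add hG.pY.pY hG.pZ.pZ, inner_add_right,
        inner_add_right, Complex.add_re, Complex.add_re] at h2
      exact h2
    · have h3 := (gF_bd hω hm rfl hμ y hz).2.2.2.2.2 α
      have h4 : pY (pY (gF (ω * N) μ)) (y, z) + pZ (pZ (gF (ω * N) μ)) (y, z) +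
          (-(α * Real.sin (ω * N * y) * Real.cosh (ω * N * z)) * pY (gF (ω * N) μ) (y, z) +
          α * Real.cos (ω * N * y) * Real.sinh (ω * N * z) * pZ (gF (ω * N) μ) (y, z)) ≤
          -(α * μ - μ ^ 2) * rF (ω * N) μ (y, z) := by
        rw [← add_assoc]
        exact h3
      exact h4
  have h5 : (⟪q, cm (fam fun p => -(α * μ - μ ^ 2) * rF (ω * N) μ p) q⟫_ℂ).re =
      -(α * μ - μ ^ 2) * (⟪q, cm (fam (rF (ω * N) μ)) q⟫_ℂ).re := by
    rw [← cm_fam_mul (PY.const H (-(α * μ - μ ^ 2))) hR, cm_fam_const, inner_smul_right,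
      Complex.re_ofReal_mul]
  rw [h5] at h1
  rw [inner_cm_fam hG.pY.pY, inner_cm_fam hG.pZ.pZ, inner_cm_fam hS, inner_cm_fam hR]
  exact h1

/-- `|F_y q|² + |F_z q|² ≤ μ² ⟨ρ q, q⟩`. Proof: `‖cm (fam G) q‖² = ⟪q, G² q⟫` (`cm_fam_sq`),
`cm_fam_add`, `cm_fam_mono`. -/
theorem grad_rho {ω : ℝ} (hω : ω * H = Real.pi) (h0 : 0 < ω) {N : ℕ} (hN : 1 ≤ N) {μ : ℝ}
    (hμ : 0 < μ) (q : HH H) :
    ‖cm (fam (pY (gF (ω * N) μ))) q‖ ^ 2 + ‖cm (fam (pZ (gF (ω * N) μ))) q‖ ^ 2 ≤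
      μ ^ 2 * (⟪cm (fam (rF (ω * N) μ)) q, q⟫_ℂ).re := by
  have hNr : (1:ℝ) ≤ (N : ℝ) := by exact_mod_cast hN
  have hm : 0 < ω * N := mul_pos h0 (by linarith)
  have hG : PY H (gF (ω * N) μ) := gF_PY hω rfl μ
  have hR : PY H (rF (ω * N) μ) := rF_PY hω rfl μ
  have h2 := cm_fam_mono ((hG.pY.mul hG.pY).add (hG.pZ.mul hG.pZ)) ((PY.const H (μ ^ 2)).mul hR)
    (fun y _ z hz => by
      have h3 := (gF_bd hω hm rfl hμ y hz).2.2.2.2.1
      rw [sq, sq] at h3
      exact h3) q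
  rw [cm_fam_add (hG.pY.mul hG.pY) (hG.pZ.mul hG.pZ), inner_add_right, Complex.add_re,
    cm_fam_sq hG.pY, cm_fam_sq hG.pZ, ← cm_fam_mul (PY.const H (μ ^ 2)) hR, cm_fam_const,
    inner_smul_right, Complex.re_ofReal_mul] at h2
  rw [inner_cm_fam hR]
  exact h2

end

end Pool.Agent.Lib.MP_79abb3_an.SC
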