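import Pool.Agent.Lib.MP_79abb3_an.SC.ChCov

/-!
Theorem C, stage for `L²` data, the data, part e: the inversion in the unit circle.
-/

set_option autoImplicit false
set_option linter.unusedSectionVars false

open MeasureTheory Set Filter Topology Function
open scoped ENNReal ComplexConjugate

namespace Pool.Agent.Lib.MP_79abb3_an.SC

/-- The inversion in the unit circle. -/
noncomputable def cinv (ξ : ℂ) : ℂ := (conj ξ)⁻¹

theorem cinv_cinv (ξ : ℂ) : cinv (cinv ξ) = ξ := by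
  rw [cinv, cinv, map_inv₀, Complex.conj_conj, inv_inv]

theorem norm_cinv (ξ : ℂ) : ‖cinv ξ‖ = ‖ξ‖⁻¹ := by
  rw [cinv, norm_inv, RCLike.norm_conj]

/-- Derivative of the inversion. -/
noncomputable def cinvD (ξ : ℂ) : ℂ →L[ℝ] ℂ :=
  (ContinuousLinearMap.mul ℝ ℂ (-((conj ξ) ^ 2)⁻¹)).comp (Complex.conjCLE : ℂ →L[ℝ] ℂ)

theorem cinv_hasFDerivAt {ξ : ℂ} (h : ξ ≠ 0) : HasFDerivAt cinv (cinvD ξ) ξ := by
  have h0 : conj ξ ≠ 0 := by rwa [Ne, map_eq_zero]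
  have h1 : HasFDerivAt (fun z : ℂ => z⁻¹) ((ContinuousLinearMap.toSpanSingleton ℂ
      (-((conj ξ) ^ 2)⁻¹)).restrictScalars ℝ) (conj ξ) :=
    (hasDerivAt_inv h0).hasFDerivAt.restrictScalars ℝ
  have h2 : HasFDerivAt (fun z : ℂ => conj z) (Complex.conjCLE : ℂ →L[ℝ] ℂ) ξ :=
    Complex.conjCLE.hasFDerivAt
  have h3 := h1.comp ξ h2
  have h4 : ((ContinuousLinearMap.toSpanSingleton ℂ (-((conj ξ) ^ 2)⁻¹)).restrictScalars ℝ).comp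
      (Complex.conjCLE : ℂ →L[ℝ] ℂ) = cinvD ξ := by
    refine ContinuousLinearMap.ext fun v => ?_
    rw [cinvD]
    simp [mul_comm]
  rw [h4] at h3
  exact h3

theorem cinv_contDiffAt {ξ : ℂ} (h : ξ ≠ 0) : ContDiffAt ℝ ((⊤ : ℕ∞) : WithTop ℕ∞) cinv ξ := by
  have h0 : conj ξ ≠ 0 := by rwa [Ne, map_eq_zero]
  have h1 : ContDiffAt ℝ ((⊤ : ℕ∞) : WithTop ℕ∞) (fun z : ℂ => z⁻¹) (conj ξ) :=
    (contDiffAt_inv ℂ h0).restrict_scalars ℝ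
  exact h1.comp ξ Complex.conjCLE.contDiff.contDiffAt

theorem cinvD_norm_le {ξ : ℂ} (h : 1 ≤ ‖ξ‖) : ‖cinvD ξ‖ ≤ 1 := by
  refine ContinuousLinearMap.opNorm_le_bound _ zero_le_one fun v => ?_
  rw [one_mul]
  show ‖-((conj ξ) ^ 2)⁻¹ * conj v‖ ≤ ‖v‖
  rw [norm_mul, norm_neg, norm_inv, norm_pow, RCLike.norm_conj, RCLike.norm_conj]
  have h1 : (‖ξ‖ ^ 2)⁻¹ ≤ 1 := inv_le_one_of_one_le₀ (one_le_pow₀ h)
  calc (‖ξ‖ ^ 2)⁻¹ * ‖v‖ ≤ 1 * ‖v‖ := mul_le_mul_of_nonneg_right h1 (norm_nonneg _)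
    _ = ‖v‖ := one_mul _

theorem cinvD_det (ξ : ℂ) : |(cinvD ξ).det| = (‖ξ‖ ^ 4)⁻¹ := by
  have h1 : (cinvD ξ).det = (ContinuousLinearMap.mul ℝ ℂ (-((conj ξ) ^ 2)⁻¹)).det *
      (Complex.conjCLE : ℂ →L[ℝ] ℂ).det := by
    rw [ContinuousLinearMap.det, ContinuousLinearMap.det, ContinuousLinearMap.det, ← LinearMap.det_comp]
    rfl
  have h2 : (Complex.conjCLE : ℂ →L[ℝ] ℂ).det = -1 := by
    rw [ContinuousLinearMap.det]
    exact Complex.det_conjAe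
  rw [h1, h2, det_mul_c, mul_neg, mul_one, abs_neg, abs_of_nonneg (by positivity), norm_neg, norm_inv,
    norm_pow, RCLike.norm_conj]
  rw [← inv_pow, ← inv_pow, ← pow_mul]

/-- **Change of variables** for the inversion. -/
theorem cinv_lint {R : ℝ} (hR : 0 < R) (g : ℂ → ℝ≥0∞) :
    ∫⁻ ξ in {ξ : ℂ | 1 < ‖ξ‖ ∧ ‖ξ‖ < R}, g (cinv ξ) ≤
      ENNReal.ofReal (R ^ 4) * ∫⁻ x in Metric.ball 0 1, g x := by
  set A : Set ℂ := {ξ : ℂ | 1 < ‖ξ‖ ∧ ‖ξ‖ < R} with hA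
  have hAm : MeasurableSet A := ((isOpen_lt continuous_const continuous_norm).inter
    (isOpen_lt continuous_norm continuous_const)).measurableSet
  have hinj : InjOn cinv A := fun x _ y _ h => by
    rw [← cinv_cinv x, h, cinv_cinv]
  have h0 : ∀ ξ ∈ A, ξ ≠ 0 := fun ξ hξ h => by
    have h1 := hξ.1
    rw [h, norm_zero] at h1
    linarith
  have h1 := lintegral_image_eq_lintegral_abs_det_fderiv_mul volume hAm
    (fun ξ hξ => (cinv_hasFDerivAt (h0 ξ hξ)).hasFDerivWithinAt) hinj g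
  have h2 : ∫⁻ ξ in A, g (cinv ξ) ≤
      ∫⁻ ξ in A, ENNReal.ofReal (R ^ 4) * (ENNReal.ofReal |(cinvD ξ).det| * g (cinv ξ)) := by
    refine setLIntegral_mono' hAm fun ξ hξ => ?_
    rw [← mul_assoc, ← ENNReal.ofReal_mul (by positivity), cinvD_det]
    have h3 : 1 ≤ R ^ 4 * (‖ξ‖ ^ 4)⁻¹ := by
      have h4 : 0 < ‖ξ‖ := by linarith [hξ.1]
      have h5 : ‖ξ‖ ^ 4 ≤ R ^ 4 := pow_le_pow_left₀ h4.le hξ.2.le 4
      rw [← div_eq_mul_inv, one_le_div (by positivity)]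
      exact h5
    have h4 : (1 : ℝ≥0∞) ≤ ENNReal.ofReal (R ^ 4 * (‖ξ‖ ^ 4)⁻¹) := by
      rw [← ENNReal.ofReal_one]
      exact ENNReal.ofReal_le_ofReal h3
    calc g (cinv ξ) = 1 * g (cinv ξ) := (one_mul _).symm
      _ ≤ _ := mul_le_mul_left h4 _
  refine h2.trans ?_
  rw [lintegral_const_mul' _ _ ENNReal.ofReal_ne_top, ← h1]
  refine mul_le_mul_right (lintegral_mono_set ?_) _
  rintro _ ⟨ξ, hξ, rfl⟩
  rw [mem_ball_zero_iff, norm_cinv]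
  exact inv_lt_one_of_one_lt₀ hξ.1

/-- Derivative of a composition with the inversion. -/
theorem comp_cinv {φ : ℂ → ℝ} (hφ : Differentiable ℝ φ) {ξ : ℂ} (h : ξ ≠ 0) :
    HasFDerivAt (fun ξ => φ (cinv ξ)) ((fderiv ℝ φ (cinv ξ)).comp (cinvD ξ)) ξ :=
  (hφ _).hasFDerivAt.comp ξ (cinv_hasFDerivAt h)

/-- The energy of the reflected function. -/
theorem energy_cinv {φ : ℂ → ℝ} (hφ : Differentiable ℝ φ) {R : ℝ} (hR : 0 < R) :
    ∫⁻ ξ in {ξ : ℂ | 1 < ‖ξ‖ ∧ ‖ξ‖ < R}, ‖fderiv ℝ (fun ξ => φ (cinv ξ)) ξ‖ₑ ^ 2 ≤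
      ENNReal.ofReal (R ^ 4) * ∫⁻ x in Metric.ball 0 1, ‖fderiv ℝ φ x‖ₑ ^ 2 := by
  refine le_trans ?_ (cinv_lint hR fun x => ‖fderiv ℝ φ x‖ₑ ^ 2)
  have hAm : MeasurableSet {ξ : ℂ | 1 < ‖ξ‖ ∧ ‖ξ‖ < R} :=
    ((isOpen_lt continuous_const continuous_norm).inter
      (isOpen_lt continuous_norm continuous_const)).measurableSet
  refine setLIntegral_mono' hAm fun ξ hξ => pow_le_pow_left' ?_ 2
  have h0 : ξ ≠ 0 := fun h => by
    have h1 := hξ.1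
    rw [h, norm_zero] at h1
    linarith
  rw [(comp_cinv hφ h0).fderiv, ← ofReal_norm, ← ofReal_norm]
  refine ENNReal.ofReal_le_ofReal ((ContinuousLinearMap.opNorm_comp_le _ _).trans ?_)
  calc ‖fderiv ℝ φ (cinv ξ)‖ * ‖cinvD ξ‖ ≤ ‖fderiv ℝ φ (cinv ξ)‖ * 1 :=
        mul_le_mul_of_nonneg_left (cinvD_norm_le hξ.1.le) (norm_nonneg _)
    _ = _ := mul_one _

end Pool.Agent.Lib.MP_79abb3_an.SC
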