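import Pool.Agent.Lib.MP_79abb3_an.SC.ChFinB

/-!
Theorem C (MP_79abb3_an), block (v): bounds by duality, Cauchy-Schwarz in time and space.
-/

set_option autoImplicit false
set_option linter.unusedSectionVars false
set_option linter.unusedSimpArgs false

open MeasureTheory Set Filter Topology Function
open scoped RealInnerProductSpace ComplexConjugate

namespace Pool.Agent.Lib.MP_79abb3_an.SC

/-- Cauchy-Schwarz with the constant function. -/
theorem cs_one {X : Type*} [MeasurableSpace X] {ν : Measure X} [IsFiniteMeasure ν] {s : X → ℝ}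
    (hs : MemLp s 2 ν) : ∫ x, s x ∂ν ≤ √(ν.real univ) * √(∫ x, s x ^ 2 ∂ν) := by
  have i1 : Integrable s ν := hs.integrable (by norm_num)
  have i2 : Integrable (fun x => s x ^ 2) ν := hs.integrable_sq
  set m := ν.real univ with hm
  have hm0 : 0 ≤ m := measureReal_nonneg
  rcases hm0.eq_or_lt with h0 | h0
  · have h1 : ν = 0 := by
      have h2 : ν.real univ = 0 := h0.symm
      rw [measureReal_def, ENNReal.toReal_eq_zero_iff] at h2
      rcases h2 with h2 | h2
      · exact Measure.measure_univ_eq_zero.1 h2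
      · exact absurd h2 (measure_ne_top ν univ)
    subst h1
    simp
  · set S := ∫ x, s x ∂ν with hS
    set I := ∫ x, s x ^ 2 ∂ν with hI
    have h1 : 0 ≤ ∫ x, (s x - S / m) ^ 2 ∂ν := integral_nonneg fun x => by positivity
    have h2 : ∫ x, (s x - S / m) ^ 2 ∂ν = I - S ^ 2 / m := by
      have h3 : ∀ x, (s x - S / m) ^ 2 = s x ^ 2 - 2 * (S / m) * s x + (S / m) ^ 2 := fun x => by ring
      have i3 : Integrable (fun x => 2 * (S / m) * s x) ν := i1.const_mul _
      have i4 : Integrable (fun x => s x ^ 2 - 2 * (S / m) * s x) ν := i2.sub i3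
      simp only [h3]
      rw [integral_add i4 (integrable_const _), integral_sub i2 i3, integral_const_mul, integral_const,
        ← hS, ← hI, smul_eq_mul, ← hm]
      field_simp
      ring
    have h4 : S ^ 2 ≤ m * I := by
      rw [h2, sub_nonneg, div_le_iff₀ h0] at h1
      linarith
    calc S ≤ |S| := le_abs_self S
      _ = √(S ^ 2) := (Real.sqrt_sq_eq_abs S).symm
      _ ≤ √(m * I) := Real.sqrt_le_sqrt h4
      _ = √m * √I := Real.sqrt_mul hm0 I

section
variable {T H h : ℝ}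

/-- Continuity of `t ↦ ∫ φ(t,·)²`. -/
theorem cont_sq {φ : ℝ × (ℝ × ℝ) → ℝ} (hφ : IsTs T H h φ) : Continuous fun t => ∫ q, φ (t, q) ^ 2 := by
  rw [← continuousOn_univ]
  refine continuousOn_integral_of_compact_support (k := Prod.snd '' tsupport φ)
    (hφ.cpt.isCompact.image continuous_snd) ?_ ?_
  · have : Continuous (uncurry fun t q => φ (t, q) ^ 2) := by
      have h1 := hφ.smooth.continuous
      have h2 : (uncurry fun t q => φ (t, q) ^ 2) = fun p => φ p ^ 2 := rfl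
      rw [h2]
      exact h1.pow 2
    exact this.continuousOn
  · intro t q _ hq
    rw [image_eq_zero_of_notMem_tsupport fun hm => hq ⟨_, hm, rfl⟩]
    norm_num

theorem sq_zero {φ : ℝ × (ℝ × ℝ) → ℝ} (hφ : IsTs T H h φ) {t : ℝ} (ht : t ∉ Ioo 0 T) :
    ∫ q, φ (t, q) ^ 2 = 0 := by
  have h1 : ∀ q, φ (t, q) = 0 := fun q => image_eq_zero_of_notMem_tsupport fun hm => ht (hφ.supp hm).1
  simp [h1]

theorem time_bound (hT : 0 ≤ T) {f : ℝ → ℝ × ℝ → ℝ}
    (hf : ContinuousOn (uncurry f) (Ioc 0 T ×ˢ (univ ×ˢ Icc 0 h))) {φ X : ℝ × (ℝ × ℝ) → ℝ}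
    (hφ : IsTs T H h φ) (hX : IsTs T H h X) {C : ℝ} (hC : 0 ≤ C)
    (hb : ∀ t ∈ Ioo 0 T, |∫ q, f t q * X (t, q)| ≤ C * √(∫ q, φ (t, q) ^ 2)) :
    |∫ p, f p.1 p.2 * X p| ≤ C * √T * √(∫ p, φ p ^ 2) := by
  have i0 := integrable_ts hf hX
  have h1 : ∫ p, f p.1 p.2 * X p = ∫ t, ∫ q, f t q * X (t, q) := integral_prod _ i0
  have i1 : Integrable fun p => φ p ^ 2 := integrable_sq hφ.smooth.continuous hφ.cpt
  have h2 : ∫ p, φ p ^ 2 = ∫ t, ∫ q, φ (t, q) ^ 2 := integral_prod _ i1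
  have hcm : Continuous fun t => √(∫ q, φ (t, q) ^ 2) := (cont_sq hφ).sqrt
  have hcs : HasCompactSupport fun t => √(∫ q, φ (t, q) ^ 2) := by
    refine HasCompactSupport.intro (isCompact_Icc (a := (0:ℝ)) (b := T)) fun t ht => ?_
    rw [sq_zero hφ fun h => ht (Ioo_subset_Icc_self h), Real.sqrt_zero]
  have h3 : ‖∫ t, ∫ q, f t q * X (t, q)‖ ≤ ∫ t, C * √(∫ q, φ (t, q) ^ 2) := by
    refine norm_integral_le_of_norm_le ((hcm.integrable_of_hasCompactSupport hcs).const_mul C)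
      (Eventually.of_forall fun t => ?_)
    by_cases ht : t ∈ Ioo 0 T
    · exact hb t ht
    · have h4 : ∀ q, X (t, q) = 0 := fun q =>
        image_eq_zero_of_notMem_tsupport fun hm => ht (hX.supp hm).1
      simp only [h4, mul_zero, integral_zero, norm_zero]
      positivity
  have h4 : ∫ t, √(∫ q, φ (t, q) ^ 2) ≤ √T * √(∫ p, φ p ^ 2) := by
    have h5 : ∫ t, √(∫ q, φ (t, q) ^ 2) = ∫ t in Icc 0 T, √(∫ q, φ (t, q) ^ 2) := by
      refine (setIntegral_eq_integral_of_forall_compl_eq_zero fun t ht => ?_).symm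
      rw [sq_zero hφ fun h => ht (Ioo_subset_Icc_self h), Real.sqrt_zero]
    have h6 : ∫ t, ∫ q, φ (t, q) ^ 2 = ∫ t in Icc 0 T, √(∫ q, φ (t, q) ^ 2) ^ 2 := by
      have h7 : ∀ t, √(∫ q, φ (t, q) ^ 2) ^ 2 = ∫ q, φ (t, q) ^ 2 := fun t =>
        Real.sq_sqrt (integral_nonneg fun q => by positivity)
      simp only [h7]
      refine (setIntegral_eq_integral_of_forall_compl_eq_zero fun t ht => ?_).symm
      rw [sq_zero hφ fun h => ht (Ioo_subset_Icc_self h)]
    have h8 : MemLp (fun t => √(∫ q, φ (t, q) ^ 2)) 2 (volume.restrict (Icc 0 T)) :=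
      (hcm.memLp_of_hasCompactSupport (μ := (volume : Measure ℝ)) hcs).restrict _
    have h9 := cs_one h8
    rw [h5, h2, h6]
    have h10 : (volume.restrict (Icc 0 T)).real univ = T := by
      rw [measureReal_restrict_apply MeasurableSet.univ, univ_inter, Real.volume_real_Icc, sub_zero,
        max_eq_left hT]
    rwa [h10] at h9
  rw [integral_const_mul] at h3
  rw [h1]
  calc _ ≤ _ := h3
    _ ≤ C * (√T * √(∫ p, φ p ^ 2)) := by gcongr
    _ = _ := by ring

/-- Cauchy-Schwarz on the cell. -/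
theorem cs_cell {f : ℝ × ℝ → ℝ} (_hf : ContinuousOn f (univ ×ˢ Icc 0 h)) {M : ℝ}
    (hM : ∀ q ∈ (Icc (-H) H ×ˢ Icc 0 h : Set (ℝ × ℝ)), |f q| ≤ M) {g : ℝ × ℝ → ℝ} (hg : IsTg H h g) :
    |∫ q, f q * g q| ≤ |M| * √((volume : Measure (ℝ × ℝ)).real (Icc (-H) H ×ˢ Icc 0 h)) *
      √(∫ q, g q ^ 2) := by
  set K : Set (ℝ × ℝ) := Icc (-H) H ×ˢ Icc 0 h with hK
  have hKc : IsCompact K := isCompact_Icc.prod isCompact_Icc
  have : IsFiniteMeasure (volume.restrict K) :=
    ⟨by rw [Measure.restrict_apply_univ]; exact hKc.measure_lt_top⟩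
  have hz : ∀ q, q ∉ K → g q = 0 := fun q hq => image_eq_zero_of_notMem_tsupport fun hm => by
    have := hg.supp hm
    exact hq ⟨⟨this.1.1.le, this.1.2.le⟩, this.2.1.le, this.2.2.le⟩
  have hgm : MemLp (fun q => |g q|) 2 (volume.restrict K) :=
    ((hg.smooth.continuous.memLp_of_hasCompactSupport (μ := (volume : Measure (ℝ × ℝ))) hg.cpt).restrict
      _).abs
  have h1 : ∫ q, f q * g q = ∫ q in K, f q * g q :=
    (setIntegral_eq_integral_of_forall_compl_eq_zero fun q hq => by rw [hz q hq, mul_zero]).symm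
  have h2 : ∫ q, g q ^ 2 = ∫ q in K, |g q| ^ 2 := by
    simp only [sq_abs]
    exact (setIntegral_eq_integral_of_forall_compl_eq_zero fun q hq => by
      rw [hz q hq]; norm_num).symm
  have h3 : ‖∫ q in K, f q * g q‖ ≤ ∫ q in K, |M| * |g q| := by
    refine norm_integral_le_of_norm_le ((hgm.integrable (by norm_num)).const_mul _) ?_
    rw [ae_restrict_iff' hKc.measurableSet]
    refine Eventually.of_forall fun q hq => ?_
    rw [norm_mul, Real.norm_eq_abs, Real.norm_eq_abs]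
    exact mul_le_mul_of_nonneg_right ((hM q hq).trans (le_abs_self M)) (abs_nonneg _)
  have h4 := cs_one hgm
  rw [measureReal_restrict_apply MeasurableSet.univ, univ_inter] at h4
  rw [integral_const_mul] at h3
  rw [h1, h2]
  calc _ ≤ _ := h3
    _ ≤ |M| * (√((volume : Measure (ℝ × ℝ)).real K) * √(∫ q in K, |g q| ^ 2)) := by gcongr
    _ = _ := by ring

/-- Cauchy-Schwarz. -/
theorem cs_two {X : Type*} [MeasurableSpace X] {ν : Measure X} {f g : X → ℝ}
    (hf : MemLp f 2 ν) (hg : MemLp g 2 ν) :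
    |∫ x, f x * g x ∂ν| ≤ √(∫ x, f x ^ 2 ∂ν) * √(∫ x, g x ^ 2 ∂ν) := by
  have i1 : Integrable (fun x => f x ^ 2) ν := hf.integrable_sq
  have i2 : Integrable (fun x => g x ^ 2) ν := hg.integrable_sq
  have i3 : Integrable (fun x => f x * g x) ν := hf.integrable_mul hg
  set A := ∫ x, f x ^ 2 ∂ν with hA
  set D := ∫ x, g x ^ 2 ∂ν with hD
  set B := ∫ x, f x * g x ∂ν with hB
  have hA0 : 0 ≤ A := integral_nonneg fun x => by positivity
  have h1 : ∀ s : ℝ, 0 ≤ D * (s * s) + 2 * B * s + A := by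
    intro s
    have h2 : 0 ≤ ∫ x, (f x + s * g x) ^ 2 ∂ν := integral_nonneg fun x => by positivity
    have h3 : ∀ x, (f x + s * g x) ^ 2 = (s * s * g x ^ 2 + 2 * s * (f x * g x)) + f x ^ 2 := fun x => by
      ring
    have j1 : Integrable (fun x => s * s * g x ^ 2) ν := i2.const_mul _
    have j2 : Integrable (fun x => 2 * s * (f x * g x)) ν := i3.const_mul _
    have j3 : Integrable (fun x => s * s * g x ^ 2 + 2 * s * (f x * g x)) ν := j1.add j2
    simp only [h3] at h2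
    rw [integral_add j3 i1, integral_add j1 j2, integral_const_mul, integral_const_mul] at h2
    linarith
  have h2 := discrim_le_zero h1
  rw [discrim] at h2
  have h3 : B ^ 2 ≤ A * D := by nlinarith
  calc |B| = √(B ^ 2) := (Real.sqrt_sq_eq_abs B).symm
    _ ≤ √(A * D) := Real.sqrt_le_sqrt h3
    _ = √A * √D := Real.sqrt_mul hA0 D

/-- The `L²` bound of a function whose square integral over the cell is bounded in time. -/
theorem l2_bound {H h T : ℝ} (hT : 0 ≤ T) {f : ℝ → ℝ × ℝ → ℝ}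
    (hf : ContinuousOn (uncurry f) (Ioc 0 T ×ˢ (univ ×ˢ Icc 0 h)))
    (hm : ∀ t ∈ Ioc 0 T, MemLp (f t) 2 (volume.restrict (Icc (-H) H ×ˢ Icc 0 h))) {C : ℝ} (hC : 0 ≤ C)
    (hb : ∀ t ∈ Ioc 0 T, ∫ q in Icc (-H) H ×ˢ Icc 0 h, f t q ^ 2 ≤ C ^ 2) {φ : ℝ × (ℝ × ℝ) → ℝ}
    (hφ : IsTs T H h φ) : |∫ p, f p.1 p.2 * φ p| ≤ C * √T * √(∫ p, φ p ^ 2) := by
  refine time_bound hT hf hφ hφ hC fun t ht => ?_
  have ht' : t ∈ Ioc 0 T := Ioo_subset_Ioc_self ht
  set K : Set (ℝ × ℝ) := Icc (-H) H ×ˢ Icc 0 h with hK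
  have hz : ∀ q, q ∉ K → φ (t, q) = 0 := fun q hq => image_eq_zero_of_notMem_tsupport fun hm => by
    have := (hφ.supp hm).2
    exact hq ⟨⟨this.1.1.le, this.1.2.le⟩, this.2.1.le, this.2.2.le⟩
  have h1 : ∫ q, f t q * φ (t, q) = ∫ q in K, f t q * φ (t, q) :=
    (setIntegral_eq_integral_of_forall_compl_eq_zero fun q hq => by rw [hz q hq, mul_zero]).symm
  have h2 : ∫ q, φ (t, q) ^ 2 = ∫ q in K, φ (t, q) ^ 2 :=
    (setIntegral_eq_integral_of_forall_compl_eq_zero fun q hq => by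
      rw [hz q hq]; norm_num).symm
  have hgm : MemLp (fun q => φ (t, q)) 2 (volume.restrict K) :=
    ((hφ.slice t).smooth.continuous.memLp_of_hasCompactSupport (μ := (volume : Measure (ℝ × ℝ)))
      (hφ.slice t).cpt).restrict _
  rw [h1, h2]
  refine (cs_two (hm t ht') hgm).trans (mul_le_mul_of_nonneg_right ?_ (Real.sqrt_nonneg _))
  exact (Real.sqrt_le_sqrt (hb t ht')).trans (le_of_eq (Real.sqrt_sq hC))

end

end Pool.Agent.Lib.MP_79abb3_an.SC
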