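import Pool.Agent.Lib.MP_79abb3_an.SC.ChFinC
import Pool.Agent.Lib.MP_79abb3_an.SC.ChTb

/-!
Theorem C (MP_79abb3_an), block (v): a solution in the strip gives a Leray trajectory in the flow region.
-/

set_option autoImplicit false
set_option linter.unusedSectionVars false
set_option linter.unusedSimpArgs false

open MeasureTheory Set Filter Topology Function
open scoped RealInnerProductSpace ComplexConjugate

namespace Pool.Agent.Lib.MP_79abb3_an.SC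

/-- A function continuous on the strip is square integrable on the cell. -/
theorem memLp_cell {H h : ℝ} {f : ℝ × ℝ → ℝ} (hf : ContinuousOn f (univ ×ˢ Icc 0 h)) :
    MemLp f 2 (volume.restrict (Icc (-H) H ×ˢ Icc 0 h)) := by
  have hK : IsCompact (Icc (-H) H ×ˢ Icc 0 h : Set (ℝ × ℝ)) := isCompact_Icc.prod isCompact_Icc
  have hf' : ContinuousOn f (Icc (-H) H ×ˢ Icc 0 h) := hf.mono (prod_mono (subset_univ _) subset_rfl)
  obtain ⟨C, hC⟩ := hK.exists_bound_of_continuousOn hf'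
  have : IsFiniteMeasure (volume.restrict (Icc (-H) H ×ˢ Icc 0 h : Set (ℝ × ℝ))) :=
    ⟨by rw [Measure.restrict_apply_univ]; exact hK.measure_lt_top⟩
  refine MemLp.of_bound (hf'.aestronglyMeasurable hK.measurableSet) C ?_
  rw [ae_restrict_iff' hK.measurableSet]
  exact Eventually.of_forall fun q hq => hC q hq

/-- Squares. -/
theorem integrableOn_sq {s : Set (ℝ × ℝ)} {f g : ℝ × ℝ → ℝ} (hf : MemLp f 2 (volume.restrict s))
    (hg : MemLp g 2 (volume.restrict s)) : IntegrableOn (fun q => f q ^ 2 + g q ^ 2) s :=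
  hf.integrable_sq.add hg.integrable_sq

section
variable {F : ℂ → ℂ} {O Ω Γ : Set ℂ} {r T : ℝ}

theorem IsChart.sub_cell (hC : IsChart F O Ω Γ r) :
    {q : ℝ × ℝ | cxp q ∈ O} ⊆ Icc (-(r + 2)) (r + 2) ×ˢ Icc 0 (r + 1 / 2) := by
  intro q hq
  have h1 := hC.box _ hq
  have h2 := hC.pos _ hq
  simp only [cxp_re, cxp_im] at h1 h2
  have h3 := abs_le.1 h1.1
  exact ⟨⟨by linarith [h3.1], by linarith [h3.2]⟩, h2.le, by linarith [h1.2]⟩

/-- The norm of a field in the flow region. -/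
theorem IsChart.norm_eq (hC : IsChart F O Ω Γ r) {u : ℂ → ℂ} {v w : ℝ × ℝ → ℝ}
    (hu : ∀ q, cxp q ∈ O → conj (dF F (cxp q)) * u (F (cxp q)) = ⟨v q, w q⟩) :
    ∫ x in Ω, ‖u x‖ ^ 2 = ∫ q in {q : ℝ × ℝ | cxp q ∈ O}, (v q ^ 2 + w q ^ 2) := by
  rw [hC.setIntegral]
  have hO : MeasurableSet {q : ℝ × ℝ | cxp q ∈ O} := (hC.op.preimage cxp_cont).measurableSet
  refine setIntegral_congr_fun hO fun q hq => ?_
  have h1 := hu q hq
  have h2 : ‖conj (dF F (cxp q)) * u (F (cxp q))‖ ^ 2 = v q ^ 2 + w q ^ 2 := by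
    rw [h1, ← Complex.normSq_eq_norm_sq, Complex.normSq_apply]
    ring
  rw [norm_mul, RCLike.norm_conj, mul_pow] at h2
  exact h2

theorem IsChart.norm_le (hC : IsChart F O Ω Γ r) {u : ℂ → ℂ} {v w : ℝ × ℝ → ℝ}
    (hu : ∀ q, cxp q ∈ O → conj (dF F (cxp q)) * u (F (cxp q)) = ⟨v q, w q⟩)
    (hv : MemLp v 2 (volume.restrict (Icc (-(r + 2)) (r + 2) ×ˢ Icc 0 (r + 1 / 2))))
    (hw : MemLp w 2 (volume.restrict (Icc (-(r + 2)) (r + 2) ×ˢ Icc 0 (r + 1 / 2)))) :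
    ∫ x in Ω, ‖u x‖ ^ 2 ≤
      ∫ q in Icc (-(r + 2)) (r + 2) ×ˢ Icc 0 (r + 1 / 2), (v q ^ 2 + w q ^ 2) := by
  rw [hC.norm_eq hu]
  refine setIntegral_mono_set (integrableOn_sq hv hw) ?_ (hC.sub_cell.eventuallyLE)
  exact Eventually.of_forall fun q => by positivity

/-- **From the strip to the flow region.** -/
theorem IsChart.leray (hC : IsChart F O Ω Γ r) (hT : 0 < T) {a : ℝ × ℝ → ℝ}
    (hac : ContDiffOn ℝ 1 a (univ ×ˢ Ioo 0 (r + 1 / 2)))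
    (ha : ∀ q, cxp q ∈ O → a q * ‖dF F (cxp q)‖ ^ 2 = 1) {v w : ℝ → ℝ × ℝ → ℝ} {v₀ w₀ : ℝ × ℝ → ℝ}
    (hS : StripSol (r + 2) (r + 1 / 2) a T v w v₀ w₀)
    (hwall : ∀ t ∈ Ioc 0 T, ∀ y : ℝ, cxp (y, 0) ∈ closure O → F (cxp (y, 0)) ∈ frontier Ω \ Γ →
      v t (y, 0) = 0 ∧ w t (y, 0) = 0) {u₀ : ℂ → ℂ}
    (h0 : ∀ q, cxp q ∈ O → conj (dF F (cxp q)) * u₀ (F (cxp q)) = ⟨v₀ q, w₀ q⟩)
    (h02 : MemLp u₀ 2 (volume.restrict Ω)) :
    ∃ u : ℝ × ℂ → ℂ, IsLeray Ω Γ T u₀ u ∧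
      ∀ t, ∀ q, cxp q ∈ closure O → conj (dF F (cxp q)) * u (t, F (cxp q)) = ⟨v t q, w t q⟩ := by
  have hv : ContinuousOn (uncurry v) (Ioc 0 T ×ˢ (univ ×ˢ Icc 0 (r + 1 / 2))) := by
    rintro ⟨t, q⟩ ⟨ht, hq⟩
    have h1 := (hS.piece (t / 2) ⟨half_pos ht.1, by linarith [ht.1, ht.2]⟩).cont₁
    have h2 := h1 (t, q) ⟨⟨by linarith [ht.1], ht.2⟩, hq⟩
    refine h2.mono_of_mem_nhdsWithin ?_
    rw [nhdsWithin_prod_eq]
    refine prod_mem_prod ?_ self_mem_nhdsWithin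
    have h3 : Ioi (t / 2) ∈ 𝓝 t := Ioi_mem_nhds (by linarith [ht.1])
    filter_upwards [nhdsWithin_le_nhds h3, self_mem_nhdsWithin] with s hs hs'
    exact ⟨le_of_lt hs, hs'.2⟩
  have hw : ContinuousOn (uncurry w) (Ioc 0 T ×ˢ (univ ×ˢ Icc 0 (r + 1 / 2))) := by
    rintro ⟨t, q⟩ ⟨ht, hq⟩
    have h1 := (hS.piece (t / 2) ⟨half_pos ht.1, by linarith [ht.1, ht.2]⟩).cont₂
    have h2 := h1 (t, q) ⟨⟨by linarith [ht.1], ht.2⟩, hq⟩
    refine h2.mono_of_mem_nhdsWithin ?_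
    rw [nhdsWithin_prod_eq]
    refine prod_mem_prod ?_ self_mem_nhdsWithin
    have h3 : Ioi (t / 2) ∈ 𝓝 t := Ioi_mem_nhds (by linarith [ht.1])
    filter_upwards [nhdsWithin_le_nhds h3, self_mem_nhdsWithin] with s hs hs'
    exact ⟨le_of_lt hs, hs'.2⟩
  obtain ⟨u, huc, hu⟩ := hC.exists_field hv hw
  have hsv : ∀ t ∈ Ioc 0 T, ContinuousOn (v t) (univ ×ˢ Icc 0 (r + 1 / 2)) := fun t ht =>
    hv.comp (f := fun q : ℝ × ℝ => (t, q)) (by fun_prop) fun q hq => ⟨ht, hq⟩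
  have hsw : ∀ t ∈ Ioc 0 T, ContinuousOn (w t) (univ ×ˢ Icc 0 (r + 1 / 2)) := fun t ht =>
    hw.comp (f := fun q : ℝ × ℝ => (t, q)) (by fun_prop) fun q hq => ⟨ht, hq⟩
  refine ⟨u, ?_, hu⟩
  constructor
  · -- initial condition
    have hle : ∀ t ∈ Ioc 0 T, ∫ x in Ω, ‖u (t, x) - u₀ x‖ ^ 2 ≤
        ∫ q in Icc (-(r + 2)) (r + 2) ×ˢ Icc 0 (r + 1 / 2), ((v t q - v₀ q) ^ 2 + (w t q - w₀ q) ^ 2) := by
      intro t ht
      refine hC.norm_le (u := fun x => u (t, x) - u₀ x) (v := fun q => v t q - v₀ q)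
        (w := fun q => w t q - w₀ q) ?_ ((memLp_cell (hsv t ht)).sub hS.meas₁)
        ((memLp_cell (hsw t ht)).sub hS.meas₂)
      intro q hq
      rw [mul_sub, hu t q (subset_closure hq), h0 q hq]
      rfl
    refine squeeze_zero' (Eventually.of_forall fun t => ?_) ?_ hS.init
    · exact setIntegral_nonneg hC.measurableSet fun x _ => by positivity
    · have h1 : Ioc 0 T ∈ 𝓝[>] (0 : ℝ) := Ioc_mem_nhdsGT hT
      filter_upwards [h1] with t ht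
      exact hle t ht
  · exact h02
  · exact huc
  · intro t ht x hx
    obtain ⟨ζ, ⟨hζ1, hζ2⟩, rfl⟩ := hC.wall hx
    have h1 : cxp (ζ.re, 0) = ζ := Complex.ext rfl (Eq.symm hζ2)
    have h2 := hu t (ζ.re, 0) (by rw [h1]; exact hζ1)
    have h4 := hwall t ht ζ.re (by rw [h1]; exact hζ1) (by rw [h1]; exact hx)
    rw [h1, h4.1, h4.2] at h2
    have h3 : (⟨0, 0⟩ : ℂ) = 0 := rfl
    rw [h3, mul_eq_zero] at h2
    rcases h2 with h2 | h2
    · exact absurd ((map_eq_zero _).1 h2) (hC.der ζ hζ1)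
    · exact h2
  · obtain ⟨C, hC'⟩ := hS.bdd
    refine ⟨C, fun t ht => (hC.norm_le (u := fun x => u (t, x)) (v := v t) (w := w t)
      (fun q hq => hu t q (subset_closure hq)) (memLp_cell (hsv t ht)) (memLp_cell (hsw t ht))).trans
      (hC' t ht)⟩
  · obtain ⟨C, hC'⟩ := hS.grad
    obtain ⟨B, hB⟩ := hS.bdd
    have hcell : IsCompact (Icc (-(r + 2)) (r + 2) ×ˢ Icc 0 (r + 1 / 2) : Set (ℝ × ℝ)) :=
      isCompact_Icc.prod isCompact_Icc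
    set D : ℝ := max |C| (√|B| * √T) with hD
    have hD0 : 0 ≤ D := (abs_nonneg C).trans (le_max_left _ _)
    have hb1 : ∀ t ∈ Ioc 0 T, ∫ q in Icc (-(r + 2)) (r + 2) ×ˢ Icc 0 (r + 1 / 2), v t q ^ 2 ≤
        √|B| ^ 2 := by
      intro t ht
      rw [Real.sq_sqrt (abs_nonneg B)]
      refine le_trans ?_ ((hB t ht).trans (le_abs_self B))
      refine setIntegral_mono_on (memLp_cell (hsv t ht)).integrable_sq
        (integrableOn_sq (memLp_cell (hsv t ht)) (memLp_cell (hsw t ht))) hcell.measurableSet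
        fun q _ => ?_
      nlinarith [sq_nonneg (w t q)]
    have hb2 : ∀ t ∈ Ioc 0 T, ∫ q in Icc (-(r + 2)) (r + 2) ×ˢ Icc 0 (r + 1 / 2), w t q ^ 2 ≤
        √|B| ^ 2 := by
      intro t ht
      rw [Real.sq_sqrt (abs_nonneg B)]
      refine le_trans ?_ ((hB t ht).trans (le_abs_self B))
      refine setIntegral_mono_on (memLp_cell (hsw t ht)).integrable_sq
        (integrableOn_sq (memLp_cell (hsv t ht)) (memLp_cell (hsw t ht))) hcell.measurableSet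
        fun q _ => ?_
      nlinarith [sq_nonneg (v t q)]
    have h1 : ∀ φ : ℝ × (ℝ × ℝ) → ℝ, IsTs T (r + 2) (r + 1 / 2) φ →
      (|∫ p, v p.1 p.2 * φ p| ≤ D * √(∫ p, φ p ^ 2) ∧
      |∫ p, v p.1 p.2 * sy φ p| ≤ D * √(∫ p, φ p ^ 2) ∧
      |∫ p, v p.1 p.2 * sz φ p| ≤ D * √(∫ p, φ p ^ 2)) ∧
      (|∫ p, w p.1 p.2 * φ p| ≤ D * √(∫ p, φ p ^ 2) ∧
      |∫ p, w p.1 p.2 * sy φ p| ≤ D * √(∫ p, φ p ^ 2) ∧
      |∫ p, w p.1 p.2 * sz φ p| ≤ D * √(∫ p, φ p ^ 2)) := by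
      intro φ hφ
      have h2 : C * √(∫ p, φ p ^ 2) ≤ D * √(∫ p, φ p ^ 2) :=
        mul_le_mul_of_nonneg_right ((le_abs_self C).trans (le_max_left _ _)) (Real.sqrt_nonneg _)
      have h3 : √|B| * √T * √(∫ p, φ p ^ 2) ≤ D * √(∫ p, φ p ^ 2) :=
        mul_le_mul_of_nonneg_right (le_max_right _ _) (Real.sqrt_nonneg _)
      obtain ⟨a2, a3, a5, a6⟩ := hC' φ hφ
      have a1 := l2_bound hT.le hv (fun t ht => memLp_cell (hsv t ht)) (Real.sqrt_nonneg |B|) hb1 hφ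
      have a4 := l2_bound hT.le hw (fun t ht => memLp_cell (hsw t ht)) (Real.sqrt_nonneg |B|) hb2 hφ
      exact ⟨⟨a1.trans h3, a2.trans h2, a3.trans h2⟩, a4.trans h3, a5.trans h2, a6.trans h2⟩
    obtain ⟨K, -, hK⟩ := hC.grad_eq hv hw hD0 h1 huc hu
    exact ⟨K, hK⟩
  · intro φ hφ
    exact hC.div_eq hS.piece huc hu hφ
  · intro φ hφ hdiv
    exact hC.ns_eq hT hac ha hS.piece huc hu hφ hdiv

end

end Pool.Agent.Lib.MP_79abb3_an.SC
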