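import Mathlib

/-!
Theorem C (MP_79abb3_an), block (v), disc to half plane, part b: a power series with rapidly decreasing
coefficients is, on the closed unit disc, the restriction of a smooth function of the plane.
-/

set_option autoImplicit false
set_option linter.unusedSectionVars false

open MeasureTheory Set Filter Topology Function

namespace Pool.Agent.Lib.MP_79abb3_an.SC

/-- The cut-off: `1` for `s ≤ 0`, `0` for `s ≥ 1`. -/
noncomputable def cu (s : ℝ) : ℝ := Real.smoothTransition (1 - s)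

/-- `ξ^n χ(n(|ξ|² - 1))` -/
noncomputable def fN (n : ℕ) (ξ : ℂ) : ℂ := ξ ^ n * ((cu (n * (Complex.normSq ξ - 1)) : ℝ) : ℂ)

private theorem cu_one {s : ℝ} (h : s ≤ 0) : cu s = 1 :=
  Real.smoothTransition.one_of_one_le (by linarith)

private theorem cu_zero {s : ℝ} (h : 1 ≤ s) : cu s = 0 :=
  Real.smoothTransition.zero_of_nonpos (by linarith)

/-- the cut-off as a complex valued function -/
private noncomputable def cuC (s : ℝ) : ℂ := ((cu s : ℝ) : ℂ)

private theorem cuC_smooth (N : WithTop ℕ∞) (hN : N ≤ ((⊤ : ℕ∞) : WithTop ℕ∞)) : ContDiff ℝ N cuC := by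
  have h1 : ContDiff ℝ ((⊤ : ℕ∞) : WithTop ℕ∞) cu :=
    Real.smoothTransition.contDiff.comp (contDiff_const.sub contDiff_id)
  exact (Complex.ofRealCLM.contDiff.comp h1).of_le hN

private theorem cuC_bound (i : ℕ) : ∃ B : ℝ, 0 ≤ B ∧ ∀ s, ‖iteratedFDeriv ℝ i cuC s‖ ≤ B := by
  have hcont : Continuous fun s => ‖iteratedFDeriv ℝ i cuC s‖ :=
    ((cuC_smooth _ le_rfl).continuous_iteratedFDeriv (by exact_mod_cast le_top)).norm
  obtain ⟨B, hB⟩ := (isCompact_Icc (a := (0:ℝ)) (b := 1)).exists_bound_of_continuousOn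
    (hcont.continuousOn)
  refine ⟨max B 1, le_trans zero_le_one (le_max_right _ _), ?_⟩
  intro s
  by_cases h0 : s < 0
  · have he : cuC =ᶠ[𝓝 s] fun _ => (1 : ℂ) := by
      filter_upwards [Iio_mem_nhds h0] with t ht
      unfold cuC
      rw [cu_one (le_of_lt ht)]
      simp
    rw [(he.iteratedFDeriv ℝ i).eq_of_nhds]
    rcases Nat.eq_zero_or_pos i with hi | hi
    · subst hi
      rw [norm_iteratedFDeriv_zero]
      simp
    · rw [iteratedFDeriv_const_of_ne hi.ne']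
      simp
  by_cases h1 : 1 < s
  · have he : cuC =ᶠ[𝓝 s] fun _ => (0 : ℂ) := by
      filter_upwards [Ioi_mem_nhds h1] with t ht
      unfold cuC
      rw [cu_zero (le_of_lt ht)]
      simp
    rw [(he.iteratedFDeriv ℝ i).eq_of_nhds]
    rcases Nat.eq_zero_or_pos i with hi | hi
    · subst hi
      rw [norm_iteratedFDeriv_zero]
      simp
    · rw [iteratedFDeriv_const_of_ne hi.ne']
      simp
  push Not at h0 h1
  have := hB s ⟨h0, h1⟩
  rw [norm_norm] at this
  exact this.trans (le_max_left _ _)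

private theorem pow_bound (i : ℕ) : ∀ (n : ℕ) (ξ : ℂ),
    ‖iteratedFDeriv ℝ i (fun z : ℂ => z ^ n) ξ‖ ≤ (n:ℝ) ^ i * (max 1 ‖ξ‖) ^ n := by
  induction i with
  | zero =>
    intro n ξ
    rw [norm_iteratedFDeriv_zero, norm_pow, pow_zero, one_mul]
    exact pow_le_pow_left₀ (norm_nonneg _) (le_max_right _ _) n
  | succ i ih =>
    intro n ξ
    rw [← norm_iteratedFDeriv_fderiv]
    have hM : (1:ℝ) ≤ max 1 ‖ξ‖ := le_max_left _ _
    set L : ℂ →L[ℝ] ℂ →L[ℝ] ℂ := (n:ℝ) • ContinuousLinearMap.mul ℝ ℂ with hL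
    have hd : fderiv ℝ (fun z : ℂ => z ^ n) = L ∘ (fun z : ℂ => z ^ (n - 1)) := by
      funext z
      have h := ((hasDerivAt_pow n z).hasFDerivAt.restrictScalars ℝ).fderiv
      rw [h]
      ext x
      simp [hL]
      ring
    have hLn : ‖L‖ ≤ n := by
      refine ContinuousLinearMap.opNorm_le_bound₂ L (Nat.cast_nonneg n) ?_
      intro x y
      have : L x y = (n:ℝ) • (x * y) := by simp [hL]
      rw [this, norm_smul, norm_mul, Real.norm_of_nonneg (Nat.cast_nonneg n)]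
      exact le_of_eq (by ring)
    rw [hd]
    have hcd : ContDiffAt ℝ ((⊤ : ℕ∞) : WithTop ℕ∞) (fun z : ℂ => z ^ (n - 1)) ξ :=
      (contDiff_id.pow (n - 1)).contDiffAt
    have h1 := L.norm_iteratedFDeriv_comp_left (n := i) hcd (by exact_mod_cast le_top)
    refine h1.trans ?_
    calc ‖L‖ * ‖iteratedFDeriv ℝ i (fun z : ℂ => z ^ (n - 1)) ξ‖
        ≤ n * ((((n - 1 : ℕ) : ℝ)) ^ i * (max 1 ‖ξ‖) ^ (n - 1)) :=
          mul_le_mul hLn (ih (n - 1) ξ) (norm_nonneg _) (Nat.cast_nonneg n)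
      _ ≤ n * ((n : ℝ) ^ i * (max 1 ‖ξ‖) ^ n) := by
          apply mul_le_mul_of_nonneg_left _ (Nat.cast_nonneg n)
          apply mul_le_mul _ _ (by positivity) (by positivity)
          · exact pow_le_pow_left₀ (Nat.cast_nonneg _) (by exact_mod_cast Nat.sub_le n 1) i
          · exact pow_le_pow_right₀ hM (Nat.sub_le n 1)
      _ = (n:ℝ) ^ (i + 1) * (max 1 ‖ξ‖) ^ n := by ring

private theorem le_smooth (m : ℕ) : (m : WithTop ℕ∞) ≤ ((⊤ : ℕ∞) : WithTop ℕ∞) := by
  exact_mod_cast le_top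

/-- the argument of the cut-off -/
private noncomputable def qN (n : ℕ) (ξ : ℂ) : ℝ := n * (ξ.re * ξ.re + ξ.im * ξ.im - 1)

private theorem qN_norm (n : ℕ) (ξ : ℂ) : qN n ξ = n * (‖ξ‖ ^ 2 - 1) := by
  unfold qN
  rw [Complex.sq_norm, Complex.normSq_apply]

private theorem qN_smooth (n : ℕ) (N : WithTop ℕ∞) : ContDiff ℝ N (qN n) := by
  unfold qN
  have hr : ContDiff ℝ N (fun ξ : ℂ => ξ.re) := Complex.reCLM.contDiff
  have hi : ContDiff ℝ N (fun ξ : ℂ => ξ.im) := Complex.imCLM.contDiff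
  exact contDiff_const.mul (((hr.mul hr).add (hi.mul hi)).sub contDiff_const)

/-- the derivative of `qN` as a linear map -/
private noncomputable def BL (n : ℕ) : ℂ →L[ℝ] (ℂ →L[ℝ] ℝ) :=
  (2 * (n:ℝ)) • (Complex.reCLM.smulRight Complex.reCLM + Complex.imCLM.smulRight Complex.imCLM)

private theorem BL_norm (n : ℕ) : ‖BL n‖ ≤ 4 * n := by
  have hn : (0:ℝ) ≤ n := Nat.cast_nonneg n
  refine ContinuousLinearMap.opNorm_le_bound₂ (BL n) (by positivity) ?_
  intro x y
  have h1 : BL n x y = 2 * n * (x.re * y.re + x.im * y.im) := by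
    unfold BL
    simp
    ring
  rw [h1, Real.norm_eq_abs, abs_mul, abs_of_nonneg (by positivity : (0:ℝ) ≤ 2 * n)]
  have h2 : |x.re * y.re + x.im * y.im| ≤ 2 * (‖x‖ * ‖y‖) := by
    have ha := Complex.abs_re_le_norm x
    have hb := Complex.abs_re_le_norm y
    have hc := Complex.abs_im_le_norm x
    have hd := Complex.abs_im_le_norm y
    calc |x.re * y.re + x.im * y.im| ≤ |x.re * y.re| + |x.im * y.im| := abs_add_le _ _
      _ = |x.re| * |y.re| + |x.im| * |y.im| := by rw [abs_mul, abs_mul]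
      _ ≤ ‖x‖ * ‖y‖ + ‖x‖ * ‖y‖ := by
          apply add_le_add
          · exact mul_le_mul ha hb (abs_nonneg _) (norm_nonneg _)
          · exact mul_le_mul hc hd (abs_nonneg _) (norm_nonneg _)
      _ = 2 * (‖x‖ * ‖y‖) := by ring
  calc 2 * (n:ℝ) * |x.re * y.re + x.im * y.im| ≤ 2 * n * (2 * (‖x‖ * ‖y‖)) :=
        mul_le_mul_of_nonneg_left h2 (by positivity)
    _ = 4 * n * ‖x‖ * ‖y‖ := by ring

private theorem qN_fderiv (n : ℕ) : fderiv ℝ (qN n) = BL n := by
  funext z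
  have hr : HasFDerivAt (fun ξ : ℂ => ξ.re) Complex.reCLM z := Complex.reCLM.hasFDerivAt
  have hi : HasFDerivAt (fun ξ : ℂ => ξ.im) Complex.imCLM z := Complex.imCLM.hasFDerivAt
  have h2 := (((hr.mul hr).add (hi.mul hi)).sub_const 1).const_mul (n:ℝ)
  have h3 : fderiv ℝ (qN n) z = _ := h2.fderiv
  rw [h3]
  unfold BL
  ext x
  simp
  ring

private theorem qN_bound (n : ℕ) (ξ : ℂ) (hξ : ‖ξ‖ ^ 2 ≤ 2) (i : ℕ) (hi : 1 ≤ i) :
    ‖iteratedFDeriv ℝ i (qN n) ξ‖ ≤ (8 * ((n:ℝ) + 1)) ^ i := by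
  have hn : (0:ℝ) ≤ n := Nat.cast_nonneg n
  have hξ' : ‖ξ‖ ≤ 2 := by nlinarith [norm_nonneg ξ]
  have hB := BL_norm n
  obtain ⟨j, rfl⟩ : ∃ j, i = j + 1 := ⟨i - 1, by omega⟩
  rw [← norm_iteratedFDeriv_fderiv, qN_fderiv]
  rcases Nat.eq_zero_or_pos j with hj | hj
  · subst hj
    rw [norm_iteratedFDeriv_zero]
    calc ‖(BL n) ξ‖ ≤ ‖BL n‖ * ‖ξ‖ := ContinuousLinearMap.le_opNorm _ _
      _ ≤ (4 * n) * 2 := mul_le_mul hB hξ' (norm_nonneg _) (by positivity)
      _ ≤ (8 * ((n:ℝ) + 1)) ^ (0 + 1) := by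
          rw [zero_add, pow_one]
          linarith
  · obtain ⟨l, rfl⟩ : ∃ l, j = l + 1 := ⟨j - 1, by omega⟩
    rw [← norm_iteratedFDeriv_fderiv]
    have hf : fderiv ℝ (⇑(BL n)) = fun _ => BL n := by
      funext z
      exact ContinuousLinearMap.fderiv _
    rw [hf]
    rcases Nat.eq_zero_or_pos l with hl | hl
    · subst hl
      rw [norm_iteratedFDeriv_zero]
      refine hB.trans ?_
      have h2 : (0 + 1 + 1) = 2 := rfl
      rw [h2]
      nlinarith
    · rw [iteratedFDeriv_const_of_ne hl.ne']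
      simp only [Pi.zero_apply, norm_zero]
      positivity

private theorem fN_eq (n : ℕ) : fN n = fun ξ => ξ ^ n * (cuC ∘ qN n) ξ := by
  funext ξ
  unfold fN cuC
  simp only [Function.comp]
  rw [qN_norm, Complex.normSq_eq_norm_sq]

private theorem fN_smooth (n : ℕ) : ContDiff ℝ ((⊤ : ℕ∞) : WithTop ℕ∞) (fN n) := by
  rw [fN_eq]
  exact (contDiff_id.pow n).mul ((cuC_smooth _ le_rfl).comp (qN_smooth n _))

/-- All derivatives of `fN n` grow at most polynomially in `n`, uniformly on the plane.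

Proof. On the set where `fN n ≠ 0` (`n ≥ 1`) one has `|ξ|² ≤ 1 + 1/n`, so `|ξ|^m ≤ e` for `m ≤ n`.
Possible organisation: call a family `f : ℕ → ℂ → ℂ` good if it is in the smallest class which contains
`(n, ξ) ↦ ξ^(n - a) * ξ^b * (conj ξ)^c * g (n (|ξ|² - 1))` (`a b c : ℕ`, `g : ℝ → ℝ` smooth, `g` constant
on `(-∞, 0]` and zero on `[1, ∞)`) and is closed under sums and under multiplication by `n`
(inductive predicate). By induction: each good family is smooth in `ξ`, satisfies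
`‖f n ξ‖ ≤ C (n+1)^p`, and `fderiv ℝ (f n) ξ = f₁ n ξ • L₁ + f₂ n ξ • L₂` with `f₁, f₂` good and the
constant maps `L₁ = id`, `L₂ = conj` (as `ℂ →L[ℝ] ℂ`). Then induct on `k` with
`norm_iteratedFDeriv_fderiv` (or `iteratedFDeriv_succ_eq_comp_right`). (For `n = 0` the function `fN 0`
is the constant `1`; the exceptional finitely many `n < a` are harmless.)
Alternative: Leibniz rule `norm_iteratedFDeriv_mul_le` at points with `|ξ|² ≤ 1 + 1/n`, together with
`norm_iteratedFDeriv_comp_le` for the cut-off. -/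
theorem fN_bound (k : ℕ) : ∃ (C : ℝ) (p : ℕ), ∀ (n : ℕ) (ξ : ℂ),
    ‖iteratedFDeriv ℝ k (fN n) ξ‖ ≤ C * ((n:ℝ) + 1) ^ p := by
  choose B hB0 hB using cuC_bound
  set Bk : ℝ := ∑ i ∈ Finset.range (k + 1), B i with hBk
  have hBk0 : 0 ≤ Bk := Finset.sum_nonneg fun i _ => hB0 i
  have hBle : ∀ i, i ≤ k → ∀ s, ‖iteratedFDeriv ℝ i cuC s‖ ≤ Bk := by
    intro i hi s
    refine (hB i s).trans ?_
    exact Finset.single_le_sum (f := B) (fun j _ => hB0 j) (Finset.mem_range.mpr (by omega))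
  set C : ℝ := ∑ i ∈ Finset.range (k + 1), (k.choose i : ℝ) * 3 *
    (((k - i).factorial : ℝ) * Bk * 8 ^ (k - i)) with hC
  have hC0 : 0 ≤ C := Finset.sum_nonneg fun i _ => by positivity
  refine ⟨C + 1, k, ?_⟩
  intro n ξ
  have hn : (0:ℝ) ≤ n := Nat.cast_nonneg n
  have hn1 : (1:ℝ) ≤ ((n:ℝ) + 1) ^ k := one_le_pow₀ (by linarith)
  -- the exceptional case `n = 0`
  rcases Nat.eq_zero_or_pos n with h0 | hpos
  · subst h0
    have he : fN 0 = fun _ => (1:ℂ) := by
      funext z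
      unfold fN
      rw [Nat.cast_zero, zero_mul, cu_one le_rfl]
      simp
    rw [he]
    have h1 : ‖iteratedFDeriv ℝ k (fun _ : ℂ => (1:ℂ)) ξ‖ ≤ 1 := by
      rcases Nat.eq_zero_or_pos k with hk | hk
      · subst hk
        rw [norm_iteratedFDeriv_zero]
        simp
      · rw [iteratedFDeriv_const_of_ne hk.ne']
        simp
    nlinarith
  have hnp : (0:ℝ) < n := Nat.cast_pos.mpr hpos
  by_cases hout : 1 < qN n ξ
  · have he : fN n =ᶠ[𝓝 ξ] fun _ => (0 : ℂ) := by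
      have hopen : IsOpen {z | 1 < qN n z} :=
        isOpen_lt continuous_const (qN_smooth n 0).continuous
      filter_upwards [hopen.mem_nhds hout] with z hz
      rw [fN_eq]
      simp only [Function.comp]
      unfold cuC
      rw [cu_zero (le_of_lt hz)]
      simp
    rw [(he.iteratedFDeriv ℝ k).eq_of_nhds]
    have h1 : ‖iteratedFDeriv ℝ k (fun _ : ℂ => (0:ℂ)) ξ‖ = 0 := by
      rcases Nat.eq_zero_or_pos k with hk | hk
      · subst hk
        rw [norm_iteratedFDeriv_zero]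
        simp
      · rw [iteratedFDeriv_const_of_ne hk.ne']
        simp
    rw [h1]
    positivity
  · push Not at hout
    have hle : ‖ξ‖ ^ 2 ≤ 1 + 1 / n := by
      rw [qN_norm] at hout
      have : ‖ξ‖ ^ 2 - 1 ≤ 1 / n := by
        rw [le_div_iff₀ hnp]
        linarith
      linarith
    have h2 : ‖ξ‖ ^ 2 ≤ 2 := by
      have : (1:ℝ) / n ≤ 1 := by
        rw [div_le_one hnp]
        exact_mod_cast hpos
      linarith
    set M : ℝ := max 1 ‖ξ‖ with hM
    have hM1 : 1 ≤ M := le_max_left _ _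
    have hM3 : M ^ n ≤ 3 := by
      have hM2 : M ^ 2 ≤ 1 + 1 / n := by
        rcases max_cases 1 ‖ξ‖ with ⟨h, _⟩ | ⟨h, _⟩
        · rw [hM, h]
          have : (0:ℝ) ≤ 1 / n := by positivity
          linarith
        · rw [hM, h]
          exact hle
      have hexp : (1:ℝ) + 1 / n ≤ Real.exp (1 / n) := by
        have := Real.add_one_le_exp (1 / (n:ℝ))
        linarith
      calc M ^ n ≤ (M ^ 2) ^ n := by
            apply pow_le_pow_left₀ (by linarith)
            nlinarith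
        _ ≤ (Real.exp (1 / n)) ^ n := pow_le_pow_left₀ (by positivity) (hM2.trans hexp) n
        _ = Real.exp 1 := by
            rw [← Real.exp_nat_mul]
            congr 1
            field_simp
        _ ≤ 3 := by
            have := Real.exp_one_lt_d9
            linarith
    rw [fN_eq]
    have hmul := norm_iteratedFDeriv_mul_le (𝕜 := ℝ) (N := ((⊤ : ℕ∞) : WithTop ℕ∞)) (n := k)
      (contDiff_id.pow n : ContDiff ℝ ((⊤ : ℕ∞) : WithTop ℕ∞) (fun z : ℂ => z ^ n))
      ((cuC_smooth _ le_rfl).comp (qN_smooth n _)) ξ (by exact_mod_cast le_top)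
    refine hmul.trans ?_
    have hsum : ∑ i ∈ Finset.range (k + 1), (k.choose i : ℝ) *
        ‖iteratedFDeriv ℝ i (fun z : ℂ => z ^ n) ξ‖ * ‖iteratedFDeriv ℝ (k - i) (cuC ∘ qN n) ξ‖ ≤
        ∑ i ∈ Finset.range (k + 1), ((k.choose i : ℝ) * 3 *
          (((k - i).factorial : ℝ) * Bk * 8 ^ (k - i))) * ((n:ℝ) + 1) ^ k := by
      refine Finset.sum_le_sum fun i hi => ?_
      have hik : i ≤ k := by
        have := Finset.mem_range.mp hi
        omega
      have hp := pow_bound i n ξ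
      have hc := norm_iteratedFDeriv_comp_le (𝕜 := ℝ) (N := ((⊤ : ℕ∞) : WithTop ℕ∞)) (n := k - i)
        (cuC_smooth _ le_rfl) (qN_smooth n _) (le_smooth _) ξ
        (C := Bk) (D := 8 * ((n:ℝ) + 1)) (fun j hj => hBle j (by omega) _)
        (fun j hj _ => qN_bound n ξ h2 j hj)
      have hp' : ‖iteratedFDeriv ℝ i (fun z : ℂ => z ^ n) ξ‖ ≤ ((n:ℝ) + 1) ^ i * 3 := by
        refine hp.trans ?_
        apply mul_le_mul _ hM3 (by positivity) (by positivity)
        exact pow_le_pow_left₀ hn (by linarith) i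
      calc (k.choose i : ℝ) * ‖iteratedFDeriv ℝ i (fun z : ℂ => z ^ n) ξ‖ *
            ‖iteratedFDeriv ℝ (k - i) (cuC ∘ qN n) ξ‖
          ≤ (k.choose i : ℝ) * (((n:ℝ) + 1) ^ i * 3) *
            (((k - i).factorial : ℝ) * Bk * (8 * ((n:ℝ) + 1)) ^ (k - i)) := by
            apply mul_le_mul _ hc (norm_nonneg _) (by positivity)
            exact mul_le_mul_of_nonneg_left hp' (Nat.cast_nonneg _)
        _ = ((k.choose i : ℝ) * 3 * (((k - i).factorial : ℝ) * Bk * 8 ^ (k - i))) *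
            (((n:ℝ) + 1) ^ i * ((n:ℝ) + 1) ^ (k - i)) := by
            rw [mul_pow]
            ring
        _ = ((k.choose i : ℝ) * 3 * (((k - i).factorial : ℝ) * Bk * 8 ^ (k - i))) *
            ((n:ℝ) + 1) ^ k := by
            rw [← pow_add, Nat.add_sub_cancel' hik]
    refine hsum.trans ?_
    rw [← Finset.sum_mul, ← hC]
    nlinarith

/-- Smooth extension of power series.

Proof. `h₁ ξ = ∑' n, c n * fN n ξ` is smooth by `contDiff_tsum` and `fN_bound`
(`iteratedFDeriv_const_smul_apply`/`norm` for the factor `c n`); for `‖ξ‖ ≤ 1` it is `∑' n, c n ξ^n`.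
Multiply by a smooth compactly supported function which is `1` on the closed unit disc
(`ContDiffBump (0:ℂ)` with radii `1 < 2`; radius such that it is one on the closed ball of radius one).
Holomorphy on the open disc: `h` agrees there with the power series
(`differentiableOn_tsum_of_summable_norm` with the bounds `‖c n‖`). -/
theorem exists_ext {c : ℕ → ℂ} (hc : ∀ k : ℕ, Summable fun n : ℕ => ((n:ℝ) + 1) ^ k * ‖c n‖) :
    ∃ h : ℂ → ℂ, ContDiff ℝ ((⊤ : ℕ∞) : WithTop ℕ∞) h ∧ HasCompactSupport h ∧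
      DifferentiableOn ℂ h (Metric.ball 0 1) ∧ ∀ ξ, ‖ξ‖ ≤ 1 → HasSum (fun n : ℕ => c n * ξ ^ n) (h ξ) := by
  choose C p hCp using fN_bound
  have hc0 : Summable fun n : ℕ => ‖c n‖ := by
    simpa using hc 0
  have hsm : ContDiff ℝ ((⊤ : ℕ∞) : WithTop ℕ∞) (fun ξ : ℂ => ∑' n : ℕ, c n * fN n ξ) := by
    refine contDiff_tsum (𝕜 := ℝ) (N := (⊤ : ℕ∞)) (f := fun (n : ℕ) (ξ : ℂ) => c n * fN n ξ)
      (v := fun k n => |C k| * (((n:ℝ) + 1) ^ (p k) * ‖c n‖)) ?_ ?_ ?_
    · intro n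
      exact contDiff_const.mul (fN_smooth n)
    · intro k _
      exact (hc (p k)).mul_left _
    · intro k n ξ _
      have hcomp : (fun ξ : ℂ => c n * fN n ξ) = (ContinuousLinearMap.mul ℝ ℂ (c n)) ∘ (fN n) := by
        funext z
        simp
      rw [hcomp]
      have h1 := (ContinuousLinearMap.mul ℝ ℂ (c n)).norm_iteratedFDeriv_comp_left (n := k)
        ((fN_smooth n).contDiffAt (x := ξ)) (by exact_mod_cast le_top)
      refine h1.trans ?_
      have h2 : ‖ContinuousLinearMap.mul ℝ ℂ (c n)‖ ≤ ‖c n‖ :=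
        ContinuousLinearMap.opNorm_mul_apply_le ℝ ℂ (c n)
      calc ‖ContinuousLinearMap.mul ℝ ℂ (c n)‖ * ‖iteratedFDeriv ℝ k (fN n) ξ‖
          ≤ ‖c n‖ * (|C k| * ((n:ℝ) + 1) ^ (p k)) := by
            apply mul_le_mul h2 _ (norm_nonneg _) (norm_nonneg _)
            refine (hCp k n ξ).trans ?_
            exact mul_le_mul_of_nonneg_right (le_abs_self _) (by positivity)
        _ = |C k| * (((n:ℝ) + 1) ^ (p k) * ‖c n‖) := by ring
  let φ : ContDiffBump (0 : ℂ) := ⟨1, 2, one_pos, one_lt_two⟩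
  have hφ1 : ∀ ξ : ℂ, ‖ξ‖ ≤ 1 → φ ξ = 1 := by
    intro ξ hξ
    apply φ.one_of_mem_closedBall
    rw [mem_closedBall_zero_iff]
    exact hξ
  have hser : ∀ ξ : ℂ, ‖ξ‖ ≤ 1 → ∀ n : ℕ, c n * fN n ξ = c n * ξ ^ n := by
    intro ξ hξ n
    unfold fN
    have : cu (n * (Complex.normSq ξ - 1)) = 1 := by
      apply cu_one
      apply mul_nonpos_of_nonneg_of_nonpos (Nat.cast_nonneg n)
      rw [Complex.normSq_eq_norm_sq]
      nlinarith [norm_nonneg ξ]
    rw [this]
    simp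
  have hsumm : ∀ ξ : ℂ, ‖ξ‖ ≤ 1 → Summable fun n : ℕ => c n * ξ ^ n := by
    intro ξ hξ
    refine Summable.of_norm_bounded hc0 ?_
    intro n
    rw [norm_mul, norm_pow]
    calc ‖c n‖ * ‖ξ‖ ^ n ≤ ‖c n‖ * 1 :=
          mul_le_mul_of_nonneg_left (pow_le_one₀ (norm_nonneg _) hξ) (norm_nonneg _)
      _ = ‖c n‖ := mul_one _
  have hval : ∀ ξ : ℂ, ‖ξ‖ ≤ 1 →
      ((φ ξ : ℝ) : ℂ) * (∑' n : ℕ, c n * fN n ξ) = ∑' n : ℕ, c n * ξ ^ n := by
    intro ξ hξ
    rw [hφ1 ξ hξ, Complex.ofReal_one, one_mul]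
    exact tsum_congr (hser ξ hξ)
  refine ⟨fun ξ => ((φ ξ : ℝ) : ℂ) * (∑' n : ℕ, c n * fN n ξ), ?_, ?_, ?_, ?_⟩
  · exact (Complex.ofRealCLM.contDiff.comp φ.contDiff).mul hsm
  · apply HasCompactSupport.mul_right
    exact φ.hasCompactSupport.comp_left (g := fun x : ℝ => (x : ℂ)) Complex.ofReal_zero
  · have hd : DifferentiableOn ℂ (fun w : ℂ => ∑' n : ℕ, c n * w ^ n) (Metric.ball 0 1) := by
      refine Complex.differentiableOn_tsum_of_summable_norm hc0 ?_ Metric.isOpen_ball ?_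
      · intro n
        exact ((differentiable_id.pow n).const_mul (c n)).differentiableOn
      · intro n w hw
        rw [mem_ball_zero_iff] at hw
        rw [norm_mul, norm_pow]
        calc ‖c n‖ * ‖w‖ ^ n ≤ ‖c n‖ * 1 :=
              mul_le_mul_of_nonneg_left (pow_le_one₀ (norm_nonneg _) hw.le) (norm_nonneg _)
          _ = ‖c n‖ := mul_one _
    refine hd.congr ?_
    intro w hw
    rw [mem_ball_zero_iff] at hw
    exact hval w hw.le
  · intro ξ hξ
    have := (hsumm ξ hξ).hasSum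
    simp only
    rw [hval ξ hξ]
    exact this

end Pool.Agent.Lib.MP_79abb3_an.SC
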