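import Pool.Agent.Lib.MP_79abb3_an.SC.ChGa
import Pool.Agent.Lib.MP_79abb3_an.SC.ChGb

/-!
Theorem C (MP_79abb3_an), block (v), disc to half plane, part c: a holomorphic function on the disc,
smooth up to the boundary, with real part zero on most of the circle and positive near the point `1`.
-/

set_option autoImplicit false
set_option linter.unusedSectionVars false

open MeasureTheory Set Filter Topology Function
open scoped ComplexConjugate

namespace Pool.Agent.Lib.MP_79abb3_an.SC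

/-- the real part of the sum of the half series -/
private lemma chgc_re {c : ℤ → ℂ} {x w : ℂ} {t θ : ℝ} (hsymm : ∀ n, c (-n) = conj (c n))
    (hx : x = Complex.exp (Complex.I * (θ : ℂ)))
    (h1 : HasSum (fun n : ℤ => c n * Complex.exp (Complex.I * ((n * θ : ℝ) : ℂ))) ((t : ℝ) : ℂ))
    (h2 : HasSum (fun n : ℕ => (if n = 0 then c 0 else 2 * c n) * x ^ n) w) : w.re = t := by
  have hpow : ∀ n : ℕ, Complex.exp (Complex.I * (((n : ℤ) * θ : ℝ) : ℂ)) = x ^ n := by
    intro n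
    rw [hx, ← Complex.exp_nat_mul]
    congr 1
    push_cast
    ring
  have hneg : ∀ n : ℕ, c (-(n : ℤ)) * Complex.exp (Complex.I * (((-(n : ℤ) : ℤ) * θ : ℝ) : ℂ)) =
      conj (c n * x ^ n) := by
    intro n
    rw [hsymm, map_mul, ← hpow, ← Complex.exp_conj]
    congr 2
    simp
  have h3 := h1.nat_add_neg
  have h4 : HasSum (fun n : ℕ => ((c n * x ^ n).re + (c n * x ^ n).re)) (t + (c 0).re) := by
    have h5 := Complex.hasSum_re h3
    simp only [hpow, hneg, Complex.add_re, Complex.conj_re] at h5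
    have e0 : (c 0 * Complex.exp (Complex.I * (((0 : ℤ) * θ : ℝ) : ℂ))).re = (c 0).re := by simp
    rw [e0, Complex.ofReal_re] at h5
    exact h5
  have h6 := Complex.hasSum_re h2
  have h7 := h4.sub h6
  have h8 : (fun n : ℕ => (c n * x ^ n).re + (c n * x ^ n).re -
      ((if n = 0 then c 0 else 2 * c n) * x ^ n).re) = fun n : ℕ => if n = 0 then (c 0).re else 0 := by
    funext n
    rcases Nat.eq_zero_or_pos n with rfl | hn
    · simp
    · rw [if_neg hn.ne', if_neg hn.ne', mul_assoc]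
      simp only [Complex.mul_re, Complex.re_ofNat, Complex.im_ofNat]
      ring
  have h9 : HasSum (fun n : ℕ => if n = 0 then (c 0).re else 0) (c 0).re := hasSum_ite_eq 0 _
  rw [← h8] at h9
  have h10 := h7.unique h9
  linarith

/-- Proof. Let `φ, c` be as in `exists_coef` for `δ / 2`. Put `d 0 = c 0`, `d n = 2 c n` (`n ≥ 1`) and let
`h` be the function of `exists_ext` for `d`. For `ξ = e^{iθ}`, `θ ∈ [-π, π]` (`θ = Complex.arg ξ`),
`(h ξ).re = ∑_{n ∈ ℤ} c n e^{inθ} = φ θ` (split the sum over `ℤ` in `n ≥ 0` and `n < 0`, e.g.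
`HasSum.nat_add_neg` or `HasSum.of_nat_of_neg_add_one`, and use `c (-n) = conj (c n)`, so that
`c n e^{inθ} + c(-n) e^{-inθ} = 2 Re (c n e^{inθ})`; `c 0` is real).
`‖e^{iθ} - 1‖ ≤ |θ|` (`Complex.norm_exp_I_mul_ofReal_sub_one_le` or similar), so `δ ≤ ‖ξ - 1‖` gives
`δ / 2 ≤ |θ|`. -/
theorem exists_h {δ : ℝ} (hδ : 0 < δ) : ∃ h : ℂ → ℂ, ContDiff ℝ ((⊤ : ℕ∞) : WithTop ℕ∞) h ∧
    HasCompactSupport h ∧ DifferentiableOn ℂ h (Metric.ball 0 1) ∧
    (∀ ξ, ‖ξ‖ = 1 → 0 ≤ (h ξ).re) ∧ 0 < (h 1).re ∧ ∀ ξ, ‖ξ‖ = 1 → δ ≤ ‖ξ - 1‖ → (h ξ).re = 0 := by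
  obtain ⟨φ, c, hdec, hsymm, hinv, hφ0, hφpos, hφz⟩ := exists_coef (half_pos hδ)
  have hd : ∀ k : ℕ, Summable fun n : ℕ =>
      ((n:ℝ) + 1) ^ k * ‖(if n = 0 then c 0 else 2 * c n : ℂ)‖ := by
    intro k
    have h1 : Summable fun n : ℕ => (1 + |(((n : ℤ)):ℝ)|) ^ k * ‖c (n : ℤ)‖ :=
      (hdec k).comp_injective Nat.cast_injective
    refine Summable.of_nonneg_of_le (fun n => by positivity) (fun n => ?_) (h1.mul_left 2)
    have h2 : ‖(if n = 0 then c 0 else 2 * c n : ℂ)‖ ≤ 2 * ‖c (n : ℤ)‖ := by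
      split_ifs with h
      · subst h
        have := norm_nonneg (c 0)
        simp only [Nat.cast_zero]
        linarith
      · rw [norm_mul]
        simp
    have h3 : (1 + |(((n : ℤ)):ℝ)|) = (n : ℝ) + 1 := by
      rw [Int.cast_natCast, abs_of_nonneg (Nat.cast_nonneg n)]
      ring
    rw [h3]
    calc ((n:ℝ) + 1) ^ k * ‖(if n = 0 then c 0 else 2 * c n : ℂ)‖
        ≤ ((n:ℝ) + 1) ^ k * (2 * ‖c (n : ℤ)‖) := by gcongr
      _ = _ := by ring
  obtain ⟨h, hsm, hcs, hdiff, hsum⟩ := exists_ext hd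
  have key : ∀ x : ℂ, ‖x‖ = 1 → (h x).re = φ (Complex.arg x) := by
    intro x hx
    have h1 : x = Complex.exp (Complex.I * (Complex.arg x : ℂ)) := by
      have h2 := Complex.norm_mul_exp_arg_mul_I x
      rw [hx, Complex.ofReal_one, one_mul, mul_comm] at h2
      exact h2.symm
    exact chgc_re hsymm h1 (hinv _ ⟨(Complex.neg_pi_lt_arg x).le, Complex.arg_le_pi x⟩)
      (hsum x hx.le)
  refine ⟨h, hsm, hcs, hdiff, ?_, ?_, ?_⟩
  · intro x hx
    rw [key x hx]
    exact hφ0 _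
  · rw [key 1 (by simp), Complex.arg_one]
    exact hφpos
  · intro x hx hxd
    rw [key x hx]
    apply hφz
    have h1 : x = Complex.exp (Complex.I * (Complex.arg x : ℂ)) := by
      have h2 := Complex.norm_mul_exp_arg_mul_I x
      rw [hx, Complex.ofReal_one, one_mul, mul_comm] at h2
      exact h2.symm
    have h2 := Real.norm_exp_I_mul_ofReal_sub_one_le (x := Complex.arg x)
    rw [← h1, Real.norm_eq_abs] at h2
    linarith

end Pool.Agent.Lib.MP_79abb3_an.SC
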