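import Pool.Agent.Lib.MP_79abb3_an.SC.FinalDef
import Pool.Agent.Lib.MP_79abb3_an.SC.ChGc

/-!
Theorem C (MP_79abb3_an), block (v), disc to half plane, part d: a conformal map `G` of the disc onto a
domain which contains the disc, is larger near the point `1`, and has the same boundary away from `1`.
-/

set_option autoImplicit false
set_option linter.unusedSectionVars false

open MeasureTheory Set Filter Topology Function

namespace Pool.Agent.Lib.MP_79abb3_an.SC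

/-- A smooth compactly supported function is bounded and Lipschitz; `G ξ = ξ exp(ε h ξ)` is a small
perturbation of the identity: for every `η > 0` there is `ε > 0` such that `G - id` is Lipschitz with
constant `η` on the plane and bounded by `η`.
Proof: `G ξ - ξ = ξ (exp(ε h ξ) - 1)` is smooth with support in the support of `h` (compact), its
derivative is `(exp(ε h) - 1) dξ + ξ exp(ε h) ε dh`, bounded by a constant times `ε` for `0 < ε ≤ 1`. -/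
theorem exists_eps {h : ℂ → ℂ} (hs : ContDiff ℝ ((⊤ : ℕ∞) : WithTop ℕ∞) h) (hc : HasCompactSupport h)
    {η : ℝ} (hη : 0 < η) : ∃ ε₀ : ℝ, 0 < ε₀ ∧ ∀ ε : ℝ, 0 < ε → ε ≤ ε₀ →
      (∀ ξ, ‖ξ * Complex.exp ((ε : ℂ) * h ξ) - ξ‖ ≤ η) ∧
      ∀ ξ ξ', ‖(ξ * Complex.exp ((ε : ℂ) * h ξ) - ξ) - (ξ' * Complex.exp ((ε : ℂ) * h ξ') - ξ')‖ ≤
        η * ‖ξ - ξ'‖ := by
  obtain ⟨M, hM⟩ : ∃ M, ∀ ξ, ‖h ξ‖ ≤ M := hc.exists_bound_of_continuous hs.continuous
  obtain ⟨M', hM'⟩ : ∃ M', ∀ ξ, ‖fderiv ℝ h ξ‖ ≤ M' :=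
    (hc.fderiv ℝ).exists_bound_of_continuous (hs.continuous_fderiv (by simp))
  obtain ⟨R, hR⟩ : ∃ R, ∀ ξ ∈ tsupport h, ‖ξ‖ ≤ R := hc.isCompact.isBounded.exists_norm_le
  have hM0 : 0 ≤ M := (norm_nonneg _).trans (hM 0)
  have hM0' : 0 ≤ M' := (norm_nonneg _).trans (hM' 0)
  obtain ⟨R', hR0, hR'⟩ : ∃ R', 0 ≤ R' ∧ ∀ ξ ∈ tsupport h, ‖ξ‖ ≤ R' :=
    ⟨max R 0, le_max_right _ _, fun ξ hξ => (hR ξ hξ).trans (le_max_left _ _)⟩
  have hK : 0 < 2 * M * R' + 2 * M + R' * (3 * M') + M + 1 := by positivity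
  refine ⟨η / (2 * M * R' + 2 * M + R' * (3 * M') + M + 1) ⊓ 1 / (M + 1), by positivity, ?_⟩
  intro ε hε hε1
  have hεK : ε * (2 * M * R' + 2 * M + R' * (3 * M') + M + 1) ≤ η := by
    have := hε1.trans inf_le_left
    rwa [le_div_iff₀ hK] at this
  have hεM : ε * M ≤ 1 := by
    have h1 := hε1.trans inf_le_right
    rw [le_div_iff₀ (by positivity)] at h1
    nlinarith
  have hεn : ‖(ε : ℂ)‖ = ε := by rw [Complex.norm_real, Real.norm_of_nonneg hε.le]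
  have hx : ∀ ξ, ‖(ε : ℂ) * h ξ‖ ≤ ε * M := fun ξ => by
    rw [norm_mul, hεn]
    exact mul_le_mul_of_nonneg_left (hM ξ) hε.le
  have hE1 : ∀ ξ, ‖Complex.exp ((ε : ℂ) * h ξ) - 1‖ ≤ 2 * (ε * M) := fun ξ =>
    (Complex.norm_exp_sub_one_le ((hx ξ).trans hεM)).trans
      (mul_le_mul_of_nonneg_left (hx ξ) (by norm_num))
  have hE : ∀ ξ, ‖Complex.exp ((ε : ℂ) * h ξ)‖ ≤ 3 := fun ξ => by
    have h1 : ‖Complex.exp ((ε : ℂ) * h ξ)‖ ≤ ‖Complex.exp ((ε : ℂ) * h ξ) - 1‖ + ‖(1 : ℂ)‖ := by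
      have := norm_add_le (Complex.exp ((ε : ℂ) * h ξ) - 1) 1
      rwa [sub_add_cancel] at this
    rw [norm_one] at h1
    have := hE1 ξ
    linarith
  constructor
  · intro ξ
    by_cases hξ : ξ ∈ tsupport h
    · have h1 : ‖ξ * Complex.exp ((ε : ℂ) * h ξ) - ξ‖ = ‖ξ‖ * ‖Complex.exp ((ε : ℂ) * h ξ) - 1‖ := by
        rw [← norm_mul]
        congr 1
        ring
      rw [h1]
      calc ‖ξ‖ * ‖Complex.exp ((ε : ℂ) * h ξ) - 1‖ ≤ R' * (2 * (ε * M)) :=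
            mul_le_mul (hR' ξ hξ) (hE1 ξ) (norm_nonneg _) hR0
        _ ≤ ε * (2 * M * R' + 2 * M + R' * (3 * M') + M + 1) := by
            have : 0 ≤ ε * (2 * M + R' * (3 * M') + M + 1) := by positivity
            nlinarith
        _ ≤ η := hεK
    · rw [image_eq_zero_of_notMem_tsupport hξ]
      simp [hη.le]
  · have hd : ∀ ξ, HasFDerivAt (fun ξ => ξ * Complex.exp ((ε : ℂ) * h ξ) - ξ)
        (ξ • (Complex.exp ((ε : ℂ) * h ξ) • ((ε : ℂ) • fderiv ℝ h ξ)) +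
          Complex.exp ((ε : ℂ) * h ξ) • ContinuousLinearMap.id ℝ ℂ - ContinuousLinearMap.id ℝ ℂ) ξ := by
      intro ξ
      have h1 : HasFDerivAt h (fderiv ℝ h ξ) ξ :=
        ((hs.differentiable (by simp)) ξ).hasFDerivAt
      have h2 := (h1.const_mul (ε : ℂ)).cexp
      exact ((hasFDerivAt_id ξ).mul h2).sub (hasFDerivAt_id ξ)
    have hb : ∀ ξ, ‖ξ • (Complex.exp ((ε : ℂ) * h ξ) • ((ε : ℂ) • fderiv ℝ h ξ)) +
          Complex.exp ((ε : ℂ) * h ξ) • ContinuousLinearMap.id ℝ ℂ - ContinuousLinearMap.id ℝ ℂ‖ ≤ η := by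
      intro ξ
      by_cases hξ : ξ ∈ tsupport h
      · have e1 : ξ • (Complex.exp ((ε : ℂ) * h ξ) • ((ε : ℂ) • fderiv ℝ h ξ)) +
          Complex.exp ((ε : ℂ) * h ξ) • ContinuousLinearMap.id ℝ ℂ - ContinuousLinearMap.id ℝ ℂ =
          ξ • (Complex.exp ((ε : ℂ) * h ξ) • ((ε : ℂ) • fderiv ℝ h ξ)) +
          (Complex.exp ((ε : ℂ) * h ξ) - 1) • ContinuousLinearMap.id ℝ ℂ := by
          refine ContinuousLinearMap.ext fun v => ?_
          simp only [add_apply, sub_apply,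
            smul_apply, ContinuousLinearMap.id_apply, smul_eq_mul]
          ring
        rw [e1]
        have e2 : ‖(Complex.exp ((ε : ℂ) * h ξ) - 1) • ContinuousLinearMap.id ℝ ℂ‖ ≤ 2 * (ε * M) := by
          rw [norm_smul]
          calc ‖Complex.exp ((ε : ℂ) * h ξ) - 1‖ * ‖ContinuousLinearMap.id ℝ ℂ‖
              ≤ ‖Complex.exp ((ε : ℂ) * h ξ) - 1‖ * 1 :=
                mul_le_mul_of_nonneg_left ContinuousLinearMap.norm_id_le (norm_nonneg _)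
            _ ≤ 2 * (ε * M) := by rw [mul_one]; exact hE1 ξ
        have e3 : ‖ξ • (Complex.exp ((ε : ℂ) * h ξ) • ((ε : ℂ) • fderiv ℝ h ξ))‖ ≤
            R' * (3 * (ε * M')) := by
          rw [norm_smul, norm_smul, norm_smul, hεn]
          gcongr
          · exact hR' ξ hξ
          · exact hE ξ
          · exact hM' ξ
        calc _ ≤ R' * (3 * (ε * M')) + 2 * (ε * M) := (norm_add_le _ _).trans (add_le_add e3 e2)
          _ ≤ ε * (2 * M * R' + 2 * M + R' * (3 * M') + M + 1) := by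
            have : 0 ≤ ε * (2 * M * R' + M + 1) := by positivity
            nlinarith
          _ ≤ η := hεK
      · have h0 : h ξ = 0 := image_eq_zero_of_notMem_tsupport hξ
        have h1 : fderiv ℝ h ξ = 0 := by
          have : ξ ∉ tsupport (fderiv ℝ h) := fun hh => hξ (tsupport_fderiv_subset ℝ hh)
          exact image_eq_zero_of_notMem_tsupport this
        rw [h0, h1]
        simp [hη.le]
    intro ξ ξ'
    exact Convex.norm_image_sub_le_of_norm_hasFDerivWithin_le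
      (f := fun ξ => ξ * Complex.exp ((ε : ℂ) * h ξ) - ξ)
      (s := univ) (fun x _ => (hd x).hasFDerivWithinAt) (fun x _ => hb x) convex_univ
      (mem_univ ξ') (mem_univ ξ)

/-- A perturbation of the identity with Lipschitz constant `≤ 1/2` is a homeomorphism of the plane.
Proof: injectivity and antilipschitz are immediate; surjectivity: for `w` the map `ξ ↦ w - (G ξ - ξ)` is
a contraction (`ContractingWith.exists_fixedPoint`, or `LipschitzWith`...). The inverse is Lipschitz with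
constant `2`. (Mathlib also has `ApproximatesLinearOn` for this.) -/
theorem homeo_of_lip {G : ℂ → ℂ}
    (hG : ∀ ξ ξ', ‖(G ξ - ξ) - (G ξ' - ξ')‖ ≤ 1 / 2 * ‖ξ - ξ'‖) : ∃ g : ℂ ≃ₜ ℂ, ∀ ξ, g ξ = G ξ := by
  have hA : ApproximatesLinearOn G ((ContinuousLinearEquiv.refl ℝ ℂ : ℂ ≃L[ℝ] ℂ) : ℂ →L[ℝ] ℂ)
      univ (1 / 2 : NNReal) := by
    intro x _ y _
    have := hG x y
    have e : G x - G y - ((ContinuousLinearEquiv.refl ℝ ℂ : ℂ ≃L[ℝ] ℂ) : ℂ →L[ℝ] ℂ) (x - y) =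
        (G x - x) - (G y - y) := by
      simp only [ContinuousLinearEquiv.coe_refl, ContinuousLinearMap.coe_id', id_eq]
      ring
    rw [e]
    simpa using this
  have hN : Subsingleton ℂ ∨ (1 / 2 : NNReal) <
      ‖(((ContinuousLinearEquiv.refl ℝ ℂ).symm : ℂ ≃L[ℝ] ℂ) : ℂ →L[ℝ] ℂ)‖₊⁻¹ := by
    right
    have : ‖(((ContinuousLinearEquiv.refl ℝ ℂ).symm : ℂ ≃L[ℝ] ℂ) : ℂ →L[ℝ] ℂ)‖₊ = 1 := by
      rw [ContinuousLinearEquiv.refl_symm, ContinuousLinearEquiv.coe_refl]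
      exact ContinuousLinearMap.nnnorm_id
    rw [this, inv_one]
    rw [← NNReal.coe_lt_coe]
    norm_num
  refine ⟨hA.toHomeomorph G hN, fun ξ => ?_⟩
  rfl

/-- Proof. Take `h` from `exists_h` for `δ / 8`, `L ≥ 0` a Lipschitz constant of `h` (smooth, compact
support), `η = min (1/4) (δ/8)`, `ε` from `exists_eps`, also `ε L < 1`, and `G ξ = ξ exp(ε h ξ)`.
* `IsConf G`: smooth; holomorphic on the open disc; injective on the plane (Lipschitz perturbation of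
  the identity with constant `1/4`); `fderiv ℝ G ξ ≠ 0` since `‖fderiv ℝ (G - id) ξ‖ ≤ 1/4`.
* `1 < ‖G 1‖ = exp(ε Re h(1))`.
* On the circle `‖G ξ‖ = exp(ε Re h ξ) ≥ 1`. Let `g` be the homeomorphism of `homeo_of_lip`, `B` the open
  unit disc. `g⁻¹(B)` is connected, contains `0` (`G 0 = 0`) and does not meet the circle, so it is
  contained in `B`: `B ⊆ G '' B`. (Connected sets: `IsPreconnected.subset_of_...`, e.g. `g⁻¹(B)` is
  preconnected and is covered by the disjoint open sets `‖ξ‖ < 1`, `‖ξ‖ > 1`.)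
* Let `‖w‖ = 1`, `δ ≤ ‖w - 1‖`, `w = G ξ` (surjectivity). `w` is a limit of points of `B ⊆ G '' B`, so
  `‖ξ‖ ≤ 1` (continuity of `g⁻¹`). `‖ξ - w‖ ≤ η ≤ δ/8`, `η ≤ 1/4`, so `‖ξ‖ ≥ 3/4`. Suppose `‖ξ‖ < 1` and
  let `ξ' = ξ / ‖ξ‖`. `‖ξ' - w‖ ≤ ‖ξ' - ξ‖ + ‖ξ - w‖ ≤ 2 η ≤ δ/4` (`‖ξ' - ξ‖ = 1 - ‖ξ‖ ≤ η`), so
  `δ / 8 ≤ ‖ξ' - 1‖` and `Re h ξ' = 0`, hence `Re h ξ ≤ L (1 - ‖ξ‖)` and
  `1 = ‖w‖ = ‖ξ‖ exp(ε Re h ξ) ≤ ‖ξ‖ exp(ε L (1 - ‖ξ‖)) < ‖ξ‖ exp(1 - ‖ξ‖) ≤ 1` (`x ≤ exp(x - 1)`,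
  `Real.add_one_le_exp`), a contradiction. So `‖ξ‖ = 1`. -/
theorem exists_G0 {δ : ℝ} (hδ : 0 < δ) : ∃ G : ℂ → ℂ, IsConf G ∧
    Metric.ball 0 1 ⊆ G '' Metric.ball 0 1 ∧ 1 < ‖G 1‖ ∧
    ∀ w : ℂ, ‖w‖ = 1 → δ ≤ ‖w - 1‖ → ∃ ξ : ℂ, ‖ξ‖ = 1 ∧ G ξ = w := by
  obtain ⟨h, hs, hc, hhol, hre, hre1, hre0⟩ := exists_h (δ := δ / 8) (by positivity)
  obtain ⟨L, hL⟩ : ∃ L : NNReal, LipschitzWith L h := hs.lipschitzWith_of_hasCompactSupport hc (by simp)
  have hη : 0 < (1 / 4 : ℝ) ⊓ (δ / 8) := by positivity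
  obtain ⟨ε₀, hε₀, hεη⟩ := exists_eps hs hc hη
  have hL0 : (0:ℝ) ≤ L := L.coe_nonneg
  obtain ⟨ε, hε, hεε₀, hεL⟩ : ∃ ε : ℝ, 0 < ε ∧ ε ≤ ε₀ ∧ ε * L < 1 := by
    refine ⟨ε₀ ⊓ 1 / (L + 1), by positivity, inf_le_left, ?_⟩
    have h1 : ε₀ ⊓ 1 / ((L:ℝ) + 1) ≤ 1 / (L + 1) := inf_le_right
    have h2 : (1 / ((L:ℝ) + 1)) * L < 1 := by
      rw [div_mul_eq_mul_div, one_mul, div_lt_one (by positivity)]
      linarith
    exact (mul_le_mul_of_nonneg_right h1 hL0).trans_lt h2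
  obtain ⟨hb, hl⟩ := hεη ε hε hεε₀
  set G : ℂ → ℂ := fun ξ => ξ * Complex.exp ((ε : ℂ) * h ξ) with hGdef
  have hb4 : ∀ ξ, ‖G ξ - ξ‖ ≤ 1 / 4 := fun ξ => (hb ξ).trans inf_le_left
  have hb8 : ∀ ξ, ‖G ξ - ξ‖ ≤ δ / 8 := fun ξ => (hb ξ).trans inf_le_right
  have hl4 : ∀ ξ ξ', ‖(G ξ - ξ) - (G ξ' - ξ')‖ ≤ 1 / 4 * ‖ξ - ξ'‖ := fun ξ ξ' =>
    (hl ξ ξ').trans (mul_le_mul_of_nonneg_right inf_le_left (norm_nonneg _))
  have hnorm : ∀ ξ, ‖G ξ‖ = ‖ξ‖ * Real.exp (ε * (h ξ).re) := by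
    intro ξ
    simp only [hGdef]
    rw [norm_mul, Complex.norm_exp]
    congr 2
    simp
  have hsm : ContDiff ℝ ((⊤ : ℕ∞) : WithTop ℕ∞) G := contDiff_id.mul ((contDiff_const.mul hs).cexp)
  have hinj : Injective G := by
    intro ξ ξ' he
    have h1 := hl4 ξ ξ'
    rw [he] at h1
    have h2 : (G ξ' - ξ) - (G ξ' - ξ') = -(ξ - ξ') := by ring
    rw [h2, norm_neg] at h1
    have h3 : ‖ξ - ξ'‖ = 0 := by
      have := norm_nonneg (ξ - ξ')
      linarith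
    exact sub_eq_zero.mp (norm_eq_zero.mp h3)
  have hG0 : G 0 = 0 := by simp [hGdef]
  obtain ⟨g, hg⟩ := homeo_of_lip (G := G) (fun ξ ξ' => (hl4 ξ ξ').trans
    (mul_le_mul_of_nonneg_right (by norm_num) (norm_nonneg _)))
  have hsub : g.symm '' Metric.ball 0 1 ⊆ Metric.ball 0 1 := by
    have hpc : IsPreconnected (g.symm '' Metric.ball (0:ℂ) 1) :=
      (convex_ball (0:ℂ) 1).isPreconnected.image _ g.symm.continuous.continuousOn
    refine IsPreconnected.subset_left_of_subset_union (Metric.isOpen_ball)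
      (Metric.isClosed_closedBall (x := (0:ℂ)) (ε := 1)).isOpen_compl ?_ ?_ ?_ hpc
    · rw [Set.disjoint_compl_right_iff_subset]
      exact Metric.ball_subset_closedBall
    · rintro ξ ⟨w, hw, rfl⟩
      have hw1 : ‖w‖ < 1 := by simpa using hw
      have hne : ‖g.symm w‖ ≠ 1 := by
        intro h1
        have h2 : G (g.symm w) = w := by rw [← hg]; exact g.apply_symm_apply w
        have h3 := hnorm (g.symm w)
        rw [h2, h1, one_mul] at h3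
        have h4 : 1 ≤ Real.exp (ε * (h (g.symm w)).re) :=
          Real.one_le_exp (mul_nonneg hε.le (hre _ h1))
        linarith
      rcases lt_or_gt_of_ne hne with h1 | h1
      · left
        simpa using h1
      · right
        simpa using h1
    · refine ⟨0, ⟨0, by simp, ?_⟩, by simp⟩
      rw [g.symm_apply_eq, hg, hG0]
  have hball : Metric.ball (0:ℂ) 1 ⊆ G '' Metric.ball 0 1 := by
    intro w hw
    refine ⟨g.symm w, hsub ⟨w, hw, rfl⟩, ?_⟩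
    rw [← hg]
    exact g.apply_symm_apply w
  refine ⟨G, ⟨hsm, ?_, hinj.injOn, ?_⟩, hball, ?_, ?_⟩
  · exact differentiableOn_id.mul ((hhol.const_mul (ε : ℂ)).cexp)
  · intro ξ _ h0
    have hd : HasFDerivAt G (fderiv ℝ G ξ) ξ := ((hsm.differentiable (by simp)) ξ).hasFDerivAt
    have hd2 : HasFDerivAt (fun ξ => G ξ - ξ) (fderiv ℝ G ξ - ContinuousLinearMap.id ℝ ℂ) ξ :=
      hd.sub (hasFDerivAt_id ξ)
    have hlip : LipschitzWith (1 / 4 : NNReal) (fun ξ => G ξ - ξ) := by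
      refine LipschitzWith.of_dist_le_mul fun x y => ?_
      rw [dist_eq_norm, dist_eq_norm]
      simpa using hl4 x y
    have h1 := hd2.le_of_lipschitz hlip
    rw [h0, zero_sub, norm_neg, ContinuousLinearMap.norm_id] at h1
    norm_num at h1
  · rw [hnorm, norm_one, one_mul]
    exact Real.one_lt_exp_iff.mpr (mul_pos hε hre1)
  · intro w hw hwδ
    have hGw : G (g.symm w) = w := by rw [← hg]; exact g.apply_symm_apply w
    refine ⟨g.symm w, ?_, hGw⟩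
    have hle : ‖g.symm w‖ ≤ 1 := by
      have h1 : w ∈ closure (Metric.ball (0:ℂ) 1) := by
        rw [closure_ball (0:ℂ) one_ne_zero]
        simp [hw]
      have h2 : g.symm w ∈ closure (g.symm '' Metric.ball (0:ℂ) 1) :=
        image_closure_subset_closure_image g.symm.continuous ⟨w, h1, rfl⟩
      have h3 : g.symm w ∈ closure (Metric.ball (0:ℂ) 1) := closure_mono hsub h2
      rw [closure_ball (0:ℂ) one_ne_zero] at h3
      simpa using h3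
    by_contra hne
    have hlt : ‖g.symm w‖ < 1 := lt_of_le_of_ne hle hne
    set ξ := g.symm w with hξ
    have hd8 : ‖w - ξ‖ ≤ δ / 8 := by
      have := hb8 ξ
      rwa [hGw] at this
    have hd4 : ‖w - ξ‖ ≤ 1 / 4 := by
      have := hb4 ξ
      rwa [hGw] at this
    have htri : 1 - ‖ξ‖ ≤ ‖w - ξ‖ := by
      have := norm_sub_norm_le w ξ
      rwa [hw] at this
    have hpos : 0 < ‖ξ‖ := by linarith
    set ξ' : ℂ := ((1 / ‖ξ‖ : ℝ) : ℂ) * ξ with hξ'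
    have hξ'1 : ‖ξ'‖ = 1 := by
      rw [hξ', norm_mul, Complex.norm_real, Real.norm_of_nonneg (by positivity)]
      field_simp
    have hξξ' : ‖ξ' - ξ‖ = 1 - ‖ξ‖ := by
      have e : ξ' - ξ = ((1 / ‖ξ‖ - 1 : ℝ) : ℂ) * ξ := by
        rw [hξ']
        push_cast
        ring
      rw [e, norm_mul, Complex.norm_real, Real.norm_of_nonneg]
      · field_simp
      · rw [sub_nonneg, le_div_iff₀ hpos]
        linarith
    have hfar : δ / 8 ≤ ‖ξ' - 1‖ := by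
      have e : w - 1 = (w - ξ) - (ξ' - ξ) + (ξ' - 1) := by ring
      have h1 : ‖w - 1‖ ≤ ‖w - ξ‖ + ‖ξ' - ξ‖ + ‖ξ' - 1‖ := by
        rw [e]
        exact (norm_add_le _ _).trans (add_le_add_left (norm_sub_le _ _) _)
      linarith
    have hre' : (h ξ').re = 0 := hre0 ξ' hξ'1 hfar
    have hreξ : (h ξ).re ≤ L * (1 - ‖ξ‖) := by
      have h1 : ‖h ξ - h ξ'‖ ≤ L * ‖ξ - ξ'‖ := hL.norm_sub_le ξ ξ'
      have h2 : (h ξ - h ξ').re ≤ ‖h ξ - h ξ'‖ := Complex.re_le_norm _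
      rw [Complex.sub_re, hre', sub_zero] at h2
      rw [norm_sub_rev ξ ξ', hξξ'] at h1
      exact h2.trans h1
    have h5 : ε * (h ξ).re < 1 - ‖ξ‖ := by
      calc ε * (h ξ).re ≤ ε * (L * (1 - ‖ξ‖)) := mul_le_mul_of_nonneg_left hreξ hε.le
        _ = (ε * L) * (1 - ‖ξ‖) := by ring
        _ < 1 * (1 - ‖ξ‖) := mul_lt_mul_of_pos_right hεL (by linarith)
        _ = 1 - ‖ξ‖ := one_mul _
    have h6 : ‖w‖ = ‖ξ‖ * Real.exp (ε * (h ξ).re) := by rw [← hnorm, hGw]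
    have h7 : ‖ξ‖ * Real.exp (ε * (h ξ).re) < ‖ξ‖ * Real.exp (1 - ‖ξ‖) :=
      mul_lt_mul_of_pos_left (Real.exp_lt_exp.mpr h5) hpos
    have h8 : ‖ξ‖ * Real.exp (1 - ‖ξ‖) ≤ 1 := by
      have h9 : ‖ξ‖ ≤ Real.exp (‖ξ‖ - 1) := by
        have := Real.add_one_le_exp (‖ξ‖ - 1)
        linarith
      calc ‖ξ‖ * Real.exp (1 - ‖ξ‖) ≤ Real.exp (‖ξ‖ - 1) * Real.exp (1 - ‖ξ‖) :=
            mul_le_mul_of_nonneg_right h9 (Real.exp_pos _).le
        _ = 1 := by rw [← Real.exp_add]; simp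
    rw [hw] at h6
    linarith

end Pool.Agent.Lib.MP_79abb3_an.SC
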