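import Pool.Agent.Lib.MP_79abb3_an.SC.ChDef
import Pool.Agent.Lib.MP_79abb3_an.SC.ChGd

/-!
Theorem C (MP_79abb3_an), block (v), disc to half plane, part e: the chart of the flow region.
-/

set_option autoImplicit false
set_option linter.unusedSectionVars false

open MeasureTheory Set Filter Topology Function

namespace Pool.Agent.Lib.MP_79abb3_an.SC

/-- real derivative of a complex differentiable map -/
private theorem ge_fderiv_complex {F : ℂ → ℂ} {ξ : ℂ} (h : DifferentiableAt ℂ F ξ) (v : ℂ) :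
    fderiv ℝ F ξ v = fderiv ℝ F ξ 1 * v := by
  have h1 : fderiv ℝ F ξ = (fderiv ℂ F ξ).restrictScalars ℝ :=
    (h.hasFDerivAt.restrictScalars ℝ).fderiv
  rw [h1]
  show fderiv ℂ F ξ v = fderiv ℂ F ξ 1 * v
  have h2 : fderiv ℂ F ξ v = fderiv ℂ F ξ (v • (1 : ℂ)) := by rw [smul_eq_mul, mul_one]
  rw [h2, map_smul, smul_eq_mul, mul_comm]

/-- The real derivative of a conformal map is complex linear on the closed disc.
Proof: clear on the open disc (`DifferentiableOn ℂ`, restrict scalars, `HasFDerivAt.unique`), and on the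
closed disc by continuity of `fderiv ℝ F` (the closed disc is the closure of the open disc). -/
theorem IsConf.fderiv_eq {F : ℂ → ℂ} (hF : IsConf F) {ξ : ℂ} (hξ : ξ ∈ Metric.closedBall (0:ℂ) 1)
    (v : ℂ) : fderiv ℝ F ξ v = fderiv ℝ F ξ 1 * v := by
  have hc : Continuous (fderiv ℝ F) := hF.smooth.continuous_fderiv (by simp)
  have hcl : IsClosed {ξ : ℂ | fderiv ℝ F ξ v = fderiv ℝ F ξ 1 * v} :=
    isClosed_eq (hc.clm_apply continuous_const) ((hc.clm_apply continuous_const).mul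
      continuous_const)
  have hsub : Metric.ball (0 : ℂ) 1 ⊆ {ξ : ℂ | fderiv ℝ F ξ v = fderiv ℝ F ξ 1 * v} := by
    intro ζ hζ
    exact ge_fderiv_complex ((hF.holo ζ hζ).differentiableAt (Metric.isOpen_ball.mem_nhds hζ)) v
  have h := closure_minimal hsub hcl
  rw [closure_ball (0 : ℂ) one_ne_zero] at h
  exact h hξ

/-- The Moebius transformation `ζ ↦ (ζ - i)/(ζ + i)` of the upper half plane onto the disc, modified near
its pole `-i`: `M ζ = (ζ - i) * conj (ζ + i) * g (normSq (ζ + i))` with `g : ℝ → ℝ` smooth, `g s = 1/s`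
for `s ≥ 1/4` (for instance `g s = Real.smoothTransition (8 s - 1) / s`, zero near `s = 0`). -/
theorem exists_mob : ∃ M : ℂ → ℂ, ContDiff ℝ ((⊤ : ℕ∞) : WithTop ℕ∞) M ∧
    ∀ ζ : ℂ, -(1 / 2) < ζ.im → M ζ = (ζ - Complex.I) / (ζ + Complex.I) := by
  set g : ℝ → ℝ := fun s => Real.smoothTransition (8 * s - 1) / s with hg
  have hgs : ContDiff ℝ ((⊤ : ℕ∞) : WithTop ℕ∞) g := by
    rw [contDiff_iff_contDiffAt]
    intro s
    rcases lt_or_ge s (1 / 8) with hs | hs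
    · have h1 : g =ᶠ[𝓝 s] fun _ => 0 := by
        filter_upwards [Iio_mem_nhds hs] with t ht
        have ht' : t < 1 / 8 := ht
        rw [hg]
        simp only
        rw [Real.smoothTransition.zero_of_nonpos (by linarith), zero_div]
      exact (contDiffAt_const (c := (0 : ℝ))).congr_of_eventuallyEq h1
    · have hs0 : s ≠ 0 := by
        rintro rfl
        norm_num at hs
      refine ContDiffAt.div ?_ contDiffAt_id hs0
      exact (Real.smoothTransition.contDiff.comp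
        ((contDiff_const.mul contDiff_id).sub contDiff_const)).contDiffAt
  have hn : ContDiff ℝ ((⊤ : ℕ∞) : WithTop ℕ∞) (fun ζ : ℂ => Complex.normSq (ζ + Complex.I)) := by
    have h0 : ContDiff ℝ ((⊤ : ℕ∞) : WithTop ℕ∞) (fun ζ : ℂ => ζ + Complex.I) :=
      contDiff_id.add contDiff_const
    have hr := Complex.reCLM.contDiff (n := ((⊤ : ℕ∞) : WithTop ℕ∞)) |>.comp h0
    have hi := Complex.imCLM.contDiff (n := ((⊤ : ℕ∞) : WithTop ℕ∞)) |>.comp h0
    have h2 : (fun ζ : ℂ => Complex.normSq (ζ + Complex.I)) =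
        fun ζ : ℂ => (ζ + Complex.I).re * (ζ + Complex.I).re +
          (ζ + Complex.I).im * (ζ + Complex.I).im := by
      funext ζ
      exact Complex.normSq_apply _
    rw [h2]
    exact (hr.mul hr).add (hi.mul hi)
  refine ⟨fun ζ => (ζ - Complex.I) * (starRingEnd ℂ) (ζ + Complex.I) *
    ((g (Complex.normSq (ζ + Complex.I)) : ℝ) : ℂ), ?_, ?_⟩
  · refine ContDiff.mul (ContDiff.mul (contDiff_id.sub contDiff_const) ?_) ?_
    · exact Complex.conjCLE.contDiff.comp (contDiff_id.add contDiff_const)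
    · exact Complex.ofRealCLM.contDiff.comp (hgs.comp hn)
  · intro ζ hζ
    have hs : 1 / 4 < Complex.normSq (ζ + Complex.I) := by
      rw [Complex.normSq_apply]
      simp only [Complex.add_re, Complex.I_re, add_zero, Complex.add_im, Complex.I_im]
      nlinarith [mul_self_nonneg ζ.re]
    have hne : ζ + Complex.I ≠ 0 := by
      intro h
      rw [h, map_zero] at hs
      norm_num at hs
    simp only [hg]
    rw [Real.smoothTransition.one_of_one_le (by linarith)]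
    rw [eq_div_iff hne]
    have h2 : (starRingEnd ℂ) (ζ + Complex.I) * (ζ + Complex.I) =
        ((Complex.normSq (ζ + Complex.I) : ℝ) : ℂ) := by
      rw [mul_comm, Complex.mul_conj]
    have h3' : Complex.normSq (ζ + Complex.I) ≠ 0 := by
      intro h
      rw [h] at hs
      norm_num at hs
    have h3 : ((Complex.normSq (ζ + Complex.I) : ℝ) : ℂ) ≠ 0 := by exact_mod_cast h3'
    calc (ζ - Complex.I) * (starRingEnd ℂ) (ζ + Complex.I) *
          ((1 / Complex.normSq (ζ + Complex.I) : ℝ) : ℂ) * (ζ + Complex.I)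
        = (ζ - Complex.I) * ((starRingEnd ℂ) (ζ + Complex.I) * (ζ + Complex.I)) *
          ((1 / Complex.normSq (ζ + Complex.I) : ℝ) : ℂ) := by ring
      _ = ζ - Complex.I := by
        rw [h2, Complex.ofReal_div, Complex.ofReal_one, mul_assoc, mul_one_div_cancel h3, mul_one]

/-! ### the Moebius transformation -/

private theorem ge_add_ne {ζ : ℂ} (h : 0 ≤ ζ.im) : ζ + Complex.I ≠ 0 := by
  intro h0
  have h1 := congrArg Complex.im h0
  simp only [Complex.add_im, Complex.I_im, Complex.zero_im] at h1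
  linarith

/-- `|ζ + i|² - |ζ - i|² = 4 Im ζ` -/
private theorem ge_normSq (ζ : ℂ) :
    Complex.normSq (ζ + Complex.I) = Complex.normSq (ζ - Complex.I) + 4 * ζ.im := by
  rw [Complex.normSq_apply, Complex.normSq_apply]
  simp only [Complex.add_re, Complex.I_re, Complex.add_im, Complex.I_im, Complex.sub_re,
    Complex.sub_im]
  ring

private theorem ge_mob_le {ζ : ℂ} (h : 0 ≤ ζ.im) :
    ‖(ζ - Complex.I) / (ζ + Complex.I)‖ ≤ 1 := by
  have h0 := norm_pos_iff.2 (ge_add_ne h)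
  rw [norm_div, div_le_one h0]
  have h1 := ge_normSq ζ
  rw [Complex.normSq_eq_norm_sq, Complex.normSq_eq_norm_sq] at h1
  have h2 := norm_nonneg (ζ - Complex.I)
  nlinarith

private theorem ge_mob_lt {ζ : ℂ} (h : 0 < ζ.im) :
    ‖(ζ - Complex.I) / (ζ + Complex.I)‖ < 1 := by
  have h0 := norm_pos_iff.2 (ge_add_ne h.le)
  rw [norm_div, div_lt_one h0]
  have h1 := ge_normSq ζ
  rw [Complex.normSq_eq_norm_sq, Complex.normSq_eq_norm_sq] at h1
  have h2 := norm_nonneg (ζ - Complex.I)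
  nlinarith

private theorem ge_mob_sub {ζ : ℂ} (h : 0 ≤ ζ.im) :
    (ζ - Complex.I) / (ζ + Complex.I) - 1 = -(2 * Complex.I) / (ζ + Complex.I) := by
  have h0 := ge_add_ne h
  field_simp
  ring

private theorem ge_mob_inj {ζ ζ' : ℂ} (h : 0 ≤ ζ.im) (h' : 0 ≤ ζ'.im)
    (he : (ζ - Complex.I) / (ζ + Complex.I) = (ζ' - Complex.I) / (ζ' + Complex.I)) : ζ = ζ' := by
  have h0 := ge_add_ne h
  have h0' := ge_add_ne h'
  rw [div_eq_div_iff h0 h0'] at he
  have h1 : 2 * Complex.I * (ζ - ζ') = 0 := by linear_combination he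
  have h2 : (2 : ℂ) * Complex.I ≠ 0 := mul_ne_zero two_ne_zero Complex.I_ne_zero
  exact sub_eq_zero.1 ((mul_eq_zero.1 h1).resolve_left h2)

/-- every point `ξ ≠ 1` of the closed disc is attained -/
private theorem ge_mob_surj {ξ : ℂ} (h1 : ‖ξ‖ ≤ 1) (hne : ξ ≠ 1) :
    ∃ ζ : ℂ, 0 ≤ ζ.im ∧ (ζ - Complex.I) / (ζ + Complex.I) = ξ ∧ (‖ξ‖ < 1 → 0 < ζ.im) ∧
      (‖ξ‖ = 1 → ζ.im = 0) := by
  have hd : 1 - ξ ≠ 0 := sub_ne_zero.2 hne.symm
  have hN : 0 < Complex.normSq (1 - ξ) := Complex.normSq_pos.2 hd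
  set ζ := Complex.I * (1 + ξ) / (1 - ξ) with hζ
  have him : ζ.im = (1 - ‖ξ‖ ^ 2) / Complex.normSq (1 - ξ) := by
    rw [hζ, Complex.div_im, ← Complex.normSq_eq_norm_sq, Complex.normSq_apply ξ]
    simp only [Complex.mul_im, Complex.mul_re, Complex.I_re, Complex.I_im, Complex.add_re,
      Complex.add_im, Complex.one_re, Complex.one_im, Complex.sub_re, Complex.sub_im]
    field_simp
    ring
  have hge : 0 ≤ ζ.im := by
    rw [him]
    apply div_nonneg _ hN.le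
    nlinarith [norm_nonneg ξ]
  refine ⟨ζ, hge, ?_, ?_, ?_⟩
  · have h0 := ge_add_ne hge
    rw [div_eq_iff h0, hζ]
    field_simp
    ring
  · intro h
    rw [him]
    apply div_pos _ hN
    nlinarith [norm_nonneg ξ]
  · intro h
    rw [him, h]
    simp

private theorem ge_deriv_mob {ζ : ℂ} (h : 0 ≤ ζ.im) :
    HasDerivAt (fun ζ : ℂ => (ζ - Complex.I) / (ζ + Complex.I))
      (2 * Complex.I / (ζ + Complex.I) ^ 2) ζ := by
  have h0 := ge_add_ne h
  have h1 : HasDerivAt (fun ζ : ℂ => ζ - Complex.I) 1 ζ := (hasDerivAt_id ζ).sub_const _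
  have h2 : HasDerivAt (fun ζ : ℂ => ζ + Complex.I) 1 ζ := (hasDerivAt_id ζ).add_const _
  have h3 := h1.div h2 h0
  have h4 : (1 * (ζ + Complex.I) - (ζ - Complex.I) * 1) / (ζ + Complex.I) ^ 2 =
      2 * Complex.I / (ζ + Complex.I) ^ 2 := by
    congr 1
    ring
  rw [h4] at h3
  exact h3

private theorem ge_fderiv_one_ne {F : ℂ → ℂ} (hF : IsConf F) {ξ : ℂ}
    (hξ : ξ ∈ Metric.closedBall (0:ℂ) 1) : fderiv ℝ F ξ 1 ≠ 0 := by
  intro h
  apply hF.der ξ hξ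
  ext v
  rw [hF.fderiv_eq hξ v, h, zero_mul]
  rfl

/-- The case in which the free point is `ξ = 1`.

Proof. By continuity of `F` at `1` (the complement of `closure (frontier Ω \ Γ)` is open) there is
`δ > 0` with `F w ∉ frontier Ω \ Γ` for `‖w - 1‖ < δ`. Let `G` be the map of `exists_G0` for this `δ`,
`M` the map of `exists_mob`, `F' = F ∘ G ∘ M`, `U = {ξ | ‖ξ‖ < 1 ∧ F ξ ∈ Ω}` (open) and
`O = {ζ | 0 < ζ.im ∧ G (M ζ) ∈ U}` (open).
* For `0 ≤ ζ.im`: `‖M ζ‖ ≤ 1`, with `< 1` iff `0 < ζ.im`; `M` is injective there, every `ξ` with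
  `‖ξ‖ ≤ 1`, `ξ ≠ 1` is `M ζ` with `ζ = i(1+ξ)/(1-ξ)`, `0 ≤ ζ.im`; `M ζ ≠ 1`; `M ζ → 1` as `ζ → ∞`.
* `closure O ⊆ K := {ζ | 0 ≤ ζ.im ∧ ‖G (M ζ)‖ ≤ 1}` (closed). `K` is bounded since `‖G 1‖ > 1` and
  `M ζ → 1` as `‖ζ‖ → ∞`; take `r > 0` with `‖ζ‖ ≤ r` on `K`. This gives `box`.
* `holo`: composition of holomorphic maps at points of `O` (`M` holomorphic near `ζ`, `‖M ζ‖ < 1`,
  `‖G (M ζ)‖ < 1`; at such points `F`, `G` are complex differentiable, `DifferentiableOn` on the open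
  ball).
* `inj` on `K`: `F` is injective on the closed disc, `G` too, `M` on `0 ≤ im`.
* `der` on `K`: chain rule and `IsConf.fderiv_eq` for `F` at `G (M ζ)` and for `G` at `M ζ`; the
  derivative of `M` is `2 i/(ζ + i)²`. So `fderiv ℝ F' ζ 1 = F'(..) * G'(..) * M'(..) ≠ 0`
  (`fderiv ℝ F ξ ≠ 0` and complex linearity give `fderiv ℝ F ξ 1 ≠ 0`).
* `img`: if `x ∈ Ω`, `x = F ξ₁` with `‖ξ₁‖ < 1` (`sub`), `ξ₁ = G ξ₂`, `‖ξ₂‖ < 1`, `ξ₂ = M ζ`, `0 < ζ.im`.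
* `wall`: `x ∈ frontier Ω \ Γ`, `x = F w`, `‖w‖ = 1`, `δ ≤ ‖w - 1‖`; `w = G ξ`, `‖ξ‖ = 1`, `ξ ≠ 1`
  (`1 < ‖G 1‖`), `ξ = M y` with `y` real, `y ∈ K`. `x ∈ closure Ω = closure (F' '' O)` and `closure O` is
  compact, so `closure (F' '' O) = F' '' closure O`, `x = F' ζ` with `ζ ∈ closure O ⊆ K`, and `ζ = y` by
  injectivity on `K`. -/
theorem exists_chart1 {F : ℂ → ℂ} {Ω Γ : Set ℂ} (hF : IsConf F) (hop : IsOpen Ω)
    (hsub : Ω ⊆ F '' Metric.ball 0 1) (hw : frontier Ω \ Γ ⊆ F '' Metric.sphere 0 1)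
    (h1 : F 1 ∉ closure (frontier Ω \ Γ)) :
    ∃ (F' : ℂ → ℂ) (O : Set ℂ) (r : ℝ), 0 < r ∧ IsChart F' O Ω Γ r := by
  have hFc : Continuous F := hF.smooth.continuous
  obtain ⟨δ, hδ, hδb⟩ : ∃ δ > 0, ∀ w : ℂ, ‖w - 1‖ < δ → F w ∉ frontier Ω \ Γ := by
    have ho : IsOpen (F ⁻¹' (closure (frontier Ω \ Γ))ᶜ) :=
      isClosed_closure.isOpen_compl.preimage hFc
    obtain ⟨δ, hδ, hb⟩ := Metric.isOpen_iff.1 ho 1 h1
    refine ⟨δ, hδ, fun w hw' hcon => ?_⟩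
    exact hb (show w ∈ Metric.ball 1 δ by rwa [Metric.mem_ball, dist_eq_norm])
      (subset_closure hcon)
  obtain ⟨Gm, hG, hGsub, hG1, hGw⟩ := exists_G0 hδ
  obtain ⟨M, hMs, hMe⟩ := exists_mob
  have hGc : Continuous Gm := hG.smooth.continuous
  have hMc : Continuous M := hMs.continuous
  have hMe0 : ∀ ζ : ℂ, 0 ≤ ζ.im → M ζ = (ζ - Complex.I) / (ζ + Complex.I) := fun ζ hζ =>
    hMe ζ (by linarith)
  have hMle : ∀ ζ : ℂ, 0 ≤ ζ.im → ‖M ζ‖ ≤ 1 := fun ζ hζ => by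
    rw [hMe0 ζ hζ]; exact ge_mob_le hζ
  have hMlt : ∀ ζ : ℂ, 0 < ζ.im → ‖M ζ‖ < 1 := fun ζ hζ => by
    rw [hMe0 ζ hζ.le]; exact ge_mob_lt hζ
  set O : Set ℂ := {ζ | 0 < ζ.im ∧ ‖Gm (M ζ)‖ < 1 ∧ F (Gm (M ζ)) ∈ Ω} with hO
  set K : Set ℂ := {ζ | 0 ≤ ζ.im ∧ ‖Gm (M ζ)‖ ≤ 1} with hK
  have hOo : IsOpen O := by
    have a1 : IsOpen {ζ : ℂ | 0 < ζ.im} := isOpen_lt continuous_const Complex.continuous_im
    have a2 : IsOpen {ζ : ℂ | ‖Gm (M ζ)‖ < 1} :=
      isOpen_lt ((hGc.comp hMc).norm) continuous_const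
    have a3 : IsOpen {ζ : ℂ | F (Gm (M ζ)) ∈ Ω} := hop.preimage (hFc.comp (hGc.comp hMc))
    exact a1.inter (a2.inter a3)
  have hKc : IsClosed K := by
    have a1 : IsClosed {ζ : ℂ | 0 ≤ ζ.im} := isClosed_le continuous_const Complex.continuous_im
    have a2 : IsClosed {ζ : ℂ | ‖Gm (M ζ)‖ ≤ 1} :=
      isClosed_le ((hGc.comp hMc).norm) continuous_const
    exact a1.inter a2
  have hOK : O ⊆ K := fun ζ hζ => ⟨hζ.1.le, hζ.2.1.le⟩
  have hOK' : closure O ⊆ K := closure_minimal hOK hKc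
  -- boundedness
  obtain ⟨ρ, hρ, hρb⟩ : ∃ ρ > 0, ∀ w : ℂ, ‖w - 1‖ < ρ → 1 < ‖Gm w‖ := by
    have ho : IsOpen {w : ℂ | 1 < ‖Gm w‖} := isOpen_lt continuous_const hGc.norm
    obtain ⟨ρ, hρ, hb⟩ := Metric.isOpen_iff.1 ho 1 hG1
    refine ⟨ρ, hρ, fun w hw' => ?_⟩
    exact hb (show w ∈ Metric.ball 1 ρ by rwa [Metric.mem_ball, dist_eq_norm])
  have hKb : ∀ ζ ∈ K, ‖ζ‖ ≤ 2 / ρ + 1 := by
    rintro ζ ⟨h0, h2⟩
    have h3 : ρ ≤ ‖M ζ - 1‖ := by
      by_contra hcon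
      push Not at hcon
      exact absurd h2 (not_le.2 (hρb _ hcon))
    rw [hMe0 ζ h0, ge_mob_sub h0, norm_div, norm_neg, norm_mul, Complex.norm_I, mul_one,
      Complex.norm_ofNat] at h3
    have h4 := norm_pos_iff.2 (ge_add_ne h0)
    rw [le_div_iff₀ h4] at h3
    have h5 : ‖ζ + Complex.I‖ ≤ 2 / ρ := by
      rw [le_div_iff₀ hρ]
      linarith
    have h6 : ‖ζ‖ ≤ ‖ζ + Complex.I‖ + ‖Complex.I‖ := by
      have := norm_sub_le (ζ + Complex.I) Complex.I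
      rwa [add_sub_cancel_right] at this
    rw [Complex.norm_I] at h6
    linarith
  have hKinj : InjOn (fun ζ => F (Gm (M ζ))) K := by
    rintro ζ ⟨h0, h2⟩ ζ' ⟨h0', h2'⟩ heq
    have e1 : Gm (M ζ) = Gm (M ζ') := hF.inj (by simpa using h2) (by simpa using h2') heq
    have e2 : M ζ = M ζ' := hG.inj (by simpa using hMle ζ h0) (by simpa using hMle ζ' h0') e1
    rw [hMe0 ζ h0, hMe0 ζ' h0'] at e2
    exact ge_mob_inj h0 h0' e2
  have himg : Ω = (fun ζ => F (Gm (M ζ))) '' O := by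
    ext x
    constructor
    · intro hx
      obtain ⟨ξ₁, hξ₁, rfl⟩ := hsub hx
      obtain ⟨ξ₂, hξ₂, rfl⟩ := hGsub hξ₁
      rw [Metric.mem_ball, dist_zero_right] at hξ₁ hξ₂
      have hne : ξ₂ ≠ 1 := by
        rintro rfl
        rw [norm_one] at hξ₂
        exact lt_irrefl _ hξ₂
      obtain ⟨ζ, hζ0, hζe, hζ1, -⟩ := ge_mob_surj hξ₂.le hne
      have e : M ζ = ξ₂ := by rw [hMe0 ζ hζ0]; exact hζe
      refine ⟨ζ, ⟨hζ1 hξ₂, ?_, ?_⟩, ?_⟩
      · rw [e]; exact hξ₁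
      · rw [e]; exact hx
      · show F (Gm (M ζ)) = F (Gm ξ₂)
        rw [e]
    · rintro ⟨ζ, hζ, rfl⟩
      exact hζ.2.2
  have hF's : ContDiff ℝ ((⊤ : ℕ∞) : WithTop ℕ∞) (fun ζ => F (Gm (M ζ))) :=
    hF.smooth.comp (hG.smooth.comp hMs)
  have hMev : ∀ ζ : ℂ, 0 ≤ ζ.im → M =ᶠ[𝓝 ζ] fun ζ => (ζ - Complex.I) / (ζ + Complex.I) := by
    intro ζ hζ
    have ho : IsOpen {ζ : ℂ | -(1 / 2) < ζ.im} := isOpen_lt continuous_const Complex.continuous_im
    filter_upwards [ho.mem_nhds (show -(1 / 2) < ζ.im by linarith)] with η hη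
    exact hMe η hη
  have hMd : ∀ ζ : ℂ, 0 ≤ ζ.im → HasDerivAt M (2 * Complex.I / (ζ + Complex.I) ^ 2) ζ :=
    fun ζ hζ => (ge_deriv_mob hζ).congr_of_eventuallyEq (hMev ζ hζ)
  refine ⟨fun ζ => F (Gm (M ζ)), O, 2 / ρ + 1, by positivity, ?_⟩
  refine ⟨hF's, hOo, fun ζ hζ => hζ.1, ?_, ?_, ?_, ?_, himg, ?_⟩
  · intro ζ hζ
    have h2 := hKb ζ (hOK hζ)
    exact ⟨(Complex.abs_re_le_norm ζ).trans h2,
      (le_abs_self _).trans ((Complex.abs_im_le_norm ζ).trans h2)⟩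
  · intro ζ hζ
    apply DifferentiableAt.differentiableWithinAt
    have d1 : DifferentiableAt ℂ M ζ := (hMd ζ hζ.1.le).differentiableAt
    have d2 : DifferentiableAt ℂ Gm (M ζ) :=
      (hG.holo (M ζ) (by simpa using hMlt ζ hζ.1)).differentiableAt
        (Metric.isOpen_ball.mem_nhds (by simpa using hMlt ζ hζ.1))
    have d3 : DifferentiableAt ℂ F (Gm (M ζ)) :=
      (hF.holo (Gm (M ζ)) (by simpa using hζ.2.1)).differentiableAt
        (Metric.isOpen_ball.mem_nhds (by simpa using hζ.2.1))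
    exact d3.comp ζ (d2.comp ζ d1)
  · exact hKinj.mono hOK'
  · intro ζ hζ
    obtain ⟨h0, h2⟩ := hOK' hζ
    have hx1 : M ζ ∈ Metric.closedBall (0 : ℂ) 1 := by simpa using hMle ζ h0
    have hx2 : Gm (M ζ) ∈ Metric.closedBall (0 : ℂ) 1 := by simpa using h2
    have dF1 : DifferentiableAt ℝ F (Gm (M ζ)) := hF.smooth.differentiable (by simp) _
    have dG1 : DifferentiableAt ℝ Gm (M ζ) := hG.smooth.differentiable (by simp) _
    have dM1 : DifferentiableAt ℝ M ζ := hMs.differentiable (by simp) _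
    have hc : fderiv ℝ (fun ζ => F (Gm (M ζ))) ζ =
        (fderiv ℝ F (Gm (M ζ))).comp ((fderiv ℝ Gm (M ζ)).comp (fderiv ℝ M ζ)) := by
      have e1 : HasFDerivAt (fun ζ => F (Gm (M ζ))) ((fderiv ℝ F (Gm (M ζ))).comp
          ((fderiv ℝ Gm (M ζ)).comp (fderiv ℝ M ζ))) ζ :=
        dF1.hasFDerivAt.comp ζ (dG1.hasFDerivAt.comp ζ dM1.hasFDerivAt)
      exact e1.fderiv
    have hM1 : fderiv ℝ M ζ 1 = 2 * Complex.I / (ζ + Complex.I) ^ 2 := by
      have e1 : fderiv ℝ M ζ = (fderiv ℂ M ζ).restrictScalars ℝ :=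
        ((hMd ζ h0).differentiableAt.hasFDerivAt.restrictScalars ℝ).fderiv
      rw [e1]
      show fderiv ℂ M ζ 1 = _
      rw [fderiv_apply_one_eq_deriv]
      exact (hMd ζ h0).deriv
    rw [dF, hc, ContinuousLinearMap.comp_apply, ContinuousLinearMap.comp_apply,
      hF.fderiv_eq hx2, hG.fderiv_eq hx1, hM1]
    refine mul_ne_zero (ge_fderiv_one_ne hF hx2) (mul_ne_zero (ge_fderiv_one_ne hG hx1) ?_)
    exact div_ne_zero (mul_ne_zero two_ne_zero Complex.I_ne_zero) (pow_ne_zero 2 (ge_add_ne h0))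
  · intro x hx
    obtain ⟨w, hw1, hwx⟩ := hw hx
    rw [mem_sphere_zero_iff_norm] at hw1
    have hδw : δ ≤ ‖w - 1‖ := by
      by_contra hcon
      push Not at hcon
      apply hδb w hcon
      rw [hwx]
      exact hx
    obtain ⟨ξ, hξ1, hξw⟩ := hGw w hw1 hδw
    have hne : ξ ≠ 1 := by
      rintro rfl
      rw [hξw, hw1] at hG1
      exact lt_irrefl _ hG1
    obtain ⟨y, hy0, hye, -, hy1⟩ := ge_mob_surj hξ1.le hne
    have hMy : M y = ξ := by rw [hMe0 y hy0]; exact hye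
    have hyK : y ∈ K := ⟨hy0, by rw [hMy, hξw, hw1]⟩
    have hcomp : IsCompact (closure O) := by
      refine (isCompact_closedBall (0 : ℂ) (2 / ρ + 1)).of_isClosed_subset isClosed_closure ?_
      intro ζ hζ
      rw [Metric.mem_closedBall, dist_zero_right]
      exact hKb ζ (hOK' hζ)
    have hxcl : x ∈ (fun ζ => F (Gm (M ζ))) '' closure O := by
      have e1 : IsClosed ((fun ζ => F (Gm (M ζ))) '' closure O) :=
        (hcomp.image hF's.continuous).isClosed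
      have e2 : closure Ω ⊆ (fun ζ => F (Gm (M ζ))) '' closure O := by
        refine closure_minimal ?_ e1
        rw [himg]
        exact image_mono subset_closure
      exact e2 (frontier_subset_closure hx.1)
    obtain ⟨ζ, hζ, hζx⟩ := hxcl
    have hyx : F (Gm (M y)) = x := by rw [hMy, hξw, hwx]
    have hζy : ζ = y := hKinj (hOK' hζ) hyK (by
      show F (Gm (M ζ)) = F (Gm (M y))
      rw [hyx]
      exact hζx)
    refine ⟨y, ⟨?_, hy1 hξ1⟩, hyx⟩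
    rw [← hζy]
    exact hζ

/-- The general case: compose with the rotation `ξ ↦ ξ₀ ξ`. -/
theorem IsDom.exists_chart {F : ℂ → ℂ} {Ω Γ : Set ℂ} (hD : IsDom F Ω Γ) :
    ∃ (F' : ℂ → ℂ) (O : Set ℂ) (r : ℝ), 0 < r ∧ IsChart F' O Ω Γ r := by
  obtain ⟨ξ₀, hξ₀, hfree⟩ := hD.free
  rw [mem_sphere_zero_iff_norm] at hξ₀
  have hξ₀0 : ξ₀ ≠ 0 := by
    rintro rfl
    rw [norm_zero] at hξ₀
    exact zero_ne_one hξ₀
  have hsm : ContDiff ℝ ((⊤ : ℕ∞) : WithTop ℕ∞) (fun ξ : ℂ => ξ₀ * ξ) :=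
    contDiff_const.mul contDiff_id
  have hnorm : ∀ ξ : ℂ, ‖ξ₀ * ξ‖ = ‖ξ‖ := fun ξ => by rw [norm_mul, hξ₀, one_mul]
  have hinv : ∀ ξ : ℂ, ξ₀ * (ξ₀⁻¹ * ξ) = ξ := fun ξ => by
    rw [← mul_assoc, mul_inv_cancel₀ hξ₀0, one_mul]
  have hninv : ∀ ξ : ℂ, ‖ξ₀⁻¹ * ξ‖ = ‖ξ‖ := fun ξ => by rw [← hnorm, hinv]
  have hconf : IsConf (fun ξ => F (ξ₀ * ξ)) := by
    refine ⟨hD.conf.smooth.comp hsm, ?_, ?_, ?_⟩
    · refine hD.conf.holo.comp ((differentiable_const ξ₀).mul differentiable_id).differentiableOn ?_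
      intro ξ hξ
      rw [Metric.mem_ball, dist_zero_right] at hξ ⊢
      rw [hnorm]
      exact hξ
    · intro ξ hξ ξ' hξ' he
      rw [Metric.mem_closedBall, dist_zero_right] at hξ hξ'
      have := hD.conf.inj (by rw [Metric.mem_closedBall, dist_zero_right, hnorm]; exact hξ)
        (by rw [Metric.mem_closedBall, dist_zero_right, hnorm]; exact hξ') he
      exact mul_left_cancel₀ hξ₀0 this
    · intro ξ hξ h0
      rw [Metric.mem_closedBall, dist_zero_right] at hξ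
      apply hD.conf.der (ξ₀ * ξ) (by rw [Metric.mem_closedBall, dist_zero_right, hnorm]; exact hξ)
      have d1 : DifferentiableAt ℝ F (ξ₀ * ξ) := hD.conf.smooth.differentiable (by simp) _
      have d2 : DifferentiableAt ℝ (fun ξ : ℂ => ξ₀ * ξ) ξ := hsm.differentiable (by simp) _
      have hc : fderiv ℝ (fun ξ => F (ξ₀ * ξ)) ξ =
          (fderiv ℝ F (ξ₀ * ξ)).comp (fderiv ℝ (fun ξ : ℂ => ξ₀ * ξ) ξ) :=
        (d1.hasFDerivAt.comp ξ d2.hasFDerivAt).fderiv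
      have hl : ∀ v : ℂ, fderiv ℝ (fun ξ : ℂ => ξ₀ * ξ) ξ v = ξ₀ * v := by
        intro v
        have e1 : HasFDerivAt (fun ξ : ℂ => ξ₀ * ξ)
            ((ContinuousLinearMap.mul ℝ ℂ) ξ₀) ξ := ((ContinuousLinearMap.mul ℝ ℂ) ξ₀).hasFDerivAt
        rw [e1.fderiv]
        rfl
      ext v
      have e2 := congrArg (fun L : ℂ →L[ℝ] ℂ => L (ξ₀⁻¹ * v)) (hc.symm.trans h0)
      simp only [ContinuousLinearMap.comp_apply, hl, hinv] at e2
      exact e2
  refine exists_chart1 hconf hD.op ?_ ?_ ?_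
  · intro x hx
    obtain ⟨ξ, hξ, rfl⟩ := hD.sub hx
    refine ⟨ξ₀⁻¹ * ξ, ?_, ?_⟩
    · rw [Metric.mem_ball, dist_zero_right] at hξ ⊢
      rw [hninv]
      exact hξ
    · show F (ξ₀ * (ξ₀⁻¹ * ξ)) = F ξ
      rw [hinv]
  · intro x hx
    obtain ⟨ξ, hξ, rfl⟩ := hD.wall hx
    refine ⟨ξ₀⁻¹ * ξ, ?_, ?_⟩
    · rw [mem_sphere_zero_iff_norm] at hξ ⊢
      rw [hninv]
      exact hξ
    · show F (ξ₀ * (ξ₀⁻¹ * ξ)) = F ξ
      rw [hinv]
  · show F (ξ₀ * 1) ∉ _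
    rw [mul_one]
    exact hfree

end Pool.Agent.Lib.MP_79abb3_an.SC
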