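import Pool.Agent.Lib.MP_79abb3_an.P25.Data
import Pool.Agent.Lib.MP_79abb3_an.SC.ChFinD
import Pool.Agent.Lib.MP_79abb3_an.SC.ChGe
import Pool.Agent.Lib.MP_79abb3_an.SC.MnDef

/-!
Theorem C (MP_79abb3_an): final assembly, from the strip theorem to the flow region (smooth data).
-/

set_option autoImplicit false
set_option linter.unusedSectionVars false

open MeasureTheory Set Filter Topology Function
open scoped RealInnerProductSpace ComplexConjugate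

namespace Pool.Agent.Lib.MP_79abb3_an.SC

open Pool.Agent.Lib.MP_79abb3_an.P25

section
variable {F : ℂ → ℂ} {O Ω Γ : Set ℂ} {r T : ℝ}

/-- **From the strip theorem to the flow region.** -/
theorem IsChart.final (hC : IsChart F O Ω Γ r) (hT : 0 < T) {a : ℝ × ℝ → ℝ}
    (hac : ContDiffOn ℝ 1 a (univ ×ˢ Ioo 0 (r + 1 / 2)))
    (ha : ∀ q, cxp q ∈ O → a q * ‖dF F (cxp q)‖ ^ 2 = 1) {S : Set ℝ}
    (hS : ∀ y : ℝ, cxp (y, 0) ∈ closure O → F (cxp (y, 0)) ∈ frontier Ω \ Γ → y ∈ S)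
    {v₀ w₀ : ℝ × ℝ → ℝ} (hst : Geo.StripThm (r + 2) (r + 1 / 2) a S v₀ w₀) {u₀ : ℂ → ℂ}
    (h0 : ∀ q, cxp q ∈ O → conj (dF F (cxp q)) * u₀ (F (cxp q)) = ⟨v₀ q, w₀ q⟩)
    (h02 : MemLp u₀ 2 (volume.restrict Ω)) :
    ∃ u : ℝ × ℂ → ℂ, IsLeray Ω Γ T u₀ u ∧ ∀ x ∈ closure Ω, u (T, x) = 0 := by
  obtain ⟨v, w, hs, hw, hz⟩ := hst T hT
  obtain ⟨u, hu, hu2⟩ := hC.leray hT hac ha hs (fun t ht y h1 h2 => hw t ht y (hS y h1 h2)) h0 h02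
  refine ⟨u, hu, fun x hx => ?_⟩
  rw [hC.closure_img] at hx
  obtain ⟨ζ, hζ, rfl⟩ := hx
  have h1 := hu2 T (ζ.re, ζ.im) hζ
  obtain ⟨b1, b2, b3⟩ := hC.closure_sub hζ
  have h2 := hz ζ.re ζ.im ⟨b2, by linarith⟩
  rw [h2.1, h2.2] at h1
  have h3 : (⟨0, 0⟩ : ℂ) = 0 := rfl
  rw [h3, mul_eq_zero] at h1
  rcases h1 with h1 | h1
  · exact absurd ((map_eq_zero _).1 h1) (hC.der ζ hζ)
  · exact h1

/-- Pull back of the data. -/
theorem IsChart.pull (hC : IsChart F O Ω Γ r) {Ψ : ℂ → ℝ} (hΨ : Differentiable ℝ Ψ) {q : ℝ × ℝ}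
    (hq : cxp q ∈ closure O) {ψ₀ : ℝ × ℝ → ℝ} (he : ψ₀ =ᶠ[𝓝 q] fun p => Ψ (F (cxp p))) (e : ℝ × ℝ) :
    fderiv ℝ ψ₀ q e = fderiv ℝ Ψ (F (cxp q)) (dF F (cxp q) * cxp e) := by
  rw [he.fderiv_eq]
  have h1 : HasFDerivAt (fun p => Ψ (F (cxp p))) ((fderiv ℝ Ψ (F (cxp q))).comp
      ((ContinuousLinearMap.mul ℝ ℂ (dF F (cxp q))).comp cxpL)) q :=
    (hΨ _).hasFDerivAt.comp q ((hC.hasFDerivAt hq).comp q (cxp_hasFDerivAt q))
  rw [h1.fderiv]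
  simp [cxpL_apply]

theorem IsChart.pull_perp (hC : IsChart F O Ω Γ r) {Ψ : ℂ → ℝ} (hΨ : Differentiable ℝ Ψ) {q : ℝ × ℝ}
    (hq : cxp q ∈ closure O) {ψ₀ : ℝ × ℝ → ℝ} (he : ψ₀ =ᶠ[𝓝 q] fun p => Ψ (F (cxp p))) :
    conj (dF F (cxp q)) * gradPerp Ψ (F (cxp q)) = ⟨gz ψ₀ q, -gy ψ₀ q⟩ := by
  rw [gz, gy, hC.pull hΨ hq he, hC.pull hΨ hq he]
  set c := dF F (cxp q) with hc
  set L := fderiv ℝ Ψ (F (cxp q)) with hL
  have e1 : cxp (0, 1) = Complex.I := rfl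
  have e2 : cxp (1, 0) = 1 := rfl
  have k1 : c * Complex.I = (-c.im) • (1 : ℂ) + c.re • Complex.I := by
    apply Complex.ext <;> simp
  have k2 : c * 1 = c.re • (1 : ℂ) + c.im • Complex.I := by
    apply Complex.ext <;> simp
  rw [e1, e2, k1, k2, map_add, map_add, map_smul, map_smul, map_smul, map_smul]
  have h1 : gradPerp Ψ (F (cxp q)) = ⟨L Complex.I, -L 1⟩ := rfl
  rw [h1]
  apply Complex.ext
  · simp only [Complex.mul_re, Complex.conj_re, Complex.conj_im, smul_eq_mul]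
    ring
  · simp only [Complex.mul_im, Complex.conj_re, Complex.conj_im, smul_eq_mul]
    ring

theorem gradPerp_cont {Ψ : ℂ → ℝ} (hΨ : ContDiff ℝ ((⊤ : ℕ∞) : WithTop ℕ∞) Ψ) :
    Continuous (gradPerp Ψ) := by
  have h1 : Continuous (fderiv ℝ Ψ) := hΨ.continuous_fderiv (by simp)
  have h2 : Continuous fun x => fderiv ℝ Ψ x Complex.I := h1.clm_apply continuous_const
  have h3 : Continuous fun x => -fderiv ℝ Ψ x 1 := (h1.clm_apply continuous_const).neg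
  exact Complex.equivRealProdCLM.symm.continuous.comp (h2.prodMk h3)

/-- The stream function in the strip. -/
theorem IsChart.exists_psi (hC : IsChart F O Ω Γ r) (hr : 0 < r) {Ψ : ℂ → ℝ}
    (hΨ : ContDiff ℝ ((⊤ : ℕ∞) : WithTop ℕ∞) Ψ) : ∃ ψ₀ : ℝ × ℝ → ℝ, PY (r + 2) ψ₀ ∧
      (∀ y z, r + 1 / 2 ≤ |y| ∨ r + 1 / 2 ≤ |z| → ψ₀ (y, z) = 0) ∧
      ∀ q, cxp q ∈ closure O → ψ₀ =ᶠ[𝓝 q] fun p => Ψ (F (cxp p)) := by
  set f : ℝ × ℝ → ℝ := fun p => Ψ (F (cxp p)) with hf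
  have hfs : ContDiff ℝ ((⊤ : ℕ∞) : WithTop ℕ∞) f := hΨ.comp (hC.smooth.comp cxp_contDiff)
  have hs : ContDiff ℝ ((⊤ : ℕ∞) : WithTop ℕ∞) (dcut r hr f) := by
    rw [contDiff_infty]
    intro m
    exact dcut_contDiff hr ((contDiff_infty.1 hfs) m)
  have hz : ∀ y z, r + 1 / 2 ≤ |y| ∨ r + 1 / 2 ≤ |z| → dcut r hr f (y, z) = 0 := fun y z h =>
    dcut_zero hr f h
  refine ⟨dcut r hr f, ?_, hz, ?_⟩
  · exact PY.of_van (ε := 1) one_pos (by linarith) hs fun y z h => hz y z (Or.inl (by linarith))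
  · rintro ⟨y, z⟩ hq
    obtain ⟨b1, b2, b3⟩ := hC.closure_sub hq
    have b1' : |y| ≤ r := b1
    have b2' : 0 ≤ z := b2
    have b3' : z ≤ r := b3
    exact dcut_near hr f b1' (by rw [abs_of_nonneg b2']; exact b3')

/-- The strip theorem for smooth stream functions. -/
def StripAll : Prop := ∀ r : ℝ, 0 < r → ∀ a : ℝ × ℝ → ℝ, PY (r + 2) a → (∀ q, 0 < a q) →
  ∀ ψ₀ : ℝ × ℝ → ℝ, PY (r + 2) ψ₀ → (∀ y z, r + 1 / 2 ≤ |y| ∨ r + 1 / 2 ≤ |z| → ψ₀ (y, z) = 0) →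
  Geo.StripThm (r + 2) (r + 1 / 2) a {y | |y| ≤ r ∧ gz ψ₀ (y, 0) = 0 ∧ gy ψ₀ (y, 0) = 0} (gz ψ₀)
    (fun q => -gy ψ₀ q)

/-- The weight of a chart. -/
def WeightAll : Prop := ∀ (F : ℂ → ℂ) (O Ω Γ : Set ℂ) (r : ℝ), 0 < r → IsChart F O Ω Γ r →
  ∃ a : ℝ × ℝ → ℝ, PY (r + 2) a ∧ (∀ q, 0 < a q) ∧ ∀ q, cxp q ∈ O → a q * ‖dF F (cxp q)‖ ^ 2 = 1

/-- **Final assembly for smooth data.** -/
theorem final_smooth (hA : StripAll) (hW : WeightAll) {F : ℂ → ℂ} {Ω Γ : Set ℂ} (hD : IsDom F Ω Γ)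
    {T : ℝ} (hT : 0 < T) {Ψ : ℂ → ℝ} (hΨ : ContDiff ℝ ((⊤ : ℕ∞) : WithTop ℕ∞) Ψ)
    (hw : ∀ x ∈ frontier Ω \ Γ, fderiv ℝ Ψ x = 0) :
    ∃ u : ℝ × ℂ → ℂ, IsLeray Ω Γ T (gradPerp Ψ) u ∧ ∀ x ∈ closure Ω, u (T, x) = 0 := by
  obtain ⟨F', O, r, hr, hC⟩ := hD.exists_chart
  obtain ⟨a, a1, a2, a3⟩ := hW F' O Ω Γ r hr hC
  obtain ⟨ψ₀, p1, p2, p3⟩ := hC.exists_psi hr hΨ
  have hdΨ : Differentiable ℝ Ψ := hΨ.differentiable (by simp)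
  have hst := hA r hr a a1 a2 ψ₀ p1 p2
  refine hC.final hT ((a1.smooth.of_le (by simp)).contDiffOn) a3 ?_ hst
    (fun q hq => hC.pull_perp hdΨ (subset_closure hq) (p3 q (subset_closure hq))) ?_
  · intro y h1 h2
    have h3 := hw _ h2
    refine ⟨(hC.closure_sub h1).1, ?_, ?_⟩
    · show fderiv ℝ ψ₀ (y, 0) (0, 1) = 0
      rw [hC.pull hdΨ h1 (p3 _ h1), h3]
      rfl
    · show fderiv ℝ ψ₀ (y, 0) (1, 0) = 0
      rw [hC.pull hdΨ h1 (p3 _ h1), h3]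
      rfl
  · have hK : IsCompact (closure Ω) := by
      rw [hC.closure_img]
      exact hC.compact.image hC.smooth.continuous
    have : IsFiniteMeasure (volume.restrict Ω) :=
      ⟨by rw [Measure.restrict_apply_univ]; exact (measure_mono subset_closure).trans_lt hK.measure_lt_top⟩
    obtain ⟨C, hC'⟩ := hK.exists_bound_of_continuousOn (gradPerp_cont hΨ).continuousOn
    refine MemLp.of_bound (gradPerp_cont hΨ).aestronglyMeasurable C ?_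
    rw [ae_restrict_iff' hC.measurableSet]
    exact Eventually.of_forall fun x hx => hC' x (subset_closure hx)

end

end Pool.Agent.Lib.MP_79abb3_an.SC
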