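import Pool.Agent.Lib.MP_79abb3_an.SC.LaSmoB

/-!
MP_79abb3_an, Theorem C, block (i): contraction of `S(t)` in weighted norms `N2 lam s`,
`-1 ≤ s ≤ 1`, for `N₀` large.
-/

set_option autoImplicit false
set_option linter.unusedSectionVars false

open MeasureTheory Set Filter Topology Function
open scoped ENNReal InnerProductSpace

namespace Pool.Agent.Lib.MP_79abb3_an.SC

open Pool.Agent.Lib.MP_79abb3_an.P25

section
variable {H : ℝ} [hH : Fact (0 < H)]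

/-- Commutator of a slowly varying weight with `a`: `|[v, a] x| ≤ κ ∑ |m| |a_m| · |v x|`. -/
theorem comm_ratio {v : ℤ → ℝ} {C κ : ℝ} (hv0 : ∀ n, 0 < v n) (hv : ∀ n, v n ≤ C) (hκ : 0 ≤ κ)
    (hr : ∀ n j : ℤ, |v n - v j| ≤ κ * |((n - j : ℤ) : ℝ)| * v j) {a : ℤ → CI H} (ha : Cf 1 a)
    (x : HH H) :
    ‖wd v (cm a x) - cm a (wd v x)‖ ≤ (∑' m : ℤ, κ * (|(m:ℝ)| * ‖a m‖)) * ‖wd v x‖ := by
  have hv' : ∀ n, |v n| ≤ C := fun n => by rw [abs_of_pos (hv0 n)]; exact hv n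
  have hL : ∀ n j : ℤ, |v n - v j| ≤ (κ * C) * |((n - j : ℤ) : ℝ)| := fun n j => by
    refine (hr n j).trans ?_
    have h1 : 0 ≤ κ * |((n - j : ℤ) : ℝ)| := by positivity
    calc κ * |((n - j : ℤ) : ℝ)| * v j ≤ κ * |((n - j : ℤ) : ℝ)| * C :=
          mul_le_mul_of_nonneg_left (hv j) h1
      _ = _ := by ring
  rw [comm_cm hv' hL ha]
  have hs : Summable fun m : ℤ => κ * (|(m:ℝ)| * ‖a m‖) := by
    refine Summable.mul_left _ (Summable.of_nonneg_of_le (fun m => by positivity) (fun m => ?_) ha.s)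
    rw [pow_one]
    gcongr
    linarith
  have hs2 : Summable fun m : ℤ => (κ * C) * (|(m:ℝ)| * ‖a m‖) := by
    refine Summable.mul_left _ (Summable.of_nonneg_of_le (fun m => by positivity) (fun m => ?_) ha.s)
    rw [pow_one]
    gcongr
    linarith
  have hb1 : ∀ n j : ℤ, |v n - v j| * ‖a (n - j)‖ ≤
      (fun m : ℤ => (κ * C) * (|(m:ℝ)| * ‖a m‖)) (n - j) := by
    intro n j
    show |v n - v j| * ‖a (n - j)‖ ≤ (κ * C) * (|((n - j : ℤ) : ℝ)| * ‖a (n - j)‖)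
    rw [← mul_assoc]
    exact mul_le_mul_of_nonneg_right (hL n j) (norm_nonneg _)
  have hb2 : ∀ n j : ℤ, |v n / v j - 1| * ‖a (n - j)‖ ≤
      (fun m : ℤ => κ * (|(m:ℝ)| * ‖a m‖)) (n - j) := by
    intro n j
    show |v n / v j - 1| * ‖a (n - j)‖ ≤ κ * (|((n - j : ℤ) : ℝ)| * ‖a (n - j)‖)
    rw [← mul_assoc]
    refine mul_le_mul_of_nonneg_right ?_ (norm_nonneg _)
    rw [div_sub_one (hv0 j).ne', abs_div, abs_of_pos (hv0 j), div_le_iff₀ (hv0 j)]
    exact hr n j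
  have e : cv (fun n j => v n - v j) a x = cv (fun n j => v n / v j - 1) a (wd v x) := by
    ext1
    funext n
    have h1 := cv_hasSum hs2 hb1 x n
    have h2 := cv_hasSum hs hb2 (wd v x) n
    refine h1.unique ?_
    convert h2 using 2 with j
    rw [wd_apply hv', map_smul, smul_smul, ← Complex.ofReal_mul]
    congr 2
    have := (hv0 j).ne'
    field_simp
  rw [e]
  exact ((cv (fun n j => v n / v j - 1) a).le_opNorm _).trans
    (mul_le_mul_of_nonneg_right (norm_cv_le hs hb2) (norm_nonneg _))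

/-- For `0 < x, y` and `0 ≤ s ≤ 1`: `|x^{-s} - y^{-s}| ≤ |x - y| / x · y^{-s}`. -/
theorem rpow_ratio {x y s : ℝ} (hx : 0 < x) (hy : 0 < y) (s0 : 0 ≤ s) (s1 : s ≤ 1) :
    |x ^ (-s) - y ^ (-s)| ≤ |x - y| / x * y ^ (-s) := by
  have hr : 0 < y / x := by positivity
  have e : x ^ (-s) = (y / x) ^ s * y ^ (-s) := by
    rw [Real.div_rpow hy.le hx.le, div_mul_eq_mul_div, ← Real.rpow_add hy, add_neg_cancel,
      Real.rpow_zero, Real.rpow_neg hx.le, one_div]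
  have hy' : 0 ≤ y ^ (-s) := Real.rpow_nonneg hy.le _
  have e2 : x ^ (-s) - y ^ (-s) = ((y / x) ^ s - 1) * y ^ (-s) := by rw [e]; ring
  rw [e2, abs_mul, abs_of_nonneg hy']
  refine mul_le_mul_of_nonneg_right ?_ hy'
  have e3 : |x - y| / x = |y / x - 1| := by
    rw [div_sub_one hx.ne', abs_div, abs_of_pos hx, abs_sub_comm]
  rw [e3]
  rcases le_total 1 (y / x) with h | h
  · have h1 : 1 ≤ (y / x) ^ s := Real.one_le_rpow h s0
    have h2 : (y / x) ^ s ≤ y / x := by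
      calc (y / x) ^ s ≤ (y / x) ^ (1:ℝ) := Real.rpow_le_rpow_of_exponent_le h s1
        _ = _ := Real.rpow_one _
    rw [abs_of_nonneg (by linarith), abs_of_nonneg (by linarith)]
    linarith
  · have h1 : (y / x) ^ s ≤ 1 := Real.rpow_le_one hr.le h s0
    have h2 : y / x ≤ (y / x) ^ s := by
      calc y / x = (y / x) ^ (1:ℝ) := (Real.rpow_one _).symm
        _ ≤ _ := Real.rpow_le_rpow_of_exponent_ge hr h s1
    rw [abs_of_nonpos (by linarith), abs_of_nonpos (by linarith)]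
    linarith

/-- `N₀` is large compared with `a`. -/
def Geo.Big (G : Geo H) : Prop := |G.ω| * ∑' m : ℤ, |(m:ℝ)| * ‖G.a m‖ ≤ G.c₀ * G.N₀

variable (G : Geo H)

theorem Geo.N₀_le (n : ℤ) : G.N₀ ≤ G.lam n := by
  unfold Geo.lam
  have := abs_nonneg (G.ω * n)
  linarith

/-- Commutator with a weight `v` slowly varying relative to `lam`. -/
theorem Geo.comm_big (hB : G.Big) {v : ℤ → ℝ} {C : ℝ} (hv0 : ∀ n, 0 < v n) (hv : ∀ n, v n ≤ C)
    (hr : ∀ n j : ℤ, |v n - v j| ≤ |G.ω| * |((n - j : ℤ) : ℝ)| / G.N₀ * v j) (x : HH H) :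
    ‖wd v (cm G.a x) - cm G.a (wd v x)‖ ≤ G.c₀ * ‖wd v x‖ := by
  have hN : 0 < G.N₀ := by linarith [G.hN]
  have h1 := comm_ratio (κ := |G.ω| / G.N₀) hv0 hv (by positivity) (fun n j => by
    refine (hr n j).trans (le_of_eq ?_); ring) (G.ha.c.mono (by norm_num : 1 ≤ 4)) x
  refine h1.trans (mul_le_mul_of_nonneg_right ?_ (norm_nonneg _))
  rw [tsum_mul_left, div_mul_eq_mul_div, div_le_iff₀ hN]
  exact hB

/-- Contraction in `N2 lam (-s)`. -/
theorem Geo.Sg_neg_contract (hB : G.Big) {s : ℝ} (s0 : 0 ≤ s) (s1 : s ≤ 1) {t : ℝ} (ht : 0 ≤ t)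
    (x : HH H) : N2 G.lam (-s) (Sg G.D.K t x : HH H) ≤ N2 G.lam (-s) x := by
  have h1 := G.lw.h1
  have hN : 0 < G.N₀ := by linarith [G.hN]
  have l0 : ∀ n, 0 < G.lam n := fun n => by linarith [h1 n]
  rw [N2_eq_wd h1 s0, N2_eq_wd h1 s0]
  have hv0 : ∀ n, 0 < G.lam n ^ (-s) := fun n => Real.rpow_pos_of_pos (l0 n) _
  have hv : ∀ n, G.lam n ^ (-s) ≤ 1 := fun n =>
    Real.rpow_le_one_of_one_le_of_nonpos (h1 n) (neg_nonpos.2 s0)
  have hW : G.D.Wt (wd fun n => G.lam n ^ (-s)) := G.std.wt (rpow_neg_bd h1 s0)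
  refine hW.contract (fun _ => rfl) (fun g => ?_) ht x
  refine G.comm_big hB hv0 hv (fun n j => ?_) g
  refine (rpow_ratio (l0 n) (l0 j) s0 s1).trans (mul_le_mul_of_nonneg_right ?_ (hv0 j).le)
  exact div_le_div₀ (by positivity) (G.lam_lip n j) hN (G.N₀_le n)

/-- Contraction in `N2 lam s`, `0 ≤ s ≤ 1`. -/
theorem Geo.Sg_pos_contract (hB : G.Big) {s : ℝ} (s0 : 0 ≤ s) (s1 : s ≤ 1) {t : ℝ} (ht : 0 ≤ t)
    {x : HH H} (hx : S2 G.lam s x) :
    S2 G.lam s (Sg G.D.K t x : HH H) ∧ N2 G.lam s (Sg G.D.K t x : HH H) ≤ N2 G.lam s x := by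
  have h1 := G.lw.h1
  have hN : 0 < G.N₀ := by linarith [G.hN]
  have l0 : ∀ n, 0 < G.lam n := fun n => by linarith [h1 n]
  -- truncated weights `(min lam M)^s`
  have key : ∀ M, G.N₀ ≤ M → ‖wd (fun n => (min (G.lam n) M) ^ s) (Sg G.D.K t x)‖ ≤
      ‖wd (fun n => (min (G.lam n) M) ^ s) x‖ := by
    intro M hM
    have m0 : ∀ n, 0 < min (G.lam n) M := fun n => lt_min (l0 n) (by linarith)
    have hv0 : ∀ n, 0 < (min (G.lam n) M) ^ s := fun n => Real.rpow_pos_of_pos (m0 n) _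
    have hv : ∀ n, (min (G.lam n) M) ^ s ≤ M ^ s := fun n =>
      Real.rpow_le_rpow (m0 n).le (min_le_right _ _) s0
    have hW : G.D.Wt (wd fun n => (min (G.lam n) M) ^ s) :=
      G.std.wt (C := M ^ s) (fun n => by rw [abs_of_pos (hv0 n)]; exact hv n)
    refine hW.contract (fun _ => rfl) (fun g => ?_) ht x
    refine G.comm_big hB hv0 hv (fun n j => ?_) g
    have e1 : (min (G.lam n) M) ^ s = ((min (G.lam n) M)⁻¹) ^ (-s) := by
      rw [Real.rpow_neg (inv_nonneg.2 (m0 n).le), Real.inv_rpow (m0 n).le, inv_inv]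
    have e2 : (min (G.lam j) M) ^ s = ((min (G.lam j) M)⁻¹) ^ (-s) := by
      rw [Real.rpow_neg (inv_nonneg.2 (m0 j).le), Real.inv_rpow (m0 j).le, inv_inv]
    rw [e1, e2]
    refine (rpow_ratio (inv_pos.2 (m0 n)) (inv_pos.2 (m0 j)) s0 s1).trans
      (mul_le_mul_of_nonneg_right ?_ (Real.rpow_nonneg (inv_nonneg.2 (m0 j).le) _))
    have e3 : |(min (G.lam n) M)⁻¹ - (min (G.lam j) M)⁻¹| / (min (G.lam n) M)⁻¹ =
        |min (G.lam n) M - min (G.lam j) M| / min (G.lam j) M := by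
      have a1 := (m0 n).ne'
      have a2 := (m0 j).ne'
      rw [inv_sub_inv a1 a2, abs_div, abs_mul, abs_of_pos (m0 n), abs_of_pos (m0 j),
        abs_sub_comm]
      field_simp
    rw [e3]
    exact div_le_div₀ (by positivity) (trunc_lip G.lam_lip M n j) hN (le_min (G.N₀_le j) hM)
  -- passing to the limit
  have hb : ∀ M, G.N₀ ≤ M → ‖wd (fun n => (min (G.lam n) M) ^ s) x‖ ≤ N2 G.lam s x := by
    intro M hM
    have m0 : ∀ n, 0 < min (G.lam n) M := fun n => lt_min (l0 n) (by linarith)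
    have hv : ∀ n, |(min (G.lam n) M) ^ s| ≤ M ^ s := fun n => by
      rw [abs_of_nonneg (Real.rpow_nonneg (m0 n).le _)]
      exact Real.rpow_le_rpow (m0 n).le (min_le_right _ _) s0
    refine (pow_le_pow_iff_left₀ (norm_nonneg _) (N2_nonneg _ _) two_ne_zero).1 ?_
    rw [N2_sq, l2_norm_sq]
    refine (l2_summable _).tsum_le_tsum (fun n => ?_) hx
    rw [wd_apply hv, norm_smul, Complex.norm_real, Real.norm_eq_abs,
      abs_of_nonneg (Real.rpow_nonneg (m0 n).le _)]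
    refine pow_le_pow_left₀ (mul_nonneg (Real.rpow_nonneg (m0 n).le _) (norm_nonneg _))
      (mul_le_mul_of_nonneg_right ?_ (norm_nonneg _)) 2
    exact Real.rpow_le_rpow (m0 n).le (min_le_left _ _) s0
  have hS : ∀ S : Finset ℤ, ∑ n ∈ S, (G.lam n ^ s * ‖Sg G.D.K t x n‖) ^ 2 ≤ N2 G.lam s x ^ 2 := by
    intro S
    obtain ⟨M, hM⟩ : ∃ M : ℝ, G.N₀ ≤ M ∧ ∀ n ∈ S, G.lam n ≤ M := by
      classical
      refine ⟨G.N₀ + ∑ n ∈ S, G.lam n, ?_, fun n hn => ?_⟩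
      · have : 0 ≤ ∑ n ∈ S, G.lam n := Finset.sum_nonneg fun n _ => (l0 n).le
        linarith
      · have := Finset.single_le_sum (f := G.lam) (fun i _ => (l0 i).le) hn
        linarith
    have m0 : ∀ n, 0 < min (G.lam n) M := fun n => lt_min (l0 n) (by linarith [hM.1])
    have hv : ∀ n, |(min (G.lam n) M) ^ s| ≤ M ^ s := fun n => by
      rw [abs_of_nonneg (Real.rpow_nonneg (m0 n).le _)]
      exact Real.rpow_le_rpow (m0 n).le (min_le_right _ _) s0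
    calc ∑ n ∈ S, (G.lam n ^ s * ‖Sg G.D.K t x n‖) ^ 2
        = ∑ n ∈ S, (|(min (G.lam n) M) ^ s| * ‖Sg G.D.K t x n‖) ^ 2 := by
          refine Finset.sum_congr rfl fun n hn => ?_
          rw [min_eq_left (hM.2 n hn), abs_of_nonneg (Real.rpow_nonneg (l0 n).le _)]
      _ ≤ ‖wd (fun n => (min (G.lam n) M) ^ s) (Sg G.D.K t x)‖ ^ 2 := norm_wd_sum hv _ S
      _ ≤ N2 G.lam s x ^ 2 :=
          pow_le_pow_left₀ (norm_nonneg _) ((key M hM.1).trans (hb M hM.1)) 2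
  have hsum : S2 G.lam s (Sg G.D.K t x : HH H) := summable_of_sum_le (fun n => sq_nonneg _) hS
  refine ⟨hsum, ?_⟩
  have h0 := N2_nonneg (lam := G.lam) s x
  refine (pow_le_pow_iff_left₀ (N2_nonneg _ _) h0 two_ne_zero).1 ?_
  rw [N2_sq (lam := G.lam) s (Sg G.D.K t x : HH H)]
  exact hsum.tsum_le_of_sum_le hS

end

end Pool.Agent.Lib.MP_79abb3_an.SC
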