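import Pool.Agent.Lib.MP_79abb3_an.SC.ChGeo
import Pool.Agent.Lib.MP_79abb3_an.SC.LaSmoC
import Pool.Agent.Lib.MP_79abb3_an.SC.FinA

/-!
Theorem C (MP_79abb3_an), block (v): the weight of a chart, geometric data with large `N₀`.
-/

set_option autoImplicit false
set_option linter.unusedSectionVars false

open MeasureTheory Set Filter Topology Function
open scoped ENNReal InnerProductSpace

namespace Pool.Agent.Lib.MP_79abb3_an.SC

open Pool.Agent.Lib.MP_79abb3_an.P25 Pool.Agent.Lib.MP_79abb3_an.FW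

/-- **The weight of a chart.** -/
theorem weightAll : WeightAll := by
  intro F O Ω Γ r hr hC
  have hf : Fact (0 < r + 2) := ⟨by linarith⟩
  obtain ⟨J, G, -, h2, h3, -, h5, -⟩ := hC.exists_geo (N₀ := 1) (ρ := 1) le_rfl one_pos
    (by linarith)
  exact ⟨fun q => (J q)⁻¹, h3, fun q => inv_pos.2 (h2 q), fun q hq => h5 q (subset_closure hq)⟩

section
variable {H : ℝ} [hH : Fact (0 < H)] {a : ℝ × ℝ → ℝ}

/-- **Geometric data from a positive weight `a`**, with `N₀` as large as we want. -/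
theorem exists_geo_big (ha : PY H a) (h0 : ∀ q, 0 < a q) (N₁ : ℝ) {ρ : ℝ} (hρ : 0 < ρ)
    (hρH : ρ < H) : ∃ G : Geo H, G.a = fam a ∧ G.Big ∧ N₁ ≤ G.N₀ ∧ G.ρ = ρ ∧ G.ω = Real.pi / H ∧
      G.J = fam (fun q => (a q)⁻¹) ∧ G.b = fam (fun q => √((a q)⁻¹)) ∧
      G.bi = fam (fun q => (√((a q)⁻¹))⁻¹) ∧
      G.ζ = rc (ctf ρ ((ρ + H) / 2)) (ctf_smooth _ _).continuous := by
  obtain ⟨G, g1, -, g3, g4, g5, g6, g7, g8⟩ := exists_geo (ha.inv h0) (fun q => inv_pos.2 (h0 q))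
    (N₀ := 1) le_rfl hρ hρH
  have e : (fun q => ((a q)⁻¹)⁻¹) = a := funext fun q => inv_inv _
  rw [e] at g4
  set X : ℝ := |G.ω| * ∑' m : ℤ, |(m:ℝ)| * ‖G.a m‖ with hX
  refine ⟨{ G with
    N₀ := max (max 1 N₁) (X / G.c₀)
    hN := (le_max_left _ _).trans (le_max_left _ _) }, g4, ?_,
    (le_max_right _ _).trans (le_max_left _ _), g3, g1, g5, g6, g7, g8⟩
  show X ≤ G.c₀ * max (max 1 N₁) (X / G.c₀)
  have h1 : X / G.c₀ ≤ max (max 1 N₁) (X / G.c₀) := le_max_right _ _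
  rwa [div_le_iff₀' G.hc] at h1

end

end Pool.Agent.Lib.MP_79abb3_an.SC
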