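import Pool.Agent.Lib.MP_79abb3_an.SC.ExG

/-!
Theorem C, block (ii), EX3: tested equations for `q` and `V`.
-/

set_option autoImplicit false
set_option linter.unusedSectionVars false

open MeasureTheory Set Filter Topology Function
open scoped ENNReal InnerProductSpace

namespace Pool.Agent.Lib.MP_79abb3_an.SC

open Pool.Agent.Lib.MP_79abb3_an.P25

section abs
variable {E : Type} [NormedAddCommGroup E] [InnerProductSpace ℂ E] [CompleteSpace E]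
  {K K' : E →L[ℂ] E}

/-- transport of tested equations by a bounded operator -/
theorem Tst.map {a b : ℝ} {V ℓ : ℝ → E} (h : Tst K a b V ℓ) {M N : E →L[ℂ] E}
    (hMN : ∀ x, Kh K' (M x) = N (Kh K x)) :
    Tst K' a b (fun t => M (V t)) (fun t => N (ℓ t)) where
  cV := M.continuous.comp_continuousOn h.cV
  cl := N.continuous.comp_continuousOn h.cl
  eq s t hs hst ht := by
    have hsub : uIcc s t ⊆ Icc a b := by rw [uIcc_of_le hst]; exact Icc_subset_Icc hs ht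
    rw [hMN, hMN, ← map_sub, h.eq s t hs hst ht,
      ← ContinuousLinearMap.intervalIntegral_comp_comm _ (h.cl.mono hsub).intervalIntegrable]

theorem Tst.congr {a b : ℝ} {V ℓ V' ℓ' : ℝ → E} (h : Tst K a b V ℓ) (e : ∀ t ∈ Icc a b, V' t = V t)
    (e' : ∀ t ∈ Icc a b, ℓ' t = ℓ t) : Tst K a b V' ℓ' where
  cV := h.cV.congr e
  cl := h.cl.congr e'
  eq s t hs hst ht := by
    rw [e t ⟨hs.trans hst, ht⟩, e s ⟨hs, hst.trans ht⟩, h.eq s t hs hst ht]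
    refine intervalIntegral.integral_congr fun r hr => ?_
    rw [uIcc_of_le hst] at hr
    exact (e' r ⟨hs.trans hr.1, hr.2.trans ht⟩).symm

end abs

section
variable {H : ℝ} [hH : Fact (0 < H)]

theorem norm_vk_le (k : ℝ) (g : Z2 H) : ‖vk k g‖ ≤ 2 * ‖Tz k g‖ := by
  have h := norm_kEz_le k (Tz k g)
  show ‖Tz k g - ((|k| : ℝ) : ℂ) • Ez k (iota (Tz k g))‖ ≤ _
  refine (norm_sub_le _ _).trans ?_
  rw [norm_smul, Complex.norm_real, Real.norm_of_nonneg (abs_nonneg _)]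
  linarith

theorem norm_wk_le (k : ℝ) (g : Z2 H) : ‖wk k g‖ ≤ 2 * ‖Tz k g‖ := by
  have h := norm_kEz_le k (Tz k g)
  show ‖(-(Complex.I * (k : ℂ))) • Ez k (iota (Tz k g))‖ ≤ _
  rw [norm_smul, norm_neg, norm_mul, Complex.norm_I, one_mul, Complex.norm_real, Real.norm_eq_abs]
  linarith [norm_nonneg (Tz k g)]

namespace Geo
variable (G : Geo H)

theorem norm_lamTz (n : ℤ) (g : Z2 H) :
    G.lam n ^ (1 / 2 : ℝ) * ‖Tz (G.ω * n) g‖ ≤ √(G.N₀ * (H + 1)) * ‖g‖ := by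
  have hH0 := hH.out
  have hN : 0 < G.N₀ := lt_of_lt_of_le one_pos G.hN
  obtain ⟨a1, a2⟩ := Tz_sup_sq (G.ω * n) g
  have e : (G.lam n ^ (1 / 2 : ℝ)) ^ 2 = G.lam n := by
    rw [← Real.sqrt_eq_rpow, Real.sq_sqrt (G.lw.pos n).le]
  have h1 : (G.lam n ^ (1 / 2 : ℝ) * ‖Tz (G.ω * n) g‖) ^ 2 ≤ (√(G.N₀ * (H + 1)) * ‖g‖) ^ 2 := by
    rw [mul_pow, mul_pow, e, Real.sq_sqrt (by positivity)]
    have a3 : (1 + |G.ω * n|) * ‖Tz (G.ω * n) g‖ ^ 2 ≤ (H + 1) * ‖g‖ ^ 2 := by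
      nlinarith [sq_nonneg ‖g‖]
    calc G.lam n * ‖Tz (G.ω * n) g‖ ^ 2 ≤ G.N₀ * (1 + |G.ω * n|) * ‖Tz (G.ω * n) g‖ ^ 2 :=
          mul_le_mul_of_nonneg_right (G.lam_le n) (sq_nonneg _)
      _ = G.N₀ * ((1 + |G.ω * n|) * ‖Tz (G.ω * n) g‖ ^ 2) := by ring
      _ ≤ G.N₀ * ((H + 1) * ‖g‖ ^ 2) := mul_le_mul_of_nonneg_left a3 hN.le
      _ = _ := by ring
  exact abs_le_of_sq_le_sq' h1 (by positivity) |>.2

theorem norm_UV_fam (n : ℤ) : ‖((G.lam n ^ (1 / 2 : ℝ) : ℝ) : ℂ) • (vk (G.ω * n) : Z2 H →L[ℂ] CI H)‖ ≤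
    2 * √(G.N₀ * (H + 1)) := by
  refine ContinuousLinearMap.opNorm_le_bound _ (by positivity) fun g => ?_
  rw [smul_apply, norm_smul, Complex.norm_real,
    Real.norm_of_nonneg (Real.rpow_nonneg (G.lw.pos n).le _)]
  have h1 := norm_vk_le (G.ω * n) g
  have h2 := G.norm_lamTz n g
  have h3 : 0 ≤ G.lam n ^ (1 / 2 : ℝ) := Real.rpow_nonneg (G.lw.pos n).le _
  nlinarith

theorem norm_UW_fam (n : ℤ) : ‖((G.lam n ^ (1 / 2 : ℝ) : ℝ) : ℂ) • (wk (G.ω * n) : Z2 H →L[ℂ] CI H)‖ ≤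
    2 * √(G.N₀ * (H + 1)) := by
  refine ContinuousLinearMap.opNorm_le_bound _ (by positivity) fun g => ?_
  rw [smul_apply, norm_smul, Complex.norm_real,
    Real.norm_of_nonneg (Real.rpow_nonneg (G.lw.pos n).le _)]
  have h1 := norm_wk_le (G.ω * n) g
  have h2 := G.norm_lamTz n g
  have h3 : 0 ≤ G.lam n ^ (1 / 2 : ℝ) := Real.rpow_nonneg (G.lw.pos n).le _
  nlinarith

theorem hf_lam (n : ℤ) (x : CI H) : ((G.lam n ^ (-(1 / 2 : ℝ)) : ℝ) : ℂ) •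
    (((G.lam n ^ (1 / 2 : ℝ) : ℝ) : ℂ) • x) = x := by
  rw [smul_smul, ← Complex.ofReal_mul, ← Real.rpow_add (G.lw.pos n), neg_add_cancel, Real.rpow_zero,
    Complex.ofReal_one, one_smul]

theorem hf_UV (g : HH H) (n : ℤ) : hf G.lam (UV G.ω G.lam g) n = uV G.ω (Vf G.ω g) n := by
  rw [hf_apply]
  have h1 : UV G.ω G.lam g n = ((G.lam n ^ (1 / 2 : ℝ) : ℝ) : ℂ) • vk (G.ω * n) (g n) :=
    dg_apply G.norm_UV_fam g n
  rw [h1]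
  exact G.hf_lam n (vk (G.ω * n) (g n))

theorem hf_UW (g : HH H) (n : ℤ) : hf G.lam (UW G.ω G.lam g) n = wV G.ω (Vf G.ω g) n := by
  rw [hf_apply]
  have h1 : UW G.ω G.lam g n = ((G.lam n ^ (1 / 2 : ℝ) : ℝ) : ℂ) • wk (G.ω * n) (g n) :=
    dg_apply G.norm_UW_fam g n
  rw [h1]
  exact G.hf_lam n (wk (G.ω * n) (g n))

/-- `Om = B W + g_L`, the total vorticity -/
noncomputable def gt (B : Bg H) (t : ℝ) (x : HH H × HH H) : HH H := G.Qd x.2 + B.gL t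

/-- the velocity `v` -/
noncomputable def vf (B : Bg H) (t : ℝ) (x : HH H × HH H) : ℤ → CI H := hf G.lam (G.uv B t x)

/-- the velocity `w` -/
noncomputable def wf (B : Bg H) (t : ℝ) (x : HH H × HH H) : ℤ → CI H := hf G.lam (G.uw B t x)

theorem vf_apply (B : Bg H) (t : ℝ) (x : HH H × HH H) (n : ℤ) :
    G.vf B t x n = uV G.ω (Vf G.ω (G.gt B t x)) n + hf G.lam (B.ve t) n := by
  show hf G.lam (UV G.ω G.lam (G.gt B t x) + B.ve t) n = _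
  rw [hf_add, hf_UV]

theorem wf_apply (B : Bg H) (t : ℝ) (x : HH H × HH H) (n : ℤ) :
    G.wf B t x n = wV G.ω (Vf G.ω (G.gt B t x)) n + hf G.lam (B.we t) n := by
  show hf G.lam (UW G.ω G.lam (G.gt B t x) + B.we t) n = _
  rw [hf_add, hf_UW]

theorem S2_vf (B : Bg H) (t : ℝ) (x : HH H × HH H) : S2 G.lam (1 / 2) (G.vf B t x) :=
  (S2_hf G.lw.h1 _).1

theorem S2_wf (B : Bg H) (t : ℝ) (x : HH H × HH H) : S2 G.lam (1 / 2) (G.wf B t x) :=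
  (S2_hf G.lw.h1 _).1

/-- the background at time `t`: `div u_e = 0`, `κ1 = ∂_z κ` -/
structure Okt (B : Bg H) (t : ℝ) : Prop where
  div : ∀ n, DZ (hf G.lam (B.we t) n) (-(kI G.ω n) • (iota (hf G.lam (B.ve t) n) : Z2 H))
  κd : IsD (B.κ t) (B.κ1 t)

variable {G}

theorem Okt.div' {B : Bg H} {t : ℝ} (h : G.Okt B t) (x : HH H × HH H) (n : ℤ) :
    DZ (G.wf B t x n) (-(kI G.ω n) • (iota (G.vf B t x n) : Z2 H)) := by
  rw [wf_apply, vf_apply, map_add, smul_add]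
  exact (wV_dz G.ω _ n).add (h.div n)

variable (G)

/-! ### The operators `Qd`, `Qo` -/

theorem TT_Qd (x : HH H) : TT G.ω (G.Qd x) = Kh G.D.K x := G.D.isKh.bTQ x

theorem b_TT_Qo (x : HH H) : cm G.b (TT G.ω (G.Qo x)) = Kh G.Do.K x := G.Do.isKh.bTQ x

theorem PP_Qd (x : HH H) : PP G.ω (G.Qd x) = G.Qd x := G.D.isKh.P_Q x

theorem PP_Qo (x : HH H) : PP G.ω (G.Qo x) = G.Qo x := G.Do.isKh.P_Q x

theorem inner_Qd (x y : HH H) : ⟪G.Qd x, cm G.a (G.Qd y)⟫_ℂ = ⟪x, y⟫_ℂ := by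
  rw [← inner_cm G.ha.c]
  exact G.D.isKh.inner_aQ x y

theorem inner_Qo (x y : HH H) : ⟪G.Qo x, G.Qo y⟫_ℂ = ⟪x, y⟫_ℂ := G.Do.isKh.inner_aQ x y

/-- `K^{-1/2} T g` -/
noncomputable def qd : HH H →L[ℂ] HH H := G.D.qi

/-- `T g` as a Dirichlet element: `Qo (qo g) = g` -/
noncomputable def qo : HH H →L[ℂ] HH H := G.Do.qi

theorem Qd_qd {g : HH H} (hg : PP G.ω g = g) : G.Qd (G.qd g) = g := G.D.Q_qi hg

theorem Qo_qo {g : HH H} (hg : PP G.ω g = g) : G.Qo (G.qo g) = g := G.Do.Q_qi hg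

theorem cm_b_J (x : HH H) : cm G.b (cm G.b x) = cm G.J x := G.bb x

theorem ζH : ex G.ζ H = 0 := by
  obtain ⟨r, hr, h⟩ := G.ζ_zero
  exact h H ⟨hr.le, le_rfl⟩

theorem isD_star {m m1 : CI H} (hm : IsD m m1) : IsD (star m) (star m1) := by
  intro z hz
  have h1 := (hm z hz).star
  exact h1

theorem isD_real {m m1 : CI H} (hm : IsD m m1) (mr : star m = m) : star m1 = m1 := by
  have h1 := isD_star hm
  rw [mr] at h1
  apply ci_ext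
  intro z hz
  have hu : UniqueDiffWithinAt ℝ (Icc (0:ℝ) H) z := uniqueDiffOn_Icc hH.out z hz
  exact hu.eq_deriv _ (h1 z hz) (hm z hz)

theorem ζ1_real : star G.ζ1 = G.ζ1 := isD_real G.ζ_d G.ζ_real

theorem ζ2_real : star G.ζ2 = G.ζ2 := isD_real G.ζ1_d G.ζ1_real

/-- the test function of `(O)`: `φ ↦ ζ E T Qd φ` -/
noncomputable def Zt : HH H →L[ℂ] HH H := G.qo ∘L Bz G.ω G.ζ G.ζ1 ∘L TT G.ω ∘L G.Qd

theorem Qo_Zt (φ : HH H) : G.Qo (G.Zt φ) = Bz G.ω G.ζ G.ζ1 (TT G.ω (G.Qd φ)) :=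
  G.Qo_qo (PP_Bz G.ω G.ζ_d G.ζH _)

theorem TT_Qo_Zt (φ : HH H) : TT G.ω (G.Qo (G.Zt φ)) = Ms G.ζ (EE G.ω (TT G.ω (G.Qd φ))) := by
  rw [Qo_Zt, TT_Bz G.ω G.ζ_d G.ζH]

/-! ### Right-hand sides -/

/-- right-hand side of `(O)`: `⟨φ, lq⟩ = d/dt ⟨g, J q⟩`, `g = T Qo φ` -/
noncomputable def lq (B : Bg H) (t : ℝ) (x : HH H × HH H) : HH H :=
  G.J1 (G.f1 B t x) + G.J2 (G.f2 B t x) - x.1

/-- right-hand side of `(W)` -/
noncomputable def lW (B : Bg H) (t : ℝ) (x : HH H × HH H) : HH H :=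
  G.J3 (G.f3 B t x) + G.J4 (G.f4 B t x) - x.2

/-- right-hand side for `V_L` -/
noncomputable def lL (B : Bg H) (t : ℝ) : HH H :=
  -(G.Qd.adjoint (cm G.a (B.gL t))) - G.J4 (B.FL t)

/-- right-hand side for `V = W + V_L - T (ζ J q)` -/
noncomputable def lV (B : Bg H) (t : ℝ) (x : HH H × HH H) : HH H :=
  G.lW B t x + G.lL B t - G.Zt.adjoint (G.lq B t x)

theorem inner_J1 (φ y : HH H) : ⟪φ, G.J1 y⟫_ℂ = ⟪LT G.ω G.lam (1 / 4) (G.Qo φ), y⟫_ℂ := by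
  rw [J1, ContinuousLinearMap.adjoint_inner_right]; rfl

theorem inner_J2 (φ y : HH H) : ⟪φ, G.J2 y⟫_ℂ = ⟪TT G.ω (G.Qo φ), y⟫_ℂ := by
  rw [J2, ContinuousLinearMap.adjoint_inner_right]; rfl

theorem inner_J3 (φ y : HH H) : ⟪φ, G.J3 y⟫_ℂ = ⟪LT G.ω G.lam (1 / 4) (G.Qd φ), y⟫_ℂ := by
  rw [J3, ContinuousLinearMap.adjoint_inner_right]; rfl

theorem inner_J4 (φ y : HH H) : ⟪φ, G.J4 y⟫_ℂ = ⟪TT G.ω (G.Qd φ), y⟫_ℂ := by
  rw [J4, ContinuousLinearMap.adjoint_inner_right]; rfl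

/-- the transport term -/
theorem inner_f1 {B : Bg H} {t : ℝ} (hB : G.Okt B t) (x : HH H × HH H) (g : HH H) :
    ⟪LT G.ω G.lam (1 / 4) g, G.f1 B t x⟫_ℂ =
      dp (Xy G.ω g) (pz (G.qL x.1) (G.vf B t x)) + dp (Xz G.ω g) (pz (G.qL x.1) (G.wf B t x)) := by
  have h1 := anti_fam G (hB.div' x) (G.S2_vf B t x) (G.S2_wf B t x) g (G.PP_Qo x.1)
  show ⟪LT G.ω G.lam (1 / 4) g, -(prd G.pw (Xy G.ω (G.Qo x.1)) (G.uv B t x) +
    prd G.pw (Xz G.ω (G.Qo x.1)) (G.uw B t x))⟫_ℂ = _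
  rw [inner_neg_right, inner_add_right, inner_LT_prd G.lamOK, inner_LT_prd G.lamOK]
  have e : G.qL x.1 = TT G.ω (G.Qo x.1) := rfl
  rw [e]
  unfold vf wf at h1 ⊢
  linear_combination -h1

/-- **EX3, tested equation for `q`.** `g = T (Qo φ)`, `q = T (Qo p)`:
`d/dt ⟨g, Jq⟩ = -⟨Bg, Bq⟩ + ⟨∇g, q u⟩ + ⟨B* g, κV⟩`. -/
theorem inner_lq {B : Bg H} {t : ℝ} (hB : G.Okt B t) (x : HH H × HH H) (φ : HH H) :
    ⟪φ, G.lq B t x⟫_ℂ = -⟪G.Qo φ, G.Qo x.1⟫_ℂ +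
      (dp (Xy G.ω (G.Qo φ)) (pz (G.qL x.1) (G.vf B t x)) +
        dp (Xz G.ω (G.Qo φ)) (pz (G.qL x.1) (G.wf B t x))) +
      ⟪Xz G.ω (G.Qo φ) + DTc G.ω (G.Qo φ), Ms (B.κ t) (G.VV B t x)⟫_ℂ := by
  have h2 := kappa_i G.ω hB.κd (G.PP_Qo φ) (G.gV B t x)
  rw [lq, inner_sub_right, inner_add_right, inner_J1, inner_J2, G.inner_f1 hB, G.inner_Qo]
  show _ + ⟪TT G.ω (G.Qo φ), Ms (B.κ t) (G.gV B t x) - Ms (B.κ1 t) (TT G.ω (G.gV B t x))⟫_ℂ - _ = _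
  rw [h2]
  show _ = _ + ⟪Xz G.ω (G.Qo φ) + DTc G.ω (G.Qo φ), Ms (B.κ t) (TT G.ω (G.gV B t x))⟫_ℂ
  ring

/-! ### The equation for `V` -/

theorem inner_Xz (ω : ℝ) (f y : HH H) : ⟪f, Xz ω y⟫_ℂ = -⟪Yz ω f, y⟫_ℂ := by
  have h1 := lp.hasSum_inner (𝕜 := ℂ) f (Xz ω y)
  have h2 := (lp.hasSum_inner (𝕜 := ℂ) (Yz ω f) y).neg
  refine h1.unique ?_
  have e : (fun n => ⟪f n, Xz ω y n⟫_ℂ) = fun n => -⟪Yz ω f n, y n⟫_ℂ := by
    funext n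
    rw [Xz_apply, Yz_apply, tZ, inner_sub_right, inner_sub_left, inner_smul_right, inner_smul_left,
      conj_ka, ← inner_conj_symm (f n) (T2 (ω * n) (y n)), inner_T2, inner_conj_symm]
    ring
  rw [e]; exact h2

theorem inner_TT' (ω : ℝ) (f y : HH H) : ⟪f, TT ω y⟫_ℂ = ⟪EE ω f, y⟫_ℂ := by
  rw [← inner_conj_symm, inner_TT, inner_conj_symm]

/-- the term `⟨θ, ζ' w q⟩` -/
theorem inner_LT_zeta (f q : HH H) (w : l2 (CI H)) :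
    ⟪f, LT G.ω G.lam (1 / 4) (Ms G.ζ1 (prd G.pw q w))⟫_ℂ =
      dp (Ms G.ζ1 (EE G.ω f)) (pz q (hf G.lam w)) := by
  rw [inner_dp]
  refine tsum_congr fun n => ?_
  rw [G.lamOK.LT_apply (by norm_num), Ms_apply, Ms_apply, EE_apply, prd_apply, map_smul, map_smul,
    inner_mz, G.ζ1_real, smul_smul, ← Complex.ofReal_mul, ← Real.rpow_add (G.lw.pos n),
    add_neg_cancel, Real.rpow_zero, Complex.ofReal_one, one_smul,
    ← inner_conj_symm (f n), inner_T2, inner_conj_symm]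

theorem pw' : PrW G.lam (1 / 4) (1 / 2) 0 :=
  G.prW (by norm_num) (by norm_num) (by norm_num) (by norm_num)

/-- real functions of `z` move through products -/
theorem dp_Ms_pz {m : CI H} (mr : star m = m) (x g : HH H) {v : ℤ → CI H}
    (sv : S2 G.lam (1 / 2) v) :
    dp (Ms m x) (pz (TT G.ω g) v) = dp x (pz (Ms m (TT G.ω g)) v) := by
  rw [dp_Ms, mr]
  refine tsum_congr fun n => ?_
  show ⟪x n, mz m (pz (TT G.ω g) v n)⟫_ℂ = _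
  rw [mz_pz G.pw' m (S2_TT' G (by norm_num) g) sv]
  have e : (fun j => mz m (TT G.ω g j)) = ⇑(Ms m (TT G.ω g)) := by
    funext j; rw [Ms_apply]
  rw [e]

theorem bf_eq (om f : HH H) (v w : ℤ → CI H) :
    bf G.ω om v w f = dp (Yz G.ω f) (pz om w) + dp (Yy G.ω f) (pz om v) := by
  have e1 : tZ G.ω f = ⇑(Yz G.ω f) := by funext n; rw [Yz_apply]
  have e2 : tY G.ω f = ⇑(Yy G.ω f) := by funext n; rw [Yy_apply]
  rw [bf, e1, e2]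

theorem inner_Ms_ζ (x y : HH H) : ⟪Ms G.ζ x, y⟫_ℂ = ⟪x, Ms G.ζ y⟫_ℂ := by
  rw [inner_Ms, G.ζ_real]

theorem cm_a_Ms_J (m : CI H) (x : HH H) : cm G.a (Ms m (cm G.J x)) = Ms m x := by
  rw [← Ms_cm m G.ha.c.s0, G.aJ]

/-- the form `b(·, u; f)` is additive, `f = T g` -/
theorem bf_add (B : Bg H) (t : ℝ) (x : HH H × HH H) (g om om' : HH H) :
    bf G.ω (om + om' : HH H) (G.vf B t x) (G.wf B t x) (TT G.ω g) =
      bf G.ω om (G.vf B t x) (G.wf B t x) (TT G.ω g) +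
        bf G.ω om' (G.vf B t x) (G.wf B t x) (TT G.ω g) := by
  unfold vf wf
  rw [← inner_LT_Pw G g, ← inner_LT_Pw G g, ← inner_LT_Pw G g, ← inner_add_right]
  congr 1
  show -(Xz G.ω (prd G.pw (om + om') _) + Xy G.ω (prd G.pw (om + om') _)) =
    -(Xz G.ω (prd G.pw om _) + Xy G.ω (prd G.pw om _)) +
      -(Xz G.ω (prd G.pw om' _) + Xy G.ω (prd G.pw om' _))
  simp only [map_add, add_apply]
  abel

/-- **EX3, tested equation for `V`.** `f = T (Qd φ) = K^{1/2} φ`: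
`d/dt ⟨f, V⟩ = -⟨Bf, aBV⟩ + b(ζ a BV, u; f) - ⟨f, κV⟩ + ⟨f, fc⟩`. -/
theorem inner_lV {B : Bg H} {t : ℝ} (hB : G.Okt B t) (x : HH H × HH H) (φ : HH H) :
    ⟪φ, G.lV B t x⟫_ℂ = -⟪G.Qd φ, cm G.a (G.gV B t x)⟫_ℂ +
      bf G.ω (Ms G.ζ (cm G.a (G.gV B t x))) (G.vf B t x) (G.wf B t x) (TT G.ω (G.Qd φ)) -
      ⟪TT G.ω (G.Qd φ), Ms (B.κ t) (G.VV B t x)⟫_ℂ + ⟪TT G.ω (G.Qd φ), B.fc t⟫_ℂ := by
  set f : HH H := TT G.ω (G.Qd φ) with hf'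
  set q : HH H := G.qL x.1 with hq
  have hq' : q = TT G.ω (G.Qo x.1) := rfl
  -- the term `W`
  have w1 : ⟪φ, G.lW B t x⟫_ℂ = bf G.ω (Ms G.ζ q + Ms G.ζ (cm G.a (G.gV B t x)) : HH H) (G.vf B t x)
      (G.wf B t x) f + ⟪f, G.f4 B t x⟫_ℂ - ⟪G.Qd φ, cm G.a (G.Qd x.2)⟫_ℂ := by
    rw [lW, inner_sub_right, inner_add_right, inner_J3, inner_J4, inner_Qd]
    congr 2
    exact inner_LT_Pw G (G.Qd φ) _ _ _
  have w2 : ⟪f, G.f4 B t x⟫_ℂ = 2 * ⟪Yz G.ω f, Ms G.ζ1 q⟫_ℂ + ⟪EE G.ω f, Ms G.ζ2 q⟫_ℂ +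
      ⟪EE G.ω f, Ms G.ζ1 (Ms (B.κ t) (G.VV B t x))⟫_ℂ +
      dp (Ms G.ζ1 (EE G.ω f)) (pz q (G.wf B t x)) +
      (⟪f, Ms G.ζ (Ms (B.κ t) (G.VV B t x))⟫_ℂ - ⟪f, Ms (B.κ t) (G.VV B t x)⟫_ℂ) +
      (⟪f, B.FL t⟫_ℂ + ⟪f, B.fc t⟫_ℂ) := by
    show ⟪f, (-(2:ℂ) • Xz G.ω (Ms G.ζ1 q) + TT G.ω (Ms G.ζ2 q + Ms G.ζ1 (Ms (B.κ t) (G.VV B t x))) +
      LT G.ω G.lam (1 / 4) (Ms G.ζ1 (prd G.pw q (G.uw B t x)))) +
      (Ms G.ζ (Ms (B.κ t) (G.VV B t x)) - Ms (B.κ t) (G.VV B t x)) + (B.FL t + B.fc t)⟫_ℂ = _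
    rw [inner_add_right, inner_add_right, inner_add_right, inner_add_right, inner_sub_right,
      inner_add_right, inner_smul_right, inner_Xz, inner_TT', inner_add_right, inner_LT_zeta]
    unfold wf
    ring
  -- the term `V_L`
  have l1 : ⟪φ, G.lL B t⟫_ℂ = -⟪G.Qd φ, cm G.a (B.gL t)⟫_ℂ - ⟪f, B.FL t⟫_ℂ := by
    rw [lL, inner_sub_right, inner_neg_right, ContinuousLinearMap.adjoint_inner_right, inner_J4]
  -- the term `T (ζ J q)`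
  have z1 : ⟪φ, G.Zt.adjoint (G.lq B t x)⟫_ℂ =
      dp (Ms G.ζ (Yy G.ω f)) (pz q (G.vf B t x)) +
      (dp (Ms G.ζ1 (EE G.ω f)) (pz q (G.wf B t x)) + dp (Ms G.ζ (Yz G.ω f)) (pz q (G.wf B t x))) +
      (⟪f, Ms G.ζ (Ms (B.κ t) (G.VV B t x))⟫_ℂ +
        ⟪EE G.ω f, Ms G.ζ1 (Ms (B.κ t) (G.VV B t x))⟫_ℂ) -
      (⟪G.Qd φ, Ms G.ζ q⟫_ℂ - 2 * ⟪Yz G.ω f, Ms G.ζ1 q⟫_ℂ - ⟪EE G.ω f, Ms G.ζ2 q⟫_ℂ) := by
    rw [ContinuousLinearMap.adjoint_inner_right, lq, inner_sub_right, inner_add_right, inner_J1,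
      inner_J2, G.inner_f1 hB, TT_Qo_Zt, ← G.inner_Qo (G.Zt φ) x.1, Qo_Zt, Xy_Bz G.ω G.ζ_d G.ζH,
      Xz_Bz G.ω G.ζ_d G.ζH, zeta_i G.ω G.ζ_d G.ζ1_d G.ζ_real G.ζ1_real G.ζ2_real _ (G.PP_Qo x.1)]
    have e1 : ⟪Ms G.ζ (EE G.ω f), G.f2 B t x⟫_ℂ = ⟪f, Ms G.ζ (Ms (B.κ t) (G.VV B t x))⟫_ℂ +
        ⟪EE G.ω f, Ms G.ζ1 (Ms (B.κ t) (G.VV B t x))⟫_ℂ := by
      have := zeta_iii G.ω G.ζ_d G.ζH hB.κd f (G.gV B t x)
      rw [inner_Ms G.ζ f, inner_Ms G.ζ1, G.ζ_real, G.ζ1_real] at this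
      exact this
    have e2 : dp (⇑(Ms G.ζ1 (EE G.ω f) + Ms G.ζ (Yz G.ω f) : HH H)) (pz q (G.wf B t x)) =
        dp (Ms G.ζ1 (EE G.ω f)) (pz q (G.wf B t x)) +
        dp (Ms G.ζ (Yz G.ω f)) (pz q (G.wf B t x)) := by
      have s1 : S2 G.lam (-0) (pz q (G.wf B t x)) :=
        (S2_pz G.pw' (S2_TT' G (by norm_num) (G.Qo x.1)) (G.S2_wf B t x)).1
      have a1 := (dp_sum G.lw.h1 (S2_l2 G.lam (Ms G.ζ1 (EE G.ω f))) s1).1.of_norm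
      have a2 := (dp_sum G.lw.h1 (S2_l2 G.lam (Ms G.ζ (Yz G.ω f))) s1).1.of_norm
      unfold dp
      rw [← a1.tsum_add a2]
      refine tsum_congr fun n => ?_
      rw [lp.coeFn_add, Pi.add_apply, inner_add_left]
    rw [e1]
    show dp _ (pz q _) + dp _ (pz q _) + _ - _ = _
    rw [e2]
    rfl
  -- products
  have p1 : bf G.ω (Ms G.ζ q) (G.vf B t x) (G.wf B t x) f =
      dp (Ms G.ζ (Yz G.ω f)) (pz q (G.wf B t x)) + dp (Ms G.ζ (Yy G.ω f)) (pz q (G.vf B t x)) := by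
    rw [bf_eq, hq', G.dp_Ms_pz G.ζ_real _ _ (G.S2_wf B t x),
      G.dp_Ms_pz G.ζ_real _ _ (G.S2_vf B t x)]
  have p2 := G.bf_add B t x (G.Qd φ) (Ms G.ζ q) (Ms G.ζ (cm G.a (G.gV B t x)))
  have p3 : ⟪G.Qd φ, cm G.a (G.Qd x.2)⟫_ℂ + ⟪G.Qd φ, cm G.a (B.gL t)⟫_ℂ =
      ⟪G.Qd φ, cm G.a (G.gV B t x)⟫_ℂ + ⟪G.Qd φ, Ms G.ζ q⟫_ℂ := by
    rw [← inner_add_right, ← inner_add_right, ← map_add]
    congr 1
    have e : G.gV B t x = G.Qd x.2 + B.gL t - Ms G.ζ (cm G.J q) := rfl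
    rw [e, map_sub, cm_a_Ms_J, sub_add_cancel]
  rw [lV, inner_sub_right, inner_add_right, w1, w2, l1, z1, p2, p1]
  linear_combination -p3

/-! ### Solutions are tested solutions -/

variable {G} {B : Bg H} {t₀ t₁ : ℝ} {x₀ : HH H × HH H} {x : ℝ → HH H × HH H}

theorem Phi_cont (hB : B.Cont t₀ t₁) (hx : ContinuousOn x (Icc t₀ t₁)) :
    ContinuousOn (fun r => G.Phi B r (x r)) (Icc t₀ t₁) := by
  obtain ⟨M, hM⟩ := Phi_nl (G := G) hB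
  exact hM.cont_comp hx

theorem Sol.eq12 (h : G.Sol B t₀ t₁ x₀ x) (hB : B.Cont t₀ t₁) {t : ℝ} (ht : t ∈ Icc t₀ t₁) :
    (x t).1 = Sg G.Do.K (t - t₀) x₀.1 + ∫ r in t₀..t, AS G.Do.K (t - r)
      ((G.J1.coprod G.J2) (G.f1 B r (x r), G.f2 B r (x r))) ∧
    (x t).2 = Sg G.D.K (t - t₀) x₀.2 + ∫ r in t₀..t, AS G.D.K (t - r)
      ((G.J3.coprod G.J4) (G.f3 B r (x r), G.f4 B r (x r))) := by
  obtain ⟨C, hC⟩ := G.ker
  have hi := hC.int_aux (Phi_cont (G := G) hB h.cont) ht (c := t₀) ⟨le_rfl, ht.1⟩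
  have h1 := h.eq t ht
  constructor
  · have h2 := congrArg Prod.fst h1
    rw [Prod.fst_add] at h2
    rw [h2]
    congr 1
    exact (ContinuousLinearMap.intervalIntegral_comp_comm
      (ContinuousLinearMap.fst ℂ (HH H) (HH H)) hi).symm
  · have h2 := congrArg Prod.snd h1
    rw [Prod.snd_add] at h2
    rw [h2]
    congr 1
    exact (ContinuousLinearMap.intervalIntegral_comp_comm
      (ContinuousLinearMap.snd ℂ (HH H) (HH H)) hi).symm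

/-- **EX3, `q`.** -/
theorem Sol.tst_q (h : G.Sol B t₀ t₁ x₀ x) (hB : B.Cont t₀ t₁) :
    Tst G.Do.K t₀ t₁ (fun t => cm G.b (G.qL (x t).1)) (fun t => G.lq B t (x t)) := by
  obtain ⟨C, hC⟩ := ker_one G.lamOK G.Do rfl
  have hg := Phi_cont (G := G) hB h.cont
  have h1 := mild_Tst G.Do.K_nonneg G.Do.K_injective hC
    (g := fun r => (G.f1 B r (x r), G.f2 B r (x r))) (h₀ := x₀.1) (h := fun t => (x t).1)
    (continuous_fst.comp_continuousOn hg) (continuous_fst.comp_continuousOn h.cont)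
    (fun t ht => (h.eq12 hB ht).1)
  refine h1.congr (fun t _ => ?_) (fun t _ => ?_)
  · exact G.b_TT_Qo _
  · rfl

/-- **EX3, `W`.** -/
theorem Sol.tst_W (h : G.Sol B t₀ t₁ x₀ x) (hB : B.Cont t₀ t₁) :
    Tst G.D.K t₀ t₁ (fun t => G.WL (x t).2) (fun t => G.lW B t (x t)) := by
  obtain ⟨C, hC⟩ := ker_one G.lamOK G.D rfl
  have hg := Phi_cont (G := G) hB h.cont
  have h1 := mild_Tst G.D.K_nonneg G.D.K_injective hC
    (g := fun r => (G.f3 B r (x r), G.f4 B r (x r))) (h₀ := x₀.2) (h := fun t => (x t).2)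
    (continuous_snd.comp_continuousOn hg) (continuous_snd.comp_continuousOn h.cont)
    (fun t ht => (h.eq12 hB ht).2)
  refine h1.congr (fun t _ => ?_) (fun t _ => ?_)
  · exact G.TT_Qd _
  · rfl

/-- transport of `(O)` to `T (ζ J q)` -/
theorem Sol.tst_J (h : G.Sol B t₀ t₁ x₀ x) (hB : B.Cont t₀ t₁) :
    Tst G.D.K t₀ t₁ (fun t => TT G.ω (Ms G.ζ (cm G.J (G.qL (x t).1))))
      (fun t => G.Zt.adjoint (G.lq B t (x t))) := by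
  have h1 := (h.tst_q hB).map (K' := G.D.K) (M := TT G.ω ∘L Ms G.ζ ∘L cm G.b) (N := G.Zt.adjoint)
    (fun y => by
      refine ext_inner_left ℂ fun φ => ?_
      show ⟪φ, Kh G.D.K (TT G.ω (Ms G.ζ (cm G.b y)))⟫_ℂ = ⟪φ, G.Zt.adjoint (Kh G.Do.K y)⟫_ℂ
      rw [ContinuousLinearMap.adjoint_inner_right, ← Kh_inner, ← Kh_inner, ← G.TT_Qd,
        ← G.b_TT_Qo, TT_Qo_Zt, inner_TT', ← inner_Ms_ζ, inner_cm G.hb.c])
  refine h1.congr (fun t _ => ?_) (fun t _ => rfl)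
  show _ = TT G.ω (Ms G.ζ (cm G.b (cm G.b _)))
  rw [G.bb]

/-- the lift `V_L` -/
def Lift (G : Geo H) (B : Bg H) (t₀ t₁ : ℝ) : Prop :=
  Tst G.D.K t₀ t₁ (fun t => TT G.ω (B.gL t)) (G.lL B)

/-- **EX3, `V`.** -/
theorem Sol.tst_V (h : G.Sol B t₀ t₁ x₀ x) (hB : B.Cont t₀ t₁) (hL : G.Lift B t₀ t₁) :
    Tst G.D.K t₀ t₁ (fun t => G.VV B t (x t)) (fun t => G.lV B t (x t)) := by
  have h1 := ((h.tst_W hB).add hL).sub (h.tst_J hB)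
  refine h1.congr (fun t _ => ?_) (fun t _ => rfl)
  show TT G.ω (G.Qd (x t).2 + B.gL t - Ms G.ζ (cm G.J (G.qL (x t).1))) = _
  rw [map_sub, map_add]
  rfl

end Geo

end

end Pool.Agent.Lib.MP_79abb3_an.SC
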