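import Pool.Agent.Lib.MP_79abb3_an.SC.LaB

/-!
MP_79abb3_an, Theorem C, base file C: the operators `T_k`, `E_k` on `L²(0,H)`.
-/

set_option autoImplicit false
set_option linter.unusedSectionVars false

open MeasureTheory Set Filter Topology Function
open scoped ENNReal InnerProductSpace

namespace Pool.Agent.Lib.MP_79abb3_an.SC

open Pool.Agent.Lib.MP_79abb3_an.P25

section
variable {H : ℝ} [hH : Fact (0 < H)]

/-- Evaluation as a complex functional. -/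
noncomputable def evC (z : ℝ) : CI H →L[ℂ] ℂ :=
  LinearMap.mkContinuous
    { toFun := fun f => ex f z
      map_add' := fun _ _ => rfl
      map_smul' := fun c f => by simp } 1 (fun f => by rw [one_mul]; exact norm_ex_le f z)

@[simp] theorem evC_apply (z : ℝ) (f : CI H) : evC z f = ex f z := rfl

theorem ex_const (c : ℂ) (z : ℝ) : ex (ContinuousMap.const _ c : CI H) z = c := rfl

theorem re_inner_comm {E : Type} [NormedAddCommGroup E] [InnerProductSpace ℂ E] (f g : E) :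
    (⟪f, g⟫_ℂ).re = (⟪g, f⟫_ℂ).re := by
  rw [← inner_conj_symm, Complex.conj_re]

/-- `exp(m z)` -/
noncomputable def fe (m : ℝ) : CI H :=
  mkCI (fun z => ((Real.exp (m * z) : ℝ) : ℂ)) (by
    have : Continuous fun z : ℝ => ((Real.exp (m * z) : ℝ) : ℂ) := by fun_prop
    exact this.continuousOn)

theorem ex_fe (m : ℝ) {z : ℝ} (hz : z ∈ Icc (0:ℝ) H) :
    ex (fe m : CI H) z = ((Real.exp (m * z) : ℝ) : ℂ) := ex_mkCI _ hz

theorem fe_isD (m : ℝ) : IsD (fe m : CI H) (m • fe m) := by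
  intro z hz
  have h1 := (hasDerivAt_cexp m z).hasDerivWithinAt (s := Icc (0:ℝ) H)
  have h2 : HasDerivWithinAt (ex (fe m : CI H)) _ (Icc 0 H) z :=
    h1.congr (fun y hy => ex_fe m hy) (ex_fe m hz)
  refine h2.congr_deriv ?_
  rw [ex_rsmul, ex_fe m hz]
  push_cast
  ring

theorem fe_mul_neg (m : ℝ) : (fe m : CI H) * fe (-m) = 1 := by
  apply ci_ext
  intro z hz
  rw [ex_mul, ex_fe m hz, ex_fe (-m) hz, ← Complex.ofReal_mul, ← Real.exp_add]
  have : m * z + -m * z = 0 := by ring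
  rw [this, Real.exp_zero]
  rfl

theorem fe_neg_mul (m : ℝ) : (fe (-m) : CI H) * fe m = 1 := by rw [mul_comm, fe_mul_neg]

theorem ex_fe_zero (m : ℝ) : ex (fe m : CI H) 0 = 1 := by
  rw [ex_fe m zero_memI, mul_zero, Real.exp_zero, Complex.ofReal_one]

/-- `E_k f = ∫₀^z exp(-|k|(z-x)) f(x) dx` -/
noncomputable def Ez (k : ℝ) : Z2 H →L[ℂ] CI H :=
  (ContinuousLinearMap.mul ℂ (CI H) (fe (-|k|))).comp (Pz.comp (mz (fe |k|)))

theorem Ez_eq (k : ℝ) (f : Z2 H) : Ez k f = fe (-|k|) * Pz (mz (fe |k|) f) := rfl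

/-- `T_k f = ∫_z^H exp(-|k|(x-z)) f(x) dx` -/
noncomputable def Tz (k : ℝ) : Z2 H →L[ℂ] CI H :=
  (ContinuousLinearMap.mul ℂ (CI H) (fe |k|)).comp
    (((evC H).smulRight (1 : CI H) - ContinuousLinearMap.id ℂ (CI H)).comp
      (Pz.comp (mz (fe (-|k|)))))

theorem Tz_eq (k : ℝ) (f : Z2 H) : Tz k f = fe |k| *
    (ContinuousMap.const _ (ex (Pz (mz (fe (-|k|)) f)) H) - Pz (mz (fe (-|k|)) f)) := by
  have h1 : Tz k f = fe |k| *
    (ex (Pz (mz (fe (-|k|)) f)) H • (1 : CI H) - Pz (mz (fe (-|k|)) f)) := rfl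
  rw [h1]
  congr 2
  ext z
  simp

theorem Ez_zero (k : ℝ) (f : Z2 H) : ex (Ez k f) 0 = 0 := by
  rw [Ez_eq, ex_mul, Pz_zero, mul_zero]

theorem Tz_H (k : ℝ) (f : Z2 H) : ex (Tz k f) H = 0 := by
  rw [Tz_eq, ex_mul, ex_sub, ex_const, sub_self, mul_zero]

theorem mz_rsmul (c : ℝ) (b : CI H) (f : Z2 H) : mz (c • b) f = (c : ℂ) • mz b f := by
  have h1 : (c • b : CI H) = (c : ℂ) • b := by
    ext z
    simp
  rw [h1, map_smul, smul_apply]

theorem iota_rsmul (c : ℝ) (b : CI H) : (iota (c • b) : Z2 H) = (c : ℂ) • iota b := by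
  have h1 : (c • b : CI H) = (c : ℂ) • b := by
    ext z
    simp
  rw [h1, map_smul]

theorem Ez_dz (k : ℝ) (f : Z2 H) : DZ (Ez k f) (f - ((|k| : ℝ) : ℂ) • iota (Ez k f)) := by
  have h1 := (IsD.dz (fe_isD (H := H) (-|k|))).mul (DZ_Pz (mz (fe |k|) f))
  rw [← Ez_eq] at h1
  have e1 : mz (Pz (mz (fe |k|) f)) (iota (-|k| • fe (-|k|))) = -(((|k| : ℝ) : ℂ) • iota (Ez k f)) := by
    rw [iota_rsmul, map_smul, mz_iota, Ez_eq, mul_comm]
    push_cast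
    rw [neg_smul]
  have e2 : mz (fe (-|k|)) (mz (fe |k|) f) = f := by
    rw [← mz_mul, fe_neg_mul, mz_one]
  rw [e1, e2] at h1
  convert h1 using 1
  abel

theorem Tz_dz (k : ℝ) (f : Z2 H) : DZ (Tz k f) (((|k| : ℝ) : ℂ) • iota (Tz k f) - f) := by
  have h1 := (IsD.dz (fe_isD (H := H) |k|)).mul
    ((DZ.const (ex (Pz (mz (fe (-|k|)) f)) H)).sub (DZ_Pz (mz (fe (-|k|)) f)))
  rw [← Tz_eq] at h1
  have e1 : mz (ContinuousMap.const _ (ex (Pz (mz (fe (-|k|)) f)) H) - Pz (mz (fe (-|k|)) f))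
      (iota (|k| • fe |k|)) = ((|k| : ℝ) : ℂ) • iota (Tz k f) := by
    rw [iota_rsmul, map_smul, mz_iota, Tz_eq, mul_comm]
  have e2 : mz (fe |k|) ((0 : Z2 H) - mz (fe (-|k|)) f) = -f := by
    rw [zero_sub, map_neg, ← mz_mul, fe_mul_neg, mz_one]
  rw [e1, e2] at h1
  convert h1 using 1
  abel

/-- Functions with weak derivative `0`. -/
theorem DZ.zero_const {F : CI H} (h : DZ F 0) {z : ℝ} (hz : z ∈ Icc (0:ℝ) H) : ex F z = ex F 0 := by
  have h1 := h z hz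
  rwa [map_zero, ex_zero, add_zero] at h1

/-- Weak solutions of `F' = a F` that vanish at a point vanish. -/
theorem DZ.ode_zero {F : CI H} (a : ℝ) (h : DZ F ((a : ℂ) • iota F)) {z0 : ℝ} (hz0 : z0 ∈ Icc (0:ℝ) H)
    (h0 : ex F z0 = 0) : F = 0 := by
  have h1 := (IsD.dz (fe_isD (H := H) (-a))).mul h
  have e1 : mz F (iota (-a • fe (-a))) + mz (fe (-a)) ((a : ℂ) • iota F) = 0 := by
    rw [iota_rsmul, map_smul, mz_iota, map_smul, mz_iota, mul_comm]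
    push_cast
    rw [neg_smul, neg_add_cancel]
  rw [e1] at h1
  apply ci_ext
  intro z hz
  have h2 := h1.zero_const hz
  have h3 := h1.zero_const hz0
  rw [ex_mul (fe (-a)) F z0, h0, mul_zero] at h3
  rw [← h3, ex_mul, ex_fe _ hz] at h2
  rw [ex_zero]
  have h4 : ((Real.exp (-a * z) : ℝ) : ℂ) ≠ 0 := by
    rw [Complex.ofReal_ne_zero]
    exact (Real.exp_pos _).ne'
  exact (mul_eq_zero.1 h2).resolve_left h4

theorem Ez_unique {k : ℝ} {F : CI H} {f : Z2 H} (h : DZ F (f - ((|k| : ℝ) : ℂ) • iota F)) (h0 : ex F 0 = 0) :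
    F = Ez k f := by
  have h1 := h.sub (Ez_dz k f)
  have e1 : f - ((|k| : ℝ) : ℂ) • iota F - (f - ((|k| : ℝ) : ℂ) • iota (Ez k f)) =
      ((-|k| : ℝ) : ℂ) • (iota (F - Ez k f) : Z2 H) := by
    rw [map_sub, smul_sub]
    push_cast
    rw [neg_smul, neg_smul]
    abel
  rw [e1] at h1
  exact sub_eq_zero.1 (h1.ode_zero _ zero_memI (by rw [ex_sub, h0, Ez_zero, sub_zero]))

theorem Tz_unique {k : ℝ} {F : CI H} {f : Z2 H} (h : DZ F (((|k| : ℝ) : ℂ) • iota F - f)) (h0 : ex F H = 0) :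
    F = Tz k f := by
  have h1 := h.sub (Tz_dz k f)
  have e1 : ((|k| : ℝ) : ℂ) • iota F - f - (((|k| : ℝ) : ℂ) • iota (Tz k f) - f) =
      ((|k| : ℝ) : ℂ) • (iota (F - Tz k f) : Z2 H) := by
    rw [map_sub, smul_sub]
    abel
  rw [e1] at h1
  exact sub_eq_zero.1 (h1.ode_zero _ H_memI (by rw [ex_sub, h0, Tz_H, sub_zero]))

/-- `2 Re ⟨F, F'⟩ = |F(H)|² - |F(0)|²` -/
theorem DZ.re {F : CI H} {f : Z2 H} (h : DZ F f) :
    2 * (⟪(iota F : Z2 H), f⟫_ℂ).re = ‖ex F H‖ ^ 2 - ‖ex F 0‖ ^ 2 := by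
  have h1 := congrArg Complex.re (h.ibp h)
  have h2 : (⟪f, (iota F : Z2 H)⟫_ℂ).re = (⟪(iota F : Z2 H), f⟫_ℂ).re := re_inner_comm _ _
  have h3 : ∀ w : ℂ, (Star.star w * w).re = ‖w‖ ^ 2 := by
    intro w
    have : Star.star w * w = ((‖w‖ ^ 2 : ℝ) : ℂ) := by
      have := Complex.conj_mul' w
      simpa using this
    rw [this, Complex.ofReal_re]
  rw [Complex.add_re, h2, Complex.sub_re, h3, h3] at h1
  linarith

/-- Energy identity for `f = F' + c F`. -/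
theorem DZ.energy {F : CI H} {f g : Z2 H} (h : DZ F f) (c : ℝ) (hg : g = f + (c : ℂ) • iota F) :
    ‖g‖ ^ 2 = ‖f‖ ^ 2 + c ^ 2 * ‖(iota F : Z2 H)‖ ^ 2 + c * (‖ex F H‖ ^ 2 - ‖ex F 0‖ ^ 2) := by
  rw [hg, norm_add_sq (𝕜 := ℂ), norm_smul, inner_smul_right, ← h.re]
  have h2 : (⟪f, (iota F : Z2 H)⟫_ℂ).re = (⟪(iota F : Z2 H), f⟫_ℂ).re := re_inner_comm _ _
  have h3 : RCLike.re ((c : ℂ) * ⟪f, (iota F : Z2 H)⟫_ℂ) = c * (⟪(iota F : Z2 H), f⟫_ℂ).re := by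
    rw [RCLike.re_eq_complex_re, Complex.re_ofReal_mul, h2]
  rw [h3]
  have h4 : ‖(c : ℂ)‖ = |c| := Complex.norm_real c
  rw [h4, mul_pow, sq_abs]
  ring

theorem Ez_energy (k : ℝ) (f : Z2 H) : ‖f‖ ^ 2 = ‖f - ((|k| : ℝ) : ℂ) • iota (Ez k f)‖ ^ 2 +
    k ^ 2 * ‖(iota (Ez k f) : Z2 H)‖ ^ 2 + |k| * ‖ex (Ez k f) H‖ ^ 2 := by
  have h1 := (Ez_dz k f).energy |k| (g := f) (by abel)
  rw [Ez_zero, norm_zero, sq_abs] at h1
  rw [h1]
  ring

theorem Tz_energy (k : ℝ) (f : Z2 H) : ‖f‖ ^ 2 = ‖((|k| : ℝ) : ℂ) • iota (Tz k f) - f‖ ^ 2 +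
    k ^ 2 * ‖(iota (Tz k f) : Z2 H)‖ ^ 2 + |k| * ‖ex (Tz k f) 0‖ ^ 2 := by
  have h1 := (Tz_dz k f).energy (-|k|) (g := -f) (by push_cast; rw [neg_smul]; abel)
  rw [Tz_H, norm_zero, norm_neg, neg_sq, sq_abs] at h1
  rw [h1]
  ring

/-- Adjointness of `T_k` and `E_k`. -/
theorem inner_Tz (k : ℝ) (f g : Z2 H) :
    ⟪(iota (Tz k f) : Z2 H), g⟫_ℂ = ⟪f, (iota (Ez k g) : Z2 H)⟫_ℂ := by
  have h1 := (Tz_dz k f).ibp (Ez_dz k g)
  rw [Tz_H, Ez_zero, star_zero, zero_mul, mul_zero, sub_zero, inner_sub_right, inner_sub_left,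
    inner_smul_right, inner_smul_left] at h1
  have h2 : (starRingEnd ℂ) ((|k| : ℝ) : ℂ) = |k| := Complex.conj_ofReal _
  rw [h2] at h1
  linear_combination h1

/-- Local Cauchy-Schwarz inequality. -/
theorem cs_loc (b : CI H) (f : Z2 H) {a c : ℝ} (ha : a ∈ Icc (0:ℝ) H) (hc : c ∈ Icc (0:ℝ) H)
    (hac : a ≤ c) :
    ‖∫ x in a..c, ex b x * f x‖ ≤ √(∫ x in a..c, ‖ex b x‖ ^ 2) * ‖f‖ := by
  have h0 := hH.out
  have hsub : Ioc a c ⊆ Ioc (0:ℝ) H := fun x hx => ⟨lt_of_le_of_lt ha.1 hx.1, hx.2.trans hc.2⟩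
  have hle : volume.restrict (Ioc a c) ≤ mH H := Measure.restrict_mono hsub le_rfl
  have hf2 : MemLp (fun x => ‖f x‖) 2 (volume.restrict (Ioc a c)) :=
    ((Lp.memLp f).norm).mono_measure hle
  have hb2 : MemLp (fun x => ‖ex b x‖) 2 (volume.restrict (Ioc a c)) :=
    ((memLp_ex b).norm).mono_measure hle
  have e1 : ‖∫ x in a..c, ex b x * f x‖ ≤ ∫ x in Ioc a c, ‖ex b x‖ * ‖f x‖ := by
    rw [intervalIntegral.integral_of_le hac]
    refine (norm_integral_le_integral_norm _).trans (le_of_eq ?_)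
    simp only [norm_mul]
  refine e1.trans ?_
  have e3 := integral_mul_le_Lp_mul_Lq_of_nonneg (μ := volume.restrict (Ioc a c)) (p := 2) (q := 2)
    (f := fun x => ‖ex b x‖) (g := fun x => ‖f x‖) Real.HolderConjugate.two_two
    (Eventually.of_forall fun x => norm_nonneg _) (Eventually.of_forall fun x => norm_nonneg _)
    (by simpa using hb2) (by simpa using hf2)
  refine e3.trans ?_
  have e4 : (∫ x in Ioc a c, ‖ex b x‖ ^ (2:ℝ)) ^ (1 / 2 : ℝ) = √(∫ x in a..c, ‖ex b x‖ ^ 2) := by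
    rw [intervalIntegral.integral_of_le hac, ← Real.sqrt_eq_rpow]
    simp only [Real.rpow_two]
  have e5 : (∫ x in Ioc a c, ‖f x‖ ^ (2:ℝ)) ^ (1 / 2 : ℝ) ≤ ‖f‖ := by
    have e6 : ∫ x in Ioc a c, ‖f x‖ ^ (2:ℝ) ≤ ‖f‖ ^ 2 := by
      rw [norm_sq_Z2, intervalIntegral.integral_of_le h0.le]
      simp only [Real.rpow_two]
      apply setIntegral_mono_set
      · have := (Lp.memLp f).integrable_norm_pow (p := 2) (by norm_num)
        exact this
      · exact Eventually.of_forall fun x => by positivity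
      · exact hsub.eventuallyLE
    rw [← Real.sqrt_eq_rpow]
    exact Real.sqrt_le_iff.2 ⟨norm_nonneg _, e6⟩
  rw [e4]
  gcongr

theorem Ez_apply (k : ℝ) (f : Z2 H) {z : ℝ} (hz : z ∈ Icc (0:ℝ) H) :
    ex (Ez k f) z = ∫ x in (0:ℝ)..z, ((Real.exp (-|k| * (z - x)) : ℝ) : ℂ) * f x := by
  rw [Ez_eq, ex_mul, ex_fe _ hz, Pz_apply _ hz, ← intervalIntegral.integral_const_mul]
  refine ii_congr ?_ zero_memI hz
  filter_upwards [coe_mz (fe |k|) f, ae_restrict_mem measurableSet_Ioc] with x h1 h2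
  rw [h1, ex_fe _ ⟨h2.1.le, h2.2⟩, ← mul_assoc, ← Complex.ofReal_mul, ← Real.exp_add]
  congr 3
  ring

theorem Tz_apply (k : ℝ) (f : Z2 H) {z : ℝ} (hz : z ∈ Icc (0:ℝ) H) :
    ex (Tz k f) z = ∫ x in z..H, ((Real.exp (-|k| * (x - z)) : ℝ) : ℂ) * f x := by
  rw [Tz_eq, ex_mul, ex_fe _ hz, ex_sub]
  have e0 : ex (ContinuousMap.const _ (ex (Pz (mz (fe (-|k|)) f)) H) : CI H) z =
    ex (Pz (mz (fe (-|k|)) f)) H := rfl
  rw [e0, Pz_apply _ hz, Pz_apply _ H_memI, intervalIntegral.integral_interval_sub_left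
    (ii_Z2 _ zero_memI H_memI) (ii_Z2 _ zero_memI hz), ← intervalIntegral.integral_const_mul]
  refine ii_congr ?_ hz H_memI
  filter_upwards [coe_mz (fe (-|k|)) f, ae_restrict_mem measurableSet_Ioc] with x h1 h2
  rw [h1, ex_fe _ ⟨h2.1.le, h2.2⟩, ← mul_assoc, ← Complex.ofReal_mul, ← Real.exp_add]
  congr 3
  ring

theorem Tz_iota (k : ℝ) (b : CI H) : Tz k (iota b) = Top k b := by
  apply ci_ext
  intro z hz
  rw [Tz_apply k _ hz, Top_apply k b hz]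
  refine ii_congr ?_ hz H_memI
  filter_upwards [coe_iota b] with x h1
  rw [h1]

theorem Ez_iota (k : ℝ) (b : CI H) : Ez k (iota b) = Eop k b := by
  apply ci_ext
  intro z hz
  rw [Ez_apply k _ hz, Eop_apply k b hz]
  refine ii_congr ?_ zero_memI hz
  filter_upwards [coe_iota b] with x h1
  rw [h1]

/-- `∫_a^c exp(-2κ ...) ≤ min(H, 1/(2κ))` -/
theorem exp_int_le {κ : ℝ} (hκ : 0 ≤ κ) {z : ℝ} (hz : z ∈ Icc (0:ℝ) H) :
    ∫ x in z..H, Real.exp (-κ * (x - z)) ^ 2 ≤ H ∧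
      2 * κ * ∫ x in z..H, Real.exp (-κ * (x - z)) ^ 2 ≤ 1 := by
  have h0 := hH.out
  have e1 : ∀ x, Real.exp (-κ * (x - z)) ^ 2 = Real.exp (-(2 * κ) * (x - z)) := by
    intro x
    rw [← Real.exp_nat_mul]
    congr 1
    push_cast
    ring
  simp only [e1]
  constructor
  · have h1 : ∫ x in z..H, Real.exp (-(2 * κ) * (x - z)) ≤ ∫ _x in z..H, (1:ℝ) := by
      apply intervalIntegral.integral_mono_on hz.2
      · exact Continuous.intervalIntegrable (by fun_prop) _ _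
      · exact continuous_const.intervalIntegrable _ _
      · intro x hx
        rw [Real.exp_le_one_iff]
        have : 0 ≤ x - z := by linarith [hx.1]
        nlinarith
    refine h1.trans ?_
    rw [intervalIntegral.integral_const, smul_eq_mul, mul_one]
    linarith [hz.1]
  · have h2 : ∫ x in z..H, Real.exp (-(2 * κ) * (x - z)) =
        ∫ x in (0:ℝ)..(H - z), Real.exp (-(2 * κ) * x) := by
      have := intervalIntegral.integral_comp_sub_right (fun x => Real.exp (-(2 * κ) * x)) z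
        (a := z) (b := H)
      rw [sub_self] at this
      exact this
    rw [h2]
    rcases hκ.eq_or_lt with h3 | h3
    · rw [← h3, mul_zero, zero_mul]
      norm_num
    · have h4 := integral_exp_le (κ := 2 * κ) (by positivity) (H - z)
      calc 2 * κ * ∫ x in (0:ℝ)..(H - z), Real.exp (-(2 * κ) * x) ≤ 2 * κ * (1 / (2 * κ)) := by
            gcongr
        _ = 1 := by field_simp

theorem exp_int_le' {κ : ℝ} (hκ : 0 ≤ κ) {z : ℝ} (hz : z ∈ Icc (0:ℝ) H) :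
    ∫ x in (0:ℝ)..z, Real.exp (-κ * (z - x)) ^ 2 ≤ H ∧
      2 * κ * ∫ x in (0:ℝ)..z, Real.exp (-κ * (z - x)) ^ 2 ≤ 1 := by
  have h1 : (H - z) ∈ Icc (0:ℝ) H := ⟨by linarith [hz.2], by linarith [hz.1]⟩
  have h2 := exp_int_le (H := H) hκ h1
  have h3 : ∫ x in (H - z)..H, Real.exp (-κ * (x - (H - z))) ^ 2 =
      ∫ x in (0:ℝ)..z, Real.exp (-κ * (z - x)) ^ 2 := by
    have := intervalIntegral.integral_comp_sub_left
      (fun x => Real.exp (-κ * (x - (H - z))) ^ 2) H (a := 0) (b := z)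
    rw [sub_zero] at this
    rw [← this]
    refine intervalIntegral.integral_congr fun x _ => ?_
    show Real.exp (-κ * (H - x - (H - z))) ^ 2 = _
    congr 3
    ring
  rwa [h3] at h2

theorem Tz_sup_sq (k : ℝ) (f : Z2 H) : ‖Tz k f‖ ^ 2 ≤ H * ‖f‖ ^ 2 ∧
    2 * |k| * ‖Tz k f‖ ^ 2 ≤ ‖f‖ ^ 2 := by
  have h0 := hH.out
  have key : ∀ z ∈ Icc (0:ℝ) H, ‖ex (Tz k f) z‖ ^ 2 ≤
      (∫ x in z..H, Real.exp (-|k| * (x - z)) ^ 2) * ‖f‖ ^ 2 := by
    intro z hz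
    have h1 : ex (Tz k f) z = ∫ x in z..H, ex (((Real.exp (|k| * z) : ℝ) : ℂ) • fe (-|k|) : CI H) x *
        f x := by
      rw [Tz_apply k f hz]
      refine ii_congr ?_ hz H_memI
      filter_upwards [ae_restrict_mem measurableSet_Ioc] with x h2
      rw [ex_smul, ex_fe _ ⟨h2.1.le, h2.2⟩, ← Complex.ofReal_mul, ← Real.exp_add]
      congr 3
      ring
    have h2 := cs_loc (((Real.exp (|k| * z) : ℝ) : ℂ) • fe (-|k|) : CI H) f hz H_memI hz.2
    rw [← h1] at h2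
    have h3 : ∫ x in z..H, ‖ex (((Real.exp (|k| * z) : ℝ) : ℂ) • fe (-|k|) : CI H) x‖ ^ 2 =
        ∫ x in z..H, Real.exp (-|k| * (x - z)) ^ 2 := by
      refine intervalIntegral.integral_congr fun x hx => ?_
      rw [uIcc_of_le hz.2] at hx
      show ‖ex (((Real.exp (|k| * z) : ℝ) : ℂ) • fe (-|k|) : CI H) x‖ ^ 2 = _
      rw [ex_smul, ex_fe _ ⟨hz.1.trans hx.1, hx.2⟩, ← Complex.ofReal_mul, ← Real.exp_add,
        Complex.norm_real, Real.norm_eq_abs, abs_of_pos (Real.exp_pos _)]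
      congr 2
      ring
    rw [h3] at h2
    calc ‖ex (Tz k f) z‖ ^ 2 ≤ (√(∫ x in z..H, Real.exp (-|k| * (x - z)) ^ 2) * ‖f‖) ^ 2 :=
          pow_le_pow_left₀ (norm_nonneg _) h2 2
      _ = _ := by
          rw [mul_pow, Real.sq_sqrt]
          exact intervalIntegral.integral_nonneg hz.2 fun x _ => by positivity
  have sup : ∀ C : ℝ, 0 ≤ C → (∀ z ∈ Icc (0:ℝ) H, ‖ex (Tz k f) z‖ ^ 2 ≤ C) → ‖Tz k f‖ ^ 2 ≤ C := by
    intro C hC h
    have h1 : ‖Tz k f‖ ≤ √C := ci_norm_le (Real.sqrt_nonneg _) fun z hz =>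
      Real.le_sqrt_of_sq_le (h z hz)
    calc ‖Tz k f‖ ^ 2 ≤ √C ^ 2 := pow_le_pow_left₀ (norm_nonneg _) h1 2
      _ = C := Real.sq_sqrt hC
  constructor
  · refine sup _ (by positivity) fun z hz => (key z hz).trans ?_
    gcongr
    exact (exp_int_le (abs_nonneg k) hz).1
  · rcases (abs_nonneg k).eq_or_lt with h3 | h3
    · rw [← h3, mul_zero, zero_mul]
      positivity
    · have h4 : ‖Tz k f‖ ^ 2 ≤ ‖f‖ ^ 2 / (2 * |k|) := by
        refine sup _ (by positivity) fun z hz => (key z hz).trans ?_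
        rw [le_div_iff₀ (by positivity)]
        have := (exp_int_le (abs_nonneg k) hz).2
        calc (∫ x in z..H, Real.exp (-|k| * (x - z)) ^ 2) * ‖f‖ ^ 2 * (2 * |k|) =
              (2 * |k| * ∫ x in z..H, Real.exp (-|k| * (x - z)) ^ 2) * ‖f‖ ^ 2 := by ring
          _ ≤ 1 * ‖f‖ ^ 2 := by gcongr
          _ = ‖f‖ ^ 2 := one_mul _
      rw [le_div_iff₀ (by positivity)] at h4
      linarith

theorem Ez_sup_sq (k : ℝ) (f : Z2 H) : ‖Ez k f‖ ^ 2 ≤ H * ‖f‖ ^ 2 ∧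
    2 * |k| * ‖Ez k f‖ ^ 2 ≤ ‖f‖ ^ 2 := by
  have h0 := hH.out
  have key : ∀ z ∈ Icc (0:ℝ) H, ‖ex (Ez k f) z‖ ^ 2 ≤
      (∫ x in (0:ℝ)..z, Real.exp (-|k| * (z - x)) ^ 2) * ‖f‖ ^ 2 := by
    intro z hz
    have h1 : ex (Ez k f) z = ∫ x in (0:ℝ)..z, ex (((Real.exp (-|k| * z) : ℝ) : ℂ) • fe |k| : CI H) x *
        f x := by
      rw [Ez_apply k f hz]
      refine ii_congr ?_ zero_memI hz
      filter_upwards [ae_restrict_mem measurableSet_Ioc] with x h2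
      rw [ex_smul, ex_fe _ ⟨h2.1.le, h2.2⟩, ← Complex.ofReal_mul, ← Real.exp_add]
      congr 3
      ring
    have h2 := cs_loc (((Real.exp (-|k| * z) : ℝ) : ℂ) • fe |k| : CI H) f zero_memI hz hz.1
    rw [← h1] at h2
    have h3 : ∫ x in (0:ℝ)..z, ‖ex (((Real.exp (-|k| * z) : ℝ) : ℂ) • fe |k| : CI H) x‖ ^ 2 =
        ∫ x in (0:ℝ)..z, Real.exp (-|k| * (z - x)) ^ 2 := by
      refine intervalIntegral.integral_congr fun x hx => ?_
      rw [uIcc_of_le hz.1] at hx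
      show ‖ex (((Real.exp (-|k| * z) : ℝ) : ℂ) • fe |k| : CI H) x‖ ^ 2 = _
      rw [ex_smul, ex_fe _ ⟨hx.1, hx.2.trans hz.2⟩, ← Complex.ofReal_mul, ← Real.exp_add,
        Complex.norm_real, Real.norm_eq_abs, abs_of_pos (Real.exp_pos _)]
      congr 2
      ring
    rw [h3] at h2
    calc ‖ex (Ez k f) z‖ ^ 2 ≤ (√(∫ x in (0:ℝ)..z, Real.exp (-|k| * (z - x)) ^ 2) * ‖f‖) ^ 2 :=
          pow_le_pow_left₀ (norm_nonneg _) h2 2
      _ = _ := by
          rw [mul_pow, Real.sq_sqrt]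
          exact intervalIntegral.integral_nonneg hz.1 fun x _ => by positivity
  have sup : ∀ C : ℝ, 0 ≤ C → (∀ z ∈ Icc (0:ℝ) H, ‖ex (Ez k f) z‖ ^ 2 ≤ C) → ‖Ez k f‖ ^ 2 ≤ C := by
    intro C hC h
    have h1 : ‖Ez k f‖ ≤ √C := ci_norm_le (Real.sqrt_nonneg _) fun z hz =>
      Real.le_sqrt_of_sq_le (h z hz)
    calc ‖Ez k f‖ ^ 2 ≤ √C ^ 2 := pow_le_pow_left₀ (norm_nonneg _) h1 2
      _ = C := Real.sq_sqrt hC
  constructor
  · refine sup _ (by positivity) fun z hz => (key z hz).trans ?_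
    gcongr
    exact (exp_int_le' (abs_nonneg k) hz).1
  · rcases (abs_nonneg k).eq_or_lt with h3 | h3
    · rw [← h3, mul_zero, zero_mul]
      positivity
    · have h4 : ‖Ez k f‖ ^ 2 ≤ ‖f‖ ^ 2 / (2 * |k|) := by
        refine sup _ (by positivity) fun z hz => (key z hz).trans ?_
        rw [le_div_iff₀ (by positivity)]
        have := (exp_int_le' (abs_nonneg k) hz).2
        calc (∫ x in (0:ℝ)..z, Real.exp (-|k| * (z - x)) ^ 2) * ‖f‖ ^ 2 * (2 * |k|) =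
              (2 * |k| * ∫ x in (0:ℝ)..z, Real.exp (-|k| * (z - x)) ^ 2) * ‖f‖ ^ 2 := by ring
          _ ≤ 1 * ‖f‖ ^ 2 := by gcongr
          _ = ‖f‖ ^ 2 := one_mul _
      rw [le_div_iff₀ (by positivity)] at h4
      linarith

end

end Pool.Agent.Lib.MP_79abb3_an.SC
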