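import Pool.Agent.Lib.MP_79abb3_an.FW.Def
import Pool.Agent.Lib.MP_79abb3_an.SC.LaC

/-!
MP_79abb3_an, simply connected domains, block (iii): weights in `z`.
-/

set_option autoImplicit false
set_option linter.unusedSectionVars false

open MeasureTheory Set Filter Topology Function
open scoped ENNReal InnerProductSpace

namespace Pool.Agent.Lib.MP_79abb3_an.SC

open Pool.Agent.Lib.MP_79abb3_an.P25 Pool.Agent.Lib.MP_79abb3_an.FW

section
variable {H : ℝ} [hH : Fact (0 < H)] {lam : ℤ → ℝ}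

/-- A product `m T g` is again of the form `T g'`. -/
theorem Tz_weight (k : ℝ) {m m1 : CI H} (hm : IsD m m1) (g : Z2 H) :
    Tz k (mz m g - mz m1 (iota (Tz k g))) = m * Tz k g := by
  symm
  refine Tz_unique ?_ ?_
  · have h := (IsD.dz hm).mul (Tz_dz k g)
    have e : ((|k| : ℝ) : ℂ) • (iota (m * Tz k g) : Z2 H) - (mz m g - mz m1 (iota (Tz k g))) =
        mz (Tz k g) (iota m1) + mz m (((|k| : ℝ) : ℂ) • iota (Tz k g) - g) := by
      rw [map_sub, map_smul, mz_iota, mz_iota, mz_iota, mul_comm (Tz k g) m1]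
      abel
    rw [e]
    exact h
  · rw [ex_mul, Tz_H, mul_zero]

/-- `|F|` -/
noncomputable def abC (F : CI H) : CI H :=
  ⟨fun z => ((‖F z‖ : ℝ) : ℂ), Complex.continuous_ofReal.comp F.continuous.norm⟩

theorem ex_abC (F : CI H) (z : ℝ) : ex (abC F) z = ((‖ex F z‖ : ℝ) : ℂ) := rfl

theorem norm_ex_abC (F : CI H) (z : ℝ) : ‖ex (abC F) z‖ = ‖ex F z‖ := by
  rw [ex_abC, Complex.norm_real, norm_norm]

theorem norm_abC_le (F : CI H) : ‖abC F‖ ≤ ‖F‖ := ci_norm_le (norm_nonneg _) fun z _ => by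
  rw [norm_ex_abC]; exact norm_ex_le F z

theorem norm_iota_mono {F G : CI H} (h : ∀ z ∈ Icc (0:ℝ) H, ‖ex F z‖ ≤ ‖ex G z‖) :
    ‖(iota F : Z2 H)‖ ≤ ‖(iota G : Z2 H)‖ := by
  refine (sq_le_sq₀ (norm_nonneg _) (norm_nonneg _)).1 ?_
  rw [norm_sq_iota, norm_sq_iota]
  refine intervalIntegral.integral_mono_on hH.out.le
    (Continuous.intervalIntegrable ((continuous_ex F).norm.pow 2) _ _)
    (Continuous.intervalIntegrable ((continuous_ex G).norm.pow 2) _ _) fun z hz => ?_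
  exact pow_le_pow_left₀ (norm_nonneg _) (h z hz) 2

theorem norm_iota_abC (F : CI H) : ‖(iota (abC F) : Z2 H)‖ = ‖(iota F : Z2 H)‖ :=
  le_antisymm (norm_iota_mono fun z _ => (norm_ex_abC F z).le)
    (norm_iota_mono fun z _ => (norm_ex_abC F z).ge)

/-- `∫ |b| |q| ≤ |b|_2 |q|_2` -/
theorem int_mul_norm_le (b : CI H) (q : Z2 H) :
    IntervalIntegrable (fun z => ‖ex b z‖ * ‖q z‖) volume 0 H ∧
      ∫ z in (0:ℝ)..H, ‖ex b z‖ * ‖q z‖ ≤ ‖(iota b : Z2 H)‖ * ‖q‖ := by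
  have h0 := hH.out
  have hf2 : MemLp (fun x => ‖ex b x‖) 2 (mH H) := (memLp_ex b).norm
  have hg2 : MemLp (fun x => ‖q x‖) 2 (mH H) := (Lp.memLp q).norm
  have hfg : Integrable (fun x => ‖ex b x‖ * ‖q x‖) (mH H) := hf2.integrable_mul hg2
  refine ⟨(intervalIntegrable_iff_integrableOn_Ioc_of_le h0.le).2 hfg, ?_⟩
  have e3 := integral_mul_le_Lp_mul_Lq_of_nonneg (μ := mH H) (p := 2) (q := 2)
    (f := fun x => ‖ex b x‖) (g := fun x => ‖q x‖) Real.HolderConjugate.two_two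
    (Eventually.of_forall fun x => norm_nonneg _) (Eventually.of_forall fun x => norm_nonneg _)
    (by simpa using hf2) (by simpa using hg2)
  rw [intervalIntegral.integral_of_le h0.le]
  refine e3.trans (le_of_eq ?_)
  have e4 : (∫ x, ‖q x‖ ^ (2:ℝ) ∂(mH H)) ^ (1 / 2 : ℝ) = ‖q‖ := by
    have e5 : ∫ x, ‖q x‖ ^ (2:ℝ) ∂(mH H) = ‖q‖ ^ 2 := by
      rw [norm_sq_Z2, intervalIntegral.integral_of_le h0.le]
      simp only [Real.rpow_two]
    rw [e5, ← Real.sqrt_eq_rpow, Real.sqrt_sq (norm_nonneg _)]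
  have e6 : (∫ x, ‖ex b x‖ ^ (2:ℝ) ∂(mH H)) ^ (1 / 2 : ℝ) = ‖(iota b : Z2 H)‖ := by
    have e5 : ∫ x, ‖ex b x‖ ^ (2:ℝ) ∂(mH H) = ‖(iota b : Z2 H)‖ ^ 2 := by
      rw [norm_sq_iota, intervalIntegral.integral_of_le h0.le]
      simp only [Real.rpow_two]
    rw [e5, ← Real.sqrt_eq_rpow, Real.sqrt_sq (norm_nonneg _)]
  rw [e4, e6]

/-- Trilinear integrals with a weight taken from the outer factor. -/
theorem wmul_le {r u th h : CI H} (p : Z2 H)
    (hr : ∀ z ∈ Icc (0:ℝ) H, ‖ex r z‖ ≤ ‖ex th z‖ * ‖ex h z‖) :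
    ‖⟪(iota r : Z2 H), mz u p⟫_ℂ‖ ≤ ‖mz th p‖ * ‖(iota (u * h) : Z2 H)‖ := by
  have h0 := hH.out
  obtain ⟨i1, i2⟩ := int_mul_norm_le (u * h) (mz th p)
  rw [inner_Z2]
  refine (intervalIntegral.norm_integral_le_of_norm_le h0.le ?_ i1).trans ?_
  · have c1 : ∀ᵐ x ∂volume, x ∈ Ioc (0:ℝ) H → (iota r : Z2 H) x = ex r x :=
      (ae_restrict_iff' measurableSet_Ioc).1 (coe_iota r)
    have c2 : ∀ᵐ x ∂volume, x ∈ Ioc (0:ℝ) H → (mz u p : Z2 H) x = ex u x * p x :=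
      (ae_restrict_iff' measurableSet_Ioc).1 (coe_mz u p)
    have c3 : ∀ᵐ x ∂volume, x ∈ Ioc (0:ℝ) H → (mz th p : Z2 H) x = ex th x * p x :=
      (ae_restrict_iff' measurableSet_Ioc).1 (coe_mz th p)
    filter_upwards [c1, c2, c3] with x h1 h2 h3 hx
    rw [h1 hx, h2 hx, h3 hx, norm_mul, norm_star, norm_mul, norm_mul, ex_mul, norm_mul]
    have h4 := hr x ⟨hx.1.le, hx.2⟩
    have h5 : 0 ≤ ‖ex u x‖ * ‖p x‖ := by positivity
    calc ‖ex r x‖ * (‖ex u x‖ * ‖p x‖) ≤ (‖ex th x‖ * ‖ex h x‖) * (‖ex u x‖ * ‖p x‖) :=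
          mul_le_mul_of_nonneg_right h4 h5
      _ = _ := by ring
  · refine i2.trans (le_of_eq ?_)
    rw [mul_comm]

/-- Weights and `E_k`: if `p z q x ≤ r z s x` for `x ≤ z`. -/
theorem wEz {p q r s : ℝ → ℝ} (cq : Continuous q) (cs : Continuous s)
    (hp : ∀ z ∈ Icc (0:ℝ) H, 0 ≤ p z) (hq : ∀ z ∈ Icc (0:ℝ) H, 0 ≤ q z)
    (hr : ∀ z ∈ Icc (0:ℝ) H, 0 ≤ r z) (hs : ∀ z ∈ Icc (0:ℝ) H, 0 ≤ s z)
    (h : ∀ x ∈ Icc (0:ℝ) H, ∀ z ∈ Icc (0:ℝ) H, x ≤ z → p z * q x ≤ r z * s x) (k : ℝ) (f : CI H)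
    {z : ℝ} (hz : z ∈ Icc (0:ℝ) H) :
    p z * ‖ex (Ez k (iota (rc q cq * f))) z‖ ≤ r z * ‖ex (Eop k (abC (rc s cs * f))) z‖ := by
  have hcf := continuous_ex f
  have hmem : ∀ x ∈ Icc (0:ℝ) z, x ∈ Icc (0:ℝ) H := fun x hx => ⟨hx.1, hx.2.trans hz.2⟩
  have h1 : ‖ex (Ez k (iota (rc q cq * f))) z‖ ≤
      ∫ x in (0:ℝ)..z, Real.exp (-|k| * (z - x)) * (q x * ‖ex f x‖) := by
    rw [Ez_iota, Eop_apply k _ hz]
    apply intervalIntegral.norm_integral_le_of_norm_le hz.1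
    · refine Filter.Eventually.of_forall fun x hx => ?_
      have hx' : x ∈ Icc (0:ℝ) H := hmem x ⟨hx.1.le, hx.2⟩
      rw [norm_mul, Complex.norm_real, Real.norm_eq_abs, abs_of_pos (Real.exp_pos _), ex_mul,
        norm_mul, ex_rc q cq hx', Complex.norm_real, Real.norm_eq_abs, abs_of_nonneg (hq x hx')]
    · exact Continuous.intervalIntegrable (by fun_prop) _ _
  have h2 : ex (Eop k (abC (rc s cs * f))) z =
      ((∫ x in (0:ℝ)..z, Real.exp (-|k| * (z - x)) * (s x * ‖ex f x‖) : ℝ) : ℂ) := by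
    rw [Eop_apply k _ hz, ← intervalIntegral.integral_ofReal]
    refine intervalIntegral.integral_congr fun x hx => ?_
    rw [uIcc_of_le hz.1] at hx
    have hx' := hmem x hx
    show ((Real.exp (-|k| * (z - x)) : ℝ) : ℂ) * ((‖ex (rc s cs * f) x‖ : ℝ) : ℂ) = _
    rw [ex_mul, norm_mul, ex_rc s cs hx', Complex.norm_real, Real.norm_eq_abs,
      abs_of_nonneg (hs x hx')]
    push_cast
    ring
  have h3 : 0 ≤ ∫ x in (0:ℝ)..z, Real.exp (-|k| * (z - x)) * (s x * ‖ex f x‖) := by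
    refine intervalIntegral.integral_nonneg hz.1 fun x hx => ?_
    exact mul_nonneg (Real.exp_pos _).le (mul_nonneg (hs x (hmem x hx)) (norm_nonneg _))
  rw [h2, Complex.norm_real, Real.norm_eq_abs, abs_of_nonneg h3]
  calc p z * ‖ex (Ez k (iota (rc q cq * f))) z‖
      ≤ p z * ∫ x in (0:ℝ)..z, Real.exp (-|k| * (z - x)) * (q x * ‖ex f x‖) :=
        mul_le_mul_of_nonneg_left h1 (hp z hz)
    _ = ∫ x in (0:ℝ)..z, p z * (Real.exp (-|k| * (z - x)) * (q x * ‖ex f x‖)) := by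
        rw [intervalIntegral.integral_const_mul]
    _ ≤ ∫ x in (0:ℝ)..z, r z * (Real.exp (-|k| * (z - x)) * (s x * ‖ex f x‖)) := by
        apply intervalIntegral.integral_mono_on hz.1
        · exact Continuous.intervalIntegrable (by fun_prop) _ _
        · exact Continuous.intervalIntegrable (by fun_prop) _ _
        · intro x hx
          have h4 := h x (hmem x hx) z hz hx.2
          have h5 : 0 ≤ Real.exp (-|k| * (z - x)) * ‖ex f x‖ := by positivity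
          have h6 := mul_le_mul_of_nonneg_right h4 h5
          linarith
    _ = r z * ∫ x in (0:ℝ)..z, Real.exp (-|k| * (z - x)) * (s x * ‖ex f x‖) := by
        rw [intervalIntegral.integral_const_mul]

theorem ex_Eop_abC_nonneg (k : ℝ) (f : CI H) {z : ℝ} (hz : z ∈ Icc (0:ℝ) H) :
    ex (Eop k (abC f)) z = ((‖ex (Eop k (abC f)) z‖ : ℝ) : ℂ) := by
  have h2 : ex (Eop k (abC f)) z =
      ((∫ x in (0:ℝ)..z, Real.exp (-|k| * (z - x)) * ‖ex f x‖ : ℝ) : ℂ) := by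
    rw [Eop_apply k _ hz, ← intervalIntegral.integral_ofReal]
    refine intervalIntegral.integral_congr fun x hx => ?_
    show ((Real.exp (-|k| * (z - x)) : ℝ) : ℂ) * ((‖ex f x‖ : ℝ) : ℂ) = _
    push_cast
    ring
  have h3 : 0 ≤ ∫ x in (0:ℝ)..z, Real.exp (-|k| * (z - x)) * ‖ex f x‖ :=
    intervalIntegral.integral_nonneg hz.1 fun x hx => by positivity
  rw [h2, Complex.norm_real, Real.norm_eq_abs, abs_of_nonneg h3]

end

end Pool.Agent.Lib.MP_79abb3_an.SC
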