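import Pool.Agent.Lib.MP_79abb3_an.SC.ApB
import Pool.Agent.Lib.MP_79abb3_an.SC.ApW

/-!
MP_79abb3_an, simply connected domains, block (iii): the vortex force tested with `th² V`.
-/

set_option autoImplicit false
set_option linter.unusedSectionVars false

open MeasureTheory Set Filter Topology Function
open scoped ENNReal InnerProductSpace

namespace Pool.Agent.Lib.MP_79abb3_an.SC

open Pool.Agent.Lib.MP_79abb3_an.P25 Pool.Agent.Lib.MP_79abb3_an.FW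

section
variable {H : ℝ} [hH : Fact (0 < H)] {lam : ℤ → ℝ}

/-- `|F| + |k| E_k |F|` -/
noncomputable def hE (k : ℝ) (F : CI H) : CI H := abC F + ((|k| : ℝ) : ℂ) • Eop k (abC F)

theorem ex_hE (k : ℝ) (F : CI H) {z : ℝ} (hz : z ∈ Icc (0:ℝ) H) :
    ex (hE k F) z = ((‖ex F z‖ + |k| * ‖ex (Eop k (abC F)) z‖ : ℝ) : ℂ) := by
  unfold hE
  rw [ex_add, ex_smul, ex_Eop_abC_nonneg k F hz, ex_abC, Complex.norm_real, norm_norm]
  push_cast
  ring

theorem norm_ex_hE (k : ℝ) (F : CI H) {z : ℝ} (hz : z ∈ Icc (0:ℝ) H) :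
    ‖ex (hE k F) z‖ = ‖ex F z‖ + |k| * ‖ex (Eop k (abC F)) z‖ := by
  rw [ex_hE k F hz, Complex.norm_real, Real.norm_eq_abs, abs_of_nonneg (by positivity)]

theorem norm_hE_le (k : ℝ) (F : CI H) : ‖hE k F‖ ≤ 2 * ‖F‖ := by
  unfold hE
  refine (norm_add_le _ _).trans ?_
  rw [norm_smul, Complex.norm_real, Real.norm_eq_abs, abs_abs]
  have h1 := norm_kEop_le k (abC F)
  have h2 := norm_abC_le F
  linarith

theorem norm_iota_kEop (k : ℝ) (F : CI H) : |k| * ‖(iota (Eop k F) : Z2 H)‖ ≤ ‖(iota F : Z2 H)‖ := by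
  have := norm_kE2_le k (iota F : Z2 H)
  rwa [E2_apply, Ez_iota] at this

theorem norm_ihE_le (k : ℝ) (F : CI H) : ‖(iota (hE k F) : Z2 H)‖ ≤ 2 * ‖(iota F : Z2 H)‖ := by
  unfold hE
  rw [map_add, map_smul]
  refine (norm_add_le _ _).trans ?_
  rw [norm_smul, Complex.norm_real, Real.norm_eq_abs, abs_abs]
  have h1 := norm_iota_kEop k (abC F)
  have h2 := norm_iota_abC F
  linarith

/-- the weight as a real function -/
structure Wgt (H : ℝ) (th : ℝ → ℝ) : Prop where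
  c : Continuous th
  nn : ∀ z ∈ Icc (0:ℝ) H, 0 ≤ th z
  mono : ∀ x ∈ Icc (0:ℝ) H, ∀ z ∈ Icc (0:ℝ) H, x ≤ z → th x ≤ th z

theorem norm_ex_rc {th : ℝ → ℝ} (hw : Wgt H th) {z : ℝ} (hz : z ∈ Icc (0:ℝ) H) :
    ‖ex (rc th hw.c : CI H) z‖ = th z := by
  rw [ex_rc th hw.c hz, Complex.norm_real, Real.norm_eq_abs, abs_of_nonneg (hw.nn z hz)]

theorem rc_one_mul (F : CI H) : (rc (fun _ => (1:ℝ)) continuous_const : CI H) * F = F := by
  apply ci_ext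
  intro z hz
  rw [ex_mul, ex_rc _ _ hz, Complex.ofReal_one, one_mul]

/-- `|θ_z| ≤ th (|F| + |k| E_k |F|)` for `θ = E (th F)` -/
theorem w_tZ {th : ℝ → ℝ} (hw : Wgt H th) (ω : ℝ) (F : ℤ → CI H) (n : ℤ) {z : ℝ}
    (hz : z ∈ Icc (0:ℝ) H) :
    ‖ex (uV ω (fun n => rc th hw.c * F n) n) z‖ ≤ ‖ex (rc th hw.c : CI H) z‖ *
      ‖ex (hE (ω * n) (F n)) z‖ := by
  have h1 := wEz (p := fun _ => (1:ℝ)) (q := th) (r := th) (s := fun _ => (1:ℝ)) hw.c continuous_const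
    (fun _ _ => zero_le_one) hw.nn hw.nn (fun _ _ => zero_le_one)
    (fun x hx z hz hxz => by simpa using hw.mono x hx z hz hxz) (ω * n) (F n) hz
  rw [one_mul, rc_one_mul] at h1
  have h2 : ‖ex (uV ω (fun n => rc th hw.c * F n) n) z‖ ≤ ‖ex (rc th hw.c * F n) z‖ +
      |ω * n| * ‖ex (Ez (ω * n) (iota (rc th hw.c * F n))) z‖ := by
    unfold uV
    rw [ex_sub, ex_smul]
    refine (norm_sub_le _ _).trans ?_
    rw [norm_mul, norm_ka]
  rw [norm_ex_hE _ _ hz]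
  refine h2.trans ?_
  rw [ex_mul, norm_mul, norm_ex_rc hw hz, mul_add]
  have h3 := mul_le_mul_of_nonneg_left h1 (abs_nonneg (ω * n))
  linarith

/-- `|θ_y| ≤ th (|F| + |k| E_k |F|)` for `θ = E (th F)` -/
theorem w_tY {th : ℝ → ℝ} (hw : Wgt H th) (ω : ℝ) (F : ℤ → CI H) (n : ℤ) {z : ℝ}
    (hz : z ∈ Icc (0:ℝ) H) :
    ‖ex (-wV ω (fun n => rc th hw.c * F n) n) z‖ ≤ ‖ex (rc th hw.c : CI H) z‖ *
      ‖ex (hE (ω * n) (F n)) z‖ := by
  have h1 := wEz (p := fun _ => (1:ℝ)) (q := th) (r := th) (s := fun _ => (1:ℝ)) hw.c continuous_const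
    (fun _ _ => zero_le_one) hw.nn hw.nn (fun _ _ => zero_le_one)
    (fun x hx z hz hxz => by simpa using hw.mono x hx z hz hxz) (ω * n) (F n) hz
  rw [one_mul, rc_one_mul] at h1
  rw [norm_ex_hE _ _ hz, norm_ex_rc hw hz]
  unfold wV
  rw [ex_neg, ex_smul, norm_neg, norm_mul, norm_neg, norm_kI, mul_add]
  have h3 := mul_le_mul_of_nonneg_left h1 (abs_nonneg (ω * n))
  have h4 := hw.nn z hz
  have h5 : 0 ≤ th z * ‖ex (F n) z‖ := by positivity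
  linarith

/-- Bounds for `T3` when the outer factor is dominated by `th h`: sup norm on `u`. -/
theorem T3_w1 {α β γ : ℝ} (pw : PrW lam α β γ) {th : CI H} {r h u : ℤ → CI H} {p : ℤ → Z2 H}
    (hr : ∀ n, ∀ z ∈ Icc (0:ℝ) H, ‖ex (r n) z‖ ≤ ‖ex th z‖ * ‖ex (h n) z‖)
    (sp : S2 lam α (fun n => mz th (p n))) (su : S2 lam β u) (sh : S2 lam γ (io h)) :
    ‖T3 (io r) u p‖ ≤ CP lam (α + β + γ) * N2 lam α (fun n => mz th (p n)) * N2 lam β u *
      N2 lam γ (io h) := by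
  obtain ⟨h1, h2⟩ := tri_scalar pw.h1 pw.ha pw.hb pw.hc pw.hs sp su sh
  have key : ∀ x : ℤ × ℤ, ‖⟪io r (x.1 + x.2), mz (u x.2) (p x.1)⟫_ℂ‖ ≤
      ‖mz th (p x.1)‖ * ‖u x.2‖ * ‖io h (x.1 + x.2)‖ := fun x => by
    refine (wmul_le (p x.1) (hr (x.1 + x.2))).trans ?_
    rw [mul_assoc]
    refine mul_le_mul_of_nonneg_left ?_ (norm_nonneg _)
    rw [← mz_iota]
    exact norm_mz_apply_le _ _
  have hs : Summable fun x : ℤ × ℤ => ‖⟪io r (x.1 + x.2), mz (u x.2) (p x.1)⟫_ℂ‖ :=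
    Summable.of_nonneg_of_le (fun _ => norm_nonneg _) key h1
  exact (norm_tsum_le_tsum_norm hs).trans ((hs.tsum_le_tsum key h1).trans h2)

/-- Bounds for `T3` when the outer factor is dominated by `th h`: sup norm on `h`. -/
theorem T3_w2 {α β γ : ℝ} (pw : PrW lam α β γ) {th : CI H} {r h u : ℤ → CI H} {p : ℤ → Z2 H}
    (hr : ∀ n, ∀ z ∈ Icc (0:ℝ) H, ‖ex (r n) z‖ ≤ ‖ex th z‖ * ‖ex (h n) z‖)
    (sp : S2 lam α (fun n => mz th (p n))) (su : S2 lam β (io u)) (sh : S2 lam γ h) :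
    ‖T3 (io r) u p‖ ≤ CP lam (α + β + γ) * N2 lam α (fun n => mz th (p n)) * N2 lam β (io u) *
      N2 lam γ h := by
  obtain ⟨h1, h2⟩ := tri_scalar pw.h1 pw.ha pw.hb pw.hc pw.hs sp su sh
  have key : ∀ x : ℤ × ℤ, ‖⟪io r (x.1 + x.2), mz (u x.2) (p x.1)⟫_ℂ‖ ≤
      ‖mz th (p x.1)‖ * ‖io u x.2‖ * ‖h (x.1 + x.2)‖ := fun x => by
    refine (wmul_le (p x.1) (hr (x.1 + x.2))).trans ?_
    rw [mul_assoc]
    refine mul_le_mul_of_nonneg_left ?_ (norm_nonneg _)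
    rw [mul_comm (u x.2), ← mz_iota, mul_comm]
    exact norm_mz_apply_le _ _
  have hs : Summable fun x : ℤ × ℤ => ‖⟪io r (x.1 + x.2), mz (u x.2) (p x.1)⟫_ℂ‖ :=
    Summable.of_nonneg_of_le (fun _ => norm_nonneg _) key h1
  exact (norm_tsum_le_tsum_norm hs).trans ((hs.tsum_le_tsum key h1).trans h2)

/-- **Vortex force with a velocity bounded in `N_{1/2,∞}`** (outer part), tested with `th F`. -/
theorem bf_w1 (pw : PrW lam 0 (1 / 2) (1 / 4)) (pw' : PrW lam 0 (1 / 2) (1 / 2)) {th : ℝ → ℝ}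
    (hw : Wgt H th) (ω : ℝ) {om : ℤ → Z2 H} {v w : ℤ → CI H} {F : ℤ → CI H}
    (so : S2 lam 0 om) (sv : S2 lam (1 / 2) v) (sw : S2 lam (1 / 2) w)
    (sto : S2 lam 0 fun n => mz (rc th hw.c) (om n)) (sF : S2 lam (1 / 2) (io F))
    (sf : S2 lam (1 / 4) (io fun n => rc th hw.c * F n)) :
    ‖bf ω om v w (io fun n => rc th hw.c * F n)‖ ≤
      2 * CP lam (0 + 1 / 2 + 1 / 2) * N2 lam 0 (fun n => mz (rc th hw.c) (om n)) *
        (N2 lam (1 / 2) w + N2 lam (1 / 2) v) * N2 lam (1 / 2) (io F) := by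
  rw [bf_T3 pw ω so sv sw sf, tZ_io]
  have e : tY ω (io fun n => rc th hw.c * F n) =
      io (fun n => -wV ω (fun n => rc th hw.c * F n) n) := by
    funext n; rw [tY_io]; unfold io; rw [map_neg]
  rw [e]
  have sh : S2 lam (1 / 2) (io fun n => hE (ω * n) (F n)) ∧
      N2 lam (1 / 2) (io fun n : ℤ => hE (ω * n) (F n)) ≤ 2 * N2 lam (1 / 2) (io F) :=
    S2_dom pw.h1 (by norm_num) (fun n => norm_ihE_le _ _) sF
  have b1 := T3_w1 pw' (fun n z hz => w_tZ hw ω F n hz) sto sw sh.1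
  have b2 := T3_w1 pw' (fun n z hz => w_tY hw ω F n hz) sto sv sh.1
  have c0 := CP_nonneg (lam := lam) (0 + 1 / 2 + 1 / 2)
  have c1 : 0 ≤ N2 lam 0 (fun n => mz (rc th hw.c) (om n)) := N2_nonneg _ _
  have c2 := N2_nonneg (lam := lam) (1 / 2) w
  have c3 := N2_nonneg (lam := lam) (1 / 2) v
  refine (norm_add_le _ _).trans ((add_le_add b1 b2).trans ?_)
  have hh := sh.2
  calc _ ≤ CP lam (0 + 1 / 2 + 1 / 2) * N2 lam 0 (fun n => mz (rc th hw.c) (om n)) *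
          N2 lam (1 / 2) w * (2 * N2 lam (1 / 2) (io F)) +
        CP lam (0 + 1 / 2 + 1 / 2) * N2 lam 0 (fun n => mz (rc th hw.c) (om n)) *
          N2 lam (1 / 2) v * (2 * N2 lam (1 / 2) (io F)) := by gcongr
    _ = _ := by ring

/-- **Vortex force with a velocity bounded in `N_{3/8,2}`** (inner part), tested with `th F`. -/
theorem bf_w2 (pw : PrW lam 0 (1 / 2) (1 / 4)) (pw' : PrW lam 0 (3 / 8) (1 / 4)) {th : ℝ → ℝ}
    (hw : Wgt H th) (ω : ℝ) {om : ℤ → Z2 H} {v w : ℤ → CI H} {F : ℤ → CI H}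
    (so : S2 lam 0 om) (sv : S2 lam (1 / 2) v) (sw : S2 lam (1 / 2) w)
    (sto : S2 lam 0 fun n => mz (rc th hw.c) (om n)) (sF : S2 lam (1 / 4) F)
    (sf : S2 lam (1 / 4) (io fun n => rc th hw.c * F n)) :
    ‖bf ω om v w (io fun n => rc th hw.c * F n)‖ ≤
      2 * CP lam (0 + 3 / 8 + 1 / 4) * N2 lam 0 (fun n => mz (rc th hw.c) (om n)) *
        (N2 lam (3 / 8) (io w) + N2 lam (3 / 8) (io v)) * N2 lam (1 / 4) F := by
  rw [bf_T3 pw ω so sv sw sf, tZ_io]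
  have e : tY ω (io fun n => rc th hw.c * F n) =
      io (fun n => -wV ω (fun n => rc th hw.c * F n) n) := by
    funext n; rw [tY_io]; unfold io; rw [map_neg]
  rw [e]
  have hh8 : (3 / 8 : ℝ) ≤ 1 / 2 := by norm_num
  have iv : S2 lam (3 / 8) (io v) := (S2_mono pw.h1 hh8 (S2_iota pw.h1 sv).1).1
  have iw : S2 lam (3 / 8) (io w) := (S2_mono pw.h1 hh8 (S2_iota pw.h1 sw).1).1
  have sh : S2 lam (1 / 4) (fun n : ℤ => hE (ω * n) (F n)) ∧
      N2 lam (1 / 4) (fun n : ℤ => hE (ω * n) (F n)) ≤ 2 * N2 lam (1 / 4) F :=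
    S2_dom pw.h1 (by norm_num) (fun n => norm_hE_le _ _) sF
  have b1 := T3_w2 pw' (fun n z hz => w_tZ hw ω F n hz) sto iw sh.1
  have b2 := T3_w2 pw' (fun n z hz => w_tY hw ω F n hz) sto iv sh.1
  have c0 := CP_nonneg (lam := lam) (0 + 3 / 8 + 1 / 4)
  have c1 : 0 ≤ N2 lam 0 (fun n => mz (rc th hw.c) (om n)) := N2_nonneg _ _
  have c2 := N2_nonneg (lam := lam) (3 / 8) (io w)
  have c3 := N2_nonneg (lam := lam) (3 / 8) (io v)
  refine (norm_add_le _ _).trans ((add_le_add b1 b2).trans ?_)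
  have hh := sh.2
  calc _ ≤ CP lam (0 + 3 / 8 + 1 / 4) * N2 lam 0 (fun n => mz (rc th hw.c) (om n)) *
          N2 lam (3 / 8) (io w) * (2 * N2 lam (1 / 4) F) +
        CP lam (0 + 3 / 8 + 1 / 4) * N2 lam 0 (fun n => mz (rc th hw.c) (om n)) *
          N2 lam (3 / 8) (io v) * (2 * N2 lam (1 / 4) F) := by gcongr
    _ = _ := by ring

end

end Pool.Agent.Lib.MP_79abb3_an.SC
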