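import Pool.Agent.Lib.MP_79abb3_an.SC.ExR
import Pool.Agent.Lib.MP_79abb3_an.SC.ExT
import Pool.Agent.Lib.MP_79abb3_an.SC.NcStep

/-!
Theorem C, block (ii): reality of solutions of the background system.
-/

set_option autoImplicit false
set_option linter.unusedSectionVars false

open MeasureTheory Set Filter Topology Function
open scoped ENNReal InnerProductSpace

namespace Pool.Agent.Lib.MP_79abb3_an.SC

open Pool.Agent.Lib.MP_79abb3_an.P25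

section
variable {H : ℝ} [hH : Fact (0 < H)]

theorem kI_neg (ω : ℝ) (n : ℤ) : star (kI ω (-n)) = kI ω n := by
  rw [star_kI]
  unfold kI
  push_cast; ring

theorem ka_neg (ω : ℝ) (n : ℤ) : ka ω (-n) = ka ω n := by
  unfold ka
  have : |ω * ((-n : ℤ) : ℝ)| = |ω * n| := by push_cast; rw [mul_neg, abs_neg]
  rw [this]

theorem star_ka (ω : ℝ) (n : ℤ) : star (ka ω n) = ka ω n := conj_ka ω n

theorem star_smul_ci (c : ℂ) (f : CI H) : star (c • f) = star c • star f := ci_ext fun z _ => by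
  rw [ex_star, ex_smul, ex_smul, ex_star, star_mul']

theorem cjX_smul (c : ℂ) (x : HH H) : cjX (c • x) = star c • cjX x := cjX_cnj.anti c x

theorem cj_AS {D : OD (HH H)} (h : D.Cj cjX) {τ : ℝ} (hτ : 0 < τ) (x : HH H) :
    cjX (AS D.K τ x) = AS D.K τ (cjX x) := cjX_cnj.AS D.K_nonneg h.cK hτ x

theorem cj_Sg {D : OD (HH H)} (h : D.Cj cjX) {τ : ℝ} (hτ : 0 ≤ τ) (x : HH H) :
    cjX (Sg D.K τ x) = Sg D.K τ (cjX x) := cjX_cnj.Sg D.K_nonneg h.cK hτ x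

/-- families: `V = T g` -/
theorem Vf_cj (ω : ℝ) (g : HH H) (n : ℤ) : Vf ω (cjX g) n = star (Vf ω g (-n)) := by
  show Tz (ω * n) (cz (g (-n))) = star (Tz (ω * ((-n : ℤ) : ℝ)) (g (-n)))
  rw [Tz_negE, star_Tz]

theorem uV_cj (ω : ℝ) {V V' : ℤ → CI H} (h : ∀ n, V' n = star (V (-n))) (n : ℤ) :
    uV ω V' n = star (uV ω V (-n)) := by
  unfold uV
  rw [h, star_sub, star_smul_ci, star_Ez, Ez_negE, ka_neg, star_ka, cz_iota]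

theorem wV_cj (ω : ℝ) {V V' : ℤ → CI H} (h : ∀ n, V' n = star (V (-n))) (n : ℤ) :
    wV ω V' n = star (wV ω V (-n)) := by
  unfold wV
  rw [h, star_smul_ci, star_Ez, Ez_negE, cz_iota, star_neg, kI_neg]

theorem hf_cj {lam : ℤ → ℝ} (hn : ∀ n, lam (-n) = lam n) (v : l2 (CI H)) (n : ℤ) :
    hf lam (cjC v) n = star (hf lam v (-n)) := by
  rw [hf_apply, hf_apply]
  refine ci_ext fun z _ => ?_
  show ((lam n ^ (-(1 / 2 : ℝ)) : ℝ) : ℂ) * ex (star (v (-n))) z =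
    star (((lam (-n) ^ (-(1 / 2 : ℝ)) : ℝ) : ℂ) * ex (v (-n)) z)
  rw [hn, star_mul', Complex.star_def, Complex.conj_ofReal, ex_star]
  rfl

/-- products -/
theorem pz_cj (x : HH H) {v v' : ℤ → CI H} (h : ∀ n, v' n = star (v (-n)))
    (hs : ∀ n, Summable fun j => ‖mz (v (n - j)) (x j)‖) (n : ℤ) :
    pz (cjX x) v' n = cz (pz x v (-n)) := by
  show ∑' j, mz (v' (n - j)) (cjX x j) = cz (∑' j, mz (v (-n - j)) (x j))
  have h1 := ((hs (-n)).of_norm.hasSum).mapL (czL (H := H))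
  have h2 : cz (∑' j, mz (v (-n - j)) (x j)) = ∑' j, cz (mz (v (-n - j)) (x j)) := h1.tsum_eq.symm
  rw [h2, ← (Equiv.neg ℤ).tsum_eq (fun j => cz (mz (v (-n - j)) (x j)))]
  refine tsum_congr fun j => ?_
  show mz (v' (n - j)) (cjX x j) = cz (mz (v (-n - -j)) (x (-j)))
  rw [cz_mz, h, cjX_apply, show -n - -j = -(n - j) by ring]

namespace Geo
variable (G : Geo H)

theorem cj_prd (x : HH H) (v : l2 (CI H)) :
    cjX (prd G.pw x v) = prd G.pw (cjX x) (cjC v) := by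
  ext1; funext n
  have hs : ∀ n, Summable fun j => ‖mz (hf G.lam v (n - j)) (x j)‖ := by
    obtain ⟨c1, -, -⟩ := cvm_bd zero_le_one mz_bd G.pw.h1 G.pw.ha G.pw.hb G.pw.hc G.pw.hs
      (S2_l2 G.lam x) (S2_hf G.lw.h1 v).1
    exact c1
  rw [cjX_apply, prd_apply, prd_apply, cz_smul, Complex.star_def, Complex.conj_ofReal, G.lw.neg,
    pz_cj x (hf_cj G.lw.neg v) hs]

theorem cj_UV (g : HH H) : cjC (UV G.ω G.lam g) = UV G.ω G.lam (cjX g) := by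
  ext1; funext n
  have h1 : ∀ (g : HH H) (n : ℤ), UV G.ω G.lam g n =
      ((G.lam n ^ (1 / 2 : ℝ) : ℝ) : ℂ) • uV G.ω (Vf G.ω g) n := fun g n => dg_apply G.norm_UV_fam g n
  rw [cjC_apply, h1, h1, star_smul_ci, uV_cj G.ω (Vf_cj G.ω g) n, G.lw.neg, Complex.star_def,
    Complex.conj_ofReal]

theorem cj_UW (g : HH H) : cjC (UW G.ω G.lam g) = UW G.ω G.lam (cjX g) := by
  ext1; funext n
  have h1 : ∀ (g : HH H) (n : ℤ), UW G.ω G.lam g n =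
      ((G.lam n ^ (1 / 2 : ℝ) : ℝ) : ℂ) • wV G.ω (Vf G.ω g) n := fun g n => dg_apply G.norm_UW_fam g n
  rw [cjC_apply, h1, h1, star_smul_ci, wV_cj G.ω (Vf_cj G.ω g) n, G.lw.neg, Complex.star_def,
    Complex.conj_ofReal]

theorem cjD : G.D.Cj cjX where
  T := cj_TT G.ω
  E := cj_EE G.ω
  P := cj_PP G.ω
  a := cj_cm G.ha.c
  b _ := rfl

theorem cjDo : G.Do.Cj cjX where
  T := cj_TT G.ω
  E := cj_EE G.ω
  P := cj_PP G.ω
  a _ := rfl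
  b := cj_cm G.hb.c

theorem cj_Qd (x : HH H) : cjX (G.Qd x) = G.Qd (cjX x) := G.cjD.cQ cjX_cnj x

theorem cj_Qo (x : HH H) : cjX (G.Qo x) = G.Qo (cjX x) := G.cjDo.cQ cjX_cnj x

theorem cj_KhD (x : HH H) : cjX (Kh G.D.K x) = Kh G.D.K (cjX x) :=
  cjX_cnj.Kh G.D.K_nonneg G.cjD.cK x

theorem cj_qL (x : HH H) : cjX (G.qL x) = G.qL (cjX x) := by
  show cjX (TT G.ω (G.Qo x)) = TT G.ω (G.Qo (cjX x))
  rw [cj_TT, cj_Qo]

theorem cj_J1 (x : HH H) : cjX (G.J1 x) = G.J1 (cjX x) :=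
  cjX_cnj.adjoint (fun x => by
    show cjX (LT G.ω G.lam (1 / 4) (G.Qo x)) = LT G.ω G.lam (1 / 4) (G.Qo (cjX x))
    rw [cj_LT G.lamOK G.lw.neg (by norm_num), cj_Qo]) x

theorem cj_J2 (x : HH H) : cjX (G.J2 x) = G.J2 (cjX x) :=
  cjX_cnj.adjoint (fun x => by
    show cjX (TT G.ω (G.Qo x)) = TT G.ω (G.Qo (cjX x))
    rw [cj_TT, cj_Qo]) x

theorem cj_J3 (x : HH H) : cjX (G.J3 x) = G.J3 (cjX x) :=
  cjX_cnj.adjoint (fun x => by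
    show cjX (LT G.ω G.lam (1 / 4) (G.Qd x)) = LT G.ω G.lam (1 / 4) (G.Qd (cjX x))
    rw [cj_LT G.lamOK G.lw.neg (by norm_num), cj_Qd]) x

theorem cj_J4 (x : HH H) : cjX (G.J4 x) = G.J4 (cjX x) :=
  cjX_cnj.adjoint (fun x => by
    show cjX (TT G.ω (G.Qd x)) = TT G.ω (G.Qd (cjX x))
    rw [cj_TT, cj_Qd]) x

/-- real background -/
structure BRe (B : Bg H) (t : ℝ) : Prop where
  ve : cjC (B.ve t) = B.ve t
  we : cjC (B.we t) = B.we t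
  gL : cjX (B.gL t) = B.gL t
  FL : cjX (B.FL t) = B.FL t
  fc : cjX (B.fc t) = B.fc t
  κ : star (B.κ t) = B.κ t
  κ1 : star (B.κ1 t) = B.κ1 t

/-- the conjugation of pairs -/
noncomputable def cj2 : HH H × HH H →L[ℝ] HH H × HH H := cjX.prodMap cjX

theorem cj2_apply (x : HH H × HH H) : cj2 x = (cjX x.1, cjX x.2) := rfl

variable {G} {B : Bg H} {t : ℝ}

theorem cj_gV (hB : BRe B t) (x : HH H × HH H) : cjX (G.gV B t x) = G.gV B t (cj2 x) := by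
  show cjX (G.Qd x.2 + B.gL t - Ms G.ζ (cm G.J (G.qL x.1))) =
    G.Qd (cjX x.2) + B.gL t - Ms G.ζ (cm G.J (G.qL (cjX x.1)))
  rw [map_sub, map_add, cj_Qd, hB.gL, cj_Ms G.ζ_real, cj_cm G.hJ.c, cj_qL]

theorem cj_VV (hB : BRe B t) (x : HH H × HH H) : cjX (G.VV B t x) = G.VV B t (cj2 x) := by
  show cjX (TT G.ω (G.gV B t x)) = TT G.ω (G.gV B t (cj2 x))
  rw [cj_TT, cj_gV hB]

theorem cj_uv (hB : BRe B t) (x : HH H × HH H) : cjC (G.uv B t x) = G.uv B t (cj2 x) := by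
  show cjC (UV G.ω G.lam (G.Qd x.2 + B.gL t) + B.ve t) =
    UV G.ω G.lam (G.Qd (cjX x.2) + B.gL t) + B.ve t
  rw [map_add, cj_UV, hB.ve, map_add, cj_Qd, hB.gL]

theorem cj_uw (hB : BRe B t) (x : HH H × HH H) : cjC (G.uw B t x) = G.uw B t (cj2 x) := by
  show cjC (UW G.ω G.lam (G.Qd x.2 + B.gL t) + B.we t) =
    UW G.ω G.lam (G.Qd (cjX x.2) + B.gL t) + B.we t
  rw [map_add, cj_UW, hB.we, map_add, cj_Qd, hB.gL]

theorem cj_om (hB : BRe B t) (x : HH H × HH H) : cjX (G.om B t x) = G.om B t (cj2 x) := by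
  show cjX (Ms G.ζ (G.qL x.1) + Ms G.ζ (cm G.a (G.gV B t x))) =
    Ms G.ζ (G.qL (cjX x.1)) + Ms G.ζ (cm G.a (G.gV B t (cj2 x)))
  rw [map_add, cj_Ms G.ζ_real, cj_Ms G.ζ_real, cj_qL, cj_cm G.ha.c, cj_gV hB]

theorem cj_f1 (hB : BRe B t) (x : HH H × HH H) : cjX (G.f1 B t x) = G.f1 B t (cj2 x) := by
  show cjX (-(prd G.pw (Xy G.ω (G.Qo x.1)) (G.uv B t x) +
    prd G.pw (Xz G.ω (G.Qo x.1)) (G.uw B t x))) =
    -(prd G.pw (Xy G.ω (G.Qo (cjX x.1))) (G.uv B t (cj2 x)) +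
      prd G.pw (Xz G.ω (G.Qo (cjX x.1))) (G.uw B t (cj2 x)))
  rw [map_neg, map_add, cj_prd, cj_prd, cj_Xy, cj_Xz, cj_Qo, cj_uv hB, cj_uw hB]

theorem cj_f2 (hB : BRe B t) (x : HH H × HH H) : cjX (G.f2 B t x) = G.f2 B t (cj2 x) := by
  show cjX (Ms (B.κ t) (G.gV B t x) - Ms (B.κ1 t) (G.VV B t x)) =
    Ms (B.κ t) (G.gV B t (cj2 x)) - Ms (B.κ1 t) (G.VV B t (cj2 x))
  rw [map_sub, cj_Ms hB.κ, cj_Ms hB.κ1, cj_gV hB, cj_VV hB]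

theorem cj_f3 (hB : BRe B t) (x : HH H × HH H) : cjX (G.f3 B t x) = G.f3 B t (cj2 x) := by
  show cjX (-(Xz G.ω (prd G.pw (G.om B t x) (G.uw B t x)) +
    Xy G.ω (prd G.pw (G.om B t x) (G.uv B t x)))) =
    -(Xz G.ω (prd G.pw (G.om B t (cj2 x)) (G.uw B t (cj2 x))) +
      Xy G.ω (prd G.pw (G.om B t (cj2 x)) (G.uv B t (cj2 x))))
  rw [map_neg, map_add, cj_Xz, cj_Xy, cj_prd, cj_prd, cj_om hB, cj_uv hB, cj_uw hB]

theorem cj_jj (hB : BRe B t) (x : HH H × HH H) : cjX (G.jj B t x) = G.jj B t (cj2 x) := by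
  show cjX (-(2:ℂ) • Xz G.ω (Ms G.ζ1 (G.qL x.1)) +
    TT G.ω (Ms G.ζ2 (G.qL x.1) + Ms G.ζ1 (Ms (B.κ t) (G.VV B t x))) +
    LT G.ω G.lam (1 / 4) (Ms G.ζ1 (prd G.pw (G.qL x.1) (G.uw B t x)))) =
    -(2:ℂ) • Xz G.ω (Ms G.ζ1 (G.qL (cjX x.1))) +
    TT G.ω (Ms G.ζ2 (G.qL (cjX x.1)) + Ms G.ζ1 (Ms (B.κ t) (G.VV B t (cj2 x)))) +
    LT G.ω G.lam (1 / 4) (Ms G.ζ1 (prd G.pw (G.qL (cjX x.1)) (G.uw B t (cj2 x))))
  have e : star (-(2:ℂ)) = -(2:ℂ) := by simp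
  rw [map_add, map_add, cjX_smul, e, cj_Xz, cj_Ms G.ζ1_real, cj_qL, cj_TT, map_add,
    cj_Ms G.ζ2_real, cj_qL, cj_Ms G.ζ1_real, cj_Ms hB.κ, cj_VV hB,
    cj_LT G.lamOK G.lw.neg (by norm_num), cj_Ms G.ζ1_real, cj_prd, cj_qL, cj_uw hB]

theorem cj_f4 (hB : BRe B t) (x : HH H × HH H) : cjX (G.f4 B t x) = G.f4 B t (cj2 x) := by
  show cjX (G.jj B t x + (Ms G.ζ (Ms (B.κ t) (G.VV B t x)) - Ms (B.κ t) (G.VV B t x)) +
    (B.FL t + B.fc t)) = G.jj B t (cj2 x) +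
    (Ms G.ζ (Ms (B.κ t) (G.VV B t (cj2 x))) - Ms (B.κ t) (G.VV B t (cj2 x))) + (B.FL t + B.fc t)
  rw [map_add, map_add, map_add, cj_jj hB, map_sub, cj_Ms G.ζ_real, cj_Ms hB.κ, cj_VV hB, hB.FL,
    hB.fc]

/-- **Reality.** -/
theorem Sol.reality {t₀ t₁ : ℝ} {x₀ : HH H × HH H} {x : ℝ → HH H × HH H} (hs : G.Sol B t₀ t₁ x₀ x)
    (hB : B.Cont t₀ t₁) (hr : ∀ t ∈ Icc t₀ t₁, BRe B t) (h1 : Rl x₀.1) (h2 : Rl x₀.2) :
    ∀ t ∈ Icc t₀ t₁, Rl (x t).1 ∧ Rl (x t).2 := by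
  obtain ⟨C, hC⟩ := G.ker
  obtain ⟨M, hM⟩ := Phi_nl (G := G) hB
  have hJL : ∀ τ, 0 < τ → ∀ y : (HH H × HH H) × (HH H × HH H),
      cj2 (G.LL τ y) = G.LL τ ((cj2.prodMap cj2) y) := by
    intro τ hτ y
    show (cjX (AS G.Do.K τ (G.J1 y.1.1 + G.J2 y.1.2)), cjX (AS G.D.K τ (G.J3 y.2.1 + G.J4 y.2.2))) =
      (AS G.Do.K τ (G.J1 (cjX y.1.1) + G.J2 (cjX y.1.2)),
        AS G.D.K τ (G.J3 (cjX y.2.1) + G.J4 (cjX y.2.2)))
    rw [cj_AS G.cjDo hτ, cj_AS G.cjD hτ, map_add cjX (G.J1 y.1.1), map_add cjX (G.J3 y.2.1), cj_J1,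
      cj_J2, cj_J3, cj_J4]
  have key := Mild.real hC hM hs (cj2 : HH H × HH H →L[ℝ] HH H × HH H) (cj2.prodMap cj2)
    (fun t ht x => Prod.ext (cj_Sg G.cjDo ht x.1) (cj_Sg G.cjD ht x.2)) hJL
    (fun t ht x => by
      show ((cjX (G.f1 B t x), cjX (G.f2 B t x)), (cjX (G.f3 B t x), cjX (G.f4 B t x))) =
        ((G.f1 B t (cj2 x), G.f2 B t (cj2 x)), (G.f3 B t (cj2 x), G.f4 B t (cj2 x)))
      rw [cj_f1 (hr t ht), cj_f2 (hr t ht), cj_f3 (hr t ht), cj_f4 (hr t ht)])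
    (Prod.ext ((Rl_iff _).1 h1) ((Rl_iff _).1 h2))
  intro t ht
  have h3 : (cjX (x t).1, cjX (x t).2) = x t := key t ht
  exact ⟨(Rl_iff _).2 (congrArg Prod.fst h3), (Rl_iff _).2 (congrArg Prod.snd h3)⟩

theorem Rl_gt (hB : BRe B t) {x : HH H × HH H} (hx : Rl x.2) : Rl (G.gt B t x) := by
  rw [Rl_iff] at hx ⊢
  show cjX (G.Qd x.2 + B.gL t) = G.Qd x.2 + B.gL t
  rw [map_add, cj_Qd, hx, hB.gL]

end Geo

end

end Pool.Agent.Lib.MP_79abb3_an.SC
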