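import Pool.Agent.Lib.MP_79abb3_an.SC.BgDef

/-!
MP_79abb3_an, simply connected domains, block (iii), y-inequality: test functions `f = S(τ) ψ`.
-/

set_option autoImplicit false
set_option linter.unusedSectionVars false

open MeasureTheory Set Filter Topology Function
open scoped ENNReal InnerProductSpace

namespace Pool.Agent.Lib.MP_79abb3_an.SC

open Pool.Agent.Lib.MP_79abb3_an.P25 Pool.Agent.Lib.MP_79abb3_an.FW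

section
variable {H : ℝ} [hH : Fact (0 < H)]

/-- Test functions `f` (Dirichlet, with `f1 = f_z` continuous and `f2 = f_zz`) of size `n0` at time `τ`:
`|∇^j f| ≤ n0 τ^{-3/16-j/2}`, `j = 0, 1, 2`. -/
structure TFn (G : Geo H) (τ n0 : ℝ) (f f1 : ℤ → CI H) (f2 : ℤ → Z2 H) : Prop where
  nn : 0 ≤ n0
  d1 : ∀ n, DZ (f n) (iota (f1 n))
  d2 : ∀ n, DZ (f1 n) (f2 n)
  z0 : ∀ n, ex (f n) 0 = 0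
  zH : ∀ n, ex (f n) H = 0
  s0 : S2 G.lam 2 (io f)
  s1 : S2 G.lam 1 (io f1)
  s2 : S2 G.lam 0 f2
  b00 : N2 G.lam 0 (io f) ≤ n0 * τ ^ (-(3 / 16) : ℝ)
  b01 : N2 G.lam 1 (io f) ≤ n0 * τ ^ (-(11 / 16) : ℝ)
  b02 : N2 G.lam 2 (io f) ≤ n0 * τ ^ (-(19 / 16) : ℝ)
  b10 : N2 G.lam 0 (io f1) ≤ n0 * τ ^ (-(11 / 16) : ℝ)
  b11 : N2 G.lam 1 (io f1) ≤ n0 * τ ^ (-(19 / 16) : ℝ)
  b20 : N2 G.lam 0 f2 ≤ n0 * τ ^ (-(19 / 16) : ℝ)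

private theorem FlYd_alg0 {τ n0 X a b : ℝ} (hτ : 0 < τ) (hn : 0 ≤ n0)
    (hb : 0 ≤ b) (h : X ^ 2 ≤ 2 * (a * b)) (h1 : a ≤ n0 * τ ^ (-(19 / 16) : ℝ))
    (h2 : b ≤ n0 * τ ^ (-(11 / 16) : ℝ)) : X ≤ 2 * n0 * τ ^ (-(15 / 16) : ℝ) := by
  have e : τ ^ (-(19 / 16) : ℝ) * τ ^ (-(11 / 16) : ℝ) = (τ ^ (-(15 / 16) : ℝ)) ^ 2 := by
    rw [← Real.rpow_add hτ, ← Real.rpow_natCast, ← Real.rpow_mul hτ.le]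
    congr 1; push_cast; norm_num
  have p1 : 0 ≤ τ ^ (-(19 / 16) : ℝ) := Real.rpow_nonneg hτ.le _
  have p2 : 0 ≤ τ ^ (-(11 / 16) : ℝ) := Real.rpow_nonneg hτ.le _
  have p3 : 0 ≤ τ ^ (-(15 / 16) : ℝ) := Real.rpow_nonneg hτ.le _
  have h3 : a * b ≤ n0 ^ 2 * (τ ^ (-(15 / 16) : ℝ)) ^ 2 := by
    rw [← e]
    calc a * b ≤ (n0 * τ ^ (-(19 / 16) : ℝ)) * (n0 * τ ^ (-(11 / 16) : ℝ)) :=
          mul_le_mul h1 h2 hb (mul_nonneg hn p1)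
      _ = _ := by ring
  refine abs_le_of_sq_le_sq' ?_ (mul_nonneg (mul_nonneg zero_le_two hn) p3) |>.2
  calc X ^ 2 ≤ 2 * (a * b) := h
    _ ≤ 2 * (n0 ^ 2 * (τ ^ (-(15 / 16) : ℝ)) ^ 2) := by linarith
    _ ≤ 4 * (n0 ^ 2 * (τ ^ (-(15 / 16) : ℝ)) ^ 2) := by
        have : 0 ≤ n0 ^ 2 * (τ ^ (-(15 / 16) : ℝ)) ^ 2 := by positivity
        linarith
    _ = _ := by ring

private theorem FlYd_alg1 {H τ n0 X a b : ℝ} (hH : 0 < H) (hτ : 0 < τ) (hτ1 : τ ≤ 1)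
    (hn : 0 ≤ n0) (ha : 0 ≤ a) (hb : 0 ≤ b) (h : X ^ 2 ≤ a * (H⁻¹ * a + 2 * b))
    (h1 : a ≤ n0 * τ ^ (-(11 / 16) : ℝ)) (h2 : b ≤ n0 * τ ^ (-(19 / 16) : ℝ)) :
    X ≤ √(H⁻¹ + 2) * n0 * τ ^ (-(15 / 16) : ℝ) := by
  have e : τ ^ (-(11 / 16) : ℝ) * τ ^ (-(19 / 16) : ℝ) = (τ ^ (-(15 / 16) : ℝ)) ^ 2 := by
    rw [← Real.rpow_add hτ, ← Real.rpow_natCast, ← Real.rpow_mul hτ.le]
    congr 1; push_cast; norm_num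
  have p1 : 0 ≤ τ ^ (-(19 / 16) : ℝ) := Real.rpow_nonneg hτ.le _
  have p2 : 0 ≤ τ ^ (-(11 / 16) : ℝ) := Real.rpow_nonneg hτ.le _
  have p3 : 0 ≤ τ ^ (-(15 / 16) : ℝ) := Real.rpow_nonneg hτ.le _
  have hi : 0 < H⁻¹ := inv_pos.2 hH
  have p4 : τ ^ (-(11 / 16) : ℝ) ≤ τ ^ (-(19 / 16) : ℝ) :=
    Real.rpow_le_rpow_of_exponent_ge hτ hτ1 (by norm_num)
  have h1' : a ≤ n0 * τ ^ (-(19 / 16) : ℝ) := h1.trans (mul_le_mul_of_nonneg_left p4 hn)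
  have h3 : H⁻¹ * a + 2 * b ≤ (H⁻¹ + 2) * (n0 * τ ^ (-(19 / 16) : ℝ)) := by
    have := mul_le_mul_of_nonneg_left h1' hi.le
    linarith
  have h4 : a * (H⁻¹ * a + 2 * b) ≤
      (n0 * τ ^ (-(11 / 16) : ℝ)) * ((H⁻¹ + 2) * (n0 * τ ^ (-(19 / 16) : ℝ))) :=
    mul_le_mul h1 h3 (by positivity) (mul_nonneg hn p2)
  refine abs_le_of_sq_le_sq' ?_ (mul_nonneg (mul_nonneg (Real.sqrt_nonneg _) hn) p3) |>.2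
  have h5 : √(H⁻¹ + 2) ^ 2 = H⁻¹ + 2 := Real.sq_sqrt (by linarith)
  calc X ^ 2 ≤ a * (H⁻¹ * a + 2 * b) := h
    _ ≤ _ := h4
    _ = (H⁻¹ + 2) * n0 ^ 2 * (τ ^ (-(11 / 16) : ℝ) * τ ^ (-(19 / 16) : ℝ)) := by ring
    _ = √(H⁻¹ + 2) ^ 2 * n0 ^ 2 * (τ ^ (-(15 / 16) : ℝ)) ^ 2 := by rw [e, h5]
    _ = _ := by ring

/-- `N_{1,∞}(f) ≤ 2 n0 τ^{-15/16}`. Proof: `agmon_fam0` with `s = 1` (`f(0) = 0`):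
`N² ≤ 2 N2 2 (io f) N2 0 (io f1) ≤ 2 n0² τ^{-19/16-11/16}`. -/
theorem TFn.sup (G : Geo H) {τ n0 : ℝ} (hτ : 0 < τ) {f f1 : ℤ → CI H} {f2 : ℤ → Z2 H}
    (h : TFn G τ n0 f f1 f2) :
    S2 G.lam 1 f ∧ N2 G.lam 1 f ≤ 2 * n0 * τ ^ (-(15 / 16) : ℝ) := by
  have hH0 := hH.out
  have c1 : S2 G.lam (2 * 1) (io f) := by
    have := h.s0
    rwa [show (2:ℝ) * 1 = 2 by norm_num]
  have c2 : S2 G.lam 0 (io f1) := (S2_mono G.lw.h1 zero_le_one h.s1).1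
  obtain ⟨h1, h2⟩ := agmon_fam0 G.lw.h1 (s := 1) h.d1
    (fun n => ⟨0, ⟨le_rfl, hH0.le⟩, h.z0 n⟩) c1 c2
  refine ⟨h1, ?_⟩
  have h3 := h.b02
  have h4 := h.b10
  rw [show (2:ℝ) * 1 = 2 by norm_num] at h2
  exact FlYd_alg0 hτ h.nn (N2_nonneg _ _) h2 h3 h4

/-- `N_{0,∞}(f_z) ≤ C n0 τ^{-15/16}`, `C² = H⁻¹ + 2`. Proof: `agmon_fam` with `s = 0` and `τ ≤ 1`. -/
theorem TFn.sup1 (G : Geo H) {τ n0 : ℝ} (hτ : 0 < τ) (hτ1 : τ ≤ 1) {f f1 : ℤ → CI H} {f2 : ℤ → Z2 H}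
    (h : TFn G τ n0 f f1 f2) :
    S2 G.lam 0 f1 ∧ N2 G.lam 0 f1 ≤ √(H⁻¹ + 2) * n0 * τ ^ (-(15 / 16) : ℝ) := by
  have hH0 := hH.out
  have c2 : S2 G.lam 0 (io f1) := (S2_mono G.lw.h1 zero_le_one h.s1).1
  have c1 : S2 G.lam (2 * 0) (io f1) := by
    rwa [mul_zero]
  obtain ⟨h1, h2⟩ := agmon_fam G.lw.h1 (s := 0) h.d2 c1 c2 h.s2
  refine ⟨h1, ?_⟩
  rw [mul_zero] at h2
  exact FlYd_alg1 hH0 hτ hτ1 h.nn (N2_nonneg _ _) (N2_nonneg _ _) h2 h.b10 h.b20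

end

end Pool.Agent.Lib.MP_79abb3_an.SC
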