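import Pool.Agent.Lib.MP_79abb3_an.SC.NcA

/-!
MP_79abb3_an, Theorem C, block (iv): multiplication by the metric factor, `z`-derivatives and the
commutator with `D`.
-/

set_option autoImplicit false
set_option linter.unusedSectionVars false

open MeasureTheory Set Filter Topology Function
open scoped ENNReal InnerProductSpace

namespace Pool.Agent.Lib.MP_79abb3_an.SC

open Pool.Agent.Lib.MP_79abb3_an.P25

section
variable {H : ℝ} [hH : Fact (0 < H)]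

/-- Sup bound by the `H¹` norm. -/
theorem DZ.sup {F : CI H} {f : Z2 H} (h : DZ F f) :
    ‖F‖ ≤ (√H)⁻¹ * ‖(iota F : Z2 H)‖ + √H * ‖f‖ := by
  have h0 := hH.out
  have hs : 0 < √H := Real.sqrt_pos.2 h0
  have hex : ∃ y ∈ Icc (0:ℝ) H, ‖ex F y‖ ≤ (√H)⁻¹ * ‖(iota F : Z2 H)‖ := by
    by_contra hcon
    push Not at hcon
    have h1 : 0 < ∫ z in (0:ℝ)..H, (‖ex F z‖ ^ 2 - ((√H)⁻¹ * ‖(iota F : Z2 H)‖) ^ 2) := by
      refine intervalIntegral.integral_pos h0 ?_ (fun x hx => ?_) ⟨0, zero_memI, ?_⟩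
      · exact (((continuous_ex F).norm.pow 2).sub continuous_const).continuousOn
      · have h2 := hcon x ⟨hx.1.le, hx.2⟩
        have h3 : ((√H)⁻¹ * ‖(iota F : Z2 H)‖) ^ 2 ≤ ‖ex F x‖ ^ 2 :=
          pow_le_pow_left₀ (by positivity) h2.le 2
        linarith
      · have h2 := hcon 0 zero_memI
        have h3 : ((√H)⁻¹ * ‖(iota F : Z2 H)‖) ^ 2 < ‖ex F 0‖ ^ 2 :=
          pow_lt_pow_left₀ h2 (by positivity) two_ne_zero
        linarith
    rw [intervalIntegral.integral_sub, ← norm_sq_iota, intervalIntegral.integral_const, sub_zero,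
      smul_eq_mul, mul_pow, inv_pow, Real.sq_sqrt h0.le, ← mul_assoc, mul_inv_cancel₀ h0.ne', one_mul,
      sub_self] at h1
    · exact lt_irrefl _ h1
    · exact ((continuous_ex F).norm.pow 2).intervalIntegrable _ _
    · exact continuous_const.intervalIntegrable _ _
  obtain ⟨y, hy, hy2⟩ := hex
  refine ci_norm_le (by positivity) fun z hz => ?_
  have h4 := norm_Pz_mz_le (1 : CI H) f hy hz
  rw [mz_one] at h4
  have h5 : ex F z = ex F y + (ex (Pz f) z - ex (Pz f) y) := by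
    rw [h z hz, h y hy]
    ring
  rw [h5]
  refine (norm_add_le _ _).trans (add_le_add hy2 (h4.trans ?_))
  exact mul_le_mul_of_nonneg_right norm_one_iota_le (norm_nonneg _)

theorem hasSum_ex {ι : Type} {F : ι → CI H} {G : CI H} (h : HasSum F G) (z : ℝ) :
    HasSum (fun j => ex (F j) z) (ex G z) := by
  have h1 := (evC z).hasSum h
  simpa only [evC_apply] using h1

theorem hasSum_Pz {ι : Type} {F : ι → Z2 H} {G : Z2 H} (h : HasSum F G) :
    HasSum (fun j => Pz (F j)) (Pz G) := Pz.hasSum h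

/-- `z`-derivative of a convolution. -/
theorem DH.cm {x x1 : HH H} (h : DH x x1) {a a1 : ℤ → CI H} (ha : Summable fun m => ‖a m‖)
    (ha1 : Summable fun m => ‖a1 m‖) (hd : ∀ n, IsD (a n) (a1 n)) :
    DH (SC.cm a x) (SC.cm a1 x + SC.cm a x1) ∧ ∀ z ∈ Icc (0:ℝ) H, Zr z x → Zr z (SC.cm a x) := by
  have h0 := hH.out
  choose X hX1 hX2 using h
  have hXn : ∀ j, ‖X j‖ ≤ (√H)⁻¹ * ‖x‖ + √H * ‖x1‖ := by
    intro j
    refine ((hX2 j).sup).trans ?_
    rw [← hX1 j]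
    gcongr
    · exact l2_norm_apply_le x j
    · exact l2_norm_apply_le x1 j
  have hsum : ∀ n, Summable fun j => a (n - j) * X j := by
    intro n
    refine Summable.of_norm_bounded (g := fun j => ‖a (n - j)‖ * ((√H)⁻¹ * ‖x‖ + √H * ‖x1‖)) ?_ ?_
    · exact ((Equiv.subLeft n).summable_iff.2 ha).mul_right _
    · intro j
      exact (norm_mul_le _ _).trans (mul_le_mul_of_nonneg_left (hXn j) (norm_nonneg _))
  have hG : ∀ n, SC.cm a x n = iota (∑' j, a (n - j) * X j) := by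
    intro n
    have h1 := cm_hasSum ha x n
    have h2 : HasSum (fun j => iota (a (n - j) * X j)) (iota (∑' j, a (n - j) * X j) : Z2 H) :=
      iota.hasSum (hsum n).hasSum
    have h3 : (fun j => mz (a (n - j)) (x j)) = fun j => (iota (a (n - j) * X j) : Z2 H) := by
      funext j
      rw [hX1 j, mz_iota]
    rw [h3] at h1
    exact h1.unique h2
  refine ⟨fun n => ⟨∑' j, a (n - j) * X j, hG n, fun z hz => ?_⟩, fun z hz hzx n => ?_⟩
  · have h1 : HasSum (fun j => ex (a (n - j) * X j) z) (ex (∑' j, a (n - j) * X j) z) :=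
      hasSum_ex (hsum n).hasSum z
    have h2 : HasSum (fun j => ex (a (n - j) * X j) 0) (ex (∑' j, a (n - j) * X j) 0) :=
      hasSum_ex (hsum n).hasSum 0
    have h3 : HasSum (fun j => mz (a1 (n - j)) (x j) + mz (a (n - j)) (x1 j))
        (SC.cm a1 x n + SC.cm a x1 n) := (cm_hasSum ha1 x n).add (cm_hasSum ha x1 n)
    have h4 : HasSum (fun j => ex (Pz (mz (a1 (n - j)) (x j) + mz (a (n - j)) (x1 j))) z)
        (ex (Pz (SC.cm a1 x n + SC.cm a x1 n)) z) := hasSum_ex (hasSum_Pz h3) z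
    have h5 := h2.add h4
    have h6 : (fun j => ex (a (n - j) * X j) 0 +
        ex (Pz (mz (a1 (n - j)) (x j) + mz (a (n - j)) (x1 j))) z) =
        fun j => ex (a (n - j) * X j) z := by
      funext j
      have h7 := ((IsD.dz (hd (n - j))).mul (hX2 j)) z hz
      rw [h7, hX1 j]
      congr 3
      rw [mz_iota, mz_iota, mul_comm]
    rw [h6] at h5
    exact h1.unique h5
  · rw [hG n, tr_iota]
    have h1 : HasSum (fun j => ex (a (n - j) * X j) z) (ex (∑' j, a (n - j) * X j) z) :=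
      hasSum_ex (hsum n).hasSum z
    have h2 : (fun j => ex (a (n - j) * X j) z) = fun _ => (0:ℂ) := by
      funext j
      have h3 := hzx j
      rw [hX1 j, tr_iota] at h3
      rw [ex_mul, h3, mul_zero]
    rw [h2] at h1
    exact h1.unique hasSum_zero

/-- The commutator `[D, a]`. -/
noncomputable def cD (ω : ℝ) (a : ℤ → CI H) : HH H →L[ℂ] HH H :=
  cv (fun n j => |ω * n| - |ω * j|) a

theorem cD_hyp (ω : ℝ) (a : ℤ → CI H) (n j : ℤ) : |(fun n j : ℤ => |ω * n| - |ω * j|) n j| *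
    ‖a (n - j)‖ ≤ (fun m : ℤ => |ω| * (|(m:ℝ)| * ‖a m‖)) (n - j) := by
  show |(|ω * n| - |ω * j|)| * ‖a (n - j)‖ ≤ |ω| * (|((n - j : ℤ) : ℝ)| * ‖a (n - j)‖)
  rw [← mul_assoc, ← abs_mul]
  refine mul_le_mul_of_nonneg_right ?_ (norm_nonneg _)
  refine (abs_abs_sub_abs_le _ _).trans (le_of_eq ?_)
  push_cast
  congr 1
  ring

theorem Cf.s1 {p : ℕ} {a : ℤ → CI H} (h : Cf (p + 1) a) : Summable fun m : ℤ => |(m:ℝ)| * ‖a m‖ := by
  refine Summable.of_nonneg_of_le (fun m => by positivity) (fun m => ?_)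
    (h.mono (Nat.succ_le_succ (Nat.zero_le p))).s
  rw [Nat.succ_eq_add_one, zero_add, pow_one]
  gcongr
  linarith

theorem norm_cD_le (ω : ℝ) {p : ℕ} {a : ℤ → CI H} (h : Cf (p + 1) a) :
    ‖cD ω a‖ ≤ ∑' m : ℤ, |ω| * (|(m:ℝ)| * ‖a m‖) :=
  norm_cv_le (h.s1.mul_left _) (cD_hyp ω a)

theorem mb_cD (ω : ℝ) {p : ℕ} {a : ℤ → CI H} (h : Cf (p + 1) a) (f : CI H) (x : HH H) :
    mb f (cD ω a x) = cD ω a (mb f x) :=
  mb_cv (h.s1.mul_left _) (cD_hyp ω a) f x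

/-- `D (a x) = a D x + [D,a] x` -/
theorem Dk.cm {ω : ℝ} {x y : HH H} (hxy : Dk ω x y) {p : ℕ} {a : ℤ → CI H} (h : Cf (p + 1) a) :
    Dk ω (SC.cm a x) (SC.cm a y + cD ω a x) := by
  intro n
  have h1 := cm_hasSum h.s0 x n
  have h2 := cm_hasSum h.s0 y n
  have h3 := cv_hasSum (h.s1.mul_left _) (cD_hyp ω a) x n
  have h4 : HasSum (fun j => ((|ω * n| : ℝ) : ℂ) • mz (a (n - j)) (x j))
      (((|ω * n| : ℝ) : ℂ) • SC.cm a x n) := h1.const_smul _
  have h5 := h2.add h3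
  have h6 : (fun j => mz (a (n - j)) (y j) + ((|ω * n| - |ω * j| : ℝ) : ℂ) • mz (a (n - j)) (x j)) =
      fun j => ((|ω * n| : ℝ) : ℂ) • mz (a (n - j)) (x j) := by
    funext j
    rw [hxy j, map_smul, ← add_smul]
    congr 1
    push_cast
    ring
  rw [h6] at h5
  rw [lp.coeFn_add, Pi.add_apply]
  exact h5.unique h4

/-- The metric factor with two `z`-derivatives. -/
structure Co (a a1 a2 : ℤ → CI H) (c₀ : ℝ) : Prop where
  ca : Cf 1 a
  ca1 : Cf 1 a1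
  ca2 : Cf 0 a2
  d1 : ∀ n, IsD (a n) (a1 n)
  d2 : ∀ n, IsD (a1 n) (a2 n)
  c₀_pos : 0 < c₀
  coer : ∀ x : HH H, c₀ * ‖x‖ ^ 2 ≤ (⟪SC.cm a x, x⟫_ℂ).re

theorem Co.lower {a a1 a2 : ℤ → CI H} {c₀ : ℝ} (h : Co a a1 a2 c₀) (x : HH H) :
    c₀ * ‖x‖ ≤ ‖SC.cm a x‖ := by
  rcases eq_or_lt_of_le (norm_nonneg x) with h0 | h0
  · rw [← h0, mul_zero]; exact norm_nonneg _
  · have h1 := h.coer x
    have h2 : (⟪SC.cm a x, x⟫_ℂ).re ≤ ‖SC.cm a x‖ * ‖x‖ :=
      (Complex.re_le_norm _).trans (norm_inner_le_norm _ _)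
    refine le_of_mul_le_mul_right ?_ h0
    nlinarith

theorem op_bd (L : HH H →L[ℂ] HH H) : ∃ A : ℝ, 0 ≤ A ∧ ∀ x, ‖L x‖ ≤ A * ‖x‖ :=
  ⟨‖L‖, norm_nonneg _, fun x => L.le_opNorm x⟩

/-- A common bound for all operators built from the metric factor. -/
theorem Co.bound {a a1 a2 : ℤ → CI H} {c₀ : ℝ} (_h : Co a a1 a2 c₀) (ω : ℝ) : ∃ C₁ : ℝ, 1 ≤ C₁ ∧
    c₀ ≤ C₁ ∧ (∀ x : HH H, ‖SC.cm a x‖ ≤ C₁ * ‖x‖) ∧ (∀ x : HH H, ‖SC.cm a1 x‖ ≤ C₁ * ‖x‖) ∧
    (∀ x : HH H, ‖SC.cm a2 x‖ ≤ C₁ * ‖x‖) ∧ (∀ x : HH H, ‖cD ω a x‖ ≤ C₁ * ‖x‖) ∧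
    ∀ x : HH H, ‖cD ω a1 x‖ ≤ C₁ * ‖x‖ := by
  obtain ⟨A1, n1, h1⟩ := op_bd (SC.cm a)
  obtain ⟨A2, n2, h2⟩ := op_bd (SC.cm a1)
  obtain ⟨A3, n3, h3⟩ := op_bd (SC.cm a2)
  obtain ⟨A4, n4, h4⟩ := op_bd (cD ω a)
  obtain ⟨A5, n5, h5⟩ := op_bd (cD ω a1)
  have n0 := abs_nonneg c₀
  have l0 := le_abs_self c₀
  refine ⟨1 + |c₀| + A1 + A2 + A3 + A4 + A5, by linarith, by linarith, fun x => (h1 x).trans ?_,
    fun x => (h2 x).trans ?_, fun x => (h3 x).trans ?_, fun x => (h4 x).trans ?_,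
    fun x => (h5 x).trans ?_⟩
  all_goals exact mul_le_mul_of_nonneg_right (by linarith) (norm_nonneg _)

end

end Pool.Agent.Lib.MP_79abb3_an.SC
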