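import Pool.Agent.Lib.MP_79abb3_an.SC.ApE
import Pool.Agent.Lib.MP_79abb3_an.SC.ExT
import Pool.Agent.Lib.MP_79abb3_an.SC.FlYd
import Pool.Agent.Lib.MP_79abb3_an.SC.NcB

/-!
MP_79abb3_an, simply connected domains, block (iii), y-inequality (b), (c): the symmetrised vortex
force.
-/

set_option autoImplicit false
set_option linter.unusedSectionVars false

open MeasureTheory Set Filter Topology Function
open scoped ENNReal InnerProductSpace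

namespace Pool.Agent.Lib.MP_79abb3_an.SC

open Pool.Agent.Lib.MP_79abb3_an.P25 Pool.Agent.Lib.MP_79abb3_an.FW

section
variable {H : ℝ} [hH : Fact (0 < H)]

/-- the family `ζ a` -/
noncomputable def Geo.za (G : Geo H) (n : ℤ) : CI H := G.ζ * G.a n

private theorem lam_pow_le (G : Geo H) (n : ℤ) :
    G.lam n ^ (1:ℝ) ≤ (G.N₀ + G.ω) * (1 + |(n:ℝ)|) ^ 4 := by
  have h := G.lamOK
  have h0 := abs_nonneg (n:ℝ)
  rw [Real.rpow_one]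
  refine (h.le n).trans (mul_le_mul_of_nonneg_left ?_ h.C0)
  exact le_self_pow₀ (by linarith) (by norm_num)

/-- families of coefficients times a function -/
private theorem s1_mul (G : Geo H) (f : CI H) {c : ℤ → CI H}
    (hc : Summable fun m : ℤ => (1 + |(m:ℝ)|) ^ 4 * ‖c m‖) : S1 G.lam 1 (fun n => f * c n) := by
  have h := G.lamOK
  refine Summable.of_nonneg_of_le (fun n => mul_nonneg (Real.rpow_nonneg (G.lw.pos n).le _)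
    (norm_nonneg _)) (fun n => ?_) (hc.mul_left ((G.N₀ + G.ω) * ‖f‖))
  have h0 := abs_nonneg (n:ℝ)
  calc G.lam n ^ (1:ℝ) * ‖f * c n‖ ≤ ((G.N₀ + G.ω) * (1 + |(n:ℝ)|) ^ 4) * (‖f‖ * ‖c n‖) :=
        mul_le_mul (lam_pow_le G n) (norm_mul_le _ _) (norm_nonneg _)
          (mul_nonneg h.C0 (pow_nonneg (by linarith) 4))
    _ = _ := by ring

theorem Geo.za_s1 (G : Geo H) : S1 G.lam 1 G.za := s1_mul G G.ζ G.ha.c.s

theorem Geo.za_cj (G : Geo H) : cj G.za = G.za := by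
  funext n
  show star (G.ζ * G.a (-n)) = G.ζ * G.a n
  rw [star_mul', G.ha.c.re, star_star, G.ζ_real]

/-- `Ms ζ (cm a x)` as a family -/
theorem Geo.za_pz (G : Geo H) (x : HH H) : ⇑(Ms G.ζ (cm G.a x)) = pz x G.za := by
  funext n
  have sc := G.ha.c.s0
  rw [Ms_apply, cm_apply sc]
  have hs : Summable fun j => (mz (G.a (n - j)) (x j) : Z2 H) := (cm_hasSum sc x n).summable
  refine ((mz G.ζ : Z2 H →L[ℂ] Z2 H).map_tsum hs).trans ?_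
  show _ = ∑' j, mz (G.ζ * G.a (n - j)) (x j)
  exact tsum_congr fun j => (mz_mul _ _ _).symm

private theorem S1_add' (G : Geo H) {s : ℝ} {b c : ℤ → CI H} (hb : S1 G.lam s b)
    (hc : S1 G.lam s c) : S1 G.lam s (fun n => b n + c n) := by
  refine Summable.of_nonneg_of_le (fun n => mul_nonneg (Real.rpow_nonneg (G.lw.pos n).le _)
    (norm_nonneg _)) (fun n => ?_) (Summable.add hb hc)
  rw [← mul_add]
  exact mul_le_mul_of_nonneg_left (norm_add_le _ _) (Real.rpow_nonneg (G.lw.pos n).le _)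

private theorem isD_mul' {f f1 g g1 : CI H} (hf : IsD f f1) (hg : IsD g g1) :
    IsD (f * g) (f1 * g + f * g1) := fun z hz => (hf z hz).mul (hg z hz)

/-- derivative of the family `ζ a` -/
theorem Geo.za_d (G : Geo H) : ∃ z1 : ℤ → CI H, (∀ n, IsD (G.za n) (z1 n)) ∧ S1 G.lam 1 z1 := by
  obtain ⟨a1, -, d1, -, c1, -⟩ := G.ha.d
  exact ⟨fun n => G.ζ1 * G.a n + G.ζ * a1 n, fun n => isD_mul' G.ζ_d (d1 n),
    S1_add' G (s1_mul G G.ζ1 G.ha.c.s) (s1_mul G G.ζ c1.s)⟩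

private theorem pc_summable {p c : ℤ → CI H} (sp : Summable fun n => ‖p n‖ ^ 2)
    (sc : Summable fun n => ‖c n‖) (n : ℤ) : Summable fun j => p j * c (n - j) := by
  refine Summable.of_norm (Summable.of_nonneg_of_le (fun _ => norm_nonneg _) (fun i => ?_)
    ((young21 (a := fun n => ‖p n‖) (b := fun n => ‖c n‖) (fun _ => norm_nonneg _)
      (fun _ => norm_nonneg _) sp sc).1 n))
  exact norm_mul_le _ _

private theorem pc_hasSum {p c : ℤ → CI H} (sp : Summable fun n => ‖p n‖ ^ 2)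
    (sc : Summable fun n => ‖c n‖) (n : ℤ) :
    HasSum (fun j => p j * c (n - j)) (pc p c n) := (pc_summable sp sc n).hasSum

/-- Derivative of a product of families. Proof as in `DH.cm` (NcB): `hasSum_ex`, `hasSum_Pz`. -/
theorem pc_dz {p p1 : ℤ → CI H} {c c1 : ℤ → CI H} (hp : ∀ n, DZ (p n) (iota (p1 n)))
    (hc : ∀ n, IsD (c n) (c1 n)) (sp : Summable fun n => ‖p n‖ ^ 2) (sp1 : Summable fun n => ‖p1 n‖ ^ 2)
    (sc : Summable fun n => ‖c n‖) (sc1 : Summable fun n => ‖c1 n‖) (n : ℤ) :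
    DZ (pc p c n) (iota (pc p1 c n + pc p c1 n)) := by
  intro z hz
  have hs := pc_hasSum sp sc n
  have h1 := hasSum_ex hs z
  have h2 := hasSum_ex hs 0
  have h3 : HasSum (fun j => (iota (p1 j * c (n - j) + p j * c1 (n - j)) : Z2 H))
      (iota (pc p1 c n + pc p c1 n)) :=
    iota.hasSum ((pc_hasSum sp1 sc n).add (pc_hasSum sp sc1 n))
  have h4 := hasSum_ex (hasSum_Pz h3) z
  have h5 := h2.add h4
  refine h1.unique ?_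
  convert h5 using 1
  funext j
  have h7 := ((hp j).mul (IsD.dz (hc (n - j)))) z hz
  rw [h7, mz_iota, mz_iota, ← map_add, mul_comm (c (n - j)) (p1 j)]

/-- values of a product of families -/
theorem pc_ex {p c : ℤ → CI H} (sp : Summable fun n => ‖p n‖ ^ 2) (sc : Summable fun n => ‖c n‖)
    {z : ℝ} (h : (∀ n, ex (p n) z = 0) ∨ ∀ n, ex (c n) z = 0) (n : ℤ) : ex (pc p c n) z = 0 := by
  have h1 := hasSum_ex (pc_hasSum sp sc n) z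
  refine h1.unique ?_
  have e : (fun j => ex (p j * c (n - j)) z) = fun _ => (0:ℂ) := by
    funext j
    rw [ex_mul]
    rcases h with h | h
    · rw [h j, zero_mul]
    · rw [h (n - j), mul_zero]
  rw [e]
  exact hasSum_zero

/-- `ι` of a product of families -/
private theorem pz_io {p c : ℤ → CI H} (sp : Summable fun n => ‖p n‖ ^ 2)
    (sc : Summable fun n => ‖c n‖) : pz (io p) c = io (pc p c) := by
  funext n
  have h1 : HasSum (fun j => (iota (p j * c (n - j)) : Z2 H)) (iota (pc p c n)) :=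
    iota.hasSum (pc_hasSum sp sc n)
  show ∑' j, mz (c (n - j)) (iota (p j)) = iota (pc p c n)
  rw [← h1.tsum_eq]
  refine tsum_congr fun j => ?_
  rw [mz_iota, mul_comm]

/-- the vortex force of `ζ a x` tested with `f` -/
private theorem bf_za (G : Geo H) {f : ℤ → CI H} (sf : S2 G.lam 1 f) (g g' : HH H) :
    bf G.ω (⇑(Ms G.ζ (cm G.a g))) (uV G.ω (Vf G.ω g')) (wV G.ω (Vf G.ω g')) (io f) =
      T3 (io (pc (uV G.ω f) G.za)) (wV G.ω (Vf G.ω g')) g +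
        T3 (io (pc (fun n => -wV G.ω f n) G.za)) (uV G.ω (Vf G.ω g')) g := by
  have h1 := G.lw.h1
  have w := G.lw
  have pw := G.pw
  have hN : (0:ℝ) ≤ G.N₀ := le_trans zero_le_one G.hN
  obtain ⟨⟨sv, -⟩, ⟨sw, -⟩⟩ := vel_half h1 hN G.lam_le g'
  have sg : S2 G.lam 0 (⇑g) := (S2l2 g).1
  have sza : S1 G.lam (max 0 (1 / 4)) G.za := (S1_mono w (by norm_num) G.za_s1).1
  have sza0 : Summable fun n => ‖G.za n‖ := S1_abs w zero_le_one G.za_s1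
  obtain ⟨⟨su1, -⟩, ⟨sw1, -⟩⟩ := S2_uV h1 G.ω sf
  have sw1' : S2 G.lam 1 (fun n => -wV G.ω f n) := S2_neg.2 sw1
  have sf4 : S2 G.lam (1 / 4) (io f) := (S2_mono h1 (by norm_num) (S2_iota h1 sf).1).1
  have su4 : S2 G.lam (1 / 4) (io (uV G.ω f)) := (S2_mono h1 (by norm_num) (S2_iota h1 su1).1).1
  have sw4 : S2 G.lam (1 / 4) (io fun n => -wV G.ω f n) :=
    (S2_mono h1 (by norm_num) (S2_iota h1 sw1').1).1
  have so : S2 G.lam 0 (⇑(Ms G.ζ (cm G.a g))) := (S2l2 _).1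
  rw [bf_T3 pw G.ω so sv sw sf4, G.za_pz, tZ_io]
  have e : tY G.ω (io f) = io (fun n => -wV G.ω f n) := by
    funext n; rw [tY_io]; unfold io; rw [map_neg]
  rw [e, T3_mul w pw sg sw su4 sza, T3_mul w pw sg sv sw4 sza, G.za_cj,
    pz_io (S2_sq w zero_le_one su1) sza0, pz_io (S2_sq w zero_le_one sw1') sza0]

private theorem S2_shift (G : Geo H) {x y : ℤ → CI H} (h : S2 G.lam 1 x)
    (hxy : ∀ n, ‖y n‖ ≤ G.lam n * ‖x n‖) : S2 G.lam 0 y ∧ N2 G.lam 0 y ≤ N2 G.lam 1 x := by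
  have key : ∀ n, (G.lam n ^ (0:ℝ) * ‖y n‖) ^ 2 ≤ (G.lam n ^ (1:ℝ) * ‖x n‖) ^ 2 := fun n => by
    rw [Real.rpow_zero, one_mul, Real.rpow_one]
    exact pow_le_pow_left₀ (norm_nonneg _) (hxy n) 2
  have hs : S2 G.lam 0 y := Summable.of_nonneg_of_le (fun n => sq_nonneg _) key h
  exact ⟨hs, Real.sqrt_le_sqrt (hs.tsum_le_tsum key h)⟩

private theorem S2_dy (G : Geo H) {x : ℤ → CI H} (h : S2 G.lam 1 x) :
    S2 G.lam 0 (dy G.ω x) ∧ N2 G.lam 0 (dy G.ω x) ≤ N2 G.lam 1 x :=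
  S2_shift G h fun n => by
    rw [dy_apply, norm_smul, norm_kI]
    exact mul_le_mul_of_nonneg_right (G.lam_k n) (norm_nonneg _)

private theorem S2_ka (G : Geo H) {x : ℤ → CI H} (h : S2 G.lam 1 x) :
    S2 G.lam 0 (fun n => -(ka G.ω n • x n)) ∧
      N2 G.lam 0 (fun n => -(ka G.ω n • x n)) ≤ N2 G.lam 1 x :=
  S2_shift G h fun n => by
    rw [norm_neg, norm_smul, norm_ka]
    exact mul_le_mul_of_nonneg_right (G.lam_k n) (norm_nonneg _)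

private theorem pc_one (G : Geo H) {p c : ℤ → CI H} (sp : S2 G.lam 1 p) (sc : S1 G.lam 1 c) :
    S2 G.lam 1 (pc p c) ∧ N2 G.lam 1 (pc p c) ≤ N1 G.lam 1 c * N2 G.lam 1 p := by
  have e : |(1:ℝ)| = 1 := abs_one
  obtain ⟨-, h1, h2⟩ := cvm_S1 G.lw zero_le_one mc_bd (s := 1) sp (by rwa [e])
  rw [e, one_mul] at h2
  exact ⟨h1, h2⟩

private theorem pc_nul (G : Geo H) {p c : ℤ → CI H} (sp : S2 G.lam 0 p) (sc : S1 G.lam 1 c) :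
    S2 G.lam 0 (pc p c) ∧ N2 G.lam 0 (pc p c) ≤ N1 G.lam 1 c * N2 G.lam 0 p := by
  have e : |(0:ℝ)| = 0 := abs_zero
  obtain ⟨sc0, nc⟩ := S1_mono G.lw zero_le_one sc
  obtain ⟨-, h1, h2⟩ := cvm_S1 G.lw zero_le_one mc_bd (s := 0) sp (by rwa [e])
  rw [e, one_mul] at h2
  exact ⟨h1, h2.trans (mul_le_mul_of_nonneg_right nc (N2_nonneg _ _))⟩

private theorem alg0 {A B F F1 a b c d e g : ℝ} (hA : 0 ≤ A) (hB : 0 ≤ B) (hF : 0 ≤ F)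
    (hF1 : 0 ≤ F1) (h1 : a ≤ A * (2 * F)) (h2 : b ≤ A * (2 * F)) (h3 : c ≤ B * F)
    (h4 : d ≤ A * (F + (F + F1))) (h5 : e ≤ B * (2 * F)) (h6 : g ≤ A * F) :
    a + (b + c) + (d + e + g) ≤ (7 * A + 3 * B) * (F + F1) := by
  have h7 : 0 ≤ A * F1 := mul_nonneg hA hF1
  have h8 : 0 ≤ B * F1 := mul_nonneg hB hF1
  have h9 : 0 ≤ A * F := mul_nonneg hA hF
  have h10 : 0 ≤ B * F := mul_nonneg hB hF
  nlinarith

/-- the families `c θ_z`, `c θ_y` and their gradients -/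
private theorem fam_bd (G : Geo H) : ∃ C, 0 ≤ C ∧ ∀ {f f1 : ℤ → CI H}
    (_ : ∀ n, DZ (f n) (iota (f1 n))) (_ : S2 G.lam 1 f) (_ : S2 G.lam 0 f1),
    ∃ g1 h1 : ℤ → CI H, (∀ n, DZ (pc (uV G.ω f) G.za n) (iota (g1 n))) ∧
      (∀ n, DZ (pc (fun n => -wV G.ω f n) G.za n) (iota (h1 n))) ∧
      S2 G.lam 0 (fun n => dy G.ω (pc (uV G.ω f) G.za) n + h1 n) ∧
      S2 G.lam 0 (fun n => g1 n - dy G.ω (pc (fun n => -wV G.ω f n) G.za) n) ∧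
      N2 G.lam 0 (fun n => dy G.ω (pc (uV G.ω f) G.za) n + h1 n) +
        N2 G.lam 0 (fun n => g1 n - dy G.ω (pc (fun n => -wV G.ω f n) G.za) n) ≤
        C * (N2 G.lam 1 f + N2 G.lam 0 f1) := by
  obtain ⟨z1, hz1, sz1⟩ := G.za_d
  have sza := G.za_s1
  have w := G.lw
  have h1 := w.h1
  have hA := N1_nonneg w 1 G.za
  have hB := N1_nonneg w 1 z1
  refine ⟨7 * N1 G.lam 1 G.za + 3 * N1 G.lam 1 z1, by linarith, ?_⟩
  intro f f1 d sf sf1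
  have hF := N2_nonneg (lam := G.lam) 1 f
  have hF1 := N2_nonneg (lam := G.lam) 0 f1
  obtain ⟨⟨sp, np⟩, ⟨sw, nw⟩⟩ := S2_uV h1 G.ω sf
  rw [one_mul] at nw
  have sq : S2 G.lam 1 (fun n => -wV G.ω f n) := S2_neg.2 sw
  have nq : N2 G.lam 1 (fun n => -wV G.ω f n) ≤ N2 G.lam 1 f := by rw [N2_neg]; exact nw
  obtain ⟨sp0, np0⟩ := S2_mono h1 zero_le_one sp
  obtain ⟨sq0, nq0⟩ := S2_mono h1 zero_le_one sq
  -- derivatives
  obtain ⟨sk, nk⟩ := S2_dy G sw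
  obtain ⟨sa, na⟩ := S2_ka G sf
  obtain ⟨sb, nb⟩ := S2_add h1 sa sf1
  obtain ⟨sp1, np1⟩ := S2_add h1 sk sb
  obtain ⟨sq1, nq1⟩ := S2_dy G sp
  have np1' : N2 G.lam 0 (fun n => dy G.ω (wV G.ω f) n + (-(ka G.ω n • f n) + f1 n)) ≤
      N2 G.lam 1 f + (N2 G.lam 1 f + N2 G.lam 0 f1) :=
    np1.trans (add_le_add (nk.trans nw) (nb.trans (add_le_add na le_rfl)))
  have dp1 : ∀ n, DZ (uV G.ω f n)
      (iota (dy G.ω (wV G.ω f) n + (-(ka G.ω n • f n) + f1 n))) := fun n => by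
    have e := uV_dz G.ω (V := f) (V1 := fun n => iota (f1 n)) (d n)
    have e2 : (iota (dy G.ω (wV G.ω f) n + (-(ka G.ω n • f n) + f1 n)) : Z2 H) =
        kI G.ω n • (iota (wV G.ω f n) : Z2 H) - (ka G.ω n • (iota (f n) : Z2 H) - iota (f1 n)) := by
      rw [dy_apply, map_add, map_add, map_neg, map_smul, map_smul]
      abel
    rw [e2]
    exact e
  have dq1 : ∀ n, DZ (-wV G.ω f n) (iota (dy G.ω (uV G.ω f) n)) := fun n => by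
    intro z hz
    have e := wV_dz G.ω f n z hz
    rw [map_smul, ex_smul] at e
    rw [ex_neg, ex_neg, e, dy_apply, map_smul, map_smul, ex_smul]
    ring
  -- products
  obtain ⟨a1, b1⟩ := pc_one G sp sza
  obtain ⟨a2, b2⟩ := S2_dy G a1
  obtain ⟨a3, b3⟩ := pc_nul G sq1 sza
  obtain ⟨a4, b4⟩ := pc_nul G sq0 sz1
  obtain ⟨a5, b5⟩ := S2_add h1 a3 a4
  obtain ⟨a6, b6⟩ := S2_add h1 a2 a5
  obtain ⟨c1, e1⟩ := pc_one G sq sza
  obtain ⟨c2, e2⟩ := S2_dy G c1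
  obtain ⟨c3, e3⟩ := pc_nul G sp1 sza
  obtain ⟨c4, e4⟩ := pc_nul G sp0 sz1
  obtain ⟨c5, e5⟩ := S2_add h1 c3 c4
  obtain ⟨c6, e6⟩ := S2_add h1 c5 (S2_neg.2 c2)
  rw [N2_neg] at e6
  have es : (fun n => pc (fun n => dy G.ω (wV G.ω f) n + (-(ka G.ω n • f n) + f1 n)) G.za n +
      pc (uV G.ω f) z1 n - dy G.ω (pc (fun n => -wV G.ω f n) G.za) n) =
      fun n => pc (fun n => dy G.ω (wV G.ω f) n + (-(ka G.ω n • f n) + f1 n)) G.za n +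
      pc (uV G.ω f) z1 n + -dy G.ω (pc (fun n => -wV G.ω f n) G.za) n :=
    funext fun n => sub_eq_add_neg _ _
  have sza0 : Summable fun n => ‖G.za n‖ := S1_abs w zero_le_one sza
  have sz10 : Summable fun n => ‖z1 n‖ := S1_abs w zero_le_one sz1
  refine ⟨fun n => pc (fun n => dy G.ω (wV G.ω f) n + (-(ka G.ω n • f n) + f1 n)) G.za n +
      pc (uV G.ω f) z1 n, fun n => pc (dy G.ω (uV G.ω f)) G.za n + pc (fun n => -wV G.ω f n) z1 n,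
    fun n => pc_dz dp1 hz1 (S2_sq w zero_le_one sp) (S2_sq w le_rfl sp1) sza0 sz10 n,
    fun n => pc_dz dq1 hz1 (S2_sq w zero_le_one sq) (S2_sq w le_rfl sq1) sza0 sz10 n, a6, ?_, ?_⟩
  · show S2 G.lam 0 (fun n => pc (fun n => dy G.ω (wV G.ω f) n + (-(ka G.ω n • f n) + f1 n)) G.za n +
      pc (uV G.ω f) z1 n - dy G.ω (pc (fun n => -wV G.ω f n) G.za) n)
    rw [es]
    exact c6
  · refine (add_le_add b6 ((le_of_eq ?_).trans e6)).trans ?_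
    · show N2 G.lam 0 (fun n => pc (fun n => dy G.ω (wV G.ω f) n + (-(ka G.ω n • f n) + f1 n)) G.za n +
        pc (uV G.ω f) z1 n - dy G.ω (pc (fun n => -wV G.ω f n) G.za) n) = _
      rw [es]
    refine (add_le_add (add_le_add le_rfl b5) (add_le_add e5 le_rfl)).trans ?_
    exact alg0 hA hB hF hF1 (b2.trans (b1.trans (mul_le_mul_of_nonneg_left np hA)))
      (b3.trans (mul_le_mul_of_nonneg_left (nq1.trans np) hA))
      (b4.trans (mul_le_mul_of_nonneg_left (nq0.trans nq) hB))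
      (e3.trans (mul_le_mul_of_nonneg_left np1' hA))
      (e4.trans (mul_le_mul_of_nonneg_left (np0.trans np) hB))
      (e2.trans (e1.trans (mul_le_mul_of_nonneg_left nq hA)))

private theorem alg1 {c R C F F1 s n0 T nv nw nv' nw' L L' : ℝ} (hc : 0 ≤ c)
    (hR : R ≤ C * (F + F1)) (hC : 0 ≤ C) (hF : F ≤ 2 * n0 * T) (hF1 : F1 ≤ s * n0 * T)
    (hv : nv ≤ 2 * L) (hw : nw ≤ L) (hv' : nv' ≤ 2 * L') (hw' : nw' ≤ L') (R0 : 0 ≤ R)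
    (v0 : 0 ≤ nv) (w0 : 0 ≤ nw) (v0' : 0 ≤ nv') (w0' : 0 ≤ nw') :
    c * R * (nv + nw) * (nv' + nw') ≤ 9 * (c * (C * (2 + s))) * n0 * T * (L * L') := by
  have h1 : R ≤ C * ((2 + s) * n0 * T) := hR.trans (mul_le_mul_of_nonneg_left (by linarith) hC)
  have h2 : c * R ≤ c * (C * ((2 + s) * n0 * T)) := mul_le_mul_of_nonneg_left h1 hc
  have h3 : 0 ≤ c * R := mul_nonneg hc R0
  have h4 : c * R * (nv + nw) ≤ c * (C * ((2 + s) * n0 * T)) * (3 * L) :=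
    mul_le_mul h2 (by linarith) (by linarith) (h3.trans h2)
  have h5 : 0 ≤ c * R * (nv + nw) := mul_nonneg h3 (by linarith)
  calc c * R * (nv + nw) * (nv' + nw') ≤ c * (C * ((2 + s) * n0 * T)) * (3 * L) * (3 * L') :=
        mul_le_mul h4 (by linarith) (by linarith) (h5.trans h4)
    _ = _ := by ring

/-- velocity in `Λ^{3/8}` -/
private theorem vel_LT (G : Geo H) (g : HH H) :
    (S2 G.lam (3 / 8) (io (uV G.ω (Vf G.ω g))) ∧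
      N2 G.lam (3 / 8) (io (uV G.ω (Vf G.ω g))) ≤ 2 * ‖LT G.ω G.lam (3 / 8) g‖) ∧
    (S2 G.lam (3 / 8) (io (wV G.ω (Vf G.ω g))) ∧
      N2 G.lam (3 / 8) (io (wV G.ω (Vf G.ω g))) ≤ ‖LT G.ω G.lam (3 / 8) g‖) := by
  obtain ⟨s, e⟩ := LT_N2 G.lamOK (show (3 / 8 : ℝ) ≤ 1 by norm_num) g
  obtain ⟨⟨a1, a2⟩, ⟨b1, b2⟩⟩ := S2_iuV G.lw.h1 G.ω s
  rw [e] at a2 b2
  rw [one_mul] at b2
  exact ⟨⟨a1, a2⟩, ⟨b1, b2⟩⟩

private theorem uV_dz' (G : Geo H) (g : HH H) (n : ℤ) :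
    DZ (uV G.ω (Vf G.ω g) n) (kI G.ω n • (iota (wV G.ω (Vf G.ω g) n) : Z2 H) - g n) := by
  have h := uV_dz G.ω (V := Vf G.ω g)
    (V1 := fun n => ka G.ω n • (iota (Vf G.ω g n) : Z2 H) - g n) (Vf_dz G.ω g n)
  rw [sub_sub_cancel] at h
  exact h

/-- **The symmetrised vortex force.** Proof: `T3_sym` with `v = uV (Vf g)`, `w = wV (Vf g)`, `om = g`,
`v', w', om'` for `g'` (`wV_dz`, `uV_dz` with `Vf_dz`, `wV_zero`, `vel_half`), and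
`g := pc (uV f) za`, `h := pc (-wV f) za` (`c θ_z`, `c θ_y`; `tZ_io`, `tY_io`), where
`b(ζ a om, u'; f) = T3 (io g) w' om + T3 (io h) v' om` by `bf_T3`, `Geo.za_pz`, `T3_mul`, `Geo.za_cj`,
and `io (pc p c) = pz (io p) c`. Derivatives: `(uV f)' = kI • wV f - ka • f + f1`, `(wV f)' = -kI • uV f`
(`uV_dz`, `wV_dz`), `pc_dz`; `h(0) = 0` (`wV_zero`), both vanish at `H` since `ζ(H) = 0` (`G.ζH`).
The last two norms: `|k| |g|`, `|k| |h|` by `cvm_S1` with `s = 1` (`S1 lam 1 za`), the other terms with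
`s = 0`; in total `≤ C (N2 1 f + N2 0 f1)` (sup norms), `TFn.sup`, `TFn.sup1`.
`N2 (3/8) (io (uV (Vf g))) ≤ 2 ‖LT (3/8) g‖` (`S2_iuV`, `LT_N2`). -/
theorem sym_bd (G : Geo H) : ∃ C, 0 ≤ C ∧ ∀ {τ n0 : ℝ} (_ : 0 < τ) (_ : τ ≤ 1) {f f1 : ℤ → CI H}
    {f2 : ℤ → Z2 H} (_ : TFn G τ n0 f f1 f2) (g g' : HH H),
    ‖bf G.ω (⇑(Ms G.ζ (cm G.a g))) (uV G.ω (Vf G.ω g')) (wV G.ω (Vf G.ω g')) (io f) +
      bf G.ω (⇑(Ms G.ζ (cm G.a g'))) (uV G.ω (Vf G.ω g)) (wV G.ω (Vf G.ω g)) (io f)‖ ≤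
      C * n0 * τ ^ (-(15 / 16) : ℝ) * (‖LT G.ω G.lam (3 / 8) g‖ * ‖LT G.ω G.lam (3 / 8) g'‖) := by
  obtain ⟨C, hC, hfam⟩ := fam_bd G
  have hc0 := CP_nonneg (lam := G.lam) (3 / 8 + 3 / 8 + 0)
  have hs0 : 0 ≤ √(H⁻¹ + 2) := Real.sqrt_nonneg _
  refine ⟨9 * (CP G.lam (3 / 8 + 3 / 8 + 0) * (C * (2 + √(H⁻¹ + 2)))),
    mul_nonneg (by norm_num) (mul_nonneg hc0 (mul_nonneg hC (by linarith))), ?_⟩
  intro τ n0 hτ hτ1 f f1 f2 hf g g'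
  have h1 := G.lw.h1
  have w := G.lw
  have hN : (0:ℝ) ≤ G.N₀ := le_trans zero_le_one G.hN
  obtain ⟨sf, nf⟩ := TFn.sup G hτ hf
  obtain ⟨sf1, nf1⟩ := TFn.sup1 G hτ hτ1 hf
  obtain ⟨g1, k1, dg, dh, sr, sr', nr⟩ := hfam hf.d1 sf sf1
  have pw' : PrW G.lam (3 / 8) (3 / 8) 0 :=
    G.prW (by norm_num) (by norm_num) le_rfl (by norm_num)
  obtain ⟨⟨sv, -⟩, ⟨sw, -⟩⟩ := vel_half h1 hN G.lam_le g
  obtain ⟨⟨sv', -⟩, ⟨sw', -⟩⟩ := vel_half h1 hN G.lam_le g'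
  obtain ⟨⟨-, nv⟩, ⟨-, nw⟩⟩ := vel_LT G g
  obtain ⟨⟨-, nv'⟩, ⟨-, nw'⟩⟩ := vel_LT G g'
  have sza0 : Summable fun n => ‖G.za n‖ := S1_abs w zero_le_one G.za_s1
  obtain ⟨⟨su1, -⟩, ⟨sw1, -⟩⟩ := S2_uV h1 G.ω sf
  have sw1' : S2 G.lam 1 (fun n => -wV G.ω f n) := S2_neg.2 sw1
  have sg : S2 G.lam (1 / 4) (io (pc (uV G.ω f) G.za)) :=
    (S2_mono h1 (by norm_num) (S2_iota h1 (pc_one G su1 G.za_s1).1).1).1
  have sh : S2 G.lam (1 / 4) (io (pc (fun n => -wV G.ω f n) G.za)) :=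
    (S2_mono h1 (by norm_num) (S2_iota h1 (pc_one G sw1' G.za_s1).1).1).1
  have zaH : ∀ n, ex (G.za n) H = 0 := fun n => by
    show ex (G.ζ * G.a n) H = 0
    rw [ex_mul, G.ζH, zero_mul]
  have q0 : ∀ n, ex (-wV G.ω f n) 0 = 0 := fun n => by rw [ex_neg, wV_zero, neg_zero]
  rw [bf_za G sf g g', bf_za G sf g' g]
  refine (T3_sym (ω := G.ω) G.pw pw' (wV_dz G.ω (Vf G.ω g)) (uV_dz' G g) (wV_dz G.ω (Vf G.ω g'))
    (uV_dz' G g') dg dh (wV_zero G.ω (Vf G.ω g)) (wV_zero G.ω (Vf G.ω g'))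
    (pc_ex (S2_sq w zero_le_one sw1') sza0 (Or.inl q0))
    (pc_ex (S2_sq w zero_le_one su1) sza0 (Or.inr zaH))
    (pc_ex (S2_sq w zero_le_one sw1') sza0 (Or.inr zaH))
    sv sw sv' sw' (S2l2 g).1 (S2l2 g').1 sg sh sr sr').trans ?_
  exact alg1 hc0 nr hC nf nf1 nv nw nv' nw' (add_nonneg (N2_nonneg _ _) (N2_nonneg _ _))
    (N2_nonneg _ _) (N2_nonneg _ _) (N2_nonneg _ _) (N2_nonneg _ _)

private theorem half_aux {b : ℂ} {C n0 T L : ℝ} (h : ‖b + b‖ ≤ C * n0 * T * (L * L)) :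
    ‖b‖ ≤ C / 2 * n0 * T * L ^ 2 := by
  have e : ‖b + b‖ = 2 * ‖b‖ := by
    rw [← two_mul, norm_mul]
    norm_num
  rw [e] at h
  nlinarith

/-- **VV-term**: `sym_bd` with `g' = g`. -/
theorem vv_bd (G : Geo H) : ∃ C, 0 ≤ C ∧ ∀ {τ n0 : ℝ} (_ : 0 < τ) (_ : τ ≤ 1) {f f1 : ℤ → CI H}
    {f2 : ℤ → Z2 H} (_ : TFn G τ n0 f f1 f2) (g : HH H),
    ‖bf G.ω (⇑(Ms G.ζ (cm G.a g))) (uV G.ω (Vf G.ω g)) (wV G.ω (Vf G.ω g)) (io f)‖ ≤
      C * n0 * τ ^ (-(15 / 16) : ℝ) * ‖LT G.ω G.lam (3 / 8) g‖ ^ 2 := by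
  obtain ⟨C, hC, h⟩ := sym_bd G
  exact ⟨C / 2, by linarith, fun hτ hτ1 _ _ _ hf g => half_aux (h hτ hτ1 hf g g)⟩

private theorem alg2 {s b : ℂ} {C CL c K n0 T L M Q nw nv Fq Nm : ℝ} (hC : 0 ≤ C) (hc : 0 ≤ c)
    (hK : 0 ≤ K) (n0n : 0 ≤ n0) (T0 : 0 ≤ T) (L0 : 0 ≤ L) (Q0 : 0 ≤ Q) (h1 : ‖s + b‖ ≤ C * n0 * T * (L * M))
    (hM : M ≤ CL * Q) (h2 : ‖b‖ ≤ c * Nm * (2 * nw + nv) * Fq) (hNm : Nm ≤ K * Q) (hw : nw ≤ L)
    (hv : nv ≤ 2 * L) (hF : Fq ≤ 2 * n0 * T) (nw0 : 0 ≤ nw) (nv0 : 0 ≤ nv)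
    (Fq0 : 0 ≤ Fq) : ‖s‖ ≤ (C * CL + 8 * (c * K)) * n0 * T * (L * Q) := by
  have e1 : ‖s‖ ≤ ‖s + b‖ + ‖b‖ := by
    have := norm_sub_le (s + b) b
    rwa [add_sub_cancel_right] at this
  have a1 : C * n0 * T * (L * M) ≤ C * n0 * T * (L * (CL * Q)) :=
    mul_le_mul_of_nonneg_left (mul_le_mul_of_nonneg_left hM L0)
      (mul_nonneg (mul_nonneg hC n0n) T0)
  have a2 : c * Nm ≤ c * (K * Q) := mul_le_mul_of_nonneg_left hNm hc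
  have a3 : c * Nm * (2 * nw + nv) ≤ c * (K * Q) * (4 * L) :=
    mul_le_mul a2 (by linarith) (by linarith) (mul_nonneg hc (mul_nonneg hK Q0))
  have a4 : c * Nm * (2 * nw + nv) * Fq ≤ c * (K * Q) * (4 * L) * (2 * n0 * T) :=
    mul_le_mul a3 hF Fq0 (mul_nonneg (mul_nonneg hc (mul_nonneg hK Q0)) (by linarith))
  calc ‖s‖ ≤ C * n0 * T * (L * (CL * Q)) + c * (K * Q) * (4 * L) * (2 * n0 * T) := by
        linarith
    _ = _ := by ring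

/-- **Mixed term.** `b(ζ a g, u[T q]; f) = (sym) - b(ζ a q, u[T g]; f)`; the last term is bounded by
`C |q| N_{3/8,2}(T g) N_{1/4,∞}(f)` (`bf_le'` with weights `0, 3/8, 1/4`; `N_{1/4,∞}(f) ≤ N_{1,∞}(f)`,
`TFn.sup`), and `‖LT (3/8) q‖ ≤ C ‖q‖` (`LamOK.norm_LT_le`). -/
theorem mix_bd (G : Geo H) : ∃ C, 0 ≤ C ∧ ∀ {τ n0 : ℝ} (_ : 0 < τ) (_ : τ ≤ 1) {f f1 : ℤ → CI H}
    {f2 : ℤ → Z2 H} (_ : TFn G τ n0 f f1 f2) (g q : HH H),
    ‖bf G.ω (⇑(Ms G.ζ (cm G.a g))) (uV G.ω (Vf G.ω q)) (wV G.ω (Vf G.ω q)) (io f)‖ ≤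
      C * n0 * τ ^ (-(15 / 16) : ℝ) * (‖LT G.ω G.lam (3 / 8) g‖ * ‖q‖) := by
  obtain ⟨C, hC, h⟩ := sym_bd G
  have hc0 := CP_nonneg (lam := G.lam) (0 + 3 / 8 + 1 / 4)
  have hH0 := hH.out
  have hω := G.ω_pos
  have hN : (0:ℝ) ≤ G.N₀ := le_trans zero_le_one G.hN
  have hCL : 0 ≤ (G.N₀ + G.ω) * (H + G.ω⁻¹) :=
    mul_nonneg (by linarith) (add_nonneg hH0.le (inv_nonneg.2 hω.le))
  have hK : 0 ≤ ‖(Ms G.ζ ∘L cm G.a : HH H →L[ℂ] HH H)‖ := norm_nonneg _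
  refine ⟨C * ((G.N₀ + G.ω) * (H + G.ω⁻¹)) +
    8 * (CP G.lam (0 + 3 / 8 + 1 / 4) * ‖(Ms G.ζ ∘L cm G.a : HH H →L[ℂ] HH H)‖),
    add_nonneg (mul_nonneg hC hCL) (mul_nonneg (by norm_num) (mul_nonneg hc0 hK)), ?_⟩
  intro τ n0 hτ hτ1 f f1 f2 hf g q
  have h1 := G.lw.h1
  obtain ⟨sf, nf⟩ := TFn.sup G hτ hf
  obtain ⟨sf4, nf4⟩ := S2_mono h1 (show (1 / 4 : ℝ) ≤ 1 by norm_num) sf
  have pw' : PrW G.lam 0 (3 / 8) (1 / 4) :=
    G.prW le_rfl (by norm_num) (by norm_num) (by norm_num)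
  obtain ⟨⟨sv, -⟩, ⟨sw, -⟩⟩ := vel_half h1 hN G.lam_le g
  obtain ⟨⟨tv, nv⟩, ⟨tw, nw⟩⟩ := vel_LT G g
  obtain ⟨so, no⟩ := S2l2 (lam := G.lam) (Ms G.ζ (cm G.a q))
  have b2 := bf_le' pw' G.pw G.ω so tv tw sf4 so sv sw (S2_iota h1 sf4).1
  have hNm : N2 G.lam 0 (⇑(Ms G.ζ (cm G.a q))) ≤
      ‖(Ms G.ζ ∘L cm G.a : HH H →L[ℂ] HH H)‖ * ‖q‖ := by
    rw [no]
    exact (Ms G.ζ ∘L cm G.a).le_opNorm q
  have hM : ‖LT G.ω G.lam (3 / 8) q‖ ≤ (G.N₀ + G.ω) * (H + G.ω⁻¹) * ‖q‖ :=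
    (LT G.ω G.lam (3 / 8)).le_of_opNorm_le (G.lamOK.norm_LT_le (by norm_num)) q
  exact alg2 hC hc0 hK hf.nn (Real.rpow_nonneg hτ.le _) (norm_nonneg _) (norm_nonneg _)
    (h hτ hτ1 hf g q) hM b2 hNm nw nv (nf4.trans nf) (N2_nonneg _ _) (N2_nonneg _ _)
    (N2_nonneg _ _)

end

end Pool.Agent.Lib.MP_79abb3_an.SC
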