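import Pool.Agent.Lib.MP_79abb3_an.SC.FlDef
import Pool.Agent.Lib.MP_79abb3_an.SC.FlYd

/-!
MP_79abb3_an, simply connected domains, block (iii), y-inequality (e): the boundary term.
-/

set_option autoImplicit false
set_option linter.unusedSectionVars false

open MeasureTheory Set Filter Topology Function
open scoped ENNReal InnerProductSpace

namespace Pool.Agent.Lib.MP_79abb3_an.SC

open Pool.Agent.Lib.MP_79abb3_an.P25 Pool.Agent.Lib.MP_79abb3_an.FW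

section
variable {H : ℝ} [hH : Fact (0 < H)]

/-- the `ℓ²` norm of the boundary values `(T g)(0)` -/
noncomputable def trn (ω : ℝ) (g : HH H) : ℝ := √(∑' n, ‖ex (Vf ω g n : CI H) 0‖ ^ 2)

theorem trn_N2 (lam : ℤ → ℝ) (ω : ℝ) (g : HH H) :
    trn ω g = N2 lam 0 (fun n => ex (Vf ω g n : CI H) 0) := by
  unfold trn N2
  congr 1
  refine tsum_congr fun n => ?_
  rw [Real.rpow_zero, one_mul]

/-- Proof: `‖ex F 0‖ ≤ ‖F‖` and `N_{1/2,∞}(T g) ≤ C |g|` (`S2_Vf`). -/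
theorem trn_le (G : Geo H) : ∃ C, 0 ≤ C ∧ ∀ g : HH H,
    (Summable fun n => ‖ex (Vf G.ω g n : CI H) 0‖ ^ 2) ∧ trn G.ω g ≤ C * ‖g‖ := by
  refine ⟨√(G.N₀ * (H + 1)), Real.sqrt_nonneg _, fun g => ?_⟩
  have h1 := G.lw.h1
  have hN : 0 ≤ G.N₀ := zero_le_one.trans G.hN
  obtain ⟨sg, ng⟩ := S2l2 (lam := G.lam) g
  obtain ⟨⟨s, n⟩, -⟩ := S2_Vf (ω := G.ω) h1 hN G.lam_le sg
  obtain ⟨s0, n0⟩ := S2_mono h1 (show (0:ℝ) ≤ 1 / 2 by norm_num) s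
  obtain ⟨s2, n2⟩ := S2_dom (s := 0) (x := fun n => ex (Vf G.ω g n : CI H) 0)
    (y := Vf G.ω g) h1 zero_le_one (fun n => by rw [one_mul]; exact norm_ex_le _ _) s0
  refine ⟨?_, ?_⟩
  · have h3 := s2
    unfold S2 at h3
    simpa only [Real.rpow_zero, one_mul] using h3
  · rw [trn_N2 G.lam, ← ng]
    rw [one_mul] at n2
    exact n2.trans (n0.trans n)

private theorem inner_T2' (k : ℝ) (f g : Z2 H) : ⟪f, T2 k g⟫_ℂ = ⟪E2 k f, g⟫_ℂ := by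
  rw [← inner_conj_symm, inner_T2, inner_conj_symm]

/-- One mode: if `⟪h, T y⟫ = ⟪F, y⟫` for all `y` with `(T y)(0) = 0`, then
`⟪h, T g⟫ - ⟪F, g⟫ = - conj(F(0)) (T g)(0)` for all `g`. Proof: `E h - F` is orthogonal to the range of
`P2`, so `F = E h + c e^{-|k| z}` (`P2_apply`, `gk`), `c = F(0)` since `(E h)(0) = 0` (both sides are
continuous functions), and `⟪e^{-|k|z}, g⟫ = (T g)(0)` (`Tz_zero_eq`), `inner_T2`. -/
theorem bdy_mode (k : ℝ) {h : Z2 H} {F : CI H}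
    (hF : ∀ y : Z2 H, P2 k y = y → ⟪h, T2 k y⟫_ℂ = ⟪(iota F : Z2 H), y⟫_ℂ) (g : Z2 H) :
    ⟪h, T2 k g⟫_ℂ - ⟪(iota F : Z2 H), g⟫_ℂ = -(star (ex F 0) * ex (Tz k g) 0) := by
  have h1 : P2 k (E2 k h - iota F) = 0 := by
    refine ext_inner_right ℂ fun y => ?_
    rw [inner_P2, inner_sub_left, ← inner_T2', hF _ (P2_P2 k y), sub_self, inner_zero_left]
  have h2 := P2_apply k (E2 k h - iota F)
  rw [h1] at h2
  have h3 : ∃ c : ℂ, E2 k h - iota F = c • (iota (fe (-|k|)) : Z2 H) := by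
    refine ⟨⟪gk k, E2 k h - iota F⟫_ℂ * ((‖(iota (fe (-|k|)) : Z2 H)‖⁻¹ : ℝ) : ℂ), ?_⟩
    rw [mul_smul]
    exact sub_eq_zero.1 h2.symm
  obtain ⟨c, hc⟩ := h3
  have h4 : Ez k h - F = c • (fe (-|k|) : CI H) := by
    refine iota_injective ?_
    rw [map_sub, map_smul]
    exact hc
  have h5 : -ex F 0 = c := by
    have h6 : ex (Ez k h - F) 0 = ex (c • (fe (-|k|) : CI H)) 0 := congrArg (fun f => ex f 0) h4
    have h7 : ex (Ez k h - F) 0 = ex (Ez k h) 0 - ex F 0 := rfl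
    have h8 : ex (c • (fe (-|k|) : CI H)) 0 = c * ex (fe (-|k|) : CI H) 0 := by
      rw [ex_smul]
    rw [h7, h8, Ez_zero, ex_fe_zero, mul_one, zero_sub] at h6
    exact h6
  rw [inner_T2', ← inner_sub_left, hc, inner_smul_left, ← Tz_zero_eq, ← h5]
  show star (-ex F 0) * _ = _
  rw [star_neg, neg_mul]

/-- The continuous representative of `cm a G'` for a family of continuous functions. -/
private theorem pz_io_pc {β c : ℤ → CI H} (sβ : Summable fun n => ‖β n‖ ^ 2) (sc : Summable fun n => ‖c n‖) :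
    pz (io β) c = io (pc β c) := by
  funext n
  have h0 : S2 (fun _ : ℤ => (1:ℝ)) 0 β := by
    unfold S2; simpa only [Real.rpow_zero, one_mul] using sβ
  have hs : Summable fun j => ‖β j * c (n - j)‖ := by
    have hw : LW (fun _ : ℤ => (1:ℝ)) := ⟨fun _ => le_refl _, fun _ => rfl, fun _ _ => by norm_num⟩
    have h2 : S1 (fun _ : ℤ => (1:ℝ)) |(0:ℝ)| c := by
      rw [abs_zero]; exact S1_zero_iff.2 sc
    exact (cvm_S1 hw zero_le_one mc_bd h0 h2).1 n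
  show ∑' j, mz (c (n - j)) (iota (β j)) = iota (∑' j, β j * c (n - j))
  rw [iota.map_tsum hs.of_norm]
  refine tsum_congr fun j => ?_
  rw [mz_iota, mul_comm]

/-- The continuous representative of a test function derivative: `G'_n = ka f_n - f1_n`. -/
private theorem tfn_rep {G : Geo H} {g' : HH H} {f1 : ℤ → CI H}
    (h : ∀ n, DZ (Vf G.ω g' n) (iota (f1 n))) :
    (⇑g' : ℤ → Z2 H) = io (fun n => ka G.ω n • Vf G.ω g' n - f1 n) := by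
  funext n
  have h1 := DZ.unique (h n) (Vf_dz G.ω g' n)
  rw [io_apply, map_sub, map_smul, h1]
  abel

private theorem tfn_beta {G : Geo H} {τ n0 : ℝ} (hτ : 0 < τ) (hτ1 : τ ≤ 1) {f f1 : ℤ → CI H}
    {f2 : ℤ → Z2 H} (h : TFn G τ n0 f f1 f2) :
    S2 G.lam 0 (fun n => ka G.ω n • f n - f1 n) ∧
      N2 G.lam 0 (fun n => ka G.ω n • f n - f1 n) ≤
        (2 + √(H⁻¹ + 2)) * n0 * τ ^ (-(15 / 16) : ℝ) := by
  obtain ⟨s1, n1⟩ := h.sup G hτ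
  obtain ⟨s2, n2⟩ := h.sup1 G hτ hτ1
  have hle : ∀ n, (G.lam n ^ (0:ℝ) * ‖ka G.ω n • f n‖) ^ 2 ≤ (G.lam n ^ (1:ℝ) * ‖f n‖) ^ 2 := by
    intro n
    have h3 : ‖ka G.ω n • f n‖ ≤ G.lam n * ‖f n‖ := by
      rw [norm_smul, norm_ka]
      exact mul_le_mul_of_nonneg_right (G.lam_k n) (norm_nonneg _)
    rw [Real.rpow_zero, one_mul, Real.rpow_one]
    exact pow_le_pow_left₀ (norm_nonneg _) h3 2
  have s3 : S2 G.lam 0 (fun n => ka G.ω n • f n) := s1.of_nonneg_of_le (fun _ => sq_nonneg _) hle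
  have n3 : N2 G.lam 0 (fun n => ka G.ω n • f n) ≤ N2 G.lam 1 f :=
    Real.sqrt_le_sqrt (s3.tsum_le_tsum hle s1)
  have h4 := S2_add G.lw.h1 s3 (S2_neg.2 s2)
  rw [N2_neg] at h4
  have e : (fun n => ka G.ω n • f n - f1 n) = fun n => ka G.ω n • f n + -f1 n := by
    funext n; rw [sub_eq_add_neg]
  rw [e]
  refine ⟨h4.1, h4.2.trans ?_⟩
  have h5 : (2 + √(H⁻¹ + 2)) * n0 * τ ^ (-(15 / 16) : ℝ) =
      2 * n0 * τ ^ (-(15 / 16) : ℝ) + √(H⁻¹ + 2) * n0 * τ ^ (-(15 / 16) : ℝ) := by ring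
  rw [h5]
  exact add_le_add (n3.trans n1) n2

/-- `⟪AS τ ψ, T y⟫ = ⟪a Qd (HS τ ψ), y⟫` for `P y = y`. -/
private theorem as_tt (G : Geo H) {τ : ℝ} (hτ : 0 < τ) (ψ y : HH H) (hy : PP G.ω y = y) :
    ⟪AS G.D.K τ ψ, TT G.ω y⟫_ℂ = ⟪cm G.a (G.Qd (HS G.D.K τ ψ)), y⟫_ℂ := by
  have h1 : G.Qd (G.qd y) = y := G.Qd_qd hy
  have h2 : Kh G.D.K (AS G.D.K τ ψ) = HS G.D.K τ ψ := by
    rw [← Kh_AS G.D.K_nonneg hτ]; rfl
  calc ⟪AS G.D.K τ ψ, TT G.ω y⟫_ℂ = ⟪AS G.D.K τ ψ, TT G.ω (G.Qd (G.qd y))⟫_ℂ := by rw [h1]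
    _ = ⟪HS G.D.K τ ψ, G.qd y⟫_ℂ := by rw [G.TT_Qd, ← Kh_inner, h2]
    _ = ⟪G.Qd (HS G.D.K τ ψ), cm G.a (G.Qd (G.qd y))⟫_ℂ := (G.inner_Qd _ _).symm
    _ = _ := by rw [h1, inner_cm G.ha.c]

private theorem as_mode (G : Geo H) {τ : ℝ} (hτ : 0 < τ) (ψ : HH H) (n : ℤ) (y : Z2 H)
    (hy : P2 (G.ω * n) y = y) :
    ⟪AS G.D.K τ ψ n, T2 (G.ω * n) y⟫_ℂ = ⟪cm G.a (G.Qd (HS G.D.K τ ψ)) n, y⟫_ℂ := by
  have hP : PP G.ω (lp.single 2 n y : HH H) = lp.single 2 n y := by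
    refine lp.ext (funext fun m => ?_)
    rw [PP_apply]
    by_cases hm : m = n
    · subst hm; rw [lp.single_apply_self]; exact hy
    · rw [lp.single_apply_ne _ _ _ hm, map_zero]
  have h1 := as_tt G hτ ψ (lp.single 2 n y) hP
  rw [Geo.inner_TT', lp.inner_single_right, lp.inner_single_right, EE_apply, ← inner_T2'] at h1
  exact h1

private theorem hasSum_fam_congr {u v : ℤ → ℂ} {D : ℂ} (h : ∀ n, u n = v n) : HasSum u D ↔ HasSum v D := by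
  rw [funext h]

private theorem trace_cs {v t : ℤ → ℂ} {D : ℂ} (sv : Summable fun n => ‖v n‖ ^ 2)
    (st : Summable fun n => ‖t n‖ ^ 2) (hs : HasSum (fun n => -(star (v n) * t n)) D) :
    ‖D‖ ≤ √(∑' n, ‖v n‖ ^ 2) * √(∑' n, ‖t n‖ ^ 2) := by
  obtain ⟨s1, h1⟩ := cs_tsum (x := fun n => ‖v n‖) (y := fun n => ‖t n‖)
    (fun _ => norm_nonneg _) (fun _ => norm_nonneg _) sv st
  have e : ∀ n, ‖-(star (v n) * t n)‖ = ‖v n‖ * ‖t n‖ := fun n => by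
    rw [norm_neg, norm_mul, norm_star]
  rw [← hs.tsum_eq]
  refine (norm_tsum_le_tsum_norm ?_).trans ?_
  · simpa only [e] using s1
  · simpa only [e] using h1

/-- **The boundary term.** Let `ψ' = HS τ ψ`, `G' = Qd ψ'`, `f = T G'`, so that `G'_n = ka f_n - f1_n` is
a continuous family `β` (`DZ` is unique: `Vf_dz`), `a G' = io (pc β a)` (`cm_pz`). For `y` with `P y = y`,
`y = Qd φ` (`Qd_qd`): `⟪AS τ ψ, T y⟫ = ⟪AS τ ψ, Kh φ⟫ = ⟪HS τ ψ, φ⟫ = ⟪G', a y⟫ = ⟪a G', y⟫`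
(`TT_Qd`, `inner_Qd`, `inner_cm`, `Kh_inner`, the relation of `AS`, `HS`, `Kh` in LaSG). Take `y` with one
nonzero mode and use `bdy_mode`; sum over the modes (`lp.hasSum_inner`). The `ℓ²` norm of the values
`(a G')_n(0)` is at most `N2 0 (pc β a) ≤ C N2 0 β ≤ C (N2 1 f + N2 0 f1)` (`cvm_S1`), then `TFn.sup`,
`TFn.sup1`, and Cauchy-Schwarz (`cs_tsum`). -/
theorem bdy_bd (G : Geo H) : ∃ C, 0 ≤ C ∧ ∀ {τ n0 : ℝ} (_ : 0 < τ) (_ : τ ≤ 1) (ψ : HH H)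
    {f1 : ℤ → CI H} {f2 : ℤ → Z2 H} (_ : TFn G τ n0 (Vf G.ω (⇑(G.Qd (HS G.D.K τ ψ)))) f1 f2)
    (g : HH H),
    ‖⟪AS G.D.K τ ψ, TT G.ω g⟫_ℂ - ⟪G.Qd (HS G.D.K τ ψ), cm G.a g⟫_ℂ‖ ≤
      C * n0 * τ ^ (-(15 / 16) : ℝ) * trn G.ω g := by
  have hC : 0 ≤ N1 G.lam |(0:ℝ)| G.a * (2 + √(H⁻¹ + 2)) :=
    mul_nonneg (N1_nonneg G.lw _ _) (by positivity)
  refine ⟨N1 G.lam |(0:ℝ)| G.a * (2 + √(H⁻¹ + 2)), hC, ?_⟩
  intro τ n0 hτ hτ1 ψ f1 f2 hT g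
  have ha : Summable fun n => ‖G.a n‖ := G.ha.c.s0
  have ha1 : S1 G.lam |(0:ℝ)| G.a := by rw [abs_zero]; exact S1_zero_iff.2 ha
  obtain ⟨sβ, nβ⟩ := tfn_beta hτ hτ1 hT
  have hrep := tfn_rep (G := G) hT.d1
  generalize (fun n => ka G.ω n • Vf G.ω (⇑(G.Qd (HS G.D.K τ ψ))) n - f1 n) = β at sβ nβ hrep
  obtain ⟨-, sF, nF⟩ := cvm_S1 (m := fun f g : CI H => f * g) G.lw zero_le_one mc_bd sβ ha1
  have sβ' : Summable fun n => ‖β n‖ ^ 2 := S2_sq G.lw le_rfl sβ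
  have hcm : (⇑(cm G.a (G.Qd (HS G.D.K τ ψ))) : ℤ → Z2 H) = io (pc β G.a) := by
    rw [cmPz ha, hrep, pz_io_pc sβ' ha]
  have hF : S2 G.lam 0 (pc β G.a) := sF
  have nF' : N2 G.lam 0 (pc β G.a) ≤ 1 * N1 G.lam |(0:ℝ)| G.a * N2 G.lam 0 β := nF
  obtain ⟨sv, nv⟩ := S2_dom (s := 0) (x := fun n => ex (pc β G.a n : CI H) 0)
    (y := pc β G.a) G.lw.h1 zero_le_one (fun n => by rw [one_mul]; exact norm_ex_le _ _) hF
  generalize pc β G.a = F at hcm hF nF' sv nv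
  obtain ⟨C1, -, hC1⟩ := trn_le G
  have st := (hC1 g).1
  have hm : ∀ n, ⟪AS G.D.K τ ψ n, TT G.ω g n⟫_ℂ - ⟪cm G.a (G.Qd (HS G.D.K τ ψ)) n, g n⟫_ℂ =
      -(star (ex (F n) 0) * ex (Vf G.ω g n) 0) := by
    intro n
    have e1 : cm G.a (G.Qd (HS G.D.K τ ψ)) n = iota (F n) := congrFun hcm n
    rw [TT_apply, e1]
    refine bdy_mode (G.ω * n) (fun y hy => ?_) (g n)
    rw [as_mode G hτ ψ n y hy, e1]
  have hs := (lp.hasSum_inner (𝕜 := ℂ) (AS G.D.K τ ψ) (TT G.ω g)).sub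
    (lp.hasSum_inner (𝕜 := ℂ) (cm G.a (G.Qd (HS G.D.K τ ψ))) g)
  rw [← inner_cm G.ha.c]
  have hs' : HasSum (fun n => -(star (ex (F n) 0) * ex (Vf G.ω g n) 0))
      (⟪AS G.D.K τ ψ, TT G.ω g⟫_ℂ - ⟪cm G.a (G.Qd (HS G.D.K τ ψ)), g⟫_ℂ) :=
    (hasSum_fam_congr hm).1 hs
  have sv' : Summable fun n => ‖ex (F n : CI H) 0‖ ^ 2 := S2_sq G.lw le_rfl sv
  have h1 := trace_cs sv' st hs'
  have h2 : √(∑' n, ‖ex (F n : CI H) 0‖ ^ 2) ≤
      N1 G.lam |(0:ℝ)| G.a * (2 + √(H⁻¹ + 2)) * n0 * τ ^ (-(15 / 16) : ℝ) := by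
    have h3 : √(∑' n, ‖ex (F n : CI H) 0‖ ^ 2) = N2 G.lam 0 (fun n => ex (F n : CI H) 0) := by
      unfold N2
      congr 1
      refine tsum_congr fun n => ?_
      rw [Real.rpow_zero, one_mul]
    rw [h3]
    refine nv.trans ?_
    rw [one_mul]
    refine nF'.trans ?_
    rw [one_mul]
    refine (mul_le_mul_of_nonneg_left nβ (N1_nonneg G.lw _ _)).trans (le_of_eq ?_)
    ring
  exact h1.trans (mul_le_mul_of_nonneg_right h2 (Real.sqrt_nonneg _))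

private theorem sN_sum (N : ℕ) : (Summable fun n : ℤ => |sN N n| ^ 2) ∧ ∑' n : ℤ, |sN N n| ^ 2 ≤ 2 := by
  have h0 : ∀ n ∉ ({(N : ℤ), -(N : ℤ)} : Finset ℤ), |sN N n| ^ 2 = 0 := by
    intro n hn
    rw [Finset.mem_insert, Finset.mem_singleton, not_or] at hn
    rw [sN_zero hn.1 hn.2]; norm_num
  refine ⟨summable_of_ne_finset_zero h0, ?_⟩
  rw [tsum_eq_sum h0]
  calc ∑ n ∈ ({(N : ℤ), -(N : ℤ)} : Finset ℤ), |sN N n| ^ 2
      ≤ ∑ _n ∈ ({(N : ℤ), -(N : ℤ)} : Finset ℤ), (1 : ℝ) := by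
        refine Finset.sum_le_sum fun n _ => ?_
        exact pow_le_one₀ (abs_nonneg _) (sN_abs_le N n)
    _ ≤ 2 := by
        rw [Finset.sum_const, nsmul_eq_mul, mul_one]
        exact_mod_cast Finset.card_le_two

private theorem sN_N2 {lam : ℤ → ℝ} (N : ℕ) {A : ℝ} (hA : 0 ≤ A) :
    S2 lam 0 (fun n => -(Complex.I * ((A / 2 * sN N n : ℝ) : ℂ))) ∧
      N2 lam 0 (fun n => -(Complex.I * ((A / 2 * sN N n : ℝ) : ℂ))) ≤ A := by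
  obtain ⟨s, h⟩ := sN_sum N
  have e : ∀ n, (lam n ^ (0:ℝ) * ‖-(Complex.I * ((A / 2 * sN N n : ℝ) : ℂ))‖) ^ 2 =
      (A / 2) ^ 2 * |sN N n| ^ 2 := by
    intro n
    rw [Real.rpow_zero, one_mul, norm_neg, norm_mul, Complex.norm_I, one_mul, Complex.norm_real,
      Real.norm_eq_abs, abs_mul, mul_pow, sq_abs (A / 2)]
  refine ⟨?_, ?_⟩
  · unfold S2; simp only [e]; exact s.mul_left _
  · unfold N2; simp only [e]
    rw [tsum_mul_left]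
    refine Real.sqrt_le_iff.2 ⟨hA, ?_⟩
    nlinarith [sq_nonneg A]

/-- The boundary values of `V` in the flushing phase: `V(0) = -T(ζ J q)(0) - (±iA/2)`. Proof:
`gV = Qd h + gL - qh`, `(T Qd h)(0) = 0` (`PP_Qd`, `P2_iff`), `h.tr0`, `trn_le`. -/
theorem FlS.trn_le {G : Geo H} : ∃ C, 0 ≤ C ∧ ∀ {N : ℕ} {A : ℝ → ℝ} {b : ℝ} {B : Bg H}
    {x : ℝ → HH H × HH H} (_ : FlS G N A b B x), ∀ t ∈ Icc 0 b,
    trn G.ω (G.gV B t (x t)) ≤ C * (‖G.qh (x t)‖ + A t) := by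
  obtain ⟨C, hC, h⟩ := SC.trn_le G
  refine ⟨C + 1, by linarith, ?_⟩
  intro N A b B x hF t ht
  have hA := hF.A0 t ht
  have hq := h (G.qh (x t))
  have e1 : ∀ n, ex (Vf G.ω (⇑(G.gV B t (x t))) n : CI H) 0 =
      -(Complex.I * ((A t / 2 * sN N n : ℝ) : ℂ)) + -ex (Vf G.ω (⇑(G.qh (x t))) n : CI H) 0 := by
    intro n
    have h1 : ex (Tz (G.ω * n) (G.Qd (x t).2 n) : CI H) 0 = 0 := by
      rw [← P2_iff, ← PP_apply, G.PP_Qd]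
    have h2 : (G.gV B t (x t) : HH H) n = G.Qd (x t).2 n + B.gL t n - G.qh (x t) n := rfl
    have h3 := hF.tr0 t ht n
    unfold Vf at h3 ⊢
    rw [h2, map_sub, map_add]
    have h4 : ex (Tz (G.ω * n) (G.Qd (x t).2 n) + Tz (G.ω * n) (B.gL t n) -
        Tz (G.ω * n) (G.qh (x t) n) : CI H) 0 = ex (Tz (G.ω * n) (G.Qd (x t).2 n) : CI H) 0 +
        ex (Tz (G.ω * n) (B.gL t n) : CI H) 0 - ex (Tz (G.ω * n) (G.qh (x t) n) : CI H) 0 := rfl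
    rw [h4, h1, h3, zero_add, sub_eq_add_neg]
  obtain ⟨s1, n1⟩ := sN_N2 (lam := G.lam) N hA
  have s2 : S2 G.lam 0 (fun n => ex (Vf G.ω (⇑(G.qh (x t))) n : CI H) 0) := by
    unfold S2; simpa only [Real.rpow_zero, one_mul] using hq.1
  have h5 := (S2_add G.lw.h1 s1 (S2_neg.2 s2)).2
  have h51 : N2 G.lam 0 (fun n => -ex (Vf G.ω (⇑(G.qh (x t))) n : CI H) 0) =
      trn G.ω (G.qh (x t)) := by
    rw [trn_N2 G.lam]
    exact N2_neg 0 _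
  rw [h51] at h5
  have h52 : trn G.ω (G.gV B t (x t)) =
      N2 G.lam 0 (fun n => -(Complex.I * ((A t / 2 * sN N n : ℝ) : ℂ)) +
        -ex (Vf G.ω (⇑(G.qh (x t))) n : CI H) 0) := by
    rw [trn_N2 G.lam]
    exact congrArg (N2 G.lam 0) (funext e1)
  rw [h52]
  refine h5.trans ?_
  have h6 := hq.2
  have h7 := norm_nonneg (G.qh (x t))
  generalize ‖G.qh (x t)‖ = y at h6 h7 ⊢
  have h8 : 0 ≤ C * A t := mul_nonneg hC hA
  have h9 : (C + 1) * (y + A t) = C * y + y + C * A t + A t := by ring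
  rw [h9]
  linarith

end

end Pool.Agent.Lib.MP_79abb3_an.SC
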