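import Pool.Agent.Lib.MP_79abb3_an.SC.FlYa
import Pool.Agent.Lib.MP_79abb3_an.SC.FlYb
import Pool.Agent.Lib.MP_79abb3_an.SC.FlYe

/-!
MP_79abb3_an, simply connected domains, block (iii), y-inequality: the static estimate.
-/

set_option autoImplicit false
set_option linter.unusedSectionVars false

open MeasureTheory Set Filter Topology Function
open scoped ENNReal InnerProductSpace

namespace Pool.Agent.Lib.MP_79abb3_an.SC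

open Pool.Agent.Lib.MP_79abb3_an.P25 Pool.Agent.Lib.MP_79abb3_an.FW

theorem stat_alg {n0 Cb Cu Cm Cv p r t m y q s k0 k1 F0 F1 F2 a1 a2 a3 a4 a5 : ℝ}
    (hn : 0 ≤ n0) (hb : 0 ≤ Cb) (hu : 0 ≤ Cu) (hm : 0 ≤ Cm) (hv : 0 ≤ Cv) (hp : 0 ≤ p) (hr : 0 ≤ r)
    (ht : 0 ≤ t) (hm0 : 0 ≤ m) (hy : 0 ≤ y) (hq : 0 ≤ q) (hs : 0 ≤ s) (hk0 : 0 ≤ k0) (hk1 : 0 ≤ k1)
    (hF0 : F0 ≤ n0 * r) (hF1 : F1 ≤ n0 * t) (hF2 : F2 ≤ n0 * t)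
    (h1 : a1 ≤ Cb * n0 * p * s) (h2 : a2 ≤ Cu * (m * F0 + F1 + F2) * k0)
    (h3 : a3 ≤ Cm * n0 * p * (y * q)) (h4 : a4 ≤ Cv * n0 * p * y ^ 2)
    (h5 : a5 ≤ F0 * k1) :
    a1 + (a2 + (a3 + a4)) + a5 ≤
      (Cb + 2 * Cu + Cm + Cv + 1) * n0 * (p * (y ^ 2 + y * q + s) + (m * r + t) * k0 + r * k1) := by
  have e2 : a2 ≤ 2 * Cu * n0 * ((m * r + t) * k0) := by
    refine h2.trans ?_
    have h6 : m * F0 ≤ m * (n0 * r) := mul_le_mul_of_nonneg_left hF0 hm0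
    have h7 : m * F0 + F1 + F2 ≤ 2 * n0 * (m * r + t) := by
      have h8 : 0 ≤ n0 * (m * r) := by positivity
      linarith
    calc Cu * (m * F0 + F1 + F2) * k0 ≤ Cu * (2 * n0 * (m * r + t)) * k0 :=
          mul_le_mul_of_nonneg_right (mul_le_mul_of_nonneg_left h7 hu) hk0
      _ = _ := by ring
  have e5 : a5 ≤ n0 * (r * k1) := by
    refine h5.trans ?_
    calc F0 * k1 ≤ n0 * r * k1 := mul_le_mul_of_nonneg_right hF0 hk1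
      _ = _ := by ring
  have p1 : 0 ≤ n0 * (p * s) := by positivity
  have p2 : 0 ≤ n0 * ((m * r + t) * k0) := by positivity
  have p3 : 0 ≤ n0 * (p * (y * q)) := by positivity
  have p4 : 0 ≤ n0 * (p * y ^ 2) := by positivity
  have p5 : 0 ≤ n0 * (r * k1) := by positivity
  have q1 : a1 ≤ Cb * (n0 * (p * s)) := h1.trans (le_of_eq (by ring))
  have q2 : a2 ≤ 2 * Cu * (n0 * ((m * r + t) * k0)) := e2.trans (le_of_eq (by ring))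
  have q3 : a3 ≤ Cm * (n0 * (p * (y * q))) := h3.trans (le_of_eq (by ring))
  have q4 : a4 ≤ Cv * (n0 * (p * y ^ 2)) := h4.trans (le_of_eq (by ring))
  have e : (Cb + 2 * Cu + Cm + Cv + 1) * n0 *
      (p * (y ^ 2 + y * q + s) + (m * r + t) * k0 + r * k1) =
      (Cb + 2 * Cu + Cm + Cv + 1) * (n0 * (p * s) + n0 * ((m * r + t) * k0) + n0 * (p * (y * q)) +
        n0 * (p * y ^ 2) + n0 * (r * k1)) := by ring
  rw [e]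
  clear e h1 h2 h3 h4 h5 e2
  generalize n0 * (p * s) = x1 at *
  generalize n0 * ((m * r + t) * k0) = x2 at *
  generalize n0 * (p * (y * q)) = x3 at *
  generalize n0 * (p * y ^ 2) = x4 at *
  generalize n0 * (r * k1) = x5 at *
  have r1 : Cb * x1 ≤ Cb * (x1 + x2 + x3 + x4 + x5) := mul_le_mul_of_nonneg_left (by linarith) hb
  have r2 : 2 * Cu * x2 ≤ 2 * Cu * (x1 + x2 + x3 + x4 + x5) :=
    mul_le_mul_of_nonneg_left (by linarith) (by linarith)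
  have r3 : Cm * x3 ≤ Cm * (x1 + x2 + x3 + x4 + x5) := mul_le_mul_of_nonneg_left (by linarith) hm
  have r4 : Cv * x4 ≤ Cv * (x1 + x2 + x3 + x4 + x5) := mul_le_mul_of_nonneg_left (by linarith) hv
  have e : (Cb + 2 * Cu + Cm + Cv + 1) * (x1 + x2 + x3 + x4 + x5) =
      Cb * (x1 + x2 + x3 + x4 + x5) + 2 * Cu * (x1 + x2 + x3 + x4 + x5) +
      Cm * (x1 + x2 + x3 + x4 + x5) + Cv * (x1 + x2 + x3 + x4 + x5) + (x1 + x2 + x3 + x4 + x5) := by ring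
  rw [e]
  linarith

theorem stat_tri {A B b D b2 b3 b4 : ℂ} (h : b = b2 + (b3 + b4)) :
    ‖A + (-B + b - D)‖ ≤ ‖A - B‖ + (‖b2‖ + (‖b3‖ + ‖b4‖)) + ‖D‖ := by
  have e : A + (-B + b - D) = (A - B) + (b2 + (b3 + b4)) - D := by rw [h]; ring
  rw [e]
  refine (norm_sub_le _ _).trans (add_le_add ?_ le_rfl)
  refine (norm_add_le _ _).trans (add_le_add le_rfl ?_)
  exact (norm_add_le _ _).trans (add_le_add le_rfl (norm_add_le _ _))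

section
variable {H : ℝ} [hH : Fact (0 < H)]

/-- the right-hand side of the static estimate: `τ^{-15/16} (y² + y |q| + tr) +
(m τ^{-3/16} + τ^{-11/16}) K₀ + τ^{-3/16} K₁` -/
noncomputable def yrhs (m τ y q s k0 k1 : ℝ) : ℝ :=
  τ ^ (-(15 / 16) : ℝ) * (y ^ 2 + y * q + s) +
    (m * τ ^ (-(3 / 16) : ℝ) + τ ^ (-(11 / 16) : ℝ)) * k0 + τ ^ (-(3 / 16) : ℝ) * k1

/-- Existence of the test functions (block (i), LaH2): for `f = S(τ) ψ = T (Qd (HS τ ψ))`. -/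
def Geo.TFex (G : Geo H) : Prop := ∃ C, 0 ≤ C ∧ ∀ τ, 0 < τ → τ ≤ 1 → ∀ ψ : HH H, ∃ f1 f2,
  TFn G τ (C * N2 G.lam (-(3 / 8)) ψ) (Vf G.ω (⇑(G.Qd (HS G.D.K τ ψ)))) f1 f2

/-- Splitting of the vortex force: `tv = cellV + (u[q] + u[g])`. -/
theorem bf_tv (G : Geo H) (N : ℕ) (α : ℝ) (om g q : HH H) {f : ℤ → Z2 H} (sf : S2 G.lam (1 / 4) f) :
    bf G.ω (⇑om) (G.tv N α q g) (G.tw N α q g) f =
      bf G.ω (⇑om) (cellV (G.ω * N) N α) (cellW (G.ω * N) N α) f +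
      (bf G.ω (⇑om) (uV G.ω (Vf G.ω q)) (wV G.ω (Vf G.ω q)) f +
        bf G.ω (⇑om) (uV G.ω (Vf G.ω g)) (wV G.ω (Vf G.ω g)) f) := by
  have h1 := G.lw.h1
  have hN : 0 ≤ G.N₀ := zero_le_one.trans G.hN
  have so : S2 G.lam 0 (⇑om) := (S2l2 om).1
  have vq := vel_half (ω := G.ω) h1 hN G.lam_le q
  have vg := vel_half (ω := G.ω) h1 hN G.lam_le g
  have c1 : S2 G.lam (1 / 2) (cellV (H := H) (G.ω * N) N α) :=
    S2_fin (N := (N:ℤ)) fun l h1 h2 => cellV_zero h1 h2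
  have c2 : S2 G.lam (1 / 2) (cellW (H := H) (G.ω * N) N α) :=
    S2_fin (N := (N:ℤ)) fun l h1 h2 => cellW_zero h1 h2
  have e1 := bf_add G.pw G.ω so vq.1.1 vq.2.1 vg.1.1 vg.2.1 sf
  have e2 := bf_add G.pw G.ω so c1 c2 (S2_add h1 vq.1.1 vg.1.1).1 (S2_add h1 vq.2.1 vg.2.1).1 sf
  rw [e1] at e2
  exact e2

/-- **Static estimate.** Proof: `bdy_bd` for the first two terms; `tv = cellV + (u[q] + u[g])`:
`bf_add` (ApE) twice with the weights of `G.pw` (`S2_fin` for the cell, `vel_half` for the others),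
`U_bd`, `mix_bd`, `vv_bd`; the last term by Cauchy-Schwarz, `‖TT (Qd (HS τ ψ))‖ = N2 0 (io f) ≤ n0 τ^{-3/16}`
(`S2l2`, `Tc_io`). -/
theorem stat_bd (G : Geo H) (hT : G.TFex) : ∃ C, 0 ≤ C ∧ ∀ {τ : ℝ} (_ : 0 < τ) (_ : τ ≤ 1) (ψ : HH H)
    (N : ℕ) (_ : 1 ≤ N) {α : ℝ} (_ : 0 ≤ α) (g q : HH H),
    ‖⟪AS G.D.K τ ψ, TT G.ω g⟫_ℂ + (-⟪G.Qd (HS G.D.K τ ψ), cm G.a g⟫_ℂ +
      bf G.ω (⇑(Ms G.ζ (cm G.a g))) (G.tv N α q g) (G.tw N α q g)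
        (⇑(TT G.ω (G.Qd (HS G.D.K τ ψ)))) -
      ⟪TT G.ω (G.Qd (HS G.D.K τ ψ)), Ms (rc (G.kF (G.ω * N) α) (G.kF_c _ _)) (TT G.ω g)⟫_ℂ)‖ ≤
    C * N2 G.lam (-(3 / 8)) ψ * yrhs (G.ω * N) τ ‖LT G.ω G.lam (3 / 8) g‖ ‖q‖ (trn G.ω g)
      ‖Ms (rc (chF (G.ω * N) α) (chF_c _ _)) (TT G.ω g)‖
      ‖Ms (rc (G.kF (G.ω * N) α) (G.kF_c _ _)) (TT G.ω g)‖ := by
  obtain ⟨Ct, hCt, ht⟩ := hT
  obtain ⟨Cb, hCb, hb⟩ := bdy_bd G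
  obtain ⟨Cu, hCu, hu⟩ := U_bd G
  obtain ⟨Cm, hCm, hm⟩ := mix_bd G
  obtain ⟨Cv, hCv, hv⟩ := vv_bd G
  refine ⟨(Cb + 2 * Cu + Cm + Cv + 1) * Ct, by positivity, ?_⟩
  intro τ hτ hτ1 ψ N hN α hα g q
  obtain ⟨f1, f2, tf⟩ := ht τ hτ hτ1 ψ
  have eT : (⇑(TT G.ω (G.Qd (HS G.D.K τ ψ))) : ℤ → Z2 H) =
      io (Vf G.ω (⇑(G.Qd (HS G.D.K τ ψ)))) := Tc_io _ _
  have nT : ‖TT G.ω (G.Qd (HS G.D.K τ ψ))‖ = N2 G.lam 0 (io (Vf G.ω (⇑(G.Qd (HS G.D.K τ ψ))))) := by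
    rw [← eT]; exact (S2l2 _).2.symm
  have sf : S2 G.lam (1 / 4) (io (Vf G.ω (⇑(G.Qd (HS G.D.K τ ψ))))) :=
    (S2_mono G.lw.h1 (by norm_num) tf.s0).1
  have sf1 : S2 G.lam 1 (io (Vf G.ω (⇑(G.Qd (HS G.D.K τ ψ))))) :=
    (S2_mono G.lw.h1 (by norm_num) tf.s0).1
  have s1 : S2 G.lam 0 (io f1) := (S2_mono G.lw.h1 (by norm_num) tf.s1).1
  rw [eT]
  have bB := hb hτ hτ1 ψ tf g
  have bU := hu N hN hα g tf.d1 tf.z0 sf1 s1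
  have bM := hm hτ hτ1 tf g q
  have bV := hv hτ hτ1 tf g
  have bK : ‖⟪TT G.ω (G.Qd (HS G.D.K τ ψ)), Ms (rc (G.kF (G.ω * N) α) (G.kF_c _ _)) (TT G.ω g)⟫_ℂ‖ ≤
      N2 G.lam 0 (io (Vf G.ω (⇑(G.Qd (HS G.D.K τ ψ))))) *
        ‖Ms (rc (G.kF (G.ω * N) α) (G.kF_c _ _)) (TT G.ω g)‖ := by
    rw [← nT]; exact norm_inner_le_norm _ _
  have hs0 : 0 ≤ trn G.ω g := Real.sqrt_nonneg _
  refine (stat_tri (bf_tv G N α _ g q sf)).trans ?_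
  refine (stat_alg tf.nn hCb hCu hCm hCv (Real.rpow_nonneg hτ.le _) (Real.rpow_nonneg hτ.le _)
    (Real.rpow_nonneg hτ.le _) (mul_nonneg G.ω_pos.le (Nat.cast_nonneg N)) (norm_nonneg _)
    (norm_nonneg _) hs0 (norm_nonneg _) (norm_nonneg _) tf.b00 tf.b01 tf.b10
    bB bU bM bV bK).trans (le_of_eq ?_)
  unfold yrhs
  ring

end

end Pool.Agent.Lib.MP_79abb3_an.SC
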