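import Pool.Agent.Lib.MP_79abb3_an.SC.LaH3
import Pool.Agent.Lib.MP_79abb3_an.SC.FlYs

/-!
MP_79abb3_an, Theorem C, block (i): the test functions `S(τ) ψ` of the `y`-inequality.
-/

set_option autoImplicit false
set_option linter.unusedSectionVars false

open MeasureTheory Set Filter Topology Function
open scoped ENNReal InnerProductSpace

namespace Pool.Agent.Lib.MP_79abb3_an.SC

open Pool.Agent.Lib.MP_79abb3_an.P25

section
variable {H : ℝ} [hH : Fact (0 < H)]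

theorem Geo.tfex (G : Geo H) : G.TFex := by
  obtain ⟨C, hC, hS⟩ := G.SH2_Sg
  refine ⟨C, hC, fun τ h0 h1 ψ => ?_⟩
  obtain ⟨f, f1, f2, hf⟩ := hS τ h0 h1 ψ
  have h := hf (3 / 8) (by norm_num) (by norm_num)
  have hN := N2_nonneg (lam := G.lam) (-(3 / 8)) ψ
  have hK := G.D.K_nonneg
  have eS : Sg G.D.K τ ψ = TT G.ω (G.Qd (HS G.D.K τ ψ)) := by
    have h2 := G.D.isKh.bTQ (HS G.D.K τ ψ)
    have h3 : Kh G.D.K (HS G.D.K τ ψ) = Sg G.D.K τ ψ := by rw [← Kh_HS hK h0]; rfl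
    rw [h3] at h2
    exact h2.symm
  have ef : f = Vf G.ω (G.Qd (HS G.D.K τ ψ)) := by
    funext n
    refine iota_injective ?_
    rw [h.iof, eS, TT_apply, T2_apply]
    rfl
  have e1 : ∀ {X : ℝ} {q q' : ℝ}, X ≤ C * τ ^ (-q) * N2 G.lam (-(3 / 8)) ψ → -q = q' →
      X ≤ C * N2 G.lam (-(3 / 8)) ψ * τ ^ q' := by
    intro X q q' hX hq
    rw [← hq]
    exact hX.trans (le_of_eq (by ring))
  refine ⟨f1, f2, ?_⟩
  rw [← ef]
  exact
    { nn := mul_nonneg hC hN
      d1 := h.d1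
      d2 := h.d2
      z0 := h.z0
      zH := h.zH
      s0 := h.m0.1
      s1 := h.m1.1
      s2 := h.m2.1
      b00 := e1 (h.ns 0 le_rfl zero_le_one).2 (by norm_num)
      b01 := e1 (h.ns 1 zero_le_one le_rfl).2 (by norm_num)
      b02 := e1 h.m0.2 (by norm_num)
      b10 := e1 h.n1.2 (by norm_num)
      b11 := e1 h.m1.2 (by norm_num)
      b20 := e1 h.m2.2 (by norm_num) }

end

end Pool.Agent.Lib.MP_79abb3_an.SC
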