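import Pool.Agent.Lib.MP_79abb3_an.SC.NcIterA

section

/-!
MP_79abb3_an, Theorem C, block (iv): one step of the control iteration (abstract), estimates.
-/

set_option autoImplicit false
set_option linter.unusedSectionVars false

open ContinuousLinearMap Filter Topology MeasureTheory Set Function
open scoped InnerProductSpace ComplexConjugate Interval

namespace Pool.Agent.Lib.MP_79abb3_an.SC

section Step
variable {X Y : Type} [NormedAddCommGroup X] [InnerProductSpace ℂ X] [CompleteSpace X]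
  [NormedAddCommGroup Y] [NormedSpace ℂ Y]
variable {K χ : X →L[ℂ] X} {J3 : Y →L[ℂ] X} {CL θ C0 : ℝ}

/-- A constant times an exponential. -/
theorem const_le_exp {c b T : ℝ} (hb : 0 ≤ b) (hT : 0 < T) (hT1 : T ≤ 1) (hc : c ≤ Real.exp b) :
    c ≤ Real.exp (b / T ^ 2) := by
  refine hc.trans (Real.exp_le_exp.2 ?_)
  rw [le_div_iff₀ (by positivity)]
  have : T ^ 2 ≤ 1 := pow_le_one₀ hT.le hT1
  nlinarith

theorem NcSys.lc_norm (h : NcSys K χ J3 CL θ C0) {T : ℝ} (hT : 0 < T) (hT1 : T ≤ 1) (q x₀ : X)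
    {Q : ℝ} (hQ : 0 ≤ Q) (hI : ∫ r in (0:ℝ)..T, kapT T r * ‖χ (Sg K r q)‖ ^ 2 ≤ Q ^ 2) {t : ℝ}
    (ht : 0 ≤ t) : ‖lc K (fq K χ T q) x₀ t‖ ≤ ‖x₀‖ + Q := by
  have h1 := HS_conv_sq_le h.hK h.hi ht ((h.fq_cont T q).continuousOn (s := Icc 0 t))
  have h2 := h.fq_sq hT hT1 q ht
  have h3 : ‖∫ r in (0:ℝ)..t, HS K (t - r) (fq K χ T q r)‖ ^ 2 ≤ Q ^ 2 := by
    have := sq_nonneg Q
    linarith
  have h4 : ‖∫ r in (0:ℝ)..t, HS K (t - r) (fq K χ T q r)‖ ≤ Q :=
    (pow_le_pow_iff_left₀ (norm_nonneg _) hQ two_ne_zero).1 h3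
  refine (norm_add_le _ _).trans (add_le_add (Sg_norm_apply h.hK t x₀) h4)

/-- The step before absorbing constants. -/
theorem NcSys.step0 (h : NcSys K χ J3 CL θ C0) (N : X →L[ℂ] X →L[ℂ] Y) (J : X →L[ℝ] X)
    (hJS : ∀ t x, J (Sg K t x) = Sg K t (J x)) (hJχ : ∀ x, J (χ x) = χ (J x))
    (hJK : ∀ x, J (Kh K x) = Kh K (J x))
    {T : ℝ} (hT : 0 < T) (hT1 : T ≤ 1) {B P m : ℝ}
    (hB : B = CL * ‖N‖ * (∫ τ in (0:ℝ)..1, kth θ τ))
    (hP : P = Real.exp (C0 / (T / 2) ^ 2 / 2) * ‖Kh K‖) (hm : 0 < m) (hm1 : m ≤ 1)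
    (hBm : 8 * B * ((1 + P) * m) ≤ 1) {x₀ : X} (hx₀ : ‖x₀‖ ≤ m) :
    ∃ q : X, ‖q‖ ≤ P * √m ∧ (J x₀ = x₀ → J q = q) ∧
      ∃ x, Mild (Sg K) (Lc K J3) (Pc N (fq K χ (T / 2) q)) 0 T x₀ x ∧
        (∀ t ∈ Icc 0 T, ‖x t‖ ≤ 2 * ((1 + P) * m)) ∧
        ‖x T‖ ≤ (√(T / 2))⁻¹ * (P * (m * √m)) + 4 * B * ((1 + P) * m) ^ 2 := by
  set T1 := T / 2 with hT1def
  have hT10 : 0 < T1 := by rw [hT1def]; linarith
  have hT11 : T1 ≤ 1 := by rw [hT1def]; linarith
  set E := Real.exp (C0 / T1 ^ 2 / 2) with hE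
  have hE0 : 0 < E := Real.exp_pos _
  have hP0 : 0 ≤ P := by rw [hP]; positivity
  obtain ⟨q, hq1, hq2, hq3, hq4⟩ := (h.humData hT10 hT11).hum hm (Kh K x₀) J hJS hJχ
  have hV : E * ‖Kh K x₀‖ ≤ P * m := by
    have h1 := (Kh K).le_opNorm x₀
    calc E * ‖Kh K x₀‖ ≤ E * (‖Kh K‖ * m) :=
          mul_le_mul_of_nonneg_left (h1.trans (mul_le_mul_of_nonneg_left hx₀ (norm_nonneg _))) hE0.le
      _ = P * m := by rw [hP]; ring
  have hsm : √m * √m = m := Real.mul_self_sqrt hm.le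
  have hsm0 : 0 < √m := Real.sqrt_pos.2 hm
  have hqn : ‖q‖ ≤ P * √m := by
    have h1 : √m * ‖q‖ ≤ √m * (P * √m) := by
      calc √m * ‖q‖ ≤ E * ‖Kh K x₀‖ := hq1
        _ ≤ P * m := hV
        _ = P * (√m * √m) := by rw [hsm]
        _ = √m * (P * √m) := by ring
    exact le_of_mul_le_mul_left h1 hsm0
  have hI : ∫ r in (0:ℝ)..T1, kapT T1 r * ‖χ (Sg K r q)‖ ^ 2 ≤ (P * m) ^ 2 := by
    refine hq2.trans ?_
    rw [← mul_pow]
    exact pow_le_pow_left₀ (by positivity) hV 2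
  have hcf := h.fq_cont T1 q
  obtain ⟨M, hM⟩ := Pc_nl N hcf 0 T
  have hB0 : 0 ≤ B := by
    rw [hB]
    have h1 := h.hk.C0
    have h2 : 0 ≤ ∫ τ in (0:ℝ)..1, kth θ τ :=
      intervalIntegral.integral_nonneg zero_le_one fun τ hτ => kth_nonneg θ hτ.1
    positivity
  have hlin : ∀ t ∈ Icc 0 T, ‖lc K (fq K χ T1 q) x₀ t‖ ≤ (1 + P) * m := by
    intro t ht
    have h1 := h.lc_norm hT10 hT11 q x₀ (Q := P * m) (by positivity) hI ht.1
    linarith
  have hx₀' : ‖x₀‖ ≤ (1 + P) * m := by nlinarith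
  obtain ⟨x, hx, hx'⟩ := h.hk.small (x₀ := x₀) hT.le hM (m := (1 + P) * m) (B := B) (by positivity)
    hB0 hx₀' hlin (fun c hc x hx R hR0 hR => by
      have := hx.sub_lc h.hK h.hk hcf hc.1 (hc.2.trans hT1) hR0 hR
      rwa [← hB] at this) hBm
  refine ⟨q, hqn, fun hJ => hq4 (by rw [hJK, hJ]), x, hx, fun t ht => (hx' t ht).1, ?_⟩
  have h3 := (hx' T ⟨hT.le, le_rfl⟩).2
  have h4 : ‖lc K (fq K χ T1 q) x₀ T‖ ≤ (√(T / 2))⁻¹ * (P * (m * √m)) := by
    have h5 := h.lc_after hT10 q x₀ hT10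
    have h6 : T1 + T1 = T := by rw [hT1def]; ring
    rw [h6] at h5
    have h7 : Sg K T1 (Kh K x₀) + ∫ t in (0:ℝ)..T1, Sg K (T1 - t) (fq K χ T1 q t) = -(m • q) := hq3
    rw [h5, h7]
    refine ((HS K T1).le_of_opNorm_le (HS_norm h.hK hT10) _).trans ?_
    refine mul_le_mul_of_nonneg_left ?_ (by positivity)
    rw [norm_neg, norm_smul, Real.norm_of_nonneg hm.le]
    calc m * ‖q‖ ≤ m * (P * √m) := mul_le_mul_of_nonneg_left hqn hm.le
      _ = P * (m * √m) := by ring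
  have h8 : ‖x T‖ ≤ ‖lc K (fq K χ T1 q) x₀ T‖ + ‖x T - lc K (fq K χ T1 q) x₀ T‖ := by
    have := norm_add_le (lc K (fq K χ T1 q) x₀ T) (x T - lc K (fq K χ T1 q) x₀ T)
    simpa using this
  linarith

/-- **The step.** -/
theorem NcSys.step (h : NcSys K χ J3 CL θ C0) (N : X →L[ℂ] X →L[ℂ] Y) (J : X →L[ℝ] X)
    (hJS : ∀ t x, J (Sg K t x) = Sg K t (J x)) (hJχ : ∀ x, J (χ x) = χ (J x))
    (hJK : ∀ x, J (Kh K x) = Kh K (J x)) :
    ∃ C1, 0 ≤ C1 ∧ ∀ T, 0 < T → T ≤ 1 → ∀ m, 0 < m → Real.exp (C1 / T ^ 2) * m ≤ 1 →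
      ∀ x₀ : X, ‖x₀‖ ≤ m → ∃ q : X, ‖q‖ ≤ Real.exp (C1 / T ^ 2) * √m ∧ (J x₀ = x₀ → J q = q) ∧
        ∃ x, Mild (Sg K) (Lc K J3) (Pc N (fq K χ (T / 2) q)) 0 T x₀ x ∧
          (∀ t ∈ Icc 0 T, ‖x t‖ ≤ Real.exp (C1 / T ^ 2) * m) ∧
          ‖x T‖ ≤ Real.exp (C1 / T ^ 2) * (m * √m) := by
  set B := CL * ‖N‖ * (∫ τ in (0:ℝ)..1, kth θ τ) with hB
  have hB0 : 0 ≤ B := by
    have h1 := h.hk.C0
    have h2 : 0 ≤ ∫ τ in (0:ℝ)..1, kth θ τ :=
      intervalIntegral.integral_nonneg zero_le_one fun τ hτ => kth_nonneg θ hτ.1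
    positivity
  set k := ‖Kh K‖ with hk
  have hk0 : 0 ≤ k := norm_nonneg _
  set D := 2 * C0 with hD
  have hD0 : 0 ≤ D := mul_nonneg zero_le_two h.C00
  -- total constant
  set c := 8 * (B + 1) * (1 + k) + 2 * k + 4 * B * (1 + k) ^ 2 + 2 with hc
  have p1 : 0 ≤ B * k := mul_nonneg hB0 hk0
  have p2 : 0 ≤ B * (1 + k) ^ 2 := by positivity
  have hcx : c = 8 * B + 8 * (B * k) + 10 * k + 10 + 4 * (B * (1 + k) ^ 2) := by rw [hc]; ring
  have hc1 : 1 ≤ c := by rw [hcx]; linarith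
  have hc0 : 0 < c := by linarith
  refine ⟨2 * D + 1 + c, by positivity, fun T hT hT1 m hm hEm x₀ hx₀ => ?_⟩
  have hTT : 0 < T ^ 2 := by positivity
  have hT21 : T ^ 2 ≤ 1 := pow_le_one₀ hT.le hT1
  set F := Real.exp (D / T ^ 2) with hF
  have hF1 : 1 ≤ F := Real.one_le_exp (by positivity)
  have hPeq : Real.exp (C0 / (T / 2) ^ 2 / 2) * ‖Kh K‖ = F * k := by
    rw [hF, hk, hD]
    congr 2
    field_simp
  have hm1 : m ≤ 1 := by
    have h1 : 1 ≤ Real.exp ((2 * D + 1 + c) / T ^ 2) := Real.one_le_exp (by positivity)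
    nlinarith
  -- `exp` factor dominates `c F² / T`
  have hexp : c * F ^ 2 * T⁻¹ ≤ Real.exp ((2 * D + 1 + c) / T ^ 2) := by
    have e1 : Real.exp ((2 * D + 1 + c) / T ^ 2) =
        Real.exp (c / T ^ 2) * (F ^ 2) * Real.exp (1 / T ^ 2) := by
      rw [hF, ← Real.exp_nat_mul, ← Real.exp_add, ← Real.exp_add]
      congr 1
      push_cast
      ring
    have e2 : c ≤ Real.exp (c / T ^ 2) := by
      refine const_le_exp hc0.le hT hT1 ?_
      have := Real.add_one_le_exp c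
      linarith
    have e3 : T⁻¹ ≤ Real.exp (1 / T ^ 2) := by
      have h1 : T⁻¹ ≤ 1 / T ^ 2 := by
        rw [inv_eq_one_div]
        exact one_div_le_one_div_of_le hTT (by nlinarith)
      have h2 := Real.add_one_le_exp (1 / T ^ 2)
      linarith
    rw [e1]
    have : 0 ≤ T⁻¹ := by positivity
    gcongr
  set G := Real.exp ((2 * D + 1 + c) / T ^ 2) with hG
  have hTi : 1 ≤ T⁻¹ := (one_le_inv₀ hT).2 hT1
  have hF2 : F ≤ F ^ 2 := by
    calc F = F * 1 := (mul_one F).symm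
      _ ≤ F * F := mul_le_mul_of_nonneg_left hF1 (by linarith)
      _ = F ^ 2 := (sq F).symm
  have hFk : 1 + F * k ≤ (1 + k) * F := by
    have : (1 + k) * F = F + F * k := by ring
    rw [this]; linarith
  have hcF : c * F ^ 2 ≤ G := by
    calc c * F ^ 2 = c * F ^ 2 * 1 := (mul_one _).symm
      _ ≤ c * F ^ 2 * T⁻¹ := mul_le_mul_of_nonneg_left hTi (by positivity)
      _ ≤ G := hexp
  have hcF1 : c * F ≤ G := (mul_le_mul_of_nonneg_left hF2 hc0.le).trans hcF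
  -- the smallness condition
  have hcond : 8 * B * ((1 + F * k) * m) ≤ 1 := by
    have h1 : 8 * B * (1 + F * k) ≤ c * F := by
      have h2 : 8 * B * (1 + k) ≤ c := by
        have : 8 * B * (1 + k) = 8 * B + 8 * (B * k) := by ring
        rw [hcx, this]; linarith
      calc 8 * B * (1 + F * k) ≤ 8 * B * ((1 + k) * F) :=
            mul_le_mul_of_nonneg_left hFk (by positivity)
        _ = (8 * B * (1 + k)) * F := by ring
        _ ≤ c * F := mul_le_mul_of_nonneg_right h2 (by linarith)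
    calc 8 * B * ((1 + F * k) * m) = (8 * B * (1 + F * k)) * m := by ring
      _ ≤ G * m := mul_le_mul_of_nonneg_right (h1.trans hcF1) hm.le
      _ ≤ 1 := hEm
  obtain ⟨q, hq, hqJ, x, hx, hxb, hxT⟩ := h.step0 N J hJS hJχ hJK hT hT1 hB hPeq.symm hm hm1 hcond hx₀
  refine ⟨q, hq.trans ?_, hqJ, x, hx, fun t ht => (hxb t ht).trans ?_, hxT.trans ?_⟩
  · refine mul_le_mul_of_nonneg_right ?_ (Real.sqrt_nonneg _)
    have h1 : k ≤ c := by rw [hcx]; linarith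
    calc F * k ≤ F * c := mul_le_mul_of_nonneg_left h1 (by linarith)
      _ = c * F := mul_comm _ _
      _ ≤ G := hcF1
  · have h1 : 2 * (1 + F * k) ≤ c * F := by
      have h2 : 2 * (1 + k) ≤ c := by rw [hcx]; linarith
      calc 2 * (1 + F * k) ≤ 2 * ((1 + k) * F) := by linarith
        _ = (2 * (1 + k)) * F := by ring
        _ ≤ c * F := mul_le_mul_of_nonneg_right h2 (by linarith)
    calc 2 * ((1 + F * k) * m) = (2 * (1 + F * k)) * m := by ring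
      _ ≤ G * m := mul_le_mul_of_nonneg_right (h1.trans hcF1) hm.le
  · have hsm0 : 0 ≤ √m := Real.sqrt_nonneg _
    have hsm1 : √m ≤ 1 := Real.sqrt_le_one.2 hm1
    have hmm : m ^ 2 ≤ m * √m := by
      have : m ≤ √m := by
        have h1 : √m * √m = m := Real.mul_self_sqrt hm.le
        nlinarith
      nlinarith
    have hsq : (√(T / 2))⁻¹ ≤ 2 * T⁻¹ := by
      have h1 : T / 2 ≤ √(T / 2) := by
        have h2 : √(T / 2) * √(T / 2) = T / 2 := Real.mul_self_sqrt (by positivity)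
        have h3 : √(T / 2) ≤ 1 := Real.sqrt_le_one.2 (by linarith)
        nlinarith [Real.sqrt_nonneg (T / 2)]
      calc (√(T / 2))⁻¹ ≤ (T / 2)⁻¹ := inv_anti₀ (by positivity) h1
        _ = 2 * T⁻¹ := by rw [inv_div, div_eq_mul_inv]
    have h1 : (√(T / 2))⁻¹ * (F * k * (m * √m)) ≤ (2 * k) * F ^ 2 * T⁻¹ * (m * √m) := by
      calc (√(T / 2))⁻¹ * (F * k * (m * √m)) ≤ (2 * T⁻¹) * (F * k * (m * √m)) :=
            mul_le_mul_of_nonneg_right hsq (by positivity)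
        _ = (2 * k) * T⁻¹ * (m * √m) * F := by ring
        _ ≤ (2 * k) * T⁻¹ * (m * √m) * F ^ 2 := mul_le_mul_of_nonneg_left hF2 (by positivity)
        _ = _ := by ring
    have h2 : 4 * B * ((1 + F * k) * m) ^ 2 ≤ (4 * B * (1 + k) ^ 2) * F ^ 2 * T⁻¹ * (m * √m) := by
      have h3 : (1 + F * k) ^ 2 ≤ ((1 + k) * F) ^ 2 := pow_le_pow_left₀ (by positivity) hFk 2
      calc 4 * B * ((1 + F * k) * m) ^ 2 = 4 * B * (1 + F * k) ^ 2 * m ^ 2 := by ring
        _ ≤ 4 * B * ((1 + k) * F) ^ 2 * (m * √m) := by gcongr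
        _ = (4 * B * (1 + k) ^ 2) * F ^ 2 * 1 * (m * √m) := by ring
        _ ≤ _ := by gcongr
    have h4 : 2 * k + 4 * B * (1 + k) ^ 2 ≤ c := by
      have : 4 * B * (1 + k) ^ 2 = 4 * (B * (1 + k) ^ 2) := by ring
      rw [hcx, this]; linarith
    calc (√(T / 2))⁻¹ * (F * k * (m * √m)) + 4 * B * ((1 + F * k) * m) ^ 2
        ≤ (2 * k) * F ^ 2 * T⁻¹ * (m * √m) + (4 * B * (1 + k) ^ 2) * F ^ 2 * T⁻¹ * (m * √m) :=
          add_le_add h1 h2
      _ = (2 * k + 4 * B * (1 + k) ^ 2) * (F ^ 2 * T⁻¹) * (m * √m) := by ring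
      _ ≤ c * (F ^ 2 * T⁻¹) * (m * √m) := by gcongr
      _ = (c * F ^ 2 * T⁻¹) * (m * √m) := by ring
      _ ≤ G * (m * √m) := mul_le_mul_of_nonneg_right hexp (by positivity)

end Step

end Pool.Agent.Lib.MP_79abb3_an.SC
end

section

/-!
MP_79abb3_an, Theorem C, block (iv): abstract local exact null controllability.
-/

set_option autoImplicit false
set_option linter.unusedSectionVars false

open ContinuousLinearMap Filter Topology MeasureTheory Set Function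
open scoped InnerProductSpace ComplexConjugate Interval

namespace Pool.Agent.Lib.MP_79abb3_an.SC

section Shift
variable {X Y : Type} [NormedAddCommGroup X] [NormedSpace ℂ X] [CompleteSpace X]
  [NormedAddCommGroup Y] [NormedSpace ℂ Y]
variable {S : ℝ → (X →L[ℂ] X)} {L : ℝ → (Y →L[ℂ] X)} {Φ : ℝ → X → Y}

theorem Mild.shift {a b : ℝ} {x₀ : X} {x : ℝ → X} (h : Mild S L Φ a b x₀ x) (s : ℝ) :
    Mild S L (fun t => Φ (t - s)) (a + s) (b + s) x₀ fun t => x (t - s) := by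
  refine ⟨h.cont.comp (by fun_prop) fun t ht => ⟨by linarith [ht.1], by linarith [ht.2]⟩,
    fun t ht => ?_⟩
  have h1 := h.eq (t - s) ⟨by linarith [ht.1], by linarith [ht.2]⟩
  show x (t - s) = _
  rw [h1, show t - (a + s) = t - s - a by ring]
  congr 1
  have h2 := intervalIntegral.integral_comp_sub_right (a := a + s) (b := t)
    (fun r => L (t - s - r) (Φ r (x r))) s
  rw [add_sub_cancel_right] at h2
  rw [← h2]
  refine intervalIntegral.integral_congr fun r _ => ?_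
  show _ = L (t - r) (Φ (r - s) (x (r - s)))
  congr 2
  ring

theorem Mild.congr_Phi {a b : ℝ} {x₀ : X} {x : ℝ → X} {Φ' : ℝ → X → Y} (h : Mild S L Φ a b x₀ x)
    (he : ∀ t ∈ Icc a b, Φ t = Φ' t) : Mild S L Φ' a b x₀ x := by
  refine ⟨h.cont, fun t ht => ?_⟩
  rw [h.eq t ht]
  congr 1
  refine intervalIntegral.integral_congr fun r hr => ?_
  rw [uIcc_of_le ht.1] at hr
  show L (t - r) (Φ r (x r)) = L (t - r) (Φ' r (x r))
  rw [he r ⟨hr.1, hr.2.trans ht.2⟩]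

end Shift

/-! ### Time steps and sizes -/

/-- Length of the `j`-th step. -/
noncomputable def Tj (T : ℝ) (j : ℕ) : ℝ := T / 10 * (9 / 10) ^ j

/-- Start of the `j`-th step. -/
noncomputable def tj (T : ℝ) (j : ℕ) : ℝ := T * (1 - (9 / 10) ^ j)

theorem tj_zero (T : ℝ) : tj T 0 = 0 := by simp [tj]

theorem tj_succ (T : ℝ) (j : ℕ) : tj T (j + 1) = tj T j + Tj T j := by
  unfold tj Tj
  rw [pow_succ]
  ring

theorem Tj_pos {T : ℝ} (hT : 0 < T) (j : ℕ) : 0 < Tj T j := by unfold Tj; positivity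

theorem tj_mono {T : ℝ} (hT : 0 < T) : Monotone (tj T) :=
  monotone_nat_of_le_succ fun j => by rw [tj_succ]; linarith [Tj_pos hT j]

theorem tj_lt {T : ℝ} (hT : 0 < T) (j : ℕ) : tj T j < T := by
  unfold tj
  have : 0 < (9 / 10 : ℝ) ^ j := by positivity
  nlinarith

theorem tj_tendsto (T : ℝ) : Tendsto (tj T) atTop (𝓝 T) := by
  have h1 : Tendsto (fun j : ℕ => (9 / 10 : ℝ) ^ j) atTop (𝓝 0) :=
    tendsto_pow_atTop_nhds_zero_of_lt_one (by norm_num) (by norm_num)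
  have h2 : Tendsto (fun j : ℕ => T * (1 - (9 / 10 : ℝ) ^ j)) atTop (𝓝 (T * (1 - 0))) :=
    (tendsto_const_nhds.sub h1).const_mul T
  rw [sub_zero, mul_one] at h2
  exact h2

theorem Tj_le_one {T : ℝ} (hT : 0 < T) (hT1 : T ≤ 1) (j : ℕ) : Tj T j ≤ 1 := by
  unfold Tj
  have h1 : (9 / 10 : ℝ) ^ j ≤ 1 := pow_le_one₀ (by norm_num) (by norm_num)
  have h2 : 0 < (9 / 10 : ℝ) ^ j := by positivity
  nlinarith

/-- Every time in `[0,T)` is in some step. -/
theorem exists_step {T t : ℝ} (hT : 0 < T) (h0 : 0 ≤ t) (h1 : t < T) :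
    ∃ j, t ∈ Ico (tj T j) (tj T (j + 1)) := by
  have h2 : ∃ j, t < tj T (j + 1) := by
    have h3 := (tj_tendsto T).eventually (lt_mem_nhds h1)
    obtain ⟨j, hj⟩ := h3.exists
    exact ⟨j, hj.trans_le (tj_mono hT (Nat.le_succ j))⟩
  classical
  refine ⟨Nat.find h2, ?_, Nat.find_spec h2⟩
  rcases Nat.eq_zero_or_pos (Nat.find h2) with h3 | h3
  · rw [h3, tj_zero]; exact h0
  · have h4 := Nat.find_min h2 (Nat.sub_lt h3 one_pos)
    have h5 : Nat.find h2 - 1 + 1 = Nat.find h2 := Nat.sub_add_cancel h3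
    rw [h5] at h4
    exact not_lt.1 h4

/-- Size of the state at the start of the `j`-th step. -/
noncomputable def mj (L : ℝ) (j : ℕ) : ℝ := Real.exp (-(L * (14 / 10) ^ j))

theorem mj_pos (L : ℝ) (j : ℕ) : 0 < mj L j := Real.exp_pos _

theorem exp_Tj {C1 T : ℝ} (hT : 0 < T) (j : ℕ) :
    C1 / Tj T j ^ 2 = (100 * C1 / T ^ 2) * (100 / 81) ^ j := by
  unfold Tj
  rw [mul_pow, div_pow, ← pow_mul, mul_comm j 2, pow_mul]
  have h1 : ((9 / 10 : ℝ) ^ 2) ^ j = ((100 / 81 : ℝ) ^ j)⁻¹ := by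
    rw [← inv_pow]
    norm_num
  rw [h1]
  field_simp
  norm_num

/-- `D ρ^j ≤ (D) (1.4)^j`, `ρ = 100/81`. -/
theorem rho_le {D : ℝ} (hD : 0 ≤ D) (j : ℕ) : D * (100 / 81) ^ j ≤ D * (14 / 10) ^ j :=
  mul_le_mul_of_nonneg_left (pow_le_pow_left₀ (by norm_num) (by norm_num) j) hD

theorem one_le_pow14 (j : ℕ) : (1:ℝ) ≤ (14 / 10) ^ j := one_le_pow₀ (by norm_num)

/-- sizes: `G m ≤ 1`, `G √m ≤ e^{-1.4^j}`, `G m √m ≤ m'` -/
theorem sizes {D : ℝ} (hD : 0 ≤ D) (j : ℕ) :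
    Real.exp (D * (100 / 81) ^ j) * mj (10 * D + 10) j ≤ 1 ∧
    Real.exp (D * (100 / 81) ^ j) * √(mj (10 * D + 10) j) ≤ Real.exp (-(14 / 10) ^ j) ∧
    Real.exp (D * (100 / 81) ^ j) * (mj (10 * D + 10) j * √(mj (10 * D + 10) j)) ≤
      mj (10 * D + 10) (j + 1) := by
  have h1 := rho_le hD j
  have h2 := one_le_pow14 j
  set p : ℝ := (14 / 10) ^ j with hp
  set r : ℝ := D * (100 / 81) ^ j with hr
  have hs : √(mj (10 * D + 10) j) = Real.exp (-((5 * D + 5) * p)) := by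
    rw [mj, Real.sqrt_eq_iff_mul_self_eq (Real.exp_pos _).le (Real.exp_pos _).le, ← Real.exp_add]
    congr 1
    ring
  rw [hs]
  have hDp : 0 ≤ D * p := by positivity
  refine ⟨?_, ?_, ?_⟩
  · rw [mj, ← Real.exp_add, ← hp, Real.exp_le_one_iff]
    nlinarith
  · rw [← Real.exp_add, Real.exp_le_exp]
    nlinarith
  · rw [mj, mj, ← Real.exp_add, ← Real.exp_add, Real.exp_le_exp, pow_succ, ← hp]
    nlinarith

theorem summable_size : Summable fun j : ℕ => Real.exp (-(14 / 10 : ℝ) ^ j) := by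
  have h1 : Summable fun j : ℕ => Real.exp (-(1 : ℝ) + -(4 / 10) * j) := by
    have h2 : Summable fun j : ℕ => Real.exp (-(4 / 10) : ℝ) ^ j :=
      summable_geometric_of_lt_one (Real.exp_pos _).le (by rw [Real.exp_lt_one_iff]; norm_num)
    refine (h2.mul_left (Real.exp (-1))).congr fun j => ?_
    rw [Real.exp_add, mul_comm (-(4 / 10) : ℝ), Real.exp_nat_mul]
  refine Summable.of_nonneg_of_le (fun j => (Real.exp_pos _).le) (fun j => ?_) h1
  rw [Real.exp_le_exp]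
  have h3 := one_add_mul_le_pow (show (-2 : ℝ) ≤ 4 / 10 by norm_num) j
  have h4 : (1 + 4 / 10 : ℝ) = 14 / 10 := by norm_num
  rw [h4] at h3
  linarith

section Iter
variable {X Y : Type} [NormedAddCommGroup X] [InnerProductSpace ℂ X] [CompleteSpace X]
  [NormedAddCommGroup Y] [NormedSpace ℂ Y]
variable {K χ : X →L[ℂ] X} {J3 : Y →L[ℂ] X} {CL θ C0 : ℝ}

/-- **Abstract local exact null controllability.** -/
theorem NcSys.null (h : NcSys K χ J3 CL θ C0) (N : X →L[ℂ] X →L[ℂ] Y) (J : X →L[ℝ] X)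
    (J' : Y →L[ℝ] Y)
    (hJS : ∀ t x, J (Sg K t x) = Sg K t (J x)) (hJχ : ∀ x, J (χ x) = χ (J x))
    (hJK : ∀ x, J (Kh K x) = Kh K (J x))
    (hJL : ∀ t, 0 < t → ∀ y u, J (Lc K J3 t (y, u)) = Lc K J3 t (J' y, J u))
    (hJN : ∀ x, J' (N x x) = N (J x) (J x)) {T : ℝ} (hT : 0 < T) (hT1 : T ≤ 1) :
    ∃ ε, 0 < ε ∧ ∀ x₀ : X, ‖x₀‖ ≤ ε → ∃ f : ℝ → X, Continuous f ∧ (∀ t, ∃ g, f t = χ g) ∧
      (∀ t, t ≤ 0 ∨ T ≤ t → f t = 0) ∧ (J x₀ = x₀ → ∀ t, J (f t) = f t) ∧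
      ∃ x, Mild (Sg K) (Lc K J3) (Pc N f) 0 T x₀ x ∧ x T = 0 ∧
        (J x₀ = x₀ → ∀ t ∈ Icc 0 T, J (x t) = x t) := by
  obtain ⟨C1, hC1, hstep⟩ := h.step N J hJS hJχ hJK
  set D := 100 * C1 / T ^ 2 with hD
  have hD0 : 0 ≤ D := by positivity
  set m : ℕ → ℝ := mj (10 * D + 10) with hm
  have hmpos : ∀ j, 0 < m j := fun j => mj_pos _ j
  refine ⟨m 0, hmpos 0, fun x₀ hx₀ => ?_⟩
  -- one step
  let Q : ℕ → X → Prop := fun j x => ‖x‖ ≤ m j ∧ (J x₀ = x₀ → J x = x)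
  have hall : ∀ j (x : {x // Q j x}), ∃ qy : X × (ℝ → X), (J x₀ = x₀ → J qy.1 = qy.1) ∧
      (∀ t, ‖fq K χ (Tj T j / 2) qy.1 t‖ ≤ Real.exp (-(14 / 10) ^ j)) ∧
      Mild (Sg K) (Lc K J3) (Pc N (fq K χ (Tj T j / 2) qy.1)) 0 (Tj T j) x.1 qy.2 ∧
      (∀ t ∈ Icc 0 (Tj T j), ‖qy.2 t‖ ≤ 1) ∧ Q (j + 1) (qy.2 (Tj T j)) := by
    intro j x
    have hTj := Tj_pos hT j
    have hTj1 := Tj_le_one hT hT1 j
    have hsz := sizes hD0 j
    rw [← exp_Tj hT j] at hsz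
    obtain ⟨q, hq, hqJ, y, hy, hyb, hyT⟩ := hstep (Tj T j) hTj hTj1 (m j) (hmpos j) hsz.1 x.1 x.2.1
    have hJq : J x₀ = x₀ → J q = q := fun hJ => hqJ (x.2.2 hJ)
    refine ⟨(q, y), hJq, fun t => ?_, hy, fun t ht => (hyb t ht).trans hsz.1, hyT.trans hsz.2.2,
      fun hJ => ?_⟩
    · exact (h.fq_norm (by linarith) (by linarith) q t).trans (hq.trans hsz.2.1)
    · obtain ⟨M, hM⟩ := Pc_nl N (h.fq_cont (Tj T j / 2) q) 0 (Tj T j)
      refine hy.real h.hk hM J (J'.prodMap J) (fun t _ x => hJS t x) (fun t ht y => hJL t ht y.1 y.2)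
        (fun t _ x => ?_) (x.2.2 hJ) (Tj T j) ⟨hTj.le, le_rfl⟩
      show (J' (N x x), J (fq K χ (Tj T j / 2) q t)) = (N (J x) (J x), fq K χ (Tj T j / 2) q t)
      rw [hJN]
      congr 1
      show J (kapT (Tj T j / 2) t • χ (χ (Sg K (Tj T j / 2 - t) q))) = _
      rw [map_smul, hJχ, hJχ, hJS, hJq hJ]
      rfl
  choose F hF1 hF2 hF3 hF4 hF5 using hall
  let xs : ∀ j, {x // Q j x} := fun j => Nat.rec ⟨x₀, hx₀, id⟩ (fun j x => ⟨(F j x).2 (Tj T j), hF5 j x⟩) j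
  have hxs0 : (xs 0).1 = x₀ := rfl
  have hxsS : ∀ j, (xs (j + 1)).1 = (F j (xs j)).2 (Tj T j) := fun j => rfl
  let g : ℕ → ℝ → X := fun j => fq K χ (Tj T j / 2) (F j (xs j)).1
  let y : ℕ → ℝ → X := fun j => (F j (xs j)).2
  have hgc : ∀ j, Continuous (g j) := fun j => h.fq_cont _ _
  have hg0 : ∀ j t, t ≤ 0 ∨ Tj T j ≤ t → g j t = 0 := by
    intro j t ht
    have hTj := Tj_pos hT j
    refine fq_zero (by linarith) ?_
    rcases ht with ht | ht
    · left; linarith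
    · right; linarith
  have hgb : ∀ j t, ‖g j t‖ ≤ Real.exp (-(14 / 10) ^ j) := fun j t => hF2 j (xs j) t
  let f : ℝ → X := fun t => ∑' j, g j (t - tj T j)
  have hfc : Continuous f :=
    continuous_tsum (fun j => (hgc j).comp (by fun_prop)) summable_size fun j t => hgb j _
  -- on the `j`-th step
  have hfj : ∀ j, ∀ t ∈ Icc (tj T j) (tj T (j + 1)), f t = g j (t - tj T j) := by
    intro j t ht
    refine tsum_eq_single j fun i hi => ?_
    rcases lt_or_gt_of_ne hi with h1 | h1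
    · refine hg0 i _ (Or.inr ?_)
      have h2 : tj T (i + 1) ≤ tj T j := tj_mono hT h1
      rw [tj_succ] at h2
      linarith [ht.1]
    · refine hg0 i _ (Or.inl ?_)
      have h2 : tj T (j + 1) ≤ tj T i := tj_mono hT h1
      linarith [ht.2]
  have hf0 : ∀ t, t ≤ 0 ∨ T ≤ t → f t = 0 := by
    intro t ht
    have : ∀ j, g j (t - tj T j) = 0 := by
      intro j
      rcases ht with ht | ht
      · refine hg0 j _ (Or.inl ?_)
        have h2 : tj T 0 ≤ tj T j := tj_mono hT (Nat.zero_le j)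
        rw [tj_zero] at h2
        linarith
      · refine hg0 j _ (Or.inr ?_)
        have h2 := (tj_lt hT (j + 1)).le
        rw [tj_succ] at h2
        linarith
    show ∑' j, g j (t - tj T j) = 0
    simp only [this, tsum_zero]
  have hyM : ∀ j, Mild (Sg K) (Lc K J3) (Pc N f) (tj T j) (tj T (j + 1)) (xs j).1
      fun t => y j (t - tj T j) := by
    intro j
    have h1 := (hF3 j (xs j)).shift (tj T j)
    rw [zero_add, add_comm (Tj T j), ← tj_succ] at h1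
    refine h1.congr_Phi fun t ht => ?_
    funext x
    show (N x x, g j (t - tj T j)) = (N x x, f t)
    rw [hfj j t ht]
  obtain ⟨M, hM⟩ := Pc_nl N hfc 0 T
  have hk := h.hk
  -- any solution passes through the states
  have hpass : ∀ j, ∀ c ∈ Icc 0 T, tj T j ≤ c → ∀ z, Mild (Sg K) (Lc K J3) (Pc N f) 0 c x₀ z →
      z (tj T j) = (xs j).1 := by
    intro j
    induction j with
    | zero =>
      intro c hc _ z hz
      rw [tj_zero]
      exact hz.init hk hc.1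
    | succ j ih =>
      intro c hc hjc z hz
      have h1 : tj T j ≤ tj T (j + 1) := tj_mono hT (Nat.le_succ j)
      have h0 : 0 ≤ tj T j := by
        have := tj_mono hT (Nat.zero_le j); rwa [tj_zero] at this
      have h2 := ih c hc (h1.trans hjc) z hz
      have h3 := (hz.restart hk (hM.mono le_rfl hc.2) (c := tj T j) ⟨h0, h1.trans hjc⟩).restrict hjc
      rw [h2] at h3
      have h4 := h3.unique hk (hM.mono h0 (hjc.trans hc.2)) (hyM j) (tj T (j + 1)) ⟨h1, le_rfl⟩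
      rw [h4, hxsS]
      show y j (tj T (j + 1) - tj T j) = (F j (xs j)).2 (Tj T j)
      rw [tj_succ, add_sub_cancel_left]
  have hbd : ∀ c, 0 ≤ c → c < T → ∀ z, Mild (Sg K) (Lc K J3) (Pc N f) 0 c x₀ z → ‖z c‖ ≤ 1 := by
    intro c hc0 hcT z hz
    obtain ⟨j, hj1, hj2⟩ := exists_step hT hc0 hcT
    have h0 : 0 ≤ tj T j := by
      have := tj_mono hT (Nat.zero_le j); rwa [tj_zero] at this
    have h2 := hpass j c ⟨hc0, hcT.le⟩ hj1 z hz
    have h3 := hz.restart hk (hM.mono le_rfl hcT.le) (c := tj T j) ⟨h0, hj1⟩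
    rw [h2] at h3
    have h4 := h3.unique hk (hM.mono h0 hcT.le) ((hyM j).restrict hj2.le) c ⟨hj1, le_rfl⟩
    rw [h4]
    refine hF4 j (xs j) _ ⟨by linarith, ?_⟩
    have := tj_succ T j
    linarith
  obtain ⟨x, hx⟩ := hk.global (R := 1) hT.le hM x₀ fun c hc z hz => by
    rcases hc.2.lt_or_eq with h1 | h1
    · exact hbd c hc.1 h1 z hz
    · -- limit
      subst h1
      have hcz : ContinuousWithinAt z (Ico 0 c) c := (hz.cont c ⟨hc.1, le_rfl⟩).mono Ico_subset_Icc_self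
      have hne : (𝓝[Ico 0 c] c).NeBot := by
        rw [← mem_closure_iff_nhdsWithin_neBot, closure_Ico hT.ne]
        exact ⟨hT.le, le_rfl⟩
      refine le_of_tendsto hcz.norm ?_
      filter_upwards [self_mem_nhdsWithin] with t ht
      exact hbd t ht.1 ht.2 z (hz.restrict ht.2.le)
  refine ⟨f, hfc, fun t => ?_, hf0, fun hJ t => ?_, x, hx, ?_, fun hJ => ?_⟩
  · -- range of `χ`
    by_cases ht : 0 ≤ t ∧ t < T
    · obtain ⟨j, hj1, hj2⟩ := exists_step hT ht.1 ht.2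
      rw [hfj j t ⟨hj1, hj2.le⟩]
      refine ⟨kapT (Tj T j / 2) (t - tj T j) •
        χ (Sg K (Tj T j / 2 - (t - tj T j)) (F j (xs j)).1), ?_⟩
      rw [ContinuousLinearMap.map_smul_of_tower]
      rfl
    · refine ⟨0, ?_⟩
      rw [map_zero]
      apply hf0
      by_contra hcon
      push Not at hcon
      exact ht ⟨hcon.1.le, hcon.2⟩
  · have hs : Summable fun j => g j (t - tj T j) :=
      Summable.of_norm_bounded summable_size fun j => hgb j _
    show J (∑' j, g j (t - tj T j)) = ∑' j, g j (t - tj T j)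
    rw [J.map_tsum hs]
    refine tsum_congr fun j => ?_
    show J (kapT (Tj T j / 2) (t - tj T j) •
      χ (χ (Sg K (Tj T j / 2 - (t - tj T j)) (F j (xs j)).1))) = _
    rw [map_smul, hJχ, hJχ, hJS, hF1 j (xs j) hJ]
    rfl
  · -- final state
    have h1 : Tendsto (fun j => x (tj T j)) atTop (𝓝 (x T)) := by
      have h2 : Tendsto (tj T) atTop (𝓝[Icc 0 T] T) := by
        refine tendsto_nhdsWithin_of_tendsto_nhds_of_eventually_within _ (tj_tendsto T) ?_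
        refine Eventually.of_forall fun j => ⟨?_, (tj_lt hT j).le⟩
        have := tj_mono hT (Nat.zero_le j); rwa [tj_zero] at this
      exact (hx.cont T ⟨hT.le, le_rfl⟩).tendsto.comp h2
    have h3 : Tendsto (fun j => x (tj T j)) atTop (𝓝 0) := by
      have h4 : ∀ j, x (tj T j) = (xs j).1 := fun j =>
        hpass j T ⟨hT.le, le_rfl⟩ (tj_lt hT j).le x hx
      have h5 : Tendsto m atTop (𝓝 0) := by
        have h6 : Tendsto (fun j : ℕ => (10 * D + 10) * (14 / 10 : ℝ) ^ j) atTop atTop :=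
          (tendsto_pow_atTop_atTop_of_one_lt (by norm_num)).const_mul_atTop (by positivity)
        exact Real.tendsto_exp_neg_atTop_nhds_zero.comp h6
      refine squeeze_zero_norm (fun j => ?_) h5
      rw [h4]
      exact (xs j).2.1
    exact tendsto_nhds_unique h1 h3
  · refine hx.real hk hM J (J'.prodMap J) (fun t _ x => hJS t x) (fun t ht y => hJL t ht y.1 y.2)
      (fun t _ x => ?_) hJ
    show (J' (N x x), J (f t)) = (N (J x) (J x), f t)
    rw [hJN]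
    congr 1
    have hs : Summable fun j => g j (t - tj T j) :=
      Summable.of_norm_bounded summable_size fun j => hgb j _
    show J (∑' j, g j (t - tj T j)) = ∑' j, g j (t - tj T j)
    rw [J.map_tsum hs]
    refine tsum_congr fun j => ?_
    show J (kapT (Tj T j / 2) (t - tj T j) •
      χ (χ (Sg K (Tj T j / 2 - (t - tj T j)) (F j (xs j)).1))) = _
    rw [map_smul, hJχ, hJχ, hJS, hF1 j (xs j) hJ]
    rfl

end Iter

end Pool.Agent.Lib.MP_79abb3_an.SC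
end
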