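import Pool.Agent.Lib.MP_79abb3_an.SC.ChDef

/-!
Theorem C, stage for `L²` data, the data, part a: integrals of compositions with local diffeomorphisms.
-/

set_option autoImplicit false
set_option linter.unusedSectionVars false

open MeasureTheory Set Filter Topology Function
open scoped ENNReal

namespace Pool.Agent.Lib.MP_79abb3_an.SC

/-- The bound for a composition, locally. -/
private theorem ga_local {G : ℂ → ℂ} (hG : ContDiff ℝ ((⊤ : ℕ∞) : WithTop ℕ∞) G) {ζ : ℂ}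
    (hd : (fderiv ℝ G ζ).det ≠ 0) : ∃ U : Set ℂ, IsOpen U ∧ ζ ∈ U ∧ ∃ C : ℝ≥0∞, C ≠ ∞ ∧ ∃ R : ℝ,
      ∀ g : ℂ → ℝ≥0∞, ∫⁻ ξ in U, g (G ξ) ≤ C * ∫⁻ x in Metric.ball 0 R, g x := by
  have hs : HasStrictFDerivAt G (fderiv ℝ G ζ) ζ := hG.contDiffAt.hasStrictFDerivAt (by simp)
  have hs' : HasStrictFDerivAt G
      (((fderiv ℝ G ζ).toContinuousLinearEquivOfDetNeZero hd : ℂ ≃L[ℝ] ℂ) : ℂ →L[ℝ] ℂ) ζ := by
    rw [ContinuousLinearMap.coe_toContinuousLinearEquivOfDetNeZero]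
    exact hs
  have hinj : InjOn G (hs'.toOpenPartialHomeomorph G).source := (hs'.toOpenPartialHomeomorph G).injOn
  have hso : IsOpen (hs'.toOpenPartialHomeomorph G).source := (hs'.toOpenPartialHomeomorph G).open_source
  have hsm : ζ ∈ (hs'.toOpenPartialHomeomorph G).source := hs'.mem_toOpenPartialHomeomorph_source
  set V : Set ℂ := (hs'.toOpenPartialHomeomorph G).source with hV
  have hdc : Continuous fun ξ => |(fderiv ℝ G ξ).det| :=
    (ContinuousLinearMap.continuous_det.comp (hG.continuous_fderiv (by simp))).abs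
  have h0 : 0 < |(fderiv ℝ G ζ).det| := abs_pos.2 hd
  set c : ℝ := |(fderiv ℝ G ζ).det| / 2 with hc
  have hc0 : 0 < c := by positivity
  have hcζ : c < |(fderiv ℝ G ζ).det| := by rw [hc]; linarith
  set R : ℝ := ‖G ζ‖ + 1 with hR
  set U : Set ℂ := V ∩ ({ξ | c < |(fderiv ℝ G ξ).det|} ∩ {ξ | ‖G ξ‖ < R}) with hU
  have hUo : IsOpen U := hso.inter ((isOpen_lt continuous_const hdc).inter
    (isOpen_lt hG.continuous.norm continuous_const))
  refine ⟨U, hUo, ⟨hsm, hcζ, by show ‖G ζ‖ < ‖G ζ‖ + 1; linarith⟩, (ENNReal.ofReal c)⁻¹, ?_, R, ?_⟩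
  · rw [ENNReal.inv_ne_top]
    exact (ENNReal.ofReal_pos.2 hc0).ne'
  · intro g
    have hcne : ENNReal.ofReal c ≠ 0 := (ENNReal.ofReal_pos.2 hc0).ne'
    have h1 : ∫⁻ ξ in U, g (G ξ) ≤
        ∫⁻ ξ in U, (ENNReal.ofReal c)⁻¹ * (ENNReal.ofReal |(fderiv ℝ G ξ).det| * g (G ξ)) := by
      refine setLIntegral_mono' hUo.measurableSet fun ξ hξ => ?_
      rw [← mul_assoc]
      have h2 : (1 : ℝ≥0∞) ≤ (ENNReal.ofReal c)⁻¹ * ENNReal.ofReal |(fderiv ℝ G ξ).det| := by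
        rw [← ENNReal.inv_mul_cancel hcne ENNReal.ofReal_ne_top]
        exact mul_le_mul_right (ENNReal.ofReal_le_ofReal hξ.2.1.le) _
      calc g (G ξ) = 1 * g (G ξ) := (one_mul _).symm
        _ ≤ _ := mul_le_mul_left h2 _
    refine h1.trans ?_
    rw [lintegral_const_mul' _ _ (by rw [ENNReal.inv_ne_top]; exact hcne)]
    refine mul_le_mul_right ?_ _
    rw [← lintegral_image_eq_lintegral_abs_det_fderiv_mul volume hUo.measurableSet
      (fun ξ _ => (hG.differentiable (by simp) ξ).hasFDerivAt.hasFDerivWithinAt)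
      (hinj.mono inter_subset_left) g]
    refine lintegral_mono_set ?_
    rintro _ ⟨ξ, hξ, rfl⟩
    rw [mem_ball_zero_iff]
    exact hξ.2.2

/-- **Composition.** If the derivative of `G` is invertible on the compact set `K`, then integrals of
`g ∘ G` over a neighbourhood of `K` are bounded by integrals of `g` over a ball. -/
theorem exists_comp_bound {G : ℂ → ℂ} (hG : ContDiff ℝ ((⊤ : ℕ∞) : WithTop ℕ∞) G) {K : Set ℂ}
    (hK : IsCompact K) (hd : ∀ ζ ∈ K, (fderiv ℝ G ζ).det ≠ 0) :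
    ∃ U : Set ℂ, IsOpen U ∧ K ⊆ U ∧ ∃ C : ℝ≥0∞, C ≠ ∞ ∧ ∃ R : ℝ, ∀ g : ℂ → ℝ≥0∞,
      ∫⁻ ξ in U, g (G ξ) ≤ C * ∫⁻ x in Metric.ball 0 R, g x := by
  refine hK.induction_on (p := fun s => ∃ U : Set ℂ, IsOpen U ∧ s ⊆ U ∧ ∃ C : ℝ≥0∞, C ≠ ∞ ∧ ∃ R : ℝ,
    ∀ g : ℂ → ℝ≥0∞, ∫⁻ ξ in U, g (G ξ) ≤ C * ∫⁻ x in Metric.ball 0 R, g x) ?_ ?_ ?_ ?_
  · exact ⟨∅, isOpen_empty, le_rfl, 0, by simp, 0, fun g => by simp⟩
  · rintro s t hst ⟨U, h1, h2, h3⟩
    exact ⟨U, h1, hst.trans h2, h3⟩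
  · rintro s t ⟨U, h1, h2, C, hC, R, h3⟩ ⟨U', h1', h2', C', hC', R', h3'⟩
    refine ⟨U ∪ U', h1.union h1', union_subset_union h2 h2', C + C', ENNReal.add_ne_top.2 ⟨hC, hC'⟩,
      max R R', fun g => ?_⟩
    refine (lintegral_union_le _ _ _).trans ?_
    rw [add_mul]
    refine add_le_add ((h3 g).trans ?_) ((h3' g).trans ?_)
    · exact mul_le_mul_right (lintegral_mono_set (Metric.ball_subset_ball (le_max_left _ _))) _
    · exact mul_le_mul_right (lintegral_mono_set (Metric.ball_subset_ball (le_max_right _ _))) _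
  · intro ζ hζ
    obtain ⟨U, h1, h2, h3⟩ := ga_local hG (hd ζ hζ)
    exact ⟨U, mem_nhdsWithin_of_mem_nhds (h1.mem_nhds h2), U, h1, le_rfl, h3⟩

/-- Integrals over the plane in coordinates. -/
theorem lintegral_cxp {U : Set ℂ} (hU : MeasurableSet U) (g : ℂ → ℝ≥0∞) :
    ∫⁻ q in cxp ⁻¹' U, g (cxp q) = ∫⁻ ζ in U, g ζ := by
  have h1 : MeasurePreserving (Complex.measurableEquivRealProd.symm : ℝ × ℝ → ℂ) volume volume :=
    Complex.volume_preserving_equiv_real_prod.symm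
  exact h1.setLIntegral_comp_preimage_emb Complex.measurableEquivRealProd.symm.measurableEmbedding g U

end Pool.Agent.Lib.MP_79abb3_an.SC
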