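import Mathlib

/-!
Theorem C, stage for `L²` data, the data, part b: the Poincaré inequality on a square.
-/

set_option autoImplicit false
set_option linter.unusedSectionVars false

open MeasureTheory Set Filter Topology Function
open scoped ENNReal

namespace Pool.Agent.Lib.MP_79abb3_an.SC

/-- Cauchy-Schwarz. -/
theorem sq_lint_le {α : Type*} [MeasurableSpace α] (μ : Measure α) {f : α → ℝ≥0∞}
    (hf : AEMeasurable f μ) : (∫⁻ x, f x ∂μ) ^ 2 ≤ μ univ * ∫⁻ x, f x ^ 2 ∂μ := by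
  have h1 := ENNReal.lintegral_mul_le_Lp_mul_Lq μ Real.HolderConjugate.two_two hf
    (aemeasurable_const (b := (1 : ℝ≥0∞)))
  simp only [Pi.mul_apply, mul_one] at h1
  have h3 : (∫⁻ a, (1 : ℝ≥0∞) ^ (2 : ℝ) ∂μ) = μ univ := by simp
  rw [h3] at h1
  have h4 : ∀ x : ℝ≥0∞, (x ^ (1 / (2 : ℝ))) ^ 2 = x := fun x => by
    rw [← ENNReal.rpow_natCast, ← ENNReal.rpow_mul]
    norm_num
  have h5 : (∫⁻ a, f a ^ (2 : ℝ) ∂μ) = ∫⁻ x, f x ^ 2 ∂μ := by
    refine lintegral_congr fun x => ?_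
    exact_mod_cast ENNReal.rpow_natCast (f x) 2
  rw [h5] at h1
  calc (∫⁻ x, f x ∂μ) ^ 2
      ≤ ((∫⁻ x, f x ^ 2 ∂μ) ^ (1 / (2 : ℝ)) * (μ univ) ^ (1 / (2 : ℝ))) ^ 2 := pow_le_pow_left' h1 2
    _ = μ univ * ∫⁻ x, f x ^ 2 ∂μ := by rw [mul_pow, h4, h4, mul_comm]

/-- Squares of sums. -/
theorem esq_add_le (a b : ℝ≥0∞) : (a + b) ^ 2 ≤ 2 * (a ^ 2 + b ^ 2) := by
  rcases eq_or_ne a ∞ with h | ha
  · subst h; simp
  rcases eq_or_ne b ∞ with h | hb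
  · subst h; simp
  lift a to NNReal using ha
  lift b to NNReal using hb
  have h1 : (a + b) ^ 2 ≤ 2 * (a ^ 2 + b ^ 2) := by
    rw [← NNReal.coe_le_coe]
    push_cast
    nlinarith [sq_nonneg ((a : ℝ) - b)]
  exact_mod_cast h1

section
variable {E : Type*} [NormedAddCommGroup E]

theorem enorm_sq_sub (a b c : E) : ‖a - c‖ₑ ^ 2 ≤ 2 * (‖a - b‖ₑ ^ 2 + ‖b - c‖ₑ ^ 2) := by
  refine le_trans (pow_le_pow_left' ?_ 2) (esq_add_le _ _)
  have h1 : a - c = (a - b) + (b - c) := by abel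
  rw [h1]
  exact enorm_add_le _ _

end

/-- One dimension. -/
theorem gb_one {f f' : ℝ → ℝ} (hf : ∀ x, HasDerivAt f (f' x) x) (hc : Continuous f') {R s t : ℝ}
    (hs : s ∈ Icc (-R) R) (ht : t ∈ Icc (-R) R) :
    ‖f s - f t‖ₑ ^ 2 ≤ ENNReal.ofReal (2 * R) * ∫⁻ x in Icc (-R) R, ‖f' x‖ₑ ^ 2 := by
  have h1 : ∫ x in t..s, f' x = f s - f t :=
    intervalIntegral.integral_eq_sub_of_hasDerivAt (fun x _ => hf x) (hc.intervalIntegrable _ _)
  have h2 : ‖∫ x in t..s, f' x‖ₑ ≤ ∫⁻ x in Icc (-R) R, ‖f' x‖ₑ := by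
    rw [intervalIntegral.intervalIntegral_eq_integral_uIoc]
    refine le_trans (b := ‖∫ x in uIoc t s, f' x‖ₑ) ?_ ?_
    · split_ifs <;> simp
    · refine (enorm_integral_le_lintegral_enorm _).trans (lintegral_mono_set ?_)
      exact uIoc_subset_uIcc.trans (uIcc_subset_Icc ht hs)
  rw [← h1]
  refine (pow_le_pow_left' h2 2).trans ?_
  refine (sq_lint_le _ hc.enorm.measurable.aemeasurable).trans (le_of_eq ?_)
  rw [Measure.restrict_apply_univ, Real.volume_Icc]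
  congr 2
  ring

/-- The average over a square. -/
noncomputable def avg (R : ℝ) (Φ : ℝ × ℝ → ℝ) : ℝ := ⨍ p in Icc (-R) R ×ˢ Icc (-R) R, Φ p

theorem gb_t1 (μ : Measure ℝ) [SFinite μ] {A : ℝ → ℝ≥0∞} (hA : Measurable A) :
    ∫⁻ q, A q.1 ∂(μ.prod μ) = μ univ * ∫⁻ t, A t ∂μ := by
  have hm : Measurable fun q : ℝ × ℝ => A q.1 := hA.comp measurable_fst
  rw [lintegral_prod _ hm.aemeasurable]
  simp only [lintegral_const]
  rw [lintegral_mul_const _ hA, mul_comm]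

theorem gb_t2 (μ : Measure ℝ) [SFinite μ] {A : ℝ → ℝ≥0∞} (hA : Measurable A) :
    ∫⁻ q, A q.2 ∂(μ.prod μ) = μ univ * ∫⁻ t, A t ∂μ := by
  have hm : Measurable fun q : ℝ × ℝ => A q.2 := hA.comp measurable_snd
  rw [lintegral_prod _ hm.aemeasurable]
  simp only [lintegral_const]
  rw [mul_comm]

/-- **The Poincaré inequality** on a square. -/
theorem poinc {R : ℝ} (hR : 0 < R) : ∃ C : ℝ≥0∞, C ≠ ∞ ∧ ∀ Φ : ℝ × ℝ → ℝ, ContDiff ℝ 1 Φ →
    ∫⁻ q in Icc (-R) R ×ˢ Icc (-R) R, ‖Φ q - avg R Φ‖ₑ ^ 2 ≤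
      C * ∫⁻ q in Icc (-R) R ×ˢ Icc (-R) R, ‖fderiv ℝ Φ q‖ₑ ^ 2 := by
  set M : ℝ≥0∞ := ENNReal.ofReal (2 * R) with hM
  have hM0 : M ≠ 0 := (ENNReal.ofReal_pos.2 (by linarith)).ne'
  have hM1 : M ≠ ∞ := ENNReal.ofReal_ne_top
  set μ : Measure ℝ := volume.restrict (Icc (-R) R) with hμ
  have hμu : μ univ = M := by
    rw [hμ, Measure.restrict_apply_univ, Real.volume_Icc, hM]
    congr 1
    ring
  have hμf : IsFiniteMeasure μ := ⟨by rw [hμu]; exact hM1.lt_top⟩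
  set ν : Measure (ℝ × ℝ) := μ.prod μ with hν
  have hνe : (volume : Measure (ℝ × ℝ)).restrict (Icc (-R) R ×ˢ Icc (-R) R) = ν := by
    rw [hν, hμ, Measure.prod_restrict]
    rfl
  have hνu : ν univ = M * M := by
    rw [hν, ← univ_prod_univ, Measure.prod_prod, hμu]
  have hνu0 : M * M ≠ 0 := mul_ne_zero hM0 hM0
  have hνu1 : M * M ≠ ∞ := ENNReal.mul_ne_top hM1 hM1
  refine ⟨(M * M)⁻¹ * (2 * M * (M * M * M + M * M * M)), ENNReal.mul_ne_top (ENNReal.inv_ne_top.2 hνu0)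
    (ENNReal.mul_ne_top (ENNReal.mul_ne_top (by simp) hM1) (ENNReal.add_ne_top.2
      ⟨ENNReal.mul_ne_top hνu1 hM1, ENNReal.mul_ne_top hνu1 hM1⟩)), fun Φ hΦ => ?_⟩
  rw [avg, hνe]
  have hΦc : Continuous Φ := hΦ.continuous
  have hdc : Continuous (fderiv ℝ Φ) := hΦ.continuous_fderiv (by simp)
  have hD : ∀ q, HasFDerivAt Φ (fderiv ℝ Φ q) q := fun q =>
    (hΦ.differentiable (by simp) q).hasFDerivAt
  have hΦi : Integrable Φ ν := by
    rw [← hνe]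
    exact hΦc.continuousOn.integrableOn_compact (isCompact_Icc.prod isCompact_Icc)
  have hem : Measurable fun q : ℝ × ℝ => ‖fderiv ℝ Φ q‖ₑ ^ 2 := hdc.enorm.measurable.pow_const 2
  set A : ℝ → ℝ≥0∞ := fun x => ∫⁻ τ, ‖fderiv ℝ Φ (τ, x)‖ₑ ^ 2 ∂μ with hA
  set B : ℝ → ℝ≥0∞ := fun x => ∫⁻ τ, ‖fderiv ℝ Φ (x, τ)‖ₑ ^ 2 ∂μ with hB
  have hAm : Measurable A := hem.lintegral_prod_left'
  have hBm : Measurable B := hem.lintegral_prod_right'
  have hAm2 : Measurable fun q : ℝ × ℝ => A q.2 := hAm.comp measurable_snd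
  set En : ℝ≥0∞ := ∫⁻ q, ‖fderiv ℝ Φ q‖ₑ ^ 2 ∂ν with hEn
  have hAi : ∫⁻ x, A x ∂μ = En := by
    rw [hEn, hν, lintegral_prod_symm' _ hem]
  have hBi : ∫⁻ x, B x ∂μ = En := by
    rw [hEn, hν, lintegral_prod _ hem.aemeasurable]
  -- pointwise bound
  have key : ∀ q ∈ Icc (-R) R ×ˢ Icc (-R) R, ∀ p ∈ Icc (-R) R ×ˢ Icc (-R) R,
      ‖Φ q - Φ p‖ₑ ^ 2 ≤ 2 * M * (A q.2 + B p.1) := by
    rintro ⟨x1, x2⟩ ⟨hx1, hx2⟩ ⟨y1, y2⟩ ⟨hy1, hy2⟩
    have e1 : ‖Φ (x1, x2) - Φ (y1, x2)‖ₑ ^ 2 ≤ M * A x2 := by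
      have h1 : ∀ x, HasDerivAt (fun x => Φ (x, x2)) (fderiv ℝ Φ (x, x2) (1, 0)) x := fun x => by
        have := (hD (x, x2)).comp_hasDerivAt x ((hasDerivAt_id x).prodMk (hasDerivAt_const x x2))
        exact this
      have h2 : Continuous fun x => fderiv ℝ Φ (x, x2) (1, 0) :=
        (hdc.comp (by fun_prop)).clm_apply continuous_const
      refine (gb_one h1 h2 hx1 hy1).trans (mul_le_mul_right (lintegral_mono fun τ => ?_) _)
      refine pow_le_pow_left' ?_ 2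
      refine (ContinuousLinearMap.le_opENorm _ _).trans ?_
      have h3 : ‖((1 : ℝ), (0 : ℝ))‖ₑ = 1 := by
        rw [← ofReal_norm]
        simp [Prod.norm_def]
      rw [h3, mul_one]
    have e2 : ‖Φ (y1, x2) - Φ (y1, y2)‖ₑ ^ 2 ≤ M * B y1 := by
      have h1 : ∀ x, HasDerivAt (fun x => Φ (y1, x)) (fderiv ℝ Φ (y1, x) (0, 1)) x := fun x => by
        have := (hD (y1, x)).comp_hasDerivAt x ((hasDerivAt_const x y1).prodMk (hasDerivAt_id x))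
        exact this
      have h2 : Continuous fun x => fderiv ℝ Φ (y1, x) (0, 1) :=
        (hdc.comp (by fun_prop)).clm_apply continuous_const
      refine (gb_one h1 h2 hx2 hy2).trans (mul_le_mul_right (lintegral_mono fun τ => ?_) _)
      refine pow_le_pow_left' ?_ 2
      refine (ContinuousLinearMap.le_opENorm _ _).trans ?_
      have h3 : ‖((0 : ℝ), (1 : ℝ))‖ₑ = 1 := by
        rw [← ofReal_norm]
        simp [Prod.norm_def]
      rw [h3, mul_one]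
    refine (enorm_sq_sub _ (Φ (y1, x2)) _).trans ?_
    calc 2 * (‖Φ (x1, x2) - Φ (y1, x2)‖ₑ ^ 2 + ‖Φ (y1, x2) - Φ (y1, y2)‖ₑ ^ 2)
        ≤ 2 * (M * A x2 + M * B y1) := mul_le_mul_right (add_le_add e1 e2) _
      _ = 2 * M * (A x2 + B y1) := by ring
  have hae : ∀ᵐ q ∂ν, q ∈ Icc (-R) R ×ˢ Icc (-R) R := by
    rw [← hνe]
    exact ae_restrict_mem (measurableSet_Icc.prod measurableSet_Icc)
  -- Jensen
  have jen : ∀ q, M * M * ‖Φ q - ⨍ p, Φ p ∂ν‖ₑ ^ 2 ≤ ∫⁻ p, ‖Φ q - Φ p‖ₑ ^ 2 ∂ν := by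
    intro q
    have hr : ν.real univ ≠ 0 := by
      rw [measureReal_def, hνu, ENNReal.toReal_ne_zero]
      exact ⟨hνu0, hνu1⟩
    have h1 : ∫ p, (Φ q - Φ p) ∂ν = ν.real univ * (Φ q - ⨍ p, Φ p ∂ν) := by
      rw [integral_sub (integrable_const _) hΦi, integral_const, average_eq, smul_eq_mul, smul_eq_mul,
        mul_sub, ← mul_assoc, mul_inv_cancel₀ hr, one_mul]
    have h2 : ‖ν.real univ * (Φ q - ⨍ p, Φ p ∂ν)‖ₑ = M * M * ‖Φ q - ⨍ p, Φ p ∂ν‖ₑ := by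
      rw [enorm_mul]
      congr 1
      rw [Real.enorm_eq_ofReal measureReal_nonneg, measureReal_def, hνu, ENNReal.ofReal_toReal hνu1]
    have h3 : (M * M * ‖Φ q - ⨍ p, Φ p ∂ν‖ₑ) ^ 2 ≤ M * M * ∫⁻ p, ‖Φ q - Φ p‖ₑ ^ 2 ∂ν := by
      rw [← h2, ← h1, ← hνu]
      refine (pow_le_pow_left' (enorm_integral_le_lintegral_enorm _) 2).trans ?_
      exact sq_lint_le ν (continuous_const.sub hΦc).enorm.measurable.aemeasurable
    rw [mul_pow, pow_two (M * M), mul_assoc] at h3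
    exact (ENNReal.mul_le_mul_iff_right hνu0 hνu1).1 h3
  have fin : M * M * ∫⁻ q, ‖Φ q - ⨍ p, Φ p ∂ν‖ₑ ^ 2 ∂ν ≤ 2 * M * (M * M * M + M * M * M) * En := by
    rw [← lintegral_const_mul' _ _ hνu1]
    calc ∫⁻ q, M * M * ‖Φ q - ⨍ p, Φ p ∂ν‖ₑ ^ 2 ∂ν
        ≤ ∫⁻ q, (∫⁻ p, 2 * M * (A q.2 + B p.1) ∂ν) ∂ν := by
          refine lintegral_mono_ae ?_
          filter_upwards [hae] with q hq
          refine (jen q).trans (lintegral_mono_ae ?_)
          filter_upwards [hae] with p hp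
          exact key q hq p hp
      _ = ∫⁻ q, (2 * M) * (A q.2 * (M * M) + M * En) ∂ν := by
          refine lintegral_congr fun q => ?_
          rw [lintegral_const_mul' _ _ (ENNReal.mul_ne_top (by simp) hM1),
            lintegral_add_left measurable_const, lintegral_const, hνu, gb_t1 μ hBm, hBi, hμu]
      _ = 2 * M * (M * M * M + M * M * M) * En := by
          rw [lintegral_const_mul' _ _ (ENNReal.mul_ne_top (by simp) hM1),
            lintegral_add_right _ measurable_const, lintegral_const, hνu,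
            lintegral_mul_const _ hAm2, gb_t2 μ hAm, hAi, hμu]
          ring
  calc ∫⁻ q, ‖Φ q - ⨍ p, Φ p ∂ν‖ₑ ^ 2 ∂ν
      = (M * M)⁻¹ * (M * M * ∫⁻ q, ‖Φ q - ⨍ p, Φ p ∂ν‖ₑ ^ 2 ∂ν) := by
        rw [← mul_assoc, ENNReal.inv_mul_cancel hνu0 hνu1, one_mul]
    _ ≤ (M * M)⁻¹ * (2 * M * (M * M * M + M * M * M) * En) := mul_le_mul_right fin _
    _ = _ := by rw [mul_assoc ((M * M)⁻¹)]

/-- The average is linear. -/
theorem avg_sub {R : ℝ} {Φ Ψ : ℝ × ℝ → ℝ} (hΦ : Continuous Φ) (hΨ : Continuous Ψ) :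
    avg R (fun q => Φ q - Ψ q) = avg R Φ - avg R Ψ := by
  have h1 : ∀ f : ℝ × ℝ → ℝ, Continuous f →
      Integrable f ((volume : Measure (ℝ × ℝ)).restrict (Icc (-R) R ×ˢ Icc (-R) R)) := fun f hf =>
    hf.continuousOn.integrableOn_compact (isCompact_Icc.prod isCompact_Icc)
  rw [avg, avg, avg, average_eq, average_eq, average_eq, integral_sub (h1 Φ hΦ) (h1 Ψ hΨ), smul_sub]

end Pool.Agent.Lib.MP_79abb3_an.SC
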