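import Pool.Agent.Lib.MP_79abb3_an.SC.NcIterA

/-!
MP_79abb3_an, Theorem C, block (iv): integration in time.
-/

set_option autoImplicit false
set_option linter.unusedSectionVars false
set_option linter.unusedVariables false

open MeasureTheory Set Filter Topology Function
open scoped ENNReal InnerProductSpace

namespace Pool.Agent.Lib.MP_79abb3_an.SC


/-- Integration of a differential inequality. -/
theorem int_le {α β t0 t1 : ℝ} (h0 : t0 < α) (hab : α ≤ β) (h1 : β < t1) {G f : ℝ → ℝ}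
    (hf : ContinuousOn f (Ioo t0 t1)) (hG : ∀ t ∈ Ioo t0 t1, ∃ G', HasDerivAt G G' t ∧ G' + f t ≤ 0) :
    ∫ t in α..β, f t ≤ G α - G β := by
  have hα : α ∈ Ioo t0 t1 := ⟨h0, by linarith⟩
  have hβ : β ∈ Ioo t0 t1 := ⟨by linarith, h1⟩
  have hd : ∀ t ∈ Ioo t0 t1, HasDerivAt (fun t => ∫ s in α..t, f s) (f t) t := by
    intro t ht
    have hsub : uIcc α t ⊆ Ioo t0 t1 := ordConnected_Ioo.uIcc_subset hα ht
    have hi : IntervalIntegrable f volume α t := (hf.mono hsub).intervalIntegrable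
    have hc : ContinuousAt f t := hf.continuousAt (isOpen_Ioo.mem_nhds ht)
    have hm : StronglyMeasurableAtFilter f (𝓝 t) volume :=
      hf.stronglyMeasurableAtFilter isOpen_Ioo t ht
    exact intervalIntegral.integral_hasDerivAt_right hi hm hc
  have hΦ : ∀ t ∈ Ioo t0 t1, ∃ d, HasDerivAt (fun t => G t + ∫ s in α..t, f s) d t ∧ d ≤ 0 := by
    intro t ht
    obtain ⟨G', h2, h3⟩ := hG t ht
    exact ⟨G' + f t, h2.add (hd t ht), h3⟩
  have anti : AntitoneOn (fun t => G t + ∫ s in α..t, f s) (Ioo t0 t1) := by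
    refine antitoneOn_of_deriv_nonpos (convex_Ioo t0 t1) ?_ ?_ ?_
    · intro t ht
      obtain ⟨d, h2, _⟩ := hΦ t ht
      exact h2.continuousAt.continuousWithinAt
    · intro t ht
      rw [interior_Ioo] at ht
      obtain ⟨d, h2, _⟩ := hΦ t ht
      exact h2.differentiableAt.differentiableWithinAt
    · intro t ht
      rw [interior_Ioo] at ht
      obtain ⟨d, h2, h3⟩ := hΦ t ht
      rw [h2.deriv]
      exact h3
  have h5 := anti hα hβ hab
  simp only [intervalIntegral.integral_same, add_zero] at h5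
  linarith

/-! ### The singular function of time -/

/-- `1/((t - t0)(t1 - t))` for `t0 = T/4`, `t1 = 3T/4` -/
noncomputable def th (T t : ℝ) : ℝ := ((t - T / 4) * (3 * T / 4 - t))⁻¹

noncomputable def th1 (T t : ℝ) : ℝ := -(T - 2 * t) * th T t ^ 2

noncomputable def th2 (T t : ℝ) : ℝ := 2 * th T t ^ 2 + 2 * (T - 2 * t) ^ 2 * th T t ^ 3

theorem th_hd {T t : ℝ} (ht : t ∈ Ioo (T / 4) (3 * T / 4)) : HasDerivAt (th T) (th1 T t) t := by
  have h1 : (t - T / 4) * (3 * T / 4 - t) ≠ 0 :=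
    mul_ne_zero (by linarith [ht.1]) (by linarith [ht.2])
  have h2 : HasDerivAt (fun t => (t - T / 4) * (3 * T / 4 - t))
      (1 * (3 * T / 4 - t) + (t - T / 4) * (-1)) t :=
    ((hasDerivAt_id t).sub_const (T / 4)).mul ((hasDerivAt_id t).const_sub (3 * T / 4))
  have h3 := h2.inv h1
  refine HasDerivAt.congr_deriv h3 ?_
  rw [th1, th]
  rw [inv_pow]
  field_simp
  ring

theorem th1_hd {T t : ℝ} (ht : t ∈ Ioo (T / 4) (3 * T / 4)) : HasDerivAt (th1 T) (th2 T t) t := by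
  have h1 := th_hd ht
  have h2 : HasDerivAt (fun t => -(T - 2 * t)) 2 t := by
    have := (((hasDerivAt_id t).const_mul 2).const_sub T).fun_neg
    refine HasDerivAt.congr_deriv this ?_
    norm_num
  have h3 := h2.mul (h1.pow 2)
  refine HasDerivAt.congr_deriv h3 ?_
  rw [th2, th1]
  simp only [Pi.pow_apply]
  norm_num
  ring

theorem th_pos {T t : ℝ} (ht : t ∈ Ioo (T / 4) (3 * T / 4)) : 0 < th T t :=
  inv_pos.2 (mul_pos (by linarith [ht.1]) (by linarith [ht.2]))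

theorem th_ge {T t : ℝ} (hT1 : T ≤ 1) (ht : t ∈ Ioo (T / 4) (3 * T / 4)) : 16 ≤ th T t := by
  have h1 : 0 < (t - T / 4) * (3 * T / 4 - t) := mul_pos (by linarith [ht.1]) (by linarith [ht.2])
  have h3 : 0 < T := by linarith [ht.1, ht.2]
  have h2 : (t - T / 4) * (3 * T / 4 - t) ≤ 1 / 16 := by
    nlinarith [sq_nonneg (t - T / 2)]
  rw [th, le_inv_comm₀ (by norm_num) h1]
  linarith

theorem th1_le {T t : ℝ} (hT1 : T ≤ 1) (ht : t ∈ Ioo (T / 4) (3 * T / 4)) :
    |th1 T t| ≤ th T t ^ 2 := by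
  have h3 : 0 < T := by linarith [ht.1, ht.2]
  have h1 : |T - 2 * t| ≤ 1 := by
    rw [abs_le]
    constructor <;> linarith [ht.1, ht.2]
  rw [th1, abs_mul, abs_neg, abs_of_nonneg (sq_nonneg (th T t))]
  nlinarith [sq_nonneg (th T t)]

theorem th2_le {T t : ℝ} (hT1 : T ≤ 1) (ht : t ∈ Ioo (T / 4) (3 * T / 4)) :
    |th2 T t| ≤ th T t ^ 3 := by
  have h0 := th_pos ht
  have h16 := th_ge hT1 ht
  have h3 : 0 < T := by linarith [ht.1, ht.2]
  have h1 : (T - 2 * t) ^ 2 ≤ 1 / 4 := by nlinarith [ht.1, ht.2]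
  have h4 : 0 < th T t ^ 2 := by positivity
  have h5 : 0 < th T t ^ 3 := by positivity
  have h6 : 16 * th T t ^ 2 ≤ th T t ^ 3 := by
    have : th T t ^ 3 = th T t * th T t ^ 2 := by ring
    rw [this]
    exact mul_le_mul_of_nonneg_right h16 h4.le
  have h7 : 0 ≤ th2 T t := by rw [th2]; positivity
  rw [abs_of_nonneg h7, th2]
  nlinarith

theorem kapT_th {T t : ℝ} (ht : t ∈ Ioo (T / 4) (3 * T / 4)) : kapT T t * th T t ^ 2 = 1 := by
  have h1 : 0 < (t - T / 4) * (3 * T / 4 - t) := mul_pos (by linarith [ht.1]) (by linarith [ht.2])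
  rw [kapT, max_eq_right h1.le, th, ← mul_pow, mul_inv_cancel₀ h1.ne', one_pow]

/-- `u² exp(-2u) ≤ 2 κ(t)` for `u = s θ(t)`. -/
theorem u_kap {s T t : ℝ} (hs : 1 ≤ s) (ht : t ∈ Ioo (T / 4) (3 * T / 4)) :
    (s * th T t) ^ 2 * Real.exp (-(2 * (s * th T t))) ≤ 2 * kapT T t := by
  have h0 := th_pos ht
  have hk := kapT_th ht
  set θ := th T t with hθ
  have hs0 : 0 < s := by linarith
  have hx : 0 < 2 * (s * θ) := by positivity
  have h1 := Real.pow_div_factorial_le_exp (2 * (s * θ)) hx.le 4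
  have h2 : Real.exp (-(2 * (s * θ))) * Real.exp (2 * (s * θ)) = 1 := by
    rw [← Real.exp_add]; simp
  have h3 : 0 < Real.exp (-(2 * (s * θ))) := Real.exp_pos _
  have h4 : Real.exp (-(2 * (s * θ))) * ((2 * (s * θ)) ^ 4 / 24) ≤ 1 := by
    rw [← h2]
    refine mul_le_mul_of_nonneg_left ?_ h3.le
    have : (Nat.factorial 4 : ℝ) = 24 := by norm_num [Nat.factorial]
    rwa [this] at h1
  have h5 : kapT T t = (θ ^ 2)⁻¹ := eq_inv_of_mul_eq_one_left hk
  rw [h5]
  have h6 : Real.exp (-(2 * (s * θ))) ≤ 24 / (2 * (s * θ)) ^ 4 := by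
    rw [le_div_iff₀ (by positivity)]
    linarith
  calc (s * θ) ^ 2 * Real.exp (-(2 * (s * θ))) ≤ (s * θ) ^ 2 * (24 / (2 * (s * θ)) ^ 4) :=
        mul_le_mul_of_nonneg_left h6 (by positivity)
    _ = 3 / 2 * (s ^ 2)⁻¹ * (θ ^ 2)⁻¹ := by field_simp; ring
    _ ≤ 2 * (θ ^ 2)⁻¹ := by
      refine mul_le_mul_of_nonneg_right ?_ (by positivity)
      have : (s ^ 2)⁻¹ ≤ 1 := inv_le_one_of_one_le₀ (one_le_pow₀ hs)
      linarith

theorem th_mid {T t : ℝ} (hT : 0 < T) (ht : t ∈ Icc (3 * T / 8) (5 * T / 8)) : th T t ≤ 64 / T ^ 2 := by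
  have h1 : T ^ 2 / 64 ≤ (t - T / 4) * (3 * T / 4 - t) := by nlinarith [ht.1, ht.2]
  have h2 : 64 / T ^ 2 = (T ^ 2 / 64)⁻¹ := by rw [inv_div]
  rw [th, h2]
  exact inv_anti₀ (by positivity) h1

theorem kap_mid {T t : ℝ} (hT : 0 < T) (ht : t ∈ Icc (3 * T / 8) (5 * T / 8)) :
    1 ≤ 4096 / T ^ 4 * kapT T t := by
  have h1 : T ^ 2 / 64 ≤ (t - T / 4) * (3 * T / 4 - t) := by nlinarith [ht.1, ht.2]
  have h0 : 0 < T ^ 2 / 64 := by positivity
  rw [kapT, max_eq_right (h0.le.trans h1)]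
  have h2 := pow_le_pow_left₀ h0.le h1 2
  calc (1:ℝ) = 4096 / T ^ 4 * (T ^ 2 / 64) ^ 2 := by field_simp; norm_num
    _ ≤ _ := mul_le_mul_of_nonneg_left h2 (by positivity)

/-! ### The trajectory -/

section
variable {E : Type} [NormedAddCommGroup E] [InnerProductSpace ℂ E] [CompleteSpace E] {K : E →L[ℂ] E}

theorem AS_hd (hK : 0 ≤ K) {t : ℝ} (ht : 0 < t) (x : E) :
    ∃ h2 : E, HasDerivAt (fun t => AS K t x) (-h2) t ∧ K h2 = AS K t x := by
  refine ⟨AS K (t - t / 2) (AS K (t / 2) x), ?_, ?_⟩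
  · have h1 : HasDerivAt (fun r => Sg K r (AS K (t / 2) x)) (-(AS K (t - t / 2) (AS K (t / 2) x)))
        (t - t / 2) := Sg_hasDerivAt_apply hK (by linarith) _
    have h2 : HasDerivAt (fun r => Sg K (r - t / 2) (AS K (t / 2) x))
        (-(AS K (t - t / 2) (AS K (t / 2) x))) t := h1.comp_sub_const t (t / 2)
    refine h2.congr_of_eventuallyEq ?_
    filter_upwards [Ioi_mem_nhds (half_lt_self ht)] with r hr
    have hr' : t / 2 < r := hr
    have h3 := Sg_AS (K := K) (s := r - t / 2) (t := t / 2) (by linarith) (by linarith)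
    rw [sub_add_cancel] at h3
    rw [← h3]
    rfl
  · have h1 := K_AS hK (show 0 < t - t / 2 by linarith)
    have h2 : K (AS K (t - t / 2) (AS K (t / 2) x)) = Sg K (t - t / 2) (AS K (t / 2) x) := by
      rw [← h1]; rfl
    rw [h2]
    have h3 := Sg_AS (K := K) (s := t - t / 2) (t := t / 2) (by linarith) (by linarith)
    rw [sub_add_cancel] at h3
    rw [← h3]
    rfl

end

end Pool.Agent.Lib.MP_79abb3_an.SC
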