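import Pool.Agent.Lib.MP_79abb3_an.P25.Fld
import Pool.Agent.Lib.MP_79abb3_an.P25.Fourier
import Pool.Agent.Lib.MP_79abb3_an.SC.LaA

/-!
Theorem C, stage for `L²` data: Parseval on the cell.
-/

set_option autoImplicit false
set_option linter.unusedSectionVars false

open MeasureTheory Set Filter Topology Function
open scoped ENNReal InnerProductSpace

namespace Pool.Agent.Lib.MP_79abb3_an.SC

open Pool.Agent.Lib.MP_79abb3_an.P25

section
variable {H : ℝ} [hH : Fact (0 < H)]

theorem ee_zero' (ω : ℝ) (y : ℝ) : ee ω 0 y = 1 := by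
  unfold ee
  simp

private theorem lp_ee {Y : ℝ} (hY : Y ≠ 0) (n : ℤ) : ee (Real.pi / Y) n Y = ee (Real.pi / Y) n (-Y) := by
  unfold ee
  refine Complex.exp_eq_exp_iff_exists_int.2 ⟨n, ?_⟩
  have h1 : Real.pi / Y * n * Y = Real.pi * n := by field_simp
  have h2 : Real.pi / Y * n * -Y = -(Real.pi * n) := by field_simp
  rw [h1, h2]
  push_cast
  ring

/-- Integrals of the characters. -/
theorem int_ee (n : ℤ) :
    ∫ y in (-H)..H, ee (Real.pi / H) n y = if n = 0 then ((2 * H : ℝ) : ℂ) else 0 := by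
  have hH0 := hH.out
  split_ifs with h
  · subst h
    simp only [ee_zero', intervalIntegral.integral_const]
    rw [sub_neg_eq_add, Complex.real_smul, mul_one]
    congr 1
    ring
  · have hc : Complex.I * ((Real.pi / H * n : ℝ) : ℂ) ≠ 0 := by
      refine mul_ne_zero Complex.I_ne_zero ?_
      norm_cast
      have h1 : (n : ℝ) ≠ 0 := by exact_mod_cast h
      have := Real.pi_pos
      positivity
    have h1 : ∀ y, HasDerivAt (fun y => ee (Real.pi / H) n y *
        (Complex.I * ((Real.pi / H * n : ℝ) : ℂ))⁻¹) (ee (Real.pi / H) n y) y := fun y => by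
      have h2 := (fo_hasDerivAt_ee (Real.pi / H) n y).mul_const
        (Complex.I * ((Real.pi / H * n : ℝ) : ℂ))⁻¹
      rwa [mul_assoc, mul_inv_cancel₀ hc, mul_one] at h2
    rw [intervalIntegral.integral_eq_sub_of_hasDerivAt (fun y _ => h1 y)
      ((fld_ee_continuous _ n).intervalIntegrable _ _), lp_ee hH0.ne', sub_self]

/-- Sums and integrals. -/
theorem tsum_int {α : Type} [MeasurableSpace α] {μ : Measure α} [IsFiniteMeasure μ] {f : ℤ → α → ℂ}
    (hm : ∀ n, AEStronglyMeasurable (f n) μ) {C : ℤ → ℝ} (hC : Summable C)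
    (hb : ∀ n x, ‖f n x‖ ≤ C n) : ∫ x, ∑' n, f n x ∂μ = ∑' n, ∫ x, f n x ∂μ := by
  have hi : ∀ n, Integrable (f n) μ := fun n =>
    Integrable.of_bound (hm n) (C n) (Eventually.of_forall (hb n))
  refine (integral_tsum_of_summable_integral_norm hi ?_).symm
  refine Summable.of_nonneg_of_le (fun n => integral_nonneg fun q => norm_nonneg _) (fun n => ?_)
    (hC.mul_left (μ.real univ))
  calc ∫ q, ‖f n q‖ ∂μ ≤ ∫ _q, C n ∂μ := integral_mono (hi n).norm (integrable_const _) (hb n)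
    _ = μ.real univ * C n := by rw [integral_const, smul_eq_mul]

/-- Fourier coefficients of a field. -/
theorem int_fld_ee {u : ℤ → CI H} (hu : Summable fun n => ‖u n‖) (hs : Sy u) (n : ℤ) (z : ℝ) :
    ∫ y in (-H)..H, ((fld (Real.pi / H) u y z : ℝ) : ℂ) * ee (Real.pi / H) n y =
      ((2 * H : ℝ) : ℂ) * star (ex (u n) z) := by
  have hH0 := hH.out
  rw [intervalIntegral.integral_of_le (by linarith)]
  have e1 : ∀ y : ℝ, ((fld (Real.pi / H) u y z : ℝ) : ℂ) * ee (Real.pi / H) n y =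
      ∑' m : ℤ, ex (u m) z * ee (Real.pi / H) (m + n) y := fun y => by
    rw [← fld_real hu hs, ← tsum_mul_right]
    refine tsum_congr fun m => ?_
    rw [ee_add, mul_assoc]
  simp only [e1]
  rw [tsum_int (f := fun m y => ex (u m) z * ee (Real.pi / H) (m + n) y) (C := fun m => ‖u m‖)
    (fun m => (continuous_const.mul (fld_ee_continuous _ _)).aestronglyMeasurable) hu fun m y => by
      rw [norm_mul, ee_norm, mul_one]
      exact norm_ex_le _ _]
  have e2 : ∀ m : ℤ, ∫ y in Ioc (-H) H, ex (u m) z * ee (Real.pi / H) (m + n) y =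
      if m = -n then ((2 * H : ℝ) : ℂ) * star (ex (u n) z) else 0 := fun m => by
    rw [integral_const_mul, ← intervalIntegral.integral_of_le (by linarith), int_ee]
    by_cases h : m = -n
    · subst h
      rw [if_pos rfl, if_pos (by ring), hs n, ex_star, mul_comm]
    · rw [if_neg h, if_neg (by omega), mul_zero]
  simp only [e2]
  exact tsum_ite_eq (-n) _

/-- Integrability on the cell. -/
theorem fld_sq_int {u : ℤ → CI H} (hu : Summable fun n => ‖u n‖) {ω : ℝ} {K : Set (ℝ × ℝ)}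
    (hK : IsCompact K) : IntegrableOn (fun q : ℝ × ℝ => fld ω u q.1 q.2 ^ 2) K :=
  ((fld_cont hu).pow 2).continuousOn.integrableOn_compact hK

theorem iota_sq (f : CI H) : ‖(iota f : Z2 H)‖ ^ 2 = ∫ z in (0:ℝ)..H, ‖ex f z‖ ^ 2 := by
  rw [norm_sq_Z2, intervalIntegral.integral_of_le hH.out.le, intervalIntegral.integral_of_le hH.out.le]
  refine integral_congr_ae ?_
  filter_upwards [coe_iota f] with z hz
  rw [hz]

/-- **Parseval** on the cell. -/
theorem parseval {u : ℤ → CI H} (hu : Summable fun n => ‖u n‖) (hs : Sy u) :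
    ∫ q in Icc (-H) H ×ˢ Icc (0:ℝ) H, fld (Real.pi / H) u q.1 q.2 ^ 2 =
      2 * H * ∑' n, ‖(iota (u n) : Z2 H)‖ ^ 2 := by
  have hH0 := hH.out
  set μ : Measure (ℝ × ℝ) := (volume.restrict (Ioc (-H) H)).prod (volume.restrict (Ioc (0:ℝ) H))
    with hμ
  have hfin : IsFiniteMeasure μ := by rw [hμ]; infer_instance
  have hμ' : (volume : Measure (ℝ × ℝ)).restrict (Icc (-H) H ×ˢ Icc (0:ℝ) H) = μ := by
    rw [hμ, Measure.prod_restrict]
    refine Measure.restrict_congr_set ?_
    exact (Measure.set_prod_ae_eq Ioc_ae_eq_Icc Ioc_ae_eq_Icc).symm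
  rw [hμ']
  set M : ℝ := ∑' n, ‖u n‖ with hM
  have hM0 : 0 ≤ M := tsum_nonneg fun n => norm_nonneg _
  have key : ((∫ q, fld (Real.pi / H) u q.1 q.2 ^ 2 ∂μ : ℝ) : ℂ) =
      ((2 * H * ∑' n, ‖(iota (u n) : Z2 H)‖ ^ 2 : ℝ) : ℂ) := by
    rw [← integral_complex_ofReal]
    have e1 : ∀ q : ℝ × ℝ, ((fld (Real.pi / H) u q.1 q.2 ^ 2 : ℝ) : ℂ) =
        ∑' n : ℤ, ((fld (Real.pi / H) u q.1 q.2 : ℝ) : ℂ) *
          (ex (u n) q.2 * ee (Real.pi / H) n q.1) := fun q => by
      rw [tsum_mul_left, fld_real hu hs, pow_two, Complex.ofReal_mul]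
    simp only [e1]
    have hc : ∀ n : ℤ, Continuous fun q : ℝ × ℝ => ((fld (Real.pi / H) u q.1 q.2 : ℝ) : ℂ) *
        (ex (u n) q.2 * ee (Real.pi / H) n q.1) := fun n =>
      (Complex.continuous_ofReal.comp (fld_cont hu)).mul
        (((continuous_ex (u n)).comp continuous_snd).mul ((fld_ee_continuous _ n).comp continuous_fst))
    have hb : ∀ (n : ℤ) (q : ℝ × ℝ), ‖((fld (Real.pi / H) u q.1 q.2 : ℝ) : ℂ) *
        (ex (u n) q.2 * ee (Real.pi / H) n q.1)‖ ≤ M * ‖u n‖ := fun n q => by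
      rw [norm_mul, Complex.norm_real]
      exact mul_le_mul (fld_abs_le hu _ _) (fld_term_le u n q.1 q.2) (norm_nonneg _) hM0
    rw [tsum_int (C := fun n => M * ‖u n‖) (fun n => (hc n).aestronglyMeasurable) (hu.mul_left M) hb]
    have e2 : ∀ n : ℤ, ∫ q, ((fld (Real.pi / H) u q.1 q.2 : ℝ) : ℂ) *
        (ex (u n) q.2 * ee (Real.pi / H) n q.1) ∂μ =
        ((2 * H * ‖(iota (u n) : Z2 H)‖ ^ 2 : ℝ) : ℂ) := fun n => by
      rw [hμ, integral_prod_symm _ (Integrable.of_bound (hc n).aestronglyMeasurable (M * ‖u n‖)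
        (Eventually.of_forall (hb n))), iota_sq, Complex.ofReal_mul, intervalIntegral.integral_of_le
        hH0.le, ← integral_complex_ofReal, ← integral_const_mul]
      refine integral_congr_ae (Eventually.of_forall fun z => ?_)
      show ∫ y in Ioc (-H) H, ((fld (Real.pi / H) u y z : ℝ) : ℂ) *
        (ex (u n) z * ee (Real.pi / H) n y) = ((2 * H : ℝ) : ℂ) * ((‖ex (u n) z‖ ^ 2 : ℝ) : ℂ)
      rw [← intervalIntegral.integral_of_le (by linarith)]
      have h2 : ∀ y, ((fld (Real.pi / H) u y z : ℝ) : ℂ) * (ex (u n) z * ee (Real.pi / H) n y) =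
          ex (u n) z * (((fld (Real.pi / H) u y z : ℝ) : ℂ) * ee (Real.pi / H) n y) := fun y => by ring
      simp only [h2]
      rw [intervalIntegral.integral_const_mul, int_fld_ee hu hs]
      have h3 : ((‖ex (u n) z‖ ^ 2 : ℝ) : ℂ) = ex (u n) z * star (ex (u n) z) := by
        rw [Complex.star_def, Complex.mul_conj, Complex.normSq_eq_norm_sq]
      rw [h3]
      ring
    simp only [e2]
    rw [← Complex.ofReal_tsum, tsum_mul_left]
  exact_mod_cast key

/-- Summability of the squares of the norms. -/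
theorem iota_sq_sum {u : ℤ → CI H} (hu : Summable fun n => ‖u n‖) :
    Summable fun n => ‖(iota (u n) : Z2 H)‖ ^ 2 := by
  have h1 : Summable fun n => ‖(iota (u n) : Z2 H)‖ := by
    refine Summable.of_nonneg_of_le (fun n => norm_nonneg _)
      (fun n => (iota : CI H →L[ℂ] Z2 H).le_opNorm (u n)) (hu.mul_left _)
  refine Summable.of_nonneg_of_le (fun n => by positivity) (fun n => ?_)
    (h1.mul_left (∑' n, ‖(iota (u n) : Z2 H)‖))
  rw [pow_two]
  exact mul_le_mul_of_nonneg_right (h1.le_tsum n fun m _ => norm_nonneg _) (norm_nonneg _)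

/-- Parseval, lower part of the cell. -/
theorem parseval_le {u : ℤ → CI H} (hu : Summable fun n => ‖u n‖) (hs : Sy u) {h : ℝ} (hh : h ≤ H) :
    ∫ q in Icc (-H) H ×ˢ Icc (0:ℝ) h, fld (Real.pi / H) u q.1 q.2 ^ 2 ≤
      2 * H * ∑' n, ‖(iota (u n) : Z2 H)‖ ^ 2 := by
  rw [← parseval hu hs]
  refine setIntegral_mono_set (fld_sq_int hu (isCompact_Icc.prod isCompact_Icc))
    (Eventually.of_forall fun q => by positivity) ?_
  exact (prod_mono le_rfl (Icc_subset_Icc le_rfl hh)).eventuallyLE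

end

end Pool.Agent.Lib.MP_79abb3_an.SC
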