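import Pool.Agent.Lib.MP_79abb3_an.SC.ExG
import Pool.Agent.Lib.MP_79abb3_an.SC.NcB
import Pool.Agent.Lib.MP_79abb3_an.SC.LaDD

/-!
Theorem C (MP_79abb3_an), RECUT: the stream function `ψ = E W` is replaced by `χ ψ`, `χ` a cut-off in
`z`; the new `W` is `χ W + χ' E W`. The class `DD` is preserved.
-/

set_option autoImplicit false
set_option linter.unusedSectionVars false

open MeasureTheory Set Filter Topology Function
open scoped ENNReal InnerProductSpace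

namespace Pool.Agent.Lib.MP_79abb3_an.SC

open Pool.Agent.Lib.MP_79abb3_an.P25

/-- If `M` maps `Ran K` to itself (`K` injective), `M K = K M'` with `M'` bounded. -/
theorem exists_lift_op {X : Type*} [NormedAddCommGroup X] [NormedSpace ℂ X] [CompleteSpace X]
    (K M : X →L[ℂ] X) (hi : ∀ x, K x = 0 → x = 0) (h : ∀ x, ∃ y, M (K x) = K y) :
    ∃ M' : X →L[ℂ] X, ∀ x, M (K x) = K (M' x) := by
  choose m hm using h
  have hinj : ∀ x y, K x = K y → x = y := fun x y e => sub_eq_zero.1 (hi _ (by rw [map_sub, e, sub_self]))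
  let L : X →ₗ[ℂ] X :=
    { toFun := m
      map_add' := fun x y => hinj _ _ (by rw [← hm, map_add, map_add, map_add, hm, hm])
      map_smul' := fun c x => hinj _ _ (by
        rw [RingHom.id_apply, ← hm, map_smul, map_smul, map_smul, hm]) }
  have hg : ∀ (u : ℕ → X) (x y : X), Tendsto u atTop (𝓝 x) → Tendsto (L ∘ u) atTop (𝓝 y) → y = L x := by
    intro u x y h1 h2
    refine hinj _ _ ?_
    have h3 : Tendsto (fun n => K (m (u n))) atTop (𝓝 (K y)) := (K.continuous.tendsto y).comp h2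
    have h4 : Tendsto (fun n => M (K (u n))) atTop (𝓝 (M (K x))) :=
      ((M.continuous.comp K.continuous).tendsto x).comp h1
    have h5 : (fun n => K (m (u n))) = fun n => M (K (u n)) := funext fun n => (hm _).symm
    rw [h5] at h3
    have h6 := tendsto_nhds_unique h3 h4
    rw [h6]
    exact hm x
  exact ⟨ContinuousLinearMap.ofSeqClosedGraph hg, fun x => hm x⟩

/-- Elements of `Ran K`. -/
theorem OD.range_of {X : Type} [NormedAddCommGroup X] [InnerProductSpace ℂ X] [CompleteSpace X]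
    (D : OD X) {g y : X} (hP : D.P g = g) (h : ∀ f, D.P f = f → ⟪D.a g, f⟫_ℂ = ⟪y, D.b (D.T f)⟫_ℂ) :
    D.G y = g ∧ D.K y = D.b (D.T g) := by
  have hd : D.P (g - D.G y) = g - D.G y := by rw [map_sub, hP, D.P_G]
  have h1 : ⟪D.a (g - D.G y), g - D.G y⟫_ℂ = 0 := by
    rw [map_sub, inner_sub_left, h _ hd, D.inner_aG y _ hd, sub_self]
  have h2 := D.coer (g - D.G y)
  rw [h1, Complex.zero_re] at h2
  have h3 : ‖g - D.G y‖ ^ 2 ≤ 0 := by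
    have := D.c₀_pos
    by_contra hc
    push Not at hc
    have := mul_pos D.c₀_pos hc
    linarith
  have h4 : ‖g - D.G y‖ = 0 := by
    have := sq_nonneg ‖g - D.G y‖
    exact pow_eq_zero_iff (two_ne_zero) |>.1 (le_antisymm h3 this)
  have h5 : g = D.G y := sub_eq_zero.1 (norm_eq_zero.1 h4)
  exact ⟨h5.symm, by rw [D.K_apply, ← h5]⟩

section
variable {H : ℝ} [hH : Fact (0 < H)]

/-! ### Relations -/

theorem Ms_eq_mb (b : CI H) : (Ms b : HH H →L[ℂ] HH H) = mb b := rfl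
theorem DTc_eq (ω : ℝ) : (DTc ω : HH H →L[ℂ] HH H) = DT ω := rfl

theorem Dk_EE (ω : ℝ) (x : HH H) : Dk ω (EE ω x) (DEc ω x) := fun n => by
  rw [DEc_apply, EE_apply]; rfl

theorem DH_EE (ω : ℝ) (x : HH H) : DH (EE ω x) (x - DEc ω x) := fun n => by
  refine ⟨Ez (ω * n) (x n), ?_, ?_⟩
  · rw [EE_apply, E2_apply]
  · rw [lp.coeFn_sub, Pi.sub_apply, DEc_apply]
    exact Ez_dz (ω * n) (x n)

/-- `|D|² E T g = |D| E |D| T g` -/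
theorem Dk_DE (ω : ℝ) (g : HH H) : Dk ω (DEc ω (TT ω g)) (DEc ω (DT ω g)) := fun n => by
  rw [DEc_apply, DEc_apply, TT_apply, DT_apply, map_smul, smul_comm]

theorem DH_DE (ω : ℝ) (g : HH H) : DH (DEc ω (TT ω g)) (DT ω g - DEc ω (DT ω g)) :=
  (DH_EE ω (TT ω g)).dd (Dk_EE ω (TT ω g)) ((Dk_TT ω g).sub (Dk_DE ω g))

/-- `⟪q, f⟫ = ⟪|D| q + q_z, T f⟫` for `(T f)(0) = 0`. -/
theorem inner_ibp {ω : ℝ} {q q1 q2 f : HH H} (h1 : DH q q1) (h2 : Dk ω q q2) (hf : PP ω f = f) :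
    ⟪q, f⟫_ℂ = ⟪q2 + q1, TT ω f⟫_ℂ := by
  have e1 := h1.ibp (DH_TT ω f) (Zr_TT_zero ω hf) (Zr_TT_H ω f)
  have e2 := h2.inner (Dk_TT ω f)
  have e3 : f = DT ω f - (DT ω f - f) := by abel
  rw [inner_add_left, e1, e2]
  conv_lhs => rw [e3]
  rw [inner_sub_right]
  ring

/-! ### The operators -/

/-- A cut-off in `z` with three derivatives. -/
structure Cut (χ χ1 χ2 : CI H) : Prop where
  d : IsD χ χ1
  d1 : IsD χ1 χ2
  d2 : ∃ χ3 : CI H, IsD χ2 χ3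
  re : star χ = χ
  re1 : star χ1 = χ1
  re2 : star χ2 = χ2
  z1 : ex χ1 H = 0

/-- `χ W + χ' E W` -/
noncomputable def MR (ω : ℝ) (χ χ1 : CI H) : HH H →L[ℂ] HH H := Ms χ + Ms χ1 ∘L EE ω

/-- `B (χ W + χ' E W)`, `W = T g` -/
noncomputable def gR (ω : ℝ) (χ χ1 χ2 : CI H) : HH H →L[ℂ] HH H :=
  Bm ω χ χ1 + Bz ω χ1 χ2 ∘L TT ω

theorem MR_apply (ω : ℝ) (χ χ1 : CI H) (W : HH H) : MR ω χ χ1 W = Ms χ W + Ms χ1 (EE ω W) := rfl

theorem gR_apply (ω : ℝ) (χ χ1 χ2 : CI H) (g : HH H) :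
    gR ω χ χ1 χ2 g = Bm ω χ χ1 g + Bz ω χ1 χ2 (TT ω g) := rfl

variable {χ χ1 χ2 : CI H}

theorem Cut.tt (c : Cut χ χ1 χ2) (ω : ℝ) (g : HH H) :
    TT ω (gR ω χ χ1 χ2 g) = MR ω χ χ1 (TT ω g) := by
  rw [gR_apply, map_add, TT_Bm ω c.d, TT_Bz ω c.d1 c.z1, MR_apply]

theorem Cut.pp (c : Cut χ χ1 χ2) (ω : ℝ) {g : HH H} (hg : PP ω g = g) :
    PP ω (gR ω χ χ1 χ2 g) = gR ω χ χ1 χ2 g := by
  rw [gR_apply, map_add, PP_Bm ω c.d (Or.inr hg), PP_Bz ω c.d1 c.z1]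

theorem gR_eq (ω : ℝ) (g : HH H) : gR ω χ χ1 χ2 g =
    Ms χ g + (Ms χ1 ((2:ℂ) • DEc ω (TT ω g) - (2:ℂ) • TT ω g) - Ms χ2 (EE ω (TT ω g))) := by
  show (Ms χ g - Ms χ1 (TT ω g)) + (-(Ms χ2 (EE ω (TT ω g))) - Ms χ1 (TT ω g) +
    (2:ℂ) • (Ms χ1 (DEc ω (TT ω g)))) = _
  rw [map_sub, map_smul, map_smul, two_smul ℂ (Ms χ1 (TT ω g))]
  abel

/-- The operator `MR` maps the domain of `A` to itself. -/
theorem Cut.range (c : Cut χ χ1 χ2) (G : Geo H) (x : HH H) :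
    ∃ y, MR G.ω χ χ1 (G.D.K x) = G.D.K y := by
  set g := G.D.G x with hg
  have hPg : PP G.ω g = g := G.D.P_G x
  have hK : G.D.K x = TT G.ω g := rfl
  obtain ⟨a1, a2, d1, d2, c1, c2⟩ := G.ha.d
  -- the lower order term
  set W := TT G.ω g with hW
  set u := (2:ℂ) • DEc G.ω W - (2:ℂ) • W with hu
  have hu1 : DH u ((2:ℂ) • (DT G.ω g - DEc G.ω (DT G.ω g)) - (2:ℂ) • (DT G.ω g - g)) :=
    ((DH_DE G.ω g).smul 2).sub ((DH_TT G.ω g).smul 2)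
  have hu2 : Dk G.ω u ((2:ℂ) • DEc G.ω (DT G.ω g) - (2:ℂ) • DT G.ω g) :=
    ((Dk_DE G.ω g).smul 2).sub ((Dk_TT G.ω g).smul 2)
  obtain ⟨χ3, hχ3⟩ := c.d2
  set e := EE G.ω W with he
  have he1 : DH e (W - DEc G.ω W) := DH_EE G.ω W
  have he2 : Dk G.ω e (DEc G.ω W) := Dk_EE G.ω W
  set s := Ms χ1 u - Ms χ2 e with hs
  obtain ⟨s1, hs1⟩ : ∃ s1, DH s s1 := ⟨_, (hu1.mb c.d1).sub (he1.mb hχ3)⟩
  obtain ⟨s2, hs2⟩ : ∃ s2, Dk G.ω s s2 := ⟨_, (hu2.mb χ1).sub (he2.mb χ2)⟩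
  set q := cm G.a s with hq
  obtain ⟨q1, hq1⟩ : ∃ q1, DH q q1 := ⟨_, (hs1.cm G.ha.c.s0 c1.s0 d1).1⟩
  obtain ⟨q2, hq2⟩ : ∃ q2, Dk G.ω q q2 := ⟨_, hs2.cm (p := 3) G.ha.c⟩
  refine ⟨Ms χ x + Ms χ1 (cm G.a g) + (q2 + q1), ?_⟩
  have hgR : gR G.ω χ χ1 χ2 g = Ms χ g + s := gR_eq G.ω g
  have hP : G.D.P (gR G.ω χ χ1 χ2 g) = gR G.ω χ χ1 χ2 g := c.pp G.ω hPg
  have key := G.D.range_of (g := gR G.ω χ χ1 χ2 g)
    (y := Ms χ x + Ms χ1 (cm G.a g) + (q2 + q1)) hP ?_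
  · rw [key.2, hK]
    exact (c.tt G.ω g).symm
  · intro f hf
    have hf' : PP G.ω f = f := hf
    show ⟪cm G.a (gR G.ω χ χ1 χ2 g), f⟫_ℂ = ⟪Ms χ x + Ms χ1 (cm G.a g) + (q2 + q1), TT G.ω f⟫_ℂ
    have e1 : ⟪cm G.a (Ms χ g), f⟫_ℂ = ⟪Ms χ x + Ms χ1 (cm G.a g), TT G.ω f⟫_ℂ := by
      have h1 : ⟪cm G.a (Ms χ g), f⟫_ℂ = ⟪cm G.a g, Ms χ f⟫_ℂ := by
        rw [← Ms_cm χ G.ha.c.s0, inner_Ms, c.re]
      have h2 : Ms χ f = Bm G.ω χ χ1 f + Ms χ1 (TT G.ω f) := by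
        show Ms χ f = (Ms χ f - Ms χ1 (TT G.ω f)) + Ms χ1 (TT G.ω f)
        abel
      have h3 : ⟪cm G.a g, Bm G.ω χ χ1 f⟫_ℂ = ⟪x, TT G.ω (Bm G.ω χ χ1 f)⟫_ℂ :=
        G.D.inner_aG x (Bm G.ω χ χ1 f) (PP_Bm G.ω c.d (Or.inr hf'))
      rw [h1, h2, inner_add_right, h3, TT_Bm G.ω c.d, inner_add_left]
      have h4 : ⟪x, Ms χ (TT G.ω f)⟫_ℂ = ⟪Ms χ x, TT G.ω f⟫_ℂ := by rw [inner_Ms, c.re]
      have h5 : ⟪cm G.a g, Ms χ1 (TT G.ω f)⟫_ℂ = ⟪Ms χ1 (cm G.a g), TT G.ω f⟫_ℂ := by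
        rw [inner_Ms, c.re1]
      rw [h4, h5]
    rw [hgR, map_add, inner_add_left, e1, inner_ibp hq1 hq2 hf', ← inner_add_left]

/-- RECUT preserves the class `DD`. -/
theorem Cut.dd (c : Cut χ χ1 χ2) (G : Geo H) {W : HH H} (hW : DD G.D.K W) :
    DD G.D.K (MR G.ω χ χ1 W) := by
  obtain ⟨C, hC⟩ := hW
  obtain ⟨M', hM'⟩ := exists_lift_op G.D.K (MR G.ω χ χ1) G.D.K_injective (c.range G)
  exact ⟨_, hC.recut G.D.K_nonneg G.D.K_injective (MR G.ω χ χ1) M' hM'⟩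

end

end Pool.Agent.Lib.MP_79abb3_an.SC
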