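import Mathlib

/-!
Theorem C, stage for `L²` data: fast decreasing times `τ j` and the corresponding partition of unity.
-/

set_option autoImplicit false
set_option linter.unusedSectionVars false

open MeasureTheory Set Filter Topology Function

namespace Pool.Agent.Lib.MP_79abb3_an.SC

/-! ### The smooth step -/

theorem st_deriv_zero {x : ℝ} (h : x ≤ 0 ∨ 1 ≤ x) : deriv Real.smoothTransition x = 0 := by
  rcases h with h | h
  · have h1 : Real.smoothTransition x = 0 := Real.smoothTransition.zero_of_nonpos h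
    refine IsLocalMin.deriv_eq_zero (Eventually.of_forall fun y => ?_)
    show Real.smoothTransition x ≤ Real.smoothTransition y
    rw [h1]; exact Real.smoothTransition.nonneg y
  · have h1 : Real.smoothTransition x = 1 := Real.smoothTransition.one_of_one_le h
    refine IsLocalMax.deriv_eq_zero (Eventually.of_forall fun y => ?_)
    show Real.smoothTransition y ≤ Real.smoothTransition x
    rw [h1]; exact Real.smoothTransition.le_one y

theorem st_deriv_cont : Continuous (deriv Real.smoothTransition) :=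
  (Real.smoothTransition.contDiff (n := 1)).continuous_deriv le_rfl

theorem st_hasDerivAt (x : ℝ) :
    HasDerivAt Real.smoothTransition (deriv Real.smoothTransition x) x :=
  ((Real.smoothTransition.contDiff (n := 1)).differentiable one_ne_zero x).hasDerivAt

theorem st_deriv_bdd : ∃ C, 0 ≤ C ∧ ∀ x, |deriv Real.smoothTransition x| ≤ C := by
  obtain ⟨C, hC⟩ := (isCompact_Icc (a := (0:ℝ)) (b := 1)).exists_bound_of_continuousOn
    st_deriv_cont.continuousOn
  refine ⟨|C|, abs_nonneg C, fun x => ?_⟩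
  by_cases hx : x ∈ Icc (0:ℝ) 1
  · exact (hC x hx).trans (le_abs_self C)
  · have h1 : x ≤ 0 ∨ 1 ≤ x := by
      rw [mem_Icc, not_and_or, not_le, not_le] at hx
      exact hx.imp le_of_lt le_of_lt
    rw [st_deriv_zero h1, abs_zero]
    exact abs_nonneg C

/-! ### Times -/

/-- Fast decreasing times. -/
structure Tms (τ : ℕ → ℝ) : Prop where
  pos : ∀ j, 0 < τ j
  half : ∀ j, τ (j + 1) ≤ τ j / 2

theorem exists_times {ρ : ℕ → ℝ} (hρ : ∀ j, 0 < ρ j) : ∃ τ : ℕ → ℝ, Tms τ ∧ ∀ j, τ j ≤ ρ j := by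
  let τ : ℕ → ℝ := fun n => Nat.rec (ρ 0) (fun n t => min (t / 2) (ρ (n + 1))) n
  have h1 : ∀ n, τ (n + 1) = min (τ n / 2) (ρ (n + 1)) := fun n => rfl
  have hp : ∀ j, 0 < τ j := by
    intro j
    induction j with
    | zero => exact hρ 0
    | succ j ih => rw [h1]; exact lt_min (half_pos ih) (hρ _)
  refine ⟨τ, ⟨hp, fun j => ?_⟩, fun j => ?_⟩
  · rw [h1]; exact min_le_left _ _
  · cases j with
    | zero => exact le_rfl
    | succ j => rw [h1]; exact min_le_right _ _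

variable {τ : ℕ → ℝ}

theorem Tms.lt (h : Tms τ) (j : ℕ) : τ (j + 1) < τ j := by
  have := h.half j
  have := h.pos j
  linarith

theorem Tms.anti (h : Tms τ) : Antitone τ := antitone_nat_of_succ_le fun j => (h.lt j).le

theorem Tms.le_pow (h : Tms τ) (j : ℕ) : τ j ≤ τ 0 * (1 / 2) ^ j := by
  induction j with
  | zero => simp
  | succ j ih =>
    have := h.half j
    rw [pow_succ]
    linarith

theorem Tms.exists_le (h : Tms τ) {a : ℝ} (ha : 0 < a) (J : ℕ) : ∃ K, J ≤ K ∧ τ K ≤ a := by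
  have h1 : Tendsto (fun j : ℕ => τ 0 * (1 / 2 : ℝ) ^ j) atTop (𝓝 (τ 0 * 0)) :=
    (tendsto_pow_atTop_nhds_zero_of_lt_one (by norm_num) (by norm_num)).const_mul _
  rw [mul_zero] at h1
  obtain ⟨K, hK⟩ := ((h1.eventually (gt_mem_nhds ha)).and (eventually_ge_atTop J)).exists
  exact ⟨K, hK.2, (h.le_pow K).trans hK.1.le⟩

/-- The interval which contains a given time. -/
theorem Tms.exists_mem (h : Tms τ) {J : ℕ} {r : ℝ} (hr : r ∈ Ioc 0 (τ J)) :
    ∃ k, J ≤ k ∧ r ∈ Ioc (τ (k + 1)) (τ k) := by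
  classical
  obtain ⟨K, hK1, hK2⟩ := h.exists_le (half_pos hr.1) J
  have hex : ∃ K, τ K < r := ⟨K, hK2.trans_lt (half_lt_self hr.1)⟩
  have h0 := Nat.find_spec hex
  have hmin : ∀ m < Nat.find hex, r ≤ τ m := fun m hm => not_lt.1 (Nat.find_min hex hm)
  have hJ : J < Nat.find hex := by
    by_contra hcon
    have := h.anti (not_lt.1 hcon)
    linarith [hr.2]
  obtain ⟨k, hk⟩ : ∃ k, Nat.find hex = k + 1 := ⟨Nat.find hex - 1, by omega⟩
  rw [hk] at h0 hmin hJ
  exact ⟨k, by omega, h0, hmin k (by omega)⟩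

/-- the step at the time `τ j` -/
noncomputable def stj (τ : ℕ → ℝ) (j : ℕ) (t : ℝ) : ℝ :=
  Real.smoothTransition ((t - τ (j + 1)) / (τ j - τ (j + 1)))

/-- its derivative -/
noncomputable def stj' (τ : ℕ → ℝ) (j : ℕ) (t : ℝ) : ℝ :=
  deriv Real.smoothTransition ((t - τ (j + 1)) / (τ j - τ (j + 1))) / (τ j - τ (j + 1))

theorem stj_hasDerivAt (j : ℕ) (t : ℝ) : HasDerivAt (stj τ j) (stj' τ j t) t := by
  have h1 : HasDerivAt (fun t => (t - τ (j + 1)) / (τ j - τ (j + 1))) (1 / (τ j - τ (j + 1))) t :=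
    ((hasDerivAt_id t).sub_const _).div_const _
  have h2 := (st_hasDerivAt ((t - τ (j + 1)) / (τ j - τ (j + 1)))).comp t h1
  refine h2.congr_deriv ?_
  unfold stj'
  ring

theorem stj'_cont (j : ℕ) : Continuous (stj' τ j) := by
  unfold stj'
  exact (st_deriv_cont.comp (by fun_prop)).div_const _

theorem stj_cont (j : ℕ) : Continuous (stj τ j) :=
  continuous_iff_continuousAt.2 fun t => (stj_hasDerivAt j t).continuousAt

theorem stj_mem (j : ℕ) (t : ℝ) : 0 ≤ stj τ j t ∧ stj τ j t ≤ 1 :=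
  ⟨Real.smoothTransition.nonneg _, Real.smoothTransition.le_one _⟩

theorem Tms.stj_zero (h : Tms τ) {j : ℕ} {t : ℝ} (ht : t ≤ τ (j + 1)) : stj τ j t = 0 ∧ stj' τ j t = 0 := by
  have h1 := h.lt j
  have h2 : (t - τ (j + 1)) / (τ j - τ (j + 1)) ≤ 0 :=
    div_nonpos_of_nonpos_of_nonneg (by linarith) (by linarith)
  refine ⟨Real.smoothTransition.zero_of_nonpos h2, ?_⟩
  unfold stj'
  rw [st_deriv_zero (Or.inl h2), zero_div]

theorem Tms.stj_one (h : Tms τ) {j : ℕ} {t : ℝ} (ht : τ j ≤ t) : stj τ j t = 1 ∧ stj' τ j t = 0 := by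
  have h1 := h.lt j
  have h2 : 1 ≤ (t - τ (j + 1)) / (τ j - τ (j + 1)) := by
    rw [le_div_iff₀ (by linarith)]; linarith
  refine ⟨Real.smoothTransition.one_of_one_le h2, ?_⟩
  unfold stj'
  rw [st_deriv_zero (Or.inr h2), zero_div]

theorem Tms.stj'_le (h : Tms τ) : ∃ C, 0 ≤ C ∧ ∀ j t, |stj' τ j t| ≤ C / τ j := by
  obtain ⟨C, hC, h1⟩ := st_deriv_bdd
  refine ⟨2 * C, by positivity, fun j t => ?_⟩
  have h2 := h.half j
  have h3 := h.pos j
  unfold stj'
  have h4 : τ j / 2 ≤ τ j - τ (j + 1) := by linarith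
  rw [abs_div, abs_of_pos (show 0 < τ j - τ (j + 1) by linarith)]
  calc |deriv Real.smoothTransition ((t - τ (j + 1)) / (τ j - τ (j + 1)))| / (τ j - τ (j + 1))
      ≤ C / (τ j / 2) := by
        have := h1 ((t - τ (j + 1)) / (τ j - τ (j + 1)))
        gcongr
    _ = _ := by field_simp

/-- the partition of unity -/
noncomputable def pu (τ : ℕ → ℝ) (j : ℕ) (t : ℝ) : ℝ :=
  match j with
  | 0 => stj τ 0 t
  | j + 1 => stj τ (j + 1) t - stj τ j t

noncomputable def pu' (τ : ℕ → ℝ) (j : ℕ) (t : ℝ) : ℝ :=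
  match j with
  | 0 => stj' τ 0 t
  | j + 1 => stj' τ (j + 1) t - stj' τ j t

theorem pu_hasDerivAt (j : ℕ) (t : ℝ) : HasDerivAt (pu τ j) (pu' τ j t) t := by
  cases j with
  | zero => exact stj_hasDerivAt 0 t
  | succ j => exact (stj_hasDerivAt (j + 1) t).sub (stj_hasDerivAt j t)

theorem pu'_cont (j : ℕ) : Continuous (pu' τ j) := by
  cases j with
  | zero => exact stj'_cont 0
  | succ j => exact (stj'_cont (j + 1)).sub (stj'_cont j)

theorem pu_cont (j : ℕ) : Continuous (pu τ j) :=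
  continuous_iff_continuousAt.2 fun t => (pu_hasDerivAt j t).continuousAt

variable {k : ℕ} {t : ℝ}

theorem Tms.pu_self (h : Tms τ) (ht : t ≤ τ k) : pu τ k t = stj τ k t ∧ pu' τ k t = stj' τ k t := by
  cases k with
  | zero => exact ⟨rfl, rfl⟩
  | succ k =>
    obtain ⟨h1, h2⟩ := h.stj_zero ht
    exact ⟨by show stj τ (k + 1) t - stj τ k t = _; rw [h1, sub_zero],
      by show stj' τ (k + 1) t - stj' τ k t = _; rw [h2, sub_zero]⟩

theorem Tms.pu_next (h : Tms τ) (ht : τ (k + 1) ≤ t) :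
    pu τ (k + 1) t = 1 - stj τ k t ∧ pu' τ (k + 1) t = -stj' τ k t := by
  obtain ⟨h1, h2⟩ := h.stj_one ht
  exact ⟨by show stj τ (k + 1) t - stj τ k t = _; rw [h1],
    by show stj' τ (k + 1) t - stj' τ k t = _; rw [h2, zero_sub]⟩

theorem Tms.pu_big (h : Tms τ) (ht : τ (k + 1) ≤ t) {j : ℕ} (hj : k + 2 ≤ j) :
    pu τ j t = 0 ∧ pu' τ j t = 0 := by
  obtain ⟨i, rfl⟩ : ∃ i, j = i + 1 := ⟨j - 1, by omega⟩
  obtain ⟨h1, h2⟩ := h.stj_one (j := i + 1) ((h.anti (by omega)).trans ht)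
  obtain ⟨h3, h4⟩ := h.stj_one (j := i) ((h.anti (by omega)).trans ht)
  exact ⟨by show stj τ (i + 1) t - stj τ i t = _; rw [h1, h3, sub_self],
    by show stj' τ (i + 1) t - stj' τ i t = _; rw [h2, h4, sub_self]⟩

theorem Tms.pu_small (h : Tms τ) (ht : t ≤ τ k) {j : ℕ} (hj : j < k) :
    pu τ j t = 0 ∧ pu' τ j t = 0 := by
  obtain ⟨h1, h2⟩ := h.stj_zero (j := j) (ht.trans (h.anti (by omega)))
  cases j with
  | zero => exact ⟨h1, h2⟩
  | succ i =>
    obtain ⟨h3, h4⟩ := h.stj_zero (j := i) (ht.trans (h.anti (by omega)))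
    exact ⟨by show stj τ (i + 1) t - stj τ i t = _; rw [h1, h3, sub_self],
      by show stj' τ (i + 1) t - stj' τ i t = _; rw [h2, h4, sub_self]⟩

section sums
variable {X : Type*} [NormedAddCommGroup X] [NormedSpace ℝ X]

theorem Tms.tsum_gen (h : Tms τ) (ht : t ∈ Icc (τ (k + 1)) (τ k)) {f : ℕ → X}
    (hf : ∀ j, pu τ j t = 0 ∧ pu' τ j t = 0 → f j = 0) : ∑' j, f j = f k + f (k + 1) := by
  have h1 : ∀ j ∉ ({k, k + 1} : Finset ℕ), f j = 0 := by
    intro j hj
    rw [Finset.mem_insert, Finset.mem_singleton, not_or] at hj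
    rcases lt_trichotomy j k with h2 | h2 | h2
    · exact hf j (h.pu_small ht.2 h2)
    · exact absurd h2 hj.1
    · exact hf j (h.pu_big ht.1 (by omega))
  rw [tsum_eq_sum h1, Finset.sum_pair (by omega)]

theorem Tms.tsum_pu (h : Tms τ) (ht : t ∈ Icc (τ (k + 1)) (τ k)) (x : ℕ → X) :
    ∑' j, pu τ j t • x j = stj τ k t • x k + (1 - stj τ k t) • x (k + 1) := by
  rw [h.tsum_gen ht fun j hj => by rw [hj.1, zero_smul], (h.pu_self ht.2).1, (h.pu_next ht.1).1]

theorem Tms.tsum_pu' (h : Tms τ) (ht : t ∈ Icc (τ (k + 1)) (τ k)) (x : ℕ → X) :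
    ∑' j, pu' τ j t • x j = stj' τ k t • (x k - x (k + 1)) := by
  rw [h.tsum_gen ht fun j hj => by rw [hj.2, zero_smul], (h.pu_self ht.2).2, (h.pu_next ht.1).2,
    neg_smul, smul_sub]
  abel

end sums

/-- Integrals of functions which are `≤ w k / τ k` on `[τ (k+1), τ k]`. -/
theorem Tms.int (h : Tms τ) {f : ℝ → ℝ} {w : ℕ → ℝ} (hw : Summable w) (hw0 : ∀ k, 0 ≤ w k)
    (hf : ∀ a ∈ Ioc 0 (τ 0), ContinuousOn f (Icc a (τ 0)))
    (hf0 : ∀ r ∈ Ioc 0 (τ 0), 0 ≤ f r)
    (hb : ∀ k, ∀ r ∈ Icc (τ (k + 1)) (τ k), f r ≤ w k / τ k) (J : ℕ) :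
    ∀ a ∈ Ioc 0 (τ J), ∫ r in a..τ J, f r ≤ ∑' k, w (k + J) := by
  intro a ha
  obtain ⟨K, hJK, hK⟩ := h.exists_le ha.1 J
  have hii : ∀ i j : ℕ, i ≤ j → IntervalIntegrable f volume (τ j) (τ i) := fun i j hij => by
    refine ((hf (τ j) ⟨h.pos j, h.anti (Nat.zero_le j)⟩).mono
      (Icc_subset_Icc le_rfl (h.anti (Nat.zero_le i)))).intervalIntegrable_of_Icc (h.anti hij)
  have key : ∀ K, J ≤ K → ∫ r in τ K..τ J, f r ≤ ∑ k ∈ Finset.Ico J K, w k := by
    intro K hK
    induction K, hK using Nat.le_induction with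
    | base => simp
    | succ K hK ih =>
      rw [← intervalIntegral.integral_add_adjacent_intervals (hii K (K + 1) (Nat.le_succ K))
        (hii J K hK), Finset.sum_Ico_succ_top hK, add_comm]
      refine add_le_add ih ?_
      have h1 := h.lt K
      have h2 := h.pos K
      have h3 : ∫ r in τ (K + 1)..τ K, f r ≤ ∫ r in τ (K + 1)..τ K, w K / τ K :=
        intervalIntegral.integral_mono_on h1.le (hii K (K + 1) (Nat.le_succ K))
          intervalIntegrable_const fun r hr => hb K r hr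
      refine h3.trans ?_
      rw [intervalIntegral.integral_const, smul_eq_mul]
      have h4 := h.pos (K + 1)
      have h5 := hw0 K
      calc (τ K - τ (K + 1)) * (w K / τ K) ≤ τ K * (w K / τ K) := by gcongr; linarith
        _ = w K := by field_simp
  have h1 : ∫ r in a..τ J, f r ≤ ∫ r in τ K..τ J, f r := by
    refine intervalIntegral.integral_mono_interval hK ha.2 le_rfl ?_ (hii J K hJK)
    filter_upwards [ae_restrict_mem measurableSet_Ioc] with r hr
    exact hf0 r ⟨(h.pos K).trans hr.1, hr.2.trans (h.anti (Nat.zero_le J))⟩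
  refine h1.trans ((key K hJK).trans ?_)
  have h2 : ∑ k ∈ Finset.Ico J K, w k = ∑ k ∈ Finset.range (K - J), w (k + J) := by
    rw [Finset.sum_Ico_eq_sum_range]
    exact Finset.sum_congr rfl fun k _ => by rw [add_comm]
  rw [h2]
  exact ((summable_nat_add_iff J).2 hw).sum_le_tsum _ fun k _ => hw0 _

end Pool.Agent.Lib.MP_79abb3_an.SC
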