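import Pool.Agent.Lib.MP_79abb3_an.SC.ChDef

/-!
Theorem C (MP_79abb3_an), block (v): the stream function of a divergence free test field.
-/

set_option autoImplicit false

open MeasureTheory Set Filter Topology Function
open scoped RealInnerProductSpace ComplexConjugate Convolution

namespace Pool.Agent.Lib.MP_79abb3_an.SC

section
variable {E : Type*} [NormedAddCommGroup E] [NormedSpace ℝ E]

theorem cd_st {G : ℝ × (ℝ × ℝ) → E} (hG : ContDiff ℝ ((⊤ : ℕ∞) : WithTop ℕ∞) G) :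
    ContDiff ℝ ((⊤ : ℕ∞) : WithTop ℕ∞) (st G) :=
  (hG.fderiv_right (by simp)).clm_apply contDiff_const

theorem cd_sy {G : ℝ × (ℝ × ℝ) → E} (hG : ContDiff ℝ ((⊤ : ℕ∞) : WithTop ℕ∞) G) :
    ContDiff ℝ ((⊤ : ℕ∞) : WithTop ℕ∞) (sy G) :=
  (hG.fderiv_right (by simp)).clm_apply contDiff_const

theorem cd_sz {G : ℝ × (ℝ × ℝ) → E} (hG : ContDiff ℝ ((⊤ : ℕ∞) : WithTop ℕ∞) G) :
    ContDiff ℝ ((⊤ : ℕ∞) : WithTop ℕ∞) (sz G) :=
  (hG.fderiv_right (by simp)).clm_apply contDiff_const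

theorem fd_zero_of {X : Type*} [NormedAddCommGroup X] [NormedSpace ℝ X] {G : X → E} {p : X}
    (h : p ∉ tsupport G) : fderiv ℝ G p = 0 := by
  have : G =ᶠ[𝓝 p] fun _ => 0 := notMem_tsupport_iff_eventuallyEq.1 h
  rw [this.fderiv_eq]
  simp

theorem tsupport_fd {X : Type*} [NormedAddCommGroup X] [NormedSpace ℝ X] (G : X → E) (e : X) :
    tsupport (fun p => fderiv ℝ G p e) ⊆ tsupport G :=
  closure_minimal (fun _ hq => by_contra fun h => hq (by
    show fderiv ℝ G _ e = 0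
    rw [fd_zero_of h]; rfl)) (isClosed_tsupport G)

variable {T H h : ℝ}

theorem IsTs.fd {G : ℝ × (ℝ × ℝ) → E} (hG : IsTs T H h G) (e : ℝ × (ℝ × ℝ)) :
    IsTs T H h (fun p => fderiv ℝ G p e) :=
  ⟨(hG.smooth.fderiv_right (by simp)).clm_apply contDiff_const,
    hG.cpt.of_isClosed_subset (isClosed_tsupport _) (tsupport_fd G e),
    (tsupport_fd G e).trans hG.supp⟩

theorem IsTs.st {G : ℝ × (ℝ × ℝ) → E} (hG : IsTs T H h G) : IsTs T H h (st G) := hG.fd _
theorem IsTs.sy {G : ℝ × (ℝ × ℝ) → E} (hG : IsTs T H h G) : IsTs T H h (sy G) := hG.fd _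
theorem IsTs.sz {G : ℝ × (ℝ × ℝ) → E} (hG : IsTs T H h G) : IsTs T H h (sz G) := hG.fd _

/-- Second derivatives commute. -/
theorem fd_comm {X : Type*} [NormedAddCommGroup X] [NormedSpace ℝ X] {G : X → E}
    (hG : ContDiff ℝ ((⊤ : ℕ∞) : WithTop ℕ∞) G) (e e' p : X) :
    fderiv ℝ (fun x => fderiv ℝ G x e) p e' = fderiv ℝ (fun x => fderiv ℝ G x e') p e := by
  have h1 : ContDiff ℝ 2 G := hG.of_le (show ((2 : ℕ∞) : WithTop ℕ∞) ≤ _ from WithTop.coe_le_coe.2 le_top)
  have hs : IsSymmSndFDerivAt ℝ G p := h1.contDiffAt.isSymmSndFDerivAt (by simp)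
  have hd : DifferentiableAt ℝ (fderiv ℝ G) p :=
    (h1.fderiv_right (m := 1) (by norm_num)).differentiable one_ne_zero p
  have e1 : ∀ e e' : X, fderiv ℝ (fun x => fderiv ℝ G x e) p e' = fderiv ℝ (fderiv ℝ G) p e' e := by
    intro e e'
    rw [fderiv_clm_apply hd (differentiableAt_const e)]
    simp
  rw [e1, e1]
  exact hs e' e

end

section
variable {T H h : ℝ}

theorem hasDerivAt_z {G : ℝ × (ℝ × ℝ) → ℝ} (hG : ContDiff ℝ ((⊤ : ℕ∞) : WithTop ℕ∞) G) (t y z : ℝ) :
    HasDerivAt (fun z => G (t, (y, z))) (sz G (t, (y, z))) z := by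
  have h1 : HasFDerivAt G (fderiv ℝ G (t, (y, z))) (t, (y, z)) :=
    (hG.differentiable (by simp)).differentiableAt.hasFDerivAt
  have h2 : HasDerivAt (fun z : ℝ => (t, (y, z))) ((0:ℝ), ((0:ℝ), (1:ℝ))) z :=
    (hasDerivAt_const z t).prodMk ((hasDerivAt_const z y).prodMk (hasDerivAt_id z))
  exact h1.comp_hasDerivAt z h2

theorem hasDerivAt_y {G : ℝ × (ℝ × ℝ) → ℝ} (hG : ContDiff ℝ ((⊤ : ℕ∞) : WithTop ℕ∞) G) (t y z : ℝ) :
    HasDerivAt (fun y => G (t, (y, z))) (sy G (t, (y, z))) y := by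
  have h1 : HasFDerivAt G (fderiv ℝ G (t, (y, z))) (t, (y, z)) :=
    (hG.differentiable (by simp)).differentiableAt.hasFDerivAt
  have h2 : HasDerivAt (fun y : ℝ => (t, (y, z))) ((0:ℝ), ((1:ℝ), (0:ℝ))) y :=
    (hasDerivAt_const y t).prodMk ((hasDerivAt_id y).prodMk (hasDerivAt_const y z))
  exact h1.comp_hasDerivAt y h2

/-- `C^∞` dependence of `∫₀^z f(t,y,s) ds` on `(t,y,z)` for a test function `f`. -/
theorem prim_smooth {f : ℝ × (ℝ × ℝ) → ℝ} (hf : IsTs T H h f) :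
    ContDiff ℝ ((⊤ : ℕ∞) : WithTop ℕ∞) (fun p : ℝ × (ℝ × ℝ) => ∫ s in (0:ℝ)..p.2.2, f (p.1, (p.2.1, s))) := by
  set c : ℝ → ℝ := (Ioi (0:ℝ)).indicator fun _ => 1 with hc
  set g : ℝ × ℝ → ℝ → ℝ := fun p x => f (p.1, (p.2, x)) with hg
  have hz : ∀ p x, x ∉ Icc 0 h → g p x = 0 := by
    intro p x hx
    refine image_eq_zero_of_notMem_tsupport (f := f) fun hm => hx ?_
    have := (hf.supp hm).2.2
    exact ⟨this.1.le, this.2.le⟩
  have hgc : ∀ p, Continuous (g p) := fun p => hf.smooth.continuous.comp (by fun_prop)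
  have hgi : ∀ p, Integrable (g p) := fun p =>
    (hgc p).integrable_of_hasCompactSupport (HasCompactSupport.intro isCompact_Icc (hz p))
  have h1 : ContDiffOn ℝ ((⊤ : ℕ∞) : WithTop ℕ∞) (fun q : (ℝ × ℝ) × ℝ =>
      (c ⋆[ContinuousLinearMap.mul ℝ ℝ, volume] g q.1) q.2) (univ ×ˢ univ) := by
    refine contDiffOn_convolution_right_with_param (k := Icc 0 h) (n := ⊤) _ isOpen_univ isCompact_Icc
      (fun p x _ hx => hz p x hx) ?_ ?_
    · exact (locallyIntegrable_const 1).indicator measurableSet_Ioi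
    · refine (hf.smooth.comp (f := fun q : (ℝ × ℝ) × ℝ => (q.1.1, (q.1.2, q.2))) ?_).contDiffOn
      fun_prop
  rw [univ_prod_univ, contDiffOn_univ] at h1
  have h2 : (fun p : ℝ × (ℝ × ℝ) => ∫ s in (0:ℝ)..p.2.2, f (p.1, (p.2.1, s))) = fun p =>
      (c ⋆[ContinuousLinearMap.mul ℝ ℝ, volume] g (p.1, p.2.1)) p.2.2 := by
    funext p
    rw [convolution_eq_swap]
    have e1 : ∀ x, (ContinuousLinearMap.mul ℝ ℝ) (c (p.2.2 - x)) (g (p.1, p.2.1) x) =
        (Iio p.2.2).indicator (g (p.1, p.2.1)) x := by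
      intro x
      rw [hc]
      by_cases hx : x < p.2.2
      · rw [indicator_of_mem (show p.2.2 - x ∈ Ioi (0:ℝ) from sub_pos.2 hx), indicator_of_mem (show x ∈ Iio p.2.2 from hx)]
        simp
      · rw [indicator_of_notMem (show p.2.2 - x ∉ Ioi (0:ℝ) from fun h => hx (sub_pos.1 h)),
          indicator_of_notMem (show x ∉ Iio p.2.2 from hx)]
        simp
    simp only [e1]
    rw [integral_indicator measurableSet_Iio, ← integral_Iic_eq_integral_Iio]
    have e2 := intervalIntegral.integral_Iic_sub_Iic (a := 0) (b := p.2.2)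
      (hgi (p.1, p.2.1)).integrableOn (hgi (p.1, p.2.1)).integrableOn
    have e3 : ∫ x in Iic (0:ℝ), g (p.1, p.2.1) x = 0 := by
      refine setIntegral_eq_zero_of_forall_eq_zero fun x hx => ?_
      refine image_eq_zero_of_notMem_tsupport (f := f) fun hm => ?_
      exact absurd (hf.supp hm).2.2.1 (not_lt.2 hx)
    rw [e3, sub_zero] at e2
    rw [e2]
  rw [h2]
  exact h1.comp (f := fun p : ℝ × (ℝ × ℝ) => ((p.1, p.2.1), p.2.2)) (by fun_prop)

/-- A compact subset of an open interval is contained in a compact interval. -/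
theorem box1 {K : Set ℝ} (hK : IsCompact K) {a b : ℝ} (h : K ⊆ Ioo a b) :
    ∃ a' b', K ⊆ Icc a' b' ∧ Icc a' b' ⊆ Ioo a b := by
  rcases K.eq_empty_or_nonempty with h0 | h0
  · exact ⟨1, 0, by rw [h0]; exact empty_subset _, by rw [Icc_eq_empty (by norm_num)]; exact empty_subset _⟩
  · refine ⟨sInf K, sSup K, subset_Icc_csInf_csSup hK.bddBelow hK.bddAbove, ?_⟩
    exact Icc_subset_Ioo (h (hK.sInf_mem h0)).1 (h (hK.sSup_mem h0)).2

theorem IsTs.box {E : Type*} [NormedAddCommGroup E] [NormedSpace ℝ E] {G : ℝ × (ℝ × ℝ) → E}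
    (hG : IsTs T H h G) : ∃ a b c d e f, tsupport G ⊆ Icc a b ×ˢ (Icc c d ×ˢ Icc e f) ∧
      Icc a b ×ˢ (Icc c d ×ˢ Icc e f) ⊆ Ioo 0 T ×ˢ (Ioo (-H) H ×ˢ Ioo 0 h) := by
  have hK : IsCompact (tsupport G) := hG.cpt
  obtain ⟨a, b, h1, h2⟩ := box1 (hK.image continuous_fst) (a := 0) (b := T)
    (by rintro _ ⟨p, hp, rfl⟩; exact (hG.supp hp).1)
  obtain ⟨c, d, h3, h4⟩ := box1 (hK.image (continuous_fst.comp continuous_snd)) (a := -H) (b := H)
    (by rintro _ ⟨p, hp, rfl⟩; exact (hG.supp hp).2.1)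
  obtain ⟨e, f, h5, h6⟩ := box1 (hK.image (continuous_snd.comp continuous_snd)) (a := 0) (b := h)
    (by rintro _ ⟨p, hp, rfl⟩; exact (hG.supp hp).2.2)
  exact ⟨a, b, c, d, e, f, fun p hp => ⟨h1 ⟨p, hp, rfl⟩, h3 ⟨p, hp, rfl⟩, h5 ⟨p, hp, rfl⟩⟩,
    prod_mono h2 (prod_mono h4 h6)⟩

/-- The stream function. -/
theorem stream {Φ : ℝ × (ℝ × ℝ) → ℂ} (hΦ : IsTs T H h Φ)
    (hdiv : ∀ p, (sy Φ p).re + (sz Φ p).im = 0) :
    ∃ G : ℝ × (ℝ × ℝ) → ℝ, IsTs T H h G ∧ (∀ p, sz G p = (Φ p).re) ∧ ∀ p, sy G p = -(Φ p).im := by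
  have hre : IsTs T H h (fun p => (Φ p).re) :=
    ⟨Complex.reCLM.contDiff.comp hΦ.smooth, hΦ.cpt.comp_left (g := Complex.re) rfl,
      (tsupport_comp_subset (g := Complex.re) rfl Φ).trans hΦ.supp⟩
  have him : IsTs T H h (fun p => (Φ p).im) :=
    ⟨Complex.imCLM.contDiff.comp hΦ.smooth, hΦ.cpt.comp_left (g := Complex.im) rfl,
      (tsupport_comp_subset (g := Complex.im) rfl Φ).trans hΦ.supp⟩
  have hd : ∀ p, DifferentiableAt ℝ Φ p := fun p => hΦ.smooth.differentiable (by simp) p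
  have dre : ∀ p e, fderiv ℝ (fun p => (Φ p).re) p e = (fderiv ℝ Φ p e).re := by
    intro p e
    have h1 := (Complex.reCLM.hasFDerivAt.comp p (hd p).hasFDerivAt).fderiv
    have h2 : (fun p => (Φ p).re) = ⇑Complex.reCLM ∘ Φ := rfl
    rw [h2, h1]
    rfl
  have dim : ∀ p e, fderiv ℝ (fun p => (Φ p).im) p e = (fderiv ℝ Φ p e).im := by
    intro p e
    have h1 := (Complex.imCLM.hasFDerivAt.comp p (hd p).hasFDerivAt).fderiv
    have h2 : (fun p => (Φ p).im) = ⇑Complex.imCLM ∘ Φ := rfl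
    rw [h2, h1]
    rfl
  obtain ⟨a, b, c, d, e, f, hbox, hsub⟩ := hΦ.box
  have hout : ∀ p, p ∉ Icc a b ×ˢ (Icc c d ×ˢ Icc e f) → Φ p = 0 := fun p hp =>
    image_eq_zero_of_notMem_tsupport fun hm => hp (hbox hm)
  set G : ℝ × (ℝ × ℝ) → ℝ := fun p => ∫ s in (0:ℝ)..p.2.2, (Φ (p.1, (p.2.1, s))).re with hG
  have hGs : ContDiff ℝ ((⊤ : ℕ∞) : WithTop ℕ∞) G := prim_smooth hre
  have hcon : ∀ t y : ℝ, Continuous fun s : ℝ => (Φ (t, (y, s))).re := fun t y =>
    hre.smooth.continuous.comp (f := fun s : ℝ => (t, (y, s))) (by fun_prop)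
  have hGz : ∀ p, sz G p = (Φ p).re := by
    rintro ⟨t, y, z⟩
    have h1 := hasDerivAt_z hGs t y z
    have h2 : HasDerivAt (fun z => G (t, (y, z))) ((Φ (t, (y, z))).re) z :=
      intervalIntegral.integral_hasDerivAt_right ((hcon t y).intervalIntegrable _ _)
        ((hcon t y).stronglyMeasurableAtFilter _ _) (hcon t y).continuousAt
    exact h1.unique h2
  have hGy : ∀ p, sy G p = -(Φ p).im := by
    rintro ⟨t, y, z⟩
    have hD : ∀ z, HasDerivAt (fun z => sy G (t, (y, z)) + (Φ (t, (y, z))).im) 0 z := by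
      intro z
      have h1 := hasDerivAt_z (cd_sy hGs) t y z
      have h2 := hasDerivAt_z him.smooth t y z
      have h3 := h1.add h2
      refine h3.congr_deriv ?_
      have h4 : sz (sy G) (t, (y, z)) = sy (sz G) (t, (y, z)) := fd_comm hGs _ _ _
      have h5 : sz G = fun p => (Φ p).re := funext hGz
      rw [h4, h5]
      show fderiv ℝ (fun p => (Φ p).re) _ _ + fderiv ℝ (fun p => (Φ p).im) _ _ = 0
      rw [dre, dim]
      exact hdiv _
    have hconst := is_const_of_deriv_eq_zero (f := fun z => sy G (t, (y, z)) + (Φ (t, (y, z))).im)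
      (fun z => (hD z).differentiableAt) (fun z => (hD z).deriv) z 0
    have h0 : (Φ (t, (y, 0))).im = 0 := by
      rw [image_eq_zero_of_notMem_tsupport fun hm => lt_irrefl _ (hΦ.supp hm).2.2.1]
      rfl
    have h1 : sy G (t, (y, 0)) = 0 := by
      have h2 := hasDerivAt_y hGs t y 0
      have h3 : (fun y => G (t, (y, (0:ℝ)))) = fun _ => 0 := by
        funext y
        show ∫ s in (0:ℝ)..0, _ = 0
        rw [intervalIntegral.integral_same]
      rw [h3] at h2
      exact h2.unique (hasDerivAt_const y 0)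
    rw [h0, h1, add_zero] at hconst
    linarith
  have hGout : ∀ p, p ∉ Icc a b ×ˢ (Icc c d ×ˢ Icc e f) → G p = 0 := by
    rintro ⟨t, y, z⟩ hp
    by_cases ht : t ∈ Icc a b
    · by_cases hy : y ∈ Icc c d
      · have hz : z ∉ Icc e f := fun hz => hp ⟨ht, hy, hz⟩
        rw [mem_Icc, not_and_or, not_le, not_le] at hz
        rcases hz with hz | hz
        · -- z < e
          show ∫ s in (0:ℝ)..z, _ = 0
          rw [intervalIntegral.integral_zero_ae]
          refine Eventually.of_forall fun s hs => ?_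
          by_cases h0 : 0 ≤ z
          · rw [uIoc_of_le h0] at hs
            rw [hout _ fun hm => absurd (hm.2.2.1.trans hs.2) (not_le.2 hz)]
            rfl
          · rw [uIoc_of_ge (not_le.1 h0).le] at hs
            rw [image_eq_zero_of_notMem_tsupport fun hm => absurd hs.2 (not_le.2 (hΦ.supp hm).2.2.1)]
            rfl
        · -- z > f
          have hc : ∀ y', HasDerivAt (fun y => G (t, (y, z))) 0 y' := by
            intro y'
            have h2 := hasDerivAt_y hGs t y' z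
            rw [hGy, hout _ fun hm => absurd hm.2.2.2 (not_le.2 hz)] at h2
            simpa using h2
          have hconst := is_const_of_deriv_eq_zero (f := fun y => G (t, (y, z)))
            (fun z => (hc z).differentiableAt) (fun z => (hc z).deriv) y (d + 1)
          rw [hconst]
          show ∫ s in (0:ℝ)..z, _ = 0
          rw [intervalIntegral.integral_zero_ae]
          refine Eventually.of_forall fun s _ => ?_
          rw [hout _ fun hm => by linarith [hm.2.1.2]]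
          rfl
      · show ∫ s in (0:ℝ)..z, _ = 0
        rw [intervalIntegral.integral_zero_ae]
        refine Eventually.of_forall fun s _ => ?_
        rw [hout _ fun hm => hy hm.2.1]
        rfl
    · show ∫ s in (0:ℝ)..z, _ = 0
      rw [intervalIntegral.integral_zero_ae]
      refine Eventually.of_forall fun s _ => ?_
      rw [hout _ fun hm => ht hm.1]
      rfl
  have hts : tsupport G ⊆ Icc a b ×ˢ (Icc c d ×ˢ Icc e f) :=
    closure_minimal (fun p hp => by_contra fun h => hp (hGout p h))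
      (isClosed_Icc.prod (isClosed_Icc.prod isClosed_Icc))
  refine ⟨G, ⟨hGs, ?_, hts.trans hsub⟩, hGz, hGy⟩
  exact (isCompact_Icc.prod (isCompact_Icc.prod isCompact_Icc)).of_isClosed_subset (isClosed_tsupport _) hts

end

end Pool.Agent.Lib.MP_79abb3_an.SC
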