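import Pool.Agent.Lib.MP_79abb3_an.FW.Def
import Pool.Agent.Lib.MP_79abb3_an.SC.ApI

/-!
MP_79abb3_an, simply connected domains, block (iii): the cell flow; solutions of the flushing phase
(tested equations).
-/

set_option autoImplicit false
set_option linter.unusedSectionVars false

open MeasureTheory Set Filter Topology Function
open scoped ENNReal InnerProductSpace

namespace Pool.Agent.Lib.MP_79abb3_an.SC

open Pool.Agent.Lib.MP_79abb3_an.P25 Pool.Agent.Lib.MP_79abb3_an.FW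

section
variable {H : ℝ} [hH : Fact (0 < H)] {lam : ℤ → ℝ}

/-- `α cosh (m z)` -/
noncomputable def chF (m α : ℝ) (z : ℝ) : ℝ := α * Real.cosh (m * z)

theorem chF_c (m α : ℝ) : Continuous (chF m α) := by unfold chF; fun_prop

/-- Modes of `v = -α sin(my) cosh(mz)`, `m = ω N`: `± (i α / 2) cosh(mz)` for `n = ± N`. -/
noncomputable def cellV (m : ℝ) (N : ℕ) (α : ℝ) (n : ℤ) : CI H :=
  (Complex.I * ((α / 2 * sN N n : ℝ) : ℂ)) • rc (fun z => Real.cosh (m * z)) (by fun_prop)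

/-- Modes of `w = α cos(my) sinh(mz)`, `m = ω N`: `(α / 2) sinh(mz)` for `n = ± N`. -/
noncomputable def cellW (m : ℝ) (N : ℕ) (α : ℝ) (n : ℤ) : CI H :=
  ((α / 2 * |sN N n| : ℝ) : ℂ) • rc (fun z => Real.sinh (m * z)) (by fun_prop)

theorem sN_abs_le (N : ℕ) (n : ℤ) : |sN N n| ≤ 1 := by
  unfold sN; split_ifs <;> simp

theorem sN_zero {N : ℕ} {n : ℤ} (h1 : n ≠ N) (h2 : n ≠ -N) : sN N n = 0 := by
  unfold sN; rw [if_neg h1, if_neg h2]

theorem cellV_zero {m α : ℝ} {N : ℕ} {n : ℤ} (h1 : n ≠ N) (h2 : n ≠ -N) : (cellV m N α n : CI H) = 0 := by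
  unfold cellV; rw [sN_zero h1 h2, mul_zero, Complex.ofReal_zero, mul_zero]; exact zero_smul ℂ (_ : CI H)

theorem cellW_zero {m α : ℝ} {N : ℕ} {n : ℤ} (h1 : n ≠ N) (h2 : n ≠ -N) : (cellW m N α n : CI H) = 0 := by
  unfold cellW; rw [sN_zero h1 h2, abs_zero, mul_zero, Complex.ofReal_zero]; exact zero_smul ℂ (_ : CI H)

theorem cellV_le {m α : ℝ} (hα : 0 ≤ α) (N : ℕ) (n : ℤ) {z : ℝ} (hz : z ∈ Icc (0:ℝ) H) :
    ‖ex (cellV m N α n : CI H) z‖ ≤ chF m α z / 2 := by
  unfold cellV chF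
  rw [ex_smul, norm_mul, norm_mul, Complex.norm_I, one_mul, ex_rc _ _ hz, Complex.norm_real,
    Complex.norm_real, Real.norm_eq_abs, Real.norm_eq_abs, abs_mul, abs_of_nonneg (by positivity : 0 ≤ α / 2),
    abs_of_pos (Real.cosh_pos _)]
  have := sN_abs_le N n
  have h2 := Real.cosh_pos (m * z)
  calc α / 2 * |sN N n| * Real.cosh (m * z) ≤ α / 2 * 1 * Real.cosh (m * z) := by gcongr
    _ = _ := by ring

theorem abs_sinh_le (x : ℝ) : |Real.sinh x| ≤ Real.cosh x := by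
  rw [abs_le]
  have h3 := Real.cosh_sub_sinh x
  have h4 := Real.cosh_add_sinh x
  have h5 := Real.exp_pos x
  have h6 := Real.exp_pos (-x)
  constructor <;> linarith

theorem cellW_le {m α : ℝ} (hα : 0 ≤ α) (N : ℕ) (n : ℤ) {z : ℝ} (hz : z ∈ Icc (0:ℝ) H) :
    ‖ex (cellW m N α n : CI H) z‖ ≤ chF m α z / 2 := by
  unfold cellW chF
  rw [ex_smul, norm_mul, ex_rc _ _ hz, Complex.norm_real,
    Complex.norm_real, Real.norm_eq_abs, Real.norm_eq_abs, abs_mul, abs_of_nonneg (by positivity : 0 ≤ α / 2),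
    abs_abs]
  have := sN_abs_le N n
  have h2 := Real.cosh_pos (m * z)
  have h3 := abs_sinh_le (m * z)
  calc α / 2 * |sN N n| * |Real.sinh (m * z)| ≤ α / 2 * 1 * Real.cosh (m * z) := by gcongr
    _ = _ := by ring

theorem S2_fin {E : Type*} [NormedAddCommGroup E] {s : ℝ} {x : ℤ → E} {N : ℤ}
    (h : ∀ n, n ≠ N → n ≠ -N → x n = 0) : S2 lam s x := by
  unfold S2
  refine summable_of_hasFiniteSupport (((Set.finite_singleton N).union (Set.finite_singleton (-N))).subset ?_)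
  intro n hn
  by_contra hcon
  rw [mem_union, mem_singleton_iff, mem_singleton_iff, not_or] at hcon
  refine hn ?_
  show (lam n ^ s * ‖x n‖) ^ 2 = 0
  rw [h n hcon.1 hcon.2]; simp

/-- `w_z = -v_y` for the cell. -/
theorem cellW_dz {ω : ℝ} {N : ℕ} (α : ℝ) (n : ℤ) :
    DZ (cellW (ω * N) N α n : CI H) (-(kI ω n) • (iota (cellV (ω * N) N α n) : Z2 H)) := by
  have hd : IsD (rc (fun z => Real.sinh (ω * N * z)) (by fun_prop) : CI H)
      (rc (fun z => ω * N * Real.cosh (ω * N * z)) (by fun_prop)) := by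
    intro z hz
    have h1 : HasDerivAt (fun z : ℝ => ((Real.sinh (ω * N * z) : ℝ) : ℂ))
        ((ω * N * Real.cosh (ω * N * z) : ℝ) : ℂ) z := by
      have h2 : HasDerivAt (fun z : ℝ => ω * N * z) (ω * N) z := by
        simpa using (hasDerivAt_id z).const_mul (ω * N)
      have h3 := h2.sinh
      refine (h3.congr_deriv ?_).ofReal_comp
      ring
    rw [ex_rc _ _ hz]
    refine (h1.hasDerivWithinAt).congr (fun x hx => ex_rc _ _ hx) (ex_rc _ _ hz)
  have h1 := (IsD.dz hd).smul (((α / 2 * |sN N n| : ℝ) : ℂ))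
  have e : -(kI ω n) • (iota (cellV (ω * N) N α n) : Z2 H) =
      ((α / 2 * |sN N n| : ℝ) : ℂ) • iota (rc (fun z => ω * N * Real.cosh (ω * N * z)) (by fun_prop)) := by
    have e2 : (rc (fun z => ω * N * Real.cosh (ω * N * z)) (by fun_prop) : CI H) =
        ((ω * N : ℝ) : ℂ) • rc (fun z => Real.cosh (ω * N * z)) (by fun_prop) := by
      refine ci_ext fun z hz => ?_
      rw [ex_smul, ex_rc _ _ hz, ex_rc _ _ hz]; push_cast; ring
    rw [e2]
    unfold cellV kI
    rw [map_smul, map_smul, smul_smul, smul_smul]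
    congr 1
    have h3 : (n : ℝ) * sN N n = N * |sN N n| := by
      unfold sN
      split_ifs with h1 h2
      · rw [h1]; simp
      · rw [h2]; push_cast; simp
      · simp
    have h4 : Complex.I * Complex.I = -1 := Complex.I_mul_I
    have h5 : ((n : ℝ) : ℂ) * ((sN N n : ℝ) : ℂ) = ((N : ℝ) : ℂ) * ((|sN N n| : ℝ) : ℂ) := by
      rw [← Complex.ofReal_mul, h3, Complex.ofReal_mul]
    push_cast at h5 ⊢
    linear_combination (-(ω : ℂ) * (α / 2) * (n * ((sN N n : ℝ) : ℂ))) * h4 + (ω : ℂ) * (α / 2) * h5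
  rw [e]
  exact h1

theorem cellW_ex_zero (m α : ℝ) (N : ℕ) (n : ℤ) : ex (cellW m N α n : CI H) 0 = 0 := by
  unfold cellW
  rw [ex_smul, ex_rc _ _ zero_memI]
  simp

end

end Pool.Agent.Lib.MP_79abb3_an.SC
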