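import Pool.Agent.Lib.MP_79abb3_an.SC.ApH

/-!
MP_79abb3_an, simply connected domains, block (iii): the static part of the weighted energy inequality.
-/

set_option autoImplicit false
set_option linter.unusedSectionVars false

open MeasureTheory Set Filter Topology Function
open scoped ENNReal InnerProductSpace

namespace Pool.Agent.Lib.MP_79abb3_an.SC

open Pool.Agent.Lib.MP_79abb3_an.P25 Pool.Agent.Lib.MP_79abb3_an.FW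

theorem young7 {ε x s : ℝ} (hε : 0 < ε) (hx : 0 ≤ x) (hs : 0 ≤ s) :
    x * s ^ 7 ≤ ε * s ^ 8 + (ε ^ 7)⁻¹ * x ^ 8 := by
  rcases le_total x (ε * s) with h | h
  · have h1 : x * s ^ 7 ≤ ε * s * s ^ 7 := mul_le_mul_of_nonneg_right h (by positivity)
    have h2 : 0 ≤ (ε ^ 7)⁻¹ * x ^ 8 := by positivity
    calc x * s ^ 7 ≤ ε * s * s ^ 7 := h1
      _ = ε * s ^ 8 := by ring
      _ ≤ _ := by linarith
  · have h1 : s ≤ ε⁻¹ * x := by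
      rw [inv_mul_eq_div, le_div_iff₀ hε]; linarith
    have h2 : s ^ 7 ≤ (ε⁻¹ * x) ^ 7 := pow_le_pow_left₀ hs h1 7
    have h3 : 0 ≤ ε * s ^ 8 := by positivity
    calc x * s ^ 7 ≤ x * (ε⁻¹ * x) ^ 7 := mul_le_mul_of_nonneg_left h2 hx
      _ = (ε ^ 7)⁻¹ * x ^ 8 := by rw [mul_pow, inv_pow]; ring
      _ ≤ _ := by linarith

theorem young6 {ε x s : ℝ} (hε : 0 < ε) (hx : 0 ≤ x) (hs : 0 ≤ s) :
    x * s ^ 6 ≤ ε * s ^ 8 + (ε ^ 3)⁻¹ * x ^ 4 := by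
  rcases le_total x (ε * s ^ 2) with h | h
  · have h1 : x * s ^ 6 ≤ ε * s ^ 2 * s ^ 6 := mul_le_mul_of_nonneg_right h (by positivity)
    have h2 : 0 ≤ (ε ^ 3)⁻¹ * x ^ 4 := by positivity
    calc x * s ^ 6 ≤ ε * s ^ 2 * s ^ 6 := h1
      _ = ε * s ^ 8 := by ring
      _ ≤ _ := by linarith
  · have h1 : s ^ 2 ≤ ε⁻¹ * x := by
      rw [inv_mul_eq_div, le_div_iff₀ hε]; linarith
    have h2 : (s ^ 2) ^ 3 ≤ (ε⁻¹ * x) ^ 3 := pow_le_pow_left₀ (by positivity) h1 3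
    have h3 : 0 ≤ ε * s ^ 8 := by positivity
    calc x * s ^ 6 = x * (s ^ 2) ^ 3 := by ring
      _ ≤ x * (ε⁻¹ * x) ^ 3 := mul_le_mul_of_nonneg_left h2 hx
      _ = (ε ^ 3)⁻¹ * x ^ 4 := by rw [mul_pow, inv_pow]; ring
      _ ≤ _ := by linarith

section
variable {H : ℝ} [hH : Fact (0 < H)] {lam : ℤ → ℝ}

theorem T3_add_mid {α β γ : ℝ} (pw : PrW lam α β γ) {r : ℤ → Z2 H} {u u' : ℤ → CI H} {p : ℤ → Z2 H}
    (sp : S2 lam α p) (su : S2 lam β u) (su' : S2 lam β u') (sr : S2 lam γ r) :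
    T3 r (fun n => u n + u' n) p = T3 r u p + T3 r u' p := by
  have a1 := (T3_sum pw sp su sr).1.of_norm
  have a2 := (T3_sum pw sp su' sr).1.of_norm
  unfold T3
  rw [← a1.tsum_add a2]
  refine tsum_congr fun x => ?_
  rw [map_add, add_apply, inner_add_right]

/-- `b(om, u + u'; f) = b(om, u; f) + b(om, u'; f)` -/
theorem bf_add {α β γ : ℝ} (pw : PrW lam α β γ) (ω : ℝ) {om : ℤ → Z2 H} {v w v' w' : ℤ → CI H}
    {f : ℤ → Z2 H} (so : S2 lam α om) (sv : S2 lam β v) (sw : S2 lam β w) (sv' : S2 lam β v')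
    (sw' : S2 lam β w') (sf : S2 lam γ f) :
    bf ω om (fun n => v n + v' n) (fun n => w n + w' n) f = bf ω om v w f + bf ω om v' w' f := by
  rw [bf_T3 pw ω so sv sw sf, bf_T3 pw ω so sv' sw' sf,
    bf_T3 pw ω so (S2_add pw.h1 sv sv').1 (S2_add pw.h1 sw sw').1 sf,
    T3_add_mid pw so sw sw' (S2_tZ pw.h1 ω sf).1.1, T3_add_mid pw so sv sv' (S2_tZ pw.h1 ω sf).2.1]
  ring

/-- constants comparing `lam` with `1 + |k|` -/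
theorem LamOK.le_k {ω C : ℝ} (h : LamOK ω lam C) (n : ℤ) : lam n ≤ C * (1 + ω⁻¹) * (1 + |ω * n|) := by
  have hω := h.ω
  have hC := h.C0
  have h1 := h.le n
  have e : |(n:ℝ)| = ω⁻¹ * |ω * n| := by
    rw [abs_mul, abs_of_pos hω, ← mul_assoc, inv_mul_cancel₀ hω.ne', one_mul]
  have h2 : 1 + |(n:ℝ)| ≤ (1 + ω⁻¹) * (1 + |ω * n|) := by
    rw [e]
    have h3 : 0 ≤ ω⁻¹ := by positivity
    have h4 := abs_nonneg (ω * (n:ℝ))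
    nlinarith
  calc lam n ≤ C * (1 + |(n:ℝ)|) := h1
    _ ≤ C * ((1 + ω⁻¹) * (1 + |ω * n|)) := mul_le_mul_of_nonneg_left h2 hC
    _ = _ := by ring

/-- velocity generated by `g ∈ HH` : `N_{1/2,∞}` -/
theorem vel_half {ω Cl : ℝ} (h1 : ∀ n, 1 ≤ lam n) (hC : 0 ≤ Cl)
    (hl : ∀ n : ℤ, lam n ≤ Cl * (1 + |ω * n|)) (g : HH H) :
    (S2 lam (1 / 2) (uV ω (Vf ω g)) ∧ N2 lam (1 / 2) (uV ω (Vf ω g)) ≤ 2 * (√(Cl * (H + 1)) * ‖g‖)) ∧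
    (S2 lam (1 / 2) (wV ω (Vf ω g)) ∧ N2 lam (1 / 2) (wV ω (Vf ω g)) ≤ √(Cl * (H + 1)) * ‖g‖) := by
  obtain ⟨sg, ng⟩ := S2l2 (lam := lam) g
  obtain ⟨⟨a1, a2⟩, -⟩ := S2_Vf (ω := ω) h1 hC hl sg
  rw [ng] at a2
  obtain ⟨⟨b1, b2⟩, ⟨c1, c2⟩⟩ := S2_uV h1 ω a1
  exact ⟨⟨b1, b2.trans (mul_le_mul_of_nonneg_left a2 zero_le_two)⟩, ⟨c1, by linarith⟩⟩

/-- The weighted family `F = th V`: `|Λ^{1/2} F|` and `N_{1/4,∞}(F)`, with `E = e⁴ = |th V|`,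
`S = s⁴ ≥ |B(th V)|`. -/
theorem wF {ω C : ℝ} (h : LamOK ω lam C) {th th1 : CI H} (hd : IsD th th1) (g : HH H) {e s : ℝ}
    (he : 0 ≤ e) (hs : 0 ≤ s) (hE : ‖Ms th (TT ω g)‖ = e ^ 4)
    (hS : ‖Ms th g - Ms th1 (TT ω g)‖ ≤ s ^ 4) :
    (S2 lam (1 / 2) (io fun n => th * Vf ω g n) ∧
      N2 lam (1 / 2) (io fun n => th * Vf ω g n) ≤ (1 + C * (H + ω⁻¹)) * (e ^ 2 * s ^ 2)) ∧
    (S2 lam (1 / 4) (fun n => th * Vf ω g n) ∧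
      N2 lam (1 / 4) (fun n => th * Vf ω g n) ≤ 2 * (1 + C * (H + ω⁻¹)) * (e * s ^ 3)) := by
  have hω := h.ω
  have hH0 := hH.out
  have hC := h.C0
  set K : ℝ := C * (H + ω⁻¹) with hK
  have hK0 : 0 ≤ K := by positivity
  set gF : HH H := Ms th g - Ms th1 (TT ω g) with hgF
  have eF : (fun n => th * Vf ω g n) = Vf ω gF := funext fun n => (Vf_weight ω hd g n).symm
  have eT : TT ω gF = Ms th (TT ω g) := Tc_weight ω hd g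
  rw [eF]
  have a1 := LT_N2 h (show (1 / 2 : ℝ) ≤ 1 by norm_num) gF
  have a2 := LT_half h gF
  rw [eT, hE] at a2
  have b1 : N2 lam (1 / 2) (io (Vf ω gF)) ^ 2 ≤ ((1 + K) * (e ^ 2 * s ^ 2)) ^ 2 := by
    rw [a1.2]
    calc _ ≤ e ^ 4 * (K * ‖gF‖) := a2
      _ ≤ e ^ 4 * (K * s ^ 4) := by gcongr
      _ = K * (e ^ 2 * s ^ 2) ^ 2 := by ring
      _ ≤ (1 + K) ^ 2 * (e ^ 2 * s ^ 2) ^ 2 := by
          refine mul_le_mul_of_nonneg_right ?_ (sq_nonneg _)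
          nlinarith
      _ = _ := by ring
  have b2 : N2 lam (1 / 2) (io (Vf ω gF)) ≤ (1 + K) * (e ^ 2 * s ^ 2) :=
    (pow_le_pow_iff_left₀ (N2_nonneg _ _) (by positivity) two_ne_zero).1 b1
  refine ⟨⟨a1.1, b2⟩, ?_⟩
  obtain ⟨c1, c2⟩ := Vf_dz_norm (lam := lam) (ω := ω) gF
  have hz : ∀ n, ∃ a ∈ Icc (0:ℝ) H, ex (Vf ω gF n) a = 0 := fun n => ⟨H, H_memI, Vf_H _ _ _⟩
  have sF : S2 lam (2 * (1 / 4)) (io (Vf ω gF)) := by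
    rw [show (2 * (1 / 4) : ℝ) = 1 / 2 by norm_num]; exact a1.1
  obtain ⟨d1, d2⟩ := agmon_fam0 h.one (fun n => Vf_dz ω (⇑gF) n) hz sF c1
  refine ⟨d1, ?_⟩
  rw [show (2 * (1 / 4) : ℝ) = 1 / 2 by norm_num] at d2
  refine (pow_le_pow_iff_left₀ (N2_nonneg _ _) (by positivity) two_ne_zero).1 ?_
  have c3 : N2 lam 0 (fun n => ka ω n • (iota (Vf ω (⇑gF) n) : Z2 H) - gF n) ≤ s ^ 4 := c2.trans hS
  have n1 := N2_nonneg (lam := lam) 0 (fun n => ka ω n • (iota (Vf ω (⇑gF) n) : Z2 H) - gF n)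
  calc N2 lam (1 / 4) (Vf ω gF) ^ 2 ≤ 2 * (N2 lam (1 / 2) (io (Vf ω gF)) *
        N2 lam 0 (fun n => ka ω n • (iota (Vf ω (⇑gF) n) : Z2 H) - gF n)) := d2
    _ ≤ 2 * ((1 + K) * (e ^ 2 * s ^ 2) * s ^ 4) := by gcongr
    _ = 2 * (1 + K) * (e * s ^ 3) ^ 2 := by ring
    _ ≤ (2 * (1 + K)) ^ 2 * (e * s ^ 3) ^ 2 := by
        refine mul_le_mul_of_nonneg_right ?_ (sq_nonneg _)
        nlinarith
    _ = _ := by ring

end

end Pool.Agent.Lib.MP_79abb3_an.SC
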