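import Pool.Agent.Lib.MP_79abb3_an.SC.ApX

/-!
MP_79abb3_an, simply connected domains, block (iii): the vortex force of the cell flow tested with
`th² V`.
-/

set_option autoImplicit false
set_option linter.unusedSectionVars false

open MeasureTheory Set Filter Topology Function
open scoped ENNReal InnerProductSpace

namespace Pool.Agent.Lib.MP_79abb3_an.SC

open Pool.Agent.Lib.MP_79abb3_an.P25 Pool.Agent.Lib.MP_79abb3_an.FW

/-- Sums over one column. -/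
theorem col_sum {a b : ℤ → ℝ} (ha : ∀ n, 0 ≤ a n) (hb : ∀ n, 0 ≤ b n)
    (sa : Summable fun n => a n ^ 2) (sb : Summable fun n => b n ^ 2) (M : ℤ) :
    (Summable fun x : ℤ × ℤ => if x.2 = M then a x.1 * b (x.1 + x.2) else 0) ∧
      ∑' x : ℤ × ℤ, (if x.2 = M then a x.1 * b (x.1 + x.2) else 0) ≤
        √(∑' n, a n ^ 2) * √(∑' n, b n ^ 2) := by
  set f : ℤ × ℤ → ℝ := fun x => if x.2 = M then a x.1 * b (x.1 + x.2) else 0 with hf
  have hinj : Injective (fun i : ℤ => ((i, M) : ℤ × ℤ)) := fun i j h => by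
    simpa using congrArg Prod.fst h
  have hz : ∀ x : ℤ × ℤ, x ∉ Set.range (fun i : ℤ => ((i, M) : ℤ × ℤ)) → f x = 0 := by
    intro x hx
    have : x.2 ≠ M := fun h => hx ⟨x.1, by rw [← h]⟩
    exact if_neg this
  have hsupp : support f ⊆ Set.range (fun i : ℤ => ((i, M) : ℤ × ℤ)) := by
    intro x hx
    by_contra h
    exact hx (hz x h)
  have e : ∀ i : ℤ, f (i, M) = a i * b (i + M) := fun i => if_pos rfl
  have sb' : Summable fun n => b (n + M) ^ 2 :=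
    (Equiv.addRight M).summable_iff (f := fun n => b n ^ 2) |>.2 sb
  have tb' : ∑' n, b (n + M) ^ 2 = ∑' n, b n ^ 2 := (Equiv.addRight M).tsum_eq (fun n => b n ^ 2)
  obtain ⟨c1, c2⟩ := cs_tsum ha (fun n => hb (n + M)) sa sb'
  constructor
  · refine (hinj.summable_iff hz).1 ?_
    refine c1.congr fun i => ?_
    exact (e i).symm
  · rw [← hinj.tsum_eq hsupp]
    simp only [e]
    rw [← tb']
    exact c2

section
variable {H : ℝ} [hH : Fact (0 < H)] {lam : ℤ → ℝ}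

/-- Trilinear sums with two modes in the middle factor. -/
theorem T3_two {th : CI H} {r u h : ℤ → CI H} {p : ℤ → Z2 H} {N : ℤ}
    (hu : ∀ l, l ≠ N → l ≠ -N → u l = 0)
    (hr : ∀ n l, ∀ z ∈ Icc (0:ℝ) H, ‖ex (r n) z‖ * ‖ex (u l) z‖ ≤ ‖ex th z‖ * ‖ex (h n) z‖)
    (sp : S2 lam 0 (fun n => mz th (p n))) (sh : S2 lam 0 (io h)) :
    ‖T3 (io r) u p‖ ≤ 2 * (N2 lam 0 (fun n => mz th (p n)) * N2 lam 0 (io h)) := by
  have sp' : Summable fun n => ‖mz th (p n)‖ ^ 2 := by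
    unfold S2 at sp; simpa using sp
  have sh' : Summable fun n => ‖io h n‖ ^ 2 := by
    unfold S2 at sh; simpa using sh
  have ep : N2 lam 0 (fun n => mz th (p n)) = √(∑' n, ‖mz th (p n)‖ ^ 2) := by
    unfold N2; simp
  have eh : N2 lam 0 (io h) = √(∑' n, ‖io h n‖ ^ 2) := by
    unfold N2; simp
  obtain ⟨a1, a2⟩ := col_sum (a := fun n => ‖mz th (p n)‖) (b := fun n => ‖io h n‖)
    (fun _ => norm_nonneg _) (fun _ => norm_nonneg _) sp' sh' N
  obtain ⟨b1, b2⟩ := col_sum (a := fun n => ‖mz th (p n)‖) (b := fun n => ‖io h n‖)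
    (fun _ => norm_nonneg _) (fun _ => norm_nonneg _) sp' sh' (-N)
  have key : ∀ x : ℤ × ℤ, ‖⟪io r (x.1 + x.2), mz (u x.2) (p x.1)⟫_ℂ‖ ≤
      (if x.2 = N then ‖mz th (p x.1)‖ * ‖io h (x.1 + x.2)‖ else 0) +
      (if x.2 = -N then ‖mz th (p x.1)‖ * ‖io h (x.1 + x.2)‖ else 0) := by
    intro x
    have main : ‖⟪io r (x.1 + x.2), mz (u x.2) (p x.1)⟫_ℂ‖ ≤ ‖mz th (p x.1)‖ * ‖io h (x.1 + x.2)‖ := by
      have e1 : ⟪io r (x.1 + x.2), mz (u x.2) (p x.1)⟫_ℂ =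
          ⟪(iota (star (u x.2) * r (x.1 + x.2)) : Z2 H), mz 1 (p x.1)⟫_ℂ := by
        rw [mz_one, ← mz_iota, inner_mz, star_star]; rfl
      rw [e1]
      refine (wmul_le (th := th) (h := h (x.1 + x.2)) (p x.1) fun z hz => ?_).trans (le_of_eq ?_)
      · rw [ex_mul, norm_mul, ex_star, norm_star, mul_comm]
        exact hr _ _ z hz
      · rw [one_mul]; rfl
    have nn : 0 ≤ ‖mz th (p x.1)‖ * ‖io h (x.1 + x.2)‖ := by positivity
    by_cases h1 : x.2 = N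
    · rw [if_pos h1]
      split_ifs
      · linarith
      · linarith
    · by_cases h2 : x.2 = -N
      · rw [if_neg h1, if_pos h2, zero_add]; exact main
      · rw [if_neg h1, if_neg h2, hu _ h1 h2, map_zero, zero_apply, inner_zero_right, norm_zero,
          add_zero]
  have hs : Summable fun x : ℤ × ℤ => ‖⟪io r (x.1 + x.2), mz (u x.2) (p x.1)⟫_ℂ‖ :=
    Summable.of_nonneg_of_le (fun _ => norm_nonneg _) key (a1.add b1)
  refine (norm_tsum_le_tsum_norm hs).trans ((hs.tsum_le_tsum key (a1.add b1)).trans ?_)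
  rw [a1.tsum_add b1, ep, eh]
  linarith

/-- Pointwise bounds for the cell flow: `cs = A cosh(m z)`, `|v_l|, |w_l| ≤ cs/2`. -/
structure CellB (H : ℝ) (th cs : ℝ → ℝ) : Prop where
  c : Continuous cs
  nn : ∀ z ∈ Icc (0:ℝ) H, 0 ≤ cs z
  th : ∀ x ∈ Icc (0:ℝ) H, ∀ z ∈ Icc (0:ℝ) H, x ≤ z → cs z * th x ≤ th z * cs x

/-- **Vortex force of the cell flow**, tested with `th F`. -/
theorem bf_wU (pw : PrW lam 0 (1 / 2) (1 / 4)) {th cs : ℝ → ℝ}
    (hw : Wgt H th) (hc : CellB H th cs) (ω : ℝ) {om : ℤ → Z2 H} {v w : ℤ → CI H} {F : ℤ → CI H} {N : ℤ}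
    (hv : ∀ l, l ≠ N → l ≠ -N → v l = 0) (hw' : ∀ l, l ≠ N → l ≠ -N → w l = 0)
    (bv : ∀ l, ∀ z ∈ Icc (0:ℝ) H, ‖ex (v l) z‖ ≤ cs z / 2)
    (bw : ∀ l, ∀ z ∈ Icc (0:ℝ) H, ‖ex (w l) z‖ ≤ cs z / 2)
    (so : S2 lam 0 om) (sv : S2 lam (1 / 2) v) (sw : S2 lam (1 / 2) w)
    (sto : S2 lam 0 fun n => mz (rc th hw.c) (om n))
    (sF : S2 lam 0 (io fun n => rc cs hc.c * F n))
    (sf : S2 lam (1 / 4) (io fun n => rc th hw.c * F n)) :
    ‖bf ω om v w (io fun n => rc th hw.c * F n)‖ ≤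
      4 * (N2 lam 0 (fun n => mz (rc th hw.c) (om n)) * N2 lam 0 (io fun n => rc cs hc.c * F n)) := by
  rw [bf_T3 pw ω so sv sw sf, tZ_io]
  have e : tY ω (io fun n => rc th hw.c * F n) =
      io (fun n => -wV ω (fun n => rc th hw.c * F n) n) := by
    funext n; rw [tY_io]; unfold io; rw [map_neg]
  rw [e]
  -- the dominating family
  set G : ℤ → CI H := fun n => rc cs hc.c * F n with hG
  set h : ℤ → CI H := fun n => ((1 / 2 : ℝ) : ℂ) • hE (ω * n) (G n) with hh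
  have nh : ∀ n, ‖io h n‖ ≤ 1 * ‖io G n‖ := fun n => by
    unfold io
    rw [hh]
    simp only [map_smul, norm_smul, Complex.norm_real, Real.norm_eq_abs]
    have := norm_ihE_le (ω * n) (G n)
    rw [abs_of_pos (by norm_num : (0:ℝ) < 1 / 2)]
    linarith
  obtain ⟨sh, bh⟩ := S2_dom (s := 0) pw.h1 zero_le_one nh sF
  rw [one_mul] at bh
  have ph : ∀ n, ∀ z ∈ Icc (0:ℝ) H, ‖ex (h n) z‖ =
      (cs z * ‖ex (F n) z‖ + |ω * n| * ‖ex (Eop (ω * n) (abC (G n))) z‖) / 2 := by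
    intro n z hz
    rw [hh]
    simp only
    rw [ex_smul, norm_mul, norm_ex_hE _ _ hz, Complex.norm_real, Real.norm_eq_abs,
      abs_of_pos (by norm_num : (0:ℝ) < 1 / 2), hG]
    simp only
    rw [ex_mul, norm_mul, ex_rc cs hc.c hz, Complex.norm_real, Real.norm_eq_abs,
      abs_of_nonneg (hc.nn z hz)]
    ring
  have kz : ∀ n : ℤ, ∀ z ∈ Icc (0:ℝ) H, cs z * ‖ex (Ez (ω * n) (iota (rc th hw.c * F n))) z‖ ≤
      th z * ‖ex (Eop (ω * n) (abC (G n))) z‖ := fun n z hz =>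
    wEz hw.c hc.c hc.nn hw.nn hw.nn hc.nn hc.th (ω * n) (F n) hz
  have r1 : ∀ n l, ∀ z ∈ Icc (0:ℝ) H, ‖ex (uV ω (fun n => rc th hw.c * F n) n) z‖ * ‖ex (w l) z‖ ≤
      ‖ex (rc th hw.c : CI H) z‖ * ‖ex (h n) z‖ := by
    intro n l z hz
    have h2 : ‖ex (uV ω (fun n => rc th hw.c * F n) n) z‖ ≤ th z * ‖ex (F n) z‖ +
        |ω * n| * ‖ex (Ez (ω * n) (iota (rc th hw.c * F n))) z‖ := by
      unfold uV
      rw [ex_sub, ex_smul, ex_mul]
      refine (norm_sub_le _ _).trans ?_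
      rw [norm_mul, norm_mul, norm_ka, norm_ex_rc hw hz]
    have h3 := bw l z hz
    have h4 := kz n z hz
    rw [ph n z hz, norm_ex_rc hw hz]
    have h5 := hc.nn z hz
    calc ‖ex (uV ω (fun n => rc th hw.c * F n) n) z‖ * ‖ex (w l) z‖ ≤
          (th z * ‖ex (F n) z‖ + |ω * n| * ‖ex (Ez (ω * n) (iota (rc th hw.c * F n))) z‖) *
            (cs z / 2) := mul_le_mul h2 h3 (norm_nonneg _) (by have := hw.nn z hz; positivity)
      _ = (th z * (cs z * ‖ex (F n) z‖) + |ω * n| *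
            (cs z * ‖ex (Ez (ω * n) (iota (rc th hw.c * F n))) z‖)) / 2 := by ring
      _ ≤ (th z * (cs z * ‖ex (F n) z‖) + |ω * n| *
            (th z * ‖ex (Eop (ω * n) (abC (G n))) z‖)) / 2 := by gcongr
      _ = _ := by ring
  have r2 : ∀ n l, ∀ z ∈ Icc (0:ℝ) H, ‖ex (-wV ω (fun n => rc th hw.c * F n) n) z‖ * ‖ex (v l) z‖ ≤
      ‖ex (rc th hw.c : CI H) z‖ * ‖ex (h n) z‖ := by
    intro n l z hz
    have h2 : ‖ex (-wV ω (fun n => rc th hw.c * F n) n) z‖ =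
        |ω * n| * ‖ex (Ez (ω * n) (iota (rc th hw.c * F n))) z‖ := by
      unfold wV
      rw [ex_neg, ex_smul, norm_neg, norm_mul, norm_neg, norm_kI]
    have h3 := bv l z hz
    have h4 := kz n z hz
    rw [ph n z hz, norm_ex_rc hw hz, h2]
    have h5 := hc.nn z hz
    have h6 := hw.nn z hz
    calc |ω * n| * ‖ex (Ez (ω * n) (iota (rc th hw.c * F n))) z‖ * ‖ex (v l) z‖ ≤
          |ω * n| * ‖ex (Ez (ω * n) (iota (rc th hw.c * F n))) z‖ * (cs z / 2) :=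
          mul_le_mul_of_nonneg_left h3 (by positivity)
      _ = (|ω * n| * (cs z * ‖ex (Ez (ω * n) (iota (rc th hw.c * F n))) z‖)) / 2 := by ring
      _ ≤ (|ω * n| * (th z * ‖ex (Eop (ω * n) (abC (G n))) z‖)) / 2 := by gcongr
      _ ≤ (th z * (cs z * ‖ex (F n) z‖) + |ω * n| *
            (th z * ‖ex (Eop (ω * n) (abC (G n))) z‖)) / 2 := by
          have : 0 ≤ th z * (cs z * ‖ex (F n) z‖) := by positivity
          linarith
      _ = _ := by ring
  have b1 := T3_two (lam := lam) hw' r1 sto sh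
  have b2 := T3_two (lam := lam) hv r2 sto sh
  have c1 : 0 ≤ N2 lam 0 (fun n => mz (rc th hw.c) (om n)) := N2_nonneg _ _
  have c2 : N2 lam 0 (fun n => mz (rc th hw.c) (om n)) * N2 lam 0 (io h) ≤
      N2 lam 0 (fun n => mz (rc th hw.c) (om n)) * N2 lam 0 (io G) := mul_le_mul_of_nonneg_left bh c1
  refine (norm_add_le _ _).trans ((add_le_add b1 b2).trans ?_)
  linarith

end

end Pool.Agent.Lib.MP_79abb3_an.SC
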