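import Pool.Agent.Lib.MP_79abb3_an.SC.ApE
import Pool.Agent.Lib.MP_79abb3_an.SC.ApXu

/-!
MP_79abb3_an, simply connected domains, block (iii): the static weighted energy inequality.
-/

set_option autoImplicit false
set_option linter.unusedSectionVars false

open MeasureTheory Set Filter Topology Function
open scoped ENNReal InnerProductSpace

namespace Pool.Agent.Lib.MP_79abb3_an.SC

open Pool.Agent.Lib.MP_79abb3_an.P25 Pool.Agent.Lib.MP_79abb3_an.FW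

/-- The algebra of the weighted energy inequality. -/
theorem wE_alg {c Ca K G R X e s q y N D Ck : ℝ} (hc : 0 < c) (hK : 0 ≤ K)
    (hR : 0 ≤ R) (he : 0 ≤ e) (hs : 0 ≤ s) (hq : 0 ≤ q) (hy : 0 ≤ y)
    (hsG : s ^ 4 = G + R) (hCk : 32 * Ca ^ 2 / c ≤ Ck)
    (hN : N ≤ K * G * (q * (e ^ 2 * s ^ 2) + y * (e * s ^ 3)) + 4 * Ca * G * X)
    (hD : D ≤ -c * G ^ 2 + 2 * Ca * G * R) :
    D + N - Ck * X ^ 2 ≤ -(c / 2) * G ^ 2 + (c / 4 + 8 * Ca ^ 2 / c) * R ^ 2 +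
      ((c / 16) ^ 3)⁻¹ * K ^ 4 * q ^ 4 * e ^ 8 + ((c / 16) ^ 7)⁻¹ * K ^ 8 * y ^ 8 * e ^ 8 := by
  have hGs : G ≤ s ^ 4 := by linarith
  have hε : 0 < c / 16 := by positivity
  have t1 : K * G * (q * (e ^ 2 * s ^ 2)) ≤ c / 16 * s ^ 8 + ((c / 16) ^ 3)⁻¹ * (K * q * e ^ 2) ^ 4 := by
    have h1 : K * G * (q * (e ^ 2 * s ^ 2)) ≤ K * s ^ 4 * (q * (e ^ 2 * s ^ 2)) := by gcongr
    refine (h1.trans (le_of_eq (by ring))).trans (young6 hε (by positivity : 0 ≤ K * q * e ^ 2) hs)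
  have t2 : K * G * (y * (e * s ^ 3)) ≤ c / 16 * s ^ 8 + ((c / 16) ^ 7)⁻¹ * (K * y * e) ^ 8 := by
    have h1 : K * G * (y * (e * s ^ 3)) ≤ K * s ^ 4 * (y * (e * s ^ 3)) := by gcongr
    refine (h1.trans (le_of_eq (by ring))).trans (young7 hε (by positivity : 0 ≤ K * y * e) hs)
  have t3 : 2 * Ca * G * R ≤ c / 8 * G ^ 2 + 8 * Ca ^ 2 / c * R ^ 2 := by
    have h1 : 0 ≤ (c * G - 8 * Ca * R) ^ 2 / (8 * c) := by positivity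
    have h2 : (c * G - 8 * Ca * R) ^ 2 / (8 * c) = c / 8 * G ^ 2 + 8 * Ca ^ 2 / c * R ^ 2 -
        2 * Ca * G * R := by
      field_simp
      ring
    linarith
  have t4 : 4 * Ca * G * X ≤ c / 8 * G ^ 2 + 32 * Ca ^ 2 / c * X ^ 2 := by
    have h1 : 0 ≤ (c * G - 16 * Ca * X) ^ 2 / (8 * c) := by positivity
    have h2 : (c * G - 16 * Ca * X) ^ 2 / (8 * c) = c / 8 * G ^ 2 + 32 * Ca ^ 2 / c * X ^ 2 -
        4 * Ca * G * X := by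
      field_simp
      ring
    linarith
  have t5 : s ^ 8 ≤ 2 * G ^ 2 + 2 * R ^ 2 := by
    have h1 : s ^ 8 = (G + R) ^ 2 := by rw [← hsG]; ring
    rw [h1]; nlinarith [sq_nonneg (G - R)]
  have t6 : 32 * Ca ^ 2 / c * X ^ 2 ≤ Ck * X ^ 2 := mul_le_mul_of_nonneg_right hCk (sq_nonneg X)
  have t7 : c / 8 * s ^ 8 ≤ c / 4 * G ^ 2 + c / 4 * R ^ 2 := by nlinarith
  have e1 : ((c / 16) ^ 3)⁻¹ * (K * q * e ^ 2) ^ 4 = ((c / 16) ^ 3)⁻¹ * K ^ 4 * q ^ 4 * e ^ 8 := by ring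
  have e2 : ((c / 16) ^ 7)⁻¹ * (K * y * e) ^ 8 = ((c / 16) ^ 7)⁻¹ * K ^ 8 * y ^ 8 * e ^ 8 := by ring
  rw [e1] at t1
  rw [e2] at t2
  have e3 : (c / 4 + 8 * Ca ^ 2 / c) * R ^ 2 = c / 4 * R ^ 2 + 8 * Ca ^ 2 / c * R ^ 2 := by ring
  rw [e3]
  linarith

theorem mono4 {c P A B N P' A' B' N' : ℝ} (hc : 0 ≤ c) (hP : 0 ≤ P) (hA : 0 ≤ A) (hB : 0 ≤ B)
    (hN : 0 ≤ N) (h1 : P ≤ P') (h2 : A ≤ A') (h3 : B ≤ B') (h4 : N ≤ N') :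
    2 * c * P * (A + B) * N ≤ 2 * c * P' * (A' + B') * N' := by
  have hA' : 0 ≤ A' := hA.trans h2
  have hB' : 0 ≤ B' := hB.trans h3
  have hP' : 0 ≤ P' := hP.trans h1
  gcongr

theorem wE_sum_alg {Ca Gm X c2 c3 R K0 q y t u : ℝ} (h1 : 0 ≤ Ca) (h2 : 0 ≤ Gm) (h3 : 0 ≤ c2)
    (h4 : 0 ≤ c3) (h5 : 0 ≤ R) (h6 : 0 ≤ K0) (h7 : 0 ≤ q) (h8 : 0 ≤ y) (h9 : 0 ≤ t) (h10 : 0 ≤ u) :
    4 * (Ca * Gm * X) + (2 * c2 * (Ca * Gm) * (R * q + 2 * (R * q)) * (K0 * t) +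
      2 * c3 * (Ca * Gm) * (1 * y + 2 * y) * (2 * K0 * u)) ≤
    Ca * (6 * c2 * R * K0 + 12 * c3 * K0) * Gm * (q * t + y * u) + 4 * Ca * Gm * X := by
  have p1 : 0 ≤ 6 * c2 * R * K0 * Ca * Gm * (y * u) := by positivity
  have p2 : 0 ≤ 12 * c3 * K0 * Ca * Gm * (q * t) := by positivity
  have e : Ca * (6 * c2 * R * K0 + 12 * c3 * K0) * Gm * (q * t + y * u) + 4 * Ca * Gm * X =
      4 * (Ca * Gm * X) + (2 * c2 * (Ca * Gm) * (R * q + 2 * (R * q)) * (K0 * t) +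
      2 * c3 * (Ca * Gm) * (1 * y + 2 * y) * (2 * K0 * u)) +
      (6 * c2 * R * K0 * Ca * Gm * (y * u) + 12 * c3 * K0 * Ca * Gm * (q * t)) := by ring
  rw [e]; linarith

section
variable {H : ℝ} [hH : Fact (0 < H)] {lam : ℤ → ℝ}

theorem coe_Ms (b : CI H) (x : HH H) : (fun n => mz b (x n)) = ⇑(Ms b x) :=
  funext fun n => (Ms_apply b x n).symm

theorem io_mul_Vf (ω : ℝ) (b : CI H) (g : HH H) : (io fun n => b * Vf ω g n) = ⇑(Ms b (TT ω g)) := by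
  funext n
  rw [Ms_apply, TT_apply, T2_apply, mz_iota]; rfl

/-- **The vortex force tested with `th² V`.** -/
theorem wE_bf {ω C : ℝ} (h : LamOK ω lam C) (pw : PrW lam 0 (1 / 2) (1 / 4))
    (pw2 : PrW lam 0 (1 / 2) (1 / 2)) (pw3 : PrW lam 0 (3 / 8) (1 / 4)) {ζ : CI H} {a : ℤ → CI H}
    (sa : Summable fun n => ‖a n‖) :
    ∃ K, 0 ≤ K ∧ ∀ {th th1 cs : ℝ → ℝ} (hw : Wgt H th) (c1 : Continuous th1)
      (_ : IsD (rc th hw.c : CI H) (rc th1 c1)) (hc : CellB H th cs) {N : ℤ} {ve we : ℤ → CI H}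
      (_ : ∀ l, l ≠ N → l ≠ -N → ve l = 0) (_ : ∀ l, l ≠ N → l ≠ -N → we l = 0)
      (_ : ∀ l, ∀ z ∈ Icc (0:ℝ) H, ‖ex (ve l) z‖ ≤ cs z / 2)
      (_ : ∀ l, ∀ z ∈ Icc (0:ℝ) H, ‖ex (we l) z‖ ≤ cs z / 2)
      (_ : S2 lam (1 / 2) ve) (_ : S2 lam (1 / 2) we) (g q : HH H) {e s : ℝ} (_ : 0 ≤ e) (_ : 0 ≤ s)
      (_ : ‖Ms (rc th hw.c) (TT ω g)‖ = e ^ 4)
      (_ : ‖Ms (rc th hw.c) g - Ms (rc th1 c1) (TT ω g)‖ ≤ s ^ 4),
      ‖bf ω (⇑(Ms ζ (cm a g))) (fun n => ve n + (uV ω (Vf ω q) n + uV ω (Vf ω g) n))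
        (fun n => we n + (wV ω (Vf ω q) n + wV ω (Vf ω g) n))
        (io fun n => rc th hw.c * (rc th hw.c * Vf ω g n))‖ ≤
      K * ‖Ms (rc th hw.c) g‖ * (‖q‖ * (e ^ 2 * s ^ 2) + ‖LT ω lam (3 / 8) g‖ * (e * s ^ 3)) +
        4 * (‖ζ‖ * ∑' n, ‖a n‖) * ‖Ms (rc th hw.c) g‖ *
          ‖Ms (rc cs hc.c) (Ms (rc th hw.c) (TT ω g))‖ := by
  have hω := h.ω
  have hH0 := hH.out
  have hC := h.C0
  set Ca : ℝ := ‖ζ‖ * ∑' n, ‖a n‖ with hCa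
  have hCa0 : 0 ≤ Ca := mul_nonneg (norm_nonneg _) (tsum_nonneg fun _ => norm_nonneg _)
  set Cl : ℝ := C * (1 + ω⁻¹) with hCl
  have hCl0 : 0 ≤ Cl := by positivity
  set K0 : ℝ := 1 + C * (H + ω⁻¹) with hK0
  have hK00 : 0 ≤ K0 := by positivity
  have hc2 : 0 ≤ CP lam (0 + 1 / 2 + 1 / 2) := CP_nonneg _
  have hc3 : 0 ≤ CP lam (0 + 3 / 8 + 1 / 4) := CP_nonneg _
  set R : ℝ := √(Cl * (H + 1)) with hR
  have hR0 : 0 ≤ R := Real.sqrt_nonneg _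
  refine ⟨Ca * (6 * CP lam (0 + 1 / 2 + 1 / 2) * R * K0 + 12 * CP lam (0 + 3 / 8 + 1 / 4) * K0),
    by positivity, ?_⟩
  intro th th1 cs hw c1 hd hc N ve we hve hwe bve bwe sve swe g q e s he hs hE hS
  -- the families
  set om : HH H := Ms ζ (cm a g) with hom
  have som : S2 lam 0 (⇑om) := (S2l2 om).1
  have nth : ‖Ms (rc th hw.c) om‖ ≤ Ca * ‖Ms (rc th hw.c) g‖ := by
    have e1 : Ms (rc th hw.c) om = Ms ζ (cm a (Ms (rc th hw.c) g)) := by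
      rw [hom, Ms_Ms, mul_comm, ← Ms_Ms, MsCm sa]
    rw [e1, hCa, mul_assoc]
    exact (norm_Ms_apply_le _ _).trans (mul_le_mul_of_nonneg_left (norm_cm_apply_le sa _) (norm_nonneg _))
  have sto : S2 lam 0 (fun n => mz (rc th hw.c) (om n)) := by rw [coe_Ms]; exact (S2l2 _).1
  have nto : N2 lam 0 (fun n => mz (rc th hw.c) (om n)) ≤ Ca * ‖Ms (rc th hw.c) g‖ := by
    rw [coe_Ms, (S2l2 _).2]; exact nth
  set F : ℤ → CI H := fun n => rc th hw.c * Vf ω g n with hF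
  obtain ⟨⟨sF2, nF2⟩, ⟨sF4, nF4⟩⟩ := wF h hd g he hs hE hS
  -- the test function
  have sf : S2 lam (1 / 4) (io fun n => rc th hw.c * F n) := by
    have h14 : S2 lam (1 / 4) (io F) := (S2_mono h.one (by norm_num) sF2).1
    refine (S2_dom h.one (norm_nonneg (rc th hw.c : CI H)) (fun n => ?_) h14).1
    unfold io
    rw [← mz_iota]
    exact norm_mz_apply_le _ _
  obtain ⟨⟨a1, a2⟩, ⟨b1, b2⟩⟩ := vel_half h.one hCl0 h.le_k q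
  obtain ⟨⟨a3, a4⟩, ⟨b3, b4⟩⟩ := vel_half h.one hCl0 h.le_k g
  have sv2 := (S2_add h.one a1 a3).1
  have sw2 := (S2_add h.one b1 b3).1
  rw [bf_add pw ω som sve swe sv2 sw2 sf, bf_add pw ω som a1 b1 a3 b3 sf]
  -- outer part
  have k1 := bf_w1 pw pw2 hw ω som a1 b1 sto sF2 sf
  -- inner part
  have k2 := bf_w2 pw pw3 hw ω som a3 b3 sto sF4 sf
  -- the cell
  have sFc : S2 lam 0 (io fun n => rc cs hc.c * F n) := by
    have : (io fun n => rc cs hc.c * F n) = ⇑(Ms (rc cs hc.c) (Ms (rc th hw.c) (TT ω g))) := by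
      funext n
      rw [Ms_apply, Ms_apply, TT_apply, T2_apply, mz_iota, mz_iota]; rfl
    rw [this]; exact (S2l2 _).1
  have nFc : N2 lam 0 (io fun n => rc cs hc.c * F n) =
      ‖Ms (rc cs hc.c) (Ms (rc th hw.c) (TT ω g))‖ := by
    have : (io fun n => rc cs hc.c * F n) = ⇑(Ms (rc cs hc.c) (Ms (rc th hw.c) (TT ω g))) := by
      funext n
      rw [Ms_apply, Ms_apply, TT_apply, T2_apply, mz_iota, mz_iota]; rfl
    rw [this]; exact (S2l2 _).2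
  have k3 := bf_wU pw hw hc ω hve hwe bve bwe som sve swe sto sFc sf
  rw [nFc] at k3
  -- norms of the velocities
  obtain ⟨sy, ny⟩ := LT_N2 h (show (3 / 8 : ℝ) ≤ 1 by norm_num) g
  obtain ⟨⟨-, u1⟩, ⟨-, u2⟩⟩ := S2_iuV h.one ω sy
  rw [ny] at u1 u2
  set Gm := ‖Ms (rc th hw.c) g‖ with hGm
  set X := ‖Ms (rc cs hc.c) (Ms (rc th hw.c) (TT ω g))‖ with hX
  set y := ‖LT ω lam (3 / 8) g‖ with hy
  have Gm0 : 0 ≤ Gm := norm_nonneg _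
  have X0 : 0 ≤ X := norm_nonneg _
  have y0 : 0 ≤ y := norm_nonneg _
  have q0 : 0 ≤ ‖q‖ := norm_nonneg _
  have n0 : 0 ≤ N2 lam 0 (fun n => mz (rc th hw.c) (om n)) := N2_nonneg _ _
  have n1 := N2_nonneg (lam := lam) (1 / 2) (wV ω (Vf ω q))
  have n2 := N2_nonneg (lam := lam) (1 / 2) (uV ω (Vf ω q))
  have n3 := N2_nonneg (lam := lam) (3 / 8) (io (wV ω (Vf ω g)))
  have n4 := N2_nonneg (lam := lam) (3 / 8) (io (uV ω (Vf ω g)))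
  have n5 : 0 ≤ N2 lam (1 / 2) (io F) := N2_nonneg _ _
  have n6 : 0 ≤ N2 lam (1 / 4) F := N2_nonneg _ _
  have m1 : ‖bf ω (⇑om) (uV ω (Vf ω q)) (wV ω (Vf ω q)) (io fun n => rc th hw.c * F n)‖ ≤
      2 * CP lam (0 + 1 / 2 + 1 / 2) * (Ca * Gm) * (R * ‖q‖ + 2 * (R * ‖q‖)) *
        (K0 * (e ^ 2 * s ^ 2)) :=
    k1.trans (mono4 hc2 n0 n1 n2 n5 nto b2 a2 nF2)
  have m2 : ‖bf ω (⇑om) (uV ω (Vf ω g)) (wV ω (Vf ω g)) (io fun n => rc th hw.c * F n)‖ ≤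
      2 * CP lam (0 + 3 / 8 + 1 / 4) * (Ca * Gm) * (1 * y + 2 * y) * (2 * K0 * (e * s ^ 3)) :=
    k2.trans (mono4 hc3 n0 n3 n4 n6 nto u2 u1 nF4)
  have m3 : ‖bf ω (⇑om) ve we (io fun n => rc th hw.c * F n)‖ ≤ 4 * (Ca * Gm * X) :=
    k3.trans (mul_le_mul_of_nonneg_left (mul_le_mul_of_nonneg_right nto X0) (by norm_num))
  refine ((norm_add_le _ _).trans (add_le_add m3 ((norm_add_le _ _).trans (add_le_add m1 m2)))).trans ?_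
  exact wE_sum_alg hCa0 Gm0 hc2 hc3 hR0 hK00 q0 y0 (by positivity) (by positivity)

end

end Pool.Agent.Lib.MP_79abb3_an.SC
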