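import Pool.Agent.Lib.MP_79abb3_an.SC.ApDef
import Pool.Agent.Lib.MP_79abb3_an.SC.ApEa

/-!
MP_79abb3_an, simply connected domains, block (iii): the static weighted energy inequality for the
flushing phase.
-/

set_option autoImplicit false
set_option linter.unusedSectionVars false

open MeasureTheory Set Filter Topology Function
open scoped ENNReal InnerProductSpace

namespace Pool.Agent.Lib.MP_79abb3_an.SC

open Pool.Agent.Lib.MP_79abb3_an.P25 Pool.Agent.Lib.MP_79abb3_an.FW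

theorem fourth_root {x : ℝ} (hx : 0 ≤ x) : ∃ e : ℝ, 0 ≤ e ∧ x = e ^ 4 := by
  refine ⟨√(√x), Real.sqrt_nonneg _, ?_⟩
  have h1 : √(√x) ^ 4 = (√(√x) ^ 2) ^ 2 := by ring
  rw [h1, Real.sq_sqrt (Real.sqrt_nonneg _), Real.sq_sqrt hx]

theorem wE_alg' {c Ca K G R X e s q y N D Ck E r : ℝ} (hc : 0 < c) (hK : 0 ≤ K)
    (hR : 0 ≤ R) (he : 0 ≤ e) (hs : 0 ≤ s) (hq : 0 ≤ q) (hy : 0 ≤ y)
    (hsG : s ^ 4 = G + R) (hCk : 32 * Ca ^ 2 / c ≤ Ck)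
    (hN : N ≤ K * G * (q * (e ^ 2 * s ^ 2) + y * (e * s ^ 3)) + 4 * Ca * G * X)
    (hD : D ≤ -c * G ^ 2 + 2 * Ca * G * R) (hE : E = e ^ 4) (hr : r ≤ D + N - Ck * X ^ 2) :
    r ≤ -(c / 2) * G ^ 2 + (c / 4 + 8 * Ca ^ 2 / c + ((c / 16) ^ 3)⁻¹ * K ^ 4 +
      ((c / 16) ^ 7)⁻¹ * K ^ 8) * (R ^ 2 + (q ^ 4 + y ^ 8) * E ^ 2) := by
  have halg := wE_alg hc hK hR he hs hq hy hsG hCk hN hD
  have h2 : e ^ 8 = E ^ 2 := by rw [hE]; ring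
  rw [h2] at halg
  have hK10 : 0 ≤ c / 4 + 8 * Ca ^ 2 / c := by positivity
  have hK20 : 0 ≤ ((c / 16) ^ 3)⁻¹ * K ^ 4 := by positivity
  have hK30 : 0 ≤ ((c / 16) ^ 7)⁻¹ * K ^ 8 := by positivity
  generalize c / 4 + 8 * Ca ^ 2 / c = K1 at *
  generalize ((c / 16) ^ 3)⁻¹ * K ^ 4 = K2 at *
  generalize ((c / 16) ^ 7)⁻¹ * K ^ 8 = K3 at *
  have p : 0 ≤ K2 * R ^ 2 + K3 * R ^ 2 + K1 * (q ^ 4 * E ^ 2) + K1 * (y ^ 8 * E ^ 2) +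
      K2 * (y ^ 8 * E ^ 2) + K3 * (q ^ 4 * E ^ 2) := by positivity
  have e1 : (K1 + K2 + K3) * (R ^ 2 + (q ^ 4 + y ^ 8) * E ^ 2) =
      K1 * R ^ 2 + K2 * q ^ 4 * E ^ 2 + K3 * y ^ 8 * E ^ 2 +
      (K2 * R ^ 2 + K3 * R ^ 2 + K1 * (q ^ 4 * E ^ 2) + K1 * (y ^ 8 * E ^ 2) +
      K2 * (y ^ 8 * E ^ 2) + K3 * (q ^ 4 * E ^ 2)) := by ring
  rw [e1]
  linarith

section
variable {H : ℝ} [hH : Fact (0 < H)]

theorem star_rc (f : ℝ → ℝ) (hf : Continuous f) : star (rc f hf : CI H) = rc f hf := by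
  refine ci_ext fun z hz => ?_
  rw [ex_star, ex_rc _ _ hz]
  exact Complex.conj_ofReal _

theorem rc_mul_rc (f g : ℝ → ℝ) (hf : Continuous f) (hg : Continuous g) :
    (rc f hf : CI H) * rc g hg = rc (fun z => f z * g z) (hf.mul hg) := by
  refine ci_ext fun z hz => ?_
  rw [ex_mul, ex_rc _ _ hz, ex_rc _ _ hz, ex_rc _ _ hz]; push_cast; rfl

theorem inner_self_re {E : Type*} [NormedAddCommGroup E] [InnerProductSpace ℂ E] (x : E) :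
    (⟪x, x⟫_ℂ).re = ‖x‖ ^ 2 := by
  have := inner_self_eq_norm_sq (𝕜 := ℂ) x
  rw [← this]; rfl

theorem Ms_comm (b c : CI H) (x : HH H) : Ms b (Ms c x) = Ms c (Ms b x) := by
  rw [Ms_Ms, mul_comm, ← Ms_Ms]

theorem damp_eq {S T : CI H} (hS : star S = S) (hT : star T = T) (c : ℝ) (V : HH H) :
    (⟪Ms T (Ms T V), Ms ((c : ℂ) • (S * S)) V⟫_ℂ).re = c * ‖Ms S (Ms T V)‖ ^ 2 := by
  have h1 : ⟪Ms T (Ms T V), Ms S (Ms S V)⟫_ℂ = ⟪Ms S (Ms T V), Ms S (Ms T V)⟫_ℂ := by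
    rw [innerMs hT, Ms_comm T S, Ms_comm T S, ← innerMs hS]
  rw [Ms_smul, ← Ms_Ms, inner_smul_right, h1, Complex.re_ofReal_mul, inner_self_re]

namespace Geo
variable (G : Geo H)

/-- a bound for the operators `ζ a` and `a` -/
noncomputable def Ca : ℝ := (1 + ‖G.ζ‖) * ∑' n, ‖G.a n‖

/-- the constant in `κ = C_κ α² cosh²(m z)` -/
noncomputable def Ck : ℝ := 32 * G.Ca ^ 2 / G.c₀

theorem sa : Summable fun n => ‖G.a n‖ := G.ha.c.s0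

theorem sum_a_nonneg : 0 ≤ ∑' n, ‖G.a n‖ := tsum_nonneg fun _ => norm_nonneg _

theorem Ca_nonneg : 0 ≤ G.Ca := mul_nonneg (by positivity) G.sum_a_nonneg

theorem le_Ca : ∑' n, ‖G.a n‖ ≤ G.Ca := by
  unfold Ca
  nlinarith [norm_nonneg G.ζ, G.sum_a_nonneg]

theorem le_Ca' : ‖G.ζ‖ * ∑' n, ‖G.a n‖ ≤ G.Ca := by
  unfold Ca
  nlinarith [norm_nonneg G.ζ, G.sum_a_nonneg]

theorem Ck_nonneg : 0 ≤ G.Ck := by
  have := G.hc
  unfold Ck; positivity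

/-- `κ` -/
noncomputable def kF (m α z : ℝ) : ℝ := G.Ck * chF m α z ^ 2

theorem kF_c (m α : ℝ) : Continuous (G.kF m α) := by
  unfold kF
  exact continuous_const.mul ((chF_c m α).pow 2)

/-- total velocity: cell flow + `u[T q̂]` + `u[T g]`, first component -/
noncomputable def tv (N : ℕ) (α : ℝ) (qh g : HH H) (n : ℤ) : CI H :=
  cellV (G.ω * N) N α n + (uV G.ω (Vf G.ω (⇑qh)) n + uV G.ω (Vf G.ω (⇑g)) n)

/-- total velocity, second component -/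
noncomputable def tw (N : ℕ) (α : ℝ) (qh g : HH H) (n : ℤ) : CI H :=
  cellW (G.ω * N) N α n + (wV G.ω (Vf G.ω (⇑qh)) n + wV G.ω (Vf G.ω (⇑g)) n)

/-- the static weighted energy inequality -/
theorem wE : ∃ K, 0 ≤ K ∧ ∀ {th th1 : ℝ → ℝ} (hw : Wgt H th) (c1 : Continuous th1)
    (_ : IsD (rc th hw.c : CI H) (rc th1 c1)) {N : ℕ} {α : ℝ} (_ : 0 ≤ α)
    (_ : CellB H th (chF (G.ω * N) α)) (g qh : HH H),
    (-⟪Ms (rc th hw.c) (Ms (rc th hw.c) g - Ms (rc th1 c1) (TT G.ω g)) -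
        Ms (rc th1 c1) (Ms (rc th hw.c) (TT G.ω g)), cm G.a g⟫_ℂ +
      bf G.ω (⇑(Ms G.ζ (cm G.a g))) (G.tv N α qh g) (G.tw N α qh g)
        (⇑(Ms (rc th hw.c) (Ms (rc th hw.c) (TT G.ω g)))) -
      ⟪Ms (rc th hw.c) (Ms (rc th hw.c) (TT G.ω g)),
        Ms (rc (G.kF (G.ω * N) α) (G.kF_c _ _)) (TT G.ω g)⟫_ℂ).re ≤
    -(G.c₀ / 2) * ‖Ms (rc th hw.c) g‖ ^ 2 +
      K * (‖Ms (rc th1 c1) (TT G.ω g)‖ ^ 2 +
        (‖qh‖ ^ 4 + ‖LT G.ω G.lam (3 / 8) g‖ ^ 8) * ‖Ms (rc th hw.c) (TT G.ω g)‖ ^ 2) := by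
  have hlam := G.lamOK
  have hc := G.hc
  obtain ⟨K, hK, hb⟩ := wE_bf (ζ := G.ζ) hlam G.pw
    (G.prW (α := 0) (β := 1 / 2) (γ := 1 / 2) (by norm_num) (by norm_num) (by norm_num) (by norm_num))
    (G.prW (α := 0) (β := 3 / 8) (γ := 1 / 4) (by norm_num) (by norm_num) (by norm_num) (by norm_num)) G.sa
  refine ⟨G.c₀ / 4 + 8 * G.Ca ^ 2 / G.c₀ + ((G.c₀ / 16) ^ 3)⁻¹ * K ^ 4 + ((G.c₀ / 16) ^ 7)⁻¹ * K ^ 8,
    by positivity, ?_⟩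
  intro th th1 hw c1 hd N α hα hcell g qh
  set V := TT G.ω g with hV
  set T : CI H := rc th hw.c with hT
  set T1 : CI H := rc th1 c1 with hT1
  obtain ⟨e, he, hE⟩ := fourth_root (norm_nonneg (Ms T V))
  obtain ⟨s, hs, hS⟩ := fourth_root (add_nonneg (norm_nonneg (Ms T g)) (norm_nonneg (Ms T1 V)))
  have hS' : ‖Ms T g - Ms T1 V‖ ≤ s ^ 4 := by
    rw [← hS]; exact norm_sub_le _ _
  have hbf := hb hw c1 hd hcell (N := (N:ℤ)) (ve := cellV (G.ω * N) N α) (we := cellW (G.ω * N) N α)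
    (fun l h1 h2 => cellV_zero h1 h2) (fun l h1 h2 => cellW_zero h1 h2)
    (fun l z hz => cellV_le hα N l hz) (fun l z hz => cellW_le hα N l hz)
    (S2_fin (N := (N:ℤ)) fun l h1 h2 => cellV_zero h1 h2)
    (S2_fin (N := (N:ℤ)) fun l h1 h2 => cellW_zero h1 h2) g qh he hs hE hS'
  -- the test function
  have ef : (io fun n => T * (T * Vf G.ω (⇑g) n)) = ⇑(Ms T (Ms T V)) := by
    funext n
    rw [Ms_apply, Ms_apply, hV, TT_apply, T2_apply, mz_iota, mz_iota]; rfl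
  rw [ef] at hbf
  -- the elliptic part
  have hstT : star T = T := star_rc _ _
  have hstT1 : star T1 = T1 := star_rc _ _
  have eD : ⟪Ms T (Ms T g - Ms T1 V) - Ms T1 (Ms T V), cm G.a g⟫_ℂ =
      ⟪Ms T g, cm G.a (Ms T g)⟫_ℂ - 2 * ⟪Ms T1 V, cm G.a (Ms T g)⟫_ℂ := by
    have h1 : Ms T1 (Ms T V) = Ms T (Ms T1 V) := by rw [Ms_Ms, mul_comm, ← Ms_Ms]
    rw [h1, ← map_sub, innerMs hstT, MsCm G.sa, inner_sub_left, inner_sub_left]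
    ring
  have hD : (-⟪Ms T (Ms T g - Ms T1 V) - Ms T1 (Ms T V), cm G.a g⟫_ℂ).re ≤
      -G.c₀ * ‖Ms T g‖ ^ 2 + 2 * G.Ca * ‖Ms T g‖ * ‖Ms T1 V‖ := by
    rw [eD]
    have h1 := G.coer (Ms T g)
    have h2 : (⟪cm G.a (Ms T g), Ms T g⟫_ℂ).re = (⟪Ms T g, cm G.a (Ms T g)⟫_ℂ).re := re_inner_comm _ _
    have h3 : ‖⟪Ms T1 V, cm G.a (Ms T g)⟫_ℂ‖ ≤ ‖Ms T1 V‖ * (G.Ca * ‖Ms T g‖) :=
      (norm_inner_le_norm _ _).trans (mul_le_mul_of_nonneg_left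
        ((norm_cm_apply_le G.sa _).trans (mul_le_mul_of_nonneg_right G.le_Ca (norm_nonneg _)))
        (norm_nonneg _))
    have h4 := Complex.re_le_norm ⟪Ms T1 V, cm G.a (Ms T g)⟫_ℂ
    simp only [Complex.neg_re, Complex.sub_re, Complex.mul_re, Complex.re_ofNat, Complex.im_ofNat,
      zero_mul, sub_zero]
    rw [h2] at h1
    nlinarith
  -- the damping
  have eK : (⟪Ms T (Ms T V), Ms (rc (G.kF (G.ω * N) α) (G.kF_c _ _)) V⟫_ℂ).re =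
      G.Ck * ‖Ms (rc (chF (G.ω * N) α) hcell.c) (Ms T V)‖ ^ 2 := by
    have h1 : (rc (G.kF (G.ω * N) α) (G.kF_c _ _) : CI H) =
        (G.Ck : ℂ) • (rc (chF (G.ω * N) α) hcell.c * rc (chF (G.ω * N) α) hcell.c) := by
      refine ci_ext fun z hz => ?_
      rw [ex_smul, ex_mul, ex_rc _ _ hz, ex_rc _ _ hz]
      unfold kF; push_cast; ring
    rw [h1]
    exact damp_eq (star_rc _ _) hstT G.Ck V
  have hN : ‖bf G.ω (⇑(Ms G.ζ (cm G.a g))) (G.tv N α qh g) (G.tw N α qh g) (⇑(Ms T (Ms T V)))‖ ≤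
      K * ‖Ms T g‖ * (‖qh‖ * (e ^ 2 * s ^ 2) + ‖LT G.ω G.lam (3 / 8) g‖ * (e * s ^ 3)) +
        4 * G.Ca * ‖Ms T g‖ * ‖Ms (rc (chF (G.ω * N) α) hcell.c) (Ms T V)‖ := by
    refine hbf.trans (add_le_add le_rfl ?_)
    exact mul_le_mul_of_nonneg_right (mul_le_mul_of_nonneg_right
      (mul_le_mul_of_nonneg_left G.le_Ca' (by norm_num)) (norm_nonneg _)) (norm_nonneg _)
  refine wE_alg' hc hK (norm_nonneg _) he hs (norm_nonneg _) (norm_nonneg _) hS.symm le_rfl hN hD hE ?_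
  rw [Complex.sub_re, Complex.add_re, eK]
  exact sub_le_sub_right (add_le_add le_rfl (Complex.re_le_norm _)) _

end Geo

end

end Pool.Agent.Lib.MP_79abb3_an.SC
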