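import Pool.Agent.Lib.MP_79abb3_an.SC.ApW
import Pool.Agent.Lib.MP_79abb3_an.SC.ExNl

/-!
MP_79abb3_an, simply connected domains, block (iii): elements of `HH H` as families of modes.
-/

set_option autoImplicit false
set_option linter.unusedSectionVars false

open MeasureTheory Set Filter Topology Function
open scoped ENNReal InnerProductSpace

namespace Pool.Agent.Lib.MP_79abb3_an.SC

open Pool.Agent.Lib.MP_79abb3_an.P25 Pool.Agent.Lib.MP_79abb3_an.FW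

section
variable {lam : ℤ → ℝ}

theorem S2l2 {E : Type} [NormedAddCommGroup E] (x : l2 E) : S2 lam 0 (⇑x) ∧ N2 lam 0 (⇑x) = ‖x‖ := by
  constructor
  · unfold S2; simpa using lp2_summable x
  · unfold N2
    simp only [Real.rpow_zero, one_mul]
    rw [← lp2_norm_sq, Real.sqrt_sq (norm_nonneg _)]

theorem S2l2_neg (h1 : ∀ n, 1 ≤ lam n) {E : Type} [NormedAddCommGroup E] {s : ℝ} (hs : s ≤ 0) (x : l2 E) :
    S2 lam s (⇑x) ∧ N2 lam s (⇑x) ≤ ‖x‖ := by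
  obtain ⟨a, b⟩ := S2_mono h1 hs (S2l2 x).1
  exact ⟨a, b.trans (S2l2 x).2.le⟩

end

section
variable {H : ℝ} [hH : Fact (0 < H)] {lam : ℤ → ℝ}

theorem innerDp (x y : HH H) : ⟪x, y⟫_ℂ = dp x y := lp.inner_eq_tsum x y

theorem Tc_io (ω : ℝ) (g : HH H) : (⇑(TT ω g) : ℤ → Z2 H) = io (Vf ω g) := by
  funext n
  rw [TT_apply]
  rfl

theorem cm_apply {c : ℤ → CI H} (sc : Summable fun n => ‖c n‖) (x : HH H) (n : ℤ) :
    cm c x n = ∑' j, mz (c (n - j)) (x j) := (cm_hasSum sc x n).tsum_eq.symm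

theorem cmPz {c : ℤ → CI H} (sc : Summable fun n => ‖c n‖) (x : HH H) :
    (⇑(cm c x) : ℤ → Z2 H) = pz x c := funext fun n => cm_apply sc x n

theorem norm_cm_apply_le {c : ℤ → CI H} (sc : Summable fun n => ‖c n‖) (x : HH H) :
    ‖cm c x‖ ≤ (∑' n, ‖c n‖) * ‖x‖ := (cm c).le_of_opNorm_le (norm_cm_le sc) x

theorem Ms_Ms (b c : CI H) (x : HH H) : Ms b (Ms c x) = Ms (b * c) x := by
  ext n
  rw [Ms_apply, Ms_apply, Ms_apply, mz_mul]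

theorem MsCm {c : ℤ → CI H} (sc : Summable fun n => ‖c n‖) (b : CI H) (x : HH H) :
    Ms b (cm c x) = cm c (Ms b x) := by
  refine lp.ext (funext fun n => ?_)
  rw [Ms_apply, cm_apply sc, cm_apply sc]
  have hs : Summable fun j => (mz (c (n - j)) (x j) : Z2 H) := (cm_hasSum sc x n).summable
  have h2 : mz b (∑' j, mz (c (n - j)) (x j)) = ∑' j, mz b (mz (c (n - j)) (x j)) :=
    (mz b : Z2 H →L[ℂ] Z2 H).map_tsum hs
  rw [h2]
  refine tsum_congr fun j => ?_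
  rw [Ms_apply, mz_comm]

theorem innerMs {b : CI H} (hb : star b = b) (x y : HH H) : ⟪Ms b x, y⟫_ℂ = ⟪x, Ms b y⟫_ℂ :=
  inner_dg (C := ‖b‖) (C' := ‖b‖) (fun _ => norm_mz_le _) (fun _ => norm_mz_le _)
    (fun _ f g => by rw [inner_mz, hb]) x y

theorem norm_Ms_apply_le (b : CI H) (x : HH H) : ‖Ms b x‖ ≤ ‖b‖ * ‖x‖ :=
  (Ms b).le_of_opNorm_le (norm_Ms_le b) x

theorem Ms_add (b c : CI H) (x : HH H) : Ms (b + c) x = Ms b x + Ms c x := by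
  ext n
  rw [lp.coeFn_add, Pi.add_apply, Ms_apply, Ms_apply, Ms_apply, map_add]; rfl

theorem Ms_smul (a : ℂ) (c : CI H) (x : HH H) : Ms (a • c) x = a • Ms c x := by
  ext n
  rw [lp.coeFn_smul, Pi.smul_apply, Ms_apply, Ms_apply, map_smul]; rfl

/-- pointwise domination of multipliers -/
theorem norm_mz_mono {b c : CI H} (h : ∀ z ∈ Icc (0:ℝ) H, ‖ex b z‖ ≤ ‖ex c z‖) (f : Z2 H) :
    ‖mz b f‖ ≤ ‖mz c f‖ := by
  refine iota_dense.induction (P := fun f => ‖mz b f‖ ≤ ‖mz c f‖) ?_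
    (isClosed_le (by fun_prop) (by fun_prop)) f
  rintro _ ⟨g, rfl⟩
  rw [mz_iota, mz_iota]
  refine norm_iota_mono fun z hz => ?_
  rw [ex_mul, ex_mul, norm_mul, norm_mul]
  exact mul_le_mul_of_nonneg_right (h z hz) (norm_nonneg _)

theorem norm_Ms_mono {b c : CI H} (h : ∀ z ∈ Icc (0:ℝ) H, ‖ex b z‖ ≤ ‖ex c z‖) (x : HH H) :
    ‖Ms b x‖ ≤ ‖Ms c x‖ := by
  refine (sq_le_sq₀ (norm_nonneg _) (norm_nonneg _)).1 ?_
  rw [l2_norm_sq, l2_norm_sq]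
  refine (l2_summable _).tsum_le_tsum (fun n => ?_) (l2_summable _)
  rw [Ms_apply, Ms_apply]
  exact pow_le_pow_left₀ (norm_nonneg _) (norm_mz_mono h _) 2

/-- `|b f|² ≤ |c f|² + |d f|²` if `|b|² ≤ |c|² + |d|²` -/
theorem norm_mz_sq_add {b c d : CI H} (h : ∀ z ∈ Icc (0:ℝ) H, ‖ex b z‖ ^ 2 ≤ ‖ex c z‖ ^ 2 + ‖ex d z‖ ^ 2)
    (f : Z2 H) : ‖mz b f‖ ^ 2 ≤ ‖mz c f‖ ^ 2 + ‖mz d f‖ ^ 2 := by
  refine iota_dense.induction (P := fun f => ‖mz b f‖ ^ 2 ≤ ‖mz c f‖ ^ 2 + ‖mz d f‖ ^ 2) ?_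
    (isClosed_le (by fun_prop) (by fun_prop)) f
  rintro _ ⟨g, rfl⟩
  rw [mz_iota, mz_iota, mz_iota, norm_sq_iota, norm_sq_iota, norm_sq_iota]
  have i1 : IntervalIntegrable (fun z => ‖ex (b * g) z‖ ^ 2) volume 0 H :=
    Continuous.intervalIntegrable ((continuous_ex _).norm.pow 2) _ _
  have i2 : IntervalIntegrable (fun z => ‖ex (c * g) z‖ ^ 2) volume 0 H :=
    Continuous.intervalIntegrable ((continuous_ex _).norm.pow 2) _ _
  have i3 : IntervalIntegrable (fun z => ‖ex (d * g) z‖ ^ 2) volume 0 H :=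
    Continuous.intervalIntegrable ((continuous_ex _).norm.pow 2) _ _
  rw [← intervalIntegral.integral_add i2 i3]
  refine intervalIntegral.integral_mono_on hH.out.le i1 (i2.add i3) fun z hz => ?_
  rw [ex_mul, ex_mul, ex_mul, norm_mul, norm_mul, norm_mul, mul_pow, mul_pow, mul_pow, ← add_mul]
  exact mul_le_mul_of_nonneg_right (h z hz) (sq_nonneg _)

theorem norm_Ms_sq_add {b c d : CI H} (h : ∀ z ∈ Icc (0:ℝ) H, ‖ex b z‖ ^ 2 ≤ ‖ex c z‖ ^ 2 + ‖ex d z‖ ^ 2)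
    (x : HH H) : ‖Ms b x‖ ^ 2 ≤ ‖Ms c x‖ ^ 2 + ‖Ms d x‖ ^ 2 := by
  rw [l2_norm_sq, l2_norm_sq, l2_norm_sq, ← (l2_summable _).tsum_add (l2_summable _)]
  refine (l2_summable _).tsum_le_tsum (fun n => ?_) ((l2_summable _).add (l2_summable _))
  rw [Ms_apply, Ms_apply, Ms_apply]
  exact norm_mz_sq_add h _

/-! ### Weighted norms of `T g` -/

theorem LT_N2 {ω C : ℝ} (h : LamOK ω lam C) {s : ℝ} (hs : s ≤ 1) (g : HH H) :
    S2 lam s (io (Vf ω g)) ∧ N2 lam s (io (Vf ω g)) = ‖LT ω lam s g‖ := by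
  have e : ∀ n, lam n ^ s * ‖io (Vf ω g) n‖ = ‖LT ω lam s g n‖ := fun n => by
    rw [h.LT_apply hs, norm_smul, Complex.norm_real, Real.norm_of_nonneg
      (Real.rpow_nonneg (by linarith [h.one n]) _)]
    rfl
  constructor
  · unfold S2; simp only [e]; exact l2_summable _
  · unfold N2; simp only [e]; rw [← l2_norm_sq, Real.sqrt_sq (norm_nonneg _)]

/-- `m T g = T (m g - m' T g)` -/
theorem Tc_weight (ω : ℝ) {m m1 : CI H} (hm : IsD m m1) (g : HH H) :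
    TT ω (Ms m g - Ms m1 (TT ω g)) = Ms m (TT ω g) := by
  ext n
  rw [TT_apply, lp.coeFn_sub, Pi.sub_apply, Ms_apply, Ms_apply, Ms_apply, TT_apply, T2_apply, T2_apply,
    Tz_weight _ hm, mz_iota]

theorem Vf_weight (ω : ℝ) {m m1 : CI H} (hm : IsD m m1) (g : HH H) (n : ℤ) :
    Vf ω (⇑(Ms m g - Ms m1 (TT ω g))) n = m * Vf ω (⇑g) n := by
  unfold Vf
  rw [lp.coeFn_sub, Pi.sub_apply, Ms_apply, Ms_apply, TT_apply, T2_apply, Tz_weight _ hm]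

/-- interpolation: `|Λ^{1/2} T g|² ≤ |T g| |Λ T g|` -/
theorem LT_half {ω C : ℝ} (h : LamOK ω lam C) (g : HH H) :
    ‖LT ω lam (1 / 2) g‖ ^ 2 ≤ ‖TT ω g‖ * (C * (H + ω⁻¹) * ‖g‖) := by
  have hh : ∀ n, ‖LT ω lam (1 / 2) g n‖ ^ 2 ≤ C * (H + ω⁻¹) * (‖TT ω g n‖ * ‖g n‖) := fun n => by
    have l0 : 0 < lam n := by linarith [h.one n]
    rw [h.LT_apply (by norm_num), norm_smul, Complex.norm_real, Real.norm_of_nonneg
      (Real.rpow_nonneg l0.le _), mul_pow, ← Real.sqrt_eq_rpow, Real.sq_sqrt l0.le, TT_apply]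
    have := h.T2_le n (g n)
    calc lam n * ‖T2 (ω * n) (g n)‖ ^ 2 = ‖T2 (ω * n) (g n)‖ * (lam n * ‖T2 (ω * n) (g n)‖) := by ring
      _ ≤ ‖T2 (ω * n) (g n)‖ * (C * (H + ω⁻¹) * ‖g n‖) := by gcongr
      _ = _ := by ring
  have hC : 0 ≤ C * (H + ω⁻¹) := by
    have := h.C0; have := h.ω; have := hH.out; positivity
  obtain ⟨c1, c2⟩ := cs_tsum (x := fun n => ‖TT ω g n‖) (y := fun n => ‖g n‖) (fun _ => norm_nonneg _)
    (fun _ => norm_nonneg _) (l2_summable _) (l2_summable _)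
  rw [← l2_norm_sq, ← l2_norm_sq, Real.sqrt_sq (norm_nonneg _), Real.sqrt_sq (norm_nonneg _)] at c2
  rw [l2_norm_sq]
  refine ((l2_summable _).tsum_le_tsum hh (c1.mul_left _)).trans ?_
  rw [tsum_mul_left]
  calc _ ≤ C * (H + ω⁻¹) * (‖TT ω g‖ * ‖g‖) := mul_le_mul_of_nonneg_left c2 hC
    _ = _ := by ring

/-- `|∂_z T g| ≤ |g|` as a family -/
theorem Vf_dz_norm {ω : ℝ} (g : HH H) :
    S2 lam 0 (fun n => ka ω n • (iota (Vf ω (⇑g) n) : Z2 H) - g n) ∧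
      N2 lam 0 (fun n => ka ω n • (iota (Vf ω (⇑g) n) : Z2 H) - g n) ≤ ‖g‖ := by
  have hh : ∀ n, ‖ka ω n • (iota (Vf ω (⇑g) n) : Z2 H) - g n‖ ≤ ‖g n‖ := fun n => by
    have h1 := Tz_energy (ω * n) (g n)
    have h2 : ‖ka ω n • (iota (Vf ω (⇑g) n) : Z2 H) - g n‖ ^ 2 ≤ ‖g n‖ ^ 2 := by
      have h3 : ka ω n • (iota (Vf ω (⇑g) n) : Z2 H) - g n =
        ((|ω * n| : ℝ) : ℂ) • iota (Tz (ω * n) (g n)) - g n := rfl
      rw [h3]
      have h4 : 0 ≤ |ω * (n:ℝ)| := abs_nonneg _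
      nlinarith [sq_nonneg (|ω * (n:ℝ)| * ‖(iota (Tz (ω * n) (g n)) : Z2 H)‖),
        mul_nonneg h4 (sq_nonneg ‖ex (Tz (ω * n) (g n)) 0‖)]
    exact (pow_le_pow_iff_left₀ (norm_nonneg _) (norm_nonneg _) two_ne_zero).1 h2
  have e : ∀ n, lam n ^ (0:ℝ) * ‖ka ω n • (iota (Vf ω (⇑g) n) : Z2 H) - g n‖ ≤ lam n ^ (0:ℝ) * ‖g n‖ := fun n => by
    rw [Real.rpow_zero, one_mul, one_mul]; exact hh n
  have nn : ∀ n, 0 ≤ lam n ^ (0:ℝ) * ‖ka ω n • (iota (Vf ω (⇑g) n) : Z2 H) - g n‖ := fun n => by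
    rw [Real.rpow_zero, one_mul]; exact norm_nonneg _
  have sg := (S2l2 (lam := lam) g).1
  have ss : S2 lam 0 (fun n => ka ω n • (iota (Vf ω (⇑g) n) : Z2 H) - g n) :=
    Summable.of_nonneg_of_le (fun n => sq_nonneg _) (fun n => pow_le_pow_left₀ (nn n) (e n) 2) sg
  refine ⟨ss, ?_⟩
  rw [← (S2l2 (lam := lam) g).2]
  exact Real.sqrt_le_sqrt (ss.tsum_le_tsum (fun n => pow_le_pow_left₀ (nn n) (e n) 2) sg)

end

end Pool.Agent.Lib.MP_79abb3_an.SC
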