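import Pool.Agent.Lib.MP_79abb3_an.SC.ApPrA

/-!
MP_79abb3_an, simply connected domains, block (iii): the weighted product lemma, vector form.
-/

set_option autoImplicit false
set_option linter.unusedSectionVars false

open Set Filter Topology Function
open scoped ENNReal

namespace Pool.Agent.Lib.MP_79abb3_an.SC

/-! ### Weighted square summable families in a normed space -/

section W2
variable {E F G : Type*} [NormedAddCommGroup E] [NormedAddCommGroup F] [NormedAddCommGroup G]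

/-- `∑ (lam_n^s |x_n|)² < ∞` -/
def S2 (lam : ℤ → ℝ) (s : ℝ) (x : ℤ → E) : Prop := Summable fun n => (lam n ^ s * ‖x n‖) ^ 2

/-- `(∑ (lam_n^s |x_n|)²)^{1/2}` -/
noncomputable def N2 (lam : ℤ → ℝ) (s : ℝ) (x : ℤ → E) : ℝ := √(∑' n, (lam n ^ s * ‖x n‖) ^ 2)

variable {lam : ℤ → ℝ}

theorem N2_nonneg (s : ℝ) (x : ℤ → E) : 0 ≤ N2 lam s x := Real.sqrt_nonneg _

theorem N2_sq (s : ℝ) (x : ℤ → E) : N2 lam s x ^ 2 = ∑' n, (lam n ^ s * ‖x n‖) ^ 2 :=
  Real.sq_sqrt (tsum_nonneg fun _ => sq_nonneg _)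

theorem S2_mono (h1 : ∀ n, 1 ≤ lam n) {s t : ℝ} (hst : s ≤ t) {x : ℤ → E} (h : S2 lam t x) :
    S2 lam s x ∧ N2 lam s x ≤ N2 lam t x := by
  have key : ∀ n, (lam n ^ s * ‖x n‖) ^ 2 ≤ (lam n ^ t * ‖x n‖) ^ 2 := fun n => by
    have l0 : 0 ≤ lam n := by linarith [h1 n]
    have := Real.rpow_le_rpow_of_exponent_le (h1 n) hst
    exact pow_le_pow_left₀ (mul_nonneg (Real.rpow_nonneg l0 _) (norm_nonneg _))
      (mul_le_mul_of_nonneg_right this (norm_nonneg _)) 2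
  have hs : S2 lam s x := Summable.of_nonneg_of_le (fun n => sq_nonneg _) key h
  exact ⟨hs, Real.sqrt_le_sqrt (hs.tsum_le_tsum key h)⟩

/-- Domination. -/
theorem S2_dom (h1 : ∀ n, 1 ≤ lam n) {s : ℝ} {x : ℤ → E} {y : ℤ → F} {C : ℝ} (hC : 0 ≤ C)
    (hxy : ∀ n, ‖x n‖ ≤ C * ‖y n‖) (h : S2 lam s y) : S2 lam s x ∧ N2 lam s x ≤ C * N2 lam s y := by
  have key : ∀ n, (lam n ^ s * ‖x n‖) ^ 2 ≤ C ^ 2 * (lam n ^ s * ‖y n‖) ^ 2 := fun n => by
    have l0 : 0 ≤ lam n ^ s := Real.rpow_nonneg (by linarith [h1 n]) _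
    rw [← mul_pow]
    refine pow_le_pow_left₀ (mul_nonneg l0 (norm_nonneg _)) ?_ 2
    calc lam n ^ s * ‖x n‖ ≤ lam n ^ s * (C * ‖y n‖) := mul_le_mul_of_nonneg_left (hxy n) l0
      _ = _ := by ring
  have h' : Summable fun n => C ^ 2 * (lam n ^ s * ‖y n‖) ^ 2 := h.mul_left _
  have hs : S2 lam s x := Summable.of_nonneg_of_le (fun n => sq_nonneg _) key h'
  refine ⟨hs, ?_⟩
  have h2 : N2 lam s x ≤ √(C ^ 2 * ∑' n, (lam n ^ s * ‖y n‖) ^ 2) := by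
    rw [← tsum_mul_left]
    exact Real.sqrt_le_sqrt (hs.tsum_le_tsum key h')
  rwa [Real.sqrt_mul (sq_nonneg _), Real.sqrt_sq hC] at h2

theorem S2_add (h1 : ∀ n, 1 ≤ lam n) {s : ℝ} {x y : ℤ → E} (hx : S2 lam s x) (hy : S2 lam s y) :
    S2 lam s (fun n => x n + y n) ∧ N2 lam s (fun n => x n + y n) ≤ N2 lam s x + N2 lam s y := by
  have l0 : ∀ n, 0 ≤ lam n ^ s := fun n => Real.rpow_nonneg (by linarith [h1 n]) _
  have p0 : ∀ n, 0 ≤ lam n ^ s * ‖x n‖ := fun n => mul_nonneg (l0 n) (norm_nonneg _)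
  have q0 : ∀ n, 0 ≤ lam n ^ s * ‖y n‖ := fun n => mul_nonneg (l0 n) (norm_nonneg _)
  obtain ⟨sm, bm⟩ := cs_tsum p0 q0 hx hy
  have key : ∀ n, (lam n ^ s * ‖x n + y n‖) ^ 2 ≤ (lam n ^ s * ‖x n‖) ^ 2 +
      2 * ((lam n ^ s * ‖x n‖) * (lam n ^ s * ‖y n‖)) + (lam n ^ s * ‖y n‖) ^ 2 := fun n => by
    have : lam n ^ s * ‖x n + y n‖ ≤ lam n ^ s * ‖x n‖ + lam n ^ s * ‖y n‖ := by
      rw [← mul_add]; exact mul_le_mul_of_nonneg_left (norm_add_le _ _) (l0 n)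
    refine (pow_le_pow_left₀ (mul_nonneg (l0 n) (norm_nonneg _)) this 2).trans (le_of_eq (by ring))
  have hsum : Summable fun n => (lam n ^ s * ‖x n‖) ^ 2 +
      2 * ((lam n ^ s * ‖x n‖) * (lam n ^ s * ‖y n‖)) + (lam n ^ s * ‖y n‖) ^ 2 :=
    (hx.add (sm.mul_left 2)).add hy
  have hs : S2 lam s (fun n => x n + y n) :=
    Summable.of_nonneg_of_le (fun n => sq_nonneg _) key hsum
  refine ⟨hs, ?_⟩
  refine Real.sqrt_le_iff.2 ⟨add_nonneg (N2_nonneg _ _) (N2_nonneg _ _), ?_⟩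
  refine (hs.tsum_le_tsum key hsum).trans ?_
  rw [(hx.add (sm.mul_left 2)).tsum_add hy, hx.tsum_add (sm.mul_left 2), tsum_mul_left, add_sq,
    N2_sq, N2_sq]
  have : ∑' n, lam n ^ s * ‖x n‖ * (lam n ^ s * ‖y n‖) ≤ N2 lam s x * N2 lam s y := bm
  linarith

theorem N2_zero_fun (s : ℝ) : N2 lam s (fun _ => (0:E)) = 0 := by simp [N2]

theorem S2_neg {s : ℝ} {x : ℤ → E} : S2 lam s (fun n => -x n) ↔ S2 lam s x := by
  simp [S2]

theorem N2_neg (s : ℝ) (x : ℤ → E) : N2 lam s (fun n => -x n) = N2 lam s x := by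
  simp [N2]

/-- Hölder in the weight. -/
theorem S2_interp (h1 : ∀ n, 1 ≤ lam n) {a b : ℝ} {x : ℤ → E} (ha : S2 lam a x) (hb : S2 lam b x) :
    S2 lam ((a + b) / 2) x ∧ N2 lam ((a + b) / 2) x ^ 2 ≤ N2 lam a x * N2 lam b x := by
  have l0 : ∀ n, 0 < lam n := fun n => by linarith [h1 n]
  have pa : ∀ n, 0 ≤ lam n ^ a * ‖x n‖ := fun n => mul_nonneg (Real.rpow_nonneg (l0 n).le _)
    (norm_nonneg _)
  have pb : ∀ n, 0 ≤ lam n ^ b * ‖x n‖ := fun n => mul_nonneg (Real.rpow_nonneg (l0 n).le _)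
    (norm_nonneg _)
  obtain ⟨s1, b1⟩ := cs_tsum pa pb ha hb
  have e : ∀ n, (lam n ^ ((a + b) / 2) * ‖x n‖) ^ 2 = lam n ^ a * ‖x n‖ * (lam n ^ b * ‖x n‖) := by
    intro n
    have : lam n ^ ((a + b) / 2) * lam n ^ ((a + b) / 2) = lam n ^ a * lam n ^ b := by
      rw [← Real.rpow_add (l0 n), ← Real.rpow_add (l0 n)]; congr 1; ring
    rw [mul_pow, sq, this]; ring
  refine ⟨by simpa only [S2, e] using s1, ?_⟩
  rw [N2_sq]
  simp only [e]
  exact b1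

end W2

/-! ### Products -/

section Pr
variable {E F G : Type*} [NormedAddCommGroup E] [NormedSpace ℂ E] [NormedAddCommGroup F]
  [NormedSpace ℂ F] [NormedAddCommGroup G] [NormedSpace ℂ G] {lam : ℤ → ℝ}

/-- `(x * y)_n = ∑_j m(x_j, y_{n-j})` -/
noncomputable def cvm (m : E → F → G) (x : ℤ → E) (y : ℤ → F) (n : ℤ) : G :=
  ∑' j, m (x j) (y (n - j))

/-- Constant of the product lemma. -/
noncomputable def CP (lam : ℤ → ℝ) (s : ℝ) : ℝ := 3 * √(∑' n, (lam n ^ (-s)) ^ 2)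

theorem CP_nonneg (s : ℝ) : 0 ≤ CP lam s := by unfold CP; positivity

/-- Convergence of the trilinear sums. -/
theorem tri_scalar (h1 : ∀ n, 1 ≤ lam n) {α β γ : ℝ} (hα : 0 ≤ α) (hβ : 0 ≤ β)
    (hγ : 0 ≤ γ) (hs : Summable fun n => (lam n ^ (-(α + β + γ))) ^ 2)
    {x : ℤ → E} {y : ℤ → F} {z : ℤ → G} (sx : S2 lam α x) (sy : S2 lam β y) (sz : S2 lam γ z) :
    (Summable fun p : ℤ × ℤ => ‖x p.1‖ * ‖y p.2‖ * ‖z (p.1 + p.2)‖) ∧
      ∑' p : ℤ × ℤ, ‖x p.1‖ * ‖y p.2‖ * ‖z (p.1 + p.2)‖ ≤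
        CP lam (α + β + γ) * N2 lam α x * N2 lam β y * N2 lam γ z := by
  have l0 : ∀ n, 0 < lam n := fun n => by linarith [h1 n]
  set x' : ℤ → ℝ := fun n => lam n ^ α * ‖x n‖ with hx'
  set y' : ℤ → ℝ := fun n => lam n ^ β * ‖y n‖ with hy'
  set z' : ℤ → ℝ := fun n => lam n ^ γ * ‖z n‖ with hz'
  have x0 : ∀ n, 0 ≤ x' n := fun n => mul_nonneg (Real.rpow_nonneg (l0 n).le _) (norm_nonneg _)
  have y0 : ∀ n, 0 ≤ y' n := fun n => mul_nonneg (Real.rpow_nonneg (l0 n).le _) (norm_nonneg _)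
  have z0 : ∀ n, 0 ≤ z' n := fun n => mul_nonneg (Real.rpow_nonneg (l0 n).le _) (norm_nonneg _)
  obtain ⟨p1, p2, p3⟩ := pr_scalar h1 hα hβ hγ hs x0 y0 sx sy
  have e : ∀ n j, lam n ^ (-γ) * (lam j ^ (-α) * lam (n - j) ^ (-β) * (x' j * y' (n - j))) =
      lam n ^ (-γ) * (‖x j‖ * ‖y (n - j)‖) := by
    intro n j
    have a1 : lam j ^ (-α) * lam j ^ α = 1 := by
      rw [← Real.rpow_add (l0 j)]; simp
    have a2 : lam (n - j) ^ (-β) * lam (n - j) ^ β = 1 := by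
      rw [← Real.rpow_add (l0 _)]; simp
    show lam n ^ (-γ) * (lam j ^ (-α) * lam (n - j) ^ (-β) * (lam j ^ α * ‖x j‖ *
      (lam (n - j) ^ β * ‖y (n - j)‖))) = _
    calc _ = lam n ^ (-γ) * ((lam j ^ (-α) * lam j ^ α) * (lam (n - j) ^ (-β) * lam (n - j) ^ β) *
          (‖x j‖ * ‖y (n - j)‖)) := by ring
      _ = _ := by rw [a1, a2]; ring
  simp only [e] at p1 p2 p3
  set c : ℤ → ℝ := fun n => ∑' j, lam n ^ (-γ) * (‖x j‖ * ‖y (n - j)‖) with hc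
  have c0 : ∀ n, 0 ≤ c n := fun n => tsum_nonneg fun j =>
    mul_nonneg (Real.rpow_nonneg (l0 n).le _) (mul_nonneg (norm_nonneg _) (norm_nonneg _))
  obtain ⟨q1, q2⟩ := cs_tsum c0 z0 p2 sz
  -- sum over pairs (n, j)
  set T : ℤ × ℤ → ℝ := fun p => ‖x p.2‖ * ‖y (p.1 - p.2)‖ * ‖z p.1‖ with hT
  have T0 : 0 ≤ T := fun p => mul_nonneg (mul_nonneg (norm_nonneg _) (norm_nonneg _)) (norm_nonneg _)
  have hTe : ∀ n j, T (n, j) = (lam n ^ (-γ) * (‖x j‖ * ‖y (n - j)‖)) * z' n := by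
    intro n j
    have a1 : lam n ^ (-γ) * lam n ^ γ = 1 := by
      rw [← Real.rpow_add (l0 n)]; simp
    show ‖x j‖ * ‖y (n - j)‖ * ‖z n‖ = (lam n ^ (-γ) * (‖x j‖ * ‖y (n - j)‖)) * (lam n ^ γ * ‖z n‖)
    calc _ = (lam n ^ (-γ) * lam n ^ γ) * (‖x j‖ * ‖y (n - j)‖ * ‖z n‖) := by rw [a1]; ring
      _ = _ := by ring
  have hTn : ∀ n, ∑' j, T (n, j) = c n * z' n := fun n => by
    simp only [hTe]; rw [tsum_mul_right]
  have hTs : Summable T := by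
    refine (summable_prod_of_nonneg T0).2 ⟨fun n => ?_, ?_⟩
    · simp only [hTe]; exact (p1 n).mul_right _
    · simp only [hTn]; exact q1
  have hTt : ∑' p, T p = ∑' n, c n * z' n := by
    rw [hTs.tsum_prod]; exact tsum_congr hTn
  -- reindex
  let e2 : ℤ × ℤ ≃ ℤ × ℤ :=
    { toFun := fun p => (p.1 + p.2, p.1)
      invFun := fun q => (q.2, q.1 - q.2)
      left_inv := fun p => by ext <;> simp
      right_inv := fun q => by ext <;> simp }
  have he2 : (fun p : ℤ × ℤ => ‖x p.1‖ * ‖y p.2‖ * ‖z (p.1 + p.2)‖) = T ∘ e2 := by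
    funext p
    show _ = ‖x p.1‖ * ‖y (p.1 + p.2 - p.1)‖ * ‖z (p.1 + p.2)‖
    rw [show p.1 + p.2 - p.1 = p.2 by ring]
  have hle : √(∑' n, c n ^ 2) ≤ CP lam (α + β + γ) * N2 lam α x * N2 lam β y := by
    refine Real.sqrt_le_iff.2 ⟨mul_nonneg (mul_nonneg (CP_nonneg _) (N2_nonneg _ _)) (N2_nonneg _ _), ?_⟩
    refine p3.trans (le_of_eq ?_)
    have : CP lam (α + β + γ) ^ 2 = 9 * ∑' n, (lam n ^ (-(α + β + γ))) ^ 2 := by
      unfold CP
      rw [mul_pow, Real.sq_sqrt (tsum_nonneg fun n => sq_nonneg _)]; norm_num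
    rw [mul_pow, mul_pow, N2_sq, N2_sq, this]
  constructor
  · rw [he2]; exact (e2.summable_iff (f := T)).2 hTs
  · rw [he2, show ∑' p, (T ∘ e2) p = ∑' p, T p from e2.tsum_eq T, hTt]
    exact q2.trans (mul_le_mul_of_nonneg_right hle (Real.sqrt_nonneg _))

/-- **The product lemma** (vector form). -/
theorem cvm_bd {m : E → F → G} {M : ℝ} (hM : 0 ≤ M) (hm : ∀ e f, ‖m e f‖ ≤ M * (‖e‖ * ‖f‖))
    (h1 : ∀ n, 1 ≤ lam n) {α β γ : ℝ}
    (hα : 0 ≤ α) (hβ : 0 ≤ β) (hγ : 0 ≤ γ) (hs : Summable fun n => (lam n ^ (-(α + β + γ))) ^ 2)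
    {x : ℤ → E} {y : ℤ → F} (sx : S2 lam α x) (sy : S2 lam β y) :
    (∀ n, Summable fun j => ‖m (x j) (y (n - j))‖) ∧ S2 lam (-γ) (cvm m x y) ∧
      N2 lam (-γ) (cvm m x y) ≤ CP lam (α + β + γ) * M * N2 lam α x * N2 lam β y := by
  have l0 : ∀ n, 0 < lam n := fun n => by linarith [h1 n]
  set x' : ℤ → ℝ := fun n => lam n ^ α * ‖x n‖ with hx'
  set y' : ℤ → ℝ := fun n => lam n ^ β * ‖y n‖ with hy'
  have x0 : ∀ n, 0 ≤ x' n := fun n => mul_nonneg (Real.rpow_nonneg (l0 n).le _) (norm_nonneg _)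
  have y0 : ∀ n, 0 ≤ y' n := fun n => mul_nonneg (Real.rpow_nonneg (l0 n).le _) (norm_nonneg _)
  obtain ⟨p1, p2, p3⟩ := pr_scalar h1 hα hβ hγ hs x0 y0 sx sy
  have e : ∀ n j, lam n ^ (-γ) * (lam j ^ (-α) * lam (n - j) ^ (-β) * (x' j * y' (n - j))) =
      lam n ^ (-γ) * (‖x j‖ * ‖y (n - j)‖) := by
    intro n j
    have a1 : lam j ^ (-α) * lam j ^ α = 1 := by
      rw [← Real.rpow_add (l0 j)]; simp
    have a2 : lam (n - j) ^ (-β) * lam (n - j) ^ β = 1 := by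
      rw [← Real.rpow_add (l0 _)]; simp
    show lam n ^ (-γ) * (lam j ^ (-α) * lam (n - j) ^ (-β) * (lam j ^ α * ‖x j‖ *
      (lam (n - j) ^ β * ‖y (n - j)‖))) = _
    calc _ = lam n ^ (-γ) * ((lam j ^ (-α) * lam j ^ α) * (lam (n - j) ^ (-β) * lam (n - j) ^ β) *
          (‖x j‖ * ‖y (n - j)‖)) := by ring
      _ = _ := by rw [a1, a2]; ring
  simp only [e] at p1 p2 p3
  have sj : ∀ n, Summable fun j => ‖x j‖ * ‖y (n - j)‖ := fun n => by
    have h := (p1 n).mul_left (lam n ^ γ)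
    refine h.congr fun j => ?_
    rw [← mul_assoc, ← Real.rpow_add (l0 n), add_neg_cancel, Real.rpow_zero, one_mul]
  have bd : ∀ n j, ‖m (x j) (y (n - j))‖ ≤ M * (‖x j‖ * ‖y (n - j)‖) := fun n j => hm _ _
  have sm : ∀ n, Summable fun j => ‖m (x j) (y (n - j))‖ := fun n =>
    Summable.of_nonneg_of_le (fun j => norm_nonneg _) (bd n) ((sj n).mul_left _)
  have key : ∀ n, (lam n ^ (-γ) * ‖cvm m x y n‖) ^ 2 ≤
      M ^ 2 * (∑' j, lam n ^ (-γ) * (‖x j‖ * ‖y (n - j)‖)) ^ 2 := by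
    intro n
    rw [← mul_pow]
    refine pow_le_pow_left₀ (mul_nonneg (Real.rpow_nonneg (l0 n).le _) (norm_nonneg _)) ?_ 2
    have h2 : ‖cvm m x y n‖ ≤ M * ∑' j, ‖x j‖ * ‖y (n - j)‖ := by
      rw [← tsum_mul_left]
      exact (norm_tsum_le_tsum_norm (sm n)).trans ((sm n).tsum_le_tsum (bd n) ((sj n).mul_left _))
    rw [tsum_mul_left]
    calc lam n ^ (-γ) * ‖cvm m x y n‖ ≤ lam n ^ (-γ) * (M * ∑' j, ‖x j‖ * ‖y (n - j)‖) :=
          mul_le_mul_of_nonneg_left h2 (Real.rpow_nonneg (l0 n).le _)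
      _ = _ := by ring
  have hS : Summable fun n => M ^ 2 * (∑' j, lam n ^ (-γ) * (‖x j‖ * ‖y (n - j)‖)) ^ 2 :=
    p2.mul_left _
  have hS2 : S2 lam (-γ) (cvm m x y) := Summable.of_nonneg_of_le (fun n => sq_nonneg _) key hS
  refine ⟨sm, hS2, ?_⟩
  refine Real.sqrt_le_iff.2 ⟨mul_nonneg (mul_nonneg (mul_nonneg (CP_nonneg _) hM)
    (N2_nonneg _ _)) (N2_nonneg _ _), ?_⟩
  refine (hS2.tsum_le_tsum key hS).trans ?_
  rw [tsum_mul_left]
  refine (mul_le_mul_of_nonneg_left p3 (sq_nonneg _)).trans (le_of_eq ?_)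
  have : CP lam (α + β + γ) ^ 2 = 9 * ∑' n, (lam n ^ (-(α + β + γ))) ^ 2 := by
    unfold CP
    rw [mul_pow, Real.sq_sqrt (tsum_nonneg fun n => sq_nonneg _)]; norm_num
  rw [mul_pow, mul_pow, mul_pow, N2_sq, N2_sq, this]
  ring

end Pr

/-! ### The product as a bounded bilinear map on `ℓ²` spaces -/

section L2
variable {E F G : Type*} [NormedAddCommGroup E] [NormedSpace ℂ E] [NormedAddCommGroup F]
  [NormedSpace ℂ F] [NormedAddCommGroup G] [NormedSpace ℂ G] [CompleteSpace G] {lam : ℤ → ℝ}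

theorem lp2_summable {E : Type*} [NormedAddCommGroup E] (x : lp (fun _ : ℤ => E) 2) :
    Summable fun n => ‖x n‖ ^ 2 := by
  have := (lp.memℓp x).summable (by norm_num)
  simpa using this

theorem lp2_norm_sq {E : Type*} [NormedAddCommGroup E] (x : lp (fun _ : ℤ => E) 2) :
    ‖x‖ ^ 2 = ∑' n, ‖x n‖ ^ 2 := by
  have h := lp.norm_rpow_eq_tsum (p := 2) (by norm_num) x
  simpa using h

theorem lp2_norm {E : Type*} [NormedAddCommGroup E] (x : lp (fun _ : ℤ => E) 2) :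
    ‖x‖ = √(∑' n, ‖x n‖ ^ 2) := by
  rw [← lp2_norm_sq, Real.sqrt_sq (norm_nonneg _)]

/-- Element of `ℓ²` from a family. -/
def mk2 {E : Type*} [NormedAddCommGroup E] (x : ℤ → E) (h : Summable fun n => ‖x n‖ ^ 2) :
    lp (fun _ : ℤ => E) 2 :=
  ⟨x, memℓp_gen (by simpa using h)⟩

@[simp] theorem mk2_apply {E : Type*} [NormedAddCommGroup E] (x : ℤ → E)
    (h : Summable fun n => ‖x n‖ ^ 2) (n : ℤ) : mk2 x h n = x n := rfl

/-- The weights `α, β, γ` are admissible. -/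
structure PrW (lam : ℤ → ℝ) (α β γ : ℝ) : Prop where
  h1 : ∀ n, 1 ≤ lam n
  ha : 0 ≤ α
  hb : 0 ≤ β
  hc : 0 ≤ γ
  hs : Summable fun n => (lam n ^ (-(α + β + γ))) ^ 2

/-- Removing a weight. -/
noncomputable def uw (lam : ℤ → ℝ) (s : ℝ) {E : Type*} [NormedAddCommGroup E] [NormedSpace ℂ E] (x : ℤ → E)
    (n : ℤ) : E := ((lam n ^ (-s) : ℝ) : ℂ) • x n

theorem uw_norm (h1 : ∀ n, 1 ≤ lam n) (s : ℝ) (x : ℤ → E) (n : ℤ) :
    lam n ^ s * ‖uw lam s x n‖ = ‖x n‖ := by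
  have l0 : 0 < lam n := by linarith [h1 n]
  rw [uw, norm_smul, Complex.norm_real, Real.norm_eq_abs,
    abs_of_nonneg (Real.rpow_nonneg l0.le _), ← mul_assoc, ← Real.rpow_add l0, add_neg_cancel,
    Real.rpow_zero, one_mul]

theorem uw_S2 (h1 : ∀ n, 1 ≤ lam n) (s : ℝ) (x : lp (fun _ : ℤ => E) 2) :
    S2 lam s (uw lam s x) ∧ N2 lam s (uw lam s x) = ‖x‖ := by
  constructor
  · unfold S2; simp only [uw_norm h1]; exact lp2_summable x
  · unfold N2; simp only [uw_norm h1]; exact (lp2_norm x).symm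

/-- `(pr x y)_n = lam_n^{-γ} ∑_j m(lam_j^{-α} x_j, lam_{n-j}^{-β} y_{n-j})` -/
noncomputable def prF (lam : ℤ → ℝ) (α β γ : ℝ) (m : E → F → G) (x : ℤ → E) (y : ℤ → F) :
    ℤ → G := uw lam γ (cvm m (uw lam α x) (uw lam β y))

theorem prF_sum {α β γ : ℝ} (w : PrW lam α β γ) {m : E → F → G} {M : ℝ} (hM : 0 ≤ M)
    (hm : ∀ e f, ‖m e f‖ ≤ M * (‖e‖ * ‖f‖)) (x : lp (fun _ : ℤ => E) 2) (y : lp (fun _ : ℤ => F) 2) :
    (∀ n, Summable fun j => ‖m (uw lam α x j) (uw lam β y (n - j))‖) ∧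
    (Summable fun n => ‖prF lam α β γ m x y n‖ ^ 2) ∧
    √(∑' n, ‖prF lam α β γ m x y n‖ ^ 2) ≤ CP lam (α + β + γ) * M * ‖x‖ * ‖y‖ := by
  obtain ⟨sx, nx⟩ := uw_S2 w.h1 α x
  obtain ⟨sy, ny⟩ := uw_S2 w.h1 β y
  obtain ⟨r1, r2, r3⟩ := cvm_bd hM hm w.h1 w.ha w.hb w.hc w.hs sx sy
  have e : ∀ n, ‖prF lam α β γ m x y n‖ ^ 2 =
      (lam n ^ (-γ) * ‖cvm m (uw lam α x) (uw lam β y) n‖) ^ 2 := fun n => by
    have l0 : 0 < lam n := by linarith [w.h1 n]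
    rw [prF, uw, norm_smul, Complex.norm_real, Real.norm_eq_abs,
      abs_of_nonneg (Real.rpow_nonneg l0.le _)]
  refine ⟨r1, ?_, ?_⟩
  · simp only [e]; exact r2
  · simp only [e]; rw [nx, ny] at r3; exact r3

theorem opn2 (m : E →L[ℂ] F →L[ℂ] G) (e : E) (f : F) : ‖m e f‖ ≤ ‖m‖ * (‖e‖ * ‖f‖) := by
  rw [← mul_assoc]; exact m.le_opNorm₂ _ _

/-- The product as a bounded bilinear map. -/
noncomputable def pr (m : E →L[ℂ] F →L[ℂ] G) {α β γ : ℝ} (w : PrW lam α β γ) :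
    lp (fun _ : ℤ => E) 2 →L[ℂ] lp (fun _ : ℤ => F) 2 →L[ℂ] lp (fun _ : ℤ => G) 2 :=
  LinearMap.mkContinuous₂
    (LinearMap.mk₂ ℂ (fun x y => mk2 (prF lam α β γ (fun e f => m e f) x y)
        (prF_sum w m.opNorm_nonneg (opn2 m) x y).2.1)
      (fun x x' y => by
        ext n
        simp only [mk2_apply, lp.coeFn_add, Pi.add_apply]
        have h1 := ((prF_sum w m.opNorm_nonneg (opn2 m) x y).1 n).of_norm
        have h2 := ((prF_sum w m.opNorm_nonneg (opn2 m) x' y).1 n).of_norm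
        show uw lam γ (cvm (fun e f => m e f) (uw lam α (x + x' : lp (fun _ : ℤ => E) 2)) (uw lam β y)) n =
          uw lam γ (cvm (fun e f => m e f) (uw lam α x) (uw lam β y)) n + uw lam γ (cvm (fun e f => m e f) (uw lam α x') (uw lam β y)) n
        unfold uw at h1 h2 ⊢
        unfold cvm
        rw [← smul_add, ← h1.tsum_add h2]
        congr 1
        refine tsum_congr fun j => ?_
        simp only [lp.coeFn_add, Pi.add_apply, smul_add, map_add, add_apply])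
      (fun c x y => by
        ext n
        simp only [mk2_apply, lp.coeFn_smul, Pi.smul_apply]
        show uw lam γ (cvm (fun e f => m e f) (uw lam α (c • x : lp (fun _ : ℤ => E) 2)) (uw lam β y)) n =
          c • uw lam γ (cvm (fun e f => m e f) (uw lam α x) (uw lam β y)) n
        have h1 := ((prF_sum w m.opNorm_nonneg (opn2 m) x y).1 n).of_norm
        unfold uw at h1 ⊢
        unfold cvm
        rw [smul_comm c, ← h1.tsum_const_smul]
        congr 1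
        refine tsum_congr fun j => ?_
        simp only [lp.coeFn_smul, Pi.smul_apply, map_smul, smul_comm _ c,
          smul_apply])
      (fun x y y' => by
        ext n
        simp only [mk2_apply, lp.coeFn_add, Pi.add_apply]
        have h1 := ((prF_sum w m.opNorm_nonneg (opn2 m) x y).1 n).of_norm
        have h2 := ((prF_sum w m.opNorm_nonneg (opn2 m) x y').1 n).of_norm
        show uw lam γ (cvm (fun e f => m e f) (uw lam α x) (uw lam β (y + y' : lp (fun _ : ℤ => F) 2))) n =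
          uw lam γ (cvm (fun e f => m e f) (uw lam α x) (uw lam β y)) n + uw lam γ (cvm (fun e f => m e f) (uw lam α x) (uw lam β y')) n
        unfold uw at h1 h2 ⊢
        unfold cvm
        rw [← smul_add, ← h1.tsum_add h2]
        congr 1
        refine tsum_congr fun j => ?_
        simp only [lp.coeFn_add, Pi.add_apply, smul_add, map_add])
      (fun c x y => by
        ext n
        simp only [mk2_apply, lp.coeFn_smul, Pi.smul_apply]
        show uw lam γ (cvm (fun e f => m e f) (uw lam α x) (uw lam β (c • y : lp (fun _ : ℤ => F) 2))) n =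
          c • uw lam γ (cvm (fun e f => m e f) (uw lam α x) (uw lam β y)) n
        have h1 := ((prF_sum w m.opNorm_nonneg (opn2 m) x y).1 n).of_norm
        unfold uw at h1 ⊢
        unfold cvm
        rw [smul_comm c, ← h1.tsum_const_smul]
        congr 1
        refine tsum_congr fun j => ?_
        simp only [lp.coeFn_smul, Pi.smul_apply, map_smul, smul_comm _ c]))
    (CP lam (α + β + γ) * ‖m‖) (fun x y => by
      rw [lp2_norm]
      exact (prF_sum w m.opNorm_nonneg (opn2 m) x y).2.2)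

theorem pr_apply (m : E →L[ℂ] F →L[ℂ] G) {α β γ : ℝ} (w : PrW lam α β γ)
    (x : lp (fun _ : ℤ => E) 2) (y : lp (fun _ : ℤ => F) 2) (n : ℤ) :
    pr m w x y n = prF lam α β γ (fun e f => m e f) x y n := rfl

theorem pr_bound (m : E →L[ℂ] F →L[ℂ] G) {M : ℝ} (hM : 0 ≤ M)
    (hm : ∀ e f, ‖m e f‖ ≤ M * (‖e‖ * ‖f‖)) {α β γ : ℝ} (w : PrW lam α β γ)
    (x : lp (fun _ : ℤ => E) 2) (y : lp (fun _ : ℤ => F) 2) :
    ‖pr m w x y‖ ≤ CP lam (α + β + γ) * M * ‖x‖ * ‖y‖ := by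
  rw [lp2_norm]
  exact (prF_sum w hM hm x y).2.2

end L2

end Pool.Agent.Lib.MP_79abb3_an.SC
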