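import Mathlib

section

/-!
FW-4a: convolution of sequences.
-/

set_option autoImplicit false
set_option linter.unusedSectionVars false

open MeasureTheory Set Filter Topology Function

namespace Pool.Agent.Lib.MP_79abb3_an.FW


section
variable {H : ℝ} [hH : Fact (0 < H)]

/-- `(n, m) ↦ (m, n - m)` -/
private def convEquiv : ℤ × ℤ ≃ ℤ × ℤ where
  toFun p := (p.2, p.1 - p.2)
  invFun q := (q.1 + q.2, q.1)
  left_inv p := by ext <;> simp
  right_inv q := by ext <;> simp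

private theorem young11_aux {a b : ℤ → ℝ} (ha : ∀ n, 0 ≤ a n) (hb : ∀ n, 0 ≤ b n) (sa : Summable a)
    (sb : Summable b) :
    (∀ n, Summable fun m => a m * b (n - m)) ∧ (Summable fun n => ∑' m, a m * b (n - m)) ∧
      ∑' n, ∑' m, a m * b (n - m) = (∑' n, a n) * ∑' n, b n := by
  have hS : Summable (fun x : ℤ × ℤ => a x.1 * b x.2) :=
    sa.mul_of_nonneg sb ha hb
  have hS2 : Summable (fun p : ℤ × ℤ => a p.2 * b (p.1 - p.2)) := by
    have h := (convEquiv.summable_iff (f := fun x : ℤ × ℤ => a x.1 * b x.2)).mpr hS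
    exact h
  refine ⟨fun n => hS2.prod_factor n, hS2.prod, ?_⟩
  have h1 : ∑' n, ∑' m, a m * b (n - m) = ∑' p : ℤ × ℤ, a p.2 * b (p.1 - p.2) :=
    (hS2.tsum_prod).symm
  have h2 : ∑' p : ℤ × ℤ, a p.2 * b (p.1 - p.2) = ∑' x : ℤ × ℤ, a x.1 * b x.2 :=
    convEquiv.tsum_eq (fun x : ℤ × ℤ => a x.1 * b x.2)
  rw [h1, h2]
  exact (sa.tsum_mul_tsum sb hS).symm

/-- `ℓ¹ * ℓ² ⊂ ℓ²` -/
theorem young12 {a b : ℤ → ℝ} (ha : ∀ n, 0 ≤ a n) (hb : ∀ n, 0 ≤ b n) (sa : Summable a)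
    (sb : Summable fun n => b n ^ 2) :
    (∀ n, Summable fun m => a m * b (n - m)) ∧ (Summable fun n => (∑' m, a m * b (n - m)) ^ 2) ∧
      ∑' n, (∑' m, a m * b (n - m)) ^ 2 ≤ (∑' n, a n) ^ 2 * ∑' n, b n ^ 2 := by
  obtain ⟨h1, h2, h3⟩ := young11_aux ha (fun n => sq_nonneg (b n)) sa sb
  have hB : ∀ n, b n ≤ √(∑' n, b n ^ 2) := by
    intro n
    apply Real.le_sqrt_of_sq_le
    exact sb.le_tsum n (fun j _ => sq_nonneg (b j))
  have hs : ∀ n, Summable fun m => a m * b (n - m) := by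
    intro n
    apply Summable.of_nonneg_of_le (fun m => mul_nonneg (ha m) (hb _))
      (fun m => mul_le_mul_of_nonneg_left (hB (n - m)) (ha m)) (sa.mul_right _)
  have hA0 : 0 ≤ ∑' n, a n := tsum_nonneg ha
  have key : ∀ n, (∑' m, a m * b (n - m)) ^ 2 ≤ (∑' m, a m) * ∑' m, a m * b (n - m) ^ 2 := by
    intro n
    rcases hA0.eq_or_lt with h0 | h0
    · have hz : ∀ m, a m = 0 := by
        intro m
        have := sa.le_tsum m (fun j _ => ha j)
        exact le_antisymm (by rw [← h0] at this; exact this) (ha m)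
      simp [hz]
    · have hq : ∀ t : ℝ, 0 ≤ (∑' m, a m * b (n - m) ^ 2) - 2 * t * (∑' m, a m * b (n - m))
          + t ^ 2 * ∑' m, a m := by
        intro t
        have e1 : ∑' m, a m * (b (n - m) - t) ^ 2 = (∑' m, a m * b (n - m) ^ 2)
            - 2 * t * (∑' m, a m * b (n - m)) + t ^ 2 * ∑' m, a m := by
          rw [← tsum_mul_left, ← tsum_mul_left, ← ((h1 n).tsum_sub ((hs n).mul_left _)),
            ← (((h1 n).sub ((hs n).mul_left _)).tsum_add (sa.mul_left _))]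
          congr 1
          funext m
          ring
        rw [← e1]
        exact tsum_nonneg (fun m => mul_nonneg (ha m) (sq_nonneg _))
      have hq1 := hq ((∑' m, a m * b (n - m)) / ∑' m, a m)
      set S := ∑' m, a m * b (n - m)
      set A := ∑' m, a m
      set Q := ∑' m, a m * b (n - m) ^ 2
      have : Q - 2 * (S / A) * S + (S / A) ^ 2 * A = (A * Q - S ^ 2) / A := by
        field_simp
        ring
      rw [this] at hq1
      have h5 : 0 ≤ A * Q - S ^ 2 := by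
        by_contra hneg
        push Not at hneg
        have := div_neg_of_neg_of_pos hneg h0
        linarith
      linarith
  have hsum : Summable fun n => (∑' m, a m) * ∑' m, a m * b (n - m) ^ 2 := h2.mul_left _
  have hsq : Summable fun n => (∑' m, a m * b (n - m)) ^ 2 :=
    Summable.of_nonneg_of_le (fun n => sq_nonneg _) key hsum
  refine ⟨hs, hsq, ?_⟩
  calc ∑' n, (∑' m, a m * b (n - m)) ^ 2 ≤ ∑' n, (∑' m, a m) * ∑' m, a m * b (n - m) ^ 2 :=
        hsq.tsum_le_tsum key hsum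
    _ = (∑' n, a n) ^ 2 * ∑' n, b n ^ 2 := by
        rw [tsum_mul_left, h3]
        ring

/-- `ℓ¹ * ℓ¹ ⊂ ℓ¹` -/
theorem young11 {a b : ℤ → ℝ} (ha : ∀ n, 0 ≤ a n) (hb : ∀ n, 0 ≤ b n) (sa : Summable a)
    (sb : Summable b) :
    (∀ n, Summable fun m => a m * b (n - m)) ∧ (Summable fun n => ∑' m, a m * b (n - m)) ∧
      ∑' n, ∑' m, a m * b (n - m) = (∑' n, a n) * ∑' n, b n :=
  young11_aux ha hb sa sb

end

end Pool.Agent.Lib.MP_79abb3_an.FW
end

section

/-!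
MP_79abb3_an, simply connected domains, block (iii): the weighted product lemma, scalar part.
-/

set_option autoImplicit false
set_option linter.unusedSectionVars false

open Set Filter Topology Function

namespace Pool.Agent.Lib.MP_79abb3_an.SC

open Pool.Agent.Lib.MP_79abb3_an.FW

/-- Cauchy-Schwarz for sums. -/
theorem cs_tsum {ι : Type*} {x y : ι → ℝ} (hx : ∀ n, 0 ≤ x n) (hy : ∀ n, 0 ≤ y n)
    (sx : Summable fun n => x n ^ 2) (sy : Summable fun n => y n ^ 2) :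
    (Summable fun n => x n * y n) ∧
      ∑' n, x n * y n ≤ √(∑' n, x n ^ 2) * √(∑' n, y n ^ 2) := by
  have h22 : (2:ℝ).HolderConjugate 2 := by
    constructor <;> norm_num
  have e2 : ∀ t : ℝ, t ^ (2:ℝ) = t ^ 2 := fun t => by
    rw [show (2:ℝ) = ((2:ℕ):ℝ) by norm_num, Real.rpow_natCast]
  have h := Real.summable_and_inner_le_Lp_mul_Lq_tsum_of_nonneg h22 hx hy
    (by simpa only [e2] using sx) (by simpa only [e2] using sy)
  simp only [e2] at h
  rw [← Real.sqrt_eq_rpow, ← Real.sqrt_eq_rpow] at h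
  exact h

theorem cs_tsum_sq {ι : Type*} {x y : ι → ℝ} (hx : ∀ n, 0 ≤ x n) (hy : ∀ n, 0 ≤ y n)
    (sx : Summable fun n => x n ^ 2) (sy : Summable fun n => y n ^ 2) :
    (∑' n, x n * y n) ^ 2 ≤ (∑' n, x n ^ 2) * ∑' n, y n ^ 2 := by
  have h := (cs_tsum hx hy sx sy).2
  have h0 : 0 ≤ ∑' n, x n * y n := tsum_nonneg fun n => mul_nonneg (hx n) (hy n)
  have hX : 0 ≤ ∑' n, x n ^ 2 := tsum_nonneg fun n => sq_nonneg _
  have hY : 0 ≤ ∑' n, y n ^ 2 := tsum_nonneg fun n => sq_nonneg _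
  calc (∑' n, x n * y n) ^ 2 ≤ (√(∑' n, x n ^ 2) * √(∑' n, y n ^ 2)) ^ 2 :=
        pow_le_pow_left₀ h0 h 2
    _ = (∑' n, x n ^ 2) * ∑' n, y n ^ 2 := by rw [mul_pow, Real.sq_sqrt hX, Real.sq_sqrt hY]

/-- The elementary inequality behind the product lemma. -/
theorem three_w {a b c α β γ : ℝ} (ha : 1 ≤ a) (hb : 1 ≤ b) (hc : 1 ≤ c) (hα : 0 ≤ α)
    (hβ : 0 ≤ β) (hγ : 0 ≤ γ) :
    a ^ (-α) * b ^ (-β) * c ^ (-γ) ≤
      a ^ (-(α + β + γ)) + b ^ (-(α + β + γ)) + c ^ (-(α + β + γ)) := by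
  have key : ∀ m : ℝ, 1 ≤ m → m ≤ a → m ≤ b → m ≤ c →
      a ^ (-α) * b ^ (-β) * c ^ (-γ) ≤ m ^ (-(α + β + γ)) := by
    intro m hm h1 h2 h3
    have hm0 : 0 < m := by linarith
    have e : m ^ (-(α + β + γ)) = m ^ (-α) * m ^ (-β) * m ^ (-γ) := by
      rw [← Real.rpow_add hm0, ← Real.rpow_add hm0]; congr 1; ring
    rw [e]
    have f1 : a ^ (-α) ≤ m ^ (-α) := Real.rpow_le_rpow_of_nonpos hm0 h1 (by linarith)
    have f2 : b ^ (-β) ≤ m ^ (-β) := Real.rpow_le_rpow_of_nonpos hm0 h2 (by linarith)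
    have f3 : c ^ (-γ) ≤ m ^ (-γ) := Real.rpow_le_rpow_of_nonpos hm0 h3 (by linarith)
    have p1 : 0 ≤ m ^ (-α) := Real.rpow_nonneg hm0.le _
    have p2 : 0 ≤ b ^ (-β) := Real.rpow_nonneg (by linarith) _
    have p3 : 0 ≤ c ^ (-γ) := Real.rpow_nonneg (by linarith) _
    exact mul_le_mul (mul_le_mul f1 f2 p2 p1) f3 p3 (mul_nonneg p1 (Real.rpow_nonneg hm0.le _))
  have qa : 0 ≤ a ^ (-(α + β + γ)) := Real.rpow_nonneg (by linarith) _
  have qb : 0 ≤ b ^ (-(α + β + γ)) := Real.rpow_nonneg (by linarith) _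
  have qc : 0 ≤ c ^ (-(α + β + γ)) := Real.rpow_nonneg (by linarith) _
  rcases le_total a b with h1 | h1
  · rcases le_total a c with h2 | h2
    · linarith [key a ha le_rfl h1 h2]
    · linarith [key c hc h2 (h2.trans h1) le_rfl]
  · rcases le_total b c with h2 | h2
    · linarith [key b hb h1 le_rfl h2]
    · linarith [key c hc (h2.trans h1) h2 le_rfl]

/-- Reflection `j ↦ n - j`. -/
theorem tsum_refl (n : ℤ) (f : ℤ → ℝ) : ∑' j, f (n - j) = ∑' j, f j :=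
  (Equiv.subLeft n).tsum_eq f

theorem summable_refl (n : ℤ) {f : ℤ → ℝ} : (Summable fun j => f (n - j)) ↔ Summable f :=
  (Equiv.subLeft n).summable_iff (f := f)

/-- Convolution of two square summable sequences: absolute convergence and the sup bound. -/
theorem conv22 {x y : ℤ → ℝ} (hx : ∀ n, 0 ≤ x n) (hy : ∀ n, 0 ≤ y n)
    (sx : Summable fun n => x n ^ 2) (sy : Summable fun n => y n ^ 2) (n : ℤ) :
    (Summable fun j => x j * y (n - j)) ∧
      (∑' j, x j * y (n - j)) ^ 2 ≤ (∑' j, x j ^ 2) * ∑' j, y j ^ 2 := by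
  have sy' : Summable fun j => y (n - j) ^ 2 := (summable_refl n (f := fun j => y j ^ 2)).2 sy
  have e : ∑' j, y (n - j) ^ 2 = ∑' j, y j ^ 2 := tsum_refl n (fun j => y j ^ 2)
  refine ⟨(cs_tsum hx (fun j => hy (n - j)) sx sy').1, ?_⟩
  rw [← e]
  exact cs_tsum_sq hx (fun j => hy (n - j)) sx sy'

theorem young21 {a b : ℤ → ℝ} (ha : ∀ n, 0 ≤ a n) (hb : ∀ n, 0 ≤ b n)
    (sa : Summable fun n => a n ^ 2) (sb : Summable b) :
    (∀ n, Summable fun m => a m * b (n - m)) ∧ (Summable fun n => (∑' m, a m * b (n - m)) ^ 2) ∧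
      ∑' n, (∑' m, a m * b (n - m)) ^ 2 ≤ (∑' n, a n ^ 2) * (∑' n, b n) ^ 2 := by
  obtain ⟨h1, h2, h3⟩ := young12 hb ha sb sa
  have e : ∀ n, ∑' m, a m * b (n - m) = ∑' m, b m * a (n - m) := fun n => by
    rw [← tsum_refl n (fun m => b m * a (n - m))]
    refine tsum_congr fun m => ?_
    rw [show n - (n - m) = m by ring, mul_comm]
  refine ⟨fun n => ?_, ?_, ?_⟩
  · have := (summable_refl n (f := fun m => b m * a (n - m))).2 (h1 n)
    refine this.congr fun m => ?_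
    rw [show n - (n - m) = m by ring, mul_comm]
  · simpa only [e] using h2
  · simp only [e]; rw [mul_comm]; exact h3

/-- **The product lemma** (scalar form). -/
theorem pr_scalar {lam : ℤ → ℝ} (h1 : ∀ n, 1 ≤ lam n) {α β γ : ℝ} (hα : 0 ≤ α) (hβ : 0 ≤ β)
    (hγ : 0 ≤ γ) (hs : Summable fun n => (lam n ^ (-(α + β + γ))) ^ 2) {x y : ℤ → ℝ}
    (hx : ∀ n, 0 ≤ x n) (hy : ∀ n, 0 ≤ y n) (sx : Summable fun n => x n ^ 2)
    (sy : Summable fun n => y n ^ 2) :
    (∀ n, Summable fun j => lam n ^ (-γ) * (lam j ^ (-α) * lam (n - j) ^ (-β) * (x j * y (n - j)))) ∧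
    (Summable fun n =>
      (∑' j, lam n ^ (-γ) * (lam j ^ (-α) * lam (n - j) ^ (-β) * (x j * y (n - j)))) ^ 2) ∧
    ∑' n, (∑' j, lam n ^ (-γ) * (lam j ^ (-α) * lam (n - j) ^ (-β) * (x j * y (n - j)))) ^ 2 ≤
      9 * (∑' n, (lam n ^ (-(α + β + γ))) ^ 2) * (∑' n, x n ^ 2) * ∑' n, y n ^ 2 := by
  set s := α + β + γ with hsdef
  set w : ℤ → ℝ := fun n => lam n ^ (-s) with hw
  have l0 : ∀ n, 0 < lam n := fun n => by linarith [h1 n]
  have w0 : ∀ n, 0 ≤ w n := fun n => Real.rpow_nonneg (l0 n).le _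
  set S := ∑' n, w n ^ 2 with hS
  set X := ∑' n, x n ^ 2 with hX
  set Y := ∑' n, y n ^ 2 with hY
  have X0 : 0 ≤ X := tsum_nonneg fun n => sq_nonneg _
  have Y0 : 0 ≤ Y := tsum_nonneg fun n => sq_nonneg _
  have S0 : 0 ≤ S := tsum_nonneg fun n => sq_nonneg _
  -- the three pieces
  obtain ⟨sxw, -⟩ := cs_tsum hx w0 sx hs
  have bxw : (∑' n, x n * w n) ^ 2 ≤ X * S := cs_tsum_sq hx w0 sx hs
  obtain ⟨syw, -⟩ := cs_tsum hy w0 sy hs
  have byw : (∑' n, y n * w n) ^ 2 ≤ Y * S := cs_tsum_sq hy w0 sy hs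
  obtain ⟨a1, a2, a3⟩ := young12 (fun n => mul_nonneg (hx n) (w0 n)) hy sxw sy
  obtain ⟨b1, b2, b3⟩ := young21 hx (fun n => mul_nonneg (hy n) (w0 n)) sx syw
  have c1 := fun n => (conv22 hx hy sx sy n).1
  have c2 := fun n => (conv22 hx hy sx sy n).2
  set A : ℤ → ℝ := fun n => ∑' j, x j * w j * y (n - j) with hA
  set B : ℤ → ℝ := fun n => ∑' j, x j * (y (n - j) * w (n - j)) with hB
  set C : ℤ → ℝ := fun n => w n * ∑' j, x j * y (n - j) with hC
  have sC : Summable fun n => C n ^ 2 := by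
    refine Summable.of_nonneg_of_le (fun n => sq_nonneg _) (fun n => ?_) (hs.mul_right (X * Y))
    show (w n * ∑' j, x j * y (n - j)) ^ 2 ≤ _
    rw [mul_pow]
    exact mul_le_mul_of_nonneg_left (c2 n) (sq_nonneg _)
  have bC : ∑' n, C n ^ 2 ≤ S * (X * Y) := by
    rw [hS, ← tsum_mul_right]
    refine sC.tsum_le_tsum (fun n => ?_) (hs.mul_right (X * Y))
    show (w n * ∑' j, x j * y (n - j)) ^ 2 ≤ _
    rw [mul_pow]
    exact mul_le_mul_of_nonneg_left (c2 n) (sq_nonneg _)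
  -- termwise bound
  have term : ∀ n j, lam n ^ (-γ) * (lam j ^ (-α) * lam (n - j) ^ (-β) * (x j * y (n - j))) ≤
      x j * w j * y (n - j) + x j * (y (n - j) * w (n - j)) + w n * (x j * y (n - j)) := by
    intro n j
    have h := three_w (h1 j) (h1 (n - j)) (h1 n) hα hβ hγ
    have hxy : 0 ≤ x j * y (n - j) := mul_nonneg (hx _) (hy _)
    have := mul_le_mul_of_nonneg_right h hxy
    calc _ = lam j ^ (-α) * lam (n - j) ^ (-β) * lam n ^ (-γ) * (x j * y (n - j)) := by ring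
      _ ≤ (w j + w (n - j) + w n) * (x j * y (n - j)) := this
      _ = _ := by ring
  have t0 : ∀ n j, 0 ≤ lam n ^ (-γ) * (lam j ^ (-α) * lam (n - j) ^ (-β) * (x j * y (n - j))) :=
    fun n j => mul_nonneg (Real.rpow_nonneg (l0 _).le _) (mul_nonneg (mul_nonneg
      (Real.rpow_nonneg (l0 _).le _) (Real.rpow_nonneg (l0 _).le _)) (mul_nonneg (hx _) (hy _)))
  have sj : ∀ n, Summable fun j => x j * w j * y (n - j) + x j * (y (n - j) * w (n - j)) +
      w n * (x j * y (n - j)) := fun n => ((a1 n).add (b1 n)).add ((c1 n).mul_left (w n))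
  have st : ∀ n, Summable fun j =>
      lam n ^ (-γ) * (lam j ^ (-α) * lam (n - j) ^ (-β) * (x j * y (n - j))) := fun n =>
    Summable.of_nonneg_of_le (t0 n) (term n) (sj n)
  have bt : ∀ n, ∑' j, lam n ^ (-γ) * (lam j ^ (-α) * lam (n - j) ^ (-β) * (x j * y (n - j))) ≤
      A n + B n + C n := by
    intro n
    refine ((st n).tsum_le_tsum (term n) (sj n)).trans (le_of_eq ?_)
    rw [((a1 n).add (b1 n)).tsum_add ((c1 n).mul_left (w n)), (a1 n).tsum_add (b1 n),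
      tsum_mul_left]
  have n0 : ∀ n, 0 ≤ ∑' j, lam n ^ (-γ) * (lam j ^ (-α) * lam (n - j) ^ (-β) *
      (x j * y (n - j))) := fun n => tsum_nonneg (t0 n)
  have sq : ∀ n, (∑' j, lam n ^ (-γ) * (lam j ^ (-α) * lam (n - j) ^ (-β) *
      (x j * y (n - j)))) ^ 2 ≤ 3 * (A n ^ 2 + B n ^ 2 + C n ^ 2) := by
    intro n
    refine (pow_le_pow_left₀ (n0 n) (bt n) 2).trans ?_
    nlinarith [sq_nonneg (A n - B n), sq_nonneg (B n - C n), sq_nonneg (A n - C n)]
  have sABC : Summable fun n => 3 * (A n ^ 2 + B n ^ 2 + C n ^ 2) :=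
    ((a2.add b2).add sC).mul_left 3
  refine ⟨st, Summable.of_nonneg_of_le (fun n => sq_nonneg _) sq sABC, ?_⟩
  refine ((Summable.of_nonneg_of_le (fun n => sq_nonneg _) sq sABC).tsum_le_tsum sq sABC).trans ?_
  rw [tsum_mul_left, (a2.add b2).tsum_add sC, a2.tsum_add b2]
  have g1 : ∑' n, A n ^ 2 ≤ X * S * Y :=
    a3.trans (mul_le_mul_of_nonneg_right bxw Y0)
  have g2 : ∑' n, B n ^ 2 ≤ X * (Y * S) :=
    b3.trans (mul_le_mul_of_nonneg_left byw X0)
  calc 3 * (∑' n, A n ^ 2 + ∑' n, B n ^ 2 + ∑' n, C n ^ 2) ≤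
        3 * (X * S * Y + X * (Y * S) + S * (X * Y)) := by gcongr
    _ = 9 * S * X * Y := by ring

end Pool.Agent.Lib.MP_79abb3_an.SC
end
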