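import Pool.Agent.Lib.MP_79abb3_an.SC.ChLH

/-!
Theorem C (MP_79abb3_an), block (v): Fubini, the field in the flow region, weak equations.
-/

set_option autoImplicit false
set_option linter.unusedSectionVars false
set_option linter.unusedSimpArgs false

open MeasureTheory Set Filter Topology Function
open scoped RealInnerProductSpace ComplexConjugate

namespace Pool.Agent.Lib.MP_79abb3_an.SC

section
variable {F : ℂ → ℂ} {O Ω Γ : Set ℂ} {r T : ℝ}

/-- Products of a function continuous on `(0,T] × closure Ω` and of a test function. -/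
theorem cont_tf {E : Type*} [NormedAddCommGroup E] [NormedSpace ℝ E] {u : ℝ × ℂ → ℂ}
    (hu : ContinuousOn u (Ioc 0 T ×ˢ closure Ω)) {φ : ℝ × ℂ → E} (hφ : IsTf T Ω φ) (hΩ : IsOpen Ω)
    {B : ℂ → E → ℝ} (hB : Continuous (uncurry B)) (hB0 : ∀ z, B z 0 = 0) :
    Continuous fun p => B (u p) (φ p) := by
  rw [continuous_iff_continuousAt]
  intro p
  by_cases hp : p ∈ tsupport φ
  · have hm := hφ.supp hp
    have ho : IsOpen (Ioo 0 T ×ˢ Ω : Set (ℝ × ℂ)) := isOpen_Ioo.prod hΩ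
    have h1 : ContinuousAt u p := (hu.mono (prod_mono Ioo_subset_Ioc_self subset_closure)).continuousAt
      (ho.mem_nhds hm)
    exact hB.continuousAt.comp (h1.prodMk hφ.smooth.continuous.continuousAt)
  · have hz : φ =ᶠ[𝓝 p] fun _ => 0 := notMem_tsupport_iff_eventuallyEq.1 hp
    have h1 : (fun p => B (u p) (φ p)) =ᶠ[𝓝 p] fun _ => 0 := by
      filter_upwards [hz] with q hq
      rw [hq, hB0]
    exact continuousAt_const.congr h1.symm

theorem integrable_tf {E : Type*} [NormedAddCommGroup E] [NormedSpace ℝ E] {u : ℝ × ℂ → ℂ}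
    (hu : ContinuousOn u (Ioc 0 T ×ˢ closure Ω)) {φ : ℝ × ℂ → E} (hφ : IsTf T Ω φ) (hΩ : IsOpen Ω)
    {B : ℂ → E → ℝ} (hB : Continuous (uncurry B)) (hB0 : ∀ z, B z 0 = 0) :
    Integrable fun p => B (u p) (φ p) := by
  refine (cont_tf hu hφ hΩ hB hB0).integrable_of_hasCompactSupport ?_
  refine HasCompactSupport.intro hφ.cpt.isCompact fun p hp => ?_
  rw [image_eq_zero_of_notMem_tsupport hp, hB0]

/-- `Ω` is open. -/
theorem IsChart.isOpen (hC : IsChart F O Ω Γ r) : IsOpen Ω := by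
  rw [hC.img, isOpen_iff_mem_nhds]
  rintro _ ⟨ζ, hζ, rfl⟩
  have h1 : HasStrictDerivAt F (dF F ζ) ζ := by
    have h2 : HasStrictDerivAt F (deriv F ζ) ζ :=
      ((hC.holo.analyticOnNhd hC.op) ζ hζ).hasStrictDerivAt
    rwa [(hC.hasDerivAt hζ).deriv] at h2
  have h3 := h1.map_nhds_eq (hC.der ζ (subset_closure hζ))
  rw [← h3]
  exact image_mem_map (hC.op.mem_nhds hζ)

/-- The velocity field in the flow region. -/
theorem IsChart.exists_field (hC : IsChart F O Ω Γ r) {v w : ℝ → ℝ × ℝ → ℝ}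
    (hv : ContinuousOn (uncurry v) (Ioc 0 T ×ˢ (univ ×ˢ Icc 0 (r + 1 / 2))))
    (hw : ContinuousOn (uncurry w) (Ioc 0 T ×ˢ (univ ×ˢ Icc 0 (r + 1 / 2)))) :
    ∃ u : ℝ × ℂ → ℂ, ContinuousOn u (Ioc 0 T ×ˢ closure Ω) ∧
      ∀ t, ∀ q, cxp q ∈ closure O → conj (dF F (cxp q)) * u (t, F (cxp q)) = ⟨v t q, w t q⟩ := by
  obtain ⟨g, hg, hg1, hg2⟩ := hC.exists_inv
  refine ⟨fun p => (⟨v p.1 ((g p.2).re, (g p.2).im), w p.1 ((g p.2).re, (g p.2).im)⟩ : ℂ) *
    (conj (dF F (g p.2)))⁻¹, ?_, ?_⟩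
  · have hgc : ContinuousOn (fun p : ℝ × ℂ => g p.2) (Ioc 0 T ×ˢ closure Ω) :=
      hg.comp continuousOn_snd fun p hp => hp.2
    have hq : ContinuousOn (fun p : ℝ × ℂ => (p.1, ((g p.2).re, (g p.2).im))) (Ioc 0 T ×ˢ closure Ω) :=
      continuousOn_fst.prodMk ((Complex.continuous_re.comp_continuousOn hgc).prodMk
        (Complex.continuous_im.comp_continuousOn hgc))
    have hm : MapsTo (fun p : ℝ × ℂ => (p.1, ((g p.2).re, (g p.2).im))) (Ioc 0 T ×ˢ closure Ω)
        (Ioc 0 T ×ˢ (univ ×ˢ Icc 0 (r + 1 / 2))) := by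
      intro p hp
      obtain ⟨h1, h2, h3⟩ := hC.closure_sub (hg2 p.2 hp.2).1
      exact ⟨hp.1, trivial, h2, by show (g p.2).im ≤ _; linarith⟩
    have h1 := hv.comp hq hm
    have h2 := hw.comp hq hm
    have h3 : ContinuousOn (fun p : ℝ × ℂ =>
        (⟨v p.1 ((g p.2).re, (g p.2).im), w p.1 ((g p.2).re, (g p.2).im)⟩ : ℂ)) (Ioc 0 T ×ˢ closure Ω) := by
      have h4 : ContinuousOn (fun p : ℝ × ℂ => cxp (v p.1 ((g p.2).re, (g p.2).im),
          w p.1 ((g p.2).re, (g p.2).im))) (Ioc 0 T ×ˢ closure Ω) :=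
        cxp_cont.comp_continuousOn (h1.prodMk h2)
      exact h4
    have h5 : ContinuousOn (fun p : ℝ × ℂ => conj (dF F (g p.2))) (Ioc 0 T ×ˢ closure Ω) :=
      Complex.continuous_conj.comp_continuousOn
        ((dF_smooth hC.smooth).continuous.comp_continuousOn hgc)
    refine h3.mul (h5.inv₀ fun p hp => ?_)
    rw [Ne, map_eq_zero]
    exact hC.der _ (hg2 p.2 hp.2).1
  · intro t q hq
    have h1 : conj (dF F (cxp q)) ≠ 0 := by
      rw [Ne, map_eq_zero]
      exact hC.der _ hq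
    show conj (dF F (cxp q)) * ((⟨v t ((g (F (cxp q))).re, (g (F (cxp q))).im),
      w t ((g (F (cxp q))).re, (g (F (cxp q))).im)⟩ : ℂ) * (conj (dF F (g (F (cxp q)))))⁻¹) = _
    rw [hg1 _ hq]
    show conj (dF F (cxp q)) * ((⟨v t q, w t q⟩ : ℂ) * (conj (dF F (cxp q)))⁻¹) = _
    field_simp

/-- Time derivative of `Phi`. -/
theorem IsChart.Phi_st (hC : IsChart F O Ω Γ r) {φ : ℝ × ℂ → ℂ} (hφ : IsTf T Ω φ)
    (p : ℝ × (ℝ × ℝ)) : st (Phi F O φ) p = Phi F O (dT φ) p := by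
  obtain ⟨t, q⟩ := p
  have h1 : HasFDerivAt (fun s : ℝ => (s, q)) (ContinuousLinearMap.inl ℝ ℝ (ℝ × ℝ)) t :=
    (hasFDerivAt_id t).prodMk (hasFDerivAt_const q t)
  have h2 : fderiv ℝ (fun s => Phi F O φ (s, q)) t 1 = st (Phi F O φ) (t, q) := by
    have h3 := (((hC.Phi_isTs hφ).diff (t, q)).hasFDerivAt.comp t h1).fderiv
    have h4 : (fun s => Phi F O φ (s, q)) = Phi F O φ ∘ fun s => (s, q) := rfl
    rw [h4, h3]
    simp [st]
    rfl
  rw [← h2]
  by_cases hq : cxp q ∈ O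
  · have h3 : (fun s => Phi F O φ (s, q)) = fun s => conj (dF F (cxp q)) * φ (s, F (cxp q)) := by
      funext s
      rw [Phi, pb_of_mem (p := (s, q)) hq]
    have h4 : HasFDerivAt (fun s : ℝ => (s, F (cxp q))) (ContinuousLinearMap.inl ℝ ℝ ℂ) t :=
      (hasFDerivAt_id t).prodMk (hasFDerivAt_const _ t)
    have h5 := (hφ.diff (t, F (cxp q))).hasFDerivAt.comp t h4
    have h6 := (h5.const_mul (conj (dF F (cxp q)))).fderiv
    have h7 : (fun s : ℝ => conj (dF F (cxp q)) * (φ ∘ fun s => (s, F (cxp q))) s) =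
      fun s => conj (dF F (cxp q)) * φ (s, F (cxp q)) := rfl
    rw [h7] at h6
    rw [h3, h6, Phi, pb_of_mem (p := (t, q)) hq]
    simp [dT]
  · have h3 : (fun s => Phi F O φ (s, q)) = fun s => 0 := by
      funext s
      rw [Phi, pb_of_notMem (p := (s, q)) hq, mul_zero]
    rw [h3, Phi, pb_of_notMem (p := (t, q)) hq, mul_zero]
    simp

/-- The weak Navier-Stokes equation in the flow region. -/
theorem IsChart.ns_eq (hC : IsChart F O Ω Γ r) (hT : 0 < T) {a : ℝ × ℝ → ℝ}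
    (hac : ContDiffOn ℝ 1 a (univ ×ˢ Ioo 0 (r + 1 / 2)))
    (ha : ∀ q, cxp q ∈ O → a q * ‖dF F (cxp q)‖ ^ 2 = 1) {v w : ℝ → ℝ × ℝ → ℝ}
    (hP : ∀ t₁ ∈ Ioc 0 T, Piece (r + 2) (r + 1 / 2) a t₁ T v w) {u : ℝ × ℂ → ℂ}
    (huc : ContinuousOn u (Ioc 0 T ×ˢ closure Ω))
    (hu : ∀ t, ∀ q, cxp q ∈ closure O → conj (dF F (cxp q)) * u (t, F (cxp q)) = ⟨v t q, w t q⟩)
    {φ : ℝ × ℂ → ℂ} (hφ : IsTf T Ω φ) (hdiv : ∀ p, divS φ p = 0) :
    ∫ p, (⟪u p, dT φ p⟫ + ⟪u p, lapS φ p⟫ + ⟪u p, dS φ (u p) p⟫) = 0 := by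
  obtain ⟨G, hG, hGz, hGy⟩ := stream (hC.Phi_isTs hφ) (hC.Phi_div hφ hdiv)
  have hu' : ∀ t, ∀ q, cxp q ∈ O → conj (dF F (cxp q)) * u (t, F (cxp q)) = ⟨v t q, w t q⟩ :=
    fun t q hq => hu t q (subset_closure hq)
  have hcut : ∀ {φ' : ℝ × ℂ → ℂ}, IsTf T Ω φ' → ∀ t, ∀ x, x ∉ Ω → φ' (t, x) = 0 := fun h t x hx =>
    image_eq_zero_of_notMem_tsupport fun hm => hx (h.supp hm).2
  -- integrability
  have hlap : IsTf T Ω (lapS φ) := by
    have h1 := (hφ.dS 1).dS 1
    have h2 := (hφ.dS Complex.I).dS Complex.I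
    exact ⟨h1.smooth.add h2.smooth, h1.cpt.add h2.cpt,
      (tsupport_add (f := dS (dS φ 1) 1) (g := dS (dS φ Complex.I) Complex.I)).trans
        (union_subset h1.supp h2.supp)⟩
  have hB : Continuous (uncurry fun (z w : ℂ) => ⟪z, w⟫) := by
    have : (uncurry fun (z w : ℂ) => ⟪z, w⟫) = fun p : ℂ × ℂ => ⟪p.1, p.2⟫ := rfl
    rw [this]
    exact continuous_fst.inner continuous_snd
  have i1 : Integrable fun p => ⟪u p, dT φ p⟫ :=
    integrable_tf huc hφ.dT hC.isOpen (B := fun z w => ⟪z, w⟫) hB fun z => inner_zero_right z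
  have i2 : Integrable fun p => ⟪u p, lapS φ p⟫ :=
    integrable_tf huc hlap hC.isOpen (B := fun z w => ⟪z, w⟫) hB fun z => inner_zero_right z
  have i3 : Integrable fun p => ⟪u p, dS φ (u p) p⟫ := by
    have h1 : (fun p => ⟪u p, dS φ (u p) p⟫) = fun p =>
        ⟪u p, ((u p).re : ℂ) * dS φ 1 p⟫ + ⟪u p, ((u p).im : ℂ) * dS φ Complex.I p⟫ := by
      funext p
      rw [dS_lin, inner_add_right]
    rw [h1]
    refine Integrable.add ?_ ?_
    · refine integrable_tf huc (hφ.dS 1) hC.isOpen (B := fun z w => ⟪z, (z.re : ℂ) * w⟫) ?_ ?_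
      · have : (uncurry fun (z w : ℂ) => ⟪z, (z.re : ℂ) * w⟫) = fun p : ℂ × ℂ => ⟪p.1, (p.1.re : ℂ) * p.2⟫ := rfl
        rw [this]
        exact continuous_fst.inner ((Complex.continuous_ofReal.comp
          (Complex.continuous_re.comp continuous_fst)).mul continuous_snd)
      · intro z
        rw [mul_zero, inner_zero_right]
    · refine integrable_tf huc (hφ.dS Complex.I) hC.isOpen (B := fun z w => ⟪z, (z.im : ℂ) * w⟫) ?_ ?_
      · have : (uncurry fun (z w : ℂ) => ⟪z, (z.im : ℂ) * w⟫) = fun p : ℂ × ℂ => ⟪p.1, (p.1.im : ℂ) * p.2⟫ := rfl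
        rw [this]
        exact continuous_fst.inner ((Complex.continuous_ofReal.comp
          (Complex.continuous_im.comp continuous_fst)).mul continuous_snd)
      · intro z
        rw [mul_zero, inner_zero_right]
  have hI := (i1.add i2).add i3
  have h0 : (∫ p, (⟪u p, dT φ p⟫ + ⟪u p, lapS φ p⟫ + ⟪u p, dS φ (u p) p⟫)) =
      ∫ t, ∫ x, (⟪u (t, x), dT φ (t, x)⟫ + ⟪u (t, x), lapS φ (t, x)⟫ +
        ⟪u (t, x), dS φ (u (t, x)) (t, x)⟫) := by
    exact integral_prod _ hI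
  -- the inner integral
  have hst : ∀ p, sz (st G) p = (Phi F O (dT φ) p).re ∧ sy (st G) p = -(Phi F O (dT φ) p).im := by
    intro p
    have h1 : sz (st G) p = st (sz G) p := fd_comm hG.smooth _ _ _
    have h2 : sy (st G) p = st (sy G) p := fd_comm hG.smooth _ _ _
    have h3 : sz G = fun p => (Phi F O φ p).re := funext hGz
    have h4 : sy G = fun p => -(Phi F O φ p).im := funext hGy
    have hPd : DifferentiableAt ℝ (Phi F O φ) p := (hC.Phi_isTs hφ).diff p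
    rw [h1, h2, h3, h4, ← hC.Phi_st hφ]
    refine ⟨fd_clm hPd Complex.reCLM _, ?_⟩
    rw [st, fderiv_fun_neg, neg_apply]
    congr 1
    exact fd_clm hPd Complex.imCLM _
  have hsl : ∀ {f : ℝ × ℂ → ℝ}, Continuous f → HasCompactSupport f → ∀ t, Integrable fun x => f (t, x) := by
    intro f hf hfc t
    refine (hf.comp (f := fun x : ℂ => (t, x)) (by fun_prop)).integrable_of_hasCompactSupport ?_
    refine HasCompactSupport.intro (hfc.isCompact.image continuous_snd) fun x hx => ?_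
    exact image_eq_zero_of_notMem_tsupport (f := f) fun hm => hx ⟨(t, x), hm, rfl⟩
  have hcs : ∀ {φ' : ℝ × ℂ → ℂ}, IsTf T Ω φ' → Continuous (fun p => ⟪u p, φ' p⟫) ∧
      HasCompactSupport fun p => ⟪u p, φ' p⟫ := by
    intro φ' h
    refine ⟨cont_tf huc h hC.isOpen (B := fun z w => ⟪z, w⟫) hB fun z => inner_zero_right z, ?_⟩
    refine HasCompactSupport.intro h.cpt.isCompact fun p hp => ?_
    rw [image_eq_zero_of_notMem_tsupport hp, inner_zero_right]
  have hc3 : Continuous (fun p => ⟪u p, dS φ (u p) p⟫) := by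
    have h1 : (fun p => ⟪u p, dS φ (u p) p⟫) = fun p =>
        ⟪u p, ((u p).re : ℂ) * dS φ 1 p⟫ + ⟪u p, ((u p).im : ℂ) * dS φ Complex.I p⟫ := by
      funext p
      rw [dS_lin, inner_add_right]
    rw [h1]
    refine Continuous.add ?_ ?_
    · refine cont_tf huc (hφ.dS 1) hC.isOpen (B := fun z w => ⟪z, (z.re : ℂ) * w⟫) ?_ ?_
      · have : (uncurry fun (z w : ℂ) => ⟪z, (z.re : ℂ) * w⟫) = fun p : ℂ × ℂ => ⟪p.1, (p.1.re : ℂ) * p.2⟫ := rfl
        rw [this]
        exact continuous_fst.inner ((Complex.continuous_ofReal.comp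
          (Complex.continuous_re.comp continuous_fst)).mul continuous_snd)
      · intro z
        rw [mul_zero, inner_zero_right]
    · refine cont_tf huc (hφ.dS Complex.I) hC.isOpen (B := fun z w => ⟪z, (z.im : ℂ) * w⟫) ?_ ?_
      · have : (uncurry fun (z w : ℂ) => ⟪z, (z.im : ℂ) * w⟫) = fun p : ℂ × ℂ => ⟪p.1, (p.1.im : ℂ) * p.2⟫ := rfl
        rw [this]
        exact continuous_fst.inner ((Complex.continuous_ofReal.comp
          (Complex.continuous_im.comp continuous_fst)).mul continuous_snd)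
      · intro z
        rw [mul_zero, inner_zero_right]
  have hs3 : HasCompactSupport (fun p => ⟪u p, dS φ (u p) p⟫) := by
    refine HasCompactSupport.intro hφ.cpt.isCompact fun p hp => ?_
    have h1 : dS φ (u p) p = 0 := by
      rw [dS, fd_zero_of hp]
      rfl
    rw [h1, inner_zero_right]
  have hin : ∀ t, ∫ x, (⟪u (t, x), dT φ (t, x)⟫ + ⟪u (t, x), lapS φ (t, x)⟫ +
        ⟪u (t, x), dS φ (u (t, x)) (t, x)⟫) =
      mG (fun q => st G (t, q)) (v t) (w t) + lG a (fun q => G (t, q)) (v t) (w t) := by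
    intro t
    have j1 := hsl (hcs hφ.dT).1 (hcs hφ.dT).2 t
    have j2 := hsl (hcs hlap).1 (hcs hlap).2 t
    have j3 := hsl hc3 hs3 t
    have k1 := integral_add j1 (j2.add j3)
    have k2 : mG (fun q => st G (t, q)) (v t) (w t) = ∫ x, ⟪u (t, x), dT φ (t, x)⟫ := by
      refine hC.mG_eq (φ := fun x => dT φ (t, x)) (u := fun x => u (t, x)) (hcut hφ.dT t) (hu' t) ?_ ?_
      · intro q hq
        rw [slice_gz hG.st.diff, slice_gy hG.st.diff]
        show (⟨sz (st G) (t, q), -sy (st G) (t, q)⟩ : ℂ) = _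
        rw [(hst _).1, (hst _).2, neg_neg]
        show Phi F O (dT φ) (t, q) = _
        rw [Phi, pb_of_mem (p := (t, q)) hq]
      · intro q hq
        rw [slice_gz hG.st.diff, slice_gy hG.st.diff]
        show sz (st G) (t, q) = 0 ∧ sy (st G) (t, q) = 0
        rw [(hst _).1, (hst _).2, Phi, pb_of_notMem (p := (t, q)) hq]
        simp
    have k3 := hC.lG_eq hφ hdiv hG hGz hGy ha (u := fun x => u (t, x)) (hu' t) t
    rw [k2, k3]
    simp only [Pi.add_apply] at k1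
    rw [← k1]
    congr 1
    funext x
    ring
  rw [h0]
  simp only [hin]
  obtain ⟨a', b', hK, hsub⟩ := box1 (hG.cpt.isCompact.image continuous_fst) (a := 0) (b := T)
    (by rintro _ ⟨p, hp, rfl⟩; exact (hG.supp hp).1)
  have hzero : ∀ t, t ∉ Icc a' b' → (∀ q, (t, q) ∉ tsupport G) := fun t ht q hq => ht (hK ⟨_, hq, rfl⟩)
  have hG0 : ∀ t, t ∉ Icc a' b' → (fun q => G (t, q)) = fun _ => 0 := fun t ht =>
    funext fun q => image_eq_zero_of_notMem_tsupport (hzero t ht q)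
  have hG1 : ∀ t, t ∉ Icc a' b' → (fun q => st G (t, q)) = fun _ => 0 := fun t ht =>
    funext fun q => by
      rw [st, fd_zero_of (hzero t ht q)]
      rfl
  have z1 : gy (fun _ => (0 : ℝ)) = fun _ => 0 := by funext q; simp [gy]
  have z2 : gz (fun _ => (0 : ℝ)) = fun _ => 0 := by funext q; simp [gz]
  have z3 : lapg (fun _ => (0 : ℝ)) = fun _ => 0 := by funext q; simp [lapg, z1, z2]
  have hm0 : ∀ v w : ℝ × ℝ → ℝ, mG (fun _ => 0) v w = 0 := by
    intro v w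
    simp [mG, z1, z2]
  have hl0 : ∀ v w : ℝ × ℝ → ℝ, lG a (fun _ => 0) v w = 0 := by
    intro v w
    simp [lG, z1, z2, z3]
  have hsup : support (fun t => mG (fun q => st G (t, q)) (v t) (w t) +
      lG a (fun q => G (t, q)) (v t) (w t)) ⊆ Icc a' b' := by
    intro t ht
    by_contra h
    apply ht
    show mG (fun q => st G (t, q)) (v t) (w t) + lG a (fun q => G (t, q)) (v t) (w t) = 0
    rw [hG0 t h, hG1 t h, hm0, hl0, add_zero]
  by_cases hab : a' ≤ b'
  · have ha' : a' ∈ Ioo 0 T := hsub ⟨le_rfl, hab⟩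
    have hb' : b' ∈ Ioo 0 T := hsub ⟨hab, le_rfl⟩
    have h1 : Icc a' b' ⊆ Ioc (a' / 2) T := fun t ht => ⟨by linarith [ht.1, ha'.1], by linarith [ht.2, hb'.2]⟩
    rw [← intervalIntegral.integral_eq_integral_of_support_subset (hsup.trans h1)]
    have h2 : a' / 2 ∈ Ioc 0 T := ⟨by linarith [ha'.1], by linarith [ha'.1, ha'.2]⟩
    have h3 := (hP _ h2).tested h2.2 hac hG
    rw [← h3, hG0 T fun h => by linarith [h.2, hb'.2], hG0 (a' / 2) fun h => by linarith [h.1, ha'.1],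
      hm0, hm0, sub_zero]
  · rw [Icc_eq_empty hab, subset_empty_iff, support_eq_empty_iff] at hsup
    rw [hsup]
    simp

end

end Pool.Agent.Lib.MP_79abb3_an.SC
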