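import Pool.Agent.Lib.MP_79abb3_an.SC.ChFinA

/-!
Theorem C (MP_79abb3_an), block (v): divergence, gradient bound in the flow region.
-/

set_option autoImplicit false
set_option linter.unusedSectionVars false
set_option linter.unusedSimpArgs false

open MeasureTheory Set Filter Topology Function
open scoped RealInnerProductSpace ComplexConjugate

namespace Pool.Agent.Lib.MP_79abb3_an.SC

section
variable {F : ℂ → ℂ} {O Ω Γ : Set ℂ} {r T : ℝ}

/-- The field is divergence free. -/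
theorem IsChart.div_eq (hC : IsChart F O Ω Γ r) {a : ℝ × ℝ → ℝ} {v w : ℝ → ℝ × ℝ → ℝ}
    (hP : ∀ t₁ ∈ Ioc 0 T, Piece (r + 2) (r + 1 / 2) a t₁ T v w) {u : ℝ × ℂ → ℂ}
    (huc : ContinuousOn u (Ioc 0 T ×ˢ closure Ω))
    (hu : ∀ t, ∀ q, cxp q ∈ closure O → conj (dF F (cxp q)) * u (t, F (cxp q)) = ⟨v t q, w t q⟩)
    {φ : ℝ × ℂ → ℝ} (hφ : IsTf T Ω φ) :
    ∫ p, ((u p).re * dS φ 1 p + (u p).im * dS φ Complex.I p) = 0 := by
  have hB1 : Continuous (uncurry fun (z : ℂ) (w : ℝ) => z.re * w) :=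
    (Complex.continuous_re.comp continuous_fst).mul continuous_snd
  have hB2 : Continuous (uncurry fun (z : ℂ) (w : ℝ) => z.im * w) :=
    (Complex.continuous_im.comp continuous_fst).mul continuous_snd
  have i1 : Integrable fun p => (u p).re * dS φ 1 p :=
    integrable_tf huc (hφ.dS 1) hC.isOpen (B := fun z w => z.re * w) hB1 fun z => mul_zero _
  have i2 : Integrable fun p => (u p).im * dS φ Complex.I p :=
    integrable_tf huc (hφ.dS Complex.I) hC.isOpen (B := fun z w => z.im * w) hB2 fun z => mul_zero _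
  have h0 : (∫ p, ((u p).re * dS φ 1 p + (u p).im * dS φ Complex.I p)) =
      ∫ t, ∫ x, ((u (t, x)).re * dS φ 1 (t, x) + (u (t, x)).im * dS φ Complex.I (t, x)) :=
    integral_prod _ (i1.add i2)
  rw [h0]
  have hin : ∀ t, ∫ x, ((u (t, x)).re * dS φ 1 (t, x) + (u (t, x)).im * dS φ Complex.I (t, x)) = 0 := by
    intro t
    by_cases ht : t ∈ Ioo 0 T
    · rw [hC.integral _ fun x hx => ?_]
      swap
      · have h1 : ∀ e, dS φ e (t, x) = 0 := fun e =>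
          image_eq_zero_of_notMem_tsupport fun hm => hx ((hφ.dS e).supp hm).2
        rw [h1, h1, mul_zero, mul_zero, add_zero]
      have h1 := (hP t ⟨ht.1, ht.2.le⟩).div t ⟨le_rfl, ht.2.le⟩ (fun q => pb F O φ (t, q))
        ((hC.pb_isTs hφ).slice t)
      refine Eq.trans ?_ h1
      congr 1
      funext q
      rw [slice_gy (hC.pb_isTs hφ).diff, slice_gz (hC.pb_isTs hφ).diff]
      by_cases hq : cxp q ∈ O
      · rw [if_pos hq]
        have e4 : sz (pb F O φ) (t, q) = dS φ (dF F (cxp q) * cxp (0, 1)) (t, F (cxp q)) :=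
          hC.pb_fderiv hφ (t, q) (0, (0, 1)) hq
        have e5 : sy (pb F O φ) (t, q) = dS φ (dF F (cxp q) * cxp (1, 0)) (t, F (cxp q)) :=
          hC.pb_fderiv hφ (t, q) (0, (1, 0)) hq
        have c1 : cxp (1, 0) = 1 := rfl
        have c2 : cxp (0, 1) = Complex.I := rfl
        show _ = v t q * sy (pb F O φ) (t, q) + w t q * sz (pb F O φ) (t, q)
        rw [e4, e5, c1, c2, dS_lin' φ _ (dF F (cxp q) * Complex.I), dS_lin' φ _ (dF F (cxp q) * 1)]
        have h2 := hu t q (subset_closure hq)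
        have h3 : v t q = (conj (dF F (cxp q)) * u (t, F (cxp q))).re := by rw [h2]
        have h4 : w t q = (conj (dF F (cxp q)) * u (t, F (cxp q))).im := by rw [h2]
        rw [h3, h4, ← Complex.normSq_eq_norm_sq, Complex.normSq_apply]
        simp only [Complex.mul_re, Complex.mul_im, Complex.conj_re, Complex.conj_im, Complex.I_re,
          Complex.I_im, mul_one]
        ring
      · rw [if_neg hq]
        have hk : (t, q) ∉ tsupport (pb F O φ) := fun h => hq (hC.pb_tsupport hφ h)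
        show (0 : ℝ) = v t q * sy (pb F O φ) (t, q) + w t q * sz (pb F O φ) (t, q)
        rw [sz, sy, fd_zero_of hk]
        simp
    · have h1 : ∀ e x, dS φ e (t, x) = 0 := fun e x =>
        image_eq_zero_of_notMem_tsupport fun hm => ht ((hφ.dS e).supp hm).1
      simp only [h1, mul_zero, add_zero, integral_zero]
  simp only [hin, integral_zero]

/-- Space-time change of variables. -/
theorem IsChart.integral_st (hC : IsChart F O Ω Γ r) {f : ℝ × ℂ → ℝ} (hf : Integrable f)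
    (hf0 : ∀ t x, x ∉ Ω → f (t, x) = 0) {g : ℝ × (ℝ × ℝ) → ℝ} (hg : Integrable g)
    (hfg : ∀ t q, cxp q ∈ O → g (t, q) = ‖dF F (cxp q)‖ ^ 2 * f (t, F (cxp q)))
    (hg0 : ∀ t q, cxp q ∉ O → g (t, q) = 0) : ∫ p, f p = ∫ p, g p := by
  have h1 : ∫ p, f p = ∫ t, ∫ x, f (t, x) := integral_prod _ hf
  have h2 : ∫ p, g p = ∫ t, ∫ q, g (t, q) := integral_prod _ hg
  rw [h1, h2]
  congr 1
  funext t
  rw [hC.integral (fun x => f (t, x)) (hf0 t)]
  congr 1
  funext q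
  by_cases hq : cxp q ∈ O
  · rw [if_pos hq, hfg t q hq]
  · rw [if_neg hq, hg0 t q hq]

/-- Products of a smooth function on `{F' ≠ 0}` and a pull back. -/
theorem IsChart.mul_pb (hC : IsChart F O Ω Γ r) {E : Type*} [NormedAddCommGroup E] [NormedSpace ℝ E]
    {φ : ℝ × ℂ → E} (hφ : IsTf T Ω φ) {m : ℂ → ℝ}
    (hm : ContDiffOn ℝ ((⊤ : ℕ∞) : WithTop ℕ∞) m {ζ | dF F ζ ≠ 0}) :
    IsTs T (r + 2) (r + 1 / 2) (fun p => m (cxp p.2) • pb F O φ p) := by
  have h1 := hC.pb_isTs hφ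
  have hsub : tsupport (fun p : ℝ × (ℝ × ℝ) => m (cxp p.2) • pb F O φ p) ⊆ tsupport (pb F O φ) :=
    tsupport_smul_subset_right _ _
  refine ⟨?_, h1.cpt.of_isClosed_subset (isClosed_tsupport _) hsub, hsub.trans h1.supp⟩
  rw [contDiff_iff_contDiffAt]
  intro p
  by_cases hp : p ∈ tsupport (pb F O φ)
  · have hU : IsOpen {ζ | dF F ζ ≠ 0} := isOpen_ne_fun (dF_smooth hC.smooth).continuous continuous_const
    have hpU : cxp p.2 ∈ {ζ | dF F ζ ≠ 0} := hC.der _ (subset_closure (hC.pb_tsupport hφ hp))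
    have h2 : ContDiffAt ℝ ((⊤ : ℕ∞) : WithTop ℕ∞) (fun p : ℝ × (ℝ × ℝ) => m (cxp p.2)) p :=
      ((hm _ hpU).contDiffAt (hU.mem_nhds hpU)).comp p (cxp_contDiff.comp contDiff_snd).contDiffAt
    exact h2.smul h1.smooth.contDiffAt
  · have hz : pb F O φ =ᶠ[𝓝 p] fun _ => 0 := notMem_tsupport_iff_eventuallyEq.1 hp
    have h2 : (fun p : ℝ × (ℝ × ℝ) => m (cxp p.2) • pb F O φ p) =ᶠ[𝓝 p] fun _ => 0 := by
      filter_upwards [hz] with q hq
      rw [hq, smul_zero]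
    exact contDiffAt_const.congr_of_eventuallyEq h2

/-- A smooth function on `{F' ≠ 0}` and its derivative are bounded on `O`. -/
theorem IsChart.bound_m (hC : IsChart F O Ω Γ r) {m : ℂ → ℝ}
    (hm : ContDiffOn ℝ ((⊤ : ℕ∞) : WithTop ℕ∞) m {ζ | dF F ζ ≠ 0}) :
    ∃ C, 0 ≤ C ∧ ∀ ζ ∈ O, |m ζ| ≤ C ∧ ‖fderiv ℝ m ζ‖ ≤ C := by
  have hU : IsOpen {ζ | dF F ζ ≠ 0} := isOpen_ne_fun (dF_smooth hC.smooth).continuous continuous_const
  have hsub : closure O ⊆ {ζ | dF F ζ ≠ 0} := hC.der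
  obtain ⟨C1, h1⟩ := hC.compact.exists_bound_of_continuousOn (hm.continuousOn.mono hsub)
  have h2 : ContinuousOn (fderiv ℝ m) {ζ | dF F ζ ≠ 0} :=
    (hm.continuousOn_fderiv_of_isOpen hU (by simp))
  obtain ⟨C2, h3⟩ := hC.compact.exists_bound_of_continuousOn (h2.mono hsub)
  refine ⟨max 0 (max C1 C2), le_max_left _ _, fun ζ hζ => ⟨?_, ?_⟩⟩
  · exact (h1 ζ (subset_closure hζ)).trans ((le_max_left _ _).trans (le_max_right _ _))
  · exact (h3 ζ (subset_closure hζ)).trans ((le_max_right _ _).trans (le_max_right _ _))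

theorem integrable_ts {H h : ℝ} {v : ℝ → ℝ × ℝ → ℝ}
    (hv : ContinuousOn (uncurry v) (Ioc 0 T ×ˢ (univ ×ˢ Icc 0 h))) {X : ℝ × (ℝ × ℝ) → ℝ}
    (hX : IsTs T H h X) : Integrable fun p : ℝ × (ℝ × ℝ) => v p.1 p.2 * X p := by
  have hc : Continuous fun p : ℝ × (ℝ × ℝ) => v p.1 p.2 * X p := by
    rw [continuous_iff_continuousAt]
    intro p
    by_cases hp : p ∈ tsupport X
    · have hm := hX.supp hp
      have ho : IsOpen (Ioo 0 T ×ˢ (univ ×ˢ Ioo 0 h) : Set (ℝ × (ℝ × ℝ))) :=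
        isOpen_Ioo.prod (isOpen_univ.prod isOpen_Ioo)
      have h1 : ContinuousAt (uncurry v) p :=
        (hv.mono (prod_mono Ioo_subset_Ioc_self (prod_mono subset_rfl Ioo_subset_Icc_self))).continuousAt
          (ho.mem_nhds ⟨hm.1, trivial, hm.2.2⟩)
      exact h1.mul hX.smooth.continuous.continuousAt
    · have hz : X =ᶠ[𝓝 p] fun _ => 0 := notMem_tsupport_iff_eventuallyEq.1 hp
      have h1 : (fun p : ℝ × (ℝ × ℝ) => v p.1 p.2 * X p) =ᶠ[𝓝 p] fun _ => 0 := by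
        filter_upwards [hz] with q hq
        rw [hq, mul_zero]
      exact continuousAt_const.congr h1.symm
  exact hc.integrable_of_hasCompactSupport hX.cpt.mul_left

theorem integrable_wsq {X : Type*} [TopologicalSpace X] [T2Space X] [MeasurableSpace X] [OpensMeasurableSpace X]
    {μ : Measure X} [IsFiniteMeasureOnCompacts μ] {f g : X → ℝ} (hg : Continuous g) (hf : Continuous f)
    (hc : HasCompactSupport f) : Integrable (fun p => g p * f p ^ 2) μ := by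
  have h1 : Continuous fun p => g p * f p ^ 2 := hg.mul (hf.pow 2)
  have h2 : HasCompactSupport fun p => g p * f p ^ 2 := by
    refine HasCompactSupport.intro hc.isCompact fun x hx => ?_
    rw [image_eq_zero_of_notMem_tsupport hx]
    ring
  exact h1.integrable_of_hasCompactSupport h2

theorem integrable_sq {X : Type*} [TopologicalSpace X] [T2Space X] [MeasurableSpace X] [OpensMeasurableSpace X]
    {μ : Measure X} [IsFiniteMeasureOnCompacts μ] {f : X → ℝ} (hf : Continuous f)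
    (hc : HasCompactSupport f) : Integrable (fun p => f p ^ 2) μ := by
  have h1 : (fun p => f p ^ 2) = fun p => (fun _ => (1:ℝ)) p * f p ^ 2 := by
    funext p
    simp
  rw [h1]
  exact integrable_wsq continuous_const hf hc

/-- `‖χ‖_2 ≤ C ‖φ‖_2` for the pull back. -/
theorem IsChart.pb_norm (hC : IsChart F O Ω Γ r) : ∃ C, 0 ≤ C ∧ ∀ φ : ℝ × ℂ → ℝ, IsTf T Ω φ →
    √(∫ p, pb F O φ p ^ 2) ≤ C * √(∫ p, φ p ^ 2) := by
  rcases O.eq_empty_or_nonempty with h0 | h0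
  · refine ⟨0, le_rfl, fun φ _ => ?_⟩
    have : ∀ p, pb F O φ p = 0 := fun p => pb_of_notMem (by rw [h0]; exact notMem_empty _)
    simp [this]
  obtain ⟨ζ0, hζ0, hmin⟩ := hC.compact.exists_isMinOn h0.closure
    ((dF_smooth hC.smooth).continuous.norm.continuousOn)
  have hc0 : 0 < ‖dF F ζ0‖ := norm_pos_iff.2 (hC.der ζ0 hζ0)
  refine ⟨‖dF F ζ0‖⁻¹, by positivity, fun φ hφ => ?_⟩
  have hχ := hC.pb_isTs hφ
  have i1 : Integrable fun p => φ p ^ 2 := integrable_sq hφ.smooth.continuous hφ.cpt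
  have i2 : Integrable fun p => pb F O φ p ^ 2 := integrable_sq hχ.smooth.continuous hχ.cpt
  have i3 : Integrable fun p : ℝ × (ℝ × ℝ) => ‖dF F (cxp p.2)‖ ^ 2 * pb F O φ p ^ 2 := by
    have hc : Continuous fun p : ℝ × (ℝ × ℝ) => ‖dF F (cxp p.2)‖ ^ 2 :=
      (((dF_smooth hC.smooth).continuous.comp (cxp_cont.comp continuous_snd)).norm).pow 2
    exact integrable_wsq hc hχ.smooth.continuous hχ.cpt
  have h1 : ∫ p, φ p ^ 2 = ∫ p : ℝ × (ℝ × ℝ), ‖dF F (cxp p.2)‖ ^ 2 * pb F O φ p ^ 2 := by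
    refine hC.integral_st i1 ?_ i3 ?_ ?_
    · intro t x hx
      rw [image_eq_zero_of_notMem_tsupport fun hm => hx (hφ.supp hm).2]
      norm_num
    · intro t q hq
      rw [pb_of_mem (p := (t, q)) hq]
    · intro t q hq
      rw [pb_of_notMem (p := (t, q)) hq]
      norm_num
  have h2 : ‖dF F ζ0‖ ^ 2 * ∫ p, pb F O φ p ^ 2 ≤ ∫ p, φ p ^ 2 := by
    rw [h1, ← integral_const_mul]
    refine integral_mono (i2.const_mul _) i3 fun p => ?_
    by_cases hp : cxp p.2 ∈ O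
    · have h3 : ‖dF F ζ0‖ ≤ ‖dF F (cxp p.2)‖ := hmin (subset_closure hp)
      simp only
      gcongr
    · simp only
      rw [pb_of_notMem hp]
      norm_num
  have h3 : √(‖dF F ζ0‖ ^ 2 * ∫ p, pb F O φ p ^ 2) ≤ √(∫ p, φ p ^ 2) := Real.sqrt_le_sqrt h2
  rw [Real.sqrt_mul (by positivity), Real.sqrt_sq hc0.le] at h3
  rw [inv_mul_eq_div, le_div_iff₀ hc0, mul_comm]
  exact h3

/-- One term of the gradient bound. -/
theorem IsChart.grad_term (hC : IsChart F O Ω Γ r) {v : ℝ → ℝ × ℝ → ℝ}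
    (hv : ContinuousOn (uncurry v) (Ioc 0 T ×ˢ (univ ×ˢ Icc 0 (r + 1 / 2)))) {C₀ : ℝ} (hC₀ : 0 ≤ C₀)
    {e : ℂ} (hS : ∀ φ : ℝ × (ℝ × ℝ) → ℝ, IsTs T (r + 2) (r + 1 / 2) φ →
      |∫ p, v p.1 p.2 * φ p| ≤ C₀ * √(∫ p, φ p ^ 2) ∧
      |∫ p, v p.1 p.2 * fderiv ℝ φ p (0, (e.re, e.im))| ≤ C₀ * √(∫ p, φ p ^ 2)) {m : ℂ → ℝ}
    (hm : ContDiffOn ℝ ((⊤ : ℕ∞) : WithTop ℕ∞) m {ζ | dF F ζ ≠ 0}) :
    ∃ C, 0 ≤ C ∧ ∀ φ : ℝ × ℂ → ℝ, IsTf T Ω φ →
      |∫ p : ℝ × (ℝ × ℝ), v p.1 p.2 * (m (cxp p.2) * fderiv ℝ (pb F O φ) p (0, (e.re, e.im)))| ≤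
        C * √(∫ p, φ p ^ 2) := by
  have hU : IsOpen {ζ | dF F ζ ≠ 0} := isOpen_ne_fun (dF_smooth hC.smooth).continuous continuous_const
  obtain ⟨C1, hC1, h1⟩ := hC.bound_m hm
  obtain ⟨C2, hC2, h2⟩ := hC.pb_norm (T := T)
  have hm' : ContDiffOn ℝ ((⊤ : ℕ∞) : WithTop ℕ∞) (fun ζ => fderiv ℝ m ζ e) {ζ | dF F ζ ≠ 0} :=
    (hm.fderiv_of_isOpen hU (by simp)).clm_apply contDiffOn_const
  refine ⟨C₀ * (C1 * C2) + C₀ * (C1 * ‖e‖ * C2), by positivity, fun φ hφ => ?_⟩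
  have hχ := hC.pb_isTs hφ
  have hX := hC.mul_pb hφ hm
  have hY := hC.mul_pb hφ hm'
  -- norms
  have hn : ∀ {k : ℂ → ℝ} {K : ℝ}, 0 ≤ K → (∀ ζ ∈ O, |k ζ| ≤ K) →
      IsTs T (r + 2) (r + 1 / 2) (fun p => k (cxp p.2) • pb F O φ p) →
      √(∫ p : ℝ × (ℝ × ℝ), (k (cxp p.2) • pb F O φ p) ^ 2) ≤ K * C2 * √(∫ p, φ p ^ 2) := by
    intro k K hK hk hk2
    have i2 : Integrable fun p => pb F O φ p ^ 2 := integrable_sq hχ.smooth.continuous hχ.cpt
    have i3 : Integrable fun p : ℝ × (ℝ × ℝ) => (k (cxp p.2) • pb F O φ p) ^ 2 :=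
      integrable_sq hk2.smooth.continuous hk2.cpt
    have h3 : ∫ p : ℝ × (ℝ × ℝ), (k (cxp p.2) • pb F O φ p) ^ 2 ≤ K ^ 2 * ∫ p, pb F O φ p ^ 2 := by
      rw [← integral_const_mul]
      refine integral_mono i3 (i2.const_mul _) fun p => ?_
      by_cases hp : cxp p.2 ∈ O
      · simp only [smul_eq_mul, mul_pow]
        have h4 : k (cxp p.2) ^ 2 ≤ K ^ 2 := by
          rw [← sq_abs]
          exact pow_le_pow_left₀ (abs_nonneg _) (hk _ hp) 2
        gcongr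
      · simp only
        rw [pb_of_notMem hp, smul_zero]
        norm_num
    calc √(∫ p : ℝ × (ℝ × ℝ), (k (cxp p.2) • pb F O φ p) ^ 2) ≤ √(K ^ 2 * ∫ p, pb F O φ p ^ 2) :=
          Real.sqrt_le_sqrt h3
      _ = K * √(∫ p, pb F O φ p ^ 2) := by rw [Real.sqrt_mul (by positivity), Real.sqrt_sq hK]
      _ ≤ K * (C2 * √(∫ p, φ p ^ 2)) := by gcongr; exact h2 φ hφ
      _ = K * C2 * √(∫ p, φ p ^ 2) := by ring
  have hkey : ∀ p : ℝ × (ℝ × ℝ), v p.1 p.2 * (m (cxp p.2) * fderiv ℝ (pb F O φ) p (0, (e.re, e.im))) =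
      v p.1 p.2 * fderiv ℝ (fun p => m (cxp p.2) • pb F O φ p) p (0, (e.re, e.im)) -
        v p.1 p.2 * (fderiv ℝ m (cxp p.2) e • pb F O φ p) := by
    intro p
    by_cases hp : cxp p.2 ∈ O
    · have hpU : cxp p.2 ∈ {ζ | dF F ζ ≠ 0} := hC.der _ (subset_closure hp)
      have h3 : HasFDerivAt m (fderiv ℝ m (cxp p.2)) (cxp p.2) :=
        (((hm _ hpU).contDiffAt (hU.mem_nhds hpU)).differentiableAt (by simp)).hasFDerivAt
      have h4 : HasFDerivAt (fun p : ℝ × (ℝ × ℝ) => m (cxp p.2))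
          ((fderiv ℝ m (cxp p.2)).comp (cxpL.comp (ContinuousLinearMap.snd ℝ ℝ (ℝ × ℝ)))) p :=
        h3.comp p ((cxp_hasFDerivAt p.2).comp p hasFDerivAt_snd)
      have h5 := (h4.smul (hχ.diff p).hasFDerivAt).fderiv
      have h6 : ((fun p : ℝ × (ℝ × ℝ) => m (cxp p.2)) • pb F O φ) =
        fun p => m (cxp p.2) • pb F O φ p := rfl
      rw [h6] at h5
      rw [h5]
      have h7 : cxp (e.re, e.im) = e := rfl
      simp [cxpL_apply, h7]
      ring
    · have hk : p ∉ tsupport (pb F O φ) := fun h => hp (hC.pb_tsupport hφ h)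
      have hk2 : p ∉ tsupport (fun p : ℝ × (ℝ × ℝ) => m (cxp p.2) • pb F O φ p) := fun h =>
        hk (tsupport_smul_subset_right (fun p : ℝ × (ℝ × ℝ) => m (cxp p.2)) (pb F O φ) h)
      rw [fd_zero_of hk, fd_zero_of hk2, pb_of_notMem hp]
      simp
  have j1 : Integrable fun p : ℝ × (ℝ × ℝ) =>
      v p.1 p.2 * fderiv ℝ (fun p => m (cxp p.2) • pb F O φ p) p (0, (e.re, e.im)) :=
    integrable_ts hv (hX.fd _)
  have j2 : Integrable fun p : ℝ × (ℝ × ℝ) => v p.1 p.2 * (fderiv ℝ m (cxp p.2) e • pb F O φ p) :=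
    integrable_ts hv hY
  simp only [hkey]
  rw [integral_sub j1 j2]
  refine (abs_sub _ _).trans ?_
  have b1 := (hS _ hX).2
  have b2 := (hS _ hY).1
  have b3 := hn hC1 (fun ζ hζ => (h1 ζ hζ).1) hX
  have b4 := hn (K := C1 * ‖e‖) (by positivity) (fun ζ hζ =>
    ((fderiv ℝ m ζ).le_opNorm e).trans (mul_le_mul_of_nonneg_right (h1 ζ hζ).2 (norm_nonneg _))) hY
  calc _ ≤ C₀ * (C1 * C2 * √(∫ p, φ p ^ 2)) + C₀ * (C1 * ‖e‖ * C2 * √(∫ p, φ p ^ 2)) := by
        refine add_le_add (b1.trans ?_) (b2.trans ?_)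
        · gcongr
        · gcongr
    _ = _ := by ring

end

end Pool.Agent.Lib.MP_79abb3_an.SC
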