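import Pool.Agent.Lib.MP_79abb3_an.SC.ChFinB

/-!
Theorem C (MP_79abb3_an), block (v): the gradient bound in the flow region.
-/

set_option autoImplicit false
set_option linter.unusedSectionVars false
set_option linter.unusedSimpArgs false

open MeasureTheory Set Filter Topology Function
open scoped RealInnerProductSpace ComplexConjugate

namespace Pool.Agent.Lib.MP_79abb3_an.SC

section
variable {F : ℂ → ℂ} {O Ω Γ : Set ℂ} {r T : ℝ}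

/-- Products of a smooth function on `{F' ≠ 0}` and a test function supported in `O`. -/
theorem IsChart.mul_ts (hC : IsChart F O Ω Γ r) {H h : ℝ} {X : ℝ × (ℝ × ℝ) → ℝ} (hX : IsTs T H h X)
    (hs : tsupport X ⊆ {p | cxp p.2 ∈ O}) {m : ℂ → ℝ}
    (hm : ContDiffOn ℝ ((⊤ : ℕ∞) : WithTop ℕ∞) m {ζ | dF F ζ ≠ 0}) :
    IsTs T H h (fun p => m (cxp p.2) * X p) := by
  have hsub : tsupport (fun p : ℝ × (ℝ × ℝ) => m (cxp p.2) * X p) ⊆ tsupport X :=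
    tsupport_mul_subset_right
  refine ⟨?_, hX.cpt.of_isClosed_subset (isClosed_tsupport _) hsub, hsub.trans hX.supp⟩
  rw [contDiff_iff_contDiffAt]
  intro p
  by_cases hp : p ∈ tsupport X
  · have hU : IsOpen {ζ | dF F ζ ≠ 0} := isOpen_ne_fun (dF_smooth hC.smooth).continuous continuous_const
    have hpU : cxp p.2 ∈ {ζ | dF F ζ ≠ 0} := hC.der _ (subset_closure (hs hp))
    have h2 : ContDiffAt ℝ ((⊤ : ℕ∞) : WithTop ℕ∞) (fun p : ℝ × (ℝ × ℝ) => m (cxp p.2)) p :=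
      ((hm _ hpU).contDiffAt (hU.mem_nhds hpU)).comp p (cxp_contDiff.comp contDiff_snd).contDiffAt
    exact h2.mul hX.smooth.contDiffAt
  · have hz : X =ᶠ[𝓝 p] fun _ => 0 := notMem_tsupport_iff_eventuallyEq.1 hp
    have h2 : (fun p : ℝ × (ℝ × ℝ) => m (cxp p.2) * X p) =ᶠ[𝓝 p] fun _ => 0 := by
      filter_upwards [hz] with q hq
      rw [hq, mul_zero]
    exact contDiffAt_const.congr_of_eventuallyEq h2

theorem int8 {X : Type*} [MeasurableSpace X] {μ : Measure X} {f1 f2 f3 f4 f5 f6 f7 f8 : X → ℝ}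
    (i1 : Integrable f1 μ) (i2 : Integrable f2 μ) (i3 : Integrable f3 μ) (i4 : Integrable f4 μ)
    (i5 : Integrable f5 μ) (i6 : Integrable f6 μ) (i7 : Integrable f7 μ) (i8 : Integrable f8 μ) :
    ∫ p, (((f1 p + f2 p) + (f3 p + f4 p)) + ((f5 p + f6 p) - (f7 p + f8 p))) ∂μ =
      ((∫ p, f1 p ∂μ + ∫ p, f2 p ∂μ) + (∫ p, f3 p ∂μ + ∫ p, f4 p ∂μ)) +
        ((∫ p, f5 p ∂μ + ∫ p, f6 p ∂μ) - (∫ p, f7 p ∂μ + ∫ p, f8 p ∂μ)) := by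
  have j1 : Integrable (fun p => f1 p + f2 p) μ := i1.add i2
  have j2 : Integrable (fun p => f3 p + f4 p) μ := i3.add i4
  have j3 : Integrable (fun p => f5 p + f6 p) μ := i5.add i6
  have j4 : Integrable (fun p => f7 p + f8 p) μ := i7.add i8
  have l1 : Integrable (fun p => (f1 p + f2 p) + (f3 p + f4 p)) μ := j1.add j2
  have l2 : Integrable (fun p => (f5 p + f6 p) - (f7 p + f8 p)) μ := j3.sub j4
  rw [← integral_add i1 i2, ← integral_add i3 i4, ← integral_add i5 i6, ← integral_add i7 i8,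
    ← integral_add j1 j2, ← integral_sub j3 j4, ← integral_add l1 l2]

theorem IsChart.grad_one (hC : IsChart F O Ω Γ r) {v w : ℝ → ℝ × ℝ → ℝ}
    (hv : ContinuousOn (uncurry v) (Ioc 0 T ×ˢ (univ ×ˢ Icc 0 (r + 1 / 2))))
    (hw : ContinuousOn (uncurry w) (Ioc 0 T ×ˢ (univ ×ˢ Icc 0 (r + 1 / 2)))) {C₀ : ℝ} (hC₀ : 0 ≤ C₀)
    (hS : ∀ φ : ℝ × (ℝ × ℝ) → ℝ, IsTs T (r + 2) (r + 1 / 2) φ →
      (|∫ p, v p.1 p.2 * φ p| ≤ C₀ * √(∫ p, φ p ^ 2) ∧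
      |∫ p, v p.1 p.2 * sy φ p| ≤ C₀ * √(∫ p, φ p ^ 2) ∧
      |∫ p, v p.1 p.2 * sz φ p| ≤ C₀ * √(∫ p, φ p ^ 2)) ∧
      (|∫ p, w p.1 p.2 * φ p| ≤ C₀ * √(∫ p, φ p ^ 2) ∧
      |∫ p, w p.1 p.2 * sy φ p| ≤ C₀ * √(∫ p, φ p ^ 2) ∧
      |∫ p, w p.1 p.2 * sz φ p| ≤ C₀ * √(∫ p, φ p ^ 2))) {u : ℝ × ℂ → ℂ}
    (huc : ContinuousOn u (Ioc 0 T ×ˢ closure Ω))
    (hu : ∀ t, ∀ q, cxp q ∈ closure O → conj (dF F (cxp q)) * u (t, F (cxp q)) = ⟨v t q, w t q⟩)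
    (e : ℂ) : ∃ C, 0 ≤ C ∧ ∀ φ : ℝ × ℂ → ℂ, IsTf T Ω φ →
      |∫ p, ⟪u p, dS φ e p⟫| ≤ C * √(∫ p, ‖φ p‖ ^ 2) := by
  -- the coefficients
  have hd : ContDiff ℝ ((⊤ : ℕ∞) : WithTop ℕ∞) (dF F) := dF_smooth hC.smooth
  have hc1 : ContDiffOn ℝ ((⊤ : ℕ∞) : WithTop ℕ∞) (fun ζ => (dF F ζ).re) {ζ | dF F ζ ≠ 0} :=
    (Complex.reCLM.contDiff.comp hd).contDiffOn
  have hc2 : ContDiffOn ℝ ((⊤ : ℕ∞) : WithTop ℕ∞) (fun ζ => (dF F ζ).im) {ζ | dF F ζ ≠ 0} :=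
    (Complex.imCLM.contDiff.comp hd).contDiffOn
  have hq : ContDiffOn ℝ ((⊤ : ℕ∞) : WithTop ℕ∞) (fun ζ => e * (dF F ζ)⁻¹) {ζ | dF F ζ ≠ 0} :=
    contDiffOn_const.mul (hd.contDiffOn.inv fun ζ hζ => hζ)
  have ha1 : ContDiffOn ℝ ((⊤ : ℕ∞) : WithTop ℕ∞) (fun ζ => (e * (dF F ζ)⁻¹).re) {ζ | dF F ζ ≠ 0} :=
    Complex.reCLM.contDiff.comp_contDiffOn hq
  have ha2 : ContDiffOn ℝ ((⊤ : ℕ∞) : WithTop ℕ∞) (fun ζ => (e * (dF F ζ)⁻¹).im) {ζ | dF F ζ ≠ 0} :=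
    Complex.imCLM.contDiff.comp_contDiffOn hq
  have hM1 := hc1.mul ha1
  have hM2 := hc1.mul ha2
  have hM3 := hc2.mul ha1
  have hM4 := hc2.mul ha2
  have hSv1 : ∀ φ : ℝ × (ℝ × ℝ) → ℝ, IsTs T (r + 2) (r + 1 / 2) φ →
      |∫ p, v p.1 p.2 * φ p| ≤ C₀ * √(∫ p, φ p ^ 2) ∧
      |∫ p, v p.1 p.2 * fderiv ℝ φ p (0, ((1 : ℂ).re, (1 : ℂ).im))| ≤ C₀ * √(∫ p, φ p ^ 2) :=
    fun φ hφ => ⟨(hS φ hφ).1.1, (hS φ hφ).1.2.1⟩
  have hSv2 : ∀ φ : ℝ × (ℝ × ℝ) → ℝ, IsTs T (r + 2) (r + 1 / 2) φ →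
      |∫ p, v p.1 p.2 * φ p| ≤ C₀ * √(∫ p, φ p ^ 2) ∧
      |∫ p, v p.1 p.2 * fderiv ℝ φ p (0, (Complex.I.re, Complex.I.im))| ≤ C₀ * √(∫ p, φ p ^ 2) :=
    fun φ hφ => ⟨(hS φ hφ).1.1, (hS φ hφ).1.2.2⟩
  have hSw1 : ∀ φ : ℝ × (ℝ × ℝ) → ℝ, IsTs T (r + 2) (r + 1 / 2) φ →
      |∫ p, w p.1 p.2 * φ p| ≤ C₀ * √(∫ p, φ p ^ 2) ∧
      |∫ p, w p.1 p.2 * fderiv ℝ φ p (0, ((1 : ℂ).re, (1 : ℂ).im))| ≤ C₀ * √(∫ p, φ p ^ 2) :=
    fun φ hφ => ⟨(hS φ hφ).2.1, (hS φ hφ).2.2.1⟩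
  have hSw2 : ∀ φ : ℝ × (ℝ × ℝ) → ℝ, IsTs T (r + 2) (r + 1 / 2) φ →
      |∫ p, w p.1 p.2 * φ p| ≤ C₀ * √(∫ p, φ p ^ 2) ∧
      |∫ p, w p.1 p.2 * fderiv ℝ φ p (0, (Complex.I.re, Complex.I.im))| ≤ C₀ * √(∫ p, φ p ^ 2) :=
    fun φ hφ => ⟨(hS φ hφ).2.1, (hS φ hφ).2.2.2⟩
  obtain ⟨K1, k1, B1⟩ := hC.grad_term hv hC₀ hSv1 hM1
  obtain ⟨K2, k2, B2⟩ := hC.grad_term hv hC₀ hSv2 hM2
  obtain ⟨K3, k3, B3⟩ := hC.grad_term hv hC₀ hSv1 hM3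
  obtain ⟨K4, k4, B4⟩ := hC.grad_term hv hC₀ hSv2 hM4
  obtain ⟨K5, k5, B5⟩ := hC.grad_term hw hC₀ hSw1 hM1
  obtain ⟨K6, k6, B6⟩ := hC.grad_term hw hC₀ hSw2 hM2
  obtain ⟨K7, k7, B7⟩ := hC.grad_term hw hC₀ hSw1 hM3
  obtain ⟨K8, k8, B8⟩ := hC.grad_term hw hC₀ hSw2 hM4
  refine ⟨K1 + K2 + K3 + K4 + K5 + K6 + K7 + K8, by positivity, fun φ hφ => ?_⟩
  have hφ1 : IsTf T Ω fun p => (φ p).re := hφ.clm Complex.reCLM
  have hφ2 : IsTf T Ω fun p => (φ p).im := hφ.clm Complex.imCLM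
  set φ1 : ℝ × ℂ → ℝ := fun p => (φ p).re with hφ1d
  set φ2 : ℝ × ℂ → ℝ := fun p => (φ p).im with hφ2d
  -- integrability of the terms
  have hI : ∀ {f : ℝ → ℝ × ℝ → ℝ}, ContinuousOn (uncurry f) (Ioc 0 T ×ˢ (univ ×ˢ Icc 0 (r + 1 / 2))) →
      ∀ {ψ : ℝ × ℂ → ℝ}, IsTf T Ω ψ → ∀ {m : ℂ → ℝ},
      ContDiffOn ℝ ((⊤ : ℕ∞) : WithTop ℕ∞) m {ζ | dF F ζ ≠ 0} → ∀ e' : ℂ,
      Integrable fun p : ℝ × (ℝ × ℝ) =>
        f p.1 p.2 * (m (cxp p.2) * fderiv ℝ (pb F O ψ) p (0, (e'.re, e'.im))) := by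
    intro f hf ψ hψ m hm e'
    exact integrable_ts hf (hC.mul_ts ((hC.pb_isTs hψ).fd _)
      ((tsupport_fd _ _).trans (hC.pb_tsupport hψ)) hm)
  have i1 := hI hv hφ1 hM1 1
  have i2 := hI hv hφ1 hM2 Complex.I
  have i3 := hI hv hφ2 hM3 1
  have i4 := hI hv hφ2 hM4 Complex.I
  have i5 := hI hw hφ2 hM1 1
  have i6 := hI hw hφ2 hM2 Complex.I
  have i7 := hI hw hφ1 hM3 1
  have i8 := hI hw hφ1 hM4 Complex.I
  have hB : Continuous (uncurry fun (z w : ℂ) => ⟪z, w⟫) := by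
    have : (uncurry fun (z w : ℂ) => ⟪z, w⟫) = fun p : ℂ × ℂ => ⟪p.1, p.2⟫ := rfl
    rw [this]
    exact continuous_fst.inner continuous_snd
  have i0 : Integrable fun p => ⟪u p, dS φ e p⟫ :=
    integrable_tf huc (hφ.dS e) hC.isOpen (B := fun z w => ⟪z, w⟫) hB fun z => inner_zero_right z
  have hcv : ∫ p, ⟪u p, dS φ e p⟫ = ∫ p : ℝ × (ℝ × ℝ),
      (((v p.1 p.2 * (((dF F (cxp p.2)).re * (e * (dF F (cxp p.2))⁻¹).re) *
          fderiv ℝ (pb F O φ1) p (0, ((1 : ℂ).re, (1 : ℂ).im))) +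
        v p.1 p.2 * (((dF F (cxp p.2)).re * (e * (dF F (cxp p.2))⁻¹).im) *
          fderiv ℝ (pb F O φ1) p (0, (Complex.I.re, Complex.I.im)))) +
        (v p.1 p.2 * (((dF F (cxp p.2)).im * (e * (dF F (cxp p.2))⁻¹).re) *
          fderiv ℝ (pb F O φ2) p (0, ((1 : ℂ).re, (1 : ℂ).im))) +
        v p.1 p.2 * (((dF F (cxp p.2)).im * (e * (dF F (cxp p.2))⁻¹).im) *
          fderiv ℝ (pb F O φ2) p (0, (Complex.I.re, Complex.I.im))))) +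
      ((w p.1 p.2 * (((dF F (cxp p.2)).re * (e * (dF F (cxp p.2))⁻¹).re) *
          fderiv ℝ (pb F O φ2) p (0, ((1 : ℂ).re, (1 : ℂ).im))) +
        w p.1 p.2 * (((dF F (cxp p.2)).re * (e * (dF F (cxp p.2))⁻¹).im) *
          fderiv ℝ (pb F O φ2) p (0, (Complex.I.re, Complex.I.im)))) -
        (w p.1 p.2 * (((dF F (cxp p.2)).im * (e * (dF F (cxp p.2))⁻¹).re) *
          fderiv ℝ (pb F O φ1) p (0, ((1 : ℂ).re, (1 : ℂ).im))) +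
        w p.1 p.2 * (((dF F (cxp p.2)).im * (e * (dF F (cxp p.2))⁻¹).im) *
          fderiv ℝ (pb F O φ1) p (0, (Complex.I.re, Complex.I.im)))))) := by
    refine hC.integral_st i0 ?_ (((i1.add i2).add (i3.add i4)).add ((i5.add i6).sub (i7.add i8))) ?_ ?_
    · intro t x hx
      rw [image_eq_zero_of_notMem_tsupport fun hm => hx ((hφ.dS e).supp hm).2, inner_zero_right]
    · intro t q hq
      have hc : dF F (cxp q) ≠ 0 := hC.der _ (subset_closure hq)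
      have f1 : ∀ ψ : ℝ × ℂ → ℝ, IsTf T Ω ψ → fderiv ℝ (pb F O ψ) (t, q) (0, ((1 : ℂ).re, (1 : ℂ).im)) =
          dS ψ (dF F (cxp q) * 1) (t, F (cxp q)) := fun ψ hψ => hC.pb_fderiv hψ (t, q) _ hq
      have f2 : ∀ ψ : ℝ × ℂ → ℝ, IsTf T Ω ψ →
          fderiv ℝ (pb F O ψ) (t, q) (0, (Complex.I.re, Complex.I.im)) =
          dS ψ (dF F (cxp q) * Complex.I) (t, F (cxp q)) := fun ψ hψ => hC.pb_fderiv hψ (t, q) _ hq
      have f3 : ∀ ψ : ℝ × ℂ → ℝ, IsTf T Ω ψ → dS ψ e (t, F (cxp q)) =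
          (e * (dF F (cxp q))⁻¹).re * dS ψ (dF F (cxp q) * 1) (t, F (cxp q)) +
          (e * (dF F (cxp q))⁻¹).im * dS ψ (dF F (cxp q) * Complex.I) (t, F (cxp q)) := by
        intro ψ hψ
        have h1 : e = dF F (cxp q) * (e * (dF F (cxp q))⁻¹) := by field_simp
        have h2 : ((0 : ℝ), e) = (e * (dF F (cxp q))⁻¹).re • ((0 : ℝ), dF F (cxp q) * 1) +
            (e * (dF F (cxp q))⁻¹).im • ((0 : ℝ), dF F (cxp q) * Complex.I) := by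
          apply Prod.ext
          · simp
          · show e = (e * (dF F (cxp q))⁻¹).re • (dF F (cxp q) * 1) +
              (e * (dF F (cxp q))⁻¹).im • (dF F (cxp q) * Complex.I)
            conv_lhs => rw [h1, ← Complex.re_add_im (e * (dF F (cxp q))⁻¹)]
            rw [Complex.real_smul, Complex.real_smul]
            ring
        conv_lhs => rw [dS, h2]
        rw [map_add, map_smul, map_smul]
        rfl
      have f4 : dS φ e (t, F (cxp q)) = ⟨dS φ1 e (t, F (cxp q)), dS φ2 e (t, F (cxp q))⟩ := by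
        apply Complex.ext
        · exact (fd_clm (hφ.diff _) Complex.reCLM _).symm
        · exact (fd_clm (hφ.diff _) Complex.imCLM _).symm
      rw [inner_key (hu t q (subset_closure hq)), f4, Complex.inner]
      show (((v t q * (((dF F (cxp q)).re * (e * (dF F (cxp q))⁻¹).re) *
          fderiv ℝ (pb F O φ1) (t, q) (0, ((1 : ℂ).re, (1 : ℂ).im))) +
        v t q * (((dF F (cxp q)).re * (e * (dF F (cxp q))⁻¹).im) *
          fderiv ℝ (pb F O φ1) (t, q) (0, (Complex.I.re, Complex.I.im)))) +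
        (v t q * (((dF F (cxp q)).im * (e * (dF F (cxp q))⁻¹).re) *
          fderiv ℝ (pb F O φ2) (t, q) (0, ((1 : ℂ).re, (1 : ℂ).im))) +
        v t q * (((dF F (cxp q)).im * (e * (dF F (cxp q))⁻¹).im) *
          fderiv ℝ (pb F O φ2) (t, q) (0, (Complex.I.re, Complex.I.im))))) +
      ((w t q * (((dF F (cxp q)).re * (e * (dF F (cxp q))⁻¹).re) *
          fderiv ℝ (pb F O φ2) (t, q) (0, ((1 : ℂ).re, (1 : ℂ).im))) +
        w t q * (((dF F (cxp q)).re * (e * (dF F (cxp q))⁻¹).im) *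
          fderiv ℝ (pb F O φ2) (t, q) (0, (Complex.I.re, Complex.I.im)))) -
        (w t q * (((dF F (cxp q)).im * (e * (dF F (cxp q))⁻¹).re) *
          fderiv ℝ (pb F O φ1) (t, q) (0, ((1 : ℂ).re, (1 : ℂ).im))) +
        w t q * (((dF F (cxp q)).im * (e * (dF F (cxp q))⁻¹).im) *
          fderiv ℝ (pb F O φ1) (t, q) (0, (Complex.I.re, Complex.I.im)))))) = _
      rw [f1 _ hφ1, f2 _ hφ1, f1 _ hφ2, f2 _ hφ2, f3 _ hφ1, f3 _ hφ2]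
      simp only [Complex.mul_re, Complex.mul_im, Complex.conj_re, Complex.conj_im]
      ring
    · intro t q hq
      have hk : ∀ {ψ : ℝ × ℂ → ℝ}, IsTf T Ω ψ → fderiv ℝ (pb F O ψ) (t, q) = 0 := fun hψ =>
        fd_zero_of fun h => hq (hC.pb_tsupport hψ h)
      simp only [hk hφ1, hk hφ2]
      simp
  -- sum of the eight bounds
  have hn1 : √(∫ p, φ1 p ^ 2) ≤ √(∫ p, ‖φ p‖ ^ 2) := by
    refine Real.sqrt_le_sqrt (integral_mono (integrable_sq hφ1.smooth.continuous hφ1.cpt)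
      (integrable_sq hφ.smooth.continuous.norm hφ.cpt.norm) fun p => ?_)
    show (φ p).re ^ 2 ≤ ‖φ p‖ ^ 2
    rw [← sq_abs (φ p).re]
    exact pow_le_pow_left₀ (abs_nonneg _) (Complex.abs_re_le_norm _) 2
  have hn2 : √(∫ p, φ2 p ^ 2) ≤ √(∫ p, ‖φ p‖ ^ 2) := by
    refine Real.sqrt_le_sqrt (integral_mono (integrable_sq hφ2.smooth.continuous hφ2.cpt)
      (integrable_sq hφ.smooth.continuous.norm hφ.cpt.norm) fun p => ?_)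
    show (φ p).im ^ 2 ≤ ‖φ p‖ ^ 2
    rw [← sq_abs (φ p).im]
    exact pow_le_pow_left₀ (abs_nonneg _) (Complex.abs_im_le_norm _) 2
  have c1 := (B1 φ1 hφ1).trans (mul_le_mul_of_nonneg_left hn1 k1)
  have c2 := (B2 φ1 hφ1).trans (mul_le_mul_of_nonneg_left hn1 k2)
  have c3 := (B3 φ2 hφ2).trans (mul_le_mul_of_nonneg_left hn2 k3)
  have c4 := (B4 φ2 hφ2).trans (mul_le_mul_of_nonneg_left hn2 k4)
  have c5 := (B5 φ2 hφ2).trans (mul_le_mul_of_nonneg_left hn2 k5)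
  have c6 := (B6 φ2 hφ2).trans (mul_le_mul_of_nonneg_left hn2 k6)
  have c7 := (B7 φ1 hφ1).trans (mul_le_mul_of_nonneg_left hn1 k7)
  have c8 := (B8 φ1 hφ1).trans (mul_le_mul_of_nonneg_left hn1 k8)
  rw [hcv.trans (int8 i1 i2 i3 i4 i5 i6 i7 i8)]
  rw [abs_le] at c1 c2 c3 c4 c5 c6 c7 c8 ⊢
  constructor
  · linarith [c1.1, c2.1, c3.1, c4.1, c5.1, c6.1, c7.2, c8.2]
  · linarith [c1.2, c2.2, c3.2, c4.2, c5.2, c6.2, c7.1, c8.1]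

/-- **The gradient bound in the flow region.** -/
theorem IsChart.grad_eq (hC : IsChart F O Ω Γ r) {v w : ℝ → ℝ × ℝ → ℝ}
    (hv : ContinuousOn (uncurry v) (Ioc 0 T ×ˢ (univ ×ˢ Icc 0 (r + 1 / 2))))
    (hw : ContinuousOn (uncurry w) (Ioc 0 T ×ˢ (univ ×ˢ Icc 0 (r + 1 / 2)))) {C₀ : ℝ} (hC₀ : 0 ≤ C₀)
    (hS : ∀ φ : ℝ × (ℝ × ℝ) → ℝ, IsTs T (r + 2) (r + 1 / 2) φ →
      (|∫ p, v p.1 p.2 * φ p| ≤ C₀ * √(∫ p, φ p ^ 2) ∧
      |∫ p, v p.1 p.2 * sy φ p| ≤ C₀ * √(∫ p, φ p ^ 2) ∧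
      |∫ p, v p.1 p.2 * sz φ p| ≤ C₀ * √(∫ p, φ p ^ 2)) ∧
      (|∫ p, w p.1 p.2 * φ p| ≤ C₀ * √(∫ p, φ p ^ 2) ∧
      |∫ p, w p.1 p.2 * sy φ p| ≤ C₀ * √(∫ p, φ p ^ 2) ∧
      |∫ p, w p.1 p.2 * sz φ p| ≤ C₀ * √(∫ p, φ p ^ 2))) {u : ℝ × ℂ → ℂ}
    (huc : ContinuousOn u (Ioc 0 T ×ˢ closure Ω))
    (hu : ∀ t, ∀ q, cxp q ∈ closure O → conj (dF F (cxp q)) * u (t, F (cxp q)) = ⟨v t q, w t q⟩) :
    ∃ C, 0 ≤ C ∧ ∀ φ : ℝ × ℂ → ℂ, IsTf T Ω φ → ∀ e : ℂ, ‖e‖ ≤ 1 →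
      |∫ p, ⟪u p, dS φ e p⟫| ≤ C * √(∫ p, ‖φ p‖ ^ 2) := by
  obtain ⟨C1, h1, b1⟩ := hC.grad_one hv hw hC₀ hS huc hu 1
  obtain ⟨C2, h2, b2⟩ := hC.grad_one hv hw hC₀ hS huc hu Complex.I
  refine ⟨C1 + C2, by positivity, fun φ hφ e he => ?_⟩
  have hB : Continuous (uncurry fun (z w : ℂ) => ⟪z, w⟫) := by
    have : (uncurry fun (z w : ℂ) => ⟪z, w⟫) = fun p : ℂ × ℂ => ⟪p.1, p.2⟫ := rfl
    rw [this]
    exact continuous_fst.inner continuous_snd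
  have i1 : Integrable fun p => ⟪u p, dS φ 1 p⟫ :=
    integrable_tf huc (hφ.dS 1) hC.isOpen (B := fun z w => ⟪z, w⟫) hB fun z => inner_zero_right z
  have i2 : Integrable fun p => ⟪u p, dS φ Complex.I p⟫ :=
    integrable_tf huc (hφ.dS Complex.I) hC.isOpen (B := fun z w => ⟪z, w⟫) hB fun z => inner_zero_right z
  have h3 : ∀ p, ⟪u p, dS φ e p⟫ = e.re * ⟪u p, dS φ 1 p⟫ + e.im * ⟪u p, dS φ Complex.I p⟫ := by
    intro p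
    have h4 : ((0 : ℝ), e) = e.re • ((0 : ℝ), (1 : ℂ)) + e.im • ((0 : ℝ), Complex.I) := by
      apply Prod.ext
      · simp
      · show e = e.re • (1 : ℂ) + e.im • Complex.I
        conv_lhs => rw [← Complex.re_add_im e]
        rw [Complex.real_smul, Complex.real_smul, mul_one]
    have h5 : dS φ e p = e.re • dS φ 1 p + e.im • dS φ Complex.I p := by
      show fderiv ℝ φ p (0, e) = _
      rw [h4, map_add, map_smul, map_smul]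
      rfl
    rw [h5, inner_add_right, inner_smul_right, inner_smul_right]
  simp only [h3]
  rw [integral_add (i1.const_mul _) (i2.const_mul _), integral_const_mul, integral_const_mul]
  have hre : |e.re| ≤ 1 := (Complex.abs_re_le_norm e).trans he
  have him : |e.im| ≤ 1 := (Complex.abs_im_le_norm e).trans he
  calc _ ≤ |e.re * ∫ p, ⟪u p, dS φ 1 p⟫| + |e.im * ∫ p, ⟪u p, dS φ Complex.I p⟫| := abs_add_le _ _
    _ = |e.re| * |∫ p, ⟪u p, dS φ 1 p⟫| + |e.im| * |∫ p, ⟪u p, dS φ Complex.I p⟫| := by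
        rw [abs_mul, abs_mul]
    _ ≤ 1 * (C1 * √(∫ p, ‖φ p‖ ^ 2)) + 1 * (C2 * √(∫ p, ‖φ p‖ ^ 2)) := by
        refine add_le_add ?_ ?_
        · exact mul_le_mul hre (b1 φ hφ) (abs_nonneg _) zero_le_one
        · exact mul_le_mul him (b2 φ hφ) (abs_nonneg _) zero_le_one
    _ = _ := by ring

end

end Pool.Agent.Lib.MP_79abb3_an.SC
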