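import Pool.Agent.Lib.MP_79abb3_an.SC.PieceGlue

/-!
Theorem C: `t ↦ lG` is continuous along a piece; gluing, time shift, zero piece.
-/

set_option autoImplicit false

open MeasureTheory Set Filter Topology Function

namespace Pool.Agent.Lib.MP_79abb3_an.SC

section
variable {H h : ℝ} {a : ℝ × ℝ → ℝ} {t₀ t₁ t₂ : ℝ} {v w v' w' : ℝ → ℝ × ℝ → ℝ}

theorem cont_mul_supp {S : Set ℝ} {f : ℝ → ℝ × ℝ → ℝ} {χ : ℝ × ℝ → ℝ}
    (hf : ContinuousOn (uncurry f) (S ×ˢ (univ ×ˢ Icc 0 h))) (hχ : Continuous χ)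
    (hs : tsupport χ ⊆ univ ×ˢ Ioo 0 h) : ContinuousOn (uncurry fun t q => f t q * χ q) (S ×ˢ univ) := by
  rintro ⟨t, q⟩ ⟨ht, -⟩
  by_cases hq : q ∈ tsupport χ
  · have ho : IsOpen (univ ×ˢ Ioo 0 h : Set (ℝ × ℝ)) := isOpen_univ.prod isOpen_Ioo
    have hm := hs hq
    have h1 : ContinuousWithinAt (uncurry f) (S ×ˢ (univ ×ˢ Icc 0 h)) (t, q) :=
      hf (t, q) ⟨ht, hm.1, hm.2.1.le, hm.2.2.le⟩
    have h2 : S ×ˢ (univ ×ˢ Icc 0 h : Set (ℝ × ℝ)) ∈ 𝓝[S ×ˢ univ] (t, q) := by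
      rw [nhdsWithin_prod_eq, nhdsWithin_univ]
      refine prod_mem_prod self_mem_nhdsWithin (mem_of_superset (ho.mem_nhds hm) ?_)
      exact prod_mono subset_rfl Ioo_subset_Icc_self
    have h3 : ContinuousWithinAt (uncurry f) (S ×ˢ univ) (t, q) := h1.mono_of_mem_nhdsWithin h2
    exact h3.mul (hχ.comp continuous_snd).continuousWithinAt
  · have hz : χ =ᶠ[𝓝 q] fun _ => 0 := notMem_tsupport_iff_eventuallyEq.1 hq
    have h1 : (uncurry fun t q => f t q * χ q) =ᶠ[𝓝 (t, q)] fun _ => 0 := by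
      have h2 : ∀ᶠ p in 𝓝 (t, q), χ p.2 = 0 :=
        (continuous_snd.tendsto (t, q)).eventually hz
      filter_upwards [h2] with p hp
      show f p.1 p.2 * χ p.2 = 0
      rw [hp, mul_zero]
    exact (continuousAt_const.congr h1.symm).continuousWithinAt

theorem cont_int_supp {S : Set ℝ} {f : ℝ → ℝ × ℝ → ℝ} {χ : ℝ × ℝ → ℝ}
    (hf : ContinuousOn (uncurry f) (S ×ˢ (univ ×ˢ Icc 0 h))) (hχ : Continuous χ)
    (hc : HasCompactSupport χ) (hs : tsupport χ ⊆ univ ×ˢ Ioo 0 h) :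
    ContinuousOn (fun t => ∫ q, f t q * χ q) S :=
  continuousOn_integral_of_compact_support hc (cont_mul_supp hf hχ hs) fun _ q _ hq => by
    rw [image_eq_zero_of_notMem_tsupport hq, mul_zero]

theorem integrable_supp {t : ℝ} {S : Set ℝ} (ht : t ∈ S) {f : ℝ → ℝ × ℝ → ℝ} {χ : ℝ × ℝ → ℝ}
    (hf : ContinuousOn (uncurry f) (S ×ˢ (univ ×ˢ Icc 0 h))) (hχ : Continuous χ)
    (hc : HasCompactSupport χ) (hs : tsupport χ ⊆ univ ×ˢ Ioo 0 h) :
    Integrable fun q => f t q * χ q := by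
  have h1 : Continuous fun q => f t q * χ q := by
    have := cont_mul_supp hf hχ hs
    rw [← continuousOn_univ]
    exact this.comp (f := fun q : ℝ × ℝ => (t, q)) (by fun_prop) fun q _ => ⟨ht, trivial⟩
  exact h1.integrable_of_hasCompactSupport hc.mul_left

theorem cd_gy {g : ℝ × ℝ → ℝ} (hg : ContDiff ℝ ((⊤ : ℕ∞) : WithTop ℕ∞) g) :
    ContDiff ℝ ((⊤ : ℕ∞) : WithTop ℕ∞) (gy g) := by
  have h1 : ContDiff ℝ ((⊤ : ℕ∞) : WithTop ℕ∞) (fderiv ℝ g) := hg.fderiv_right (by simp)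
  exact h1.clm_apply contDiff_const

theorem cd_gz {g : ℝ × ℝ → ℝ} (hg : ContDiff ℝ ((⊤ : ℕ∞) : WithTop ℕ∞) g) :
    ContDiff ℝ ((⊤ : ℕ∞) : WithTop ℕ∞) (gz g) := by
  have h1 : ContDiff ℝ ((⊤ : ℕ∞) : WithTop ℕ∞) (fderiv ℝ g) := hg.fderiv_right (by simp)
  exact h1.clm_apply contDiff_const

theorem cd_lapg {g : ℝ × ℝ → ℝ} (hg : ContDiff ℝ ((⊤ : ℕ∞) : WithTop ℕ∞) g) :
    ContDiff ℝ ((⊤ : ℕ∞) : WithTop ℕ∞) (lapg g) := (cd_gy (cd_gy hg)).add (cd_gz (cd_gz hg))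

/-- `a g` is `C¹` if `a` is `C¹` on `{0 < z < h}` and `g` is supported there. -/
theorem cd_mul {g : ℝ × ℝ → ℝ} (ha : ContDiffOn ℝ 1 a (univ ×ˢ Ioo 0 h))
    (hg : ContDiff ℝ ((⊤ : ℕ∞) : WithTop ℕ∞) g) (hs : tsupport g ⊆ univ ×ˢ Ioo 0 h) :
    ContDiff ℝ 1 fun p => a p * g p := by
  rw [contDiff_iff_contDiffAt]
  intro q
  by_cases hq : q ∈ tsupport g
  · have ho : IsOpen (univ ×ˢ Ioo 0 h : Set (ℝ × ℝ)) := isOpen_univ.prod isOpen_Ioo
    exact ((ha q (hs hq)).contDiffAt (ho.mem_nhds (hs hq))).mul ((hg.of_le (by simp)).contDiffAt)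
  · have hz : g =ᶠ[𝓝 q] fun _ => 0 := notMem_tsupport_iff_eventuallyEq.1 hq
    have h1 : (fun p => a p * g p) =ᶠ[𝓝 q] fun _ => 0 := by
      filter_upwards [hz] with p hp
      rw [hp, mul_zero]
    exact contDiffAt_const.congr_of_eventuallyEq h1

theorem cont_gy {f : ℝ × ℝ → ℝ} (hf : ContDiff ℝ 1 f) : Continuous (gy f) :=
  (hf.continuous_fderiv one_ne_zero).clm_apply continuous_const

theorem cont_gz {f : ℝ × ℝ → ℝ} (hf : ContDiff ℝ 1 f) : Continuous (gz f) :=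
  (hf.continuous_fderiv one_ne_zero).clm_apply continuous_const

theorem lG_cont {S : Set ℝ} (ha : ContDiffOn ℝ 1 a (univ ×ˢ Ioo 0 h))
    (hv : ContinuousOn (uncurry v) (S ×ˢ (univ ×ˢ Icc 0 h)))
    (hw : ContinuousOn (uncurry w) (S ×ˢ (univ ×ˢ Icc 0 h))) {g : ℝ × ℝ → ℝ} (hg : IsTg H h g) :
    ContinuousOn (fun t => lG a g (v t) (w t)) S := by
  have hsg : tsupport g ⊆ univ ×ˢ Ioo 0 h := hg.supp.trans (prod_mono (subset_univ _) subset_rfl)
  have hsup : ∀ {χ : ℝ × ℝ → ℝ}, tsupport χ ⊆ tsupport g →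
      HasCompactSupport χ ∧ tsupport χ ⊆ univ ×ˢ Ioo 0 h := fun h1 =>
    ⟨hg.cpt.of_isClosed_subset (isClosed_tsupport _) h1, h1.trans hsg⟩
  have cL := cd_mul ha (cd_lapg hg.smooth) ((tsupport_lapg g).trans hsg)
  have cZ := cd_mul ha (cd_gz hg.smooth) ((tsupport_gz g).trans hsg)
  have cY := cd_mul ha (cd_gy hg.smooth) ((tsupport_gy g).trans hsg)
  have sL : tsupport (fun p => a p * lapg g p) ⊆ tsupport g :=
    (tsupport_mul_r a _).trans (tsupport_lapg g)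
  have sZ : tsupport (fun p => a p * gz g p) ⊆ tsupport g := (tsupport_mul_r a _).trans (tsupport_gz g)
  have sY : tsupport (fun p => a p * gy g p) ⊆ tsupport g := (tsupport_mul_r a _).trans (tsupport_gy g)
  obtain ⟨k1, s1⟩ := hsup ((tsupport_gz _).trans sL)
  obtain ⟨k2, s2⟩ := hsup ((tsupport_gy _).trans sL)
  obtain ⟨k3, s3⟩ := hsup ((tsupport_gz _).trans sZ)
  obtain ⟨k4, s4⟩ := hsup ((tsupport_gy _).trans sY)
  obtain ⟨k5, s5⟩ := hsup ((tsupport_gy _).trans sZ)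
  obtain ⟨k6, s6⟩ := hsup ((tsupport_gz _).trans sY)
  have hvw : ContinuousOn (uncurry fun t q => v t q * w t q) (S ×ˢ (univ ×ˢ Icc 0 h)) := hv.mul hw
  have hR : ContinuousOn (uncurry fun t q => (w t q ^ 2 - v t q ^ 2) / 2) (S ×ˢ (univ ×ˢ Icc 0 h)) :=
    ((hw.pow 2).sub (hv.pow 2)).div_const 2
  have main : ∀ t ∈ S, lG a g (v t) (w t) =
      ((∫ q, v t q * gz (fun p => a p * lapg g p) q) - ∫ q, w t q * gy (fun p => a p * lapg g p) q) +
      (((∫ q, (v t q * w t q) * gz (fun p => a p * gz g p) q) -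
        ∫ q, (v t q * w t q) * gy (fun p => a p * gy g p) q) -
      ((∫ q, ((w t q ^ 2 - v t q ^ 2) / 2) * gy (fun p => a p * gz g p) q) +
        ∫ q, ((w t q ^ 2 - v t q ^ 2) / 2) * gz (fun p => a p * gy g p) q)) := by
    intro t ht
    have i1 := integrable_supp ht hv (cont_gz cL) k1 s1
    have i2 := integrable_supp ht hw (cont_gy cL) k2 s2
    have i3 := integrable_supp ht hvw (cont_gz cZ) k3 s3
    have i4 := integrable_supp ht hvw (cont_gy cY) k4 s4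
    have i5 := integrable_supp ht hR (cont_gy cZ) k5 s5
    have i6 := integrable_supp ht hR (cont_gz cY) k6 s6
    have j1 := i1.sub i2
    have j2 := i3.sub i4
    have j3 := i5.add i6
    have j4 := j2.sub j3
    have e1 := integral_sub i1 i2
    have e2 := integral_sub i3 i4
    have e3 := integral_add i5 i6
    have e4 := integral_sub j2 j3
    have e5 := integral_add j1 j4
    simp only [Pi.sub_apply, Pi.add_apply] at e4 e5
    rw [← e1, ← e2, ← e3, ← e4, ← e5, lG]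
    congr 1
    ext q
    ring
  refine ContinuousOn.congr ?_ main
  exact ((cont_int_supp hv (cont_gz cL) k1 s1).sub (cont_int_supp hw (cont_gy cL) k2 s2)).add
    (((cont_int_supp hvw (cont_gz cZ) k3 s3).sub (cont_int_supp hvw (cont_gy cY) k4 s4)).sub
      ((cont_int_supp hR (cont_gy cZ) k5 s5).add (cont_int_supp hR (cont_gz cY) k6 s6)))

/-- Gluing of two pieces given by the same functions. -/
theorem Piece.glue (ha : ContDiffOn ℝ 1 a (univ ×ˢ Ioo 0 h)) (P : Piece H h a t₀ t₁ v w)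
    (P' : Piece H h a t₁ t₂ v w) (h01 : t₀ ≤ t₁) (h12 : t₁ ≤ t₂) : Piece H h a t₀ t₂ v w :=
  P.join P' h01 h12
    (fun _ hg => ContinuousOn.intervalIntegrable_of_Icc h01 (lG_cont ha P.cont₁ P.cont₂ hg))
    (fun _ hg => ContinuousOn.intervalIntegrable_of_Icc h12 (lG_cont ha P'.cont₁ P'.cont₂ hg))

/-- Gluing of two pieces which agree at the common time. -/
theorem Piece.glue' (ha : ContDiffOn ℝ 1 a (univ ×ˢ Ioo 0 h)) (P : Piece H h a t₀ t₁ v w)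
    (P' : Piece H h a t₁ t₂ v' w') (h01 : t₀ ≤ t₁) (h12 : t₁ ≤ t₂)
    (hv : ∀ q : ℝ × ℝ, q.2 ∈ Icc 0 h → v' t₁ q = v t₁ q)
    (hw : ∀ q : ℝ × ℝ, q.2 ∈ Icc 0 h → w' t₁ q = w t₁ q) :
    Piece H h a t₀ t₂ (fun t => if t ≤ t₁ then v t else v' t) (fun t => if t ≤ t₁ then w t else w' t) := by
  refine Piece.glue ha (P.congr ?_ ?_) (P'.congr ?_ ?_) h01 h12
  · intro t ht q _
    show (if t ≤ t₁ then v t else v' t) q = v t q
    rw [if_pos ht.2]
  · intro t ht q _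
    show (if t ≤ t₁ then w t else w' t) q = w t q
    rw [if_pos ht.2]
  · intro t ht q hq
    show (if t ≤ t₁ then v t else v' t) q = v' t q
    by_cases h : t ≤ t₁
    · have e : t = t₁ := le_antisymm h ht.1
      rw [if_pos h, e, hv q hq]
    · rw [if_neg h]
  · intro t ht q hq
    show (if t ≤ t₁ then w t else w' t) q = w' t q
    by_cases h : t ≤ t₁
    · have e : t = t₁ := le_antisymm h ht.1
      rw [if_pos h, e, hw q hq]
    · rw [if_neg h]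

/-- Time shift. -/
theorem Piece.shift (P : Piece H h a t₀ t₁ v w) (s : ℝ) :
    Piece H h a (t₀ + s) (t₁ + s) (fun t => v (t - s)) (fun t => w (t - s)) := by
  have hm : ∀ {t : ℝ}, t ∈ Icc (t₀ + s) (t₁ + s) → t - s ∈ Icc t₀ t₁ := fun ht =>
    ⟨by linarith [ht.1], by linarith [ht.2]⟩
  constructor
  · have h1 : ContinuousOn (fun p : ℝ × ℝ × ℝ => (p.1 - s, p.2)) (Icc (t₀ + s) (t₁ + s) ×ˢ (univ ×ˢ Icc 0 h)) := by
      fun_prop
    exact P.cont₁.comp h1 fun p hp => ⟨hm hp.1, hp.2⟩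
  · have h1 : ContinuousOn (fun p : ℝ × ℝ × ℝ => (p.1 - s, p.2)) (Icc (t₀ + s) (t₁ + s) ×ˢ (univ ×ˢ Icc 0 h)) := by
      fun_prop
    exact P.cont₂.comp h1 fun p hp => ⟨hm hp.1, hp.2⟩
  · obtain ⟨C, hC⟩ := P.h1
    exact ⟨C, fun t ht φ hφ => hC (t - s) (hm ht) φ hφ⟩
  · exact fun t ht φ hφ => P.div (t - s) (hm ht) φ hφ
  · intro g hg s₁ h₁ s₂ h₂
    have := P.ns g hg (s₁ - s) (hm h₁) (s₂ - s) (hm h₂)
    rw [this]
    exact (intervalIntegral.integral_comp_sub_right (fun t => lG a g (v t) (w t)) s).symm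

/-- The zero piece. -/
theorem Piece.zero : Piece H h a t₀ t₁ (fun _ _ => 0) (fun _ _ => 0) where
  cont₁ := continuousOn_const
  cont₂ := continuousOn_const
  h1 := ⟨0, fun t _ φ _ => by simp⟩
  div := fun t _ φ _ => by simp
  ns := by
    intro g _ s₁ _ s₂ _
    have h1 : ∀ t : ℝ, lG a g (fun _ => 0) (fun _ => 0) = 0 := fun t => by simp [lG]
    simp [mG, lG]

theorem Piece.mono {s₀ s₁ : ℝ} (P : Piece H h a t₀ t₁ v w) (h0 : t₀ ≤ s₀) (h1 : s₁ ≤ t₁) :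
    Piece H h a s₀ s₁ v w where
  cont₁ := P.cont₁.mono (prod_mono (Icc_subset_Icc h0 h1) subset_rfl)
  cont₂ := P.cont₂.mono (prod_mono (Icc_subset_Icc h0 h1) subset_rfl)
  h1 := by
    obtain ⟨C, hC⟩ := P.h1
    exact ⟨C, fun t ht => hC t (Icc_subset_Icc h0 h1 ht)⟩
  div := fun t ht => P.div t (Icc_subset_Icc h0 h1 ht)
  ns := fun g hg s h2 s' h3 => P.ns g hg s (Icc_subset_Icc h0 h1 h2) s' (Icc_subset_Icc h0 h1 h3)

end

end Pool.Agent.Lib.MP_79abb3_an.SC
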