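import Pool.Agent.Lib.MP_79abb3_an.SC.ChFinD
import Pool.Agent.Lib.MP_79abb3_an.SC.PieceInt

/-!
Theorem C (MP_79abb3_an), block (v): a piece of trajectory on `[0,T]` is a solution in the strip.
-/

set_option autoImplicit false
set_option linter.unusedSectionVars false
set_option linter.unusedSimpArgs false

open MeasureTheory Set Filter Topology Function
open scoped RealInnerProductSpace ComplexConjugate

namespace Pool.Agent.Lib.MP_79abb3_an.SC

section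
variable {T H h : ℝ} {v w : ℝ → ℝ × ℝ → ℝ}

/-- **A piece of trajectory on `[0,T]` is a solution in the strip.** -/
theorem Piece.strip {a : ℝ × ℝ → ℝ} (P : Piece H h a 0 T v w) (hT : 0 < T) :
    StripSol H h a T v w (v 0) (w 0) := by
  have m0 : (0:ℝ) ∈ Icc 0 T := ⟨le_rfl, hT.le⟩
  have hK : IsCompact (Icc 0 T ×ˢ (Icc (-H) H ×ˢ Icc 0 h) : Set (ℝ × (ℝ × ℝ))) :=
    isCompact_Icc.prod (isCompact_Icc.prod isCompact_Icc)
  have hKc : IsCompact (Icc (-H) H ×ˢ Icc 0 h : Set (ℝ × ℝ)) := isCompact_Icc.prod isCompact_Icc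
  have : IsFiniteMeasure (volume.restrict (Icc (-H) H ×ˢ Icc 0 h : Set (ℝ × ℝ))) :=
    ⟨by rw [Measure.restrict_apply_univ]; exact hKc.measure_lt_top⟩
  have sub1 : (Icc 0 T ×ˢ (Icc (-H) H ×ˢ Icc 0 h) : Set (ℝ × (ℝ × ℝ))) ⊆
      Icc 0 T ×ˢ (univ ×ˢ Icc 0 h) := prod_mono subset_rfl (prod_mono (subset_univ _) subset_rfl)
  obtain ⟨M₁, hM₁⟩ := hK.exists_bound_of_continuousOn (P.cont₁.mono sub1)
  obtain ⟨M₂, hM₂⟩ := hK.exists_bound_of_continuousOn (P.cont₂.mono sub1)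
  have sv : ∀ t ∈ Icc 0 T, ContinuousOn (v t) (univ ×ˢ Icc 0 h) := fun t ht =>
    P.cont₁.comp (f := fun q : ℝ × ℝ => (t, q)) (by fun_prop) fun q hq => ⟨ht, hq⟩
  have sw : ∀ t ∈ Icc 0 T, ContinuousOn (w t) (univ ×ˢ Icc 0 h) := fun t ht =>
    P.cont₂.comp (f := fun q : ℝ × ℝ => (t, q)) (by fun_prop) fun q hq => ⟨ht, hq⟩
  have cv : ContinuousOn (uncurry v) (Ioc 0 T ×ˢ (univ ×ˢ Icc 0 h)) :=
    P.cont₁.mono (prod_mono Ioc_subset_Icc_self subset_rfl)
  have cw : ContinuousOn (uncurry w) (Ioc 0 T ×ˢ (univ ×ˢ Icc 0 h)) :=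
    P.cont₂.mono (prod_mono Ioc_subset_Icc_self subset_rfl)
  constructor
  · exact fun t₁ ht => P.mono ht.1.le le_rfl
  · obtain ⟨C, hC⟩ := P.h1
    set D : ℝ := |C| with hD
    have hD0 : 0 ≤ D := abs_nonneg C
    have d1 : C ≤ D := le_abs_self C
    refine ⟨D * √T, fun φ hφ => ?_⟩
    have key : ∀ {f : ℝ → ℝ × ℝ → ℝ} {X : ℝ × (ℝ × ℝ) → ℝ},
        ContinuousOn (uncurry f) (Ioc 0 T ×ˢ (univ ×ˢ Icc 0 h)) → IsTs T H h X →
        (∀ t ∈ Ioo 0 T, |∫ q, f t q * X (t, q)| ≤ D * √(∫ q, φ (t, q) ^ 2)) →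
        |∫ p, f p.1 p.2 * X p| ≤ D * √T * √(∫ p, φ p ^ 2) := fun hf hX hb =>
      time_bound hT.le hf hφ hX hD0 hb
    have hsub : ∀ {t : ℝ}, t ∈ Ioo 0 T → t ∈ Icc 0 T := fun h => Ioo_subset_Icc_self h
    have e1 : ∀ t, gy (fun q => φ (t, q)) = fun q => sy φ (t, q) := fun t => slice_gy hφ.diff t
    have e2 : ∀ t, gz (fun q => φ (t, q)) = fun q => sz φ (t, q) := fun t => slice_gz hφ.diff t
    have hup : ∀ {x y : ℝ}, x ≤ D → 0 ≤ y → x * y ≤ D * y := fun h1 h2 =>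
      mul_le_mul_of_nonneg_right h1 h2
    refine ⟨key cv hφ.sy fun t ht => ?_, key cv hφ.sz fun t ht => ?_, key cw hφ.sy fun t ht => ?_,
      key cw hφ.sz fun t ht => ?_⟩
    · have := (hC t (hsub ht) _ (hφ.slice t)).1
      rw [e1] at this
      exact this.trans (hup d1 (Real.sqrt_nonneg _))
    · have := (hC t (hsub ht) _ (hφ.slice t)).2.1
      rw [e2] at this
      exact this.trans (hup d1 (Real.sqrt_nonneg _))
    · have := (hC t (hsub ht) _ (hφ.slice t)).2.2.1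
      rw [e1] at this
      exact this.trans (hup d1 (Real.sqrt_nonneg _))
    · have := (hC t (hsub ht) _ (hφ.slice t)).2.2.2
      rw [e2] at this
      exact this.trans (hup d1 (Real.sqrt_nonneg _))
  · refine ⟨(|M₁| ^ 2 + |M₂| ^ 2) *
      (volume : Measure (ℝ × ℝ)).real (Icc (-H) H ×ˢ Icc 0 h), fun t ht => ?_⟩
    have ht' : t ∈ Icc 0 T := Ioc_subset_Icc_self ht
    have h1 : ∫ q in Icc (-H) H ×ˢ Icc 0 h, (v t q ^ 2 + w t q ^ 2) ≤
        ∫ q in (Icc (-H) H ×ˢ Icc 0 h : Set (ℝ × ℝ)), (|M₁| ^ 2 + |M₂| ^ 2) := by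
      refine setIntegral_mono_on (integrableOn_sq (memLp_cell (sv t ht')) (memLp_cell (sw t ht')))
        (integrable_const _) hKc.measurableSet fun q hq => ?_
      have h2 : |v t q| ≤ |M₁| := (hM₁ (t, q) ⟨ht', hq⟩).trans (le_abs_self _)
      have h3 : |w t q| ≤ |M₂| := (hM₂ (t, q) ⟨ht', hq⟩).trans (le_abs_self _)
      rw [← sq_abs (v t q), ← sq_abs (w t q)]
      gcongr
    refine h1.trans (le_of_eq ?_)
    rw [setIntegral_const, smul_eq_mul, mul_comm]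
  · exact memLp_cell (sv 0 m0)
  · exact memLp_cell (sw 0 m0)
  · have h1 : ContinuousWithinAt (fun t => ∫ q in (Icc (-H) H ×ˢ Icc 0 h : Set (ℝ × ℝ)),
        ((v t q - v 0 q) ^ 2 + (w t q - w 0 q) ^ 2)) (Icc 0 T) 0 := by
      refine continuousWithinAt_of_dominated (bound := fun _ => (2 * |M₁|) ^ 2 + (2 * |M₂|) ^ 2)
        ?_ ?_ (integrable_const _) ?_
      · filter_upwards [self_mem_nhdsWithin] with t ht
        exact (integrableOn_sq ((memLp_cell (sv t ht)).sub (memLp_cell (sv 0 m0)))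
          ((memLp_cell (sw t ht)).sub (memLp_cell (sw 0 m0)))).aestronglyMeasurable
      · filter_upwards [self_mem_nhdsWithin] with t ht
        rw [ae_restrict_iff' hKc.measurableSet]
        refine Eventually.of_forall fun q hq => ?_
        have b1 : |v t q| ≤ |M₁| := (hM₁ (t, q) ⟨ht, hq⟩).trans (le_abs_self _)
        have b2 : |w t q| ≤ |M₂| := (hM₂ (t, q) ⟨ht, hq⟩).trans (le_abs_self _)
        have b3 : |v 0 q| ≤ |M₁| := (hM₁ (0, q) ⟨m0, hq⟩).trans (le_abs_self _)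
        have b4 : |w 0 q| ≤ |M₂| := (hM₂ (0, q) ⟨m0, hq⟩).trans (le_abs_self _)
        have b5 : |v t q - v 0 q| ≤ 2 * |M₁| := (abs_sub _ _).trans (by linarith)
        have b6 : |w t q - w 0 q| ≤ 2 * |M₂| := (abs_sub _ _).trans (by linarith)
        rw [Real.norm_eq_abs, abs_of_nonneg (by positivity), ← sq_abs (v t q - v 0 q),
          ← sq_abs (w t q - w 0 q)]
        gcongr
      · rw [ae_restrict_iff' hKc.measurableSet]
        refine Eventually.of_forall fun q hq => ?_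
        have hq' : q ∈ (univ ×ˢ Icc 0 h : Set (ℝ × ℝ)) := ⟨trivial, hq.2⟩
        have c1 : ContinuousOn (fun t => v t q) (Icc 0 T) :=
          P.cont₁.comp (f := fun t : ℝ => (t, q)) (by fun_prop) fun t ht => ⟨ht, hq'⟩
        have c2 : ContinuousOn (fun t => w t q) (Icc 0 T) :=
          P.cont₂.comp (f := fun t : ℝ => (t, q)) (by fun_prop) fun t ht => ⟨ht, hq'⟩
        exact ((((c1.sub continuousOn_const).pow 2).add ((c2.sub continuousOn_const).pow 2)) 0 m0)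
    have h2 : ∫ q in (Icc (-H) H ×ˢ Icc 0 h : Set (ℝ × ℝ)),
        ((v 0 q - v 0 q) ^ 2 + (w 0 q - w 0 q) ^ 2) = 0 := by simp
    have h3 := h1.tendsto
    rw [h2] at h3
    exact h3.mono_left (nhdsWithin_le_of_mem (Icc_mem_nhdsGT hT))

end

end Pool.Agent.Lib.MP_79abb3_an.SC
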