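import Pool.Agent.Lib.MP_79abb3_an.SC.FcB

/-!
Theorem C (MP_79abb3_an), block (v), disc to half plane, part a: a bump function on the circle with
rapidly decreasing Fourier coefficients.
-/

set_option autoImplicit false
set_option linter.unusedSectionVars false

open MeasureTheory Set Filter Topology Function
open scoped ComplexConjugate

namespace Pool.Agent.Lib.MP_79abb3_an.SC

open Pool.Agent.Lib.MP_79abb3_an.P25

/-- A nonnegative bump function `φ` near `θ = 0` with Fourier coefficients `c n`.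
Proof. Let `δ' = min δ 1`, `φ` a smooth function on `ℝ` with `φ ≥ 0`, `φ 0 = 1`, `φ θ = 0` for
`|θ| ≥ δ'` (`ContDiffBump (0:ℝ)` with radii `δ'/2 < δ'`). Use the cell `H = π`
(`haveI : Fact (0 < Real.pi) := ⟨Real.pi_pos⟩`): `F p = φ p.1` is in the class `PY π F` by `PY.of_van`
(with `ε = π - δ' > 0`). Put `c n = ex (fam F n : CI π) 0`. Decay: `fam_sum` and `norm_ex_le`.
Symmetry: `fam_neg_n` and `ex_star`. Inversion: `fam_inv` at `z = 0` (`π / π = 1`). -/
theorem exists_coef {δ : ℝ} (hδ : 0 < δ) : ∃ (φ : ℝ → ℝ) (c : ℤ → ℂ),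
    (∀ k : ℕ, Summable fun n : ℤ => (1 + |(n:ℝ)|) ^ k * ‖c n‖) ∧ (∀ n, c (-n) = conj (c n)) ∧
    (∀ θ ∈ Icc (-Real.pi) Real.pi,
      HasSum (fun n : ℤ => c n * Complex.exp (Complex.I * ((n * θ : ℝ) : ℂ))) ((φ θ : ℝ) : ℂ)) ∧
    (∀ θ, 0 ≤ φ θ) ∧ 0 < φ 0 ∧ ∀ θ, δ ≤ |θ| → φ θ = 0 := by
  have hpi := Real.pi_pos
  have hpi3 := Real.pi_gt_three
  have : Fact (0 < Real.pi) := ⟨hpi⟩
  set δ' : ℝ := min δ 1 with hδ'
  have hδ0 : 0 < δ' := lt_min hδ one_pos
  let φ : ContDiffBump (0:ℝ) := ⟨δ' / 2, δ', by positivity, by linarith⟩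
  have hvan : ∀ θ, δ' ≤ |θ| → φ θ = 0 := by
    intro θ hθ
    apply φ.zero_of_le_dist
    rw [Real.dist_eq, sub_zero]
    exact hθ
  set F : ℝ × ℝ → ℝ := fun p => φ p.1 with hF
  have hFs : ContDiff ℝ ((⊤ : ℕ∞) : WithTop ℕ∞) F := φ.contDiff.comp contDiff_fst
  have hPY : PY Real.pi F := by
    refine PY.of_van (ε := Real.pi - δ') ?_ hpi hFs fun y z hy => ?_
    · have := min_le_right δ 1
      rw [← hδ'] at this
      linarith
    · apply hvan
      linarith
  have h0 : (0:ℝ) ∈ Icc (0:ℝ) Real.pi := ⟨le_rfl, hpi.le⟩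
  refine ⟨φ, fun n => ex (fam F n : CI Real.pi) 0, ?_, ?_, ?_, ?_, ?_, ?_⟩
  · intro k
    refine Summable.of_nonneg_of_le (fun n => by positivity) (fun n => ?_) (fam_sum hPY k)
    exact mul_le_mul_of_nonneg_left (norm_ex_le _ _) (by positivity)
  · intro n
    change ex (fam F (-n) : CI Real.pi) 0 = conj (ex (fam F n : CI Real.pi) 0)
    rw [fam_neg_n hFs.continuous n, ex_star]
    rfl
  · intro θ hθ
    have h := fam_inv hPY (y := θ) (z := 0) hθ h0
    have e : (fun n : ℤ => ex (fam F n : CI Real.pi) 0 *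
        Complex.exp (Complex.I * ((n * θ : ℝ) : ℂ))) =
        fun n => ex (fam F n : CI Real.pi) 0 * ee (Real.pi / Real.pi) n θ := by
      funext n
      rw [ee, div_self hpi.ne', one_mul]
    rw [e]
    exact h
  · intro θ
    exact φ.nonneg
  · have h1 : φ 0 = 1 := φ.one_of_mem_closedBall (by simp [φ]; positivity)
    rw [h1]
    exact one_pos
  · intro θ hθ
    exact hvan θ ((min_le_left _ _).trans hθ)

end Pool.Agent.Lib.MP_79abb3_an.SC
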