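import Pool.Agent.Lib.MP_79abb3_an.SC.ChPb
import Pool.Agent.Lib.MP_79abb3_an.SC.ChStream

/-!
Theorem C (MP_79abb3_an), block (v): the pull back of the viscous and convective terms.
-/

set_option autoImplicit false
set_option linter.unusedSectionVars false
set_option linter.unusedSimpArgs false

open MeasureTheory Set Filter Topology Function
open scoped RealInnerProductSpace ComplexConjugate

namespace Pool.Agent.Lib.MP_79abb3_an.SC

section
variable {F : ℂ → ℂ} {O Ω Γ : Set ℂ} {r T : ℝ}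

section tf
variable {E : Type*} [NormedAddCommGroup E] [NormedSpace ℝ E]

theorem IsTf.fd {φ : ℝ × ℂ → E} (hφ : IsTf T Ω φ) (e : ℝ × ℂ) :
    IsTf T Ω (fun p => fderiv ℝ φ p e) :=
  ⟨(hφ.smooth.fderiv_right (by simp)).clm_apply contDiff_const,
    hφ.cpt.of_isClosed_subset (isClosed_tsupport _) (tsupport_fd φ e),
    (tsupport_fd φ e).trans hφ.supp⟩

theorem IsTf.diff {φ : ℝ × ℂ → E} (hφ : IsTf T Ω φ) : Differentiable ℝ φ :=
  hφ.smooth.differentiable (by simp)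

theorem IsTf.dS {φ : ℝ × ℂ → E} (hφ : IsTf T Ω φ) (e : ℂ) : IsTf T Ω (dS φ e) := hφ.fd _
theorem IsTf.dT {φ : ℝ × ℂ → E} (hφ : IsTf T Ω φ) : IsTf T Ω (dT φ) := hφ.fd _

theorem IsTf.clm {E' : Type*} [NormedAddCommGroup E'] [NormedSpace ℝ E'] {φ : ℝ × ℂ → E}
    (hφ : IsTf T Ω φ) (L : E →L[ℝ] E') : IsTf T Ω (fun p => L (φ p)) :=
  ⟨L.contDiff.comp hφ.smooth, hφ.cpt.comp_left (g := L) (map_zero L),
    (tsupport_comp_subset (g := L) (map_zero L) φ).trans hφ.supp⟩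

theorem IsTf.sub {φ ψ : ℝ × ℂ → E} (hφ : IsTf T Ω φ) (hψ : IsTf T Ω ψ) :
    IsTf T Ω (fun p => φ p - ψ p) :=
  ⟨hφ.smooth.sub hψ.smooth, hφ.cpt.sub hψ.cpt,
    (tsupport_sub φ ψ).trans (union_subset hφ.supp hψ.supp)⟩

theorem fd_clm {X E' : Type*} [NormedAddCommGroup X] [NormedSpace ℝ X] [NormedAddCommGroup E']
    [NormedSpace ℝ E'] {φ : X → E} {p : X} (hφ : DifferentiableAt ℝ φ p) (L : E →L[ℝ] E') (e : X) :
    fderiv ℝ (fun p => L (φ p)) p e = L (fderiv ℝ φ p e) := by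
  have h1 := (L.hasFDerivAt.comp p hφ.hasFDerivAt).fderiv
  have h2 : (fun p => L (φ p)) = ⇑L ∘ φ := rfl
  rw [h2, h1]
  rfl

end tf

/-- Minus the scalar curl of a field. -/
noncomputable def kap (φ : ℝ × ℂ → ℂ) (p : ℝ × ℂ) : ℝ := (dS φ Complex.I p).re - (dS φ 1 p).im

theorem IsTf.kap {φ : ℝ × ℂ → ℂ} (hφ : IsTf T Ω φ) : IsTf T Ω (kap φ) :=
  ((hφ.dS Complex.I).clm Complex.reCLM).sub ((hφ.dS 1).clm Complex.imCLM)

theorem dS_lin (φ : ℝ × ℂ → ℂ) (p : ℝ × ℂ) (e : ℂ) :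
    dS φ e p = (e.re : ℂ) * dS φ 1 p + (e.im : ℂ) * dS φ Complex.I p := by
  have h2 : ((0 : ℝ), e) = e.re • ((0 : ℝ), (1 : ℂ)) + e.im • ((0 : ℝ), Complex.I) := by
    ext <;> simp
  rw [dS, h2, map_add, map_smul, map_smul, Complex.real_smul, Complex.real_smul]
  rfl

theorem dS_lin' (φ : ℝ × ℂ → ℝ) (p : ℝ × ℂ) (e : ℂ) :
    dS φ e p = e.re * dS φ 1 p + e.im * dS φ Complex.I p := by
  have h2 : ((0 : ℝ), e) = e.re • ((0 : ℝ), (1 : ℂ)) + e.im • ((0 : ℝ), Complex.I) := by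
    ext <;> simp
  rw [dS, h2, map_add, map_smul, map_smul, smul_eq_mul, smul_eq_mul]
  rfl

/-- `Δφ = ∇^⊥ κ` for divergence free fields. -/
theorem lap_eq {φ : ℝ × ℂ → ℂ} (hφ : IsTf T Ω φ) (hdiv : ∀ p, divS φ p = 0) (p : ℝ × ℂ) :
    lapS φ p = ⟨dS (kap φ) Complex.I p, -dS (kap φ) 1 p⟩ := by
  have d1 : ∀ e, DifferentiableAt ℝ (dS φ e) p := fun e => (hφ.dS e).diff p
  have hre : ∀ e f, dS (fun p => (dS φ e p).re) f p = (dS (dS φ e) f p).re := fun e f =>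
    fd_clm (d1 e) Complex.reCLM _
  have him : ∀ e f, dS (fun p => (dS φ e p).im) f p = (dS (dS φ e) f p).im := fun e f =>
    fd_clm (d1 e) Complex.imCLM _
  have hk : ∀ f, dS (kap φ) f p = (dS (dS φ Complex.I) f p).re - (dS (dS φ 1) f p).im := by
    intro f
    rw [← hre, ← him]
    have h1 : DifferentiableAt ℝ (fun p => (dS φ Complex.I p).re) p :=
      ((hφ.dS Complex.I).clm Complex.reCLM).diff p
    have h2 : DifferentiableAt ℝ (fun p => (dS φ 1 p).im) p := ((hφ.dS 1).clm Complex.imCLM).diff p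
    show fderiv ℝ (kap φ) p (0, f) = _
    have h3 : kap φ = fun p => (dS φ Complex.I p).re - (dS φ 1 p).im := rfl
    rw [h3, fderiv_fun_sub h1 h2]
    rfl
  have hd : ∀ f, (dS (dS φ 1) f p).re + (dS (dS φ Complex.I) f p).im = 0 := by
    intro f
    rw [← hre, ← him]
    have h1 : DifferentiableAt ℝ (fun p => (dS φ 1 p).re) p := ((hφ.dS 1).clm Complex.reCLM).diff p
    have h2 : DifferentiableAt ℝ (fun p => (dS φ Complex.I p).im) p :=
      ((hφ.dS Complex.I).clm Complex.imCLM).diff p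
    have h3 : (fun p => (dS φ 1 p).re + (dS φ Complex.I p).im) = fun _ => 0 := funext hdiv
    have h4 : fderiv ℝ (fun p => (dS φ 1 p).re + (dS φ Complex.I p).im) p (0, f) = 0 := by
      rw [h3]; simp
    rw [fderiv_fun_add h1 h2] at h4
    exact h4
  have hsym : dS (dS φ 1) Complex.I p = dS (dS φ Complex.I) 1 p := fd_comm hφ.smooth _ _ _
  have h1 := hd 1
  have h2 := hd Complex.I
  rw [hsym] at h2
  apply Complex.ext
  · show (lapS φ p).re = dS (kap φ) Complex.I p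
    rw [hk, lapS, Complex.add_re, hsym]
    linarith
  · show (lapS φ p).im = -dS (kap φ) 1 p
    rw [hk, lapS, Complex.add_im]
    linarith

/-- The second derivative of `F`. -/
theorem IsChart.exists_dd (hC : IsChart F O Ω Γ r) {ζ : ℂ} (hζ : ζ ∈ O) :
    ∃ d : ℂ, HasDerivAt (dF F) d ζ := by
  have h1 : DifferentiableOn ℂ (deriv F) O := hC.holo.deriv hC.op
  have h2 := (h1.differentiableAt (hC.op.mem_nhds hζ)).hasDerivAt
  refine ⟨_, h2.congr_of_eventuallyEq ?_⟩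
  filter_upwards [hC.op.mem_nhds hζ] with ξ hξ
  exact ((hC.hasDerivAt hξ).deriv).symm

/-- The divergence free field in the strip. -/
noncomputable def Phi (F : ℂ → ℂ) (O : Set ℂ) (φ : ℝ × ℂ → ℂ) (p : ℝ × (ℝ × ℝ)) : ℂ :=
  conj (dF F (cxp p.2)) * pb F O φ p

theorem IsChart.Phi_isTs (hC : IsChart F O Ω Γ r) {φ : ℝ × ℂ → ℂ} (hφ : IsTf T Ω φ) :
    IsTs T (r + 2) (r + 1 / 2) (Phi F O φ) := by
  have h1 := hC.pb_isTs hφ
  have h2 : ContDiff ℝ ((⊤ : ℕ∞) : WithTop ℕ∞) fun p : ℝ × (ℝ × ℝ) => conj (dF F (cxp p.2)) := by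
    have h3 : ContDiff ℝ ((⊤ : ℕ∞) : WithTop ℕ∞) fun p : ℝ × (ℝ × ℝ) => dF F (cxp p.2) :=
      (dF_smooth hC.smooth).comp (cxp_contDiff.comp contDiff_snd)
    exact Complex.conjCLE.contDiff.comp h3
  exact ⟨h2.mul h1.smooth, h1.cpt.mul_left, (tsupport_mul_subset_right).trans h1.supp⟩

theorem IsChart.Phi_tsupport (hC : IsChart F O Ω Γ r) {φ : ℝ × ℂ → ℂ} (hφ : IsTf T Ω φ) :
    tsupport (Phi F O φ) ⊆ {p | cxp p.2 ∈ O} :=
  (tsupport_mul_subset_right).trans (hC.pb_tsupport hφ)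

/-- Derivatives of `Phi` in the strip. -/
theorem IsChart.Phi_fderiv (hC : IsChart F O Ω Γ r) {φ : ℝ × ℂ → ℂ} (hφ : IsTf T Ω φ) {d : ℂ}
    {p : ℝ × (ℝ × ℝ)} (hp : cxp p.2 ∈ O) (hd : HasDerivAt (dF F) d (cxp p.2)) (e : ℝ × ℝ) :
    fderiv ℝ (Phi F O φ) p (0, e) = conj (d * cxp e) * φ (p.1, F (cxp p.2)) +
      conj (dF F (cxp p.2)) * dS φ (dF F (cxp p.2) * cxp e) (p.1, F (cxp p.2)) := by
  have h1 : HasFDerivAt (fun p : ℝ × (ℝ × ℝ) => dF F (cxp p.2))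
      (((ContinuousLinearMap.toSpanSingleton ℂ d).restrictScalars ℝ).comp
        (cxpL.comp (ContinuousLinearMap.snd ℝ ℝ (ℝ × ℝ)))) p := by
    have h0 : HasFDerivAt (dF F) ((ContinuousLinearMap.toSpanSingleton ℂ d).restrictScalars ℝ)
        (cxp p.2) := hd.hasFDerivAt.restrictScalars ℝ
    exact h0.comp p ((cxp_hasFDerivAt p.2).comp p hasFDerivAt_snd)
  have h2 := (Complex.conjCLE.toContinuousLinearMap.hasFDerivAt (x := dF F (cxp p.2))).comp p h1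
  have h3 := (((hC.pb_isTs hφ).smooth.differentiable (by simp)) p).hasFDerivAt
  have h4 := (h2.mul h3).fderiv
  have h5 : ((⇑(Complex.conjCLE.toContinuousLinearMap) ∘
      fun p : ℝ × (ℝ × ℝ) => dF F (cxp p.2)) * pb F O φ) = Phi F O φ := rfl
  rw [h5] at h4
  rw [h4]
  simp only [add_apply, smul_apply, smul_eq_mul]
  rw [hC.pb_fderiv hφ p _ hp, pb_of_mem hp]
  simp [cxpL_apply, dS]
  ring

/-- Divergence of `Phi`. -/
theorem IsChart.Phi_div (hC : IsChart F O Ω Γ r) {φ : ℝ × ℂ → ℂ} (hφ : IsTf T Ω φ)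
    (hdiv : ∀ p, divS φ p = 0) (p : ℝ × (ℝ × ℝ)) :
    (sy (Phi F O φ) p).re + (sz (Phi F O φ) p).im = 0 := by
  by_cases hp : cxp p.2 ∈ O
  · obtain ⟨d, hd⟩ := hC.exists_dd hp
    have h1 : sy (Phi F O φ) p = _ := hC.Phi_fderiv hφ hp hd (1, 0)
    have h2 : sz (Phi F O φ) p = _ := hC.Phi_fderiv hφ hp hd (0, 1)
    have e1 : cxp (1, 0) = 1 := rfl
    have e2 : cxp (0, 1) = Complex.I := rfl
    have h3 : (dS φ 1 (p.1, F (cxp p.2))).re + (dS φ Complex.I (p.1, F (cxp p.2))).im = 0 := hdiv _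
    rw [h1, h2, e1, e2, dS_lin φ _ (dF F (cxp p.2) * 1), dS_lin φ _ (dF F (cxp p.2) * Complex.I)]
    simp only [map_mul, mul_one, Complex.add_re, Complex.add_im, Complex.mul_re, Complex.mul_im,
      Complex.conj_re, Complex.conj_im, Complex.conj_I, Complex.neg_re, Complex.neg_im,
      Complex.I_re, Complex.I_im, Complex.ofReal_re, Complex.ofReal_im, map_one, Complex.one_re,
      Complex.one_im]
    linear_combination ((dF F (cxp p.2)).re ^ 2 + (dF F (cxp p.2)).im ^ 2) * h3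
  · have h1 : p ∉ tsupport (Phi F O φ) := fun h => hp (hC.Phi_tsupport hφ h)
    rw [sy, sz, fd_zero_of h1]
    simp

/-- Curl of `Phi`. -/
theorem IsChart.Phi_curl (hC : IsChart F O Ω Γ r) {φ : ℝ × ℂ → ℂ} (hφ : IsTf T Ω φ)
    {p : ℝ × (ℝ × ℝ)} (hp : cxp p.2 ∈ O) :
    (sz (Phi F O φ) p).re - (sy (Phi F O φ) p).im = ‖dF F (cxp p.2)‖ ^ 2 * kap φ (p.1, F (cxp p.2)) := by
  obtain ⟨d, hd⟩ := hC.exists_dd hp
  have h1 : sy (Phi F O φ) p = _ := hC.Phi_fderiv hφ hp hd (1, 0)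
  have h2 : sz (Phi F O φ) p = _ := hC.Phi_fderiv hφ hp hd (0, 1)
  have e1 : cxp (1, 0) = 1 := rfl
  have e2 : cxp (0, 1) = Complex.I := rfl
  rw [h1, h2, e1, e2, dS_lin φ _ (dF F (cxp p.2) * 1), dS_lin φ _ (dF F (cxp p.2) * Complex.I),
    kap, ← Complex.normSq_eq_norm_sq, Complex.normSq_apply]
  simp only [map_mul, mul_one, Complex.add_re, Complex.add_im, Complex.mul_re, Complex.mul_im,
    Complex.conj_re, Complex.conj_im, Complex.conj_I, Complex.neg_re, Complex.neg_im,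
    Complex.I_re, Complex.I_im, Complex.ofReal_re, Complex.ofReal_im, map_one, Complex.one_re,
    Complex.one_im]
  ring

end

end Pool.Agent.Lib.MP_79abb3_an.SC
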