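import Pool.Agent.Lib.MP_79abb3_an.SC.ChStream
import Pool.Agent.Lib.MP_79abb3_an.SC.PieceGlue

/-!
Theorem C (MP_79abb3_an), block (v): time dependent test functions.
-/

set_option autoImplicit false

open MeasureTheory Set Filter Topology Function

namespace Pool.Agent.Lib.MP_79abb3_an.SC

/-- The fundamental theorem of calculus along the diagonal. -/
theorem diag_ftc {N L B : ℝ → ℝ → ℝ} {t₀ t₁ : ℝ} (h01 : t₀ ≤ t₁)
    (hL : ContinuousOn (uncurry L) (univ ×ˢ Icc t₀ t₁))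
    (hB : ContinuousOn (uncurry B) (univ ×ˢ Icc t₀ t₁))
    (h1 : ∀ s, ∀ t ∈ Icc t₀ t₁, ∀ t' ∈ Icc t₀ t₁, N s t' - N s t = ∫ r in t..t', L s r)
    (h2 : ∀ t ∈ Icc t₀ t₁, ∀ s, HasDerivAt (fun s => N s t) (B s t) s) :
    N t₁ t₁ - N t₀ t₀ = ∫ t in t₀..t₁, (B t t + L t t) := by
  -- extend `L`, `B` to the plane
  set π : ℝ → ℝ := fun r => projIcc t₀ t₁ h01 r with hπ
  have cπ : Continuous π := continuous_subtype_val.comp continuous_projIcc
  have mπ : ∀ r, π r ∈ Icc t₀ t₁ := fun r => (projIcc t₀ t₁ h01 r).2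
  have eπ : ∀ r ∈ Icc t₀ t₁, π r = r := fun r hr => by
    rw [hπ]
    simp only
    rw [projIcc_of_mem h01 hr]
  set L' : ℝ → ℝ → ℝ := fun s r => L s (π r) with hL'
  set B' : ℝ → ℝ → ℝ := fun s r => B s (π r) with hB'
  have cL : Continuous (uncurry L') := by
    rw [← continuousOn_univ]
    exact hL.comp (f := fun p : ℝ × ℝ => (p.1, π p.2)) (by fun_prop) fun p _ => ⟨trivial, mπ _⟩
  have cB : Continuous (uncurry B') := by
    rw [← continuousOn_univ]
    exact hB.comp (f := fun p : ℝ × ℝ => (p.1, π p.2)) (by fun_prop) fun p _ => ⟨trivial, mπ _⟩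
  have h1' : ∀ s, ∀ t ∈ Icc t₀ t₁, ∀ t' ∈ Icc t₀ t₁, N s t' - N s t = ∫ r in t..t', L' s r := by
    intro s t ht t' ht'
    rw [h1 s t ht t' ht']
    refine intervalIntegral.integral_congr fun r hr => ?_
    have hr' : r ∈ Icc t₀ t₁ := by
      rw [uIcc, mem_Icc] at hr
      exact ⟨(le_min ht.1 ht'.1).trans hr.1, hr.2.trans (max_le ht.2 ht'.2)⟩
    show L s r = L s (π r)
    rw [eπ r hr']
  have h2' : ∀ t ∈ Icc t₀ t₁, ∀ s s', N s' t - N s t = ∫ r in s..s', B' r t := by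
    intro t ht s s'
    have e : ∀ r, B' r t = B r t := fun r => by
      show B r (π t) = B r t
      rw [eπ t ht]
    simp only [e]
    refine (intervalIntegral.integral_eq_sub_of_hasDerivAt (fun r _ => h2 t ht r) ?_).symm
    have : Continuous fun r => B r t := by
      have h3 : Continuous fun r => B' r t := cB.comp (f := fun r : ℝ => (r, t)) (by fun_prop)
      exact h3.congr e
    exact this.intervalIntegrable _ _
  -- the increments
  have key : ∀ t ∈ Icc t₀ t₁, ∀ t' ∈ Icc t₀ t₁, N t' t' = N t t + ((∫ r in t..t', L' t' r) +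
      ∫ r in t..t', B' r t) := by
    intro t ht t' ht'
    rw [← h1' t' t ht t' ht', ← h2' t ht t t']
    ring
  have hcont : ContinuousOn (fun t => N t t) (Icc t₀ t₁) := by
    intro t ht
    have e1 : Continuous fun t' => ∫ r in t..t', L' t' r :=
      intervalIntegral.continuous_parametric_intervalIntegral_of_continuous cL continuous_id
    have e2 : Continuous fun t' => ∫ r in t..t', B' r t := by
      have h3 : Continuous fun r => B' r t := cB.comp (f := fun r : ℝ => (r, t)) (by fun_prop)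
      exact intervalIntegral.continuous_primitive (fun a b => h3.intervalIntegrable a b) t
    have e3 : Continuous fun t' => N t t + ((∫ r in t..t', L' t' r) + ∫ r in t..t', B' r t) :=
      continuous_const.add (e1.add e2)
    exact e3.continuousWithinAt.congr (fun t' ht' => key t ht t' ht') (key t ht t ht)
  have hder : ∀ t ∈ Ioo t₀ t₁, HasDerivAt (fun t => N t t) (B' t t + L' t t) t := by
    intro t ht
    have ht' : t ∈ Icc t₀ t₁ := Ioo_subset_Icc_self ht
    have e2 : HasDerivAt (fun t' => ∫ r in t..t', B' r t) (B' t t) t := by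
      have h3 : Continuous fun r => B' r t := cB.comp (f := fun r : ℝ => (r, t)) (by fun_prop)
      exact intervalIntegral.integral_hasDerivAt_right (h3.intervalIntegrable _ _)
        (h3.stronglyMeasurableAtFilter _ _) h3.continuousAt
    have e1 : HasDerivAt (fun t' => ∫ r in t..t', L' t' r) (L' t t) t := by
      rw [hasDerivAt_iff_isLittleO, Asymptotics.isLittleO_iff]
      intro ε hε
      have h3 : ContinuousAt (uncurry L') (t, t) := cL.continuousAt
      rw [Metric.continuousAt_iff] at h3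
      obtain ⟨δ, hδ, h4⟩ := h3 ε hε
      filter_upwards [Metric.ball_mem_nhds t hδ] with t' ht'
      rw [Metric.mem_ball] at ht'
      rw [intervalIntegral.integral_same, sub_zero]
      have h5 : Continuous fun r => L' t' r := cL.comp (f := fun r : ℝ => (t', r)) (by fun_prop)
      have h6 : (∫ r in t..t', L' t' r) - (t' - t) • L' t t = ∫ r in t..t', (L' t' r - L' t t) := by
        rw [intervalIntegral.integral_sub (h5.intervalIntegrable _ _)
          (continuous_const.intervalIntegrable _ _), intervalIntegral.integral_const]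
      rw [h6]
      refine intervalIntegral.norm_integral_le_of_norm_le_const fun r hr => ?_
      have h7 : dist r t < δ := by
        rw [uIoc, mem_Ioc] at hr
        rw [Real.dist_eq, abs_lt] at ht' ⊢
        rcases le_total t t' with h | h
        · rw [min_eq_left h, max_eq_right h] at hr
          constructor <;> linarith [hr.1, hr.2, ht'.1, ht'.2]
        · rw [min_eq_right h, max_eq_left h] at hr
          constructor <;> linarith [hr.1, hr.2, ht'.1, ht'.2]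
      have h8 : dist (t', r) (t, t) < δ := by
        rw [Prod.dist_eq]
        exact max_lt ht' h7
      have h9 := h4 h8
      rw [Real.dist_eq] at h9
      exact h9.le
    have e3 : HasDerivAt (fun t' => N t t + ((∫ r in t..t', L' t' r) + ∫ r in t..t', B' r t))
        (L' t t + B' t t) t := (e1.add e2).const_add _
    rw [add_comm] at e3
    refine e3.congr_of_eventuallyEq ?_
    filter_upwards [Icc_mem_nhds ht.1 ht.2] with t'' ht''
    exact key t ht' t'' ht''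
  have hci : Continuous fun t => B' t t + L' t t :=
    (cB.comp (f := fun t : ℝ => (t, t)) (by fun_prop)).add
      (cL.comp (f := fun t : ℝ => (t, t)) (by fun_prop))
  have hfin := intervalIntegral.integral_eq_sub_of_hasDerivAt_of_le h01 hcont hder
    (hci.intervalIntegrable _ _)
  rw [← hfin]
  refine intervalIntegral.integral_congr fun t ht => ?_
  rw [uIcc_of_le h01] at ht
  show B t (π t) + L t (π t) = B t t + L t t
  rw [eπ t ht]

section
variable {H h : ℝ} {a : ℝ × ℝ → ℝ} {t₀ t₁ T : ℝ} {v w : ℝ → ℝ × ℝ → ℝ}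

/-- Slices. -/
theorem slice_fd {E : Type*} [NormedAddCommGroup E] [NormedSpace ℝ E] {G : ℝ × (ℝ × ℝ) → E}
    {s : ℝ} {q : ℝ × ℝ} (hG : DifferentiableAt ℝ G (s, q)) (e : ℝ × ℝ) :
    fderiv ℝ (fun q => G (s, q)) q e = fderiv ℝ G (s, q) (0, e) := by
  have h1 : HasFDerivAt (fun q : ℝ × ℝ => (s, q)) (ContinuousLinearMap.inr ℝ ℝ (ℝ × ℝ)) q :=
    (hasFDerivAt_const s q).prodMk (hasFDerivAt_id q)
  have h2 := (hG.hasFDerivAt.comp q h1).fderiv
  have h3 : (fun q => G (s, q)) = G ∘ fun q => (s, q) := rfl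
  rw [h3, h2]
  rfl

theorem slice_gy {G : ℝ × (ℝ × ℝ) → ℝ} (hG : Differentiable ℝ G) (s : ℝ) :
    gy (fun q => G (s, q)) = fun q => sy G (s, q) := funext fun q => slice_fd (hG (s, q)) (1, 0)

theorem slice_gz {G : ℝ × (ℝ × ℝ) → ℝ} (hG : Differentiable ℝ G) (s : ℝ) :
    gz (fun q => G (s, q)) = fun q => sz G (s, q) := funext fun q => slice_fd (hG (s, q)) (0, 1)

theorem IsTs.diff {E : Type*} [NormedAddCommGroup E] [NormedSpace ℝ E] {G : ℝ × (ℝ × ℝ) → E}
    (hG : IsTs T H h G) : Differentiable ℝ G := hG.smooth.differentiable (by simp)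

/-- Laplacian in `(y,z)`. -/
noncomputable def slap (G : ℝ × (ℝ × ℝ) → ℝ) (p : ℝ × (ℝ × ℝ)) : ℝ := sy (sy G) p + sz (sz G) p

theorem IsTs.add {E : Type*} [NormedAddCommGroup E] [NormedSpace ℝ E] {G G' : ℝ × (ℝ × ℝ) → E}
    (hG : IsTs T H h G) (hG' : IsTs T H h G') : IsTs T H h fun p => G p + G' p :=
  ⟨hG.smooth.add hG'.smooth, hG.cpt.add hG'.cpt,
    (tsupport_add (f := G) (g := G')).trans (union_subset hG.supp hG'.supp)⟩

theorem IsTs.slap {G : ℝ × (ℝ × ℝ) → ℝ} (hG : IsTs T H h G) : IsTs T H h (slap G) :=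
  hG.sy.sy.add hG.sz.sz

theorem slice_lap {G : ℝ × (ℝ × ℝ) → ℝ} (hG : IsTs T H h G) (s : ℝ) :
    lapg (fun q => G (s, q)) = fun q => slap G (s, q) := by
  funext q
  rw [lapg, slice_gy hG.diff, slice_gz hG.diff, slice_gy hG.sy.diff, slice_gz hG.sz.diff, slap]

theorem IsTs.slice {G : ℝ × (ℝ × ℝ) → ℝ} (hG : IsTs T H h G) (s : ℝ) :
    IsTg H h fun q => G (s, q) := by
  have hs : tsupport (fun q => G (s, q)) ⊆ (fun q => (s, q)) ⁻¹' tsupport G :=
    closure_minimal (fun q hq => subset_closure hq)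
      ((isClosed_tsupport G).preimage (by fun_prop))
  refine ⟨hG.smooth.comp (by fun_prop), ?_, fun q hq => (hG.supp (hs hq)).2⟩
  have h1 : IsCompact (Prod.snd '' tsupport G) := hG.cpt.isCompact.image continuous_snd
  exact h1.of_isClosed_subset (isClosed_tsupport _) fun q hq => ⟨(s, q), hs hq, rfl⟩

/-- `a Y` is `C¹` on `ℝ³` if `a` is `C¹` on `{0 < z < h}` and `Y` is a test function. -/
theorem cd_mul_s {Y : ℝ × (ℝ × ℝ) → ℝ} (ha : ContDiffOn ℝ 1 a (univ ×ˢ Ioo 0 h)) (hY : IsTs T H h Y) :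
    ContDiff ℝ 1 fun p : ℝ × (ℝ × ℝ) => a p.2 * Y p := by
  rw [contDiff_iff_contDiffAt]
  intro q
  by_cases hq : q ∈ tsupport Y
  · have ho : IsOpen (univ ×ˢ Ioo 0 h : Set (ℝ × ℝ)) := isOpen_univ.prod isOpen_Ioo
    have hm : q.2 ∈ (univ ×ˢ Ioo 0 h : Set (ℝ × ℝ)) := ⟨trivial, (hY.supp hq).2.2⟩
    have h1 : ContDiffAt ℝ 1 (fun p : ℝ × (ℝ × ℝ) => a p.2) q :=
      ((ha q.2 hm).contDiffAt (ho.mem_nhds hm)).comp q contDiffAt_snd
    exact h1.mul ((hY.smooth.of_le (by simp)).contDiffAt)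
  · have hz : Y =ᶠ[𝓝 q] fun _ => 0 := notMem_tsupport_iff_eventuallyEq.1 hq
    have h1 : (fun p : ℝ × (ℝ × ℝ) => a p.2 * Y p) =ᶠ[𝓝 q] fun _ => 0 := by
      filter_upwards [hz] with p hp
      rw [hp, mul_zero]
    exact contDiffAt_const.congr_of_eventuallyEq h1

theorem cont_fd {X : ℝ × (ℝ × ℝ) → ℝ} (hX : ContDiff ℝ 1 X) (e : ℝ × (ℝ × ℝ)) :
    Continuous fun p => fderiv ℝ X p e := (hX.continuous_fderiv one_ne_zero).clm_apply continuous_const

/-- Continuity of `(s, t, q) ↦ f(t,q) χ(s,q)`. -/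
theorem cont_mul2 {S : Set ℝ} {f : ℝ → ℝ × ℝ → ℝ} {χ : ℝ × (ℝ × ℝ) → ℝ}
    (hf : ContinuousOn (uncurry f) (S ×ˢ (univ ×ˢ Icc 0 h))) (hχ : Continuous χ)
    (hs : tsupport χ ⊆ univ ×ˢ (univ ×ˢ Ioo 0 h)) :
    ContinuousOn (fun x : (ℝ × ℝ) × (ℝ × ℝ) => f x.1.2 x.2 * χ (x.1.1, x.2))
      ((univ ×ˢ S) ×ˢ univ) := by
  rintro ⟨⟨s, t⟩, q⟩ ⟨⟨-, ht⟩, -⟩
  by_cases hq : (s, q) ∈ tsupport χ
  · have ho : IsOpen (univ ×ˢ Ioo 0 h : Set (ℝ × ℝ)) := isOpen_univ.prod isOpen_Ioo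
    have hm : q ∈ (univ ×ˢ Ioo 0 h : Set (ℝ × ℝ)) := (hs hq).2
    have h1 : ContinuousWithinAt (uncurry f) (S ×ˢ (univ ×ˢ Icc 0 h)) (t, q) :=
      hf (t, q) ⟨ht, hm.1, hm.2.1.le, hm.2.2.le⟩
    have h2 : ContinuousWithinAt (fun x : (ℝ × ℝ) × (ℝ × ℝ) => uncurry f (x.1.2, x.2))
        (((univ ×ˢ S) ×ˢ univ) ∩ {x | x.2 ∈ (univ ×ˢ Ioo 0 h : Set (ℝ × ℝ))}) ((s, t), q) := by
      refine ContinuousWithinAt.comp (f := fun x : (ℝ × ℝ) × (ℝ × ℝ) => (x.1.2, x.2)) (g := uncurry f)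
        (t := S ×ˢ (univ ×ˢ Icc 0 h)) h1 (by fun_prop) ?_
      rintro x ⟨⟨⟨-, h3⟩, -⟩, h4⟩
      exact ⟨h3, h4.1, h4.2.1.le, h4.2.2.le⟩
    have h3 : ContinuousWithinAt (fun x : (ℝ × ℝ) × (ℝ × ℝ) => uncurry f (x.1.2, x.2))
        ((univ ×ˢ S) ×ˢ univ) ((s, t), q) := by
      refine h2.mono_of_mem_nhdsWithin ?_
      refine inter_mem self_mem_nhdsWithin (mem_nhdsWithin_of_mem_nhds ?_)
      exact (ho.preimage continuous_snd).mem_nhds hm
    exact h3.mul (hχ.comp (f := fun x : (ℝ × ℝ) × (ℝ × ℝ) => (x.1.1, x.2)) (by fun_prop)).continuousWithinAt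
  · have hz : χ =ᶠ[𝓝 (s, q)] fun _ => 0 := notMem_tsupport_iff_eventuallyEq.1 hq
    have h1 : (fun x : (ℝ × ℝ) × (ℝ × ℝ) => f x.1.2 x.2 * χ (x.1.1, x.2)) =ᶠ[𝓝 ((s, t), q)]
        fun _ => 0 := by
      have h3 : Continuous fun x : (ℝ × ℝ) × (ℝ × ℝ) => (x.1.1, x.2) := by fun_prop
      have h2 : ∀ᶠ x in 𝓝 ((s, t), q), χ ((x : (ℝ × ℝ) × (ℝ × ℝ)).1.1, x.2) = 0 :=
        (h3.tendsto ((s, t), q)).eventually hz
      filter_upwards [h2] with x hx
      rw [hx, mul_zero]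
    exact (continuousAt_const.congr h1.symm).continuousWithinAt

/-- `(s,t) ↦ mG` is jointly continuous. -/
theorem mG_cont2 {S : Set ℝ} (hv : ContinuousOn (uncurry v) (S ×ˢ (univ ×ˢ Icc 0 h)))
    (hw : ContinuousOn (uncurry w) (S ×ˢ (univ ×ˢ Icc 0 h))) {G : ℝ × (ℝ × ℝ) → ℝ}
    (hG : IsTs T H h G) :
    ContinuousOn (uncurry fun s t => mG (fun q => G (s, q)) (v t) (w t)) (univ ×ˢ S) := by
  have hsub : ∀ {χ : ℝ × (ℝ × ℝ) → ℝ}, tsupport χ ⊆ tsupport G →
      tsupport χ ⊆ univ ×ˢ (univ ×ˢ Ioo 0 h) := fun h1 p hp =>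
    ⟨trivial, trivial, (hG.supp (h1 hp)).2.2⟩
  have hK : IsCompact (Prod.snd '' tsupport G) := hG.cpt.isCompact.image continuous_snd
  have e : (uncurry fun s t => mG (fun q => G (s, q)) (v t) (w t)) = fun p : ℝ × ℝ =>
      ∫ q, (v p.2 q * sz G (p.1, q) - w p.2 q * sy G (p.1, q)) := by
    funext p
    show mG (fun q => G (p.1, q)) (v p.2) (w p.2) = _
    rw [mG, slice_gy hG.diff, slice_gz hG.diff]
  rw [e]
  refine continuousOn_integral_of_compact_support hK
    ((cont_mul2 hv hG.sz.smooth.continuous (hsub (tsupport_fd G _))).sub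
      (cont_mul2 hw hG.sy.smooth.continuous (hsub (tsupport_fd G _)))) ?_
  intro p q _ hq
  have h1 : ∀ e, fderiv ℝ G (p.1, q) e = 0 := fun e => by
    rw [fd_zero_of fun hm => hq ⟨_, hm, rfl⟩]
    rfl
  show v p.2 q * fderiv ℝ G (p.1, q) _ - w p.2 q * fderiv ℝ G (p.1, q) _ = 0
  rw [h1, h1, mul_zero, mul_zero, sub_zero]

/-- `(s,t) ↦ lG` is jointly continuous. -/
theorem lG_cont2 {S : Set ℝ} (ha : ContDiffOn ℝ 1 a (univ ×ˢ Ioo 0 h))
    (hv : ContinuousOn (uncurry v) (S ×ˢ (univ ×ˢ Icc 0 h)))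
    (hw : ContinuousOn (uncurry w) (S ×ˢ (univ ×ˢ Icc 0 h))) {G : ℝ × (ℝ × ℝ) → ℝ}
    (hG : IsTs T H h G) :
    ContinuousOn (uncurry fun s t => lG a (fun q => G (s, q)) (v t) (w t)) (univ ×ˢ S) := by
  have hsub : ∀ {χ : ℝ × (ℝ × ℝ) → ℝ}, tsupport χ ⊆ tsupport G →
      tsupport χ ⊆ univ ×ˢ (univ ×ˢ Ioo 0 h) := fun h1 p hp =>
    ⟨trivial, trivial, (hG.supp (h1 hp)).2.2⟩
  have hK : IsCompact (Prod.snd '' tsupport G) := hG.cpt.isCompact.image continuous_snd
  have cL := cd_mul_s ha hG.slap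
  have cZ := cd_mul_s ha hG.sz
  have cY := cd_mul_s ha hG.sy
  have sG : tsupport (slap G) ⊆ tsupport G :=
    (tsupport_add (f := sy (sy G)) (g := sz (sz G))).trans (union_subset
      ((tsupport_fd _ _).trans (tsupport_fd _ _)) ((tsupport_fd _ _).trans (tsupport_fd _ _)))
  have sL : tsupport (fun p : ℝ × (ℝ × ℝ) => a p.2 * slap G p) ⊆ tsupport G :=
    (tsupport_mul_subset_right).trans sG
  have sZ : tsupport (fun p : ℝ × (ℝ × ℝ) => a p.2 * sz G p) ⊆ tsupport G :=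
    (tsupport_mul_subset_right).trans (tsupport_fd _ _)
  have sY : tsupport (fun p : ℝ × (ℝ × ℝ) => a p.2 * sy G p) ⊆ tsupport G :=
    (tsupport_mul_subset_right).trans (tsupport_fd _ _)
  have dL : Differentiable ℝ fun p : ℝ × (ℝ × ℝ) => a p.2 * slap G p := cL.differentiable one_ne_zero
  have dZ : Differentiable ℝ fun p : ℝ × (ℝ × ℝ) => a p.2 * sz G p := cZ.differentiable one_ne_zero
  have dY : Differentiable ℝ fun p : ℝ × (ℝ × ℝ) => a p.2 * sy G p := cY.differentiable one_ne_zero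
  have e : (uncurry fun s t => lG a (fun q => G (s, q)) (v t) (w t)) = fun p : ℝ × ℝ =>
      ∫ q, ((v p.2 q * sz (fun p => a p.2 * slap G p) (p.1, q) -
          w p.2 q * sy (fun p => a p.2 * slap G p) (p.1, q)) +
        (v p.2 q * w p.2 q * sz (fun p => a p.2 * sz G p) (p.1, q) -
          v p.2 q * w p.2 q * sy (fun p => a p.2 * sy G p) (p.1, q) -
          ((w p.2 q ^ 2 - v p.2 q ^ 2) / 2 * sy (fun p => a p.2 * sz G p) (p.1, q) +
            (w p.2 q ^ 2 - v p.2 q ^ 2) / 2 * sz (fun p => a p.2 * sy G p) (p.1, q)))) := by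
    funext p
    show lG a (fun q => G (p.1, q)) (v p.2) (w p.2) = _
    rw [lG, slice_lap hG, slice_gy hG.diff, slice_gz hG.diff]
    have e1 := slice_gz dL p.1
    have e2 := slice_gy dL p.1
    have e3 := slice_gz dZ p.1
    have e4 := slice_gy dY p.1
    have e5 := slice_gy dZ p.1
    have e6 := slice_gz dY p.1
    simp only at e1 e2 e3 e4 e5 e6
    rw [e1, e2, e3, e4, e5, e6]
    congr 1
    funext q
    ring
  rw [e]
  have hvw : ContinuousOn (uncurry fun t q => v t q * w t q) (S ×ˢ (univ ×ˢ Icc 0 h)) := hv.mul hw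
  have hR : ContinuousOn (uncurry fun t q => (w t q ^ 2 - v t q ^ 2) / 2) (S ×ˢ (univ ×ˢ Icc 0 h)) :=
    ((hw.pow 2).sub (hv.pow 2)).div_const 2
  refine continuousOn_integral_of_compact_support hK
    (((cont_mul2 hv (cont_fd cL _) (hsub ((tsupport_fd _ _).trans sL))).sub
      (cont_mul2 hw (cont_fd cL _) (hsub ((tsupport_fd _ _).trans sL)))).add
      (((cont_mul2 hvw (cont_fd cZ _) (hsub ((tsupport_fd _ _).trans sZ))).sub
      (cont_mul2 hvw (cont_fd cY _) (hsub ((tsupport_fd _ _).trans sY)))).sub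
      ((cont_mul2 hR (cont_fd cZ _) (hsub ((tsupport_fd _ _).trans sZ))).add
      (cont_mul2 hR (cont_fd cY _) (hsub ((tsupport_fd _ _).trans sY)))))) ?_
  intro p q _ hq
  have h1 : ∀ {X : ℝ × (ℝ × ℝ) → ℝ}, tsupport X ⊆ tsupport G → ∀ e, fderiv ℝ X (p.1, q) e = 0 := by
    intro X hX e
    rw [fd_zero_of fun hm => hq ⟨_, hX hm, rfl⟩]
    rfl
  have z1 : sz (fun p => a p.2 * slap G p) (p.1, q) = 0 := h1 sL _
  have z2 : sy (fun p => a p.2 * slap G p) (p.1, q) = 0 := h1 sL _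
  have z3 : sz (fun p => a p.2 * sz G p) (p.1, q) = 0 := h1 sZ _
  have z4 : sy (fun p => a p.2 * sy G p) (p.1, q) = 0 := h1 sY _
  have z5 : sy (fun p => a p.2 * sz G p) (p.1, q) = 0 := h1 sZ _
  have z6 : sz (fun p => a p.2 * sy G p) (p.1, q) = 0 := h1 sY _
  rw [z1, z2, z3, z4, z5, z6]
  ring

theorem hasDerivAt_t {G : ℝ × (ℝ × ℝ) → ℝ} (hG : Differentiable ℝ G) (s : ℝ) (q : ℝ × ℝ) :
    HasDerivAt (fun s => G (s, q)) (st G (s, q)) s := by
  have h1 : HasFDerivAt G (fderiv ℝ G (s, q)) (s, q) := (hG (s, q)).hasFDerivAt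
  have h2 : HasDerivAt (fun s : ℝ => (s, q)) ((1:ℝ), ((0:ℝ), (0:ℝ))) s :=
    (hasDerivAt_id s).prodMk (hasDerivAt_const s q)
  exact h1.comp_hasDerivAt s h2

/-- The derivative of `s ↦ mG (G(s)) v w`. -/
theorem mG_hasDerivAt {v w : ℝ × ℝ → ℝ} (hv : ContinuousOn v (univ ×ˢ Icc 0 h))
    (hw : ContinuousOn w (univ ×ˢ Icc 0 h)) {G : ℝ × (ℝ × ℝ) → ℝ} (hG : IsTs T H h G) (s : ℝ) :
    HasDerivAt (fun s => mG (fun q => G (s, q)) v w) (mG (fun q => st G (s, q)) v w) s := by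
  have e : ∀ G : ℝ × (ℝ × ℝ) → ℝ, IsTs T H h G → (fun s => mG (fun q => G (s, q)) v w) = fun s =>
      ∫ q, (v q * sz G (s, q) - w q * sy G (s, q)) := by
    intro G hG
    funext s
    rw [mG, slice_gy hG.diff, slice_gz hG.diff]
  have e' := congrFun (e _ hG.st) s
  rw [e _ hG, e']
  have hK : IsCompact (Prod.snd '' tsupport G) := hG.cpt.isCompact.image continuous_snd
  have hvc : ContinuousOn (uncurry fun _ : ℝ => v) ((univ : Set ℝ) ×ˢ (univ ×ˢ Icc 0 h)) :=
    hv.comp (f := fun p : ℝ × (ℝ × ℝ) => p.2) (by fun_prop) fun p hp => hp.2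
  have hwc : ContinuousOn (uncurry fun _ : ℝ => w) ((univ : Set ℝ) ×ˢ (univ ×ˢ Icc 0 h)) :=
    hw.comp (f := fun p : ℝ × (ℝ × ℝ) => p.2) (by fun_prop) fun p hp => hp.2
  have hsub : ∀ {χ : ℝ × (ℝ × ℝ) → ℝ}, IsTs T H h χ → tsupport χ ⊆ univ ×ˢ (univ ×ˢ Ioo 0 h) :=
    fun h1 p hp => ⟨trivial, trivial, (h1.supp hp).2.2⟩
  -- joint continuity of the integrands
  have hc : ∀ X Y : ℝ × (ℝ × ℝ) → ℝ, IsTs T H h X → IsTs T H h Y →
      Continuous fun p : ℝ × (ℝ × ℝ) => v p.2 * X p - w p.2 * Y p := by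
    intro X Y hX hY
    have h1 := (cont_mul2 (S := univ) hvc hX.smooth.continuous (hsub hX)).sub
      (cont_mul2 (S := univ) hwc hY.smooth.continuous (hsub hY))
    rw [univ_prod_univ, univ_prod_univ, continuousOn_univ] at h1
    exact h1.comp (f := fun p : ℝ × (ℝ × ℝ) => ((p.1, (0:ℝ)), p.2)) (by fun_prop)
  have hc1 := hc _ _ hG.sz hG.sy
  have hc2 := hc _ _ hG.st.sz hG.st.sy
  have hsl : ∀ {f : ℝ × (ℝ × ℝ) → ℝ}, Continuous f → ∀ s, Continuous fun q => f (s, q) :=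
    fun hf s => hf.comp (by fun_prop)
  have hcs : HasCompactSupport fun p : ℝ × (ℝ × ℝ) => v p.2 * sz (st G) p - w p.2 * sy (st G) p := by
    refine HasCompactSupport.intro hG.cpt.isCompact fun p hp => ?_
    have h1 : sz (st G) p = 0 := image_eq_zero_of_notMem_tsupport fun hm =>
      hp ((tsupport_fd _ _).trans (tsupport_fd _ _) hm)
    have h2 : sy (st G) p = 0 := image_eq_zero_of_notMem_tsupport fun hm =>
      hp ((tsupport_fd _ _).trans (tsupport_fd _ _) hm)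
    rw [h1, h2, mul_zero, mul_zero, sub_zero]
  obtain ⟨C, hC⟩ := hc2.bounded_above_of_compact_support hcs
  have hzero : ∀ (X : ℝ × (ℝ × ℝ) → ℝ), tsupport X ⊆ tsupport G → ∀ s q,
      q ∉ Prod.snd '' tsupport G → X (s, q) = 0 := fun X hX s q hq =>
    image_eq_zero_of_notMem_tsupport fun hm => hq ⟨_, hX hm, rfl⟩
  have h := hasDerivAt_integral_of_dominated_loc_of_deriv_le (μ := (volume : Measure (ℝ × ℝ)))
    (F := fun s q => v q * sz G (s, q) - w q * sy G (s, q)) (x₀ := s) (s := univ)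
    (F' := fun s q => v q * sz (st G) (s, q) - w q * sy (st G) (s, q))
    (bound := (Prod.snd '' tsupport G).indicator fun _ => C) univ_mem
    (Eventually.of_forall fun x => (hsl hc1 x).aestronglyMeasurable) ?_
    (hsl hc2 s).aestronglyMeasurable ?_ ?_ ?_
  · exact h.2
  · refine (hsl hc1 s).integrable_of_hasCompactSupport (HasCompactSupport.intro hK fun q hq => ?_)
    show v q * sz G (s, q) - w q * sy G (s, q) = 0
    rw [hzero (sz G) (tsupport_fd _ _) s q hq, hzero (sy G) (tsupport_fd _ _) s q hq, mul_zero,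
      mul_zero, sub_zero]
  · refine Eventually.of_forall fun q x _ => ?_
    by_cases hq : q ∈ Prod.snd '' tsupport G
    · rw [indicator_of_mem hq]
      exact hC (x, q)
    · rw [indicator_of_notMem hq, hzero (sz (st G)) ((tsupport_fd _ _).trans (tsupport_fd _ _)) x q hq,
        hzero (sy (st G)) ((tsupport_fd _ _).trans (tsupport_fd _ _)) x q hq, mul_zero, mul_zero,
        sub_zero, norm_zero]
  · rw [integrable_indicator_iff hK.measurableSet]
    exact integrableOn_const hK.measure_lt_top.ne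
  · refine Eventually.of_forall fun q x _ => ?_
    have h1 := (hasDerivAt_t hG.sz.diff x q).const_mul (v q)
    have h2 := (hasDerivAt_t hG.sy.diff x q).const_mul (w q)
    have h3 : st (sz G) (x, q) = sz (st G) (x, q) := fd_comm hG.smooth _ _ _
    have h4 : st (sy G) (x, q) = sy (st G) (x, q) := fd_comm hG.smooth _ _ _
    rw [h3] at h1
    rw [h4] at h2
    exact h1.sub h2

/-- The equation with time dependent test functions. -/
theorem Piece.tested (P : Piece H h a t₀ t₁ v w) (h01 : t₀ ≤ t₁)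
    (ha : ContDiffOn ℝ 1 a (univ ×ˢ Ioo 0 h)) {G : ℝ × (ℝ × ℝ) → ℝ} (hG : IsTs T H h G) :
    mG (fun q => G (t₁, q)) (v t₁) (w t₁) - mG (fun q => G (t₀, q)) (v t₀) (w t₀) =
      ∫ t in t₀..t₁, (mG (fun q => st G (t, q)) (v t) (w t) + lG a (fun q => G (t, q)) (v t) (w t)) := by
  refine diag_ftc (N := fun s t => mG (fun q => G (s, q)) (v t) (w t))
    (L := fun s t => lG a (fun q => G (s, q)) (v t) (w t))
    (B := fun s t => mG (fun q => st G (s, q)) (v t) (w t)) h01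
    (lG_cont2 ha P.cont₁ P.cont₂ hG) (mG_cont2 P.cont₁ P.cont₂ hG.st) ?_ ?_
  · intro s t ht t' ht'
    exact P.ns _ (hG.slice s) t ht t' ht'
  · intro t ht s
    have h1 : ContinuousOn (v t) (univ ×ˢ Icc 0 h) :=
      P.cont₁.comp (f := fun q : ℝ × ℝ => (t, q)) (by fun_prop) fun q hq => ⟨ht, hq⟩
    have h2 : ContinuousOn (w t) (univ ×ˢ Icc 0 h) :=
      P.cont₂.comp (f := fun q : ℝ × ℝ => (t, q)) (by fun_prop) fun q hq => ⟨ht, hq⟩
    exact mG_hasDerivAt h1 h2 hG s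

end

end Pool.Agent.Lib.MP_79abb3_an.SC
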