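import Pool.Agent.Lib.MP_79abb3_an.SC.ChCov
import Pool.Agent.Lib.MP_79abb3_an.SC.ChLG
import Pool.Agent.Lib.MP_79abb3_an.SC.ChTime

/-!
Theorem C (MP_79abb3_an), block (v): the right-hand side of the tested equation in the flow region.
-/

set_option autoImplicit false
set_option linter.unusedSectionVars false
set_option linter.unusedSimpArgs false

open MeasureTheory Set Filter Topology Function
open scoped RealInnerProductSpace ComplexConjugate

namespace Pool.Agent.Lib.MP_79abb3_an.SC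

section
variable {F : ℂ → ℂ} {O Ω Γ : Set ℂ} {r T : ℝ}

/-- The quotient `φ(t, F ζ) / F'(ζ)` in the strip. -/
theorem IsChart.quot_fderiv (hC : IsChart F O Ω Γ r) {φ : ℝ × ℂ → ℂ} (hφ : IsTf T Ω φ) {d : ℂ}
    {t : ℝ} {q : ℝ × ℝ} (hq : cxp q ∈ O) (hd : HasDerivAt (dF F) d (cxp q)) :
    DifferentiableAt ℝ (fun q => φ (t, F (cxp q)) * (dF F (cxp q))⁻¹) q ∧ ∀ e : ℝ × ℝ,
      fderiv ℝ (fun q => φ (t, F (cxp q)) * (dF F (cxp q))⁻¹) q e =
        dS φ (dF F (cxp q) * cxp e) (t, F (cxp q)) * (dF F (cxp q))⁻¹ -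
          φ (t, F (cxp q)) * (d * cxp e) / (dF F (cxp q)) ^ 2 := by
  have hc := hC.der _ (subset_closure hq)
  have h0 : HasFDerivAt (fun ζ => (dF F ζ)⁻¹)
      ((ContinuousLinearMap.toSpanSingleton ℂ (-d / (dF F (cxp q)) ^ 2)).restrictScalars ℝ) (cxp q) :=
    (hd.fun_inv hc).hasFDerivAt.restrictScalars ℝ
  have h1 := h0.comp q (cxp_hasFDerivAt q)
  have h2 : HasFDerivAt (fun q : ℝ × ℝ => F (cxp q))
      ((ContinuousLinearMap.mul ℝ ℂ (dF F (cxp q))).comp cxpL) q :=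
    (hC.hasFDerivAt (subset_closure hq)).comp q (cxp_hasFDerivAt q)
  have h3 : HasFDerivAt (fun q : ℝ × ℝ => (t, F (cxp q))) _ q := (hasFDerivAt_const t q).prodMk h2
  have h4 := (hφ.diff (t, F (cxp q))).hasFDerivAt.comp q h3
  have h5 := h4.mul h1
  have h6 : ((φ ∘ fun q : ℝ × ℝ => (t, F (cxp q))) * ((fun ζ => (dF F ζ)⁻¹) ∘ cxp)) =
    fun q => φ (t, F (cxp q)) * (dF F (cxp q))⁻¹ := rfl
  rw [h6] at h5
  refine ⟨h5.differentiableAt, fun e => ?_⟩
  rw [h5.fderiv]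
  simp [cxpL_apply, dS]
  ring

theorem IsChart.lG_eq (hC : IsChart F O Ω Γ r) {φ : ℝ × ℂ → ℂ} (hφ : IsTf T Ω φ)
    (hdiv : ∀ p, divS φ p = 0) {G : ℝ × (ℝ × ℝ) → ℝ} (hG : IsTs T (r + 2) (r + 1 / 2) G)
    (hGz : ∀ p, sz G p = (Phi F O φ p).re) (hGy : ∀ p, sy G p = -(Phi F O φ p).im)
    {a : ℝ × ℝ → ℝ} (ha : ∀ q, cxp q ∈ O → a q * ‖dF F (cxp q)‖ ^ 2 = 1) {u : ℂ → ℂ}
    {v w : ℝ × ℝ → ℝ}
    (hu : ∀ q, cxp q ∈ O → conj (dF F (cxp q)) * u (F (cxp q)) = ⟨v q, w q⟩) (t : ℝ) :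
    lG a (fun q => G (t, q)) v w =
      ∫ x, (⟪u x, lapS φ (t, x)⟫ + ⟪u x, dS φ (u x) (t, x)⟫) := by
  have hPd : ∀ p, DifferentiableAt ℝ (Phi F O φ) p := fun p => (hC.Phi_isTs hφ).diff p
  have hcut : ∀ {φ' : ℝ × ℂ → ℂ}, IsTf T Ω φ' → ∀ x, x ∉ Ω → φ' (t, x) = 0 := fun h x hx =>
    image_eq_zero_of_notMem_tsupport fun hm => hx (h.supp hm).2
  have e1 : (fun p => a p * lapg (fun q => G (t, q)) p) = fun q => pb F O (kap φ) (t, q) := by
    funext q
    rw [slice_lap hG]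
    have h1 : sy G = fun p => -(Phi F O φ p).im := funext hGy
    have h2 : sz G = fun p => (Phi F O φ p).re := funext hGz
    have h3 : sy (fun p => -(Phi F O φ p).im) (t, q) = -(sy (Phi F O φ) (t, q)).im := by
      rw [sy, fderiv_fun_neg, neg_apply]
      congr 1
      exact fd_clm (hPd _) Complex.imCLM _
    have h4 : sz (fun p => (Phi F O φ p).re) (t, q) = (sz (Phi F O φ) (t, q)).re :=
      fd_clm (hPd _) Complex.reCLM _
    show a q * slap G (t, q) = _
    rw [slap, h1, h2, h3, h4]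
    by_cases hq : cxp q ∈ O
    · have h5 := hC.Phi_curl hφ (p := (t, q)) hq
      rw [pb_of_mem (p := (t, q)) hq]
      have h6 : -(sy (Phi F O φ) (t, q)).im + (sz (Phi F O φ) (t, q)).re =
          ‖dF F (cxp q)‖ ^ 2 * kap φ (t, F (cxp q)) := by rw [← h5]; ring
      rw [h6, ← mul_assoc, ha q hq, one_mul]
    · have h5 : (t, q) ∉ tsupport (Phi F O φ) := fun h => hq (hC.Phi_tsupport hφ h)
      rw [pb_of_notMem (p := (t, q)) hq, sy, sz, fd_zero_of h5]
      simp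
  rw [hC.integral _ fun x hx => ?_, lG]
  swap
  · have h1 : lapS φ (t, x) = 0 := by
      rw [lapS, hcut ((hφ.dS 1).dS 1) x hx, hcut ((hφ.dS _).dS _) x hx, add_zero]
    have h2 : dS φ (u x) (t, x) = 0 := hcut (hφ.dS _) x hx
    rw [h1, h2, inner_zero_right, add_zero]
  congr 1
  funext q
  rw [e1]
  have hkd : Differentiable ℝ (pb F O (kap φ)) := (hC.pb_isTs hφ.kap).diff
  have e2 := congrFun (slice_gz hkd t) q
  have e3 := congrFun (slice_gy hkd t) q
  rw [e2, e3]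
  have hgz : gz (fun q => G (t, q)) = fun q => (Phi F O φ (t, q)).re := by
    rw [slice_gz hG.diff]; exact funext fun q => hGz _
  have hgy : gy (fun q => G (t, q)) = fun q => -(Phi F O φ (t, q)).im := by
    rw [slice_gy hG.diff]; exact funext fun q => hGy _
  rw [hgz, hgy]
  by_cases hq : cxp q ∈ O
  · rw [if_pos hq]
    obtain ⟨d, hd⟩ := hC.exists_dd hq
    have hc := hC.der _ (subset_closure hq)
    obtain ⟨hXd, hX⟩ := hC.quot_fderiv hφ (t := t) hq hd
    have ho : IsOpen {q : ℝ × ℝ | cxp q ∈ O} := hC.op.preimage cxp_cont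
    have key : ∀ q', cxp q' ∈ O → (a q' : ℂ) * Phi F O φ (t, q') =
        φ (t, F (cxp q')) * (dF F (cxp q'))⁻¹ := by
      intro q' hq'
      have hc' := hC.der _ (subset_closure hq')
      have h1 := ha q' hq'
      rw [Phi, pb_of_mem (p := (t, q')) hq']
      have h2 : (a q' : ℂ) * conj (dF F (cxp q')) * dF F (cxp q') = 1 := by
        rw [mul_assoc, mul_comm (conj _), Complex.mul_conj, Complex.normSq_eq_norm_sq,
          ← Complex.ofReal_mul, h1, Complex.ofReal_one]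
      field_simp
      linear_combination φ (t, F (cxp q')) * h2
    have n1 : (fun p => a p * (Phi F O φ (t, p)).re) =ᶠ[𝓝 q]
        fun q => (φ (t, F (cxp q)) * (dF F (cxp q))⁻¹).re := by
      filter_upwards [ho.mem_nhds hq] with q' hq'
      rw [← key q' hq', Complex.re_ofReal_mul]
    have n2 : (fun p => a p * -(Phi F O φ (t, p)).im) =ᶠ[𝓝 q]
        fun q => -(φ (t, F (cxp q)) * (dF F (cxp q))⁻¹).im := by
      filter_upwards [ho.mem_nhds hq] with q' hq'
      rw [← key q' hq', Complex.im_ofReal_mul, mul_neg]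
    have d1 : ∀ e, fderiv ℝ (fun p => a p * (Phi F O φ (t, p)).re) q e =
        (fderiv ℝ (fun q => φ (t, F (cxp q)) * (dF F (cxp q))⁻¹) q e).re := by
      intro e
      rw [n1.fderiv_eq]
      exact fd_clm hXd Complex.reCLM e
    have d2 : ∀ e, fderiv ℝ (fun p => a p * -(Phi F O φ (t, p)).im) q e =
        -(fderiv ℝ (fun q => φ (t, F (cxp q)) * (dF F (cxp q))⁻¹) q e).im := by
      intro e
      rw [n2.fderiv_eq, fderiv_fun_neg, neg_apply]
      congr 1
      exact fd_clm hXd Complex.imCLM e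
    have g1 : gz (fun p => a p * (Phi F O φ (t, p)).re) q = _ := d1 (0, 1)
    have g2 : gy (fun p => a p * (Phi F O φ (t, p)).re) q = _ := d1 (1, 0)
    have g3 : gz (fun p => a p * -(Phi F O φ (t, p)).im) q = _ := d2 (0, 1)
    have g4 : gy (fun p => a p * -(Phi F O φ (t, p)).im) q = _ := d2 (1, 0)
    have e4 : sz (pb F O (kap φ)) (t, q) = _ := hC.pb_fderiv hφ.kap (t, q) (0, (0, 1)) hq
    have e5 : sy (pb F O (kap φ)) (t, q) = _ := hC.pb_fderiv hφ.kap (t, q) (0, (1, 0)) hq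
    rw [g1, g2, g3, g4, e4, e5, hX, hX, mul_add (‖dF F (cxp q)‖ ^ 2)]
    have c1 : cxp (1, 0) = 1 := rfl
    have c2 : cxp (0, 1) = Complex.I := rfl
    have e6 := conv_alg (p1 := dS φ 1 (t, F (cxp q))) (p2 := dS φ Complex.I (t, F (cxp q))) hc
      (hu q hq) (hdiv (t, F (cxp q)))
    rw [← dS_lin] at e6
    rw [e6, inner_key (hu q hq), lap_eq hφ hdiv]
    show (v q * dS (kap φ) (dF F (cxp q) * cxp (0, 1)) (t, F (cxp q)) -
      w q * dS (kap φ) (dF F (cxp q) * cxp (1, 0)) (t, F (cxp q))) + _ = _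
    rw [c1, c2, dS_lin' (kap φ), dS_lin' (kap φ) _ (dF F (cxp q) * 1),
      dS_lin φ _ (dF F (cxp q) * Complex.I), dS_lin φ _ (dF F (cxp q) * 1), Complex.inner]
    set c := dF F (cxp q)
    set p1 := dS φ 1 (t, F (cxp q))
    set p2 := dS φ Complex.I (t, F (cxp q))
    set k1 := dS (kap φ) 1 (t, F (cxp q))
    set k2 := dS (kap φ) Complex.I (t, F (cxp q))
    set f := φ (t, F (cxp q))
    have s1 : (conj c * ⟨k2, -k1⟩ * conj (⟨v q, w q⟩ : ℂ)).re =
        v q * ((c * Complex.I).re * k1 + (c * Complex.I).im * k2) -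
          w q * ((c * 1).re * k1 + (c * 1).im * k2) := by
      simp only [Complex.mul_re, Complex.mul_im, Complex.conj_re, Complex.conj_im, Complex.I_re,
        Complex.I_im, mul_one]
      ring
    rw [s1]
    congr 1
    set X1 : ℂ := (((c * Complex.I).re : ℂ) * p1 + ((c * Complex.I).im : ℂ) * p2) * c⁻¹ -
      f * (d * Complex.I) / c ^ 2 with hX1
    set X2 : ℂ := (((c * 1).re : ℂ) * p1 + ((c * 1).im : ℂ) * p2) * c⁻¹ - f * (d * 1) / c ^ 2 with hX2
    have s2 : X1 - Complex.I * X2 = (((-c.im : ℝ) : ℂ) * p1 + (c.re : ℂ) * p2 -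
        Complex.I * ((c.re : ℂ) * p1 + (c.im : ℂ) * p2)) / c := by
      rw [hX1, hX2, Complex.mul_I_re, Complex.mul_I_im, mul_one]
      field_simp
      ring
    have s3 : X2 + Complex.I * X1 = ((c.re : ℂ) * p1 + (c.im : ℂ) * p2 +
        Complex.I * (((-c.im : ℝ) : ℂ) * p1 + (c.re : ℂ) * p2)) / c := by
      rw [hX1, hX2, Complex.mul_I_re, Complex.mul_I_im, mul_one]
      field_simp
      linear_combination (-(f * d)) * Complex.I_sq
    have s4 : (X1 - Complex.I * X2).re = X1.re + X2.im := by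
      rw [Complex.sub_re, Complex.I_mul_re]; ring
    have s5 : (X2 + Complex.I * X1).re = X2.re - X1.im := by
      rw [Complex.add_re, Complex.I_mul_re]; ring
    rw [← s2, ← s3, s4, s5]
    show v q * w q * (X1.re - -X2.im) - (w q ^ 2 - v q ^ 2) / 2 * (X2.re + -X1.im) =
      v q * w q * (X1.re + X2.im) - (w q ^ 2 - v q ^ 2) / 2 * (X2.re - X1.im)
    ring
  · rw [if_neg hq]
    have hq' : (t, q) ∉ tsupport (Phi F O φ) := fun h => hq (hC.Phi_tsupport hφ h)
    have hz : (fun q => Phi F O φ (t, q)) =ᶠ[𝓝 q] fun _ => 0 := by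
      have h1 : Phi F O φ =ᶠ[𝓝 (t, q)] fun _ => 0 := notMem_tsupport_iff_eventuallyEq.1 hq'
      exact (Continuous.tendsto (f := fun q : ℝ × ℝ => (t, q)) (by fun_prop) q).eventually h1
    have n1 : (fun p => a p * (Phi F O φ (t, p)).re) =ᶠ[𝓝 q] fun _ => 0 := by
      filter_upwards [hz] with q' h1
      rw [h1]; simp
    have n2 : (fun p => a p * -(Phi F O φ (t, p)).im) =ᶠ[𝓝 q] fun _ => 0 := by
      filter_upwards [hz] with q' h1
      rw [h1]; simp
    have hk : (t, q) ∉ tsupport (pb F O (kap φ)) := fun h => hq (hC.pb_tsupport hφ.kap h)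
    rw [gz, gz, gy, gy, n1.fderiv_eq, n2.fderiv_eq, sz, sy, fd_zero_of hk]
    simp

end

end Pool.Agent.Lib.MP_79abb3_an.SC
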