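import Pool.Agent.Lib.MP_79abb3_an.SC.ExT

/-!
Theorem C, block (ii), EX2: continuation of solutions of the background system from a bound of
`|q|` and `|Λ^{3/8} V|`.
-/

set_option autoImplicit false
set_option linter.unusedSectionVars false

open MeasureTheory Set Filter Topology Function
open scoped ENNReal InnerProductSpace

namespace Pool.Agent.Lib.MP_79abb3_an.SC

open Pool.Agent.Lib.MP_79abb3_an.P25

section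
variable {H : ℝ} [hH : Fact (0 < H)]

theorem norm_DTc_le (ω : ℝ) : ‖(DTc ω : HH H →L[ℂ] HH H)‖ ≤ 1 := norm_dg_le (norm_DT_fam ω)

theorem norm_Xz_le (ω : ℝ) (g : HH H) : ‖Xz ω g‖ ≤ 2 * ‖g‖ := by
  have h1 : ‖DTc ω g‖ ≤ 1 * ‖g‖ := (DTc ω).le_of_opNorm_le (norm_DTc_le ω) g
  show ‖DTc ω g - g‖ ≤ _
  refine (norm_sub_le _ _).trans ?_
  linarith

theorem norm_Xy_le (ω : ℝ) (g : HH H) : ‖Xy ω g‖ ≤ 1 * ‖g‖ :=
  (Xy ω).le_of_opNorm_le (norm_dg_le (norm_Xy_fam ω)) g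

namespace Geo
variable (G : Geo H)

/-- the size of a test function in the a priori estimate -/
noncomputable def ts (g : HH H) : ℝ :=
  ‖LT G.ω G.lam (1 / 4) g‖ + √(‖LT G.ω G.lam (1 / 2) g‖ * ‖g‖)

theorem ts_nonneg (g : HH H) : 0 ≤ G.ts g := add_nonneg (norm_nonneg _) (Real.sqrt_nonneg _)

/-- `N_{1/4,∞}(T g) ≤ 2 (|Λ^{1/2} T g| |g|)^{1/2}` -/
theorem N2_Vf (g : HH H) : S2 G.lam (1 / 4) (Vf G.ω g) ∧
    N2 G.lam (1 / 4) (Vf G.ω g) ≤ 2 * √(‖LT G.ω G.lam (1 / 2) g‖ * ‖g‖) := by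
  have eZ : (fun n => ka G.ω n • (iota (Vf G.ω g n) : Z2 H) - g n) = ⇑(Xz G.ω g) := by
    funext n
    rw [Xz_apply]; rfl
  have h2 : (2 : ℝ) * (1 / 4) = 1 / 2 := by norm_num
  have h1 := agmon_fam0 (s := 1 / 4) G.lw.h1 (Vf_dz G.ω g)
    (fun n => ⟨H, H_memI, Vf_H G.ω g n⟩)
    (by rw [io_Vf, h2]; exact S2_TT' G (by norm_num) g) (by rw [eZ]; exact S2_l2 _ _)
  rw [eZ, h2, io_Vf, N2_TT G (by norm_num), N2_l2] at h1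
  refine ⟨h1.1, ?_⟩
  have h3 := norm_Xz_le G.ω g
  have h4 : N2 G.lam (1 / 4) (Vf G.ω g) ^ 2 ≤ (2 * √(‖LT G.ω G.lam (1 / 2) g‖ * ‖g‖)) ^ 2 := by
    rw [mul_pow, Real.sq_sqrt (by positivity)]
    refine h1.2.trans ?_
    have := norm_nonneg (LT G.ω G.lam (1 / 2) g)
    nlinarith [mul_le_mul_of_nonneg_left h3 this]
  exact abs_le_of_sq_le_sq' h4 (by positivity) |>.2

theorem gt_eq (B : Bg H) (t : ℝ) (x : HH H × HH H) :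
    G.gt B t x = G.gV B t x + Ms G.ζ (cm G.J (G.qL x.1)) := by
  show _ = G.Qd x.2 + B.gL t - Ms G.ζ (cm G.J (G.qL x.1)) + Ms G.ζ (cm G.J (G.qL x.1))
  rw [sub_add_cancel]; rfl

/-- the bound of the velocity -/
theorem N2_gt (B : Bg H) {t M : ℝ} {x : HH H × HH H} (hq : ‖G.qL x.1‖ ≤ M)
    (hV : N2 G.lam (3 / 8) (G.VV B t x) ≤ M) :
    N2 G.lam (3 / 8) (TT G.ω (G.gt B t x) : HH H) ≤
      M + ‖(LT G.ω G.lam (3 / 8) : HH H →L[ℂ] HH H)‖ * (‖Ms G.ζ‖ * (‖cm G.J‖ * M)) := by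
  have h3 : (3 / 8 : ℝ) ≤ 1 := by norm_num
  have e : ⇑(TT G.ω (G.gt B t x) : HH H) = fun n => G.VV B t x n +
      TT G.ω (Ms G.ζ (cm G.J (G.qL x.1))) n := by
    rw [gt_eq, map_add]
    rfl
  have h1 := (S2_add G.lw.h1 (S2_TT' G h3 (G.gV B t x))
    (S2_TT' G h3 (Ms G.ζ (cm G.J (G.qL x.1))))).2
  rw [e]
  refine h1.trans (add_le_add hV ?_)
  rw [N2_TT G h3]
  refine (ContinuousLinearMap.le_opNorm _ _).trans ?_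
  gcongr
  refine (ContinuousLinearMap.le_opNorm _ _).trans ?_
  gcongr
  refine (ContinuousLinearMap.le_opNorm _ _).trans ?_
  gcongr

/-- the two components of the velocity `u[T g]` -/
theorem S2_iu (g : HH H) :
    (S2 G.lam (3 / 8) (io (uV G.ω (Vf G.ω g))) ∧
      N2 G.lam (3 / 8) (io (uV G.ω (Vf G.ω g))) ≤ 2 * N2 G.lam (3 / 8) (⇑(TT G.ω g))) ∧
    (S2 G.lam (3 / 8) (io (wV G.ω (Vf G.ω g))) ∧
      N2 G.lam (3 / 8) (io (wV G.ω (Vf G.ω g))) ≤ 1 * N2 G.lam (3 / 8) (⇑(TT G.ω g))) := by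
  have h1 := S2_iuV (s := 3 / 8) G.lw.h1 G.ω (V := Vf G.ω g)
    (by rw [io_Vf]; exact S2_TT' G (by norm_num) g)
  rwa [io_Vf] at h1

theorem pw38 : PrW G.lam 0 (3 / 8) (1 / 4) :=
  G.prW (by norm_num) (by norm_num) (by norm_num) (by norm_num)

theorem S2_huv (g : HH H) : S2 G.lam (1 / 2) (uV G.ω (Vf G.ω g)) ∧
    S2 G.lam (1 / 2) (wV G.ω (Vf G.ω g)) := by
  have e1 : uV G.ω (Vf G.ω g) = hf G.lam (UV G.ω G.lam g) := by funext n; rw [hf_UV]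
  have e2 : wV G.ω (Vf G.ω g) = hf G.lam (UW G.ω G.lam g) := by funext n; rw [hf_UW]
  rw [e1, e2]
  exact ⟨(S2_hf G.lw.h1 _).1, (S2_hf G.lw.h1 _).1⟩

/-- the product with the velocity `u[T g']`, tested with `T g` -/
theorem prd_UV (g y g' : HH H) :
    ‖⟪LT G.ω G.lam (1 / 4) g, prd G.pw y (UV G.ω G.lam g')⟫_ℂ‖ ≤
      CP G.lam (0 + 3 / 8 + 1 / 4) * ‖y‖ * (2 * N2 G.lam (3 / 8) (⇑(TT G.ω g'))) *
        (2 * √(‖LT G.ω G.lam (1 / 2) g‖ * ‖g‖)) := by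
  obtain ⟨⟨s1, n1⟩, -⟩ := G.S2_iu g'
  obtain ⟨s2, n2⟩ := G.N2_Vf g
  rw [inner_LT_prd G.lamOK, show hf G.lam (UV G.ω G.lam g') = uV G.ω (Vf G.ω g') by
    funext n; rw [hf_UV], dp_pz G.pw (S2_l2 _ y) (G.S2_huv g').1 (S2_TT' G (by norm_num) g),
    ← io_Vf]
  have h1 := (T3_sum' G.pw38 (r := Vf G.ω g) (u := uV G.ω (Vf G.ω g')) (S2_l2 G.lam y) s1 s2).2
  rw [N2_l2] at h1
  refine h1.trans ?_
  have h0 := CP_nonneg (lam := G.lam) (0 + 3 / 8 + 1 / 4)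
  have h3 := N2_nonneg (lam := G.lam) (1 / 4) (Vf G.ω g)
  have h4 : 0 ≤ N2 G.lam (3 / 8) fun n => (iota (uV G.ω (Vf G.ω g') n) : Z2 H) := N2_nonneg _ _
  have h5 := N2_nonneg (lam := G.lam) (3 / 8) (⇑(TT G.ω g'))
  have n1' : (N2 G.lam (3 / 8) fun n => (iota (uV G.ω (Vf G.ω g') n) : Z2 H)) ≤
    2 * N2 G.lam (3 / 8) (⇑(TT G.ω g')) := n1
  gcongr

theorem prd_UW (g y g' : HH H) :
    ‖⟪LT G.ω G.lam (1 / 4) g, prd G.pw y (UW G.ω G.lam g')⟫_ℂ‖ ≤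
      CP G.lam (0 + 3 / 8 + 1 / 4) * ‖y‖ * (2 * N2 G.lam (3 / 8) (⇑(TT G.ω g'))) *
        (2 * √(‖LT G.ω G.lam (1 / 2) g‖ * ‖g‖)) := by
  obtain ⟨-, ⟨s1, n1⟩⟩ := G.S2_iu g'
  obtain ⟨s2, n2⟩ := G.N2_Vf g
  rw [inner_LT_prd G.lamOK, show hf G.lam (UW G.ω G.lam g') = wV G.ω (Vf G.ω g') by
    funext n; rw [hf_UW], dp_pz G.pw (S2_l2 _ y) (G.S2_huv g').2 (S2_TT' G (by norm_num) g),
    ← io_Vf]
  have h1 := (T3_sum' G.pw38 (r := Vf G.ω g) (u := wV G.ω (Vf G.ω g')) (S2_l2 G.lam y) s1 s2).2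
  rw [N2_l2] at h1
  refine h1.trans ?_
  have h0 := CP_nonneg (lam := G.lam) (0 + 3 / 8 + 1 / 4)
  have h3 := N2_nonneg (lam := G.lam) (1 / 4) (Vf G.ω g)
  have h5 := N2_nonneg (lam := G.lam) (3 / 8) (⇑(TT G.ω g'))
  have h4 : 0 ≤ N2 G.lam (3 / 8) fun n => (iota (wV G.ω (Vf G.ω g') n) : Z2 H) := N2_nonneg _ _
  have n1' : (N2 G.lam (3 / 8) fun n => (iota (wV G.ω (Vf G.ω g') n) : Z2 H)) ≤
    2 * N2 G.lam (3 / 8) (⇑(TT G.ω g')) := by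
    have : (N2 G.lam (3 / 8) fun n => (iota (wV G.ω (Vf G.ω g') n) : Z2 H)) ≤
      1 * N2 G.lam (3 / 8) (⇑(TT G.ω g')) := n1
    linarith
  gcongr

/-- the vortex force of the velocity `u[T g']`, tested with `T g` -/
theorem Pw_U (g y g' : HH H) :
    ‖⟪LT G.ω G.lam (1 / 4) g, G.Pw y (UV G.ω G.lam g') (UW G.ω G.lam g')⟫_ℂ‖ ≤
      CP G.lam (0 + 3 / 8 + 1 / 4) * ‖y‖ * (4 * N2 G.lam (3 / 8) (⇑(TT G.ω g'))) *
        (2 * √(‖LT G.ω G.lam (1 / 2) g‖ * ‖g‖)) := by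
  obtain ⟨⟨s1, n1⟩, ⟨s1', n1'⟩⟩ := G.S2_iu g'
  obtain ⟨s2, n2⟩ := G.N2_Vf g
  have e1 : hf G.lam (UV G.ω G.lam g') = uV G.ω (Vf G.ω g') := by funext n; rw [hf_UV]
  have e2 : hf G.lam (UW G.ω G.lam g') = wV G.ω (Vf G.ω g') := by funext n; rw [hf_UW]
  rw [inner_LT_Pw, e1, e2, ← io_Vf]
  refine (bf_le' G.pw38 G.pw G.ω (S2_l2 _ y) s1 s1' s2 (S2_l2 _ y) (G.S2_huv g').1
    (G.S2_huv g').2 (by rw [io_Vf]; exact S2_TT' G (by norm_num) g)).trans ?_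
  rw [N2_l2]
  have h0 := CP_nonneg (lam := G.lam) (0 + 3 / 8 + 1 / 4)
  have h3 := N2_nonneg (lam := G.lam) (1 / 4) (Vf G.ω g)
  have h4 : 0 ≤ N2 G.lam (3 / 8) (io (uV G.ω (Vf G.ω g'))) := N2_nonneg _ _
  have h5 : 0 ≤ N2 G.lam (3 / 8) (io (wV G.ω (Vf G.ω g'))) := N2_nonneg _ _
  have h7 := N2_nonneg (lam := G.lam) (3 / 8) (⇑(TT G.ω g'))
  have h6 : 2 * N2 G.lam (3 / 8) (io (wV G.ω (Vf G.ω g'))) +
      N2 G.lam (3 / 8) (io (uV G.ω (Vf G.ω g'))) ≤ 4 * N2 G.lam (3 / 8) (⇑(TT G.ω g')) := by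
    linarith
  gcongr

theorem prd_le {lam : ℤ → ℝ} (pw : PrW lam 0 (1 / 2) (1 / 4)) (y : HH H) (v : l2 (CI H)) :
    ‖prd pw y v‖ ≤ CP lam (0 + 1 / 2 + 1 / 4) * ‖y‖ * ‖v‖ := by
  have h := pr_bound ((mz : CI H →L[ℂ] Z2 H →L[ℂ] Z2 H).flip) zero_le_one
    (fun e f => mz_bd e f) pw y v
  rw [mul_one] at h
  exact h

theorem inner_le {x y : HH H} {a b : ℝ} (hx : ‖x‖ ≤ a) (hy : ‖y‖ ≤ b) : ‖⟪x, y⟫_ℂ‖ ≤ a * b :=
  (norm_inner_le_norm x y).trans (mul_le_mul hx hy (norm_nonneg _) ((norm_nonneg _).trans hx))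

theorem prod_arith {C0 Y N M' s a P R : ℝ} (h1 : 0 ≤ C0) (h2 : 0 ≤ Y) (h4 : 0 ≤ M')
    (h5 : 0 ≤ s) (h6 : 0 ≤ a) (h7 : 0 ≤ P) (h8 : 0 ≤ R) (hN : N ≤ M') :
    C0 * Y * (2 * N) * (2 * s) + a * (P * Y * R) ≤ (C0 * (4 * M') * 2 + 3 * P * R) * Y * (a + s) ∧
    C0 * Y * (4 * N) * (2 * s) + a * (3 * (P * Y * R)) ≤
      (C0 * (4 * M') * 2 + 3 * P * R) * Y * (a + s) := by
  have k1 : 0 ≤ C0 * (4 * M') * 2 * Y * a := by positivity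
  have k2 : 0 ≤ 3 * P * R * Y * s := by positivity
  have k3 : 0 ≤ C0 * Y * (2 * s) := by positivity
  have k4 : 0 ≤ a * (P * Y * R) := by positivity
  have k5 := mul_le_mul_of_nonneg_left hN k3
  have k6 : 0 ≤ C0 * Y * (2 * s) * M' := by positivity
  constructor <;> nlinarith

/-- products with the full velocity, tested -/
theorem prod_bound {B : Bg H} {t₀ t₁ : ℝ} (hB : B.Cont t₀ t₁) (M : ℝ) : ∃ C, 0 ≤ C ∧
    ∀ t ∈ Icc t₀ t₁, ∀ x : HH H × HH H, ‖G.qL x.1‖ ≤ M → N2 G.lam (3 / 8) (G.VV B t x) ≤ M →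
    ∀ g y : HH H,
      ‖⟪LT G.ω G.lam (1 / 4) g, prd G.pw y (G.uv B t x)⟫_ℂ‖ ≤ C * ‖y‖ * G.ts g ∧
      ‖⟪LT G.ω G.lam (1 / 4) g, prd G.pw y (G.uw B t x)⟫_ℂ‖ ≤ C * ‖y‖ * G.ts g ∧
      ‖⟪LT G.ω G.lam (1 / 4) g, G.Pw y (G.uv B t x) (G.uw B t x)⟫_ℂ‖ ≤ C * ‖y‖ * G.ts g := by
  obtain ⟨Rv, hRv⟩ := isCompact_Icc.exists_bound_of_continuousOn hB.ve
  obtain ⟨Rw, hRw⟩ := isCompact_Icc.exists_bound_of_continuousOn hB.we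
  obtain ⟨R, hR⟩ : ∃ R, R = |Rv| + |Rw| := ⟨_, rfl⟩
  have hR0 : 0 ≤ R := by rw [hR]; positivity
  obtain ⟨M', hM'⟩ : ∃ M', M' = |M| +
    ‖(LT G.ω G.lam (3 / 8) : HH H →L[ℂ] HH H)‖ * (‖Ms G.ζ‖ * (‖cm G.J‖ * |M|)) := ⟨_, rfl⟩
  have hM'0 : 0 ≤ M' := by rw [hM']; positivity
  have hP0 : 0 ≤ CP G.lam (0 + 1 / 2 + 1 / 4) := CP_nonneg _
  have hC00 : 0 ≤ CP G.lam (0 + 3 / 8 + 1 / 4) := CP_nonneg _
  refine ⟨CP G.lam (0 + 3 / 8 + 1 / 4) * (4 * M') * 2 + 3 * CP G.lam (0 + 1 / 2 + 1 / 4) * R,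
    by positivity, fun t ht x hq hV g y => ?_⟩
  have hN : N2 G.lam (3 / 8) (TT G.ω (G.gt B t x) : HH H) ≤ M' := by
    rw [hM']
    exact G.N2_gt B (hq.trans (le_abs_self M)) (hV.trans (le_abs_self M))
  have hve : ‖B.ve t‖ ≤ R := by
    have := hRv t ht
    have := le_abs_self Rv
    have := abs_nonneg Rw
    rw [hR]
    linarith
  have hwe : ‖B.we t‖ ≤ R := by
    have := hRw t ht
    have := le_abs_self Rw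
    have := abs_nonneg Rv
    rw [hR]
    linarith
  have ha0 : 0 ≤ ‖LT G.ω G.lam (1 / 4) g‖ := norm_nonneg _
  have hs0 : 0 ≤ √(‖LT G.ω G.lam (1 / 2) g‖ * ‖g‖) := Real.sqrt_nonneg _
  have hy := norm_nonneg y
  obtain ⟨ar1, ar3⟩ := prod_arith hC00 hy hM'0 hs0 ha0 hP0 hR0 hN
  have hpv : ‖prd G.pw y (B.ve t)‖ ≤ CP G.lam (0 + 1 / 2 + 1 / 4) * ‖y‖ * R :=
    (prd_le G.pw y _).trans (mul_le_mul_of_nonneg_left hve (mul_nonneg hP0 hy))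
  have hpw : ‖prd G.pw y (B.we t)‖ ≤ CP G.lam (0 + 1 / 2 + 1 / 4) * ‖y‖ * R :=
    (prd_le G.pw y _).trans (mul_le_mul_of_nonneg_left hwe (mul_nonneg hP0 hy))
  have b1 : ‖⟪LT G.ω G.lam (1 / 4) g, prd G.pw y (B.ve t)⟫_ℂ‖ ≤
      ‖LT G.ω G.lam (1 / 4) g‖ * (CP G.lam (0 + 1 / 2 + 1 / 4) * ‖y‖ * R) := inner_le le_rfl hpv
  have b2 : ‖⟪LT G.ω G.lam (1 / 4) g, prd G.pw y (B.we t)⟫_ℂ‖ ≤
      ‖LT G.ω G.lam (1 / 4) g‖ * (CP G.lam (0 + 1 / 2 + 1 / 4) * ‖y‖ * R) := inner_le le_rfl hpw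
  have b3 : ‖⟪LT G.ω G.lam (1 / 4) g, G.Pw y (B.ve t) (B.we t)⟫_ℂ‖ ≤
      ‖LT G.ω G.lam (1 / 4) g‖ * (3 * (CP G.lam (0 + 1 / 2 + 1 / 4) * ‖y‖ * R)) := by
    refine inner_le le_rfl ?_
    show ‖-(Xz G.ω (prd G.pw y (B.we t)) + Xy G.ω (prd G.pw y (B.ve t)))‖ ≤ _
    rw [norm_neg]
    refine (norm_add_le _ _).trans ?_
    have h1 := norm_Xz_le G.ω (prd G.pw y (B.we t))
    have h2 := norm_Xy_le G.ω (prd G.pw y (B.ve t))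
    linarith
  have e1 : G.uv B t x = UV G.ω G.lam (G.gt B t x) + B.ve t := rfl
  have e2 : G.uw B t x = UW G.ω G.lam (G.gt B t x) + B.we t := rfl
  refine ⟨?_, ?_, ?_⟩
  · rw [e1, map_add, inner_add_right]
    exact (norm_add_le _ _).trans ((add_le_add (G.prd_UV g y (G.gt B t x)) b1).trans ar1)
  · rw [e2, map_add, inner_add_right]
    exact (norm_add_le _ _).trans ((add_le_add (G.prd_UW g y (G.gt B t x)) b2).trans ar1)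
  · have e3 : G.Pw y (G.uv B t x) (G.uw B t x) =
        G.Pw y (UV G.ω G.lam (G.gt B t x)) (UW G.ω G.lam (G.gt B t x)) +
          G.Pw y (B.ve t) (B.we t) := by
      rw [e1, e2]
      show -(Xz G.ω (prd G.pw y (_ + _)) + Xy G.ω (prd G.pw y (_ + _))) =
        -(Xz G.ω (prd G.pw y _) + Xy G.ω (prd G.pw y _)) +
          -(Xz G.ω (prd G.pw y _) + Xy G.ω (prd G.pw y _))
      simp only [map_add]
      abel
    rw [e3, inner_add_right]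
    exact (norm_add_le _ _).trans ((add_le_add (G.Pw_U g y (G.gt B t x)) b3).trans ar3)

/-- **the nonlinearity under a bound of `|q|` and `|Λ^{3/8} V|`.** -/
theorem Phi_bound {B : Bg H} {t₀ t₁ : ℝ} (hB : B.Cont t₀ t₁) (M : ℝ) : ∃ C, 0 ≤ C ∧
    ∀ t ∈ Icc t₀ t₁, ∀ x : HH H × HH H, ‖G.qL x.1‖ ≤ M → N2 G.lam (3 / 8) (G.VV B t x) ≤ M →
    (∀ g : HH H, ‖⟪LT G.ω G.lam (1 / 4) g, G.f1 B t x⟫_ℂ‖ ≤ C * (1 + ‖x‖) * G.ts g) ∧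
    ‖G.f2 B t x‖ ≤ C * (1 + ‖x‖) ∧
    (∀ g : HH H, ‖⟪LT G.ω G.lam (1 / 4) g, G.f3 B t x⟫_ℂ‖ ≤ C * (1 + ‖x‖) * G.ts g) ∧
    ‖G.f4 B t x‖ ≤ C * (1 + ‖x‖) := by
  obtain ⟨C1, hC1, h1⟩ := G.prod_bound hB M
  -- affine quantities
  have af2 : AffE (G.f2 B) t₀ t₁ :=
    AffE.congr (AffE.sub (AffE.bil (gV_aff (G := G) hB) hB.κ (MsB H))
      (AffE.bil (VV_aff (G := G) hB) hB.κ1 (MsB H))) fun _ _ => rfl
  obtain ⟨M2, hM2, l2, z2⟩ := af2.ex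
  obtain ⟨M3, hM3, l3, z3⟩ := (om_aff (G := G) hB).ex
  have af4 : AffE (fun t x => -(2:ℂ) • Xz G.ω (Ms G.ζ1 (G.qL x.1)) +
      TT G.ω (Ms G.ζ2 (G.qL x.1) + Ms G.ζ1 (Ms (B.κ t) (G.VV B t x))) +
      (Ms G.ζ (Ms (B.κ t) (G.VV B t x)) - Ms (B.κ t) (G.VV B t x)) + (B.FL t + B.fc t)) t₀ t₁ := by
    have k1 := AffE.clm (AffE.clm (AffE.clm (q_aff (G := G) (t₀ := t₀) (t₁ := t₁)) (Ms G.ζ1))
      (Xz G.ω)) (-(2:ℂ) • ContinuousLinearMap.id ℂ (HH H))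
    have k2 := AffE.clm (AffE.add (AffE.clm (q_aff (G := G) (t₀ := t₀) (t₁ := t₁)) (Ms G.ζ2))
      (AffE.clm (kV_aff (G := G) hB) (Ms G.ζ1))) (TT G.ω)
    have k3 := AffE.sub (AffE.clm (kV_aff (G := G) hB) (Ms G.ζ)) (kV_aff (G := G) hB)
    have k4 : AffE (fun t (_ : HH H × HH H) => B.FL t + B.fc t) t₀ t₁ :=
      AffE.add (AffE.const hB.FL) (AffE.const hB.fc)
    exact AffE.congr (AffE.add (AffE.add (AffE.add k1 k2) k3) k4) fun _ _ => rfl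
  obtain ⟨M4, hM4, l4, z4⟩ := af4.ex
  obtain ⟨M5, hM5, l5, z5⟩ := (uw_aff (G := G) hB).ex
  obtain ⟨P, hP⟩ : ∃ P, P = CP G.lam (0 + 1 / 2 + 1 / 4) := ⟨_, rfl⟩
  have hP0 : 0 ≤ P := by rw [hP]; exact CP_nonneg _
  obtain ⟨Q, hQ⟩ : ∃ Q, Q = ‖G.Qo‖ := ⟨_, rfl⟩
  have hQ0 : 0 ≤ Q := by rw [hQ]; exact norm_nonneg _
  obtain ⟨L, hL⟩ : ∃ L, L = ‖(LT G.ω G.lam (1 / 4) : HH H →L[ℂ] HH H)‖ * ‖Ms G.ζ1‖ * P * |M| :=
    ⟨_, rfl⟩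
  have hL0 : 0 ≤ L := by rw [hL]; positivity
  refine ⟨C1 * (3 * Q) + M2 + C1 * M3 + (M4 + L * M5), by positivity, fun t ht x hq hV => ?_⟩
  have hx0 := norm_nonneg x
  have k1 : 0 ≤ C1 * (3 * Q) := by positivity
  have k3 : 0 ≤ C1 * M3 := by positivity
  have k4 : 0 ≤ L * M5 := by positivity
  refine ⟨fun g => ?_, ?_, fun g => ?_, ?_⟩
  · have ht0 := G.ts_nonneg g
    obtain ⟨a1, -, -⟩ := h1 t ht x hq hV g (Xy G.ω (G.Qo x.1))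
    obtain ⟨-, a2, -⟩ := h1 t ht x hq hV g (Xz G.ω (G.Qo x.1))
    have b0 : ‖G.Qo x.1‖ ≤ Q * ‖x‖ := by
      rw [hQ]
      exact (G.Qo.le_opNorm _).trans (mul_le_mul_of_nonneg_left (norm_fst_le x) (norm_nonneg _))
    have b1 := norm_Xy_le G.ω (G.Qo x.1)
    have b2 := norm_Xz_le G.ω (G.Qo x.1)
    show ‖⟪LT G.ω G.lam (1 / 4) g, -(prd G.pw (Xy G.ω (G.Qo x.1)) (G.uv B t x) +
      prd G.pw (Xz G.ω (G.Qo x.1)) (G.uw B t x))⟫_ℂ‖ ≤ _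
    rw [inner_neg_right, norm_neg, inner_add_right]
    refine (norm_add_le _ _).trans ((add_le_add a1 a2).trans ?_)
    calc C1 * ‖Xy G.ω (G.Qo x.1)‖ * G.ts g + C1 * ‖Xz G.ω (G.Qo x.1)‖ * G.ts g
        = C1 * (‖Xy G.ω (G.Qo x.1)‖ + ‖Xz G.ω (G.Qo x.1)‖) * G.ts g := by ring
      _ ≤ C1 * (3 * (Q * (1 + ‖x‖))) * G.ts g := by
          have : ‖Xy G.ω (G.Qo x.1)‖ + ‖Xz G.ω (G.Qo x.1)‖ ≤ 3 * (Q * (1 + ‖x‖)) := by nlinarith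
          gcongr
      _ = C1 * (3 * Q) * (1 + ‖x‖) * G.ts g := by ring
      _ ≤ _ := by
          gcongr
          linarith
  · refine (AffE.bound l2 z2 ht x).trans ?_
    gcongr
    linarith
  · have ht0 := G.ts_nonneg g
    obtain ⟨-, -, a3⟩ := h1 t ht x hq hV g (G.om B t x)
    refine a3.trans ?_
    have b3 := AffE.bound l3 z3 ht x
    calc C1 * ‖G.om B t x‖ * G.ts g ≤ C1 * (M3 * (1 + ‖x‖)) * G.ts g := by gcongr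
      _ = C1 * M3 * (1 + ‖x‖) * G.ts g := by ring
      _ ≤ _ := by
          gcongr
          linarith
  · have b4 := AffE.bound l4 z4 ht x
    have b5 := AffE.bound l5 z5 ht x
    have e : G.f4 B t x = (-(2:ℂ) • Xz G.ω (Ms G.ζ1 (G.qL x.1)) +
      TT G.ω (Ms G.ζ2 (G.qL x.1) + Ms G.ζ1 (Ms (B.κ t) (G.VV B t x))) +
      (Ms G.ζ (Ms (B.κ t) (G.VV B t x)) - Ms (B.κ t) (G.VV B t x)) + (B.FL t + B.fc t)) +
      LT G.ω G.lam (1 / 4) (Ms G.ζ1 (prd G.pw (G.qL x.1) (G.uw B t x))) := by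
      show (-(2:ℂ) • Xz G.ω (Ms G.ζ1 (G.qL x.1)) +
        TT G.ω (Ms G.ζ2 (G.qL x.1) + Ms G.ζ1 (Ms (B.κ t) (G.VV B t x))) +
        LT G.ω G.lam (1 / 4) (Ms G.ζ1 (prd G.pw (G.qL x.1) (G.uw B t x)))) +
        (Ms G.ζ (Ms (B.κ t) (G.VV B t x)) - Ms (B.κ t) (G.VV B t x)) + (B.FL t + B.fc t) = _
      abel
    have c : ‖LT G.ω G.lam (1 / 4) (Ms G.ζ1 (prd G.pw (G.qL x.1) (G.uw B t x)))‖ ≤
        L * (M5 * (1 + ‖x‖)) := by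
      refine (ContinuousLinearMap.le_opNorm _ _).trans ?_
      have c1 := (Ms G.ζ1).le_opNorm (prd G.pw (G.qL x.1) (G.uw B t x))
      have c2 := prd_le G.pw (G.qL x.1) (G.uw B t x)
      rw [← hP] at c2
      have c3 : ‖G.qL x.1‖ ≤ |M| := hq.trans (le_abs_self M)
      calc ‖(LT G.ω G.lam (1 / 4) : HH H →L[ℂ] HH H)‖ *
            ‖Ms G.ζ1 (prd G.pw (G.qL x.1) (G.uw B t x))‖
          ≤ ‖(LT G.ω G.lam (1 / 4) : HH H →L[ℂ] HH H)‖ * (‖Ms G.ζ1‖ * (P * |M| * (M5 * (1 + ‖x‖)))) := by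
            gcongr
            refine c1.trans ?_
            gcongr
            refine c2.trans ?_
            gcongr
        _ = _ := by rw [hL]; ring
    rw [e]
    refine (norm_add_le _ _).trans ((add_le_add b4 c).trans ?_)
    have : 0 ≤ (C1 * (3 * Q) + M2 + C1 * M3) * (1 + ‖x‖) := by positivity
    calc M4 * (1 + ‖x‖) + L * (M5 * (1 + ‖x‖)) = (M4 + L * M5) * (1 + ‖x‖) := by ring
      _ ≤ (C1 * (3 * Q) + M2 + C1 * M3) * (1 + ‖x‖) + (M4 + L * M5) * (1 + ‖x‖) := by linarith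
      _ = _ := by ring

theorem rpow_le_kth {τ : ℝ} (hτ : 0 < τ) {s : ℝ} (h0 : 0 ≤ s) (h1 : s ≤ 7 / 8) :
    τ ^ (-s) ≤ kth (7 / 8) τ := by
  unfold kth
  rcases le_total τ 1 with h2 | h2
  · have := Real.rpow_le_rpow_of_exponent_ge hτ h2 (show -(7 / 8 : ℝ) ≤ -s by linarith)
    linarith
  · have := Real.rpow_le_one_of_one_le_of_nonpos h2 (show -s ≤ 0 by linarith)
    have h3 := Real.rpow_nonneg hτ.le (-(7 / 8 : ℝ))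
    linarith

/-- smoothing in terms of `ts` -/
theorem ts_smooth (D : OD (HH H)) (hT : D.T = TT G.ω) : ∃ c, 0 ≤ c ∧ ∀ τ, 0 < τ → ∀ φ : HH H,
    G.ts (D.Q (Kh D.K) (AS D.K τ φ)) ≤ c * kth (7 / 8) τ * ‖φ‖ := by
  obtain ⟨b, hb⟩ : ∃ b, b = 2 * (‖D.bi‖ + (G.N₀ + G.ω) * (H + G.ω⁻¹) * (√D.c₀)⁻¹) := ⟨_, rfl⟩
  have hω := G.ω_pos
  have hN := G.hN
  have hH0 := hH.out
  have hb0 : 0 ≤ b := by rw [hb]; positivity
  obtain ⟨d, hd⟩ : ∃ d, d = (√D.c₀)⁻¹ := ⟨_, rfl⟩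
  have hd0 : 0 ≤ d := by rw [hd]; positivity
  refine ⟨b + √(b * d), by positivity, fun τ hτ φ => ?_⟩
  have h1 := G.lamOK.LTQAS D hT (s := 1 / 4) (by norm_num) (by norm_num) hτ φ
  have h2 := G.lamOK.LTQAS D hT (s := 1 / 2) (by norm_num) (by norm_num) hτ φ
  have h3 := D.QAS hτ φ
  rw [← hb, show -((1 + (1 / 4 : ℝ)) / 2) = -(5 / 8) by norm_num] at h1
  rw [← hb, show -((1 + (1 / 2 : ℝ)) / 2) = -(3 / 4) by norm_num] at h2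
  rw [← hd] at h3
  have hφ := norm_nonneg φ
  have k0 := kth_pos (7 / 8) hτ
  have e1 : ‖LT G.ω G.lam (1 / 4) (D.Q (Kh D.K) (AS D.K τ φ))‖ ≤ b * kth (7 / 8) τ * ‖φ‖ := by
    refine h1.trans ?_
    have := rpow_le_kth hτ (show (0:ℝ) ≤ 5 / 8 by norm_num) (by norm_num)
    gcongr
  have e2 : √(‖LT G.ω G.lam (1 / 2) (D.Q (Kh D.K) (AS D.K τ φ))‖ * ‖D.Q (Kh D.K) (AS D.K τ φ)‖) ≤
      √(b * d) * kth (7 / 8) τ * ‖φ‖ := by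
    refine Real.sqrt_le_iff.2 ⟨by positivity, ?_⟩
    have e3 : τ ^ (-(3 / 4 : ℝ)) * τ⁻¹ = (τ ^ (-(7 / 8 : ℝ))) ^ 2 := by
      rw [← Real.rpow_natCast (τ ^ (-(7 / 8 : ℝ))) 2, ← Real.rpow_mul hτ.le, ← Real.rpow_neg_one,
        ← Real.rpow_add hτ]
      congr 1
      push_cast
      norm_num
    calc ‖LT G.ω G.lam (1 / 2) (D.Q (Kh D.K) (AS D.K τ φ))‖ * ‖D.Q (Kh D.K) (AS D.K τ φ)‖
        ≤ (b * τ ^ (-(3 / 4 : ℝ)) * ‖φ‖) * (d * τ⁻¹ * ‖φ‖) := by gcongr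
      _ = (b * d) * (τ ^ (-(3 / 4 : ℝ)) * τ⁻¹) * ‖φ‖ ^ 2 := by ring
      _ = (b * d) * (τ ^ (-(7 / 8 : ℝ))) ^ 2 * ‖φ‖ ^ 2 := by rw [e3]
      _ ≤ (b * d) * (kth (7 / 8) τ) ^ 2 * ‖φ‖ ^ 2 := by
          have := rpow_le_kth hτ (show (0:ℝ) ≤ 7 / 8 by norm_num) le_rfl
          gcongr
      _ = _ := by
          rw [mul_pow, mul_pow, Real.sq_sqrt (mul_nonneg hb0 hd0)]
  calc G.ts (D.Q (Kh D.K) (AS D.K τ φ)) ≤ b * kth (7 / 8) τ * ‖φ‖ +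
        √(b * d) * kth (7 / 8) τ * ‖φ‖ := add_le_add e1 e2
    _ = _ := by ring

theorem norm_le_of_inner {y : HH H} {c : ℝ} (hc : 0 ≤ c) (h : ∀ φ : HH H, ‖⟪φ, y⟫_ℂ‖ ≤ c * ‖φ‖) :
    ‖y‖ ≤ c := by
  have h1 := h y
  rw [inner_self_eq_norm_sq_to_K] at h1
  have h2 : ‖((‖y‖ : ℝ) : ℂ) ^ 2‖ = ‖y‖ ^ 2 := by
    rw [norm_pow, Complex.norm_real, norm_norm]
  have h3 : ‖y‖ ^ 2 ≤ c * ‖y‖ := by rw [← h2]; exact h1
  rcases eq_or_lt_of_le (norm_nonneg y) with h0 | h0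
  · rw [← h0]; exact hc
  · nlinarith

/-- one component of the Duhamel kernel -/
theorem kernel_bound (D : OD (HH H)) (hT : D.T = TT G.ω) : ∃ c, 0 ≤ c ∧ ∀ τ, 0 < τ →
    ∀ (f f' : HH H) (R : ℝ), 0 ≤ R →
    (∀ g : HH H, ‖⟪LT G.ω G.lam (1 / 4) g, f⟫_ℂ‖ ≤ R * G.ts g) → ‖f'‖ ≤ R →
    ‖AS D.K τ ((LT G.ω G.lam (1 / 4) ∘L D.Q (Kh D.K)).adjoint f +
      (TT G.ω ∘L D.Q (Kh D.K)).adjoint f')‖ ≤ c * kth (7 / 8) τ * R := by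
  obtain ⟨c, hc, h⟩ := G.ts_smooth D hT
  refine ⟨c + 2 * ‖D.bi‖, by positivity, fun τ hτ f f' R hR hf hf' => ?_⟩
  have k0 := kth_pos (7 / 8) hτ
  refine norm_le_of_inner (by positivity) fun φ => ?_
  have hφ := norm_nonneg φ
  have e : ⟪φ, AS D.K τ ((LT G.ω G.lam (1 / 4) ∘L D.Q (Kh D.K)).adjoint f +
      (TT G.ω ∘L D.Q (Kh D.K)).adjoint f')⟫_ℂ =
      ⟪LT G.ω G.lam (1 / 4) (D.Q (Kh D.K) (AS D.K τ φ)), f⟫_ℂ +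
      ⟪TT G.ω (D.Q (Kh D.K) (AS D.K τ φ)), f'⟫_ℂ := by
    rw [← AS_inner, inner_add_right, ContinuousLinearMap.adjoint_inner_right,
      ContinuousLinearMap.adjoint_inner_right]
    rfl
  rw [e]
  refine (norm_add_le _ _).trans ?_
  have h1 := hf (D.Q (Kh D.K) (AS D.K τ φ))
  have h2 := h τ hτ φ
  have h3 : ‖TT G.ω (D.Q (Kh D.K) (AS D.K τ φ))‖ ≤ 2 * ‖D.bi‖ * kth (7 / 8) τ * ‖φ‖ := by
    have h4 := D.TQAS hτ φ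
    rw [hT] at h4
    have h5 : (√τ)⁻¹ ≤ kth (7 / 8) τ := by
      have := rpow_le_kth hτ (show (0:ℝ) ≤ 1 / 2 by norm_num) (by norm_num)
      rwa [Real.rpow_neg hτ.le, ← Real.sqrt_eq_rpow] at this
    have h6 := norm_nonneg D.bi
    calc _ ≤ ‖D.bi‖ * (√τ)⁻¹ * ‖φ‖ := h4
      _ ≤ ‖D.bi‖ * kth (7 / 8) τ * ‖φ‖ := by gcongr
      _ ≤ 2 * ‖D.bi‖ * kth (7 / 8) τ * ‖φ‖ := by
          have : 0 ≤ ‖D.bi‖ * kth (7 / 8) τ * ‖φ‖ := by positivity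
          linarith
  have h7 : ‖⟪TT G.ω (D.Q (Kh D.K) (AS D.K τ φ)), f'⟫_ℂ‖ ≤
      2 * ‖D.bi‖ * kth (7 / 8) τ * ‖φ‖ * R := inner_le h3 hf'
  have h8 : R * G.ts (D.Q (Kh D.K) (AS D.K τ φ)) ≤ R * (c * kth (7 / 8) τ * ‖φ‖) :=
    mul_le_mul_of_nonneg_left h2 hR
  calc _ ≤ R * (c * kth (7 / 8) τ * ‖φ‖) + 2 * ‖D.bi‖ * kth (7 / 8) τ * ‖φ‖ * R :=
        add_le_add (h1.trans h8) h7
    _ = _ := by ring

variable {G} {B : Bg H} {t₀ t₁ : ℝ} {x₀ : HH H × HH H}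

/-- **EX2, a priori bound.** -/
theorem Sol.bound (hB : B.Cont t₀ t₁) (x₀ : HH H × HH H) (M : ℝ) : ∃ R, ∀ c ∈ Icc t₀ t₁,
    ∀ x, G.Sol B t₀ c x₀ x →
    (∀ t ∈ Icc t₀ c, ‖G.qL (x t).1‖ ≤ M ∧ N2 G.lam (3 / 8) (G.VV B t (x t)) ≤ M) →
    ∀ t ∈ Icc t₀ c, ‖x t‖ ≤ R := by
  obtain ⟨Ck, hCk⟩ := G.ker
  obtain ⟨C, hC, hΦ⟩ := G.Phi_bound hB M
  obtain ⟨c1, hc1, k1⟩ := G.kernel_bound G.Do rfl
  obtain ⟨c2, hc2, k2⟩ := G.kernel_bound G.D rfl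
  obtain ⟨μ, hμ, hgr⟩ := kth_gron (show (0:ℝ) ≤ 7 / 8 by norm_num) (by norm_num)
    (show 0 ≤ (c1 + c2) * C by positivity)
  refine ⟨2 * (1 + ‖x₀‖) * Real.exp (μ * (t₁ - t₀)), fun c hc x hx hM t ht => ?_⟩
  have hBc : B.Cont t₀ c := by
    have hs : Icc t₀ c ⊆ Icc t₀ t₁ := Icc_subset_Icc le_rfl hc.2
    exact ⟨hB.ve.mono hs, hB.we.mono hs, hB.gL.mono hs, hB.FL.mono hs, hB.fc.mono hs,
      hB.κ.mono hs, hB.κ1.mono hs⟩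
  have key : ∀ t ∈ Icc t₀ c, 1 + ‖x t‖ ≤ (1 + ‖x₀‖) +
      (c1 + c2) * C * ∫ r in t₀..t, kth (7 / 8) (t - r) * (1 + ‖x r‖) := by
    intro t ht
    rw [hx.eq t ht]
    have e1 : ‖G.SS (t - t₀) x₀‖ ≤ ‖x₀‖ := hCk.sb _ (sub_nonneg.2 ht.1) x₀
    have hfn : ContinuousOn (fun r => 1 + ‖x r‖) (uIcc t₀ t) := by
      rw [uIcc_of_le ht.1]
      exact continuousOn_const.add (hx.cont.mono (Icc_subset_Icc le_rfl ht.2)).norm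
    have i1 : IntervalIntegrable (fun r => (c1 + c2) * C * (kth (7 / 8) (t - r) * (1 + ‖x r‖)))
        volume t₀ t :=
      ((kth_int' (show (7 / 8 : ℝ) < 1 by norm_num) t t₀ t).mul_continuousOn hfn).const_mul _
    have e2 : ‖∫ r in t₀..t, G.LL (t - r) (G.Phi B r (x r))‖ ≤
        ∫ r in t₀..t, (c1 + c2) * C * (kth (7 / 8) (t - r) * (1 + ‖x r‖)) := by
      refine intervalIntegral.norm_integral_le_of_norm_le ht.1 ?_ i1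
      have : ∀ᵐ r : ℝ ∂volume, r ≠ t := by simp [ae_iff, measure_singleton]
      filter_upwards [this] with r hrt hr
      have h3 : 0 < t - r := sub_pos.2 (lt_of_le_of_ne hr.2 hrt)
      have hrI : r ∈ Icc t₀ c := ⟨hr.1.le, hr.2.trans ht.2⟩
      obtain ⟨m1, m2⟩ := hM r hrI
      obtain ⟨p1, p2, p3, p4⟩ := hΦ r ⟨hrI.1, hrI.2.trans hc.2⟩ (x r) m1 m2
      have hR : 0 ≤ C * (1 + ‖x r‖) := by positivity
      have q1 := k1 (t - r) h3 (G.f1 B r (x r)) (G.f2 B r (x r)) _ hR p1 p2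
      have q2 := k2 (t - r) h3 (G.f3 B r (x r)) (G.f4 B r (x r)) _ hR p3 p4
      have k0 := kth_pos (7 / 8) h3
      show max ‖AS G.Do.K (t - r) (G.J1 (G.f1 B r (x r)) + G.J2 (G.f2 B r (x r)))‖
        ‖AS G.D.K (t - r) (G.J3 (G.f3 B r (x r)) + G.J4 (G.f4 B r (x r)))‖ ≤ _
      refine max_le (q1.trans ?_) (q2.trans ?_)
      · have : 0 ≤ c2 * kth (7 / 8) (t - r) * (C * (1 + ‖x r‖)) := by positivity
        nlinarith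
      · have : 0 ≤ c1 * kth (7 / 8) (t - r) * (C * (1 + ‖x r‖)) := by positivity
        nlinarith
    rw [intervalIntegral.integral_const_mul] at e2
    rw [add_assoc]
    exact add_le_add le_rfl ((norm_add_le _ _).trans (add_le_add e1 e2))
  have h1 := hgr t₀ c (1 + ‖x₀‖) (fun t => 1 + ‖x t‖) (by positivity)
    (continuousOn_const.add hx.cont.norm) (fun t _ => by positivity) key t ht
  have h2 : Real.exp (μ * (t - t₀)) ≤ Real.exp (μ * (t₁ - t₀)) := by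
    refine Real.exp_le_exp.2 (mul_le_mul_of_nonneg_left ?_ hμ.le)
    linarith [ht.2, hc.2]
  have h3 : 2 * (1 + ‖x₀‖) * Real.exp (μ * (t - t₀)) ≤ 2 * (1 + ‖x₀‖) * Real.exp (μ * (t₁ - t₀)) :=
    mul_le_mul_of_nonneg_left h2 (by positivity)
  have h4 : 1 + ‖x t‖ ≤ 2 * (1 + ‖x₀‖) * Real.exp (μ * (t - t₀)) := h1
  linarith

/-- **EX2, continuation.** If every solution on a subinterval `[t₀, c]` satisfies `|q| ≤ M` and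
`|Λ^{3/8} V| ≤ M` then there is a solution on `[t₀, t₁]`. -/
theorem Sol.continuation (h01 : t₀ ≤ t₁) (hB : B.Cont t₀ t₁) {M : ℝ}
    (hap : ∀ c ∈ Icc t₀ t₁, ∀ x, G.Sol B t₀ c x₀ x →
      ∀ t ∈ Icc t₀ c, ‖G.qL (x t).1‖ ≤ M ∧ N2 G.lam (3 / 8) (G.VV B t (x t)) ≤ M) :
    ∃ x, G.Sol B t₀ t₁ x₀ x := by
  obtain ⟨R, hR⟩ := Sol.bound (G := G) hB x₀ M
  exact Sol.exists h01 hB (R := R) fun c hc x hx => hR c hc x hx (hap c hc x hx) c ⟨hc.1, le_rfl⟩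

end Geo

end

end Pool.Agent.Lib.MP_79abb3_an.SC
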