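import Pool.Agent.Lib.MP_79abb3_an.SC.ExA
import Pool.Agent.Lib.MP_79abb3_an.SC.LaDD

/-!
Theorem C, block (ii): the class `DD` along solutions, continuity in `ℓ¹(CI)`.
-/

set_option autoImplicit false
set_option linter.unusedSectionVars false

open MeasureTheory Set Filter Topology Function
open scoped ENNReal InnerProductSpace

namespace Pool.Agent.Lib.MP_79abb3_an.SC

open Pool.Agent.Lib.MP_79abb3_an.P25

section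
variable {H : ℝ} [hH : Fact (0 < H)]

namespace Geo
variable (G : Geo H)

/-- the kernel of `W = K^{1/2} h` -/
noncomputable def LWk (τ : ℝ) : HH H × HH H →L[ℂ] HH H := (HS G.D.K τ).comp (G.J3.coprod G.J4)

theorem LT_Qd_HS {τ : ℝ} (hτ : 0 < τ) (φ : HH H) :
    ‖LT G.ω G.lam (1 / 4) (G.Qd (HS G.D.K τ φ))‖ ≤
      2 * (1 + (G.N₀ + G.ω) * (H + G.ω⁻¹) * (√G.D.c₀)⁻¹) * τ ^ (-(1 / 8 : ℝ)) * ‖φ‖ := by
  have hω := G.ω_pos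
  have hN := G.hN
  have hH0 := hH.out
  obtain ⟨C, hC⟩ : ∃ C, C = (G.N₀ + G.ω) * (H + G.ω⁻¹) := ⟨_, rfl⟩
  have hC0 : 0 ≤ C := by rw [hC]; positivity
  obtain ⟨d, hd⟩ : ∃ d, d = (√G.D.c₀)⁻¹ := ⟨_, rfl⟩
  have hd0 : 0 ≤ d := by rw [hd]; positivity
  have hμ : 0 < τ ^ (-(1 / 2 : ℝ)) := by positivity
  have h1 := G.lamOK.LT_interp (s := 1 / 4) (by norm_num) (by norm_num) hμ (G.Qd (HS G.D.K τ φ))
  have e1 : TT G.ω (G.Qd (HS G.D.K τ φ)) = Sg G.D.K τ φ := by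
    rw [G.TT_Qd]
    exact congrArg (fun A : HH H →L[ℂ] HH H => A φ) (Kh_HS G.D.K_nonneg hτ)
  have h2 : ‖TT G.ω (G.Qd (HS G.D.K τ φ))‖ ≤ ‖φ‖ := by
    rw [e1]; exact Sg_norm_apply G.D.K_nonneg τ φ
  have h3 : ‖G.Qd (HS G.D.K τ φ)‖ ≤ d * (τ ^ (-(1 / 2 : ℝ)) * ‖φ‖) := by
    refine (G.D.isKh.norm_Q_le _).trans ?_
    rw [← hd]
    refine mul_le_mul_of_nonneg_left ?_ hd0
    have h4 := (HS G.D.K τ).le_of_opNorm_le (HS_norm G.D.K_nonneg hτ) φ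
    rwa [Real.sqrt_eq_rpow, ← Real.rpow_neg hτ.le] at h4
  have e2 : (τ ^ (-(1 / 2 : ℝ))) ^ (1 / 4 : ℝ) = τ ^ (-(1 / 8 : ℝ)) := by
    rw [← Real.rpow_mul hτ.le]; norm_num
  have e3 : (τ ^ (-(1 / 2 : ℝ))) ^ ((1 / 4 : ℝ) - 1) * τ ^ (-(1 / 2 : ℝ)) = τ ^ (-(1 / 8 : ℝ)) := by
    rw [← Real.rpow_mul hτ.le, ← Real.rpow_add hτ]; norm_num
  rw [← hC, ← hd]
  rw [← hC, e2] at h1
  obtain ⟨m, hm⟩ : ∃ m, m = (τ ^ (-(1 / 2 : ℝ))) ^ ((1 / 4 : ℝ) - 1) := ⟨_, rfl⟩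
  rw [← hm] at h1 e3
  have hm0 : 0 ≤ m := by rw [hm]; positivity
  obtain ⟨r, hr⟩ : ∃ r, r = τ ^ (-(1 / 8 : ℝ)) := ⟨_, rfl⟩
  rw [← hr] at h1 e3 ⊢
  have hr0 : 0 ≤ r := by rw [hr]; positivity
  have h5 : r * ‖TT G.ω (G.Qd (HS G.D.K τ φ))‖ ≤ r * ‖φ‖ := mul_le_mul_of_nonneg_left h2 hr0
  have h6 : m * C * ‖G.Qd (HS G.D.K τ φ)‖ ≤ m * C * (d * (τ ^ (-(1 / 2 : ℝ)) * ‖φ‖)) :=
    mul_le_mul_of_nonneg_left h3 (by positivity)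
  have e4 : m * C * (d * (τ ^ (-(1 / 2 : ℝ)) * ‖φ‖)) = C * d * r * ‖φ‖ := by
    rw [← e3]; ring
  rw [e4] at h6
  refine h1.trans ?_
  calc 2 * (r * ‖TT G.ω (G.Qd (HS G.D.K τ φ))‖ + m * C * ‖G.Qd (HS G.D.K τ φ)‖)
      ≤ 2 * (r * ‖φ‖ + C * d * r * ‖φ‖) := by linarith
    _ = _ := by ring

theorem kerW : ∃ C, Ker (Sg G.D.K) G.LWk C (1 / 8) := by
  obtain ⟨c, hc⟩ : ∃ c, c = 2 * (1 + (G.N₀ + G.ω) * (H + G.ω⁻¹) * (√G.D.c₀)⁻¹) := ⟨_, rfl⟩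
  have hω := G.ω_pos
  have hN := G.hN
  have hH0 := hH.out
  have hc0 : 0 ≤ c := by rw [hc]; positivity
  have hK := G.D.K_nonneg
  have a1 : ∀ τ, 0 < τ → ∀ y : HH H, ‖HS G.D.K τ (G.J3 y)‖ ≤ c * τ ^ (-(1 / 8 : ℝ)) * ‖y‖ := by
    intro τ hτ y
    refine norm_le_of_inner (by positivity) fun φ => ?_
    rw [← HS_inner, inner_J3]
    refine (norm_inner_le_norm _ _).trans ?_
    have := G.LT_Qd_HS hτ φ
    rw [← hc] at this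
    calc _ ≤ c * τ ^ (-(1 / 8 : ℝ)) * ‖φ‖ * ‖y‖ := mul_le_mul_of_nonneg_right this (norm_nonneg _)
      _ = _ := by ring
  have a2 : ∀ τ, 0 < τ → ∀ y : HH H, ‖HS G.D.K τ (G.J4 y)‖ ≤ 1 * ‖y‖ := by
    intro τ hτ y
    refine norm_le_of_inner (by positivity) fun φ => ?_
    rw [← HS_inner, inner_J4]
    have e1 : TT G.ω (G.Qd (HS G.D.K τ φ)) = Sg G.D.K τ φ := by
      rw [G.TT_Qd]
      exact congrArg (fun A : HH H →L[ℂ] HH H => A φ) (Kh_HS G.D.K_nonneg hτ)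
    rw [e1]
    refine (norm_inner_le_norm _ _).trans ?_
    have := Sg_norm_apply hK τ φ
    calc _ ≤ ‖φ‖ * ‖y‖ := mul_le_mul_of_nonneg_right this (norm_nonneg _)
      _ = _ := by ring
  refine ⟨c + 1, ⟨by positivity, by norm_num, by norm_num, ?_, ?_, ?_, ?_, ?_, ?_⟩⟩
  · intro x; rw [Sg_zero]; rfl
  · intro s t hs ht x; rw [Sg_add hs ht]; rfl
  · exact fun x => Sg_continuousOn_apply hK G.D.K_injective x
  · exact fun t _ x => Sg_norm_apply hK t x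
  · intro s t hs ht y
    show HS G.D.K (s + t) (G.J3.coprod G.J4 y) = Sg G.D.K s (HS G.D.K t (G.J3.coprod G.J4 y))
    rw [← Sg_HS hs ht]; rfl
  · intro τ hτ y
    show ‖HS G.D.K τ (G.J3 y.1 + G.J4 y.2)‖ ≤ _
    rw [map_add]
    have k1 : kth (1 / 8) τ = 1 + τ ^ (-(1 / 8 : ℝ)) := rfl
    have k2 : 0 ≤ τ ^ (-(1 / 8 : ℝ)) := by positivity
    have y1 : ‖y.1‖ ≤ ‖y‖ := norm_fst_le y
    have y2 : ‖y.2‖ ≤ ‖y‖ := norm_snd_le y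
    have b1 := a1 τ hτ y.1
    have b2 := a2 τ hτ y.2
    have b3 : c * τ ^ (-(1 / 8 : ℝ)) * ‖y.1‖ ≤ c * τ ^ (-(1 / 8 : ℝ)) * ‖y‖ :=
      mul_le_mul_of_nonneg_left y1 (by positivity)
    refine (norm_add_le _ _).trans ?_
    rw [k1]
    have hy := norm_nonneg y
    nlinarith [mul_nonneg hc0 hy, mul_nonneg k2 hy]

variable {G} {B : Bg H} {t₀ t₁ : ℝ} {x₀ : HH H × HH H} {x : ℝ → HH H × HH H}

/-- mild equation of `W` -/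
theorem Sol.eqW (hs : G.Sol B t₀ t₁ x₀ x) (hB : B.Cont t₀ t₁) {t : ℝ} (ht : t ∈ Icc t₀ t₁) :
    Kh G.D.K (x t).2 = Sg G.D.K (t - t₀) (Kh G.D.K x₀.2) +
      duh G.LWk t₀ (fun r => (G.f3 B r (x r), G.f4 B r (x r))) t := by
  obtain ⟨C, hC⟩ := ker_one G.lamOK G.D rfl
  have hg : ContinuousOn (fun r => (G.f3 B r (x r), G.f4 B r (x r))) (Icc t₀ t₁) :=
    continuous_snd.comp_continuousOn (Phi_cont (G := G) hB hs.cont)
  have hi := hC.int_aux hg ht (c := t₀) ⟨le_rfl, ht.1⟩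
  rw [(hs.eq12 hB ht).2, map_add]
  congr 1
  · have h1 := congrArg (fun A : HH H →L[ℂ] HH H => A x₀.2) (Kh_comm_Sg (K := G.D.K) (t := t - t₀))
    exact h1
  · have h2 : Kh G.D.K (∫ r in t₀..t, AS G.D.K (t - r)
        ((G.J3.coprod G.J4) (G.f3 B r (x r), G.f4 B r (x r)))) =
        ∫ r in t₀..t, Kh G.D.K (AS G.D.K (t - r)
        ((G.J3.coprod G.J4) (G.f3 B r (x r), G.f4 B r (x r)))) :=
      ((Kh G.D.K).intervalIntegral_comp_comm hi).symm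
    rw [h2, duh]
    refine intervalIntegral.integral_congr_ae ?_
    have : ∀ᵐ r : ℝ ∂volume, r ≠ t := by
      simp [ae_iff, measure_singleton]
    filter_upwards [this] with r hrt hr
    rw [uIoc_of_le ht.1] at hr
    have h3 : 0 < t - r := sub_pos.2 (lt_of_le_of_ne hr.2 hrt)
    have h4 := congrArg (fun A : HH H →L[ℂ] HH H =>
      A ((G.J3.coprod G.J4) (G.f3 B r (x r), G.f4 B r (x r)))) (Kh_AS G.D.K_nonneg h3)
    exact h4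

/-- **`DD` along solutions.** -/
theorem Sol.ddc (hs : G.Sol B t₀ t₁ x₀ x) (hB : B.Cont t₀ t₁) (h0 : DD G.D.K (Kh G.D.K x₀.2)) :
    ∃ C, ∀ t ∈ Icc t₀ t₁, DDC G.D.K C (Kh G.D.K (x t).2) := by
  obtain ⟨C0, hC0⟩ := h0
  obtain ⟨Ck, hCk⟩ := G.kerW
  have hg : ContinuousOn (fun r => (G.f3 B r (x r), G.f4 B r (x r))) (Icc t₀ t₁) :=
    continuous_snd.comp_continuousOn (Phi_cont (G := G) hB hs.cont)
  obtain ⟨R, hR⟩ := isCompact_Icc.exists_bound_of_continuousOn hg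
  refine ⟨C0 + 32 * Ck * (2 + t₁ - t₀) * R, fun t ht => ?_⟩
  rw [hs.eqW hB ht]
  exact (hC0.sg G.D.K_nonneg (sub_nonneg.2 ht.1)).add
    (DDC.duh G.D.K_nonneg hCk hg hR ht)

/-- **The modes of `W` are continuous in `ℓ¹(CI)`.** -/
theorem Sol.lift (hs : G.Sol B t₀ t₁ x₀ x) (hB : B.Cont t₀ t₁) (h0 : DD G.D.K (Kh G.D.K x₀.2))
    {ι : L1 (CI H) →L[ℂ] HH H} (hι : ∀ y n, ι y n = iota (y n)) {P : ℝ → HH H →L[ℂ] L1 (CI H)}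
    {C θ : ℝ} (hS : Smo G.D.K ι P C θ) : ∃ Wl : ℝ → L1 (CI H), ContinuousOn Wl (Icc t₀ t₁) ∧
      ∀ t ∈ Icc t₀ t₁, ∀ n, Wl t n = Vf G.ω (G.Qd (x t).2) n := by
  obtain ⟨C', hC'⟩ := hs.ddc hB h0
  refine ⟨fun t => SC.lift G.D.K P (Kh G.D.K (x t).2), ?_, fun t ht n => ?_⟩
  · exact hS.lift_cont ((Kh G.D.K).continuous.comp_continuousOn
      (continuous_snd.comp_continuousOn hs.cont)) hC'
  · have h1 := hS.iota_lift (hC' t ht)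
    have h2 : ι (SC.lift G.D.K P (Kh G.D.K (x t).2)) n = TT G.ω (G.Qd (x t).2) n := by
      rw [h1, G.TT_Qd]
    rw [hι, TT_apply, T2_apply] at h2
    exact iota_injective h2

end Geo

end

end Pool.Agent.Lib.MP_79abb3_an.SC
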