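import Pool.Agent.Lib.MP_79abb3_an.SC.ExT

/-!
Theorem C, block (ii), EX3: derivatives of `⟨M J q, q⟩` and `⟨M V, V⟩`.
-/

set_option autoImplicit false
set_option linter.unusedSectionVars false

open MeasureTheory Set Filter Topology Function
open scoped ENNReal InnerProductSpace

namespace Pool.Agent.Lib.MP_79abb3_an.SC

open Pool.Agent.Lib.MP_79abb3_an.P25

section
variable {H : ℝ} [hH : Fact (0 < H)]

/-! ### Multiplications commute -/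

theorem cm_pz {a : ℤ → CI H} (ha : Summable fun n => ‖a n‖) (x : HH H) : ⇑(cm a x) = pz x a := by
  funext n
  exact (cm_hasSum ha x n).tsum_eq.symm

theorem l1_l2 {E : Type} [NormedAddCommGroup E] {a : ℤ → E} (ha : Summable fun n => ‖a n‖) :
    Summable fun n => ‖a n‖ ^ 2 := by
  refine Summable.of_nonneg_of_le (fun n => sq_nonneg _) (fun n => ?_)
    (ha.mul_left (∑' m, ‖a m‖))
  rw [sq]
  exact mul_le_mul_of_nonneg_right (ha.le_tsum n fun _ _ => norm_nonneg _) (norm_nonneg _)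

theorem cm_comm {a b : ℤ → CI H} (ha : Summable fun n => ‖a n‖) (hb : Summable fun n => ‖b n‖)
    (x : HH H) : cm a (cm b x) = cm b (cm a x) := by
  ext1
  rw [cm_pz ha, cm_pz hb, cm_pz hb, cm_pz ha]
  obtain ⟨e1, e2⟩ := pz_pz (l2_summable x) hb (l1_l2 ha)
  rw [e1, ← e2]

/-- `M` is multiplication by a real function, `M' g = B (M T g)` for `g` with `(T g)(0) = 0`. -/
structure MulQ (G : Geo H) (M M' : HH H →L[ℂ] HH H) : Prop where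
  adj : ∀ x y, ⟪M x, y⟫_ℂ = ⟪x, M y⟫_ℂ
  b : ∀ x, M (cm G.b x) = cm G.b (M x)
  P : ∀ g, PP G.ω g = g → PP G.ω (M' g) = M' g
  T : ∀ g, PP G.ω g = g → TT G.ω (M' g) = M (TT G.ω g)

/-- `M` is multiplication by a real function vanishing at `z = 0`, `M' g = B (M T g)` for all `g`. -/
structure MulV (G : Geo H) (M M' : HH H →L[ℂ] HH H) : Prop where
  adj : ∀ x y, ⟪M x, y⟫_ℂ = ⟪x, M y⟫_ℂ
  P : ∀ g, PP G.ω (M' g) = M' g
  T : ∀ g, TT G.ω (M' g) = M (TT G.ω g)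

theorem MulQ.ms (G : Geo H) {m m1 : CI H} (hm : IsD m m1) (mr : star m = m) :
    MulQ G (Ms m) (Bm G.ω m m1) where
  adj x y := by rw [inner_Ms, mr]
  b x := Ms_cm m G.hb.c.s0 x
  P g hg := PP_Bm G.ω hm (Or.inr hg)
  T g _ := TT_Bm G.ω hm g

theorem MulV.ms (G : Geo H) {m m1 : CI H} (hm : IsD m m1) (mr : star m = m) (m0 : ex m 0 = 0) :
    MulV G (Ms m) (Bm G.ω m m1) where
  adj x y := by rw [inner_Ms, mr]
  P g := PP_Bm G.ω hm (Or.inl m0)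
  T g := TT_Bm G.ω hm g

theorem MulQ.one (G : Geo H) : MulQ G 1 1 where
  adj _ _ := rfl
  b _ := rfl
  P _ hg := hg
  T _ _ := rfl

namespace Geo
variable {G : Geo H} {B : Bg H} {t₀ t₁ : ℝ} {x₀ : HH H × HH H} {x : ℝ → HH H × HH H}

/-- the test element of the energy identity for `q` -/
noncomputable def mq (G : Geo H) (M' : HH H →L[ℂ] HH H) (p : HH H) : HH H := G.qo (M' (G.Qo p))

theorem Qo_mq {M M' : HH H →L[ℂ] HH H} (hM : MulQ G M M') (p : HH H) :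
    G.Qo (G.mq M' p) = M' (G.Qo p) := G.Qo_qo (hM.P _ (G.PP_Qo p))

theorem TT_Qo_mq {M M' : HH H →L[ℂ] HH H} (hM : MulQ G M M') (p : HH H) :
    TT G.ω (G.Qo (G.mq M' p)) = M (G.qL p) := by
  rw [Qo_mq hM, hM.T _ (G.PP_Qo p)]
  rfl

theorem mq_Kh {M M' : HH H →L[ℂ] HH H} (hM : MulQ G M M') (p : HH H) :
    M (cm G.b (G.qL p)) = Kh G.Do.K (G.mq M' p) := by
  rw [hM.b, ← G.b_TT_Qo, TT_Qo_mq hM]

theorem cont_mq {M' : HH H →L[ℂ] HH H} (hx : ContinuousOn x (Icc t₀ t₁)) :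
    ContinuousOn (fun t => G.mq M' (x t).1) (Icc t₀ t₁) :=
  (G.qo ∘L M' ∘L G.Qo).continuous.comp_continuousOn (continuous_fst.comp_continuousOn hx)

/-- **Energy identity for `q`.** -/
theorem Sol.energy_q (h : G.Sol B t₀ t₁ x₀ x) (hB : B.Cont t₀ t₁) {M M' : HH H →L[ℂ] HH H}
    (hM : MulQ G M M') {t : ℝ} (ht : t ∈ Icc t₀ t₁) :
    HasDerivWithinAt (fun t => (⟪M (cm G.b (G.qL (x t).1)), cm G.b (G.qL (x t).1)⟫_ℂ).re)
      (2 * (⟪G.mq M' (x t).1, G.lq B t (x t)⟫_ℂ).re) (Icc t₀ t₁) t :=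
  (h.tst_q hB).energy hM.adj (cont_mq h.cont) (fun t _ => mq_Kh hM (x t).1) ht

theorem Sol.energy_q_int (h : G.Sol B t₀ t₁ x₀ x) (hB : B.Cont t₀ t₁) {M M' : HH H →L[ℂ] HH H}
    (hM : MulQ G M M') {s t : ℝ} (hs : t₀ ≤ s) (hst : s ≤ t) (ht : t ≤ t₁) :
    (⟪M (cm G.b (G.qL (x t).1)), cm G.b (G.qL (x t).1)⟫_ℂ).re -
      (⟪M (cm G.b (G.qL (x s).1)), cm G.b (G.qL (x s).1)⟫_ℂ).re =
      2 * ∫ r in s..t, (⟪G.mq M' (x r).1, G.lq B r (x r)⟫_ℂ).re :=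
  (h.tst_q hB).energy_int hM.adj (cont_mq h.cont) (fun t _ => mq_Kh hM (x t).1) hs hst ht

/-- the test element of the energy identity for `V` -/
noncomputable def mv (G : Geo H) (M' : HH H →L[ℂ] HH H) (g : HH H) : HH H := G.qd (M' g)

theorem Qd_mv {M M' : HH H →L[ℂ] HH H} (hM : MulV G M M') (g : HH H) :
    G.Qd (G.mv M' g) = M' g := G.Qd_qd (hM.P g)

theorem TT_Qd_mv {M M' : HH H →L[ℂ] HH H} (hM : MulV G M M') (g : HH H) :
    TT G.ω (G.Qd (G.mv M' g)) = M (TT G.ω g) := by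
  rw [Qd_mv hM, hM.T]

theorem cont_gV (hB : B.Cont t₀ t₁) (hx : ContinuousOn x (Icc t₀ t₁)) :
    ContinuousOn (fun t => G.gV B t (x t)) (Icc t₀ t₁) := by
  have h1 : ContinuousOn (fun t => G.Qd (x t).2 + B.gL t) (Icc t₀ t₁) :=
    (G.Qd.continuous.comp_continuousOn (continuous_snd.comp_continuousOn hx)).add hB.gL
  exact h1.sub ((Ms G.ζ ∘L cm G.J ∘L G.qL).continuous.comp_continuousOn
    (continuous_fst.comp_continuousOn hx))

theorem cont_mv {M' : HH H →L[ℂ] HH H} (hB : B.Cont t₀ t₁) (hx : ContinuousOn x (Icc t₀ t₁)) :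
    ContinuousOn (fun t => G.mv M' (G.gV B t (x t))) (Icc t₀ t₁) :=
  (G.qd ∘L M').continuous.comp_continuousOn (cont_gV hB hx)

theorem mv_Kh {M M' : HH H →L[ℂ] HH H} (hM : MulV G M M') (t : ℝ) (y : HH H × HH H) :
    M (G.VV B t y) = Kh G.D.K (G.mv M' (G.gV B t y)) := by
  rw [← G.TT_Qd, TT_Qd_mv hM]
  rfl

/-- **Energy identity for `V`.** -/
theorem Sol.energy_V (h : G.Sol B t₀ t₁ x₀ x) (hB : B.Cont t₀ t₁) (hL : G.Lift B t₀ t₁)
    {M M' : HH H →L[ℂ] HH H} (hM : MulV G M M') {t : ℝ} (ht : t ∈ Icc t₀ t₁) :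
    HasDerivWithinAt (fun t => (⟪M (G.VV B t (x t)), G.VV B t (x t)⟫_ℂ).re)
      (2 * (⟪G.mv M' (G.gV B t (x t)), G.lV B t (x t)⟫_ℂ).re) (Icc t₀ t₁) t :=
  (h.tst_V hB hL).energy hM.adj
    (cont_mv hB h.cont) (fun t _ => mv_Kh hM t (x t)) ht

theorem Sol.energy_V_int (h : G.Sol B t₀ t₁ x₀ x) (hB : B.Cont t₀ t₁) (hL : G.Lift B t₀ t₁)
    {M M' : HH H →L[ℂ] HH H} (hM : MulV G M M') {s t : ℝ} (hs : t₀ ≤ s) (hst : s ≤ t)
    (ht : t ≤ t₁) :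
    (⟪M (G.VV B t (x t)), G.VV B t (x t)⟫_ℂ).re - (⟪M (G.VV B s (x s)), G.VV B s (x s)⟫_ℂ).re =
      2 * ∫ r in s..t, (⟪G.mv M' (G.gV B r (x r)), G.lV B r (x r)⟫_ℂ).re :=
  (h.tst_V hB hL).energy_int hM.adj
    (cont_mv hB h.cont) (fun t _ => mv_Kh hM t (x t)) hs hst ht

end Geo

end

end Pool.Agent.Lib.MP_79abb3_an.SC
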