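import Pool.Agent.Lib.MP_79abb3_an.SC.MnDef

/-!
Theorem C: solutions in modes. This is the interface between the background system (block ii) and the
physical pieces (`Piece`).
-/

set_option autoImplicit false
set_option linter.unusedSectionVars false

open MeasureTheory Set Filter Topology Function
open scoped ENNReal InnerProductSpace

namespace Pool.Agent.Lib.MP_79abb3_an.SC

open Pool.Agent.Lib.MP_79abb3_an.P25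

section
variable {H : ℝ} [hH : Fact (0 < H)]

/-- Modes `g n` (with `g1 = ∂_z g`, `g2 = ∂_z² g`) of a test function supported in `0 < z < h`. -/
structure TsF (h : ℝ) (g g1 g2 : ℤ → CI H) : Prop where
  d1 : ∀ n, IsD (g n) (g1 n)
  d2 : ∀ n, IsD (g1 n) (g2 n)
  s0 : Summable fun n : ℤ => (1 + |(n:ℝ)|) ^ 4 * ‖g n‖
  s1 : Summable fun n : ℤ => (1 + |(n:ℝ)|) ^ 4 * ‖g1 n‖
  s2 : Summable fun n : ℤ => (1 + |(n:ℝ)|) ^ 4 * ‖g2 n‖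
  supp : ∃ ε > 0, ∀ n, ∀ z ∈ Icc (0:ℝ) H, z ≤ ε ∨ h ≤ z → ex (g n) z = 0

/-- Modes of the Laplacian of `g`. -/
noncomputable def lapM (ω : ℝ) (g g2 : ℤ → CI H) (n : ℤ) : Z2 H :=
  iota (g2 n) - ((ω * n : ℝ) : ℂ) ^ 2 • iota (g n)

/-- `∫ a Om (Δg + w g_z + v g_y)` in modes. -/
noncomputable def lM (ω : ℝ) (a g g1 g2 v w : ℤ → CI H) (Om : HH H) : ℂ :=
  dp (lapM ω g g2) (cm a Om) + dp (io g1) (pz (cm a Om) w) + dp (dy ω (io g)) (pz (cm a Om) v)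

/-- Solutions in modes on `[t₀, t₁]`: velocity `(v, w)`, vorticity `Om = w_y - v_z`, weight `a`. -/
structure MSol (ω h : ℝ) (a : ℤ → CI H) (t₀ t₁ : ℝ) (v w : ℝ → L1 (CI H)) (Om : ℝ → HH H) : Prop where
  cv : ContinuousOn v (Icc t₀ t₁)
  cw : ContinuousOn w (Icc t₀ t₁)
  cO : ContinuousOn Om (Icc t₀ t₁)
  rv : ∀ t ∈ Icc t₀ t₁, ∀ n : ℤ, v t (-n) = star (v t n)
  rw : ∀ t ∈ Icc t₀ t₁, ∀ n : ℤ, w t (-n) = star (w t n)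
  rO : ∀ t ∈ Icc t₀ t₁, Rl (Om t)
  /-- `w_z = -v_y` -/
  div : ∀ t ∈ Icc t₀ t₁, ∀ n, DZ (w t n) (-(kI ω n) • iota (v t n))
  /-- `v_z = w_y - Om` -/
  rot : ∀ t ∈ Icc t₀ t₁, ∀ n, DZ (v t n) (kI ω n • iota (w t n) - Om t n)
  grad : ∃ C, ∀ t ∈ Icc t₀ t₁,
    ((Summable fun n : ℤ => (|ω * n| * ‖(iota (v t n) : Z2 H)‖) ^ 2) ∧
      ∑' n : ℤ, (|ω * n| * ‖(iota (v t n) : Z2 H)‖) ^ 2 ≤ C) ∧
    ((Summable fun n : ℤ => (|ω * n| * ‖(iota (w t n) : Z2 H)‖) ^ 2) ∧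
      ∑' n : ℤ, (|ω * n| * ‖(iota (w t n) : Z2 H)‖) ^ 2 ≤ C)
  eq : ∀ g g1 g2 : ℤ → CI H, TsF h g g1 g2 → ∀ s₁ ∈ Icc t₀ t₁, ∀ s₂ ∈ Icc t₀ t₁,
    dp (io g) (Om s₂) - dp (io g) (Om s₁) =
      ∫ t in s₁..s₂, lM ω a g g1 g2 (v t) (w t) (Om t)

end

end Pool.Agent.Lib.MP_79abb3_an.SC
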