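import Pool.Agent.Lib.MP_79abb3_an.SC.ExT
import Pool.Agent.Lib.MP_79abb3_an.SC.MsDef

/-!
Theorem C, block (ii), EX6: solutions of the background system are solutions in modes.
-/

set_option autoImplicit false
set_option linter.unusedSectionVars false

open MeasureTheory Set Filter Topology Function
open scoped ENNReal InnerProductSpace

namespace Pool.Agent.Lib.MP_79abb3_an.SC

open Pool.Agent.Lib.MP_79abb3_an.P25

section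
variable {H : ℝ} [hH : Fact (0 < H)]

/-- `x` is supported in `z ≥ ρ` -/
def Off (ρ : ℝ) (x : HH H) : Prop := ∀ m : CI H, (∀ z ∈ Icc ρ H, ex m z = 0) → Ms m x = 0

/-! ### Support of derivatives -/

theorem isD_zero_on {g g1 : CI H} (h : IsD g g1) {a b : ℝ} (hab : a < b) (ha : 0 ≤ a) (hb : b ≤ H)
    (h0 : ∀ z ∈ Icc a b, ex g z = 0) {z : ℝ} (hz : z ∈ Icc a b) : ex g1 z = 0 := by
  have hs : Icc a b ⊆ Icc (0:ℝ) H := Icc_subset_Icc ha hb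
  have h1 := (h z (hs hz)).mono hs
  have h2 : HasDerivWithinAt (ex g) 0 (Icc a b) z :=
    (hasDerivWithinAt_const z (Icc a b) (0:ℂ)).congr (fun y hy => h0 y hy) (h0 z hz)
  exact (uniqueDiffOn_Icc hab z hz).eq_deriv _ h1 h2

theorem isD_const_on {g g1 : CI H} (h : IsD g g1) {a b : ℝ} (hab : a < b) (ha : 0 ≤ a) (hb : b ≤ H)
    {c : ℂ} (h0 : ∀ z ∈ Icc a b, ex g z = c) {z : ℝ} (hz : z ∈ Icc a b) : ex g1 z = 0 := by
  have hs : Icc a b ⊆ Icc (0:ℝ) H := Icc_subset_Icc ha hb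
  have h1 := (h z (hs hz)).mono hs
  have h2 : HasDerivWithinAt (ex g) 0 (Icc a b) z :=
    (hasDerivWithinAt_const z (Icc a b) c).congr (fun y hy => h0 y hy) (h0 z hz)
  exact (uniqueDiffOn_Icc hab z hz).eq_deriv _ h1 h2

/-! ### Fibre identities -/

theorem Tz_test (k : ℝ) {g g1 g2 : CI H} (h1 : IsD g g1) (h2 : IsD g1 g2) (gH : ex g H = 0)
    (g1H : ex g1 H = 0) :
    Tz k (((k : ℝ) : ℂ) ^ 2 • iota g - iota g2) = ((|k| : ℝ) : ℂ) • g + g1 := by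
  refine (Tz_unique ?_ ?_).symm
  · have h3 := (IsD.dz h1).smul ((|k| : ℝ) : ℂ) |>.add (IsD.dz h2)
    have e : ((|k| : ℝ) : ℂ) • (iota (((|k| : ℝ) : ℂ) • g + g1) : Z2 H) -
        (((k : ℝ) : ℂ) ^ 2 • iota g - iota g2) = ((|k| : ℝ) : ℂ) • iota g1 + iota g2 := by
      have e2 : ((|k| : ℝ) : ℂ) * ((|k| : ℝ) : ℂ) = ((k : ℝ) : ℂ) ^ 2 := by
        rw [← Complex.ofReal_mul, abs_mul_abs_self]; push_cast; ring
      rw [map_add, map_smul, smul_add, smul_smul, e2]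
      abel
    rw [e]
    exact h3
  · rw [ex_add, ex_smul, gH, g1H]; simp

theorem Ez_test (k : ℝ) {g g1 : CI H} (h1 : IsD g g1) (g0 : ex g 0 = 0) :
    Ez k (iota (((|k| : ℝ) : ℂ) • g + g1)) = g := by
  refine (Ez_unique ?_ g0).symm
  have e : (iota (((|k| : ℝ) : ℂ) • g + g1) : Z2 H) - ((|k| : ℝ) : ℂ) • iota g = iota g1 := by
    rw [map_add, map_smul]; abel
  rw [e]
  exact IsD.dz h1

/-! ### Test families -/

variable {h ρ : ℝ} {g g1 g2 : ℤ → CI H}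

theorem TsF.z0 (hg : TsF h g g1 g2) (n : ℤ) : ex (g n) 0 = 0 ∧ ex (g1 n) 0 = 0 ∧ ex (g2 n) 0 = 0 := by
  obtain ⟨ε, hε, hs⟩ := hg.supp
  have hH0 := hH.out
  obtain ⟨δ, hδ⟩ : ∃ δ, δ = min ε H := ⟨_, rfl⟩
  have h0 : 0 < δ := by rw [hδ]; exact lt_min hε hH0
  have h1 : δ ≤ ε := by rw [hδ]; exact min_le_left _ _
  have h2 : δ ≤ H := by rw [hδ]; exact min_le_right _ _
  have a0 : ∀ z ∈ Icc 0 δ, ex (g n) z = 0 := fun z hz =>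
    hs n z ⟨hz.1, hz.2.trans h2⟩ (Or.inl (hz.2.trans h1))
  have a1 : ∀ z ∈ Icc 0 δ, ex (g1 n) z = 0 := fun z hz => isD_zero_on (hg.d1 n) h0 le_rfl h2 a0 hz
  have a2 : ∀ z ∈ Icc 0 δ, ex (g2 n) z = 0 := fun z hz => isD_zero_on (hg.d2 n) h0 le_rfl h2 a1 hz
  have hz : (0:ℝ) ∈ Icc 0 δ := ⟨le_rfl, h0.le⟩
  exact ⟨a0 0 hz, a1 0 hz, a2 0 hz⟩

theorem TsF.zh (hg : TsF h g g1 g2) (hh : h < H) (hh0 : 0 ≤ h) (n : ℤ) {z : ℝ} (hz : z ∈ Icc h H) :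
    ex (g n) z = 0 ∧ ex (g1 n) z = 0 ∧ ex (g2 n) z = 0 := by
  obtain ⟨ε, hε, hs⟩ := hg.supp
  have a0 : ∀ z ∈ Icc h H, ex (g n) z = 0 := fun z hz =>
    hs n z ⟨hh0.trans hz.1, hz.2⟩ (Or.inr hz.1)
  have a1 : ∀ z ∈ Icc h H, ex (g1 n) z = 0 := fun z hz => isD_zero_on (hg.d1 n) hh hh0 le_rfl a0 hz
  have a2 : ∀ z ∈ Icc h H, ex (g2 n) z = 0 := fun z hz => isD_zero_on (hg.d2 n) hh hh0 le_rfl a1 hz
  exact ⟨a0 z hz, a1 z hz, a2 z hz⟩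

theorem sq_summable_of {E : Type*} [NormedAddCommGroup E] {x : ℤ → E} (h : Summable fun n => ‖x n‖) :
    Summable fun n => ‖x n‖ ^ 2 := by
  have h1 := h.tendsto_cofinite_zero
  have h2 : ∀ᶠ n in cofinite, ‖x n‖ < 1 := h1.eventually (gt_mem_nhds one_pos)
  refine Summable.of_norm_bounded_eventually h ?_
  filter_upwards [h2] with n hn
  rw [Real.norm_of_nonneg (sq_nonneg _)]
  nlinarith [norm_nonneg (x n)]

theorem wt_summable {E : Type*} [NormedAddCommGroup E] {x : ℤ → E} {p q : ℕ} (hpq : p ≤ q)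
    (h : Summable fun n : ℤ => (1 + |(n:ℝ)|) ^ q * ‖x n‖) :
    Summable fun n : ℤ => (1 + |(n:ℝ)|) ^ p * ‖x n‖ := by
  refine Summable.of_nonneg_of_le (fun m => by positivity) (fun m => ?_) h
  gcongr
  have := abs_nonneg (m:ℝ)
  linarith

theorem iota_wt_summable {x : ℤ → CI H} {p : ℕ}
    (h : Summable fun n : ℤ => (1 + |(n:ℝ)|) ^ p * ‖x n‖) :
    Summable fun n : ℤ => (1 + |(n:ℝ)|) ^ p * ‖(iota (x n) : Z2 H)‖ := by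
  refine Summable.of_nonneg_of_le (fun m => by positivity) (fun m => ?_) (h.mul_left (√H))
  have := norm_iota_le (x m)
  calc (1 + |(m:ℝ)|) ^ p * ‖(iota (x m) : Z2 H)‖ ≤ (1 + |(m:ℝ)|) ^ p * (√H * ‖x m‖) := by gcongr
    _ = _ := by ring

/-- `g` as an element of `HH` -/
theorem TsF.sq0 (hg : TsF h g g1 g2) : Summable fun n => ‖(iota (g n) : Z2 H)‖ ^ 2 := by
  have h1 := iota_wt_summable (wt_summable (Nat.zero_le 4) hg.s0)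
  simp only [pow_zero, one_mul] at h1
  exact sq_summable_of h1

theorem TsF.sq1 (hg : TsF h g g1 g2) : Summable fun n => ‖(iota (g1 n) : Z2 H)‖ ^ 2 := by
  have h1 := iota_wt_summable (wt_summable (Nat.zero_le 4) hg.s1)
  simp only [pow_zero, one_mul] at h1
  exact sq_summable_of h1

theorem lapM_summable (ω : ℝ) (hg : TsF h g g1 g2) : Summable fun n => ‖lapM ω g g2 n‖ := by
  have h1 := iota_wt_summable (wt_summable (show 2 ≤ 4 by norm_num) hg.s0)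
  have h2 := iota_wt_summable (wt_summable (Nat.zero_le 4) hg.s2)
  simp only [pow_zero, one_mul] at h2
  refine Summable.of_nonneg_of_le (fun n => norm_nonneg _) (fun n => ?_) (h2.add (h1.mul_left (ω ^ 2)))
  refine (norm_sub_le _ _).trans ?_
  rw [norm_smul, norm_pow, Complex.norm_real, Real.norm_eq_abs, sq_abs]
  have h3 : (ω * n) ^ 2 ≤ ω ^ 2 * (1 + |(n:ℝ)|) ^ 2 := by
    rw [mul_pow]
    have : (n:ℝ) ^ 2 ≤ (1 + |(n:ℝ)|) ^ 2 := by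
      rw [← sq_abs (n:ℝ)]
      have := abs_nonneg (n:ℝ)
      gcongr
      linarith
    gcongr
  have h4 := norm_nonneg (iota (g n) : Z2 H)
  nlinarith [mul_le_mul_of_nonneg_right h3 h4]

/-- the element `D0 = -Δg` of `HH` -/
noncomputable def TsF.D0 (ω : ℝ) (hg : TsF h g g1 g2) : HH H :=
  mk2 (fun n => -lapM ω g g2 n) (by
    simp only [norm_neg]
    exact sq_summable_of (lapM_summable ω hg))

/-- `g` as an element of `HH` -/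
noncomputable def TsF.G0 (hg : TsF h g g1 g2) : HH H := mk2 (io g) hg.sq0

/-- `g1` as an element of `HH` -/
noncomputable def TsF.G1 (hg : TsF h g g1 g2) : HH H := mk2 (io g1) hg.sq1

theorem TsF.D0_apply (ω : ℝ) (hg : TsF h g g1 g2) (n : ℤ) :
    hg.D0 ω n = ((ω * n : ℝ) : ℂ) ^ 2 • iota (g n) - iota (g2 n) := by
  show -lapM ω g g2 n = _
  unfold lapM
  abel

theorem TsF.G0_apply (hg : TsF h g g1 g2) (n : ℤ) : hg.G0 n = iota (g n) := rfl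
theorem TsF.G1_apply (hg : TsF h g g1 g2) (n : ℤ) : hg.G1 n = iota (g1 n) := rfl

theorem TsF.Tz_D0 (ω : ℝ) (hg : TsF h g g1 g2) (hh : h < H) (hh0 : 0 ≤ h) (n : ℤ) :
    Tz (ω * n) (hg.D0 ω n) = ka ω n • g n + g1 n := by
  obtain ⟨a, b, -⟩ := hg.zh hh hh0 n (z := H) ⟨hh.le, le_rfl⟩
  rw [hg.D0_apply]
  exact Tz_test (ω * n) (hg.d1 n) (hg.d2 n) a b

theorem TsF.TT_D0 (ω : ℝ) (hg : TsF h g g1 g2) (hh : h < H) (hh0 : 0 ≤ h) (n : ℤ) :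
    TT ω (hg.D0 ω) n = iota (ka ω n • g n + g1 n) := by
  rw [TT_apply, T2_apply, hg.Tz_D0 ω hh hh0]

theorem TsF.PP_D0 (ω : ℝ) (hg : TsF h g g1 g2) (hh : h < H) (hh0 : 0 ≤ h) :
    PP ω (hg.D0 ω) = hg.D0 ω := by
  ext1
  funext n
  rw [PP_apply, P2_iff, hg.Tz_D0 ω hh hh0, ex_add, ex_smul, (hg.z0 n).1, (hg.z0 n).2.1]
  simp

theorem TsF.EE_TT (ω : ℝ) (hg : TsF h g g1 g2) (hh : h < H) (hh0 : 0 ≤ h) :
    EE ω (TT ω (hg.D0 ω)) = hg.G0 := by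
  ext1
  funext n
  rw [EE_apply, hg.TT_D0 ω hh hh0, E2_apply]
  show iota (Ez (ω * n) (iota (((|ω * n| : ℝ) : ℂ) • g n + g1 n))) = _
  rw [Ez_test (ω * n) (hg.d1 n) (hg.z0 n).1]
  rfl

theorem TsF.Yz_TT (ω : ℝ) (hg : TsF h g g1 g2) (hh : h < H) (hh0 : 0 ≤ h) :
    Yz ω (TT ω (hg.D0 ω)) = hg.G1 := by
  ext1
  funext n
  have h1 := hg.EE_TT ω hh hh0
  have h2 : EE ω (TT ω (hg.D0 ω)) n = hg.G0 n := by rw [h1]
  rw [EE_apply] at h2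
  rw [Yz_apply, tZ, h2, hg.TT_D0 ω hh hh0, map_add, map_smul]
  show ka ω n • iota (g n) + iota (g1 n) - ka ω n • iota (g n) = iota (g1 n)
  abel

theorem TsF.Yy_TT (ω : ℝ) (hg : TsF h g g1 g2) (hh : h < H) (hh0 : 0 ≤ h) :
    ⇑(Yy ω (TT ω (hg.D0 ω))) = dy ω (io g) := by
  funext n
  have h1 := hg.EE_TT ω hh hh0
  have h2 : EE ω (TT ω (hg.D0 ω)) n = hg.G0 n := by rw [h1]
  rw [EE_apply] at h2
  rw [Yy_apply, tY, h2]
  rfl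

/-! ### Multiplications which vanish on test functions -/

theorem mz_iota_zero {m F : CI H} (h : ∀ z ∈ Icc (0:ℝ) H, ex m z = 0 ∨ ex F z = 0) :
    mz m (iota F) = 0 := by
  have h1 : m * F = 0 := ci_ext fun z hz => by
    rw [ex_mul, ex_zero]
    rcases h z hz with h2 | h2 <;> rw [h2] <;> simp
  rw [mz_iota, h1, map_zero]

theorem Off.inner_zero {ρ : ℝ} {x : HH H} (hx : Off ρ x) {F : ℤ → CI H} {f : HH H}
    (hf : ∀ n, f n = iota (F n)) (hF : ∀ n, ∀ z ∈ Icc ρ H, ex (F n) z = 0) : ⟪f, x⟫_ℂ = 0 := by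
  have h1 := lp.hasSum_inner (𝕜 := ℂ) f x
  have h2 : ∀ n, ⟪f n, x n⟫_ℂ = 0 := by
    intro n
    have h3 : Ms (star (F n)) x = 0 := hx (star (F n)) fun z hz => by
      rw [ex_star, hF n z hz, star_zero]
    have h4 : Ms (star (F n)) x n = 0 := by rw [h3]; rfl
    rw [Ms_apply] at h4
    have h5 : f n = mz (F n) (iota 1) := by rw [hf, mz_iota, mul_one]
    rw [h5, inner_mz, h4, inner_zero_right]
  simp only [h2] at h1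
  exact h1.unique hasSum_zero

namespace Geo
variable (G : Geo H)

theorem ζ1_zero {z : ℝ} (hz : z ∈ Icc (0:ℝ) G.ρ) : ex G.ζ1 z = 0 :=
  isD_const_on G.ζ_d G.ρ0 le_rfl G.ρH.le G.ζ_one hz

theorem ζ2_zero {z : ℝ} (hz : z ∈ Icc (0:ℝ) G.ρ) : ex G.ζ2 z = 0 :=
  isD_zero_on G.ζ1_d G.ρ0 le_rfl G.ρH.le (fun z hz => G.ζ1_zero hz) hz

/-- products with a multiplication by a function of `z` -/
theorem mz_pz0 (m : CI H) (x : HH H) {v : ℤ → CI H} (sv : S2 G.lam (1 / 2) v) (n : ℤ) :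
    mz m (pz x v n) = pz (Ms m x) v n := by
  obtain ⟨c1, -, -⟩ := cvm_bd zero_le_one mz_bd G.pw.h1 G.pw.ha G.pw.hb G.pw.hc G.pw.hs
    (S2_l2 G.lam x) sv
  have h1 := ((c1 n).of_norm).hasSum.mapL (mz m)
  have h2 : mz m (pz x v n) = ∑' j, mz m (mz (v (n - j)) (x j)) := h1.tsum_eq.symm
  rw [h2]
  refine tsum_congr fun j => ?_
  rw [mz_comm, Ms_apply]

theorem dp_pz_zero {m : CI H} {F : ℤ → CI H} {f : HH H} (hf : ∀ n, f n = iota (F n))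
    (hF : ∀ n, ∀ z ∈ Icc (0:ℝ) H, ex m z = 0 ∨ ex (F n) z = 0) (x : HH H) {v : ℤ → CI H}
    (sv : S2 G.lam (1 / 2) v) : dp f (pz (Ms m x) v) = 0 := by
  have h1 : ∀ n, ⟪f n, pz (Ms m x) v n⟫_ℂ = 0 := by
    intro n
    rw [← G.mz_pz0 m x sv, hf, ← star_star m, ← inner_mz, mz_iota_zero, inner_zero_left]
    intro z hz
    rcases hF n z hz with h2 | h2
    · left; rw [ex_star, h2, star_zero]
    · right; exact h2
  unfold dp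
  simp only [h1, tsum_zero]

variable {h : ℝ} {g g1 g2 : ℤ → CI H}

/-- the sum of the equations of `W` and `V_L`, before simplification -/
theorem inner_lWL (B : Bg H) (t : ℝ) (x : HH H × HH H) (φ : HH H) :
    ⟪φ, G.lW B t x + G.lL B t⟫_ℂ = -⟪G.Qd φ, cm G.a (G.gt B t x)⟫_ℂ +
      bf G.ω (G.om B t x) (G.vf B t x) (G.wf B t x) (TT G.ω (G.Qd φ)) +
      (2 * ⟪Yz G.ω (TT G.ω (G.Qd φ)), Ms G.ζ1 (G.qL x.1)⟫_ℂ +
        ⟪EE G.ω (TT G.ω (G.Qd φ)), Ms G.ζ2 (G.qL x.1)⟫_ℂ +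
        ⟪EE G.ω (TT G.ω (G.Qd φ)), Ms G.ζ1 (Ms (B.κ t) (G.VV B t x))⟫_ℂ +
        dp (Ms G.ζ1 (EE G.ω (TT G.ω (G.Qd φ)))) (pz (G.qL x.1) (G.wf B t x)) +
        (⟪TT G.ω (G.Qd φ), Ms G.ζ (Ms (B.κ t) (G.VV B t x))⟫_ℂ -
          ⟪TT G.ω (G.Qd φ), Ms (B.κ t) (G.VV B t x)⟫_ℂ) +
        ⟪TT G.ω (G.Qd φ), B.fc t⟫_ℂ) := by
  obtain ⟨f, hf⟩ : ∃ f, f = TT G.ω (G.Qd φ) := ⟨_, rfl⟩
  obtain ⟨q, hq⟩ : ∃ q, q = G.qL x.1 := ⟨_, rfl⟩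
  have w1 : ⟪φ, G.lW B t x⟫_ℂ = bf G.ω (G.om B t x) (G.vf B t x)
      (G.wf B t x) f + ⟪f, G.f4 B t x⟫_ℂ - ⟪G.Qd φ, cm G.a (G.Qd x.2)⟫_ℂ := by
    rw [lW, inner_sub_right, inner_add_right, inner_J3, inner_J4, inner_Qd, hf]
    congr 2
    exact inner_LT_Pw G (G.Qd φ) _ _ _
  have w2 : ⟪f, G.f4 B t x⟫_ℂ = 2 * ⟪Yz G.ω f, Ms G.ζ1 q⟫_ℂ + ⟪EE G.ω f, Ms G.ζ2 q⟫_ℂ +
      ⟪EE G.ω f, Ms G.ζ1 (Ms (B.κ t) (G.VV B t x))⟫_ℂ +
      dp (Ms G.ζ1 (EE G.ω f)) (pz q (G.wf B t x)) +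
      (⟪f, Ms G.ζ (Ms (B.κ t) (G.VV B t x))⟫_ℂ - ⟪f, Ms (B.κ t) (G.VV B t x)⟫_ℂ) +
      (⟪f, B.FL t⟫_ℂ + ⟪f, B.fc t⟫_ℂ) := by
    rw [hq]
    show ⟪f, (-(2:ℂ) • Xz G.ω (Ms G.ζ1 (G.qL x.1)) +
      TT G.ω (Ms G.ζ2 (G.qL x.1) + Ms G.ζ1 (Ms (B.κ t) (G.VV B t x))) +
      LT G.ω G.lam (1 / 4) (Ms G.ζ1 (prd G.pw (G.qL x.1) (G.uw B t x)))) +
      (Ms G.ζ (Ms (B.κ t) (G.VV B t x)) - Ms (B.κ t) (G.VV B t x)) + (B.FL t + B.fc t)⟫_ℂ = _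
    rw [inner_add_right, inner_add_right, inner_add_right, inner_add_right, inner_sub_right,
      inner_add_right, inner_smul_right, inner_Xz, inner_TT', inner_add_right, inner_LT_zeta]
    unfold wf
    ring
  have l1 : ⟪φ, G.lL B t⟫_ℂ = -⟪G.Qd φ, cm G.a (B.gL t)⟫_ℂ - ⟪f, B.FL t⟫_ℂ := by
    rw [lL, inner_sub_right, inner_neg_right, ContinuousLinearMap.adjoint_inner_right, inner_J4, hf]
  have p3 : ⟪G.Qd φ, cm G.a (G.Qd x.2)⟫_ℂ + ⟪G.Qd φ, cm G.a (B.gL t)⟫_ℂ =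
      ⟪G.Qd φ, cm G.a (G.gt B t x)⟫_ℂ := by
    rw [← inner_add_right, ← map_add]
    rfl
  rw [inner_add_right, w1, w2, l1, ← hf, ← hq]
  linear_combination -p3

/-- `om` and `a gt` agree where `ζ = 1` -/
theorem om_eq (B : Bg H) (t : ℝ) (x : HH H × HH H) :
    G.om B t x = cm G.a (G.gt B t x) +
      Ms (G.ζ - 1) (cm G.a (G.gt B t x) - Ms G.ζ (G.qL x.1)) := by
  have e1 : ∀ y : HH H, Ms (G.ζ - 1) y = Ms G.ζ y - y := by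
    intro y
    ext1
    funext n
    rw [lp.coeFn_sub, Pi.sub_apply, Ms_apply, Ms_apply, map_sub, sub_apply, mz_one]
  have e2 : cm G.a (G.gV B t x) = cm G.a (G.gt B t x) - Ms G.ζ (G.qL x.1) := by
    rw [← G.cm_a_Ms_J, ← map_sub]
    rfl
  show Ms G.ζ (G.qL x.1) + Ms G.ζ (cm G.a (G.gV B t x)) = _
  rw [e2, e1, map_sub]
  abel

/-- **EX6, at a fixed time.** -/
theorem inner_test (B : Bg H) {t : ℝ} (hfc : Off G.ρ (B.fc t)) (x : HH H × HH H)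
    (hg : TsF h g g1 g2) (hh0 : 0 ≤ h) (hh : h ≤ G.ρ) :
    ⟪G.qd (hg.D0 G.ω), G.lW B t x + G.lL B t⟫_ℂ =
      lM G.ω G.a g g1 g2 (G.vf B t x) (G.wf B t x) (G.gt B t x) := by
  have hH' : h < H := hh.trans_lt G.ρH
  have hP := hg.PP_D0 G.ω hH' hh0
  obtain ⟨f, hf⟩ : ∃ f, f = TT G.ω (hg.D0 G.ω) := ⟨_, rfl⟩
  have hE : EE G.ω f = hg.G0 := by rw [hf]; exact hg.EE_TT G.ω hH' hh0
  have hZ : Yz G.ω f = hg.G1 := by rw [hf]; exact hg.Yz_TT G.ω hH' hh0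
  have hY : ⇑(Yy G.ω f) = dy G.ω (io g) := by rw [hf]; exact hg.Yy_TT G.ω hH' hh0
  have hfn : ∀ n, f n = iota (ka G.ω n • g n + g1 n) := fun n => by
    rw [hf]; exact hg.TT_D0 G.ω hH' hh0 n
  -- zero sets
  have k0 : ∀ n, ∀ z ∈ Icc (0:ℝ) H, z ≤ G.ρ ∨ (ex (g n) z = 0 ∧ ex (g1 n) z = 0) := fun n z hz => by
    rcases le_total z G.ρ with h1 | h1
    · exact Or.inl h1
    · obtain ⟨a, b, -⟩ := hg.zh hH' hh0 n (z := z) ⟨hh.trans h1, hz.2⟩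
      exact Or.inr ⟨a, b⟩
  have kF : ∀ n, ∀ z ∈ Icc G.ρ H, ex (ka G.ω n • g n + g1 n) z = 0 := fun n z hz => by
    obtain ⟨a, b, -⟩ := hg.zh hH' hh0 n (z := z) ⟨hh.trans hz.1, hz.2⟩
    rw [ex_add, ex_smul, a, b]; simp
  have m1 : ∀ n, ∀ z ∈ Icc (0:ℝ) H, ex G.ζ1 z = 0 ∨ ex (g n) z = 0 := fun n z hz =>
    (k0 n z hz).imp (fun h1 => G.ζ1_zero ⟨hz.1, h1⟩) (fun h1 => h1.1)
  have m1' : ∀ n, ∀ z ∈ Icc (0:ℝ) H, ex G.ζ1 z = 0 ∨ ex (g1 n) z = 0 := fun n z hz =>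
    (k0 n z hz).imp (fun h1 => G.ζ1_zero ⟨hz.1, h1⟩) (fun h1 => h1.2)
  have m2 : ∀ n, ∀ z ∈ Icc (0:ℝ) H, ex G.ζ2 z = 0 ∨ ex (g n) z = 0 := fun n z hz =>
    (k0 n z hz).imp (fun h1 => G.ζ2_zero ⟨hz.1, h1⟩) (fun h1 => h1.1)
  have mc : ∀ z ∈ Icc (0:ℝ) G.ρ, ex (G.ζ - 1) z = 0 := fun z hz => by
    rw [ex_sub, G.ζ_one z hz]
    show (1:ℂ) - 1 = 0
    rw [sub_self]
  have m3 : ∀ n, ∀ z ∈ Icc (0:ℝ) H, ex (G.ζ - 1) z = 0 ∨ ex (g1 n) z = 0 := fun n z hz =>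
    (k0 n z hz).imp (fun h1 => mc z ⟨hz.1, h1⟩) (fun h1 => h1.2)
  have m4 : ∀ n, ∀ z ∈ Icc (0:ℝ) H, ex (G.ζ - 1) z = 0 ∨ ex (kI G.ω n • g n) z = 0 := fun n z hz =>
    (k0 n z hz).imp (fun h1 => mc z ⟨hz.1, h1⟩) (fun h1 => by rw [ex_smul, h1.1, mul_zero])
  have m5 : ∀ n, ∀ z ∈ Icc (0:ℝ) H, ex (G.ζ - 1) z = 0 ∨ ex (ka G.ω n • g n + g1 n) z = 0 :=
    fun n z hz => (k0 n z hz).imp (fun h1 => mc z ⟨hz.1, h1⟩)
      (fun h1 => by rw [ex_add, ex_smul, h1.1, h1.2]; simp)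
  -- vanishing multiplications
  have s1 : Ms G.ζ1 hg.G0 = 0 := by
    ext1; funext n
    rw [Ms_apply, hg.G0_apply, mz_iota_zero (m1 n)]; rfl
  have s1' : Ms G.ζ1 hg.G1 = 0 := by
    ext1; funext n
    rw [Ms_apply, hg.G1_apply, mz_iota_zero (m1' n)]; rfl
  have s2 : Ms G.ζ2 hg.G0 = 0 := by
    ext1; funext n
    rw [Ms_apply, hg.G0_apply, mz_iota_zero (m2 n)]; rfl
  have s5 : Ms G.ζ f = f := by
    ext1; funext n
    have h1 := mz_iota_zero (m5 n)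
    rw [map_sub, sub_apply, mz_one, sub_eq_zero] at h1
    rw [Ms_apply, hfn, h1]
  have s6 : dp (0 : HH H) (pz (G.qL x.1) (G.wf B t x)) = 0 := by
    unfold dp
    simp
  have s7 : bf G.ω (G.om B t x) (G.vf B t x) (G.wf B t x) f =
      dp (io g1) (pz (cm G.a (G.gt B t x)) (G.wf B t x)) +
        dp (dy G.ω (io g)) (pz (cm G.a (G.gt B t x)) (G.vf B t x)) := by
    have h1 := G.bf_add B t x (hg.D0 G.ω) (cm G.a (G.gt B t x))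
      (Ms (G.ζ - 1) (cm G.a (G.gt B t x) - Ms G.ζ (G.qL x.1)))
    rw [G.om_eq, hf, h1, ← hf, bf_eq, bf_eq, hZ, hY,
      G.dp_pz_zero (F := g1) (fun n => hg.G1_apply n) m3 _ (G.S2_wf B t x)]
    have h2 := G.dp_pz_zero (f := Yy G.ω f) (F := fun n => kI G.ω n • g n) (fun n => by
      have : Yy G.ω f n = dy G.ω (io g) n := by rw [← hY]
      rw [this, map_smul]; rfl) m4 (cm G.a (G.gt B t x) - Ms G.ζ (G.qL x.1)) (G.S2_vf B t x)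
    rw [hY] at h2
    rw [h2, add_zero, add_zero]
    rfl
  have s8 : ⟪hg.D0 G.ω, cm G.a (G.gt B t x)⟫_ℂ = -dp (lapM G.ω g g2) (cm G.a (G.gt B t x)) := by
    rw [inner_dp]
    unfold dp
    rw [← tsum_neg]
    refine tsum_congr fun n => ?_
    show ⟪-lapM G.ω g g2 n, _⟫_ℂ = _
    rw [inner_neg_left]
  have hr := G.inner_lWL B t x (G.qd (hg.D0 G.ω))
  rw [G.Qd_qd hP, ← hf, hE, hZ, s7, s8] at hr
  rw [hr]
  have r1 : ⟪hg.G1, Ms G.ζ1 (G.qL x.1)⟫_ℂ = 0 := by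
    have := inner_Ms G.ζ1 hg.G1 (G.qL x.1)
    rw [s1', inner_zero_left, G.ζ1_real] at this
    exact this.symm
  have r2 : ⟪hg.G0, Ms G.ζ2 (G.qL x.1)⟫_ℂ = 0 := by
    have := inner_Ms G.ζ2 hg.G0 (G.qL x.1)
    rw [s2, inner_zero_left, G.ζ2_real] at this
    exact this.symm
  have r3 : ⟪hg.G0, Ms G.ζ1 (Ms (B.κ t) (G.VV B t x))⟫_ℂ = 0 := by
    have := inner_Ms G.ζ1 hg.G0 (Ms (B.κ t) (G.VV B t x))
    rw [s1, inner_zero_left, G.ζ1_real] at this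
    exact this.symm
  have r4 : ⟪f, Ms G.ζ (Ms (B.κ t) (G.VV B t x))⟫_ℂ = ⟪f, Ms (B.κ t) (G.VV B t x)⟫_ℂ := by
    rw [← G.inner_Ms_ζ, s5]
  have r5 : ⟪f, B.fc t⟫_ℂ = 0 := hfc.inner_zero hfn kF
  rw [r1, r2, r3, r4, r5, s1, s6, lM]
  ring

variable {G} {B : Bg H} {t₀ t₁ : ℝ} {x₀ : HH H × HH H} {x : ℝ → HH H × HH H}

/-- **EX6.** -/
theorem Sol.test (hs : G.Sol B t₀ t₁ x₀ x) (hB : B.Cont t₀ t₁) (hL : G.Lift B t₀ t₁)
    (hfc : ∀ t ∈ Icc t₀ t₁, Off G.ρ (B.fc t)) (hg : TsF h g g1 g2) (hh0 : 0 ≤ h) (hh : h ≤ G.ρ)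
    {s₁ s₂ : ℝ} (h1 : s₁ ∈ Icc t₀ t₁) (h2 : s₂ ∈ Icc t₀ t₁) :
    dp (io g) (G.gt B s₂ (x s₂)) - dp (io g) (G.gt B s₁ (x s₁)) =
      ∫ t in s₁..s₂, lM G.ω G.a g g1 g2 (G.vf B t (x t)) (G.wf B t (x t)) (G.gt B t (x t)) := by
  have hH' : h < H := hh.trans_lt G.ρH
  have hT := (hs.tst_W hB).add hL
  -- the pairing
  have key : ∀ t, dp (io g) (G.gt B t (x t)) =
      ⟪G.qd (hg.D0 G.ω), Kh G.D.K (G.WL (x t).2 + TT G.ω (B.gL t))⟫_ℂ := by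
    intro t
    have e1 : G.WL (x t).2 + TT G.ω (B.gL t) = TT G.ω (G.gt B t (x t)) := by
      show _ = TT G.ω (G.Qd (x t).2 + B.gL t)
      rw [map_add]; rfl
    rw [← Kh_inner, e1, ← G.TT_Qd, G.Qd_qd (hg.PP_D0 G.ω hH' hh0), inner_TT', hg.EE_TT G.ω hH' hh0,
      inner_dp]
    rfl
  -- for ordered times
  have main : ∀ s t, t₀ ≤ s → s ≤ t → t ≤ t₁ →
      dp (io g) (G.gt B t (x t)) - dp (io g) (G.gt B s (x s)) =
      ∫ t in s..t, lM G.ω G.a g g1 g2 (G.vf B t (x t)) (G.wf B t (x t)) (G.gt B t (x t)) := by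
    intro s t hs1 hst ht
    have hsub : uIcc s t ⊆ Icc t₀ t₁ := by rw [uIcc_of_le hst]; exact Icc_subset_Icc hs1 ht
    rw [key, key, ← inner_sub_right, hT.eq s t hs1 hst ht]
    have hii : IntervalIntegrable (fun r => G.lW B r (x r) + G.lL B r) volume s t :=
      (hT.cl.mono hsub).intervalIntegrable
    have e2 := (innerSL ℂ (G.qd (hg.D0 G.ω))).intervalIntegral_comp_comm hii
    have e3 : (innerSL ℂ (G.qd (hg.D0 G.ω))) (∫ r in s..t, (G.lW B r (x r) + G.lL B r)) =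
        ⟪G.qd (hg.D0 G.ω), ∫ r in s..t, (G.lW B r (x r) + G.lL B r)⟫_ℂ := rfl
    refine e3.symm.trans (e2.symm.trans ?_)
    refine intervalIntegral.integral_congr fun r hr => ?_
    exact G.inner_test B (hfc r (hsub hr)) (x r) hg hh0 hh
  rcases le_total s₁ s₂ with h3 | h3
  · exact main s₁ s₂ h1.1 h3 h2.2
  · rw [intervalIntegral.integral_symm, ← main s₂ s₁ h2.1 h3 h1.2]
    ring

end Geo

end

end Pool.Agent.Lib.MP_79abb3_an.SC
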