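import Pool.Agent.Lib.MP_79abb3_an.SC.ExM
import Pool.Agent.Lib.MP_79abb3_an.SC.ExRb

/-!
Theorem C, block (ii), EX6: `Sol` + reality + continuity in `ℓ¹(CI)` ⟹ `MSol`.
-/

set_option autoImplicit false
set_option linter.unusedSectionVars false

open MeasureTheory Set Filter Topology Function
open scoped ENNReal InnerProductSpace

namespace Pool.Agent.Lib.MP_79abb3_an.SC

open Pool.Agent.Lib.MP_79abb3_an.P25

section
variable {H : ℝ} [hH : Fact (0 < H)]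

theorem uV_add (ω : ℝ) (x y : CI H) (n : ℤ) :
    uV ω (fun _ => x + y) n = uV ω (fun _ => x) n + uV ω (fun _ => y) n := by
  unfold uV
  rw [map_add, map_add]
  refine ci_ext fun z _ => ?_
  simp only [ex_add, ex_sub, ex_smul]
  ring

theorem uV_smul (ω : ℝ) (c : ℂ) (x : CI H) (n : ℤ) :
    uV ω (fun _ => c • x) n = c • uV ω (fun _ => x) n := by
  unfold uV
  rw [map_smul, map_smul]
  refine ci_ext fun z _ => ?_
  simp only [ex_sub, ex_smul]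
  ring

theorem wV_add (ω : ℝ) (x y : CI H) (n : ℤ) :
    wV ω (fun _ => x + y) n = wV ω (fun _ => x) n + wV ω (fun _ => y) n := by
  unfold wV
  rw [map_add, map_add]
  refine ci_ext fun z _ => ?_
  simp only [ex_add, ex_smul]
  ring

theorem wV_smul (ω : ℝ) (c : ℂ) (x : CI H) (n : ℤ) :
    wV ω (fun _ => c • x) n = c • wV ω (fun _ => x) n := by
  unfold wV
  rw [map_smul, map_smul]
  refine ci_ext fun z _ => ?_
  simp only [ex_smul]
  ring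

theorem rsmul_CI (c : ℝ) (y : CI H) : c • y = (c : ℂ) • y := ci_ext fun z _ => by
  rw [ex_rsmul, ex_smul]

/-- `v` of `V`, one mode -/
noncomputable def uVo (ω : ℝ) (n : ℤ) : CI H →L[ℝ] CI H :=
  LinearMap.mkContinuous
    { toFun := fun x => uV ω (fun _ => x) n
      map_add' := fun x y => uV_add ω x y n
      map_smul' := fun c x => by
        rw [RingHom.id_apply, rsmul_CI, uV_smul, rsmul_CI] } 2 (fun x => norm_uV_le ω (fun _ => x) n)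

/-- `w` of `V`, one mode -/
noncomputable def wVo (ω : ℝ) (n : ℤ) : CI H →L[ℝ] CI H :=
  LinearMap.mkContinuous
    { toFun := fun x => wV ω (fun _ => x) n
      map_add' := fun x y => wV_add ω x y n
      map_smul' := fun c x => by
        rw [RingHom.id_apply, rsmul_CI, wV_smul, rsmul_CI] } 1 (fun x => norm_wV_le ω (fun _ => x) n)

theorem uVo_apply (ω : ℝ) (n : ℤ) (x : CI H) : uVo ω n x = uV ω (fun _ => x) n := rfl

theorem wVo_apply (ω : ℝ) (n : ℤ) (x : CI H) : wVo ω n x = wV ω (fun _ => x) n := rfl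

/-- The velocity `v` of `V`, on `ℓ¹(CI)`. -/
noncomputable def uL1 (ω : ℝ) : L1 (CI H) →L[ℝ] L1 (CI H) :=
  diagL (uVo ω) 2 (fun n x => norm_uV_le ω (fun _ => x) n)

/-- The velocity `w` of `V`, on `ℓ¹(CI)`. -/
noncomputable def wL1 (ω : ℝ) : L1 (CI H) →L[ℝ] L1 (CI H) :=
  diagL (wVo ω) 1 (fun n x => norm_wV_le ω (fun _ => x) n)

theorem uL1_apply (ω : ℝ) (V : L1 (CI H)) (n : ℤ) : uL1 ω V n = uV ω V n :=
  (diagL_apply (uVo ω) 2 (fun n x => norm_uV_le ω (fun _ => x) n) V n).trans (uVo_apply ω n (V n))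

theorem wL1_apply (ω : ℝ) (V : L1 (CI H)) (n : ℤ) : wL1 ω V n = wV ω V n :=
  (diagL_apply (wVo ω) 1 (fun n x => norm_wV_le ω (fun _ => x) n) V n).trans (wVo_apply ω n (V n))

theorem uV_congr (ω : ℝ) {V V' : ℤ → CI H} {n : ℤ} (h : V n = V' n) : uV ω V n = uV ω V' n := by
  unfold uV; rw [h]

theorem wV_congr (ω : ℝ) {V V' : ℤ → CI H} {n : ℤ} (h : V n = V' n) : wV ω V n = wV ω V' n := by
  unfold wV; rw [h]

theorem cjC_neg {v : l2 (CI H)} (h : cjC v = v) (n : ℤ) : v (-n) = star (v n) := by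
  have h1 : cjC v (-n) = v (-n) := by rw [h]
  rw [cjC_apply, neg_neg] at h1
  exact h1.symm

theorem rot_alg (k : ℂ) (w w' a b : Z2 H) :
    k • w - (a - (a - b)) + k • w' = k • (w + w') - b := by
  rw [smul_add]; abel

theorem rot_aux (ω : ℝ) (g : HH H) (n : ℤ) {v' w' : CI H} (hc : DZ v' (kI ω n • (iota w' : Z2 H))) :
    DZ (uV ω (Vf ω g) n + v') (kI ω n • (iota (wV ω (Vf ω g) n + w') : Z2 H) - g n) := by
  have h1 := (uV_dz ω (V := Vf ω g) (V1 := fun n => ka ω n • (iota (Vf ω g n) : Z2 H) - g n)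
    (Vf_dz ω g n)).add hc
  rw [rot_alg, ← map_add] at h1
  exact h1

/-- `ℓ²` bound of the sum of two families -/
theorem sq_add_bound {x y z : ℤ → ℝ} {A B : ℝ} (hz : ∀ n, 0 ≤ z n) (h : ∀ n, z n ≤ x n + y n)
    (hx : Summable fun n => x n ^ 2) (hxA : ∑' n, x n ^ 2 ≤ A) (hy : Summable fun n => y n ^ 2)
    (hyB : ∑' n, y n ^ 2 ≤ B) :
    (Summable fun n => z n ^ 2) ∧ ∑' n, z n ^ 2 ≤ 2 * (A + B) := by
  have h1 : ∀ n, z n ^ 2 ≤ 2 * (x n ^ 2 + y n ^ 2) := fun n => by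
    have h2 := pow_le_pow_left₀ (hz n) (h n) 2
    nlinarith [sq_nonneg (x n - y n)]
  have h3 : Summable fun n => 2 * (x n ^ 2 + y n ^ 2) := (hx.add hy).mul_left 2
  have h4 : Summable fun n => z n ^ 2 := Summable.of_nonneg_of_le (fun n => sq_nonneg _) h1 h3
  refine ⟨h4, (h4.tsum_le_tsum h1 h3).trans ?_⟩
  rw [tsum_mul_left, hx.tsum_add hy]
  linarith

namespace Geo
variable (G : Geo H)

/-- The background in modes, on `[t₀, t₁]`. -/
structure BgM (B : Bg H) (t₀ t₁ : ℝ) : Prop where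
  cont : B.Cont t₀ t₁
  lift : G.Lift B t₀ t₁
  ok : ∀ t ∈ Icc t₀ t₁, G.Okt B t
  curl : ∀ t ∈ Icc t₀ t₁, ∀ n,
    DZ (hf G.lam (B.ve t) n) (kI G.ω n • (iota (hf G.lam (B.we t) n) : Z2 H))
  fc : ∀ t ∈ Icc t₀ t₁, Off G.ρ (B.fc t)
  re : ∀ t ∈ Icc t₀ t₁, BRe B t
  grad : ∃ C, ∀ t ∈ Icc t₀ t₁,
    ((Summable fun n : ℤ => (|G.ω * n| * ‖(iota (hf G.lam (B.ve t) n) : Z2 H)‖) ^ 2) ∧
      ∑' n : ℤ, (|G.ω * n| * ‖(iota (hf G.lam (B.ve t) n) : Z2 H)‖) ^ 2 ≤ C) ∧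
    ((Summable fun n : ℤ => (|G.ω * n| * ‖(iota (hf G.lam (B.we t) n) : Z2 H)‖) ^ 2) ∧
      ∑' n : ℤ, (|G.ω * n| * ‖(iota (hf G.lam (B.we t) n) : Z2 H)‖) ^ 2 ≤ C)
  l1 : ∃ v' w' V' : ℝ → L1 (CI H), ContinuousOn v' (Icc t₀ t₁) ∧ ContinuousOn w' (Icc t₀ t₁) ∧
    ContinuousOn V' (Icc t₀ t₁) ∧ ∀ t ∈ Icc t₀ t₁, ∀ n : ℤ, v' t n = hf G.lam (B.ve t) n ∧
      w' t n = hf G.lam (B.we t) n ∧ V' t n = Vf G.ω (B.gL t) n

theorem star_hf {v : l2 (CI H)} (h : cjC v = v) (n : ℤ) :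
    hf G.lam v (-n) = star (hf G.lam v n) := by
  have h1 := hf_cj G.lw.neg v (-n)
  rw [h, neg_neg] at h1
  exact h1

theorem Vf_real {g : HH H} (h : Rl g) (n : ℤ) : Vf G.ω g (-n) = star (Vf G.ω g n) := by
  have h1 := Vf_cj G.ω g (-n)
  rw [(Rl_iff g).1 h, neg_neg] at h1
  exact h1

variable {G} {B : Bg H} {t₀ t₁ : ℝ} {x₀ : HH H × HH H} {x : ℝ → HH H × HH H}

theorem vf_real {t : ℝ} (hB : BRe B t) {y : HH H × HH H} (hy : Rl y.2) (n : ℤ) :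
    G.vf B t y (-n) = star (G.vf B t y n) := by
  rw [vf_apply, vf_apply, star_add, G.star_hf hB.ve n]
  congr 1
  have h1 := uV_cj G.ω (V := Vf G.ω (G.gt B t y)) (V' := Vf G.ω (G.gt B t y))
    (fun n => by
      have := G.Vf_real (g := G.gt B t y) (Rl_gt hB hy) (-n)
      rw [neg_neg] at this
      exact this) (-n)
  rw [neg_neg] at h1
  exact h1

theorem wf_real {t : ℝ} (hB : BRe B t) {y : HH H × HH H} (hy : Rl y.2) (n : ℤ) :
    G.wf B t y (-n) = star (G.wf B t y n) := by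
  rw [wf_apply, wf_apply, star_add, G.star_hf hB.we n]
  congr 1
  have h1 := wV_cj G.ω (V := Vf G.ω (G.gt B t y)) (V' := Vf G.ω (G.gt B t y))
    (fun n => by
      have := G.Vf_real (g := G.gt B t y) (Rl_gt hB hy) (-n)
      rw [neg_neg] at this
      exact this) (-n)
  rw [neg_neg] at h1
  exact h1

/-- `v_z = w_y - Om` -/
theorem rot_vf {t : ℝ} (hc : ∀ n, DZ (hf G.lam (B.ve t) n)
    (kI G.ω n • (iota (hf G.lam (B.we t) n) : Z2 H))) (y : HH H × HH H) (n : ℤ) :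
    DZ (G.vf B t y n) (kI G.ω n • (iota (G.wf B t y n) : Z2 H) - G.gt B t y n) := by
  rw [vf_apply, wf_apply]
  exact rot_aux G.ω (G.gt B t y) n (hc n)

theorem grad_gt (g : HH H) :
    ((Summable fun n : ℤ => (|G.ω * n| * ‖(iota (uV G.ω (Vf G.ω g) n) : Z2 H)‖) ^ 2) ∧
      ∑' n : ℤ, (|G.ω * n| * ‖(iota (uV G.ω (Vf G.ω g) n) : Z2 H)‖) ^ 2 ≤ (2 * ‖g‖) ^ 2) ∧
    ((Summable fun n : ℤ => (|G.ω * n| * ‖(iota (wV G.ω (Vf G.ω g) n) : Z2 H)‖) ^ 2) ∧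
      ∑' n : ℤ, (|G.ω * n| * ‖(iota (wV G.ω (Vf G.ω g) n) : Z2 H)‖) ^ 2 ≤ (2 * ‖g‖) ^ 2) := by
  have h0 : Summable fun n => (2 * ‖g n‖) ^ 2 := by
    simp only [mul_pow]
    exact (l2_summable g).mul_left _
  have h00 : ∑' n, (2 * ‖g n‖) ^ 2 = (2 * ‖g‖) ^ 2 := by
    simp only [mul_pow]
    rw [tsum_mul_left, ← l2_norm_sq]
  have hu : ∀ n : ℤ, |G.ω * n| * ‖(iota (uV G.ω (Vf G.ω g) n) : Z2 H)‖ ≤ 2 * ‖g n‖ := fun n => by
    have h1 := norm_iuV_le G.ω (Vf G.ω g) n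
    have h2 := (norm_iVf G.ω g n).2
    have h3 := mul_le_mul_of_nonneg_left h1 (abs_nonneg (G.ω * n))
    show |G.ω * n| * ‖io (uV G.ω (Vf G.ω g)) n‖ ≤ _
    linarith
  have hw : ∀ n : ℤ, |G.ω * n| * ‖(iota (wV G.ω (Vf G.ω g) n) : Z2 H)‖ ≤ 2 * ‖g n‖ := fun n => by
    have h1 := norm_iwV_le G.ω (Vf G.ω g) n
    have h2 := (norm_iVf G.ω g n).2
    have h3 := mul_le_mul_of_nonneg_left h1 (abs_nonneg (G.ω * n))
    have h4 := norm_nonneg (g n)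
    show |G.ω * n| * ‖io (wV G.ω (Vf G.ω g)) n‖ ≤ _
    linarith
  have key : ∀ z : ℤ → ℝ, (∀ n, 0 ≤ z n) → (∀ n, z n ≤ 2 * ‖g n‖) →
      (Summable fun n => z n ^ 2) ∧ ∑' n, z n ^ 2 ≤ (2 * ‖g‖) ^ 2 := by
    intro z hz0 hz
    have h1 : ∀ n, z n ^ 2 ≤ (2 * ‖g n‖) ^ 2 := fun n => pow_le_pow_left₀ (hz0 n) (hz n) 2
    have h2 : Summable fun n => z n ^ 2 := Summable.of_nonneg_of_le (fun n => sq_nonneg _) h1 h0
    exact ⟨h2, (h2.tsum_le_tsum h1 h0).trans_eq h00⟩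
  exact ⟨key _ (fun n => by positivity) hu, key _ (fun n => by positivity) hw⟩

theorem Sol.cont_gt (hs : ContinuousOn x (Icc t₀ t₁)) (hB : B.Cont t₀ t₁) :
    ContinuousOn (fun t => G.gt B t (x t)) (Icc t₀ t₁) :=
  (G.Qd.continuous.comp_continuousOn (continuous_snd.comp_continuousOn hs)).add hB.gL

/-- **EX6, conversion.** `Wl t` = the modes of `W(t)` in `ℓ¹(CI)`. -/
theorem Sol.msol (hs : G.Sol B t₀ t₁ x₀ x) (hM : G.BgM B t₀ t₁) {h : ℝ} (hh0 : 0 ≤ h) (hh : h ≤ G.ρ)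
    (hr : ∀ t ∈ Icc t₀ t₁, Rl (x t).2) {Wl : ℝ → L1 (CI H)} (hW : ContinuousOn Wl (Icc t₀ t₁))
    (hWl : ∀ t ∈ Icc t₀ t₁, ∀ n, Wl t n = Vf G.ω (G.Qd (x t).2) n) :
    ∃ v w : ℝ → L1 (CI H), MSol G.ω h G.a t₀ t₁ v w (fun t => G.gt B t (x t)) ∧
      ∀ t ∈ Icc t₀ t₁, ∀ n, v t n = G.vf B t (x t) n ∧ w t n = G.wf B t (x t) n := by
  obtain ⟨v', w', V', cv', cw', cV', hl⟩ := hM.l1
  have hV : ∀ t ∈ Icc t₀ t₁, ∀ n, (Wl t + V' t : L1 (CI H)) n = Vf G.ω (G.gt B t (x t)) n := by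
    intro t ht n
    rw [lp.coeFn_add, Pi.add_apply, hWl t ht, (hl t ht n).2.2]
    exact (map_add (Tz (G.ω * n)) (G.Qd (x t).2 n) (B.gL t n)).symm
  have hv : ∀ t ∈ Icc t₀ t₁, ∀ n, (uL1 G.ω (Wl t + V' t) + v' t : L1 (CI H)) n =
      G.vf B t (x t) n := by
    intro t ht n
    rw [lp.coeFn_add, Pi.add_apply, uL1_apply, vf_apply, (hl t ht n).1]
    congr 1
    exact uV_congr G.ω (hV t ht n)
  have hw : ∀ t ∈ Icc t₀ t₁, ∀ n, (wL1 G.ω (Wl t + V' t) + w' t : L1 (CI H)) n =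
      G.wf B t (x t) n := by
    intro t ht n
    rw [lp.coeFn_add, Pi.add_apply, wL1_apply, wf_apply, (hl t ht n).2.1]
    congr 1
    exact wV_congr G.ω (hV t ht n)
  have cg := Sol.cont_gt (G := G) hs.cont hM.cont
  refine ⟨fun t => uL1 G.ω (Wl t + V' t) + v' t, fun t => wL1 G.ω (Wl t + V' t) + w' t, ?_,
    fun t ht n => ⟨hv t ht n, hw t ht n⟩⟩
  refine ⟨?_, ?_, cg, ?_, ?_, ?_, ?_, ?_, ?_, ?_⟩
  · exact ((uL1 G.ω).continuous.comp_continuousOn (hW.add cV')).add cv'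
  · exact ((wL1 G.ω).continuous.comp_continuousOn (hW.add cV')).add cw'
  · intro t ht n
    rw [hv t ht, hv t ht]
    exact vf_real (hM.re t ht) (hr t ht) n
  · intro t ht n
    rw [hw t ht, hw t ht]
    exact wf_real (hM.re t ht) (hr t ht) n
  · intro t ht
    exact Rl_gt (hM.re t ht) (hr t ht)
  · intro t ht n
    rw [hv t ht, hw t ht]
    exact (hM.ok t ht).div' (x t) n
  · intro t ht n
    rw [hv t ht, hw t ht]
    exact rot_vf (hM.curl t ht) (x t) n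
  · obtain ⟨C, hC⟩ := hM.grad
    obtain ⟨R, hR⟩ := isCompact_Icc.exists_bound_of_continuousOn cg
    refine ⟨2 * ((2 * R) ^ 2 + C), fun t ht => ?_⟩
    obtain ⟨⟨a1, a2⟩, ⟨b1, b2⟩⟩ := hC t ht
    obtain ⟨⟨c1, c2⟩, ⟨d1, d2⟩⟩ := grad_gt (G := G) (G.gt B t (x t))
    have hg : (2 * ‖G.gt B t (x t)‖) ^ 2 ≤ (2 * R) ^ 2 := by
      have := hR t ht
      gcongr
    constructor
    · refine sq_add_bound (fun n => by positivity) (fun n => ?_) c1 (c2.trans hg) a1 a2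
      rw [hv t ht, vf_apply, map_add, ← mul_add]
      exact mul_le_mul_of_nonneg_left (norm_add_le _ _) (abs_nonneg _)
    · refine sq_add_bound (fun n => by positivity) (fun n => ?_) d1 (d2.trans hg) b1 b2
      rw [hw t ht, wf_apply, map_add, ← mul_add]
      exact mul_le_mul_of_nonneg_left (norm_add_le _ _) (abs_nonneg _)
  · intro g g1 g2 hg s₁ h1 s₂ h2
    have key := hs.test hM.cont hM.lift hM.fc hg hh0 hh h1 h2
    rw [key]
    refine intervalIntegral.integral_congr fun r hr => ?_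
    have hr' : r ∈ Icc t₀ t₁ := by
      rcases le_total s₁ s₂ with h3 | h3
      · rw [uIcc_of_le h3] at hr
        exact ⟨h1.1.trans hr.1, hr.2.trans h2.2⟩
      · rw [uIcc_of_ge h3] at hr
        exact ⟨h2.1.trans hr.1, hr.2.trans h1.2⟩
    have e1 : G.vf B r (x r) = ⇑(uL1 G.ω (Wl r + V' r) + v' r : L1 (CI H)) :=
      funext fun n => (hv r hr' n).symm
    have e2 : G.wf B r (x r) = ⇑(wL1 G.ω (Wl r + V' r) + w' r : L1 (CI H)) :=
      funext fun n => (hw r hr' n).symm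
    show lM G.ω G.a g g1 g2 (G.vf B r (x r)) (G.wf B r (x r)) _ = _
    rw [e1, e2]

end Geo

end

end Pool.Agent.Lib.MP_79abb3_an.SC
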