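import Pool.Agent.Lib.MP_79abb3_an.SC.ExD
import Pool.Agent.Lib.MP_79abb3_an.SC.ExMs

/-!
Theorem C, block (ii): conversion of solutions to pieces; the reduced system (`q = 0`, no background).
-/

set_option autoImplicit false
set_option linter.unusedSectionVars false

open MeasureTheory Set Filter Topology Function
open scoped ENNReal InnerProductSpace

namespace Pool.Agent.Lib.MP_79abb3_an.SC

open Pool.Agent.Lib.MP_79abb3_an.P25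

section
variable {H : ℝ} [hH : Fact (0 < H)]

namespace Geo
variable (G : Geo H)

theorem hf_zero (n : ℤ) : hf G.lam (0 : l2 (CI H)) n = 0 := by
  refine ci_ext fun z _ => ?_
  rw [hf_apply]
  show ((G.lam n ^ (-(1 / 2 : ℝ)) : ℝ) : ℂ) * ex (0 : CI H) z = 0
  rw [ex_zero, mul_zero]

/-- modes ⟹ physical variables (proved in `WkM`) -/
def PcT (a : ℝ × ℝ → ℝ) (h : ℝ) : Prop :=
  ∀ (t₀ t₁ : ℝ) (v w : ℝ → L1 (CI H)) (Om : ℝ → HH H), MSol G.ω h G.a t₀ t₁ v w Om →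
    Piece H h a t₀ t₁ (fun t q => fld G.ω (v t) q.1 q.2) (fun t q => fld G.ω (w t) q.1 q.2)

/-- the semigroup smooths into `ℓ¹(CI)` -/
def SmT : Prop := ∃ (ι : L1 (CI H) →L[ℂ] HH H) (P : ℝ → HH H →L[ℂ] L1 (CI H)) (C θ : ℝ),
  (∀ y n, ι y n = iota (y n)) ∧ Smo G.D.K ι P C θ

/-- no slip for `u_e + u[V_L]` -/
def Nsl (B : Bg H) (t₀ t₁ : ℝ) : Prop := ∀ t ∈ Icc t₀ t₁, ∀ n : ℤ,
  ex (Vf G.ω (B.gL t) n) 0 + ex (hf G.lam (B.ve t) n) 0 = 0 ∧ ex (hf G.lam (B.we t) n) 0 = 0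

theorem Vf_Qd_zero (x : HH H) (n : ℤ) : ex (Vf G.ω (G.Qd x) n) 0 = 0 := by
  refine (P2_iff (G.ω * n) (G.Qd x n)).1 ?_
  rw [← PP_apply, G.PP_Qd]

theorem fld_zero_at {ω : ℝ} {a : ℤ → CI H} (h : ∀ n, ex (a n) 0 = 0) (y : ℝ) : fld ω a y 0 = 0 := by
  unfold fld
  simp [h]

variable {G} {B : Bg H} {t₀ t₁ : ℝ} {x₀ : HH H × HH H} {x : ℝ → HH H × HH H}

/-- **Conversion.** -/
theorem Sol.conv {a : ℝ × ℝ → ℝ} {h : ℝ} (hP : G.PcT a h) (hS : G.SmT) (hh0 : 0 ≤ h) (hh : h ≤ G.ρ)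
    (hs : G.Sol B t₀ t₁ x₀ x) (hM : G.BgM B t₀ t₁) (hns : G.Nsl B t₀ t₁) (hr1 : Rl x₀.1)
    (h0 : G.St x₀.2) : ∃ v w : ℝ → ℝ × ℝ → ℝ, Piece H h a t₀ t₁ v w ∧ NoSlip t₀ t₁ v w ∧
      (∀ t ∈ Icc t₀ t₁, B.ve t = 0 → B.we t = 0 → B.gL t = 0 → G.Fl h (x t).2 (v t) (w t)) ∧
      (∀ t ∈ Icc t₀ t₁, G.St (x t).2) ∧
      ∀ t ∈ Icc t₀ t₁, ∀ q : ℝ × ℝ, v t q = fld G.ω (G.vf B t (x t)) q.1 q.2 ∧
        w t q = fld G.ω (G.wf B t (x t)) q.1 q.2 := by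
  obtain ⟨ι, P, C, θ, hι, hSm⟩ := hS
  have hre := hs.reality hM.cont hM.re hr1 h0.real
  obtain ⟨C', hC'⟩ := hs.ddc hM.cont h0.dd
  obtain ⟨Wl, hW, hWl⟩ := hs.lift hM.cont h0.dd hι hSm
  obtain ⟨v, w, hm, hvw⟩ := hs.msol hM hh0 hh (fun t ht => (hre t ht).2) hW hWl
  have ev : ∀ t ∈ Icc t₀ t₁, ⇑(v t) = G.vf B t (x t) := fun t ht => funext fun n => (hvw t ht n).1
  have ew : ∀ t ∈ Icc t₀ t₁, ⇑(w t) = G.wf B t (x t) := fun t ht => funext fun n => (hvw t ht n).2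
  refine ⟨fun t q => fld G.ω (v t) q.1 q.2, fun t q => fld G.ω (w t) q.1 q.2,
    hP t₀ t₁ v w _ hm, ?_, ?_, fun t ht => ⟨(hre t ht).2, C', hC' t ht⟩, ?_⟩
  · intro t ht y
    show fld G.ω (v t) y 0 = 0 ∧ fld G.ω (w t) y 0 = 0
    rw [ev t ht, ew t ht]
    refine ⟨fld_zero_at (fun n => ?_) y, fld_zero_at (fun n => ?_) y⟩
    · have h1 := (hns t ht n).1
      have h2 := G.Vf_Qd_zero (x t).2 n
      have h3 : Vf G.ω (G.gt B t (x t)) n = Vf G.ω (G.Qd (x t).2) n + Vf G.ω (B.gL t) n :=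
        map_add (Tz (G.ω * n)) (G.Qd (x t).2 n) (B.gL t n)
      rw [vf_apply, ex_add, ex_uV_zero, h3, ex_add, h2, zero_add]
      exact h1
    · rw [wf_apply, ex_add, wV_zero, (hns t ht n).2, add_zero]
  · intro t ht hve hwe hgL y z hz
    have e1 : G.vf B t (x t) = uV G.ω (Vf G.ω (G.Qd (x t).2)) := by
      funext n
      have e0 : G.gt B t (x t) = G.Qd (x t).2 := by
        show G.Qd (x t).2 + B.gL t = _
        rw [hgL, add_zero]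
      rw [vf_apply, e0, hve, hf_zero, add_zero]
    have e2 : G.wf B t (x t) = wV G.ω (Vf G.ω (G.Qd (x t).2)) := by
      funext n
      have e0 : G.gt B t (x t) = G.Qd (x t).2 := by
        show G.Qd (x t).2 + B.gL t = _
        rw [hgL, add_zero]
      rw [wf_apply, e0, hwe, hf_zero, add_zero]
    show fld G.ω (v t) y z = fld G.ω (uV G.ω (Vf G.ω (G.Qd (x t).2))) y z ∧
      fld G.ω (w t) y z = fld G.ω (wV G.ω (Vf G.ω (G.Qd (x t).2))) y z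
    rw [ev t ht, ew t ht, e1, e2]
    exact ⟨rfl, rfl⟩
  · intro t ht q
    show fld G.ω (v t) q.1 q.2 = _ ∧ fld G.ω (w t) q.1 q.2 = _
    rw [ev t ht, ew t ht]
    exact ⟨rfl, rfl⟩

/-! ### Zero background with a control -/

/-- zero background, control `f` -/
noncomputable def B0 (f : ℝ → HH H) : Bg H where
  ve _ := 0
  we _ := 0
  gL _ := 0
  FL _ := 0
  fc := f
  κ _ := 0
  κ1 _ := 0

theorem Vf_zero (ω : ℝ) (n : ℤ) : Vf ω (0 : HH H) n = 0 := map_zero (Tz (ω * n))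

theorem B0_cont {f : ℝ → HH H} (hf : ContinuousOn f (Icc t₀ t₁)) : (B0 f).Cont t₀ t₁ where
  ve := continuousOn_const
  we := continuousOn_const
  gL := continuousOn_const
  FL := continuousOn_const
  fc := hf
  κ := continuousOn_const
  κ1 := continuousOn_const

theorem B0_lL (f : ℝ → HH H) (t : ℝ) : G.lL (B0 f) t = 0 := by
  show -(G.Qd.adjoint (cm G.a (0 : HH H))) - G.J4 0 = 0
  rw [map_zero, map_zero, map_zero, neg_zero, sub_zero]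

theorem B0_bgM {f : ℝ → HH H} (hfc : ContinuousOn f (Icc t₀ t₁))
    (ho : ∀ t ∈ Icc t₀ t₁, Off G.ρ (f t)) (hr : ∀ t ∈ Icc t₀ t₁, Rl (f t)) :
    G.BgM (B0 f) t₀ t₁ where
  cont := B0_cont hfc
  lift := by
    have e1 : G.lL (B0 f) = fun _ => 0 := funext fun t => B0_lL f t
    have e2 : (fun t => TT G.ω ((B0 f).gL t)) = fun _ => 0 := funext fun t => map_zero (TT G.ω)
    unfold Lift
    rw [e1, e2]
    refine ⟨continuousOn_const, continuousOn_const, fun s t _ _ _ => ?_⟩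
    rw [intervalIntegral.integral_zero]
    exact sub_self _
  ok t _ := ⟨fun n => by
    show DZ (hf G.lam (0 : l2 (CI H)) n) (-(kI G.ω n) • (iota (hf G.lam (0 : l2 (CI H)) n) : Z2 H))
    rw [hf_zero, map_zero, smul_zero]; exact DZ.zero, by
    show IsD (0 : CI H) 0
    intro z _
    exact hasDerivWithinAt_const _ _ _⟩
  curl t _ n := by
    show DZ (hf G.lam (0 : l2 (CI H)) n) (kI G.ω n • (iota (hf G.lam (0 : l2 (CI H)) n) : Z2 H))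
    rw [hf_zero, map_zero, smul_zero]; exact DZ.zero
  fc := ho
  re t ht := ⟨map_zero cjC, map_zero cjC, map_zero cjX, map_zero cjX, (Rl_iff _).1 (hr t ht),
    star_zero _, star_zero _⟩
  grad := ⟨0, fun t _ => by
    have e : (fun n : ℤ => (|G.ω * n| * ‖(iota (hf G.lam (0 : l2 (CI H)) n) : Z2 H)‖) ^ 2) =
        fun _ => 0 := by
      funext n
      rw [hf_zero, map_zero, norm_zero, mul_zero]; norm_num
    show ((Summable fun n : ℤ => (|G.ω * n| * ‖(iota (hf G.lam (0 : l2 (CI H)) n) : Z2 H)‖) ^ 2) ∧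
      ∑' n : ℤ, (|G.ω * n| * ‖(iota (hf G.lam (0 : l2 (CI H)) n) : Z2 H)‖) ^ 2 ≤ 0) ∧
      ((Summable fun n : ℤ => (|G.ω * n| * ‖(iota (hf G.lam (0 : l2 (CI H)) n) : Z2 H)‖) ^ 2) ∧
      ∑' n : ℤ, (|G.ω * n| * ‖(iota (hf G.lam (0 : l2 (CI H)) n) : Z2 H)‖) ^ 2 ≤ 0)
    rw [e]
    simp⟩
  l1 := ⟨fun _ => 0, fun _ => 0, fun _ => 0, continuousOn_const, continuousOn_const,
    continuousOn_const, fun t _ n => by
      show (0 : CI H) = hf G.lam (0 : l2 (CI H)) n ∧ (0 : CI H) = hf G.lam (0 : l2 (CI H)) n ∧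
        (0 : CI H) = Vf G.ω (0 : HH H) n
      rw [hf_zero, Vf_zero]
      exact ⟨rfl, rfl, rfl⟩⟩

theorem B0_nsl (f : ℝ → HH H) : G.Nsl (B0 f) t₀ t₁ := fun t _ n => by
  show ex (Vf G.ω (0 : HH H) n) 0 + ex (hf G.lam (0 : l2 (CI H)) n) 0 = 0 ∧
    ex (hf G.lam (0 : l2 (CI H)) n) 0 = 0
  rw [hf_zero, Vf_zero]
  simp

/-! ### The reduced system -/

variable (G)

theorem J4_eq : G.J4 = Kh G.D.K := by
  refine ContinuousLinearMap.ext fun y => ext_inner_left ℂ fun φ => ?_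
  rw [inner_J4, G.TT_Qd, Kh_inner]

/-- the bilinear term -/
noncomputable def NN : HH H →L[ℂ] HH H →L[ℂ] HH H :=
  -((ContinuousLinearMap.compL ℂ (HH H) (HH H) (HH H) (Xz G.ω)) ∘L
      ((prd G.pw).bilinearComp (Ms G.ζ ∘L cm G.a ∘L G.Qd) (UW G.ω G.lam ∘L G.Qd)) +
    (ContinuousLinearMap.compL ℂ (HH H) (HH H) (HH H) (Xy G.ω)) ∘L
      ((prd G.pw).bilinearComp (Ms G.ζ ∘L cm G.a ∘L G.Qd) (UV G.ω G.lam ∘L G.Qd)))

theorem NN_apply (x y : HH H) : G.NN x y =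
    G.Pw (Ms G.ζ (cm G.a (G.Qd x))) (UV G.ω G.lam (G.Qd y)) (UW G.ω G.lam (G.Qd y)) := rfl

theorem prd_zero (v : l2 (CI H)) : prd G.pw (0 : HH H) v = 0 := by
  rw [map_zero]; rfl

theorem Phi_B0 (f : ℝ → HH H) (t : ℝ) (y : HH H) :
    G.Phi (B0 f) t (0, y) = ((0, 0), (G.NN y y, f t)) := by
  have eq0 : G.qL 0 = 0 := map_zero _
  have egV : G.gV (B0 f) t (0, y) = G.Qd y := by
    show G.Qd y + 0 - Ms G.ζ (cm G.J (G.qL 0)) = G.Qd y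
    rw [eq0, map_zero, map_zero, sub_zero, add_zero]
  have euv : G.uv (B0 f) t (0, y) = UV G.ω G.lam (G.Qd y) := by
    show UV G.ω G.lam (G.Qd y + 0) + 0 = _
    rw [add_zero, add_zero]
  have euw : G.uw (B0 f) t (0, y) = UW G.ω G.lam (G.Qd y) := by
    show UW G.ω G.lam (G.Qd y + 0) + 0 = _
    rw [add_zero, add_zero]
  have e1 : G.f1 (B0 f) t (0, y) = 0 := by
    show -(prd G.pw (Xy G.ω (G.Qo 0)) (G.uv (B0 f) t (0, y)) +
      prd G.pw (Xz G.ω (G.Qo 0)) (G.uw (B0 f) t (0, y))) = 0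
    rw [map_zero G.Qo, map_zero (Xy G.ω), map_zero (Xz G.ω), G.prd_zero, G.prd_zero, add_zero,
      neg_zero]
  have ms0 : Ms (0 : CI H) = (0 : HH H →L[ℂ] HH H) := by
    refine ContinuousLinearMap.ext fun z => ?_
    ext1; funext n
    rw [Ms_apply, map_zero]; rfl
  have e2 : G.f2 (B0 f) t (0, y) = 0 := by
    show Ms (0 : CI H) (G.gV (B0 f) t (0, y)) - Ms (0 : CI H) (G.VV (B0 f) t (0, y)) = 0
    rw [ms0]; exact sub_zero _
  have e3 : G.f3 (B0 f) t (0, y) = G.NN y y := by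
    show G.Pw (Ms G.ζ (G.qL 0) + Ms G.ζ (cm G.a (G.gV (B0 f) t (0, y)))) (G.uv (B0 f) t (0, y))
      (G.uw (B0 f) t (0, y)) = _
    rw [eq0, map_zero, zero_add, egV, euv, euw]
    rfl
  have ej : G.jj (B0 f) t (0, y) = 0 := by
    show -(2:ℂ) • Xz G.ω (Ms G.ζ1 (G.qL 0)) +
      TT G.ω (Ms G.ζ2 (G.qL 0) + Ms G.ζ1 (Ms (0 : CI H) (G.VV (B0 f) t (0, y)))) +
      LT G.ω G.lam (1 / 4) (Ms G.ζ1 (prd G.pw (G.qL 0) (G.uw (B0 f) t (0, y)))) = 0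
    rw [eq0, ms0, G.prd_zero, map_zero (Ms G.ζ1), map_zero (Ms G.ζ2), zero_apply, map_zero (Ms G.ζ1),
      map_zero (Xz G.ω), map_zero (LT G.ω G.lam (1 / 4)), add_zero, add_zero, map_zero (TT G.ω),
      smul_zero, add_zero]
  have e4 : G.f4 (B0 f) t (0, y) = f t := by
    show G.jj (B0 f) t (0, y) + (Ms G.ζ (Ms (0 : CI H) (G.VV (B0 f) t (0, y))) -
      Ms (0 : CI H) (G.VV (B0 f) t (0, y))) + (0 + f t) = f t
    rw [ej, ms0, zero_apply, map_zero, sub_zero, zero_add, zero_add, zero_add]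
  show ((G.f1 (B0 f) t (0, y), G.f2 (B0 f) t (0, y)), (G.f3 (B0 f) t (0, y), G.f4 (B0 f) t (0, y))) = _
  rw [e1, e2, e3, e4]

/-- the kernels of the reduced system -/
theorem kerL : ∃ C, Ker (Sg G.D.K) (Lc G.D.K G.J3) C (5 / 8) := by
  obtain ⟨C, hC⟩ := ker_one G.lamOK G.D rfl
  refine ⟨C, ?_⟩
  have e : Lc G.D.K G.J3 = fun τ => (AS G.D.K τ).comp
      (((LT G.ω G.lam (1 / 4) ∘L G.D.Q (Kh G.D.K)).adjoint).coprod
        ((TT G.ω ∘L G.D.Q (Kh G.D.K)).adjoint)) := by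
    funext τ
    show (AS G.D.K τ).comp (G.J3.coprod (Kh G.D.K)) = (AS G.D.K τ).comp (G.J3.coprod G.J4)
    rw [J4_eq]
  rw [e]; exact hC

variable {G}

/-- Solutions of the reduced system are solutions of the background system. -/
theorem sol_of_mild {f : ℝ → HH H} (hf : Continuous f) {y₀ : HH H} {y : ℝ → HH H}
    (hy : Mild (Sg G.D.K) (Lc G.D.K G.J3) (Pc G.NN f) t₀ t₁ y₀ y) :
    G.Sol (B0 f) t₀ t₁ (0, y₀) (fun t => (0, y t)) := by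
  refine ⟨continuousOn_const.prodMk hy.cont, fun t ht => ?_⟩
  obtain ⟨C, hC⟩ := G.kerL
  obtain ⟨M, hM⟩ := Pc_nl G.NN hf t₀ t₁
  have hi := hC.int_aux (hM.cont_comp hy.cont) ht (c := t₀) ⟨le_rfl, ht.1⟩
  have e1 : ∀ r, G.LL (t - r) (G.Phi (B0 f) r (0, y r)) =
      ContinuousLinearMap.inr ℂ (HH H) (HH H) (Lc G.D.K G.J3 (t - r) (Pc G.NN f r (y r))) := by
    intro r
    rw [Phi_B0]
    show (AS G.Do.K (t - r) (G.J1 0 + G.J2 0), AS G.D.K (t - r) (G.J3 (G.NN (y r) (y r)) + G.J4 (f r))) =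
      (0, AS G.D.K (t - r) (G.J3 (G.NN (y r) (y r)) + Kh G.D.K (f r)))
    rw [map_zero, map_zero, add_zero, map_zero, J4_eq]
  have e2 : ∫ r in t₀..t, G.LL (t - r) (G.Phi (B0 f) r (0, y r)) =
      ContinuousLinearMap.inr ℂ (HH H) (HH H)
        (∫ r in t₀..t, Lc G.D.K G.J3 (t - r) (Pc G.NN f r (y r))) := by
    rw [← ContinuousLinearMap.intervalIntegral_comp_comm _ hi]
    exact intervalIntegral.integral_congr fun r _ => e1 r
  refine Eq.trans ?_ (congrArg (fun z => G.SS (t - t₀) (0, y₀) + z) e2.symm)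
  refine Prod.ext ?_ ?_
  · show (0 : HH H) = Sg G.Do.K (t - t₀) 0 + 0
    rw [map_zero, add_zero]
  · show y t = Sg G.D.K (t - t₀) y₀ + ∫ r in t₀..t, Lc G.D.K G.J3 (t - r) (Pc G.NN f r (y r))
    exact hy.eq t ht

theorem cj_NN (x y : HH H) : cjX (G.NN x y) = G.NN (cjX x) (cjX y) := by
  rw [NN_apply, NN_apply]
  show cjX (-(Xz G.ω (prd G.pw (Ms G.ζ (cm G.a (G.Qd x))) (UW G.ω G.lam (G.Qd y))) +
    Xy G.ω (prd G.pw (Ms G.ζ (cm G.a (G.Qd x))) (UV G.ω G.lam (G.Qd y))))) =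
    -(Xz G.ω (prd G.pw (Ms G.ζ (cm G.a (G.Qd (cjX x)))) (UW G.ω G.lam (G.Qd (cjX y)))) +
    Xy G.ω (prd G.pw (Ms G.ζ (cm G.a (G.Qd (cjX x)))) (UV G.ω G.lam (G.Qd (cjX y)))))
  rw [map_neg, map_add, cj_Xz, cj_Xy, cj_prd, cj_prd, cj_Ms G.ζ_real, cj_cm G.ha.c, cj_Qd, cj_UW,
    cj_UV, cj_Qd]

theorem Rl_zero : Rl (0 : HH H) := (Rl_iff _).2 (map_zero cjX)

/-- **Arcs from solutions of the reduced system.** -/
theorem arc_of_mild {a : ℝ × ℝ → ℝ} {h T : ℝ} (hP : G.PcT a h) (hS : G.SmT) (hh0 : 0 ≤ h)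
    (hh : h ≤ G.ρ) (hT : 0 ≤ T) {f : ℝ → HH H} (hf : Continuous f)
    (ho : ∀ t ∈ Icc 0 T, Off G.ρ (f t)) (hr : ∀ t ∈ Icc 0 T, Rl (f t)) {y₀ : HH H} {y : ℝ → HH H}
    (hy : Mild (Sg G.D.K) (Lc G.D.K G.J3) (Pc G.NN f) 0 T y₀ y) (hy₀ : G.St y₀) :
    G.Arc a h T y₀ (y T) := by
  obtain ⟨v, w, h1, h2, h3, h4, -⟩ := (sol_of_mild hf hy).conv hP hS hh0 hh
    (B0_bgM hf.continuousOn ho hr) (B0_nsl f) Rl_zero hy₀
  have m0 : (0:ℝ) ∈ Icc 0 T := ⟨le_rfl, hT⟩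
  have mT : T ∈ Icc 0 T := ⟨hT, le_rfl⟩
  obtain ⟨C, hC⟩ := G.kerL
  have e0 : y 0 = y₀ := hy.init hC hT
  refine ⟨h4 T mT, v, w, h1, h2, ?_, h3 T mT rfl rfl rfl⟩
  have := h3 0 m0 rfl rfl rfl
  rwa [e0] at this

end Geo

end

end Pool.Agent.Lib.MP_79abb3_an.SC
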