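import Pool.Agent.Lib.MP_79abb3_an.SC.NcN

/-!
MP_79abb3_an, Theorem C, block (iv): the control operator and the instance of `NcSys`.
-/

set_option autoImplicit false
set_option linter.unusedSectionVars false
set_option linter.unusedVariables false

open MeasureTheory Set Filter Topology Function
open scoped ENNReal InnerProductSpace

namespace Pool.Agent.Lib.MP_79abb3_an.SC

open Pool.Agent.Lib.MP_79abb3_an.P25

section
variable {H : ℝ} [hH : Fact (0 < H)]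

/-- The control cut-off: `0` for `z ≤ ρ`, `1` for `(ρ + H)/2 ≤ z`. -/
noncomputable def Geo.χc (G : Geo H) : CI H :=
  rci H (stp G.ρ ((G.ρ + H) / 2)) (stp_contDiff _ _).continuous

/-- Multiplication by the control cut-off. -/
noncomputable def Geo.χo (G : Geo H) : HH H →L[ℂ] HH H := mb G.χc

theorem Geo.ρ_lt (G : Geo H) : G.ρ < (G.ρ + H) / 2 := by linarith [G.ρH]

theorem Geo.χc_zero (G : Geo H) {z : ℝ} (hz : z ∈ Icc (0:ℝ) H) (h : z ≤ G.ρ) : ex G.χc z = 0 := by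
  rw [Geo.χc, ex_rci _ hz, stp_zero G.ρ_lt h, Complex.ofReal_zero]

theorem Geo.χc_one (G : Geo H) {z : ℝ} (hz : z ∈ Icc (0:ℝ) H) (h : (G.ρ + H) / 2 ≤ z) :
    ex G.χc z = 1 := by
  rw [Geo.χc, ex_rci _ hz, stp_one G.ρ_lt h, Complex.ofReal_one]

theorem Geo.star_χc (G : Geo H) : star G.χc = G.χc := star_rci _

theorem Geo.norm_χc_le (G : Geo H) : ‖G.χc‖ ≤ 1 := by
  refine ci_norm_le zero_le_one fun z hz => ?_
  rw [Geo.χc, ex_rci _ hz, Complex.norm_real, Real.norm_eq_abs, abs_of_nonneg (stp_nonneg _ _ _)]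
  exact stp_le_one _ _ _

theorem Geo.χo_adj (G : Geo H) (x y : HH H) : ⟪G.χo x, y⟫_ℂ = ⟪x, G.χo y⟫_ℂ :=
  inner_mb G.star_χc x y

theorem Geo.norm_χo_le (G : Geo H) (x : HH H) : ‖G.χo x‖ ≤ ‖x‖ := by
  refine (norm_mb_apply_le _ _).trans ?_
  exact (mul_le_mul_of_nonneg_right G.norm_χc_le (norm_nonneg _)).trans (by rw [one_mul])

/-- Observability with the control operator. -/
theorem Geo.obs_χo (G : Geo H) : ∃ C0 : ℝ, 0 ≤ C0 ∧ ∀ T, 0 < T → T ≤ 1 → ∀ q : HH H,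
    ‖Sg G.D.K T q‖ ^ 2 ≤
      Real.exp (C0 / T ^ 2) * ∫ t in (0:ℝ)..T, kapT T t * ‖G.χo (Sg G.D.K t q)‖ ^ 2 :=
  G.obs (χc := G.χc) (r := (G.ρ + H) / 2) (by linarith [G.ρH]) fun z hz h => by
    rw [G.χc_one hz h, norm_one]

/-- The instance of `NcSys` for `A = B* a B`. -/
theorem Geo.ncSys (G : Geo H) {Y : Type} [NormedAddCommGroup Y] [NormedSpace ℂ Y]
    {J3 : Y →L[ℂ] HH H} {CL θ : ℝ} (hk : Ker (Sg G.D.K) (Lc G.D.K J3) CL θ) :
    ∃ C0 : ℝ, NcSys G.D.K G.χo J3 CL θ C0 := by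
  obtain ⟨C0, hC0, h⟩ := G.obs_χo
  exact ⟨C0, ⟨G.D.K_nonneg, G.D.K_injective, hk, G.χo_adj, G.norm_χo_le, hC0, h⟩⟩

end

end Pool.Agent.Lib.MP_79abb3_an.SC
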