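import Pool.Agent.Lib.MP_79abb3_an.SC.ApH
import Pool.Agent.Lib.MP_79abb3_an.SC.ExZ
import Pool.Agent.Lib.MP_79abb3_an.SC.NcIter
import Pool.Agent.Lib.MP_79abb3_an.SC.NcO

/-!
Theorem C, block (iv): the null theorem from the observability inequality.
-/

set_option autoImplicit false
set_option linter.unusedSectionVars false

open MeasureTheory Set Filter Topology Function
open scoped ENNReal InnerProductSpace

namespace Pool.Agent.Lib.MP_79abb3_an.SC

open Pool.Agent.Lib.MP_79abb3_an.P25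

section
variable {H : ℝ} [hH : Fact (0 < H)]

namespace Geo
variable (G : Geo H)

/-- **The null theorem.** -/
theorem null (hS : G.SmT) {a : ℝ × ℝ → ℝ} {h : ℝ} (hP : G.PcT a h) (hh0 : 0 ≤ h)
    (hh : h ≤ G.ρ) : G.NullThm a h := by
  intro T hT hT1
  obtain ⟨CL, hk⟩ := G.kerL
  obtain ⟨C0, hN⟩ := G.ncSys hk
  have hJS : ∀ (t : ℝ) (x : HH H), cjX (Sg G.D.K t x) = Sg G.D.K t (cjX x) := by
    intro t x
    rcases le_total 0 t with ht | ht
    · exact cj_Sg G.cjD ht x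
    · have e : Sg G.D.K t = 1 := if_pos ht
      rw [e]; rfl
  have hJL : ∀ t : ℝ, 0 < t → ∀ y u : HH H, cjX (Lc G.D.K G.J3 t (y, u)) =
      Lc G.D.K G.J3 t (cjX y, cjX u) := by
    intro t ht y u
    show cjX (AS G.D.K t (G.J3 y + Kh G.D.K u)) = AS G.D.K t (G.J3 (cjX y) + Kh G.D.K (cjX u))
    rw [cj_AS G.cjD ht, map_add, cj_J3, cj_KhD]
  obtain ⟨ε, hε, H1⟩ := hN.null G.NN cjX cjX hJS (fun x => cj_Ms G.star_χc x) (fun x => G.cj_KhD x) hJL
    (fun x => G.cj_NN x x) hT (by linarith)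
  refine ⟨ε, hε, fun x hx hxε => ?_⟩
  obtain ⟨f, hf, hfχ, -, hfJ, y, hy, hyT, -⟩ := H1 x hxε
  have hxJ : cjX x = x := (Rl_iff x).1 hx.real
  have hA := arc_of_mild hP hS hh0 hh hT.le hf (fun t _ => ?_)
    (fun t _ => (Rl_iff _).2 (hfJ hxJ t)) hy hx
  · rwa [hyT] at hA
  · obtain ⟨g, hg⟩ := hfχ t
    intro m hm
    have e0 : Ms m (f t) = Ms (m * G.χc) g := by
      rw [hg]; exact Ms_Ms m G.χc g
    rw [e0]
    have e : m * G.χc = 0 := ci_ext fun z hz' => by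
      have e1 : ex (m * G.χc) z = ex m z * ex G.χc z := ex_mul _ _ _
      rw [e1, ex_zero]
      rcases le_total z G.ρ with h2 | h2
      · rw [G.χc_zero hz' h2, mul_zero]
      · rw [hm z ⟨h2, hz'.2⟩, zero_mul]
    rw [e]
    ext1; funext n
    rw [Ms_apply, map_zero]
    rfl

end Geo
end
end Pool.Agent.Lib.MP_79abb3_an.SC
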