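import Pool.Agent.Lib.MP_79abb3_an.SC.WkMd

/-!
Theorem C: solutions in modes give physical pieces.
-/

set_option autoImplicit false
set_option linter.unusedSectionVars false

open MeasureTheory Set Filter Topology Function
open scoped ENNReal InnerProductSpace

namespace Pool.Agent.Lib.MP_79abb3_an.SC

open Pool.Agent.Lib.MP_79abb3_an.P25

section
variable {H : ℝ} [hH : Fact (0 < H)]

/-- **From modes to the physical variables.** -/
theorem MSol.piece {h t₀ t₁ : ℝ} {v w : ℝ → L1 (CI H)} {Om : ℝ → HH H} {a : ℝ × ℝ → ℝ}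
    (ha : PY H a) (hh : h ≤ H) (M : MSol (Real.pi / H) h (fam a) t₀ t₁ v w Om) :
    Piece H h a t₀ t₁ (fun t q => fld (Real.pi / H) (v t) q.1 q.2)
      (fun t q => fld (Real.pi / H) (w t) q.1 q.2) where
  cont₁ := (fld_cont_time (ω := Real.pi / H) M.cv).mono (prod_mono_right (subset_univ _))
  cont₂ := (fld_cont_time (ω := Real.pi / H) M.cw).mono (prod_mono_right (subset_univ _))
  h1 := by
    obtain ⟨C, hC⟩ := M.grad
    obtain ⟨D, hD⟩ := isCompact_Icc.exists_bound_of_continuousOn M.cO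
    refine ⟨√(2 * H) * (√C + D), fun t ht φ hφ => ?_⟩
    obtain ⟨⟨a1, a2⟩, a3, a4⟩ := hC t ht
    exact wk_h1 hh hφ (l1_summable (v t)) (l1_summable (w t)) (M.rv t ht) (M.rw t ht) (M.rot t ht)
      (M.div t ht) (hD t ht) a1 a2 a3 a4
  div := fun t ht φ hφ => div_fld hh hφ (l1_summable (v t)) (l1_summable (w t)) (M.rv t ht)
    (M.rw t ht) (M.div t ht)
  ns := by
    intro g hg s₁ hs₁ s₂ hs₂
    have hH0 := hH.out
    have e := M.eq (fam g) (fam (gz g)) (fam (gz (gz g))) hg.tsF s₁ hs₁ s₂ hs₂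
    have m1 : ∀ t ∈ Icc t₀ t₁,
        ((mG g (fun q => fld (Real.pi / H) (v t) q.1 q.2)
          (fun q => fld (Real.pi / H) (w t) q.1 q.2) : ℝ) : ℂ) =
        ((2 * H : ℝ) : ℂ) * dp (io (fam g)) (Om t) := fun t ht =>
      mG_om hh hg (l1_summable (v t)) (l1_summable (w t)) (M.rv t ht) (M.rw t ht) (M.rot t ht)
    have m2 : ∀ t ∈ Icc t₀ t₁, ((2 * H : ℝ) : ℂ) * lM (Real.pi / H) (fam a) (fam g) (fam (gz g))
        (fam (gz (gz g))) (v t) (w t) (Om t) =
        ((lG a g (fun q => fld (Real.pi / H) (v t) q.1 q.2)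
          (fun q => fld (Real.pi / H) (w t) q.1 q.2) : ℝ) : ℂ) := fun t ht =>
      lM_fld hh ha hg (l1_summable (v t)) (l1_summable (w t)) (M.rv t ht) (M.rw t ht) (M.rot t ht)
        (M.div t ht)
    apply Complex.ofReal_injective
    rw [Complex.ofReal_sub, m1 s₁ hs₁, m1 s₂ hs₂, ← mul_sub, e, ← intervalIntegral.integral_const_mul,
      ← intervalIntegral.integral_ofReal]
    refine intervalIntegral.integral_congr fun t ht => ?_
    exact m2 t (uIcc_subset_Icc hs₁ hs₂ ht)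

end

end Pool.Agent.Lib.MP_79abb3_an.SC
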