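import Pool.Agent.Lib.MP_79abb3_an.SC.ExZ
import Pool.Agent.Lib.MP_79abb3_an.SC.WkMe

/-!
Theorem C, block (ii): the hypothesis `PcT` from `MSol.piece`.
-/

set_option autoImplicit false
set_option linter.unusedSectionVars false

open MeasureTheory Set Filter Topology Function
open scoped ENNReal InnerProductSpace

namespace Pool.Agent.Lib.MP_79abb3_an.SC

open Pool.Agent.Lib.MP_79abb3_an.P25

section
variable {H : ℝ} [hH : Fact (0 < H)]

namespace Geo

theorem pcT (G : Geo H) {a : ℝ × ℝ → ℝ} (ha : PY H a) (e : G.a = fam a)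
    (eω : G.ω = Real.pi / H) {h : ℝ} (hh : h ≤ H) : G.PcT a h := by
  intro t₀ t₁ v w Om M
  rw [eω, e] at M
  have := M.piece ha hh
  rw [eω]
  exact this

end Geo
end
end Pool.Agent.Lib.MP_79abb3_an.SC
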