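import Pool.Agent.Lib.MP_79abb3_an.SC.ExY

/-!
Theorem C, block (ii), EX5: small data.
-/

set_option autoImplicit false
set_option linter.unusedSectionVars false

open MeasureTheory Set Filter Topology Function
open scoped ENNReal InnerProductSpace

namespace Pool.Agent.Lib.MP_79abb3_an.SC

open Pool.Agent.Lib.MP_79abb3_an.P25

/-! ### A weighted Gronwall lemma -/

theorem prod_sing {a b t : ℝ} (ha : 0 < a) (hb : 0 < b) (hab : a + b = t) :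
    a ^ (-(7 / 8 : ℝ)) * b ^ (-(1 / 2 : ℝ)) ≤
      2 * t ^ (-(1 / 2 : ℝ)) * a ^ (-(7 / 8 : ℝ)) + 2 * t ^ (-(7 / 8 : ℝ)) * b ^ (-(1 / 2 : ℝ)) := by
  have ht : 0 < t := by linarith
  have key : ∀ p : ℝ, 0 ≤ p → p ≤ 1 → ∀ x, t / 2 ≤ x → x ^ (-p) ≤ 2 * t ^ (-p) := by
    intro p hp hp1 x hx
    have h1 : x ^ (-p) ≤ (t / 2) ^ (-p) :=
      Real.rpow_le_rpow_of_nonpos (by linarith) hx (by linarith)
    have h2 : (t / 2) ^ (-p) = 2 ^ p * t ^ (-p) := by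
      rw [Real.div_rpow ht.le (by norm_num), div_eq_mul_inv, ← Real.rpow_neg (by norm_num), neg_neg,
        mul_comm]
    have h3 : (2:ℝ) ^ p ≤ 2 := by
      calc (2:ℝ) ^ p ≤ 2 ^ (1:ℝ) := Real.rpow_le_rpow_of_exponent_le (by norm_num) hp1
        _ = 2 := Real.rpow_one 2
    rw [h2] at h1
    exact h1.trans (mul_le_mul_of_nonneg_right h3 (Real.rpow_nonneg ht.le _))
  have pa := Real.rpow_nonneg ha.le (-(7 / 8 : ℝ))
  have pb := Real.rpow_nonneg hb.le (-(1 / 2 : ℝ))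
  have pt := Real.rpow_nonneg ht.le (-(7 / 8 : ℝ))
  have pt' := Real.rpow_nonneg ht.le (-(1 / 2 : ℝ))
  rcases le_total a b with h | h
  · have h1 := key (1 / 2) (by norm_num) (by norm_num) b (by linarith)
    have h2 := mul_le_mul_of_nonneg_left h1 pa
    have h3 : 0 ≤ 2 * t ^ (-(7 / 8 : ℝ)) * b ^ (-(1 / 2 : ℝ)) := by positivity
    linarith
  · have h1 := key (7 / 8) (by norm_num) (by norm_num) a (by linarith)
    have h2 := mul_le_mul_of_nonneg_right h1 pb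
    have h3 : 0 ≤ 2 * t ^ (-(1 / 2 : ℝ)) * a ^ (-(7 / 8 : ℝ)) := by positivity
    linarith

theorem int_r_half {t : ℝ} (ht : 0 ≤ t) : ∫ r in (0:ℝ)..t, r ^ (-(1 / 2 : ℝ)) = 2 * t ^ (1 / 2 : ℝ) := by
  rw [integral_rpow (Or.inl (by norm_num))]
  have e : (-(1 / 2) + 1 : ℝ) = 1 / 2 := by norm_num
  rw [e, Real.zero_rpow (by norm_num), sub_zero]
  ring

theorem int_a_78 {t : ℝ} (ht : 0 ≤ t) :
    ∫ r in (0:ℝ)..t, (t - r) ^ (-(7 / 8 : ℝ)) = 8 * t ^ (1 / 8 : ℝ) := by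
  have h1 := intervalIntegral.integral_comp_sub_left (a := 0) (b := t)
    (fun r : ℝ => r ^ (-(7 / 8 : ℝ))) t
  simp only [sub_self, sub_zero] at h1
  rw [h1, integral_rpow (Or.inl (by norm_num))]
  have e : (-(7 / 8) + 1 : ℝ) = 1 / 8 := by norm_num
  rw [e, Real.zero_rpow (by norm_num), sub_zero]
  ring

/-- `n(t) ≤ δ t^{-1/2} + k ∫ kth(7/8)(t-r) n(r) dr` with `44 k ≤ 1` implies `√t n(t) ≤ 2δ`. -/
theorem wsup {T δ k : ℝ} (hT : 0 < T) (hT1 : T ≤ 1) (hδ : 0 ≤ δ) (hk : 0 ≤ k) (hk1 : 44 * k ≤ 1)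
    {n : ℝ → ℝ} (hn : ContinuousOn n (Icc 0 T)) (n0 : ∀ t ∈ Icc 0 T, 0 ≤ n t)
    (h : ∀ t ∈ Ioc 0 T, n t ≤ t ^ (-(1 / 2 : ℝ)) * δ + k * ∫ r in (0:ℝ)..t, kth (7 / 8) (t - r) * n r) :
    ∀ t ∈ Icc 0 T, t ^ (1 / 2 : ℝ) * n t ≤ 2 * δ := by
  have hc : ContinuousOn (fun t => t ^ (1 / 2 : ℝ) * n t) (Icc 0 T) :=
    (continuousOn_id.rpow_const fun x _ => Or.inr (by norm_num)).mul hn
  obtain ⟨s, hs, hmax⟩ := isCompact_Icc.exists_isMaxOn ⟨0, ⟨le_rfl, hT.le⟩⟩ hc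
  obtain ⟨S, hS⟩ : ∃ S, S = s ^ (1 / 2 : ℝ) * n s := ⟨_, rfl⟩
  have hle : ∀ t ∈ Icc 0 T, t ^ (1 / 2 : ℝ) * n t ≤ S := fun t ht => by rw [hS]; exact hmax ht
  have hS0 : 0 ≤ S := by rw [hS]; exact mul_nonneg (Real.rpow_nonneg hs.1 _) (n0 s hs)
  suffices hfin : S ≤ 2 * δ from fun t ht => (hle t ht).trans hfin
  rcases hs.1.eq_or_lt with h0 | h0
  · rw [hS, ← h0, Real.zero_rpow (by norm_num), zero_mul]; positivity
  have hsT : s ∈ Ioc 0 T := ⟨h0, hs.2⟩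
  have hs1 : s ≤ 1 := hs.2.trans hT1
  -- bound of n
  have hn' : ∀ r, 0 < r → r ≤ s → n r ≤ S * r ^ (-(1 / 2 : ℝ)) := by
    intro r hr hrs
    have h1 := hle r ⟨hr.le, hrs.trans hs.2⟩
    have h2 : r ^ (1 / 2 : ℝ) * r ^ (-(1 / 2 : ℝ)) = 1 := by
      rw [← Real.rpow_add hr]; simp
    have h3 := mul_le_mul_of_nonneg_right h1 (Real.rpow_nonneg hr.le (-(1 / 2 : ℝ)))
    calc n r = r ^ (1 / 2 : ℝ) * n r * r ^ (-(1 / 2 : ℝ)) := by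
          rw [mul_comm (r ^ (1 / 2 : ℝ)) (n r), mul_assoc, h2, mul_one]
      _ ≤ _ := h3
  -- the integral
  have i1 : IntervalIntegrable (fun r : ℝ => r ^ (-(1 / 2 : ℝ))) volume 0 s :=
    intervalIntegral.intervalIntegrable_rpow' (by norm_num)
  have i2 : IntervalIntegrable (fun r : ℝ => (s - r) ^ (-(7 / 8 : ℝ))) volume 0 s := by
    have := (intervalIntegral.intervalIntegrable_rpow' (a := s - 0) (b := s - s)
      (r := -(7 / 8 : ℝ)) (by norm_num)).comp_sub_left s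
    simpa using this
  have hI : ∫ r in (0:ℝ)..s, kth (7 / 8) (s - r) * n r ≤
      S * ((1 + 2 * s ^ (-(7 / 8 : ℝ))) * (2 * s ^ (1 / 2 : ℝ)) +
        2 * s ^ (-(1 / 2 : ℝ)) * (8 * s ^ (1 / 8 : ℝ))) := by
    have e1 : S * ((1 + 2 * s ^ (-(7 / 8 : ℝ))) * (2 * s ^ (1 / 2 : ℝ)) +
        2 * s ^ (-(1 / 2 : ℝ)) * (8 * s ^ (1 / 8 : ℝ))) =
        ∫ r in (0:ℝ)..s, S * ((1 + 2 * s ^ (-(7 / 8 : ℝ))) * r ^ (-(1 / 2 : ℝ)) +
          2 * s ^ (-(1 / 2 : ℝ)) * (s - r) ^ (-(7 / 8 : ℝ))) := by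
      rw [intervalIntegral.integral_const_mul, intervalIntegral.integral_add (i1.const_mul _)
        (i2.const_mul _), intervalIntegral.integral_const_mul, intervalIntegral.integral_const_mul,
        int_r_half h0.le, int_a_78 h0.le]
    rw [e1]
    refine intervalIntegral.integral_mono_ae_restrict h0.le
      (int_kth_cont (by norm_num) h0.le (hn.mono (Icc_subset_Icc le_rfl hs.2)))
      (((i1.const_mul _).add (i2.const_mul _)).const_mul _) ?_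
    have a1 : ∀ᵐ r : ℝ ∂volume, r ≠ s := by simp [ae_iff, measure_singleton]
    have a2 : ∀ᵐ r : ℝ ∂volume, r ≠ 0 := by simp [ae_iff, measure_singleton]
    filter_upwards [ae_restrict_mem measurableSet_Icc, ae_restrict_of_ae a1, ae_restrict_of_ae a2]
      with r hr h1 h2
    have hr0 : 0 < r := lt_of_le_of_ne hr.1 (Ne.symm h2)
    have hrs : 0 < s - r := sub_pos.2 (lt_of_le_of_ne hr.2 h1)
    have h3 := hn' r hr0 hr.2
    have h4 := prod_sing hrs hr0 (sub_add_cancel s r)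
    have h5 : kth (7 / 8) (s - r) = 1 + (s - r) ^ (-(7 / 8 : ℝ)) := rfl
    have p1 := Real.rpow_nonneg hr0.le (-(1 / 2 : ℝ))
    show kth (7 / 8) (s - r) * n r ≤ S * ((1 + 2 * s ^ (-(7 / 8 : ℝ))) * r ^ (-(1 / 2 : ℝ)) +
          2 * s ^ (-(1 / 2 : ℝ)) * (s - r) ^ (-(7 / 8 : ℝ)))
    calc kth (7 / 8) (s - r) * n r ≤ kth (7 / 8) (s - r) * (S * r ^ (-(1 / 2 : ℝ))) :=
          mul_le_mul_of_nonneg_left h3 (kth_nonneg _ hrs.le)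
      _ = S * (r ^ (-(1 / 2 : ℝ)) + (s - r) ^ (-(7 / 8 : ℝ)) * r ^ (-(1 / 2 : ℝ))) := by
          rw [h5]; ring
      _ ≤ S * (r ^ (-(1 / 2 : ℝ)) + (2 * s ^ (-(1 / 2 : ℝ)) * (s - r) ^ (-(7 / 8 : ℝ)) +
            2 * s ^ (-(7 / 8 : ℝ)) * r ^ (-(1 / 2 : ℝ)))) :=
          mul_le_mul_of_nonneg_left (by linarith) hS0
      _ = _ := by ring
  -- conclusion
  have h1 := h s hsT
  have h2 : s ^ (1 / 2 : ℝ) * s ^ (-(1 / 2 : ℝ)) = 1 := by rw [← Real.rpow_add h0]; simp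
  have q0 := Real.rpow_nonneg h0.le (1 / 2 : ℝ)
  have e3 : s ^ (1 / 2 : ℝ) * ((1 + 2 * s ^ (-(7 / 8 : ℝ))) * (2 * s ^ (1 / 2 : ℝ)) +
        2 * s ^ (-(1 / 2 : ℝ)) * (8 * s ^ (1 / 8 : ℝ))) = 2 * s + 20 * s ^ (1 / 8 : ℝ) := by
    have k1 : s ^ (1 / 2 : ℝ) * s ^ (1 / 2 : ℝ) = s := by
      rw [← Real.rpow_add h0]; norm_num
    have k2 : s ^ (-(7 / 8 : ℝ)) * s = s ^ (1 / 8 : ℝ) := by
      rw [← Real.rpow_add_one h0.ne']; norm_num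
    calc _ = 2 * (s ^ (1 / 2 : ℝ) * s ^ (1 / 2 : ℝ)) +
          4 * (s ^ (-(7 / 8 : ℝ)) * (s ^ (1 / 2 : ℝ) * s ^ (1 / 2 : ℝ))) +
          16 * (s ^ (1 / 2 : ℝ) * s ^ (-(1 / 2 : ℝ))) * s ^ (1 / 8 : ℝ) := by ring
      _ = _ := by rw [k1, k2, h2]; ring
  have e4 : s ^ (1 / 8 : ℝ) ≤ 1 := Real.rpow_le_one h0.le hs1 (by norm_num)
  have h5 : S ≤ δ + k * (22 * S) := by
    calc S = s ^ (1 / 2 : ℝ) * n s := hS
      _ ≤ s ^ (1 / 2 : ℝ) * (s ^ (-(1 / 2 : ℝ)) * δ +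
            k * ∫ r in (0:ℝ)..s, kth (7 / 8) (s - r) * n r) := mul_le_mul_of_nonneg_left h1 q0
      _ = (s ^ (1 / 2 : ℝ) * s ^ (-(1 / 2 : ℝ))) * δ +
            k * (s ^ (1 / 2 : ℝ) * ∫ r in (0:ℝ)..s, kth (7 / 8) (s - r) * n r) := by ring
      _ ≤ δ + k * (s ^ (1 / 2 : ℝ) * (S * ((1 + 2 * s ^ (-(7 / 8 : ℝ))) * (2 * s ^ (1 / 2 : ℝ)) +
        2 * s ^ (-(1 / 2 : ℝ)) * (8 * s ^ (1 / 8 : ℝ))))) := by
          rw [h2, one_mul]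
          have := mul_le_mul_of_nonneg_left (mul_le_mul_of_nonneg_left hI q0) hk
          linarith
      _ = δ + k * (S * (2 * s + 20 * s ^ (1 / 8 : ℝ))) := by rw [← e3]; ring
      _ ≤ δ + k * (22 * S) := by
          have : S * (2 * s + 20 * s ^ (1 / 8 : ℝ)) ≤ 22 * S := by nlinarith
          have := mul_le_mul_of_nonneg_left this hk
          linarith
  nlinarith

section
variable {H : ℝ} [hH : Fact (0 < H)]

namespace Geo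
variable (G : Geo H)

theorem NN_ts : ∃ C, 0 ≤ C ∧ ∀ x g : HH H,
    ‖⟪LT G.ω G.lam (1 / 4) g, G.NN x x⟫_ℂ‖ ≤ C * (‖x‖ * G.sz x) * G.ts g := by
  obtain ⟨M, hM⟩ : ∃ M, M = ‖(Ms G.ζ ∘L cm G.a ∘L G.Qd : HH H →L[ℂ] HH H)‖ := ⟨_, rfl⟩
  have hM0 : 0 ≤ M := by rw [hM]; exact norm_nonneg _
  obtain ⟨P, hP⟩ : ∃ P, P = CP G.lam (0 + 3 / 8 + 1 / 4) := ⟨_, rfl⟩
  have hP0 : 0 ≤ P := by rw [hP]; exact CP_nonneg _
  refine ⟨P * M * 8, by positivity, fun x g => ?_⟩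
  rw [NN_apply]
  have h1 := G.Pw_U g (Ms G.ζ (cm G.a (G.Qd x))) (G.Qd x)
  have h2 : ‖Ms G.ζ (cm G.a (G.Qd x))‖ ≤ M * ‖x‖ := by
    rw [hM]
    exact (Ms G.ζ ∘L cm G.a ∘L G.Qd : HH H →L[ℂ] HH H).le_opNorm x
  have h3 : N2 G.lam (3 / 8) (⇑(TT G.ω (G.Qd x))) = G.sz x := by rw [G.TT_Qd]; rfl
  have h4 : √(‖LT G.ω G.lam (1 / 2) g‖ * ‖g‖) ≤ G.ts g := by
    unfold ts
    have := norm_nonneg (LT G.ω G.lam (1 / 4) g)
    linarith
  rw [h3, ← hP] at h1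
  have hs := G.sz_nonneg x
  have hx := norm_nonneg x
  refine h1.trans ?_
  calc P * ‖Ms G.ζ (cm G.a (G.Qd x))‖ * (4 * G.sz x) * (2 * √(‖LT G.ω G.lam (1 / 2) g‖ * ‖g‖))
      ≤ P * (M * ‖x‖) * (4 * G.sz x) * (2 * G.ts g) := by
        have := G.ts_nonneg g
        gcongr
    _ = _ := by ring

theorem Lc_NN : ∃ C, 0 ≤ C ∧ ∀ τ, 0 < τ → ∀ x : HH H,
    ‖Lc G.D.K G.J3 τ (G.NN x x, 0)‖ ≤ C * (kth (7 / 8) τ * (‖x‖ * G.sz x)) := by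
  obtain ⟨C1, hC1, h1⟩ := G.NN_ts
  obtain ⟨c, hc, h2⟩ := G.kernel_bound G.D rfl
  refine ⟨c * C1, by positivity, fun τ hτ x => ?_⟩
  have hs := G.sz_nonneg x
  have hx := norm_nonneg x
  have h3 := h2 τ hτ (G.NN x x) 0 (C1 * (‖x‖ * G.sz x)) (by positivity) (fun g => h1 x g)
    (by rw [norm_zero]; positivity)
  have e : Lc G.D.K G.J3 τ (G.NN x x, 0) = AS G.D.K τ
      ((LT G.ω G.lam (1 / 4) ∘L G.D.Q (Kh G.D.K)).adjoint (G.NN x x) +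
        (TT G.ω ∘L G.D.Q (Kh G.D.K)).adjoint 0) := by
    show AS G.D.K τ (G.J3 (G.NN x x) + Kh G.D.K 0) = AS G.D.K τ (G.J3 (G.NN x x) + G.J4 0)
    rw [J4_eq]
  rw [e]
  refine h3.trans (le_of_eq ?_)
  ring

/-- **EX5, smallness at the end.** -/
theorem small_end : ∃ C, 0 ≤ C ∧ ∀ T, 0 < T → T ≤ 1 → ∀ δ, 0 ≤ δ → C * δ ≤ 1 → ∀ (y₀ : HH H)
    (y : ℝ → HH H), Mild (Sg G.D.K) (Lc G.D.K G.J3) (Pc G.NN (fun _ => 0)) 0 T y₀ y →
    G.sz y₀ ≤ δ → (∀ t ∈ Icc 0 T, G.sz (y t) ≤ 2 * δ) → T ^ (1 / 2 : ℝ) * ‖y T‖ ≤ 2 * δ := by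
  obtain ⟨C, hC, hN⟩ := G.Lc_NN
  refine ⟨88 * C, by positivity, fun T hT hT1 δ hδ hCδ y₀ y hy h0 hsz => ?_⟩
  have hcn : ContinuousOn (fun t => ‖y t‖) (Icc 0 T) := hy.cont.norm
  refine wsup (n := fun t => ‖y t‖) (k := C * (2 * δ)) hT hT1 hδ (by positivity) (by linarith) hcn
    (fun t _ => norm_nonneg _) (fun t ht => ?_) T ⟨hT.le, le_rfl⟩
  have ht' : t ∈ Icc 0 T := ⟨ht.1.le, ht.2⟩
  show ‖y t‖ ≤ _
  rw [hy.eq t ht', sub_zero]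
  have cn' : ContinuousOn (fun t => ‖y t‖) (Icc 0 t) := hcn.mono (Icc_subset_Icc le_rfl ht.2)
  have b1 : ‖Sg G.D.K t y₀‖ ≤ t ^ (-(1 / 2 : ℝ)) * δ := by
    have e1 : HS G.D.K t (Kh G.D.K y₀) = Sg G.D.K t y₀ := HS_Kh G.D.K_nonneg ht.1 y₀
    rw [← e1]
    have h4 := (HS G.D.K t).le_of_opNorm_le (HS_norm G.D.K_nonneg ht.1) (Kh G.D.K y₀)
    rw [Real.sqrt_eq_rpow, ← Real.rpow_neg ht.1.le] at h4
    refine h4.trans (mul_le_mul_of_nonneg_left ?_ (Real.rpow_nonneg ht.1.le _))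
    exact (G.norm_Kh_le_sz y₀).trans h0
  refine (norm_add_le _ _).trans (add_le_add b1 ?_)
  have hint := int_kth_cont (θ := 7 / 8) (by norm_num) ht.1.le cn'
  rw [← intervalIntegral.integral_const_mul]
  refine intervalIntegral.norm_integral_le_of_norm_le ht.1.le ?_ (hint.const_mul _)
  have : ∀ᵐ r : ℝ ∂volume, r ≠ t := by simp [ae_iff, measure_singleton]
  filter_upwards [this] with r hrt hr
  have h3 : 0 < t - r := sub_pos.2 (lt_of_le_of_ne hr.2 hrt)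
  refine (hN (t - r) h3 (y r)).trans ?_
  have h5 := hsz r ⟨hr.1.le, hr.2.trans ht.2⟩
  have h6 := kth_nonneg (7 / 8) h3.le
  have h7 := norm_nonneg (y r)
  calc C * (kth (7 / 8) (t - r) * (‖y r‖ * G.sz (y r)))
      ≤ C * (kth (7 / 8) (t - r) * (‖y r‖ * (2 * δ))) := by gcongr
    _ = _ := by ring

/-- **EX5, existence and bound.** -/
theorem small_ex (hBig : G.Big) (hT : G.TFex) : ∃ C, 0 ≤ C ∧ ∀ T, 0 ≤ T → T ≤ 1 → ∀ δ, 0 < δ →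
    C * δ < 1 → ∀ y₀ : HH H, G.sz y₀ ≤ δ →
    ∃ y, Mild (Sg G.D.K) (Lc G.D.K G.J3) (Pc G.NN (fun _ => 0)) 0 T y₀ y ∧
      ∀ t ∈ Icc 0 T, G.sz (y t) ≤ 2 * δ := by
  obtain ⟨C, hC, hy⟩ := G.y_free hBig hT
  refine ⟨68 * C, by positivity, fun T hT0 hT1 δ hδ hCδ y₀ h0 => ?_⟩
  -- a priori bound
  have key : ∀ c ∈ Icc 0 T, ∀ y, Mild (Sg G.D.K) (Lc G.D.K G.J3) (Pc G.NN (fun _ => 0)) 0 c y₀ y →
      ∀ t ∈ Icc 0 c, G.sz (y t) < 2 * δ := by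
    intro c hc y hm
    obtain ⟨CK, hCK⟩ := G.kerL
    have e0 : y 0 = y₀ := hm.init hCK hc.1
    have hcu : ContinuousOn (fun t => G.sz (y t)) (Icc 0 c) := G.sz_cont.comp_continuousOn hm.cont
    refine boot_lt hcu (by rw [e0]; linarith) fun t ht hs => ?_
    have h1 := hy c hc.1 (hc.2.trans hT1) y₀ y hm t ht
    have ht1 : t ≤ 1 := ht.2.trans (hc.2.trans hT1)
    have cu2 : ContinuousOn (fun r => G.sz (y r) ^ 2) (Icc 0 t) :=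
      (hcu.mono (Icc_subset_Icc le_rfl ht.2)).pow 2
    have h2 : ∫ r in (0:ℝ)..t, kth (15 / 16) (t - r) * G.sz (y r) ^ 2 ≤
        ∫ r in (0:ℝ)..t, kth (15 / 16) (t - r) * (2 * δ) ^ 2 := by
      refine intervalIntegral.integral_mono_on ht.1 (int_kth_cont (by norm_num) ht.1 cu2)
        (int_kth_cont (by norm_num) ht.1 continuousOn_const) fun r hr => ?_
      have h3 := hs r hr
      have h4 := kth_nonneg (15 / 16) (sub_nonneg.2 hr.2)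
      have h5 := G.sz_nonneg (y r)
      gcongr
    have h3 : ∫ r in (0:ℝ)..t, kth (15 / 16) (t - r) * (2 * δ) ^ 2 ≤ 17 * (2 * δ) ^ 2 := by
      rw [intervalIntegral.integral_mul_const]
      refine mul_le_mul_of_nonneg_right ?_ (sq_nonneg _)
      have e1 := intervalIntegral.integral_comp_sub_left (a := 0) (b := t) (kth (15 / 16)) t
      simp only [sub_self, sub_zero] at e1
      rw [e1, kth_integral (by norm_num)]
      have e2 : t ^ (1 - 15 / 16 : ℝ) ≤ 1 := Real.rpow_le_one ht.1 ht1 (by norm_num)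
      have e3 : (1 - 15 / 16 : ℝ) = 1 / 16 := by norm_num
      rw [e3] at e2 ⊢
      linarith
    have h4 : C * ∫ r in (0:ℝ)..t, kth (15 / 16) (t - r) * G.sz (y r) ^ 2 ≤ C * (17 * (2 * δ) ^ 2) :=
      mul_le_mul_of_nonneg_left (h2.trans h3) hC
    nlinarith
  -- bound of the norm
  have hBc : (B0 (fun _ => (0 : HH H))).Cont 0 T := B0_cont continuousOn_const
  obtain ⟨R, hR⟩ := Sol.bound (G := G) hBc (0, y₀) (2 * δ)
  obtain ⟨CK, hCK⟩ := G.kerL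
  obtain ⟨M, hM⟩ := Pc_nl G.NN (f := fun _ => 0) continuous_const 0 T
  obtain ⟨y, hm⟩ := hCK.global (R := R) hT0 hM y₀ fun c hc y hm => by
    have hs := sol_of_mild (G := G) (f := fun _ => 0) continuous_const hm
    have h1 := hR c hc _ hs (fun t ht => by
      have h2 := (key c hc y hm t ht).le
      have e1 : G.VV (B0 fun _ => 0) t (0, y t) = Kh G.D.K (y t) := by
        show TT G.ω (G.Qd (y t) + 0 - Ms G.ζ (cm G.J (G.qL 0))) = _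
        have : G.qL 0 = 0 := map_zero _
        rw [this, map_zero, map_zero, sub_zero, add_zero, G.TT_Qd]
      have e2 : G.qL 0 = 0 := map_zero _
      refine ⟨?_, ?_⟩
      · show ‖G.qL 0‖ ≤ _
        rw [e2, norm_zero]; positivity
      · rw [e1]; exact h2) c ⟨hc.1, le_rfl⟩
    exact (norm_snd_le ((0, y c) : HH H × HH H)).trans h1
  exact ⟨y, hm, fun t ht => (key T ⟨hT0, le_rfl⟩ y hm t ht).le⟩

/-- **EX5 = SmallThm.** -/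
theorem small (hBig : G.Big) (hTF : G.TFex) (hS : G.SmT) {a : ℝ × ℝ → ℝ} {h : ℝ} (hP : G.PcT a h)
    (hh0 : 0 ≤ h) (hh : h ≤ G.ρ) : G.SmallThm a h := by
  intro T hT hT1 ε hε
  obtain ⟨C1, hC1, h1⟩ := G.small_ex hBig hTF
  obtain ⟨C2, hC2, h2⟩ := G.small_end
  obtain ⟨δ, hδ⟩ : ∃ δ, δ = min (1 / (C1 + C2 + 1)) (ε * T ^ (1 / 2 : ℝ) / 2) := ⟨_, rfl⟩
  have hTp : 0 < T ^ (1 / 2 : ℝ) := Real.rpow_pos_of_pos hT _
  have hδ0 : 0 < δ := by rw [hδ]; exact lt_min (by positivity) (by positivity)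
  have hδ1 : δ * (C1 + C2 + 1) ≤ 1 := by
    have : δ ≤ 1 / (C1 + C2 + 1) := by rw [hδ]; exact min_le_left _ _
    rwa [le_div_iff₀ (by positivity)] at this
  have hδ2 : δ ≤ ε * T ^ (1 / 2 : ℝ) / 2 := by rw [hδ]; exact min_le_right _ _
  refine ⟨δ, hδ0, fun x hx hsz => ?_⟩
  obtain ⟨y, hy, hysz⟩ := h1 T hT.le hT1 δ hδ0 (by nlinarith) x hsz
  refine ⟨y T, ?_, ?_⟩
  · have h3 := h2 T hT hT1 δ hδ0.le (by nlinarith) x y hy hsz hysz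
    have h4 : T ^ (1 / 2 : ℝ) * ‖y T‖ ≤ T ^ (1 / 2 : ℝ) * ε := by linarith
    exact le_of_mul_le_mul_left h4 hTp
  · exact arc_of_mild hP hS hh0 hh hT.le continuous_const
      (fun _ _ m _ => map_zero (Ms m)) (fun _ _ => Rl_zero) hy hx

end Geo

end

end Pool.Agent.Lib.MP_79abb3_an.SC
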