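import Pool.Agent.Lib.MP_79abb3_an.SC.LaL1
import Pool.Agent.Lib.MP_79abb3_an.SC.ExZ

/-!
MP_79abb3_an, Theorem C: `Geo.SmT` from `Geo.smo`.
-/

set_option autoImplicit false

namespace Pool.Agent.Lib.MP_79abb3_an.SC

theorem Geo.smT {H : ℝ} [hH : Fact (0 < H)] (G : Geo H) : G.SmT := G.smo

end Pool.Agent.Lib.MP_79abb3_an.SC
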