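import Pool.Agent.Lib.MP_79abb3_an.SC.ExN
import Pool.Agent.Lib.MP_79abb3_an.SC.ExP
import Pool.Agent.Lib.MP_79abb3_an.SC.ExS
import Pool.Agent.Lib.MP_79abb3_an.SC.LaSm
import Pool.Agent.Lib.MP_79abb3_an.SC.LaTF

/-!
Theorem C: the null theorem and the small data theorem, without block hypotheses.
-/

set_option autoImplicit false
set_option linter.unusedSectionVars false

open MeasureTheory Set Filter Topology Function
open scoped ENNReal InnerProductSpace

namespace Pool.Agent.Lib.MP_79abb3_an.SC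

open Pool.Agent.Lib.MP_79abb3_an.P25

section
variable {H : ℝ} [hH : Fact (0 < H)]

namespace Geo
variable (G : Geo H)

variable {a : ℝ × ℝ → ℝ} {h : ℝ}

/-- **Null theorem** (block iv). -/
theorem nullThm (ha : PY H a) (e : G.a = fam a) (eω : G.ω = Real.pi / H) (hh0 : 0 ≤ h)
    (hh : h ≤ G.ρ) : G.NullThm a h :=
  G.null G.smT (G.pcT ha e eω (hh.trans G.ρH.le)) hh0 hh

/-- **Small data** (EX5). -/
theorem smallThm (hBig : G.Big) (ha : PY H a) (e : G.a = fam a) (eω : G.ω = Real.pi / H)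
    (hh0 : 0 ≤ h) (hh : h ≤ G.ρ) : G.SmallThm a h :=
  G.small hBig G.tfex G.smT (G.pcT ha e eω (hh.trans G.ρH.le)) hh0 hh

end Geo

end

end Pool.Agent.Lib.MP_79abb3_an.SC
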