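import Pool.Agent.Lib.MP_79abb3_an.SC.ExZ
import Pool.Agent.Lib.MP_79abb3_an.SC.FlYs
import Pool.Agent.Lib.MP_79abb3_an.SC.LaSmoC

/-!
Theorem C, block (ii), EX5: the `y`-inequality for the free flow (`q = 0`, no background).
-/

set_option autoImplicit false
set_option linter.unusedSectionVars false

open MeasureTheory Set Filter Topology Function
open scoped ENNReal InnerProductSpace

namespace Pool.Agent.Lib.MP_79abb3_an.SC

open Pool.Agent.Lib.MP_79abb3_an.P25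

section
variable {H : ℝ} [hH : Fact (0 < H)]

/-- duality for `N2 s` -/
theorem N2_le_of_dual {lam : ℤ → ℝ} (h1 : ∀ n, 1 ≤ lam n) {s R : ℝ} {W : HH H} (hW : S2 lam s W)
    (hR : 0 ≤ R) (h : ∀ ψ : HH H, ‖⟪ψ, W⟫_ℂ‖ ≤ R * N2 lam (-s) ψ) : N2 lam s W ≤ R := by
  have l0 : ∀ n, 0 < lam n := fun n => lt_of_lt_of_le one_pos (h1 n)
  have key : ∀ S : Finset ℤ, ∑ n ∈ S, (lam n ^ s * ‖W n‖) ^ 2 ≤ R ^ 2 := by
    intro S
    obtain ⟨Q0, hQ⟩ : ∃ T, T = ∑ n ∈ S, (lam n ^ s * ‖W n‖) ^ 2 := ⟨_, rfl⟩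
    have hQ0 : 0 ≤ Q0 := by rw [hQ]; exact Finset.sum_nonneg fun n _ => sq_nonneg _
    -- the test element
    have hsum : Summable fun n => ‖(if n ∈ S then ((lam n ^ (2 * s) : ℝ) : ℂ) • W n else 0 : Z2 H)‖ ^ 2 := by
      refine summable_of_hasFiniteSupport (S.finite_toSet.subset fun n hn => ?_)
      by_contra hcon
      refine hn ?_
      have : n ∉ S := hcon
      simp [this]
    obtain ⟨ψ, hψ⟩ : ∃ ψ : HH H, ψ = mk2 (fun n => if n ∈ S then ((lam n ^ (2 * s) : ℝ) : ℂ) • W n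
      else 0) hsum := ⟨_, rfl⟩
    have hψn : ∀ n, ψ n = if n ∈ S then ((lam n ^ (2 * s) : ℝ) : ℂ) • W n else 0 := fun n => by
      rw [hψ]; rfl
    have e1 : ⟪ψ, W⟫_ℂ = ((Q0 : ℝ) : ℂ) := by
      have a1 := lp.hasSum_inner (𝕜 := ℂ) ψ W
      have a2 : HasSum (fun n => ⟪ψ n, W n⟫_ℂ) (∑ n ∈ S, ⟪ψ n, W n⟫_ℂ) :=
        hasSum_sum_of_ne_finset_zero fun n hn => by rw [hψn, if_neg hn, inner_zero_left]
      rw [a1.unique a2, hQ, Complex.ofReal_sum]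
      refine Finset.sum_congr rfl fun n hn => ?_
      rw [hψn, if_pos hn, inner_smul_left, Complex.conj_ofReal, inner_self_eq_norm_sq_to_K]
      have e2 : lam n ^ (2 * s) = (lam n ^ s) ^ 2 := by
        rw [mul_comm, Real.rpow_mul (l0 n).le]; norm_cast
      rw [e2]
      push_cast
      simp only [Complex.coe_algebraMap]
      ring
    have e3 : N2 lam (-s) ψ = √Q0 := by
      unfold N2
      congr 1
      have a2 : HasSum (fun n => (lam n ^ (-s) * ‖ψ n‖) ^ 2) (∑ n ∈ S, (lam n ^ (-s) * ‖ψ n‖) ^ 2) :=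
        hasSum_sum_of_ne_finset_zero fun n hn => by rw [hψn, if_neg hn]; simp
      rw [a2.tsum_eq, hQ]
      refine Finset.sum_congr rfl fun n hn => ?_
      rw [hψn, if_pos hn, norm_smul, Complex.norm_real, Real.norm_of_nonneg
        (Real.rpow_nonneg (l0 n).le _), ← mul_assoc, ← Real.rpow_add (l0 n)]
      congr 3; ring
    have h2 := h ψ
    rw [e1, e3, Complex.norm_real, Real.norm_of_nonneg hQ0] at h2
    have h3 : √Q0 * √Q0 = Q0 := Real.mul_self_sqrt hQ0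
    have h4 : √Q0 ≤ R := by
      rcases eq_or_lt_of_le (Real.sqrt_nonneg Q0) with h5 | h5
      · rw [← h5]; exact hR
      · nlinarith
    have h5 : Q0 ≤ R ^ 2 := by
      rw [← h3, ← sq]
      exact pow_le_pow_left₀ (Real.sqrt_nonneg _) h4 2
    exact hQ.symm.le.trans h5
  have h2 : N2 lam s W ^ 2 ≤ R ^ 2 := by
    rw [N2_sq]
    exact hW.tsum_le_of_sum_le key
  exact abs_le_of_sq_le_sq' h2 hR |>.2

/-- integrals with a singular kernel -/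
theorem int_kth_cont {θ : ℝ} (h1 : θ < 1) {a t : ℝ} (hat : a ≤ t) {u : ℝ → ℝ}
    (hu : ContinuousOn u (Icc a t)) : IntervalIntegrable (fun r => kth θ (t - r) * u r) volume a t := by
  refine (kth_int' h1 t a t).mul_continuousOn ?_
  rwa [uIcc_of_le hat]

theorem rpow_le_kth' {τ θ : ℝ} : τ ^ (-θ) ≤ kth θ τ := by
  unfold kth
  linarith

namespace Geo
variable (G : Geo H)

/-- `y = |Λ^{3/8} K^{1/2} x|` -/
theorem sz_eq (x : HH H) : G.sz x = ‖LT G.ω G.lam (3 / 8) (G.Qd x)‖ := by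
  rw [← N2_TT G (by norm_num), G.TT_Qd]; rfl

theorem sz_nonneg (x : HH H) : 0 ≤ G.sz x := N2_nonneg _ _

theorem sz_cont : Continuous G.sz := by
  have : G.sz = fun x => ‖(LT G.ω G.lam (3 / 8) ∘L G.Qd) x‖ := funext fun x => G.sz_eq x
  rw [this]
  exact (LT G.ω G.lam (3 / 8) ∘L G.Qd).continuous.norm

theorem norm_Kh_le_sz (x : HH H) : ‖Kh G.D.K x‖ ≤ G.sz x := by
  have h1 := S2_mono G.lw.h1 (show (0:ℝ) ≤ 3 / 8 by norm_num) (x := (Kh G.D.K x : HH H))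
    (by rw [← G.TT_Qd]; exact S2_TT' G (by norm_num) _)
  have h2 := h1.2
  rw [N2_l2] at h2
  exact h2

/-- static estimate of the nonlinear term -/
theorem NN_stat (hT : G.TFex) : ∃ C, 0 ≤ C ∧ ∀ τ, 0 < τ → τ ≤ 1 → ∀ ψ x : HH H,
    ‖⟪ψ, HS G.D.K τ (G.J3 (G.NN x x))⟫_ℂ‖ ≤
      C * N2 G.lam (-(3 / 8)) ψ * (τ ^ (-(15 / 16) : ℝ) * G.sz x ^ 2) := by
  obtain ⟨Ct, hCt, ht⟩ := hT
  obtain ⟨Cv, hCv, hv⟩ := vv_bd G
  refine ⟨Cv * Ct, by positivity, fun τ hτ hτ1 ψ x => ?_⟩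
  obtain ⟨f1, f2, tf⟩ := ht τ hτ hτ1 ψ
  have h1 := hv hτ hτ1 tf (G.Qd x)
  rw [← HS_inner, inner_J3, NN_apply, inner_LT_Pw]
  have e1 : hf G.lam (UV G.ω G.lam (G.Qd x)) = uV G.ω (Vf G.ω (G.Qd x)) := by funext n; rw [hf_UV]
  have e2 : hf G.lam (UW G.ω G.lam (G.Qd x)) = wV G.ω (Vf G.ω (G.Qd x)) := by funext n; rw [hf_UW]
  rw [e1, e2, ← io_Vf, sz_eq]
  refine h1.trans (le_of_eq ?_)
  ring

/-- **The `y`-inequality of the free flow.** -/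
theorem y_free (hBig : G.Big) (hT : G.TFex) : ∃ C, 0 ≤ C ∧ ∀ c, 0 ≤ c → c ≤ 1 → ∀ (y₀ : HH H)
    (y : ℝ → HH H), Mild (Sg G.D.K) (Lc G.D.K G.J3) (Pc G.NN (fun _ => 0)) 0 c y₀ y →
    ∀ t ∈ Icc 0 c, G.sz (y t) ≤ G.sz y₀ + C * ∫ r in (0:ℝ)..t, kth (15 / 16) (t - r) * G.sz (y r) ^ 2 := by
  obtain ⟨C, hC, hN⟩ := G.NN_stat hT
  refine ⟨C, hC, fun c hc hc1 y₀ y hy t ht => ?_⟩
  have hs := sol_of_mild (G := G) (f := fun _ => 0) continuous_const hy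
  have hBc : (B0 (fun _ => (0 : HH H))).Cont 0 c := B0_cont continuousOn_const
  have e1 := hs.eqW hBc ht
  have ef : (fun r => (G.f3 (B0 fun _ => 0) r (0, y r), G.f4 (B0 fun _ => 0) r (0, y r))) =
      fun r => (G.NN (y r) (y r), 0) := by
    funext r
    have := G.Phi_B0 (fun _ => 0) r (y r)
    exact congrArg Prod.snd this
  obtain ⟨CK, hCK⟩ := G.kerW
  have cN : ContinuousOn (fun r => ((G.NN (y r) (y r), 0) : HH H × HH H)) (Icc 0 c) :=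
    ((G.NN.continuous.comp_continuousOn hy.cont).clm_apply hy.cont).prodMk continuousOn_const
  have hi := hCK.int_aux cN ht (c := 0) ⟨le_rfl, ht.1⟩
  have e2 : Kh G.D.K (y t) = Sg G.D.K (t - 0) (Kh G.D.K y₀) +
      ∫ r in (0:ℝ)..t, G.LWk (t - r) (G.NN (y r) (y r), 0) := by
    have e3 : Kh G.D.K (y t) = Sg G.D.K (t - 0) (Kh G.D.K y₀) + duh G.LWk 0
      (fun r => (G.f3 (B0 fun _ => 0) r (0, y r), G.f4 (B0 fun _ => 0) r (0, y r))) t := e1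
    rw [ef] at e3
    exact e3
  have e4 : ∀ (τ : ℝ) (x : HH H), G.LWk τ (x, 0) = HS G.D.K τ (G.J3 x) := fun τ x => by
    show HS G.D.K τ (G.J3 x + G.J4 0) = _
    rw [map_zero, add_zero]
  have hsz0 : ∀ x : HH H, S2 G.lam (3 / 8) (Kh G.D.K x : HH H) := fun x => by
    rw [← G.TT_Qd]; exact S2_TT' G (by norm_num) _
  have cu : ContinuousOn (fun r => G.sz (y r) ^ 2) (Icc 0 t) :=
    (G.sz_cont.comp_continuousOn (hy.cont.mono (Icc_subset_Icc le_rfl ht.2))).pow 2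
  have hint := int_kth_cont (θ := 15 / 16) (by norm_num) ht.1 cu
  obtain ⟨I, hI⟩ : ∃ I, I = ∫ r in (0:ℝ)..t, kth (15 / 16) (t - r) * G.sz (y r) ^ 2 := ⟨_, rfl⟩
  have hI0 : 0 ≤ I := by
    rw [hI]
    refine intervalIntegral.integral_nonneg ht.1 fun r hr => ?_
    have := kth_nonneg (15 / 16) (sub_nonneg.2 hr.2)
    positivity
  rw [← hI]
  refine N2_le_of_dual G.lw.h1 (hsz0 (y t)) (add_nonneg (G.sz_nonneg _) (mul_nonneg hC hI0))
    fun ψ => ?_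
  rw [e2, inner_add_right, sub_zero]
  have hψ := N2_nonneg (lam := G.lam) (-(3 / 8)) ψ
  have b1 : ‖⟪ψ, Sg G.D.K t (Kh G.D.K y₀)⟫_ℂ‖ ≤ G.sz y₀ * N2 G.lam (-(3 / 8)) ψ := by
    rw [← Sg_inner]
    have hS : S2 G.lam (-(3 / 8)) (Sg G.D.K t ψ : HH H) :=
      (S2_mono G.lw.h1 (by norm_num) (S2_l2 G.lam _)).1
    refine (inner_le_N2 G.lw.h1 hS (hsz0 y₀)).trans ?_
    have h5 := G.Sg_neg_contract hBig (s := 3 / 8) (by norm_num) (by norm_num) ht.1 ψ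
    have h6 : 0 ≤ G.sz y₀ := G.sz_nonneg _
    calc _ ≤ N2 G.lam (-(3 / 8)) ψ * N2 G.lam (3 / 8) (Kh G.D.K y₀ : HH H) :=
          mul_le_mul_of_nonneg_right h5 h6
      _ = _ := mul_comm _ _
  have b2 : ‖⟪ψ, ∫ r in (0:ℝ)..t, G.LWk (t - r) (G.NN (y r) (y r), 0)⟫_ℂ‖ ≤
      C * I * N2 G.lam (-(3 / 8)) ψ := by
    have e5 := (innerSL ℂ ψ).intervalIntegral_comp_comm hi
    have e6 : (innerSL ℂ ψ) (∫ r in (0:ℝ)..t, G.LWk (t - r) (G.NN (y r) (y r), 0)) =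
      ⟪ψ, ∫ r in (0:ℝ)..t, G.LWk (t - r) (G.NN (y r) (y r), 0)⟫_ℂ := rfl
    rw [← e6, ← e5]
    have e7 : C * I * N2 G.lam (-(3 / 8)) ψ =
        ∫ r in (0:ℝ)..t, C * N2 G.lam (-(3 / 8)) ψ * (kth (15 / 16) (t - r) * G.sz (y r) ^ 2) := by
      rw [intervalIntegral.integral_const_mul, ← hI]; ring
    rw [e7]
    refine intervalIntegral.norm_integral_le_of_norm_le ht.1 ?_ (hint.const_mul _)
    have : ∀ᵐ r : ℝ ∂volume, r ≠ t := by
      simp [ae_iff, measure_singleton]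
    filter_upwards [this] with r hrt hr
    have h3 : 0 < t - r := sub_pos.2 (lt_of_le_of_ne hr.2 hrt)
    have h4 : t - r ≤ 1 := by have := ht.2; have := hr.1; linarith
    show ‖⟪ψ, G.LWk (t - r) (G.NN (y r) (y r), 0)⟫_ℂ‖ ≤ _
    rw [e4]
    refine (hN (t - r) h3 h4 ψ (y r)).trans ?_
    refine mul_le_mul_of_nonneg_left ?_ (by positivity)
    exact mul_le_mul_of_nonneg_right rpow_le_kth' (sq_nonneg _)
  refine (norm_add_le _ _).trans ?_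
  calc _ ≤ G.sz y₀ * N2 G.lam (-(3 / 8)) ψ + C * I * N2 G.lam (-(3 / 8)) ψ := add_le_add b1 b2
    _ = _ := by ring

end Geo

end

end Pool.Agent.Lib.MP_79abb3_an.SC
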