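import Mathlib

/-!
MP_79abb3_an, simply connected domains, block (iii): the amplitudes of the flushing phase.
-/

set_option autoImplicit false

open Set Filter Topology Function

namespace Pool.Agent.Lib.MP_79abb3_an.SC

private lemma st_hasDeriv (x : ℝ) :
    HasDerivAt Real.smoothTransition (deriv Real.smoothTransition x) x :=
  ((Real.smoothTransition.contDiff (n := 1)).differentiable (by norm_num) x).hasDerivAt

private lemma st_deriv_cont : Continuous (deriv Real.smoothTransition) :=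
  (Real.smoothTransition.contDiff (n := 1)).continuous_deriv (by norm_num)

private lemma st_deriv_one {x : ℝ} (hx : 1 ≤ x) : deriv Real.smoothTransition x = 0 := by
  apply IsLocalMax.deriv_eq_zero
  refine Filter.Eventually.of_forall fun y => ?_
  rw [Real.smoothTransition.one_of_one_le hx]
  exact Real.smoothTransition.le_one y

/-- **The amplitudes.** `s` = smooth transition. For `0 < τ'` and `a ≥ 0` there is a `C¹` amplitude with
`A(0) = 0`, `0 ≤ A ≤ a`, `A = a` for `t ≥ τ'`. -/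
theorem exists_amp {τ a : ℝ} (hτ : 0 < τ) (ha : 0 ≤ a) : ∃ A A' : ℝ → ℝ,
    (∀ t, HasDerivAt A (A' t) t) ∧ Continuous A' ∧ A 0 = 0 ∧ (∀ t, 0 ≤ A t ∧ A t ≤ a) ∧
    ∀ t, τ ≤ t → A t = a := by
  refine ⟨fun t => a * Real.smoothTransition (t / τ),
    fun t => a * (deriv Real.smoothTransition (t / τ) * (1 / τ)), ?_, ?_, ?_, ?_, ?_⟩
  · intro t
    have h1 : HasDerivAt (fun t : ℝ => t / τ) (1 / τ) t := (hasDerivAt_id t).div_const τ
    exact ((st_hasDeriv (t / τ)).comp t h1).const_mul a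
  · have := st_deriv_cont
    fun_prop
  · simp [Real.smoothTransition.zero]
  · intro t
    have h0 := Real.smoothTransition.nonneg (t / τ)
    have h1 := Real.smoothTransition.le_one (t / τ)
    exact ⟨mul_nonneg ha h0, by nlinarith⟩
  · intro t ht
    have : (1 : ℝ) ≤ t / τ := by rwa [le_div_iff₀ hτ, one_mul]
    show a * Real.smoothTransition (t / τ) = a
    rw [Real.smoothTransition.one_of_one_le this, mul_one]

/-- The amplitude switched off on `[t₁, t₂]`. -/
theorem exists_amp_off {A A' : ℝ → ℝ} {a : ℝ} (hA : ∀ t, HasDerivAt A (A' t) t) (cA : Continuous A')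
    (h0 : ∀ t, 0 ≤ A t ∧ A t ≤ a) {t₁ t₂ : ℝ} (h12 : t₁ < t₂) : ∃ A₂ A₂' : ℝ → ℝ,
    (∀ t, HasDerivAt A₂ (A₂' t) t) ∧ Continuous A₂' ∧ (∀ t, 0 ≤ A₂ t ∧ A₂ t ≤ a) ∧
    (∀ t, t ≤ t₁ → A₂ t = A t ∧ A₂' t = A' t) ∧ A₂ t₂ = 0 := by
  have hd : 0 < t₂ - t₁ := sub_pos.2 h12
  have cA0 : Continuous A := continuous_iff_continuousAt.2 fun t => (hA t).continuousAt
  refine ⟨fun t => A t * Real.smoothTransition ((t₂ - t) / (t₂ - t₁)),
    fun t => A' t * Real.smoothTransition ((t₂ - t) / (t₂ - t₁)) +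
      A t * (deriv Real.smoothTransition ((t₂ - t) / (t₂ - t₁)) * ((-1) / (t₂ - t₁))),
    ?_, ?_, ?_, ?_, ?_⟩
  · intro t
    have h1 : HasDerivAt (fun t : ℝ => (t₂ - t) / (t₂ - t₁)) ((-1) / (t₂ - t₁)) t :=
      ((hasDerivAt_id t).const_sub t₂).div_const _
    have h2 : HasDerivAt (fun t : ℝ => Real.smoothTransition ((t₂ - t) / (t₂ - t₁)))
        (deriv Real.smoothTransition ((t₂ - t) / (t₂ - t₁)) * ((-1) / (t₂ - t₁))) t :=
      HasDerivAt.comp (h₂ := Real.smoothTransition) t (st_hasDeriv ((t₂ - t) / (t₂ - t₁))) h1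
    exact (hA t).mul h2
  · have h1 := st_deriv_cont
    have h2 : Continuous Real.smoothTransition := Real.smoothTransition.continuous
    fun_prop
  · intro t
    have e0 := Real.smoothTransition.nonneg ((t₂ - t) / (t₂ - t₁))
    have e1 := Real.smoothTransition.le_one ((t₂ - t) / (t₂ - t₁))
    obtain ⟨a0, a1⟩ := h0 t
    refine ⟨mul_nonneg a0 e0, ?_⟩
    calc A t * Real.smoothTransition ((t₂ - t) / (t₂ - t₁)) ≤ A t * 1 :=
          mul_le_mul_of_nonneg_left e1 a0
      _ ≤ a := by rw [mul_one]; exact a1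
  · intro t ht
    have h1 : (1 : ℝ) ≤ (t₂ - t) / (t₂ - t₁) := by
      rw [le_div_iff₀ hd]; linarith
    have e1 := Real.smoothTransition.one_of_one_le h1
    have e2 := st_deriv_one h1
    refine ⟨?_, ?_⟩
    · show A t * Real.smoothTransition ((t₂ - t) / (t₂ - t₁)) = A t
      rw [e1, mul_one]
    · show A' t * Real.smoothTransition ((t₂ - t) / (t₂ - t₁)) +
        A t * (deriv Real.smoothTransition ((t₂ - t) / (t₂ - t₁)) * ((-1) / (t₂ - t₁))) = A' t
      rw [e1, e2]; ring
  · show A t₂ * Real.smoothTransition ((t₂ - t₂) / (t₂ - t₁)) = 0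
    rw [sub_self, zero_div, Real.smoothTransition.zero, mul_zero]


end Pool.Agent.Lib.MP_79abb3_an.SC
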