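import Pool.Agent.Lib.MP_79abb3_an.FW.Kap
import Pool.Agent.Lib.MP_79abb3_an.FW.OpNc
import Pool.Agent.Lib.MP_79abb3_an.SC.ApDef
import Pool.Agent.Lib.MP_79abb3_an.SC.ApH

/-!
MP_79abb3_an, simply connected domains, block (iii): the exponentially small quantities.
-/

set_option autoImplicit false
set_option linter.unusedSectionVars false

open MeasureTheory Set Filter Topology Function
open scoped ENNReal InnerProductSpace

namespace Pool.Agent.Lib.MP_79abb3_an.SC

open Pool.Agent.Lib.MP_79abb3_an.P25 Pool.Agent.Lib.MP_79abb3_an.FW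

section
variable {H : ℝ} [hH : Fact (0 < H)]

private theorem flk_cosh {x : ℝ} (hx : 0 ≤ x) : Real.cosh x ≤ Real.exp x := by
  rw [Real.cosh_eq]
  have : Real.exp (-x) ≤ Real.exp x := Real.exp_le_exp.2 (by linarith)
  linarith

private theorem flk_pt {m : ℝ} (hm : 0 < m) {c j : ℝ} (hc : 0 ≤ c) (hj : 0 ≤ j) (hj4 : j ≤ 4)
    {F : ℝ → ℝ} (hF0 : ∀ z, 0 ≤ F z) (hF : ∀ z, 0 ≤ z → F z ≤ c * Real.exp (j * (m * z)))
    {z : ℝ} (hz0 : 0 ≤ z) :
    F z ^ 2 ≤ (c * Real.exp (3 * j * (√m / 16))) ^ 2 +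
      (c * Real.exp (3 * j * (√m / 16)) * tht (zl m) (4 * m) z) ^ 2 := by
  have hs : 0 < √m := Real.sqrt_pos.2 hm
  have hz : 0 < zl m := by unfold zl; positivity
  have hmz : m * zl m = √m / 16 := by
    unfold zl
    have h1 : √m * √m = m := Real.mul_self_sqrt hm.le
    rw [mul_one_div, div_eq_div_iff (by positivity) (by norm_num)]
    nlinarith
  have hP : 0 ≤ c * Real.exp (3 * j * (√m / 16)) := by positivity
  rcases le_total z (3 * zl m) with hz' | hz'
  · have h0 : F z ≤ c * Real.exp (3 * j * (√m / 16)) := by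
      refine (hF z hz0).trans ?_
      apply mul_le_mul_of_nonneg_left _ hc
      apply Real.exp_le_exp.2
      rw [← hmz]
      have h1 : m * z ≤ m * (3 * zl m) := mul_le_mul_of_nonneg_left hz' hm.le
      have h2 := mul_le_mul_of_nonneg_left h1 hj
      linarith
    have h1 := pow_le_pow_left₀ (hF0 z) h0 2
    have h2 := sq_nonneg (c * Real.exp (3 * j * (√m / 16)) * tht (zl m) (4 * m) z)
    linarith
  · have h0 : F z ≤ c * Real.exp (3 * j * (√m / 16)) * tht (zl m) (4 * m) z := by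
      refine (hF z hz0).trans ?_
      rw [mul_assoc]
      apply mul_le_mul_of_nonneg_left _ hc
      have h1 := tht_ge (M := 4 * m) hz (show 2 * zl m ≤ z by linarith)
      have h2 : Real.exp (j * (m * z)) ≤
          Real.exp (3 * j * (√m / 16)) * Real.exp (4 * m * (z - 2 * zl m)) := by
        rw [← Real.exp_add]
        apply Real.exp_le_exp.2
        rw [← hmz]
        have h3 : m * (3 * zl m) ≤ m * z := mul_le_mul_of_nonneg_left hz' hm.le
        have h4 : 0 ≤ (4 - j) * (m * z - m * (3 * zl m)) :=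
          mul_nonneg (by linarith) (by linarith)
        have h5 : 0 ≤ m * zl m := by positivity
        nlinarith
      refine h2.trans ?_
      exact mul_le_mul_of_nonneg_left h1 (Real.exp_pos _).le
    have h1 := pow_le_pow_left₀ (hF0 z) h0 2
    have h2 := sq_nonneg (c * Real.exp (3 * j * (√m / 16)))
    linarith

private theorem flk_one (V : HH H) : ‖Ms (1 : CI H) V‖ ≤ ‖V‖ := by
  have h1 := norm_Ms_apply_le (1 : CI H) V
  have h2 : ‖(1 : CI H)‖ ≤ 1 := by
    rw [ContinuousMap.norm_le _ zero_le_one]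
    intro x
    rw [ContinuousMap.one_apply, norm_one]
  refine h1.trans ?_
  have h3 := mul_le_mul_of_nonneg_right h2 (norm_nonneg V)
  rwa [one_mul] at h3

private theorem flk_arith {K a v s t : ℝ} (hK : 0 ≤ K) (ha : 0 ≤ a) (h1 : a ≤ K * s) (hs : s ≤ v)
    (hs0 : 0 ≤ s) (t0 : 0 ≤ t) : a ^ 2 + (K * t) ^ 2 ≤ K ^ 2 * (v ^ 2 + t ^ 2) := by
  have _ := t0
  have h2 : a ≤ K * v := h1.trans (mul_le_mul_of_nonneg_left hs hK)
  have h3 := pow_le_pow_left₀ ha h2 2
  have _ := hs0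
  nlinarith

private theorem flk_aux {m : ℝ} (hm : 0 < m) {c j : ℝ} (hc : 0 ≤ c) (hj : 0 ≤ j) (hj4 : j ≤ 4)
    {F : ℝ → ℝ} (cF : Continuous F) (hF0 : ∀ z, 0 ≤ F z)
    (hF : ∀ z, 0 ≤ z → F z ≤ c * Real.exp (j * (m * z))) (V : HH H) :
    ‖Ms (rc F cF) V‖ ^ 2 ≤ (c * Real.exp (3 * j * (√m / 16))) ^ 2 *
      (‖V‖ ^ 2 + ‖Ms (rc (tht (zl m) (4 * m)) (tht_cont _ _)) V‖ ^ 2) := by
  have hP : 0 ≤ c * Real.exp (3 * j * (√m / 16)) := by positivity
  generalize hK : c * Real.exp (3 * j * (√m / 16)) = K at hP ⊢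
  have h1 := norm_Ms_sq_add (b := rc F cF) (c := (K : ℂ) • (1 : CI H))
    (d := (K : ℂ) • rc (tht (zl m) (4 * m)) (tht_cont _ _)) (fun z hz => by
      have h2 := flk_pt hm hc hj hj4 hF0 hF hz.1
      rw [hK] at h2
      have e1 : ‖ex (rc F cF : CI H) z‖ = F z := by
        rw [ex_rc _ _ hz, Complex.norm_real, Real.norm_of_nonneg (hF0 z)]
      have e2 : ‖ex ((K : ℂ) • (1 : CI H)) z‖ = K := by
        have : ex ((K : ℂ) • (1 : CI H)) z = K := by
          show (K : ℂ) * 1 = K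
          rw [mul_one]
        rw [this, Complex.norm_real, Real.norm_of_nonneg hP]
      have e3 : ‖ex ((K : ℂ) • (rc (tht (zl m) (4 * m)) (tht_cont _ _) : CI H)) z‖ =
          K * tht (zl m) (4 * m) z := by
        have : ex ((K : ℂ) • (rc (tht (zl m) (4 * m)) (tht_cont _ _) : CI H)) z =
            (K : ℂ) * ex (rc (tht (zl m) (4 * m)) (tht_cont _ _) : CI H) z := rfl
        rw [this, ex_rc _ _ hz, norm_mul, Complex.norm_real, Complex.norm_real,
          Real.norm_of_nonneg hP, Real.norm_of_nonneg (tht_nonneg _ _ _)]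
      rw [e1, e2, e3]
      exact h2) V
  rw [Ms_smul, Ms_smul, norm_smul, norm_smul, Complex.norm_real, Real.norm_of_nonneg hP] at h1
  refine h1.trans ?_
  exact flk_arith hP (mul_nonneg hP (norm_nonneg _)) le_rfl (flk_one V) (norm_nonneg _)
    (norm_nonneg _)

private theorem flk_large (K : ℝ) : ∃ m0 : ℝ, 1 ≤ m0 ∧ ∀ m, m0 ≤ m → 1 ≤ √m ∧
    K * √m ^ 12 ≤ Real.exp (√m / 2) := by
  have h1 := Real.tendsto_pow_mul_exp_neg_atTop_nhds_zero 12
  have hK : 0 < (|K| + 1) * 2 ^ 12 := by positivity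
  have h2 : ∀ᶠ x : ℝ in atTop, x ^ 12 * Real.exp (-x) < 1 / ((|K| + 1) * 2 ^ 12) :=
    h1.eventually (gt_mem_nhds (by positivity))
  have h3 : Tendsto (fun m : ℝ => √m / 2) atTop atTop :=
    Real.tendsto_sqrt_atTop.atTop_div_const (by norm_num)
  have h4 := h3.eventually h2
  obtain ⟨M, hM⟩ := eventually_atTop.1 h4
  refine ⟨max M 1, le_max_right _ _, ?_⟩
  intro m hm
  have h5 := hM m ((le_max_left _ _).trans hm)
  have hm1 : 1 ≤ m := (le_max_right _ _).trans hm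
  refine ⟨?_, ?_⟩
  · rw [Real.one_le_sqrt]
    exact hm1
  · rw [Real.exp_neg, ← div_eq_mul_inv, div_lt_iff₀ (Real.exp_pos _)] at h5
    have h6 : (√m / 2) ^ 12 = √m ^ 12 / 2 ^ 12 := by rw [div_pow]
    rw [h6, one_div, inv_mul_eq_div, lt_div_iff₀ hK] at h5
    have h8 : √m ^ 12 / 2 ^ 12 * ((|K| + 1) * 2 ^ 12) = (|K| + 1) * √m ^ 12 := by ring
    rw [h8] at h5
    have h9 : 0 ≤ √m ^ 12 := by positivity
    have h10 := le_abs_self K
    nlinarith

private theorem flk_exp {K x u : ℝ} (hK : K ≤ Real.exp (u / 2)) (h : u / 2 + x ≤ -u) :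
    K * Real.exp x ≤ Real.exp (-u) := by
  calc K * Real.exp x ≤ Real.exp (u / 2) * Real.exp x :=
        mul_le_mul_of_nonneg_right hK (Real.exp_pos _).le
    _ = Real.exp (u / 2 + x) := (Real.exp_add _ _).symm
    _ ≤ Real.exp (-u) := Real.exp_le_exp.2 h

/-- **Exponentially small quantities.** Proof: as `FW.kap_small` (FW/KapA): with `P(z) = α cosh(mz)`,
`C P²`, `C P² μ cosh(mz)`, `m P`: for `z ≤ 3 zl m` (`m z ≤ 3 √m/16`) `P(z)` is small, for `z ≥ 3 zl m`
`P(z) ≤ small · tht(z)` (`tht_ge`); so `P² ≤ e^{-√m} (1 + tht²)` pointwise for `m ≥ m0(C)`, and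
`norm_Ms_sq_add` (ApH) with `b = P`, `c = e^{-√m/2}`, `d = e^{-√m/2} tht`. -/
theorem kap_bd (C : ℝ) (hC : 0 ≤ C) : ∃ m0, 1 ≤ m0 ∧ ∀ m, m0 ≤ m → ∀ α ∈ Icc 0 (A0 m), ∀ V : HH H,
    (m ^ 2 * ‖Ms (rc (chF m α) (chF_c _ _)) V‖ ^ 2 ≤ Real.exp (-√m) *
      (‖V‖ ^ 2 + ‖Ms (rc (tht (zl m) (4 * m)) (tht_cont _ _)) V‖ ^ 2)) ∧
    (‖Ms (rc (fun z => C * chF m α z ^ 2) (continuous_const.mul ((chF_c m α).pow 2))) V‖ ^ 2 ≤
      Real.exp (-√m) * (‖V‖ ^ 2 + ‖Ms (rc (tht (zl m) (4 * m)) (tht_cont _ _)) V‖ ^ 2)) ∧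
    (‖Ms (rc (fun z => C * chF m α z ^ 2 * (muu m * Real.cosh (m * z)))
        ((continuous_const.mul ((chF_c m α).pow 2)).mul (by fun_prop))) V‖ ^ 2 ≤
      Real.exp (-√m) * (‖V‖ ^ 2 + ‖Ms (rc (tht (zl m) (4 * m)) (tht_cont _ _)) V‖ ^ 2)) := by
  obtain ⟨m0, hm0, hlarge⟩ := flk_large (2 ^ 22 * (C ^ 2 + 1))
  refine ⟨m0, hm0, ?_⟩
  intro m hm α hα V
  obtain ⟨hu1, hbig⟩ := hlarge m hm
  have hmpos : 0 < m := by linarith
  have hu0 : 0 < √m := by linarith
  have hmu : m = √m ^ 2 := (Real.sq_sqrt hmpos.le).symm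
  have hα0 : 0 ≤ α := hα.1
  have hαA : α ≤ 32 * √m ^ 2 * Real.exp (-√m) := by
    have := hα.2
    unfold A0 at this
    rwa [← hmu]
  have hC2 : 0 ≤ C ^ 2 := sq_nonneg C
  have hpw : ∀ k : ℕ, k ≤ 12 → √m ^ k ≤ √m ^ 12 := fun k hk => pow_le_pow_right₀ hu1 hk
  have h12 : 0 ≤ √m ^ 12 := by positivity
  have hmuu0 : 0 ≤ muu m := by unfold muu; positivity
  have hmuu : muu m = 2 * √m ^ 2 * Real.exp (-(2 * √m)) := by
    unfold muu
    rw [← hmu]
  have hα2 : α ^ 2 ≤ 1024 * √m ^ 4 * Real.exp (-(2 * √m)) := by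
    calc α ^ 2 ≤ (32 * √m ^ 2 * Real.exp (-√m)) ^ 2 := pow_le_pow_left₀ hα0 hαA 2
      _ = 1024 * √m ^ 4 * (Real.exp (-√m)) ^ 2 := by ring
      _ = 1024 * √m ^ 4 * Real.exp (-(2 * √m)) := by
          rw [← Real.exp_nat_mul]
          congr 2
          push_cast
          ring
  have hcosh : ∀ z, 0 ≤ z → Real.cosh (m * z) ≤ Real.exp (m * z) := fun z hz =>
    flk_cosh (by positivity)
  have hY : 0 ≤ ‖V‖ ^ 2 + ‖Ms (rc (tht (zl m) (4 * m)) (tht_cont _ _)) V‖ ^ 2 :=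
    add_nonneg (sq_nonneg _) (sq_nonneg _)
  refine ⟨?_, ?_, ?_⟩
  · have h := flk_aux (j := 1) hmpos hα0 (by norm_num) (by norm_num) (chF_c m α)
      (fun z => mul_nonneg hα0 (Real.cosh_pos _).le)
      (fun z hz => by
        rw [one_mul]
        exact mul_le_mul_of_nonneg_left (hcosh z hz) hα0) V
    have h' := mul_le_mul_of_nonneg_left h (sq_nonneg m)
    refine h'.trans ?_
    rw [← mul_assoc]
    apply mul_le_mul_of_nonneg_right _ hY
    have hm2 : m ^ 2 = √m ^ 4 := by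
      have : √m ^ 4 = (√m ^ 2) ^ 2 := by ring
      rw [this, ← hmu]
    calc m ^ 2 * (α * Real.exp (3 * 1 * (√m / 16))) ^ 2
        = √m ^ 4 * (α ^ 2 * (Real.exp (3 * 1 * (√m / 16))) ^ 2) := by rw [hm2]; ring
      _ ≤ √m ^ 4 * ((1024 * √m ^ 4 * Real.exp (-(2 * √m))) * (Real.exp (3 * 1 * (√m / 16))) ^ 2) :=
          mul_le_mul_of_nonneg_left (mul_le_mul_of_nonneg_right hα2 (by positivity)) (by positivity)
      _ = (1024 * √m ^ 8) * Real.exp (-(2 * √m) + 2 * (3 * 1 * (√m / 16))) := by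
          rw [Real.exp_add, ← Real.exp_nat_mul]
          push_cast
          ring
      _ ≤ Real.exp (-√m) := by
          apply flk_exp _ (by linarith)
          refine le_trans ?_ hbig
          have h1 := hpw 8 (by norm_num)
          nlinarith [mul_nonneg hC2 h12]
  · have h := flk_aux (j := 2) hmpos (c := C * α ^ 2) (by positivity) (by norm_num) (by norm_num)
      (F := fun z => C * chF m α z ^ 2) (continuous_const.mul ((chF_c m α).pow 2))
      (fun z => by positivity)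
      (fun z hz => by
        have h1 : Real.exp (2 * (m * z)) = Real.exp (m * z) ^ 2 := by
          rw [← Real.exp_nat_mul]; push_cast; ring_nf
        have h2 := pow_le_pow_left₀ (Real.cosh_pos _).le (hcosh z hz) 2
        have h3 : C * chF m α z ^ 2 = C * α ^ 2 * Real.cosh (m * z) ^ 2 := by
          unfold chF; ring
        rw [h1]
        show C * chF m α z ^ 2 ≤ _
        rw [h3]
        exact mul_le_mul_of_nonneg_left h2 (by positivity)) V
    refine h.trans ?_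
    apply mul_le_mul_of_nonneg_right _ hY
    calc (C * α ^ 2 * Real.exp (3 * 2 * (√m / 16))) ^ 2
        = C ^ 2 * (α ^ 2) ^ 2 * (Real.exp (3 * 2 * (√m / 16))) ^ 2 := by ring
      _ ≤ C ^ 2 * (1024 * √m ^ 4 * Real.exp (-(2 * √m))) ^ 2 * (Real.exp (3 * 2 * (√m / 16))) ^ 2 := by
          gcongr
      _ = (2 ^ 20 * C ^ 2 * √m ^ 8) * (Real.exp (-(2 * √m)) ^ 2 * (Real.exp (3 * 2 * (√m / 16))) ^ 2) := by
          ring
      _ = (2 ^ 20 * C ^ 2 * √m ^ 8) * Real.exp (2 * (-(2 * √m)) + 2 * (3 * 2 * (√m / 16))) := by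
          rw [Real.exp_add, ← Real.exp_nat_mul, ← Real.exp_nat_mul]
          push_cast
          ring
      _ ≤ Real.exp (-√m) := by
          apply flk_exp _ (by linarith)
          refine le_trans ?_ hbig
          have h1 := mul_le_mul_of_nonneg_left (hpw 8 (by norm_num)) hC2
          have h2 : 0 ≤ C ^ 2 * √m ^ 12 := mul_nonneg hC2 h12
          nlinarith
  · have h := flk_aux (j := 3) hmpos (c := C * α ^ 2 * muu m) (by positivity) (by norm_num)
      (by norm_num)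
      (F := fun z => C * chF m α z ^ 2 * (muu m * Real.cosh (m * z)))
      ((continuous_const.mul ((chF_c m α).pow 2)).mul (by fun_prop))
      (fun z => by positivity)
      (fun z hz => by
        have h1 : Real.exp (3 * (m * z)) = Real.exp (m * z) ^ 3 := by
          rw [← Real.exp_nat_mul]; push_cast; ring_nf
        have h2 := pow_le_pow_left₀ (Real.cosh_pos _).le (hcosh z hz) 3
        have h3 : C * chF m α z ^ 2 * (muu m * Real.cosh (m * z)) =
            C * α ^ 2 * muu m * Real.cosh (m * z) ^ 3 := by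
          unfold chF; ring
        rw [h1]
        show C * chF m α z ^ 2 * (muu m * Real.cosh (m * z)) ≤ _
        rw [h3]
        exact mul_le_mul_of_nonneg_left h2 (by positivity)) V
    refine h.trans ?_
    apply mul_le_mul_of_nonneg_right _ hY
    calc (C * α ^ 2 * muu m * Real.exp (3 * 3 * (√m / 16))) ^ 2
        = C ^ 2 * (α ^ 2) ^ 2 * muu m ^ 2 * (Real.exp (3 * 3 * (√m / 16))) ^ 2 := by ring
      _ ≤ C ^ 2 * (1024 * √m ^ 4 * Real.exp (-(2 * √m))) ^ 2 * muu m ^ 2 *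
            (Real.exp (3 * 3 * (√m / 16))) ^ 2 := by
          gcongr
      _ = (2 ^ 22 * C ^ 2 * √m ^ 12) * (Real.exp (-(2 * √m)) ^ 4 * (Real.exp (3 * 3 * (√m / 16))) ^ 2) := by
          rw [hmuu]
          ring
      _ = (2 ^ 22 * C ^ 2 * √m ^ 12) * Real.exp (4 * (-(2 * √m)) + 2 * (3 * 3 * (√m / 16))) := by
          rw [Real.exp_add, ← Real.exp_nat_mul, ← Real.exp_nat_mul]
          push_cast
          ring
      _ ≤ Real.exp (-√m) := by
          apply flk_exp _ (by linarith)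
          refine le_trans ?_ hbig
          nlinarith [mul_nonneg hC2 h12]

end

end Pool.Agent.Lib.MP_79abb3_an.SC
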