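import Pool.Agent.Lib.MP_79abb3_an.SC.FlWt

/-!
MP_79abb3_an, simply connected domains, block (iii): elliptic and transport terms tested with `F q`.
-/

set_option autoImplicit false
set_option linter.unusedSectionVars false

open MeasureTheory Set Filter Topology Function
open scoped ENNReal InnerProductSpace

namespace Pool.Agent.Lib.MP_79abb3_an.SC

open Pool.Agent.Lib.MP_79abb3_an.P25 Pool.Agent.Lib.MP_79abb3_an.FW

section
variable {H : ℝ} [hH : Fact (0 < H)] {F : ℝ × ℝ → ℝ}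

/-- the product of `T g` with a velocity component is square summable -/
private theorem fe_prod (G : Geo H) (g : HH H) {v : ℤ → CI H} (sv : S2 G.lam (1 / 2) v) :
    S2 G.lam (-0) (pz (TT G.ω g) v) := by
  have w : PrW G.lam (1 / 4) (1 / 2) 0 :=
    G.prW (by norm_num) (by norm_num) (by norm_num) (by norm_num)
  exact (cvm_bd zero_le_one mz_bd w.h1 w.ha w.hb w.hc w.hs
    (S2_TT' G (by norm_num) g) sv).2.1

private theorem fe_dp_add (G : Geo H) (x y g : HH H) {v : ℤ → CI H} (sv : S2 G.lam (1 / 2) v) :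
    dp (⇑(x + y)) (pz (TT G.ω g) v) = dp x (pz (TT G.ω g) v) + dp y (pz (TT G.ω g) v) := by
  have h := fe_prod G g sv
  have h1 := ((dp_sum G.lw.h1 (S2_l2 G.lam x) h).1).of_norm
  have h2 := ((dp_sum G.lw.h1 (S2_l2 G.lam y) h).1).of_norm
  unfold dp
  rw [← h1.tsum_add h2]
  refine tsum_congr fun n => ?_
  rw [lp.coeFn_add, Pi.add_apply, inner_add_left]

private theorem fe_cj (hF : PY H F) : cj (fam F : ℤ → CI H) = fam F := by
  funext n
  show star (fam F (-n) : CI H) = fam F n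
  rw [fam_neg_n hF.smooth.continuous, star_star]

private theorem fe_anti (ω : ℝ) (h g : HH H) :
    ⟪Xy ω h, TT ω g⟫_ℂ = -⟪TT ω h, Xy ω g⟫_ℂ := by
  rw [inner_dp, inner_dp]
  unfold dp
  rw [← tsum_neg]
  refine tsum_congr fun n => ?_
  rw [Xy_apply, Xy_apply, TT_apply, TT_apply, inner_smul_left, inner_smul_right, conj_kI, neg_mul]

private theorem fe_re {a b c : ℂ} (h : a + b = -c) (hb : b = (starRingEnd ℂ) c) :
    2 * c.re = -a.re := by
  have h1 := congrArg Complex.re h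
  rw [Complex.add_re, Complex.neg_re, hb, Complex.conj_re] at h1
  linarith

/-- `2 Re ⟨F_z q, q_z⟩ = - Re ⟨F_zz q, q⟩` for `q = T g`, `q(0) = q(H) = 0`. Proof: `DH.ibp` for
`x = cm (fam (pZ F)) q` (`DH.cm`) and `y = q`; `inner_cm_fam`. -/
theorem ibp_famZ (ω : ℝ) (hF : PY H F) {g : HH H} (hg : PP ω g = g) :
    2 * (⟪cm (fam (pZ F)) (TT ω g), Xz ω g⟫_ℂ).re =
      -(⟪cm (fam (pZ (pZ F))) (TT ω g), TT ω g⟫_ℂ).re := by
  have hd : DH (TT ω g) (Xz ω g) := DH_TT ω g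
  have h1 := (hd.cm (fam_s0 hF.pZ) (fam_s0 hF.pZ.pZ) (fam_isD hF.pZ)).1
  have h2 := h1.ibp hd (Zr_TT_zero ω hg) (Zr_TT_H ω g)
  rw [inner_add_left] at h2
  refine fe_re h2 ?_
  rw [inner_cm_fam hF.pZ]
  exact (inner_conj_symm _ _).symm

/-- `2 Re ⟨F_y q, q_y⟩ = - Re ⟨F_yy q, q⟩`. Proof: `∂_y` is antisymmetric: with `Xy_MF` for `pY F`:
`⟪Xy (MF (pY F) g), T g⟫ = - ⟪T (MF (pY F) g), Xy g⟫` (mode by mode, `conj_kI`). -/
theorem ibp_famY {ω : ℝ} (hω : ω * H = Real.pi) (hF : PY H F) (g : HH H) :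
    2 * (⟪cm (fam (pY F)) (TT ω g), Xy ω g⟫_ℂ).re =
      -(⟪cm (fam (pY (pY F))) (TT ω g), TT ω g⟫_ℂ).re := by
  have h1 := fe_anti ω (MF ω (pY F) g) g
  rw [Xy_MF hω hF.pY, TT_MF ω hF.pY, inner_add_left] at h1
  refine fe_re h1 ?_
  rw [inner_cm_fam hF.pY]
  exact (inner_conj_symm _ _).symm

/-- **Elliptic term.** `Re ⟨B(Fq), Bq⟩ = Re ⟨F q_y, q_y⟩ + Re ⟨F q_z, q_z⟩ - ½ Re ⟨ΔF q, q⟩`.
Proof: `inner_grad` (with `h = MF F g`, `PP_MF`), `Xy_MF`, `Xz_MF`, `ibp_famZ`, `ibp_famY`. -/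
theorem el_fam {ω : ℝ} (hω : ω * H = Real.pi) (hF : PY H F) {g : HH H} (hg : PP ω g = g) :
    (⟪MF ω F g, g⟫_ℂ).re = (⟪cm (fam F) (Xy ω g), Xy ω g⟫_ℂ).re +
      (⟪cm (fam F) (Xz ω g), Xz ω g⟫_ℂ).re -
      ((⟪cm (fam (pY (pY F))) (TT ω g), TT ω g⟫_ℂ).re +
        (⟪cm (fam (pZ (pZ F))) (TT ω g), TT ω g⟫_ℂ).re) / 2 := by
  have h1 := inner_grad ω hg (PP_MF ω hF hg)
  rw [Xy_MF hω hF, Xz_MF ω hF, inner_add_left, inner_add_left] at h1
  have h2 := ibp_famZ ω hF hg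
  have h3 := ibp_famY hω hF g
  rw [h1, Complex.add_re, Complex.add_re, Complex.add_re]
  linarith

/-- multiplication by a real family moves through the velocity products:
`⟨F x, u q⟩ = ⟨x, u (F q)⟩`. Proof: `dp_mul`/`T3_mul` or directly `pz_pz`, `cm_pz`, `dp_pz`. -/
theorem dp_cm_pz (G : Geo H) (hF : PY H F) (x g : HH H) {v : ℤ → CI H} (sv : S2 G.lam (1 / 2) v) :
    dp (cm (fam F) x) (pz (TT G.ω g) v) = dp x (pz (cm (fam F) (TT G.ω g)) v) := by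
  have w : PrW G.lam (1 / 4) (1 / 2) 0 :=
    G.prW (by norm_num) (by norm_num) (by norm_num) (by norm_num)
  have sF := fam_s0 (H := H) hF
  have sb : S1 G.lam |(0:ℝ)| (fam F : ℤ → CI H) := by
    unfold S1
    simp only [abs_zero, Real.rpow_zero, one_mul]
    exact sF
  have h1 := dp_mul G.lw (S2_l2 G.lam x) (fe_prod G g sv) sb
  obtain ⟨e1, e2⟩ := pz_pz (l2_summable (TT G.ω g)) sF (S2_sq G.lw (by norm_num) sv)
  rw [fe_cj hF] at h1
  rw [cm_pz sF, cm_pz sF, ← h1, e1, ← e2]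

/-- Conjugation: `⟨x, u q⟩ = conj ⟨q, u x⟩` for a real velocity `u`. Here `q = T g`, and `x` is any
element of `HH H`; both sums converge by the product lemma (`dp_pz`, `T3_conj`). -/
theorem dp_conj (G : Geo H) (x g : HH H) {v : ℤ → CI H} (sv : S2 G.lam (1 / 2) v)
    (rv : ∀ n, v (-n) = star (v n)) :
    dp x (pz (TT G.ω g) v) = star (dp (TT G.ω g) (pz x v)) := by
  have w : PrW G.lam (1 / 4) (1 / 2) 0 :=
    G.prW (by norm_num) (by norm_num) (by norm_num) (by norm_num)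
  have hv : cj v = v := by
    funext n
    show star (v (-n)) = v n
    rw [rv, star_star]
  rw [dp_pz w (S2_TT' G (by norm_num) g) sv (S2_l2 _ x),
    dp_pz G.pw (S2_l2 _ x) sv (S2_TT' G (by norm_num) g), ← T3_conj, hv]

/-- **Transport term.** For a real divergence free velocity and `q = T g`, `q(0) = 0`:
`Re ⟨∇(Fq), q u⟩ = ½ Re ⟨(∇F) q, q u⟩`.
Proof: let `h = MF F g`, `S = dp (Xy h) (pz q v) + dp (Xz h) (pz q w)`. By `anti_fam` (with `G := h`,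
`g := g`): `dp (T h) (pz (Xy g) v) + dp (T h) (pz (Xz g) w) = - S` with `T h = F q`. By `dp_cm_pz`-type
symmetry and `dp_conj`, `dp (F q) (pz (Xy g) v) = star (dp (F (Xy g)) (pz q v))` etc., and by
`Xy_MF`, `Xz_MF`: `S = P + R`, `P = dp (F_y q) (pz q v) + dp (F_z q) (pz q w)`,
`R = dp (F Xy g) (pz q v) + dp (F Xz g) (pz q w)`, `- S = star R`. So `Re S = Re P / 2`. -/
theorem tr_fam (G : Geo H) (hF : PY H F) {v w : ℤ → CI H}
    (dw : ∀ n, DZ (w n) (-(kI G.ω n) • (iota (v n) : Z2 H))) (sv : S2 G.lam (1 / 2) v)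
    (sw : S2 G.lam (1 / 2) w) (rv : ∀ n, v (-n) = star (v n)) (rw : ∀ n, w (-n) = star (w n))
    {g : HH H} (hg : PP G.ω g = g) :
    (dp (Xy G.ω (MF G.ω F g)) (pz (TT G.ω g) v) + dp (Xz G.ω (MF G.ω F g)) (pz (TT G.ω g) w)).re =
      (dp (cm (fam (pY F)) (TT G.ω g)) (pz (TT G.ω g) v) +
        dp (cm (fam (pZ F)) (TT G.ω g)) (pz (TT G.ω g) w)).re / 2 := by
  have h1 := anti_fam G dw sv sw (MF G.ω F g) hg
  have h2 := Xy_MF (by rw [G.hω]; exact div_mul_cancel₀ _ hH.out.ne') hF g (ω := G.ω)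
  have h3 := Xz_MF G.ω hF g
  have e1 : dp (Xy G.ω (MF G.ω F g)) (pz (TT G.ω g) v) =
      dp (cm (fam (pY F)) (TT G.ω g)) (pz (TT G.ω g) v) +
        star (dp (TT G.ω (MF G.ω F g)) (pz (Xy G.ω g) v)) := by
    rw [h2, fe_dp_add G _ _ g sv, dp_cm_pz G hF _ g sv, ← TT_MF G.ω hF g, dp_conj G (Xy G.ω g) (MF G.ω F g) sv rv]
  have e2 : dp (Xz G.ω (MF G.ω F g)) (pz (TT G.ω g) w) =
      dp (cm (fam (pZ F)) (TT G.ω g)) (pz (TT G.ω g) w) +
        star (dp (TT G.ω (MF G.ω F g)) (pz (Xz G.ω g) w)) := by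
    rw [h3, fe_dp_add G _ _ g sw, dp_cm_pz G hF _ g sw, ← TT_MF G.ω hF g, dp_conj G (Xz G.ω g) (MF G.ω F g) sw rw]
  have r1 := congrArg Complex.re h1
  have r2 := congrArg Complex.re e1
  have r3 := congrArg Complex.re e2
  rw [Complex.add_re, Complex.neg_re, Complex.add_re] at r1
  rw [Complex.add_re] at r2 r3
  have s1 : ∀ z : ℂ, (star z).re = z.re := fun z => Complex.conj_re z
  rw [s1] at r2 r3
  rw [Complex.add_re, Complex.add_re]
  linarith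

end

end Pool.Agent.Lib.MP_79abb3_an.SC
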