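import Pool.Agent.Lib.MP_79abb3_an.SC.FlDef
import Pool.Agent.Lib.MP_79abb3_an.SC.ExRb

/-!
MP_79abb3_an, simply connected domains, block (iii): reality of the velocities.
-/

set_option autoImplicit false
set_option linter.unusedSectionVars false

open MeasureTheory Set Filter Topology Function
open scoped ENNReal InnerProductSpace

namespace Pool.Agent.Lib.MP_79abb3_an.SC

open Pool.Agent.Lib.MP_79abb3_an.P25 Pool.Agent.Lib.MP_79abb3_an.FW

section
variable {H : ℝ} [hH : Fact (0 < H)]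

theorem Vf_real (ω : ℝ) {g : HH H} (hg : Rl g) (n : ℤ) : (Vf ω g n : CI H) = star (Vf ω g (-n)) := by
  have h1 := Vf_cj ω g n
  rwa [(Rl_iff g).1 hg] at h1

theorem uV_real (ω : ℝ) {g : HH H} (hg : Rl g) (n : ℤ) :
    uV ω (Vf ω g) (-n) = star (uV ω (Vf ω g) n) := by
  have h1 := uV_cj ω (Vf_real ω hg) (-n)
  rwa [neg_neg] at h1

theorem wV_real (ω : ℝ) {g : HH H} (hg : Rl g) (n : ℤ) :
    wV ω (Vf ω g) (-n) = star (wV ω (Vf ω g) n) := by
  have h1 := wV_cj ω (Vf_real ω hg) (-n)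
  rwa [neg_neg] at h1

theorem sN_neg (N : ℕ) (hN : 1 ≤ N) (n : ℤ) : sN N (-n) = -sN N n := by
  unfold sN
  by_cases h1 : n = N
  · rw [if_pos h1, if_neg (by omega), if_pos (by omega)]
  · by_cases h2 : n = -N
    · rw [if_pos (by omega), if_neg h1, if_pos h2, neg_neg]
    · rw [if_neg (by omega), if_neg (by omega), if_neg h1, if_neg h2, neg_zero]

theorem cellV_real (m : ℝ) {N : ℕ} (hN : 1 ≤ N) (α : ℝ) (n : ℤ) :
    (cellV m N α (-n) : CI H) = star (cellV m N α n) := by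
  unfold cellV
  rw [star_smul_ci, star_rc, sN_neg N hN]
  congr 1
  rw [star_mul', Complex.star_def, Complex.conj_I, Complex.conj_ofReal]
  push_cast
  ring

theorem cellW_real (m : ℝ) {N : ℕ} (hN : 1 ≤ N) (α : ℝ) (n : ℤ) :
    (cellW m N α (-n) : CI H) = star (cellW m N α n) := by
  unfold cellW
  rw [star_smul_ci, star_rc, sN_neg N hN, abs_neg, Complex.star_def, Complex.conj_ofReal]

/-- The total velocity is real. -/
theorem FlS.vf_real {G : Geo H} {N : ℕ} {A : ℝ → ℝ} {b : ℝ} {B : Bg H}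
    {x : ℝ → HH H × HH H} (h : FlS G N A b B x) {t : ℝ} (ht : t ∈ Icc 0 b) (n : ℤ) :
    G.vf B t (x t) (-n) = star (G.vf B t (x t) n) := by
  rw [G.vf_apply, G.vf_apply, h.ve t ht, h.ve t ht, uV_real G.ω (h.rl t ht), cellV_real _ h.N1,
    star_add]

theorem FlS.wf_real {G : Geo H} {N : ℕ} {A : ℝ → ℝ} {b : ℝ} {B : Bg H}
    {x : ℝ → HH H × HH H} (h : FlS G N A b B x) {t : ℝ} (ht : t ∈ Icc 0 b) (n : ℤ) :
    G.wf B t (x t) (-n) = star (G.wf B t (x t) n) := by
  rw [G.wf_apply, G.wf_apply, h.we t ht, h.we t ht, wV_real G.ω (h.rl t ht), cellW_real _ h.N1,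
    star_add]

end

end Pool.Agent.Lib.MP_79abb3_an.SC
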