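import Pool.Agent.Lib.MP_79abb3_an.SC.ExA
import Pool.Agent.Lib.MP_79abb3_an.SC.FlEl
import Pool.Agent.Lib.MP_79abb3_an.SC.FlRl

/-!
MP_79abb3_an, simply connected domains, block (iii): the equation for `q` tested with `F q`; the energy
inequality for `q`.
-/

set_option autoImplicit false
set_option linter.unusedSectionVars false

open MeasureTheory Set Filter Topology Function
open scoped ENNReal InnerProductSpace

namespace Pool.Agent.Lib.MP_79abb3_an.SC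

open Pool.Agent.Lib.MP_79abb3_an.P25 Pool.Agent.Lib.MP_79abb3_an.FW

section
variable {H : ℝ} [hH : Fact (0 < H)] {G : Geo H} {N : ℕ} {A : ℝ → ℝ} {b : ℝ} {B : Bg H}
  {x : ℝ → HH H × HH H}

/-- the right-hand side of the identity tested with `F q` -/
noncomputable def Geo.dFr (G : Geo H) (F : ℝ × ℝ → ℝ) (B : Bg H) (t : ℝ) (y : HH H × HH H) : ℝ :=
  -2 * ((⟪cm (fam F) (Xy G.ω (G.Qo y.1)), Xy G.ω (G.Qo y.1)⟫_ℂ).re +
      (⟪cm (fam F) (Xz G.ω (G.Qo y.1)), Xz G.ω (G.Qo y.1)⟫_ℂ).re) +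
    ((⟪cm (fam (pY (pY F))) (G.qL y.1), G.qL y.1⟫_ℂ).re +
      (⟪cm (fam (pZ (pZ F))) (G.qL y.1), G.qL y.1⟫_ℂ).re) +
    (dp (cm (fam (pY F)) (G.qL y.1)) (pz (G.qL y.1) (G.vf B t y)) +
      dp (cm (fam (pZ F)) (G.qL y.1)) (pz (G.qL y.1) (G.wf B t y))).re +
    2 * (⟪Xz G.ω (MF G.ω F (G.Qo y.1)) + DTc G.ω (MF G.ω F (G.Qo y.1)),
      Ms (B.κ t) (G.VV B t y)⟫_ℂ).re

private theorem flqe_key (h : FlS G N A b B x) {F : ℝ × ℝ → ℝ} (hF : PY H F) {t : ℝ}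
    (ht : t ∈ Icc 0 b) :
    2 * (⟪G.mq (MF G.ω F) (x t).1, G.lq B t (x t)⟫_ℂ).re = G.dFr F B t (x t) := by
  have hω : G.ω * H = Real.pi := by
    rw [G.hω, div_mul_cancel₀ _ hH.out.ne']
  have hP := G.PP_Qo (x t).1
  have hQ := Geo.Qo_mq (MulQ.fam G hF) (x t).1
  have h1 := G.inner_lq (h.okt t ht) (x t) (G.mq (MF G.ω F) (x t).1)
  rw [hQ] at h1
  have h2 := el_fam hω hF hP
  have h3 := tr_fam G hF ((h.okt t ht).div' (x t)) (G.S2_vf B t (x t)) (G.S2_wf B t (x t))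
    (h.vf_real ht) (h.wf_real ht) hP
  have e : TT G.ω (G.Qo (x t).1) = G.qL (x t).1 := rfl
  rw [e] at h2 h3
  rw [h1]
  unfold Geo.dFr
  simp only [Complex.add_re, Complex.neg_re] at h2 h3 ⊢
  linarith

private theorem flqe_cont (h : FlS G N A b B x) {M M' : HH H →L[ℂ] HH H} :
    ContinuousOn (fun r => 2 * (⟪G.mq M' (x r).1, G.lq B r (x r)⟫_ℂ).re) (Icc 0 b) := by
  have _ := M
  have h1 := (h.sol.tst_q h.cont).cl
  exact continuousOn_const.mul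
    (Complex.continuous_re.comp_continuousOn ((Geo.cont_mq (G := G) (M' := M') h.sol.cont).inner h1))

/-- **The identity tested with `F q`.** Proof: `Sol.energy_q` with `MulQ.fam G hF`; `inner_lq` (with
`φ = G.mq (MF G.ω F) (x t).1`, `Qo_mq`), `el_fam`, `tr_fam` (`h.okt.div'`, `S2_vf`, `S2_wf`,
`FlS.vf_real`, `FlS.wf_real`, `PP_Qo`). `G.hω : G.ω = π / H`. -/
theorem FlS.dF (h : FlS G N A b B x) {F : ℝ × ℝ → ℝ} (hF : PY H F) {t : ℝ} (ht : t ∈ Icc 0 b) :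
    HasDerivWithinAt (fun t => (⟪cm (fam F) (cm G.b (G.qL (x t).1)), cm G.b (G.qL (x t).1)⟫_ℂ).re)
      (G.dFr F B t (x t)) (Icc 0 b) t := by
  rw [← flqe_key h hF ht]
  exact h.sol.energy_q h.cont (MulQ.fam G hF) ht

/-- integrated form. Proof: `Sol.energy_q_int` and the same computation (or `FlS.dF` and continuity of
the right-hand side of `energy_q`: `2 Re ⟨mq.., lq⟩` is continuous, `Sol.tst_q.cl`, `cont_mq`). -/
theorem FlS.dF_int (h : FlS G N A b B x) {F : ℝ × ℝ → ℝ} (hF : PY H F) {s t : ℝ} (hs : 0 ≤ s)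
    (hst : s ≤ t) (ht : t ≤ b) :
    ContinuousOn (fun r => G.dFr F B r (x r)) (Icc 0 b) ∧
    (⟪cm (fam F) (cm G.b (G.qL (x t).1)), cm G.b (G.qL (x t).1)⟫_ℂ).re -
      (⟪cm (fam F) (cm G.b (G.qL (x s).1)), cm G.b (G.qL (x s).1)⟫_ℂ).re =
      ∫ r in s..t, G.dFr F B r (x r) := by
  constructor
  · exact (flqe_cont h (M := 1) (M' := MF G.ω F)).congr fun r hr => (flqe_key h hF hr).symm
  · rw [h.sol.energy_q_int h.cont (MulQ.fam G hF) hs hst ht, ← intervalIntegral.integral_const_mul]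
    refine intervalIntegral.integral_congr fun r hr => ?_
    rw [uIcc_of_le hst] at hr
    exact flqe_key h hF ⟨hs.trans hr.1, hr.2.trans ht⟩

/-- `|q|` and `|b q|` are equivalent. Proof: `G.b2`/`G.b1` (`cm G.bi (cm G.b x) = x`) and
`norm_cm_apply_le`. -/
theorem Geo.b_equiv (G : Geo H) : ∃ C, 1 ≤ C ∧ ∀ x : HH H, ‖x‖ ≤ C * ‖cm G.b x‖ ∧ ‖cm G.b x‖ ≤ C * ‖x‖ := by
  refine ⟨max 1 (max (∑' n, ‖G.bi n‖) (∑' n, ‖G.b n‖)), le_max_left _ _, fun x => ⟨?_, ?_⟩⟩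
  · have h1 := norm_cm_apply_le G.hbi.c.s0 (cm G.b x)
    rw [G.b2] at h1
    exact h1.trans (mul_le_mul_of_nonneg_right ((le_max_left _ _).trans (le_max_right _ _))
      (norm_nonneg _))
  · have h1 := norm_cm_apply_le G.hb.c.s0 x
    exact h1.trans (mul_le_mul_of_nonneg_right ((le_max_right _ _).trans (le_max_right _ _))
      (norm_nonneg _))

/-- `|∇ q| = |B q| = |p|` -/
theorem Geo.norm_Qo (G : Geo H) (p : HH H) : ‖G.Qo p‖ = ‖p‖ := by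
  have h1 := congrArg Complex.re (G.inner_Qo p p)
  have h2 : (⟪G.Qo p, G.Qo p⟫_ℂ).re = ‖G.Qo p‖ ^ 2 := inner_self_eq_norm_sq (𝕜 := ℂ) _
  have h3 : (⟪p, p⟫_ℂ).re = ‖p‖ ^ 2 := inner_self_eq_norm_sq (𝕜 := ℂ) _
  rw [h2, h3] at h1
  exact (sq_eq_sq₀ (norm_nonneg _) (norm_nonneg _)).1 h1

private theorem flqe_tr {g : HH H} (hg : PP G.ω g = g) {v w : ℤ → CI H}
    (dw : ∀ n, DZ (w n) (-(kI G.ω n) • (iota (v n) : Z2 H))) (sv : S2 G.lam (1 / 2) v)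
    (sw : S2 G.lam (1 / 2) w) (rv : ∀ n, v (-n) = star (v n)) (rw : ∀ n, w (-n) = star (w n)) :
    (dp (Xy G.ω g) (pz (TT G.ω g) v) + dp (Xz G.ω g) (pz (TT G.ω g) w)).re = 0 := by
  have h1 := anti_fam G dw sv sw g hg
  have h2 := dp_conj G (Xy G.ω g) g sv rv
  have h3 := dp_conj G (Xz G.ω g) g sw rw
  have h4 := congrArg Complex.re h1
  have h5 := congrArg Complex.re h2
  have h6 := congrArg Complex.re h3
  simp only [Complex.star_def, Complex.conj_re, Complex.add_re, Complex.neg_re] at h4 h5 h6 ⊢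
  linarith

private theorem flqe_real {D K S : ℝ} (hS : S ≤ 3 * D * K) : 2 * (-D ^ 2 + S) ≤ -D ^ 2 + 9 * K ^ 2 := by
  nlinarith [sq_nonneg (D - 3 * K)]

private theorem flqe_pt (h : FlS G N A b B x) {t : ℝ} (ht : t ∈ Icc 0 b) :
    2 * (⟪G.mq 1 (x t).1, G.lq B t (x t)⟫_ℂ).re ≤
      -‖(x t).1‖ ^ 2 + 9 * ‖Ms (B.κ t) (G.VV B t (x t))‖ ^ 2 := by
  have hP := G.PP_Qo (x t).1
  have hQ : G.Qo (G.mq 1 (x t).1) = G.Qo (x t).1 := Geo.Qo_mq (MulQ.one G) (x t).1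
  have h1 := congrArg Complex.re (G.inner_lq (h.okt t ht) (x t) (G.mq 1 (x t).1))
  rw [hQ] at h1
  have h3 := flqe_tr (G := G) hP ((h.okt t ht).div' (x t)) (G.S2_vf B t (x t)) (G.S2_wf B t (x t))
    (h.vf_real ht) (h.wf_real ht)
  have e : TT G.ω (G.Qo (x t).1) = G.qL (x t).1 := rfl
  rw [e] at h3
  have h4 : (⟪G.Qo (x t).1, G.Qo (x t).1⟫_ℂ).re = ‖(x t).1‖ ^ 2 := by
    rw [← G.norm_Qo (x t).1]; exact inner_self_eq_norm_sq (𝕜 := ℂ) _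
  have h5 : (⟪Xz G.ω (G.Qo (x t).1) + DTc G.ω (G.Qo (x t).1), Ms (B.κ t) (G.VV B t (x t))⟫_ℂ).re ≤
      3 * ‖(x t).1‖ * ‖Ms (B.κ t) (G.VV B t (x t))‖ := by
    refine (Complex.re_le_norm _).trans ((norm_inner_le_norm _ _).trans ?_)
    refine mul_le_mul_of_nonneg_right ?_ (norm_nonneg _)
    refine (norm_add_le _ _).trans ?_
    have h6 := G.norm_Qo (x t).1
    have h7 := norm_Xz_le G.ω (G.Qo (x t).1)
    have h8 := (DTc G.ω : HH H →L[ℂ] HH H).le_of_opNorm_le (norm_DTc_le G.ω) (G.Qo (x t).1)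
    rw [h6] at h7 h8
    linarith
  have h9 := flqe_real h5
  simp only [Complex.add_re, Complex.neg_re] at h1 h3
  rw [h1, h4]
  linarith

/-- **Energy inequality for `q`.** Proof: `Sol.energy_q_int` with `MulQ.one G`, `inner_lq`; the
transport term has real part zero (`tr_fam` with `F = 1`, or directly `anti_fam` and `dp_conj`);
`‖Xz g + DTc g‖ ≤ 3 ‖g‖` (`norm_Xz_le`, `norm_DTc_le`), `2·3·D·K ≤ D² + 9K²`; the functions
`r ↦ ‖(x r).1‖²`, `‖Ms (B.κ r) (G.VV B r (x r))‖²` are continuous on `[0,b]` (`h.sol.cont`,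
`h.cont.κ`, `cont_gV`, `MsB`). -/
theorem FlS.q_energy (h : FlS G N A b B x) : ∀ t ∈ Icc 0 b,
    ‖cm G.b (G.qL (x t).1)‖ ^ 2 + ∫ r in (0:ℝ)..t, ‖(x r).1‖ ^ 2 ≤
      ‖cm G.b (G.qL (x 0).1)‖ ^ 2 + 9 * ∫ r in (0:ℝ)..t, ‖Ms (B.κ r) (G.VV B r (x r))‖ ^ 2 := by
  intro t ht
  have h1 := h.sol.energy_q_int h.cont (MulQ.one G) le_rfl ht.1 ht.2
  have e1 : ∀ y : HH H, (⟪(1 : HH H →L[ℂ] HH H) y, y⟫_ℂ).re = ‖y‖ ^ 2 := fun y =>
    inner_self_eq_norm_sq (𝕜 := ℂ) y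
  rw [e1, e1, ← intervalIntegral.integral_const_mul] at h1
  have hsub : uIcc 0 t ⊆ Icc 0 b := by
    rw [uIcc_of_le ht.1]; exact Icc_subset_Icc le_rfl ht.2
  have c1 : ContinuousOn (fun r => ‖(x r).1‖ ^ 2) (Icc 0 b) :=
    ((continuous_fst.comp_continuousOn h.sol.cont).norm).pow 2
  have cV : ContinuousOn (fun r => G.VV B r (x r)) (Icc 0 b) :=
    (TT G.ω).continuous.comp_continuousOn (Geo.cont_gV h.cont h.sol.cont)
  have cM : ContinuousOn (fun r => Ms (B.κ r) (G.VV B r (x r))) (Icc 0 b) :=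
    ((MsB H).continuous.comp_continuousOn h.cont.κ).clm_apply cV
  have c2 : ContinuousOn (fun r => ‖Ms (B.κ r) (G.VV B r (x r))‖ ^ 2) (Icc 0 b) := cM.norm.pow 2
  have i1 : IntervalIntegrable (fun r => ‖(x r).1‖ ^ 2) volume 0 t :=
    (c1.mono hsub).intervalIntegrable
  have i2 : IntervalIntegrable (fun r => ‖Ms (B.κ r) (G.VV B r (x r))‖ ^ 2) volume 0 t :=
    (c2.mono hsub).intervalIntegrable
  have i3 : IntervalIntegrable (fun r => 2 * (⟪G.mq 1 (x r).1, G.lq B r (x r)⟫_ℂ).re) volume 0 t :=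
    ((flqe_cont h (M := 1) (M' := 1)).mono hsub).intervalIntegrable
  have h2 : ∫ r in (0:ℝ)..t, 2 * (⟪G.mq 1 (x r).1, G.lq B r (x r)⟫_ℂ).re ≤
      ∫ r in (0:ℝ)..t, (-‖(x r).1‖ ^ 2 + 9 * ‖Ms (B.κ r) (G.VV B r (x r))‖ ^ 2) :=
    intervalIntegral.integral_mono_on ht.1 i3 (i1.neg.add (i2.const_mul 9))
      fun r hr => flqe_pt h ⟨hr.1, hr.2.trans ht.2⟩
  have h3 : ∫ r in (0:ℝ)..t, (-‖(x r).1‖ ^ 2 + 9 * ‖Ms (B.κ r) (G.VV B r (x r))‖ ^ 2) =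
      -(∫ r in (0:ℝ)..t, ‖(x r).1‖ ^ 2) +
        9 * ∫ r in (0:ℝ)..t, ‖Ms (B.κ r) (G.VV B r (x r))‖ ^ 2 := by
    rw [← intervalIntegral.integral_neg, ← intervalIntegral.integral_const_mul]
    exact intervalIntegral.integral_add i1.neg (i2.const_mul 9)
  linarith

end

end Pool.Agent.Lib.MP_79abb3_an.SC
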