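import Pool.Agent.Lib.MP_79abb3_an.SC.ApEb
import Pool.Agent.Lib.MP_79abb3_an.SC.ExT
import Pool.Agent.Lib.MP_79abb3_an.SC.MnDef

/-!
MP_79abb3_an, simply connected domains, block (iii): solutions of the flushing phase.
-/

set_option autoImplicit false
set_option linter.unusedSectionVars false

open MeasureTheory Set Filter Topology Function
open scoped ENNReal InnerProductSpace

namespace Pool.Agent.Lib.MP_79abb3_an.SC

open Pool.Agent.Lib.MP_79abb3_an.P25 Pool.Agent.Lib.MP_79abb3_an.FW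

section
variable {H : ℝ} [hH : Fact (0 < H)]

/-- The flushing phase on `[0, b]`: `x` solves the background system of the cell flow of wave number
`N` with the amplitude `A(t)`. -/
structure FlS (G : Geo H) (N : ℕ) (A : ℝ → ℝ) (b : ℝ) (B : Bg H) (x : ℝ → HH H × HH H) : Prop where
  N1 : 1 ≤ N
  b0 : 0 ≤ b
  cont : B.Cont 0 b
  lift : G.Lift B 0 b
  okt : ∀ t ∈ Icc 0 b, G.Okt B t
  sol : G.Sol B 0 b (x 0) x
  Ac : ContinuousOn A (Icc 0 b)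
  A0 : ∀ t ∈ Icc 0 b, 0 ≤ A t
  ve : ∀ t ∈ Icc 0 b, ∀ n, hf G.lam (B.ve t) n = cellV (G.ω * N) N (A t) n
  we : ∀ t ∈ Icc 0 b, ∀ n, hf G.lam (B.we t) n = cellW (G.ω * N) N (A t) n
  κ : ∀ t ∈ Icc 0 b, B.κ t = rc (G.kF (G.ω * N) (A t)) (G.kF_c _ _)
  tr0 : ∀ t ∈ Icc 0 b, ∀ n, ex (Vf G.ω (⇑(B.gL t)) n) 0 =
    -(Complex.I * ((A t / 2 * sN N n : ℝ) : ℂ))
  fc : ∀ t ∈ Icc 0 b, B.fc t = 0
  rl : ∀ t ∈ Icc 0 b, Rl (G.gt B t (x t))

namespace Geo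
variable (G : Geo H)

/-- `ζ J q` -/
noncomputable def qh (y : HH H × HH H) : HH H := Ms G.ζ (cm G.J (G.qL y.1))

theorem gt_gV (B : Bg H) (t : ℝ) (y : HH H × HH H) : G.gt B t y = G.qh y + G.gV B t y := by
  unfold gt qh gV; abel

end Geo

theorem Vf_add (ω : ℝ) (g g' : HH H) (n : ℤ) :
    (Vf ω (⇑(g + g')) n : CI H) = Vf ω (⇑g) n + Vf ω (⇑g') n := by
  unfold Vf
  rw [lp.coeFn_add, Pi.add_apply, map_add]

theorem ci_smul_add (c : ℂ) (x y : CI H) : c • (x + y) = c • x + c • y := smul_add c x y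

theorem uV_add' (ω : ℝ) (g g' : HH H) (n : ℤ) :
    (uV ω (Vf ω (⇑(g + g'))) n : CI H) = uV ω (Vf ω (⇑g)) n + uV ω (Vf ω (⇑g')) n := by
  unfold uV
  rw [Vf_add, map_add, map_add, ci_smul_add]
  abel

theorem wV_add' (ω : ℝ) (g g' : HH H) (n : ℤ) :
    (wV ω (Vf ω (⇑(g + g'))) n : CI H) = wV ω (Vf ω (⇑g)) n + wV ω (Vf ω (⇑g')) n := by
  unfold wV
  rw [Vf_add, map_add, map_add, ci_smul_add]

theorem FlS.vf {G : Geo H} {N : ℕ} {A : ℝ → ℝ} {b : ℝ} {B : Bg H} {x : ℝ → HH H × HH H}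
    (h : FlS G N A b B x) {t : ℝ} (ht : t ∈ Icc 0 b) :
    G.vf B t (x t) = G.tv N (A t) (G.qh (x t)) (G.gV B t (x t)) := by
  funext n
  rw [G.vf_apply, G.gt_gV, uV_add', h.ve t ht]
  unfold Geo.tv
  abel

theorem FlS.wf {G : Geo H} {N : ℕ} {A : ℝ → ℝ} {b : ℝ} {B : Bg H} {x : ℝ → HH H × HH H}
    (h : FlS G N A b B x) {t : ℝ} (ht : t ∈ Icc 0 b) :
    G.wf B t (x t) = G.tw N (A t) (G.qh (x t)) (G.gV B t (x t)) := by
  funext n
  rw [G.wf_apply, G.gt_gV, wV_add', h.we t ht]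
  unfold Geo.tw
  abel

/-- restriction to a shorter interval -/
theorem FlS.restrict {G : Geo H} {N : ℕ} {A : ℝ → ℝ} {b c : ℝ} {B : Bg H} {x : ℝ → HH H × HH H}
    (h : FlS G N A b B x) (hc0 : 0 ≤ c) (hc : c ≤ b) : FlS G N A c B x := by
  have hs : Icc 0 c ⊆ Icc 0 b := Icc_subset_Icc le_rfl hc
  refine ⟨h.N1, hc0, ⟨h.cont.ve.mono hs, h.cont.we.mono hs, h.cont.gL.mono hs, h.cont.FL.mono hs,
    h.cont.fc.mono hs, h.cont.κ.mono hs, h.cont.κ1.mono hs⟩, Tst.restrict h.lift le_rfl hc,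
    fun t ht => h.okt t (hs ht), ?_, h.Ac.mono hs, fun t ht => h.A0 t (hs ht),
    fun t ht => h.ve t (hs ht), fun t ht => h.we t (hs ht), fun t ht => h.κ t (hs ht),
    fun t ht => h.tr0 t (hs ht), fun t ht => h.fc t (hs ht), fun t ht => h.rl t (hs ht)⟩
  exact ⟨h.sol.cont.mono hs, fun t ht => h.sol.eq t (hs ht)⟩

end

end Pool.Agent.Lib.MP_79abb3_an.SC
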