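import Pool.Agent.Lib.MP_79abb3_an.FW.Kap
import Pool.Agent.Lib.MP_79abb3_an.FW.OpNc
import Pool.Agent.Lib.MP_79abb3_an.SC.ExE
import Pool.Agent.Lib.MP_79abb3_an.SC.FlDef

/-!
MP_79abb3_an, simply connected domains, block (iii): the weighted energy of `V` in the flushing phase.
-/

set_option autoImplicit false
set_option linter.unusedSectionVars false

open MeasureTheory Set Filter Topology Function
open scoped ENNReal InnerProductSpace

namespace Pool.Agent.Lib.MP_79abb3_an.SC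

open Pool.Agent.Lib.MP_79abb3_an.P25 Pool.Agent.Lib.MP_79abb3_an.FW

section
variable {H : ℝ} [hH : Fact (0 < H)]

private theorem zl_posV {m : ℝ} (hm : 0 < m) : 0 < zl m := by
  unfold zl
  have := Real.sqrt_pos.2 hm
  positivity

private theorem cosh_leV {m x z : ℝ} (hm : 0 < m) (h : x ≤ z) :
    Real.cosh (m * z) ≤ Real.exp (m * (z - x)) * Real.cosh (m * x) := by
  have e : m * z = m * (z - x) + m * x := by ring
  have h0 : 0 ≤ m * (z - x) := mul_nonneg hm.le (by linarith)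
  have h1 := Real.sinh_nonneg_iff.2 h0
  have h2 := (abs_le.1 (abs_sinh_le (m * x))).2
  rw [e, Real.cosh_add, ← Real.cosh_add_sinh, add_mul]
  exact add_le_add le_rfl (mul_le_mul_of_nonneg_left h2 h1)

/-- `th` of the flushing phase as a weight: `th = tht (zl m) (4 m)`. Proof: `tht_cont`, `tht_nonneg`,
`tht_mono`. -/
theorem tht_wgt {m : ℝ} (hm : 0 < m) : Wgt H (tht (zl m) (4 * m)) where
  c := tht_cont _ _
  nn z _ := tht_nonneg _ _ _
  mono x _ z _ hxz := by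
    have h1 := tht_mono (zl_posV hm) (by positivity : 0 ≤ 4 * m) hxz
    have h2 : Real.exp (-(4 * m * (z - x))) ≤ 1 := Real.exp_le_one_iff.2 (by
      have : 0 ≤ 4 * m * (z - x) := mul_nonneg (by positivity) (by linarith)
      linarith)
    exact h1.trans (mul_le_of_le_one_left (tht_nonneg _ _ _) h2)

/-- Proof: `tht_deriv`, `tht1_cont`, definition of `IsD`, `ex_rc`. -/
theorem tht_isD {m : ℝ} (hm : 0 < m) :
    IsD (rc (tht (zl m) (4 * m)) (tht_cont _ _) : CI H) (rc (tht1 (zl m) (4 * m)) (tht1_cont _ _)) := by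
  intro z hz
  rw [ex_rc _ _ hz]
  exact ((tht_deriv (zl_posV hm) z).ofReal_comp.hasDerivWithinAt).congr (fun x hx => ex_rc _ _ hx)
    (ex_rc _ _ hz)

/-- `A cosh(m z) th(x) ≤ th(z) A cosh(m x)` for `x ≤ z`. Proof: `tht_mono` (with `M = 4 m`) and
`cosh(m z) ≤ e^{m (z-x)} cosh(m x)`. -/
theorem tht_cell {m α : ℝ} (hm : 0 < m) (hα : 0 ≤ α) :
    CellB H (tht (zl m) (4 * m)) (chF m α) where
  c := chF_c m α
  nn z _ := by
    unfold chF
    have := Real.cosh_pos (m * z)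
    positivity
  th x _ z _ hxz := by
    have h1 := tht_mono (zl_posV hm) (by positivity : 0 ≤ 4 * m) hxz
    have h2 := cosh_leV hm hxz
    have h3 := Real.cosh_pos (m * x)
    have h4 := tht_nonneg (zl m) (4 * m) z
    have h5 := tht_nonneg (zl m) (4 * m) x
    have h6 : Real.exp (m * (z - x)) * Real.exp (-(4 * m * (z - x))) ≤ 1 := by
      rw [← Real.exp_add]
      refine Real.exp_le_one_iff.2 ?_
      have : 0 ≤ m * (z - x) := mul_nonneg hm.le (by linarith)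
      linarith
    unfold chF
    calc α * Real.cosh (m * z) * tht (zl m) (4 * m) x
        ≤ α * (Real.exp (m * (z - x)) * Real.cosh (m * x)) *
          (Real.exp (-(4 * m * (z - x))) * tht (zl m) (4 * m) z) :=
          mul_le_mul (mul_le_mul_of_nonneg_left h2 hα) h1 h5 (by positivity)
      _ = (Real.exp (m * (z - x)) * Real.exp (-(4 * m * (z - x)))) *
          (tht (zl m) (4 * m) z * (α * Real.cosh (m * x))) := by ring
      _ ≤ 1 * (tht (zl m) (4 * m) z * (α * Real.cosh (m * x))) :=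
          mul_le_mul_of_nonneg_right h6 (by positivity)
      _ = _ := one_mul _

private theorem energyV_eq {th : ℝ → ℝ} (c : Continuous th) (V : HH H) :
    ‖Ms (rc th c) V‖ ^ 2 = (⟪Ms (rc th c * rc th c) V, V⟫_ℂ).re := by
  rw [← inner_self_re, ← Ms_Ms, innerMs (star_rc th c) (Ms (rc th c) V) V]

private theorem Bm_sq (ω : ℝ) (T T1 : CI H) (g : HH H) :
    Bm ω (T * T) (T1 * T + T * T1) g = Ms T (Ms T g - Ms T1 (TT ω g)) - Ms T1 (Ms T (TT ω g)) := by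
  show Ms (T * T) g - Ms (T1 * T + T * T1) (TT ω g) = _
  rw [Ms_add, ← Ms_Ms, ← Ms_Ms, ← Ms_Ms, map_sub]
  abel

private theorem V_energy_alg {c K S g2 r : ℝ} (hc : 0 < c) (hg : 0 ≤ g2)
    (h : r ≤ -(c / 2) * g2 + K * S) : 2 * r ≤ 2 * K * S := by
  nlinarith

/-- **Weighted energy identity and inequality for `V`.** `g = gV`, `V = T g`. Proof: `Sol.energy_V`
with `M = Ms m`, `m = th²`, `m1 = 2 th th1` (`MulV.ms`, `m(0) = 0`; `IsD` of a product: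
`IsD.mul` or by hand), `Re⟪M V, V⟫ = ‖Ms th V‖²`; the derivative is
`2 Re ⟪mv M' g, lV⟫` and `inner_lV` with `φ = mv M' g`: `Qd φ = Bm ω m m1 g = th (th g - th1 V) - th1 (th V)`
(`Qd_mv`), `T Qd φ = th² V` (`TT_Qd_mv`), `fc = 0`, `FlS.vf`, `FlS.wf`, `h.κ`; then `Geo.wE`.
Continuity of `E'`: `t ↦ 2 Re ⟪mv M' (gV t), lV t⟫` is continuous (`cont_mv`, `(Sol.tst_V ..).cl`). -/
theorem FlS.V_energy (G : Geo H) : ∃ K, 0 ≤ K ∧ ∀ {N : ℕ} {A : ℝ → ℝ} {b : ℝ} {B : Bg H}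
    {x : ℝ → HH H × HH H} (_ : FlS G N A b B x) {th th1 : ℝ → ℝ} (hw : Wgt H th)
    (c1 : Continuous th1) (_ : IsD (rc th hw.c : CI H) (rc th1 c1)) (_ : th 0 = 0)
    (_ : ∀ t ∈ Icc 0 b, CellB H th (chF (G.ω * N) (A t))),
    ∃ E' : ℝ → ℝ, ContinuousOn E' (Icc 0 b) ∧ ∀ t ∈ Icc 0 b,
      HasDerivWithinAt (fun t => ‖Ms (rc th hw.c) (G.VV B t (x t))‖ ^ 2) (E' t) (Icc 0 b) t ∧
      E' t ≤ K * (‖Ms (rc th1 c1) (G.VV B t (x t))‖ ^ 2 +
        (‖G.qh (x t)‖ ^ 4 + ‖LT G.ω G.lam (3 / 8) (G.gV B t (x t))‖ ^ 8) *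
          ‖Ms (rc th hw.c) (G.VV B t (x t))‖ ^ 2) := by
  obtain ⟨K, hK, hE⟩ := G.wE
  refine ⟨2 * K, by positivity, ?_⟩
  intro N A b B x h th th1 hw c1 hd h0 hcell
  have mr : star (rc th hw.c * rc th hw.c : CI H) = rc th hw.c * rc th hw.c := by
    rw [star_mul, star_rc]
  have m0 : ex (rc th hw.c * rc th hw.c : CI H) 0 = 0 := by
    rw [ex_mul, ex_rc _ _ zero_memI, h0]
    simp
  have hTT : IsD (rc th hw.c * rc th hw.c : CI H) (rc th1 c1 * rc th hw.c + rc th hw.c * rc th1 c1) :=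
    fun z hz => (hd z hz).mul (hd z hz)
  have hM := MulV.ms G hTT mr m0
  refine ⟨fun t => 2 * (⟪G.mv (Bm G.ω (rc th hw.c * rc th hw.c)
    (rc th1 c1 * rc th hw.c + rc th hw.c * rc th1 c1)) (G.gV B t (x t)), G.lV B t (x t)⟫_ℂ).re,
    ?_, ?_⟩
  · have h1 := ContinuousOn.inner (𝕜 := ℂ) (Geo.cont_mv (G := G)
      (M' := Bm G.ω (rc th hw.c * rc th hw.c) (rc th1 c1 * rc th hw.c + rc th hw.c * rc th1 c1))
      h.cont h.sol.cont) (h.sol.tst_V h.cont h.lift).cl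
    exact (Complex.continuous_re.comp_continuousOn h1).const_mul 2
  · intro t ht
    constructor
    · have h1 := h.sol.energy_V h.cont h.lift hM ht
      exact h1.congr (fun s _ => energyV_eq _ _) (energyV_eq _ _)
    · have h1 := hE hw c1 hd (h.A0 t ht) (hcell t ht) (G.gV B t (x t)) (G.qh (x t))
      have h2 := G.inner_lV (h.okt t ht) (x t) (G.mv (Bm G.ω (rc th hw.c * rc th hw.c)
        (rc th1 c1 * rc th hw.c + rc th hw.c * rc th1 c1)) (G.gV B t (x t)))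
      rw [Geo.Qd_mv hM, hM.T, Bm_sq, h.vf ht, h.wf ht, h.κ t ht, h.fc t ht, inner_zero_right,
        add_zero, ← Ms_Ms] at h2
      show 2 * (⟪G.mv _ _, G.lV B t (x t)⟫_ℂ).re ≤ _
      rw [h2]
      exact V_energy_alg G.hc (sq_nonneg _) h1

/-- A scalar Gronwall inequality: `E' ≤ a E + c` on `[0,b]` gives `E ≤ (E(0) + c b) e^{a b}`.
(`le_gronwallBound_of_liminf_deriv_right_le`, or `e^{-a t} E(t) - c t` is antitone.) -/
theorem gronw {E E' : ℝ → ℝ} {a c b : ℝ} (ha : 0 ≤ a) (hc : 0 ≤ c)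
    (hd : ∀ t ∈ Icc 0 b, HasDerivWithinAt E (E' t) (Icc 0 b) t)
    (h : ∀ t ∈ Icc 0 b, E' t ≤ a * E t + c) : ∀ t ∈ Icc 0 b,
    E t ≤ (E 0 + c * t) * Real.exp (a * t) := by
  intro t ht
  have hb : 0 ≤ b := ht.1.trans ht.2
  have hder : ∀ s ∈ Icc 0 b, HasDerivWithinAt (fun s => Real.exp (-(a * s)) * E s - c * s)
      (Real.exp (-(a * s)) * (-a) * E s + Real.exp (-(a * s)) * E' s - c) (Icc 0 b) s := by
    intro s hs
    have h0 : HasDerivAt (fun s : ℝ => a * s) a s := by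
      simpa using (hasDerivAt_id s).const_mul a
    have h1 : HasDerivAt (fun s : ℝ => -(a * s)) (-a) s := h0.neg
    have h2 : HasDerivAt (fun s : ℝ => c * s) c s := by
      simpa using (hasDerivAt_id s).const_mul c
    exact ((h1.exp.hasDerivWithinAt).mul (hd s hs)).sub h2.hasDerivWithinAt
  have hanti : AntitoneOn (fun s => Real.exp (-(a * s)) * E s - c * s) (Icc 0 b) := by
    refine antitoneOn_of_hasDerivWithinAt_nonpos (convex_Icc 0 b)
      (fun s hs => (hder s hs).continuousWithinAt)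
      (fun s hs => (hder s (interior_subset hs)).mono interior_subset) ?_
    intro s hs
    have hs' := interior_subset hs
    have h1 := h s hs'
    have h2 := Real.exp_pos (-(a * s))
    have h3 : Real.exp (-(a * s)) ≤ 1 := Real.exp_le_one_iff.2 (by
      have := mul_nonneg ha hs'.1
      linarith)
    have h4 : Real.exp (-(a * s)) * (E' s - a * E s) ≤ Real.exp (-(a * s)) * c :=
      mul_le_mul_of_nonneg_left (by linarith) h2.le
    have h5 : Real.exp (-(a * s)) * c ≤ 1 * c := mul_le_mul_of_nonneg_right h3 hc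
    linarith
  have h1 := hanti ⟨le_rfl, hb⟩ ht ht.1
  simp only [mul_zero, neg_zero, Real.exp_zero, one_mul, sub_zero] at h1
  have h2 := Real.exp_pos (a * t)
  have h3 : Real.exp (-(a * t)) * E t ≤ E 0 + c * t := by linarith
  have h4 := mul_le_mul_of_nonneg_right h3 h2.le
  have h5 : Real.exp (-(a * t)) * E t * Real.exp (a * t) = E t := by
    rw [mul_right_comm, ← Real.exp_add, neg_add_cancel, Real.exp_zero, one_mul]
  rwa [h5] at h4

private theorem Ms_tht1_le {m : ℝ} (hm : 0 < m) (V : HH H) :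
    ‖Ms (rc (tht1 (zl m) (4 * m)) (tht1_cont _ _)) V‖ ^ 2 ≤
      2 * (4 * m + 2 / zl m) ^ 2 * ‖Ms (rc (tht (zl m) (4 * m)) (tht_cont _ _)) V‖ ^ 2 +
        8 / zl m ^ 2 * ‖V‖ ^ 2 := by
  have hz := zl_posV hm
  have hp : 0 ≤ √2 * (4 * m + 2 / zl m) := by positivity
  have hq : 0 ≤ √8 / zl m := by positivity
  have hp2 : (√2 * (4 * m + 2 / zl m)) ^ 2 = 2 * (4 * m + 2 / zl m) ^ 2 := by
    rw [mul_pow, Real.sq_sqrt (by norm_num)]
  have hq2 : (√8 / zl m) ^ 2 = 8 / zl m ^ 2 := by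
    rw [div_pow, Real.sq_sqrt (by norm_num)]
  have h1 := norm_Ms_sq_add (b := (rc (tht1 (zl m) (4 * m)) (tht1_cont _ _) : CI H))
    (c := ((√2 * (4 * m + 2 / zl m) : ℝ) : ℂ) • rc (tht (zl m) (4 * m)) (tht_cont _ _))
    (d := ((√8 / zl m : ℝ) : ℂ) • rc (fun _ => 1) continuous_const) (fun z hz' => by
      rw [ex_smul, ex_smul, ex_rc _ _ hz', ex_rc _ _ hz', ex_rc _ _ hz', norm_mul, norm_mul,
        Complex.norm_real, Complex.norm_real, Complex.norm_real, Complex.norm_real, Complex.norm_real,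
        mul_pow, mul_pow, Real.norm_eq_abs, Real.norm_eq_abs, Real.norm_eq_abs, Real.norm_eq_abs,
        Real.norm_eq_abs, sq_abs, sq_abs, sq_abs, sq_abs, sq_abs, hp2, hq2, one_pow, mul_one]
      exact tht1_sq_le hz (by positivity) z) V
  have e1 : Ms (rc (fun _ => 1) continuous_const : CI H) V = V := by
    refine lp.ext (funext fun n => ?_)
    have e2 : (rc (fun _ => 1) continuous_const : CI H) = 1 := ci_ext fun z hz => by
      rw [ex_rc _ _ hz]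
      exact Complex.ofReal_one
    rw [Ms_apply, e2, mz_one]
  rw [Ms_smul, Ms_smul, e1, norm_smul, norm_smul, Complex.norm_real, Complex.norm_real, mul_pow,
    mul_pow, Real.norm_eq_abs, Real.norm_eq_abs, sq_abs, sq_abs, hp2, hq2] at h1
  exact h1

private theorem VV_le_one {G : Geo H} {B : Bg H} {t : ℝ} {x : HH H × HH H}
    (h : ‖LT G.ω G.lam (3 / 8) (G.gV B t x)‖ ≤ 1) : ‖G.VV B t x‖ ≤ 1 := by
  refine le_trans ?_ h
  have h1 : ‖G.VV B t x‖ ^ 2 ≤ ‖LT G.ω G.lam (3 / 8) (G.gV B t x)‖ ^ 2 := by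
    rw [l2_norm_sq, l2_norm_sq]
    refine (l2_summable _).tsum_le_tsum (fun n => ?_) (l2_summable _)
    refine pow_le_pow_left₀ (norm_nonneg _) ?_ 2
    rw [G.lamOK.LT_apply (by norm_num), norm_smul, Complex.norm_real,
      Real.norm_of_nonneg (Real.rpow_nonneg (G.lw.pos n).le _)]
    show ‖TT G.ω (G.gV B t x) n‖ ≤ _
    rw [TT_apply]
    exact le_mul_of_one_le_left (norm_nonneg _) (Real.one_le_rpow (G.lw.h1 n) (by norm_num))
  exact (sq_le_sq₀ (norm_nonneg _) (norm_nonneg _)).1 h1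

private theorem V_bound_alg {K M2 z8 Q q y S1 S v e : ℝ} (hK : 0 ≤ K) (hS : 0 ≤ S) (hq : 0 ≤ q)
    (hqQ : q ≤ Q) (hy : 0 ≤ y) (hy1 : y ≤ 1) (h1 : S1 ≤ M2 * S + z8 * v ^ 2) (hv : v ≤ 1)
    (hz : 0 ≤ z8) (hv0 : 0 ≤ v) (he : e ≤ K * (S1 + (q ^ 4 + y ^ 8) * S)) :
    e ≤ K * (M2 + Q ^ 4 + 1) * S + K * z8 := by
  have a1 : q ^ 4 ≤ Q ^ 4 := pow_le_pow_left₀ hq hqQ 4
  have a2 : y ^ 8 ≤ 1 := pow_le_one₀ hy hy1
  have a3 : v ^ 2 ≤ 1 := pow_le_one₀ hv0 hv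
  have a4 : z8 * v ^ 2 ≤ z8 := mul_le_of_le_one_right hz a3
  have a5 : (q ^ 4 + y ^ 8) * S ≤ (Q ^ 4 + 1) * S := mul_le_mul_of_nonneg_right (by linarith) hS
  have a6 : K * (S1 + (q ^ 4 + y ^ 8) * S) ≤ K * (M2 * S + z8 + (Q ^ 4 + 1) * S) :=
    mul_le_mul_of_nonneg_left (by linarith) hK
  calc e ≤ _ := he
    _ ≤ _ := a6
    _ = _ := by ring

private theorem V_bound_fin {K m Q t S S0 : ℝ} (hK : 0 ≤ K) (hm : 1 ≤ m) (hS0 : 0 ≤ S0)
    (ht : 0 ≤ t) (htb : t ≤ 1 / (8 * m ^ 2))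
    (h : S ≤ (S0 + K * (8 / zl m ^ 2) * t) *
      Real.exp (K * (2 * (4 * m + 2 / zl m) ^ 2 + Q ^ 4 + 1) * t)) :
    S ≤ (1 + 256 * K) * Real.exp (325 * K) *
      Real.exp ((1 + 256 * K) * Real.exp (325 * K) * Q ^ 4) * (S0 + 1) := by
  have hm0 : 0 < m := by linarith
  have hs : 0 < √m := Real.sqrt_pos.2 hm0
  have hs2 : √m ^ 2 = m := Real.sq_sqrt hm0.le
  have hsm : √m ≤ m := by nlinarith [Real.one_le_sqrt.2 hm]
  have e1 : 2 / zl m = 32 * √m := by unfold zl; field_simp; norm_num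
  have e2 : 8 / zl m ^ 2 = 2048 * m := by
    unfold zl
    rw [div_pow, mul_pow, hs2]
    field_simp
    norm_num
  rw [e1, e2] at h
  have ht1 : m ^ 2 * t ≤ 1 / 8 := by
    have : m ^ 2 * t ≤ m ^ 2 * (1 / (8 * m ^ 2)) := mul_le_mul_of_nonneg_left htb (by positivity)
    have e3 : m ^ 2 * (1 / (8 * m ^ 2)) = 1 / 8 := by field_simp
    linarith
  have ht2 : t ≤ 1 / 8 := by
    have := mul_le_mul_of_nonneg_right (one_le_pow₀ hm : 1 ≤ m ^ 2) ht
    linarith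
  have ht3 : m * t ≤ 1 / 8 := by
    have := mul_le_mul_of_nonneg_right (by nlinarith : m ≤ m ^ 2) ht
    linarith
  have b1 : K * (2048 * m) * t ≤ 256 * K := by nlinarith
  have b2 : (4 * m + 32 * √m) ^ 2 ≤ 1296 * m ^ 2 := by nlinarith
  have b3 : (2 * (4 * m + 32 * √m) ^ 2 + Q ^ 4 + 1) * t ≤ 325 + Q ^ 4 := by
    have c1 : Q ^ 4 * t ≤ Q ^ 4 * 1 := mul_le_mul_of_nonneg_left (by linarith) (by positivity)
    have c2 : 2 * (4 * m + 32 * √m) ^ 2 * t ≤ 2592 * m ^ 2 * t :=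
      mul_le_mul_of_nonneg_right (by linarith) ht
    nlinarith
  have b4 : K * (2 * (4 * m + 32 * √m) ^ 2 + Q ^ 4 + 1) * t ≤ 325 * K + K * Q ^ 4 := by
    have := mul_le_mul_of_nonneg_left b3 hK
    linarith
  have b5 : K ≤ (1 + 256 * K) * Real.exp (325 * K) := by
    have : 1 ≤ Real.exp (325 * K) := Real.one_le_exp (by positivity)
    nlinarith
  have b6 : Real.exp (K * (2 * (4 * m + 32 * √m) ^ 2 + Q ^ 4 + 1) * t) ≤
      Real.exp (325 * K) * Real.exp ((1 + 256 * K) * Real.exp (325 * K) * Q ^ 4) := by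
    rw [← Real.exp_add]
    refine Real.exp_le_exp.2 (b4.trans ?_)
    have := mul_le_mul_of_nonneg_right b5 (by positivity : 0 ≤ Q ^ 4)
    linarith
  have b7 : S0 + K * (2048 * m) * t ≤ (1 + 256 * K) * (S0 + 1) := by nlinarith
  calc S ≤ _ := h
    _ ≤ (1 + 256 * K) * (S0 + 1) *
        (Real.exp (325 * K) * Real.exp ((1 + 256 * K) * Real.exp (325 * K) * Q ^ 4)) :=
        mul_le_mul b7 b6 (Real.exp_pos _).le (by positivity)
    _ = _ := by ring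

/-- **Weighted energy bound.** For `m = ω N ≥ 1`, `b ≤ 1/(8 m²)`, `‖qh‖ ≤ Q`, `‖Λ^{3/8} V‖ ≤ 1`:
`‖th V(t)‖² ≤ C e^{C Q⁴} (‖th V(0)‖² + 1)`. Proof: `FlS.V_energy` with `th = tht (zl m) (4m)`;
`tht1² ≤ 2 (M + 2/z1)² tht² + 8/z1²` (`tht1_sq_le`) gives `‖Ms th1 V‖² ≤ 2 (M+2/z1)² ‖Ms th V‖² +
(8/z1²) ‖V‖²` (`norm_Ms_sq_add`), `‖V‖ ≤ ‖Λ^{3/8} V‖ ≤ 1`; `gronw` with
`a = K (2 (4m + 32 √m)² + Q⁴ + 1)`, `c = K (8/z1²)`, `a b ≤ K (324 + Q⁴ + 1)`, `c b ≤ 256 K`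
(`zl m = 1/(16 √m)`). -/
theorem FlS.V_bound (G : Geo H) : ∃ C, 1 ≤ C ∧ ∀ {N : ℕ} {A : ℝ → ℝ} {b : ℝ} {B : Bg H}
    {x : ℝ → HH H × HH H} (_ : FlS G N A b B x) (_ : 1 ≤ G.ω * N) (_ : b ≤ 1 / (8 * (G.ω * N) ^ 2))
    {Q : ℝ} (_ : ∀ t ∈ Icc 0 b, ‖G.qh (x t)‖ ≤ Q)
    (_ : ∀ t ∈ Icc 0 b, ‖LT G.ω G.lam (3 / 8) (G.gV B t (x t))‖ ≤ 1), ∀ t ∈ Icc 0 b,
    ‖Ms (rc (tht (zl (G.ω * N)) (4 * (G.ω * N))) (tht_cont _ _)) (G.VV B t (x t))‖ ^ 2 ≤
      C * Real.exp (C * Q ^ 4) *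
        (‖Ms (rc (tht (zl (G.ω * N)) (4 * (G.ω * N))) (tht_cont _ _)) (G.VV B 0 (x 0))‖ ^ 2 + 1) := by
  obtain ⟨K, hK, hV⟩ := FlS.V_energy G
  refine ⟨(1 + 256 * K) * Real.exp (325 * K), ?_, ?_⟩
  · have h1 : 1 ≤ Real.exp (325 * K) := Real.one_le_exp (by positivity)
    nlinarith
  intro N A b B x h hm hb Q hQ hg t ht
  have hm0 : 0 < G.ω * N := by linarith
  obtain ⟨E', _, hE'⟩ := hV h (tht_wgt hm0) (tht1_cont _ _) (tht_isD hm0)
    (tht_zero (zl_posV hm0) (zl_posV hm0).le) (fun s hs => tht_cell hm0 (h.A0 s hs))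
  have hbd : ∀ s ∈ Icc 0 b, E' s ≤ K * (2 * (4 * (G.ω * N) + 2 / zl (G.ω * N)) ^ 2 + Q ^ 4 + 1) *
      ‖Ms (rc (tht (zl (G.ω * N)) (4 * (G.ω * N))) (tht_cont _ _)) (G.VV B s (x s))‖ ^ 2 +
      K * (8 / zl (G.ω * N) ^ 2) := by
    intro s hs
    exact V_bound_alg hK (sq_nonneg _) (norm_nonneg _) (hQ s hs) (norm_nonneg _) (hg s hs)
      (Ms_tht1_le hm0 _) (VV_le_one (hg s hs)) (by positivity) (norm_nonneg _) (hE' s hs).2
  have h1 := gronw (a := K * (2 * (4 * (G.ω * N) + 2 / zl (G.ω * N)) ^ 2 + Q ^ 4 + 1))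
    (c := K * (8 / zl (G.ω * N) ^ 2)) (by positivity) (by positivity) (fun s hs => (hE' s hs).1) hbd
    t ht
  exact V_bound_fin hK hm (sq_nonneg _) ht.1 (ht.2.trans hb) h1

end

end Pool.Agent.Lib.MP_79abb3_an.SC
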