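import Pool.Agent.Lib.MP_79abb3_an.SC.FlYg

/-!
MP_79abb3_an, simply connected domains, block (iii): the y-inequality of the flushing phase.
-/

set_option autoImplicit false
set_option linter.unusedSectionVars false

open MeasureTheory Set Filter Topology Function
open scoped ENNReal InnerProductSpace

namespace Pool.Agent.Lib.MP_79abb3_an.SC

open Pool.Agent.Lib.MP_79abb3_an.P25 Pool.Agent.Lib.MP_79abb3_an.FW

private theorem yi_int {p t : ℝ} (hp : p < 1) :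
    IntervalIntegrable (fun r => (t - r) ^ (-p)) volume 0 t ∧
      ∫ r in (0:ℝ)..t, (t - r) ^ (-p) = t ^ (1 - p) / (1 - p) := by
  have h1 : IntervalIntegrable (fun x : ℝ => x ^ (-p)) volume 0 t :=
    intervalIntegral.intervalIntegrable_rpow' (by linarith)
  have h2 := h1.comp_sub_left t
  rw [sub_zero, sub_self] at h2
  refine ⟨h2.symm, ?_⟩
  rw [intervalIntegral.integral_comp_sub_left (fun x : ℝ => x ^ (-p)) t, sub_self, sub_zero,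
    integral_rpow (Or.inl (by linarith)), Real.zero_rpow (by linarith), sub_zero,
    show -p + 1 = 1 - p by ring]

/-- algebra of the static estimate -/
private theorem yi_alg {Cu Ct m n2 k0 k1 r0 t0 F0 F1 F2 a1 a2 kk kk1 : ℝ} (hu : 0 ≤ Cu)
    (hm : 0 ≤ m) (hn : 0 ≤ Ct * n2) (hr : 0 ≤ r0) (ht : 0 ≤ t0)
    (hk0 : 0 ≤ kk) (hk1 : 0 ≤ kk1) (h0 : kk ≤ k0) (h1 : kk1 ≤ k1) (hF0 : F0 ≤ Ct * n2 * r0)
    (hF1 : F1 ≤ Ct * n2 * t0) (hF2 : F2 ≤ Ct * n2 * t0) (b1 : a1 ≤ Cu * (m * F0 + F1 + F2) * kk)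
    (b2 : a2 ≤ F0 * kk1) :
    a1 + a2 ≤ ((Cu * Ct * m * k0 + Ct * k1) * r0 + 2 * Cu * Ct * k0 * t0) * n2 := by
  have e1 : m * F0 + F1 + F2 ≤ Ct * n2 * (m * r0 + 2 * t0) := by
    have := mul_le_mul_of_nonneg_left hF0 hm
    nlinarith
  have p1 : 0 ≤ Ct * n2 * (m * r0 + 2 * t0) := mul_nonneg hn (by positivity)
  have e2 : a1 ≤ Cu * (Ct * n2 * (m * r0 + 2 * t0)) * k0 := by
    refine b1.trans ?_
    calc Cu * (m * F0 + F1 + F2) * kk ≤ Cu * (Ct * n2 * (m * r0 + 2 * t0)) * kk :=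
          mul_le_mul_of_nonneg_right (mul_le_mul_of_nonneg_left e1 hu) hk0
      _ ≤ _ := mul_le_mul_of_nonneg_left h0 (mul_nonneg hu p1)
  have e3 : a2 ≤ Ct * n2 * r0 * k1 := by
    refine b2.trans ?_
    calc F0 * kk1 ≤ Ct * n2 * r0 * kk1 := mul_le_mul_of_nonneg_right hF0 hk1
      _ ≤ _ := mul_le_mul_of_nonneg_left h1 (mul_nonneg hn hr)
  refine (add_le_add e2 e3).trans (le_of_eq ?_)
  ring

/-- the integral in time -/
private theorem yi_time {t c1 c2 Cy E : ℝ} (ht : 0 ≤ t) (h1 : 0 ≤ c1) (h2 : 0 ≤ c2) (hy : 0 ≤ Cy)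
    (hE : 0 ≤ E) {w F : ℝ → ℝ}
    (hw : ∀ r, w r = c1 * (t - r) ^ (-(3 / 16) : ℝ) + c2 * (t - r) ^ (-(11 / 16) : ℝ))
    (hF : ∀ r ∈ Icc 0 t, F r ≤ E) :
    IntervalIntegrable w volume 0 t ∧
    ∫ r in (0:ℝ)..t, (w r + Cy * ((t - r) ^ (-(15 / 16) : ℝ) * F r)) ≤
      c1 * (2 * t ^ (13 / 16 : ℝ)) + c2 * (4 * t ^ (5 / 16 : ℝ)) +
        Cy * E * (16 * t ^ (1 / 16 : ℝ)) := by
  obtain ⟨i1, j1⟩ := yi_int (p := 3 / 16) (t := t) (by norm_num)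
  obtain ⟨i2, j2⟩ := yi_int (p := 11 / 16) (t := t) (by norm_num)
  obtain ⟨i3, j3⟩ := yi_int (p := 15 / 16) (t := t) (by norm_num)
  have hwI : IntervalIntegrable w volume 0 t := by
    have e : w = fun r => c1 * (t - r) ^ (-(3 / 16) : ℝ) + c2 * (t - r) ^ (-(11 / 16) : ℝ) :=
      funext hw
    rw [e]
    exact (i1.const_mul c1).add (i2.const_mul c2)
  refine ⟨hwI, ?_⟩
  have p1 : 0 ≤ t ^ (13 / 16 : ℝ) := Real.rpow_nonneg ht _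
  have p2 : 0 ≤ t ^ (5 / 16 : ℝ) := Real.rpow_nonneg ht _
  have p3 : 0 ≤ t ^ (1 / 16 : ℝ) := Real.rpow_nonneg ht _
  have hR : ∫ r in (0:ℝ)..t, ((c1 * (t - r) ^ (-(3 / 16) : ℝ) + c2 * (t - r) ^ (-(11 / 16) : ℝ)) +
      Cy * E * (t - r) ^ (-(15 / 16) : ℝ)) ≤
      c1 * (2 * t ^ (13 / 16 : ℝ)) + c2 * (4 * t ^ (5 / 16 : ℝ)) +
        Cy * E * (16 * t ^ (1 / 16 : ℝ)) := by
    rw [intervalIntegral.integral_add ((i1.const_mul c1).add (i2.const_mul c2))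
      (i3.const_mul _), intervalIntegral.integral_add (i1.const_mul c1) (i2.const_mul c2),
      intervalIntegral.integral_const_mul, intervalIntegral.integral_const_mul,
      intervalIntegral.integral_const_mul, j1, j2, j3]
    have e1 : (1 - 3 / 16 : ℝ) = 13 / 16 := by norm_num
    have e2 : (1 - 11 / 16 : ℝ) = 5 / 16 := by norm_num
    have e3 : (1 - 15 / 16 : ℝ) = 1 / 16 := by norm_num
    rw [e1, e2, e3]
    refine add_le_add (add_le_add ?_ ?_) ?_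
    · refine mul_le_mul_of_nonneg_left ?_ h1
      rw [div_le_iff₀ (by norm_num)]
      nlinarith
    · refine mul_le_mul_of_nonneg_left ?_ h2
      rw [div_le_iff₀ (by norm_num)]
      nlinarith
    · refine mul_le_mul_of_nonneg_left ?_ (mul_nonneg hy hE)
      rw [div_le_iff₀ (by norm_num)]
      nlinarith
  by_cases hI : IntervalIntegrable (fun r => w r + Cy * ((t - r) ^ (-(15 / 16) : ℝ) * F r)) volume 0 t
  · refine le_trans ?_ hR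
    refine intervalIntegral.integral_mono_on ht hI
      (((i1.const_mul c1).add (i2.const_mul c2)).add (i3.const_mul _)) fun r hr => ?_
    rw [hw r]
    have q1 : 0 ≤ (t - r) ^ (-(15 / 16) : ℝ) := Real.rpow_nonneg (sub_nonneg.2 hr.2) _
    have q2 : Cy * ((t - r) ^ (-(15 / 16) : ℝ) * F r) ≤ Cy * E * (t - r) ^ (-(15 / 16) : ℝ) := by
      calc Cy * ((t - r) ^ (-(15 / 16) : ℝ) * F r) ≤ Cy * ((t - r) ^ (-(15 / 16) : ℝ) * E) :=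
            mul_le_mul_of_nonneg_left (mul_le_mul_of_nonneg_left (hF r hr) q1) hy
        _ = _ := by ring
    exact add_le_add le_rfl q2
  · rw [intervalIntegral.integral_undef hI]
    positivity

/-- the final algebra -/
private theorem yi_fin {Cu Ct Cy Cr m k0 k1 Y Q a x1 x5 x13 : ℝ} (hu : 0 ≤ Cu) (hc : 0 ≤ Ct)
    (hy : 0 ≤ Cy) (hr : 0 ≤ Cr) (hm : 0 ≤ m) (hk0 : 0 ≤ k0) (hk1 : 0 ≤ k1) (hY : 0 ≤ Y)
    (hQ : 0 ≤ Q) (ha : 0 ≤ a) (h1 : 0 ≤ x1) (h5 : 0 ≤ x5) (h13 : 0 ≤ x13) :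
    (Cu * Ct * m * k0 + Ct * k1) * (2 * x13) + 2 * Cu * Ct * k0 * (4 * x5) +
      Cy * (Y ^ 2 + Y * Q + Cr * (Q + a)) * (16 * x1) ≤
    (16 * Cy * (1 + Cr) + 8 * (Cu * Ct) + 2 * Ct) *
      (x1 * (Y ^ 2 + Y * Q + Q + a) + (m * x13 + x5) * k0 + x13 * k1) := by
  have hS : Y ^ 2 + Y * Q + Cr * (Q + a) ≤ (1 + Cr) * (Y ^ 2 + Y * Q + Q + a) := by
    have q1 : 0 ≤ Cr * (Y ^ 2 + Y * Q) := by positivity
    nlinarith
  have a1 : Cy * (Y ^ 2 + Y * Q + Cr * (Q + a)) * (16 * x1) ≤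
      16 * Cy * (1 + Cr) * (x1 * (Y ^ 2 + Y * Q + Q + a)) := by
    calc Cy * (Y ^ 2 + Y * Q + Cr * (Q + a)) * (16 * x1) ≤
          Cy * ((1 + Cr) * (Y ^ 2 + Y * Q + Q + a)) * (16 * x1) :=
          mul_le_mul_of_nonneg_right (mul_le_mul_of_nonneg_left hS hy) (by positivity)
      _ = _ := by ring
  have b0 : 0 ≤ 16 * Cy * (1 + Cr) := by positivity
  have b1 : 0 ≤ 8 * (Cu * Ct) := by positivity
  have b2 : 0 ≤ 2 * Ct := by positivity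
  have g1 : 0 ≤ x1 * (Y ^ 2 + Y * Q + Q + a) := by positivity
  have g2 : 0 ≤ m * x13 * k0 := by positivity
  have g3 : 0 ≤ x5 * k0 := by positivity
  have g4 : 0 ≤ x13 * k1 := by positivity
  have e : x1 * (Y ^ 2 + Y * Q + Q + a) + (m * x13 + x5) * k0 + x13 * k1 =
      x1 * (Y ^ 2 + Y * Q + Q + a) + m * x13 * k0 + x5 * k0 + x13 * k1 := by ring
  rw [e]
  have a2 : (Cu * Ct * m * k0 + Ct * k1) * (2 * x13) + 2 * Cu * Ct * k0 * (4 * x5) =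
      2 * (Cu * Ct) * (m * x13 * k0) + 2 * Ct * (x13 * k1) + 8 * (Cu * Ct) * (x5 * k0) := by ring
  rw [a2]
  refine (add_le_add le_rfl a1).trans ?_
  generalize x1 * (Y ^ 2 + Y * Q + Q + a) = g1' at *
  generalize m * x13 * k0 = g2' at *
  generalize x5 * k0 = g3' at *
  generalize x13 * k1 = g4' at *
  have b3 : 0 ≤ Cu * Ct := by positivity
  generalize Cu * Ct = d at *
  generalize 16 * Cy * (1 + Cr) = f at *
  have c1 := mul_nonneg b0 g2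
  have c2 := mul_nonneg b0 g3
  have c3 := mul_nonneg b0 g4
  have c4 := mul_nonneg b3 g1
  have c5 := mul_nonneg b3 g2
  have c6 := mul_nonneg b3 g3
  have c7 := mul_nonneg b3 g4
  have c8 := mul_nonneg b2 g1
  have c9 := mul_nonneg b2 g2
  have c10 := mul_nonneg b2 g3
  nlinarith

section
variable {H : ℝ} [hH : Fact (0 < H)]

/-- **The y-inequality in the flushing phase.** Proof: `Geo.Sol.y_int` with
`w r = C (m τ^{-3/16} + τ^{-11/16}) k0 + C τ^{-3/16} k1`, `τ = t - r`, `m = ω N`: `h.ve`, `h.we`, `h.κ`, `h.fc`,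
`U_bd` with `f = Vf ω (Qd (HS τ ψ))` and the bounds of `TFn` (`hT`), Cauchy-Schwarz for the `κ`-term;
`FlS.trn_le`; the integrals `∫_0^t τ^{-p} = t^{1-p}/(1-p)` (`integral_rpow`). -/
theorem FlS.y_sup (G : Geo H) (hBig : G.Big) (hT : G.TFex) : ∃ C, 0 ≤ C ∧ ∀ {N : ℕ} {A : ℝ → ℝ} {b : ℝ}
    {B : Bg H} {x : ℝ → HH H × HH H} (_ : FlS G N A b B x) (_ : b ≤ 1) {t : ℝ} (_ : t ∈ Icc 0 b)
    {Y Q a k0 k1 : ℝ} (_ : ∀ r ∈ Icc 0 t, ‖LT G.ω G.lam (3 / 8) (G.gV B r (x r))‖ ≤ Y)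
    (_ : ∀ r ∈ Icc 0 t, ‖G.qh (x r)‖ ≤ Q) (_ : ∀ r ∈ Icc 0 t, A r ≤ a)
    (_ : ∀ r ∈ Icc 0 t, ‖Ms (rc (chF (G.ω * N) (A r)) (chF_c _ _)) (G.VV B r (x r))‖ ≤ k0)
    (_ : ∀ r ∈ Icc 0 t, ‖Ms (B.κ r) (G.VV B r (x r))‖ ≤ k1),
    ‖LT G.ω G.lam (3 / 8) (G.gV B t (x t))‖ ≤ ‖LT G.ω G.lam (3 / 8) (G.gV B 0 (x 0))‖ +
      C * (t ^ (1 / 16 : ℝ) * (Y ^ 2 + Y * Q + Q + a) +
        (G.ω * N * t ^ (13 / 16 : ℝ) + t ^ (5 / 16 : ℝ)) * k0 + t ^ (13 / 16 : ℝ) * k1) := by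
  obtain ⟨Cy, hCy, hyi⟩ := Geo.Sol.y_int G hBig hT
  obtain ⟨Ct, hCt, ht'⟩ := hT
  obtain ⟨Cu, hCu, hu⟩ := U_bd G
  obtain ⟨Cr, hCr, htr⟩ := FlS.trn_le (G := G)
  refine ⟨16 * Cy * (1 + Cr) + 8 * (Cu * Ct) + 2 * Ct, by positivity, ?_⟩
  intro N A b B x h hb t ht Y Q a k0 k1 hY hQ ha hk0 hk1
  have z0 : (0:ℝ) ∈ Icc 0 t := ⟨le_rfl, ht.1⟩
  have hst : Icc 0 t ⊆ Icc 0 b := Icc_subset_Icc le_rfl ht.2
  have Y0 : 0 ≤ Y := (norm_nonneg _).trans (hY 0 z0)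
  have Q0 : 0 ≤ Q := (norm_nonneg _).trans (hQ 0 z0)
  have a0 : 0 ≤ a := (h.A0 0 (hst z0)).trans (ha 0 z0)
  have k00 : 0 ≤ k0 := (norm_nonneg _).trans (hk0 0 z0)
  have k10 : 0 ≤ k1 := (norm_nonneg _).trans (hk1 0 z0)
  have hm0 : 0 ≤ G.ω * N := mul_nonneg G.ω_pos.le (Nat.cast_nonneg N)
  obtain ⟨c1, hc1⟩ : ∃ c : ℝ, c = Cu * Ct * (G.ω * N) * k0 + Ct * k1 := ⟨_, rfl⟩
  obtain ⟨c2, hc2⟩ : ∃ c : ℝ, c = 2 * Cu * Ct * k0 := ⟨_, rfl⟩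
  have c10 : 0 ≤ c1 := by
    rw [hc1]
    exact add_nonneg (mul_nonneg (mul_nonneg (mul_nonneg hCu hCt) hm0) k00) (mul_nonneg hCt k10)
  have c20 : 0 ≤ c2 := by
    rw [hc2]
    exact mul_nonneg (mul_nonneg (mul_nonneg zero_le_two hCu) hCt) k00
  have key : ∀ r ∈ Ico 0 t, ∀ ψ : HH H,
      ‖bf G.ω (⇑(Ms G.ζ (cm G.a (G.gV B r (x r))))) (hf G.lam (B.ve r)) (hf G.lam (B.we r))
          (⇑(TT G.ω (G.Qd (HS G.D.K (t - r) ψ)))) -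
        ⟪TT G.ω (G.Qd (HS G.D.K (t - r) ψ)), Ms (B.κ r) (G.VV B r (x r))⟫_ℂ +
        ⟪TT G.ω (G.Qd (HS G.D.K (t - r) ψ)), B.fc r⟫_ℂ‖ ≤
      (c1 * (t - r) ^ (-(3 / 16) : ℝ) + c2 * (t - r) ^ (-(11 / 16) : ℝ)) *
        N2 G.lam (-(3 / 8)) ψ := by
    intro r hr ψ
    have hrI : r ∈ Icc 0 t := ⟨hr.1, hr.2.le⟩
    have hrb := hst hrI
    have hτ : 0 < t - r := sub_pos.2 hr.2
    have hτ1 : t - r ≤ 1 := by
      have e1 := ht.2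
      have e2 := hr.1
      linarith
    obtain ⟨f1, f2, tf⟩ := ht' (t - r) hτ hτ1 ψ
    have eT : (⇑(TT G.ω (G.Qd (HS G.D.K (t - r) ψ))) : ℤ → Z2 H) =
        io (Vf G.ω (⇑(G.Qd (HS G.D.K (t - r) ψ)))) := Tc_io _ _
    have nT : ‖TT G.ω (G.Qd (HS G.D.K (t - r) ψ))‖ =
        N2 G.lam 0 (io (Vf G.ω (⇑(G.Qd (HS G.D.K (t - r) ψ))))) := by
      rw [← eT]; exact (S2l2 _).2.symm
    have sf1 : S2 G.lam 1 (io (Vf G.ω (⇑(G.Qd (HS G.D.K (t - r) ψ))))) :=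
      (S2_mono G.lw.h1 (by norm_num) tf.s0).1
    have s1 : S2 G.lam 0 (io f1) := (S2_mono G.lw.h1 (by norm_num) tf.s1).1
    have eV : hf G.lam (B.ve r) = cellV (G.ω * N) N (A r) := funext (h.ve r hrb)
    have eW : hf G.lam (B.we r) = cellW (G.ω * N) N (A r) := funext (h.we r hrb)
    rw [eV, eW, eT, h.fc r hrb, inner_zero_right, add_zero]
    have bU := hu N h.N1 (h.A0 r hrb) (G.gV B r (x r)) tf.d1 tf.z0 sf1 s1
    have bK : ‖⟪TT G.ω (G.Qd (HS G.D.K (t - r) ψ)), Ms (B.κ r) (G.VV B r (x r))⟫_ℂ‖ ≤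
        N2 G.lam 0 (io (Vf G.ω (⇑(G.Qd (HS G.D.K (t - r) ψ))))) *
          ‖Ms (B.κ r) (G.VV B r (x r))‖ := by
      rw [← nT]; exact norm_inner_le_norm _ _
    refine (norm_sub_le _ _).trans ?_
    rw [hc1, hc2]
    exact yi_alg hCu hm0 tf.nn (Real.rpow_nonneg hτ.le _) (Real.rpow_nonneg hτ.le _)
      (norm_nonneg _) (norm_nonneg _) (hk0 r hrI) (hk1 r hrI) tf.b00 tf.b01 tf.b10 bU bK
  have hE : 0 ≤ Y ^ 2 + Y * Q + Cr * (Q + a) := by positivity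
  obtain ⟨hwI, hint⟩ := yi_time (t := t) (c1 := c1) (c2 := c2) (Cy := Cy)
    (E := Y ^ 2 + Y * Q + Cr * (Q + a)) ht.1 c10 c20 hCy hE
    (w := fun r => c1 * (t - r) ^ (-(3 / 16) : ℝ) + c2 * (t - r) ^ (-(11 / 16) : ℝ))
    (F := fun r => ‖LT G.ω G.lam (3 / 8) (G.gV B r (x r))‖ ^ 2 +
          ‖LT G.ω G.lam (3 / 8) (G.gV B r (x r))‖ * ‖G.qh (x r)‖ + trn G.ω (G.gV B r (x r)))
    (fun r => rfl) (fun r hr => by
      have e1 := hY r hr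
      have e2 := hQ r hr
      have e3 := htr h r (hst hr)
      have e4 := ha r hr
      have e5 : ‖LT G.ω G.lam (3 / 8) (G.gV B r (x r))‖ ^ 2 ≤ Y ^ 2 :=
        pow_le_pow_left₀ (norm_nonneg _) e1 2
      have e6 : ‖LT G.ω G.lam (3 / 8) (G.gV B r (x r))‖ * ‖G.qh (x r)‖ ≤ Y * Q :=
        mul_le_mul e1 e2 (norm_nonneg _) Y0
      have e7 : trn G.ω (G.gV B r (x r)) ≤ Cr * (Q + a) :=
        e3.trans (mul_le_mul_of_nonneg_left (add_le_add e2 e4) hCr)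
      exact add_le_add (add_le_add e5 e6) e7)
  have hmain := hyi h.sol h.cont h.lift h.okt ht (by
    have := ht.2
    linarith) hwI key
  refine hmain.trans (add_le_add le_rfl (hint.trans ?_))
  rw [hc1, hc2]
  exact yi_fin hCu hCt hCy hCr hm0 k00 k10 Y0 Q0 a0 (Real.rpow_nonneg ht.1 _)
    (Real.rpow_nonneg ht.1 _) (Real.rpow_nonneg ht.1 _)

end

end Pool.Agent.Lib.MP_79abb3_an.SC
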