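import Pool.Agent.Lib.MP_79abb3_an.FW.ApA
import Pool.Agent.Lib.MP_79abb3_an.SC.FlK
import Pool.Agent.Lib.MP_79abb3_an.SC.FlQe
import Pool.Agent.Lib.MP_79abb3_an.SC.FlV
import Pool.Agent.Lib.MP_79abb3_an.SC.FlYi

/-!
MP_79abb3_an, simply connected domains, block (iii): the a priori bounds of the flushing phase.
-/

set_option autoImplicit false
set_option linter.unusedSectionVars false

open MeasureTheory Set Filter Topology Function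
open scoped ENNReal InnerProductSpace

namespace Pool.Agent.Lib.MP_79abb3_an.SC

open Pool.Agent.Lib.MP_79abb3_an.P25 Pool.Agent.Lib.MP_79abb3_an.FW

section
variable {H : ℝ} [hH : Fact (0 < H)]

private theorem flap_TT (G : Geo H) (g : HH H) : ‖TT G.ω g‖ ≤ ‖LT G.ω G.lam (3 / 8) g‖ := by
  have h := G.lamOK
  refine (sq_le_sq₀ (norm_nonneg _) (norm_nonneg _)).1 ?_
  rw [l2_norm_sq, l2_norm_sq]
  refine (l2_summable _).tsum_le_tsum (fun n => ?_) (l2_summable _)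
  rw [h.LT_apply (by norm_num), norm_smul, Complex.norm_real,
    Real.norm_of_nonneg (Real.rpow_nonneg (by linarith [h.one n]) _), TT_apply, mul_pow]
  have h1 : 1 ≤ G.lam n ^ (3 / 8 : ℝ) := Real.one_le_rpow (h.one n) (by norm_num)
  exact le_mul_of_one_le_left (sq_nonneg _) (one_le_pow₀ h1)

/-- the additional term of the y-inequality tends to zero -/
private theorem flap_tend (K Q S : ℝ) :
    Tendsto (fun m : ℝ => K * (m ^ (-(1 / 8 : ℝ)) * (1 + 2 * Q + A0 m) +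
      3 * (S * Real.exp (-(√m / 2))))) atTop (𝓝 0) := by
  have h1 : Tendsto (fun m : ℝ => m ^ (-(1 / 8 : ℝ))) atTop (𝓝 0) :=
    tendsto_rpow_neg_atTop (by norm_num)
  have hs : Tendsto (fun m : ℝ => √m) atTop atTop := Real.tendsto_sqrt_atTop
  have h2 : Tendsto (fun m : ℝ => A0 m) atTop (𝓝 0) := by
    have h3 : Tendsto (fun m : ℝ => 32 * ((√m) ^ 2 * Real.exp (-√m))) atTop (𝓝 (32 * 0)) :=
      ((Real.tendsto_pow_mul_exp_neg_atTop_nhds_zero 2).comp hs).const_mul 32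
    rw [mul_zero] at h3
    refine h3.congr' ?_
    filter_upwards [eventually_ge_atTop (0:ℝ)] with m hm
    rw [Real.sq_sqrt hm]
    unfold A0
    ring
  have h4 : Tendsto (fun m : ℝ => Real.exp (-(√m / 2))) atTop (𝓝 0) := by
    have h5 : Tendsto (fun m : ℝ => √m / 2) atTop atTop := hs.atTop_div_const (by norm_num)
    exact Real.tendsto_exp_neg_atTop_nhds_zero.comp h5
  have h6 : Tendsto (fun m : ℝ => K * (m ^ (-(1 / 8 : ℝ)) * (1 + 2 * Q + A0 m) +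
      3 * (S * Real.exp (-(√m / 2))))) atTop (𝓝 (K * (0 * (1 + 2 * Q + 0) + 3 * (S * 0)))) :=
    ((h1.mul (tendsto_const_nhds.add h2)).add ((h4.const_mul S).const_mul 3)).const_mul K
  have e : K * (0 * (1 + 2 * Q + 0) + 3 * (S * 0)) = 0 := by ring
  rwa [e] at h6

/-- the real variable part of the y-inequality -/
private theorem flap_real {K Q a m t k : ℝ} (hK : 0 ≤ K) (hQ : 0 ≤ Q) (ha : 0 ≤ a) (hm : 1 ≤ m)
    (hk : 0 ≤ k) (ht0 : 0 ≤ t) (ht : t ≤ 1 / (8 * m ^ 2)) :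
    K * (t ^ (1 / 16 : ℝ) * (1 ^ 2 + 1 * Q + Q + a) + (m * t ^ (13 / 16 : ℝ) + t ^ (5 / 16 : ℝ)) * k +
      t ^ (13 / 16 : ℝ) * k) ≤ K * (m ^ (-(1 / 8 : ℝ)) * (1 + 2 * Q + a) + 3 * k) := by
  have m0 : 0 < m := by linarith
  have hm2 : (1:ℝ) ≤ m ^ 2 := one_le_pow₀ hm
  have ht2 : t ≤ (m ^ 2)⁻¹ := by
    refine ht.trans ?_
    rw [one_div]
    exact inv_anti₀ (by positivity) (by linarith)
  have ht1 : t ≤ 1 := ht2.trans (inv_le_one_of_one_le₀ hm2)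
  have e1 : t ^ (1 / 16 : ℝ) ≤ m ^ (-(1 / 8 : ℝ)) := by
    have h1 : t ^ (1 / 16 : ℝ) ≤ ((m ^ 2)⁻¹) ^ (1 / 16 : ℝ) :=
      Real.rpow_le_rpow ht0 ht2 (by norm_num)
    have h2 : ((m ^ 2)⁻¹) ^ (1 / 16 : ℝ) = m ^ (-(1 / 8 : ℝ)) := by
      rw [← Real.rpow_natCast m 2, ← Real.rpow_neg m0.le, ← Real.rpow_mul m0.le]
      norm_num
    rwa [h2] at h1
  have e2 : m * t ^ (13 / 16 : ℝ) ≤ 1 := by
    have h1 : t ^ (13 / 16 : ℝ) ≤ t ^ (1 / 2 : ℝ) :=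
      Real.rpow_le_rpow_of_exponent_ge' ht0 ht1 (by norm_num) (by norm_num)
    have h2 : t ^ (1 / 2 : ℝ) ≤ ((m ^ 2)⁻¹) ^ (1 / 2 : ℝ) :=
      Real.rpow_le_rpow ht0 ht2 (by norm_num)
    have h3 : ((m ^ 2)⁻¹) ^ (1 / 2 : ℝ) = m⁻¹ := by
      rw [← inv_pow, ← Real.sqrt_eq_rpow, Real.sqrt_sq (by positivity)]
    rw [h3] at h2
    calc m * t ^ (13 / 16 : ℝ) ≤ m * m⁻¹ := mul_le_mul_of_nonneg_left (h1.trans h2) m0.le
      _ = 1 := mul_inv_cancel₀ m0.ne'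
  have e3 : t ^ (5 / 16 : ℝ) ≤ 1 := Real.rpow_le_one ht0 ht1 (by norm_num)
  have e4 : t ^ (13 / 16 : ℝ) ≤ 1 := Real.rpow_le_one ht0 ht1 (by norm_num)
  refine mul_le_mul_of_nonneg_left ?_ hK
  have f1 : t ^ (1 / 16 : ℝ) * (1 ^ 2 + 1 * Q + Q + a) ≤ m ^ (-(1 / 8 : ℝ)) * (1 + 2 * Q + a) := by
    have e : (1:ℝ) ^ 2 + 1 * Q + Q + a = 1 + 2 * Q + a := by ring
    rw [e]
    exact mul_le_mul_of_nonneg_right e1 (by positivity)
  have f2 : (m * t ^ (13 / 16 : ℝ) + t ^ (5 / 16 : ℝ)) * k ≤ (1 + 1) * k :=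
    mul_le_mul_of_nonneg_right (add_le_add e2 e3) hk
  have f3 : t ^ (13 / 16 : ℝ) * k ≤ 1 * k := mul_le_mul_of_nonneg_right e4 hk
  linarith

private theorem flap_sqrt {x C m : ℝ} (hC : 0 ≤ C) (hx : 0 ≤ x) (h : x ^ 2 ≤ C * Real.exp (-√m)) :
    x ≤ √C * Real.exp (-(√m / 2)) := by
  refine (sq_le_sq₀ hx (by positivity)).1 ?_
  rw [mul_pow, Real.sq_sqrt hC, ← Real.exp_nat_mul]
  have e : ((2:ℕ) : ℝ) * -(√m / 2) = -√m := by push_cast; ring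
  rw [e]
  exact h

private theorem flap_q {D C m t Θ y0 yt I J : ℝ} (hm : 1 ≤ m) (hmC : 2 * C ≤ m) (hC : 0 ≤ C)
    (ht0 : 0 ≤ t) (ht : t ≤ 1 / (8 * m ^ 2)) (hD : D = C * Real.exp (-√m)) (hJ : J ≤ D * t)
    (h0 : 0 ≤ y0) (hy0 : y0 ≤ Θ) (h : yt + I ≤ y0 ^ 2 + 9 * J) : yt + I ≤ Θ ^ 2 + 1 := by
  have h1 : D ≤ C := by
    rw [hD]
    refine mul_le_of_le_one_right hC ?_
    rw [Real.exp_le_one_iff]
    have := Real.sqrt_nonneg m
    linarith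
  have h2 : D * t ≤ C * (1 / (8 * m ^ 2)) := by
    refine (mul_le_mul_of_nonneg_right h1 ht0).trans (mul_le_mul_of_nonneg_left ht hC)
  have h3 : C * (1 / (8 * m ^ 2)) ≤ 1 / 16 := by
    rw [mul_one_div, div_le_div_iff₀ (by positivity) (by norm_num)]
    nlinarith
  have h4 : y0 ^ 2 ≤ Θ ^ 2 := pow_le_pow_left₀ h0 hy0 2
  linarith

/-- The bounds of the flushing phase at time `t`. -/
structure APb (G : Geo H) (N : ℕ) (Θ C ε : ℝ) (B : Bg H) (x : ℝ → HH H × HH H) (t : ℝ) : Prop where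
  y : ‖LT G.ω G.lam (3 / 8) (G.gV B t (x t))‖ ≤ ‖LT G.ω G.lam (3 / 8) (G.gV B 0 (x 0))‖ + ε
  y1 : ‖LT G.ω G.lam (3 / 8) (G.gV B t (x t))‖ ≤ 1
  q : ‖cm G.b (G.qL (x t).1)‖ ^ 2 + ∫ r in (0:ℝ)..t, ‖(x r).1‖ ^ 2 ≤ Θ ^ 2 + 1
  k1 : ‖Ms (B.κ t) (G.VV B t (x t))‖ ^ 2 ≤ C * Real.exp (-√(G.ω * N))
  k2 : ‖Ms (rc (fun z : ℝ => muu (G.ω * N) * Real.cosh (G.ω * (N : ℝ) * z)) (by fun_prop))
    (Ms (B.κ t) (G.VV B t (x t)))‖ ^ 2 ≤ C * Real.exp (-√(G.ω * N))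

/-- **A priori bounds.** Proof: `FW.boot` with `F = y` (`p = 1`, `p' = 1/2`) and
`G = ‖cm b q‖²` (`q = Θ² + 2`, `q' = Θ² + 1`). Let the bounds `p, q` hold on `[0,t]`, use
`h.restrict`: `‖qh‖ ≤ C ‖cm b q‖ =: Q` (`Geo.b_equiv`, `norm_cm_apply_le`, `norm_Ms_apply_le`);
`FlS.V_bound` gives `‖th V‖² ≤ C₁(Θ)`; `kap_bd` with `C = G.Ck` (`h.κ`, `G.kF m α z = G.Ck * chF m α z ^ 2`)
gives the bounds of `K₀, K₁, K₂` with `C = 1 + C₁` (`‖V‖ ≤ ‖Λ^{3/8} V‖ ≤ 1`); `FlS.q_energy` and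
`9 t C e^{-√m} ≤ 1`; `FlS.y_sup` with `t ≤ 1/(8m²)`, `a = A0 m`, `m k0 ≤ √C e^{-√m/2}`: the additional term
tends to `0` as `m → ∞`. `C` only depends on `G`, `Θ`. -/
theorem FlS.apriori (G : Geo H) (hBig : G.Big) (hT : G.TFex) {Θ : ℝ} (hΘ : 0 ≤ Θ) :
    ∃ C, 0 ≤ C ∧ ∀ ε, 0 < ε → ∃ m0, 1 ≤ m0 ∧ ∀ {N : ℕ} {A : ℝ → ℝ} {b : ℝ} {B : Bg H}
    {x : ℝ → HH H × HH H} (_ : FlS G N A b B x) (_ : m0 ≤ G.ω * N) (_ : b ≤ 1 / (8 * (G.ω * N) ^ 2))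
    (_ : ∀ t ∈ Icc 0 b, A t ≤ FW.A0 (G.ω * N)) (_ : ‖cm G.b (G.qL (x 0).1)‖ ≤ Θ)
    (_ : ‖Ms (rc (tht (zl (G.ω * N)) (4 * (G.ω * N))) (tht_cont _ _)) (G.VV B 0 (x 0))‖ ≤ 1)
    (_ : ‖LT G.ω G.lam (3 / 8) (G.gV B 0 (x 0))‖ ≤ 1 / 4), ∀ t ∈ Icc 0 b, APb G N Θ C ε B x t := by
  obtain ⟨Cb, hCb1, hCb⟩ := G.b_equiv
  obtain ⟨Cv, hCv1, hCv⟩ := FlS.V_bound G
  obtain ⟨Cy, hCy0, hCy⟩ := FlS.y_sup G hBig hT
  obtain ⟨mk, hmk1, hmk⟩ := kap_bd (H := H) G.Ck G.Ck_nonneg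
  have hsJ : Summable fun n => ‖G.J n‖ := G.hJ.c.s0
  have hJ0 : 0 ≤ ∑' n, ‖G.J n‖ := tsum_nonneg fun _ => norm_nonneg _
  obtain ⟨Q, hQd⟩ : ∃ Q, Q = ‖G.ζ‖ * ((∑' n, ‖G.J n‖) * (Cb * (Θ + 2))) := ⟨_, rfl⟩
  have hQ0 : 0 ≤ Q := by rw [hQd]; positivity
  obtain ⟨C1, hC1d⟩ : ∃ C1, C1 = Cv * Real.exp (Cv * Q ^ 4) * (1 + 1) := ⟨_, rfl⟩
  have hC10 : 0 ≤ C1 := by rw [hC1d]; positivity
  refine ⟨1 + C1, by linarith, fun ε hε => ?_⟩
  have hC0 : 0 ≤ 1 + C1 := by linarith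
  have hδ : 0 < min ε (1 / 4) := lt_min hε (by norm_num)
  obtain ⟨mt, hmt⟩ := eventually_atTop.1
    ((flap_tend Cy Q (√(1 + C1))).eventually (gt_mem_nhds hδ))
  refine ⟨max (max mk mt) (2 * (1 + C1)), hmk1.trans ((le_max_left _ _).trans (le_max_left _ _)), ?_⟩
  intro N A b B x h hm hb hA hq0 hV0 hy0
  have hm1 : mk ≤ G.ω * N := ((le_max_left _ _).trans (le_max_left _ _)).trans hm
  have hm2 : mt ≤ G.ω * N := ((le_max_right _ _).trans (le_max_left _ _)).trans hm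
  have hm3 : 2 * (1 + C1) ≤ G.ω * N := (le_max_right _ _).trans hm
  obtain ⟨m, hmd⟩ : ∃ m, m = G.ω * N := ⟨_, rfl⟩
  rw [← hmd] at hm1 hm2 hm3 hb hA hV0
  have hm0 : 1 ≤ m := hmk1.trans hm1
  -- the main step
  have core : ∀ t ∈ Icc 0 b, (∀ s ∈ Icc 0 t, ‖LT G.ω G.lam (3 / 8) (G.gV B s (x s))‖ ≤ 1 ∧
      ‖cm G.b (G.qL (x s).1)‖ ^ 2 ≤ Θ ^ 2 + 2) →
      ‖LT G.ω G.lam (3 / 8) (G.gV B t (x t))‖ ≤
        ‖LT G.ω G.lam (3 / 8) (G.gV B 0 (x 0))‖ + min ε (1 / 4) ∧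
      ‖cm G.b (G.qL (x t).1)‖ ^ 2 + ∫ r in (0:ℝ)..t, ‖(x r).1‖ ^ 2 ≤ Θ ^ 2 + 1 ∧
      ‖Ms (B.κ t) (G.VV B t (x t))‖ ^ 2 ≤ (1 + C1) * Real.exp (-√m) ∧
      ‖Ms (rc (fun z : ℝ => muu m * Real.cosh (m * z)) (by fun_prop))
        (Ms (B.κ t) (G.VV B t (x t)))‖ ^ 2 ≤ (1 + C1) * Real.exp (-√m) := by
    intro t ht hs
    have h' : FlS G N A t B x := h.restrict ht.1 ht.2
    have htb : t ≤ 1 / (8 * m ^ 2) := ht.2.trans hb
    have hmem : ∀ s ∈ Icc 0 t, s ∈ Icc 0 b := fun s hs => ⟨hs.1, hs.2.trans ht.2⟩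
    -- the bound of `qh`
    have hqh : ∀ s ∈ Icc 0 t, ‖G.qh (x s)‖ ≤ Q := by
      intro s hst
      have h1 : ‖cm G.b (G.qL (x s).1)‖ ≤ Θ + 2 := by
        refine (sq_le_sq₀ (norm_nonneg _) (by linarith)).1 ?_
        have := (hs s hst).2
        nlinarith
      have h2 : ‖G.qL (x s).1‖ ≤ Cb * (Θ + 2) :=
        (hCb _).1.trans (mul_le_mul_of_nonneg_left h1 (by linarith))
      have h3 : ‖cm G.J (G.qL (x s).1)‖ ≤ (∑' n, ‖G.J n‖) * (Cb * (Θ + 2)) :=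
        (norm_cm_apply_le hsJ _).trans (mul_le_mul_of_nonneg_left h2 hJ0)
      rw [hQd]
      exact (norm_Ms_apply_le _ _).trans (mul_le_mul_of_nonneg_left h3 (norm_nonneg _))
    -- the weighted energy of `V`
    have hVt : ∀ s ∈ Icc 0 t,
        ‖Ms (rc (tht (zl m) (4 * m)) (tht_cont _ _)) (G.VV B s (x s))‖ ^ 2 ≤ C1 := by
      intro s hst
      have h1 := hCv h' (by rw [← hmd]; exact hm0) (by rw [← hmd]; exact htb) hqh
        (fun r hr => (hs r hr).1) s hst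
      rw [← hmd] at h1
      refine h1.trans ?_
      rw [hC1d]
      refine mul_le_mul_of_nonneg_left ?_ (by positivity)
      have h2 := pow_le_pow_left₀ (norm_nonneg _) hV0 2
      rw [one_pow] at h2
      linarith
    have hV1 : ∀ s ∈ Icc 0 t, ‖G.VV B s (x s)‖ ^ 2 ≤ 1 := by
      intro s hst
      have h1 : ‖G.VV B s (x s)‖ ≤ 1 := (flap_TT G _).trans (hs s hst).1
      exact pow_le_one₀ (norm_nonneg _) h1
    -- the exponentially small quantities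
    have hexp : 0 ≤ Real.exp (-√m) := (Real.exp_pos _).le
    have hsum : ∀ s ∈ Icc 0 t, Real.exp (-√m) * (‖G.VV B s (x s)‖ ^ 2 +
        ‖Ms (rc (tht (zl m) (4 * m)) (tht_cont _ _)) (G.VV B s (x s))‖ ^ 2) ≤
        (1 + C1) * Real.exp (-√m) := by
      intro s hst
      rw [mul_comm]
      exact mul_le_mul_of_nonneg_right (add_le_add (hV1 s hst) (hVt s hst)) hexp
    have hAs : ∀ s ∈ Icc 0 t, A s ∈ Icc 0 (FW.A0 m) := fun s hst =>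
      ⟨h.A0 s (hmem s hst), hA s (hmem s hst)⟩
    have hκ : ∀ s ∈ Icc 0 t, B.κ s =
        rc (fun z => G.Ck * chF m (A s) z ^ 2) (continuous_const.mul ((chF_c m (A s)).pow 2)) := by
      intro s hst
      rw [h.κ s (hmem s hst), hmd]
      rfl
    have k0 : ∀ s ∈ Icc 0 t, ‖Ms (rc (chF m (A s)) (chF_c _ _)) (G.VV B s (x s))‖ ^ 2 ≤
        (1 + C1) * Real.exp (-√m) := by
      intro s hst
      have h1 := (hmk m hm1 (A s) (hAs s hst) (G.VV B s (x s))).1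
      refine le_trans ?_ (h1.trans (hsum s hst))
      exact le_mul_of_one_le_left (sq_nonneg _) (one_le_pow₀ hm0)
    have k1 : ∀ s ∈ Icc 0 t, ‖Ms (B.κ s) (G.VV B s (x s))‖ ^ 2 ≤ (1 + C1) * Real.exp (-√m) := by
      intro s hst
      rw [hκ s hst]
      exact (hmk m hm1 (A s) (hAs s hst) (G.VV B s (x s))).2.1.trans (hsum s hst)
    have k2 : ∀ s ∈ Icc 0 t, ‖Ms (rc (fun z : ℝ => muu m * Real.cosh (m * z)) (by fun_prop))
        (Ms (B.κ s) (G.VV B s (x s)))‖ ^ 2 ≤ (1 + C1) * Real.exp (-√m) := by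
      intro s hst
      rw [hκ s hst, Ms_Ms, mul_comm, rc_mul_rc]
      exact (hmk m hm1 (A s) (hAs s hst) (G.VV B s (x s))).2.2.trans (hsum s hst)
    have htt : t ∈ Icc 0 t := right_mem_Icc.2 ht.1
    refine ⟨?_, ?_, k1 t htt, k2 t htt⟩
    · -- the y-inequality
      have hm2' : (1:ℝ) ≤ 8 * m ^ 2 := by
        have : (1:ℝ) ≤ m ^ 2 := one_le_pow₀ hm0
        linarith
      have ht1 : t ≤ 1 := htb.trans (by rw [one_div]; exact inv_le_one_of_one_le₀ hm2')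
      have h1 := hCy h' ht1 htt (Y := 1) (Q := Q) (a := FW.A0 m)
        (k0 := √(1 + C1) * Real.exp (-(√m / 2))) (k1 := √(1 + C1) * Real.exp (-(√m / 2)))
        (fun r hr => (hs r hr).1) hqh (fun r hr => (hAs r hr).2)
        (fun r hr => by
          rw [← hmd]
          exact flap_sqrt hC0 (norm_nonneg _) (k0 r hr))
        (fun r hr => flap_sqrt hC0 (norm_nonneg _) (k1 r hr))
      rw [← hmd] at h1
      have hA00 : 0 ≤ FW.A0 m := (hAs t htt).1.trans (hAs t htt).2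
      have h2 := flap_real (K := Cy) (Q := Q) (a := FW.A0 m) (m := m) (t := t)
        (k := √(1 + C1) * Real.exp (-(√m / 2))) hCy0 hQ0 hA00 hm0 (by positivity) ht.1 htb
      have h3 := hmt m hm2
      exact h1.trans (add_le_add le_rfl (h2.trans h3.le))
    · -- the energy of `q`
      have h1 := h'.q_energy t htt
      have hJt : ∫ r in (0:ℝ)..t, ‖Ms (B.κ r) (G.VV B r (x r))‖ ^ 2 ≤
          (1 + C1) * Real.exp (-√m) * t := by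
        have h2 : ‖∫ r in (0:ℝ)..t, ‖Ms (B.κ r) (G.VV B r (x r))‖ ^ 2‖ ≤
            (1 + C1) * Real.exp (-√m) * |t - 0| := by
          refine intervalIntegral.norm_integral_le_of_norm_le_const fun r hr => ?_
          rw [uIoc_of_le ht.1] at hr
          rw [Real.norm_of_nonneg (sq_nonneg _)]
          exact k1 r ⟨hr.1.le, hr.2⟩
        rw [sub_zero, abs_of_nonneg ht.1] at h2
        exact (le_abs_self _).trans h2
      exact flap_q hm0 hm3 hC0 ht.1 htb rfl hJt (norm_nonneg _) hq0 h1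
  -- continuity
  have cF : ContinuousOn (fun t => ‖LT G.ω G.lam (3 / 8) (G.gV B t (x t))‖) (Icc 0 b) :=
    ((LT G.ω G.lam (3 / 8)).continuous.comp_continuousOn (Geo.cont_gV h.cont h.sol.cont)).norm
  have cG : ContinuousOn (fun t => ‖cm G.b (G.qL (x t).1)‖ ^ 2) (Icc 0 b) :=
    (((cm G.b ∘L G.qL).continuous.comp_continuousOn
      (continuous_fst.comp_continuousOn h.sol.cont)).norm).pow 2
  have G0 : ‖cm G.b (G.qL (x 0).1)‖ ^ 2 ≤ Θ ^ 2 + 2 := by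
    have := pow_le_pow_left₀ (norm_nonneg _) hq0 2
    linarith
  have hint : ∀ t ∈ Icc 0 b, 0 ≤ ∫ r in (0:ℝ)..t, ‖(x r).1‖ ^ 2 := fun t ht =>
    intervalIntegral.integral_nonneg ht.1 fun _ _ => sq_nonneg _
  have hboot := FW.boot (p := 1) (q := Θ ^ 2 + 2) (p' := 1 / 2) (q' := Θ ^ 2 + 1) cF cG
    (by norm_num) (by linarith) (by linarith) G0 (fun t ht hs => by
      obtain ⟨c1, c2, -, -⟩ := core t ht hs
      have h1 := min_le_right ε (1 / 4 : ℝ)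
      have h2 := hint t ht
      exact ⟨by linarith, by linarith⟩)
  intro t ht
  obtain ⟨c1, c2, c3, c4⟩ := core t ht (fun s hs => by
    have h1 := hboot s ⟨hs.1, hs.2.trans ht.2⟩
    exact ⟨by linarith [h1.1], by linarith [h1.2]⟩)
  have h1 := hboot t ht
  refine ⟨?_, by linarith [h1.1], c2, ?_, ?_⟩
  · have := min_le_left ε (1 / 4 : ℝ)
    linarith
  · rw [← hmd]; exact c3
  · rw [← hmd]; exact c4

end

end Pool.Agent.Lib.MP_79abb3_an.SC
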