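import Pool.Agent.Lib.MP_79abb3_an.SC.FlRl
import Pool.Agent.Lib.MP_79abb3_an.SC.RcA

/-!
MP_79abb3_an, simply connected domains, block (iii): data of the lift of the cell flow.
-/

set_option autoImplicit false
set_option linter.unusedSectionVars false

open MeasureTheory Set Filter Topology Function
open scoped ENNReal InnerProductSpace

namespace Pool.Agent.Lib.MP_79abb3_an.SC

open Pool.Agent.Lib.MP_79abb3_an.P25 Pool.Agent.Lib.MP_79abb3_an.FW

section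
variable {H : ℝ} [hH : Fact (0 < H)]

/-! ### Auxiliary functions -/

private noncomputable def clF : CI H := rc (fun z => 1 - z / H) (by fun_prop)

private noncomputable def clF1 : CI H := rc (fun _ => -(1 / H)) (by fun_prop)

private noncomputable def clc (N : ℕ) (n : ℤ) : ℂ := Complex.I * ((sN N n / 2 : ℝ) : ℂ)

private theorem clF_isD : IsD (clF : CI H) clF1 := by
  intro z hz
  unfold clF1
  rw [ex_rc _ _ hz]
  have h1 : HasDerivAt (fun z : ℝ => 1 - z / H) (-(1 / H)) z := by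
    have := ((hasDerivAt_id z).div_const H).const_sub 1
    simpa using this
  exact (h1.ofReal_comp.hasDerivWithinAt).congr (fun y hy => ex_rc _ _ hy) (ex_rc _ _ hz)

private theorem clF1_isD : IsD (clF1 : CI H) 0 := by
  intro z hz
  have h1 : HasDerivAt (fun _ : ℝ => -(1 / H)) 0 z := hasDerivAt_const _ _
  have h2 : ex (0 : CI H) z = ((0 : ℝ) : ℂ) := by
    rw [Complex.ofReal_zero]
    rfl
  rw [h2]
  exact (h1.ofReal_comp.hasDerivWithinAt).congr (fun y hy => ex_rc _ _ hy) (ex_rc _ _ hz)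

private theorem clc_zero {N : ℕ} {n : ℤ} (h1 : n ≠ N) (h2 : n ≠ -N) : clc N n = 0 := by
  unfold clc
  rw [sN_zero h1 h2, zero_div, Complex.ofReal_zero, mul_zero]

private theorem clc_star {N : ℕ} (hN : 1 ≤ N) (n : ℤ) : clc N (-n) = star (clc N n) := by
  unfold clc
  rw [sN_neg N hN, star_mul', Complex.star_def, Complex.conj_I, Complex.conj_ofReal]
  push_cast
  ring

private theorem cl_sum {E : Type} [NormedAddCommGroup E] {N : ℕ} {x : ℤ → E}
    (h : ∀ n : ℤ, n ≠ N → n ≠ -N → x n = 0) : Summable fun n => ‖x n‖ ^ 2 := by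
  refine summable_of_ne_finset_zero (s := {(N:ℤ), -(N:ℤ)}) ?_
  intro n hn
  simp only [Finset.mem_insert, Finset.mem_singleton, not_or] at hn
  rw [h n hn.1 hn.2]
  simp

private theorem cl_sum1 {E : Type} [NormedAddCommGroup E] {N : ℕ} {x : ℤ → E}
    (h : ∀ n : ℤ, n ≠ N → n ≠ -N → x n = 0) : Summable fun n => ‖x n‖ := by
  refine summable_of_ne_finset_zero (s := {(N:ℤ), -(N:ℤ)}) ?_
  intro n hn
  simp only [Finset.mem_insert, Finset.mem_singleton, not_or] at hn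
  rw [h n hn.1 hn.2]
  simp

private noncomputable def clp (N : ℕ) (n : ℤ) : Z2 H := clc N n • (iota (clF : CI H) : Z2 H)

private noncomputable def clp1 (N : ℕ) (n : ℤ) : Z2 H := clc N n • (iota (clF1 : CI H) : Z2 H)

private theorem clp_zero {N : ℕ} {n : ℤ} (h1 : n ≠ N) (h2 : n ≠ -N) : (clp N n : Z2 H) = 0 := by
  unfold clp
  rw [clc_zero h1 h2, zero_smul]

private theorem clp1_zero {N : ℕ} {n : ℤ} (h1 : n ≠ N) (h2 : n ≠ -N) : (clp1 N n : Z2 H) = 0 := by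
  unfold clp1
  rw [clc_zero h1 h2, zero_smul]

private theorem clp_star {N : ℕ} (hN : 1 ≤ N) (n : ℤ) : (clp N (-n) : Z2 H) = cz (clp N n) := by
  unfold clp
  rw [clc_star hN, cz_smul, cz_iota]
  unfold clF
  rw [star_rc]

private theorem clp1_star {N : ℕ} (hN : 1 ≤ N) (n : ℤ) :
    (clp1 N (-n) : Z2 H) = cz (clp1 N n) := by
  unfold clp1
  rw [clc_star hN, cz_smul, cz_iota]
  unfold clF1
  rw [star_rc]

private theorem cz_sub' (f g : Z2 H) : cz (f - g) = cz f - cz g := by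
  have h1 : f - g = f + (-1 : ℂ) • g := by
    rw [neg_one_smul, sub_eq_add_neg]
  rw [h1, cz_add, cz_smul, star_neg, star_one, neg_one_smul, sub_eq_add_neg]

private noncomputable def clP (N : ℕ) : HH H := mk2 (clp N) (cl_sum fun _ h1 h2 => clp_zero h1 h2)

private noncomputable def clP1 (N : ℕ) : HH H :=
  mk2 (clp1 N) (cl_sum fun _ h1 h2 => clp1_zero h1 h2)

private noncomputable def clg (ω : ℝ) (N : ℕ) (n : ℤ) : Z2 H :=
  ((|ω * n| : ℝ) : ℂ) • clp N n - clp1 N n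

private noncomputable def clg1 (ω : ℝ) (N : ℕ) (n : ℤ) : Z2 H := ((|ω * n| : ℝ) : ℂ) • clp1 N n

private noncomputable def clg2 (ω : ℝ) (N : ℕ) (n : ℤ) : Z2 H :=
  ((|ω * n| : ℝ) : ℂ) • clg ω N n

private theorem clg_zero {ω : ℝ} {N : ℕ} {n : ℤ} (h1 : n ≠ N) (h2 : n ≠ -N) :
    (clg ω N n : Z2 H) = 0 := by
  unfold clg
  rw [clp_zero h1 h2, clp1_zero h1 h2, smul_zero, sub_zero]

private noncomputable def clG (ω : ℝ) (N : ℕ) : HH H :=
  mk2 (clg ω N) (cl_sum fun _ h1 h2 => clg_zero h1 h2)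

private noncomputable def clG1 (ω : ℝ) (N : ℕ) : HH H :=
  mk2 (clg1 ω N) (cl_sum fun _ h1 h2 => by unfold clg1; rw [clp1_zero h1 h2, smul_zero])

private noncomputable def clG2 (ω : ℝ) (N : ℕ) : HH H :=
  mk2 (clg2 ω N) (cl_sum fun _ h1 h2 => by unfold clg2; rw [clg_zero h1 h2, smul_zero])

private theorem clDZ (N : ℕ) (n : ℤ) : DZ (clc N n • (clF : CI H)) (clp1 N n) :=
  (IsD.dz clF_isD).smul _

private theorem clTz (ω : ℝ) (N : ℕ) (n : ℤ) :
    clc N n • (clF : CI H) = Tz (ω * n) (clg ω N n) := by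
  refine Tz_unique ?_ ?_
  · have h1 : ((|ω * n| : ℝ) : ℂ) • (iota (clc N n • (clF : CI H)) : Z2 H) - clg ω N n =
        clp1 N n := by
      unfold clg clp
      rw [map_smul]
      abel
    rw [h1]
    exact clDZ N n
  · rw [ex_smul]
    unfold clF
    rw [ex_rc _ _ H_memI, div_self hH.out.ne', sub_self, Complex.ofReal_zero, mul_zero]

private theorem clDH (ω : ℝ) (N : ℕ) : DH (clG ω N : HH H) (clG1 ω N) := by
  intro n
  refine ⟨((|ω * n| : ℝ) : ℂ) • (clc N n • (clF : CI H)) - clc N n • (clF1 : CI H), ?_, ?_⟩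
  · show clg ω N n = _
    unfold clg clp clp1
    rw [map_sub, map_smul, map_smul, map_smul]
  · show DZ _ (clg1 ω N n)
    have h1 : DZ (clc N n • (clF1 : CI H)) (clc N n • (iota (0 : CI H) : Z2 H)) :=
      (IsD.dz clF1_isD).smul _
    have h2 := ((clDZ (H := H) N n).smul ((|ω * n| : ℝ) : ℂ)).sub h1
    rw [map_zero, smul_zero, sub_zero] at h2
    exact h2

private theorem clDk (ω : ℝ) (N : ℕ) : Dk ω (clG ω N : HH H) (clG2 ω N) := fun _ => rfl

private theorem clg_star {ω : ℝ} {N : ℕ} (hN : 1 ≤ N) (n : ℤ) :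
    (clg ω N (-n) : Z2 H) = cz (clg ω N n) := by
  unfold clg
  have h1 : |ω * ((-n : ℤ) : ℝ)| = |ω * n| := by
    push_cast
    rw [mul_neg, abs_neg]
  rw [h1, clp_star hN, clp1_star hN, cz_sub', cz_smul, Complex.star_def, Complex.conj_ofReal]

private theorem Rl_clP {N : ℕ} (hN : 1 ≤ N) : Rl (clP N : HH H) := fun n => clp_star hN n

private theorem Rl_clG {ω : ℝ} {N : ℕ} (hN : 1 ≤ N) : Rl (clG ω N : HH H) := fun n => clg_star hN n

private theorem Rl_clG1 {ω : ℝ} {N : ℕ} (hN : 1 ≤ N) : Rl (clG1 ω N : HH H) := by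
  intro n
  show clg1 ω N (-n) = cz (clg1 ω N n)
  unfold clg1
  have h1 : |ω * ((-n : ℤ) : ℝ)| = |ω * n| := by
    push_cast
    rw [mul_neg, abs_neg]
  rw [h1, clp1_star hN, cz_smul, Complex.star_def, Complex.conj_ofReal]

private theorem Rl_cm' {a : ℤ → CI H} {p : ℕ} (ha : Cf p a) {x : HH H} (hx : Rl x) :
    Rl (cm a x) := by
  rw [Rl_iff, cj_cm ha, (Rl_iff x).1 hx]

private theorem Rl_add' {x y : HH H} (hx : Rl x) (hy : Rl y) : Rl (x + y) := by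
  rw [Rl_iff, map_add, (Rl_iff x).1 hx, (Rl_iff y).1 hy]

private theorem Rl_Dk {ω : ℝ} {x y : HH H} (h : Dk ω x y) (hx : Rl x) : Rl y := by
  intro n
  show y (-n) = cz (y n)
  have h1 : |ω * ((-n : ℤ) : ℝ)| = |ω * n| := by
    push_cast
    rw [mul_neg, abs_neg]
  have h2 : x (-n) = cz (x n) := hx n
  rw [h (-n), h n, h1, h2, cz_smul, Complex.star_def, Complex.conj_ofReal]

/-- Data of the lift `V_L = - A(t) P0`: `g0 = B P0`, `P0` = the modes `± (i/2) (1 - z/H)`,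
`Z0 = B*(a B P0)`. -/
structure CellL (G : Geo H) (N : ℕ) (g0 P0 Z0 : HH H) : Prop where
  T : TT G.ω g0 = P0
  tr : ∀ n, ex (Vf G.ω g0 n : CI H) 0 = Complex.I * ((sN N n / 2 : ℝ) : ℂ)
  Z : ∀ φ, ⟪G.Qd φ, cm G.a g0⟫_ℂ = ⟪TT G.ω (G.Qd φ), Z0⟫_ℂ
  rg : Rl g0
  rP : Rl P0
  rZ : Rl Z0
  l1 : ∃ V : L1 (CI H), ∀ n, V n = Vf G.ω g0 n

/-- Proof: `P0` has the modes `n = ± N` (`p n = (I sN N n / 2) • rc (1 - z/H)`), `g0 n = ka • p n - p' n`
(finite support; `Tz_unique` gives `T g0 = P0`). `a g0` is a family of `C¹` functions with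
`(a g0)' = a' g0 + a g0'` (`DH.cm` with `G.ha.d`) and `|D| (a g0) ∈ HH` (`Dk.cm`, `Cf 4`), and
`Z0 = (a g0)' + |D| (a g0)`; `⟪Qd φ, a g0⟫ = ⟪T Qd φ, Z0⟫` by integration by parts (`ibp_B` mode by mode, or
`inner_ibp` in RcA; `P Qd φ = Qd φ`). Reality: `G.ha.c.re`. `ℓ¹`: finite support. -/
theorem exists_cellL (G : Geo H) {N : ℕ} (hN : 1 ≤ N) : ∃ g0 P0 Z0 : HH H, CellL G N g0 P0 Z0 := by
  obtain ⟨a1, a2, hd1, _, hc1, _⟩ := G.ha.d
  have hq1 := (clDH (H := H) G.ω N).cm G.ha.c.s0 hc1.s0 hd1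
  have hq2 := (clDk (H := H) G.ω N).cm (p := 3) G.ha.c
  refine ⟨clG G.ω N, clP N, (cm G.a (clG2 G.ω N) + cD G.ω G.a (clG G.ω N)) +
    (cm a1 (clG G.ω N) + cm G.a (clG1 G.ω N)), ⟨?_, ?_, ?_, Rl_clG hN, Rl_clP hN, ?_, ?_⟩⟩
  · ext1
    funext n
    rw [TT_apply, T2_apply]
    show (iota (Tz (G.ω * n) (clg G.ω N n)) : Z2 H) = clp N n
    rw [← clTz, map_smul]
    rfl
  · intro n
    show ex (Tz (G.ω * n) (clg G.ω N n)) 0 = _
    rw [← clTz, ex_smul]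
    unfold clF clc
    rw [ex_rc _ _ zero_memI, zero_div, sub_zero, Complex.ofReal_one, mul_one]
  · intro φ
    have h1 := inner_ibp hq1.1 hq2 (G.PP_Qd φ)
    rw [← inner_conj_symm, h1, inner_conj_symm]
  · exact Rl_add' (Rl_Dk hq2 (Rl_cm' G.ha.c (Rl_clG hN)))
      (Rl_add' (Rl_cm' hc1 (Rl_clG hN)) (Rl_cm' G.ha.c (Rl_clG1 hN)))
  · have hs : Memℓp (fun n : ℤ => clc N n • (clF : CI H)) 1 := by
      refine memℓp_gen ?_
      have h2 : Summable fun n : ℤ => ‖clc N n • (clF : CI H)‖ :=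
        cl_sum1 (N := N) fun n h1 h2 => by
          rw [clc_zero h1 h2]
          exact zero_smul ℂ (clF : CI H)
      simpa using h2
    refine ⟨⟨fun n => clc N n • (clF : CI H), hs⟩, fun n => ?_⟩
    show clc N n • (clF : CI H) = Tz (G.ω * n) (clg G.ω N n)
    exact clTz G.ω N n

/-- Proof: `v n = (lam n ^ (1/2)) • cellV (ω N) N 1 n` (two modes), `mk2`, `hf_apply`. -/
theorem exists_cellU (G : Geo H) {N : ℕ} (hN : 1 ≤ N) : ∃ v w : l2 (CI H),
    (∀ n, hf G.lam v n = cellV (G.ω * N) N 1 n) ∧ ∀ n, hf G.lam w n = cellW (G.ω * N) N 1 n := by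
  have key : ∀ (n : ℤ) (x : CI H), ((G.lam n ^ (-(1 / 2 : ℝ)) : ℝ) : ℂ) •
      (((G.lam n ^ (1 / 2 : ℝ) : ℝ) : ℂ) • x) = x := by
    intro n x
    have hpos : 0 < G.lam n := lt_of_lt_of_le one_pos (G.lw.h1 n)
    have h1 : G.lam n ^ (-(1 / 2 : ℝ)) * G.lam n ^ (1 / 2 : ℝ) = 1 := by
      rw [← Real.rpow_add hpos, neg_add_cancel, Real.rpow_zero]
    have h2 : ((G.lam n ^ (-(1 / 2 : ℝ)) : ℝ) : ℂ) * ((G.lam n ^ (1 / 2 : ℝ) : ℝ) : ℂ) = 1 := by
      rw [← Complex.ofReal_mul, h1, Complex.ofReal_one]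
    refine ci_ext fun z _ => ?_
    rw [ex_smul, ex_smul, ← mul_assoc, h2, one_mul]
  refine ⟨mk2 (fun n : ℤ => ((G.lam n ^ (1 / 2 : ℝ) : ℝ) : ℂ) • (cellV (G.ω * N) N 1 n : CI H))
      (cl_sum (N := N) fun n h1 h2 => ?_),
    mk2 (fun n : ℤ => ((G.lam n ^ (1 / 2 : ℝ) : ℝ) : ℂ) • (cellW (G.ω * N) N 1 n : CI H))
      (cl_sum (N := N) fun n h1 h2 => ?_), fun n => ?_, fun n => ?_⟩
  · show ((G.lam n ^ (1 / 2 : ℝ) : ℝ) : ℂ) • (cellV (G.ω * N) N 1 n : CI H) = 0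
    rw [cellV_zero h1 h2]
    exact smul_zero (A := CI H) ((G.lam n ^ (1 / 2 : ℝ) : ℝ) : ℂ)
  · show ((G.lam n ^ (1 / 2 : ℝ) : ℝ) : ℂ) • (cellW (G.ω * N) N 1 n : CI H) = 0
    rw [cellW_zero h1 h2]
    exact smul_zero (A := CI H) ((G.lam n ^ (1 / 2 : ℝ) : ℝ) : ℂ)
  · exact key n _
  · exact key n _

end

end Pool.Agent.Lib.MP_79abb3_an.SC
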