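import Pool.Agent.Lib.MP_79abb3_an.SC.ExMs
import Pool.Agent.Lib.MP_79abb3_an.SC.FlBc

/-!
MP_79abb3_an, simply connected domains, block (iii): the background of the flushing phase.
-/

set_option autoImplicit false
set_option linter.unusedSectionVars false

open MeasureTheory Set Filter Topology Function
open scoped ENNReal InnerProductSpace

namespace Pool.Agent.Lib.MP_79abb3_an.SC

open Pool.Agent.Lib.MP_79abb3_an.P25 Pool.Agent.Lib.MP_79abb3_an.FW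

section
variable {H : ℝ} [hH : Fact (0 < H)]

/-- The background of the flushing phase with amplitude `A`, `A' = dA/dt`. -/
noncomputable def bgF (G : Geo H) (N : ℕ) (g0 P0 Z0 : HH H) (v w : l2 (CI H)) (A A' : ℝ → ℝ) : Bg H where
  ve t := ((A t : ℝ) : ℂ) • v
  we t := ((A t : ℝ) : ℂ) • w
  gL t := -((A t : ℝ) : ℂ) • g0
  FL t := ((A' t : ℝ) : ℂ) • P0 + ((A t : ℝ) : ℂ) • Z0
  fc _ := 0
  κ t := rc (G.kF (G.ω * N) (A t)) (G.kF_c _ _)
  κ1 t := rc (fun z => G.Ck * (A t ^ 2 * (2 * (Real.cosh (G.ω * N * z) *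
    (Real.sinh (G.ω * N * z) * (G.ω * N)))))) (by fun_prop)

/-- `B` is the cell background with amplitude `A` on `[0, b]`. -/
structure CellBg (G : Geo H) (N : ℕ) (A : ℝ → ℝ) (b : ℝ) (B : Bg H) : Prop where
  M : G.BgM B 0 b
  Ac : ContinuousOn A (Icc 0 b)
  ve : ∀ t ∈ Icc 0 b, ∀ n, hf G.lam (B.ve t) n = cellV (G.ω * N) N (A t) n
  we : ∀ t ∈ Icc 0 b, ∀ n, hf G.lam (B.we t) n = cellW (G.ω * N) N (A t) n
  κ : ∀ t ∈ Icc 0 b, B.κ t = rc (G.kF (G.ω * N) (A t)) (G.kF_c _ _)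
  tr0 : ∀ t ∈ Icc 0 b, ∀ n, ex (Vf G.ω (⇑(B.gL t)) n) 0 =
    -(Complex.I * ((A t / 2 * sN N n : ℝ) : ℂ))
  gL : ∀ t ∈ Icc 0 b, A t = 0 → B.gL t = 0
  fc : ∀ t ∈ Icc 0 b, B.fc t = 0

theorem bgc_hf_smul (lam : ℤ → ℝ) (c : ℂ) (v : l2 (CI H)) (n : ℤ) :
    hf lam (c • v) n = c • hf lam v n := by
  refine ci_ext fun z _ => ?_
  rw [hf_apply, ex_smul, hf_apply, ex_smul, ex_smul]
  have e : ex ((c • v) n) z = c * ex (v n) z := by
    rw [lp.coeFn_smul, Pi.smul_apply, ex_smul]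
  rw [e]; ring

theorem bgc_cellV (m : ℝ) (N : ℕ) (α : ℝ) (n : ℤ) :
    ((α : ℝ) : ℂ) • (cellV m N 1 n : CI H) = cellV m N α n := by
  refine ci_ext fun z _ => ?_
  unfold cellV
  rw [ex_smul, ex_smul, ex_smul]
  push_cast; ring

theorem bgc_cellW (m : ℝ) (N : ℕ) (α : ℝ) (n : ℤ) :
    ((α : ℝ) : ℂ) • (cellW m N 1 n : CI H) = cellW m N α n := by
  refine ci_ext fun z _ => ?_
  unfold cellW
  rw [ex_smul, ex_smul, ex_smul]
  push_cast; ring

theorem bgc_Vf_smul (ω : ℝ) (c : ℂ) (g : HH H) (n : ℤ) :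
    (Vf ω (⇑(c • g)) n : CI H) = c • Vf ω (⇑g) n := by
  unfold Vf
  rw [lp.coeFn_smul, Pi.smul_apply, map_smul]

/-- `v_z = w_y` for the cell. -/
theorem cellV_dz {ω : ℝ} {N : ℕ} (α : ℝ) (n : ℤ) :
    DZ (cellV (ω * N) N α n : CI H) (kI ω n • (iota (cellW (ω * N) N α n) : Z2 H)) := by
  have hd : IsD (rc (fun z => Real.cosh (ω * N * z)) (by fun_prop) : CI H)
      (rc (fun z => ω * N * Real.sinh (ω * N * z)) (by fun_prop)) := by
    intro z hz
    have h1 : HasDerivAt (fun z : ℝ => ((Real.cosh (ω * N * z) : ℝ) : ℂ))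
        ((ω * N * Real.sinh (ω * N * z) : ℝ) : ℂ) z := by
      have h2 : HasDerivAt (fun z : ℝ => ω * N * z) (ω * N) z := by
        simpa using (hasDerivAt_id z).const_mul (ω * N)
      have h3 := h2.cosh
      refine (h3.congr_deriv ?_).ofReal_comp
      ring
    rw [ex_rc _ _ hz]
    refine (h1.hasDerivWithinAt).congr (fun x hx => ex_rc _ _ hx) (ex_rc _ _ hz)
  have h1 := (IsD.dz hd).smul (Complex.I * ((α / 2 * sN N n : ℝ) : ℂ))
  have e : kI ω n • (iota (cellW (ω * N) N α n) : Z2 H) =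
      (Complex.I * ((α / 2 * sN N n : ℝ) : ℂ)) •
        iota (rc (fun z => ω * N * Real.sinh (ω * N * z)) (by fun_prop)) := by
    have e2 : (rc (fun z => ω * N * Real.sinh (ω * N * z)) (by fun_prop) : CI H) =
        ((ω * N : ℝ) : ℂ) • rc (fun z => Real.sinh (ω * N * z)) (by fun_prop) := by
      refine ci_ext fun z hz => ?_
      rw [ex_smul, ex_rc _ _ hz, ex_rc _ _ hz]; push_cast; ring
    rw [e2]
    unfold cellW kI
    rw [map_smul, map_smul, smul_smul, smul_smul]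
    congr 1
    have h3 : (n : ℝ) * |sN N n| = N * sN N n := by
      unfold sN
      split_ifs with h1 h2
      · rw [h1]; simp
      · rw [h2]; push_cast; simp
      · simp
    have h5 : ((n : ℝ) : ℂ) * ((|sN N n| : ℝ) : ℂ) = ((N : ℝ) : ℂ) * ((sN N n : ℝ) : ℂ) := by
      rw [← Complex.ofReal_mul, h3, Complex.ofReal_mul]
    push_cast at h5 ⊢
    linear_combination (Complex.I * (ω : ℂ) * (α / 2)) * h5
  rw [e]
  exact h1

theorem bgc_hf_inj {lam : ℤ → ℝ} (h1 : ∀ n, 1 ≤ lam n) {v v' : l2 (CI H)}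
    (h : ∀ n, hf lam v n = hf lam v' n) : v = v' := by
  refine lp.ext (funext fun n => ci_ext fun z _ => ?_)
  have h2 := congrArg (fun F => ex F z) (h n)
  rw [hf_apply, hf_apply] at h2
  have h3 : ((lam n ^ (-(1 / 2 : ℝ)) : ℝ) : ℂ) * ex (v n) z =
      ((lam n ^ (-(1 / 2 : ℝ)) : ℝ) : ℂ) * ex (v' n) z := by
    rw [← ex_smul, ← ex_smul]; exact h2
  have h4 : ((lam n ^ (-(1 / 2 : ℝ)) : ℝ) : ℂ) ≠ 0 :=
    Complex.ofReal_ne_zero.2 (Real.rpow_pos_of_pos (lt_of_lt_of_le one_pos (h1 n)) _).ne'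
  exact mul_left_cancel₀ h4 h3

theorem bgc_cj {lam : ℤ → ℝ} (h1 : ∀ n, 1 ≤ lam n) (hn : ∀ n, lam (-n) = lam n) {v : l2 (CI H)}
    {F : ℤ → CI H} (hv : ∀ n, hf lam v n = F n) (hF : ∀ n, F (-n) = star (F n)) : cjC v = v := by
  refine bgc_hf_inj h1 fun n => ?_
  rw [hf_cj hn, hv, hv, hF, star_star]

theorem bgc_L1 {F : ℤ → CI H} {N : ℤ} (h : ∀ n, n ≠ N → n ≠ -N → F n = 0) :
    ∃ V : L1 (CI H), ∀ n, V n = F n := by
  have hm : Memℓp F 1 := by
    refine memℓp_gen ?_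
    simp only [ENNReal.toReal_one, Real.rpow_one]
    refine summable_of_hasFiniteSupport
      (((Set.finite_singleton N).union (Set.finite_singleton (-N))).subset ?_)
    intro n hn
    by_contra hcon
    rw [mem_union, mem_singleton_iff, mem_singleton_iff, not_or] at hcon
    refine hn ?_
    show ‖F n‖ = 0
    rw [h n hcon.1 hcon.2, norm_zero]
  exact ⟨⟨F, hm⟩, fun n => rfl⟩

theorem bgc_L1_smul (c : ℂ) (V : L1 (CI H)) (n : ℤ) : (c • V) n = c • V n := by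
  rw [lp.coeFn_smul, Pi.smul_apply]

theorem bgc_grad {N : ℤ} {ω M : ℝ} {F : ℤ → CI H} (h : ∀ n, n ≠ N → n ≠ -N → F n = 0)
    {A : ℝ → ℝ} {s : Set ℝ} (hA : ∀ t ∈ s, |A t| ≤ M) : ∃ C, ∀ t ∈ s,
      (Summable fun n : ℤ => (|ω * n| * ‖(iota (((A t : ℝ) : ℂ) • F n) : Z2 H)‖) ^ 2) ∧
      ∑' n : ℤ, (|ω * n| * ‖(iota (((A t : ℝ) : ℂ) • F n) : Z2 H)‖) ^ 2 ≤ C := by
  have hs : Summable fun n : ℤ => (|ω * n| * ‖(iota (F n) : Z2 H)‖) ^ 2 := by
    refine summable_of_hasFiniteSupport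
      (((Set.finite_singleton N).union (Set.finite_singleton (-N))).subset ?_)
    intro n hn
    by_contra hcon
    rw [mem_union, mem_singleton_iff, mem_singleton_iff, not_or] at hcon
    refine hn ?_
    show (|ω * n| * ‖(iota (F n) : Z2 H)‖) ^ 2 = 0
    rw [h n hcon.1 hcon.2, map_zero, norm_zero, mul_zero]; norm_num
  have e : ∀ t, (fun n : ℤ => (|ω * n| * ‖(iota (((A t : ℝ) : ℂ) • F n) : Z2 H)‖) ^ 2) =
      fun n : ℤ => A t ^ 2 * (|ω * n| * ‖(iota (F n) : Z2 H)‖) ^ 2 := by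
    intro t
    funext n
    rw [map_smul, norm_smul, Complex.norm_real, Real.norm_eq_abs, ← sq_abs (A t)]
    ring
  refine ⟨M ^ 2 * ∑' n : ℤ, (|ω * n| * ‖(iota (F n) : Z2 H)‖) ^ 2, fun t ht => ?_⟩
  rw [e t]
  refine ⟨hs.mul_left _, ?_⟩
  rw [tsum_mul_left]
  refine mul_le_mul_of_nonneg_right ?_ (tsum_nonneg fun n => sq_nonneg _)
  rw [← sq_abs (A t)]
  exact pow_le_pow_left₀ (abs_nonneg _) (hA t ht) 2

theorem bgc_rc_smul {f : ℝ → ℝ} (hf : Continuous f) (c : ℝ) :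
    (rc (fun z => c * f z) (continuous_const.mul hf) : CI H) = ((c : ℝ) : ℂ) • rc f hf := by
  refine ci_ext fun z hz => ?_
  rw [ex_smul, ex_rc _ _ hz, ex_rc _ _ hz]; push_cast; ring

/-- **The background is admissible.** Proof: field by field. `cont`: continuity of `A`, `A'` (for `κ`,
`κ1`: `t ↦ rc (...)` is continuous in the sup norm on `[0,H]`: `κ = A(t)² • rc (Ck cosh²)`). `lift`:
`Tst.of_hasDeriv` for `-A(t) P0` and `lL = -(Qd† (a gL)) - Kh FL`, where `G.J4 = Kh` on `HH` and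
`Qd† (cm a g0) = Kh Z0` (`CellL.Z`, `TT_Qd`, `ext_inner_left`), so `lL = -A' Kh P0`. `ok`: `cellW_dz`,
`IsD` of `κ`. `curl`: `v_z = w_y` for the cell (as in `cellW_dz`). `re`: `cellV_real`, `cellW_real`, `CellL.rg`
etc. (`Rl_iff`). `grad`, `l1`: two modes, `A` bounded on `[0,b]`. `tr0`: `CellL.tr`. -/
theorem bgF_cell (G : Geo H) {N : ℕ} (hN : 1 ≤ N) {g0 P0 Z0 : HH H} (hL : CellL G N g0 P0 Z0)
    {v w : l2 (CI H)} (hv : ∀ n, hf G.lam v n = cellV (G.ω * N) N 1 n)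
    (hw : ∀ n, hf G.lam w n = cellW (G.ω * N) N 1 n) {A A' : ℝ → ℝ}
    (hA : ∀ t, HasDerivAt A (A' t) t) (cA : Continuous A') {b : ℝ} (hb : 0 ≤ b) :
    CellBg G N A b (bgF G N g0 P0 Z0 v w A A') := by
  have hAc : Continuous A := continuous_iff_continuousAt.2 fun t => (hA t).continuousAt
  have cAc : Continuous fun t => ((A t : ℝ) : ℂ) := Complex.continuous_ofReal.comp hAc
  have cAc' : Continuous fun t => ((A' t : ℝ) : ℂ) := Complex.continuous_ofReal.comp cA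
  have hve : ∀ t n, hf G.lam (((A t : ℝ) : ℂ) • v) n = cellV (G.ω * N) N (A t) n := fun t n => by
    rw [bgc_hf_smul, hv, bgc_cellV]
  have hwe : ∀ t n, hf G.lam (((A t : ℝ) : ℂ) • w) n = cellW (G.ω * N) N (A t) n := fun t n => by
    rw [bgc_hf_smul, hw, bgc_cellW]
  have hgL : ∀ t, (bgF G N g0 P0 Z0 v w A A').gL t = -((A t : ℝ) : ℂ) • g0 := fun t => rfl
  obtain ⟨M, hM⟩ := (isCompact_Icc (a := (0:ℝ)) (b := b)).exists_bound_of_continuousOn
    hAc.continuousOn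
  obtain ⟨cv, hcv⟩ := bgc_L1 (F := fun n => (cellV (G.ω * N) N 1 n : CI H)) (N := (N : ℤ))
    fun n h1 h2 => cellV_zero h1 h2
  obtain ⟨cw, hcw⟩ := bgc_L1 (F := fun n => (cellW (G.ω * N) N 1 n : CI H)) (N := (N : ℤ))
    fun n h1 h2 => cellW_zero h1 h2
  obtain ⟨V0, hV0⟩ := hL.l1
  have eQ : G.Qd.adjoint (cm G.a g0) = G.J4 Z0 := by
    refine ext_inner_left ℂ fun φ => ?_
    rw [ContinuousLinearMap.adjoint_inner_right, G.inner_J4, hL.Z]
  have eJ : ∀ y, G.J4 y = Kh G.D.K y := fun y => by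
    refine ext_inner_left ℂ fun φ => ?_
    rw [G.inner_J4, G.TT_Qd]
    exact Kh_inner _ φ y
  have hcont : (bgF G N g0 P0 Z0 v w A A').Cont 0 b := by
    refine ⟨(cAc.smul continuous_const).continuousOn, (cAc.smul continuous_const).continuousOn,
      (cAc.neg.smul continuous_const).continuousOn,
      ((cAc'.smul continuous_const).add (cAc.smul continuous_const)).continuousOn,
      continuousOn_const, ?_, ?_⟩
    · have e : (bgF G N g0 P0 Z0 v w A A').κ = fun t => ((A t ^ 2 : ℝ) : ℂ) •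
          (rc (fun z => G.Ck * Real.cosh (G.ω * N * z) ^ 2) (by fun_prop) : CI H) := by
        funext t
        refine ci_ext fun z hz => ?_
        show ex (rc (G.kF (G.ω * N) (A t)) (G.kF_c _ _)) z = _
        rw [ex_smul, ex_rc _ _ hz, ex_rc _ _ hz]
        unfold Geo.kF chF
        push_cast; ring
      rw [e]
      exact ((Complex.continuous_ofReal.comp (hAc.pow 2)).smul continuous_const).continuousOn
    · have e : (bgF G N g0 P0 Z0 v w A A').κ1 = fun t => ((A t ^ 2 : ℝ) : ℂ) •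
          (rc (fun z => G.Ck * (2 * (Real.cosh (G.ω * N * z) *
            (Real.sinh (G.ω * N * z) * (G.ω * N))))) (by fun_prop) : CI H) := by
        funext t
        refine ci_ext fun z hz => ?_
        show ex (rc (fun z => G.Ck * (A t ^ 2 * (2 * (Real.cosh (G.ω * N * z) *
          (Real.sinh (G.ω * N * z) * (G.ω * N)))))) (by fun_prop)) z = _
        rw [ex_smul, ex_rc _ _ hz, ex_rc _ _ hz]
        push_cast; ring
      rw [e]
      exact ((Complex.continuous_ofReal.comp (hAc.pow 2)).smul continuous_const).continuousOn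
  have hlL : ∀ t, G.lL (bgF G N g0 P0 Z0 v w A A') t = Kh G.D.K (-((A' t : ℝ) : ℂ) • P0) := by
    intro t
    show -(G.Qd.adjoint (cm G.a (-((A t : ℝ) : ℂ) • g0))) -
      G.J4 (((A' t : ℝ) : ℂ) • P0 + ((A t : ℝ) : ℂ) • Z0) = _
    rw [map_smul (cm G.a), map_smul G.Qd.adjoint, eQ, map_add, map_smul G.J4, map_smul G.J4,
      map_smul (Kh G.D.K), eJ P0]
    rw [neg_smul, neg_smul, neg_neg]
    abel
  refine ⟨⟨hcont, ?_, ?_, ?_, ?_, ?_, ?_, ?_⟩, hAc.continuousOn, fun t _ n => hve t n,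
    fun t _ n => hwe t n, fun t _ => rfl, fun t _ n => ?_, fun t _ h => ?_, fun t _ => rfl⟩
  · -- lift
    unfold Geo.Lift
    rw [funext hlL]
    have e1 : (fun t => TT G.ω ((bgF G N g0 P0 Z0 v w A A').gL t)) =
        fun t => -((A t : ℝ) : ℂ) • P0 := funext fun t => by
      show TT G.ω (-((A t : ℝ) : ℂ) • g0) = _
      rw [map_smul, hL.T]
    rw [e1]
    refine Tst.of_hasDeriv (fun t _ => ?_) (cAc'.neg.smul continuous_const).continuousOn
    exact (((hA t).ofReal_comp.neg).smul_const P0).hasDerivWithinAt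
  · -- ok
    intro t _
    refine ⟨fun n => ?_, ?_⟩
    · show DZ (hf G.lam (((A t : ℝ) : ℂ) • w) n)
        (-(kI G.ω n) • (iota (hf G.lam (((A t : ℝ) : ℂ) • v) n) : Z2 H))
      rw [hve, hwe]
      exact cellW_dz (A t) n
    · show IsD (rc (G.kF (G.ω * N) (A t)) (G.kF_c _ _) : CI H)
        (rc (fun z => G.Ck * (A t ^ 2 * (2 * (Real.cosh (G.ω * N * z) *
          (Real.sinh (G.ω * N * z) * (G.ω * N)))))) (by fun_prop))
      intro z hz
      have h2 : HasDerivAt (fun z : ℝ => G.ω * N * z) (G.ω * N) z := by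
        simpa using (hasDerivAt_id z).const_mul (G.ω * N)
      have h3 := (((h2.cosh.pow 2).const_mul (A t ^ 2)).const_mul G.Ck)
      have h4 : HasDerivAt (fun z : ℝ => ((G.kF (G.ω * N) (A t) z : ℝ) : ℂ))
          ((G.Ck * (A t ^ 2 * (2 * (Real.cosh (G.ω * N * z) *
            (Real.sinh (G.ω * N * z) * (G.ω * N))))) : ℝ) : ℂ) z := by
        refine HasDerivAt.ofReal_comp ?_
        refine (h3.congr_deriv ?_).congr_of_eventuallyEq (Eventually.of_forall fun y => ?_)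
        · simp only [Nat.cast_ofNat]; ring
        · show G.kF (G.ω * N) (A t) y = G.Ck * (A t ^ 2 * Real.cosh (G.ω * N * y) ^ 2)
          unfold Geo.kF chF; ring
      rw [ex_rc _ _ hz]
      exact (h4.hasDerivWithinAt).congr (fun x hx => ex_rc _ _ hx) (ex_rc _ _ hz)
  · -- curl
    intro t _ n
    show DZ (hf G.lam (((A t : ℝ) : ℂ) • v) n)
      (kI G.ω n • (iota (hf G.lam (((A t : ℝ) : ℂ) • w) n) : Z2 H))
    rw [hve, hwe]
    exact cellV_dz (A t) n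
  · intro t _ m _
    exact map_zero (Ms m)
  · -- real
    intro t _
    have rg := (Rl_iff _).1 hL.rg
    have rP := (Rl_iff _).1 hL.rP
    have rZ := (Rl_iff _).1 hL.rZ
    have es : ∀ r : ℝ, star ((r : ℝ) : ℂ) = ((r : ℝ) : ℂ) := fun r => Complex.conj_ofReal r
    refine ⟨bgc_cj G.lw.h1 G.lw.neg (hve t) (cellV_real _ hN _),
      bgc_cj G.lw.h1 G.lw.neg (hwe t) (cellW_real _ hN _), ?_, ?_, map_zero cjX, ?_, ?_⟩
    · show cjX (-((A t : ℝ) : ℂ) • g0) = -((A t : ℝ) : ℂ) • g0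
      rw [cjX_smul, rg, star_neg, es]
    · show cjX (((A' t : ℝ) : ℂ) • P0 + ((A t : ℝ) : ℂ) • Z0) = _
      rw [map_add, cjX_smul, cjX_smul, rP, rZ, es, es]
      rfl
    · exact SC.star_rc (G.kF (G.ω * N) (A t)) (G.kF_c _ _)
    · exact SC.star_rc (fun z => G.Ck * (A t ^ 2 * (2 * (Real.cosh (G.ω * N * z) *
        (Real.sinh (G.ω * N * z) * (G.ω * N)))))) (by fun_prop)
  · -- grad
    obtain ⟨C1, h1⟩ := bgc_grad (F := fun n => (cellV (G.ω * N) N 1 n : CI H)) (N := (N : ℤ))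
      (ω := G.ω) (fun n h1 h2 => cellV_zero h1 h2) (A := A) (s := Icc 0 b) (M := M) hM
    obtain ⟨C2, h2⟩ := bgc_grad (F := fun n => (cellW (G.ω * N) N 1 n : CI H)) (N := (N : ℤ))
      (ω := G.ω) (fun n h1 h2 => cellW_zero h1 h2) (A := A) (s := Icc 0 b) (M := M) hM
    refine ⟨max C1 C2, fun t ht => ⟨?_, ?_⟩⟩
    · have e : (fun n : ℤ => (|G.ω * n| *
          ‖(iota (hf G.lam (((A t : ℝ) : ℂ) • v) n) : Z2 H)‖) ^ 2) = fun n : ℤ => (|G.ω * n| *
          ‖(iota (((A t : ℝ) : ℂ) • (cellV (G.ω * N) N 1 n : CI H)) : Z2 H)‖) ^ 2 := by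
        funext n
        rw [bgc_hf_smul, hv]
      show (Summable fun n : ℤ => (|G.ω * n| *
          ‖(iota (hf G.lam (((A t : ℝ) : ℂ) • v) n) : Z2 H)‖) ^ 2) ∧ ∑' n : ℤ, (|G.ω * n| *
          ‖(iota (hf G.lam (((A t : ℝ) : ℂ) • v) n) : Z2 H)‖) ^ 2 ≤ max C1 C2
      rw [e]
      exact ⟨(h1 t ht).1, (h1 t ht).2.trans (le_max_left _ _)⟩
    · have e : (fun n : ℤ => (|G.ω * n| *
          ‖(iota (hf G.lam (((A t : ℝ) : ℂ) • w) n) : Z2 H)‖) ^ 2) = fun n : ℤ => (|G.ω * n| *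
          ‖(iota (((A t : ℝ) : ℂ) • (cellW (G.ω * N) N 1 n : CI H)) : Z2 H)‖) ^ 2 := by
        funext n
        rw [bgc_hf_smul, hw]
      show (Summable fun n : ℤ => (|G.ω * n| *
          ‖(iota (hf G.lam (((A t : ℝ) : ℂ) • w) n) : Z2 H)‖) ^ 2) ∧ ∑' n : ℤ, (|G.ω * n| *
          ‖(iota (hf G.lam (((A t : ℝ) : ℂ) • w) n) : Z2 H)‖) ^ 2 ≤ max C1 C2
      rw [e]
      exact ⟨(h2 t ht).1, (h2 t ht).2.trans (le_max_right _ _)⟩
  · -- l1
    refine ⟨fun t => ((A t : ℝ) : ℂ) • cv, fun t => ((A t : ℝ) : ℂ) • cw,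
      fun t => -((A t : ℝ) : ℂ) • V0, (cAc.smul continuous_const).continuousOn,
      (cAc.smul continuous_const).continuousOn, (cAc.neg.smul continuous_const).continuousOn,
      fun t _ n => ⟨?_, ?_, ?_⟩⟩
    · show (((A t : ℝ) : ℂ) • cv) n = hf G.lam (((A t : ℝ) : ℂ) • v) n
      rw [bgc_L1_smul, hcv, hve, bgc_cellV]
    · show (((A t : ℝ) : ℂ) • cw) n = hf G.lam (((A t : ℝ) : ℂ) • w) n
      rw [bgc_L1_smul, hcw, hwe, bgc_cellW]
    · show (-((A t : ℝ) : ℂ) • V0) n = Vf G.ω (⇑(-((A t : ℝ) : ℂ) • g0)) n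
      rw [bgc_L1_smul, hV0, bgc_Vf_smul]
  · show ex (Vf G.ω (⇑(-((A t : ℝ) : ℂ) • g0)) n) 0 = _
    rw [bgc_Vf_smul, ex_smul, hL.tr]
    push_cast; ring
  · show -((A t : ℝ) : ℂ) • g0 = 0
    rw [h, Complex.ofReal_zero, neg_zero, zero_smul]

end

end Pool.Agent.Lib.MP_79abb3_an.SC
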