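import Pool.Agent.Lib.MP_79abb3_an.SC.FlBg

/-!
MP_79abb3_an, simply connected domains, block (iii): solutions for the cell background.
-/

set_option autoImplicit false
set_option linter.unusedSectionVars false

open MeasureTheory Set Filter Topology Function
open scoped ENNReal InnerProductSpace

namespace Pool.Agent.Lib.MP_79abb3_an.SC

open Pool.Agent.Lib.MP_79abb3_an.P25 Pool.Agent.Lib.MP_79abb3_an.FW

private theorem mild_congrΦ {X Y : Type} [NormedAddCommGroup X] [NormedSpace ℂ X]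
    [CompleteSpace X] [NormedAddCommGroup Y] [NormedSpace ℂ Y] {S : ℝ → (X →L[ℂ] X)}
    {L : ℝ → (Y →L[ℂ] X)} {Φ Φ' : ℝ → X → Y} {a b : ℝ} {x₀ : X} {x : ℝ → X}
    (hs : Mild S L Φ a b x₀ x) (h : ∀ t ∈ Icc a b, Φ t (x t) = Φ' t (x t)) :
    Mild S L Φ' a b x₀ x := by
  refine ⟨hs.cont, fun t ht => (hs.eq t ht).trans ?_⟩
  congr 1
  refine intervalIntegral.integral_congr fun r hr => ?_
  rw [uIcc_of_le ht.1] at hr
  exact congrArg (L (t - r)) (h r ⟨hr.1, hr.2.trans ht.2⟩)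

section
variable {H : ℝ} [hH : Fact (0 < H)]

/-- From `G.Sol` to `FlS`. Proof: `Geo.Sol.reality` (ExRb), `Rl_gt`. -/
theorem FlS.of_sol {G : Geo H} {N : ℕ} (hN : 1 ≤ N) {A : ℝ → ℝ} {b : ℝ} {B : Bg H}
    (hB : CellBg G N A b B) {x : ℝ → HH H × HH H} (hb : 0 ≤ b) (hA : ∀ t ∈ Icc 0 b, 0 ≤ A t)
    (hs : G.Sol B 0 b (x 0) x) (h1 : Rl (x 0).1) (h2 : Rl (x 0).2) : FlS G N A b B x :=
  ⟨hN, hb, hB.M.cont, hB.M.lift, hB.M.ok, hs, hB.Ac, hA, hB.ve, hB.we, hB.κ, hB.tr0, hB.fc,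
    fun t ht => Geo.Rl_gt (hB.M.re t ht) (Geo.Sol.reality hs hB.M.cont hB.M.re h1 h2 t ht).2⟩

/-- restriction of the background to a shorter interval -/
theorem CellBg.restrict {G : Geo H} {N : ℕ} {A : ℝ → ℝ} {b c : ℝ} {B : Bg H} (h : CellBg G N A b B)
    (hc : c ≤ b) : CellBg G N A c B := by
  have hs : Icc 0 c ⊆ Icc 0 b := Icc_subset_Icc le_rfl hc
  obtain ⟨C, hC⟩ := h.M.grad
  obtain ⟨v', w', V', a1, a2, a3, a4⟩ := h.M.l1
  have k := h.M.cont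
  exact ⟨⟨⟨k.ve.mono hs, k.we.mono hs, k.gL.mono hs, k.FL.mono hs, k.fc.mono hs, k.κ.mono hs,
      k.κ1.mono hs⟩, Tst.restrict h.M.lift le_rfl hc, fun t ht => h.M.ok t (hs ht),
      fun t ht => h.M.curl t (hs ht), fun t ht => h.M.fc t (hs ht), fun t ht => h.M.re t (hs ht),
      ⟨C, fun t ht => hC t (hs ht)⟩,
      ⟨v', w', V', a1.mono hs, a2.mono hs, a3.mono hs, fun t ht => a4 t (hs ht)⟩⟩,
    h.Ac.mono hs, fun t ht => h.ve t (hs ht), fun t ht => h.we t (hs ht),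
    fun t ht => h.κ t (hs ht), fun t ht => h.tr0 t (hs ht), fun t ht => h.gL t (hs ht),
    fun t ht => h.fc t (hs ht)⟩

private theorem Phi_congr (G : Geo H) {B B' : Bg H} {t : ℝ} (y : HH H × HH H)
    (e1 : B.ve t = B'.ve t) (e2 : B.we t = B'.we t) (e3 : B.gL t = B'.gL t) (e4 : B.FL t = B'.FL t)
    (e5 : B.fc t = B'.fc t) (e6 : B.κ t = B'.κ t) (e7 : B.κ1 t = B'.κ1 t) :
    G.Phi B t y = G.Phi B' t y := by
  have g1 : G.gV B t y = G.gV B' t y := by unfold Geo.gV; rw [e3]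
  have g2 : G.VV B t y = G.VV B' t y := by unfold Geo.VV; rw [g1]
  have g3 : G.uv B t y = G.uv B' t y := by unfold Geo.uv; rw [e1, e3]
  have g4 : G.uw B t y = G.uw B' t y := by unfold Geo.uw; rw [e2, e3]
  have g5 : G.om B t y = G.om B' t y := by unfold Geo.om; rw [g1]
  have g6 : G.jj B t y = G.jj B' t y := by unfold Geo.jj; rw [e6, g2, g4]
  have f1 : G.f1 B t y = G.f1 B' t y := by unfold Geo.f1; rw [g3, g4]
  have f2 : G.f2 B t y = G.f2 B' t y := by unfold Geo.f2; rw [e6, e7, g1, g2]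
  have f3 : G.f3 B t y = G.f3 B' t y := by unfold Geo.f3; rw [g3, g4, g5]
  have f4 : G.f4 B t y = G.f4 B' t y := by unfold Geo.f4; rw [g6, e6, g2, e4, e5]
  unfold Geo.Phi
  rw [f1, f2, f3, f4]

/-- Backgrounds that agree on `[t₀, t₁]` have the same solutions. Proof: `Mild.eq` only involves
`G.Phi B r (x r)` for `r ∈ [t₀, t]`, and `G.Phi B r` only depends on the values of the fields of `B` at `r`. -/
theorem Sol.congr_bg {G : Geo H} {B B' : Bg H} {t₀ t₁ : ℝ} {x₀ : HH H × HH H} {x : ℝ → HH H × HH H}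
    (h : ∀ t ∈ Icc t₀ t₁, B.ve t = B'.ve t ∧ B.we t = B'.we t ∧ B.gL t = B'.gL t ∧ B.FL t = B'.FL t ∧
      B.fc t = B'.fc t ∧ B.κ t = B'.κ t ∧ B.κ1 t = B'.κ1 t) (hs : G.Sol B t₀ t₁ x₀ x) :
    G.Sol B' t₀ t₁ x₀ x :=
  mild_congrΦ (Φ := G.Phi B) (Φ' := G.Phi B') hs fun t ht => by
    obtain ⟨e1, e2, e3, e4, e5, e6, e7⟩ := h t ht
    exact Phi_congr G (x t) e1 e2 e3 e4 e5 e6 e7

end

end Pool.Agent.Lib.MP_79abb3_an.SC
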