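import Pool.Agent.Lib.MP_79abb3_an.SC.FlAp
import Pool.Agent.Lib.MP_79abb3_an.SC.FlBh

/-!
MP_79abb3_an, simply connected domains, block (iii): existence with a priori bounds.
-/

set_option autoImplicit false
set_option linter.unusedSectionVars false

open MeasureTheory Set Filter Topology Function
open scoped ENNReal InnerProductSpace

namespace Pool.Agent.Lib.MP_79abb3_an.SC

open Pool.Agent.Lib.MP_79abb3_an.P25 Pool.Agent.Lib.MP_79abb3_an.FW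

section
variable {H : ℝ} [hH : Fact (0 < H)]

/-- **Existence with a priori bounds.** `m = ω N ≥ m0`, `b ≤ 1/(8m²)`, the data are small. Proof:
`Geo.Sol.continuation` (ExA): for a solution `x` on `[0,c]`, `FlS.of_sol` and `FlS.apriori` on `[0,c]`
bound `‖qL‖` and `N2 (3/8) V` (`N2_TT`); then `FlS.of_sol`, `FlS.apriori` for the solution on `[0,b]`. -/
theorem FlS.exists (G : Geo H) (hBig : G.Big) (hT : G.TFex) {Θ : ℝ} (hΘ : 0 ≤ Θ) :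
    ∃ C, 0 ≤ C ∧ ∀ ε, 0 < ε → ∃ m0, 1 ≤ m0 ∧ ∀ {N : ℕ} {A : ℝ → ℝ} {b : ℝ} {B : Bg H}
    (_ : 1 ≤ N) (_ : CellBg G N A b B) (_ : 0 ≤ b) (_ : m0 ≤ G.ω * N)
    (_ : b ≤ 1 / (8 * (G.ω * N) ^ 2)) (_ : ∀ t ∈ Icc 0 b, 0 ≤ A t ∧ A t ≤ FW.A0 (G.ω * N))
    {x0 : HH H × HH H} (_ : Rl x0.1) (_ : Rl x0.2) (_ : ‖cm G.b (G.qL x0.1)‖ ≤ Θ)
    (_ : ‖Ms (rc (tht (zl (G.ω * N)) (4 * (G.ω * N))) (tht_cont _ _)) (G.VV B 0 x0)‖ ≤ 1)
    (_ : ‖LT G.ω G.lam (3 / 8) (G.gV B 0 x0)‖ ≤ 1 / 4),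
    ∃ x : ℝ → HH H × HH H, x 0 = x0 ∧ FlS G N A b B x ∧ ∀ t ∈ Icc 0 b, APb G N Θ C ε B x t := by
  obtain ⟨C, hC, hap⟩ := FlS.apriori G hBig hT hΘ
  obtain ⟨Cb, hCb, hbe⟩ := G.b_equiv
  refine ⟨C, hC, fun ε hε => ?_⟩
  obtain ⟨m0, hm0, hap⟩ := hap ε hε
  refine ⟨m0, hm0, fun {N A b B} hN hB hb hm hb2 hA {x0} r1 r2 hq ht hy => ?_⟩
  obtain ⟨Ck, hCk⟩ := G.ker
  have key : ∀ c ∈ Icc 0 b, ∀ x, G.Sol B 0 c x0 x →
      x 0 = x0 ∧ FlS G N A c B x ∧ ∀ t ∈ Icc 0 c, APb G N Θ C ε B x t := by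
    intro c hc x hx
    have e0 : x 0 = x0 := Mild.init hCk hx hc.1
    have hs : G.Sol B 0 c (x 0) x := by rw [e0]; exact hx
    have hF : FlS G N A c B x := FlS.of_sol hN (hB.restrict hc.2) hc.1
      (fun t ht => (hA t ⟨ht.1, ht.2.trans hc.2⟩).1) hs (by rw [e0]; exact r1) (by rw [e0]; exact r2)
    exact ⟨e0, hF, hap hF hm (hc.2.trans hb2) (fun t ht => (hA t ⟨ht.1, ht.2.trans hc.2⟩).2)
      (by rw [e0]; exact hq) (by rw [e0]; exact ht) (by rw [e0]; exact hy)⟩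
  obtain ⟨x, hx⟩ := Geo.Sol.continuation (G := G) (B := B) (x₀ := x0) hb hB.M.cont
    (M := Cb * (Θ ^ 2 + 2) + 1) fun c hc x hx t ht => by
      obtain ⟨-, -, h3⟩ := key c hc x hx
      have hA3 := h3 t ht
      have i0 : 0 ≤ ∫ r in (0:ℝ)..t, ‖(x r).1‖ ^ 2 :=
        intervalIntegral.integral_nonneg ht.1 fun _ _ => sq_nonneg _
      have h4 : ‖cm G.b (G.qL (x t).1)‖ ≤ Θ ^ 2 + 2 := by
        have h5 := hA3.q
        have h6 := norm_nonneg (cm G.b (G.qL (x t).1))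
        nlinarith [sq_nonneg (‖cm G.b (G.qL (x t).1)‖ - 1)]
      have h7 := (hbe (G.qL (x t).1)).1
      have h8 : Cb * ‖cm G.b (G.qL (x t).1)‖ ≤ Cb * (Θ ^ 2 + 2) :=
        mul_le_mul_of_nonneg_left h4 (by linarith)
      have h9 : 0 ≤ Cb * (Θ ^ 2 + 2) := by positivity
      refine ⟨by linarith, ?_⟩
      have e : N2 G.lam (3 / 8) (G.VV B t (x t)) = ‖LT G.ω G.lam (3 / 8) (G.gV B t (x t))‖ := by
        have h10 := (LT_N2 G.lamOK (s := 3 / 8) (by norm_num) (G.gV B t (x t))).2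
        rw [← h10, ← Tc_io]
        rfl
      rw [e]
      have := hA3.y1
      linarith
  obtain ⟨e0, hF, h3⟩ := key b ⟨hb, le_rfl⟩ x hx
  exact ⟨x, e0, hF, h3⟩

end

end Pool.Agent.Lib.MP_79abb3_an.SC
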