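import Pool.Agent.Lib.MP_79abb3_an.SC.ExKer

/-!
MP_79abb3_an, simply connected domains, block (iii): smallness of `Λ^{3/8} T` on functions supported
near the wall.
-/

set_option autoImplicit false
set_option linter.unusedSectionVars false

open MeasureTheory Set Filter Topology Function
open scoped ENNReal InnerProductSpace

namespace Pool.Agent.Lib.MP_79abb3_an.SC

open Pool.Agent.Lib.MP_79abb3_an.P25 Pool.Agent.Lib.MP_79abb3_an.FW

section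
variable {H : ℝ} [hH : Fact (0 < H)]

/-- `T_k f` for `f` supported in `z ≤ c`, pointwise. -/
private theorem ltsm_pt (k : ℝ) {c : ℝ} (hcH : c ≤ H) (hc : 0 < c) {η : CI H} (hη : ‖η‖ ≤ 1)
    (hz0 : ∀ z ∈ Icc (0:ℝ) H, c ≤ z → ex η z = 0) (f : Z2 H) {z : ℝ} (hz : z ∈ Icc (0:ℝ) H) :
    ‖ex (Tz k (mz η f)) z‖ ^ 2 ≤ max (c - z) 0 * ‖f‖ ^ 2 := by
  set b : CI H := (((Real.exp (|k| * z) : ℝ) : ℂ) • fe (-|k|)) * η with hb
  have h1 : ex (Tz k (mz η f)) z = ∫ x in z..H, ex b x * f x := by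
    rw [Tz_apply k _ hz]
    refine ii_congr ?_ hz H_memI
    filter_upwards [ae_restrict_mem measurableSet_Ioc, coe_mz η f] with x h2 h3
    rw [h3, hb, ex_mul, ex_smul, ex_fe _ ⟨h2.1.le, h2.2⟩, ← Complex.ofReal_mul, ← Real.exp_add,
      mul_assoc]
    congr 3
    ring
  have h2 := cs_loc b f hz H_memI hz.2
  rw [← h1] at h2
  have hnb : ∀ x ∈ Icc z H, ‖ex b x‖ ^ 2 ≤ 1 := by
    intro x hx
    have hx' : x ∈ Icc (0:ℝ) H := ⟨hz.1.trans hx.1, hx.2⟩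
    rw [hb, ex_mul, ex_smul, ex_fe _ hx', ← Complex.ofReal_mul, ← Real.exp_add, norm_mul,
      Complex.norm_real, Real.norm_eq_abs, abs_of_pos (Real.exp_pos _)]
    have e1 : Real.exp (|k| * z + -|k| * x) ≤ 1 := by
      rw [Real.exp_le_one_iff]
      have := mul_nonneg (abs_nonneg k) (sub_nonneg.2 hx.1)
      nlinarith
    have e2 : ‖ex η x‖ ≤ 1 := (norm_ex_le η x).trans hη
    have e3 : Real.exp (|k| * z + -|k| * x) * ‖ex η x‖ ≤ 1 := by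
      calc _ ≤ (1:ℝ) * 1 := mul_le_mul e1 e2 (norm_nonneg _) zero_le_one
        _ = 1 := one_mul 1
    exact pow_le_one₀ (by positivity) e3
  have hnb0 : ∀ x ∈ Icc z H, c ≤ x → ex b x = 0 := by
    intro x hx hcx
    have hx' : x ∈ Icc (0:ℝ) H := ⟨hz.1.trans hx.1, hx.2⟩
    rw [hb, ex_mul, hz0 x hx' hcx, mul_zero]
  have hcont : Continuous fun x => ‖ex b x‖ ^ 2 := (continuous_ex b).norm.pow 2
  have h3 : ∫ x in z..H, ‖ex b x‖ ^ 2 ≤ max (c - z) 0 := by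
    rcases le_total c z with hcz | hcz
    · have : ∫ x in z..H, ‖ex b x‖ ^ 2 = ∫ _x in z..H, (0:ℝ) := by
        refine intervalIntegral.integral_congr fun x hx => ?_
        rw [uIcc_of_le hz.2] at hx
        show ‖ex b x‖ ^ 2 = 0
        rw [hnb0 x hx (hcz.trans hx.1), norm_zero]
        norm_num
      rw [this, intervalIntegral.integral_zero]
      exact le_max_right _ _
    · have e1 : ∫ x in z..H, ‖ex b x‖ ^ 2 = (∫ x in z..c, ‖ex b x‖ ^ 2) + ∫ x in c..H, ‖ex b x‖ ^ 2 :=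
        (intervalIntegral.integral_add_adjacent_intervals (hcont.intervalIntegrable _ _)
          (hcont.intervalIntegrable _ _)).symm
      have e2 : ∫ x in c..H, ‖ex b x‖ ^ 2 = ∫ _x in c..H, (0:ℝ) := by
        refine intervalIntegral.integral_congr fun x hx => ?_
        rw [uIcc_of_le hcH] at hx
        show ‖ex b x‖ ^ 2 = 0
        rw [hnb0 x ⟨hcz.trans hx.1, hx.2⟩ hx.1, norm_zero]
        norm_num
      have e3 : ∫ x in z..c, ‖ex b x‖ ^ 2 ≤ ∫ _x in z..c, (1:ℝ) := by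
        apply intervalIntegral.integral_mono_on hcz (hcont.intervalIntegrable _ _)
          (continuous_const.intervalIntegrable _ _)
        intro x hx
        exact hnb x ⟨hx.1, hx.2.trans hcH⟩
      rw [intervalIntegral.integral_const, smul_eq_mul, mul_one] at e3
      rw [e1, e2, intervalIntegral.integral_zero, add_zero]
      exact e3.trans (le_max_left _ _)
  have h4 : 0 ≤ ∫ x in z..H, ‖ex b x‖ ^ 2 :=
    intervalIntegral.integral_nonneg hz.2 fun x _ => by positivity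
  calc ‖ex (Tz k (mz η f)) z‖ ^ 2 ≤ (√(∫ x in z..H, ‖ex b x‖ ^ 2) * ‖f‖) ^ 2 :=
        pow_le_pow_left₀ (norm_nonneg _) h2 2
    _ = (∫ x in z..H, ‖ex b x‖ ^ 2) * ‖f‖ ^ 2 := by rw [mul_pow, Real.sq_sqrt h4]
    _ ≤ max (c - z) 0 * ‖f‖ ^ 2 := mul_le_mul_of_nonneg_right h3 (by positivity)

/-- `‖T_k (η f)‖ ≤ c ‖f‖` for `η` supported in `z ≤ c`. -/
theorem ltsm_T2 (k : ℝ) {c : ℝ} (hc : 0 < c) {η : CI H} (hη : ‖η‖ ≤ 1)
    (hz0 : ∀ z ∈ Icc (0:ℝ) H, c ≤ z → ex η z = 0) (f : Z2 H) :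
    ‖T2 k (mz η f)‖ ≤ c * ‖f‖ := by
  have h0 := hH.out
  have hm : ‖mz η f‖ ≤ ‖f‖ := (norm_mz_apply_le η f).trans (mul_le_of_le_one_left (norm_nonneg _) hη)
  rcases le_total H c with hHc | hcH
  · calc ‖T2 k (mz η f)‖ ≤ H * ‖mz η f‖ := (T2 k).le_of_opNorm_le (norm_T2_le _) _
      _ ≤ c * ‖f‖ := mul_le_mul hHc hm (norm_nonneg _) hc.le
  · refine (sq_le_sq₀ (norm_nonneg _) (by positivity)).1 ?_
    rw [T2_apply, norm_sq_iota]
    have hcont : Continuous fun z => max (c - z) 0 * ‖f‖ ^ 2 := by fun_prop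
    have hcont' : Continuous fun z => ‖ex (Tz k (mz η f)) z‖ ^ 2 := (continuous_ex _).norm.pow 2
    have h1 : ∫ z in (0:ℝ)..H, ‖ex (Tz k (mz η f)) z‖ ^ 2 ≤ ∫ z in (0:ℝ)..H, max (c - z) 0 * ‖f‖ ^ 2 := by
      apply intervalIntegral.integral_mono_on h0.le (hcont'.intervalIntegrable _ _)
        (hcont.intervalIntegrable _ _)
      intro z hz
      exact ltsm_pt k hcH hc hη hz0 f hz
    refine h1.trans ?_
    have e1 : ∫ z in (0:ℝ)..H, max (c - z) 0 * ‖f‖ ^ 2 =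
        (∫ z in (0:ℝ)..c, max (c - z) 0 * ‖f‖ ^ 2) + ∫ z in c..H, max (c - z) 0 * ‖f‖ ^ 2 :=
      (intervalIntegral.integral_add_adjacent_intervals (hcont.intervalIntegrable _ _)
        (hcont.intervalIntegrable _ _)).symm
    have e2 : ∫ z in c..H, max (c - z) 0 * ‖f‖ ^ 2 = ∫ _z in c..H, (0:ℝ) := by
      refine intervalIntegral.integral_congr fun z hz => ?_
      rw [uIcc_of_le hcH] at hz
      show max (c - z) 0 * ‖f‖ ^ 2 = 0
      rw [max_eq_right (by linarith [hz.1]), zero_mul]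
    have e3 : ∫ z in (0:ℝ)..c, max (c - z) 0 * ‖f‖ ^ 2 ≤ ∫ _z in (0:ℝ)..c, c * ‖f‖ ^ 2 := by
      apply intervalIntegral.integral_mono_on hc.le (hcont.intervalIntegrable _ _)
        (continuous_const.intervalIntegrable _ _)
      intro z hz
      exact mul_le_mul_of_nonneg_right (max_le (by linarith [hz.1]) hc.le) (by positivity)
    rw [intervalIntegral.integral_const, smul_eq_mul, sub_zero] at e3
    rw [e1, e2, intervalIntegral.integral_zero, add_zero]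
    calc _ ≤ c * (c * ‖f‖ ^ 2) := e3
      _ = (c * ‖f‖) ^ 2 := by ring

/-- Real interpolation: `l^{3/8} t ≤ C^{3/8} c^{5/8} y`. -/
private theorem ltsm_real {l t C c y : ℝ} (hl : 0 ≤ l) (ht : 0 ≤ t) (hC : 0 ≤ C) (hc : 0 ≤ c)
    (hy : 0 ≤ y) (h1 : l * t ≤ C * y) (h2 : t ≤ c * y) :
    l ^ (3 / 8 : ℝ) * t ≤ C ^ (3 / 8 : ℝ) * c ^ (5 / 8 : ℝ) * y := by
  have e1 : l ^ (3 / 8 : ℝ) * t = (l * t) ^ (3 / 8 : ℝ) * t ^ (5 / 8 : ℝ) := by
    rw [Real.mul_rpow hl ht, mul_assoc, ← Real.rpow_add_of_nonneg ht (by norm_num) (by norm_num)]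
    norm_num
  have e2 : C ^ (3 / 8 : ℝ) * c ^ (5 / 8 : ℝ) * y = (C * y) ^ (3 / 8 : ℝ) * (c * y) ^ (5 / 8 : ℝ) := by
    rw [Real.mul_rpow hC hy, Real.mul_rpow hc hy]
    have : y ^ (3 / 8 : ℝ) * y ^ (5 / 8 : ℝ) = y := by
      rw [← Real.rpow_add_of_nonneg hy (by norm_num) (by norm_num)]
      norm_num
    calc C ^ (3 / 8 : ℝ) * c ^ (5 / 8 : ℝ) * y
        = C ^ (3 / 8 : ℝ) * c ^ (5 / 8 : ℝ) * (y ^ (3 / 8 : ℝ) * y ^ (5 / 8 : ℝ)) := by rw [this]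
      _ = _ := by ring
  rw [e1, e2]
  exact mul_le_mul (Real.rpow_le_rpow (mul_nonneg hl ht) h1 (by norm_num))
    (Real.rpow_le_rpow ht h2 (by norm_num)) (Real.rpow_nonneg ht _)
    (Real.rpow_nonneg (mul_nonneg hC hy) _)

/-- **Smallness of `Λ^{3/8} T` on functions supported near the wall.** Proof: mode by mode, for `f ∈ Z2`
vanishing for `z ≥ c`: `T_k f = 0` for `z ≥ c` and `‖T_k f‖_2 ≤ c ‖f‖` (`|T_k f(z)| ≤ ∫ |f| ≤ c^{1/2} ‖f‖`),
`lam ‖T_k f‖ ≤ C ‖f‖` (`LamOK.T2_le`), so `lam^{3/8} ‖T_k f‖ ≤ (lam ‖T_k f‖)^{3/8} ‖T_k f‖^{5/8} ≤ C c^{5/8} ‖f‖`. -/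
theorem LT_small (G : Geo H) : ∃ C, 0 ≤ C ∧ ∀ {c : ℝ} (_ : 0 < c) {η : CI H} (_ : ‖η‖ ≤ 1)
    (_ : ∀ z ∈ Icc (0:ℝ) H, c ≤ z → ex η z = 0) (y : HH H),
    ‖LT G.ω G.lam (3 / 8) (Ms η y)‖ ≤ C * c ^ (5 / 8 : ℝ) * ‖y‖ := by
  have h0 := hH.out
  have hω := G.ω_pos
  have hok := G.lamOK
  have hC0 : 0 ≤ (G.N₀ + G.ω) * (H + G.ω⁻¹) := mul_nonneg hok.C0 (by positivity)
  refine ⟨2 * ((G.N₀ + G.ω) * (H + G.ω⁻¹)) ^ (3 / 8 : ℝ), by positivity, ?_⟩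
  intro c hc η hη hz0 y
  have hmode : ∀ n, ‖LT G.ω G.lam (3 / 8) (Ms η y) n‖ ≤
      (((G.N₀ + G.ω) * (H + G.ω⁻¹)) ^ (3 / 8 : ℝ) * c ^ (5 / 8 : ℝ)) * ‖y n‖ + 0 * ‖y n‖ := by
    intro n
    have hl : (0:ℝ) ≤ G.lam n := by linarith [hok.one n]
    have e1 : Ms η y n = mz η (y n) := dg_apply (C := ‖η‖) (fun _ => norm_mz_le η) y n
    rw [hok.LT_apply (by norm_num) _ n, e1, norm_smul, Complex.norm_real,
      Real.norm_of_nonneg (Real.rpow_nonneg hl _), zero_mul, add_zero]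
    have hm : ‖mz η (y n)‖ ≤ ‖y n‖ :=
      (norm_mz_apply_le η (y n)).trans (mul_le_of_le_one_left (norm_nonneg _) hη)
    refine ltsm_real hl (norm_nonneg _) hC0 hc.le (norm_nonneg _) ?_
      (ltsm_T2 (G.ω * n) hc hη hz0 (y n))
    exact (hok.T2_le n _).trans (mul_le_mul_of_nonneg_left hm hC0)
  have := l2_norm_le_two (x := LT G.ω G.lam (3 / 8) (Ms η y)) (y := y) (z := y)
    (a := ((G.N₀ + G.ω) * (H + G.ω⁻¹)) ^ (3 / 8 : ℝ) * c ^ (5 / 8 : ℝ)) (b := 0)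
    (by positivity) le_rfl hmode
  refine this.trans (le_of_eq ?_)
  ring

end

end Pool.Agent.Lib.MP_79abb3_an.SC
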