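import Pool.Agent.Lib.MP_79abb3_an.FW.FlAb
import Pool.Agent.Lib.MP_79abb3_an.SC.FcD
import Pool.Agent.Lib.MP_79abb3_an.SC.FlGa

/-!
MP_79abb3_an, simply connected domains, block (iii): the cut-off `cutz` and the lower bound of `ρ`.
-/

set_option autoImplicit false
set_option linter.unusedSectionVars false

open MeasureTheory Set Filter Topology Function
open scoped ENNReal InnerProductSpace

namespace Pool.Agent.Lib.MP_79abb3_an.SC

open Pool.Agent.Lib.MP_79abb3_an.P25 Pool.Agent.Lib.MP_79abb3_an.FW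

section
variable {H : ℝ} [hH : Fact (0 < H)]

/-- smooth cut-off: `0` for `z ≤ 2/√m`, `1` for `z ≥ 4/√m` -/
noncomputable def cutz (m z : ℝ) : ℝ := Real.smoothTransition ((z * √m - 2) / 2)

theorem cutz_smooth (m : ℝ) : ContDiff ℝ ((⊤ : ℕ∞) : WithTop ℕ∞) (cutz m) := by
  have h : ContDiff ℝ ((⊤ : ℕ∞) : WithTop ℕ∞) (fun z : ℝ => (z * √m - 2) / 2) := by fun_prop
  exact Real.smoothTransition.contDiff.comp h

theorem cutz_c (m : ℝ) : Continuous (cutz m) := (cutz_smooth m).continuous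

theorem cutz_bd (m z : ℝ) : 0 ≤ cutz m z ∧ cutz m z ≤ 1 :=
  ⟨Real.smoothTransition.nonneg _, Real.smoothTransition.le_one _⟩

theorem cutz_zero {m : ℝ} (hm : 0 < m) {z : ℝ} (hz : z ≤ 2 / √m) : cutz m z = 0 := by
  have h1 : 0 < √m := Real.sqrt_pos.2 hm
  have h2 : z * √m ≤ 2 := by rwa [le_div_iff₀ h1] at hz
  exact Real.smoothTransition.zero_of_nonpos (by linarith)

theorem cutz_one {m : ℝ} (hm : 0 < m) {z : ℝ} (hz : 4 / √m ≤ z) : cutz m z = 1 := by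
  have h1 : 0 < √m := Real.sqrt_pos.2 hm
  have h2 : 4 ≤ z * √m := by rwa [div_le_iff₀ h1] at hz
  exact Real.smoothTransition.one_of_one_le (by linarith)

private theorem flgz_pt {m : ℝ} (hm : 1 ≤ m) (y z : ℝ) :
    4 * m ^ 2 * Real.exp √m * (cutz m z * cutz m z) ≤ A0 m * muu m * rF m (muu m) (y, z) := by
  have hm0 : 0 < m := by linarith
  have hA : 0 ≤ A0 m * muu m := by
    unfold A0 muu
    positivity
  have hr : 0 ≤ rF m (muu m) (y, z) := rF_nonneg _ _ _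
  rcases le_total z (2 / √m) with h | h
  · rw [cutz_zero hm0 h, mul_zero, mul_zero]
    exact mul_nonneg hA hr
  · have h1 := rho_low hm y h
    obtain ⟨c0, c1⟩ := cutz_bd m z
    have h2 : cutz m z * cutz m z ≤ 1 := by nlinarith
    have h3 : 0 ≤ 4 * m ^ 2 * Real.exp √m := by positivity
    calc 4 * m ^ 2 * Real.exp √m * (cutz m z * cutz m z) ≤ 4 * m ^ 2 * Real.exp √m * 1 :=
          mul_le_mul_of_nonneg_left h2 h3
      _ = 4 * m ^ 2 * Real.exp √m := mul_one _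
      _ ≤ _ := h1

private theorem flgz_smul {F : ℝ × ℝ → ℝ} (hF : PY H F) (c : ℝ) (q : HH H) :
    (⟪q, cm (fam fun p => c * F p) q⟫_ℂ).re = c * (⟪q, cm (fam F) q⟫_ℂ).re := by
  rw [← cm_fam_mul (PY.const H c) hF q, cm_fam_const, inner_smul_right, Complex.re_ofReal_mul]

/-- **Lower bound of `ρ`.** Proof: `FW.rho_low`, `cm_fam_mono` (with `4 m² e^{√m} cutz²`, `PY.of_z`),
`cm_fam_z`, `‖Ms χ q‖² = ⟪Ms χ² q, q⟫`. -/
theorem rho_cut {ω : ℝ} (hω : ω * H = Real.pi) {N : ℕ} (hm : 1 ≤ ω * N) (q : HH H) :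
    4 * (ω * N) ^ 2 * Real.exp √(ω * N) * ‖Ms (rc (cutz (ω * N)) (cutz_c _)) q‖ ^ 2 ≤
      A0 (ω * N) * muu (ω * N) * (⟪cm (fam (rF (ω * N) (muu (ω * N)))) q, q⟫_ℂ).re := by
  have hχ : PY H (fun p => cutz (ω * N) p.2) := PY.of_z H (cutz_smooth _)
  have hr : PY H (rF (ω * N) (muu (ω * N))) := rF_PY hω rfl _
  have h1 := cm_fam_mono ((PY.const H (4 * (ω * N) ^ 2 * Real.exp √(ω * N))).mul (hχ.mul hχ))
    ((PY.const H (A0 (ω * N) * muu (ω * N))).mul hr) (fun y _ z _ => flgz_pt hm y z) q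
  rw [flgz_smul (hχ.mul hχ), flgz_smul hr, cm_fam_sq hχ, cm_fam_z (cutz_c _)] at h1
  have h2 : (⟪cm (fam (rF (ω * N) (muu (ω * N)))) q, q⟫_ℂ).re =
      (⟪q, cm (fam (rF (ω * N) (muu (ω * N)))) q⟫_ℂ).re := by
    have := inner_re_symm (𝕜 := ℂ) (cm (fam (rF (ω * N) (muu (ω * N)))) q) q
    exact this
  rw [h2]
  exact h1

end

end Pool.Agent.Lib.MP_79abb3_an.SC
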