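import Pool.Agent.Lib.MP_79abb3_an.SC.ExZ
import Pool.Agent.Lib.MP_79abb3_an.SC.FlAp
import Pool.Agent.Lib.MP_79abb3_an.SC.FlBg
import Pool.Agent.Lib.MP_79abb3_an.SC.FlGc3
import Pool.Agent.Lib.MP_79abb3_an.SC.FlGz

/-!
MP_79abb3_an, simply connected domains, block (iii): preparations for the flush theorem.
-/

set_option autoImplicit false
set_option linter.unusedSectionVars false

open MeasureTheory Set Filter Topology Function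
open scoped ENNReal InnerProductSpace

namespace Pool.Agent.Lib.MP_79abb3_an.SC

open Pool.Agent.Lib.MP_79abb3_an.P25 Pool.Agent.Lib.MP_79abb3_an.FW

section
variable {H : ℝ} [hH : Fact (0 < H)]

theorem cellV_amp0 (m : ℝ) (N : ℕ) (n : ℤ) : (cellV m N 0 n : CI H) = 0 := by
  unfold cellV
  have h1 : (Complex.I * (((0:ℝ) / 2 * sN N n : ℝ) : ℂ)) = 0 := by simp
  rw [h1]; exact zero_smul ℂ (_ : CI H)

theorem cellW_amp0 (m : ℝ) (N : ℕ) (n : ℤ) : (cellW m N 0 n : CI H) = 0 := by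
  unfold cellW
  have h1 : (((0:ℝ) / 2 * |sN N n| : ℝ) : ℂ) = 0 := by simp
  rw [h1]; exact zero_smul ℂ (_ : CI H)

theorem eq_zero_of_hf (G : Geo H) {v : l2 (CI H)} (h : ∀ n, hf G.lam v n = 0) : v = 0 := by
  refine lp.ext (funext fun n => ci_ext fun z hz => ?_)
  have h1 := congrArg (fun f : CI H => ex f z) (h n)
  have h2 : ex (hf G.lam v n) z = ((G.lam n ^ (-(1 / 2 : ℝ)) : ℝ) : ℂ) * ex (v n) z := by
    rw [hf_apply, ex_smul]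
  have h3 : ((G.lam n ^ (-(1 / 2 : ℝ)) : ℝ) : ℂ) ≠ 0 :=
    Complex.ofReal_ne_zero.2 (Real.rpow_pos_of_pos (G.lw.pos n) _).ne'
  have h4 : ex (hf G.lam v n) z = 0 := h1.trans (ex_zero _)
  rw [h2] at h4
  rw [(mul_eq_zero.1 h4).resolve_left h3]
  exact (ex_zero z).symm

variable {G : Geo H} {N : ℕ} {A : ℝ → ℝ} {b : ℝ} {B : Bg H}

theorem CellBg.off (h : CellBg G N A b B) {t : ℝ} (ht : t ∈ Icc 0 b) (h0 : A t = 0) :
    B.ve t = 0 ∧ B.we t = 0 ∧ B.gL t = 0 := by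
  refine ⟨eq_zero_of_hf G fun n => ?_, eq_zero_of_hf G fun n => ?_, h.gL t ht h0⟩
  · rw [h.ve t ht n, h0, cellV_amp0]
  · rw [h.we t ht n, h0, cellW_amp0]

theorem CellBg.nsl (h : CellBg G N A b B) : G.Nsl B 0 b := by
  intro t ht n
  rw [h.tr0 t ht n, h.ve t ht n, h.we t ht n]
  have h0 : (0:ℝ) ∈ Icc (0:ℝ) H := ⟨le_rfl, hH.out.le⟩
  constructor
  · unfold cellV
    rw [ex_smul, ex_rc _ _ h0, mul_zero, Real.cosh_zero]
    simp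
  · unfold cellW
    rw [ex_smul, ex_rc _ _ h0, mul_zero, Real.sinh_zero]
    simp

theorem APb.mono {Θ C ε ε' : ℝ} {x : ℝ → HH H × HH H} {t : ℝ} (h : APb G N Θ C ε B x t)
    (he : ε ≤ ε') : APb G N Θ C ε' B x t :=
  ⟨h.y.trans (by linarith), h.y1, h.q, h.k1, h.k2⟩

theorem LT_bd (G : Geo H) : ∃ C, 0 ≤ C ∧ ∀ g : HH H, ‖LT G.ω G.lam (3 / 8) g‖ ≤ C * ‖g‖ :=
  ⟨‖(LT G.ω G.lam (3 / 8) : HH H →L[ℂ] HH H)‖, norm_nonneg _,
    fun g => (LT G.ω G.lam (3 / 8) : HH H →L[ℂ] HH H).le_opNorm g⟩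

theorem rc_norm_le_one {f : ℝ → ℝ} {hf : Continuous f} (h : ∀ z, 0 ≤ f z ∧ f z ≤ 1) :
    ‖(rc f hf : CI H)‖ ≤ 1 := by
  refine ci_norm_le zero_le_one fun z hz => ?_
  rw [ex_rc _ _ hz, Complex.norm_real, Real.norm_of_nonneg (h z).1]
  exact (h z).2

private theorem qh_end_real {a b a' b' x y C D c Z : ℝ} (h3 : a ≤ C * c * a') (h4 : b ≤ D * b')
    (h9 : C * c * a' ≤ C * c * (Z * x)) (h10 : D * b' ≤ D * (Z * y)) (p1 : 0 ≤ D * Z * c * x)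
    (p2 : 0 ≤ C * Z * y) : a + b ≤ (C * Z + D * Z) * c * x + (C * Z + D * Z) * y := by
  nlinarith

/-- `Λ^{3/8} T (ζ J q)` -/
theorem qh_end (G : Geo H) : ∃ C, 0 ≤ C ∧ ∀ {m : ℝ} (_ : 1 ≤ m) (p h' : HH H),
    ‖LT G.ω G.lam (3 / 8) (G.qh (p, h'))‖ ≤ C * (4 / √m) ^ (5 / 8 : ℝ) * ‖cm G.b (G.qL p)‖ +
      C * ‖Ms (rc (cutz m) (cutz_c m)) (cm G.b (G.qL p))‖ := by
  obtain ⟨C₁, hC₁, h1⟩ := LT_small G
  obtain ⟨C₂, hC₂, h2⟩ := LT_bd G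
  obtain ⟨Cb, hCb, hb⟩ := G.b_equiv
  have hCb0 : 0 ≤ Cb := zero_le_one.trans hCb
  refine ⟨C₁ * (‖G.ζ‖ * Cb) + C₂ * (‖G.ζ‖ * Cb), by positivity, fun {m} hm p h' => ?_⟩
  have hm0 : 0 < m := by linarith
  have hc : 0 < 4 / √m := by positivity
  have e1 : G.qh (p, h') = Ms G.ζ (cm G.b (cm G.b (G.qL p))) := by
    unfold Geo.qh; rw [G.bb]
  -- the cut-offs
  have hη : ‖(1 - rc (cutz m) (cutz_c m) : CI H)‖ ≤ 1 := by
    refine ci_norm_le zero_le_one fun z hz => ?_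
    have e : ex (1 : CI H) z = 1 := rfl
    rw [ex_sub, e, ex_rc _ _ hz, ← Complex.ofReal_one, ← Complex.ofReal_sub, Complex.norm_real,
      Real.norm_of_nonneg (by linarith [(cutz_bd m z).2])]
    linarith [(cutz_bd m z).1]
  have hη0 : ∀ z ∈ Icc (0:ℝ) H, 4 / √m ≤ z → ex (1 - rc (cutz m) (cutz_c m) : CI H) z = 0 := by
    intro z hz h4
    have e : ex (1 : CI H) z = 1 := rfl
    rw [ex_sub, e, ex_rc _ _ hz, cutz_one hm0 h4]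
    simp
  have hX : ∀ y : HH H, LT G.ω G.lam (3 / 8) y =
      LT G.ω G.lam (3 / 8) (Ms (1 - rc (cutz m) (cutz_c m)) y) +
        LT G.ω G.lam (3 / 8) (Ms (rc (cutz m) (cutz_c m)) y) := by
    intro y
    have e : Ms (1 : CI H) y = y := by
      refine lp.ext (funext fun n => ?_)
      rw [Ms_apply, mz_one]
    rw [← map_add, ← Ms_add, sub_add_cancel, e]
  have h3 := h1 hc hη hη0 (Ms G.ζ (cm G.b (cm G.b (G.qL p))))
  have h4 := h2 (Ms (rc (cutz m) (cutz_c m)) (Ms G.ζ (cm G.b (cm G.b (G.qL p)))))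
  have h5 : Ms (rc (cutz m) (cutz_c m)) (Ms G.ζ (cm G.b (cm G.b (G.qL p)))) =
      Ms G.ζ (cm G.b (Ms (rc (cutz m) (cutz_c m)) (cm G.b (G.qL p)))) := by
    rw [Ms_comm, MsCm G.hb.c.s0]
  have h6 : ∀ y : HH H, ‖Ms G.ζ (cm G.b y)‖ ≤ ‖G.ζ‖ * Cb * ‖y‖ := by
    intro y
    refine (norm_Ms_apply_le _ _).trans ?_
    rw [mul_assoc]
    exact mul_le_mul_of_nonneg_left (hb y).2 (norm_nonneg _)
  have h7 := h6 (Ms (rc (cutz m) (cutz_c m)) (cm G.b (G.qL p)))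
  have h8 := h6 (cm G.b (G.qL p))
  rw [e1, hX]
  refine (norm_add_le _ _).trans ?_
  have h9 : C₁ * (4 / √m) ^ (5 / 8 : ℝ) * ‖Ms G.ζ (cm G.b (cm G.b (G.qL p)))‖ ≤
      C₁ * (4 / √m) ^ (5 / 8 : ℝ) * (‖G.ζ‖ * Cb * ‖cm G.b (G.qL p)‖) :=
    mul_le_mul_of_nonneg_left h8 (mul_nonneg hC₁ (Real.rpow_nonneg hc.le _))
  have h10 : C₂ * ‖Ms (rc (cutz m) (cutz_c m)) (Ms G.ζ (cm G.b (cm G.b (G.qL p))))‖ ≤
      C₂ * (‖G.ζ‖ * Cb * ‖Ms (rc (cutz m) (cutz_c m)) (cm G.b (G.qL p))‖) := by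
    rw [h5]
    exact mul_le_mul_of_nonneg_left h7 hC₂
  have p1 : 0 ≤ C₂ * (‖G.ζ‖ * Cb) * (4 / √m) ^ (5 / 8 : ℝ) * ‖cm G.b (G.qL p)‖ := by positivity
  have p2 : 0 ≤ C₁ * (‖G.ζ‖ * Cb) * ‖Ms (rc (cutz m) (cutz_c m)) (cm G.b (G.qL p))‖ := by positivity
  exact qh_end_real h3 h4 h9 h10 p1 p2

/-- large `m` -/
theorem exists_N (G : Geo H) {P : ℝ → Prop} (h : ∀ᶠ m in atTop, P m) :
    ∃ N : ℕ, 1 ≤ N ∧ P (G.ω * N) := by
  have h1 : Tendsto (fun N : ℕ => G.ω * (N : ℝ)) atTop atTop :=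
    tendsto_natCast_atTop_atTop.const_mul_atTop G.ω_pos
  obtain ⟨N, hN⟩ := ((h1.eventually h).and (eventually_ge_atTop 1)).exists
  exact ⟨N, hN.2, hN.1⟩

/-- the state at the end -/
theorem sz_le (G : Geo H) (B : Bg H) (t : ℝ) (y : HH H × HH H) (h : B.gL t = 0) :
    G.sz y.2 ≤ ‖LT G.ω G.lam (3 / 8) (G.gV B t y)‖ + ‖LT G.ω G.lam (3 / 8) (G.qh y)‖ := by
  have e0 : G.Qd y.2 = G.qh y + G.gV B t y := by
    rw [← G.gt_gV]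
    show _ = G.Qd y.2 + B.gL t
    rw [h, add_zero]
  have e1 : G.sz y.2 = ‖LT G.ω G.lam (3 / 8) (G.Qd y.2)‖ := by
    rw [← N2_TT G (by norm_num), G.TT_Qd]; rfl
  rw [e1, e0, map_add, add_comm]
  exact norm_add_le _ _

end

end Pool.Agent.Lib.MP_79abb3_an.SC
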