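import Pool.Agent.Lib.MP_79abb3_an.SC.FlGd

/-!
MP_79abb3_an, simply connected domains, block (iii): the flush lemma.
-/

set_option autoImplicit false
set_option linter.unusedSectionVars false

open MeasureTheory Set Filter Topology Function
open scoped ENNReal InnerProductSpace

namespace Pool.Agent.Lib.MP_79abb3_an.SC

open Pool.Agent.Lib.MP_79abb3_an.P25 Pool.Agent.Lib.MP_79abb3_an.FW

section
variable {H : ℝ} [hH : Fact (0 < H)]

/-- the real variable part of the flush lemma -/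
private theorem flge_real {m C2 R : ℝ} (hm : 1 ≤ m) (hC2 : 0 ≤ C2) {Φ g f d : ℝ → ℝ}
    {b : ℝ} (hb : 1 / (16 * m ^ 2) ≤ b)
    (hint : Φ (1 / (16 * m ^ 2)) - Φ (1 / (32 * m ^ 2)) =
      ∫ r in (1 / (32 * m ^ 2))..(1 / (16 * m ^ 2)), g r)
    (cg : ContinuousOn g (Icc 0 b)) (cf : ContinuousOn f (Icc 0 b)) (cd : ContinuousOn d (Icc 0 b))
    (hd0 : ∀ r, 0 ≤ d r)
    (hg : ∀ r ∈ Icc (1 / (32 * m ^ 2)) (1 / (16 * m ^ 2)), g r ≤
      -(2 * m ^ 2 * Real.exp √m) * f r + C2 * Real.exp (-(√m / 2)) * (1 + d r))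
    (hΦ0 : 0 ≤ Φ (1 / (16 * m ^ 2))) (hΦ1 : Φ (1 / (32 * m ^ 2)) ≤ 3 * Real.pi / 2 * R)
    (hdR : ∫ r in (0:ℝ)..(1 / (16 * m ^ 2)), d r ≤ R) :
    ∃ t ∈ Icc (1 / (32 * m ^ 2)) (1 / (16 * m ^ 2)),
      f t ≤ 16 * (C2 * (1 + R) + 3 * Real.pi / 2 * R) * Real.exp (-√m) := by
  have m0 : 0 < m := by linarith
  obtain ⟨s, hs⟩ : ∃ s, s = 1 / (32 * m ^ 2) := ⟨_, rfl⟩
  obtain ⟨τ, hτ⟩ : ∃ τ, τ = 1 / (16 * m ^ 2) := ⟨_, rfl⟩
  rw [← hs, ← hτ] at hint hg ⊢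
  rw [← hτ] at hb hΦ0 hdR
  rw [← hs] at hΦ1
  have s0 : 0 < s := by rw [hs]; positivity
  have hτs : τ = 2 * s := by rw [hs, hτ]; field_simp; norm_num
  have hsτ : s ≤ τ := by linarith
  have τ0 : 0 ≤ τ := by linarith
  have hsub : Icc s τ ⊆ Icc 0 b := Icc_subset_Icc s0.le hb
  have hsub' : uIcc s τ ⊆ Icc 0 b := by rw [uIcc_of_le hsτ]; exact hsub
  have hsub0 : uIcc 0 s ⊆ Icc 0 b := by
    rw [uIcc_of_le s0.le]; exact Icc_subset_Icc le_rfl (hsτ.trans hb)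
  have ig : IntervalIntegrable g volume s τ := (cg.mono hsub').intervalIntegrable
  have iff' : IntervalIntegrable f volume s τ := (cf.mono hsub').intervalIntegrable
  have id : IntervalIntegrable d volume s τ := (cd.mono hsub').intervalIntegrable
  have id0 : IntervalIntegrable d volume 0 s := (cd.mono hsub0).intervalIntegrable
  obtain ⟨E, hE⟩ : ∃ E, E = Real.exp √m := ⟨_, rfl⟩
  have E0 : 0 < E := by rw [hE]; exact Real.exp_pos _
  obtain ⟨e, he⟩ : ∃ e, e = Real.exp (-(√m / 2)) := ⟨_, rfl⟩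
  have e0 : 0 ≤ e := by rw [he]; exact (Real.exp_pos _).le
  have e1 : e ≤ 1 := by
    rw [he, Real.exp_le_one_iff]
    have := Real.sqrt_nonneg m
    linarith
  rw [← hE, ← he] at hg
  have h1 : ∫ r in s..τ, g r ≤ ∫ r in s..τ, (-(2 * m ^ 2 * E) * f r + C2 * e * (1 + d r)) := by
    refine intervalIntegral.integral_mono_on hsτ ig ?_ hg
    exact (iff'.const_mul _).add ((intervalIntegrable_const.add id).const_mul _)
  have h2 : ∫ r in s..τ, (-(2 * m ^ 2 * E) * f r + C2 * e * (1 + d r)) =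
      -(2 * m ^ 2 * E) * (∫ r in s..τ, f r) + C2 * e * ((τ - s) + ∫ r in s..τ, d r) := by
    rw [intervalIntegral.integral_add (iff'.const_mul _)
      ((intervalIntegrable_const.add id).const_mul _), intervalIntegral.integral_const_mul,
      intervalIntegral.integral_const_mul, intervalIntegral.integral_add intervalIntegrable_const id,
      intervalIntegral.integral_const]
    simp
  have h3 : ∫ r in s..τ, d r ≤ R := by
    have h4 := intervalIntegral.integral_add_adjacent_intervals id0 id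
    have h5 : 0 ≤ ∫ r in (0:ℝ)..s, d r := intervalIntegral.integral_nonneg s0.le fun r _ => hd0 r
    linarith
  have h3' : 0 ≤ ∫ r in s..τ, d r := intervalIntegral.integral_nonneg hsτ fun r _ => hd0 r
  have hm2 : (1:ℝ) ≤ m ^ 2 := one_le_pow₀ hm
  have hs1 : τ - s ≤ 1 := by
    have : s ≤ 1 := by
      rw [hs, div_le_one (by positivity)]
      linarith
    linarith
  have h6 : C2 * e * ((τ - s) + ∫ r in s..τ, d r) ≤ C2 * (1 + R) := by
    have h7 : C2 * e ≤ C2 * 1 := mul_le_mul_of_nonneg_left e1 hC2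
    have h8 : (τ - s) + ∫ r in s..τ, d r ≤ 1 + R := by linarith
    have h9 : 0 ≤ (τ - s) + ∫ r in s..τ, d r := by linarith
    calc C2 * e * ((τ - s) + ∫ r in s..τ, d r) ≤ C2 * 1 * ((τ - s) + ∫ r in s..τ, d r) :=
          mul_le_mul_of_nonneg_right h7 h9
      _ ≤ C2 * 1 * (1 + R) := mul_le_mul_of_nonneg_left h8 (by linarith)
      _ = C2 * (1 + R) := by ring
  have h10 : 2 * m ^ 2 * E * (∫ r in s..τ, f r) ≤ C2 * (1 + R) + 3 * Real.pi / 2 * R := by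
    have h11 := h1
    rw [h2, ← hint] at h11
    linarith
  obtain ⟨t, ht, htm⟩ := isCompact_Icc.exists_isMinOn (nonempty_Icc.2 hsτ) (cf.mono hsub)
  refine ⟨t, ht, ?_⟩
  have h12 : (τ - s) * f t ≤ ∫ r in s..τ, f r := by
    have h13 := intervalIntegral.integral_mono_on (μ := volume) (f := fun _ => f t) (g := f) hsτ
      intervalIntegrable_const iff' (fun r hr => htm hr)
    rwa [intervalIntegral.integral_const, smul_eq_mul] at h13
  have h14 : τ - s = 1 / (32 * m ^ 2) := by rw [hτs, ← hs]; ring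
  rw [h14] at h12
  have h15 : 2 * m ^ 2 * E * (1 / (32 * m ^ 2) * f t) ≤ C2 * (1 + R) + 3 * Real.pi / 2 * R :=
    (mul_le_mul_of_nonneg_left h12 (by positivity)).trans h10
  have h16 : 2 * m ^ 2 * E * (1 / (32 * m ^ 2) * f t) = E * f t / 16 := by
    field_simp
    ring
  rw [h16] at h15
  have h17 : Real.exp (-√m) * E = 1 := by rw [hE, ← Real.exp_add]; simp
  have h18 : 0 < Real.exp (-√m) := Real.exp_pos _
  have h19 : f t = Real.exp (-√m) * (E * f t) := by rw [← mul_assoc, h17, one_mul]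
  rw [h19]
  have h20 : E * f t ≤ 16 * (C2 * (1 + R) + 3 * Real.pi / 2 * R) := by linarith
  calc Real.exp (-√m) * (E * f t) ≤ Real.exp (-√m) * (16 * (C2 * (1 + R) + 3 * Real.pi / 2 * R)) :=
        mul_le_mul_of_nonneg_left h20 h18.le
    _ = 16 * (C2 * (1 + R) + 3 * Real.pi / 2 * R) * Real.exp (-√m) := by ring

/-- **Flush lemma.** `τ = 1/(16 m²)`; the amplitude is `A0 m` on `[τ/2, τ]`. Proof: `FlS.dF_int` with
`F = gF m μ` on `[τ/2, τ]`, `FlS.flush_ineq`, `∫ D² ≤ Θ² + 1` (`APb.q`), and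
`0 ≤ ⟪F (b q), b q⟫ ≤ (3π/2) ‖b q‖² ≤ (3π/2)(Θ²+1)`: hence
`2 m² e^{√m} ∫_{τ/2}^τ ‖χ q‖² ≤ C₂'`, and the minimum of the continuous function `‖χ q‖²` over
`[τ/2, τ]` is at most its mean, `≤ C₂' / (2 m² e^{√m} · τ/2) = 16 C₂' e^{-√m}`. -/
theorem FlS.flush (G : Geo H) {Θ C' : ℝ} (hΘ : 0 ≤ Θ) (hC' : 0 ≤ C') : ∃ C, 0 ≤ C ∧
    ∀ {N : ℕ} {A : ℝ → ℝ} {b : ℝ} {B : Bg H} {x : ℝ → HH H × HH H} (_ : FlS G N A b B x)
    (_ : 1 ≤ G.ω * N) (_ : 1 / (16 * (G.ω * N) ^ 2) ≤ b)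
    (_ : ∀ t ∈ Icc (1 / (32 * (G.ω * N) ^ 2)) (1 / (16 * (G.ω * N) ^ 2)), A t = FW.A0 (G.ω * N))
    (_ : ∀ t ∈ Icc 0 b, APb G N Θ C' 1 B x t),
    ∃ t ∈ Icc (1 / (32 * (G.ω * N) ^ 2)) (1 / (16 * (G.ω * N) ^ 2)),
      ‖Ms (rc (cutz (G.ω * N)) (cutz_c _)) (G.qL (x t).1)‖ ^ 2 ≤ C * Real.exp (-√(G.ω * N)) := by
  obtain ⟨C2, hC2, hfl⟩ := FlS.flush_ineq G hΘ hC'
  have hπ := Real.pi_pos
  refine ⟨16 * (C2 * (1 + (Θ ^ 2 + 1)) + 3 * Real.pi / 2 * (Θ ^ 2 + 1)), by positivity, ?_⟩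
  intro N A b B x h hm hb hA hAP
  have m0 : 0 < G.ω * N := by linarith
  have hω : G.ω * H = Real.pi := by
    rw [G.hω, div_mul_cancel₀ _ hH.out.ne']
  have hμ : 0 < muu (G.ω * N) := by
    unfold muu
    exact mul_pos (by linarith) (Real.exp_pos _)
  have hF : PY H (gF (G.ω * N) (muu (G.ω * N))) := gF_PY hω rfl _
  have hb1 : 1 / (32 * (G.ω * N) ^ 2) ≤ 1 / (16 * (G.ω * N) ^ 2) := by
    refine one_div_le_one_div_of_le (by positivity) ?_
    have := sq_nonneg (G.ω * (N : ℝ))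
    linarith
  have hs0 : 0 ≤ 1 / (32 * (G.ω * (N : ℝ)) ^ 2) := by positivity
  have hτ0 : 0 ≤ 1 / (16 * (G.ω * (N : ℝ)) ^ 2) := by positivity
  have hint := h.dF_int hF hs0 hb1 hb
  have cq : ContinuousOn (fun r => ‖Ms (rc (cutz (G.ω * N)) (cutz_c _)) (G.qL (x r).1)‖ ^ 2)
      (Icc 0 b) :=
    ((((Ms (rc (cutz (G.ω * N)) (cutz_c _)) : HH H →L[ℂ] HH H) ∘L G.qL).continuous.comp_continuousOn
      (continuous_fst.comp_continuousOn h.sol.cont)).norm).pow 2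
  have cd : ContinuousOn (fun r => ‖(x r).1‖ ^ 2) (Icc 0 b) :=
    ((continuous_fst.comp_continuousOn h.sol.cont).norm).pow 2
  refine flge_real hm hC2 (R := Θ ^ 2 + 1) (b := b)
    (Φ := fun t => (⟪cm (fam (gF (G.ω * N) (muu (G.ω * N)))) (cm G.b (G.qL (x t).1)),
      cm G.b (G.qL (x t).1)⟫_ℂ).re) (g := fun r => G.dFr (gF (G.ω * N) (muu (G.ω * N))) B r (x r))
    (f := fun r => ‖Ms (rc (cutz (G.ω * N)) (cutz_c _)) (G.qL (x r).1)‖ ^ 2)
    (d := fun r => ‖(x r).1‖ ^ 2) hb hint.2 hint.1 cq cd (fun r => sq_nonneg _) ?_ ?_ ?_ ?_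
  · intro r hr
    have hr' : r ∈ Icc 0 b := ⟨hs0.trans hr.1, hr.2.trans hb⟩
    exact hfl h hm hr' (hA r hr) (hAP r hr')
  · have h1 := cm_fam_nonneg hF (fun y _ z hz => by
      have h2 := (gF_bd hω m0 rfl hμ y hz).1
      linarith) (cm G.b (G.qL (x (1 / (16 * (G.ω * (N : ℝ)) ^ 2))).1))
    rw [← inner_cm_fam hF] at h1
    exact h1
  · have h1 := cm_fam_le hF (c := 3 * Real.pi / 2) (fun y _ z hz => (gF_bd hω m0 rfl hμ y hz).2.1)
      (cm G.b (G.qL (x (1 / (32 * (G.ω * (N : ℝ)) ^ 2))).1))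
    rw [← inner_cm_fam hF] at h1
    refine h1.trans (mul_le_mul_of_nonneg_left ?_ (by positivity))
    have h2 := (hAP _ ⟨hs0, hb1.trans hb⟩).q
    have h3 : 0 ≤ ∫ r in (0:ℝ)..(1 / (32 * (G.ω * (N : ℝ)) ^ 2)), ‖(x r).1‖ ^ 2 :=
      intervalIntegral.integral_nonneg hs0 fun _ _ => sq_nonneg _
    linarith
  · have h2 := (hAP _ ⟨hτ0, hb⟩).q
    have h3 := sq_nonneg (‖cm G.b (G.qL (x (1 / (16 * (G.ω * (N : ℝ)) ^ 2))).1)‖)
    linarith

end

end Pool.Agent.Lib.MP_79abb3_an.SC
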