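import Pool.Agent.Lib.MP_79abb3_an.SC.FlGd

/-!
MP_79abb3_an, simply connected domains, block (iii): switching off the amplitude.
-/

set_option autoImplicit false
set_option linter.unusedSectionVars false

open MeasureTheory Set Filter Topology Function
open scoped ENNReal InnerProductSpace

namespace Pool.Agent.Lib.MP_79abb3_an.SC

open Pool.Agent.Lib.MP_79abb3_an.P25 Pool.Agent.Lib.MP_79abb3_an.FW

section
variable {H : ℝ} [hH : Fact (0 < H)]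

/-- the family of a smooth function acts as a bounded operator -/
private theorem flgs_op {F : ℝ × ℝ → ℝ} (hF : PY H F) : ∃ C, 0 ≤ C ∧
    ∀ x : HH H, ‖cm (fam F) x‖ ≤ C * ‖x‖ :=
  ⟨∑' n, ‖(fam F n : CI H)‖, tsum_nonneg fun _ => norm_nonneg _, fun x =>
    norm_cm_apply_le (fam_s0 hF) x⟩

/-- a smooth function is bounded on the cell -/
private theorem flgs_bd {F : ℝ × ℝ → ℝ} (hF : PY H F) : ∃ M, 0 ≤ M ∧
    ∀ y ∈ Icc (-H) H, ∀ z ∈ Icc (0:ℝ) H, |F (y, z)| ≤ M := by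
  have hK : IsCompact (Icc (-H) H ×ˢ Icc (0:ℝ) H) := isCompact_Icc.prod isCompact_Icc
  obtain ⟨M, hM⟩ := hK.exists_bound_of_continuousOn hF.smooth.continuous.continuousOn
  refine ⟨max M 0, le_max_right _ _, fun y hy z hz => ?_⟩
  have h1 := hM (y, z) ⟨hy, hz⟩
  rw [Real.norm_eq_abs] at h1
  exact h1.trans (le_max_left _ _)

/-- the cell part of the transport term -/
private theorem flgs_cell {ω : ℝ} (hω : ω * H = Real.pi) {N : ℕ} (hN : 1 ≤ N) {F : ℝ × ℝ → ℝ}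
    (hF : PY H F) : ∃ C, 0 ≤ C ∧ ∀ (α : ℝ) (q : HH H),
    ‖dp (cm (fam (pY F)) q) (pz q (cellV (ω * N) N α)) +
      dp (cm (fam (pZ F)) q) (pz q (cellW (ω * N) N α))‖ ≤ C * (|α| * ‖q‖ ^ 2) := by
  have hK : PY H (fun p : ℝ × ℝ => -(1 * Real.sin (ω * N * p.1) * Real.cosh (ω * N * p.2)) * pY F p +
      1 * Real.cos (ω * N * p.1) * Real.sinh (ω * N * p.2) * pZ F p) :=
    ((cellV_PY hω N 1).mul hF.pY).add ((cellW_PY hω N 1).mul hF.pZ)
  obtain ⟨C, hC, hCb⟩ := flgs_op hK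
  refine ⟨C, hC, fun α q => ?_⟩
  rw [dp_cell hω hN α hF q]
  have e : (fun p : ℝ × ℝ => -(α * Real.sin (ω * N * p.1) * Real.cosh (ω * N * p.2)) * pY F p +
      α * Real.cos (ω * N * p.1) * Real.sinh (ω * N * p.2) * pZ F p) =
      fun p => α * (-(1 * Real.sin (ω * N * p.1) * Real.cosh (ω * N * p.2)) * pY F p +
      1 * Real.cos (ω * N * p.1) * Real.sinh (ω * N * p.2) * pZ F p) := by
    funext p
    ring
  rw [e, ← cm_fam_mul (PY.const H α) hK, cm_fam_const]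
  refine (norm_inner_le_norm _ _).trans ?_
  rw [norm_smul, Complex.norm_real, Real.norm_eq_abs]
  have h1 := hCb q
  have h2 : 0 ≤ |α| := abs_nonneg α
  have h3 : 0 ≤ ‖q‖ := norm_nonneg q
  calc |α| * ‖cm (fam fun p : ℝ × ℝ =>
        -(1 * Real.sin (ω * N * p.1) * Real.cosh (ω * N * p.2)) * pY F p +
        1 * Real.cos (ω * N * p.1) * Real.sinh (ω * N * p.2) * pZ F p) q‖ * ‖q‖
      ≤ |α| * (C * ‖q‖) * ‖q‖ :=
        mul_le_mul_of_nonneg_right (mul_le_mul_of_nonneg_left h1 h2) h3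
    _ = C * (|α| * ‖q‖ ^ 2) := by ring

private theorem flgs_split {a b c : ℂ} {K L : ℝ} (h1 : ‖a - b‖ ≤ K) (h2 : ‖b‖ ≤ L) (hc : c = a) :
    c.re ≤ K + L := by
  rw [hc]
  have h3 : ‖a‖ ≤ K + L := by
    calc ‖a‖ = ‖(a - b) + b‖ := by rw [sub_add_cancel]
      _ ≤ K + L := (norm_add_le _ _).trans (add_le_add h1 h2)
  exact (Complex.re_le_norm _).trans h3

private theorem flgs_comb {e1 e2 f1 f2 tr k Q D T LTn U1 U2 cY cZ cA cS cC cK A A0 : ℝ}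
    (he : 0 ≤ e1 + e2) (hcY : 0 ≤ cY) (hcZ : 0 ≤ cZ) (hcA : 0 ≤ cA) (hcS : 0 ≤ cS) (hcC : 0 ≤ cC)
    (hcK : 0 ≤ cK) (hQ : 0 ≤ Q) (hD : 0 ≤ D) (hT : 0 ≤ T)
    (hf1 : f1 ≤ cY * Q ^ 2) (hf2 : f2 ≤ cZ * Q ^ 2)
    (htr : tr ≤ cS * (cA * Q * (D * LTn)) + cC * (A * Q ^ 2)) (hLT : LTn ≤ T) (hLT0 : 0 ≤ LTn)
    (hA : A ≤ A0)
    (hk : k ≤ cK * (Q + D) * (U1 + U2)) (hU1 : 0 ≤ U1) (hU2 : 0 ≤ U2) (hU : U1 + U2 ≤ T) {q : ℝ}
    (hQq : Q ≤ q) :
    -2 * (e1 + e2) + (f1 + f2) + tr + 2 * k ≤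
      ((cY + cZ) * q ^ 2 + cS * cA * q * T + cC * (|A0| * q ^ 2) + 2 * (cK * (q + 1) * T)) *
        (1 + D) := by
  have hq : 0 ≤ q := hQ.trans hQq
  have hQ2 : Q ^ 2 ≤ q ^ 2 := pow_le_pow_left₀ hQ hQq 2
  have h1 : f1 + f2 ≤ (cY + cZ) * q ^ 2 := by
    have := mul_le_mul_of_nonneg_left hQ2 (add_nonneg hcY hcZ)
    linarith
  have h2 : cS * (cA * Q * (D * LTn)) ≤ cS * cA * q * T * D := by
    have h3 : Q * LTn ≤ q * T := mul_le_mul hQq hLT hLT0 hq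
    have h4 : cS * cA * D * (Q * LTn) ≤ cS * cA * D * (q * T) :=
      mul_le_mul_of_nonneg_left h3 (mul_nonneg (mul_nonneg hcS hcA) hD)
    linarith
  have h5 : cC * (A * Q ^ 2) ≤ cC * (|A0| * q ^ 2) := by
    refine mul_le_mul_of_nonneg_left ?_ hcC
    calc A * Q ^ 2 ≤ |A0| * Q ^ 2 :=
          mul_le_mul_of_nonneg_right (hA.trans (le_abs_self _)) (sq_nonneg _)
      _ ≤ |A0| * q ^ 2 := mul_le_mul_of_nonneg_left hQ2 (abs_nonneg _)
  have h6 : cK * (Q + D) * (U1 + U2) ≤ cK * (q + 1) * T * (1 + D) := by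
    have h7 : Q + D ≤ (q + 1) * (1 + D) := by nlinarith [mul_nonneg hq hD]
    have h8 : (Q + D) * (U1 + U2) ≤ (q + 1) * (1 + D) * T :=
      mul_le_mul h7 hU (add_nonneg hU1 hU2) (by positivity)
    have h9 := mul_le_mul_of_nonneg_left h8 hcK
    linarith
  have g1 : (cY + cZ) * q ^ 2 ≤ (cY + cZ) * q ^ 2 * (1 + D) :=
    le_mul_of_one_le_right (by positivity) (by linarith)
  have g2 : cS * cA * q * T * D ≤ cS * cA * q * T * (1 + D) :=
    mul_le_mul_of_nonneg_left (by linarith) (by positivity)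
  have g3 : cC * (|A0| * q ^ 2) ≤ cC * (|A0| * q ^ 2) * (1 + D) :=
    le_mul_of_one_le_right (by positivity) (by linarith)
  linarith

private theorem flgs_time {K R : ℝ} (hK : 0 ≤ K) {g d : ℝ → ℝ} {a b s t : ℝ}
    (hs : 0 ≤ s) (hst : s ≤ t) (ht : t ≤ b) (hb : b ≤ 1)
    (cg : ContinuousOn g (Icc 0 b)) (cd : ContinuousOn d (Icc 0 b))
    (hg : ∀ r ∈ Icc 0 b, g r ≤ K * (1 + d r)) (hR : ∫ r in (0:ℝ)..t, d r ^ 2 ≤ R)
    (ha : a = ∫ r in s..t, g r) : a ≤ K * (2 + R) * √(t - s) := by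
  have hsub : Icc s t ⊆ Icc 0 b := Icc_subset_Icc hs ht
  have hsub' : uIcc s t ⊆ Icc 0 b := by rw [uIcc_of_le hst]; exact hsub
  have hsub0 : uIcc 0 s ⊆ Icc 0 b := by
    rw [uIcc_of_le hs]; exact Icc_subset_Icc le_rfl (hst.trans ht)
  have ig : IntervalIntegrable g volume s t := (cg.mono hsub').intervalIntegrable
  have cd2 : ContinuousOn (fun r => d r ^ 2) (Icc 0 b) := cd.pow 2
  have id : IntervalIntegrable d volume s t := (cd.mono hsub').intervalIntegrable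
  have id2 : IntervalIntegrable (fun r => d r ^ 2) volume s t := (cd2.mono hsub').intervalIntegrable
  have id0 : IntervalIntegrable (fun r => d r ^ 2) volume 0 s := (cd2.mono hsub0).intervalIntegrable
  have h0 : ∫ r in s..t, d r ^ 2 ≤ R := by
    have h4 := intervalIntegral.integral_add_adjacent_intervals id0 id2
    have h5 : 0 ≤ ∫ r in (0:ℝ)..s, d r ^ 2 := intervalIntegral.integral_nonneg hs fun r _ => sq_nonneg _
    linarith
  have h00 : 0 ≤ ∫ r in s..t, d r ^ 2 := intervalIntegral.integral_nonneg hst fun r _ => sq_nonneg _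
  rcases hst.eq_or_lt with e | hlt
  · rw [ha, e, intervalIntegral.integral_same, sub_self, Real.sqrt_zero, mul_zero]
  obtain ⟨δ, hδ⟩ : ∃ δ, δ = √(t - s) := ⟨_, rfl⟩
  have δ0 : 0 < δ := by rw [hδ]; exact Real.sqrt_pos.2 (by linarith)
  have δ2 : δ ^ 2 = t - s := by rw [hδ, Real.sq_sqrt (by linarith)]
  have δ1 : δ ≤ 1 := by
    rw [hδ, Real.sqrt_le_one]
    linarith
  rw [← hδ]
  -- pointwise: `1 + d ≤ 1 + δ⁻¹ + δ d²`
  have h1 : ∀ r ∈ Icc s t, g r ≤ K * (1 + δ⁻¹ + δ * d r ^ 2) := by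
    intro r hr
    refine (hg r (hsub hr)).trans (mul_le_mul_of_nonneg_left ?_ hK)
    have h2 : d r ≤ δ⁻¹ + δ * d r ^ 2 := by
      have h3 : 0 ≤ δ⁻¹ * (δ * d r - 1) ^ 2 := mul_nonneg (inv_nonneg.2 δ0.le) (sq_nonneg _)
      have h4 : δ⁻¹ * (δ * d r - 1) ^ 2 = δ * d r ^ 2 - 2 * d r + δ⁻¹ := by
        field_simp
        ring
      rw [h4] at h3
      have h5 : 0 ≤ δ⁻¹ + δ * d r ^ 2 := by positivity
      rcases le_total 0 (d r) with h6 | h6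
      · linarith
      · linarith
    linarith
  have _ := id
  have h2 : ∫ r in s..t, g r ≤ ∫ r in s..t, K * (1 + δ⁻¹ + δ * d r ^ 2) := by
    refine intervalIntegral.integral_mono_on hst ig ?_ h1
    exact (intervalIntegrable_const.add (id2.const_mul _)).const_mul _
  have h3 : ∫ r in s..t, K * (1 + δ⁻¹ + δ * d r ^ 2) =
      K * ((t - s) * (1 + δ⁻¹) + δ * ∫ r in s..t, d r ^ 2) := by
    rw [intervalIntegral.integral_const_mul, intervalIntegral.integral_add intervalIntegrable_const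
      (id2.const_mul _), intervalIntegral.integral_const, intervalIntegral.integral_const_mul,
      smul_eq_mul]
  rw [ha]
  refine h2.trans ?_
  rw [h3, mul_assoc]
  refine mul_le_mul_of_nonneg_left ?_ hK
  rw [← δ2]
  have h4 : δ ^ 2 * (1 + δ⁻¹) = δ ^ 2 + δ := by
    field_simp
  rw [h4]
  have h5 : δ ^ 2 ≤ δ := by nlinarith
  have h6 : δ * ∫ r in s..t, d r ^ 2 ≤ δ * R := mul_le_mul_of_nonneg_left h0 δ0.le
  linarith

/-- **Switching off.** The constant depends on `N`. Proof: `FlS.dF_int` with `F(y,z) = cutz m z ^ 2`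
(`PY.of_z`), `⟪F (b q), b q⟫ = ‖χ b q‖²` (`cm_fam_z`, `cutz` real). In `Geo.dFr`: the first bracket is
`≥ 0`; all other terms are `≤ C (1 + D)`: `‖q‖ ≤ C`, `F_yy = 0`, `F_z, F_zz` bounded operators (`norm_cm_fam_le`
or the operator norms), `dp_split` with the cell part bounded by `T3_sum`/`dp_pz` (`N2 (1/2) (cellV)` is
bounded for `A ≤ A0`; or `pz q (cellV) = cm (fam ..) q`), `kap_term` with some `M`, `APb.k1`, `APb.k2`.
Then `∫_s^t (1 + D) ≤ (t-s) + (t-s)^{1/2} (∫ D²)^{1/2} ≤ C (t-s)^{1/2}`. -/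
theorem FlS.switch (G : Geo H) {Θ C' : ℝ} (hΘ : 0 ≤ Θ) (hC' : 0 ≤ C') {N : ℕ} (hm : 1 ≤ G.ω * N) :
    ∃ C, 0 ≤ C ∧ ∀ {A : ℝ → ℝ} {b : ℝ} {B : Bg H} {x : ℝ → HH H × HH H} (_ : FlS G N A b B x)
    (_ : b ≤ 1) (_ : ∀ t ∈ Icc 0 b, A t ≤ FW.A0 (G.ω * N)) (_ : ∀ t ∈ Icc 0 b, APb G N Θ C' 1 B x t)
    {s t : ℝ} (_ : 0 ≤ s) (_ : s ≤ t) (_ : t ≤ b),
    ‖Ms (rc (cutz (G.ω * N)) (cutz_c _)) (cm G.b (G.qL (x t).1))‖ ^ 2 ≤
      ‖Ms (rc (cutz (G.ω * N)) (cutz_c _)) (cm G.b (G.qL (x s).1))‖ ^ 2 + C * √(t - s) := by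
  have hω : G.ω * H = Real.pi := by
    rw [G.hω, div_mul_cancel₀ _ hH.out.ne']
  have hg : PY H (fun p : ℝ × ℝ => cutz (G.ω * N) p.2) := PY.of_z H (cutz_smooth _)
  obtain ⟨F, hFd⟩ : ∃ F : ℝ × ℝ → ℝ, F = fun p => cutz (G.ω * N) p.2 * cutz (G.ω * N) p.2 := ⟨_, rfl⟩
  have hF : PY H F := by rw [hFd]; exact hg.mul hg
  have hF0 : ∀ y ∈ Icc (-H) H, ∀ z ∈ Icc (0:ℝ) H, 0 ≤ F (y, z) := by
    intro y _ z _
    rw [hFd]
    exact mul_self_nonneg _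
  have hN0 : (N : ℝ) ≠ 0 := by
    intro h
    rw [h, mul_zero] at hm
    linarith
  have hN : 1 ≤ N := Nat.one_le_iff_ne_zero.2 fun h => hN0 (by rw [h]; simp)
  -- constants
  obtain ⟨cYY, hcYY, hYY⟩ := flgs_op hF.pY.pY
  obtain ⟨cZZ, hcZZ, hZZ⟩ := flgs_op hF.pZ.pZ
  obtain ⟨cY, hcY, hY⟩ := flgs_op hF.pY
  obtain ⟨cZ, hcZ, hZ⟩ := flgs_op hF.pZ
  obtain ⟨cC, hcC, hCell⟩ := flgs_cell hω hN hF
  obtain ⟨cS, hcS, hSp⟩ := dp_split G
  obtain ⟨cG, hcG, hGt⟩ := APb.gt G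
  obtain ⟨cb, hcb1, hcb⟩ := G.b_equiv
  obtain ⟨M0, hM0, hb0⟩ := flgs_bd hF
  obtain ⟨M1, hM1, hb1⟩ := flgs_bd hF.pY
  obtain ⟨M2, hM2, hb2⟩ := flgs_bd hF.pZ
  obtain ⟨M, hMd⟩ : ∃ M, M = M0 + M1 + M2 := ⟨_, rfl⟩
  have hM : 0 ≤ M := by linarith
  have hμ : 0 ≤ muu (G.ω * N) := by
    unfold muu
    exact mul_nonneg (by linarith) (Real.exp_pos _).le
  have hP : ∀ z : ℝ, 1 ≤ 1 + muu (G.ω * N) * Real.cosh (G.ω * (N : ℝ) * z) := by
    intro z
    have := mul_nonneg hμ (Real.cosh_pos (G.ω * (N : ℝ) * z)).le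
    linarith
  obtain ⟨Θ1, hΘ1⟩ : ∃ Θ1, Θ1 = √(Θ ^ 2 + 1) := ⟨_, rfl⟩
  have hΘ10 : 0 ≤ Θ1 := by rw [hΘ1]; exact Real.sqrt_nonneg _
  obtain ⟨T, hTd⟩ : ∃ T, T = cG * (1 + Θ1) + 2 * √C' := ⟨_, rfl⟩
  have hT0 : 0 ≤ T := by rw [hTd]; positivity
  have hcb0 : 0 ≤ cb := by linarith
  obtain ⟨q, hqd⟩ : ∃ q, q = cb * Θ1 := ⟨_, rfl⟩
  have hq0 : 0 ≤ q := by rw [hqd]; positivity
  obtain ⟨K, hKd⟩ : ∃ K, K = (cYY + cZZ) * q ^ 2 + cS * (cY + cZ) * q * T +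
      cC * (|FW.A0 (G.ω * N)| * q ^ 2) + 2 * (3 * M * (q + 1) * T) := ⟨_, rfl⟩
  have hK0 : 0 ≤ K := by rw [hKd]; positivity
  refine ⟨K * (2 + (Θ ^ 2 + 1)), by positivity, ?_⟩
  intro A b B x h hb hA hAP s t hs hst ht
  -- the quadratic form
  have hform : ∀ y : HH H, (⟪cm (fam F) y, y⟫_ℂ).re = ‖Ms (rc (cutz (G.ω * N)) (cutz_c _)) y‖ ^ 2 := by
    intro y
    have h1 := cm_fam_sq hg y
    rw [cm_fam_z (cutz_c (G.ω * N))] at h1
    rw [inner_cm_fam hF, hFd]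
    exact h1
  obtain ⟨cgr, hint⟩ := h.dF_int hF hs hst ht
  rw [hform, hform] at hint
  have cd : ContinuousOn (fun r => ‖(x r).1‖) (Icc 0 b) :=
    (continuous_fst.comp_continuousOn h.sol.cont).norm
  have hR : ∫ r in (0:ℝ)..t, ‖(x r).1‖ ^ 2 ≤ Θ ^ 2 + 1 := by
    have h2 := (hAP t ⟨hs.trans hst, ht⟩).q
    have h3 := sq_nonneg (‖cm G.b (G.qL (x t).1)‖)
    linarith
  -- pointwise bound
  have hpt : ∀ r ∈ Icc 0 b, G.dFr F B r (x r) ≤ K * (1 + ‖(x r).1‖) := by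
    intro r hr
    have hap := hAP r hr
    have hbq : ‖cm G.b (G.qL (x r).1)‖ ≤ Θ1 := by
      rw [hΘ1]
      refine Real.le_sqrt_of_sq_le ?_
      have h2 := hap.q
      have h3 : 0 ≤ ∫ u in (0:ℝ)..r, ‖(x u).1‖ ^ 2 :=
        intervalIntegral.integral_nonneg hr.1 fun _ _ => sq_nonneg _
      linarith
    have hQ : ‖G.qL (x r).1‖ ≤ q := by
      rw [hqd]
      exact (hcb _).1.trans (mul_le_mul_of_nonneg_left hbq hcb0)
    have hLT : ‖LT G.ω G.lam (3 / 8) (G.gt B r (x r))‖ ≤ cG * (1 + Θ1) :=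
      (hGt hap).trans (mul_le_mul_of_nonneg_left (by linarith) hcG)
    have hexp : Real.exp (-√(G.ω * N)) ≤ 1 := by
      rw [Real.exp_le_one_iff]
      have := Real.sqrt_nonneg (G.ω * N)
      linarith
    have hU1 : ‖Ms (B.κ r) (G.VV B r (x r))‖ ≤ √C' := by
      refine Real.le_sqrt_of_sq_le (hap.k1.trans ?_)
      exact mul_le_of_le_one_right hC' hexp
    have hU2 : ‖Ms (rc (fun z : ℝ => muu (G.ω * N) * Real.cosh (G.ω * (N : ℝ) * z)) (by fun_prop))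
        (Ms (B.κ r) (G.VV B r (x r)))‖ ≤ √C' := by
      refine Real.le_sqrt_of_sq_le (hap.k2.trans ?_)
      exact mul_le_of_le_one_right hC' hexp
    have eTT : TT G.ω (G.Qo (x r).1) = G.qL (x r).1 := rfl
    -- the first bracket
    have e1 : 0 ≤ (⟪cm (fam F) (Xy G.ω (G.Qo (x r).1)), Xy G.ω (G.Qo (x r).1)⟫_ℂ).re +
        (⟪cm (fam F) (Xz G.ω (G.Qo (x r).1)), Xz G.ω (G.Qo (x r).1)⟫_ℂ).re := by
      rw [inner_cm_fam hF, inner_cm_fam hF]
      exact add_nonneg (cm_fam_nonneg hF hF0 _) (cm_fam_nonneg hF hF0 _)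
    -- the elliptic terms
    have f1 : (⟪cm (fam (pY (pY F))) (G.qL (x r).1), G.qL (x r).1⟫_ℂ).re ≤
        cYY * ‖G.qL (x r).1‖ ^ 2 := by
      refine (Complex.re_le_norm _).trans ((norm_inner_le_norm _ _).trans ?_)
      have h2 := mul_le_mul_of_nonneg_right (hYY (G.qL (x r).1)) (norm_nonneg (G.qL (x r).1))
      rw [mul_assoc, ← sq] at h2
      exact h2
    have f2 : (⟪cm (fam (pZ (pZ F))) (G.qL (x r).1), G.qL (x r).1⟫_ℂ).re ≤
        cZZ * ‖G.qL (x r).1‖ ^ 2 := by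
      refine (Complex.re_le_norm _).trans ((norm_inner_le_norm _ _).trans ?_)
      have h2 := mul_le_mul_of_nonneg_right (hZZ (G.qL (x r).1)) (norm_nonneg (G.qL (x r).1))
      rw [mul_assoc, ← sq] at h2
      exact h2
    -- the transport term
    have htr : (dp (cm (fam (pY F)) (G.qL (x r).1)) (pz (G.qL (x r).1) (G.vf B r (x r))) +
        dp (cm (fam (pZ F)) (G.qL (x r).1)) (pz (G.qL (x r).1) (G.wf B r (x r)))).re ≤
        cS * ((cY + cZ) * ‖G.qL (x r).1‖ * (‖(x r).1‖ * ‖LT G.ω G.lam (3 / 8) (G.gt B r (x r))‖)) +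
          cC * (A r * ‖G.qL (x r).1‖ ^ 2) := by
      have hve : G.vf B r (x r) = fun n => uV G.ω (Vf G.ω (G.gt B r (x r))) n +
          hf G.lam (B.ve r) n := funext fun n => G.vf_apply B r (x r) n
      have hwe : G.wf B r (x r) = fun n => wV G.ω (Vf G.ω (G.gt B r (x r))) n +
          hf G.lam (B.we r) n := funext fun n => G.wf_apply B r (x r) n
      have h1 := hSp (cm (fam (pY F)) (G.qL (x r).1)) (cm (fam (pZ F)) (G.qL (x r).1))
        (G.Qo (x r).1) (G.gt B r (x r)) (ve := hf G.lam (B.ve r)) (we := hf G.lam (B.we r))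
        (S2_hf G.lw.h1 _).1 (S2_hf G.lw.h1 _).1
      rw [eTT, ← hve, ← hwe] at h1
      have e2 : (hf G.lam (B.ve r) : ℤ → CI H) = cellV (G.ω * N) N (A r) := funext (h.ve r hr)
      have e3 : (hf G.lam (B.we r) : ℤ → CI H) = cellW (G.ω * N) N (A r) := funext (h.we r hr)
      rw [e2, e3] at h1
      have h2 := hCell (A r) (G.qL (x r).1)
      rw [abs_of_nonneg (h.A0 r hr)] at h2
      refine flgs_split (h1.trans ?_) h2 rfl
      rw [G.norm_Qo]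
      refine mul_le_mul_of_nonneg_left ?_ hcS
      refine mul_le_mul_of_nonneg_right ?_ (mul_nonneg (norm_nonneg _) (norm_nonneg _))
      have h3 := add_le_add (hY (G.qL (x r).1)) (hZ (G.qL (x r).1))
      rw [← add_mul] at h3
      exact h3
    -- the κ-term
    have hk : (⟪Xz G.ω (MF G.ω F (G.Qo (x r).1)) + DTc G.ω (MF G.ω F (G.Qo (x r).1)),
        Ms (B.κ r) (G.VV B r (x r))⟫_ℂ).re ≤ 3 * M * (‖G.qL (x r).1‖ + ‖(x r).1‖) *
        (‖Ms (B.κ r) (G.VV B r (x r))‖ +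
          ‖Ms (rc (fun z : ℝ => muu (G.ω * N) * Real.cosh (G.ω * (N : ℝ) * z)) (by fun_prop))
            (Ms (B.κ r) (G.VV B r (x r)))‖) := by
      refine (Complex.re_le_norm _).trans ?_
      have h1 := kap_term hω hF hM hμ (m := G.ω * N)
        (fun y hy z hz => (hb0 y hy z hz).trans (by linarith))
        (fun y hy z hz => (hb1 y hy z hz).trans (by
          have h2 := le_mul_of_one_le_right hM (hP z)
          linarith))
        (fun y hy z hz => (hb2 y hy z hz).trans (by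
          have h2 := le_mul_of_one_le_right hM (hP z)
          linarith)) (G.Qo (x r).1) (Ms (B.κ r) (G.VV B r (x r)))
      rw [eTT, G.norm_Qo] at h1
      exact h1
    have hfin := flgs_comb (cA := cY + cZ) (cK := 3 * M) (T := T) (q := q) e1 hcYY hcZZ
      (add_nonneg hcY hcZ) hcS hcC (by linarith) (norm_nonneg (G.qL (x r).1)) (norm_nonneg (x r).1)
      hT0 f1 f2 htr (hLT.trans (by rw [hTd]; linarith [Real.sqrt_nonneg C'])) (norm_nonneg _)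
      (hA r hr) hk (norm_nonneg _) (norm_nonneg _)
      (by
        rw [hTd]
        have h5 : 0 ≤ cG * (1 + Θ1) := mul_nonneg hcG (by linarith)
        linarith) hQ
    rw [hKd]
    unfold Geo.dFr
    exact hfin
  have hfin := flgs_time (R := Θ ^ 2 + 1) hK0 hs hst ht hb cgr cd hpt hR hint
  linarith

end

end Pool.Agent.Lib.MP_79abb3_an.SC
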