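import Pool.Agent.Lib.MP_79abb3_an.SC.ExRb
import Pool.Agent.Lib.MP_79abb3_an.SC.FlDef

/-!
MP_79abb3_an, simply connected domains, block (iii): initial data of the flushing phase.
-/

set_option autoImplicit false
set_option linter.unusedSectionVars false

open MeasureTheory Set Filter Topology Function
open scoped ENNReal InnerProductSpace

namespace Pool.Agent.Lib.MP_79abb3_an.SC

open Pool.Agent.Lib.MP_79abb3_an.P25 Pool.Agent.Lib.MP_79abb3_an.FW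

section
variable {H : ℝ} [hH : Fact (0 < H)]

private theorem flin_abs {E : Type} [NormedAddCommGroup E] [InnerProductSpace ℂ E]
    {K bO biO q : E →L[ℂ] E} (hd : DenseRange K) (hq : ∀ p, bO (q p) = K p)
    (h2 : ∀ x, biO (bO x) = x) (y : E) {ε : ℝ} (hε : 0 < ε) : ∃ p : E, ‖q p - y‖ ≤ ε := by
  have hc : 0 < ‖biO‖ + 1 := by positivity
  have hη : 0 < ε / (‖biO‖ + 1) := div_pos hε hc
  obtain ⟨p, hp⟩ := hd.exists_dist_lt (bO y) hη
  refine ⟨p, ?_⟩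
  have h3 : q p - y = biO (K p - bO y) := by
    rw [map_sub, ← hq, h2, h2]
  rw [h3]
  refine (biO.le_opNorm _).trans ?_
  rw [dist_eq_norm, ← norm_neg, neg_sub] at hp
  calc ‖biO‖ * ‖K p - bO y‖ ≤ (‖biO‖ + 1) * (ε / (‖biO‖ + 1)) := by
        apply mul_le_mul (by linarith) hp.le (norm_nonneg _) hc.le
    _ = ε := by field_simp

private theorem flin_real {E : Type} [NormedAddCommGroup E] [InnerProductSpace ℂ E]
    {J : E →L[ℝ] E} (hinv : ∀ x, J (J x) = x) (hn : ∀ x, ‖J x‖ = ‖x‖)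
    (hs : ∀ x : E, J ((1 / 2 : ℂ) • x) = (1 / 2 : ℂ) • J x)
    {q : E →L[ℂ] E} (hq : ∀ x, J (q x) = q (J x)) {y : E} (hy : J y = y) {ε : ℝ}
    {p : E} (hp : ‖q p - y‖ ≤ ε) :
    J ((1 / 2 : ℂ) • (p + J p)) = (1 / 2 : ℂ) • (p + J p) ∧
      ‖q ((1 / 2 : ℂ) • (p + J p)) - y‖ ≤ ε := by
  constructor
  · rw [hs, map_add, hinv, add_comm]
  · have h1 : q ((1 / 2 : ℂ) • (p + J p)) - y = (1 / 2 : ℂ) • ((q p - y) + J (q p - y)) := by
      rw [map_sub, hy, hq, map_smul, map_add]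
      have : y = (1 / 2 : ℂ) • (y + y) := by
        rw [← two_smul ℂ y, smul_smul]; norm_num
      nth_rw 1 [this]
      rw [← smul_sub]
      congr 1
      abel
    rw [h1, norm_smul]
    have h2 : ‖(q p - y) + J (q p - y)‖ ≤ 2 * ε := by
      refine (norm_add_le _ _).trans ?_
      rw [hn]
      linarith
    have h3 : ‖(1 / 2 : ℂ)‖ = 1 / 2 := by norm_num
    rw [h3]
    linarith

/-- **Density.** Proof: `cm b (qL p) = Kh p` (`b_TT_Qo`), the range of `Kh G.Do.K` is dense (`Kh` is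
self-adjoint and injective), `cm b` is invertible (`G.b1`, `G.b2`), so the range of `qL` is dense; replace
`p` by its real part `(p + cjX p)/2` (`Rl_iff`, `cj_qL`, `cjX` is an isometry). -/
theorem exists_q0 (G : Geo H) {y : HH H} (hy : Rl y) {ε : ℝ} (hε : 0 < ε) :
    ∃ p : HH H, Rl p ∧ ‖G.qL p - y‖ ≤ ε := by
  obtain ⟨p, hp⟩ := flin_abs (K := Kh G.Do.K) (bO := cm G.b) (biO := cm G.bi) (q := G.qL)
    G.Do.isKh.dense G.b_TT_Qo G.b2 y hε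
  have hst : star (1 / 2 : ℂ) = 1 / 2 := by
    rw [show (1 / 2 : ℂ) = ((1 / 2 : ℝ) : ℂ) by norm_num, Complex.star_def, Complex.conj_ofReal]
  have h := flin_real (J := cjX) (q := G.qL) cjX_cnj.inv cjX_cnj.norm
    (fun x => (cjX_smul (1 / 2 : ℂ) x).trans (congrArg (fun c : ℂ => c • cjX x) hst))
    G.cj_qL ((Rl_iff y).1 hy) hp
  exact ⟨_, (Rl_iff _).2 h.1, h.2⟩

private theorem flin_init {E : Type} [NormedAddCommGroup E] [InnerProductSpace ℂ E]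
    {Z Jo b : E →L[ℂ] E} {g y q : E} (hZ : Z g = g) (hJ : Jo y = g) {ε η : ℝ} (hε : 0 < ε)
    (hη : η = min ε 1 / (‖Z‖ * ‖Jo‖ + ‖b‖ + 1)) (hq : ‖q - y‖ ≤ η) :
    ‖g - Z (Jo q)‖ ≤ ε ∧ ‖b q‖ ≤ ‖b y‖ + 1 := by
  have hc : 0 < ‖Z‖ * ‖Jo‖ + ‖b‖ + 1 := by positivity
  have hm : 0 < min ε 1 := lt_min hε one_pos
  have hη0 : 0 ≤ η := hη ▸ (div_pos hm hc).le
  have hηc : η * (‖Z‖ * ‖Jo‖ + ‖b‖ + 1) = min ε 1 := by
    rw [hη]; field_simp
  have hZJ : 0 ≤ ‖Z‖ * ‖Jo‖ := by positivity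
  have hb : 0 ≤ ‖b‖ := norm_nonneg _
  constructor
  · have h1 : g - Z (Jo q) = -(Z (Jo (q - y))) := by
      rw [map_sub, map_sub, hJ, hZ, neg_sub]
    rw [h1, norm_neg]
    calc ‖Z (Jo (q - y))‖ ≤ ‖Z‖ * ‖Jo (q - y)‖ := Z.le_opNorm _
      _ ≤ ‖Z‖ * (‖Jo‖ * ‖q - y‖) := by
          apply mul_le_mul_of_nonneg_left (Jo.le_opNorm _) (norm_nonneg _)
      _ = ‖Z‖ * ‖Jo‖ * ‖q - y‖ := by ring
      _ ≤ ‖Z‖ * ‖Jo‖ * η := by apply mul_le_mul_of_nonneg_left hq hZJ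
      _ ≤ η * (‖Z‖ * ‖Jo‖ + ‖b‖ + 1) := by nlinarith
      _ = min ε 1 := hηc
      _ ≤ ε := min_le_left _ _
  · have h1 : b q = b y + b (q - y) := by rw [← map_add]; congr 1; abel
    rw [h1]
    refine (norm_add_le _ _).trans ?_
    have h2 : ‖b (q - y)‖ ≤ 1 := by
      calc ‖b (q - y)‖ ≤ ‖b‖ * ‖q - y‖ := b.le_opNorm _
        _ ≤ ‖b‖ * η := by apply mul_le_mul_of_nonneg_left hq hb
        _ ≤ η * (‖Z‖ * ‖Jo‖ + ‖b‖ + 1) := by nlinarith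
        _ = min ε 1 := hηc
        _ ≤ 1 := min_le_right _ _
    linarith

/-- **Initial data.** For the state `h0` (real, `B W0 = Qd h0` supported in `[0, ρ]`) there is `p0` with
`q(0) = qL p0` close to `a B W0`: then `B V(0) = Qd h0 - ζ J q(0)` is small. Proof: `exists_q0` with
`y = cm a (Qd h0)`; `ζ J a g = ζ g = g` for `g = Qd h0` (`G.Ja`, `Geo.Low` with the function `1 - ζ`). -/
theorem init_data (G : Geo H) {h0 : HH H} (hr : Rl h0) (hl : G.Low h0) {ε : ℝ} (hε : 0 < ε) :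
    ∃ p0 : HH H, Rl p0 ∧ ‖G.Qd h0 - G.qh (p0, h0)‖ ≤ ε ∧
      ‖cm G.b (G.qL p0)‖ ≤ ‖cm G.b (cm G.a (G.Qd h0))‖ + 1 := by
  have hyr : Rl (cm G.a (G.Qd h0)) := by
    rw [Rl_iff, cj_cm G.ha.c, G.cj_Qd, (Rl_iff h0).1 hr]
  have hZ : Ms G.ζ (G.Qd h0) = G.Qd h0 := by
    have h1 := hl (1 + (-1 : ℂ) • G.ζ) (fun z hz => by
      show ex (1 : CI H) z + ex ((-1 : ℂ) • G.ζ) z = 0
      rw [ex_smul, G.ζ_one z hz]
      show (1 : ℂ) + -1 * 1 = 0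
      ring)
    rw [Ms_add, Ms_smul] at h1
    have h2 : Ms (1 : CI H) (G.Qd h0) = G.Qd h0 := by
      refine lp.ext (funext fun n => ?_)
      rw [Ms_apply, mz_one]
    rw [h2, neg_smul, one_smul, ← sub_eq_add_neg, sub_eq_zero] at h1
    exact h1.symm
  have hη : 0 < min ε 1 / (‖Ms G.ζ‖ * ‖cm G.J‖ + ‖cm G.b‖ + 1) := by
    have hc : 0 < ‖Ms G.ζ‖ * ‖cm G.J‖ + ‖cm G.b‖ + 1 := by positivity
    exact div_pos (lt_min hε one_pos) hc
  obtain ⟨p, hp, hq⟩ := exists_q0 G hyr hη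
  have h := flin_init (Z := Ms G.ζ) (Jo := cm G.J) (b := cm G.b) hZ (G.Ja (G.Qd h0)) hε rfl hq
  exact ⟨p, hp, h.1, h.2⟩

end

end Pool.Agent.Lib.MP_79abb3_an.SC
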