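import Pool.Agent.Lib.MP_79abb3_an.SC.FlFa
import Pool.Agent.Lib.MP_79abb3_an.SC.FlGe
import Pool.Agent.Lib.MP_79abb3_an.SC.FlGs
import Pool.Agent.Lib.MP_79abb3_an.SC.FlEx
import Pool.Agent.Lib.MP_79abb3_an.SC.FlIn
import Pool.Agent.Lib.MP_79abb3_an.SC.FlAm

/-!
MP_79abb3_an, simply connected domains, block (iii): the flush theorem.
-/

set_option autoImplicit false
set_option linter.unusedSectionVars false

open MeasureTheory Set Filter Topology Function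
open scoped ENNReal InnerProductSpace

namespace Pool.Agent.Lib.MP_79abb3_an.SC

open Pool.Agent.Lib.MP_79abb3_an.P25 Pool.Agent.Lib.MP_79abb3_an.FW

section
variable {H : ℝ} [hH : Fact (0 < H)]

/-- The choice of `m`. -/
private theorem choose_m {m0 T Cq Θ' Cs η δ : ℝ} (hT : 0 < T) (hη : 0 < η) (hδ : 0 < δ) :
    ∀ᶠ m : ℝ in atTop, m0 ≤ m ∧ 1 ≤ m ∧ 1 / (8 * m ^ 2) ≤ T ∧
      Cq * (4 / √m) ^ (5 / 8 : ℝ) * Θ' ≤ δ ∧ Cs * Real.exp (-√m) ≤ η := by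
  have h1 : Tendsto (fun m : ℝ => 1 / (8 * m ^ 2)) atTop (𝓝 0) := by
    have h2 : Tendsto (fun m : ℝ => 8 * m ^ 2) atTop atTop :=
      (tendsto_pow_atTop (by norm_num)).const_mul_atTop (by norm_num)
    exact h2.inv_tendsto_atTop.congr fun m => by rw [Pi.inv_apply, one_div]
  have h3 : Tendsto (fun m : ℝ => Cq * (4 / √m) ^ (5 / 8 : ℝ) * Θ') atTop (𝓝 0) := by
    have h4 : Tendsto (fun m : ℝ => 4 / √m) atTop (𝓝 0) :=
      Real.tendsto_sqrt_atTop.const_div_atTop 4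
    have h5 : Tendsto (fun m : ℝ => (4 / √m) ^ (5 / 8 : ℝ)) atTop (𝓝 (0 ^ (5 / 8 : ℝ))) :=
      h4.rpow_const (Or.inr (by norm_num))
    rw [Real.zero_rpow (by norm_num)] at h5
    simpa using (h5.const_mul Cq).mul_const Θ'
  have h6 : Tendsto (fun m : ℝ => Cs * Real.exp (-√m)) atTop (𝓝 0) := by
    have h7 : Tendsto (fun m : ℝ => Real.exp (-√m)) atTop (𝓝 0) :=
      Real.tendsto_exp_neg_atTop_nhds_zero.comp Real.tendsto_sqrt_atTop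
    simpa using h7.const_mul Cs
  filter_upwards [eventually_ge_atTop m0, eventually_ge_atTop 1, h1.eventually (ge_mem_nhds hT),
    h3.eventually (ge_mem_nhds hδ), h6.eventually (ge_mem_nhds hη)] with m a1 a2 a3 a4 a5
  exact ⟨a1, a2, a3, a4, a5⟩

private theorem sqrt_step {X Y s c C d η κ δ : ℝ} (hκ : 0 ≤ κ) (hC : 0 ≤ C) (hδ : 0 ≤ δ)
    (hη : η = (δ / (2 * (κ + 1))) ^ 2) (hY : Y ^ 2 ≤ X + C * √d) (hX : X ≤ s) (hs : s ≤ η)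
    (hd : d ≤ (η / (C + 1)) ^ 2) (h0 : 0 ≤ η) (hY0 : 0 ≤ Y) : κ * Y ≤ δ := by
  have h1 : √d ≤ η / (C + 1) := by
    rw [show η / (C + 1) = √((η / (C + 1)) ^ 2) from (Real.sqrt_sq (by positivity)).symm]
    exact Real.sqrt_le_sqrt hd
  have h2 : C * √d ≤ η := by
    calc C * √d ≤ C * (η / (C + 1)) := mul_le_mul_of_nonneg_left h1 hC
      _ = η * (C / (C + 1)) := by ring
      _ ≤ η * 1 := mul_le_mul_of_nonneg_left ((div_le_one (by positivity)).2 (by linarith)) h0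
      _ = η := mul_one _
  have h3 : Y ^ 2 ≤ (δ / (κ + 1)) ^ 2 := by
    calc Y ^ 2 ≤ η + η := by linarith
      _ = (δ / (κ + 1)) ^ 2 / 2 := by rw [hη]; field_simp; ring
      _ ≤ (δ / (κ + 1)) ^ 2 := by linarith [sq_nonneg (δ / (κ + 1))]
  have h4 : Y ≤ δ / (κ + 1) := by
    exact (sq_le_sq₀ hY0 (by positivity)).1 h3
  calc κ * Y ≤ κ * (δ / (κ + 1)) := mul_le_mul_of_nonneg_left h4 hκ
    _ = δ * (κ / (κ + 1)) := by ring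
    _ ≤ δ * 1 := mul_le_mul_of_nonneg_left ((div_le_one (by positivity)).2 (by linarith)) hδ
    _ = δ := mul_one _

/-- **Block (iii), in terms of the background system.** -/
theorem flush_core (G : Geo H) (hBig : G.Big) (hT : G.TFex) {h0 : HH H} (hr : Rl h0) (hl : G.Low h0)
    {T δ : ℝ} (hT0 : 0 < T) (hδ : 0 < δ) :
    ∃ (N : ℕ) (A : ℝ → ℝ) (b : ℝ) (B : Bg H) (x : ℝ → HH H × HH H), 0 < b ∧ b ≤ T ∧
      CellBg G N A b B ∧ FlS G N A b B x ∧ Rl (x 0).1 ∧ (x 0).2 = h0 ∧ A 0 = 0 ∧ A b = 0 ∧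
      G.sz (x b).2 ≤ δ := by
  -- constants
  obtain ⟨Θ, hΘe⟩ : ∃ Θ : ℝ, Θ = ‖cm G.b (cm G.a (G.Qd h0))‖ + 1 := ⟨_, rfl⟩
  have hΘ : 0 ≤ Θ := by rw [hΘe]; positivity
  obtain ⟨C', hC', hex⟩ := FlS.exists G hBig hT hΘ
  obtain ⟨m0, hm0, hex⟩ := hex (min 1 (δ / 4)) (by positivity)
  obtain ⟨C₂, hC₂, hfl⟩ := FlS.flush G hΘ hC'
  obtain ⟨Cq, hCq, hq⟩ := qh_end G
  obtain ⟨Cb, hCb, hb⟩ := G.b_equiv
  obtain ⟨C₃, hC₃, h3⟩ := LT_bd G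
  have hCb0 : 0 ≤ Cb := zero_le_one.trans hCb
  obtain ⟨η, hηe⟩ : ∃ η : ℝ, η = (δ / 4 / (2 * (Cq + 1))) ^ 2 := ⟨_, rfl⟩
  have hη : 0 < η := by rw [hηe]; positivity
  -- the wave number
  obtain ⟨N, hN, hmm0, hm1, hmT, hmq, hms⟩ := exists_N G (choose_m (m0 := m0) (Cq := Cq)
    (Θ' := √(Θ ^ 2 + 1)) (Cs := Cb ^ 2 * C₂) (δ := δ / 4) hT0 hη (by positivity))
  obtain ⟨m, hme⟩ : ∃ m : ℝ, m = G.ω * N := ⟨_, rfl⟩
  obtain ⟨CN, hCN, hsw⟩ := FlS.switch G hΘ hC' (N := N) hm1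
  have hmpos : 0 < G.ω * N := by linarith
  have hτ0 : 0 < 1 / (32 * (G.ω * N) ^ 2) := by positivity
  have hτ1 : 1 / (16 * (G.ω * N) ^ 2) = 1 / (32 * (G.ω * N) ^ 2) + 1 / (32 * (G.ω * N) ^ 2) := by
    field_simp; norm_num
  have hτ2 : 1 / (8 * (G.ω * N) ^ 2) = 1 / (16 * (G.ω * N) ^ 2) + 1 / (16 * (G.ω * N) ^ 2) := by
    field_simp; norm_num
  have hτ3 : 1 / (8 * (G.ω * N) ^ 2) ≤ 1 := by
    rw [div_le_one (by positivity)]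
    have : 1 ≤ (G.ω * N) ^ 2 := one_le_pow₀ hm1
    linarith
  have hτ4 : 0 < 1 / (16 * (G.ω * N) ^ 2) := by positivity
  -- the data
  obtain ⟨κ, hκe⟩ : ∃ κ : ℝ, κ = ‖(rc (tht (zl (G.ω * N)) (4 * (G.ω * N))) (tht_cont _ _) : CI H)‖ *
    ‖(TT G.ω : HH H →L[ℂ] HH H)‖ + 4 * C₃ + 4 * C₃ / δ := ⟨_, rfl⟩
  have hκ : 0 ≤ κ := by rw [hκe]; positivity
  obtain ⟨p0, hp0, hp1, hp2⟩ := init_data G hr hl (ε := 1 / (κ + 1)) (by positivity)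
  have hgV : ∀ {B : Bg H}, B.gL 0 = 0 → ‖G.gV B 0 (p0, h0)‖ ≤ 1 / (κ + 1) := by
    intro B hB
    have e : G.gV B 0 (p0, h0) = G.Qd h0 - G.qh (p0, h0) := by
      show G.Qd h0 + B.gL 0 - _ = _
      rw [hB, add_zero]; rfl
    rw [e]; exact hp1
  have hE0 : ∀ {B : Bg H}, B.gL 0 = 0 →
      ‖Ms (rc (tht (zl (G.ω * N)) (4 * (G.ω * N))) (tht_cont _ _)) (G.VV B 0 (p0, h0))‖ ≤ 1 := by
    intro B hB
    have h1 := hgV hB
    have h2 := norm_Ms_apply_le (rc (tht (zl (G.ω * N)) (4 * (G.ω * N))) (tht_cont _ _))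
      (G.VV B 0 (p0, h0))
    have h4 : ‖G.VV B 0 (p0, h0)‖ ≤ ‖(TT G.ω : HH H →L[ℂ] HH H)‖ * ‖G.gV B 0 (p0, h0)‖ :=
      (TT G.ω : HH H →L[ℂ] HH H).le_opNorm _
    refine h2.trans ?_
    refine (mul_le_mul_of_nonneg_left (h4.trans (mul_le_mul_of_nonneg_left h1 (norm_nonneg _)))
      (norm_nonneg _)).trans ?_
    rw [← mul_assoc, mul_one_div, div_le_one (by positivity), hκe]
    have : 0 ≤ 4 * C₃ / δ := by positivity
    linarith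
  have hy0 : ∀ {B : Bg H}, B.gL 0 = 0 → ‖LT G.ω G.lam (3 / 8) (G.gV B 0 (p0, h0))‖ ≤ 1 / 4 ∧
      ‖LT G.ω G.lam (3 / 8) (G.gV B 0 (p0, h0))‖ ≤ δ / 4 := by
    intro B hB
    have h1 := (h3 (G.gV B 0 (p0, h0))).trans (mul_le_mul_of_nonneg_left (hgV hB) hC₃)
    have hn : 0 ≤ ‖(rc (tht (zl (G.ω * N)) (4 * (G.ω * N))) (tht_cont _ _) : CI H)‖ *
      ‖(TT G.ω : HH H →L[ℂ] HH H)‖ := by positivity
    have hn2 : 0 ≤ 4 * C₃ / δ := by positivity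
    constructor
    · refine h1.trans ?_
      rw [mul_one_div, div_le_iff₀ (by positivity), hκe]
      linarith
    · refine h1.trans ?_
      rw [mul_one_div, div_le_iff₀ (by positivity)]
      have e2 : δ / 4 * (4 * C₃ / δ) = C₃ := by field_simp
      have h5 : δ / 4 * (4 * C₃ / δ) ≤ δ / 4 * (κ + 1) := by
        refine mul_le_mul_of_nonneg_left ?_ (by positivity)
        rw [hκe]; linarith
      linarith
  have hΘ0 : ‖cm G.b (G.qL p0)‖ ≤ Θ := by rw [hΘe]; exact hp2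
  -- the background
  obtain ⟨g0, P0, Z0, hL⟩ := exists_cellL G hN
  obtain ⟨v, w, hv, hw⟩ := exists_cellU G hN
  obtain ⟨A, A', hA, cA, hA0, hAb, hAτ⟩ := exists_amp hτ0 (a := FW.A0 (G.ω * N))
    (by unfold FW.A0; positivity)
  have hB1 := bgF_cell G hN hL hv hw hA cA hτ4.le
  have hgL1 : (bgF G N g0 P0 Z0 v w A A').gL 0 = 0 := hB1.gL 0 ⟨le_rfl, hτ4.le⟩ hA0
  obtain ⟨x1, hx10, hx1, hap1⟩ := hex hN hB1 hτ4.le hmm0 (by rw [hτ2]; linarith)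
    (fun t _ => hAb t) (x0 := (p0, h0)) hp0 hr hΘ0 (hE0 hgL1) (hy0 hgL1).1
  obtain ⟨t1, ht1, hchi⟩ := hfl hx1 hm1 le_rfl (fun t ht => hAτ t ht.1)
    (fun t ht => (hap1 t ht).mono (min_le_left _ _))
  have ht1p : 0 < t1 := hτ0.trans_le ht1.1
  -- switching off
  obtain ⟨d, hde⟩ : ∃ d : ℝ, d = min (1 / (16 * (G.ω * N) ^ 2)) ((η / (CN + 1)) ^ 2) := ⟨_, rfl⟩
  have hd0 : 0 < d := by rw [hde]; positivity
  have hd1 : d ≤ 1 / (16 * (G.ω * N) ^ 2) := by rw [hde]; exact min_le_left _ _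
  have hd2 : d ≤ (η / (CN + 1)) ^ 2 := by rw [hde]; exact min_le_right _ _
  obtain ⟨A₂, A₂', hA₂, cA₂, hA₂b, hA₂e, hA₂t⟩ := exists_amp_off hA cA hAb
    (t₁ := t1) (t₂ := t1 + d) (by linarith)
  have ht2 : 0 ≤ t1 + d := by linarith
  have hB2 := bgF_cell G hN hL hv hw hA₂ cA₂ ht2
  have hA₂0 : A₂ 0 = 0 := by rw [(hA₂e 0 ht1p.le).1, hA0]
  have hgL2 : (bgF G N g0 P0 Z0 v w A₂ A₂').gL 0 = 0 := hB2.gL 0 ⟨le_rfl, ht2⟩ hA₂0
  have ht2b : t1 + d ≤ 1 / (8 * (G.ω * N) ^ 2) := by rw [hτ2]; linarith [ht1.2]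
  obtain ⟨x2, hx20, hx2, hap2⟩ := hex hN hB2 ht2 hmm0 ht2b
    (fun t _ => hA₂b t) (x0 := (p0, h0)) hp0 hr hΘ0 (hE0 hgL2) (hy0 hgL2).1
  -- agreement on `[0, t1]`
  have hx12 : x2 t1 = x1 t1 := by
    have s1 := (hx1.restrict ht1p.le ht1.2).sol
    have s2 := (hx2.restrict ht1p.le (by linarith : t1 ≤ t1 + d)).sol
    have s3 : G.Sol (bgF G N g0 P0 Z0 v w A₂ A₂') 0 t1 (x1 0) x1 := by
      refine Sol.congr_bg (fun t ht => ?_) s1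
      have e := hA₂e t ht.2
      unfold bgF
      simp only [e.1, e.2]
      exact ⟨trivial, trivial, trivial, trivial, trivial, trivial, trivial⟩
    rw [hx10] at s3
    rw [hx20] at s2
    exact Geo.Sol.unique (hx2.restrict ht1p.le (by linarith : t1 ≤ t1 + d)).cont s2 s3 t1
      ⟨ht1p.le, le_rfl⟩
  -- the end
  have hend : t1 + d ∈ Icc 0 (t1 + d) := ⟨ht2, le_rfl⟩
  have hap := hap2 _ hend
  have hsw' := hsw hx2 (ht2b.trans hτ3) (fun t _ => (hA₂b t).2)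
    (fun t ht => (hap2 t ht).mono (min_le_left _ _)) ht1p.le (by linarith : t1 ≤ t1 + d) le_rfl
  rw [hx12, add_sub_cancel_left] at hsw'
  have hX : ‖Ms (rc (cutz (G.ω * N)) (cutz_c _)) (cm G.b (G.qL (x1 t1).1))‖ ^ 2 ≤
      Cb ^ 2 * C₂ * Real.exp (-√(G.ω * N)) := by
    have h1 := (hb (Ms (rc (cutz (G.ω * N)) (cutz_c _)) (G.qL (x1 t1).1))).2
    rw [← MsCm G.hb.c.s0] at h1
    have h2 := pow_le_pow_left₀ (norm_nonneg _) h1 2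
    refine h2.trans ?_
    rw [mul_pow, mul_assoc (Cb ^ 2)]
    exact mul_le_mul_of_nonneg_left hchi (sq_nonneg _)
  have hchi2 := sqrt_step (c := 0) hCq hCN (by positivity : 0 ≤ δ / 4) hηe hsw' hX hms hd2 hη.le
    (norm_nonneg _)
  refine ⟨N, A₂, t1 + d, bgF G N g0 P0 Z0 v w A₂ A₂', x2, by linarith, ht2b.trans hmT, hB2, hx2,
    by rw [hx20]; exact hp0, by rw [hx20], hA₂0, hA₂t, ?_⟩
  refine (sz_le G (bgF G N g0 P0 Z0 v w A₂ A₂') (t1 + d) (x2 (t1 + d))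
    (hB2.gL _ hend hA₂t)).trans ?_
  have e1 := hap.y
  rw [hx20] at e1
  have e2 := (hy0 hgL2).2
  have e3 := hq hm1 (x2 (t1 + d)).1 (x2 (t1 + d)).2
  have e4 : ‖cm G.b (G.qL (x2 (t1 + d)).1)‖ ≤ √(Θ ^ 2 + 1) := by
    refine Real.le_sqrt_of_sq_le ?_
    have h1 := hap.q
    have h2 : 0 ≤ ∫ r in (0:ℝ)..(t1 + d), ‖(x2 r).1‖ ^ 2 :=
      intervalIntegral.integral_nonneg ht2 fun r _ => sq_nonneg _
    linarith
  have e5 : Cq * (4 / √(G.ω * N)) ^ (5 / 8 : ℝ) * ‖cm G.b (G.qL (x2 (t1 + d)).1)‖ ≤ δ / 4 :=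
    (mul_le_mul_of_nonneg_left e4 (by positivity)).trans hmq
  have e6 : min 1 (δ / 4) ≤ δ / 4 := min_le_right _ _
  have e7 : ((x2 (t1 + d)).1, (x2 (t1 + d)).2) = x2 (t1 + d) := rfl
  rw [e7] at e3
  linarith

/-- **THE FLUSH THEOREM** (block iii). -/
theorem Geo.flush_thm (G : Geo H) (hBig : G.Big) (hT : G.TFex) {a : ℝ × ℝ → ℝ} {h : ℝ}
    (hP : G.PcT a h) (hS : G.SmT) (hh0 : 0 ≤ h) (hh : h ≤ G.ρ) : G.FlushThm a h := by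
  intro x₀ hSt hLow T hT0 δ hδ
  obtain ⟨N, A, b, B, x, hb0, hbT, hB, hx, hx1, hx2, hA0, hAb, hsz⟩ :=
    flush_core G hBig hT hSt.real hLow hT0 hδ
  have hz : (0:ℝ) ∈ Icc 0 b := ⟨le_rfl, hb0.le⟩
  have hb : b ∈ Icc 0 b := ⟨hb0.le, le_rfl⟩
  obtain ⟨v, w, hPc, hNs, hFl, hSts, -⟩ := Geo.Sol.conv hP hS hh0 hh hx.sol hB.M hB.nsl hx1
    (by rw [hx2]; exact hSt)
  have o0 := hB.off hz hA0
  have o1 := hB.off hb hAb
  refine ⟨b, hb0, hbT, (x b).2, hsz, hSts b hb, v, w, hPc, hNs, ?_, hFl b hb o1.1 o1.2.1 o1.2.2⟩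
  have h1 := hFl 0 hz o0.1 o0.2.1 o0.2.2
  rwa [hx2] at h1

end

end Pool.Agent.Lib.MP_79abb3_an.SC
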