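import Mathlib

/-!
MP_79abb3_an, simply connected domains, block (iii): error terms of the flush and of the switching off.
The theorems are in SC/FlGc1.lean, SC/FlGc2.lean and SC/FlGc3.lean.
-/
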