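import Pool.Agent.Lib.MP_79abb3_an.SC.ApE
import Pool.Agent.Lib.MP_79abb3_an.SC.ExA

/-!
MP_79abb3_an, simply connected domains, block (iii): products `q u'` in `L²` and splitting of the
transport term.
-/

set_option autoImplicit false
set_option linter.unusedSectionVars false

open MeasureTheory Set Filter Topology Function
open scoped ENNReal InnerProductSpace

namespace Pool.Agent.Lib.MP_79abb3_an.SC

open Pool.Agent.Lib.MP_79abb3_an.P25 Pool.Agent.Lib.MP_79abb3_an.FW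

section
variable {H : ℝ} [hH : Fact (0 < H)]

/-- Exchange of the factors of a product of continuous families. -/
theorem pz_io_comm (Q v : ℤ → CI H) : pz (io Q) v = pz (io v) Q := by
  funext n
  show ∑' j, mz (v (n - j)) (iota (Q j) : Z2 H) = ∑' j, mz (Q (n - j)) (iota (v j) : Z2 H)
  rw [← (Equiv.subLeft n).tsum_eq (fun j => mz (v (n - j)) (iota (Q j) : Z2 H))]
  refine tsum_congr fun j => ?_
  show mz (v (n - (n - j))) (iota (Q (n - j)) : Z2 H) = _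
  rw [sub_sub_cancel, mz_iota, mz_iota, mul_comm]

theorem uq_sqrt {L a x : ℝ} (hL : 0 ≤ L) (hx : 0 ≤ x) (ha : a ≤ L * x) : √(a * x) ≤ √L * x := by
  have h1 : a * x ≤ L * x ^ 2 := by
    calc a * x ≤ L * x * x := mul_le_mul_of_nonneg_right ha hx
      _ = L * x ^ 2 := by ring
  refine (Real.sqrt_le_sqrt h1).trans (le_of_eq ?_)
  rw [Real.sqrt_mul hL, Real.sqrt_sq hx]

theorem uq_arith {c n q a b s : ℝ} (hc : 0 ≤ c) (hq0 : 0 ≤ q) (hn : n ≤ 2 * a) (hq : q ≤ 2 * (s * b))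
    (ha : 0 ≤ a) : c * n * q ≤ c * 2 * (2 * s) * (b * a) := by
  have h1 : c * n ≤ c * (2 * a) := mul_le_mul_of_nonneg_left hn hc
  have h2 : 0 ≤ c * (2 * a) := mul_nonneg hc (mul_nonneg zero_le_two ha)
  calc c * n * q ≤ c * (2 * a) * q := mul_le_mul_of_nonneg_right h1 hq0
    _ ≤ c * (2 * a) * (2 * (s * b)) := mul_le_mul_of_nonneg_left hq h2
    _ = _ := by ring

/-- One component of `uq_bd`. -/
theorem uq_one (G : Geo H) (g g' : HH H) {v : ℤ → CI H} (sv : S2 G.lam (3 / 8) (io v))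
    (nv : N2 G.lam (3 / 8) (io v) ≤ 2 * N2 G.lam (3 / 8) (⇑(TT G.ω g'))) :
    S2 G.lam 0 (pz (TT G.ω g) v) ∧ N2 G.lam 0 (pz (TT G.ω g) v) ≤
      CP G.lam (3 / 8 + 1 / 4 + 0) * 2 *
        (2 * √‖(LT G.ω G.lam (1 / 2) : HH H →L[ℂ] HH H)‖) * (‖g‖ * ‖LT G.ω G.lam (3 / 8) g'‖) := by
  obtain ⟨s1, n1⟩ := G.N2_Vf g
  have pw : PrW G.lam (3 / 8) (1 / 4) 0 :=
    G.prW (by norm_num) (by norm_num) (by norm_num) (by norm_num)
  obtain ⟨p1, p2⟩ := S2_pz pw sv s1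
  rw [neg_zero] at p1 p2
  rw [← io_Vf, pz_io_comm]
  refine ⟨p1, p2.trans ?_⟩
  rw [N2_TT G (by norm_num)] at nv
  refine uq_arith (CP_nonneg _) (N2_nonneg _ _) nv (n1.trans ?_) (norm_nonneg _)
  exact mul_le_mul_of_nonneg_left (uq_sqrt (norm_nonneg _) (norm_nonneg _)
    (ContinuousLinearMap.le_opNorm _ _)) zero_le_two

/-- **Products `q u'` in `L²`.** `q = T g`, `u' = u[T g']`: `|q u'| ≤ C |g| |Λ^{3/8} T g'|`.
Proof: `pz (io Q) v = pz (io v) Q` for `CI` families (`mz v (iota Q) = iota (v * Q)`, `mz_iota`, reflection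
`j ↦ n - j` of the sum), then `S2_pz` (or `cvm_bd`) with `om = io v` (`α = 3/8`), `v = Q = Vf ω g`
(`β = 1/4`; `N2_Vf`, `S2_Vf` and `S2_mono`), `γ = 0` (`G.prW`); `S2_iuV`, `LT_N2`. -/
theorem uq_bd (G : Geo H) : ∃ C, 0 ≤ C ∧ ∀ g g' : HH H,
    (S2 G.lam 0 (pz (TT G.ω g) (uV G.ω (Vf G.ω g'))) ∧
      N2 G.lam 0 (pz (TT G.ω g) (uV G.ω (Vf G.ω g'))) ≤ C * (‖g‖ * ‖LT G.ω G.lam (3 / 8) g'‖)) ∧
    (S2 G.lam 0 (pz (TT G.ω g) (wV G.ω (Vf G.ω g'))) ∧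
      N2 G.lam 0 (pz (TT G.ω g) (wV G.ω (Vf G.ω g'))) ≤ C * (‖g‖ * ‖LT G.ω G.lam (3 / 8) g'‖)) := by
  refine ⟨CP G.lam (3 / 8 + 1 / 4 + 0) * 2 * (2 * √‖(LT G.ω G.lam (1 / 2) : HH H →L[ℂ] HH H)‖),
    mul_nonneg (mul_nonneg (CP_nonneg _) zero_le_two) (mul_nonneg zero_le_two (Real.sqrt_nonneg _)),
    fun g g' => ?_⟩
  obtain ⟨⟨s1, n1⟩, ⟨s2, n2⟩⟩ := G.S2_iu g'
  have n2' : N2 G.lam (3 / 8) (io (wV G.ω (Vf G.ω g'))) ≤ 2 * N2 G.lam (3 / 8) (⇑(TT G.ω g')) :=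
    n2.trans (mul_le_mul_of_nonneg_right one_le_two (N2_nonneg _ _))
  exact ⟨uq_one G g g' s1 n1, uq_one G g g' s2 n2'⟩

/-- Splitting of one component. -/
theorem dp_split_one (G : Geo H) (a g : HH H) {v v' : ℤ → CI H} (sv : S2 G.lam (1 / 2) v)
    (sv' : S2 G.lam (1 / 2) v') :
    dp a (pz (TT G.ω g) (fun n => v n + v' n)) = dp a (pz (TT G.ω g) v) + dp a (pz (TT G.ω g) v') := by
  have sg : S2 G.lam (1 / 4) (⇑(TT G.ω g)) := S2_TT' G (by norm_num) g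
  have sa : S2 G.lam 0 (⇑a) := S2_l2 _ a
  rw [dp_pz G.pw' sg sv sa, dp_pz G.pw' sg sv' sa,
    dp_pz G.pw' sg (S2_add G.lw.h1 sv sv').1 sa, T3_add_mid G.pw' sg sv sv' sa]

theorem dp_bd (G : Geo H) (a : HH H) {p : ℤ → Z2 H} {K : ℝ} (sp : S2 G.lam 0 p)
    (np : N2 G.lam 0 p ≤ K) : ‖dp a p‖ ≤ ‖a‖ * K := by
  have h := (dp_sum (s := 0) G.lw.h1 (S2_l2 G.lam a) (by rw [neg_zero]; exact sp)).2
  rw [neg_zero, N2_l2] at h
  exact h.trans (mul_le_mul_of_nonneg_left np (norm_nonneg _))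

/-- Splitting of the transport term: `u = u_e + u[T g']`. Proof: additivity of `pz` in the velocity
(`T3_add_mid`, `dp_pz`), Cauchy-Schwarz `dp_sum` with `s = 0`. -/
theorem dp_split (G : Geo H) : ∃ C, 0 ≤ C ∧ ∀ (a₁ a₂ g g' : HH H) {ve we : ℤ → CI H}
    (_ : S2 G.lam (1 / 2) ve) (_ : S2 G.lam (1 / 2) we),
    ‖dp a₁ (pz (TT G.ω g) (fun n => uV G.ω (Vf G.ω g') n + ve n)) +
        dp a₂ (pz (TT G.ω g) (fun n => wV G.ω (Vf G.ω g') n + we n)) -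
        (dp a₁ (pz (TT G.ω g) ve) + dp a₂ (pz (TT G.ω g) we))‖ ≤
      C * ((‖a₁‖ + ‖a₂‖) * (‖g‖ * ‖LT G.ω G.lam (3 / 8) g'‖)) := by
  obtain ⟨C, hC, h⟩ := uq_bd G
  refine ⟨C, hC, fun a₁ a₂ g g' ve we hve hwe => ?_⟩
  obtain ⟨⟨s1, n1⟩, ⟨s2, n2⟩⟩ := h g g'
  obtain ⟨u1, u2⟩ := G.S2_huv g'
  rw [dp_split_one G a₁ g u1 hve, dp_split_one G a₂ g u2 hwe]
  have e : ∀ x y z w : ℂ, x + y + (z + w) - (y + w) = x + z := fun x y z w => by ring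
  rw [e]
  refine (norm_add_le _ _).trans ((add_le_add (dp_bd G a₁ s1 n1) (dp_bd G a₂ s2 n2)).trans
    (le_of_eq ?_))
  ring

end

end Pool.Agent.Lib.MP_79abb3_an.SC
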