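import Pool.Agent.Lib.MP_79abb3_an.SC.FcD
import Pool.Agent.Lib.MP_79abb3_an.SC.NcB

/-!
MP_79abb3_an, simply connected domains, block (iii): multiplication by a smooth function `F(y, z)`
on elements `T g`.
-/

set_option autoImplicit false
set_option linter.unusedSectionVars false

open MeasureTheory Set Filter Topology Function
open scoped ENNReal InnerProductSpace

namespace Pool.Agent.Lib.MP_79abb3_an.SC

open Pool.Agent.Lib.MP_79abb3_an.P25 Pool.Agent.Lib.MP_79abb3_an.FW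

section
variable {H : ℝ} [hH : Fact (0 < H)] {F : ℝ × ℝ → ℝ}

/-- `B (F T g)` -/
noncomputable def MF (ω : ℝ) (F : ℝ × ℝ → ℝ) : HH H →L[ℂ] HH H :=
  cm (fam F) + cD ω (fam F) ∘L TT ω - cm (fam (pZ F)) ∘L TT ω

/-- `x = T (D x - x')` if `x(H) = 0`. Proof: mode by mode `Tz_unique` (LaC) with the `CI` representative
of `x n` (definition of `DH`, `Dk`, `Zr`). -/
theorem TT_of_DH {ω : ℝ} {x x1 y : HH H} (h : DH x x1) (hy : Dk ω x y) (h1 : Zr H x) :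
    TT ω (y - x1) = x := by
  refine lp.ext (funext fun n => ?_)
  obtain ⟨F, e1, e2⟩ := h n
  have e3 := h1 n
  rw [e1, tr_iota] at e3
  have e4 : x1 n = ((|ω * n| : ℝ) : ℂ) • iota F - (y - x1) n := by
    rw [lp.coeFn_sub, Pi.sub_apply, hy n, e1, sub_sub_cancel]
  rw [e4] at e2
  rw [TT_apply, T2_apply, ← Tz_unique e2 e3, e1]

/-- Proof: `P2_iff` mode by mode. -/
theorem PP_of_DH {ω : ℝ} {x x1 y : HH H} (h : DH x x1) (hy : Dk ω x y) (h1 : Zr H x) (h0 : Zr 0 x) :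
    PP ω (y - x1) = y - x1 := by
  refine lp.ext (funext fun n => ?_)
  obtain ⟨F, e1, e2⟩ := h n
  have e3 := h1 n
  have e0 := h0 n
  rw [e1, tr_iota] at e3 e0
  have e4 : x1 n = ((|ω * n| : ℝ) : ℂ) • iota F - (y - x1) n := by
    rw [lp.coeFn_sub, Pi.sub_apply, hy n, e1, sub_sub_cancel]
  rw [e4] at e2
  rw [PP_apply, P2_iff, ← Tz_unique e2 e3]
  exact e0

private theorem flwt_MF (ω : ℝ) (F : ℝ × ℝ → ℝ) (g : HH H) : MF ω F g =
    cm (fam F) g + cD ω (fam F) (TT ω g) - cm (fam (pZ F)) (TT ω g) := rfl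

private theorem flwt_eq (ω : ℝ) (F : ℝ × ℝ → ℝ) (g : HH H) : MF ω F g =
    (cm (fam F) (DT ω g) + cD ω (fam F) (TT ω g)) -
      (cm (fam (pZ F)) (TT ω g) + cm (fam F) (DT ω g - g)) := by
  rw [flwt_MF, map_sub]
  abel

private theorem flwt_DH (ω : ℝ) (hF : PY H F) (g : HH H) :
    DH (cm (fam F) (TT ω g)) (cm (fam (pZ F)) (TT ω g) + cm (fam F) (DT ω g - g)) ∧
      ∀ z ∈ Icc (0:ℝ) H, Zr z (TT ω g) → Zr z (cm (fam F) (TT ω g)) :=
  DH.cm (DH_TT ω g) (fam_s0 hF) (fam_s0 hF.pZ) (fam_isD hF)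

private theorem flwt_Dk (ω : ℝ) (hF : PY H F) (g : HH H) :
    Dk ω (cm (fam F) (TT ω g)) (cm (fam F) (DT ω g) + cD ω (fam F) (TT ω g)) :=
  Dk.cm (Dk_TT ω g) (fam_cf hF (0 + 1))

private theorem flwt_0mem : (0:ℝ) ∈ Icc (0:ℝ) H := ⟨le_rfl, hH.out.le⟩

private theorem flwt_Hmem : H ∈ Icc (0:ℝ) H := ⟨hH.out.le, le_rfl⟩

/-- `T (B (F T g)) = F T g`. Proof: `DH_TT`, `Dk_TT`, `DH.cm`, `Dk.cm`, `Zr_TT_H`, `TT_of_DH`:
`D(Fx) - (Fx)' = F D x + [D,F] x - F_z x - F x' = MF g` for `x = T g`. -/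
theorem TT_MF (ω : ℝ) (hF : PY H F) (g : HH H) : TT ω (MF ω F g) = cm (fam F) (TT ω g) := by
  rw [flwt_eq]
  exact TT_of_DH (flwt_DH ω hF g).1 (flwt_Dk ω hF g)
    ((flwt_DH ω hF g).2 H flwt_Hmem (Zr_TT_H ω g))

theorem PP_MF (ω : ℝ) (hF : PY H F) {g : HH H} (hg : PP ω g = g) :
    PP ω (MF ω F g) = MF ω F g := by
  rw [flwt_eq]
  exact PP_of_DH (flwt_DH ω hF g).1 (flwt_Dk ω hF g)
    ((flwt_DH ω hF g).2 H flwt_Hmem (Zr_TT_H ω g))
    ((flwt_DH ω hF g).2 0 flwt_0mem (Zr_TT_zero ω hg))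

/-- `∂_y (F q) = F_y q + F q_y`, `q = T g`. Proof: mode by mode with `cm_hasSum`, `fam_dy`,
`kI_add`: `kI n = kI (n-j) + kI j`. -/
theorem Xy_MF {ω : ℝ} (hω : ω * H = Real.pi) (hF : PY H F) (g : HH H) :
    Xy ω (MF ω F g) = cm (fam (pY F)) (TT ω g) + cm (fam F) (Xy ω g) := by
  have hω' : Real.pi / H = ω := by
    rw [div_eq_iff hH.out.ne', hω]
  refine lp.ext (funext fun n => ?_)
  have e0 : Xy ω (MF ω F g) n = kI ω n • cm (fam F) (TT ω g) n := by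
    rw [Xy_apply, ← TT_apply, TT_MF ω hF]
  rw [e0, lp.coeFn_add, Pi.add_apply]
  have s1 := (cm_hasSum (fam_s0 hF) (TT ω g) n).const_smul (kI ω n)
  have s2 := (cm_hasSum (fam_s0 hF.pY) (TT ω g) n).add (cm_hasSum (fam_s0 hF) (Xy ω g) n)
  refine s1.unique ?_
  have e1 : (fun j => kI ω n • mz (fam F (n - j) : CI H) (TT ω g j)) = fun j =>
      mz (fam (pY F) (n - j) : CI H) (TT ω g j) + mz (fam F (n - j) : CI H) (Xy ω g j) := by
    funext j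
    have e2 : kI ω n = kI ω (n - j) + kI ω j := by
      rw [← kI_add, sub_add_cancel]
    rw [e2, add_smul, fam_dy hF, hω', map_smul, smul_apply, Xy_apply, ← TT_apply, map_smul]
  rw [e1]
  exact s2

/-- `∂_z (F q) = F_z q + F q_z`, `q = T g`: `Xz g` is the derivative of `T g` (`DH_TT`). -/
theorem Xz_MF (ω : ℝ) (hF : PY H F) (g : HH H) :
    Xz ω (MF ω F g) = cm (fam (pZ F)) (TT ω g) + cm (fam F) (Xz ω g) := by
  have e1 : DT ω (MF ω F g) = cm (fam F) (DT ω g) + cD ω (fam F) (TT ω g) := by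
    have h1 := Dk_TT ω (MF ω F g)
    rw [TT_MF ω hF] at h1
    exact Dk.unique h1 (flwt_Dk ω hF g)
  have e2 : Xz ω (MF ω F g) = DT ω (MF ω F g) - MF ω F g := rfl
  have e3 : Xz ω g = DT ω g - g := rfl
  rw [e2, e3, e1, flwt_eq, sub_sub_cancel]

/-- **Flush weights are admissible in `Sol.energy_q`.** Proof: `inner_cm_fam`, `cm_fam_comm`,
`PP_MF`, `TT_MF`. -/
theorem MulQ.fam (G : Geo H) (hF : PY H F) : MulQ G (cm (fam F)) (MF G.ω F) where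
  adj := inner_cm_fam hF
  b := cm_fam_comm hF G.hb.c.s0
  P := fun _ hg => PP_MF G.ω hF hg
  T := fun g _ => TT_MF G.ω hF g

/-- `|D|` and `∂_y` have the same size, also after multiplication with functions of `z` on the left
(mode by mode `|kI| = |ka|`) -/
theorem norm_Ms_DTc (ω : ℝ) (m : CI H) (g : HH H) : ‖Ms m (DTc ω g)‖ = ‖Ms m (Xy ω g)‖ := by
  refine (sq_eq_sq₀ (norm_nonneg _) (norm_nonneg _)).1 ?_
  rw [l2_norm_sq, l2_norm_sq]
  refine tsum_congr fun n => ?_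
  rw [Ms_apply, Ms_apply, DTc_apply, Xy_apply, map_smul, map_smul, norm_smul, norm_smul, norm_ka,
    norm_kI]

private theorem flwt_mode (k : ℝ) (c : ℂ) (hc : (starRingEnd ℂ) c * c = ((|k| : ℝ) : ℂ) * ((|k| : ℝ) : ℂ))
    {f h : Z2 H} (hf : P2 k f = f) (hh : P2 k h = h) :
    ⟪h, f⟫_ℂ = ⟪c • T2 k h, c • T2 k f⟫_ℂ +
      ⟪((|k| : ℝ) : ℂ) • T2 k h - h, ((|k| : ℝ) : ℂ) • T2 k f - f⟫_ℂ := by
  have h1 := (Tz_dz k h).ibp (Tz_dz k f)
  rw [Tz_H, (P2_iff k h).1 hh, star_zero, zero_mul, zero_mul, sub_self, ← T2_apply, ← T2_apply] at h1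
  obtain ⟨a, ha⟩ : ∃ a, a = T2 k h := ⟨_, rfl⟩
  obtain ⟨b, hb⟩ : ∃ b, b = T2 k f := ⟨_, rfl⟩
  obtain ⟨κ, hκ⟩ : ∃ κ : ℂ, κ = ((|k| : ℝ) : ℂ) := ⟨_, rfl⟩
  have hκr : (starRingEnd ℂ) κ = κ := by rw [hκ]; exact Complex.conj_ofReal _
  rw [← ha, ← hb, ← hκ] at h1
  rw [← ha, ← hb, ← hκ, inner_smul_left, inner_smul_right, inner_sub_left, inner_sub_right,
    inner_sub_right, inner_smul_left, inner_smul_right, inner_smul_left, inner_smul_right, hκr]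
  rw [inner_sub_right, inner_sub_left, inner_smul_right, inner_smul_left, hκr] at h1
  rw [← hκ] at hc
  linear_combination -⟪a, b⟫_ℂ * hc - κ * h1

/-- `⟨∇ T h, ∇ T g⟩ = ⟨h, g⟩` for Dirichlet elements. Proof: mode by mode: `h = |k| T h - (T h)'`,
`g = |k| T g - (T g)'`, the cross terms `|k| (⟪T h, (T g)'⟫ + ⟪(T h)', T g⟫)` vanish by `DZ.ibp`
(`Tz_dz`, `Tz_H`, `P2_iff`), and `|k|² = kI̅ kI`. -/
theorem inner_grad (ω : ℝ) {g h : HH H} (hg : PP ω g = g) (hh : PP ω h = h) :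
    ⟪h, g⟫_ℂ = ⟪Xy ω h, Xy ω g⟫_ℂ + ⟪Xz ω h, Xz ω g⟫_ℂ := by
  rw [lp.inner_eq_tsum, lp.inner_eq_tsum, lp.inner_eq_tsum,
    ← (lp.summable_inner (Xy ω h) (Xy ω g)).tsum_add (lp.summable_inner (Xz ω h) (Xz ω g))]
  refine tsum_congr fun n => ?_
  have hgn : P2 (ω * n) (g n) = g n := by rw [← PP_apply, hg]
  have hhn : P2 (ω * n) (h n) = h n := by rw [← PP_apply, hh]
  rw [Xy_apply, Xy_apply, Xz_apply, Xz_apply]
  refine flwt_mode (ω * n) (kI ω n) ?_ hgn hhn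
  rw [← Complex.ofReal_mul, abs_mul_abs_self, Complex.conj_mul', norm_kI, ← Complex.ofReal_pow,
    sq_abs, sq]

end

end Pool.Agent.Lib.MP_79abb3_an.SC
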