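import Pool.Agent.Lib.MP_79abb3_an.SC.ExA
import Pool.Agent.Lib.MP_79abb3_an.SC.FlWt

/-!
MP_79abb3_an, simply connected domains, block (iii): error terms of the flush and of the switching off,
part 2: the κ-term.
-/

set_option autoImplicit false
set_option linter.unusedSectionVars false

open MeasureTheory Set Filter Topology Function
open scoped ENNReal InnerProductSpace

namespace Pool.Agent.Lib.MP_79abb3_an.SC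

open Pool.Agent.Lib.MP_79abb3_an.P25 Pool.Agent.Lib.MP_79abb3_an.FW

section
variable {H : ℝ} [hH : Fact (0 < H)]

/-- weights `P = 1 + μ cosh(mz)`: `P⁻¹ F` is bounded by `M` -/
private theorem gc2_w {F : ℝ × ℝ → ℝ} (hF : PY H F) {g : ℝ → ℝ}
    (hg : ContDiff ℝ ((⊤ : ℕ∞) : WithTop ℕ∞) g) {M : ℝ} (hM : 0 ≤ M)
    (h : ∀ y ∈ Icc (-H) H, ∀ z ∈ Icc (0:ℝ) H, |g z * F (y, z)| ≤ M) (x : HH H) :
    ‖Ms (rc g hg.continuous) (cm (fam F) x)‖ ≤ M * ‖x‖ := by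
  rw [← cm_fam_z hg.continuous, cm_fam_mul (PY.of_z H hg) hF]
  exact norm_cm_fam_le ((PY.of_z H hg).mul hF) hM (fun y hy z hz => h y hy z hz) x

private theorem gc2_inv {g k : ℝ → ℝ} (hg : ContDiff ℝ ((⊤ : ℕ∞) : WithTop ℕ∞) g)
    (hk : ContDiff ℝ ((⊤ : ℕ∞) : WithTop ℕ∞) k) (h : ∀ z, g z * k z = 1) (x : HH H) :
    Ms (rc g hg.continuous) (Ms (rc k hk.continuous) x) = x := by
  rw [← cm_fam_z hg.continuous, ← cm_fam_z hk.continuous]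
  exact cm_fam_inv (PY.of_z H hg) (PY.of_z H hk) (fun _ _ z _ => h z) x

private theorem gc2_one {g k : ℝ → ℝ} (hg : ContDiff ℝ ((⊤ : ℕ∞) : WithTop ℕ∞) g)
    (hk : ContDiff ℝ ((⊤ : ℕ∞) : WithTop ℕ∞) k) (h : ∀ z, k z = 1 + g z) (x : HH H) :
    ‖Ms (rc k hk.continuous) x‖ ≤ ‖x‖ + ‖Ms (rc g hg.continuous) x‖ := by
  rw [← cm_fam_z hg.continuous, ← cm_fam_z hk.continuous]
  have e1 : (fun p : ℝ × ℝ => k p.2) = fun p => (fun _ : ℝ × ℝ => (1:ℝ)) p + (fun p : ℝ × ℝ => g p.2) p :=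
    funext fun p => h p.2
  rw [e1, cm_fam_add (PY.const H 1) (PY.of_z H hg), cm_fam_const, Complex.ofReal_one, one_smul]
  exact norm_add_le _ _

private theorem gc2_star (F : ℝ → ℝ) (hF : Continuous F) : star (rc F hF : CI H) = rc F hF := by
  refine ci_ext fun z hz => ?_
  rw [ex_star, ex_rc F hF hz]
  exact Complex.conj_ofReal _

private theorem gc2_real {M q g u v A B C D : ℝ} (hM : 0 ≤ M) (hq : 0 ≤ q) (hg : 0 ≤ g)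
    (hA : A ≤ M * q + M * (2 * g)) (hB : B ≤ M * q + M * (1 * g)) (hC : C ≤ A + B) (hD : D ≤ u + v)
    (hD0 : 0 ≤ D) : C * D ≤ 3 * M * (q + g) * (u + v) := by
  have h1 : C ≤ 3 * M * (q + g) := by
    have := mul_nonneg hM hq
    nlinarith
  exact mul_le_mul h1 hD hD0 (by positivity)

/-- **The κ-term.** `|⟨B*(F q), U⟩| ≤ 3 M (|q| + |g|) (|U| + |μ cosh(mz) U|)` for `q = T g`, if
`|F| ≤ M`, `|F_y|, |F_z| ≤ M (1 + μ cosh(mz))`. Proof: let `P = 1 + μ cosh(mz)`, `h = MF ω F g`.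
`⟪Xz h + DTc h, U⟫ = ⟪P⁻¹ (Xz h + DTc h), P U⟫` (`inner_Ms`), `‖P⁻¹ DTc h‖ = ‖P⁻¹ Xy h‖` (`norm_Ms_DTc`),
`Xy h = F_y q + F Xy g`, `Xz h = F_z q + F Xz g` (`Xy_MF`, `Xz_MF`); `‖P⁻¹ F_y q‖ ≤ M ‖q‖`: `P⁻¹ = Ms` of a
smooth function of `z`, `Ms (rc P⁻¹) (cm (fam F_y) q) = cm (fam (F_y / P)) q` (`cm_fam_z`, `cm_fam_mul`) and
`norm_cm_fam_le`; `‖Xz g‖ ≤ 2 ‖g‖`, `‖Xy g‖ ≤ ‖g‖` (ExA), `‖P⁻¹ x‖ ≤ ‖x‖`. -/
theorem kap_term {ω : ℝ} (hω : ω * H = Real.pi) {F : ℝ × ℝ → ℝ} (hF : PY H F) {M μ m : ℝ} (hM : 0 ≤ M)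
    (hμ : 0 ≤ μ) (h0 : ∀ y ∈ Icc (-H) H, ∀ z ∈ Icc (0:ℝ) H, |F (y, z)| ≤ M)
    (h1 : ∀ y ∈ Icc (-H) H, ∀ z ∈ Icc (0:ℝ) H, |pY F (y, z)| ≤ M * (1 + μ * Real.cosh (m * z)))
    (h2 : ∀ y ∈ Icc (-H) H, ∀ z ∈ Icc (0:ℝ) H, |pZ F (y, z)| ≤ M * (1 + μ * Real.cosh (m * z)))
    (g U : HH H) :
    ‖⟪Xz ω (MF ω F g) + DTc ω (MF ω F g), U⟫_ℂ‖ ≤ 3 * M * (‖TT ω g‖ + ‖g‖) *
      (‖U‖ + ‖Ms (rc (fun z : ℝ => μ * Real.cosh (m * z)) (by fun_prop)) U‖) := by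
  have hgc : ContDiff ℝ ((⊤ : ℕ∞) : WithTop ℕ∞) fun z : ℝ => μ * Real.cosh (m * z) :=
    contDiff_const.mul (Real.contDiff_cosh.comp (contDiff_const.mul contDiff_id))
  have hkc : ContDiff ℝ ((⊤ : ℕ∞) : WithTop ℕ∞) fun z : ℝ => 1 + μ * Real.cosh (m * z) :=
    contDiff_const.add hgc
  have hc0 : ∀ z : ℝ, 0 ≤ μ * Real.cosh (m * z) := fun z => mul_nonneg hμ (Real.cosh_pos _).le
  have hp : ∀ z : ℝ, 0 < 1 + μ * Real.cosh (m * z) := fun z => by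
    have := hc0 z
    linarith
  have hic : ContDiff ℝ ((⊤ : ℕ∞) : WithTop ℕ∞) fun z : ℝ => (1 + μ * Real.cosh (m * z))⁻¹ :=
    hkc.inv fun z => (hp z).ne'
  have hi0 : ∀ z : ℝ, 0 ≤ (1 + μ * Real.cosh (m * z))⁻¹ := fun z => (inv_pos.2 (hp z)).le
  have hi1 : ∀ z : ℝ, (1 + μ * Real.cosh (m * z))⁻¹ ≤ 1 := fun z =>
    inv_le_one_of_one_le₀ (by have := hc0 z; linarith)
  -- bounds of the weighted coefficients
  have b0 : ∀ y ∈ Icc (-H) H, ∀ z ∈ Icc (0:ℝ) H, |(1 + μ * Real.cosh (m * z))⁻¹ * F (y, z)| ≤ M := by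
    intro y hy z hz
    rw [abs_mul, abs_of_nonneg (hi0 z)]
    exact (mul_le_mul (hi1 z) (h0 y hy z hz) (abs_nonneg _) zero_le_one).trans (one_mul M).le
  have bb : ∀ {G : ℝ × ℝ → ℝ}, (∀ y ∈ Icc (-H) H, ∀ z ∈ Icc (0:ℝ) H,
      |G (y, z)| ≤ M * (1 + μ * Real.cosh (m * z))) → ∀ y ∈ Icc (-H) H, ∀ z ∈ Icc (0:ℝ) H,
      |(1 + μ * Real.cosh (m * z))⁻¹ * G (y, z)| ≤ M := by
    intro G hG y hy z hz
    rw [abs_mul, abs_of_nonneg (hi0 z), inv_mul_le_iff₀ (hp z), mul_comm _ M]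
    exact hG y hy z hz
  obtain ⟨h, hh⟩ : ∃ h, h = MF ω F g := ⟨_, rfl⟩
  -- the left factor
  have hA : ‖Ms (rc _ hic.continuous) (Xz ω h)‖ ≤ M * ‖TT ω g‖ + M * (2 * ‖g‖) := by
    rw [hh, Xz_MF ω hF, map_add]
    refine (norm_add_le _ _).trans (add_le_add (gc2_w hF.pZ hic hM (bb h2) _) ?_)
    exact (gc2_w hF hic hM b0 _).trans (mul_le_mul_of_nonneg_left (norm_Xz_le ω g) hM)
  have hB : ‖Ms (rc _ hic.continuous) (DTc ω h)‖ ≤ M * ‖TT ω g‖ + M * (1 * ‖g‖) := by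
    rw [norm_Ms_DTc, hh, Xy_MF hω hF, map_add]
    refine (norm_add_le _ _).trans (add_le_add (gc2_w hF.pY hic hM (bb h1) _) ?_)
    exact (gc2_w hF hic hM b0 _).trans (mul_le_mul_of_nonneg_left (norm_Xy_le ω g) hM)
  have hC : ‖Ms (rc _ hic.continuous) (Xz ω h + DTc ω h)‖ ≤
      ‖Ms (rc _ hic.continuous) (Xz ω h)‖ + ‖Ms (rc _ hic.continuous) (DTc ω h)‖ := by
    rw [map_add]
    exact norm_add_le _ _
  have hD := gc2_one hgc hkc (fun _ => rfl) U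
  have e1 : ⟪Xz ω h + DTc ω h, U⟫_ℂ =
      ⟪Ms (rc _ hic.continuous) (Xz ω h + DTc ω h), Ms (rc _ hkc.continuous) U⟫_ℂ := by
    rw [inner_Ms, gc2_star, gc2_inv hic hkc fun z => inv_mul_cancel₀ (hp z).ne']
  rw [← hh, e1]
  refine (norm_inner_le_norm _ _).trans ?_
  exact gc2_real hM (norm_nonneg _) (norm_nonneg _) hA hB hC hD (norm_nonneg _)

end

end Pool.Agent.Lib.MP_79abb3_an.SC
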