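import Pool.Agent.Lib.MP_79abb3_an.SC.FlAp
import Pool.Agent.Lib.MP_79abb3_an.SC.FlGb
import Pool.Agent.Lib.MP_79abb3_an.SC.FlGc1
import Pool.Agent.Lib.MP_79abb3_an.SC.FlGc2
import Pool.Agent.Lib.MP_79abb3_an.SC.FlGz

/-!
MP_79abb3_an, simply connected domains, block (iii): the flush inequality.
-/

set_option autoImplicit false
set_option linter.unusedSectionVars false

open MeasureTheory Set Filter Topology Function
open scoped ENNReal InnerProductSpace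

namespace Pool.Agent.Lib.MP_79abb3_an.SC

open Pool.Agent.Lib.MP_79abb3_an.P25 Pool.Agent.Lib.MP_79abb3_an.FW

section
variable {H : ℝ} [hH : Fact (0 < H)]

/-- the constants of the flush at `m` -/
private theorem flgd_c {m : ℝ} (hm : 1 ≤ m) : 0 < 32 * m * Real.exp (-√m) ∧ 0 < 2 * m * Real.exp (-(2 * √m)) ∧
    2 * m * Real.exp (-(2 * √m)) = 32 * m * Real.exp (-√m) * Real.exp (-√m) / 16 ∧
    4 * (2 * m * Real.exp (-(2 * √m))) ≤ 32 * m * Real.exp (-√m) := by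
  have m0 : 0 < m := by linarith
  have e : Real.exp (-(2 * √m)) = Real.exp (-√m) * Real.exp (-√m) := by
    rw [← Real.exp_add]; congr 1; ring
  have e0 := Real.exp_pos (-√m)
  have e1 : Real.exp (-√m) ≤ 1 := by
    rw [Real.exp_le_one_iff]
    have := Real.sqrt_nonneg m
    linarith
  refine ⟨by positivity, by positivity, by rw [e]; ring, ?_⟩
  rw [e]
  have h1 : m * (Real.exp (-√m) * Real.exp (-√m)) ≤ m * Real.exp (-√m) := by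
    refine mul_le_mul_of_nonneg_left ?_ m0.le
    exact mul_le_of_le_one_left e0.le e1
  have h2 : 0 ≤ m * Real.exp (-√m) := by positivity
  linarith

/-- absorption of the transport error -/
private theorem flgd_r1 {a μ R s v e : ℝ} (ha : 0 < a) (hμ : 0 < μ) (hs : s ^ 2 ≤ 2 * μ ^ 2 * R)
    (he : μ = a * e / 16) : s * v ≤ a * μ / 4 * R + e / 8 * v ^ 2 := by
  have he' : e = 16 * μ / a := by rw [he]; field_simp
  have h1 : a / (8 * μ) * s ^ 2 ≤ a * μ / 4 * R := by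
    have h2 : a / (8 * μ) * s ^ 2 ≤ a / (8 * μ) * (2 * μ ^ 2 * R) :=
      mul_le_mul_of_nonneg_left hs (by positivity)
    have h3 : a / (8 * μ) * (2 * μ ^ 2 * R) = a * μ / 4 * R := by field_simp; ring
    rwa [h3] at h2
  have h4 : a / (8 * μ) * s ^ 2 + e / 8 * v ^ 2 - s * v = (a * s - 4 * μ * v) ^ 2 / (8 * a * μ) := by
    rw [he']; field_simp; ring
  have h5 : 0 ≤ (a * s - 4 * μ * v) ^ 2 / (8 * a * μ) := by positivity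
  linarith

/-- the final real-variable estimate -/
private theorem flgd_r2 {a μ R s L D K H Cg Cu X E e ee n1 n2 e1 d dc k Kk T S : ℝ} (ha : 0 < a)
    (hμ : 0 < μ) (hR : 0 ≤ R) (hL0 : 0 ≤ L) (hD : 0 ≤ D) (hCu : 0 ≤ Cu)
    (hs : s ^ 2 ≤ 2 * μ ^ 2 * R) (he : μ = a * e / 16) (hma : 4 * μ ≤ a) (he0 : 0 ≤ e)
    (hee : e ≤ ee) (hL : L ≤ K)
    (hX : 4 * E * X ≤ a * μ * R) (hn1 : 0 ≤ n1) (hn2 : 0 ≤ n2)
    (hc : e1 + dc ≤ -(a * μ - μ ^ 2) * R) (hd : d ≤ dc + Cu * (s * (D * L)))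
    (hk : k ≤ 3 * Kk * (T + D) * S) (hKk : 0 ≤ Kk) (hT : T ≤ H * D) (hH : 0 ≤ H)
    (hS : S ≤ 2 * (Cg * ee)) (hCg : 0 ≤ Cg) (hee0 : 0 ≤ ee) (hS0 : 0 ≤ S) :
    -2 * (n1 + n2) + e1 + d + 2 * k ≤ -(2 * E) * X +
      ((Cu * K) ^ 2 / 8 + 6 * Kk * (H + 1) * Cg) * ee * (1 + D ^ 2) := by
  have h1 := flgd_r1 (v := Cu * (D * L)) ha hμ hs he
  have e1' : Cu * (s * (D * L)) = s * (Cu * (D * L)) := by ring
  rw [e1'] at hd
  have hK : 0 ≤ K := hL0.trans hL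
  have h2 : (Cu * (D * L)) ^ 2 ≤ (Cu * K) ^ 2 * (1 + D ^ 2) := by
    have a1 : Cu * (D * L) ≤ Cu * (D * K) :=
      mul_le_mul_of_nonneg_left (mul_le_mul_of_nonneg_left hL hD) hCu
    have a2 : (Cu * (D * L)) ^ 2 ≤ (Cu * (D * K)) ^ 2 := pow_le_pow_left₀ (by positivity) a1 2
    have a3 : (Cu * (D * K)) ^ 2 = (Cu * K) ^ 2 * D ^ 2 := by ring
    rw [a3] at a2
    have a4 : (0:ℝ) ≤ (Cu * K) ^ 2 := sq_nonneg _
    linarith
  have h3 : e / 8 * (Cu * (D * L)) ^ 2 ≤ ee / 8 * ((Cu * K) ^ 2 * (1 + D ^ 2)) :=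
    mul_le_mul (by linarith) h2 (sq_nonneg _) (by linarith)
  have h4 : μ ^ 2 * R ≤ a * μ / 4 * R := by
    refine mul_le_mul_of_nonneg_right ?_ hR
    have := mul_le_mul_of_nonneg_right hma hμ.le
    linarith [sq μ]
  have h5 : k ≤ 3 * Kk * ((H + 1) * D) * (2 * (Cg * ee)) := by
    refine hk.trans (mul_le_mul (mul_le_mul_of_nonneg_left ?_ (by positivity)) hS hS0
      (by positivity))
    linarith
  have h6 : 2 * D ≤ 1 + D ^ 2 := by nlinarith [sq_nonneg (D - 1)]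
  have h7 : 2 * (3 * Kk * ((H + 1) * D) * (2 * (Cg * ee))) ≤
      6 * Kk * (H + 1) * Cg * ee * (1 + D ^ 2) := by
    have a1 : 2 * (3 * Kk * ((H + 1) * D) * (2 * (Cg * ee))) =
      6 * Kk * (H + 1) * Cg * ee * (2 * D) := by ring
    rw [a1]
    exact mul_le_mul_of_nonneg_left h6 (by positivity)
  have h8 : ((Cu * K) ^ 2 / 8 + 6 * Kk * (H + 1) * Cg) * ee * (1 + D ^ 2) =
    ee / 8 * ((Cu * K) ^ 2 * (1 + D ^ 2)) + 6 * Kk * (H + 1) * Cg * ee * (1 + D ^ 2) := by ring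
  rw [h8]
  have h9 : -(a * μ - μ ^ 2) * R = -(a * μ * R) + μ ^ 2 * R := by ring
  rw [h9] at hc
  have h10 : a * μ / 4 * R = (a * μ * R) / 4 := by ring
  rw [h10] at h1 h4
  linarith

private theorem flgd_sqrt {x C m : ℝ} (hC : 0 ≤ C) (hx : 0 ≤ x) (h : x ^ 2 ≤ C * Real.exp (-√m)) :
    x ≤ √C * Real.exp (-(√m / 2)) := by
  refine (sq_le_sq₀ hx (by positivity)).1 ?_
  rw [mul_pow, Real.sq_sqrt hC, ← Real.exp_nat_mul]
  have e : ((2:ℕ) : ℝ) * -(√m / 2) = -√m := by push_cast; ring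
  rw [e]
  exact h

/-- bound of the total vorticity part: `‖Λ^{3/8} T gt‖ ≤ C (1 + ‖q‖)` if `y ≤ 1` -/
theorem APb.gt (G : Geo H) : ∃ C, 0 ≤ C ∧ ∀ {N : ℕ} {Θ C' ε : ℝ} {B : Bg H} {x : ℝ → HH H × HH H} {t : ℝ}
    (_ : APb G N Θ C' ε B x t), ‖LT G.ω G.lam (3 / 8) (G.gt B t (x t))‖ ≤
      C * (1 + ‖cm G.b (G.qL (x t).1)‖) := by
  obtain ⟨Cb, hCb1, hCb⟩ := G.b_equiv
  have hsJ : Summable fun n => ‖G.J n‖ := G.hJ.c.s0
  have hJ0 : 0 ≤ ∑' n, ‖G.J n‖ := tsum_nonneg fun _ => norm_nonneg _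
  have hb0 : 0 ≤ Cb := by linarith
  have hM0 : 0 ≤ ‖(LT G.ω G.lam (3 / 8) : HH H →L[ℂ] HH H)‖ := norm_nonneg _
  have hz0 : 0 ≤ ‖G.ζ‖ := norm_nonneg _
  have hK : 0 ≤ ‖(LT G.ω G.lam (3 / 8) : HH H →L[ℂ] HH H)‖ * (‖G.ζ‖ * ((∑' n, ‖G.J n‖) * Cb)) := by
    positivity
  refine ⟨1 + ‖(LT G.ω G.lam (3 / 8) : HH H →L[ℂ] HH H)‖ * (‖G.ζ‖ * ((∑' n, ‖G.J n‖) * Cb)),
    by linarith, ?_⟩
  intro N Θ C' ε B x t h
  rw [G.gt_gV, map_add]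
  have h1 : ‖LT G.ω G.lam (3 / 8) (G.qh (x t))‖ ≤
      ‖(LT G.ω G.lam (3 / 8) : HH H →L[ℂ] HH H)‖ * (‖G.ζ‖ * ((∑' n, ‖G.J n‖) * Cb)) *
        ‖cm G.b (G.qL (x t).1)‖ := by
    have h3 : ‖cm G.J (G.qL (x t).1)‖ ≤ (∑' n, ‖G.J n‖) * (Cb * ‖cm G.b (G.qL (x t).1)‖) :=
      (norm_cm_apply_le hsJ _).trans (mul_le_mul_of_nonneg_left (hCb _).1 hJ0)
    have h4 : ‖G.qh (x t)‖ ≤ ‖G.ζ‖ * ((∑' n, ‖G.J n‖) * (Cb * ‖cm G.b (G.qL (x t).1)‖)) :=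
      (norm_Ms_apply_le _ _).trans (mul_le_mul_of_nonneg_left h3 hz0)
    refine ((LT G.ω G.lam (3 / 8)).le_opNorm _).trans ?_
    refine (mul_le_mul_of_nonneg_left h4 hM0).trans (le_of_eq ?_)
    ring
  have h2 := h.y1
  have h3 : 0 ≤ ‖cm G.b (G.qL (x t).1)‖ := norm_nonneg _
  refine (norm_add_le _ _).trans ((add_le_add h1 h2).trans ?_)
  nlinarith [mul_nonneg hK h3]

/-- **The flush inequality** at a time with full amplitude `A(t) = A0 m`. `D = ‖p‖`.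
Proof. Unfold `Geo.dFr` with `F = gF m μ`, `μ = muu m`, `m = ω N`. The first bracket is `≥ 0`
(`cm_fam_nonneg`, `F ≥ π/2`). The velocity is `u[T gt] + cell` (`vf_apply`, `h.ve`): `dp_split` with
`a₁ = cm F_y q`, `a₂ = cm F_z q`; `flush_cell` for the cell part; `grad_rho`: `‖a₁‖ + ‖a₂‖ ≤ 2 μ √R`,
`R = Re⟪ρ q, q⟫ ≥ 0`, so the error is `≤ C μ √R D ‖Λ^{3/8} T gt‖ ≤ (A0 μ/4) R + C² (μ/A0) D² ‖..‖²`,
`μ/A0 = e^{-√m}/16`; `μ² ≤ A0 μ/4`; then `-(A0 μ - μ² - A0 μ/4) R ≤ -(A0 μ/2) R ≤ -2 m² e^{√m} ‖χ q‖²`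
(`rho_cut`). The κ-term by `kap_term` (`M = 3π/2`). `APb.gt` bounds `‖Λ^{3/8} T gt‖`. -/
theorem FlS.flush_ineq (G : Geo H) {Θ C' : ℝ} (hΘ : 0 ≤ Θ) (hC' : 0 ≤ C') : ∃ C, 0 ≤ C ∧
    ∀ {N : ℕ} {A : ℝ → ℝ} {b : ℝ} {B : Bg H} {x : ℝ → HH H × HH H} (_ : FlS G N A b B x)
    (_ : 1 ≤ G.ω * N) {t : ℝ} (_ : t ∈ Icc 0 b) (_ : A t = FW.A0 (G.ω * N))
    (_ : APb G N Θ C' 1 B x t),
    G.dFr (gF (G.ω * N) (muu (G.ω * N))) B t (x t) ≤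
      -(2 * (G.ω * N) ^ 2 * Real.exp √(G.ω * N)) *
        ‖Ms (rc (cutz (G.ω * N)) (cutz_c _)) (G.qL (x t).1)‖ ^ 2 +
      C * Real.exp (-(√(G.ω * N) / 2)) * (1 + ‖(x t).1‖ ^ 2) := by
  obtain ⟨Cg, hCg0, hCg⟩ := APb.gt G
  obtain ⟨Cu, hCu0, hCu⟩ := dp_split G
  have hH0 : 0 < H := hH.out
  have hω : G.ω * H = Real.pi := by
    rw [G.hω, div_mul_cancel₀ _ hH.out.ne']
  have hKK : 0 ≤ (Cu * (Cg * (2 + Θ))) ^ 2 / 8 + 6 * (3 * Real.pi / 2) * (H + 1) * √C' := by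
    have := Real.pi_pos
    positivity
  refine ⟨(Cu * (Cg * (2 + Θ))) ^ 2 / 8 + 6 * (3 * Real.pi / 2) * (H + 1) * √C', hKK, ?_⟩
  intro N A b B x h hm t ht hA hP
  have hF : PY H (gF (G.ω * N) (muu (G.ω * N)) : ℝ × ℝ → ℝ) := gF_PY hω rfl _
  have hρ : PY H (rF (G.ω * N) (muu (G.ω * N)) : ℝ × ℝ → ℝ) := rF_PY hω rfl _
  obtain ⟨ha0, hμ0, hμe, hμa⟩ := flgd_c hm
  change 0 < FW.A0 (G.ω * N) at ha0
  change 0 < muu (G.ω * N) at hμ0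
  change muu (G.ω * N) = FW.A0 (G.ω * N) * Real.exp (-√(G.ω * N)) / 16 at hμe
  change 4 * muu (G.ω * N) ≤ FW.A0 (G.ω * N) at hμa
  have m0 : 0 < G.ω * (N:ℝ) := by linarith
  -- the bound of `‖b q‖`
  have hbq : ‖cm G.b (G.qL (x t).1)‖ ≤ Θ + 1 := by
    refine (sq_le_sq₀ (norm_nonneg _) (by linarith)).1 ?_
    have h1 := hP.q
    have h2 : 0 ≤ ∫ r in (0:ℝ)..t, ‖(x r).1‖ ^ 2 :=
      intervalIntegral.integral_nonneg ht.1 fun _ _ => sq_nonneg _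
    nlinarith
  have hL : ‖LT G.ω G.lam (3 / 8) (G.gt B t (x t))‖ ≤ Cg * (2 + Θ) :=
    (hCg hP).trans (mul_le_mul_of_nonneg_left (by linarith) hCg0)
  -- the sign of the dissipation
  have hn : ∀ u : HH H, 0 ≤ (⟪cm (fam (gF (G.ω * N) (muu (G.ω * N)))) u, u⟫_ℂ).re := by
    intro u
    rw [inner_cm_fam hF]
    refine cm_fam_nonneg hF (fun y _ z hz => ?_) u
    have := (gF_bd hω m0 rfl hμ0 y hz).1
    linarith [Real.pi_pos]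
  have hR : 0 ≤ (⟪cm (fam (rF (G.ω * N) (muu (G.ω * N)))) (G.qL (x t).1), G.qL (x t).1⟫_ℂ).re := by
    rw [inner_cm_fam hρ]
    exact cm_fam_nonneg hρ (fun y _ z _ => rF_nonneg _ _ _) _
  have hc := flush_cell hω G.ω_pos h.N1 (FW.A0 (G.ω * N)) hμ0 (G.qL (x t).1)
  have hg := grad_rho hω G.ω_pos h.N1 hμ0 (G.qL (x t).1)
  -- the transport term
  have sV : S2 G.lam (1 / 2) (cellV (G.ω * N) N (FW.A0 (G.ω * N)) : ℤ → CI H) :=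
    S2_fin (N := (N:ℤ)) fun l h1 h2 => cellV_zero h1 h2
  have sW : S2 G.lam (1 / 2) (cellW (G.ω * N) N (FW.A0 (G.ω * N)) : ℤ → CI H) :=
    S2_fin (N := (N:ℤ)) fun l h1 h2 => cellW_zero h1 h2
  have hv : G.vf B t (x t) = fun n => uV G.ω (Vf G.ω (⇑(G.gt B t (x t)))) n +
      cellV (G.ω * N) N (FW.A0 (G.ω * N)) n := by
    funext n
    rw [G.vf_apply, h.ve t ht, hA]
  have hw : G.wf B t (x t) = fun n => wV G.ω (Vf G.ω (⇑(G.gt B t (x t)))) n +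
      cellW (G.ω * N) N (FW.A0 (G.ω * N)) n := by
    funext n
    rw [G.wf_apply, h.we t ht, hA]
  have hd := hCu (cm (fam (pY (gF (G.ω * N) (muu (G.ω * N))))) (G.qL (x t).1))
    (cm (fam (pZ (gF (G.ω * N) (muu (G.ω * N))))) (G.qL (x t).1)) (G.Qo (x t).1)
    (G.gt B t (x t)) sV sW
  have e : TT G.ω (G.Qo (x t).1) = G.qL (x t).1 := rfl
  rw [e, ← hv, ← hw, G.norm_Qo] at hd
  have hd2 := (Complex.re_le_norm _).trans hd
  rw [Complex.sub_re] at hd2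
  -- the κ-term
  have hM1 : (1:ℝ) ≤ 3 * Real.pi / 2 := by linarith [Real.pi_gt_three]
  have hkt := kap_term (m := G.ω * N) hω hF (M := 3 * Real.pi / 2) (by linarith) hμ0.le
    (fun y _ z hz => by
      have h1 := gF_bd hω m0 rfl hμ0 y hz
      rw [abs_of_nonneg (by linarith [h1.1, Real.pi_pos])]
      exact h1.2.1)
    (fun y _ z hz => by
      have h1 := (gF_bd hω m0 rfl hμ0 y hz).2.2.1
      have h2 : 0 ≤ muu (G.ω * N) * Real.cosh (G.ω * N * z) :=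
        mul_nonneg hμ0.le (Real.cosh_pos _).le
      nlinarith)
    (fun y _ z hz => by
      have h1 := (gF_bd hω m0 rfl hμ0 y hz).2.2.2.1
      have h2 : 0 ≤ muu (G.ω * N) * Real.cosh (G.ω * N * z) :=
        mul_nonneg hμ0.le (Real.cosh_pos _).le
      nlinarith)
    (G.Qo (x t).1) (Ms (B.κ t) (G.VV B t (x t)))
  rw [G.norm_Qo] at hkt
  have hk2 := (Complex.re_le_norm _).trans hkt
  have hTT : ‖TT G.ω (G.Qo (x t).1)‖ ≤ H * ‖(x t).1‖ := by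
    have h1 := (TT G.ω : HH H →L[ℂ] HH H).le_of_opNorm_le (norm_TT_le G.ω) (G.Qo (x t).1)
    rwa [G.norm_Qo] at h1
  have hk1 := flgd_sqrt hC' (norm_nonneg _) hP.k1
  have hk3 := flgd_sqrt hC' (norm_nonneg _) hP.k2
  have hcut := rho_cut hω hm (G.qL (x t).1)
  have hee : Real.exp (-√(G.ω * N)) ≤ Real.exp (-(√(G.ω * N) / 2)) := by
    refine Real.exp_le_exp.2 ?_
    have := Real.sqrt_nonneg (G.ω * (N:ℝ))
    linarith
  have hs : (‖cm (fam (pY (gF (G.ω * N) (muu (G.ω * N))))) (G.qL (x t).1)‖ +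
      ‖cm (fam (pZ (gF (G.ω * N) (muu (G.ω * N))))) (G.qL (x t).1)‖) ^ 2 ≤
      2 * muu (G.ω * N) ^ 2 *
      (⟪cm (fam (rF (G.ω * N) (muu (G.ω * N)))) (G.qL (x t).1), G.qL (x t).1⟫_ℂ).re := by
    nlinarith [sq_nonneg (‖cm (fam (pY (gF (G.ω * N) (muu (G.ω * N))))) (G.qL (x t).1)‖ -
      ‖cm (fam (pZ (gF (G.ω * N) (muu (G.ω * N))))) (G.qL (x t).1)‖)]
  have hS : ‖Ms (B.κ t) (G.VV B t (x t))‖ +
      ‖Ms (rc (fun z : ℝ => muu (G.ω * N) * Real.cosh (G.ω * (N : ℝ) * z)) (by fun_prop))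
        (Ms (B.κ t) (G.VV B t (x t)))‖ ≤ 2 * (√C' * Real.exp (-(√(G.ω * N) / 2))) := by
    rw [two_mul]
    exact add_le_add hk1 hk3
  have key := flgd_r2 (X := ‖Ms (rc (cutz (G.ω * N)) (cutz_c _)) (G.qL (x t).1)‖ ^ 2)
    (E := (G.ω * N) ^ 2 * Real.exp √(G.ω * N)) (Kk := 3 * Real.pi / 2) (H := H) (Cg := √C')
    ha0 hμ0 hR (norm_nonneg _) (norm_nonneg _) hCu0 hs hμe hμa (Real.exp_pos _).le hee hL
    (le_of_eq_of_le (by ring) hcut) (hn (Xy G.ω (G.Qo (x t).1))) (hn (Xz G.ω (G.Qo (x t).1)))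
    hc (sub_le_iff_le_add'.1 hd2) hk2 (by linarith) hTT hH0.le hS
    (Real.sqrt_nonneg _) (Real.exp_pos _).le (add_nonneg (norm_nonneg _) (norm_nonneg _))
  have e2 : -(2 * (G.ω * N) ^ 2 * Real.exp √(G.ω * N)) =
    -(2 * ((G.ω * N) ^ 2 * Real.exp √(G.ω * N))) := by ring
  rw [e2]
  unfold Geo.dFr
  exact key

end

end Pool.Agent.Lib.MP_79abb3_an.SC
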