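import Pool.Agent.Lib.MP_79abb3_an.SC.FlRl
import Pool.Agent.Lib.MP_79abb3_an.SC.NcB

/-!
MP_79abb3_an, simply connected domains, block (iii), y-inequality (a): the vortex force of the cell
flow.
-/

set_option autoImplicit false
set_option linter.unusedSectionVars false

open MeasureTheory Set Filter Topology Function
open scoped ENNReal InnerProductSpace

namespace Pool.Agent.Lib.MP_79abb3_an.SC

open Pool.Agent.Lib.MP_79abb3_an.P25 Pool.Agent.Lib.MP_79abb3_an.FW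

/-! ### Real variable algebra -/

theorem U_alg1 {A A1 AD z0 z1 p r pd rd p1 r1 m y y1 yd z zz1 zd φ φ1 φd : ℝ} (hA : 0 ≤ A)
    (hA1 : 0 ≤ A1) (hAD : 0 ≤ AD) (hz0 : 0 ≤ z0) (hz1 : 0 ≤ z1) (hm : 0 ≤ m)
    (hy : y ≤ p + r) (hy1 : y1 ≤ (m * p + p1) + r1) (hyd : yd ≤ (pd + m * p) + (rd + m * r))
    (hz : z ≤ z0 * y) (hzz : zz1 ≤ z1 * y + z0 * y1) (hzd : zd ≤ z0 * yd)
    (hφ : φ ≤ A * z) (hφ1 : φ1 ≤ A1 * z + A * zz1) (hφd : φd ≤ A * zd + AD * z) :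
    φd + m * φ + φ1 ≤ A * z0 * ((pd + m * p) + (rd + m * r)) + m * (A * z0 * (p + r)) +
      A * z0 * ((m * p + p1) + r1) + (AD * z0 + A1 * z0 + A * z1) * (p + r) := by
  have e1 : φd ≤ A * (z0 * ((pd + m * p) + (rd + m * r))) + AD * (z0 * (p + r)) := by
    refine hφd.trans (add_le_add (mul_le_mul_of_nonneg_left ?_ hA)
      (mul_le_mul_of_nonneg_left ?_ hAD))
    · exact hzd.trans (mul_le_mul_of_nonneg_left hyd hz0)
    · exact hz.trans (mul_le_mul_of_nonneg_left hy hz0)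
  have e2 : m * φ ≤ m * (A * (z0 * (p + r))) := by
    refine mul_le_mul_of_nonneg_left (hφ.trans (mul_le_mul_of_nonneg_left ?_ hA)) hm
    exact hz.trans (mul_le_mul_of_nonneg_left hy hz0)
  have e3 : φ1 ≤ A1 * (z0 * (p + r)) + A * (z1 * (p + r) + z0 * ((m * p + p1) + r1)) := by
    refine hφ1.trans (add_le_add (mul_le_mul_of_nonneg_left ?_ hA1)
      (mul_le_mul_of_nonneg_left ?_ hA))
    · exact hz.trans (mul_le_mul_of_nonneg_left hy hz0)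
    · exact hzz.trans (add_le_add (mul_le_mul_of_nonneg_left hy hz1)
        (mul_le_mul_of_nonneg_left hy1 hz0))
  linarith

theorem U_alg2 {B D ω m n0 n1 f1 p r pd rd p1 r1 : ℝ} (hB : 0 ≤ B) (hD : 0 ≤ D) (hω : 0 < ω)
    (hm : ω ≤ m) (hn0 : 0 ≤ n0) (hn1 : 0 ≤ n1) (hf1 : 0 ≤ f1) (hp : p ≤ 2 * n0) (hr : r ≤ 1 * n0)
    (hpd : pd ≤ 2 * n1) (hrd : rd ≤ 1 * n1) (hp1 : p1 ≤ 2 * n1 + f1) (hr1 : r1 ≤ 2 * n1) :
    B * ((pd + m * p) + (rd + m * r)) + m * (B * (p + r)) + B * ((m * p + p1) + r1) +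
      D * (p + r) ≤ (8 * B + 3 * (ω⁻¹ * D)) * (m * n0 + n1 + f1) := by
  have hm0 : 0 ≤ m := hω.le.trans hm
  have e1 : (pd + m * p) + (rd + m * r) ≤ 3 * (m * n0) + 3 * n1 := by
    have h1 := mul_le_mul_of_nonneg_left hp hm0
    have h2 := mul_le_mul_of_nonneg_left hr hm0
    linarith
  have e2 : m * (B * (p + r)) ≤ B * (3 * (m * n0)) := by
    have h1 : m * (p + r) ≤ 3 * (m * n0) := by
      have := mul_le_mul_of_nonneg_left (add_le_add hp hr) hm0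
      linarith
    have h2 := mul_le_mul_of_nonneg_left h1 hB
    linarith
  have e3 : (m * p + p1) + r1 ≤ 2 * (m * n0) + 4 * n1 + f1 := by
    have h1 := mul_le_mul_of_nonneg_left hp hm0
    linarith
  have e4 : n0 ≤ ω⁻¹ * (m * n0) := by
    have h1 : 1 ≤ ω⁻¹ * m := by
      rw [inv_mul_eq_div, le_div_iff₀ hω]; linarith
    calc n0 = 1 * n0 := (one_mul _).symm
      _ ≤ ω⁻¹ * m * n0 := mul_le_mul_of_nonneg_right h1 hn0
      _ = _ := by ring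
  have e5 : D * (p + r) ≤ D * (3 * (ω⁻¹ * (m * n0))) := by
    refine mul_le_mul_of_nonneg_left ?_ hD
    linarith
  have g1 := mul_le_mul_of_nonneg_left e1 hB
  have g3 := mul_le_mul_of_nonneg_left e3 hB
  have q1 : 0 ≤ m * n0 := mul_nonneg hm0 hn0
  have q2 : 0 ≤ ω⁻¹ * D := mul_nonneg (inv_nonneg.2 hω.le) hD
  have q3 : 0 ≤ B * n1 := mul_nonneg hB hn1
  have q4 : 0 ≤ B * f1 := mul_nonneg hB hf1
  have q5 : 0 ≤ ω⁻¹ * D * n1 := mul_nonneg q2 hn1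
  have q6 : 0 ≤ ω⁻¹ * D * f1 := mul_nonneg q2 hf1
  have q7 : D * (3 * (ω⁻¹ * (m * n0))) = 3 * (ω⁻¹ * D) * (m * n0) := by ring
  have q8 : (8 * B + 3 * (ω⁻¹ * D)) * (m * n0 + n1 + f1) =
      8 * (B * (m * n0)) + 8 * (B * n1) + 8 * (B * f1) + 3 * (ω⁻¹ * D) * (m * n0) +
        3 * (ω⁻¹ * D * n1) + 3 * (ω⁻¹ * D * f1) := by ring
  rw [q8]
  linarith

theorem U_fin {u : ℤ → ℝ} {N : ℕ} {c : ℝ} (h0 : ∀ n : ℤ, n ≠ N → n ≠ -N → u n = 0)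
    (hc : 0 ≤ c) (h1 : ∀ n, u n ≤ c) : Summable u ∧ ∑' n, u n ≤ 2 * c := by
  have h2 : ∀ n ∉ ({(N:ℤ), -(N:ℤ)} : Finset ℤ), u n = 0 := by
    intro n hn
    rw [Finset.mem_insert, Finset.mem_singleton, not_or] at hn
    exact h0 n hn.1 hn.2
  refine ⟨summable_of_ne_finset_zero h2, ?_⟩
  rw [tsum_eq_sum h2]
  refine (Finset.sum_le_card_nsmul _ _ c fun n _ => h1 n).trans ?_
  rw [nsmul_eq_mul]
  refine mul_le_mul_of_nonneg_right ?_ hc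
  exact_mod_cast Finset.card_le_two

section
variable {H : ℝ} [hH : Fact (0 < H)]

/-! ### `tanh (m z)` -/

/-- `tanh (m z)` -/
noncomputable def U_th (m : ℝ) : CI H := rc (fun z => Real.sinh (m * z) / Real.cosh (m * z))
  ((Real.continuous_sinh.comp (by fun_prop)).div (Real.continuous_cosh.comp (by fun_prop))
    fun _ => (Real.cosh_pos _).ne')

/-- its derivative -/
noncomputable def U_th1 (m : ℝ) : CI H := rc (fun z => m / Real.cosh (m * z) ^ 2)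
  (continuous_const.div ((Real.continuous_cosh.comp (by fun_prop)).pow 2)
    fun _ => (pow_pos (Real.cosh_pos _) 2).ne')

theorem U_th_d (m : ℝ) : IsD (U_th m : CI H) (U_th1 m) := by
  intro z hz
  have h1 : HasDerivAt (fun z : ℝ => ((Real.sinh (m * z) / Real.cosh (m * z) : ℝ) : ℂ))
      ((m / Real.cosh (m * z) ^ 2 : ℝ) : ℂ) z := by
    have h2 : HasDerivAt (fun z : ℝ => m * z) m z := by
      simpa using (hasDerivAt_id z).const_mul m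
    have h3 := h2.sinh.div h2.cosh (Real.cosh_pos _).ne'
    refine (h3.congr_deriv ?_).ofReal_comp
    have h4 : Real.cosh (m * z) ^ 2 - Real.sinh (m * z) ^ 2 = 1 := Real.cosh_sq_sub_sinh_sq _
    congr 1
    calc Real.cosh (m * z) * m * Real.cosh (m * z) - Real.sinh (m * z) * (Real.sinh (m * z) * m) =
        (Real.cosh (m * z) ^ 2 - Real.sinh (m * z) ^ 2) * m := by ring
      _ = m := by rw [h4, one_mul]
  unfold U_th U_th1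
  rw [ex_rc _ _ hz]
  exact (h1.hasDerivWithinAt).congr (fun x hx => ex_rc _ _ hx) (ex_rc _ _ hz)

theorem U_th_le (m : ℝ) : ‖(U_th m : CI H)‖ ≤ 1 := by
  refine ci_norm_le zero_le_one fun z hz => ?_
  unfold U_th
  rw [ex_rc _ _ hz, Complex.norm_real, Real.norm_eq_abs, abs_div, abs_of_pos (Real.cosh_pos _)]
  exact (div_le_one (Real.cosh_pos _)).2 (abs_sinh_le _)

theorem U_th1_le {m : ℝ} (hm : 0 ≤ m) : ‖(U_th1 m : CI H)‖ ≤ m := by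
  refine ci_norm_le hm fun z hz => ?_
  unfold U_th1
  rw [ex_rc _ _ hz, Complex.norm_real, Real.norm_eq_abs, abs_div, abs_of_nonneg hm,
    abs_of_pos (pow_pos (Real.cosh_pos _) 2)]
  exact div_le_self hm (one_le_pow₀ (Real.one_le_cosh _))

theorem U_th_star (m : ℝ) : star (U_th m : CI H) = U_th m := star_rc _ _

/-! ### The normalised modes of the cell flow -/

/-- `cw` -/
noncomputable def U_cw (m : ℝ) (N : ℕ) (n : ℤ) : CI H := ((|sN N n| / 2 : ℝ) : ℂ) • (U_th m : CI H)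

/-- `∂_z cw` -/
noncomputable def U_cw1 (m : ℝ) (N : ℕ) (n : ℤ) : CI H := ((|sN N n| / 2 : ℝ) : ℂ) • (U_th1 m : CI H)

/-- `cv` -/
noncomputable def U_cv (N : ℕ) (n : ℤ) : CI H := (Complex.I * ((sN N n / 2 : ℝ) : ℂ)) • (1 : CI H)

theorem U_ns (c : ℂ) (F : CI H) : ‖c • F‖ ≤ ‖c‖ * ‖F‖ := norm_smul_le c F

theorem U_half (N : ℕ) (n : ℤ) : |sN N n| / 2 ≤ 1 / 2 := by
  have := sN_abs_le N n
  linarith

theorem U_cw_le (m : ℝ) (N : ℕ) (n : ℤ) : ‖(U_cw m N n : CI H)‖ ≤ 1 / 2 := by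
  unfold U_cw
  refine (U_ns _ _).trans ?_
  rw [Complex.norm_real, Real.norm_eq_abs, abs_of_nonneg (by positivity)]
  calc |sN N n| / 2 * ‖(U_th m : CI H)‖ ≤ 1 / 2 * 1 :=
        mul_le_mul (U_half N n) (U_th_le m) (norm_nonneg _) (by norm_num)
    _ = _ := by ring

theorem U_cw1_le {m : ℝ} (hm : 0 ≤ m) (N : ℕ) (n : ℤ) : ‖(U_cw1 m N n : CI H)‖ ≤ m / 2 := by
  unfold U_cw1
  refine (U_ns _ _).trans ?_
  rw [Complex.norm_real, Real.norm_eq_abs, abs_of_nonneg (by positivity)]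
  calc |sN N n| / 2 * ‖(U_th1 m : CI H)‖ ≤ 1 / 2 * m :=
        mul_le_mul (U_half N n) (U_th1_le hm) (norm_nonneg _) (by norm_num)
    _ = _ := by ring

theorem U_cv_le (N : ℕ) (n : ℤ) : ‖(U_cv N n : CI H)‖ ≤ 1 / 2 := by
  unfold U_cv
  refine (U_ns _ _).trans ?_
  rw [norm_mul, Complex.norm_I, one_mul, Complex.norm_real, Real.norm_eq_abs, abs_div,
    abs_of_pos (by norm_num : (0:ℝ) < 2)]
  have h1 : ‖(1 : CI H)‖ ≤ 1 := ci_norm_le zero_le_one fun z _ => by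
    have e : ex (1 : CI H) z = 1 := rfl
    rw [e, norm_one]
  calc |sN N n| / 2 * ‖(1 : CI H)‖ ≤ 1 / 2 * 1 :=
        mul_le_mul (U_half N n) h1 (norm_nonneg _) (by norm_num)
    _ = _ := by ring

theorem U_cw_zero {m : ℝ} {N : ℕ} {n : ℤ} (h1 : n ≠ N) (h2 : n ≠ -N) : (U_cw m N n : CI H) = 0 := by
  unfold U_cw
  rw [sN_zero h1 h2, abs_zero, zero_div, Complex.ofReal_zero]
  exact zero_smul ℂ (_ : CI H)

theorem U_cw1_zero {m : ℝ} {N : ℕ} {n : ℤ} (h1 : n ≠ N) (h2 : n ≠ -N) :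
    (U_cw1 m N n : CI H) = 0 := by
  unfold U_cw1
  rw [sN_zero h1 h2, abs_zero, zero_div, Complex.ofReal_zero]
  exact zero_smul ℂ (_ : CI H)

theorem U_cv_zero {N : ℕ} {n : ℤ} (h1 : n ≠ N) (h2 : n ≠ -N) : (U_cv N n : CI H) = 0 := by
  unfold U_cv
  rw [sN_zero h1 h2, zero_div, Complex.ofReal_zero, mul_zero]
  exact zero_smul ℂ (_ : CI H)

/-- sums over a family supported on `± N` -/
theorem U_sum {c : ℤ → CI H} {N : ℕ} {B : ℝ} (h0 : ∀ n : ℤ, n ≠ N → n ≠ -N → c n = 0)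
    (hB : 0 ≤ B) (hc : ∀ n, ‖c n‖ ≤ B / 2) :
    (Summable fun n => ‖c n‖) ∧ ∑' n, ‖c n‖ ≤ B := by
  obtain ⟨h1, h2⟩ := U_fin (u := fun n => ‖c n‖) (N := N) (c := B / 2)
    (fun n a b => by rw [h0 n a b, norm_zero]) (by linarith) hc
  exact ⟨h1, h2.trans (by linarith)⟩

/-- the commutator sum -/
theorem U_sumD {c : ℤ → CI H} {N : ℕ} {ω : ℝ} (hω : 0 ≤ ω)
    (h0 : ∀ n : ℤ, n ≠ N → n ≠ -N → c n = 0) (hc : ∀ n, ‖c n‖ ≤ 1 / 2) :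
    ∑' n : ℤ, |ω| * (|(n:ℝ)| * ‖c n‖) ≤ ω * N := by
  have h1 := (U_fin (u := fun n : ℤ => |ω| * (|(n:ℝ)| * ‖c n‖)) (N := N) (c := ω * N / 2)
    (fun n a b => by rw [h0 n a b, norm_zero, mul_zero, mul_zero]) (by positivity) ?_).2
  · exact h1.trans (by linarith)
  · intro n
    show |ω| * (|(n:ℝ)| * ‖c n‖) ≤ ω * N / 2
    rw [abs_of_nonneg hω]
    by_cases a : n = N
    · rw [a]
      have e : |(((N:ℤ) : ℤ) : ℝ)| = N := by simp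
      rw [e]
      calc ω * ((N:ℝ) * ‖c (N:ℤ)‖) ≤ ω * ((N:ℝ) * (1 / 2)) := by
            refine mul_le_mul_of_nonneg_left (mul_le_mul_of_nonneg_left (hc _) (by positivity)) hω
        _ = _ := by ring
    · by_cases b : n = -N
      · rw [b]
        have e : |((-(N:ℤ) : ℤ) : ℝ)| = N := by simp
        rw [e]
        calc ω * ((N:ℝ) * ‖c (-(N:ℤ))‖) ≤ ω * ((N:ℝ) * (1 / 2)) := by
              refine mul_le_mul_of_nonneg_left (mul_le_mul_of_nonneg_left (hc _) (by positivity)) hω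
          _ = _ := by ring
      · rw [h0 n a b, norm_zero, mul_zero, mul_zero]; positivity

theorem U_Cf {c : ℤ → CI H} {N : ℕ} (h0 : ∀ n : ℤ, n ≠ N → n ≠ -N → c n = 0)
    (hr : ∀ n, c (-n) = star (c n)) : Cf 1 c where
  re := hr
  s := by
    refine summable_of_ne_finset_zero (s := ({(N:ℤ), -(N:ℤ)} : Finset ℤ)) ?_
    intro n hn
    rw [Finset.mem_insert, Finset.mem_singleton, not_or] at hn
    rw [h0 n hn.1 hn.2, norm_zero, mul_zero]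

theorem U_cw_Cf (m : ℝ) {N : ℕ} (hN : 1 ≤ N) : Cf 1 (U_cw m N : ℤ → CI H) := by
  refine U_Cf (N := N) (fun n a b => U_cw_zero a b) fun n => ?_
  unfold U_cw
  rw [star_smul_ci, U_th_star, sN_neg N hN, abs_neg, Complex.star_def, Complex.conj_ofReal]

theorem U_cv_Cf {N : ℕ} (hN : 1 ≤ N) : Cf 1 (U_cv N : ℤ → CI H) := by
  refine U_Cf (N := N) (fun n a b => U_cv_zero a b) fun n => ?_
  unfold U_cv
  rw [star_smul_ci, star_one, sN_neg N hN]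
  congr 1
  rw [star_mul', Complex.star_def, Complex.conj_I, Complex.conj_ofReal]
  push_cast
  ring

theorem U_isD_smul (c : ℂ) {F f : CI H} (h : IsD F f) : IsD (c • F) (c • f) := by
  intro z hz
  have h1 := (h z hz).const_smul c
  rw [ex_smul]
  refine h1.congr (fun x _ => ?_) ?_
  · rw [ex_smul]; rfl
  · rw [ex_smul]; rfl

theorem U_cw_d (m : ℝ) (N : ℕ) (n : ℤ) : IsD (U_cw m N n : CI H) (U_cw1 m N n) :=
  U_isD_smul _ (U_th_d m)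

theorem U_cv_d (N : ℕ) (n : ℤ) : IsD (U_cv N n : CI H) 0 := by
  intro z hz
  have e : ex (U_cv N n : CI H) = fun _ => Complex.I * ((sN N n / 2 : ℝ) : ℂ) * 1 := by
    funext x
    unfold U_cv
    rw [ex_smul]
    rfl
  rw [e]
  exact hasDerivWithinAt_const _ _ _

/-! ### Factorisation of the cell flow -/

theorem U_facW (m α : ℝ) (N : ℕ) (n : ℤ) :
    (cellW m N α n : CI H) = rc (chF m α) (chF_c _ _) * U_cw m N n := by
  refine ci_ext fun z hz => ?_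
  unfold cellW U_cw U_th
  rw [ex_mul, ex_smul, ex_smul, ex_rc _ _ hz, ex_rc _ _ hz, ex_rc _ _ hz]
  unfold chF
  have h := (Real.cosh_pos (m * z)).ne'
  have h' : ((Real.cosh (m * z) : ℝ) : ℂ) ≠ 0 := by exact_mod_cast h
  push_cast
  push_cast at h'
  field_simp

theorem U_facV (m α : ℝ) (N : ℕ) (n : ℤ) :
    (cellV m N α n : CI H) = rc (chF m α) (chF_c _ _) * U_cv N n := by
  refine ci_ext fun z hz => ?_
  unfold cellV U_cv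
  rw [ex_mul, ex_smul, ex_smul, ex_rc _ _ hz, ex_rc _ _ hz]
  have e : ex (1 : CI H) z = 1 := rfl
  rw [e]
  unfold chF
  push_cast
  ring

theorem U_cm_fac {c d : ℤ → CI H} {χ : CI H} (sc : Summable fun n => ‖c n‖)
    (sd : Summable fun n => ‖d n‖) (h : ∀ n, c n = χ * d n) (x : HH H) :
    cm c x = Ms χ (cm d x) := by
  rw [MsCm sd]
  refine lp.ext (funext fun n => ?_)
  rw [cm_apply sc, cm_apply sd]
  refine tsum_congr fun j => ?_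
  rw [Ms_apply, h, mz_mul, mz_comm]

theorem U_sumW (m α : ℝ) (N : ℕ) : Summable fun n => ‖(cellW m N α n : CI H)‖ := by
  refine summable_of_ne_finset_zero (s := ({(N:ℤ), -(N:ℤ)} : Finset ℤ)) ?_
  intro n hn
  rw [Finset.mem_insert, Finset.mem_singleton, not_or] at hn
  rw [cellW_zero hn.1 hn.2, norm_zero]

theorem U_sumV (m α : ℝ) (N : ℕ) : Summable fun n => ‖(cellV m N α n : CI H)‖ := by
  refine summable_of_ne_finset_zero (s := ({(N:ℤ), -(N:ℤ)} : Finset ℤ)) ?_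
  intro n hn
  rw [Finset.mem_insert, Finset.mem_singleton, not_or] at hn
  rw [cellV_zero hn.1 hn.2, norm_zero]

/-! ### Integration by parts -/

theorem U_ibp0 {x x1 y y1 : HH H} (h : DH x x1) (h' : DH y y1) (h0 : Zr 0 x) (h1 : Zr H y) :
    ⟪x1, y⟫_ℂ = -⟪x, y1⟫_ℂ := by
  rw [lp.inner_eq_tsum, lp.inner_eq_tsum, ← tsum_neg]
  refine tsum_congr fun n => ?_
  obtain ⟨F, e1, e2⟩ := h n
  obtain ⟨G, e3, e4⟩ := h' n
  have e5 := e2.ibp e4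
  have e6 := h0 n
  have e7 := h1 n
  rw [e1, tr_iota] at e6
  rw [e3, tr_iota] at e7
  rw [e6, e7, mul_zero, star_zero, zero_mul, sub_zero, ← e1, ← e3] at e5
  linear_combination e5

theorem U_ibp {ω : ℝ} {Φ Φ1 Φd : HH H} (h : DH Φ Φ1) (hd : Dk ω Φ Φd) (h0 : Zr 0 Φ) (g : HH H)
    {χ χ1 : CI H} (hχ : IsD χ χ1) :
    ⟪Φ, Ms χ g⟫_ℂ = ⟪Φd, Ms χ (TT ω g)⟫_ℂ + ⟪Φ, Ms χ1 (TT ω g)⟫_ℂ + ⟪Φ1, Ms χ (TT ω g)⟫_ℂ := by
  have a1 : DH (Ms χ (TT ω g)) (Ms χ1 (TT ω g) + Ms χ (DT ω g - g)) := (DH_TT ω g).mb hχ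
  have a2 : Zr H (Ms χ (TT ω g)) := Zr.mb (DH_TT ω g) (Zr_TT_H ω g) χ
  have a3 := U_ibp0 h a1 h0 a2
  have a4 : Dk ω (Ms χ (TT ω g)) (Ms χ (DT ω g)) := (Dk_TT ω g).mb χ
  have a5 : ⟪Φd, Ms χ (TT ω g)⟫_ℂ = ⟪Φ, Ms χ (DT ω g)⟫_ℂ := hd.inner a4
  rw [a3, a5, inner_add_right, map_sub, inner_sub_right]
  ring

/-! ### Elements of `HH` from families -/

theorem U_mk {lam : ℤ → ℝ} (w : LW lam) {u : ℤ → Z2 H} (h : S2 lam 0 u) :
    ∃ x : HH H, (⇑x : ℤ → Z2 H) = u ∧ ‖x‖ = N2 lam 0 u :=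
  ⟨mkl2 u (S2_sq w le_rfl h), rfl, (S2l2 (lam := lam) (mkl2 u (S2_sq w le_rfl h))).2.symm⟩

theorem U_dom1 {lam : ℤ → ℝ} (h1 : ∀ n, 1 ≤ lam n) {x y : ℤ → Z2 H} {c : ℝ} (hc : 0 ≤ c)
    (hx : ∀ n, ‖x n‖ ≤ c * (lam n * ‖y n‖)) (hy : S2 lam 1 y) :
    S2 lam 0 x ∧ N2 lam 0 x ≤ c * N2 lam 1 y := by
  have e : (fun n => (lam n ^ (0:ℝ) * ‖lam n * ‖y n‖‖) ^ 2) = fun n => (lam n ^ (1:ℝ) * ‖y n‖) ^ 2 := by
    funext n
    have h2 : 0 ≤ lam n * ‖y n‖ := mul_nonneg (zero_le_one.trans (h1 n)) (norm_nonneg _)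
    rw [Real.rpow_zero, one_mul, Real.rpow_one, Real.norm_eq_abs, abs_of_nonneg h2]
  have e1 : S2 lam 0 (fun n => lam n * ‖y n‖) := by
    unfold S2
    rw [e]
    exact hy
  have e2 : N2 lam 0 (fun n => lam n * ‖y n‖) = N2 lam 1 y := by
    unfold N2
    rw [e]
  obtain ⟨a, b⟩ := S2_dom h1 (s := 0) (x := x) (y := fun n => lam n * ‖y n‖) hc (fun n => by
    have h2 : 0 ≤ lam n * ‖y n‖ := mul_nonneg (zero_le_one.trans (h1 n)) (norm_nonneg _)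
    rw [Real.norm_eq_abs, abs_of_nonneg h2]
    exact hx n) e1
  exact ⟨a, by rwa [e2] at b⟩

/-- The test function `θ` as elements of `HH`. -/
theorem U_PR (G : Geo H) {f f1 : ℤ → CI H} (hf : ∀ n, DZ (f n) (iota (f1 n)))
    (h0 : ∀ n, ex (f n) 0 = 0) (s1 : S2 G.lam 1 (io f)) (s0 : S2 G.lam 0 (io f1)) :
    ∃ P P1 PD R R1 RD : HH H, (⇑P : ℤ → Z2 H) = tZ G.ω (io f) ∧ (⇑R : ℤ → Z2 H) = tY G.ω (io f) ∧
      DH P P1 ∧ DH R R1 ∧ Dk G.ω P PD ∧ Dk G.ω R RD ∧ Zr 0 P ∧ Zr 0 R ∧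
      ‖P‖ ≤ 2 * N2 G.lam 0 (io f) ∧ ‖R‖ ≤ 1 * N2 G.lam 0 (io f) ∧
      ‖PD‖ ≤ 2 * N2 G.lam 1 (io f) ∧ ‖RD‖ ≤ 1 * N2 G.lam 1 (io f) ∧
      ‖P1‖ ≤ 2 * N2 G.lam 1 (io f) + N2 G.lam 0 (io f1) ∧ ‖R1‖ ≤ 2 * N2 G.lam 1 (io f) := by
  have l1 := G.lw.h1
  have lk := G.lam_k
  have sf0 : S2 G.lam 0 (io f) := (S2_mono l1 zero_le_one s1).1
  have nu : ∀ n, ‖(iota (uV G.ω f n) : Z2 H)‖ ≤ 2 * ‖io f n‖ := fun n => norm_iuV_le G.ω f n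
  have nw : ∀ n, ‖(iota (wV G.ω f n) : Z2 H)‖ ≤ 1 * ‖io f n‖ := fun n => norm_iwV_le G.ω f n
  have nkI : ∀ n : ℤ, ‖kI G.ω n‖ ≤ G.lam n := fun n => by rw [norm_kI]; exact lk n
  have nka : ∀ n : ℤ, ‖ka G.ω n‖ ≤ G.lam n := fun n => by rw [norm_ka]; exact lk n
  -- a bound for `c • x`
  have key : ∀ (n : ℤ) (c : ℂ) (x : Z2 H) (d : ℝ), ‖c‖ ≤ G.lam n → ‖x‖ ≤ d * ‖io f n‖ →
      ‖c • x‖ ≤ d * (G.lam n * ‖io f n‖) := fun n c x d hc hx => by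
    have hl : 0 ≤ G.lam n := zero_le_one.trans (l1 n)
    rw [norm_smul]
    calc ‖c‖ * ‖x‖ ≤ G.lam n * (d * ‖io f n‖) := mul_le_mul hc hx (norm_nonneg _) hl
      _ = _ := by ring
  obtain ⟨P, P_e, P_n⟩ := U_mk G.lw (S2_tZ l1 G.ω sf0).1.1
  obtain ⟨R, R_e, R_n⟩ := U_mk G.lw (S2_dom l1 (by norm_num) (norm_tY_le G.ω (io f)) sf0).1
  -- |D| P
  obtain ⟨pd1, pd2⟩ := U_dom1 l1 (x := fun n => ka G.ω n • (iota (uV G.ω f n) : Z2 H))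
    (y := io f) (c := 2) (by norm_num) (fun n => key n _ _ 2 (nka n) (nu n)) s1
  obtain ⟨PD, PD_e, PD_n⟩ := U_mk G.lw pd1
  -- |D| R
  obtain ⟨rd1, rd2⟩ := U_dom1 l1 (x := fun n => ka G.ω n • (iota (-wV G.ω f n) : Z2 H))
    (y := io f) (c := 1) (by norm_num) (fun n => key n _ _ 1 (nka n) (by
      rw [map_neg, norm_neg]; exact nw n)) s1
  obtain ⟨RD, RD_e, RD_n⟩ := U_mk G.lw rd1
  -- R'
  obtain ⟨r1, r2⟩ := U_dom1 l1 (x := fun n => kI G.ω n • (iota (uV G.ω f n) : Z2 H))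
    (y := io f) (c := 2) (by norm_num) (fun n => key n _ _ 2 (nkI n) (nu n)) s1
  obtain ⟨R1, R1_e, R1_n⟩ := U_mk G.lw r1
  -- P'
  obtain ⟨q1, q2⟩ := U_dom1 l1
    (x := fun n => kI G.ω n • (iota (wV G.ω f n) : Z2 H) - ka G.ω n • (iota (f n) : Z2 H))
    (y := io f) (c := 2) (by norm_num) (fun n => by
      have a1 := key n _ _ 1 (nkI n) (nw n)
      have a2 := key n (ka G.ω n) (iota (f n) : Z2 H) 1 (nka n) (by rw [one_mul]; exact le_rfl)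
      refine (norm_sub_le _ _).trans ?_
      linarith) s1
  obtain ⟨p1, p2⟩ := S2_add l1 q1 s0
  obtain ⟨P1, P1_e, P1_n⟩ := U_mk G.lw p1
  have hP_n : ∀ n, P n = iota (uV G.ω f n) := fun n => by
    rw [P_e, tZ_io]
    rfl
  have hR_n : ∀ n, R n = iota (-wV G.ω f n) := fun n => by
    rw [R_e, tY_io, map_neg]
    rfl
  refine ⟨P, P1, PD, R, R1, RD, P_e, R_e, ?_, ?_, ?_, ?_, ?_, ?_, ?_, ?_, ?_, ?_, ?_, ?_⟩
  · intro n
    refine ⟨uV G.ω f n, hP_n n, ?_⟩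
    have h2 := uV_dz G.ω (V := f) (V1 := io f1) (n := n) (hf n)
    have h3 : P1 n = kI G.ω n • (iota (wV G.ω f n) : Z2 H) -
        (ka G.ω n • (iota (f n) : Z2 H) - io f1 n) := by
      have h4 : ∀ a b c : Z2 H, a - b + c = a - (b - c) := fun a b c => by abel
      rw [P1_e]
      exact h4 _ _ _
    rw [h3]
    exact h2
  · intro n
    refine ⟨-wV G.ω f n, hR_n n, ?_⟩
    have h2 := (wV_dz G.ω f n).smul (-1)
    rw [neg_one_smul] at h2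
    have h3 : R1 n = (-1 : ℂ) • (-(kI G.ω n) • (iota (uV G.ω f n) : Z2 H)) := by
      rw [R1_e, smul_smul, neg_one_mul, neg_neg]
    rw [h3]
    have h4 : (-1 : ℂ) • wV G.ω f n = -wV G.ω f n := by
      refine ci_ext fun z _ => ?_
      rw [ex_smul, neg_one_mul]
      rfl
    rw [← h4]
    exact (wV_dz G.ω f n).smul (-1)
  · intro n
    rw [PD_e, hP_n]
    rfl
  · intro n
    rw [RD_e, hR_n]
    rfl
  · intro n
    rw [hP_n, tr_iota, ex_uV_zero, h0]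
  · intro n
    rw [hR_n, tr_iota]
    have h4 : ex (-wV G.ω f n) 0 = -ex (wV G.ω f n) 0 := rfl
    rw [h4, wV_zero, neg_zero]
  · rw [P_n]; exact (S2_tZ l1 G.ω sf0).1.2
  · rw [R_n]; exact (S2_dom l1 (by norm_num) (norm_tY_le G.ω (io f)) sf0).2
  · rw [PD_n]; exact pd2
  · rw [RD_n]; exact rd2
  · rw [P1_n]; exact p2.trans (by linarith)
  · rw [R1_n]; exact r2

/-- The field `Φ₂` with its derivatives. -/
theorem U_Phi (G : Geo H) {a1 : ℤ → CI H} (sa1 : Summable fun n => ‖a1 n‖)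
    (hd : ∀ n, IsD (G.a n) (a1 n)) {N : ℕ} (hN : 1 ≤ N) {P P1 PD R R1 RD : HH H}
    (hP : DH P P1) (hR : DH R R1) (kP : Dk G.ω P PD) (kR : Dk G.ω R RD) (zP : Zr 0 P)
    (zR : Zr 0 R) :
    ∃ Φ1 ΦD : HH H,
      DH (cm G.a (Ms G.ζ (cm (U_cw (G.ω * N) N) P + cm (U_cv N) R))) Φ1 ∧
      Dk G.ω (cm G.a (Ms G.ζ (cm (U_cw (G.ω * N) N) P + cm (U_cv N) R))) ΦD ∧
      Zr 0 (cm G.a (Ms G.ζ (cm (U_cw (G.ω * N) N) P + cm (U_cv N) R))) ∧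
      ‖ΦD‖ + G.ω * N * ‖cm G.a (Ms G.ζ (cm (U_cw (G.ω * N) N) P + cm (U_cv N) R))‖ + ‖Φ1‖ ≤
        (∑' n, ‖G.a n‖) * ‖G.ζ‖ * ((‖PD‖ + G.ω * N * ‖P‖) + (‖RD‖ + G.ω * N * ‖R‖)) +
        G.ω * N * ((∑' n, ‖G.a n‖) * ‖G.ζ‖ * (‖P‖ + ‖R‖)) +
        (∑' n, ‖G.a n‖) * ‖G.ζ‖ * ((G.ω * N * ‖P‖ + ‖P1‖) + ‖R1‖) +
        ((∑' n : ℤ, |G.ω| * (|(n:ℝ)| * ‖G.a n‖)) * ‖G.ζ‖ + (∑' n, ‖a1 n‖) * ‖G.ζ‖ +
          (∑' n, ‖G.a n‖) * ‖G.ζ1‖) * (‖P‖ + ‖R‖) := by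
  have hω := G.ω_pos.le
  have hm : 0 ≤ G.ω * N := by positivity
  have sa := G.sa
  have caf : Cf (3 + 1) G.a := G.ha.c
  have ccw : Cf (0 + 1) (U_cw (G.ω * N) N : ℤ → CI H) := U_cw_Cf _ hN
  have ccv : Cf (0 + 1) (U_cv N : ℤ → CI H) := U_cv_Cf hN
  obtain ⟨sw, nw⟩ := U_sum (c := (U_cw (G.ω * N) N : ℤ → CI H)) (N := N) (B := 1)
    (fun n a b => U_cw_zero a b) zero_le_one (fun n => U_cw_le _ _ _)
  obtain ⟨sw1, nw1⟩ := U_sum (c := (U_cw1 (G.ω * N) N : ℤ → CI H)) (N := N) (B := G.ω * N)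
    (fun n a b => U_cw1_zero a b) hm (fun n => U_cw1_le hm _ _)
  obtain ⟨sv, nv⟩ := U_sum (c := (U_cv N : ℤ → CI H)) (N := N) (B := 1)
    (fun n a b => U_cv_zero a b) zero_le_one (fun n => U_cv_le _ _)
  have nDw := U_sumD (c := (U_cw (G.ω * N) N : ℤ → CI H)) (N := N) hω
    (fun n a b => U_cw_zero a b) (fun n => U_cw_le _ _ _)
  have nDv := U_sumD (c := (U_cv N : ℤ → CI H)) (N := N) hω
    (fun n a b => U_cv_zero a b) (fun n => U_cv_le _ _)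
  have s00 : Summable fun _ : ℤ => ‖(0 : CI H)‖ := by
    simp only [norm_zero]
    exact summable_zero
  -- `Y`
  have yw := DH.cm hP sw sw1 (fun n => U_cw_d _ _ n)
  have yv := DH.cm hR sv s00 (fun n => U_cv_d _ n)
  obtain ⟨Y, hYdef⟩ : ∃ Y : HH H, Y = cm (U_cw (G.ω * N) N) P + cm (U_cv N) R := ⟨_, rfl⟩
  rw [← hYdef]
  have dY := yw.1.add yv.1
  rw [← hYdef] at dY
  have zY : Zr 0 Y := by
    rw [hYdef]
    exact Zr.add yw.1 yv.1 (yw.2 0 zero_memI zP) (yv.2 0 zero_memI zR)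
  have kY := (kP.cm ccw).add (kR.cm ccv)
  rw [← hYdef] at kY
  obtain ⟨Y1, hY1⟩ : ∃ Y1 : HH H, Y1 = (cm (U_cw1 (G.ω * N) N) P + cm (U_cw (G.ω * N) N) P1) +
    (cm (fun _ => (0 : CI H)) R + cm (U_cv N) R1) := ⟨_, rfl⟩
  rw [← hY1] at dY
  obtain ⟨YD, hYD⟩ : ∃ YD : HH H, YD = (cm (U_cw (G.ω * N) N) PD + cD G.ω (U_cw (G.ω * N) N) P) +
    (cm (U_cv N) RD + cD G.ω (U_cv N) R) := ⟨_, rfl⟩
  rw [← hYD] at kY
  have bY : ‖Y‖ ≤ ‖P‖ + ‖R‖ := by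
    rw [hYdef]
    refine (norm_add_le _ _).trans (add_le_add ?_ ?_)
    · refine (norm_cm_apply_le sw P).trans ?_
      exact (mul_le_mul_of_nonneg_right nw (norm_nonneg _)).trans (one_mul _).le
    · refine (norm_cm_apply_le sv R).trans ?_
      exact (mul_le_mul_of_nonneg_right nv (norm_nonneg _)).trans (one_mul _).le
  have bY1 : ‖Y1‖ ≤ (G.ω * N * ‖P‖ + ‖P1‖) + ‖R1‖ := by
    rw [hY1]
    refine (norm_add_le _ _).trans (add_le_add ?_ ?_)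
    · refine (norm_add_le _ _).trans (add_le_add ?_ ?_)
      · exact (norm_cm_apply_le sw1 P).trans (mul_le_mul_of_nonneg_right nw1 (norm_nonneg _))
      · refine (norm_cm_apply_le sw P1).trans ?_
        exact (mul_le_mul_of_nonneg_right nw (norm_nonneg _)).trans (one_mul _).le
    · refine (norm_add_le _ _).trans ?_
      have e1 : ‖cm (fun _ => (0 : CI H)) R‖ ≤ 0 := by
        refine (norm_cm_apply_le s00 R).trans ?_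
        simp only [norm_zero, tsum_zero, zero_mul]
        exact le_rfl
      have e2 : ‖cm (U_cv N) R1‖ ≤ ‖R1‖ := by
        refine (norm_cm_apply_le sv R1).trans ?_
        exact (mul_le_mul_of_nonneg_right nv (norm_nonneg _)).trans (one_mul _).le
      linarith
  have bYD : ‖YD‖ ≤ (‖PD‖ + G.ω * N * ‖P‖) + (‖RD‖ + G.ω * N * ‖R‖) := by
    rw [hYD]
    refine (norm_add_le _ _).trans (add_le_add ?_ ?_)
    · refine (norm_add_le _ _).trans (add_le_add ?_ ?_)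
      · refine (norm_cm_apply_le sw PD).trans ?_
        exact (mul_le_mul_of_nonneg_right nw (norm_nonneg _)).trans (one_mul _).le
      · exact (cD G.ω (U_cw (G.ω * N) N)).le_of_opNorm_le ((norm_cD_le G.ω ccw).trans nDw) P
    · refine (norm_add_le _ _).trans (add_le_add ?_ ?_)
      · refine (norm_cm_apply_le sv RD).trans ?_
        exact (mul_le_mul_of_nonneg_right nv (norm_nonneg _)).trans (one_mul _).le
      · exact (cD G.ω (U_cv N)).le_of_opNorm_le ((norm_cD_le G.ω ccv).trans nDv) R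
  -- `Z = ζ Y`
  have dZ : DH (Ms G.ζ Y) (Ms G.ζ1 Y + Ms G.ζ Y1) := dY.mb G.ζ_d
  have zZ : Zr 0 (Ms G.ζ Y) := Zr.mb dY zY G.ζ
  have kZ : Dk G.ω (Ms G.ζ Y) (Ms G.ζ YD) := kY.mb G.ζ
  have bZ : ‖Ms G.ζ Y‖ ≤ ‖G.ζ‖ * ‖Y‖ := norm_Ms_apply_le _ _
  have bZ1 : ‖Ms G.ζ1 Y + Ms G.ζ Y1‖ ≤ ‖G.ζ1‖ * ‖Y‖ + ‖G.ζ‖ * ‖Y1‖ :=
    (norm_add_le _ _).trans (add_le_add (norm_Ms_apply_le _ _) (norm_Ms_apply_le _ _))
  have bZD : ‖Ms G.ζ YD‖ ≤ ‖G.ζ‖ * ‖YD‖ := norm_Ms_apply_le _ _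
  -- `Φ = a Z`
  have dΦ := DH.cm dZ sa sa1 hd
  have kΦ := kZ.cm caf
  refine ⟨_, _, dΦ.1, kΦ, dΦ.2 0 zero_memI zZ, ?_⟩
  have bΦ : ‖cm G.a (Ms G.ζ Y)‖ ≤ (∑' n, ‖G.a n‖) * ‖Ms G.ζ Y‖ := norm_cm_apply_le sa _
  have bΦ1 : ‖cm a1 (Ms G.ζ Y) + cm G.a (Ms G.ζ1 Y + Ms G.ζ Y1)‖ ≤
      (∑' n, ‖a1 n‖) * ‖Ms G.ζ Y‖ + (∑' n, ‖G.a n‖) * ‖Ms G.ζ1 Y + Ms G.ζ Y1‖ :=
    (norm_add_le _ _).trans (add_le_add (norm_cm_apply_le sa1 _) (norm_cm_apply_le sa _))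
  have bΦD : ‖cm G.a (Ms G.ζ YD) + cD G.ω G.a (Ms G.ζ Y)‖ ≤
      (∑' n, ‖G.a n‖) * ‖Ms G.ζ YD‖ +
        (∑' n : ℤ, |G.ω| * (|(n:ℝ)| * ‖G.a n‖)) * ‖Ms G.ζ Y‖ :=
    (norm_add_le _ _).trans (add_le_add (norm_cm_apply_le sa _)
      ((cD G.ω G.a).le_of_opNorm_le (norm_cD_le G.ω caf) _))
  exact U_alg1 (tsum_nonneg fun _ => norm_nonneg _) (tsum_nonneg fun _ => norm_nonneg _)
    (tsum_nonneg fun _ => mul_nonneg (abs_nonneg _) (mul_nonneg (abs_nonneg _) (norm_nonneg _)))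
    (norm_nonneg _) (norm_nonneg _) hm bY bY1 bYD bZ bZ1 bZD bΦ bΦ1 bΦD

/-- The form as an inner product. -/
theorem U_bf (G : Geo H) {N : ℕ} (hN : 1 ≤ N) (α : ℝ) (g : HH H) {f : ℤ → CI H} {P R : HH H}
    (hP : (⇑P : ℤ → Z2 H) = tZ G.ω (io f)) (hR : (⇑R : ℤ → Z2 H) = tY G.ω (io f)) :
    bf G.ω (⇑(Ms G.ζ (cm G.a g))) (cellV (G.ω * N) N α) (cellW (G.ω * N) N α) (io f) =
      ⟪cm G.a (Ms G.ζ (cm (U_cw (G.ω * N) N) P + cm (U_cv N) R)),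
        Ms (rc (chF (G.ω * N) α) (chF_c _ _)) g⟫_ℂ := by
  obtain ⟨χ, hχ⟩ : ∃ χ : CI H, χ = rc (chF (G.ω * N) α) (chF_c _ _) := ⟨_, rfl⟩
  have sa := G.sa
  have sw := (U_sum (c := (U_cw (G.ω * N) N : ℤ → CI H)) (N := N) (B := 1)
    (fun n a b => U_cw_zero a b) zero_le_one (fun n => U_cw_le _ _ _)).1
  have sv := (U_sum (c := (U_cv N : ℤ → CI H)) (N := N) (B := 1)
    (fun n a b => U_cv_zero a b) zero_le_one (fun n => U_cv_le _ _)).1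
  have ccw : Cf 1 (U_cw (G.ω * N) N : ℤ → CI H) := U_cw_Cf _ hN
  have ccv : Cf 1 (U_cv N : ℤ → CI H) := U_cv_Cf hN
  rw [← hχ]
  have e1 : ∀ {c : ℤ → CI H} (_ : Summable fun n => ‖c n‖), Ms χ (cm c (Ms G.ζ (cm G.a g))) =
      cm c (Ms G.ζ (cm G.a (Ms χ g))) := fun sc => by
    rw [MsCm sc, Ms_comm χ G.ζ, MsCm sa]
  have eW : pz (⇑(Ms G.ζ (cm G.a g))) (cellW (G.ω * N) N α) =
      ⇑(cm (U_cw (G.ω * N) N) (Ms G.ζ (cm G.a (Ms χ g)))) := by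
    rw [← cmPz (U_sumW _ _ _), U_cm_fac (χ := χ) (U_sumW _ _ _) sw
      (fun n => by rw [hχ]; exact U_facW _ _ _ n), e1 sw]
  have eV : pz (⇑(Ms G.ζ (cm G.a g))) (cellV (G.ω * N) N α) =
      ⇑(cm (U_cv N) (Ms G.ζ (cm G.a (Ms χ g)))) := by
    rw [← cmPz (U_sumV _ _ _), U_cm_fac (χ := χ) (U_sumV _ _ _) sv
      (fun n => by rw [hχ]; exact U_facV _ _ _ n), e1 sv]
  unfold bf
  rw [← hP, ← hR, eW, eV, ← innerDp, ← innerDp, map_add, map_add, inner_add_left,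
    ← inner_cm ccw, ← inner_cm ccv, ← innerMs G.ζ_real, ← innerMs G.ζ_real,
    ← inner_cm G.ha.c, ← inner_cm G.ha.c]

/-- **The cell flow.** With `Φ = ζ a (w̄ θ_z + v̄ θ_y)`, `θ = E f`: `b(ζ a g, U; f) = ⟨Φ, g⟩ = ⟨B* Φ, T g⟩`
(`g = B V`, `V = T g`, `Φ(0) = 0`, `Φ(H) = 0`).
Write the modes of the cell as `cellV = α cosh(mz) cv`, `cellW = α cosh(mz) cw` with
`cv n = (I sN/2) 1`, `cw n = (|sN|/2) tanh(mz)`, and `Φ = α cosh(mz) Φ₂`,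
`Φ₂ = c_w θ_z + c_v θ_y` where `c_w, c_v` are the convolutions of `ζ a` with (the conjugates of) `cw`,
`cv`: `∑ |c| ≤ C`, `∑ |k| |c| ≤ C m`, `∑ |∂_z c| ≤ C m` (`tanh' ≤ 1`; `m = ω N ≥ ω`). Then
`B* Φ = α cosh(mz) (|D| Φ₂ + Φ₂' + m tanh(mz) Φ₂)`, so
`|b| ≤ |α cosh(mz) T g| (‖|D|Φ₂‖ + ‖Φ₂'‖ + m ‖Φ₂‖)`, and
`‖|D|Φ₂‖ + ‖Φ₂'‖ + m‖Φ₂‖ ≤ C (m (‖θ_z‖ + ‖θ_y‖) + ‖∇θ_z‖ + ‖∇θ_y‖) ≤ C (m |f| + |Λf| + |f_z|)`:
`θ_z = f - |D| E f`, `θ_y = ∂_y E f`, `‖|k| E_k‖ ≤ 1`; their derivatives are `f_z - |D| θ_z`,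
`∂_y θ_z`. Tools: `DH`, `Dk`, `DH.cm`, `Dk.cm`, `DH.mb` (NcA, NcB; `mb = Ms`), `DH.ibp`-type
integration by parts (`DZ.ibp`, `Tz_dz`), or everything mode by mode with `hasSum_Pz`, `hasSum_ex`.
The form: `bf_T3`/`dp_pz`, `dp_mul`, `pz_pz`. The constant `C` only depends on `G`. -/
theorem U_bd (G : Geo H) : ∃ C, 0 ≤ C ∧ ∀ (N : ℕ) (_ : 1 ≤ N) {α : ℝ} (_ : 0 ≤ α) (g : HH H)
    {f f1 : ℤ → CI H} (_ : ∀ n, DZ (f n) (iota (f1 n))) (_ : ∀ n, ex (f n) 0 = 0)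
    (_ : S2 G.lam 1 (io f)) (_ : S2 G.lam 0 (io f1)),
    ‖bf G.ω (⇑(Ms G.ζ (cm G.a g))) (cellV (G.ω * N) N α) (cellW (G.ω * N) N α) (io f)‖ ≤
      C * (G.ω * N * N2 G.lam 0 (io f) + N2 G.lam 1 (io f) + N2 G.lam 0 (io f1)) *
        ‖Ms (rc (chF (G.ω * N) α) (chF_c _ _)) (TT G.ω g)‖ := by
  obtain ⟨a1, _, hd, _, ca1, _⟩ := G.ha.d
  have hω := G.ω_pos
  have nA : 0 ≤ ∑' n, ‖G.a n‖ := tsum_nonneg fun _ => norm_nonneg _
  have nA1 : 0 ≤ ∑' n, ‖a1 n‖ := tsum_nonneg fun _ => norm_nonneg _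
  have nAD : 0 ≤ ∑' n : ℤ, |G.ω| * (|(n:ℝ)| * ‖G.a n‖) :=
    tsum_nonneg fun _ => mul_nonneg (abs_nonneg _) (mul_nonneg (abs_nonneg _) (norm_nonneg _))
  obtain ⟨Bc, hBc⟩ : ∃ x : ℝ, x = (∑' n, ‖G.a n‖) * ‖G.ζ‖ := ⟨_, rfl⟩
  obtain ⟨Dc, hDc⟩ : ∃ x : ℝ, x = (∑' n : ℤ, |G.ω| * (|(n:ℝ)| * ‖G.a n‖)) * ‖G.ζ‖ +
    (∑' n, ‖a1 n‖) * ‖G.ζ‖ + (∑' n, ‖G.a n‖) * ‖G.ζ1‖ := ⟨_, rfl⟩
  have nB : 0 ≤ Bc := by rw [hBc]; exact mul_nonneg nA (norm_nonneg _)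
  have nD : 0 ≤ Dc := by
    rw [hDc]
    exact add_nonneg (add_nonneg (mul_nonneg nAD (norm_nonneg _)) (mul_nonneg nA1 (norm_nonneg _)))
      (mul_nonneg nA (norm_nonneg _))
  refine ⟨8 * Bc + 3 * (G.ω⁻¹ * Dc), by positivity, ?_⟩
  intro N hN α hα g f f1 hf h0 s1 s0
  obtain ⟨P, P1, PD, R, R1, RD, eP, eR, dP, dR, kP, kR, zP, zR, nP, nR, nPD, nRD, nP1, nR1⟩ :=
    U_PR G hf h0 s1 s0
  obtain ⟨Φ1, ΦD, dΦ, kΦ, zΦ, bΦ⟩ := U_Phi G ca1.s0 hd hN dP dR kP kR zP zR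
  rw [U_bf G hN α g eP eR]
  obtain ⟨Φ, hΦ⟩ : ∃ Φ : HH H, Φ = cm G.a (Ms G.ζ (cm (U_cw (G.ω * N) N) P + cm (U_cv N) R)) :=
    ⟨_, rfl⟩
  rw [← hΦ] at dΦ kΦ zΦ bΦ ⊢
  have hm : G.ω ≤ G.ω * N := by
    have : (1:ℝ) ≤ N := by exact_mod_cast hN
    nlinarith
  have hm0 : 0 ≤ G.ω * N := hω.le.trans hm
  obtain ⟨m, hmd⟩ : ∃ m : ℝ, m = G.ω * N := ⟨_, rfl⟩
  rw [← hmd] at hm hm0 bΦ ⊢
  -- derivative of the weight
  have dχ : IsD (rc (chF m α) (chF_c _ _) : CI H)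
      (rc (fun z => α * (m * Real.sinh (m * z))) (by fun_prop)) := by
    intro z hz
    have h1 : HasDerivAt (fun z : ℝ => ((chF m α z : ℝ) : ℂ))
        ((α * (m * Real.sinh (m * z)) : ℝ) : ℂ) z := by
      have h2 : HasDerivAt (fun z : ℝ => m * z) m z := by
        simpa using (hasDerivAt_id z).const_mul m
      have h3 := h2.cosh.const_mul α
      refine (h3.congr_deriv ?_).ofReal_comp
      ring
    rw [ex_rc _ _ hz]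
    exact (h1.hasDerivWithinAt).congr (fun x hx => ex_rc _ _ hx) (ex_rc _ _ hz)
  have h2 := U_ibp dΦ kΦ zΦ g dχ
  rw [h2]
  have h3 : ‖Ms (rc (fun z => α * (m * Real.sinh (m * z))) (by fun_prop)) (TT G.ω g)‖ ≤
      m * ‖Ms (rc (chF m α) (chF_c _ _)) (TT G.ω g)‖ := by
    have e1 := norm_Ms_mono (b := (rc (fun z => α * (m * Real.sinh (m * z))) (by fun_prop) : CI H))
      (c := ((m : ℝ) : ℂ) • (rc (chF m α) (chF_c _ _) : CI H)) (fun z hz => by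
        rw [ex_smul, ex_rc _ _ hz, ex_rc _ _ hz, norm_mul, Complex.norm_real, Complex.norm_real,
          Complex.norm_real, Real.norm_eq_abs, Real.norm_eq_abs, Real.norm_eq_abs,
          abs_mul, abs_mul, abs_of_nonneg hα, abs_of_nonneg hm0]
        unfold chF
        rw [abs_mul, abs_of_nonneg hα, abs_of_pos (Real.cosh_pos _)]
        have := abs_sinh_le (m * z)
        calc α * (m * |Real.sinh (m * z)|) = m * α * |Real.sinh (m * z)| := by ring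
          _ ≤ m * α * Real.cosh (m * z) :=
              mul_le_mul_of_nonneg_left this (mul_nonneg hm0 hα)
          _ = _ := by ring) (TT G.ω g)
    refine e1.trans ?_
    rw [Ms_smul, norm_smul, Complex.norm_real, Real.norm_eq_abs, abs_of_nonneg hm0]
  have h4 := norm_inner_le_norm (𝕜 := ℂ) ΦD (Ms (rc (chF m α) (chF_c _ _)) (TT G.ω g))
  have h5 := norm_inner_le_norm (𝕜 := ℂ) Φ
    (Ms (rc (fun z => α * (m * Real.sinh (m * z))) (by fun_prop)) (TT G.ω g))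
  have h6 := norm_inner_le_norm (𝕜 := ℂ) Φ1 (Ms (rc (chF m α) (chF_c _ _)) (TT G.ω g))
  have h7 := U_alg2 (B := Bc) (D := Dc) (ω := G.ω) (m := m) (n0 := N2 G.lam 0 (io f))
    (n1 := N2 G.lam 1 (io f)) (f1 := N2 G.lam 0 (io f1)) nB nD hω hm (N2_nonneg _ _)
    (N2_nonneg _ _) (N2_nonneg _ _) nP nR nPD nRD nP1 nR1
  rw [hBc, hDc] at h7
  have h8 := bΦ.trans h7
  obtain ⟨v, hv⟩ : ∃ v : ℝ, v = ‖Ms (rc (chF m α) (chF_c _ _)) (TT G.ω g)‖ := ⟨_, rfl⟩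
  have hv0 : 0 ≤ v := by rw [hv]; exact norm_nonneg _
  rw [← hv] at h3 h4 h6 ⊢
  have h9 := h5.trans (mul_le_mul_of_nonneg_left h3 (norm_nonneg _))
  refine (norm_add_le _ _).trans ((add_le_add (norm_add_le _ _) le_rfl).trans ?_)
  refine (add_le_add (add_le_add h4 h9) h6).trans ?_
  have h10 : ‖ΦD‖ * v + ‖Φ‖ * (m * v) + ‖Φ1‖ * v = (‖ΦD‖ + m * ‖Φ‖ + ‖Φ1‖) * v := by ring
  rw [h10, hBc, hDc]
  exact mul_le_mul_of_nonneg_right h8 hv0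

end

end Pool.Agent.Lib.MP_79abb3_an.SC
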