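import Pool.Agent.Lib.MP_79abb3_an.SC.FlYs

/-!
MP_79abb3_an, simply connected domains, EX4: the static y-estimate, general form.
-/

set_option autoImplicit false
set_option linter.unusedSectionVars false

open MeasureTheory Set Filter Topology Function
open scoped ENNReal InnerProductSpace

namespace Pool.Agent.Lib.MP_79abb3_an.SC

open Pool.Agent.Lib.MP_79abb3_an.P25 Pool.Agent.Lib.MP_79abb3_an.FW

theorem gen_alg {n0 Cb Cm Cv p y q s a1 a3 a4 : ℝ}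
    (hn : 0 ≤ n0) (hb : 0 ≤ Cb) (hm : 0 ≤ Cm) (hv : 0 ≤ Cv) (hp : 0 ≤ p)
    (hy : 0 ≤ y) (hq : 0 ≤ q) (hs : 0 ≤ s)
    (h1 : a1 ≤ Cb * n0 * p * s) (h3 : a3 ≤ Cm * n0 * p * (y * q)) (h4 : a4 ≤ Cv * n0 * p * y ^ 2) :
    a1 + (a3 + a4) ≤ (Cb + Cm + Cv) * n0 * p * (y ^ 2 + y * q + s) := by
  have p1 : 0 ≤ n0 * (p * s) := by positivity
  have p3 : 0 ≤ n0 * (p * (y * q)) := by positivity
  have p4 : 0 ≤ n0 * (p * y ^ 2) := by positivity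
  have q1 : a1 ≤ Cb * (n0 * (p * s)) := h1.trans (le_of_eq (by ring))
  have q3 : a3 ≤ Cm * (n0 * (p * (y * q))) := h3.trans (le_of_eq (by ring))
  have q4 : a4 ≤ Cv * (n0 * (p * y ^ 2)) := h4.trans (le_of_eq (by ring))
  have e : (Cb + Cm + Cv) * n0 * p * (y ^ 2 + y * q + s) =
      (Cb + Cm + Cv) * (n0 * (p * s) + n0 * (p * (y * q)) + n0 * (p * y ^ 2)) := by ring
  rw [e]
  clear e h1 h3 h4
  generalize n0 * (p * s) = x1 at *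
  generalize n0 * (p * (y * q)) = x3 at *
  generalize n0 * (p * y ^ 2) = x4 at *
  have r1 : Cb * x1 ≤ Cb * (x1 + x3 + x4) := mul_le_mul_of_nonneg_left (by linarith) hb
  have r3 : Cm * x3 ≤ Cm * (x1 + x3 + x4) := mul_le_mul_of_nonneg_left (by linarith) hm
  have r4 : Cv * x4 ≤ Cv * (x1 + x3 + x4) := mul_le_mul_of_nonneg_left (by linarith) hv
  have e : (Cb + Cm + Cv) * (x1 + x3 + x4) =
      Cb * (x1 + x3 + x4) + Cm * (x1 + x3 + x4) + Cv * (x1 + x3 + x4) := by ring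
  rw [e]
  linarith

theorem gen_tri {A B b b3 b4 : ℂ} (h : b = b3 + b4) :
    ‖A + (-B + b)‖ ≤ ‖A - B‖ + (‖b3‖ + ‖b4‖) := by
  have e : A + (-B + b) = (A - B) + (b3 + b4) := by rw [h]; ring
  rw [e]
  exact (norm_add_le _ _).trans (add_le_add le_rfl (norm_add_le _ _))

section
variable {H : ℝ} [hH : Fact (0 < H)]

/-- Splitting of the vortex force of the velocity generated by `q + g`. -/
theorem bf_gen (G : Geo H) (om g q : HH H) {f : ℤ → Z2 H} (sf : S2 G.lam (1 / 4) f) :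
    bf G.ω (⇑om) (uV G.ω (Vf G.ω (⇑(q + g)))) (wV G.ω (Vf G.ω (⇑(q + g)))) f =
      bf G.ω (⇑om) (uV G.ω (Vf G.ω q)) (wV G.ω (Vf G.ω q)) f +
        bf G.ω (⇑om) (uV G.ω (Vf G.ω g)) (wV G.ω (Vf G.ω g)) f := by
  have h1 := G.lw.h1
  have hN : 0 ≤ G.N₀ := zero_le_one.trans G.hN
  have so : S2 G.lam 0 (⇑om) := (S2l2 om).1
  have vq := vel_half (ω := G.ω) h1 hN G.lam_le q
  have vg := vel_half (ω := G.ω) h1 hN G.lam_le g
  have e1 := bf_add G.pw G.ω so vq.1.1 vq.2.1 vg.1.1 vg.2.1 sf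
  have u1 : (uV G.ω (Vf G.ω (⇑(q + g))) : ℤ → CI H) =
      fun n => uV G.ω (Vf G.ω q) n + uV G.ω (Vf G.ω g) n := funext fun n => uV_add' G.ω q g n
  have u2 : (wV G.ω (Vf G.ω (⇑(q + g))) : ℤ → CI H) =
      fun n => wV G.ω (Vf G.ω q) n + wV G.ω (Vf G.ω g) n := funext fun n => wV_add' G.ω q g n
  rw [u1, u2]
  exact e1

/-- **Static estimate.** `u[T (q + g)]` is the velocity generated by `g = B V` and `q = ζ J q`.
Proof: `bdy_bd` for the first two terms; `uV_add'`, `wV_add'` (FlDef) and `bf_add` (ApE) with the weights of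
`G.pw` (`vel_half`), then `mix_bd`, `vv_bd` with the family `f = Vf ω (Qd (HS τ ψ))`, `io f = TT (...)`
(`Tc_io`). (Same proof as `stat_bd` in FlYs, without the cell flow and without the `κ`-term.) -/
theorem gen_bd (G : Geo H) (hT : G.TFex) : ∃ C, 0 ≤ C ∧ ∀ {τ : ℝ} (_ : 0 < τ) (_ : τ ≤ 1) (ψ : HH H)
    (g q : HH H),
    ‖⟪AS G.D.K τ ψ, TT G.ω g⟫_ℂ + (-⟪G.Qd (HS G.D.K τ ψ), cm G.a g⟫_ℂ +
      bf G.ω (⇑(Ms G.ζ (cm G.a g))) (uV G.ω (Vf G.ω (⇑(q + g)))) (wV G.ω (Vf G.ω (⇑(q + g))))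
        (⇑(TT G.ω (G.Qd (HS G.D.K τ ψ)))))‖ ≤
    C * N2 G.lam (-(3 / 8)) ψ * τ ^ (-(15 / 16) : ℝ) *
      (‖LT G.ω G.lam (3 / 8) g‖ ^ 2 + ‖LT G.ω G.lam (3 / 8) g‖ * ‖q‖ + trn G.ω g) := by
  obtain ⟨Ct, hCt, ht⟩ := hT
  obtain ⟨Cb, hCb, hb⟩ := bdy_bd G
  obtain ⟨Cm, hCm, hm⟩ := mix_bd G
  obtain ⟨Cv, hCv, hv⟩ := vv_bd G
  refine ⟨(Cb + Cm + Cv) * Ct, by positivity, ?_⟩
  intro τ hτ hτ1 ψ g q
  obtain ⟨f1, f2, tf⟩ := ht τ hτ hτ1 ψ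
  have eT : (⇑(TT G.ω (G.Qd (HS G.D.K τ ψ))) : ℤ → Z2 H) =
      io (Vf G.ω (⇑(G.Qd (HS G.D.K τ ψ)))) := Tc_io _ _
  have sf : S2 G.lam (1 / 4) (io (Vf G.ω (⇑(G.Qd (HS G.D.K τ ψ))))) :=
    (S2_mono G.lw.h1 (by norm_num) tf.s0).1
  rw [eT]
  have bB := hb hτ hτ1 ψ tf g
  have bM := hm hτ hτ1 tf g q
  have bV := hv hτ hτ1 tf g
  have hs0 : 0 ≤ trn G.ω g := Real.sqrt_nonneg _
  refine (gen_tri (bf_gen G _ g q sf)).trans ?_
  refine (gen_alg tf.nn hCb hCm hCv (Real.rpow_nonneg hτ.le _) (norm_nonneg _)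
    (norm_nonneg _) hs0 bB bM bV).trans (le_of_eq ?_)
  ring

end

end Pool.Agent.Lib.MP_79abb3_an.SC
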