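import Pool.Agent.Lib.MP_79abb3_an.SC.ExE
import Pool.Agent.Lib.MP_79abb3_an.SC.FlYt
import Pool.Agent.Lib.MP_79abb3_an.SC.LaSmoC

/-!
MP_79abb3_an, simply connected domains, EX4: the y-inequality, general form.
-/

set_option autoImplicit false
set_option linter.unusedSectionVars false

open MeasureTheory Set Filter Topology Function
open scoped ENNReal InnerProductSpace

namespace Pool.Agent.Lib.MP_79abb3_an.SC

open Pool.Agent.Lib.MP_79abb3_an.P25 Pool.Agent.Lib.MP_79abb3_an.FW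

section
variable {H : ℝ} [hH : Fact (0 < H)]

namespace Geo
variable {G : Geo H} {B : Bg H} {t₀ t₁ : ℝ} {x₀ : HH H × HH H} {x : ℝ → HH H × HH H}

/-- Duality: `ψ = LT (3/4) g` has `N2 (-3/8) ψ = |Λ^{3/8} T g|` and `⟪ψ, T g⟫ = |Λ^{3/8} T g|²`.
(`LamOK.LT_apply`, `lp.hasSum_inner`, `l2_norm_sq`.) -/
theorem y_dual (g : HH H) :
    N2 G.lam (-(3 / 8)) (⇑(LT G.ω G.lam (3 / 4) g)) = ‖LT G.ω G.lam (3 / 8) g‖ ∧
    ⟪LT G.ω G.lam (3 / 4) g, TT G.ω g⟫_ℂ = ((‖LT G.ω G.lam (3 / 8) g‖ ^ 2 : ℝ) : ℂ) := by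
  have hp : ∀ n, 0 < G.lam n := G.lw.pos
  constructor
  · have e : ∀ n, G.lam n ^ (-(3 / 8) : ℝ) * ‖LT G.ω G.lam (3 / 4) g n‖ =
        ‖LT G.ω G.lam (3 / 8) g n‖ := fun n => by
      rw [G.lamOK.LT_apply (by norm_num), G.lamOK.LT_apply (by norm_num), norm_smul, norm_smul,
        Complex.norm_real, Complex.norm_real, Real.norm_of_nonneg (Real.rpow_nonneg (hp n).le _),
        Real.norm_of_nonneg (Real.rpow_nonneg (hp n).le _), ← mul_assoc, ← Real.rpow_add (hp n)]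
      norm_num
    unfold N2
    simp only [e]
    rw [← l2_norm_sq, Real.sqrt_sq (norm_nonneg _)]
  · have h1 := lp.hasSum_inner (𝕜 := ℂ) (LT G.ω G.lam (3 / 4) g) (TT G.ω g)
    have e : ∀ n, ⟪LT G.ω G.lam (3 / 4) g n, TT G.ω g n⟫_ℂ =
        ((‖LT G.ω G.lam (3 / 8) g n‖ ^ 2 : ℝ) : ℂ) := fun n => by
      have e1 : (G.lam n ^ (3 / 8 : ℝ)) ^ 2 = G.lam n ^ (3 / 4 : ℝ) := by
        rw [← Real.rpow_natCast, ← Real.rpow_mul (hp n).le]
        norm_num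
      rw [G.lamOK.LT_apply (by norm_num), G.lamOK.LT_apply (by norm_num), TT_apply, norm_smul,
        inner_smul_left, Complex.conj_ofReal, inner_self_eq_norm_sq_to_K, Complex.norm_real,
        Real.norm_of_nonneg (Real.rpow_nonneg (hp n).le _), mul_pow, e1]
      push_cast
      rfl
    have h2 : HasSum (fun n => ‖LT G.ω G.lam (3 / 8) g n‖ ^ 2) (‖LT G.ω G.lam (3 / 8) g‖ ^ 2) := by
      rw [l2_norm_sq]; exact (l2_summable _).hasSum
    have h3 := Complex.hasSum_ofReal.2 h2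
    refine h1.unique ?_
    have e' : (fun n => ⟪LT G.ω G.lam (3 / 4) g n, TT G.ω g n⟫_ℂ) =
        fun n => ((‖LT G.ω G.lam (3 / 8) g n‖ ^ 2 : ℝ) : ℂ) := funext e
    rw [e']
    exact h3

/-- The function `Φ(r) = ⟪S(t-r) ψ, V(r)⟫` on `[t₀, t]`. Continuity: `Sg_continuousOn_apply`,
`(h.tst_V hB hL).cV` (joint continuity of `(τ, v) ↦ ⟪Sg τ ψ, v⟫`). Derivative on `[t₀, t)`: `Tst.pair` with
`f r = Sg (t-r) ψ = Kh (HS (t-r) ψ)` (LaSG) and `Sg_hasDerivAt_apply`. -/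
theorem Sol.phi (h : G.Sol B t₀ t₁ x₀ x) (hB : B.Cont t₀ t₁) (hL : G.Lift B t₀ t₁) (ψ : HH H)
    {t : ℝ} (ht : t ∈ Icc t₀ t₁) :
    ContinuousOn (fun r => ⟪Sg G.D.K (t - r) ψ, G.VV B r (x r)⟫_ℂ) (Icc t₀ t) ∧
    ∀ r ∈ Ico t₀ t, HasDerivWithinAt (fun r => ⟪Sg G.D.K (t - r) ψ, G.VV B r (x r)⟫_ℂ)
      (⟪AS G.D.K (t - r) ψ, G.VV B r (x r)⟫_ℂ + ⟪HS G.D.K (t - r) ψ, G.lV B r (x r)⟫_ℂ)
      (Icc t₀ t) r := by
  have hT := (h.tst_V hB hL).restrict le_rfl ht.2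
  have hK := G.D.K_nonneg
  have hi := G.D.K_injective
  constructor
  · have h1 : Continuous fun r => Sg G.D.K (t - r) ψ :=
      (Sg_continuousOn_apply hK hi ψ).comp (continuous_const.sub continuous_id)
    exact h1.continuousOn.inner hT.cV
  · intro r hr
    have h0 : 0 < t - r := sub_pos.2 hr.2
    have h1 := Sg_hasDerivAt_apply hK h0 ψ
    have h2 : HasDerivAt (fun r => t - r) (-1 : ℝ) r := by
      have := (hasDerivAt_id r).const_sub t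
      exact this
    have h3 := HasDerivAt.scomp (h := fun r : ℝ => t - r) r h1 h2
    rw [neg_smul, one_smul, neg_neg] at h3
    have h4 : Sg G.D.K (t - r) ψ = Kh G.D.K (HS G.D.K (t - r) ψ) := by
      rw [← Kh_HS hK h0]; rfl
    exact hT.pair (f := fun r => Sg G.D.K (t - r) ψ) ⟨hr.1, hr.2.le⟩ h4 h3.hasDerivWithinAt

/-- An integrable bound of the derivative: `f` continuous on `[a,b]`, `‖f'(r)‖ ≤ w(r)` on `[a,b)` with
`w` interval integrable implies `‖f b‖ ≤ ‖f a‖ + ∫ w`. Proof: `norm_sub_le_integral...`: e.g. Mathlib's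
`MeasureTheory...` `intervalIntegral.sub_le_integral_of_hasDeriv_right_of_le` applied to
`r ↦ re (conj(u) f(r))` for `|u| = 1` (`f` continuous on `[a,b]`, right derivative at every point of
`(a,b)`, derivative `≤ w`, `w` integrable on `[a,b]`). -/
theorem ftc_le {f f' : ℝ → ℂ} {w : ℝ → ℝ} {a b : ℝ} (hab : a ≤ b) (hc : ContinuousOn f (Icc a b))
    (hd : ∀ r ∈ Ico a b, HasDerivWithinAt f (f' r) (Icc a b) r)
    (hw : IntervalIntegrable w volume a b) (hb : ∀ r ∈ Ico a b, ‖f' r‖ ≤ w r) :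
    ‖f b‖ ≤ ‖f a‖ + ∫ r in a..b, w r := by
  obtain ⟨u, hu, hu2⟩ : ∃ u : ℂ, ‖u‖ ≤ 1 ∧ (u * (f b - f a)).re = ‖f b - f a‖ := by
    by_cases h0 : f b - f a = 0
    · exact ⟨0, by simp, by rw [h0]; simp⟩
    · refine ⟨star (f b - f a) / (‖f b - f a‖ : ℂ), ?_, ?_⟩
      · rw [norm_div, norm_star, Complex.norm_real, norm_norm, div_self (norm_ne_zero_iff.2 h0)]
      · have h1 : star (f b - f a) * (f b - f a) = ((‖f b - f a‖ ^ 2 : ℝ) : ℂ) := by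
          rw [mul_comm]
          have := Complex.mul_conj (f b - f a)
          rw [Complex.normSq_eq_norm_sq] at this
          exact this
        rw [div_mul_eq_mul_div, h1, ← Complex.ofReal_div, Complex.ofReal_re, sq,
          mul_div_assoc, div_self (norm_ne_zero_iff.2 h0), mul_one]
  have hI : IntegrableOn w (Icc a b) := by
    rw [integrableOn_Icc_iff_integrableOn_Ioc]
    exact (intervalIntegrable_iff_integrableOn_Ioc_of_le hab).1 hw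
  have key := intervalIntegral.sub_le_integral_of_hasDeriv_right_of_le
    (g := fun r => (u * f r).re) (g' := fun r => (u * f' r).re) (φ := w) hab
    (Complex.continuous_re.comp_continuousOn (continuousOn_const.mul hc)) (fun r hr => by
      have h1 : HasDerivAt f (f' r) r := (hd r ⟨hr.1.le, hr.2⟩).hasDerivAt (Icc_mem_nhds hr.1 hr.2)
      have h2 : HasDerivAt (fun r => u * f r) (u * f' r) r := h1.const_mul u
      exact (Complex.reCLM.hasFDerivAt.comp_hasDerivAt r h2).hasDerivWithinAt) hI (fun r hr => by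
      have h1 := Complex.re_le_norm (u * f' r)
      rw [norm_mul] at h1
      have h2 : ‖u‖ * ‖f' r‖ ≤ 1 * ‖f' r‖ := mul_le_mul_of_nonneg_right hu (norm_nonneg _)
      rw [one_mul] at h2
      exact h1.trans (h2.trans (hb r ⟨hr.1.le, hr.2⟩)))
  have h3 : (u * f b).re - (u * f a).re = ‖f b - f a‖ := by
    rw [← hu2, mul_sub, Complex.sub_re]
  rw [h3] at key
  have h4 : ‖f b‖ ≤ ‖f a‖ + ‖f b - f a‖ := by
    have := norm_add_le (f a) (f b - f a)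
    rwa [add_sub_cancel] at this
  linarith

/-- the family of boundary values of `T g` -/
private noncomputable def trF (G : Geo H) (hs : ∀ g : HH H,
    Summable fun n => ‖ex (Vf G.ω g n : CI H) 0‖ ^ 2) (g : HH H) : l2 ℂ :=
  mkl2 (fun n => ex (Vf G.ω g n : CI H) 0) (hs g)

private theorem trF_norm (G : Geo H) (hs : ∀ g : HH H,
    Summable fun n => ‖ex (Vf G.ω g n : CI H) 0‖ ^ 2) (g : HH H) : trn G.ω g = ‖trF G hs g‖ := by
  have h1 := norm_sq_mkl2 (fun n => ex (Vf G.ω g n : CI H) 0) (hs g)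
  unfold trn trF
  rw [← h1, Real.sqrt_sq (norm_nonneg _)]

private theorem trF_sub (G : Geo H) (hs : ∀ g : HH H,
    Summable fun n => ‖ex (Vf G.ω g n : CI H) 0‖ ^ 2) (g g' : HH H) :
    trF G hs (g - g') = trF G hs g - trF G hs g' := by
  refine lp.ext (funext fun n => ?_)
  rw [lp.coeFn_sub, Pi.sub_apply]
  show ex (Vf G.ω (⇑(g - g')) n : CI H) 0 = ex (Vf G.ω g n : CI H) 0 - ex (Vf G.ω g' n : CI H) 0
  have e : (Vf G.ω (⇑(g - g')) n : CI H) = Vf G.ω (⇑g) n - Vf G.ω (⇑g') n := by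
    unfold Vf
    rw [lp.coeFn_sub, Pi.sub_apply, map_sub]
  rw [e]
  exact ex_sub _ _ _

theorem trn_continuous (G : Geo H) : Continuous fun g : HH H => trn G.ω g := by
  obtain ⟨C, hC, hC2⟩ := trn_le G
  have hs : ∀ g : HH H, Summable fun n => ‖ex (Vf G.ω g n : CI H) 0‖ ^ 2 := fun g => (hC2 g).1
  refine LipschitzWith.continuous (K := ⟨C, hC⟩) (LipschitzWith.of_dist_le_mul fun g g' => ?_)
  rw [Real.dist_eq, dist_eq_norm, trF_norm G hs, trF_norm G hs]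
  refine (abs_norm_sub_norm_le _ _).trans ?_
  rw [← trF_sub, ← trF_norm G hs]
  exact (hC2 (g - g')).2

/-- Continuity in time of the quantities in the y-inequality. (`trn` is a seminorm bounded by `C ‖g‖`
(`trn_le`), `cont_gV`.) -/
theorem Sol.y_cont (h : G.Sol B t₀ t₁ x₀ x) (hB : B.Cont t₀ t₁) :
    ContinuousOn (fun r => ‖LT G.ω G.lam (3 / 8) (G.gV B r (x r))‖) (Icc t₀ t₁) ∧
    ContinuousOn (fun r => ‖G.qh (x r)‖) (Icc t₀ t₁) ∧
    ContinuousOn (fun r => trn G.ω (G.gV B r (x r))) (Icc t₀ t₁) := by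
  have h1 := cont_gV (G := G) hB h.cont
  refine ⟨?_, ?_, ?_⟩
  · exact ((LT G.ω G.lam (3 / 8)).continuous.comp_continuousOn h1).norm
  · have h2 : ContinuousOn (fun r => (Ms G.ζ ∘L cm G.J ∘L G.qL) (x r).1) (Icc t₀ t₁) :=
      (Ms G.ζ ∘L cm G.J ∘L G.qL).continuous.comp_continuousOn
        (continuous_fst.comp_continuousOn h.cont)
    exact h2.norm
  · exact (trn_continuous G).comp_continuousOn h1

/-- Splitting of the vortex force: `u = u[T gt] + u_e`, `gt = ζ J q + B V`. -/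
theorem bf_gt (G : Geo H) (B : Bg H) (r : ℝ) (y : HH H × HH H) (om : HH H) {f : ℤ → Z2 H}
    (sf : S2 G.lam (1 / 4) f) :
    bf G.ω (⇑om) (G.vf B r y) (G.wf B r y) f =
      bf G.ω (⇑om) (uV G.ω (Vf G.ω (⇑(G.qh y + G.gV B r y))))
        (wV G.ω (Vf G.ω (⇑(G.qh y + G.gV B r y)))) f +
      bf G.ω (⇑om) (hf G.lam (B.ve r)) (hf G.lam (B.we r)) f := by
  have h1 := G.lw.h1
  have hN : 0 ≤ G.N₀ := zero_le_one.trans G.hN
  have so : S2 G.lam 0 (⇑om) := (S2l2 om).1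
  have vq := vel_half (ω := G.ω) h1 hN G.lam_le (G.qh y + G.gV B r y)
  have e1 := SC.bf_add G.pw G.ω so vq.1.1 vq.2.1 (S2_hf h1 (B.ve r)).1 (S2_hf h1 (B.we r)).1 sf
  have u1 : G.vf B r y = fun n => uV G.ω (Vf G.ω (⇑(G.qh y + G.gV B r y))) n +
      hf G.lam (B.ve r) n := funext fun n => by rw [G.vf_apply, G.gt_gV]
  have u2 : G.wf B r y = fun n => wV G.ω (Vf G.ω (⇑(G.qh y + G.gV B r y))) n +
      hf G.lam (B.we r) n := funext fun n => by rw [G.wf_apply, G.gt_gV]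
  rw [u1, u2]
  exact e1

private theorem yi_tri {A Bq b b1 b2 D F : ℂ} {m1 m2 : ℝ} (hb : b = b1 + b2)
    (h1 : ‖A + (-Bq + b1)‖ ≤ m1) (h2 : ‖b2 - D + F‖ ≤ m2) :
    ‖A + (-Bq + b - D + F)‖ ≤ m1 + m2 := by
  have e : A + (-Bq + b - D + F) = (A + (-Bq + b1)) + (b2 - D + F) := by rw [hb]; ring
  rw [e]
  exact (norm_add_le _ _).trans (add_le_add h1 h2)

private theorem yi_nontrivial (G : Geo H) : ∃ g : HH H, 0 < ‖LT G.ω G.lam (3 / 8) g‖ := by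
  refine ⟨lp.single 2 0 (iota (fe 0)), ?_⟩
  rw [norm_pos_iff]
  intro h
  have h1 : LT G.ω G.lam (3 / 8) (lp.single 2 0 (iota (fe 0)) : HH H) 0 = 0 := by
    rw [h]; rfl
  rw [G.lamOK.LT_apply (by norm_num), smul_eq_zero] at h1
  rcases h1 with h1 | h1
  · have := Real.rpow_pos_of_pos (G.lw.pos 0) (3 / 8)
    exact this.ne' (by exact_mod_cast h1)
  · have h2 := T2_injective _ h1
    have h3 : (lp.single 2 (0:ℤ) (iota (fe 0) : Z2 H) : HH H) 0 = iota (fe 0) := by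
      rw [lp.single_apply_self]
    rw [h3] at h2
    exact iota_fe_ne 0 h2

/-- **EX4, the y-inequality.** `y(r) = |Λ^{3/8} V(r)|`. The terms of the explicit velocity `u_e`, of `κ` and
of the control are left as they are: `w` is any integrable bound for them. Proof: `y_dual`
(`ψ = LT (3/4) (gV t)`), `Sol.phi`, `inner_lV` (`vf_apply`, `wf_apply`, `gt_gV`, `bf_add` splits the
velocity into `u[T gt]` and `u_e`), `gen_bd`, `ftc_le`; `(t-r)^{-15/16}` times a continuous function is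
integrable (`Sol.y_cont`); `|⟪S(t-t₀) ψ, V(t₀)⟫| ≤ N2 (-3/8) ψ · y(t₀)` (`inner_le_N2`,
`Geo.Sg_neg_contract`, `N2_TT`); divide by `y(t) = N2 (-3/8) ψ`. -/
theorem Sol.y_int (G : Geo H) (hBig : G.Big) (hT : G.TFex) : ∃ C, 0 ≤ C ∧ ∀ {B : Bg H} {t₀ t₁ : ℝ}
    {x₀ : HH H × HH H} {x : ℝ → HH H × HH H} (_ : G.Sol B t₀ t₁ x₀ x) (_ : B.Cont t₀ t₁)
    (_ : G.Lift B t₀ t₁) (_ : ∀ t ∈ Icc t₀ t₁, G.Okt B t) {t : ℝ} (_ : t ∈ Icc t₀ t₁)
    (_ : t - t₀ ≤ 1) {w : ℝ → ℝ} (_ : IntervalIntegrable w volume t₀ t)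
    (_ : ∀ r ∈ Ico t₀ t, ∀ ψ : HH H,
      ‖bf G.ω (⇑(Ms G.ζ (cm G.a (G.gV B r (x r))))) (hf G.lam (B.ve r)) (hf G.lam (B.we r))
          (⇑(TT G.ω (G.Qd (HS G.D.K (t - r) ψ)))) -
        ⟪TT G.ω (G.Qd (HS G.D.K (t - r) ψ)), Ms (B.κ r) (G.VV B r (x r))⟫_ℂ +
        ⟪TT G.ω (G.Qd (HS G.D.K (t - r) ψ)), B.fc r⟫_ℂ‖ ≤ w r * N2 G.lam (-(3 / 8)) ψ),
    ‖LT G.ω G.lam (3 / 8) (G.gV B t (x t))‖ ≤ ‖LT G.ω G.lam (3 / 8) (G.gV B t₀ (x t₀))‖ +
      ∫ r in t₀..t, (w r + C * ((t - r) ^ (-(15 / 16) : ℝ) *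
        (‖LT G.ω G.lam (3 / 8) (G.gV B r (x r))‖ ^ 2 +
          ‖LT G.ω G.lam (3 / 8) (G.gV B r (x r))‖ * ‖G.qh (x r)‖ + trn G.ω (G.gV B r (x r))))) := by
  obtain ⟨C, hC, hgen⟩ := gen_bd G hT
  refine ⟨C, hC, ?_⟩
  intro B t₀ t₁ x₀ x h hB hL hO t ht ht1 w hw hwb
  have ht0 : t₀ ≤ t := ht.1
  have hsub : Icc t₀ t ⊆ Icc t₀ t₁ := Icc_subset_Icc le_rfl ht.2
  obtain ⟨c1, c2, c3⟩ := h.y_cont hB
  obtain ⟨yr, hyr⟩ : ∃ yr : ℝ → ℝ, yr = fun r => ‖LT G.ω G.lam (3 / 8) (G.gV B r (x r))‖ := ⟨_, rfl⟩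
  obtain ⟨qr, hqr⟩ : ∃ qr : ℝ → ℝ, qr = fun r => ‖G.qh (x r)‖ := ⟨_, rfl⟩
  obtain ⟨sr, hsr⟩ : ∃ sr : ℝ → ℝ, sr = fun r => trn G.ω (G.gV B r (x r)) := ⟨_, rfl⟩
  rw [← hyr] at c1
  rw [← hqr] at c2
  rw [← hsr] at c3
  -- the static bound
  have hstat : ∀ r ∈ Ico t₀ t, ∀ ψ : HH H,
      ‖⟪AS G.D.K (t - r) ψ, G.VV B r (x r)⟫_ℂ + ⟪HS G.D.K (t - r) ψ, G.lV B r (x r)⟫_ℂ‖ ≤
        N2 G.lam (-(3 / 8)) ψ * (w r + C * ((t - r) ^ (-(15 / 16) : ℝ) *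
          (yr r ^ 2 + yr r * qr r + sr r))) := by
    intro r hr ψ
    have h0 : 0 < t - r := sub_pos.2 hr.2
    have h1 : t - r ≤ 1 := by linarith [hr.1]
    have hrI : r ∈ Icc t₀ t₁ := hsub ⟨hr.1, hr.2.le⟩
    have e1 := G.inner_lV (hO r hrI) (x r) (HS G.D.K (t - r) ψ)
    have b1 := hgen h0 h1 ψ (G.gV B r (x r)) (G.qh (x r))
    have b2 := hwb r hr ψ
    have sf : S2 G.lam (1 / 4) (⇑(TT G.ω (G.Qd (HS G.D.K (t - r) ψ)))) :=
      S2_TT' G (by norm_num) _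
    have e2 := bf_gt G B r (x r) (Ms G.ζ (cm G.a (G.gV B r (x r)))) sf
    rw [e1]
    have e3 : G.VV B r (x r) = TT G.ω (G.gV B r (x r)) := rfl
    refine (yi_tri e2 b1 b2).trans (le_of_eq ?_)
    rw [hyr, hqr, hsr]
    ring
  -- integrability
  have hWint : IntervalIntegrable (fun r => w r + C * ((t - r) ^ (-(15 / 16) : ℝ) *
      (yr r ^ 2 + yr r * qr r + sr r))) volume t₀ t := by
    refine hw.add (IntervalIntegrable.const_mul ?_ C)
    refine IntervalIntegrable.mul_continuousOn ?_ ?_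
    · have h1 : IntervalIntegrable (fun r : ℝ => r ^ (-(15 / 16) : ℝ)) volume (t - t₀) (t - t) :=
        intervalIntegral.intervalIntegrable_rpow' (by norm_num)
      have h2 := h1.comp_sub_left t
      simpa using h2
    · rw [uIcc_of_le ht0]
      exact ((c1.mono hsub).pow 2 |>.add ((c1.mono hsub).mul (c2.mono hsub))).add (c3.mono hsub)
  -- the pairing inequality
  have hpair : ∀ ψ : HH H, ‖⟪ψ, G.VV B t (x t)⟫_ℂ‖ ≤ N2 G.lam (-(3 / 8)) ψ *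
      (yr t₀ + ∫ r in t₀..t, (w r + C * ((t - r) ^ (-(15 / 16) : ℝ) *
        (yr r ^ 2 + yr r * qr r + sr r)))) := by
    intro ψ
    obtain ⟨p1, p2⟩ := h.phi hB hL ψ ht
    have h1 := ftc_le ht0 p1 p2 (hWint.const_mul (N2 G.lam (-(3 / 8)) ψ))
      (fun r hr => hstat r hr ψ)
    rw [sub_self, Sg_zero, intervalIntegral.integral_const_mul] at h1
    have h2 : ‖⟪Sg G.D.K (t - t₀) ψ, G.VV B t₀ (x t₀)⟫_ℂ‖ ≤ N2 G.lam (-(3 / 8)) ψ * yr t₀ := by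
      have e3 : G.VV B t₀ (x t₀) = TT G.ω (G.gV B t₀ (x t₀)) := rfl
      have h3 := inner_le_N2 (s := (3 / 8 : ℝ)) G.lw.h1
        (S2l2_neg G.lw.h1 (by norm_num : -(3 / 8 : ℝ) ≤ 0) (Sg G.D.K (t - t₀) ψ)).1
        (S2_TT' G (by norm_num : (3 / 8 : ℝ) ≤ 1) (G.gV B t₀ (x t₀)))
      rw [N2_TT G (by norm_num : (3 / 8 : ℝ) ≤ 1)] at h3
      rw [e3, hyr]
      refine h3.trans (mul_le_mul_of_nonneg_right ?_ (norm_nonneg _))
      exact Geo.Sg_neg_contract G hBig (by norm_num) (by norm_num) (sub_nonneg.2 ht0) ψ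
    have h4 : ‖⟪ψ, G.VV B t (x t)⟫_ℂ‖ ≤ N2 G.lam (-(3 / 8)) ψ * yr t₀ +
        N2 G.lam (-(3 / 8)) ψ * ∫ r in t₀..t, (w r + C * ((t - r) ^ (-(15 / 16) : ℝ) *
        (yr r ^ 2 + yr r * qr r + sr r))) := h1.trans (add_le_add h2 le_rfl)
    rw [mul_add]
    exact h4
  -- nonnegativity of the bracket
  have hnn : 0 ≤ yr t₀ + ∫ r in t₀..t, (w r + C * ((t - r) ^ (-(15 / 16) : ℝ) *
      (yr r ^ 2 + yr r * qr r + sr r))) := by
    obtain ⟨g, hg⟩ := yi_nontrivial G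
    have h1 := hpair (LT G.ω G.lam (3 / 4) g)
    rw [(y_dual g).1] at h1
    by_contra hc
    rw [not_le] at hc
    have := (norm_nonneg _).trans h1
    exact absurd this (not_le.2 (mul_neg_of_pos_of_neg hg hc))
  obtain ⟨d1, d2⟩ := y_dual (G := G) (G.gV B t (x t))
  have h1 := hpair (LT G.ω G.lam (3 / 4) (G.gV B t (x t)))
  have e3 : G.VV B t (x t) = TT G.ω (G.gV B t (x t)) := rfl
  rw [d1, e3, d2, Complex.norm_real, Real.norm_of_nonneg (sq_nonneg _)] at h1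
  have key : ‖LT G.ω G.lam (3 / 8) (G.gV B t (x t))‖ ≤ yr t₀ +
      ∫ r in t₀..t, (w r + C * ((t - r) ^ (-(15 / 16) : ℝ) * (yr r ^ 2 + yr r * qr r + sr r))) := by
    rcases (norm_nonneg (LT G.ω G.lam (3 / 8) (G.gV B t (x t)))).eq_or_lt with h0 | h0
    · rw [← h0]; exact hnn
    · rw [sq] at h1
      exact le_of_mul_le_mul_left h1 h0
  rw [hyr, hqr, hsr] at key
  exact key

end Geo

end

end Pool.Agent.Lib.MP_79abb3_an.SC
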