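import Pool.Agent.Lib.MP_79abb3_an.SC.ExAbs
import Pool.Agent.Lib.MP_79abb3_an.SC.LaSG

/-!
Theorem C, stage for `L²` data: the linear estimate in Kato's norms.
-/

set_option autoImplicit false
set_option linter.unusedSectionVars false

open MeasureTheory Set Filter Topology Function
open scoped ENNReal InnerProductSpace

namespace Pool.Agent.Lib.MP_79abb3_an.SC

section
variable {E : Type} [NormedAddCommGroup E] [InnerProductSpace ℂ E] [CompleteSpace E]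
  {K : E →L[ℂ] E} {Y : Type} [NormedAddCommGroup Y] [NormedSpace ℂ Y]

private theorem rint {p : ℝ} (hp : p < 1) (t c d : ℝ) :
    IntervalIntegrable (fun r => (t - r) ^ (-p)) volume c d := by
  have h1 := (intervalIntegral.intervalIntegrable_rpow' (a := t - c) (b := t - d) (r := -p)
    (by linarith)).comp_sub_left t
  rwa [sub_sub_cancel, sub_sub_cancel] at h1

private theorem rval {p : ℝ} (hp : p < 1) (t c : ℝ) :
    ∫ r in c..t, (t - r) ^ (-p) = (t - c) ^ (1 - p) / (1 - p) := by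
  rw [intervalIntegral.integral_comp_sub_left (fun x : ℝ => x ^ (-p)) t, sub_self,
    integral_rpow (Or.inl (by linarith))]
  rw [show -p + 1 = 1 - p by ring, Real.zero_rpow (by linarith), sub_zero]

private theorem rval0 {q : ℝ} (hq : q < 1) (c : ℝ) :
    ∫ r in (0:ℝ)..c, r ^ (-q) = c ^ (1 - q) / (1 - q) := by
  rw [integral_rpow (Or.inl (by linarith)), show -q + 1 = 1 - q by ring,
    Real.zero_rpow (by linarith), sub_zero]

/-- the product of a kernel and a continuous function is integrable -/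
private theorem pint {p : ℝ} (hp : p < 1) (t : ℝ) {c d : ℝ} {g : ℝ → ℝ}
    (hg : ContinuousOn g (uIcc c d)) :
    IntervalIntegrable (fun r => (t - r) ^ (-p) * g r) volume c d :=
  (rint hp t c d).mul_continuousOn hg

private theorem rcont {c d q : ℝ} (hc : 0 < c) (hcd : c ≤ d) :
    ContinuousOn (fun r : ℝ => r ^ (-q)) (uIcc c d) := by
  rw [uIcc_of_le hcd]
  intro r hr
  exact (Real.continuousAt_rpow_const r (-q) (Or.inl (hc.trans_le hr.1).ne')).continuousWithinAt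

/-- the part near `t` -/
private theorem beta_hi {p q a t : ℝ} (hp : p < 1) (hq : 0 ≤ q) (ha : 0 < a) (hat : a ≤ t)
    (h2 : t / 2 ≤ a) :
    ∫ r in a..t, (t - r) ^ (-p) * r ^ (-q) ≤ (t / 2) ^ (-q) * ((t / 2) ^ (1 - p) / (1 - p)) := by
  have ht : 0 < t := ha.trans_le hat
  have h1 : ∫ r in a..t, (t - r) ^ (-p) * r ^ (-q) ≤ ∫ r in a..t, (t - r) ^ (-p) * (t / 2) ^ (-q) := by
    refine intervalIntegral.integral_mono_on hat (pint hp t (rcont ha hat))
      ((rint hp t a t).mul_const _) fun r hr => ?_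
    have h3 : 0 ≤ (t - r) ^ (-p) := Real.rpow_nonneg (sub_nonneg.2 hr.2) _
    have h4 : r ^ (-q) ≤ (t / 2) ^ (-q) :=
      Real.rpow_le_rpow_of_nonpos (by linarith) (h2.trans hr.1) (by linarith)
    exact mul_le_mul_of_nonneg_left h4 h3
  refine h1.trans ?_
  rw [intervalIntegral.integral_mul_const, rval hp, mul_comm]
  have h5 : (t - a) ^ (1 - p) ≤ (t / 2) ^ (1 - p) :=
    Real.rpow_le_rpow (sub_nonneg.2 hat) (by linarith) (by linarith)
  have h6 : 0 ≤ (t / 2) ^ (-q) := Real.rpow_nonneg (by linarith) _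
  refine mul_le_mul_of_nonneg_left ?_ h6
  exact div_le_div_of_nonneg_right h5 (by linarith)

/-- the part near `0` -/
private theorem beta_lo {p q a t : ℝ} (hp : 0 ≤ p) (hq : q < 1) (ha : 0 < a) (h2 : a ≤ t / 2) :
    ∫ r in a..(t / 2), (t - r) ^ (-p) * r ^ (-q) ≤
      (t / 2) ^ (-p) * ((t / 2) ^ (1 - q) / (1 - q)) := by
  have ht : 0 < t / 2 := ha.trans_le h2
  have hI : ∀ c d : ℝ, IntervalIntegrable (fun r : ℝ => r ^ (-q)) volume c d := fun c d =>
    intervalIntegral.intervalIntegrable_rpow' (by linarith)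
  have hc : ContinuousOn (fun r : ℝ => (t - r) ^ (-p)) (uIcc a (t / 2)) := by
    rw [uIcc_of_le h2]
    intro r hr
    have h3 : t - r ≠ 0 := by
      have := hr.2
      have : 0 < t - r := by linarith
      exact this.ne'
    exact ((Real.continuousAt_rpow_const (t - r) (-p) (Or.inl h3)).comp
      (f := fun r : ℝ => t - r) (by fun_prop)).continuousWithinAt
  have h1 : ∫ r in a..(t / 2), (t - r) ^ (-p) * r ^ (-q) ≤
      ∫ r in a..(t / 2), (t / 2) ^ (-p) * r ^ (-q) := by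
    refine intervalIntegral.integral_mono_on h2 ((hI _ _).continuousOn_mul hc)
      ((hI _ _).const_mul _) fun r hr => ?_
    have h3 : 0 ≤ r ^ (-q) := Real.rpow_nonneg (ha.le.trans hr.1) _
    have h4 : (t - r) ^ (-p) ≤ (t / 2) ^ (-p) :=
      Real.rpow_le_rpow_of_nonpos ht (by linarith [hr.2]) (by linarith)
    exact mul_le_mul_of_nonneg_right h4 h3
  refine h1.trans ?_
  rw [intervalIntegral.integral_const_mul]
  have h6 : 0 ≤ (t / 2) ^ (-p) := Real.rpow_nonneg ht.le _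
  refine mul_le_mul_of_nonneg_left ?_ h6
  rw [← rval0 hq (t / 2)]
  rw [← intervalIntegral.integral_add_adjacent_intervals (hI 0 a) (hI a (t / 2))]
  have h7 : 0 ≤ ∫ r in (0:ℝ)..a, r ^ (-q) :=
    intervalIntegral.integral_nonneg ha.le fun r hr => Real.rpow_nonneg hr.1 _
  linarith

private theorem beta_gen {p q a t : ℝ} (hp0 : 0 ≤ p) (hp : p < 1) (hq0 : 0 ≤ q) (hq : q < 1)
    (ha : 0 < a) (hat : a ≤ t) :
    ∫ r in a..t, (t - r) ^ (-p) * r ^ (-q) ≤
      (t / 2) ^ (1 - p - q) * (1 / (1 - q) + 1 / (1 - p)) := by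
  have ht : 0 < t := ha.trans_le hat
  have ht2 : 0 < t / 2 := by linarith
  have e1 : (t / 2) ^ (-q) * ((t / 2) ^ (1 - p) / (1 - p)) =
      (t / 2) ^ (1 - p - q) * (1 / (1 - p)) := by
    rw [← mul_div_assoc, ← Real.rpow_add ht2, show -q + (1 - p) = 1 - p - q by ring]
    ring
  have e2 : (t / 2) ^ (-p) * ((t / 2) ^ (1 - q) / (1 - q)) =
      (t / 2) ^ (1 - p - q) * (1 / (1 - q)) := by
    rw [← mul_div_assoc, ← Real.rpow_add ht2, show -p + (1 - q) = 1 - p - q by ring]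
    ring
  have e3 : 0 ≤ (t / 2) ^ (1 - p - q) * (1 / (1 - q)) :=
    mul_nonneg (Real.rpow_nonneg ht2.le _) (by
      have : 0 < 1 - q := by linarith
      positivity)
  rcases le_total (t / 2) a with h2 | h2
  · have := beta_hi hp hq0 ha hat h2
    rw [e1] at this
    rw [mul_add]
    linarith
  · have h3 := beta_lo hp0 hq ha h2
    have h4 := beta_hi (a := t / 2) (t := t) hp hq0 ht2 (by linarith) le_rfl
    rw [e2] at h3
    rw [e1] at h4
    have hI : IntervalIntegrable (fun r => (t - r) ^ (-p) * r ^ (-q)) volume a t :=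
      pint hp t (rcont ha hat)
    have hI1 : IntervalIntegrable (fun r => (t - r) ^ (-p) * r ^ (-q)) volume a (t / 2) :=
      pint hp t (rcont ha h2)
    have hI2 : IntervalIntegrable (fun r => (t - r) ^ (-p) * r ^ (-q)) volume (t / 2) t :=
      pint hp t (rcont ht2 (by linarith))
    rw [← intervalIntegral.integral_add_adjacent_intervals hI1 hI2, mul_add]
    linarith

/-- `∫_a^t (t-r)^{-3/4} r^{-3/4} dr ≤ 12 t^{-1/2}`. Proof: split `[0,t]` at `t/2`. -/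
theorem beta_a {a t : ℝ} (ha : 0 < a) (hat : a ≤ t) :
    ∫ r in a..t, (t - r) ^ (-(3 / 4 : ℝ)) * r ^ (-(3 / 4 : ℝ)) ≤ 12 * t ^ (-(1 / 2 : ℝ)) := by
  have ht : 0 < t := ha.trans_le hat
  have h1 := beta_gen (p := 3 / 4) (q := 3 / 4) (by norm_num) (by norm_num) (by norm_num)
    (by norm_num) ha hat
  refine h1.trans ?_
  rw [show (1 : ℝ) - 3 / 4 - 3 / 4 = -(1 / 2) by norm_num, div_eq_mul_inv,
    Real.mul_rpow ht.le (by norm_num)]
  have h2 : ((2 : ℝ)⁻¹) ^ (-(1 / 2 : ℝ)) ≤ 3 / 2 := by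
    rw [Real.inv_rpow (by norm_num), Real.rpow_neg (by norm_num), inv_inv, ← Real.sqrt_eq_rpow]
    rw [Real.sqrt_le_left (by norm_num)]
    norm_num
  have h3 : 0 ≤ t ^ (-(1 / 2 : ℝ)) := Real.rpow_nonneg ht.le _
  have h4 : t ^ (-(1 / 2 : ℝ)) * (2 : ℝ)⁻¹ ^ (-(1 / 2 : ℝ)) ≤ t ^ (-(1 / 2 : ℝ)) * (3 / 2) :=
    mul_le_mul_of_nonneg_left h2 h3
  norm_num at h4 ⊢
  linarith

/-- `∫_a^t (t-r)^{-1/4} r^{-3/4} dr ≤ 6`. -/
theorem beta_b {a t : ℝ} (ha : 0 < a) (hat : a ≤ t) :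
    ∫ r in a..t, (t - r) ^ (-(1 / 4 : ℝ)) * r ^ (-(3 / 4 : ℝ)) ≤ 6 := by
  have h1 := beta_gen (p := 1 / 4) (q := 3 / 4) (by norm_num) (by norm_num) (by norm_num)
    (by norm_num) ha hat
  refine h1.trans ?_
  rw [show (1 : ℝ) - 1 / 4 - 3 / 4 = 0 by norm_num, Real.rpow_zero]
  norm_num

/-- the part of the source in the space itself -/
private theorem src_int {a b t σ : ℝ} (ha : 0 < a) (ht : t ∈ Icc a b) (hσ : 0 ≤ σ) {f : ℝ → ℝ}
    (hf : ContinuousOn f (Icc a b)) (hf0 : ∀ r ∈ Icc a b, 0 ≤ f r)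
    (hF1 : ∀ r ∈ Icc a b, f r ≤ σ * r⁻¹) (hF2 : ∫ r in a..b, f r ≤ σ) :
    ∫ r in a..t, (t - r) ^ (-(1 / 2 : ℝ)) * f r ≤ 5 * σ * t ^ (-(1 / 2 : ℝ)) := by
  have ht0 : 0 < t := ha.trans_le ht.1
  have ht2 : 0 < t / 2 := by linarith
  have hp : (1 / 2 : ℝ) < 1 := by norm_num
  have hsq : (t / 2) ^ (-(1 / 2 : ℝ)) ≤ 3 / 2 * t ^ (-(1 / 2 : ℝ)) := by
    rw [div_eq_mul_inv, Real.mul_rpow ht0.le (by norm_num)]
    have h2 : ((2 : ℝ)⁻¹) ^ (-(1 / 2 : ℝ)) ≤ 3 / 2 := by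
      rw [Real.inv_rpow (by norm_num), Real.rpow_neg (by norm_num), inv_inv, ← Real.sqrt_eq_rpow]
      rw [Real.sqrt_le_left (by norm_num)]
      norm_num
    have h3 : 0 ≤ t ^ (-(1 / 2 : ℝ)) := Real.rpow_nonneg ht0.le _
    have h4 := mul_le_mul_of_nonneg_left h2 h3
    linarith
  have hpos : 0 ≤ (t / 2) ^ (-(1 / 2 : ℝ)) := Real.rpow_nonneg ht2.le _
  have hIf : ∀ c d : ℝ, c ∈ Icc a b → d ∈ Icc a b → IntervalIntegrable f volume c d := by
    intro c d hc hd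
    exact (hf.mono (uIcc_subset_Icc hc hd)).intervalIntegrable
  have hab : a ≤ b := ht.1.trans ht.2
  have haI : a ∈ Icc a b := ⟨le_rfl, hab⟩
  have hbI : b ∈ Icc a b := ⟨hab, le_rfl⟩
  -- the integral of `f` over a part
  have hpart : ∀ c ∈ Icc a b, ∫ r in a..c, f r ≤ σ := by
    intro c hc
    have h1 := intervalIntegral.integral_add_adjacent_intervals (hIf a c haI hc) (hIf c b hc hbI)
    have h2 : 0 ≤ ∫ r in c..b, f r :=
      intervalIntegral.integral_nonneg hc.2 fun r hr => hf0 r ⟨hc.1.trans hr.1, hr.2⟩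
    linarith
  -- near `t`
  have hi : ∀ c, c ∈ Icc a t → t / 2 ≤ c → ∫ r in c..t, (t - r) ^ (-(1 / 2 : ℝ)) * f r ≤
      2 * (t / 2) ^ (-(1 / 2 : ℝ)) * σ := by
    intro c hc h2
    have hcI : c ∈ Icc a b := ⟨hc.1, hc.2.trans ht.2⟩
    have h1 : ∫ r in c..t, (t - r) ^ (-(1 / 2 : ℝ)) * f r ≤
        ∫ r in c..t, (t - r) ^ (-(1 / 2 : ℝ)) * (σ * (t / 2)⁻¹) := by
      refine intervalIntegral.integral_mono_on hc.2
        (pint hp t (hf.mono (uIcc_subset_Icc hcI ht))) ((rint hp t c t).mul_const _)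
        fun r hr => ?_
      have h3 : 0 ≤ (t - r) ^ (-(1 / 2 : ℝ)) := Real.rpow_nonneg (sub_nonneg.2 hr.2) _
      refine mul_le_mul_of_nonneg_left ?_ h3
      refine (hF1 r ⟨hc.1.trans hr.1, hr.2.trans ht.2⟩).trans ?_
      refine mul_le_mul_of_nonneg_left ?_ hσ
      exact inv_anti₀ ht2 (h2.trans hr.1)
    refine h1.trans ?_
    rw [intervalIntegral.integral_mul_const, rval hp]
    have h5 : (t - c) ^ (1 - 1 / 2 : ℝ) ≤ (t / 2) ^ (1 - 1 / 2 : ℝ) :=
      Real.rpow_le_rpow (sub_nonneg.2 hc.2) (by linarith) (by norm_num)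
    have h6 : (t / 2) ^ (1 - 1 / 2 : ℝ) * (t / 2)⁻¹ = (t / 2) ^ (-(1 / 2 : ℝ)) := by
      rw [← Real.rpow_neg_one, ← Real.rpow_add ht2]
      norm_num
    have h7 : 0 ≤ σ * (t / 2)⁻¹ := mul_nonneg hσ (inv_nonneg.2 ht2.le)
    calc (t - c) ^ (1 - 1 / 2 : ℝ) / (1 - 1 / 2) * (σ * (t / 2)⁻¹)
        ≤ (t / 2) ^ (1 - 1 / 2 : ℝ) / (1 - 1 / 2) * (σ * (t / 2)⁻¹) :=
          mul_le_mul_of_nonneg_right (div_le_div_of_nonneg_right h5 (by norm_num)) h7
      _ = 2 * ((t / 2) ^ (1 - 1 / 2 : ℝ) * (t / 2)⁻¹) * σ := by ring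
      _ = _ := by rw [h6]
  -- far from `t`
  have lo : a ≤ t / 2 → ∫ r in a..(t / 2), (t - r) ^ (-(1 / 2 : ℝ)) * f r ≤
      (t / 2) ^ (-(1 / 2 : ℝ)) * σ := by
    intro h2
    have h2I : t / 2 ∈ Icc a b := ⟨h2, by linarith [ht.2]⟩
    have h1 : ∫ r in a..(t / 2), (t - r) ^ (-(1 / 2 : ℝ)) * f r ≤
        ∫ r in a..(t / 2), (t / 2) ^ (-(1 / 2 : ℝ)) * f r := by
      refine intervalIntegral.integral_mono_on h2 (pint hp t (hf.mono (uIcc_subset_Icc haI h2I)))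
        ((hIf a (t / 2) haI h2I).const_mul _) fun r hr => ?_
      have h4 : (t - r) ^ (-(1 / 2 : ℝ)) ≤ (t / 2) ^ (-(1 / 2 : ℝ)) :=
        Real.rpow_le_rpow_of_nonpos ht2 (by linarith [hr.2]) (by norm_num)
      exact mul_le_mul_of_nonneg_right h4 (hf0 r ⟨hr.1, hr.2.trans h2I.2⟩)
    refine h1.trans ?_
    rw [intervalIntegral.integral_const_mul]
    exact mul_le_mul_of_nonneg_left (hpart _ h2I) hpos
  have fin : 3 * ((t / 2) ^ (-(1 / 2 : ℝ)) * σ) ≤ 5 * σ * t ^ (-(1 / 2 : ℝ)) := by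
    have h1 := mul_le_mul_of_nonneg_right hsq hσ
    have h2 : 0 ≤ t ^ (-(1 / 2 : ℝ)) * σ := mul_nonneg (Real.rpow_nonneg ht0.le _) hσ
    nlinarith [h1, h2]
  have hps : 0 ≤ (t / 2) ^ (-(1 / 2 : ℝ)) * σ := mul_nonneg hpos hσ
  rcases le_total (t / 2) a with h2 | h2
  · have := hi a ⟨le_rfl, ht.1⟩ h2
    linarith
  · have h3 := lo h2
    have h4 := hi (t / 2) ⟨h2, by linarith⟩ le_rfl
    have h2I : t / 2 ∈ Icc a b := ⟨h2, by linarith [ht.2]⟩
    have hI1 : IntervalIntegrable (fun r => (t - r) ^ (-(1 / 2 : ℝ)) * f r) volume a (t / 2) :=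
      pint hp t (hf.mono (uIcc_subset_Icc haI h2I))
    have hI2 : IntervalIntegrable (fun r => (t - r) ^ (-(1 / 2 : ℝ)) * f r) volume (t / 2) t :=
      pint hp t (hf.mono (uIcc_subset_Icc h2I ht))
    rw [← intervalIntegral.integral_add_adjacent_intervals hI1 hI2]
    linarith

/-- **Linear estimate.** Proof. `‖S(t-a) h(a)‖`: for `t ≤ 2a` it is `≤ ‖h a‖ ≤ σ a^{-1/2} ≤ √2 σ t^{-1/2}`, for
`t ≥ 2a` it is `≤ (t-a)^{-1/2} ‖Kh (h a)‖ ≤ √2 t^{-1/2} σ` (`Sg K τ x = HS K τ (Kh K x)`, `HS_norm`).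
`J`-part: `beta_a`, `beta_b`. `F`-part: `‖AS K τ (Kh K F)‖ ≤ τ^{-1/2} ‖F‖` (`AS_Kh`, `HS_norm`), and
`∫_a^t (t-r)^{-1/2} ‖F r‖ ≤ (t/2)^{-1/2} ∫_{r ≤ t/2} ‖F‖ + σ (t/2)^{-1} ∫_{t/2}^t (t-r)^{-1/2} ≤ 5 σ t^{-1/2}`;
`‖Kh (AS K τ (Kh F))‖ = ‖Sg K τ F‖ ≤ ‖F‖`. Total: `2 + 12 + 5 ≤ 20`. -/
theorem kato_lin (hK : 0 ≤ K) (hi : ∀ x, K x = 0 → x = 0) {J : Y →L[ℂ] E} {C θ : ℝ}
    (hk : Ker (Sg K) (fun τ => (AS K τ).comp (J.coprod (Kh K))) C θ) {a b σ : ℝ} (ha : 0 < a)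
    (hab : a ≤ b) (hσ : 0 ≤ σ) {y : ℝ → Y} {F : ℝ → E} (hy : ContinuousOn y (Icc a b))
    (hF : ContinuousOn F (Icc a b)) {h : ℝ → E}
    (hh : ∀ t ∈ Icc a b, h t = Sg K (t - a) (h a) +
      ∫ r in a..t, AS K (t - r) (J (y r) + Kh K (F r)))
    (h1 : ‖Kh K (h a)‖ ≤ σ) (h2 : √a * ‖h a‖ ≤ σ)
    (hs : ∀ r ∈ Icc a b, ∀ τ, 0 < τ →
      ‖AS K τ (J (y r))‖ ≤ σ * r ^ (-(3 / 4 : ℝ)) * τ ^ (-(3 / 4 : ℝ)) ∧
      ‖Kh K (AS K τ (J (y r)))‖ ≤ σ * r ^ (-(3 / 4 : ℝ)) * τ ^ (-(1 / 4 : ℝ)))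
    (hF1 : ∀ r ∈ Icc a b, ‖F r‖ ≤ σ * r⁻¹) (hF2 : ∫ r in a..b, ‖F r‖ ≤ σ) :
    ∀ t ∈ Icc a b, ‖Kh K (h t)‖ ≤ 20 * σ ∧ √t * ‖h t‖ ≤ 20 * σ := by
  intro t ht
  have ht0 : 0 < t := ha.trans_le ht.1
  have hsub : Icc a t ⊆ Icc a b := Icc_subset_Icc le_rfl ht.2
  have hFn : ContinuousOn (fun r => ‖F r‖) (Icc a b) := hF.norm
  have hgc : ContinuousOn (fun r => (y r, F r)) (Icc a b) := hy.prodMk hF
  have hint : IntervalIntegrable (fun r => AS K (t - r) (J (y r) + Kh K (F r))) volume a t :=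
    hk.int_aux hgc ht (c := a) ⟨le_rfl, ht.1⟩
  have hne : ∀ᵐ r : ℝ ∂volume, r ≠ t := by simp [ae_iff, measure_singleton]
  have hIF : IntervalIntegrable (fun r => ‖F r‖) volume a t :=
    (hFn.mono (by rw [uIcc_of_le ht.1]; exact hsub)).intervalIntegrable
  have hbase : ContinuousOn (fun r : ℝ => r ^ (-(3 / 4 : ℝ))) (uIcc a t) := rcont ha ht.1
  constructor
  · -- the weak norm
    have e0 : Kh K (h t) = Sg K (t - a) (Kh K (h a)) +
        ∫ r in a..t, Kh K (AS K (t - r) (J (y r) + Kh K (F r))) := by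
      rw [hh t ht, map_add, ContinuousLinearMap.intervalIntegral_comp_comm (Kh K) hint]
      congr 1
      exact congrArg (fun L : E →L[ℂ] E => L (h a)) (Kh_comm_Sg (K := K) (t := t - a))
    have e1 : ‖∫ r in a..t, Kh K (AS K (t - r) (J (y r) + Kh K (F r)))‖ ≤
        ∫ r in a..t, (σ * ((t - r) ^ (-(1 / 4 : ℝ)) * r ^ (-(3 / 4 : ℝ))) + ‖F r‖) := by
      refine intervalIntegral.norm_integral_le_of_norm_le ht.1 ?_
        (((pint (by norm_num) t hbase).const_mul σ).add hIF)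
      filter_upwards [hne] with r hr hrI
      have hrI' : r ∈ Icc a b := ⟨hrI.1.le, hrI.2.trans ht.2⟩
      have hτ : 0 < t - r := sub_pos.2 (lt_of_le_of_ne hrI.2 hr)
      rw [map_add, map_add]
      refine (norm_add_le _ _).trans ?_
      refine add_le_add ?_ ?_
      · refine ((hs r hrI' _ hτ).2).trans (le_of_eq ?_)
        ring
      · have e2 : Kh K (AS K (t - r) (Kh K (F r))) = Sg K (t - r) (F r) := by
          rw [AS_Kh hK hτ]
          exact congrArg (fun L : E →L[ℂ] E => L (F r)) (Kh_HS hK hτ)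
        rw [e2]
        exact Sg_norm_apply hK _ _
    rw [intervalIntegral.integral_add ((pint (by norm_num) t hbase).const_mul σ) hIF,
      intervalIntegral.integral_const_mul] at e1
    have e3 := mul_le_mul_of_nonneg_left (beta_b ha ht.1) hσ
    have e4 : ∫ r in a..t, ‖F r‖ ≤ σ := by
      have hIt : IntervalIntegrable (fun r => ‖F r‖) volume t b :=
        (hFn.mono (uIcc_subset_Icc ht ⟨hab, le_rfl⟩)).intervalIntegrable
      have h3 := intervalIntegral.integral_add_adjacent_intervals hIF hIt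
      have h4 : 0 ≤ ∫ r in t..b, ‖F r‖ :=
        intervalIntegral.integral_nonneg ht.2 fun r _ => norm_nonneg _
      linarith
    rw [e0]
    refine (norm_add_le _ _).trans ?_
    have e5 : ‖Sg K (t - a) (Kh K (h a))‖ ≤ σ := (Sg_norm_apply hK _ _).trans h1
    linarith
  · -- the strong norm
    have e1 : ‖∫ r in a..t, AS K (t - r) (J (y r) + Kh K (F r))‖ ≤
        ∫ r in a..t, (σ * ((t - r) ^ (-(3 / 4 : ℝ)) * r ^ (-(3 / 4 : ℝ))) +
          (t - r) ^ (-(1 / 2 : ℝ)) * ‖F r‖) := by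
      refine intervalIntegral.norm_integral_le_of_norm_le ht.1 ?_
        (((pint (by norm_num) t hbase).const_mul σ).add (pint (by norm_num) t
          (hFn.mono (by rw [uIcc_of_le ht.1]; exact hsub))))
      filter_upwards [hne] with r hr hrI
      have hrI' : r ∈ Icc a b := ⟨hrI.1.le, hrI.2.trans ht.2⟩
      have hτ : 0 < t - r := sub_pos.2 (lt_of_le_of_ne hrI.2 hr)
      rw [map_add]
      refine (norm_add_le _ _).trans ?_
      refine add_le_add ?_ ?_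
      · refine ((hs r hrI' _ hτ).1).trans (le_of_eq ?_)
        ring
      · rw [AS_Kh hK hτ]
        refine ((HS K (t - r)).le_of_opNorm_le (HS_norm hK hτ) _).trans (le_of_eq ?_)
        rw [Real.rpow_neg hτ.le, ← Real.sqrt_eq_rpow]
    rw [intervalIntegral.integral_add ((pint (by norm_num) t hbase).const_mul σ)
      (pint (by norm_num) t (hFn.mono (by rw [uIcc_of_le ht.1]; exact hsub))),
      intervalIntegral.integral_const_mul] at e1
    have e3 := mul_le_mul_of_nonneg_left (beta_a ha ht.1) hσ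
    have e4 := src_int ha ht hσ hFn (fun r _ => norm_nonneg _) hF1 hF2
    -- the initial datum
    have hst : 0 < √t := Real.sqrt_pos.2 ht0
    have e5 : √t * ‖Sg K (t - a) (h a)‖ ≤ 2 * σ := by
      rcases le_total t (2 * a) with h3 | h3
      · have h4 : ‖Sg K (t - a) (h a)‖ ≤ ‖h a‖ := Sg_norm_apply hK _ _
        have h5 : √t ≤ 2 * √a := by
          rw [Real.sqrt_le_left (by positivity), mul_pow, Real.sq_sqrt ha.le]
          linarith
        calc √t * ‖Sg K (t - a) (h a)‖ ≤ 2 * √a * ‖h a‖ :=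
              mul_le_mul h5 h4 (norm_nonneg _) (by positivity)
          _ = 2 * (√a * ‖h a‖) := by ring
          _ ≤ 2 * σ := by linarith
      · have hτ : 0 < t - a := by linarith
        have h4 : ‖Sg K (t - a) (h a)‖ ≤ (√(t - a))⁻¹ * σ := by
          rw [← HS_Kh hK hτ]
          exact ((HS K (t - a)).le_of_opNorm_le (HS_norm hK hτ) _).trans
            (mul_le_mul_of_nonneg_left h1 (inv_nonneg.2 (Real.sqrt_nonneg _)))
        have h5 : √t ≤ 2 * √(t - a) := by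
          rw [Real.sqrt_le_left (by positivity), mul_pow, Real.sq_sqrt hτ.le]
          linarith
        have h6 : 0 < √(t - a) := Real.sqrt_pos.2 hτ
        calc √t * ‖Sg K (t - a) (h a)‖ ≤ (2 * √(t - a)) * ((√(t - a))⁻¹ * σ) :=
              mul_le_mul h5 h4 (norm_nonneg _) (by positivity)
          _ = 2 * σ := by field_simp
    have e6 : √t * t ^ (-(1 / 2 : ℝ)) = 1 := by
      rw [Real.rpow_neg ht0.le, ← Real.sqrt_eq_rpow]
      exact mul_inv_cancel₀ hst.ne'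
    have e7 : √t * ‖∫ r in a..t, AS K (t - r) (J (y r) + Kh K (F r))‖ ≤ 17 * σ := by
      have h3 : ‖∫ r in a..t, AS K (t - r) (J (y r) + Kh K (F r))‖ ≤ 17 * σ * t ^ (-(1 / 2 : ℝ)) := by
        linarith
      calc √t * ‖∫ r in a..t, AS K (t - r) (J (y r) + Kh K (F r))‖
          ≤ √t * (17 * σ * t ^ (-(1 / 2 : ℝ))) := mul_le_mul_of_nonneg_left h3 hst.le
        _ = 17 * σ * (√t * t ^ (-(1 / 2 : ℝ))) := by ring
        _ = 17 * σ := by rw [e6, mul_one]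
    have e8 : h t = Sg K (t - a) (h a) + ∫ r in a..t, AS K (t - r) (J (y r) + Kh K (F r)) := hh t ht
    calc √t * ‖h t‖ ≤ √t * (‖Sg K (t - a) (h a)‖ +
          ‖∫ r in a..t, AS K (t - r) (J (y r) + Kh K (F r))‖) := by
          refine mul_le_mul_of_nonneg_left ?_ hst.le
          conv_lhs => rw [e8]
          exact norm_add_le _ _
      _ = √t * ‖Sg K (t - a) (h a)‖ +
          √t * ‖∫ r in a..t, AS K (t - r) (J (y r) + Kh K (F r))‖ := by ring
      _ ≤ 20 * σ := by linarith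

/-- Continuity method: a continuous function which satisfies `φ ≤ M ⟹ φ ≤ M/2` on initial intervals and
`φ a ≤ M / 2` stays `≤ M / 2`. -/
theorem boot {a b M : ℝ} (hM : 0 < M) (hab : a ≤ b) {φ : ℝ → ℝ} (hc : ContinuousOn φ (Icc a b))
    (h0 : φ a ≤ M / 2)
    (hs : ∀ c ∈ Icc a b, (∀ t ∈ Icc a c, φ t ≤ M) → ∀ t ∈ Icc a c, φ t ≤ M / 2) :
    ∀ t ∈ Icc a b, φ t ≤ M / 2 := by
  by_contra hcon
  push Not at hcon
  obtain ⟨t1, ht1, hφ1⟩ := hcon
  have hT : ({t | t ∈ Icc a b ∧ M / 2 < φ t} : Set ℝ).Nonempty := ⟨t1, ht1, hφ1⟩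
  have hbd : BddBelow ({t | t ∈ Icc a b ∧ M / 2 < φ t} : Set ℝ) := ⟨a, fun t ht => ht.1.1⟩
  obtain ⟨c, hcdef⟩ : ∃ c, c = sInf ({t | t ∈ Icc a b ∧ M / 2 < φ t} : Set ℝ) := ⟨_, rfl⟩
  have hca : a ≤ c := by
    rw [hcdef]
    exact le_csInf hT fun t ht => ht.1.1
  have hct1 : c ≤ t1 := by
    rw [hcdef]
    exact csInf_le hbd ⟨ht1, hφ1⟩
  have hcI : c ∈ Icc a b := ⟨hca, hct1.trans ht1.2⟩
  have hbelow : ∀ t ∈ Icc a b, t < c → φ t ≤ M / 2 := by
    intro t ht htc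
    by_contra h
    push Not at h
    have : c ≤ t := by
      rw [hcdef]
      exact csInf_le hbd ⟨ht, h⟩
    linarith
  have hφc : φ c ≤ M / 2 := by
    rcases eq_or_lt_of_le hca with h | h
    · rw [← h]; exact h0
    · have hcl : ContinuousWithinAt φ (Ioo a c) c :=
        (hc c hcI).mono fun x hx => ⟨hx.1.le, hx.2.le.trans hcI.2⟩
      have hne : (𝓝[Ioo a c] c).NeBot := by
        rw [← mem_closure_iff_nhdsWithin_neBot, closure_Ioo h.ne]
        exact ⟨h.le, le_rfl⟩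
      refine le_of_tendsto hcl ?_
      filter_upwards [self_mem_nhdsWithin] with x hx
      exact hbelow x ⟨hx.1.le, hx.2.le.trans hcI.2⟩ hx.2
  have hlt : φ c < M := by linarith
  have hev : ∀ᶠ x in 𝓝[Icc a b] c, φ x < M := (hc c hcI).eventually_lt_const hlt
  obtain ⟨d, hd, hd'⟩ := Metric.mem_nhdsWithin_iff.1 hev
  obtain ⟨t2, ht2, ht2'⟩ := exists_lt_of_csInf_lt hT
    (show sInf ({t | t ∈ Icc a b ∧ M / 2 < φ t} : Set ℝ) < c + d by rw [← hcdef]; linarith)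
  have hct2 : c ≤ t2 := by
    rw [hcdef]
    exact csInf_le hbd ht2
  have hall : ∀ t ∈ Icc a t2, φ t ≤ M := by
    intro t ht
    have htI : t ∈ Icc a b := ⟨ht.1, ht.2.trans ht2.1.2⟩
    rcases lt_or_ge t c with h | h
    · linarith [hbelow t htI h]
    · have h3 : t ∈ Metric.ball c d := by
        rw [Metric.mem_ball, Real.dist_eq, abs_of_nonneg (by linarith)]
        linarith [ht.2]
      exact (hd' ⟨h3, htI⟩).le
  have := hs t2 ht2.1 hall t2 ⟨ht2.1.1, le_rfl⟩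
  linarith [ht2.2]

end

end Pool.Agent.Lib.MP_79abb3_an.SC
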