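import Pool.Agent.Lib.MP_79abb3_an.SC.L2Ca
import Pool.Agent.Lib.MP_79abb3_an.SC.L2B

/-!
Theorem C, stage for `L²` data: solutions with small background, a priori bounds, existence, differences, the
limit of the solutions which start at the times `a → 0`.
-/

set_option autoImplicit false
set_option linter.unusedSectionVars false

open MeasureTheory Set Filter Topology Function
open scoped ENNReal InnerProductSpace

namespace Pool.Agent.Lib.MP_79abb3_an.SC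

open Pool.Agent.Lib.MP_79abb3_an.P25

section
variable {H : ℝ} [hH : Fact (0 < H)]

namespace Geo
variable (G : Geo H)

theorem L2C_pow {r h M : ℝ} (hr : 0 < r) (h1 : √r * h ≤ M) : h ≤ M * r ^ (-(1 / 2 : ℝ)) := by
  have e : √r * r ^ (-(1 / 2 : ℝ)) = 1 := by
    rw [Real.sqrt_eq_rpow, ← Real.rpow_add hr]; norm_num
  have h2 := mul_le_mul_of_nonneg_right h1 (Real.rpow_nonneg hr.le (-(1 / 2 : ℝ)))
  calc h = h * (√r * r ^ (-(1 / 2 : ℝ))) := by rw [e, mul_one]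
    _ = √r * h * r ^ (-(1 / 2 : ℝ)) := by ring
    _ ≤ _ := h2

theorem L2C_sqrt {r x y M : ℝ} (hr : 0 < r) (hM : 0 ≤ M) (hy : 0 ≤ y) (hx1 : x ≤ M)
    (hy1 : y ≤ M * r ^ (-(1 / 2 : ℝ))) : √(x * y) ≤ M * r ^ (-(1 / 4 : ℝ)) := by
  have e : r ^ (-(1 / 2 : ℝ)) = (r ^ (-(1 / 4 : ℝ))) ^ 2 := by
    rw [← Real.rpow_natCast, ← Real.rpow_mul hr.le]; norm_num
  have h0 := Real.rpow_nonneg hr.le (-(1 / 4 : ℝ))
  rw [show M * r ^ (-(1 / 4 : ℝ)) = √((M * r ^ (-(1 / 4 : ℝ))) ^ 2) from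
    (Real.sqrt_sq (by positivity)).symm]
  refine Real.sqrt_le_sqrt ?_
  calc x * y ≤ M * (M * r ^ (-(1 / 2 : ℝ))) := by
        exact mul_le_mul hx1 hy1 hy hM
    _ = _ := by rw [e]; ring

/-- The bound of the vorticity. -/
theorem L2C_om : ∃ D, 0 ≤ D ∧ ∀ g : HH H, ‖Ms G.ζ (cm G.a g)‖ ≤ D * ‖g‖ := by
  refine ⟨‖(Ms G.ζ : HH H →L[ℂ] HH H)‖ * ‖(cm G.a : HH H →L[ℂ] HH H)‖, by positivity, fun g => ?_⟩
  have c2 := (cm G.a : HH H →L[ℂ] HH H).le_opNorm g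
  have c3 := (Ms G.ζ : HH H →L[ℂ] HH H).le_opNorm (cm G.a g)
  calc _ ≤ ‖(Ms G.ζ : HH H →L[ℂ] HH H)‖ * (‖(cm G.a : HH H →L[ℂ] HH H)‖ * ‖g‖) :=
        c3.trans (mul_le_mul_of_nonneg_left c2 (norm_nonneg _))
    _ = _ := by ring

/-- The size of the vortex force. -/
theorem L2C_src : ∃ C, 0 ≤ C ∧ ∀ (B : Bg H) (b η : ℝ), G.KB B b η → ∀ r ∈ Ioc 0 b,
    ∀ (x : HH H × HH H) (M : ℝ), 0 ≤ M → ‖Kh G.D.K x.2‖ ≤ M → √r * ‖x.2‖ ≤ M → ∀ τ, 0 < τ →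
    ‖AS G.D.K τ (G.J3 (G.Pw (Ms G.ζ (cm G.a (G.Qd x.2 + B.gL r))) (G.uv B r x) (G.uw B r x)))‖ ≤
      C * (M + η) ^ 2 * r ^ (-(3 / 4 : ℝ)) * τ ^ (-(3 / 4 : ℝ)) ∧
    ‖Kh G.D.K (AS G.D.K τ (G.J3 (G.Pw (Ms G.ζ (cm G.a (G.Qd x.2 + B.gL r)))
      (G.uv B r x) (G.uw B r x))))‖ ≤
      C * (M + η) ^ 2 * r ^ (-(3 / 4 : ℝ)) * τ ^ (-(1 / 4 : ℝ)) := by
  obtain ⟨C1, hC1, hP⟩ := G.Pw_ker
  obtain ⟨C2, hC2, hn⟩ := G.n1_vf
  obtain ⟨D, hD, ho⟩ := L2C_om G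
  refine ⟨C1 * (D * (‖G.Qd‖ + 1) * (C2 + 1)), by positivity, fun B b η hK r hr x M hM h1 h2 τ hτ => ?_⟩
  have hη := hK.hη
  have hr0 := hr.1
  have p2 := Real.rpow_nonneg hr0.le (-(1 / 2 : ℝ))
  have p4 := Real.rpow_nonneg hr0.le (-(1 / 4 : ℝ))
  have hh := L2C_pow hr0 h2
  obtain ⟨s1, n1b⟩ := hn B r x (hK.e1 r hr)
  have n2 := hK.e2 r hr
  have n3 := L2C_sqrt hr0 hM (norm_nonneg _) h1 hh
  have hN : n1 (G.vf B r x) (G.wf B r x) ≤ (C2 + 1) * (M + η) * r ^ (-(1 / 4 : ℝ)) := by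
    have a1 : C2 * √(‖Kh G.D.K x.2‖ * ‖x.2‖) ≤ C2 * (M * r ^ (-(1 / 4 : ℝ))) :=
      mul_le_mul_of_nonneg_left n3 hC2
    have a2 : 0 ≤ C2 * η * r ^ (-(1 / 4 : ℝ)) := by positivity
    have a3 : 0 ≤ M * r ^ (-(1 / 4 : ℝ)) := by positivity
    calc n1 (G.vf B r x) (G.wf B r x) ≤ C2 * (M * r ^ (-(1 / 4 : ℝ))) + η * r ^ (-(1 / 4 : ℝ)) := by
          linarith
      _ ≤ _ := by nlinarith
  have hO : ‖Ms G.ζ (cm G.a (G.Qd x.2 + B.gL r))‖ ≤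
      D * (‖G.Qd‖ + 1) * (M + η) * r ^ (-(1 / 2 : ℝ)) := by
    have b1 : ‖G.Qd x.2 + B.gL r‖ ≤ (‖G.Qd‖ + 1) * (M + η) * r ^ (-(1 / 2 : ℝ)) := by
      have q0 := norm_nonneg G.Qd
      have q1 : ‖G.Qd x.2‖ ≤ ‖G.Qd‖ * (M * r ^ (-(1 / 2 : ℝ))) :=
        (G.Qd.le_opNorm x.2).trans (mul_le_mul_of_nonneg_left hh q0)
      have q2 := hK.g r hr
      have q3 : 0 ≤ ‖G.Qd‖ * η * r ^ (-(1 / 2 : ℝ)) := by positivity
      have q4 : 0 ≤ M * r ^ (-(1 / 2 : ℝ)) := by positivity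
      calc ‖G.Qd x.2 + B.gL r‖ ≤ ‖G.Qd‖ * (M * r ^ (-(1 / 2 : ℝ))) + η * r ^ (-(1 / 2 : ℝ)) :=
            (norm_add_le _ _).trans (add_le_add q1 q2)
        _ ≤ _ := by nlinarith
    calc _ ≤ D * ((‖G.Qd‖ + 1) * (M + η) * r ^ (-(1 / 2 : ℝ))) :=
          (ho _).trans (mul_le_mul_of_nonneg_left b1 hD)
      _ = _ := by ring
  have hpr : C1 * ‖Ms G.ζ (cm G.a (G.Qd x.2 + B.gL r))‖ * n1 (G.vf B r x) (G.wf B r x) ≤
      C1 * (D * (‖G.Qd‖ + 1) * (C2 + 1)) * (M + η) ^ 2 * r ^ (-(3 / 4 : ℝ)) := by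
    have e : r ^ (-(3 / 4 : ℝ)) = r ^ (-(1 / 2 : ℝ)) * r ^ (-(1 / 4 : ℝ)) := by
      rw [← Real.rpow_add hr0]; norm_num
    have q0 := norm_nonneg G.Qd
    have q5 : 0 ≤ D * (‖G.Qd‖ + 1) * (M + η) * r ^ (-(1 / 2 : ℝ)) := by positivity
    calc _ ≤ C1 * (D * (‖G.Qd‖ + 1) * (M + η) * r ^ (-(1 / 2 : ℝ))) *
          ((C2 + 1) * (M + η) * r ^ (-(1 / 4 : ℝ))) := by
          refine mul_le_mul (mul_le_mul_of_nonneg_left hO hC1) hN (n1_nonneg _ _) (by positivity)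
      _ = _ := by rw [e]; ring
  obtain ⟨k1, k2⟩ := hP (Ms G.ζ (cm G.a (G.Qd x.2 + B.gL r))) (G.uv B r x) (G.uw B r x) s1 τ hτ
  exact ⟨k1.trans (mul_le_mul_of_nonneg_right hpr (Real.rpow_nonneg hτ.le _)),
    k2.trans (mul_le_mul_of_nonneg_right hpr (Real.rpow_nonneg hτ.le _))⟩

theorem L2C_step : ∃ C, 0 ≤ C ∧ ∀ (B : Bg H) (b η : ℝ), G.KB B b η → ∀ a ∈ Ioc 0 b, ∀ c ∈ Icc a b,
    ∀ (x₀ : HH H × HH H) (x : ℝ → HH H × HH H), G.Sol B a c x₀ x → x₀.1 = 0 →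
    ‖Kh G.D.K x₀.2‖ ≤ η → √a * ‖x₀.2‖ ≤ η → ∀ M, 0 ≤ M →
    (∀ t ∈ Icc a c, ‖Kh G.D.K (x t).2‖ ≤ M ∧ √t * ‖(x t).2‖ ≤ M) →
    ∀ t ∈ Icc a c, ‖Kh G.D.K (x t).2‖ ≤ 20 * (η + C * (M + η) ^ 2) ∧
      √t * ‖(x t).2‖ ≤ 20 * (η + C * (M + η) ^ 2) := by
  obtain ⟨C, hC, hsrc⟩ := L2C_src G
  obtain ⟨Ck, hCk⟩ := G.kerL
  refine ⟨C, hC, fun B b η hK a ha c hc x₀ x hs h0 h1 h2 M hM hb => ?_⟩
  have hη := hK.hη
  have hB := (hK.mono (ha.1.trans_le hc.1) hc.2).cont a ha.1 hc.1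
  obtain ⟨-, h3, hf, hm⟩ := Geo.Sol.eqh hs hB hK.κ0 hK.κ1 hK.fc h0 hc.1
  have hΦ := Phi_cont (G := G) hB hs.cont
  have cy : ContinuousOn (fun r => G.f3 B r (x r)) (Icc a c) :=
    (continuous_fst.comp continuous_snd).comp_continuousOn hΦ
  have hsub : ∀ t ∈ Icc a c, t ∈ Ioc 0 b := fun t ht => ⟨ha.1.trans_le ht.1, ht.2.trans hc.2⟩
  have hσ : 0 ≤ C * (M + η) ^ 2 := by positivity
  refine kato_lin (σ := η + C * (M + η) ^ 2) G.D.K_nonneg G.D.K_injective hCk ha.1 hc.1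
    (by positivity) cy hB.FL (h := fun t => (x t).2) hm ?_ ?_ ?_ ?_ ?_
  · show ‖Kh G.D.K (x a).2‖ ≤ _
    rw [h3]; linarith
  · show √a * ‖(x a).2‖ ≤ _
    rw [h3]; linarith
  · intro r hr τ hτ
    obtain ⟨k1, k2⟩ := hsrc B b η hK r (hsub r hr) (x r) M hM (hb r hr).1 (hb r hr).2 τ hτ
    rw [(hf r hr).1]
    have hr0 := (hsub r hr).1
    have p1 := Real.rpow_nonneg hr0.le (-(3 / 4 : ℝ))
    have p2 := Real.rpow_nonneg hτ.le (-(3 / 4 : ℝ))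
    have p3 := Real.rpow_nonneg hτ.le (-(1 / 4 : ℝ))
    have q1 : 0 ≤ η * r ^ (-(3 / 4 : ℝ)) * τ ^ (-(3 / 4 : ℝ)) := by positivity
    have q2 : 0 ≤ η * r ^ (-(3 / 4 : ℝ)) * τ ^ (-(1 / 4 : ℝ)) := by positivity
    constructor
    · refine k1.trans ?_
      have e : (η + C * (M + η) ^ 2) * r ^ (-(3 / 4 : ℝ)) * τ ^ (-(3 / 4 : ℝ)) =
        η * r ^ (-(3 / 4 : ℝ)) * τ ^ (-(3 / 4 : ℝ)) +
        C * (M + η) ^ 2 * r ^ (-(3 / 4 : ℝ)) * τ ^ (-(3 / 4 : ℝ)) := by ring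
      rw [e]; linarith
    · refine k2.trans ?_
      have e : (η + C * (M + η) ^ 2) * r ^ (-(3 / 4 : ℝ)) * τ ^ (-(1 / 4 : ℝ)) =
        η * r ^ (-(3 / 4 : ℝ)) * τ ^ (-(1 / 4 : ℝ)) +
        C * (M + η) ^ 2 * r ^ (-(3 / 4 : ℝ)) * τ ^ (-(1 / 4 : ℝ)) := by ring
      rw [e]; linarith
  · intro r hr
    refine (hK.F1 r (hsub r hr)).trans ?_
    have := inv_nonneg.2 (hsub r hr).1.le
    exact mul_le_mul_of_nonneg_right (by linarith) this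
  · have := (hK.mono (ha.1.trans_le hc.1) hc.2).F2 a ⟨ha.1, hc.1⟩
    linarith

/-- **A priori bound.** Proof: `φ t = max ‖Kh h‖ (√t ‖h‖)`; if `φ ≤ M` on `[a, c]`, then the source has the size
`s(r) = C ‖om‖ n1 ≤ C' (M + η)² r^{-3/4}`, so `kato_lin` gives `φ ≤ 20 (η + C' (M+η)²)`; choose `M = 80 η`
(for `η > 0`) and `boot`. -/
theorem KB.ap : ∃ η₀ > 0, ∀ (B : Bg H) (b η : ℝ), G.KB B b η → 0 < η → η ≤ η₀ → ∀ a ∈ Ioc 0 b, ∀ c ∈ Icc a b,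
    ∀ (x₀ : HH H × HH H) (x : ℝ → HH H × HH H), G.Sol B a c x₀ x → x₀.1 = 0 →
    ‖Kh G.D.K x₀.2‖ ≤ η → √a * ‖x₀.2‖ ≤ η →
    ∀ t ∈ Icc a c, ‖Kh G.D.K (x t).2‖ ≤ 40 * η ∧ √t * ‖(x t).2‖ ≤ 40 * η := by
  obtain ⟨C, hC, hst⟩ := L2C_step G
  obtain ⟨Ck, hCk⟩ := G.ker
  refine ⟨1 / (6561 * (C + 1)), by positivity, fun B b η hK hη hη0 a ha c hc x₀ x hs h0 h1 h2 => ?_⟩
  have ha0 : x a = x₀ := Mild.init hCk hs hc.1
  have hsm : C * (80 * η + η) ^ 2 ≤ η := by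
    have h3 : η * (6561 * (C + 1)) ≤ 1 := by
      rwa [le_div_iff₀ (by positivity)] at hη0
    have h4 : η * (6561 * C) ≤ 1 := by nlinarith
    calc C * (80 * η + η) ^ 2 = η * (η * (6561 * C)) := by ring
      _ ≤ η * 1 := mul_le_mul_of_nonneg_left h4 hη.le
      _ = η := mul_one _
  have hhc : ContinuousOn (fun t => (x t).2) (Icc a c) := continuous_snd.comp_continuousOn hs.cont
  have cφ : ContinuousOn (fun t => max ‖Kh G.D.K (x t).2‖ (√t * ‖(x t).2‖)) (Icc a c) := by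
    exact (continuous_fst.max continuous_snd).comp_continuousOn
      ((((Kh G.D.K).continuous.comp_continuousOn hhc).norm).prodMk
        ((Real.continuous_sqrt.continuousOn).mul hhc.norm))
  have hb := boot (M := 80 * η) (by positivity) hc.1 cφ (by
      show max ‖Kh G.D.K (x a).2‖ (√a * ‖(x a).2‖) ≤ 80 * η / 2
      rw [ha0]
      exact max_le (by linarith) (by linarith)) (fun d hd hM t ht => by
      have hsd : G.Sol B a d x₀ x := hs.restrict hd.2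
      have h5 := hst B b η hK a ha d ⟨hd.1, hd.2.trans hc.2⟩ x₀ x hsd h0 h1 h2 (80 * η)
        (by positivity) (fun t ht => ⟨(le_max_left _ _).trans (hM t ht),
          (le_max_right _ _).trans (hM t ht)⟩) t ht
      exact max_le (by linarith [h5.1]) (by linarith [h5.2]))
  intro t ht
  have h6 := hb t ht
  exact ⟨((le_max_left _ _).trans h6).trans (by linarith), ((le_max_right _ _).trans h6).trans (by linarith)⟩

/-- **Existence** from zero data at the time `a`. Proof: `Sol.exists` with `R = 40 η a^{-1/2}`. -/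
theorem KB.ex : ∃ η₀ > 0, ∀ (B : Bg H) (b η : ℝ), G.KB B b η → 0 < η → η ≤ η₀ → ∀ a ∈ Ioc 0 b,
    ∃ x, G.Sol B a b (0, 0) x := by
  obtain ⟨η₀, h0, hap⟩ := KB.ap G
  refine ⟨η₀, h0, fun B b η hK hη hη0 a ha => ?_⟩
  have hsa : 0 < √a := Real.sqrt_pos.2 ha.1
  have hB := hK.cont a ha.1 ha.2
  refine Sol.exists ha.2 hB (R := 40 * η / √a) fun c hc x hx => ?_
  have hBc : B.Cont a c := (hK.mono (ha.1.trans_le hc.1) hc.2).cont a ha.1 hc.1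
  have h1 := hap B b η hK hη hη0 a ha c hc (0, 0) x hx rfl (by rw [map_zero, norm_zero]; exact hη.le)
    (by rw [norm_zero, mul_zero]; exact hη.le) c ⟨hc.1, le_rfl⟩
  obtain ⟨hq, -, -, -⟩ := Geo.Sol.eqh hx hBc hK.κ0 hK.κ1 hK.fc rfl hc.1
  have e : ‖x c‖ = ‖(x c).2‖ := by
    rw [Prod.norm_def, hq c ⟨hc.1, le_rfl⟩, norm_zero]
    exact max_eq_right (norm_nonneg _)
  rw [e, le_div_iff₀ hsa]
  have h2 : √a ≤ √c := Real.sqrt_le_sqrt hc.1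
  calc ‖(x c).2‖ * √a ≤ ‖(x c).2‖ * √c := mul_le_mul_of_nonneg_left h2 (norm_nonneg _)
    _ = √c * ‖(x c).2‖ := mul_comm _ _
    _ ≤ _ := h1.2

/-- The size of the difference of two vortex forces. -/
theorem L2C_dsrc : ∃ C, 0 ≤ C ∧ ∀ (B : Bg H) (b η : ℝ), G.KB B b η → ∀ r ∈ Ioc 0 b,
    ∀ (x y : HH H × HH H) (M N : ℝ), 0 ≤ M → 0 ≤ N → ‖Kh G.D.K x.2‖ ≤ M → √r * ‖x.2‖ ≤ M →
    √r * ‖y.2‖ ≤ M → ‖Kh G.D.K (x.2 - y.2)‖ ≤ N → √r * ‖x.2 - y.2‖ ≤ N →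
    ∀ τ, 0 < τ →
    ‖AS G.D.K τ (G.J3 (G.Pw (Ms G.ζ (cm G.a (G.Qd x.2 + B.gL r))) (G.uv B r x) (G.uw B r x) -
      G.Pw (Ms G.ζ (cm G.a (G.Qd y.2 + B.gL r))) (G.uv B r y) (G.uw B r y)))‖ ≤
      C * (M + η) * N * r ^ (-(3 / 4 : ℝ)) * τ ^ (-(3 / 4 : ℝ)) ∧
    ‖Kh G.D.K (AS G.D.K τ (G.J3 (G.Pw (Ms G.ζ (cm G.a (G.Qd x.2 + B.gL r))) (G.uv B r x) (G.uw B r x) -
      G.Pw (Ms G.ζ (cm G.a (G.Qd y.2 + B.gL r))) (G.uv B r y) (G.uw B r y))))‖ ≤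
      C * (M + η) * N * r ^ (-(3 / 4 : ℝ)) * τ ^ (-(1 / 4 : ℝ)) := by
  obtain ⟨C1, hC1, hP⟩ := G.Pw_ker
  obtain ⟨C2, hC2, hn⟩ := G.n1_vf
  obtain ⟨C3, hC3, hU⟩ := G.n1_U
  obtain ⟨D, hD, ho⟩ := L2C_om G
  obtain ⟨Q, hQ⟩ : ∃ Q, Q = ‖G.Qd‖ := ⟨_, rfl⟩
  have hQ0 : 0 ≤ Q := by rw [hQ]; exact norm_nonneg _
  have hQd : ∀ z, ‖G.Qd z‖ ≤ Q * ‖z‖ := fun z => by rw [hQ]; exact G.Qd.le_opNorm z
  refine ⟨C1 * (D * Q * (C2 + 1)) + C1 * (D * (Q + 1) * (C3 * √Q)), by positivity,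
    fun B b η hK r hr x y M N hM hN h1 h2 h3 h4 h5 τ hτ => ?_⟩
  have hη := hK.hη
  have hr0 := hr.1
  have p2 := Real.rpow_nonneg hr0.le (-(1 / 2 : ℝ))
  have p4 := Real.rpow_nonneg hr0.le (-(1 / 4 : ℝ))
  have e34 : r ^ (-(3 / 4 : ℝ)) = r ^ (-(1 / 2 : ℝ)) * r ^ (-(1 / 4 : ℝ)) := by
    rw [← Real.rpow_add hr0]; norm_num
  have hh := L2C_pow hr0 h2
  have hy := L2C_pow hr0 h3
  have hz := L2C_pow hr0 h5
  -- the velocity of `x`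
  obtain ⟨s1, n1b⟩ := hn B r x (hK.e1 r hr)
  have n2 := hK.e2 r hr
  have n3 := L2C_sqrt hr0 hM (norm_nonneg _) h1 hh
  have hNx : n1 (G.vf B r x) (G.wf B r x) ≤ (C2 + 1) * (M + η) * r ^ (-(1 / 4 : ℝ)) := by
    have a1 : C2 * √(‖Kh G.D.K x.2‖ * ‖x.2‖) ≤ C2 * (M * r ^ (-(1 / 4 : ℝ))) :=
      mul_le_mul_of_nonneg_left n3 hC2
    have a2 : 0 ≤ C2 * η * r ^ (-(1 / 4 : ℝ)) := by positivity
    have a3 : 0 ≤ M * r ^ (-(1 / 4 : ℝ)) := by positivity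
    calc n1 (G.vf B r x) (G.wf B r x) ≤ C2 * (M * r ^ (-(1 / 4 : ℝ))) + η * r ^ (-(1 / 4 : ℝ)) := by
          linarith
      _ ≤ _ := by nlinarith
  -- the vorticity of `y`
  have hOy : ‖Ms G.ζ (cm G.a (G.Qd y.2 + B.gL r))‖ ≤ D * (Q + 1) * (M + η) * r ^ (-(1 / 2 : ℝ)) := by
    have b1 : ‖G.Qd y.2 + B.gL r‖ ≤ (Q + 1) * (M + η) * r ^ (-(1 / 2 : ℝ)) := by
      have q1 : ‖G.Qd y.2‖ ≤ Q * (M * r ^ (-(1 / 2 : ℝ))) :=
        (hQd y.2).trans (mul_le_mul_of_nonneg_left hy hQ0)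
      have q2 := hK.g r hr
      have q3 : 0 ≤ Q * η * r ^ (-(1 / 2 : ℝ)) := by positivity
      have q4 : 0 ≤ M * r ^ (-(1 / 2 : ℝ)) := by positivity
      calc ‖G.Qd y.2 + B.gL r‖ ≤ Q * (M * r ^ (-(1 / 2 : ℝ))) + η * r ^ (-(1 / 2 : ℝ)) :=
            (norm_add_le _ _).trans (add_le_add q1 q2)
        _ ≤ _ := by nlinarith
    calc _ ≤ D * ((Q + 1) * (M + η) * r ^ (-(1 / 2 : ℝ))) :=
          (ho _).trans (mul_le_mul_of_nonneg_left b1 hD)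
      _ = _ := by ring
  -- the difference of the vorticities
  have hOz : ‖Ms G.ζ (cm G.a (G.Qd (x.2 - y.2)))‖ ≤ D * Q * N * r ^ (-(1 / 2 : ℝ)) := by
    have b1 : ‖G.Qd (x.2 - y.2)‖ ≤ Q * (N * r ^ (-(1 / 2 : ℝ))) :=
      (hQd _).trans (mul_le_mul_of_nonneg_left hz hQ0)
    calc _ ≤ D * (Q * (N * r ^ (-(1 / 2 : ℝ)))) := (ho _).trans (mul_le_mul_of_nonneg_left b1 hD)
      _ = _ := by ring
  -- the difference of the velocities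
  obtain ⟨su, nu⟩ := hU (G.Qd (x.2 - y.2))
  have nu' : n1 (uV G.ω (Vf G.ω (G.Qd (x.2 - y.2)))) (wV G.ω (Vf G.ω (G.Qd (x.2 - y.2)))) ≤
      C3 * √Q * N * r ^ (-(1 / 4 : ℝ)) := by
    have c1 : √(‖TT G.ω (G.Qd (x.2 - y.2))‖ * ‖G.Qd (x.2 - y.2)‖) ≤
        √Q * √(‖Kh G.D.K (x.2 - y.2)‖ * ‖x.2 - y.2‖) := by
      rw [← Real.sqrt_mul hQ0, G.TT_Qd]
      refine Real.sqrt_le_sqrt ?_
      calc ‖Kh G.D.K (x.2 - y.2)‖ * ‖G.Qd (x.2 - y.2)‖ ≤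
          ‖Kh G.D.K (x.2 - y.2)‖ * (Q * ‖x.2 - y.2‖) :=
            mul_le_mul_of_nonneg_left (hQd _) (norm_nonneg _)
        _ = _ := by ring
    have c2 := L2C_sqrt hr0 hN (norm_nonneg _) h4 hz
    have sq := Real.sqrt_nonneg Q
    calc _ ≤ C3 * √(‖TT G.ω (G.Qd (x.2 - y.2))‖ * ‖G.Qd (x.2 - y.2)‖) := nu
      _ ≤ C3 * (√Q * (N * r ^ (-(1 / 4 : ℝ)))) :=
          mul_le_mul_of_nonneg_left (c1.trans (mul_le_mul_of_nonneg_left c2 sq)) hC3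
      _ = _ := by ring
  have eu : hf G.lam (UV G.ω G.lam (G.Qd (x.2 - y.2))) = uV G.ω (Vf G.ω (G.Qd (x.2 - y.2))) :=
    funext fun n => G.hf_UV _ n
  have ew : hf G.lam (UW G.ω G.lam (G.Qd (x.2 - y.2))) = wV G.ω (Vf G.ω (G.Qd (x.2 - y.2))) :=
    funext fun n => G.hf_UW _ n
  have d1 : G.uv B r x = G.uv B r y + UV G.ω G.lam (G.Qd (x.2 - y.2)) := by
    show UV G.ω G.lam (G.Qd x.2 + B.gL r) + B.ve r =
      (UV G.ω G.lam (G.Qd y.2 + B.gL r) + B.ve r) + _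
    rw [map_add, map_add, map_sub, map_sub]; abel
  have d2 : G.uw B r x = G.uw B r y + UW G.ω G.lam (G.Qd (x.2 - y.2)) := by
    show UW G.ω G.lam (G.Qd x.2 + B.gL r) + B.we r =
      (UW G.ω G.lam (G.Qd y.2 + B.gL r) + B.we r) + _
    rw [map_add, map_add, map_sub, map_sub]; abel
  have d3 : Ms G.ζ (cm G.a (G.Qd x.2 + B.gL r)) =
      Ms G.ζ (cm G.a (G.Qd (x.2 - y.2))) + Ms G.ζ (cm G.a (G.Qd y.2 + B.gL r)) := by
    rw [← map_add, ← map_add, map_sub G.Qd]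
    congr 2; abel
  have eP : G.Pw (Ms G.ζ (cm G.a (G.Qd x.2 + B.gL r))) (G.uv B r x) (G.uw B r x) -
      G.Pw (Ms G.ζ (cm G.a (G.Qd y.2 + B.gL r))) (G.uv B r y) (G.uw B r y) =
      G.Pw (Ms G.ζ (cm G.a (G.Qd (x.2 - y.2)))) (G.uv B r x) (G.uw B r x) +
      G.Pw (Ms G.ζ (cm G.a (G.Qd y.2 + B.gL r))) (UV G.ω G.lam (G.Qd (x.2 - y.2)))
        (UW G.ω G.lam (G.Qd (x.2 - y.2))) := by
    have l1 : ∀ o o' v w, G.Pw (o + o') v w = G.Pw o v w + G.Pw o' v w := fun o o' v w => by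
      show -(Xz G.ω (prd G.pw (o + o') w) + Xy G.ω (prd G.pw (o + o') v)) =
        -(Xz G.ω (prd G.pw o w) + Xy G.ω (prd G.pw o v)) +
        -(Xz G.ω (prd G.pw o' w) + Xy G.ω (prd G.pw o' v))
      rw [map_add (prd G.pw), add_apply, add_apply, map_add (Xz G.ω), map_add (Xy G.ω)]
      abel
    have l2 : ∀ o v w v' w', G.Pw o (v + v') (w + w') = G.Pw o v w + G.Pw o v' w' :=
      fun o v w v' w' => by
      show -(Xz G.ω (prd G.pw o (w + w')) + Xy G.ω (prd G.pw o (v + v'))) =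
        -(Xz G.ω (prd G.pw o w) + Xy G.ω (prd G.pw o v)) +
        -(Xz G.ω (prd G.pw o w') + Xy G.ω (prd G.pw o v'))
      rw [map_add (prd G.pw o), map_add (prd G.pw o), map_add (Xz G.ω), map_add (Xy G.ω)]
      abel
    conv_lhs => rw [d3, l1]
    conv_lhs => enter [1, 2]; rw [d1, d2]
    rw [l2]
    abel
  have hp1 : C1 * ‖Ms G.ζ (cm G.a (G.Qd (x.2 - y.2)))‖ * n1 (G.vf B r x) (G.wf B r x) ≤
      C1 * (D * Q * (C2 + 1)) * (M + η) * N * r ^ (-(3 / 4 : ℝ)) := by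
    calc _ ≤ C1 * (D * Q * N * r ^ (-(1 / 2 : ℝ))) * ((C2 + 1) * (M + η) * r ^ (-(1 / 4 : ℝ))) :=
          mul_le_mul (mul_le_mul_of_nonneg_left hOz hC1) hNx (n1_nonneg _ _) (by positivity)
      _ = _ := by rw [e34]; ring
  have hp2 : C1 * ‖Ms G.ζ (cm G.a (G.Qd y.2 + B.gL r))‖ *
      n1 (uV G.ω (Vf G.ω (G.Qd (x.2 - y.2)))) (wV G.ω (Vf G.ω (G.Qd (x.2 - y.2)))) ≤
      C1 * (D * (Q + 1) * (C3 * √Q)) * (M + η) * N * r ^ (-(3 / 4 : ℝ)) := by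
    calc _ ≤ C1 * (D * (Q + 1) * (M + η) * r ^ (-(1 / 2 : ℝ))) *
          (C3 * √Q * N * r ^ (-(1 / 4 : ℝ))) :=
          mul_le_mul (mul_le_mul_of_nonneg_left hOy hC1) nu' (n1_nonneg _ _) (by positivity)
      _ = _ := by rw [e34]; ring
  obtain ⟨k1, k2⟩ := hP (Ms G.ζ (cm G.a (G.Qd (x.2 - y.2)))) (G.uv B r x) (G.uw B r x) s1 τ hτ
  obtain ⟨k3, k4⟩ := hP (Ms G.ζ (cm G.a (G.Qd y.2 + B.gL r))) (UV G.ω G.lam (G.Qd (x.2 - y.2)))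
    (UW G.ω G.lam (G.Qd (x.2 - y.2))) (by rw [eu, ew]; exact su) τ hτ
  rw [eu, ew] at k3 k4
  have t3 := Real.rpow_nonneg hτ.le (-(3 / 4 : ℝ))
  have t4 := Real.rpow_nonneg hτ.le (-(1 / 4 : ℝ))
  rw [eP]
  clear eP d1 d2 d3 eu ew ho hn hU hP hQd s1 su
  obtain ⟨P1, e1⟩ : ∃ P, P = G.Pw (Ms G.ζ (cm G.a (G.Qd (x.2 - y.2)))) (G.uv B r x) (G.uw B r x) :=
    ⟨_, rfl⟩
  obtain ⟨P2, e2⟩ : ∃ P, P = G.Pw (Ms G.ζ (cm G.a (G.Qd y.2 + B.gL r)))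
      (UV G.ω G.lam (G.Qd (x.2 - y.2))) (UW G.ω G.lam (G.Qd (x.2 - y.2))) := ⟨_, rfl⟩
  rw [← e1] at k1 k2 ⊢
  rw [← e2] at k3 k4 ⊢
  have f1 : AS G.D.K τ (G.J3 (P1 + P2)) = AS G.D.K τ (G.J3 P1) + AS G.D.K τ (G.J3 P2) := by
    rw [map_add G.J3, map_add (AS G.D.K τ)]
  have f2 : Kh G.D.K (AS G.D.K τ (G.J3 (P1 + P2))) =
      Kh G.D.K (AS G.D.K τ (G.J3 P1)) + Kh G.D.K (AS G.D.K τ (G.J3 P2)) := by
    rw [f1, map_add (Kh G.D.K)]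
  rw [f2, f1]
  constructor
  · refine (norm_add_le _ _).trans ((add_le_add (k1.trans (mul_le_mul_of_nonneg_right hp1 t3))
      (k3.trans (mul_le_mul_of_nonneg_right hp2 t3))).trans (le_of_eq ?_))
    ring
  · refine (norm_add_le _ _).trans ((add_le_add (k2.trans (mul_le_mul_of_nonneg_right hp1 t4))
      (k4.trans (mul_le_mul_of_nonneg_right hp2 t4))).trans (le_of_eq ?_))
    ring

/-- **Differences.** Proof: `z = x - y` solves the linear equation with the source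
`f3 x - f3 y = Pw (om x - om y) u_x + Pw (om y) (u_x - u_y)`, of size `≤ C (80 η + 2 η) N r^{-3/4}`,
`N = sup max(‖Kh z‖, √t ‖z‖)` over `[a, c]`; `kato_lin` with `F = 0`. -/
theorem KB.diff : ∃ η₀ > 0, ∀ (B : Bg H) (b η : ℝ), G.KB B b η → 0 < η → η ≤ η₀ → ∀ a ∈ Ioc 0 b,
    ∀ (x₀ y₀ : HH H × HH H) (x y : ℝ → HH H × HH H), G.Sol B a b x₀ x → G.Sol B a b y₀ y →
    x₀.1 = 0 → y₀.1 = 0 →
    (∀ t ∈ Icc a b, ‖Kh G.D.K (x t).2‖ ≤ 40 * η ∧ √t * ‖(x t).2‖ ≤ 40 * η) →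
    (∀ t ∈ Icc a b, ‖Kh G.D.K (y t).2‖ ≤ 40 * η ∧ √t * ‖(y t).2‖ ≤ 40 * η) →
    ∀ δ, ‖Kh G.D.K (x₀.2 - y₀.2)‖ ≤ δ → √a * ‖x₀.2 - y₀.2‖ ≤ δ →
    ∀ t ∈ Icc a b, ‖Kh G.D.K ((x t).2 - (y t).2)‖ ≤ 40 * δ ∧ √t * ‖(x t).2 - (y t).2‖ ≤ 40 * δ := by
  obtain ⟨C, hC, hsrc⟩ := L2C_dsrc G
  obtain ⟨Ck, hCk⟩ := G.kerL
  refine ⟨1 / (1640 * (C + 1)), by positivity,
    fun B b η hK hη hη0 a ha x₀ y₀ x y hx hy hx0 hy0 bx by' δ h1 h2 => ?_⟩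
  have hδ : 0 ≤ δ := (norm_nonneg _).trans h1
  have hB := hK.cont a ha.1 ha.2
  have hab := ha.2
  obtain ⟨-, ex0, hfx, hmx⟩ := Geo.Sol.eqh hx hB hK.κ0 hK.κ1 hK.fc hx0 ha.2
  obtain ⟨-, ey0, hfy, hmy⟩ := Geo.Sol.eqh hy hB hK.κ0 hK.κ1 hK.fc hy0 ha.2
  have cfx : ContinuousOn (fun r => G.f3 B r (x r)) (Icc a b) :=
    (continuous_fst.comp continuous_snd).comp_continuousOn (Phi_cont (G := G) hB hx.cont)
  have cfy : ContinuousOn (fun r => G.f3 B r (y r)) (Icc a b) :=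
    (continuous_fst.comp continuous_snd).comp_continuousOn (Phi_cont (G := G) hB hy.cont)
  have cz : ContinuousOn (fun t => (x t).2 - (y t).2) (Icc a b) :=
    (continuous_snd.comp_continuousOn hx.cont).sub (continuous_snd.comp_continuousOn hy.cont)
  have cφ : ContinuousOn (fun t => max ‖Kh G.D.K ((x t).2 - (y t).2)‖
      (√t * ‖(x t).2 - (y t).2‖)) (Icc a b) :=
    (continuous_fst.max continuous_snd).comp_continuousOn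
      ((((Kh G.D.K).continuous.comp_continuousOn cz).norm).prodMk
        ((Real.continuous_sqrt.continuousOn).mul cz.norm))
  obtain ⟨t0, ht0, hmax⟩ := isCompact_Icc.exists_isMaxOn (nonempty_Icc.2 ha.2) cφ
  obtain ⟨N, hN⟩ : ∃ N, N = max ‖Kh G.D.K ((x t0).2 - (y t0).2)‖ (√t0 * ‖(x t0).2 - (y t0).2‖) :=
    ⟨_, rfl⟩
  have hN0 : 0 ≤ N := by rw [hN]; exact (norm_nonneg _).trans (le_max_left _ _)
  have hbN : ∀ t ∈ Icc a b, ‖Kh G.D.K ((x t).2 - (y t).2)‖ ≤ N ∧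
      √t * ‖(x t).2 - (y t).2‖ ≤ N := fun t ht => by
    have h3 : max ‖Kh G.D.K ((x t).2 - (y t).2)‖ (√t * ‖(x t).2 - (y t).2‖) ≤ N := by
      rw [hN]; exact hmax ht
    exact ⟨(le_max_left _ _).trans h3, (le_max_right _ _).trans h3⟩
  have hz : ∀ t ∈ Icc a b, (x t).2 - (y t).2 = Sg G.D.K (t - a) ((x a).2 - (y a).2) +
      ∫ r in a..t, AS G.D.K (t - r) (G.J3 (G.f3 B r (x r) - G.f3 B r (y r)) + Kh G.D.K 0) := by
    intro t ht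
    have i1 := hCk.int_aux (cfx.prodMk hB.FL) ht (c := a) ⟨le_rfl, ht.1⟩
    have i2 := hCk.int_aux (cfy.prodMk hB.FL) ht (c := a) ⟨le_rfl, ht.1⟩
    have e3 : ∀ r, AS G.D.K (t - r) (G.J3 (G.f3 B r (x r) - G.f3 B r (y r)) + Kh G.D.K 0) =
        AS G.D.K (t - r) (G.J3 (G.f3 B r (x r)) + Kh G.D.K (B.FL r)) -
        AS G.D.K (t - r) (G.J3 (G.f3 B r (y r)) + Kh G.D.K (B.FL r)) := fun r => by
      rw [← map_sub, map_zero, add_zero, map_sub G.J3]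
      congr 1; abel
    rw [intervalIntegral.integral_congr fun r _ => e3 r]
    have e4 : ∫ r in a..t, (AS G.D.K (t - r) (G.J3 (G.f3 B r (x r)) + Kh G.D.K (B.FL r)) -
        AS G.D.K (t - r) (G.J3 (G.f3 B r (y r)) + Kh G.D.K (B.FL r))) =
        (∫ r in a..t, AS G.D.K (t - r) (G.J3 (G.f3 B r (x r)) + Kh G.D.K (B.FL r))) -
        ∫ r in a..t, AS G.D.K (t - r) (G.J3 (G.f3 B r (y r)) + Kh G.D.K (B.FL r)) :=
      intervalIntegral.integral_sub i1 i2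
    have e5 := hmx t ht
    have e6 := hmy t ht
    rw [e4, map_sub (Sg G.D.K (t - a)), e5, e6]
    abel
  obtain ⟨S, hS⟩ : ∃ S, S = C * (40 * η + η) * N := ⟨_, rfl⟩
  have hS0 : 0 ≤ S := by rw [hS]; positivity
  have hsub : ∀ t ∈ Icc a b, t ∈ Ioc 0 b := fun t ht => ⟨ha.1.trans_le ht.1, ht.2⟩
  have hk := kato_lin (σ := δ + S) G.D.K_nonneg G.D.K_injective hCk ha.1 ha.2 (by positivity)
    (cfx.sub cfy) (F := fun _ => 0) continuousOn_const (h := fun t => (x t).2 - (y t).2) hz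
    (by
      show ‖Kh G.D.K ((x a).2 - (y a).2)‖ ≤ _
      rw [ex0, ey0]; linarith)
    (by
      show √a * ‖(x a).2 - (y a).2‖ ≤ _
      rw [ex0, ey0]; linarith)
    (fun r hr τ hτ => by
      obtain ⟨k1, k2⟩ := hsrc B b η hK r (hsub r hr) (x r) (y r) (40 * η) N (by positivity) hN0
        (bx r hr).1 (bx r hr).2 (by' r hr).2 (hbN r hr).1 (hbN r hr).2 τ hτ
      rw [← (hfx r hr).1, ← (hfy r hr).1, ← hS] at k1 k2
      have p1 := Real.rpow_nonneg (hsub r hr).1.le (-(3 / 4 : ℝ))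
      have p2 := Real.rpow_nonneg hτ.le (-(3 / 4 : ℝ))
      have p3 := Real.rpow_nonneg hτ.le (-(1 / 4 : ℝ))
      have q1 : 0 ≤ δ * r ^ (-(3 / 4 : ℝ)) * τ ^ (-(3 / 4 : ℝ)) := by positivity
      have q2 : 0 ≤ δ * r ^ (-(3 / 4 : ℝ)) * τ ^ (-(1 / 4 : ℝ)) := by positivity
      constructor
      · refine k1.trans ?_
        rw [add_mul, add_mul]; linarith
      · refine k2.trans ?_
        rw [add_mul, add_mul]; linarith)
    (fun r hr => by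
      rw [norm_zero]
      have := inv_nonneg.2 (hsub r hr).1.le
      positivity)
    (by
      simp only [norm_zero, intervalIntegral.integral_zero]
      positivity)
  have hNle : N ≤ 20 * (δ + S) := by
    rw [hN]
    exact max_le (hk t0 ht0).1 (hk t0 ht0).2
  have hsm : 20 * S ≤ N / 2 := by
    have h3 : η * (1640 * (C + 1)) ≤ 1 := by
      rwa [le_div_iff₀ (by positivity)] at hη0
    have h4 : 1640 * C * η ≤ 1 := by nlinarith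
    rw [hS]
    have h5 : 1640 * C * η * N ≤ 1 * N := mul_le_mul_of_nonneg_right h4 hN0
    nlinarith
  have hN2 : N ≤ 40 * δ := by linarith
  exact fun t ht => ⟨(hbN t ht).1.trans hN2, (hbN t ht).2.trans hN2⟩

/-- Two solutions with zero data at the times `a, a' ≤ b'`. -/
theorem L2C_two : ∃ η₀ > 0, ∀ (B : Bg H) (b η : ℝ), G.KB B b η → 0 < η → η ≤ η₀ →
    ∀ (b' ε : ℝ), b' ∈ Ioc 0 b → 0 < ε → ε ≤ η₀ → G.KB B b' ε → ∀ a ∈ Ioc 0 b', ∀ a' ∈ Ioc 0 b',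
    ∀ (x y : ℝ → HH H × HH H), G.Sol B a b (0, 0) x → G.Sol B a' b (0, 0) y →
    ∀ t ∈ Icc (max a a') b, √t * ‖(x t).2 - (y t).2‖ ≤ 1600 * ε := by
  obtain ⟨η1, h1, hap⟩ := KB.ap G
  obtain ⟨η2, h2, hdf⟩ := KB.diff G
  refine ⟨min η1 η2, lt_min h1 h2, fun B b η hK hη hη0 b' ε hb' hε hε0 hKε => ?_⟩
  -- the case `a' ≤ a`
  have key : ∀ a ∈ Ioc 0 b', ∀ a' ∈ Ioc 0 b', a' ≤ a → ∀ (x y : ℝ → HH H × HH H),
      G.Sol B a b (0, 0) x → G.Sol B a' b (0, 0) y →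
      ∀ t ∈ Icc a b, √t * ‖(x t).2 - (y t).2‖ ≤ 1600 * ε := by
    intro a ha a' ha' haa x y hx hy t ht
    have hab : a ≤ b := ha.2.trans hb'.2
    have hab' : a' ≤ b := ha'.2.trans hb'.2
    have hBa' := hK.cont a' ha'.1 hab'
    have z0 : ‖Kh G.D.K (0 : HH H)‖ ≤ η := by rw [map_zero, norm_zero]; exact hη.le
    have z1 : ∀ c : ℝ, √c * ‖(0 : HH H)‖ ≤ η := fun c => by rw [norm_zero, mul_zero]; exact hη.le
    have z0' : ‖Kh G.D.K (0 : HH H)‖ ≤ ε := by rw [map_zero, norm_zero]; exact hε.le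
    have z1' : ∀ c : ℝ, √c * ‖(0 : HH H)‖ ≤ ε := fun c => by rw [norm_zero, mul_zero]; exact hε.le
    have bx := hap B b η hK hη (hη0.trans (min_le_left _ _)) a ⟨ha.1, hab⟩ b ⟨hab, le_rfl⟩ _ x hx
      rfl z0 (z1 a)
    have by1 := hap B b η hK hη (hη0.trans (min_le_left _ _)) a' ⟨ha'.1, hab'⟩ b ⟨hab', le_rfl⟩ _ y hy
      rfl z0 (z1 a')
    have by2 := hap B b' ε hKε hε (hε0.trans (min_le_left _ _)) a' ha' b' ⟨ha'.2, le_rfl⟩ _ y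
      (hy.restrict hb'.2) rfl z0' (z1' a') a ⟨haa, ha.2⟩
    have hya : G.Sol B a b (y a) y := Geo.Sol.rest hy hBa' haa hab le_rfl
    obtain ⟨hq, -, -, -⟩ := Geo.Sol.eqh hy hBa' hK.κ0 hK.κ1 hK.fc rfl hab'
    have hd := hdf B b η hK hη (hη0.trans (min_le_right _ _)) a ⟨ha.1, hab⟩ (0, 0) (y a) x y hx hya
      rfl (hq a ⟨haa, hab⟩) bx (fun t ht => by1 t ⟨haa.trans ht.1, ht.2⟩) (40 * ε)
      (by
        show ‖Kh G.D.K (0 - (y a).2)‖ ≤ _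
        rw [zero_sub, map_neg, norm_neg]; exact by2.1)
      (by
        show √a * ‖0 - (y a).2‖ ≤ _
        rw [zero_sub, norm_neg]; exact by2.2) t ht
    linarith [hd.2]
  intro a ha a' ha' x y hx hy t ht
  rcases le_total a' a with h | h
  · exact key a ha a' ha' h x y hx hy t ⟨(le_max_left _ _).trans ht.1, ht.2⟩
  · have h3 := key a' ha' a ha h y x hy hx t ⟨(le_max_right _ _).trans ht.1, ht.2⟩
    rwa [norm_sub_rev] at h3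

/-- **The solution which starts at the time `0`** (limit of the solutions with zero data at the times `a_k → 0`;
they are real if the background is real). -/
theorem KB.limit : ∃ η₀ > 0, ∀ (B : Bg H) (b η : ℝ), G.KB B b η → 0 < η → η ≤ η₀ →
    (∀ ε > 0, ∃ b' ∈ Ioc 0 b, G.KB B b' ε) →
    ∃ h : ℝ → HH H, (∀ a ∈ Ioc 0 b, G.Sol B a b (0, h a) fun t => (0, h t)) ∧
      (∀ b' η', b' ≤ b → 0 < η' → η' ≤ η₀ → G.KB B b' η' → ∀ t ∈ Ioc 0 b',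
        ‖Kh G.D.K (h t)‖ ≤ 40 * η' ∧ √t * ‖h t‖ ≤ 40 * η') ∧
      ((∀ t ∈ Ioc 0 b, BRe B t) → ∀ t ∈ Ioc 0 b, Rl (h t)) := by
  obtain ⟨η1, h1, hap⟩ := KB.ap G
  obtain ⟨η2, h2, hex⟩ := KB.ex G
  obtain ⟨η3, h3, htwo⟩ := L2C_two G
  obtain ⟨η₀, hη₀⟩ : ∃ η₀, η₀ = min η1 (min η2 η3) := ⟨_, rfl⟩
  have m1 : η₀ ≤ η1 := by rw [hη₀]; exact min_le_left _ _
  have m2 : η₀ ≤ η2 := by rw [hη₀]; exact (min_le_right _ _).trans (min_le_left _ _)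
  have m3 : η₀ ≤ η3 := by rw [hη₀]; exact (min_le_right _ _).trans (min_le_right _ _)
  have hpos : 0 < η₀ := by rw [hη₀]; exact lt_min h1 (lt_min h2 h3)
  refine ⟨η₀, hpos, fun B b η hK hη hη0 hsmall => ?_⟩
  have hb := hK.hb
  -- the starting times
  obtain ⟨A, hA⟩ : ∃ A : ℕ → ℝ, A = fun k : ℕ => b / ((k : ℝ) + 1) := ⟨_, rfl⟩
  have hA0 : ∀ k, A k ∈ Ioc 0 b := fun k => by
    rw [hA]
    have hk : (0:ℝ) < k + 1 := by positivity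
    refine ⟨by positivity, ?_⟩
    rw [div_le_iff₀ hk]
    nlinarith [hb, (Nat.cast_nonneg k : (0:ℝ) ≤ k)]
  have hAt : Tendsto A atTop (𝓝 0) := by
    rw [hA]
    exact tendsto_const_div_atTop_nhds_zero_nat b |>.comp (tendsto_add_atTop_nat 1) |>.congr
      fun k => by simp
  choose x hx using fun k => hex B b η hK hη (hη0.trans m2) (A k) (hA0 k)
  have z0 : ∀ ε : ℝ, 0 < ε → ‖Kh G.D.K (0 : HH H)‖ ≤ ε := fun ε hε => by
    rw [map_zero, norm_zero]; exact hε.le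
  have z1 : ∀ ε : ℝ, 0 < ε → ∀ c : ℝ, √c * ‖(0 : HH H)‖ ≤ ε := fun ε hε c => by
    rw [norm_zero, mul_zero]; exact hε.le
  -- uniform Cauchy property
  have hcau : ∀ a ∈ Ioc 0 b, UniformCauchySeqOn (fun k t => (x k t).2) atTop (Icc a b) := by
    intro a ha
    rw [Metric.uniformCauchySeqOn_iff]
    intro ε hε
    have hsa : 0 < √a := Real.sqrt_pos.2 ha.1
    obtain ⟨ε', hε'⟩ : ∃ ε', ε' = min η₀ (ε * √a / 3200) := ⟨_, rfl⟩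
    have e0 : 0 < ε' := by rw [hε']; exact lt_min hpos (by positivity)
    have e1 : ε' ≤ η₀ := by rw [hε']; exact min_le_left _ _
    have e2 : 1600 * ε' ≤ ε * √a / 2 := by
      have : ε' ≤ ε * √a / 3200 := by rw [hε']; exact min_le_right _ _
      linarith
    obtain ⟨b', hb', hKb'⟩ := hsmall ε' e0
    have hev : ∀ᶠ k in atTop, A k < min a b' :=
      hAt.eventually (gt_mem_nhds (lt_min ha.1 hb'.1))
    obtain ⟨K, hKK⟩ := eventually_atTop.1 hev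
    refine ⟨K, fun m hm n hn t ht => ?_⟩
    have am := hKK m hm
    have an := hKK n hn
    have h4 := htwo B b η hK hη (hη0.trans m3) b' ε' hb' e0 (e1.trans m3) hKb' (A m)
      ⟨(hA0 m).1, am.le.trans (min_le_right _ _)⟩ (A n) ⟨(hA0 n).1, an.le.trans (min_le_right _ _)⟩
      (x m) (x n) (hx m) (hx n) t
      ⟨max_le (am.le.trans ((min_le_left _ _).trans ht.1)) (an.le.trans ((min_le_left _ _).trans ht.1)),
        ht.2⟩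
    rw [dist_eq_norm]
    have h5 : √a ≤ √t := Real.sqrt_le_sqrt ht.1
    have h6 : √a * ‖(x m t).2 - (x n t).2‖ ≤ ε * √a / 2 :=
      (mul_le_mul_of_nonneg_right h5 (norm_nonneg _)).trans (h4.trans e2)
    have h7 : ‖(x m t).2 - (x n t).2‖ ≤ ε / 2 := by
      refine le_of_mul_le_mul_left (h6.trans (le_of_eq ?_)) hsa
      ring
    linarith
  -- the limit
  have hlim : ∀ t ∈ Ioc 0 b, ∃ l, Tendsto (fun k => (x k t).2) atTop (𝓝 l) := fun t ht =>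
    cauchySeq_tendsto_of_complete ((hcau t ht).cauchySeq ⟨le_rfl, ht.2⟩)
  classical
  choose! h hh using hlim
  have hunif : ∀ a ∈ Ioc 0 b, TendstoUniformlyOn (fun k t => (x k t).2) h atTop (Icc a b) :=
    fun a ha => (hcau a ha).tendstoUniformlyOn_of_tendsto fun t ht =>
      hh t ⟨ha.1.trans_le ht.1, ht.2⟩
  have hevA : ∀ a ∈ Ioc 0 b, ∃ K, ∀ k, K ≤ k → A k ≤ a := fun a ha => by
    obtain ⟨K, hKK⟩ := eventually_atTop.1 (hAt.eventually (gt_mem_nhds ha.1))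
    exact ⟨K, fun k hk => (hKK k hk).le⟩
  refine ⟨h, fun a ha => ?_, fun b' η' hbb hη' hη'0 hK' t ht => ?_, fun hre t ht => ?_⟩
  · obtain ⟨K, hKK⟩ := hevA a ha
    have hBa := hK.cont a ha.1 ha.2
    have hsol : ∀ k, G.Sol B a b (x (k + K) a) (x (k + K)) := fun k =>
      Geo.Sol.rest (hx (k + K)) (hK.cont _ (hA0 _).1 (hA0 _).2) (hKK _ (Nat.le_add_left _ _)) ha.2
        le_rfl
    have hq : ∀ k, ∀ t ∈ Icc a b, (x (k + K) t).1 = 0 := fun k t ht => by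
      obtain ⟨hq, -, -, -⟩ := Geo.Sol.eqh (hx (k + K)) (hK.cont _ (hA0 _).1 (hA0 _).2) hK.κ0 hK.κ1
        hK.fc rfl (hA0 _).2
      exact hq t ⟨(hKK _ (Nat.le_add_left _ _)).trans ht.1, ht.2⟩
    refine Geo.Sol.lim (y := fun t => (0, h t)) ha.2 hBa hsol ?_
    rw [Metric.tendstoUniformlyOn_iff]
    intro ε hε
    have h4 := (Metric.tendstoUniformlyOn_iff.1 (hunif a ha) ε hε)
    have h5 := (tendsto_add_atTop_nat K).eventually h4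
    filter_upwards [h5] with k hk t ht
    have h6 := hk t ht
    rw [Prod.dist_eq, hq k t ht, dist_self]
    exact max_lt hε h6
  · have ht' : t ∈ Ioc 0 b := ⟨ht.1, ht.2.trans hbb⟩
    obtain ⟨K, hKK⟩ := hevA t ht'
    have hb0 : 0 < b' := hK'.hb
    have hbd : ∀ᶠ k in atTop, ‖Kh G.D.K (x k t).2‖ ≤ 40 * η' ∧ √t * ‖(x k t).2‖ ≤ 40 * η' := by
      filter_upwards [eventually_ge_atTop K] with k hk
      have hAk := hKK k hk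
      exact hap B b' η' hK' hη' (hη'0.trans m1) (A k) ⟨(hA0 k).1, hAk.trans ht.2⟩ b'
        ⟨hAk.trans ht.2, le_rfl⟩ _ (x k) ((hx k).restrict hbb) rfl (z0 _ hη') (z1 _ hη' _) t
        ⟨hAk, ht.2⟩
    have l1 := hh t ht'
    have l2 := (((Kh G.D.K).continuous.tendsto _).comp l1).norm
    have l3 := l1.norm.const_mul √t
    exact ⟨le_of_tendsto l2 (hbd.mono fun k hk => hk.1),
      le_of_tendsto l3 (hbd.mono fun k hk => hk.2)⟩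
  · obtain ⟨K, hKK⟩ := hevA t ht
    have hrl : ∀ᶠ k in atTop, cjX (x k t).2 = (x k t).2 := by
      filter_upwards [eventually_ge_atTop K] with k hk
      have h4 := Sol.reality (hx k) (hK.cont _ (hA0 _).1 (hA0 _).2)
        (fun s hs => hre s ⟨(hA0 k).1.trans_le hs.1, hs.2⟩) Rl_zero Rl_zero t ⟨hKK k hk, ht.2⟩
      exact (Rl_iff _).1 h4.2
    rw [Rl_iff]
    have l1 := hh t ht
    have l2 := (cjX (H := H)).continuous.continuousAt.tendsto.comp l1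
    exact tendsto_nhds_unique (l2.congr' hrl) l1

end Geo

end

end Pool.Agent.Lib.MP_79abb3_an.SC
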