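import Pool.Agent.Lib.MP_79abb3_an.SC.L2Ca
import Pool.Agent.Lib.MP_79abb3_an.SC.FlRl

/-!
Theorem C, stage for `L²` data: the energy inequality.
-/

set_option autoImplicit false
set_option linter.unusedSectionVars false

open MeasureTheory Set Filter Topology Function
open scoped ENNReal InnerProductSpace

namespace Pool.Agent.Lib.MP_79abb3_an.SC

open Pool.Agent.Lib.MP_79abb3_an.P25

section
variable {H : ℝ} [hH : Fact (0 < H)]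

/-- **Cancellation** `b(om, u[V]; V) = 0` for a real family `V`: `bf om (uV V) (wV V) (io V) =
T3 (io (uV V)) (wV V) om - T3 (io (wV V)) (uV V) om` (`tZ_io`, `tY_io`, `dp_pz`), and
`T3 (io v) w om = star (T3 om (cj w) (io v)) = star (T3 om w (io v)) = star (T3 om v (io w)) = T3 (io w) v om`
(`T3_conj`, `T3_swap`) for real `v`, `w`. -/
theorem bf_self (G : Geo H) (om : HH H) {g : HH H} (hr : Rl g) :
    bf G.ω om (uV G.ω (Vf G.ω g)) (wV G.ω (Vf G.ω g)) (TT G.ω g) = 0 := by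
  have h1 := G.lw.h1
  have hN : 0 ≤ G.N₀ := zero_le_one.trans G.hN
  obtain ⟨⟨sv, -⟩, ⟨sw, -⟩⟩ := vel_half (ω := G.ω) h1 hN G.lam_le g
  obtain ⟨v, hv⟩ : ∃ v, v = uV G.ω (Vf G.ω g) := ⟨_, rfl⟩
  obtain ⟨w, hw⟩ : ∃ w, w = wV G.ω (Vf G.ω g) := ⟨_, rfl⟩
  have cv : cj v = v := funext fun n => by
    show star (v (-n)) = v n
    rw [hv, uV_real G.ω hr, star_star]
  have cw : cj w = w := funext fun n => by
    show star (w (-n)) = w n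
    rw [hw, wV_real G.ω hr, star_star]
  have e1 : (⇑(TT G.ω g) : ℤ → Z2 H) = io (Vf G.ω g) := Tc_io _ _
  rw [← hv] at sv ⊢
  rw [← hw] at sw ⊢
  have s0 : S2 G.lam 0 (⇑om) := (S2l2 om).1
  have siv : S2 G.lam (1 / 4) (io v) :=
    (S2_mono h1 (by norm_num : (1 / 4 : ℝ) ≤ 1 / 2) (S2_iota h1 sv).1).1
  have siw : S2 G.lam (1 / 4) (io w) :=
    (S2_mono h1 (by norm_num : (1 / 4 : ℝ) ≤ 1 / 2) (S2_iota h1 sw).1).1
  have e2 : tZ G.ω (io (Vf G.ω g)) = io v := by rw [tZ_io, hv]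
  have e3 : tY G.ω (io (Vf G.ω g)) = fun n => -io w n := funext fun n => by rw [tY_io, hw]
  have e4 : dp (fun n => -io w n) (pz (⇑om) v) = -dp (io w) (pz (⇑om) v) := by
    unfold dp
    rw [← tsum_neg]
    exact tsum_congr fun n => inner_neg_left _ _
  have e5 : T3 (io v) w (⇑om) = T3 (io w) v (⇑om) := by
    have a1 := T3_conj (⇑om) w (io v)
    have a2 := T3_conj (⇑om) v (io w)
    rw [cw] at a1
    rw [cv] at a2
    have a3 : T3 (⇑om) w (io v) = T3 (⇑om) v (io w) := T3_swap (⇑om) w v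
    rw [a1, a2, a3]
  unfold bf
  rw [e1, e2, e3, e4, dp_pz G.pw s0 sw siv, dp_pz G.pw s0 sv siw, e5]
  ring

/-- Young's inequality for the energy. -/
theorem L2D_young {C h g N m : ℝ} (hC : 0 ≤ C) (hh : 0 ≤ h) (hg : 0 ≤ g) (hN : 0 ≤ N) (hm : 0 ≤ m) :
    C * (h + g) * N * √(m * h) ≤ 1 / 2 * h ^ 2 + g ^ 2 + 8 * C ^ 4 * m ^ 2 * N ^ 4 := by
  obtain ⟨s, hs⟩ : ∃ s, s = √h := ⟨_, rfl⟩
  obtain ⟨u, hu⟩ : ∃ u, u = √m := ⟨_, rfl⟩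
  obtain ⟨X, hX⟩ : ∃ X, X = C * N * u := ⟨_, rfl⟩
  have s0 : 0 ≤ s := by rw [hs]; exact Real.sqrt_nonneg _
  have u0 : 0 ≤ u := by rw [hu]; exact Real.sqrt_nonneg _
  have X0 : 0 ≤ X := by rw [hX]; positivity
  have hs2 : h = s ^ 2 := by rw [hs, Real.sq_sqrt hh]
  have hu2 : m = u ^ 2 := by rw [hu, Real.sq_sqrt hm]
  have e : √(m * h) = u * s := by rw [Real.sqrt_mul hm, ← hs, ← hu]
  have e1 : C * (h + g) * N * √(m * h) = X * s ^ 3 + X * g * s := by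
    rw [e, hs2, hX]; ring
  have e2 : 8 * C ^ 4 * m ^ 2 * N ^ 4 = 8 * X ^ 4 := by rw [hu2, hX]; ring
  rw [e1, e2, hs2]
  have k1 : X * s ^ 3 ≤ 1 / 4 * s ^ 4 + 27 / 4 * X ^ 4 := by
    have h1 : 0 ≤ (s - 3 * X) ^ 2 * (s ^ 2 + 2 * X * s + 3 * X ^ 2) := by positivity
    nlinarith [h1]
  have k2 : X * g * s ≤ g ^ 2 + 1 / 4 * (X * s) ^ 2 := by
    nlinarith [sq_nonneg (g - 1 / 2 * (X * s))]
  have k3 : 1 / 4 * (X * s) ^ 2 ≤ 1 / 4 * s ^ 4 + 1 / 16 * X ^ 4 := by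
    nlinarith [sq_nonneg (s ^ 2 - 1 / 2 * X ^ 2)]
  have k4 : 0 ≤ X ^ 4 := by positivity
  nlinarith [k1, k2, k3, k4]

/-- The vortex force tested with `h`: only the background velocity contributes. -/
theorem L2D_src (G : Geo H) : ∃ C, 0 ≤ C ∧ ∀ (B : Bg H) (t : ℝ) (h : HH H), Rl h →
    Sm1 (G.vf B t 0) (G.wf B t 0) →
    ‖⟪LT G.ω G.lam (1 / 4) (G.Qd h), G.Pw (Ms G.ζ (cm G.a (G.Qd h + B.gL t)))
      (G.uv B t (0, h)) (G.uw B t (0, h))⟫_ℂ‖ ≤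
      C * (‖h‖ + ‖B.gL t‖) * n1 (G.vf B t 0) (G.wf B t 0) * √(‖Kh G.D.K h‖ * ‖h‖) := by
  obtain ⟨C1, hC1, hP⟩ := G.Pw_sharp
  obtain ⟨D, hD⟩ : ∃ D, D = ‖(Ms G.ζ : HH H →L[ℂ] HH H)‖ * ‖(cm G.a : HH H →L[ℂ] HH H)‖ *
    (‖G.Qd‖ + 1) := ⟨_, rfl⟩
  have hD0 : 0 ≤ D := by rw [hD]; positivity
  refine ⟨C1 * D * √‖G.Qd‖, by positivity, fun B t h hr hs => ?_⟩
  obtain ⟨om, hom⟩ : ∃ om, om = Ms G.ζ (cm G.a (G.Qd h + B.gL t)) := ⟨_, rfl⟩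
  have e1 : G.uv B t (0, h) = UV G.ω G.lam (G.Qd h) + G.uv B t 0 := by
    show UV G.ω G.lam (G.Qd h + B.gL t) + B.ve t =
      UV G.ω G.lam (G.Qd h) + (UV G.ω G.lam (G.Qd (0 : HH H) + B.gL t) + B.ve t)
    rw [map_zero G.Qd, zero_add, map_add, add_assoc]
  have e2 : G.uw B t (0, h) = UW G.ω G.lam (G.Qd h) + G.uw B t 0 := by
    show UW G.ω G.lam (G.Qd h + B.gL t) + B.we t =
      UW G.ω G.lam (G.Qd h) + (UW G.ω G.lam (G.Qd (0 : HH H) + B.gL t) + B.we t)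
    rw [map_zero G.Qd, zero_add, map_add, add_assoc]
  have e3 : G.Pw om (G.uv B t (0, h)) (G.uw B t (0, h)) =
      G.Pw om (UV G.ω G.lam (G.Qd h)) (UW G.ω G.lam (G.Qd h)) +
        G.Pw om (G.uv B t 0) (G.uw B t 0) := by
    rw [e1, e2]
    show -(Xz G.ω (prd G.pw om (_ + _)) + Xy G.ω (prd G.pw om (_ + _))) =
      -(Xz G.ω (prd G.pw om _) + Xy G.ω (prd G.pw om _)) +
      -(Xz G.ω (prd G.pw om _) + Xy G.ω (prd G.pw om _))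
    rw [map_add (prd G.pw om), map_add (prd G.pw om), map_add (Xz G.ω), map_add (Xy G.ω)]
    abel
  have e4 : ⟪LT G.ω G.lam (1 / 4) (G.Qd h), G.Pw om (UV G.ω G.lam (G.Qd h))
      (UW G.ω G.lam (G.Qd h))⟫_ℂ = 0 := by
    have e5 : hf G.lam (UV G.ω G.lam (G.Qd h)) = uV G.ω (Vf G.ω (G.Qd h)) :=
      funext fun n => G.hf_UV _ n
    have e6 : hf G.lam (UW G.ω G.lam (G.Qd h)) = wV G.ω (Vf G.ω (G.Qd h)) :=
      funext fun n => G.hf_UW _ n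
    rw [inner_LT_Pw, e5, e6]
    refine bf_self G om ?_
    rw [Rl_iff, G.cj_Qd, (Rl_iff h).1 hr]
  rw [← hom, e3, inner_add_right, e4, zero_add]
  refine (hP (G.Qd h) om (G.uv B t 0) (G.uw B t 0) hs).trans ?_
  have n0 := n1_nonneg (G.vf B t 0) (G.wf B t 0)
  have b1 : ‖om‖ ≤ D * (‖h‖ + ‖B.gL t‖) := by
    have c1 : ‖G.Qd h + B.gL t‖ ≤ (‖G.Qd‖ + 1) * (‖h‖ + ‖B.gL t‖) := by
      refine (norm_add_le _ _).trans ?_
      have := G.Qd.le_opNorm h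
      have q1 := norm_nonneg G.Qd
      have q2 := norm_nonneg h
      have q3 := norm_nonneg (B.gL t)
      nlinarith
    have c2 := (cm G.a : HH H →L[ℂ] HH H).le_opNorm (G.Qd h + B.gL t)
    have c3 := (Ms G.ζ : HH H →L[ℂ] HH H).le_opNorm (cm G.a (G.Qd h + B.gL t))
    rw [hom, hD]
    calc _ ≤ ‖(Ms G.ζ : HH H →L[ℂ] HH H)‖ * (‖(cm G.a : HH H →L[ℂ] HH H)‖ *
        ((‖G.Qd‖ + 1) * (‖h‖ + ‖B.gL t‖))) :=
          c3.trans (mul_le_mul_of_nonneg_left (c2.trans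
            (mul_le_mul_of_nonneg_left c1 (norm_nonneg _))) (norm_nonneg _))
      _ = _ := by ring
  have b2 : √(‖TT G.ω (G.Qd h)‖ * ‖G.Qd h‖) ≤ √‖G.Qd‖ * √(‖Kh G.D.K h‖ * ‖h‖) := by
    rw [← Real.sqrt_mul (norm_nonneg _), G.TT_Qd]
    refine Real.sqrt_le_sqrt ?_
    have := G.Qd.le_opNorm h
    calc ‖Kh G.D.K h‖ * ‖G.Qd h‖ ≤ ‖Kh G.D.K h‖ * (‖G.Qd‖ * ‖h‖) :=
          mul_le_mul_of_nonneg_left this (norm_nonneg _)
      _ = _ := by ring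
  have s1 := Real.sqrt_nonneg (‖TT G.ω (G.Qd h)‖ * ‖G.Qd h‖)
  calc C1 * ‖om‖ * n1 (G.vf B t 0) (G.wf B t 0) * √(‖TT G.ω (G.Qd h)‖ * ‖G.Qd h‖)
      ≤ C1 * (D * (‖h‖ + ‖B.gL t‖)) * n1 (G.vf B t 0) (G.wf B t 0) *
        (√‖G.Qd‖ * √(‖Kh G.D.K h‖ * ‖h‖)) := by
        refine mul_le_mul ?_ b2 s1 ?_
        · exact mul_le_mul_of_nonneg_right (mul_le_mul_of_nonneg_left b1 hC1) n0
        · have := norm_nonneg h
          have := norm_nonneg (B.gL t)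
          positivity
    _ = _ := by ring

/-- **Energy inequality**: `∫ |h|² < ∞`. Proof: `tst_W` and `Tst.energy_int` with `M = 1`, `p = h`:
`|W(b)|² - |W(a)|² = 2 ∫ Re (⟪LT Qd h, f3⟫ + ⟪W, F_L⟫ - |h|²)`; `⟪LT Qd h, f3⟫ = bf om v w W` (`inner_LT_Pw`), the
part of the velocity `u[W]` cancels (`bf_self`, `vf_split`), the rest is
`≤ C ‖om‖ n1(e) √(‖W‖ ‖h‖)` (`dp_pz_end`, `Geo.ninf`), `‖om‖ ≤ C (‖h‖ + ‖g_L‖)`, and by Young
`≤ (1/2) ‖h‖² + C (‖g_L‖² + n1(e)^4 ‖W‖²)`. -/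
theorem Geo.KB.energy (G : Geo H) {B : Bg H} {b η M R : ℝ} (hK : G.KB B b η) {h : ℝ → HH H}
    (hs : ∀ a ∈ Ioc 0 b, G.Sol B a b (0, h a) fun t => (0, h t)) (hr : ∀ t ∈ Ioc 0 b, Rl (h t))
    (hW : ∀ t ∈ Ioc 0 b, ‖Kh G.D.K (h t)‖ ≤ M)
    (hR : ∀ a ∈ Ioc 0 b, ∫ r in a..b, ‖B.gL r‖ ^ 2 ≤ R) (N : ℝ → ℝ) (hN : ∀ a ∈ Ioc 0 b, ContinuousOn N (Icc a b))
    (hN1 : ∀ r ∈ Ioc 0 b, n1 (G.vf B r 0) (G.wf B r 0) ≤ N r)
    (hN4 : ∀ a ∈ Ioc 0 b, ∫ r in a..b, N r ^ 4 ≤ R) :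
    ∃ R', ∀ a ∈ Ioc 0 b, ∫ r in a..b, ‖h r‖ ^ 2 ≤ R' := by
  obtain ⟨C, hC, hsrc⟩ := L2D_src G
  have hM0 : 0 ≤ M := (norm_nonneg _).trans (hW b ⟨hK.hb, le_rfl⟩)
  refine ⟨M ^ 2 + 2 * R + 16 * C ^ 4 * M ^ 2 * R + 2 * M * η, fun a ha => ?_⟩
  have hab : a ≤ b := ha.2
  have hB := hK.cont a ha.1 ha.2
  have hsa := hs a ha
  have hsub : ∀ t ∈ Icc a b, t ∈ Ioc 0 b := fun t ht => ⟨ha.1.trans_le ht.1, ht.2⟩
  have hhc : ContinuousOn h (Icc a b) := continuous_snd.comp_continuousOn hsa.cont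
  have hT : Tst G.D.K a b (fun t => Kh G.D.K (h t)) (fun t => G.lW B t (0, h t)) := by
    refine (Geo.Sol.tst_W hsa hB).congr (fun t _ => ?_) (fun t _ => rfl)
    exact (G.TT_Qd _).symm
  obtain ⟨-, -, hf34, -⟩ := Geo.Sol.eqh hsa hB hK.κ0 hK.κ1 hK.fc rfl hab
  have hE := hT.energy_int (M := 1) (fun _ _ => rfl) hhc (fun t _ => rfl) le_rfl hab le_rfl
  have hin : ∀ t ∈ Icc a b, (⟪h t, G.lW B t (0, h t)⟫_ℂ).re ≤
      -(1 / 2) * ‖h t‖ ^ 2 + ‖B.gL t‖ ^ 2 + 8 * C ^ 4 * M ^ 2 * N t ^ 4 + M * ‖B.FL t‖ := by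
    intro t ht
    have ht' := hsub t ht
    obtain ⟨f3, f4⟩ := hf34 t ht
    have e1 : ⟪h t, G.lW B t (0, h t)⟫_ℂ = ⟪LT G.ω G.lam (1 / 4) (G.Qd (h t)),
        G.Pw (Ms G.ζ (cm G.a (G.Qd (h t) + B.gL t))) (G.uv B t (0, h t)) (G.uw B t (0, h t))⟫_ℂ +
        ⟪Kh G.D.K (h t), B.FL t⟫_ℂ - ⟪h t, h t⟫_ℂ := by
      show ⟪h t, G.J3 (G.f3 B t (0, h t)) + G.J4 (G.f4 B t (0, h t)) - h t⟫_ℂ = _
      rw [inner_sub_right, inner_add_right, G.inner_J3, G.inner_J4, f3, f4, G.TT_Qd]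
    have n1' := hsrc B t (h t) (hr t ht') (hK.e1 t ht')
    have n2 := norm_inner_le_norm (𝕜 := ℂ) (Kh G.D.K (h t)) (B.FL t)
    have n3 : (⟪h t, h t⟫_ℂ).re = ‖h t‖ ^ 2 := by
      rw [inner_self_eq_norm_sq_to_K]; norm_cast
    have r1 := Complex.re_le_norm ⟪LT G.ω G.lam (1 / 4) (G.Qd (h t)),
        G.Pw (Ms G.ζ (cm G.a (G.Qd (h t) + B.gL t))) (G.uv B t (0, h t)) (G.uw B t (0, h t))⟫_ℂ
    have r2 := Complex.re_le_norm ⟪Kh G.D.K (h t), B.FL t⟫_ℂ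
    rw [e1, Complex.sub_re, Complex.add_re, n3]
    have hN0 : 0 ≤ N t := (n1_nonneg _ _).trans (hN1 t ht')
    have y1 : C * (‖h t‖ + ‖B.gL t‖) * n1 (G.vf B t 0) (G.wf B t 0) * √(‖Kh G.D.K (h t)‖ * ‖h t‖) ≤
        C * (‖h t‖ + ‖B.gL t‖) * N t * √(M * ‖h t‖) := by
      have q1 := norm_nonneg (h t)
      have q2 := norm_nonneg (B.gL t)
      have q3 := hN1 t ht'
      have q4 : √(‖Kh G.D.K (h t)‖ * ‖h t‖) ≤ √(M * ‖h t‖) :=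
        Real.sqrt_le_sqrt (mul_le_mul_of_nonneg_right (hW t ht') q1)
      exact mul_le_mul (mul_le_mul_of_nonneg_left q3 (by positivity)) q4 (Real.sqrt_nonneg _)
        (by positivity)
    have y2 := L2D_young hC (norm_nonneg (h t)) (norm_nonneg (B.gL t)) hN0 hM0
    have y3 : ‖Kh G.D.K (h t)‖ * ‖B.FL t‖ ≤ M * ‖B.FL t‖ :=
      mul_le_mul_of_nonneg_right (hW t ht') (norm_nonneg _)
    linarith
  have cI : IntervalIntegrable (fun t => (⟪h t, G.lW B t (0, h t)⟫_ℂ).re) volume a b := by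
    refine ContinuousOn.intervalIntegrable ?_
    rw [uIcc_of_le hab]
    exact Complex.continuous_re.comp_continuousOn (hhc.inner hT.cl)
  have i1 : IntervalIntegrable (fun t => ‖h t‖ ^ 2) volume a b := by
    refine ContinuousOn.intervalIntegrable ?_
    rw [uIcc_of_le hab]
    exact hhc.norm.pow 2
  have i2 : IntervalIntegrable (fun t => ‖B.gL t‖ ^ 2) volume a b := by
    refine ContinuousOn.intervalIntegrable ?_
    rw [uIcc_of_le hab]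
    exact hB.gL.norm.pow 2
  have i3 : IntervalIntegrable (fun t => N t ^ 4) volume a b := by
    refine ContinuousOn.intervalIntegrable ?_
    rw [uIcc_of_le hab]
    exact (hN a ha).pow 4
  have i4 : IntervalIntegrable (fun t => ‖B.FL t‖) volume a b := by
    refine ContinuousOn.intervalIntegrable ?_
    rw [uIcc_of_le hab]
    exact hB.FL.norm
  have i123 := (((i1.const_mul (-(1 / 2))).add i2).add (i3.const_mul (8 * C ^ 4 * M ^ 2))).add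
    (i4.const_mul M)
  have hI := intervalIntegral.integral_mono_on hab cI i123 fun t ht => hin t ht
  have hI2 : ∫ t in a..b, (-(1 / 2) * ‖h t‖ ^ 2 + ‖B.gL t‖ ^ 2 + 8 * C ^ 4 * M ^ 2 * N t ^ 4 +
      M * ‖B.FL t‖) = -(1 / 2) * (∫ t in a..b, ‖h t‖ ^ 2) + (∫ t in a..b, ‖B.gL t‖ ^ 2) +
      8 * C ^ 4 * M ^ 2 * (∫ t in a..b, N t ^ 4) + M * ∫ t in a..b, ‖B.FL t‖ := by
    rw [intervalIntegral.integral_add (((i1.const_mul _).add i2).add (i3.const_mul _))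
      (i4.const_mul _), intervalIntegral.integral_add ((i1.const_mul _).add i2) (i3.const_mul _),
      intervalIntegral.integral_add (i1.const_mul _) i2, intervalIntegral.integral_const_mul,
      intervalIntegral.integral_const_mul, intervalIntegral.integral_const_mul]
  have hI3 := hI.trans (le_of_eq hI2)
  have w1 : 0 ≤ (⟪Kh G.D.K (h b), Kh G.D.K (h b)⟫_ℂ).re := by
    rw [inner_self_eq_norm_sq_to_K]
    have := sq_nonneg ‖Kh G.D.K (h b)‖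
    norm_cast
  have w2 : (⟪Kh G.D.K (h a), Kh G.D.K (h a)⟫_ℂ).re ≤ M ^ 2 := by
    have e : (⟪Kh G.D.K (h a), Kh G.D.K (h a)⟫_ℂ).re = ‖Kh G.D.K (h a)‖ ^ 2 := by
      rw [inner_self_eq_norm_sq_to_K]; norm_cast
    rw [e]
    exact pow_le_pow_left₀ (norm_nonneg _) (hW a ha) 2
  have hE' : (⟪Kh G.D.K (h b), Kh G.D.K (h b)⟫_ℂ).re - (⟪Kh G.D.K (h a), Kh G.D.K (h a)⟫_ℂ).re =
      2 * ∫ r in a..b, (⟪h r, G.lW B r (0, h r)⟫_ℂ).re := hE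
  have t1 := hR a ha
  have t2 : 8 * C ^ 4 * M ^ 2 * (∫ t in a..b, N t ^ 4) ≤ 8 * C ^ 4 * M ^ 2 * R :=
    mul_le_mul_of_nonneg_left (hN4 a ha) (by positivity)
  have t3 : M * (∫ t in a..b, ‖B.FL t‖) ≤ M * η := mul_le_mul_of_nonneg_left (hK.F2 a ha) hM0
  linarith

end

end Pool.Agent.Lib.MP_79abb3_an.SC
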