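import Pool.Agent.Lib.MP_79abb3_an.SC.ExZ

/-!
Theorem C, stage for `L²` data: sums of backgrounds (with `κ = 0` and no control).
-/

set_option autoImplicit false
set_option linter.unusedSectionVars false

open MeasureTheory Set Filter Topology Function
open scoped ENNReal InnerProductSpace

namespace Pool.Agent.Lib.MP_79abb3_an.SC

open Pool.Agent.Lib.MP_79abb3_an.P25

section
variable {H : ℝ} [hH : Fact (0 < H)]

/-- Backgrounds which agree at the time `t`. -/
structure Bg.Eqt (B B' : Bg H) (t : ℝ) : Prop where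
  ve : B.ve t = B'.ve t
  we : B.we t = B'.we t
  gL : B.gL t = B'.gL t
  FL : B.FL t = B'.FL t
  fc : B.fc t = B'.fc t
  κ : B.κ t = B'.κ t
  κ1 : B.κ1 t = B'.κ1 t

/-- The velocity is multiplied by nothing: no weight and no control. -/
structure Bg.Nul (B : Bg H) : Prop where
  fc : ∀ t, B.fc t = 0
  κ : ∀ t, B.κ t = 0
  κ1 : ∀ t, B.κ1 t = 0

/-- Sum of two backgrounds (without weight and control). -/
noncomputable def Bg.ad (B B' : Bg H) : Bg H where
  ve t := B.ve t + B'.ve t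
  we t := B.we t + B'.we t
  gL t := B.gL t + B'.gL t
  FL t := B.FL t + B'.FL t
  fc _ := 0
  κ _ := 0
  κ1 _ := 0

theorem Bg.ad_nul (B B' : Bg H) : (B.ad B').Nul := ⟨fun _ => rfl, fun _ => rfl, fun _ => rfl⟩

variable {B B' : Bg H} {a b t : ℝ}

theorem Bg.Cont.congr (h : B.Cont a b) (e : ∀ t ∈ Icc a b, B.Eqt B' t) : B'.Cont a b where
  ve := h.ve.congr fun t ht => (e t ht).ve.symm
  we := h.we.congr fun t ht => (e t ht).we.symm
  gL := h.gL.congr fun t ht => (e t ht).gL.symm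
  FL := h.FL.congr fun t ht => (e t ht).FL.symm
  fc := h.fc.congr fun t ht => (e t ht).fc.symm
  κ := h.κ.congr fun t ht => (e t ht).κ.symm
  κ1 := h.κ1.congr fun t ht => (e t ht).κ1.symm

theorem Bg.Cont.ad (h : B.Cont a b) (h' : B'.Cont a b) : (B.ad B').Cont a b where
  ve := h.ve.add h'.ve
  we := h.we.add h'.we
  gL := h.gL.add h'.gL
  FL := h.FL.add h'.FL
  fc := continuousOn_const
  κ := continuousOn_const
  κ1 := continuousOn_const

theorem Geo.BRe.congr (h : Geo.BRe B t) (e : B.Eqt B' t) : Geo.BRe B' t where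
  ve := by rw [← e.ve]; exact h.ve
  we := by rw [← e.we]; exact h.we
  gL := by rw [← e.gL]; exact h.gL
  FL := by rw [← e.FL]; exact h.FL
  fc := by rw [← e.fc]; exact h.fc
  κ := by rw [← e.κ]; exact h.κ
  κ1 := by rw [← e.κ1]; exact h.κ1

theorem Geo.BRe.ad (h : Geo.BRe B t) (h' : Geo.BRe B' t) : Geo.BRe (B.ad B') t where
  ve := by
    show cjC (B.ve t + B'.ve t) = _
    rw [map_add, h.ve, h'.ve]; rfl
  we := by
    show cjC (B.we t + B'.we t) = _
    rw [map_add, h.we, h'.we]; rfl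
  gL := by
    show cjX (B.gL t + B'.gL t) = _
    rw [map_add, h.gL, h'.gL]; rfl
  FL := by
    show cjX (B.FL t + B'.FL t) = _
    rw [map_add, h.FL, h'.FL]; rfl
  fc := map_zero cjX
  κ := star_zero _
  κ1 := star_zero _

theorem Off.zero {ρ : ℝ} : Off ρ (0 : HH H) := fun _ _ => map_zero _

namespace Geo
variable {G : Geo H}

theorem Okt.congr (h : G.Okt B t) (e : B.Eqt B' t) : G.Okt B' t where
  div := by rw [← e.ve, ← e.we]; exact h.div
  κd := by rw [← e.κ, ← e.κ1]; exact h.κd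

theorem isD_zero : IsD (0 : CI H) 0 := fun _ _ => hasDerivWithinAt_const _ _ _

theorem Okt.ad (h : G.Okt B t) (h' : G.Okt B' t) : G.Okt (B.ad B') t where
  div n := by
    show DZ (hf G.lam (B.we t + B'.we t) n) (-(kI G.ω n) • (iota (hf G.lam (B.ve t + B'.ve t) n) : Z2 H))
    rw [hf_add, hf_add, map_add, smul_add]
    exact (h.div n).add (h'.div n)
  κd := isD_zero

theorem lL_congr (e : B.Eqt B' t) : G.lL B' t = G.lL B t := by
  unfold lL
  rw [e.gL, e.FL]

theorem lL_ad : G.lL (B.ad B') t = G.lL B t + G.lL B' t := by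
  show -(G.Qd.adjoint (cm G.a (B.gL t + B'.gL t))) - G.J4 (B.FL t + B'.FL t) =
    (-(G.Qd.adjoint (cm G.a (B.gL t))) - G.J4 (B.FL t)) +
      (-(G.Qd.adjoint (cm G.a (B'.gL t))) - G.J4 (B'.FL t))
  simp only [map_add]
  abel

theorem Lift.congr (h : G.Lift B a b) (e : ∀ t ∈ Icc a b, B.Eqt B' t) : G.Lift B' a b := by
  unfold Lift at h ⊢
  refine h.congr (fun t ht => ?_) (fun t ht => lL_congr (e t ht))
  rw [(e t ht).gL]

theorem Lift.ad (h : G.Lift B a b) (h' : G.Lift B' a b) : G.Lift (B.ad B') a b := by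
  unfold Lift at h h' ⊢
  refine (h.add h').congr (fun t ht => ?_) (fun t ht => lL_ad)
  exact map_add (TT G.ω) _ _

theorem BgM.congr (h : G.BgM B a b) (e : ∀ t ∈ Icc a b, B.Eqt B' t) : G.BgM B' a b where
  cont := h.cont.congr e
  lift := h.lift.congr e
  ok t ht := (h.ok t ht).congr (e t ht)
  curl t ht n := by rw [← (e t ht).ve, ← (e t ht).we]; exact h.curl t ht n
  fc t ht := by rw [← (e t ht).fc]; exact h.fc t ht
  re t ht := (h.re t ht).congr (e t ht)
  grad := by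
    obtain ⟨C, hC⟩ := h.grad
    refine ⟨C, fun t ht => ?_⟩
    rw [← (e t ht).ve, ← (e t ht).we]
    exact hC t ht
  l1 := by
    obtain ⟨v', w', V', h1, h2, h3, h4⟩ := h.l1
    refine ⟨v', w', V', h1, h2, h3, fun t ht n => ?_⟩
    rw [← (e t ht).ve, ← (e t ht).we, ← (e t ht).gL]
    exact h4 t ht n

theorem BgM.ad (h : G.BgM B a b) (h' : G.BgM B' a b) : G.BgM (B.ad B') a b where
  cont := h.cont.ad h'.cont
  lift := h.lift.ad h'.lift
  ok t ht := (h.ok t ht).ad (h'.ok t ht)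
  curl t ht n := by
    show DZ (hf G.lam (B.ve t + B'.ve t) n) (kI G.ω n • (iota (hf G.lam (B.we t + B'.we t) n) : Z2 H))
    rw [hf_add, hf_add, map_add, smul_add]
    exact (h.curl t ht n).add (h'.curl t ht n)
  fc t ht := Off.zero
  re t ht := (h.re t ht).ad (h'.re t ht)
  grad := by
    obtain ⟨C, hC⟩ := h.grad
    obtain ⟨C', hC'⟩ := h'.grad
    refine ⟨2 * (C + C'), fun t ht => ⟨?_, ?_⟩⟩
    · refine sq_add_bound (fun n => by positivity) (fun n => ?_) (hC t ht).1.1 (hC t ht).1.2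
        (hC' t ht).1.1 (hC' t ht).1.2
      show |G.ω * n| * ‖(iota (hf G.lam (B.ve t + B'.ve t) n) : Z2 H)‖ ≤ _
      rw [hf_add, map_add, ← mul_add]
      exact mul_le_mul_of_nonneg_left (norm_add_le _ _) (abs_nonneg _)
    · refine sq_add_bound (fun n => by positivity) (fun n => ?_) (hC t ht).2.1 (hC t ht).2.2
        (hC' t ht).2.1 (hC' t ht).2.2
      show |G.ω * n| * ‖(iota (hf G.lam (B.we t + B'.we t) n) : Z2 H)‖ ≤ _
      rw [hf_add, map_add, ← mul_add]
      exact mul_le_mul_of_nonneg_left (norm_add_le _ _) (abs_nonneg _)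
  l1 := by
    obtain ⟨v', w', V', h1, h2, h3, h4⟩ := h.l1
    obtain ⟨v'', w'', V'', k1, k2, k3, k4⟩ := h'.l1
    refine ⟨fun t => v' t + v'' t, fun t => w' t + w'' t, fun t => V' t + V'' t, h1.add k1,
      h2.add k2, h3.add k3, fun t ht n => ⟨?_, ?_, ?_⟩⟩
    · show (v' t + v'' t) n = hf G.lam (B.ve t + B'.ve t) n
      rw [hf_add, lp.coeFn_add, Pi.add_apply, (h4 t ht n).1, (k4 t ht n).1]
    · show (w' t + w'' t) n = hf G.lam (B.we t + B'.we t) n
      rw [hf_add, lp.coeFn_add, Pi.add_apply, (h4 t ht n).2.1, (k4 t ht n).2.1]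
    · show (V' t + V'' t) n = Vf G.ω (B.gL t + B'.gL t) n
      rw [lp.coeFn_add, Pi.add_apply, (h4 t ht n).2.2, (k4 t ht n).2.2]
      exact (map_add (Tz (G.ω * n)) (B.gL t n) (B'.gL t n)).symm

end Geo

/-! ### Finite and locally finite sums -/

/-- finite sums -/
noncomputable def Bg.fs (C : ℕ → Bg H) (K : ℕ) : Bg H where
  ve t := ∑ j ∈ Finset.range K, (C j).ve t
  we t := ∑ j ∈ Finset.range K, (C j).we t
  gL t := ∑ j ∈ Finset.range K, (C j).gL t
  FL t := ∑ j ∈ Finset.range K, (C j).FL t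
  fc _ := 0
  κ _ := 0
  κ1 _ := 0

/-- locally finite sums -/
noncomputable def Bg.ts (C : ℕ → Bg H) : Bg H where
  ve t := ∑' j, (C j).ve t
  we t := ∑' j, (C j).we t
  gL t := ∑' j, (C j).gL t
  FL t := ∑' j, (C j).FL t
  fc _ := 0
  κ _ := 0
  κ1 _ := 0

/-- the background vanishes at the time `t` -/
structure Bg.Zt (B : Bg H) (t : ℝ) : Prop where
  ve : B.ve t = 0
  we : B.we t = 0
  gL : B.gL t = 0
  FL : B.FL t = 0

theorem Bg.ts_eq {C : ℕ → Bg H} {K : ℕ} (h : ∀ j, K ≤ j → (C j).Zt t) :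
    (Bg.fs C K).Eqt (Bg.ts C) t where
  ve := (tsum_eq_sum fun j hj => (h j (not_lt.1 fun h' => hj (Finset.mem_range.2 h'))).ve).symm
  we := (tsum_eq_sum fun j hj => (h j (not_lt.1 fun h' => hj (Finset.mem_range.2 h'))).we).symm
  gL := (tsum_eq_sum fun j hj => (h j (not_lt.1 fun h' => hj (Finset.mem_range.2 h'))).gL).symm
  FL := (tsum_eq_sum fun j hj => (h j (not_lt.1 fun h' => hj (Finset.mem_range.2 h'))).FL).symm
  fc := rfl
  κ := rfl
  κ1 := rfl

theorem Geo.BgM.fs {G : Geo H} {C : ℕ → Bg H} (h : ∀ j, G.BgM (C j) a b) (K : ℕ) :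
    G.BgM (Bg.fs C K) a b := by
  induction K with
  | zero =>
    refine (Geo.B0_bgM (G := G) (f := fun _ => (0 : HH H)) continuousOn_const (fun _ _ => Off.zero)
      fun _ _ => Geo.Rl_zero).congr fun t _ => ?_
    exact ⟨by simp [Bg.fs, Geo.B0], by simp [Bg.fs, Geo.B0], by simp [Bg.fs, Geo.B0],
      by simp [Bg.fs, Geo.B0], rfl, rfl, rfl⟩
  | succ K ih =>
    refine (ih.ad (h K)).congr fun t _ => ?_
    exact ⟨(Finset.sum_range_succ (fun j => (C j).ve t) K).symm,
      (Finset.sum_range_succ (fun j => (C j).we t) K).symm,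
      (Finset.sum_range_succ (fun j => (C j).gL t) K).symm,
      (Finset.sum_range_succ (fun j => (C j).FL t) K).symm, rfl, rfl, rfl⟩

theorem Geo.BgM.ts {G : Geo H} {C : ℕ → Bg H} (h : ∀ j, G.BgM (C j) a b) {K : ℕ}
    (hK : ∀ t ∈ Icc a b, ∀ j, K ≤ j → (C j).Zt t) : G.BgM (Bg.ts C) a b :=
  (Geo.BgM.fs h K).congr fun t ht => Bg.ts_eq (hK t ht)

end

end Pool.Agent.Lib.MP_79abb3_an.SC
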