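import Pool.Agent.Lib.MP_79abb3_an.SC.PzG

/-!
Theorem C, phase 0: from a state and a smooth stream function to a state.
-/

set_option autoImplicit false
set_option linter.unusedSectionVars false

open MeasureTheory Set Filter Topology Function
open scoped ENNReal InnerProductSpace

namespace Pool.Agent.Lib.MP_79abb3_an.SC

open Pool.Agent.Lib.MP_79abb3_an.P25

section
variable {H : ℝ} [hH : Fact (0 < H)] {a ψ F : ℝ × ℝ → ℝ}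

theorem fld_csmul (ω : ℝ) (c : ℝ) (x : ℤ → CI H) (y z : ℝ) :
    fld ω (fun n => (c : ℂ) • x n) y z = c * fld ω x y z := by
  unfold fld
  have e : (fun n : ℤ => ex ((c : ℂ) • x n) z * ee ω n y) =
      fun n : ℤ => (c : ℂ) * (ex (x n) z * ee ω n y) := by
    funext n
    rw [ex_smul, mul_assoc]
  rw [e, tsum_mul_left, Complex.re_ofReal_mul]

theorem fld_of_zero {ω : ℝ} {x u : ℤ → CI H} {y z : ℝ} (h : ∀ n, ex (u n) z = 0) :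
    fld ω (fun n => u n + x n) y z = fld ω x y z := by
  unfold fld
  simp only [ex_add, h, zero_add]

namespace Geo
variable {G : Geo H} {B : Bg H} {t₀ t₁ : ℝ} {x₀ : HH H × HH H} {x : ℝ → HH H × HH H}

/-- **Conversion**, without no slip. -/
theorem Sol.conv' {h : ℝ} (hP : G.PcT a h) (hS : G.SmT) (hh0 : 0 ≤ h) (hh : h ≤ G.ρ)
    (hs : G.Sol B t₀ t₁ x₀ x) (hM : G.BgM B t₀ t₁) (hr1 : Rl x₀.1)
    (h0 : G.St x₀.2) : ∃ v w : ℝ → ℝ × ℝ → ℝ, Piece H h a t₀ t₁ v w ∧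
      (∀ t ∈ Icc t₀ t₁, G.St (x t).2) ∧
      (∀ t ∈ Icc t₀ t₁, Summable fun n => ‖Vf G.ω (G.Qd (x t).2) n‖) ∧
      ∀ t ∈ Icc t₀ t₁, ∀ q : ℝ × ℝ, v t q = fld G.ω (G.vf B t (x t)) q.1 q.2 ∧
        w t q = fld G.ω (G.wf B t (x t)) q.1 q.2 := by
  obtain ⟨ι, P, C, θ, hι, hSm⟩ := hS
  have hre := hs.reality hM.cont hM.re hr1 h0.real
  obtain ⟨C', hC'⟩ := hs.ddc hM.cont h0.dd
  obtain ⟨Wl, hW, hWl⟩ := hs.lift hM.cont h0.dd hι hSm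
  obtain ⟨v, w, hm, hvw⟩ := hs.msol hM hh0 hh (fun t ht => (hre t ht).2) hW hWl
  have ev : ∀ t ∈ Icc t₀ t₁, ⇑(v t) = G.vf B t (x t) := fun t ht => funext fun n => (hvw t ht n).1
  have ew : ∀ t ∈ Icc t₀ t₁, ⇑(w t) = G.wf B t (x t) := fun t ht => funext fun n => (hvw t ht n).2
  refine ⟨fun t q => fld G.ω (v t) q.1 q.2, fun t q => fld G.ω (w t) q.1 q.2,
    hP t₀ t₁ v w _ hm, fun t ht => ⟨(hre t ht).2, C', hC' t ht⟩, fun t ht => ?_, ?_⟩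
  · have h1 := l1_summable (Wl t)
    exact h1.congr fun n => by rw [hWl t ht]
  · intro t ht q
    show fld G.ω (v t) q.1 q.2 = _ ∧ fld G.ω (w t) q.1 q.2 = _
    rw [ev t ht, ew t ht]
    exact ⟨rfl, rfl⟩

theorem uV_csmul' (ω : ℝ) (c : ℂ) (V : ℤ → CI H) (n : ℤ) :
    uV ω (fun n => c • V n) n = c • uV ω V n := by
  have h := uV_smul ω c (V n) n
  exact h

theorem wV_csmul' (ω : ℝ) (c : ℂ) (V : ℤ → CI H) (n : ℤ) :
    wV ω (fun n => c • V n) n = c • wV ω V n := by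
  have h := wV_smul ω c (V n) n
  exact h

variable (ha : PY H a) (hGa : G.a = fam a) (hψ : PY H ψ) (ht : VanT H ψ)

theorem ld_vf (c c' : ℝ → ℝ) (t : ℝ) (y : HH H × HH H) (n : ℤ) :
    G.vf ((G.ld ha hGa hψ ht).bg c c') t y n =
      uV G.ω (Vf G.ω (G.Qd y.2)) n + (c t : ℂ) • fam (pZ ψ) n := by
  rw [vf_apply]
  have e1 : hf G.lam (((G.ld ha hGa hψ ht).bg c c').ve t) n = (c t : ℂ) • (G.ld ha hGa hψ ht).v n :=
    (G.ld ha hGa hψ ht).hf_ve t n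
  have e2 : uV G.ω (Vf G.ω (G.gt ((G.ld ha hGa hψ ht).bg c c') t y)) n =
      uV G.ω (Vf G.ω (G.Qd y.2)) n + (c t : ℂ) • uV G.ω (Vf G.ω (G.ld ha hGa hψ ht).g) n := by
    show uV G.ω (Vf G.ω (⇑(G.Qd y.2 + (c t : ℂ) • (G.ld ha hGa hψ ht).g))) n = _
    rw [uV_add']
    congr 1
    rw [← uV_csmul']
    refine uV_congr _ ?_
    exact (G.ld ha hGa hψ ht).Vf_gL (c' := c') t n
  rw [e1, e2, add_assoc, ← ci_smul_add, ld_v]

theorem ld_wf (c c' : ℝ → ℝ) (t : ℝ) (y : HH H × HH H) (n : ℤ) :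
    G.wf ((G.ld ha hGa hψ ht).bg c c') t y n =
      wV G.ω (Vf G.ω (G.Qd y.2)) n + (c t : ℂ) • -fam (pY ψ) n := by
  rw [wf_apply]
  have e1 : hf G.lam (((G.ld ha hGa hψ ht).bg c c').we t) n = (c t : ℂ) • (G.ld ha hGa hψ ht).w n :=
    (G.ld ha hGa hψ ht).hf_we t n
  have e2 : wV G.ω (Vf G.ω (G.gt ((G.ld ha hGa hψ ht).bg c c') t y)) n =
      wV G.ω (Vf G.ω (G.Qd y.2)) n + (c t : ℂ) • wV G.ω (Vf G.ω (G.ld ha hGa hψ ht).g) n := by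
    show wV G.ω (Vf G.ω (⇑(G.Qd y.2 + (c t : ℂ) • (G.ld ha hGa hψ ht).g))) n = _
    rw [wV_add']
    congr 1
    rw [← wV_csmul']
    refine wV_congr _ ?_
    exact (G.ld ha hGa hψ ht).Vf_gL (c' := c') t n
  rw [e1, e2, add_assoc, ← ci_smul_add, ld_w]

/-- **PHASE 0.** From the state `W₀` plus the smooth flow `∇^⊥ψ` to a state, in an arbitrarily short
time; the boundary values are `c(t) ∇^⊥ψ`. -/
theorem phase0' (G : Geo H) (hBig : G.Big) (hT : G.TFex) (hS : G.SmT) {h : ℝ} (hP : G.PcT a h)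
    (hh0 : 0 ≤ h) (hh : h ≤ G.ρ) (ha : PY H a) (hGa : G.a = fam a) (hψ : PY H ψ) (ht : VanT H ψ)
    {W₀ : HH H} (h0 : G.St W₀) : ∀ T, 0 < T → ∃ t, 0 < t ∧ t ≤ T ∧ ∃ x₁, G.St x₁ ∧
      ∃ v w : ℝ → ℝ × ℝ → ℝ, Piece H h a 0 t v w ∧
        (∀ y z, v 0 (y, z) = fV G.ω (G.Qd W₀) (y, z) + fld G.ω (fam (pZ ψ) : ℤ → CI H) y z ∧
          w 0 (y, z) = fW G.ω (G.Qd W₀) (y, z) - fld G.ω (fam (pY ψ) : ℤ → CI H) y z) ∧
        (∀ s ∈ Icc 0 t, ∀ y ∈ Icc (-H) H, pZ ψ (y, 0) = 0 → pY ψ (y, 0) = 0 →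
          v s (y, 0) = 0 ∧ w s (y, 0) = 0) ∧ G.Fl h x₁ (v t) (w t) := by
  intro T hT0
  set D := G.ld ha hGa hψ ht with hD
  obtain ⟨E, s, hE, hs, hbg⟩ := D.bg_0
  obtain ⟨δ, hδ, -, hex⟩ := G.exists_short hBig hT hE hs
    (norm_nonneg (LT G.ω G.lam (3 / 8) (G.Qd W₀ + D.g)))
  obtain ⟨t, ht0, htT, htδ⟩ : ∃ t, 0 < t ∧ t ≤ T ∧ t ≤ δ :=
    ⟨min T δ, lt_min hT0 hδ, min_le_left _ _, min_le_right _ _⟩
  set c : ℝ → ℝ := fun s => 1 - s / t with hc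
  set c' : ℝ → ℝ := fun _ => -(1 / t) with hc'
  have cc : ContinuousOn c (Icc 0 t) := by rw [hc]; fun_prop
  have cc' : ContinuousOn c' (Icc 0 t) := continuousOn_const
  have cd : ∀ s ∈ Icc 0 t, HasDerivWithinAt c (c' s) (Icc 0 t) s := fun s _ => by
    have h1 := ((hasDerivAt_id s).div_const t).const_sub 1
    exact h1.hasDerivWithinAt
  have c1 : ∀ s ∈ Icc 0 t, |c s| ≤ 1 := fun s hs => by
    have h1 : 0 ≤ s / t := div_nonneg hs.1 ht0.le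
    have h2 : s / t ≤ 1 := (div_le_one ht0).2 hs.2
    rw [hc]
    show |1 - s / t| ≤ 1
    rw [abs_of_nonneg (by linarith)]
    linarith
  have c0 : c 0 = 1 := by rw [hc]; simp
  have ct : c t = 0 := by
    show 1 - t / t = 0
    rw [div_self ht0.ne', sub_self]
  have hB := hbg cc cc' cd c1
  have hM := D.bg_M cc cc' cd
  have e0 : G.gV (D.bg c c') 0 (0, W₀) = G.Qd W₀ + D.g := by
    show G.Qd W₀ + (c 0 : ℂ) • D.g - Ms G.ζ (cm G.J (G.qL 0)) = _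
    rw [c0, map_zero, map_zero, map_zero, sub_zero, Complex.ofReal_one, one_smul]
  obtain ⟨x, hx⟩ := hex hB ht0.le (by rw [sub_zero]; exact htδ) (by rw [e0])
  obtain ⟨v, w, h1, h2, h3, h4⟩ := hx.conv' hP hS hh0 hh hM Rl_zero h0
  have m0 : (0:ℝ) ∈ Icc 0 t := ⟨le_rfl, ht0.le⟩
  have mt : t ∈ Icc 0 t := ⟨ht0.le, le_rfl⟩
  obtain ⟨Ck, hCk⟩ := G.ker
  have ex0 : x 0 = (0, W₀) := hx.init hCk ht0.le
  have sZ : Summable fun n => ‖(fam (pZ ψ) n : CI H)‖ := pz_fam_sum0 hψ.pZ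
  have sY : Summable fun n => ‖(fam (pY ψ) n : CI H)‖ := pz_fam_sum0 hψ.pY
  have hω := G.hω
  have fZ : ∀ y ∈ Icc (-H) H, ∀ z ∈ Icc (0:ℝ) H, fld G.ω (fam (pZ ψ) : ℤ → CI H) y z = pZ ψ (y, z) := by
    intro y hy z hz
    rw [hω]; exact fld_fam hψ.pZ hy hz
  have fY : ∀ y ∈ Icc (-H) H, ∀ z ∈ Icc (0:ℝ) H, fld G.ω (fam (pY ψ) : ℤ → CI H) y z = pY ψ (y, z) := by
    intro y hy z hz
    rw [hω]; exact fld_fam hψ.pY hy hz
  have evf : ∀ s, G.vf (D.bg c c') s (x s) = fun n =>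
      uV G.ω (Vf G.ω (G.Qd (x s).2)) n + (c s : ℂ) • fam (pZ ψ) n :=
    fun s => funext fun n => ld_vf ha hGa hψ ht c c' s (x s) n
  have ewf : ∀ s, G.wf (D.bg c c') s (x s) = fun n =>
      wV G.ω (Vf G.ω (G.Qd (x s).2)) n + (c s : ℂ) • -fam (pY ψ) n :=
    fun s => funext fun n => ld_wf ha hGa hψ ht c c' s (x s) n
  have su : ∀ s ∈ Icc 0 t, Summable fun n => ‖uV G.ω (Vf G.ω (G.Qd (x s).2)) n‖ := fun s hs =>
    Summable.of_nonneg_of_le (fun _ => norm_nonneg _) (fun n => norm_uV_le _ _ n) ((h3 s hs).mul_left 2)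
  have sw : ∀ s ∈ Icc 0 t, Summable fun n => ‖wV G.ω (Vf G.ω (G.Qd (x s).2)) n‖ := fun s hs =>
    Summable.of_nonneg_of_le (fun _ => norm_nonneg _) (fun n => norm_wV_le _ _ n)
      ((h3 s hs).mul_left 1)
  have nZ : ∀ r : ℝ, Summable fun n => ‖(r : ℂ) • (fam (pZ ψ) n : CI H)‖ := fun r => by
    simp only [norm_smul]
    exact sZ.mul_left _
  have nY : ∀ r : ℝ, Summable fun n => ‖(r : ℂ) • (-fam (pY ψ) n : CI H)‖ := fun r => by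
    simp only [norm_smul, norm_neg]
    exact sY.mul_left _
  have eV : ∀ s ∈ Icc 0 t, ∀ y z, v s (y, z) = fV G.ω (G.Qd (x s).2) (y, z) +
      c s * fld G.ω (fam (pZ ψ) : ℤ → CI H) y z := by
    intro s hs y z
    rw [(h4 s hs (y, z)).1, evf, fld_add (su s hs) (nZ (c s)), fld_csmul]
    rfl
  have eW : ∀ s ∈ Icc 0 t, ∀ y z, w s (y, z) = fW G.ω (G.Qd (x s).2) (y, z) -
      c s * fld G.ω (fam (pY ψ) : ℤ → CI H) y z := by
    intro s hs y z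
    rw [(h4 s hs (y, z)).2, ewf, fld_add (sw s hs) (nY (c s)), fld_csmul, fld_neg, mul_neg]
    rfl
  refine ⟨t, ht0, htT, (x t).2, h2 t mt, v, w, h1, ?_, ?_, ?_⟩
  · intro y z
    rw [eV 0 m0, eW 0 m0, c0, one_mul, one_mul, ex0]
    exact ⟨rfl, rfl⟩
  · intro s hs y hy hZ hY
    have hz0 : (0:ℝ) ∈ Icc (0:ℝ) H := ⟨le_rfl, hH.out.le⟩
    rw [eV s hs, eW s hs, fZ y hy 0 hz0, fY y hy 0 hz0, hZ, hY, mul_zero, add_zero, sub_zero]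
    constructor
    · exact fld_zero_at (fun n => by rw [ex_uV_zero, G.Vf_Qd_zero]) y
    · exact fld_zero_at (fun n => wV_zero _ _ n) y
  · intro y z hz
    rw [eV t mt, eW t mt, ct, zero_mul, zero_mul, add_zero, sub_zero]
    exact ⟨rfl, rfl⟩

/-- **PHASE 0**, initial values on the cell. -/
theorem phase0 (G : Geo H) (hBig : G.Big) (hT : G.TFex) (hS : G.SmT) {h : ℝ} (hP : G.PcT a h)
    (hh0 : 0 ≤ h) (hh : h ≤ G.ρ) (ha : PY H a) (hGa : G.a = fam a) (hψ : PY H ψ) (ht : VanT H ψ)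
    {W₀ : HH H} (h0 : G.St W₀) : ∀ T, 0 < T → ∃ t, 0 < t ∧ t ≤ T ∧ ∃ x₁, G.St x₁ ∧
      ∃ v w : ℝ → ℝ × ℝ → ℝ, Piece H h a 0 t v w ∧
        (∀ y ∈ Icc (-H) H, ∀ z ∈ Icc 0 h, v 0 (y, z) = fV G.ω (G.Qd W₀) (y, z) + pZ ψ (y, z) ∧
          w 0 (y, z) = fW G.ω (G.Qd W₀) (y, z) - pY ψ (y, z)) ∧
        (∀ s ∈ Icc 0 t, ∀ y ∈ Icc (-H) H, pZ ψ (y, 0) = 0 → pY ψ (y, 0) = 0 →
          v s (y, 0) = 0 ∧ w s (y, 0) = 0) ∧ G.Fl h x₁ (v t) (w t) := by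
  intro T hT0
  obtain ⟨t, ht0, htT, x₁, hx₁, v, w, h1, h2, h3, h4⟩ :=
    G.phase0' hBig hT hS hP hh0 hh ha hGa hψ ht h0 T hT0
  refine ⟨t, ht0, htT, x₁, hx₁, v, w, h1, fun y hy z hz => ?_, h3, h4⟩
  have hz' : z ∈ Icc (0:ℝ) H := ⟨hz.1, hz.2.trans (hh.trans G.ρH.le)⟩
  have e1 : fld G.ω (fam (pZ ψ) : ℤ → CI H) y z = pZ ψ (y, z) := by
    rw [G.hω]; exact fld_fam hψ.pZ hy hz'
  have e2 : fld G.ω (fam (pY ψ) : ℤ → CI H) y z = pY ψ (y, z) := by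
    rw [G.hω]; exact fld_fam hψ.pY hy hz'
  rw [← e1, ← e2]
  exact h2 y z

end Geo

end

end Pool.Agent.Lib.MP_79abb3_an.SC
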