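import Pool.Agent.Lib.MP_79abb3_an.SC.L2E
import Pool.Agent.Lib.MP_79abb3_an.SC.L2Ea
import Pool.Agent.Lib.MP_79abb3_an.SC.L2Ca
import Pool.Agent.Lib.MP_79abb3_an.SC.PzH

/-!
Theorem C, stage for `L²` data: the background from a sequence of lift data.
-/

set_option autoImplicit false
set_option linter.unusedSectionVars false

open MeasureTheory Set Filter Topology Function
open scoped ENNReal InnerProductSpace

namespace Pool.Agent.Lib.MP_79abb3_an.SC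

open Pool.Agent.Lib.MP_79abb3_an.P25

section
variable {H : ℝ} [hH : Fact (0 < H)]

theorem vf_congr {G : Geo H} {B B' : Bg H} {t : ℝ} (e : B.Eqt B' t) (x : HH H × HH H) :
    G.vf B t x = G.vf B' t x ∧ G.wf B t x = G.wf B' t x := by
  unfold Geo.vf Geo.wf Geo.uv Geo.uw
  rw [e.gL, e.ve, e.we]
  exact ⟨rfl, rfl⟩

theorem vf_zero_eq (G : Geo H) (B : Bg H) (t : ℝ) (n : ℤ) :
    G.vf B t 0 n = uV G.ω (Vf G.ω (B.gL t)) n + hf G.lam (B.ve t) n ∧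
    G.wf B t 0 n = wV G.ω (Vf G.ω (B.gL t)) n + hf G.lam (B.we t) n := by
  have e : G.gt B t 0 = B.gL t := by
    show G.Qd (0 : HH H × HH H).2 + B.gL t = _
    rw [Prod.snd_zero, map_zero, zero_add]
  constructor
  · rw [Geo.vf_apply, e]
  · rw [Geo.wf_apply, e]

theorem vf_ad (G : Geo H) (B B' : Bg H) (t : ℝ) (n : ℤ) :
    G.vf (B.ad B') t 0 n = G.vf B t 0 n + G.vf B' t 0 n ∧
    G.wf (B.ad B') t 0 n = G.wf B t 0 n + G.wf B' t 0 n := by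
  obtain ⟨a1, a2⟩ := vf_zero_eq G (B.ad B') t n
  obtain ⟨b1, b2⟩ := vf_zero_eq G B t n
  obtain ⟨c1, c2⟩ := vf_zero_eq G B' t n
  rw [a1, a2, b1, b2, c1, c2]
  have e1 : (B.ad B').gL t = B.gL t + B'.gL t := rfl
  have e2 : (B.ad B').ve t = B.ve t + B'.ve t := rfl
  have e3 : (B.ad B').we t = B.we t + B'.we t := rfl
  rw [e1, e2, e3, Geo.uV_Vf_add, Geo.wV_Vf_add, hf_add, hf_add]
  constructor <;> abel

variable {G : Geo H} (D : ℕ → G.LD) {τ : ℕ → ℝ} {k : ℕ} {t : ℝ}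

/-- the background of a sequence of lift data -/
noncomputable def BS (D : ℕ → G.LD) (τ : ℕ → ℝ) : Bg H := Bg.ts fun j => (D j).bg (pu τ j) (pu' τ j)

theorem BS_two (h : Tms τ) (ht : t ∈ Icc (τ (k + 1)) (τ k)) :
    (((D k).bg (pu τ k) (pu' τ k)).ad ((D (k + 1)).bg (pu τ (k + 1)) (pu' τ (k + 1)))).Eqt (BS D τ) t where
  ve := (h.tsum_gen ht (f := fun j => ((pu τ j t : ℝ) : ℂ) • G.hl (D j).sv) fun j hj => by
    rw [hj.1, Complex.ofReal_zero, zero_smul]).symm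
  we := (h.tsum_gen ht (f := fun j => ((pu τ j t : ℝ) : ℂ) • G.hl (D j).sw) fun j hj => by
    rw [hj.1, Complex.ofReal_zero, zero_smul]).symm
  gL := (h.tsum_gen ht (f := fun j => ((pu τ j t : ℝ) : ℂ) • (D j).g) fun j hj => by
    rw [hj.1, Complex.ofReal_zero, zero_smul]).symm
  FL := (h.tsum_gen ht (f := fun j => -(((pu' τ j t : ℝ) : ℂ) • TT G.ω (D j).g) -
      ((pu τ j t : ℝ) : ℂ) • (D j).A) fun j hj => by
    rw [hj.1, hj.2, Complex.ofReal_zero, zero_smul, zero_smul, neg_zero, sub_zero]).symm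
  fc := rfl
  κ := rfl
  κ1 := rfl

/-- the fields of the background on `[τ (k+1), τ k]` -/
theorem BS_gL (h : Tms τ) (ht : t ∈ Icc (τ (k + 1)) (τ k)) : (BS D τ).gL t =
    ((stj τ k t : ℝ) : ℂ) • (D k).g + ((1 - stj τ k t : ℝ) : ℂ) • (D (k + 1)).g := by
  rw [← (BS_two D h ht).gL]
  show ((pu τ k t : ℝ) : ℂ) • (D k).g + ((pu τ (k + 1) t : ℝ) : ℂ) • (D (k + 1)).g = _
  rw [(h.pu_self ht.2).1, (h.pu_next ht.1).1]

theorem BS_FL (h : Tms τ) (ht : t ∈ Icc (τ (k + 1)) (τ k)) : (BS D τ).FL t =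
    -(((stj' τ k t : ℝ) : ℂ) • (TT G.ω (D k).g - TT G.ω (D (k + 1)).g)) -
      (((stj τ k t : ℝ) : ℂ) • (D k).A + ((1 - stj τ k t : ℝ) : ℂ) • (D (k + 1)).A) := by
  rw [← (BS_two D h ht).FL]
  show (-(((pu' τ k t : ℝ) : ℂ) • TT G.ω (D k).g) - ((pu τ k t : ℝ) : ℂ) • (D k).A) +
    (-(((pu' τ (k + 1) t : ℝ) : ℂ) • TT G.ω (D (k + 1)).g) -
      ((pu τ (k + 1) t : ℝ) : ℂ) • (D (k + 1)).A) = _
  rw [(h.pu_self ht.2).1, (h.pu_next ht.1).1, (h.pu_self ht.2).2, (h.pu_next ht.1).2,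
    Complex.ofReal_neg, neg_smul, smul_sub]
  abel

theorem BS_ve (h : Tms τ) (ht : t ∈ Icc (τ (k + 1)) (τ k)) (n : ℤ) :
    hf G.lam ((BS D τ).ve t) n =
      ((stj τ k t : ℝ) : ℂ) • (D k).v n + ((1 - stj τ k t : ℝ) : ℂ) • (D (k + 1)).v n ∧
    hf G.lam ((BS D τ).we t) n =
      ((stj τ k t : ℝ) : ℂ) • (D k).w n + ((1 - stj τ k t : ℝ) : ℂ) • (D (k + 1)).w n := by
  rw [← (BS_two D h ht).ve, ← (BS_two D h ht).we]
  have e1 : (((D k).bg (pu τ k) (pu' τ k)).ad ((D (k + 1)).bg (pu τ (k + 1)) (pu' τ (k + 1)))).ve t =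
      ((D k).bg (pu τ k) (pu' τ k)).ve t + ((D (k + 1)).bg (pu τ (k + 1)) (pu' τ (k + 1))).ve t := rfl
  have e2 : (((D k).bg (pu τ k) (pu' τ k)).ad ((D (k + 1)).bg (pu τ (k + 1)) (pu' τ (k + 1)))).we t =
      ((D k).bg (pu τ k) (pu' τ k)).we t + ((D (k + 1)).bg (pu τ (k + 1)) (pu' τ (k + 1))).we t := rfl
  rw [e1, e2, hf_add, hf_add, (D k).hf_ve, (D k).hf_we, (D (k + 1)).hf_ve, (D (k + 1)).hf_we,
    (h.pu_self ht.2).1, (h.pu_next ht.1).1]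
  exact ⟨rfl, rfl⟩

/-- **The background is admissible** on every `[a, b]`, `a > 0`. -/
theorem BS_M (h : Tms τ) {a b : ℝ} (ha : 0 < a) : G.BgM (BS D τ) a b := by
  obtain ⟨K, -, hK⟩ := h.exists_le ha 0
  refine Geo.BgM.ts (K := K + 1) (fun j => ?_) fun t ht j hj => ?_
  · exact (D j).bg_M (pu_cont j).continuousOn (pu'_cont j).continuousOn
      fun t _ => (pu_hasDerivAt j t).hasDerivWithinAt
  · obtain ⟨i, rfl⟩ : ∃ i, j = i + 1 := ⟨j - 1, by omega⟩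
    have ht1 : τ i ≤ t := (h.anti (show K ≤ i by omega)).trans (hK.trans ht.1)
    have ht2 : τ (i + 1) ≤ t := (h.lt i).le.trans ht1
    have e1 : pu τ (i + 1) t = 0 ∧ pu' τ (i + 1) t = 0 := by
      obtain ⟨h1, h2⟩ := h.stj_one ht1
      obtain ⟨h3, h4⟩ := h.stj_one ht2
      exact ⟨by show stj τ (i + 1) t - stj τ i t = _; rw [h1, h3, sub_self],
        by show stj' τ (i + 1) t - stj' τ i t = _; rw [h2, h4, sub_self]⟩
    refine ⟨?_, ?_, ?_, ?_⟩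
    · show ((pu τ (i + 1) t : ℝ) : ℂ) • _ = _
      rw [e1.1, Complex.ofReal_zero, zero_smul]
    · show ((pu τ (i + 1) t : ℝ) : ℂ) • _ = _
      rw [e1.1, Complex.ofReal_zero, zero_smul]
    · show ((pu τ (i + 1) t : ℝ) : ℂ) • _ = _
      rw [e1.1, Complex.ofReal_zero, zero_smul]
    · show -(((pu' τ (i + 1) t : ℝ) : ℂ) • _) - ((pu τ (i + 1) t : ℝ) : ℂ) • _ = _
      rw [e1.1, e1.2, Complex.ofReal_zero, zero_smul, zero_smul, neg_zero, sub_zero]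

/-- the background velocity with a general sequence of total velocities -/
theorem BS_vf (h : Tms τ) (ht : t ∈ Icc (τ (k + 1)) (τ k)) (n : ℤ) :
    G.vf (BS D τ) t 0 n =
      ((stj τ k t : ℝ) : ℂ) • (uV G.ω (Vf G.ω (D k).g) n + (D k).v n) +
      ((1 - stj τ k t : ℝ) : ℂ) • (uV G.ω (Vf G.ω (D (k + 1)).g) n + (D (k + 1)).v n) ∧
    G.wf (BS D τ) t 0 n =
      ((stj τ k t : ℝ) : ℂ) • (wV G.ω (Vf G.ω (D k).g) n + (D k).w n) +
      ((1 - stj τ k t : ℝ) : ℂ) • (wV G.ω (Vf G.ω (D (k + 1)).g) n + (D (k + 1)).w n) := by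
  obtain ⟨a1, a2⟩ := vf_zero_eq G (BS D τ) t n
  obtain ⟨b1, b2⟩ := BS_ve D h ht n
  have c1 : ∀ (c : ℝ) (g : HH H), uV G.ω (Vf G.ω ((c : ℂ) • g)) n = (c : ℂ) • uV G.ω (Vf G.ω g) n := by
    intro c g
    rw [← Geo.uV_csmul']
    refine uV_congr _ ?_
    exact map_smul (Tz (G.ω * n)) _ _
  have c2 : ∀ (c : ℝ) (g : HH H), wV G.ω (Vf G.ω ((c : ℂ) • g)) n = (c : ℂ) • wV G.ω (Vf G.ω g) n := by
    intro c g
    rw [← Geo.wV_csmul']
    refine wV_congr _ ?_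
    exact map_smul (Tz (G.ω * n)) _ _
  rw [a1, a2, b1, b2, BS_gL D h ht, Geo.uV_Vf_add, Geo.wV_Vf_add, c1, c1, c2, c2]
  have e3 : ∀ (c : ℂ) (x y : CI H), c • (x + y) = c • x + c • y := fun c x y => ci_smul_add c x y
  constructor
  · rw [e3, e3]; abel
  · rw [e3, e3]; abel

end

end Pool.Agent.Lib.MP_79abb3_an.SC
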