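import Pool.Agent.Lib.MP_79abb3_an.SC.L2Eb

/-!
Theorem C, stage for `L²` data: the background of a sequence of lift data is small near the time `0`.
-/

set_option autoImplicit false
set_option linter.unusedSectionVars false

open MeasureTheory Set Filter Topology Function
open scoped ENNReal InnerProductSpace

namespace Pool.Agent.Lib.MP_79abb3_an.SC

open Pool.Agent.Lib.MP_79abb3_an.P25

section
variable {H : ℝ} [hH : Fact (0 < H)] {G : Geo H}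

theorem n1_smul {v w : ℤ → CI H} (h : Sm1 v w) (c : ℝ) (hc : 0 ≤ c) :
    Sm1 (fun n => (c : ℂ) • v n) (fun n => (c : ℂ) • w n) ∧
    n1 (fun n => (c : ℂ) • v n) (fun n => (c : ℂ) • w n) = c * n1 v w := by
  have e : ∀ (v : ℤ → CI H) (n : ℤ), ‖io (fun n => (c : ℂ) • v n) n‖ = c * ‖io v n‖ := fun v n => by
    rw [io_apply, map_smul, norm_smul, Complex.norm_real, Real.norm_of_nonneg hc, io_apply]
  refine ⟨⟨?_, ?_⟩, ?_⟩
  · simp only [e]; exact h.1.mul_left c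
  · simp only [e]; exact h.2.mul_left c
  · unfold n1
    simp only [e]
    rw [tsum_mul_left, tsum_mul_left]; ring

/-- total velocities of a lift datum -/
noncomputable def Geo.LD.tv (D : G.LD) (n : ℤ) : CI H := uV G.ω (Vf G.ω D.g) n + D.v n
noncomputable def Geo.LD.tw (D : G.LD) (n : ℤ) : CI H := wV G.ω (Vf G.ω D.g) n + D.w n

theorem Geo.LD.sm1 (D : G.LD) : Sm1 D.tv D.tw := by
  obtain ⟨C, -, h1⟩ := G.n1_U
  have h2 : ∀ v : ℤ → CI H, (Summable fun n => ‖v n‖) → Summable fun n => ‖io v n‖ := fun v hv =>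
    Summable.of_nonneg_of_le (fun _ => norm_nonneg _) (fun n => norm_iota_le (v n)) (hv.mul_left (√H))
  exact (Geo.n1_add (h1 D.g).1 ⟨h2 _ D.cv.c.s0, h2 _ D.cw.c.s0⟩).1

/-- the size of a lift datum -/
noncomputable def Geo.LD.bt (D : G.LD) : ℝ := 1 + ‖D.g‖ + ‖D.A‖ + n1 D.tv D.tw +
  2 * (√(∑' n : ℤ, (|G.ω * n| * ‖(iota (D.v n) : Z2 H)‖) ^ 2) +
    √(∑' n : ℤ, (|G.ω * n| * ‖(iota (D.w n) : Z2 H)‖) ^ 2))

theorem Geo.LD.bt_ge (D : G.LD) : 1 ≤ D.bt ∧ ‖D.g‖ ≤ D.bt ∧ ‖D.A‖ ≤ D.bt ∧ n1 D.tv D.tw ≤ D.bt ∧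
    2 * √(∑' n : ℤ, (|G.ω * n| * ‖(iota (D.v n) : Z2 H)‖) ^ 2) ≤ D.bt ∧
    2 * √(∑' n : ℤ, (|G.ω * n| * ‖(iota (D.w n) : Z2 H)‖) ^ 2) ≤ D.bt := by
  unfold Geo.LD.bt
  have h1 := norm_nonneg D.g
  have h2 := norm_nonneg D.A
  have h3 := n1_nonneg D.tv D.tw
  have h4 := Real.sqrt_nonneg (∑' n : ℤ, (|G.ω * n| * ‖(iota (D.v n) : Z2 H)‖) ^ 2)
  have h5 := Real.sqrt_nonneg (∑' n : ℤ, (|G.ω * n| * ‖(iota (D.w n) : Z2 H)‖) ^ 2)
  refine ⟨?_, ?_, ?_, ?_, ?_, ?_⟩ <;> linarith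

theorem grad_two {x y : ℤ → CI H} {ω s X Y : ℝ} (hs : 0 ≤ s) (hs1 : s ≤ 1)
    (hx : Summable fun n : ℤ => (|ω * n| * ‖(iota (x n) : Z2 H)‖) ^ 2)
    (hy : Summable fun n : ℤ => (|ω * n| * ‖(iota (y n) : Z2 H)‖) ^ 2)
    (hX : 2 * √(∑' n : ℤ, (|ω * n| * ‖(iota (x n) : Z2 H)‖) ^ 2) ≤ X)
    (hY : 2 * √(∑' n : ℤ, (|ω * n| * ‖(iota (y n) : Z2 H)‖) ^ 2) ≤ Y) :
    ∑' n : ℤ, (|ω * n| * ‖(iota ((s : ℂ) • x n + ((1 - s : ℝ) : ℂ) • y n) : Z2 H)‖) ^ 2 ≤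
      (s * X + (1 - s) * Y) ^ 2 := by
  obtain ⟨A, hA⟩ : ∃ A, A = √(∑' n : ℤ, (|ω * n| * ‖(iota (x n) : Z2 H)‖) ^ 2) := ⟨_, rfl⟩
  obtain ⟨B, hB⟩ : ∃ B, B = √(∑' n : ℤ, (|ω * n| * ‖(iota (y n) : Z2 H)‖) ^ 2) := ⟨_, rfl⟩
  have hA0 : 0 ≤ A := by rw [hA]; exact Real.sqrt_nonneg _
  have hB0 : 0 ≤ B := by rw [hB]; exact Real.sqrt_nonneg _
  have hA2 : ∑' n : ℤ, (|ω * n| * ‖(iota (x n) : Z2 H)‖) ^ 2 = A ^ 2 := by
    rw [hA, Real.sq_sqrt (tsum_nonneg fun n => sq_nonneg _)]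
  have hB2 : ∑' n : ℤ, (|ω * n| * ‖(iota (y n) : Z2 H)‖) ^ 2 = B ^ 2 := by
    rw [hB, Real.sq_sqrt (tsum_nonneg fun n => sq_nonneg _)]
  rw [← hA] at hX
  rw [← hB] at hY
  have h1 := sq_add_bound (z := fun n : ℤ => |ω * n| *
      ‖(iota ((s : ℂ) • x n + ((1 - s : ℝ) : ℂ) • y n) : Z2 H)‖)
    (x := fun n : ℤ => s * (|ω * n| * ‖(iota (x n) : Z2 H)‖))
    (y := fun n : ℤ => (1 - s) * (|ω * n| * ‖(iota (y n) : Z2 H)‖)) (A := s ^ 2 * A ^ 2)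
    (B := (1 - s) ^ 2 * B ^ 2) (fun n => by positivity) (fun n => ?_) ?_ ?_ ?_ ?_
  · refine h1.2.trans ?_
    have h2 : 2 * (s * A) ≤ s * X := by nlinarith
    have h3 : 2 * ((1 - s) * B) ≤ (1 - s) * Y := by nlinarith
    have h4 : 0 ≤ s * A := by positivity
    have h5 : 0 ≤ (1 - s) * B := mul_nonneg (by linarith) hB0
    nlinarith
  · rw [map_add, map_smul, map_smul]
    refine (mul_le_mul_of_nonneg_left (norm_add_le _ _) (abs_nonneg _)).trans (le_of_eq ?_)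
    rw [norm_smul, norm_smul, Complex.norm_real, Complex.norm_real, Real.norm_of_nonneg hs,
      Real.norm_of_nonneg (by linarith : 0 ≤ 1 - s)]
    ring
  · simp only [mul_pow]
    refine Summable.mul_left _ ?_
    simpa only [mul_pow] using hx
  · have : (fun n : ℤ => (s * (|ω * n| * ‖(iota (x n) : Z2 H)‖)) ^ 2) =
        fun n : ℤ => s ^ 2 * (|ω * n| * ‖(iota (x n) : Z2 H)‖) ^ 2 := by funext n; ring
    rw [this, tsum_mul_left, hA2]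
  · simp only [mul_pow]
    refine Summable.mul_left _ ?_
    simpa only [mul_pow] using hy
  · have : (fun n : ℤ => ((1 - s) * (|ω * n| * ‖(iota (y n) : Z2 H)‖)) ^ 2) =
        fun n : ℤ => (1 - s) ^ 2 * (|ω * n| * ‖(iota (y n) : Z2 H)‖) ^ 2 := by funext n; ring
    rw [this, tsum_mul_left, hB2]

variable (D : ℕ → G.LD) {τ : ℕ → ℝ} {k : ℕ} {t : ℝ}

/-- the bound of the background -/
noncomputable def Nb (D : ℕ → G.LD) (τ : ℕ → ℝ) (t : ℝ) : ℝ := ∑' j, pu τ j t • (D j).bt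

theorem Nb_eq (h : Tms τ) (ht : t ∈ Icc (τ (k + 1)) (τ k)) :
    Nb D τ t = stj τ k t * (D k).bt + (1 - stj τ k t) * (D (k + 1)).bt := h.tsum_pu ht _

theorem Nb_le (h : Tms τ) (ht : t ∈ Icc (τ (k + 1)) (τ k)) :
    1 ≤ Nb D τ t ∧ Nb D τ t ≤ (D k).bt + (D (k + 1)).bt := by
  rw [Nb_eq D h ht]
  obtain ⟨s0, s1⟩ := stj_mem (τ := τ) k t
  have h1 := (D k).bt_ge.1
  have h2 := (D (k + 1)).bt_ge.1
  constructor
  · nlinarith
  · nlinarith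

theorem Nb_cont (h : Tms τ) {a : ℝ} (ha : 0 < a) : ContinuousOn (Nb D τ) (Ici a) := by
  obtain ⟨K, -, hK⟩ := h.exists_le ha 0
  have h1 : ∀ t ∈ Ici a, Nb D τ t = ∑ j ∈ Finset.range (K + 1), pu τ j t • (D j).bt := by
    intro t ht
    unfold Nb
    refine tsum_eq_sum fun j hj => ?_
    rw [Finset.mem_range, not_lt] at hj
    obtain ⟨i, rfl⟩ : ∃ i, j = i + 1 := ⟨j - 1, by omega⟩
    have ht' : a ≤ t := ht
    have ht1 : τ i ≤ t := (h.anti (show K ≤ i by omega)).trans (hK.trans ht')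
    have ht2 : τ (i + 1) ≤ t := (h.lt i).le.trans ht1
    have e1 : pu τ (i + 1) t = 0 := by
      show stj τ (i + 1) t - stj τ i t = _
      rw [(h.stj_one ht1).1, (h.stj_one ht2).1, sub_self]
    rw [e1, zero_smul]
  refine ContinuousOn.congr ?_ h1
  exact (continuous_finsetSum _ fun j _ => (pu_cont j).smul continuous_const).continuousOn

/-- bounds of the fields -/
theorem BS_le (h : Tms τ) (ht : t ∈ Icc (τ (k + 1)) (τ k)) :
    ‖(BS D τ).gL t‖ ≤ Nb D τ t ∧ Sm1 (G.vf (BS D τ) t 0) (G.wf (BS D τ) t 0) ∧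
    n1 (G.vf (BS D τ) t 0) (G.wf (BS D τ) t 0) ≤ Nb D τ t ∧
    ‖(BS D τ).FL t‖ ≤ |stj' τ k t| * ‖TT G.ω (D k).g - TT G.ω (D (k + 1)).g‖ + Nb D τ t ∧
    ∑' n : ℤ, (|G.ω * n| * ‖(iota (hf G.lam ((BS D τ).ve t) n) : Z2 H)‖) ^ 2 ≤ Nb D τ t ^ 2 ∧
    ∑' n : ℤ, (|G.ω * n| * ‖(iota (hf G.lam ((BS D τ).we t) n) : Z2 H)‖) ^ 2 ≤ Nb D τ t ^ 2 := by
  rw [Nb_eq D h ht]
  obtain ⟨s0, s1⟩ := stj_mem (τ := τ) k t
  have s1' : 0 ≤ 1 - stj τ k t := by linarith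
  obtain ⟨-, a2, a3, a4, a5, a6⟩ := (D k).bt_ge
  obtain ⟨-, b2, b3, b4, b5, b6⟩ := (D (k + 1)).bt_ge
  have nn : ∀ (X : Type) [NormedAddCommGroup X] [NormedSpace ℂ X] (x y : X),
      ‖((stj τ k t : ℝ) : ℂ) • x + ((1 - stj τ k t : ℝ) : ℂ) • y‖ ≤
        stj τ k t * ‖x‖ + (1 - stj τ k t) * ‖y‖ := by
    intro X _ _ x y
    refine (norm_add_le _ _).trans (le_of_eq ?_)
    rw [norm_smul, norm_smul, Complex.norm_real, Complex.norm_real, Real.norm_of_nonneg s0,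
      Real.norm_of_nonneg s1']
  have cvx : ∀ {x y X Y : ℝ}, x ≤ X → y ≤ Y → stj τ k t * x + (1 - stj τ k t) * y ≤
      stj τ k t * X + (1 - stj τ k t) * Y := fun h1 h2 =>
    add_le_add (mul_le_mul_of_nonneg_left h1 s0) (mul_le_mul_of_nonneg_left h2 s1')
  have ev : G.vf (BS D τ) t 0 = fun n => ((stj τ k t : ℝ) : ℂ) • (D k).tv n +
      ((1 - stj τ k t : ℝ) : ℂ) • (D (k + 1)).tv n := funext fun n => (BS_vf D h ht n).1
  have ew : G.wf (BS D τ) t 0 = fun n => ((stj τ k t : ℝ) : ℂ) • (D k).tw n +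
      ((1 - stj τ k t : ℝ) : ℂ) • (D (k + 1)).tw n := funext fun n => (BS_vf D h ht n).2
  obtain ⟨c1, c2⟩ := n1_smul (D k).sm1 _ s0
  obtain ⟨d1, d2⟩ := n1_smul (D (k + 1)).sm1 _ s1'
  obtain ⟨e1, e2⟩ := Geo.n1_add c1 d1
  rw [c2, d2] at e2
  refine ⟨?_, ?_, ?_, ?_, ?_, ?_⟩
  · rw [BS_gL D h ht]
    exact (nn _ _ _).trans (cvx a2 b2)
  · rw [ev, ew]; exact e1
  · rw [ev, ew]
    exact e2.trans (cvx a4 b4)
  · rw [BS_FL D h ht]
    refine (norm_sub_le _ _).trans (add_le_add (le_of_eq ?_) ((nn _ _ _).trans (cvx a3 b3)))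
    rw [norm_neg, norm_smul, Complex.norm_real, Real.norm_eq_abs]
  · have e : (fun n : ℤ => (|G.ω * n| * ‖(iota (hf G.lam ((BS D τ).ve t) n) : Z2 H)‖) ^ 2) =
        fun n : ℤ => (|G.ω * n| * ‖(iota (((stj τ k t : ℝ) : ℂ) • (D k).v n +
          ((1 - stj τ k t : ℝ) : ℂ) • (D (k + 1)).v n) : Z2 H)‖) ^ 2 := by
      funext n; rw [(BS_ve D h ht n).1]
    rw [e]
    exact grad_two s0 s1 (sq_wt G.ω (D k).cv.c.s) (sq_wt G.ω (D (k + 1)).cv.c.s) a5 b5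
  · have e : (fun n : ℤ => (|G.ω * n| * ‖(iota (hf G.lam ((BS D τ).we t) n) : Z2 H)‖) ^ 2) =
        fun n : ℤ => (|G.ω * n| * ‖(iota (((stj τ k t : ℝ) : ℂ) • (D k).w n +
          ((1 - stj τ k t : ℝ) : ℂ) • (D (k + 1)).w n) : Z2 H)‖) ^ 2 := by
      funext n; rw [(BS_ve D h ht n).2]
    rw [e]
    exact grad_two s0 s1 (sq_wt G.ω (D k).cw.c.s) (sq_wt G.ω (D (k + 1)).cw.c.s) a6 b6

theorem rpow_half_le {x r w : ℝ} (hr : 0 < r) (hx : 0 ≤ x) (h : √r * x ≤ w) :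
    x ≤ w * r ^ (-(1 / 2 : ℝ)) := by
  rw [Real.rpow_neg hr.le, ← Real.sqrt_eq_rpow, ← div_eq_mul_inv, le_div_iff₀ (Real.sqrt_pos.2 hr)]
  linarith

/-- **Smallness.** -/
theorem BS_KB (hd : Summable fun k => ‖TT G.ω (D k).g - TT G.ω (D (k + 1)).g‖) :
    ∃ τ : ℕ → ℝ, Tms τ ∧ (∀ ε > 0, ∃ J₀, ∀ J, J₀ ≤ J → G.KB (BS D τ) (τ J) ε) ∧
      ∃ R, ∀ a ∈ Ioc 0 (τ 0), ∫ r in a..τ 0, Nb D τ r ^ 4 ≤ R := by
  obtain ⟨B, hB⟩ : ∃ B : ℕ → ℝ, ∀ k, B k = (D k).bt + (D (k + 1)).bt := ⟨_, fun _ => rfl⟩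
  have hB1 : ∀ k, 1 ≤ B k := fun k => by
    rw [hB]
    have h1 := (D k).bt_ge.1
    have h2 := (D (k + 1)).bt_ge.1
    linarith
  obtain ⟨w, hw⟩ : ∃ w : ℕ → ℝ, ∀ k, w k = (1 / 2 : ℝ) ^ k := ⟨_, fun _ => rfl⟩
  have hw0 : ∀ k, 0 < w k := fun k => by rw [hw]; positivity
  have hw1 : ∀ k, w k ≤ 1 := fun k => by rw [hw]; exact pow_le_one₀ (by norm_num) (by norm_num)
  have hwa : Antitone w := by
    intro i j hij
    rw [hw, hw]
    exact pow_le_pow_of_le_one (by norm_num) (by norm_num) hij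
  have hws : Summable w := by
    have : w = fun k => (1 / 2 : ℝ) ^ k := funext hw
    rw [this]; exact summable_geometric_two
  obtain ⟨τ, hτ, hρ⟩ := exists_times (ρ := fun k => w k / B k ^ 4) fun k =>
    div_pos (hw0 k) (pow_pos (one_pos.trans_le (hB1 k)) 4)
  have hτB : ∀ k, τ k * B k ^ 4 ≤ w k := fun k => by
    have h1 := hρ k
    rwa [le_div_iff₀ (pow_pos (one_pos.trans_le (hB1 k)) 4)] at h1
  have hN : ∀ k, ∀ r ∈ Icc (τ (k + 1)) (τ k), 1 ≤ Nb D τ r ∧ Nb D τ r ≤ B k := fun k r hr => by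
    rw [hB]; exact Nb_le D hτ hr
  obtain ⟨C, hC, hs'⟩ := hτ.stj'_le
  refine ⟨τ, hτ, fun ε hε => ?_, ⟨∑' k, w (k + 0), hτ.int hws (fun k => (hw0 k).le) ?_ ?_ ?_ 0⟩⟩
  · -- the size of the background on `(0, τ J]`
    obtain ⟨u, hu⟩ : ∃ u : ℕ → ℝ, ∀ k, u k = C * ‖TT G.ω (D k).g - TT G.ω (D (k + 1)).g‖ + w k :=
      ⟨_, fun _ => rfl⟩
    have hus : Summable u := by
      have : u = fun k => C * ‖TT G.ω (D k).g - TT G.ω (D (k + 1)).g‖ + w k := funext hu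
      rw [this]; exact (hd.mul_left C).add hws
    have hu0 : ∀ k, 0 ≤ u k := fun k => by
      rw [hu]
      have := (hw0 k).le
      positivity
    have t1 : Tendsto (fun J => ∑' k, u (k + J)) atTop (𝓝 0) := tendsto_sum_nat_add u
    have t2 : Tendsto (fun J => w J ^ (1 / 4 : ℝ)) atTop (𝓝 0) := by
      have h1 : Tendsto w atTop (𝓝 0) := hws.tendsto_atTop_zero
      have h2 := (Real.continuousAt_rpow_const 0 (1 / 4 : ℝ) (Or.inr (by norm_num))).tendsto.comp h1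
      rwa [Real.zero_rpow (by norm_num)] at h2
    obtain ⟨J₀, hJ₀⟩ := (((t1.eventually (ge_mem_nhds hε)).and
      (t2.eventually (ge_mem_nhds hε))).exists_forall_of_atTop)
    refine ⟨J₀, fun J hJ => ?_⟩
    obtain ⟨q1, q2⟩ := hJ₀ J hJ
    have hk : ∀ r ∈ Ioc 0 (τ J), ∃ k, J ≤ k ∧ r ∈ Icc (τ (k + 1)) (τ k) := fun r hr => by
      obtain ⟨k, h1, h2⟩ := hτ.exists_mem hr
      exact ⟨k, h1, h2.1.le, h2.2⟩
    have hwq : ∀ k, J ≤ k → w k ^ (1 / 4 : ℝ) ≤ ε := fun k hk =>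
      (Real.rpow_le_rpow (hw0 k).le (hwa hk) (by norm_num)).trans q2
    have hroot : ∀ k, ∀ r, 0 < r → r ≤ τ k → r ^ (1 / 4 : ℝ) * B k ≤ w k ^ (1 / 4 : ℝ) := by
      intro k r hr hrk
      have hBk := one_pos.trans_le (hB1 k)
      have h1 : B k = (B k ^ 4) ^ (1 / 4 : ℝ) := by
        rw [← Real.rpow_natCast, ← Real.rpow_mul hBk.le]; norm_num
      rw [h1, ← Real.mul_rpow hr.le (by positivity)]
      refine Real.rpow_le_rpow (by positivity) ?_ (by norm_num)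
      exact (mul_le_mul_of_nonneg_right hrk (by positivity)).trans (hτB k)
    have hle1 : ∀ k, τ k ≤ 1 := fun k => by
      have h1 := hτB k
      have h2 := hw1 k
      have h3 : 1 ≤ B k ^ 4 := one_le_pow₀ (hB1 k)
      have h4 := hτ.pos k
      nlinarith
    have hFb : ∀ k, ∀ r ∈ Icc (τ (k + 1)) (τ k), ‖(BS D τ).FL r‖ ≤ u k / τ k := by
      intro k r hr
      obtain ⟨-, -, -, g4, -, -⟩ := BS_le D hτ hr
      have hτk := hτ.pos k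
      have h1 : Nb D τ r ≤ w k / τ k := by
        refine (hN k r hr).2.trans ?_
        rw [le_div_iff₀ hτk]
        refine le_trans ?_ (hτB k)
        have : B k ≤ B k ^ 4 := le_self_pow₀ (hB1 k) (by norm_num)
        nlinarith
      refine (g4.trans (add_le_add (mul_le_mul_of_nonneg_right (hs' k r) (norm_nonneg _)) h1)).trans
        (le_of_eq ?_)
      rw [hu]; ring
    have hFc : ∀ a ∈ Ioc 0 (τ 0), ContinuousOn (fun r => ‖(BS D τ).FL r‖) (Icc a (τ 0)) := fun a ha =>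
      ((BS_M D hτ ha.1).cont.FL).norm
    refine ⟨hτ.pos J, hε.le, fun a ha hab => (BS_M D hτ ha).cont, fun _ => rfl, fun _ => rfl,
      fun _ => rfl, fun r hr => ?_, fun r hr => ?_, fun r hr => ?_, fun r hr => ?_, fun a ha => ?_⟩
    · obtain ⟨k, hJk, hrk⟩ := hk r hr
      obtain ⟨g1, -, -, -, -, -⟩ := BS_le D hτ hrk
      refine rpow_half_le hr.1 (norm_nonneg _) ?_
      have h1 := hroot k r hr.1 hrk.2
      have h2 := hwq k hJk
      have h3 : √r ≤ r ^ (1 / 4 : ℝ) := by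
        rw [Real.sqrt_eq_rpow]
        exact Real.rpow_le_rpow_of_exponent_ge hr.1 (hrk.2.trans (hle1 k)) (by norm_num)
      calc √r * ‖(BS D τ).gL r‖ ≤ r ^ (1 / 4 : ℝ) * B k :=
            mul_le_mul h3 (g1.trans (hN k r hrk).2) (norm_nonneg _) (Real.rpow_nonneg hr.1.le _)
        _ ≤ ε := h1.trans h2
    · obtain ⟨k, -, hrk⟩ := hk r hr
      exact (BS_le D hτ hrk).2.1
    · obtain ⟨k, hJk, hrk⟩ := hk r hr
      obtain ⟨-, -, g3, -, -, -⟩ := BS_le D hτ hrk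
      have h1 := hroot k r hr.1 hrk.2
      have h2 := hwq k hJk
      have h4 : 0 < r ^ (1 / 4 : ℝ) := Real.rpow_pos_of_pos hr.1 _
      rw [Real.rpow_neg hr.1.le, ← div_eq_mul_inv, le_div_iff₀ h4]
      have h5 := g3.trans (hN k r hrk).2
      calc n1 (G.vf (BS D τ) r 0) (G.wf (BS D τ) r 0) * r ^ (1 / 4 : ℝ) ≤ B k * r ^ (1 / 4 : ℝ) := by
            gcongr
        _ = r ^ (1 / 4 : ℝ) * B k := mul_comm _ _
        _ ≤ ε := h1.trans h2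
    · obtain ⟨k, hJk, hrk⟩ := hk r hr
      have h1 := hFb k r hrk
      have h2 : u k ≤ ε := by
        refine le_trans ?_ q1
        have h3 := ((summable_nat_add_iff J).2 hus).le_tsum (k - J) fun j _ => hu0 _
        rwa [Nat.sub_add_cancel hJk] at h3
      refine h1.trans ?_
      rw [div_eq_mul_inv]
      have h3 := hτ.pos k
      have h4 : (τ k)⁻¹ ≤ r⁻¹ := inv_anti₀ hr.1 hrk.2
      have h5 := hu0 k
      have h6 : 0 < r⁻¹ := inv_pos.2 hr.1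
      gcongr
    · refine (hτ.int hus hu0 hFc (fun r _ => norm_nonneg _) hFb J a ha).trans q1
  · intro a ha
    exact ((Nb_cont D hτ ha.1).mono Icc_subset_Ici_self).pow 4
  · intro r hr
    positivity
  · intro k r hr
    rw [le_div_iff₀ (hτ.pos k)]
    refine le_trans ?_ (hτB k)
    rw [mul_comm]
    have h1 := (hN k r hr)
    have h2 := (hτ.pos k).le
    have h3 : 0 ≤ Nb D τ r := by linarith
    have h4 := h1.2
    gcongr

end

end Pool.Agent.Lib.MP_79abb3_an.SC
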