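import Pool.Agent.Lib.MP_79abb3_an.FW.PhBa
import Pool.Agent.Lib.MP_79abb3_an.SC.ChTb
import Pool.Agent.Lib.MP_79abb3_an.SC.FlRl

/-!
Theorem C, stage for `L²` data: Parseval on the cell, bounds by duality with a constant that depends on
time.
-/

set_option autoImplicit false
set_option linter.unusedSectionVars false

open MeasureTheory Set Filter Topology Function
open scoped ENNReal InnerProductSpace

namespace Pool.Agent.Lib.MP_79abb3_an.SC

open Pool.Agent.Lib.MP_79abb3_an.P25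

section
variable {H : ℝ} [hH : Fact (0 < H)]

/-- Parseval on the cell. -/
theorem cell_pars {ω : ℝ} (hω : ω * H = Real.pi) {u : ℤ → CI H} (hu : Summable fun n => ‖u n‖)
    (hs : Sy u) {h : ℝ} (hh : h ≤ H) :
    ∫ q in (Icc (-H) H ×ˢ Icc 0 h : Set (ℝ × ℝ)), fld ω u q.1 q.2 ^ 2 ≤
      2 * H * ∑' n, ‖(iota (u n) : Z2 H)‖ ^ 2 := by
  have hH0 := hH.out
  have hc : Continuous fun q : ℝ × ℝ => fld ω u q.1 q.2 ^ 2 := (fld_cont hu).pow 2
  have h1 := FW.parseval2 hω hu hs (W := fun _ => 1) continuous_const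
  simp only [one_mul] at h1
  have h2 : ∑' n, ‖(iota (u n) : Z2 H)‖ ^ 2 = ∑' n, ∫ z in (0:ℝ)..H, ‖ex (u n) z‖ ^ 2 :=
    tsum_congr fun n => norm_sq_iota _
  rw [h2, ← h1]
  have hK : IsCompact (Icc (-H) H ×ˢ Icc 0 H : Set (ℝ × ℝ)) := isCompact_Icc.prod isCompact_Icc
  have hi : IntegrableOn (fun q : ℝ × ℝ => fld ω u q.1 q.2 ^ 2) (Icc (-H) H ×ˢ Icc 0 H) :=
    hc.continuousOn.integrableOn_compact hK
  have h3 : ∫ q in (Icc (-H) H ×ˢ Icc 0 h : Set (ℝ × ℝ)), fld ω u q.1 q.2 ^ 2 ≤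
      ∫ q in (Icc (-H) H ×ˢ Icc 0 H : Set (ℝ × ℝ)), fld ω u q.1 q.2 ^ 2 :=
    setIntegral_mono_set hi (Eventually.of_forall fun q => sq_nonneg _)
      (Filter.Eventually.of_forall (prod_mono subset_rfl (Icc_subset_Icc le_rfl hh)))
  refine h3.trans (le_of_eq ?_)
  have h4 : ∫ q in (Icc (-H) H ×ˢ Icc 0 H : Set (ℝ × ℝ)), fld ω u q.1 q.2 ^ 2 =
      ∫ z in Icc (0:ℝ) H, ∫ y in Icc (-H) H, fld ω u y z ^ 2 := by
    rw [Measure.volume_eq_prod, ← Measure.prod_restrict]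
    refine integral_prod_symm (μ := volume.restrict (Icc (-H) H)) (ν := volume.restrict (Icc (0:ℝ) H))
      (fun q : ℝ × ℝ => fld ω u q.1 q.2 ^ 2) ?_
    rw [Measure.prod_restrict]
    exact hi
  rw [h4]
  unfold FW.IQ
  rw [intervalIntegral.integral_of_le hH0.le, integral_Icc_eq_integral_Ioc]
  refine setIntegral_congr_fun measurableSet_Ioc fun z _ => ?_
  show ∫ y in Icc (-H) H, fld ω u y z ^ 2 = ∫ y in (-H)..H, fld ω u y z ^ 2
  rw [intervalIntegral.integral_of_le (by linarith), integral_Icc_eq_integral_Ioc]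

/-- the velocity of `V = T g` on the cell -/
theorem cell_vel (G : Geo H) {g : HH H} (hg : Rl g) (hV : Summable fun n => ‖Vf G.ω g n‖) {h : ℝ}
    (hh : h ≤ H) :
    ∫ q in (Icc (-H) H ×ˢ Icc 0 h : Set (ℝ × ℝ)), fld G.ω (uV G.ω (Vf G.ω g)) q.1 q.2 ^ 2 ≤
      8 * H * ‖TT G.ω g‖ ^ 2 ∧
    ∫ q in (Icc (-H) H ×ˢ Icc 0 h : Set (ℝ × ℝ)), fld G.ω (wV G.ω (Vf G.ω g)) q.1 q.2 ^ 2 ≤
      8 * H * ‖TT G.ω g‖ ^ 2 := by
  have hH0 := hH.out
  have hω : G.ω * H = Real.pi := by rw [G.hω, div_mul_cancel₀ _ hH0.ne']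
  have s1 : Summable fun n => ‖uV G.ω (Vf G.ω g) n‖ :=
    Summable.of_nonneg_of_le (fun _ => norm_nonneg _) (fun n => norm_uV_le G.ω _ n) (hV.mul_left 2)
  have s2 : Summable fun n => ‖wV G.ω (Vf G.ω g) n‖ :=
    Summable.of_nonneg_of_le (fun _ => norm_nonneg _) (fun n => norm_wV_le G.ω _ n) (hV.mul_left 1)
  have r1 : Sy (uV G.ω (Vf G.ω g)) := fun n => uV_real G.ω hg n
  have r2 : Sy (wV G.ω (Vf G.ω g)) := fun n => wV_real G.ω hg n
  have e : ∀ n, io (Vf G.ω g) n = TT G.ω g n := fun n => by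
    rw [TT_apply, T2_apply]; rfl
  have hS : Summable fun n => (2 * ‖TT G.ω g n‖) ^ 2 := by
    simp only [mul_pow]
    exact (l2_summable _).mul_left _
  have hT : ∑' n, (2 * ‖TT G.ω g n‖) ^ 2 = 4 * ‖TT G.ω g‖ ^ 2 := by
    simp only [mul_pow]
    rw [tsum_mul_left, ← l2_norm_sq]
    norm_num
  have b1 : ∀ n, ‖(iota (uV G.ω (Vf G.ω g) n) : Z2 H)‖ ^ 2 ≤ (2 * ‖TT G.ω g n‖) ^ 2 := fun n => by
    have := norm_iuV_le G.ω (Vf G.ω g) n
    rw [e] at this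
    exact pow_le_pow_left₀ (norm_nonneg _) this 2
  have b2 : ∀ n, ‖(iota (wV G.ω (Vf G.ω g) n) : Z2 H)‖ ^ 2 ≤ (2 * ‖TT G.ω g n‖) ^ 2 := fun n => by
    have := norm_iwV_le G.ω (Vf G.ω g) n
    rw [e, one_mul] at this
    refine pow_le_pow_left₀ (norm_nonneg _) (this.trans ?_) 2
    linarith [norm_nonneg (TT G.ω g n)]
  constructor
  · refine (cell_pars hω s1 r1 hh).trans ?_
    have := (Summable.of_nonneg_of_le (fun _ => sq_nonneg _) b1 hS).tsum_le_tsum b1 hS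
    rw [hT] at this
    calc 2 * H * ∑' n, ‖(iota (uV G.ω (Vf G.ω g) n) : Z2 H)‖ ^ 2 ≤ 2 * H * (4 * ‖TT G.ω g‖ ^ 2) :=
          mul_le_mul_of_nonneg_left this (by positivity)
      _ = _ := by ring
  · refine (cell_pars hω s2 r2 hh).trans ?_
    have := (Summable.of_nonneg_of_le (fun _ => sq_nonneg _) b2 hS).tsum_le_tsum b2 hS
    rw [hT] at this
    calc 2 * H * ∑' n, ‖(iota (wV G.ω (Vf G.ω g) n) : Z2 H)‖ ^ 2 ≤ 2 * H * (4 * ‖TT G.ω g‖ ^ 2) :=
          mul_le_mul_of_nonneg_left this (by positivity)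
      _ = _ := by ring

end

section
variable {T H h : ℝ}

/-- test functions vanish for small times -/
theorem IsTs.early {φ : ℝ × (ℝ × ℝ) → ℝ} (hT : 0 < T) (hφ : IsTs T H h φ) :
    ∃ t₀ ∈ Ioc 0 T, ∀ t, t < t₀ → ∀ q, φ (t, q) = 0 := by
  have hc : IsCompact (Prod.fst '' tsupport φ) := hφ.cpt.isCompact.image continuous_fst
  rcases (Prod.fst '' tsupport φ).eq_empty_or_nonempty with he | hne
  · refine ⟨T, ⟨hT, le_rfl⟩, fun t _ q => image_eq_zero_of_notMem_tsupport fun hm => ?_⟩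
    have : (t : ℝ) ∈ Prod.fst '' tsupport φ := ⟨_, hm, rfl⟩
    rw [he] at this
    exact this
  · obtain ⟨s, hs⟩ := hc.exists_isLeast hne
    obtain ⟨⟨p, hp, hps⟩, hs2⟩ := hs
    have h1 := (hφ.supp hp).1
    rw [hps] at h1
    refine ⟨s, ⟨h1.1, h1.2.le⟩, fun t ht q => image_eq_zero_of_notMem_tsupport fun hm => ?_⟩
    exact absurd (hs2 ⟨_, hm, rfl⟩) (not_le.2 ht)

/-- Bound by duality, with a constant in `L²` of time. -/
theorem time_bound2 (hT : 0 < T) {f : ℝ → ℝ × ℝ → ℝ}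
    (hf : ContinuousOn (uncurry f) (Ioc 0 T ×ˢ (univ ×ˢ Icc 0 h))) {φ X : ℝ × (ℝ × ℝ) → ℝ}
    (hφ : IsTs T H h φ) (hX : IsTs T H h X) {C : ℝ → ℝ} (hC : ∀ t ∈ Ioc 0 T, 0 ≤ C t)
    (cC : ∀ t₀ ∈ Ioc 0 T, ContinuousOn C (Icc t₀ T)) {R : ℝ}
    (hR : ∀ t₀ ∈ Ioc 0 T, ∫ r in t₀..T, C r ^ 2 ≤ R)
    (hb : ∀ t ∈ Ioo 0 T, |∫ q, f t q * X (t, q)| ≤ C t * √(∫ q, φ (t, q) ^ 2)) :
    |∫ p, f p.1 p.2 * X p| ≤ √R * √(∫ p, φ p ^ 2) := by
  obtain ⟨t₀, ht₀, hz⟩ := hX.early hT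
  have i0 := integrable_ts hf hX
  have h1 : ∫ p, f p.1 p.2 * X p = ∫ t, ∫ q, f t q * X (t, q) := integral_prod _ i0
  have i1 : Integrable fun p => φ p ^ 2 := integrable_sq hφ.smooth.continuous hφ.cpt
  have h2 : ∫ p, φ p ^ 2 = ∫ t, ∫ q, φ (t, q) ^ 2 := integral_prod _ i1
  have hcm : Continuous fun t => √(∫ q, φ (t, q) ^ 2) := (cont_sq hφ).sqrt
  have cCt := cC t₀ ht₀
  have hcI : ContinuousOn (fun t => C t * √(∫ q, φ (t, q) ^ 2)) (Icc t₀ T) :=
    cCt.mul hcm.continuousOn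
  have h3 : ‖∫ t, ∫ q, f t q * X (t, q)‖ ≤ ∫ t in Icc t₀ T, C t * √(∫ q, φ (t, q) ^ 2) := by
    rw [← integral_indicator measurableSet_Icc]
    refine norm_integral_le_of_norm_le
      (((hcI.integrableOn_compact isCompact_Icc)).integrable_indicator measurableSet_Icc)
      (Eventually.of_forall fun t => ?_)
    by_cases ht : t ∈ Ioo 0 T
    · by_cases ht2 : t₀ ≤ t
      · have hm : t ∈ Icc t₀ T := ⟨ht2, ht.2.le⟩
        rw [indicator_of_mem hm]
        exact hb t ht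
      · have h4 : ∀ q, X (t, q) = 0 := hz t (not_le.1 ht2)
        simp only [h4, mul_zero, integral_zero, norm_zero]
        exact indicator_nonneg (fun s hs => mul_nonneg (hC s ⟨ht₀.1.trans_le hs.1, hs.2⟩)
          (Real.sqrt_nonneg _)) t
    · have h4 : ∀ q, X (t, q) = 0 := fun q =>
        image_eq_zero_of_notMem_tsupport fun hm => ht (hX.supp hm).1
      simp only [h4, mul_zero, integral_zero, norm_zero]
      exact indicator_nonneg (fun s hs => mul_nonneg (hC s ⟨ht₀.1.trans_le hs.1, hs.2⟩)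
        (Real.sqrt_nonneg _)) t
  have hcs : HasCompactSupport fun t => √(∫ q, φ (t, q) ^ 2) := by
    refine HasCompactSupport.intro (isCompact_Icc (a := (0:ℝ)) (b := T)) fun t ht => ?_
    rw [sq_zero hφ fun h => ht (Ioo_subset_Icc_self h), Real.sqrt_zero]
  have m1 : MemLp (fun t => √(∫ q, φ (t, q) ^ 2)) 2 (volume.restrict (Icc t₀ T)) :=
    (hcm.memLp_of_hasCompactSupport (μ := (volume : Measure ℝ)) hcs).restrict _
  have : IsFiniteMeasure (volume.restrict (Icc t₀ T)) :=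
    ⟨by rw [Measure.restrict_apply_univ]; exact isCompact_Icc.measure_lt_top⟩
  have m2 : MemLp C 2 (volume.restrict (Icc t₀ T)) := by
    obtain ⟨M, hM⟩ := isCompact_Icc.exists_bound_of_continuousOn cCt
    refine MemLp.of_bound (cCt.aestronglyMeasurable measurableSet_Icc) M ?_
    rw [ae_restrict_iff' measurableSet_Icc]
    exact Eventually.of_forall fun t ht => hM t ht
  have h5 := (le_abs_self _).trans (cs_two m2 m1)
  have h6 : ∫ t in Icc t₀ T, C t ^ 2 ≤ R := by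
    have := hR t₀ ht₀
    rwa [intervalIntegral.integral_of_le ht₀.2, ← integral_Icc_eq_integral_Ioc] at this
  have h7 : ∫ t in Icc t₀ T, √(∫ q, φ (t, q) ^ 2) ^ 2 ≤ ∫ p, φ p ^ 2 := by
    have h8 : ∀ t, √(∫ q, φ (t, q) ^ 2) ^ 2 = ∫ q, φ (t, q) ^ 2 := fun t =>
      Real.sq_sqrt (integral_nonneg fun q => by positivity)
    simp only [h8]
    rw [h2]
    refine setIntegral_le_integral i1.integral_prod_left (Eventually.of_forall fun t => ?_)
    exact integral_nonneg fun q => by positivity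
  rw [h1]
  exact h3.trans (h5.trans (mul_le_mul (Real.sqrt_le_sqrt h6) (Real.sqrt_le_sqrt h7)
    (Real.sqrt_nonneg _) (Real.sqrt_nonneg _)))

end

end Pool.Agent.Lib.MP_79abb3_an.SC
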