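import Pool.Agent.Lib.MP_79abb3_an.SC.ChFinD
import Pool.Agent.Lib.MP_79abb3_an.SC.ExP
import Pool.Agent.Lib.MP_79abb3_an.SC.L2Ca
import Pool.Agent.Lib.MP_79abb3_an.SC.L2Fp
import Pool.Agent.Lib.MP_79abb3_an.SC.LaSm

/-!
Theorem C, stage for `L²` data: from the solution on `(0, b]` to the solution in the strip.
-/

set_option autoImplicit false
set_option linter.unusedSectionVars false

open MeasureTheory Set Filter Topology Function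
open scoped ENNReal InnerProductSpace

namespace Pool.Agent.Lib.MP_79abb3_an.SC

open Pool.Agent.Lib.MP_79abb3_an.P25

theorem DDC.sg_pos {X : Type} [NormedAddCommGroup X] [InnerProductSpace ℂ X] [CompleteSpace X]
    {K : X →L[ℂ] X} (hK : 0 ≤ K) (W : X) {s : ℝ} (hs : 0 < s) :
    DDC K (s⁻¹ * ‖W‖) (Sg K s W) := fun d h0 h1 => by
  rw [AS_comm_Sg s h0 hs.le]
  have e : Sg K s (AS K d W) = AS K (s + d) W :=
    congrArg (fun f : X →L[ℂ] X => f W) (Sg_AS hs.le h0)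
  rw [e]
  have h6 : 1 ≤ d ^ (-(1 / 8 : ℝ)) := Real.one_le_rpow_of_pos_of_le_one_of_nonpos h0 h1 (by norm_num)
  have h7 : (s + d)⁻¹ ≤ s⁻¹ := inv_anti₀ hs (by linarith)
  have h8 : 0 ≤ s⁻¹ * ‖W‖ := mul_nonneg (inv_nonneg.2 hs.le) (norm_nonneg _)
  calc ‖AS K (s + d) W‖ ≤ (s + d)⁻¹ * ‖W‖ :=
        (AS K (s + d)).le_of_opNorm_le (AS_norm hK (by linarith)) _
    _ ≤ s⁻¹ * ‖W‖ := mul_le_mul_of_nonneg_right h7 (norm_nonneg _)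
    _ = s⁻¹ * ‖W‖ * 1 := (mul_one _).symm
    _ ≤ _ := mul_le_mul_of_nonneg_left h6 h8

section
variable {H : ℝ} [hH : Fact (0 < H)] {a : ℝ × ℝ → ℝ}

namespace Geo
variable (G : Geo H)

/-- **States at positive times.** -/
theorem St_pos {B : Bg H} {b : ℝ} {x : ℝ → HH H} (hB : ∀ t₀ ∈ Ioc 0 b, B.Cont t₀ b)
    (hs : ∀ t₀ ∈ Ioc 0 b, G.Sol B t₀ b (0, x t₀) fun t => (0, x t)) (hr : ∀ t ∈ Ioc 0 b, Rl (x t)) :
    ∀ t ∈ Ioc 0 b, G.St (x t) := by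
  intro t ht
  have ht2 : t / 2 ∈ Ioc 0 b := ⟨by linarith [ht.1], by linarith [ht.1, ht.2]⟩
  have s := hs (t / 2) ht2
  have hBt := hB (t / 2) ht2
  have htm : t ∈ Icc (t / 2) b := ⟨by linarith [ht.1], ht.2⟩
  obtain ⟨Ck, hCk⟩ := G.kerW
  have hg : ContinuousOn (fun r => (G.f3 B r (0, x r), G.f4 B r (0, x r))) (Icc (t / 2) b) :=
    continuous_snd.comp_continuousOn (Phi_cont (G := G) hBt s.cont)
  obtain ⟨R, hR⟩ := isCompact_Icc.exists_bound_of_continuousOn hg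
  have e : Kh G.D.K (x t) = Sg G.D.K (t - t / 2) (Kh G.D.K (x (t / 2))) +
      duh G.LWk (t / 2) (fun r => (G.f3 B r (0, x r), G.f4 B r (0, x r))) t := s.eqW hBt htm
  have hp : 0 < t - t / 2 := by linarith [ht.1]
  refine ⟨hr t ht, ?_⟩
  rw [e]
  exact ⟨_, (DDC.sg_pos G.D.K_nonneg (Kh G.D.K (x (t / 2))) hp).add
    (DDC.duh G.D.K_nonneg hCk hg hR htm)⟩

/-- the solution in modes -/
theorem strip_msol {h : ℝ} (hh0 : 0 ≤ h) (hh : h ≤ G.ρ)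
    {b : ℝ} {B : Bg H} {x : ℝ → HH H} (hM : ∀ t₀ ∈ Ioc 0 b, G.BgM B t₀ b)
    (hs : ∀ t₀ ∈ Ioc 0 b, G.Sol B t₀ b (0, x t₀) fun t => (0, x t)) (hr : ∀ t ∈ Ioc 0 b, Rl (x t)) :
    ∀ t₀ ∈ Ioc 0 b, ∃ v w : ℝ → L1 (CI H),
      MSol G.ω h G.a t₀ b v w (fun t => G.gt B t (0, x t)) ∧
      (∀ t ∈ Icc t₀ b, ∀ n, v t n = G.vf B t (0, x t) n ∧ w t n = G.wf B t (0, x t) n) ∧
      ∀ t ∈ Icc t₀ b, Summable fun n => ‖Vf G.ω (G.Qd (x t)) n‖ := by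
  intro t₀ ht₀
  obtain ⟨ι, P, C, θ, hι, hSm⟩ := G.smT
  have hS := hs t₀ ht₀
  have hMt := hM t₀ ht₀
  have hdd := (G.St_pos (fun t ht => (hM t ht).cont) hs hr t₀ ht₀).dd
  obtain ⟨Wl, hW, hWl⟩ := hS.lift hMt.cont hdd hι hSm
  obtain ⟨v, w, hm, hvw⟩ := hS.msol hMt hh0 hh (fun t ht => hr t ⟨ht₀.1.trans_le ht.1, ht.2⟩) hW hWl
  refine ⟨v, w, hm, hvw, fun t ht => ?_⟩
  exact (l1_summable (Wl t)).congr fun n => by rw [hWl t ht]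

theorem gt_norm (B : Bg H) (t : ℝ) (x : HH H) : ‖G.gt B t (0, x)‖ ≤ ‖G.Qd‖ * ‖x‖ + ‖B.gL t‖ :=
  (norm_add_le (G.Qd x) (B.gL t)).trans (add_le_add (G.Qd.le_opNorm x) le_rfl)

/-- the gradient bounds of the velocity at a fixed time -/
theorem vel_sq (B : Bg H) (t : ℝ) (x : HH H) {D N : ℝ} (hD : ‖G.gt B t (0, x)‖ ≤ D)
    {v : l2 (CI H)} {f : ℤ → CI H} {V : ℤ → CI H}
    (h1 : ∀ n, ‖(iota (V n) : Z2 H)‖ ≤ ‖(iota (f n) : Z2 H)‖ + ‖(iota (hf G.lam v n) : Z2 H)‖)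
    (h2 : (Summable fun n : ℤ => (|G.ω * n| * ‖(iota (f n) : Z2 H)‖) ^ 2) ∧
      ∑' n : ℤ, (|G.ω * n| * ‖(iota (f n) : Z2 H)‖) ^ 2 ≤ (2 * ‖G.gt B t (0, x)‖) ^ 2)
    (h3 : Summable fun n : ℤ => (|G.ω * n| * ‖(iota (hf G.lam v n) : Z2 H)‖) ^ 2)
    (h4 : ∑' n : ℤ, (|G.ω * n| * ‖(iota (hf G.lam v n) : Z2 H)‖) ^ 2 ≤ N ^ 2) :
    (Summable fun n : ℤ => (|G.ω * n| * ‖(iota (V n) : Z2 H)‖) ^ 2) ∧
      ∑' n : ℤ, (|G.ω * n| * ‖(iota (V n) : Z2 H)‖) ^ 2 ≤ 2 * ((2 * D) ^ 2 + N ^ 2) := by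
  refine sq_add_bound (fun n => mul_nonneg (abs_nonneg _) (norm_nonneg _)) (fun n => ?_) h2.1
    (h2.2.trans (pow_le_pow_left₀ (by positivity) (by linarith) 2)) h3 h4
  rw [← mul_add]
  exact mul_le_mul_of_nonneg_left (h1 n) (abs_nonneg _)

/-- `wk_h1` for `ω = π / H` -/
theorem wk_h1w {ω : ℝ} (hω : ω = Real.pi / H) {h : ℝ} {F : ℝ × ℝ → ℝ} (hh : h ≤ H) (hF : IsTg H h F)
    {v w : ℤ → CI H} {Om : HH H}
    (hv : Summable fun n => ‖v n‖) (hw : Summable fun n => ‖w n‖) (sv : Sy v) (sw : Sy w)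
    (rot : ∀ n, DZ (v n) (kI ω n • iota (w n) - Om n))
    (div : ∀ n, DZ (w n) (-(kI ω n) • iota (v n))) {C D : ℝ} (hO : ‖Om‖ ≤ D)
    (hv1 : Summable fun n : ℤ => (|ω * n| * ‖(iota (v n) : Z2 H)‖) ^ 2)
    (hv2 : ∑' n : ℤ, (|ω * n| * ‖(iota (v n) : Z2 H)‖) ^ 2 ≤ C)
    (hw1 : Summable fun n : ℤ => (|ω * n| * ‖(iota (w n) : Z2 H)‖) ^ 2)
    (hw2 : ∑' n : ℤ, (|ω * n| * ‖(iota (w n) : Z2 H)‖) ^ 2 ≤ C) :
    |∫ q : ℝ × ℝ, fld ω v q.1 q.2 * gy F q| ≤ √(2 * H) * (√C + D) * √(∫ q, F q ^ 2) ∧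
      |∫ q : ℝ × ℝ, fld ω v q.1 q.2 * gz F q| ≤ √(2 * H) * (√C + D) * √(∫ q, F q ^ 2) ∧
      |∫ q : ℝ × ℝ, fld ω w q.1 q.2 * gy F q| ≤ √(2 * H) * (√C + D) * √(∫ q, F q ^ 2) ∧
      |∫ q : ℝ × ℝ, fld ω w q.1 q.2 * gz F q| ≤ √(2 * H) * (√C + D) * √(∫ q, F q ^ 2) := by
  subst hω
  exact wk_h1 hh hF hv hw sv sw rot div hO hv1 hv2 hw1 hw2

private theorem grad_real {d s H0 K : ℝ} (hd : 0 ≤ d) (hs : 0 ≤ s)
    (hK : K = √(2 * H0) * (√(2 * (4 * d ^ 2 + 1)) + d)) :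
    √(2 * H0) * (√(2 * ((2 * (d * s)) ^ 2 + s ^ 2)) + d * s) = K * s := by
  have e : 2 * ((2 * (d * s)) ^ 2 + s ^ 2) = 2 * (4 * d ^ 2 + 1) * s ^ 2 := by ring
  rw [e, Real.sqrt_mul (by positivity : (0:ℝ) ≤ 2 * (4 * d ^ 2 + 1)) (s ^ 2), Real.sqrt_sq hs, hK]
  ring

/-- gluing of the continuity on `[t₁, b]` -/
theorem cont_Ioc {b h : ℝ} {f : ℝ → ℝ × ℝ → ℝ}
    (hf : ∀ t₁ ∈ Ioc 0 b, ContinuousOn (uncurry f) (Icc t₁ b ×ˢ (univ ×ˢ Icc 0 h))) :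
    ContinuousOn (uncurry f) (Ioc 0 b ×ˢ (univ ×ˢ Icc 0 h)) := by
  intro p hp
  have h1 : p.1 / 2 ∈ Ioc 0 b := ⟨by linarith [hp.1.1], by linarith [hp.1.1, hp.1.2]⟩
  have h2 := hf (p.1 / 2) h1 p ⟨⟨by linarith [hp.1.1], hp.1.2⟩, hp.2⟩
  refine h2.mono_of_mem_nhdsWithin ?_
  have h3 : (Ioi (p.1 / 2) ×ˢ (univ : Set (ℝ × ℝ))) ∈ 𝓝 p :=
    (isOpen_Ioi.prod isOpen_univ).mem_nhds ⟨by show p.1 / 2 < p.1; linarith [hp.1.1], trivial⟩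
  filter_upwards [mem_nhdsWithin_of_mem_nhds h3, self_mem_nhdsWithin] with q hq hq2
  exact ⟨⟨le_of_lt hq.1, hq2.1.2⟩, hq2.2⟩

private theorem sq_split (a c v : ℝ) : (a + c - v) ^ 2 ≤ 2 * a ^ 2 + 2 * (c - v) ^ 2 := by
  nlinarith [sq_nonneg (a - (c - v))]

private theorem sq_split2 (a v : ℝ) : a ^ 2 ≤ 2 * (a - v) ^ 2 + 2 * v ^ 2 := by
  nlinarith [sq_nonneg (a - 2 * v)]

/-- boundedness in `L²` of the cell from the convergence to the data -/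
theorem bdd_of_init {b h : ℝ} (hb : 0 < b) {v w : ℝ → ℝ × ℝ → ℝ} {v₀ w₀ : ℝ × ℝ → ℝ}
    (cv : ∀ t₁ ∈ Ioc 0 b, ContinuousOn (uncurry v) (Icc t₁ b ×ˢ (univ ×ˢ Icc 0 h)))
    (cw : ∀ t₁ ∈ Ioc 0 b, ContinuousOn (uncurry w) (Icc t₁ b ×ˢ (univ ×ˢ Icc 0 h)))
    (m₀ : MemLp v₀ 2 (volume.restrict (Icc (-H) H ×ˢ Icc 0 h)))
    (m₁ : MemLp w₀ 2 (volume.restrict (Icc (-H) H ×ˢ Icc 0 h)))
    (hi : Tendsto (fun t => ∫ q in Icc (-H) H ×ˢ Icc 0 h, ((v t q - v₀ q) ^ 2 + (w t q - w₀ q) ^ 2))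
      (𝓝[>] 0) (𝓝 0)) :
    ∃ C, ∀ t ∈ Ioc 0 b, ∫ q in Icc (-H) H ×ˢ Icc 0 h, (v t q ^ 2 + w t q ^ 2) ≤ C := by
  have hKc : IsCompact (Icc (-H) H ×ˢ Icc 0 h : Set (ℝ × ℝ)) := isCompact_Icc.prod isCompact_Icc
  have : IsFiniteMeasure (volume.restrict (Icc (-H) H ×ˢ Icc 0 h : Set (ℝ × ℝ))) :=
    ⟨by rw [Measure.restrict_apply_univ]; exact hKc.measure_lt_top⟩
  have h1 : ∀ᶠ t in 𝓝[>] (0:ℝ), ∫ q in Icc (-H) H ×ˢ Icc 0 h,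
      ((v t q - v₀ q) ^ 2 + (w t q - w₀ q) ^ 2) < 1 := hi.eventually (gt_mem_nhds one_pos)
  obtain ⟨δ, hδ, h2⟩ := mem_nhdsGT_iff_exists_Ioo_subset.1 h1
  have hδ0 : (0:ℝ) < δ := hδ
  obtain ⟨t₁, ht₁, ht₁b⟩ : ∃ t₁, t₁ ∈ Ioc 0 b ∧ t₁ < δ :=
    ⟨min b (δ / 2), ⟨lt_min hb (by linarith), min_le_left _ _⟩,
      (min_le_right _ _).trans_lt (by linarith)⟩
  have hK : IsCompact (Icc t₁ b ×ˢ (Icc (-H) H ×ˢ Icc 0 h) : Set (ℝ × (ℝ × ℝ))) :=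
    isCompact_Icc.prod hKc
  have sub1 : (Icc t₁ b ×ˢ (Icc (-H) H ×ˢ Icc 0 h) : Set (ℝ × (ℝ × ℝ))) ⊆
      Icc t₁ b ×ˢ (univ ×ˢ Icc 0 h) := prod_mono subset_rfl (prod_mono (subset_univ _) subset_rfl)
  obtain ⟨M₁, hM₁⟩ := hK.exists_bound_of_continuousOn ((cv t₁ ht₁).mono sub1)
  obtain ⟨M₂, hM₂⟩ := hK.exists_bound_of_continuousOn ((cw t₁ ht₁).mono sub1)
  have sv : ∀ t ∈ Ioc 0 b, ContinuousOn (v t) (univ ×ˢ Icc 0 h) := fun t ht =>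
    (cv t ht).comp (f := fun q : ℝ × ℝ => (t, q)) (by fun_prop) fun q hq => ⟨⟨le_rfl, ht.2⟩, hq⟩
  have sw : ∀ t ∈ Ioc 0 b, ContinuousOn (w t) (univ ×ˢ Icc 0 h) := fun t ht =>
    (cw t ht).comp (f := fun q : ℝ × ℝ => (t, q)) (by fun_prop) fun q hq => ⟨⟨le_rfl, ht.2⟩, hq⟩
  refine ⟨max ((|M₁| ^ 2 + |M₂| ^ 2) * (volume : Measure (ℝ × ℝ)).real (Icc (-H) H ×ˢ Icc 0 h))
    (2 + 2 * ∫ q in Icc (-H) H ×ˢ Icc 0 h, (v₀ q ^ 2 + w₀ q ^ 2)), fun t ht => ?_⟩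
  have i0 := integrableOn_sq (memLp_cell (H := H) (sv t ht)) (memLp_cell (sw t ht))
  by_cases htt : t < t₁
  · refine le_trans ?_ (le_max_right _ _)
    have h3 : ∫ q in Icc (-H) H ×ˢ Icc 0 h, ((v t q - v₀ q) ^ 2 + (w t q - w₀ q) ^ 2) < 1 :=
      h2 ⟨ht.1, htt.trans ht₁b⟩
    have i1 := integrableOn_sq ((memLp_cell (H := H) (sv t ht)).sub m₀) ((memLp_cell (sw t ht)).sub m₁)
    have i2 := integrableOn_sq m₀ m₁
    have h4 : ∫ q in Icc (-H) H ×ˢ Icc 0 h, (v t q ^ 2 + w t q ^ 2) ≤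
        ∫ q in Icc (-H) H ×ˢ Icc 0 h, (2 * ((v t q - v₀ q) ^ 2 + (w t q - w₀ q) ^ 2) +
          2 * (v₀ q ^ 2 + w₀ q ^ 2)) := by
      refine integral_mono i0 ((i1.const_mul 2).add (i2.const_mul 2)) fun q => ?_
      have := sq_split2 (v t q) (v₀ q)
      have := sq_split2 (w t q) (w₀ q)
      show v t q ^ 2 + w t q ^ 2 ≤ 2 * ((v t q - v₀ q) ^ 2 + (w t q - w₀ q) ^ 2) +
        2 * (v₀ q ^ 2 + w₀ q ^ 2)
      linarith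
    have h5 : ∫ q in Icc (-H) H ×ˢ Icc 0 h, (2 * ((v t q - v₀ q) ^ 2 + (w t q - w₀ q) ^ 2) +
          2 * (v₀ q ^ 2 + w₀ q ^ 2)) =
        2 * (∫ q in Icc (-H) H ×ˢ Icc 0 h, ((v t q - v₀ q) ^ 2 + (w t q - w₀ q) ^ 2)) +
          2 * ∫ q in Icc (-H) H ×ˢ Icc 0 h, (v₀ q ^ 2 + w₀ q ^ 2) := by
      rw [← integral_const_mul, ← integral_const_mul]
      exact integral_add (i1.const_mul 2) (i2.const_mul 2)
    rw [h5] at h4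
    linarith
  · refine le_trans ?_ (le_max_left _ _)
    have ht' : t ∈ Icc t₁ b := ⟨not_lt.1 htt, ht.2⟩
    have h1 : ∫ q in Icc (-H) H ×ˢ Icc 0 h, (v t q ^ 2 + w t q ^ 2) ≤
        ∫ q in (Icc (-H) H ×ˢ Icc 0 h : Set (ℝ × ℝ)), (|M₁| ^ 2 + |M₂| ^ 2) := by
      refine setIntegral_mono_on i0 (integrable_const _) hKc.measurableSet fun q hq => ?_
      have h2 : |v t q| ≤ |M₁| := (hM₁ (t, q) ⟨ht', hq⟩).trans (le_abs_self _)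
      have h3 : |w t q| ≤ |M₂| := (hM₂ (t, q) ⟨ht', hq⟩).trans (le_abs_self _)
      rw [← sq_abs (v t q), ← sq_abs (w t q)]
      gcongr
    refine h1.trans (le_of_eq ?_)
    rw [setIntegral_const, smul_eq_mul, mul_comm]

/-- **The strip solution.** `N` bounds the background in the energy norms. -/
theorem strip_of_sol (ha : PY H a) (hGa : G.a = fam a) {h : ℝ} (hh0 : 0 ≤ h) (hh : h ≤ G.ρ)
    {b : ℝ} (hb : 0 < b) {B : Bg H} {x : ℝ → HH H} (hM : ∀ t₀ ∈ Ioc 0 b, G.BgM B t₀ b)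
    (hs : ∀ t₀ ∈ Ioc 0 b, G.Sol B t₀ b (0, x t₀) fun t => (0, x t)) (hr : ∀ t ∈ Ioc 0 b, Rl (x t))
    (h0 : Tendsto (fun t => ‖Kh G.D.K (x t)‖) (𝓝[>] 0) (𝓝 0))
    {R : ℝ} (hE : ∀ t₀ ∈ Ioc 0 b, ∫ r in t₀..b, ‖x r‖ ^ 2 ≤ R) {N : ℝ → ℝ}
    (hN : ∀ t₀ ∈ Ioc 0 b, ContinuousOn N (Icc t₀ b)) (hN2 : ∀ t₀ ∈ Ioc 0 b, ∫ r in t₀..b, N r ^ 2 ≤ R)
    (hg : ∀ r ∈ Ioc 0 b, ‖B.gL r‖ ≤ N r)
    (hv : ∀ r ∈ Ioc 0 b, ∑' n : ℤ, (|G.ω * n| * ‖(iota (hf G.lam (B.ve r) n) : Z2 H)‖) ^ 2 ≤ N r ^ 2)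
    (hw : ∀ r ∈ Ioc 0 b, ∑' n : ℤ, (|G.ω * n| * ‖(iota (hf G.lam (B.we r) n) : Z2 H)‖) ^ 2 ≤ N r ^ 2)
    {v₀ w₀ : ℝ × ℝ → ℝ} (m₀ : MemLp v₀ 2 (volume.restrict (Icc (-H) H ×ˢ Icc 0 h)))
    (m₁ : MemLp w₀ 2 (volume.restrict (Icc (-H) H ×ˢ Icc 0 h)))
    (hi : Tendsto (fun t => ∫ q in Icc (-H) H ×ˢ Icc 0 h,
      ((fld G.ω (G.vf B t 0) q.1 q.2 - v₀ q) ^ 2 + (fld G.ω (G.wf B t 0) q.1 q.2 - w₀ q) ^ 2))
      (𝓝[>] 0) (𝓝 0)) :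
    StripSol H h a b (fun t q => fld G.ω (G.vf B t (0, x t)) q.1 q.2)
      (fun t q => fld G.ω (G.wf B t (0, x t)) q.1 q.2) v₀ w₀ := by
  have hH0 := hH.out
  have hhH : h ≤ H := hh.trans G.ρH.le
  have hms := G.strip_msol hh0 hh hM hs hr
  have hN0 : ∀ r ∈ Ioc 0 b, 0 ≤ N r := fun r hr => (norm_nonneg _).trans (hg r hr)
  have hKc : IsCompact (Icc (-H) H ×ˢ Icc 0 h : Set (ℝ × ℝ)) := isCompact_Icc.prod isCompact_Icc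
  have : IsFiniteMeasure (volume.restrict (Icc (-H) H ×ˢ Icc 0 h : Set (ℝ × ℝ))) :=
    ⟨by rw [Measure.restrict_apply_univ]; exact hKc.measure_lt_top⟩
  -- the pieces
  have hP : ∀ t₁ ∈ Ioc 0 b, Piece H h a t₁ b (fun t q => fld G.ω (G.vf B t (0, x t)) q.1 q.2)
      (fun t q => fld G.ω (G.wf B t (0, x t)) q.1 q.2) := by
    intro t₁ ht₁
    obtain ⟨v, w, M, hvw, -⟩ := hms t₁ ht₁
    have P := G.pcT ha hGa G.hω hhH t₁ b v w _ M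
    refine P.congr (fun t ht q _ => ?_) (fun t ht q _ => ?_)
    · show fld G.ω (G.vf B t (0, x t)) q.1 q.2 = fld G.ω (v t) q.1 q.2
      rw [show ⇑(v t) = G.vf B t (0, x t) from funext fun n => (hvw t ht n).1]
    · show fld G.ω (G.wf B t (0, x t)) q.1 q.2 = fld G.ω (w t) q.1 q.2
      rw [show ⇑(w t) = G.wf B t (0, x t) from funext fun n => (hvw t ht n).2]
  have cv := cont_Ioc fun t₁ ht₁ => (hP t₁ ht₁).cont₁
  have cw := cont_Ioc fun t₁ ht₁ => (hP t₁ ht₁).cont₂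
  -- the initial data
  have hin : Tendsto (fun t => ∫ q in Icc (-H) H ×ˢ Icc 0 h,
      ((fld G.ω (G.vf B t (0, x t)) q.1 q.2 - v₀ q) ^ 2 +
        (fld G.ω (G.wf B t (0, x t)) q.1 q.2 - w₀ q) ^ 2)) (𝓝[>] 0) (𝓝 0) := by
    have hup : Tendsto (fun t => 32 * H * ‖Kh G.D.K (x t)‖ ^ 2 + 2 * ∫ q in Icc (-H) H ×ˢ Icc 0 h,
        ((fld G.ω (G.vf B t 0) q.1 q.2 - v₀ q) ^ 2 + (fld G.ω (G.wf B t 0) q.1 q.2 - w₀ q) ^ 2))
        (𝓝[>] 0) (𝓝 0) := by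
      simpa using ((h0.pow 2).const_mul (32 * H)).add (hi.const_mul 2)
    refine tendsto_of_tendsto_of_tendsto_of_le_of_le' tendsto_const_nhds hup
      (Eventually.of_forall fun t => integral_nonneg fun q => by positivity) ?_
    filter_upwards [Ioc_mem_nhdsGT hb] with t ht
    obtain ⟨v, w, M, hvw, hsum⟩ := hms t ht
    have htt : t ∈ Icc t b := ⟨le_rfl, ht.2⟩
    have hV := hsum t htt
    have hVf : Summable fun n => ‖G.vf B t (0, x t) n‖ := by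
      have h1 := l1_summable (v t)
      exact h1.congr fun n => by rw [(hvw t htt n).1]
    have hWf : Summable fun n => ‖G.wf B t (0, x t) n‖ := by
      have h1 := l1_summable (w t)
      exact h1.congr fun n => by rw [(hvw t htt n).2]
    have s1 : Summable fun n => ‖uV G.ω (Vf G.ω (G.Qd (x t))) n‖ :=
      Summable.of_nonneg_of_le (fun _ => norm_nonneg _) (fun n => norm_uV_le G.ω _ n) (hV.mul_left 2)
    have s2 : Summable fun n => ‖wV G.ω (Vf G.ω (G.Qd (x t))) n‖ :=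
      Summable.of_nonneg_of_le (fun _ => norm_nonneg _) (fun n => norm_wV_le G.ω _ n) (hV.mul_left 1)
    have s3 : Summable fun n => ‖G.vf B t 0 n‖ := by
      refine Summable.of_nonneg_of_le (fun _ => norm_nonneg _) (fun n => ?_) (hVf.add s1)
      have e : G.vf B t 0 n = G.vf B t (0, x t) n - uV G.ω (Vf G.ω (G.Qd (x t))) n := by
        rw [G.vf_split B t (0, x t) n, add_sub_cancel_left]
      rw [e]
      exact norm_sub_le _ _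
    have s4 : Summable fun n => ‖G.wf B t 0 n‖ := by
      refine Summable.of_nonneg_of_le (fun _ => norm_nonneg _) (fun n => ?_) (hWf.add s2)
      have e : G.wf B t 0 n = G.wf B t (0, x t) n - wV G.ω (Vf G.ω (G.Qd (x t))) n := by
        rw [G.wf_split B t (0, x t) n, add_sub_cancel_left]
      rw [e]
      exact norm_sub_le _ _
    have hRl : Rl (G.Qd (x t)) := (Rl_iff _).2 (by
      rw [G.cj_Qd, (Rl_iff _).1 (hr t ht)])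
    obtain ⟨b1, b2⟩ := cell_vel G hRl hV hhH
    rw [G.TT_Qd] at b1 b2
    have ev : ∀ q : ℝ × ℝ, fld G.ω (G.vf B t (0, x t)) q.1 q.2 =
        fld G.ω (uV G.ω (Vf G.ω (G.Qd (x t)))) q.1 q.2 + fld G.ω (G.vf B t 0) q.1 q.2 := fun q => by
      rw [← fld_add s1 s3]
      congr 1
      exact funext fun n => G.vf_split B t (0, x t) n
    have ew : ∀ q : ℝ × ℝ, fld G.ω (G.wf B t (0, x t)) q.1 q.2 =
        fld G.ω (wV G.ω (Vf G.ω (G.Qd (x t)))) q.1 q.2 + fld G.ω (G.wf B t 0) q.1 q.2 := fun q => by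
      rw [← fld_add s2 s4]
      congr 1
      exact funext fun n => G.wf_split B t (0, x t) n
    have l1 : MemLp (fun q : ℝ × ℝ => fld G.ω (uV G.ω (Vf G.ω (G.Qd (x t)))) q.1 q.2) 2
        (volume.restrict (Icc (-H) H ×ˢ Icc 0 h)) := memLp_cell (fld_cont s1).continuousOn
    have l2' : MemLp (fun q : ℝ × ℝ => fld G.ω (wV G.ω (Vf G.ω (G.Qd (x t)))) q.1 q.2) 2
        (volume.restrict (Icc (-H) H ×ˢ Icc 0 h)) := memLp_cell (fld_cont s2).continuousOn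
    have l3 : MemLp (fun q : ℝ × ℝ => fld G.ω (G.vf B t 0) q.1 q.2) 2
        (volume.restrict (Icc (-H) H ×ˢ Icc 0 h)) := memLp_cell (fld_cont s3).continuousOn
    have l4 : MemLp (fun q : ℝ × ℝ => fld G.ω (G.wf B t 0) q.1 q.2) 2
        (volume.restrict (Icc (-H) H ×ˢ Icc 0 h)) := memLp_cell (fld_cont s4).continuousOn
    have l5 : MemLp (fun q : ℝ × ℝ => fld G.ω (G.vf B t (0, x t)) q.1 q.2) 2
        (volume.restrict (Icc (-H) H ×ˢ Icc 0 h)) := memLp_cell (fld_cont hVf).continuousOn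
    have l6 : MemLp (fun q : ℝ × ℝ => fld G.ω (G.wf B t (0, x t)) q.1 q.2) 2
        (volume.restrict (Icc (-H) H ×ˢ Icc 0 h)) := memLp_cell (fld_cont hWf).continuousOn
    have i1 := integrableOn_sq l1 l2'
    have i2 := integrableOn_sq (l3.sub m₀) (l4.sub m₁)
    have i3 := integrableOn_sq (l5.sub m₀) (l6.sub m₁)
    have h4 : ∫ q in Icc (-H) H ×ˢ Icc 0 h, ((fld G.ω (G.vf B t (0, x t)) q.1 q.2 - v₀ q) ^ 2 +
        (fld G.ω (G.wf B t (0, x t)) q.1 q.2 - w₀ q) ^ 2) ≤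
        ∫ q in Icc (-H) H ×ˢ Icc 0 h,
          (2 * (fld G.ω (uV G.ω (Vf G.ω (G.Qd (x t)))) q.1 q.2 ^ 2 +
            fld G.ω (wV G.ω (Vf G.ω (G.Qd (x t)))) q.1 q.2 ^ 2) +
          2 * ((fld G.ω (G.vf B t 0) q.1 q.2 - v₀ q) ^ 2 +
            (fld G.ω (G.wf B t 0) q.1 q.2 - w₀ q) ^ 2)) := by
      refine integral_mono i3 ((i1.const_mul 2).add (i2.const_mul 2)) fun q => ?_
      show (fld G.ω (G.vf B t (0, x t)) q.1 q.2 - v₀ q) ^ 2 +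
        (fld G.ω (G.wf B t (0, x t)) q.1 q.2 - w₀ q) ^ 2 ≤
        2 * (fld G.ω (uV G.ω (Vf G.ω (G.Qd (x t)))) q.1 q.2 ^ 2 +
            fld G.ω (wV G.ω (Vf G.ω (G.Qd (x t)))) q.1 q.2 ^ 2) +
          2 * ((fld G.ω (G.vf B t 0) q.1 q.2 - v₀ q) ^ 2 +
            (fld G.ω (G.wf B t 0) q.1 q.2 - w₀ q) ^ 2)
      rw [ev, ew]
      have c1 := sq_split (fld G.ω (uV G.ω (Vf G.ω (G.Qd (x t)))) q.1 q.2)
        (fld G.ω (G.vf B t 0) q.1 q.2) (v₀ q)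
      have c2 := sq_split (fld G.ω (wV G.ω (Vf G.ω (G.Qd (x t)))) q.1 q.2)
        (fld G.ω (G.wf B t 0) q.1 q.2) (w₀ q)
      linarith
    have h5 : ∫ q in Icc (-H) H ×ˢ Icc 0 h,
          (2 * (fld G.ω (uV G.ω (Vf G.ω (G.Qd (x t)))) q.1 q.2 ^ 2 +
            fld G.ω (wV G.ω (Vf G.ω (G.Qd (x t)))) q.1 q.2 ^ 2) +
          2 * ((fld G.ω (G.vf B t 0) q.1 q.2 - v₀ q) ^ 2 +
            (fld G.ω (G.wf B t 0) q.1 q.2 - w₀ q) ^ 2)) =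
        2 * (∫ q in Icc (-H) H ×ˢ Icc 0 h, (fld G.ω (uV G.ω (Vf G.ω (G.Qd (x t)))) q.1 q.2 ^ 2 +
            fld G.ω (wV G.ω (Vf G.ω (G.Qd (x t)))) q.1 q.2 ^ 2)) +
          2 * ∫ q in Icc (-H) H ×ˢ Icc 0 h, ((fld G.ω (G.vf B t 0) q.1 q.2 - v₀ q) ^ 2 +
            (fld G.ω (G.wf B t 0) q.1 q.2 - w₀ q) ^ 2) := by
      rw [← integral_const_mul, ← integral_const_mul]
      exact integral_add (i1.const_mul 2) (i2.const_mul 2)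
    have h6 : ∫ q in Icc (-H) H ×ˢ Icc 0 h, (fld G.ω (uV G.ω (Vf G.ω (G.Qd (x t)))) q.1 q.2 ^ 2 +
            fld G.ω (wV G.ω (Vf G.ω (G.Qd (x t)))) q.1 q.2 ^ 2) =
        (∫ q in Icc (-H) H ×ˢ Icc 0 h, fld G.ω (uV G.ω (Vf G.ω (G.Qd (x t)))) q.1 q.2 ^ 2) +
          ∫ q in Icc (-H) H ×ˢ Icc 0 h, fld G.ω (wV G.ω (Vf G.ω (G.Qd (x t)))) q.1 q.2 ^ 2 :=
      integral_add l1.integrable_sq l2'.integrable_sq
    rw [h5, h6] at h4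
    linarith
  refine ⟨hP, ?_, bdd_of_init hb (fun t₁ ht₁ => (hP t₁ ht₁).cont₁) (fun t₁ ht₁ => (hP t₁ ht₁).cont₂)
    m₀ m₁ hin, m₀, m₁, hin⟩
  -- the gradient
  obtain ⟨d, hd⟩ : ∃ d : ℝ, d = ‖G.Qd‖ + 1 := ⟨_, rfl⟩
  have hd0 : 0 ≤ d := by rw [hd]; positivity
  obtain ⟨K, hK⟩ : ∃ K : ℝ, K = √(2 * H) * (√(2 * (4 * d ^ 2 + 1)) + d) := ⟨_, rfl⟩
  have hK0 : 0 ≤ K := by rw [hK]; positivity
  have hxc : ∀ t₀ ∈ Ioc 0 b, ContinuousOn x (Icc t₀ b) := fun t₀ ht₀ =>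
    continuous_snd.comp_continuousOn (hs t₀ ht₀).cont
  have hC0 : ∀ t ∈ Ioc 0 b, 0 ≤ K * (‖x t‖ + N t) := fun t ht =>
    mul_nonneg hK0 (add_nonneg (norm_nonneg _) (hN0 t ht))
  have cC : ∀ t₀ ∈ Ioc 0 b, ContinuousOn (fun t => K * (‖x t‖ + N t)) (Icc t₀ b) := fun t₀ ht₀ =>
    continuousOn_const.mul ((hxc t₀ ht₀).norm.add (hN t₀ ht₀))
  have hR : ∀ t₀ ∈ Ioc 0 b, ∫ r in t₀..b, (K * (‖x r‖ + N r)) ^ 2 ≤ 4 * K ^ 2 * R := by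
    intro t₀ ht₀
    have i1 : IntervalIntegrable (fun r => ‖x r‖ ^ 2) volume t₀ b :=
      ((hxc t₀ ht₀).norm.pow 2).intervalIntegrable_of_Icc ht₀.2
    have i2 : IntervalIntegrable (fun r => N r ^ 2) volume t₀ b :=
      ((hN t₀ ht₀).pow 2).intervalIntegrable_of_Icc ht₀.2
    have h1 : ∫ r in t₀..b, (K * (‖x r‖ + N r)) ^ 2 ≤
        ∫ r in t₀..b, 2 * K ^ 2 * (‖x r‖ ^ 2 + N r ^ 2) := by
      refine intervalIntegral.integral_mono_on ht₀.2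
        (((cC t₀ ht₀).pow 2).intervalIntegrable_of_Icc ht₀.2) ((i1.add i2).const_mul _) fun r _ => ?_
      have := sq_nonneg (‖x r‖ - N r)
      have hK2 := sq_nonneg K
      rw [mul_pow]
      nlinarith [mul_nonneg hK2 this]
    refine h1.trans ?_
    rw [intervalIntegral.integral_const_mul, intervalIntegral.integral_add i1 i2]
    have a1 := hE t₀ ht₀
    have a2 := hN2 t₀ ht₀
    have hK2 := sq_nonneg K
    nlinarith [mul_le_mul_of_nonneg_left (add_le_add a1 a2) (mul_nonneg zero_le_two hK2)]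
  refine ⟨√(4 * K ^ 2 * R), fun φ hφ => ?_⟩
  -- at a fixed time
  have key : ∀ t ∈ Ioo 0 b, ∀ F : ℝ × ℝ → ℝ, IsTg H h F →
      |∫ q : ℝ × ℝ, fld G.ω (G.vf B t (0, x t)) q.1 q.2 * gy F q| ≤
        K * (‖x t‖ + N t) * √(∫ q, F q ^ 2) ∧
      |∫ q : ℝ × ℝ, fld G.ω (G.vf B t (0, x t)) q.1 q.2 * gz F q| ≤
        K * (‖x t‖ + N t) * √(∫ q, F q ^ 2) ∧
      |∫ q : ℝ × ℝ, fld G.ω (G.wf B t (0, x t)) q.1 q.2 * gy F q| ≤
        K * (‖x t‖ + N t) * √(∫ q, F q ^ 2) ∧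
      |∫ q : ℝ × ℝ, fld G.ω (G.wf B t (0, x t)) q.1 q.2 * gz F q| ≤
        K * (‖x t‖ + N t) * √(∫ q, F q ^ 2) := by
    intro t ht F hF
    have ht' : t ∈ Ioc 0 b := Ioo_subset_Ioc_self ht
    have htt : t ∈ Icc t b := ⟨le_rfl, ht.2.le⟩
    obtain ⟨v, w, M, hvw, -⟩ := hms t ht'
    have hs0 : 0 ≤ ‖x t‖ + N t := add_nonneg (norm_nonneg _) (hN0 t ht')
    have hD : ‖G.gt B t (0, x t)‖ ≤ d * (‖x t‖ + N t) := by
      refine (G.gt_norm B t (x t)).trans ?_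
      have a1 := hg t ht'
      have a2 := norm_nonneg (x t)
      have a3 := norm_nonneg (G.Qd)
      have a4 := hN0 t ht'
      rw [hd]
      nlinarith [mul_nonneg a3 a4]
    have hNs : N t ^ 2 ≤ (‖x t‖ + N t) ^ 2 :=
      pow_le_pow_left₀ (hN0 t ht') (by linarith [norm_nonneg (x t)]) 2
    obtain ⟨C₀, hC₀⟩ := (hM t ht').grad
    obtain ⟨⟨c1, -⟩, c2, -⟩ := hC₀ t htt
    obtain ⟨g1, g2⟩ := G.grad_gt (G.gt B t (0, x t))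
    have q1 := G.vel_sq B t (x t) hD (V := G.vf B t (0, x t)) (fun n => by
      rw [G.vf_apply, map_add]; exact norm_add_le _ _) g1 c1 ((hv t ht').trans hNs)
    have q2 := G.vel_sq B t (x t) hD (V := G.wf B t (0, x t)) (fun n => by
      rw [G.wf_apply, map_add]; exact norm_add_le _ _) g2 c2 ((hw t ht').trans hNs)
    have ev : ⇑(v t) = G.vf B t (0, x t) := funext fun n => (hvw t htt n).1
    have ew : ⇑(w t) = G.wf B t (0, x t) := funext fun n => (hvw t htt n).2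
    have f1 := l1_summable (v t)
    have f2 := l1_summable (w t)
    have f3 := M.rv t htt
    have f4 := M.rw t htt
    have f5 := M.rot t htt
    have f6 := M.div t htt
    rw [ev] at f1 f3 f5 f6
    rw [ew] at f2 f4 f5 f6
    have := wk_h1w G.hω hhH hF f1 f2 f3 f4 f5 f6 hD q1.1 q1.2 q2.1 q2.2
    rw [grad_real hd0 hs0 hK] at this
    exact this
  have e1 : ∀ t, gy (fun q => φ (t, q)) = fun q => sy φ (t, q) := fun t => slice_gy hφ.diff t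
  have e2 : ∀ t, gz (fun q => φ (t, q)) = fun q => SC.sz φ (t, q) := fun t => slice_gz hφ.diff t
  refine ⟨time_bound2 hb cv hφ hφ.sy hC0 cC hR fun t ht => ?_,
    time_bound2 hb cv hφ hφ.sz hC0 cC hR fun t ht => ?_,
    time_bound2 hb cw hφ hφ.sy hC0 cC hR fun t ht => ?_,
    time_bound2 hb cw hφ hφ.sz hC0 cC hR fun t ht => ?_⟩
  · have := (key t ht _ (hφ.slice t)).1
    rwa [e1] at this
  · have := (key t ht _ (hφ.slice t)).2.1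
    rwa [e2] at this
  · have := (key t ht _ (hφ.slice t)).2.2.1
    rwa [e1] at this
  · have := (key t ht _ (hφ.slice t)).2.2.2
    rwa [e2] at this

end Geo

end

end Pool.Agent.Lib.MP_79abb3_an.SC
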