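import Mathlib

/-!
Theorem C (MP_79abb3_an, simply connected planar domains): pieces of trajectories in the coordinate
strip, in physical variables `(y, z)`.

The metric of the domain is `|F'|² (dy² + dz²) = J (dy² + dz²)`, `a = 1/J`. The velocity `(v, w)` is the
coordinate velocity `v = ψ_z`, `w = -ψ_y` (`ψ` the stream function), `Om = w_y - v_z = -Δψ`, and the
Navier-Stokes equations in the domain are, tested with `∇^⊥ g = (g_z, -g_y)`,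
`d/dt ∫ (v g_z - w g_y) = ∫ a Om (Δg + u·∇g)`.
The right-hand side is written below without derivatives of the velocity.
-/

set_option autoImplicit false

open MeasureTheory Set Filter Topology Function

namespace Pool.Agent.Lib.MP_79abb3_an.SC

/-- Partial derivatives of functions of `(y, z)`. -/
noncomputable def gy (g : ℝ × ℝ → ℝ) (q : ℝ × ℝ) : ℝ := fderiv ℝ g q (1, 0)
noncomputable def gz (g : ℝ × ℝ → ℝ) (q : ℝ × ℝ) : ℝ := fderiv ℝ g q (0, 1)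
/-- Laplacian. -/
noncomputable def lapg (g : ℝ × ℝ → ℝ) (q : ℝ × ℝ) : ℝ := gy (gy g) q + gz (gz g) q

/-- Test functions `g ∈ C_c^∞((-H,H) × (0,h))`. -/
structure IsTg (H h : ℝ) (g : ℝ × ℝ → ℝ) : Prop where
  smooth : ContDiff ℝ ((⊤ : ℕ∞) : WithTop ℕ∞) g
  cpt : HasCompactSupport g
  supp : tsupport g ⊆ Ioo (-H) H ×ˢ Ioo 0 h

/-- `∫ (v g_z - w g_y)`. -/
noncomputable def mG (g : ℝ × ℝ → ℝ) (v w : ℝ × ℝ → ℝ) : ℝ := ∫ q, (v q * gz g q - w q * gy g q)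

/-- `∫ a Om (Δg + v g_y + w g_z)`, written without derivatives of `(v, w)`:
`∫ (v ∂_z(aΔg) - w ∂_y(aΔg)) + ∫ (v w (∂_z(a g_z) - ∂_y(a g_y)) - ½ (w² - v²) (∂_y(a g_z) + ∂_z(a g_y)))`. -/
noncomputable def lG (a g : ℝ × ℝ → ℝ) (v w : ℝ × ℝ → ℝ) : ℝ :=
  ∫ q, ((v q * gz (fun p => a p * lapg g p) q - w q * gy (fun p => a p * lapg g p) q) +
    (v q * w q * (gz (fun p => a p * gz g p) q - gy (fun p => a p * gy g p) q) -
      (w q ^ 2 - v q ^ 2) / 2 * (gy (fun p => a p * gz g p) q + gz (fun p => a p * gy g p) q)))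

/-- A piece of trajectory on `[t₀, t₁]` in the strip `ℝ × [0,h]`, cell `(-H,H)`, with the weight `a`. -/
structure Piece (H h : ℝ) (a : ℝ × ℝ → ℝ) (t₀ t₁ : ℝ) (v w : ℝ → ℝ × ℝ → ℝ) : Prop where
  cont₁ : ContinuousOn (uncurry v) (Icc t₀ t₁ ×ˢ (univ ×ˢ Icc 0 h))
  cont₂ : ContinuousOn (uncurry w) (Icc t₀ t₁ ×ˢ (univ ×ˢ Icc 0 h))
  /-- the velocity is in `H¹` uniformly in time -/
  h1 : ∃ C, ∀ t ∈ Icc t₀ t₁, ∀ φ, IsTg H h φ →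
    |∫ q, v t q * gy φ q| ≤ C * √(∫ q, φ q ^ 2) ∧ |∫ q, v t q * gz φ q| ≤ C * √(∫ q, φ q ^ 2) ∧
    |∫ q, w t q * gy φ q| ≤ C * √(∫ q, φ q ^ 2) ∧ |∫ q, w t q * gz φ q| ≤ C * √(∫ q, φ q ^ 2)
  div : ∀ t ∈ Icc t₀ t₁, ∀ φ, IsTg H h φ → ∫ q, (v t q * gy φ q + w t q * gz φ q) = 0
  ns : ∀ g, IsTg H h g → ∀ s₁ ∈ Icc t₀ t₁, ∀ s₂ ∈ Icc t₀ t₁,
    mG g (v s₂) (w s₂) - mG g (v s₁) (w s₁) = ∫ t in s₁..s₂, lG a g (v t) (w t)

/-- Boundary values: `v = w = 0` at `z = 0`. -/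
def NoSlip (t₀ t₁ : ℝ) (v w : ℝ → ℝ × ℝ → ℝ) : Prop :=
  ∀ t ∈ Icc t₀ t₁, ∀ y : ℝ, v t (y, 0) = 0 ∧ w t (y, 0) = 0

end Pool.Agent.Lib.MP_79abb3_an.SC
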