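import Pool.Agent.Lib.MP_79abb3_an.SC.FcDef
import Pool.Agent.Lib.MP_79abb3_an.SC.PieceDef

/-!
Theorem C, stage for `L²` data: the data of the problem in the strip.
-/

set_option autoImplicit false

open MeasureTheory Set Filter Topology Function

namespace Pool.Agent.Lib.MP_79abb3_an.SC

/-- The cell `[-(r+2), r+2] × [0, r+2]`. -/
def cellR (r : ℝ) : Set (ℝ × ℝ) := Icc (-(r + 2)) (r + 2) ×ˢ Icc 0 (r + 2)

/-- Data of the strip problem: limits in `L²` of the cell of `∇^⊥ ψ_j = (∂_z ψ_j, -∂_y ψ_j)` with smooth stream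
functions `ψ_j` which vanish for `|y| ≥ r + 1/2` or `|z| ≥ r + 1/2` and with gradient zero on the set `S` of the
line `z = 0`. -/
structure DataSeq (r : ℝ) (S : Set ℝ) (v₀ w₀ : ℝ × ℝ → ℝ) : Prop where
  seq : ∃ ψ : ℕ → ℝ × ℝ → ℝ, (∀ j, PY (r + 2) (ψ j)) ∧
    (∀ j y z, r + 1 / 2 ≤ |y| ∨ r + 1 / 2 ≤ |z| → ψ j (y, z) = 0) ∧
    (∀ j, ∀ y ∈ S, gz (ψ j) (y, 0) = 0 ∧ gy (ψ j) (y, 0) = 0) ∧
    Tendsto (fun j => ∫ q in cellR r, ((gz (ψ j) q - v₀ q) ^ 2 + (gy (ψ j) q + w₀ q) ^ 2)) atTop (𝓝 0)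
  m₁ : MemLp v₀ 2 (volume.restrict (cellR r))
  m₂ : MemLp w₀ 2 (volume.restrict (cellR r))

end Pool.Agent.Lib.MP_79abb3_an.SC
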