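import Pool.Agent.Lib.MP_79abb3_an.SC.ChPb
import Pool.Agent.Lib.MP_79abb3_an.SC.FcA
import Pool.Agent.Lib.MP_79abb3_an.SC.L2Ga
import Pool.Agent.Lib.MP_79abb3_an.SC.L2Gb

/-!
Theorem C, stage for `L²` data, the data, part c: stream functions in the strip from stream functions in
the plane.
-/

set_option autoImplicit false
set_option linter.unusedSectionVars false

open MeasureTheory Set Filter Topology Function
open scoped ENNReal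

namespace Pool.Agent.Lib.MP_79abb3_an.SC

/-- The square and balls. -/
private theorem gc_sq_sub {R : ℝ} (q : ℝ × ℝ) (hq : q ∈ Icc (-R) R ×ˢ Icc (-R) R) :
    cxp q ∈ Metric.ball (0 : ℂ) (2 * R + 1) := by
  rw [mem_ball_zero_iff]
  have h1 : ‖cxp q‖ ≤ |(cxp q).re| + |(cxp q).im| := Complex.norm_le_abs_re_add_abs_im _
  have h2 : |(cxp q).re| ≤ R := abs_le.2 hq.1
  have h3 : |(cxp q).im| ≤ R := abs_le.2 hq.2
  linarith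

private theorem gc_ball_sub {R R' : ℝ} (hR : R' ≤ R) (q : ℝ × ℝ) (hq : cxp q ∈ Metric.ball (0 : ℂ) R') :
    q ∈ Icc (-R) R ×ˢ Icc (-R) R := by
  rw [mem_ball_zero_iff] at hq
  have h1 : |(cxp q).re| ≤ ‖cxp q‖ := Complex.abs_re_le_norm _
  have h2 : |(cxp q).im| ≤ ‖cxp q‖ := Complex.abs_im_le_norm _
  exact ⟨abs_le.1 (by linarith : |(cxp q).re| ≤ R), abs_le.1 (by linarith : |(cxp q).im| ≤ R)⟩

/-- The Poincaré inequality in the plane. -/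
theorem poinc_ball (R' : ℝ) : ∃ R₀ R₁ : ℝ, ∃ C : ℝ≥0∞, C ≠ ∞ ∧ ∀ Φ : ℂ → ℝ, ContDiff ℝ 1 Φ →
    ∫⁻ x in Metric.ball 0 R', ‖Φ x - avg R₀ (fun q => Φ (cxp q))‖ₑ ^ 2 ≤
      C * ∫⁻ x in Metric.ball 0 R₁, ‖fderiv ℝ Φ x‖ₑ ^ 2 ∧ R' ≤ R₁ := by
  set R₀ : ℝ := max R' 1 with hR₀
  have hR0 : 0 < R₀ := lt_of_lt_of_le one_pos (le_max_right _ _)
  obtain ⟨C, hC, h1⟩ := poinc hR0
  have hL : ‖cxpL‖ₑ ≠ ∞ := enorm_ne_top
  refine ⟨R₀, 2 * R₀ + 1, C * ‖cxpL‖ₑ ^ 2, ENNReal.mul_ne_top hC (by simp), fun Φ hΦ =>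
    ⟨?_, by have := le_max_left R' 1; linarith⟩⟩
  have hc : ContDiff ℝ 1 fun q : ℝ × ℝ => Φ (cxp q) := hΦ.comp cxp_contDiff
  have h2 := h1 _ hc
  set c := avg R₀ fun q => Φ (cxp q) with hcd
  have e1 : ∫⁻ x in Metric.ball 0 R', ‖Φ x - c‖ₑ ^ 2 ≤
      ∫⁻ q in Icc (-R₀) R₀ ×ˢ Icc (-R₀) R₀, ‖Φ (cxp q) - c‖ₑ ^ 2 := by
    rw [← lintegral_cxp measurableSet_ball (fun x => ‖Φ x - c‖ₑ ^ 2)]
    exact lintegral_mono_set fun q hq => gc_ball_sub (le_max_left _ _) q hq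
  have e2 : ∫⁻ q in Icc (-R₀) R₀ ×ˢ Icc (-R₀) R₀, ‖fderiv ℝ (fun q : ℝ × ℝ => Φ (cxp q)) q‖ₑ ^ 2 ≤
      ‖cxpL‖ₑ ^ 2 * ∫⁻ x in Metric.ball 0 (2 * R₀ + 1), ‖fderiv ℝ Φ x‖ₑ ^ 2 := by
    rw [← lintegral_cxp measurableSet_ball (fun x => ‖fderiv ℝ Φ x‖ₑ ^ 2),
      ← lintegral_const_mul' _ _ (by simp)]
    refine (lintegral_mono_set (fun q hq => gc_sq_sub q hq)).trans (lintegral_mono fun q => ?_)
    have h3 : fderiv ℝ (fun q : ℝ × ℝ => Φ (cxp q)) q = (fderiv ℝ Φ (cxp q)).comp cxpL :=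
      ((hΦ.differentiable (by simp) (cxp q)).hasFDerivAt.comp q (cxp_hasFDerivAt q)).fderiv
    rw [h3, ← mul_pow, mul_comm]
    refine pow_le_pow_left' ?_ 2
    rw [← ofReal_norm, ← ofReal_norm, ← ofReal_norm, ← ENNReal.ofReal_mul (norm_nonneg _)]
    exact ENNReal.ofReal_le_ofReal (ContinuousLinearMap.opNorm_comp_le _ _)
  calc _ ≤ _ := e1
    _ ≤ _ := h2
    _ ≤ C * (‖cxpL‖ₑ ^ 2 * ∫⁻ x in Metric.ball 0 (2 * R₀ + 1), ‖fderiv ℝ Φ x‖ₑ ^ 2) :=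
      mul_le_mul_right e2 _
    _ = _ := by rw [mul_assoc]

/-- The stream function in the strip. -/
noncomputable def psiOf (κ : ℝ × ℝ → ℝ) (G : ℂ → ℂ) (R₀ : ℝ) (Φ : ℂ → ℝ) (q : ℝ × ℝ) : ℝ :=
  κ q * (Φ (G (cxp q)) - avg R₀ fun q => Φ (cxp q))

theorem psiOf_sub (κ : ℝ × ℝ → ℝ) (G : ℂ → ℂ) (R₀ : ℝ) {Φ Φ' : ℂ → ℝ} (hΦ : Continuous Φ)
    (hΦ' : Continuous Φ') (q : ℝ × ℝ) :
    psiOf κ G R₀ (fun x => Φ x - Φ' x) q = psiOf κ G R₀ Φ q - psiOf κ G R₀ Φ' q := by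
  have h1 := avg_sub (R := R₀) (hΦ.comp cxp_cont) (hΦ'.comp cxp_cont)
  rw [psiOf, psiOf, psiOf]
  have h2 : (avg R₀ fun q => Φ (cxp q) - Φ' (cxp q)) =
      (avg R₀ fun q => Φ (cxp q)) - avg R₀ fun q => Φ' (cxp q) := h1
  rw [h2]
  ring

/-- **Chart bound.** -/
theorem chart_bound {G : ℂ → ℂ} (hG : ContDiff ℝ ((⊤ : ℕ∞) : WithTop ℕ∞) G) {K : Set ℂ}
    (hK : IsCompact K) (hd : ∀ ζ ∈ K, (fderiv ℝ G ζ).det ≠ 0) {r : ℝ}
    (hb : ∀ ζ ∈ K, |ζ.re| < r ∧ |ζ.im| < r) :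
    ∃ κ : ℝ × ℝ → ℝ, ContDiff ℝ ((⊤ : ℕ∞) : WithTop ℕ∞) κ ∧ (∀ q, cxp q ∈ K → κ =ᶠ[𝓝 q] fun _ => 1) ∧
      (∀ q, r ≤ |q.1| ∨ r ≤ |q.2| → κ q = 0) ∧ ∃ R₀ R₁ : ℝ, ∃ C : ℝ≥0∞, C ≠ ∞ ∧
      ∀ Φ : ℂ → ℝ, ContDiff ℝ 1 Φ → ∫⁻ q, ‖fderiv ℝ (psiOf κ G R₀ Φ) q‖ₑ ^ 2 ≤
        C * ∫⁻ x in Metric.ball 0 R₁, ‖fderiv ℝ Φ x‖ₑ ^ 2 := by
  obtain ⟨U, hUo, hKU, C, hC, R', hcomp⟩ := exists_comp_bound hG hK hd
  obtain ⟨R₀, R₁, C', hC', hpo⟩ := poinc_ball R'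
  set W : Set (ℝ × ℝ) := cxp ⁻¹' U ∩ {q | |q.1| < r ∧ |q.2| < r} with hW
  have hWo : IsOpen W := (hUo.preimage cxp_cont).inter
    ((isOpen_lt continuous_fst.abs continuous_const).inter
      (isOpen_lt continuous_snd.abs continuous_const))
  have hKc : IsClosed (cxp ⁻¹' K) := hK.isClosed.preimage cxp_cont
  have hdis : Disjoint Wᶜ (cxp ⁻¹' K) := by
    rw [disjoint_compl_left_iff_subset]
    exact fun q hq => ⟨hKU hq, hb _ hq⟩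
  obtain ⟨f, hf0, hf1, hf⟩ := exists_contMDiffMap_zero_one_nhds_of_isClosed (n := ⊤)
    (modelWithCornersSelf ℝ (ℝ × ℝ)) hWo.isClosed_compl hKc hdis
  have hfs : ContDiff ℝ ((⊤ : ℕ∞) : WithTop ℕ∞) f := f.contMDiff.contDiff
  set κ : ℝ × ℝ → ℝ := fun q => f q with hκ
  have hκs : ContDiff ℝ ((⊤ : ℕ∞) : WithTop ℕ∞) κ := hfs
  have hκ0 : ∀ q, q ∉ W → κ =ᶠ[𝓝 q] fun _ => 0 := fun q hq =>
    (eventually_nhdsSet_iff_forall.1 hf0) q hq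
  have hκ1 : ∀ q, cxp q ∈ K → κ =ᶠ[𝓝 q] fun _ => 1 := fun q hq =>
    (eventually_nhdsSet_iff_forall.1 hf1) q hq
  -- bounds
  have hbox : IsCompact (Icc (-r) r ×ˢ Icc (-r) r : Set (ℝ × ℝ)) := isCompact_Icc.prod isCompact_Icc
  have hWb : ∀ q ∈ W, q ∈ (Icc (-r) r ×ˢ Icc (-r) r : Set (ℝ × ℝ)) := fun q hq =>
    ⟨abs_le.1 hq.2.1.le, abs_le.1 hq.2.2.le⟩
  obtain ⟨B₁, hB₁⟩ := hbox.exists_bound_of_continuousOn
    (hκs.continuous_fderiv (by simp)).continuousOn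
  have hGs : ContDiff ℝ ((⊤ : ℕ∞) : WithTop ℕ∞) fun q : ℝ × ℝ => G (cxp q) := hG.comp cxp_contDiff
  obtain ⟨B₂, hB₂⟩ := hbox.exists_bound_of_continuousOn
    (hGs.continuous_fderiv (by simp)).continuousOn
  set b₁ : ℝ≥0∞ := ENNReal.ofReal B₁ with hb₁
  set b₂ : ℝ≥0∞ := ENNReal.ofReal B₂ with hb₂
  have hb1 : b₁ ≠ ∞ := ENNReal.ofReal_ne_top
  have hb2 : b₂ ≠ ∞ := ENNReal.ofReal_ne_top
  refine ⟨κ, hκs, hκ1, fun q hq => ?_, R₀, R₁, C * (2 * (b₂ ^ 2 + b₁ ^ 2 * C')), ?_, fun Φ hΦ => ?_⟩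
  · refine (hκ0 q fun hw => ?_).self_of_nhds
    rcases hq with h | h
    · exact absurd hw.2.1 (not_lt.2 h)
    · exact absurd hw.2.2 (not_lt.2 h)
  · exact ENNReal.mul_ne_top hC (ENNReal.mul_ne_top (by simp) (ENNReal.add_ne_top.2
      ⟨ENNReal.pow_ne_top hb2, ENNReal.mul_ne_top (ENNReal.pow_ne_top hb1) hC'⟩))
  · set c := avg R₀ fun q => Φ (cxp q) with hc
    have hdΦ : Differentiable ℝ Φ := hΦ.differentiable (by simp)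
    have hdG : Differentiable ℝ fun q : ℝ × ℝ => G (cxp q) := hGs.differentiable (by simp)
    have hdκ : Differentiable ℝ κ := hκs.differentiable (by simp)
    set g : ℂ → ℝ≥0∞ := fun x => 2 * (b₂ ^ 2 * ‖fderiv ℝ Φ x‖ₑ ^ 2 + b₁ ^ 2 * ‖Φ x - c‖ₑ ^ 2) with hg
    have key : ∀ q, ‖fderiv ℝ (psiOf κ G R₀ Φ) q‖ₑ ^ 2 ≤
        (cxp ⁻¹' U).indicator (fun q => g (G (cxp q))) q := by
      intro q
      by_cases hq : q ∈ W
      · rw [indicator_of_mem hq.1]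
        have h1 : HasFDerivAt (psiOf κ G R₀ Φ) (κ q • (fderiv ℝ Φ (G (cxp q))).comp
            (fderiv ℝ (fun q : ℝ × ℝ => G (cxp q)) q) + (Φ (G (cxp q)) - c) • fderiv ℝ κ q) q := by
          have h2 : HasFDerivAt (fun q : ℝ × ℝ => Φ (G (cxp q)) - c) ((fderiv ℝ Φ (G (cxp q))).comp
              (fderiv ℝ (fun q : ℝ × ℝ => G (cxp q)) q)) q :=
            (((hdΦ (G (cxp q))).hasFDerivAt).comp q (hdG q).hasFDerivAt).sub_const c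
          exact (hdκ q).hasFDerivAt.mul h2
        rw [h1.fderiv]
        have h3 : ‖κ q • (fderiv ℝ Φ (G (cxp q))).comp (fderiv ℝ (fun q : ℝ × ℝ => G (cxp q)) q) +
            (Φ (G (cxp q)) - c) • fderiv ℝ κ q‖ₑ ≤
            b₂ * ‖fderiv ℝ Φ (G (cxp q))‖ₑ + b₁ * ‖Φ (G (cxp q)) - c‖ₑ := by
          refine le_trans (enorm_add_le (E := ℝ × ℝ →L[ℝ] ℝ) _ _) (add_le_add ?_ ?_)
          · rw [hb₂, ← ofReal_norm, ← ofReal_norm, ← ENNReal.ofReal_mul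
              ((norm_nonneg _).trans (hB₂ q (hWb q hq)))]
            refine ENNReal.ofReal_le_ofReal ?_
            rw [norm_smul]
            have k1 : ‖κ q‖ ≤ 1 := by
              rw [Real.norm_eq_abs, abs_le]
              exact ⟨by linarith [(hf q).1], (hf q).2⟩
            calc ‖κ q‖ * ‖(fderiv ℝ Φ (G (cxp q))).comp (fderiv ℝ (fun q : ℝ × ℝ => G (cxp q)) q)‖
                ≤ 1 * (‖fderiv ℝ Φ (G (cxp q))‖ * ‖fderiv ℝ (fun q : ℝ × ℝ => G (cxp q)) q‖) :=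
                  mul_le_mul k1 (ContinuousLinearMap.opNorm_comp_le _ _) (norm_nonneg _) zero_le_one
              _ ≤ 1 * (‖fderiv ℝ Φ (G (cxp q))‖ * B₂) := by
                  have := hB₂ q (hWb q hq)
                  gcongr
              _ = B₂ * ‖fderiv ℝ Φ (G (cxp q))‖ := by ring
          · rw [hb₁, ← ofReal_norm, ← ofReal_norm, ← ENNReal.ofReal_mul
              ((norm_nonneg _).trans (hB₁ q (hWb q hq)))]
            refine ENNReal.ofReal_le_ofReal ?_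
            rw [norm_smul, mul_comm]
            exact mul_le_mul_of_nonneg_right (hB₁ q (hWb q hq)) (norm_nonneg _)
        refine (pow_le_pow_left' h3 2).trans ((esq_add_le _ _).trans (le_of_eq ?_))
        rw [mul_pow, mul_pow]
      · have h1 : psiOf κ G R₀ Φ =ᶠ[𝓝 q] fun _ => 0 := by
          filter_upwards [hκ0 q hq] with p hp
          rw [psiOf, hp, zero_mul]
        have h2 : fderiv ℝ (psiOf κ G R₀ Φ) q = 0 := by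
          rw [h1.fderiv_eq]
          exact fderiv_const_apply _
        rw [h2, ← ofReal_norm, norm_zero, ENNReal.ofReal_zero, zero_pow two_ne_zero]
        exact bot_le
    calc ∫⁻ q, ‖fderiv ℝ (psiOf κ G R₀ Φ) q‖ₑ ^ 2
        ≤ ∫⁻ q, (cxp ⁻¹' U).indicator (fun q => g (G (cxp q))) q := lintegral_mono key
      _ = ∫⁻ q in cxp ⁻¹' U, g (G (cxp q)) :=
          lintegral_indicator (hUo.preimage cxp_cont).measurableSet _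
      _ = ∫⁻ ζ in U, g (G ζ) := lintegral_cxp hUo.measurableSet (fun ζ => g (G ζ))
      _ ≤ C * ∫⁻ x in Metric.ball 0 R', g x := hcomp g
      _ ≤ C * (2 * (b₂ ^ 2 + b₁ ^ 2 * C') * ∫⁻ x in Metric.ball 0 R₁, ‖fderiv ℝ Φ x‖ₑ ^ 2) := by
          refine mul_le_mul_right ?_ _
          obtain ⟨p1, p2⟩ := hpo Φ hΦ
          have hm : Measurable fun x => b₂ ^ 2 * ‖fderiv ℝ Φ x‖ₑ ^ 2 :=
            ((hΦ.continuous_fderiv (by simp)).enorm.measurable.pow_const 2).const_mul _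
          rw [hg, lintegral_const_mul' _ _ (by simp), lintegral_add_left hm,
            lintegral_const_mul' _ _ (ENNReal.pow_ne_top hb2),
            lintegral_const_mul' _ _ (ENNReal.pow_ne_top hb1), mul_assoc, add_mul, mul_assoc (b₁ ^ 2)]
          refine mul_le_mul_right (add_le_add (mul_le_mul_right ?_ _) (mul_le_mul_right p1 _)) _
          exact lintegral_mono_set (Metric.ball_subset_ball p2)
      _ = _ := by rw [mul_assoc C]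

/-- The gradients are Cauchy in `L²` on balls. -/
def GCau (Φ : ℕ → ℂ → ℝ) : Prop := ∀ R : ℝ, ∀ ε : ℝ≥0∞, 0 < ε → ∃ N, ∀ j ≥ N, ∀ k ≥ N,
  ∫⁻ x in Metric.ball 0 R, ‖fderiv ℝ (Φ j) x - fderiv ℝ (Φ k) x‖ₑ ^ 2 ≤ ε

/-- **Theorem A.** Sequences of stream functions in the strip. -/
theorem seq_of_chart {G : ℂ → ℂ} (hG : ContDiff ℝ ((⊤ : ℕ∞) : WithTop ℕ∞) G) {K : Set ℂ}
    (hK : IsCompact K) (hd : ∀ ζ ∈ K, (fderiv ℝ G ζ).det ≠ 0) {r : ℝ} (hr : 0 < r)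
    (hb : ∀ ζ ∈ K, |ζ.re| ≤ r ∧ |ζ.im| ≤ r) {Φ : ℕ → ℂ → ℝ}
    (hΦ : ∀ j, ContDiff ℝ ((⊤ : ℕ∞) : WithTop ℕ∞) (Φ j)) (hc : GCau Φ) :
    ∃ ψ : ℕ → ℝ × ℝ → ℝ, (∀ j, PY (r + 2) (ψ j)) ∧
      (∀ j y z, r + 1 / 2 ≤ |y| ∨ r + 1 / 2 ≤ |z| → ψ j (y, z) = 0) ∧
      (∀ j, ∃ c : ℝ, ∀ q, cxp q ∈ K → ψ j =ᶠ[𝓝 q] fun p => Φ j (G (cxp p)) - c) ∧
      ∀ ε : ℝ≥0∞, 0 < ε → ∃ N, ∀ j ≥ N, ∀ k ≥ N,
        ∫⁻ q, ‖fderiv ℝ (ψ j) q - fderiv ℝ (ψ k) q‖ₑ ^ 2 ≤ ε := by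
  obtain ⟨κ, hκ, hκ1, hκ0, R₀, R₁, C, hC, hbd⟩ := chart_bound hG hK hd (r := r + 1 / 2)
    fun ζ hζ => ⟨by linarith [(hb ζ hζ).1], by linarith [(hb ζ hζ).2]⟩
  have hs : ∀ j, ContDiff ℝ ((⊤ : ℕ∞) : WithTop ℕ∞) (psiOf κ G R₀ (Φ j)) := fun j =>
    hκ.mul (((hΦ j).comp (hG.comp cxp_contDiff)).sub contDiff_const)
  have h0 : ∀ j y z, r + 1 / 2 ≤ |y| ∨ r + 1 / 2 ≤ |z| → psiOf κ G R₀ (Φ j) (y, z) = 0 :=
    fun j y z h => by rw [psiOf, hκ0 (y, z) h, zero_mul]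
  refine ⟨fun j => psiOf κ G R₀ (Φ j), fun j => ?_, h0, fun j => ?_, fun ε hε => ?_⟩
  · exact PY.of_van (ε := 1) one_pos (by linarith) (hs j) fun y z h => h0 j y z (Or.inl (by linarith))
  · refine ⟨avg R₀ fun q => Φ j (cxp q), fun q hq => ?_⟩
    filter_upwards [hκ1 q hq] with p hp
    rw [psiOf, hp, one_mul]
  · obtain ⟨N, hN⟩ := hc R₁ (ε / (C + 1)) (ENNReal.div_pos hε.ne' (ENNReal.add_ne_top.2 ⟨hC, by simp⟩))
    refine ⟨N, fun j hj k hk => ?_⟩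
    have h1 : ∀ q, fderiv ℝ (psiOf κ G R₀ (Φ j)) q - fderiv ℝ (psiOf κ G R₀ (Φ k)) q =
        fderiv ℝ (psiOf κ G R₀ (fun x => Φ j x - Φ k x)) q := fun q => by
      rw [← fderiv_fun_sub ((hs j).differentiable (by simp) q) ((hs k).differentiable (by simp) q)]
      congr 1
      funext p
      exact (psiOf_sub κ G R₀ (hΦ j).continuous (hΦ k).continuous p).symm
    simp only [h1]
    have h2 : ∀ x, fderiv ℝ (fun x => Φ j x - Φ k x) x = fderiv ℝ (Φ j) x - fderiv ℝ (Φ k) x :=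
      fun x => fderiv_fun_sub ((hΦ j).differentiable (by simp) x) ((hΦ k).differentiable (by simp) x)
    have h3 := hbd (fun x => Φ j x - Φ k x) (((hΦ j).sub (hΦ k)).of_le (by simp))
    simp only [h2] at h3
    refine h3.trans ((mul_le_mul_right (hN j hj k hk) _).trans ?_)
    rw [← mul_div_assoc, ENNReal.div_le_iff (by simp) (ENNReal.add_ne_top.2 ⟨hC, by simp⟩), mul_comm]
    exact mul_le_mul_right le_self_add _

end Pool.Agent.Lib.MP_79abb3_an.SC
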