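import Pool.Agent.Lib.MP_79abb3_an.SC.FinA
import Pool.Agent.Lib.MP_79abb3_an.SC.L2GDef
import Pool.Agent.Lib.MP_79abb3_an.SC.L2Ga
import Pool.Agent.Lib.MP_79abb3_an.SC.L2Gb

/-!
Theorem C, stage for `L²` data, the data, part d: limits.
-/

set_option autoImplicit false
set_option linter.unusedSectionVars false

open MeasureTheory Set Filter Topology Function
open scoped ENNReal ComplexConjugate

namespace Pool.Agent.Lib.MP_79abb3_an.SC

section lim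
variable {α : Type*} [MeasurableSpace α] {μ : Measure α}

theorem eLp_two_sq (f : α → ℂ) : eLpNorm f 2 μ ^ 2 = ∫⁻ x, ‖f x‖ₑ ^ 2 ∂μ := by
  have h1 := eLpNorm_nnreal_pow_eq_lintegral (f := f) (μ := μ) (p := 2) two_ne_zero
  have h2 : ((2 : NNReal) : ℝ≥0∞) = 2 := rfl
  have h3 : ((2 : NNReal) : ℝ) = 2 := rfl
  rw [h2, h3] at h1
  rw [← ENNReal.rpow_natCast]
  calc eLpNorm f 2 μ ^ ((2 : ℕ) : ℝ) = eLpNorm f 2 μ ^ (2 : ℝ) := by norm_num
    _ = ∫⁻ x, ‖f x‖ₑ ^ (2 : ℝ) ∂μ := h1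
    _ = _ := lintegral_congr fun x => by exact_mod_cast ENNReal.rpow_natCast (‖f x‖ₑ) 2

/-- Limits in `L²`. -/
theorem exists_lim {V : ℕ → α → ℂ} (hV : ∀ j, MemLp (V j) 2 μ)
    (hc : ∀ ε : ℝ≥0∞, 0 < ε → ∃ N, ∀ j ≥ N, ∀ k ≥ N, ∫⁻ x, ‖V j x - V k x‖ₑ ^ 2 ∂μ ≤ ε) :
    ∃ W : α → ℂ, MemLp W 2 μ ∧ Tendsto (fun j => ∫⁻ x, ‖V j x - W x‖ₑ ^ 2 ∂μ) atTop (𝓝 0) := by
  set f : ℕ → Lp ℂ 2 μ := fun j => (hV j).toLp (V j) with hf
  have hd : ∀ j k, edist (f j) (f k) ^ 2 = ∫⁻ x, ‖V j x - V k x‖ₑ ^ 2 ∂μ := fun j k => by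
    rw [hf, Lp.edist_toLp_toLp, eLp_two_sq]
    rfl
  have hcs : CauchySeq f := by
    rw [EMetric.cauchySeq_iff]
    intro ε hε
    rcases eq_or_ne ε ∞ with h | h
    · subst h
      refine ⟨0, fun j _ k _ => ?_⟩
      exact (edist_ne_top _ _).lt_top
    · obtain ⟨N, hN⟩ := hc ((ε / 2) ^ 2) (ENNReal.pow_pos (ENNReal.half_pos (ne_of_gt hε)) 2)
      refine ⟨N, fun j hj k hk => ?_⟩
      have h1 := hN j hj k hk
      rw [← hd] at h1
      have h2 : edist (f j) (f k) ≤ ε / 2 := le_of_not_gt fun h' =>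
        absurd h1 (not_le.2 (ENNReal.pow_right_strictMono two_ne_zero h'))
      exact h2.trans_lt (ENNReal.half_lt_self hε.ne' h)
  obtain ⟨W, hW⟩ := cauchySeq_tendsto_of_complete hcs
  refine ⟨W, Lp.memLp W, ?_⟩
  have h1 : ∀ j, ∫⁻ x, ‖V j x - W x‖ₑ ^ 2 ∂μ = edist (f j) W ^ 2 := fun j => by
    rw [Lp.edist_def, eLp_two_sq]
    refine lintegral_congr_ae ?_
    filter_upwards [(hV j).coeFn_toLp] with x hx
    rw [Pi.sub_apply, hf]
    show _ = ‖((hV j).toLp (V j)) x - W x‖ₑ ^ 2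
    rw [hx]
  simp only [h1]
  have h2 : Tendsto (fun j => edist (f j) W) atTop (𝓝 0) := tendsto_iff_edist_tendsto_0.1 hW
  have h3 : Tendsto (fun j => edist (f j) W ^ 2) atTop (𝓝 (0 ^ 2)) :=
    ((ENNReal.continuous_pow 2).tendsto 0).comp h2
  rwa [zero_pow two_ne_zero] at h3

/-- Uniqueness of limits. -/
theorem lim_ae {V : ℕ → α → ℂ} {W A : α → ℂ} (hV : ∀ j, AEStronglyMeasurable (V j) μ)
    (hW : AEStronglyMeasurable W μ) (hA : AEStronglyMeasurable A μ)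
    (h1 : Tendsto (fun j => ∫⁻ x, ‖V j x - W x‖ₑ ^ 2 ∂μ) atTop (𝓝 0))
    (h2 : Tendsto (fun j => ∫⁻ x, ‖V j x - A x‖ₑ ^ 2 ∂μ) atTop (𝓝 0)) : W =ᵐ[μ] A := by
  have h3 : ∫⁻ x, ‖W x - A x‖ₑ ^ 2 ∂μ ≤ 0 := by
    have h4 : Tendsto (fun j => 2 * (∫⁻ x, ‖V j x - W x‖ₑ ^ 2 ∂μ + ∫⁻ x, ‖V j x - A x‖ₑ ^ 2 ∂μ)) atTop
        (𝓝 (2 * (0 + 0))) := ENNReal.Tendsto.const_mul (h1.add h2) (Or.inr (by simp))
    rw [add_zero, mul_zero] at h4
    refine ge_of_tendsto' h4 fun j => ?_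
    have hm : AEMeasurable (fun x => ‖V j x - W x‖ₑ ^ 2) μ := ((hV j).sub hW).enorm.pow_const 2
    rw [← lintegral_add_left' hm, ← lintegral_const_mul' _ _ (by simp)]
    refine lintegral_mono fun x => ?_
    have h5 := enorm_sq_sub (W x) (V j x) (A x)
    rwa [enorm_sub_rev (W x) (V j x)] at h5
  have h4 : ∫⁻ x, ‖W x - A x‖ₑ ^ 2 ∂μ = 0 := le_antisymm h3 bot_le
  have hm : AEMeasurable (fun x => ‖W x - A x‖ₑ ^ 2) μ := (hW.sub hA).enorm.pow_const 2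
  rw [lintegral_eq_zero_iff' hm] at h4
  filter_upwards [h4] with x hx
  have h5 : ‖W x - A x‖ₑ = 0 := (pow_eq_zero_iff two_ne_zero).1 hx
  exact sub_eq_zero.1 (enorm_eq_zero.1 h5)

/-- Real integrals and `lintegral`. -/
theorem int_sq_eq {g : α → ℂ} (hg : AEStronglyMeasurable g μ) :
    ∫ x, ‖g x‖ ^ 2 ∂μ = (∫⁻ x, ‖g x‖ₑ ^ 2 ∂μ).toReal := by
  have hm : AEStronglyMeasurable (fun x => ‖g x‖ ^ 2) μ := hg.norm.pow 2
  rw [integral_eq_lintegral_of_nonneg_ae (Eventually.of_forall fun x => by positivity) hm]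
  congr 1
  refine lintegral_congr fun x => ?_
  rw [ENNReal.ofReal_pow (norm_nonneg _), ofReal_norm]

theorem lint_sq_eq {g : α → ℂ} (hg : MemLp g 2 μ) :
    ∫⁻ x, ‖g x‖ₑ ^ 2 ∂μ = ENNReal.ofReal (∫ x, ‖g x‖ ^ 2 ∂μ) := by
  rw [int_sq_eq hg.1, ENNReal.ofReal_toReal]
  rw [← eLp_two_sq]
  exact ENNReal.pow_ne_top hg.2.ne

end lim

section
variable {F : ℂ → ℂ} {O Ω Γ : Set ℂ} {r : ℝ}

/-- Conformal invariance. -/
theorem IsChart.lint_eq (hC : IsChart F O Ω Γ r) (g : ℂ → ℂ) :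
    ∫⁻ q in cxp ⁻¹' O, ‖conj (dF F (cxp q)) * g (F (cxp q))‖ₑ ^ 2 = ∫⁻ x in Ω, ‖g x‖ₑ ^ 2 := by
  rw [lintegral_cxp hC.op.measurableSet (fun ζ => ‖conj (dF F ζ) * g (F ζ)‖ₑ ^ 2), hC.img,
    lintegral_image_eq_lintegral_abs_det_fderiv_mul volume hC.op.measurableSet
      (fun ζ hζ => (hC.hasFDerivAt (subset_closure hζ)).hasFDerivWithinAt)
      (hC.inj.mono subset_closure)]
  refine lintegral_congr fun ζ => ?_
  rw [det_mul_c, abs_of_nonneg (by positivity), enorm_mul, mul_pow, ENNReal.ofReal_pow (norm_nonneg _),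
    ofReal_norm]
  congr 2
  rw [← ofReal_norm, ← ofReal_norm, RCLike.norm_conj]

/-- Null sets. -/
theorem IsChart.ae_comp (hC : IsChart F O Ω Γ r) {p : ℂ → Prop}
    (h : ∀ᵐ x ∂(volume.restrict Ω), p x) : ∀ᵐ q ∂(volume.restrict (cxp ⁻¹' O)), p (F (cxp q)) := by
  obtain ⟨N, hN1, hN2, hN3⟩ := exists_measurable_superset_of_null (ae_iff.1 h)
  have h1 := hC.lint_eq (N.indicator fun _ => (1 : ℂ))
  have h2 : ∫⁻ x in Ω, ‖N.indicator (fun _ => (1 : ℂ)) x‖ₑ ^ 2 = 0 := by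
    have h3 : ∀ᵐ x ∂(volume.restrict Ω), ‖N.indicator (fun _ => (1 : ℂ)) x‖ₑ ^ 2 = 0 := by
      have h4 : ∀ᵐ x ∂(volume.restrict Ω), x ∉ N := measure_eq_zero_iff_ae_notMem.1 hN3
      filter_upwards [h4] with x hx
      rw [indicator_of_notMem hx, enorm_zero, zero_pow two_ne_zero]
    rw [lintegral_congr_ae h3]
    simp
  rw [h2] at h1
  have hO : MeasurableSet (cxp ⁻¹' O) := (hC.op.preimage cxp_cont).measurableSet
  have hm : Measurable fun q : ℝ × ℝ => ‖conj (dF F (cxp q)) * N.indicator (fun _ => (1 : ℂ)) (F (cxp q))‖ₑ ^ 2 := by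
    refine (Measurable.enorm (Measurable.mul ?_ ?_)).pow_const 2
    · exact (Complex.continuous_conj.comp ((dF_smooth hC.smooth).continuous.comp cxp_cont)).measurable
    · exact (measurable_const.indicator hN2).comp (hC.smooth.continuous.comp cxp_cont).measurable
  rw [lintegral_eq_zero_iff hm] at h1
  filter_upwards [h1, ae_restrict_mem hO] with q hq hqO
  by_contra hp
  have h3 : F (cxp q) ∈ N := hN1 hp
  have h4 : ‖conj (dF F (cxp q)) * N.indicator (fun _ => (1 : ℂ)) (F (cxp q))‖ₑ = 0 :=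
    (pow_eq_zero_iff two_ne_zero).1 hq
  rw [indicator_of_mem h3, mul_one, enorm_eq_zero, map_eq_zero] at h4
  exact hC.der _ (subset_closure hqO) h4

/-- Measurability of the pull back. -/
theorem IsChart.aesm_comp (hC : IsChart F O Ω Γ r) {u : ℂ → ℂ}
    (hu : AEStronglyMeasurable u (volume.restrict Ω)) :
    AEStronglyMeasurable (fun q => conj (dF F (cxp q)) * u (F (cxp q)))
      (volume.restrict (cxp ⁻¹' O)) := by
  obtain ⟨g, hg, hug⟩ := hu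
  refine AEStronglyMeasurable.congr (f := fun q => conj (dF F (cxp q)) * g (F (cxp q))) ?_ ?_
  · refine AEStronglyMeasurable.mul ?_ ?_
    · exact (Complex.continuous_conj.comp
        ((dF_smooth hC.smooth).continuous.comp cxp_cont)).aestronglyMeasurable
    · exact (hg.comp_measurable (hC.smooth.continuous.comp cxp_cont).measurable).aestronglyMeasurable
  · filter_upwards [hC.ae_comp hug] with q hq
    rw [hq]

theorem gradPerp_sub_const (Ψ : ℂ → ℝ) (c : ℝ) : gradPerp (fun x => Ψ x - c) = gradPerp Ψ := by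
  funext x
  rw [gradPerp, gradPerp, fderiv_sub_const]

/-- **From sequences to data.** -/
theorem IsChart.data_of_seq (hC : IsChart F O Ω Γ r) {u₀ : ℂ → ℂ}
    (hm : MemLp u₀ 2 (volume.restrict Ω)) {Ψ : ℕ → ℂ → ℝ}
    (hΨ : ∀ j, ContDiff ℝ ((⊤ : ℕ∞) : WithTop ℕ∞) (Ψ j))
    (hw : ∀ j, ∀ x ∈ frontier Ω \ Γ, fderiv ℝ (Ψ j) x = 0)
    (hl : Tendsto (fun j => ∫⁻ x in Ω, ‖gradPerp (Ψ j) x - u₀ x‖ₑ ^ 2) atTop (𝓝 0))
    {ψ : ℕ → ℝ × ℝ → ℝ} (h1 : ∀ j, PY (r + 2) (ψ j))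
    (h2 : ∀ j y z, r + 1 / 2 ≤ |y| ∨ r + 1 / 2 ≤ |z| → ψ j (y, z) = 0)
    (h3 : ∀ j, ∃ c : ℝ, ∀ q, cxp q ∈ closure O → ψ j =ᶠ[𝓝 q] fun p => Ψ j (F (cxp p)) - c)
    (h4 : ∀ ε : ℝ≥0∞, 0 < ε → ∃ N, ∀ j ≥ N, ∀ k ≥ N,
      ∫⁻ q, ‖fderiv ℝ (ψ j) q - fderiv ℝ (ψ k) q‖ₑ ^ 2 ≤ ε) :
    ∃ v₀ w₀, DataSeq r {y | cxp (y, 0) ∈ closure O ∧ F (cxp (y, 0)) ∈ frontier Ω \ Γ} v₀ w₀ ∧
      ∀ q, cxp q ∈ O → conj (dF F (cxp q)) * u₀ (F (cxp q)) = ⟨v₀ q, w₀ q⟩ := by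
  classical
  set V : ℕ → ℝ × ℝ → ℂ := fun j q => ⟨gz (ψ j) q, -gy (ψ j) q⟩ with hV
  have hVc : ∀ j, Continuous (V j) := fun j => by
    have e1 : Continuous (fderiv ℝ (ψ j)) := (h1 j).smooth.continuous_fderiv (by simp)
    have e2 : Continuous fun q => gz (ψ j) q := e1.clm_apply continuous_const
    have e3 : Continuous fun q => -gy (ψ j) q := (e1.clm_apply continuous_const).neg
    exact Complex.equivRealProdCLM.symm.continuous.comp (e2.prodMk e3)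
  have hcm : MeasurableSet (cellR r) := measurableSet_Icc.prod measurableSet_Icc
  have hck : IsCompact (cellR r) := isCompact_Icc.prod isCompact_Icc
  have hfin : IsFiniteMeasure ((volume : Measure (ℝ × ℝ)).restrict (cellR r)) :=
    ⟨by rw [Measure.restrict_apply_univ]; exact hck.measure_lt_top⟩
  have hVm : ∀ j, MemLp (V j) 2 (volume.restrict (cellR r)) := fun j => by
    obtain ⟨B, hB⟩ := hck.exists_bound_of_continuousOn (hVc j).continuousOn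
    refine MemLp.of_bound (hVc j).aestronglyMeasurable B ?_
    rw [ae_restrict_iff' hcm]
    exact Eventually.of_forall fun q hq => hB q hq
  have hle : ∀ j k q, ‖V j q - V k q‖ₑ ^ 2 ≤ 2 * ‖fderiv ℝ (ψ j) q - fderiv ℝ (ψ k) q‖ₑ ^ 2 := by
    intro j k q
    set L := fderiv ℝ (ψ j) q - fderiv ℝ (ψ k) q with hL
    have e1 : (V j q - V k q).re = L (0, 1) := rfl
    have e2 : (V j q - V k q).im = -L (1, 0) := by
      show -gy (ψ j) q - -gy (ψ k) q = _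
      rw [hL, gy, gy, sub_apply]
      ring
    have e3 : ‖V j q - V k q‖ ^ 2 ≤ 2 * ‖L‖ ^ 2 := by
      rw [← Complex.normSq_eq_norm_sq, Complex.normSq_apply, e1, e2]
      have k1 : ‖L (0, 1)‖ ≤ ‖L‖ := by
        have := L.le_opNorm (0, 1)
        simpa [Prod.norm_def] using this
      have k2 : ‖L (1, 0)‖ ≤ ‖L‖ := by
        have := L.le_opNorm (1, 0)
        simpa [Prod.norm_def] using this
      rw [Real.norm_eq_abs] at k1 k2
      nlinarith [abs_nonneg (L (0, 1)), abs_nonneg (L (1, 0)), sq_abs (L (0, 1)), sq_abs (L (1, 0)),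
        norm_nonneg L]
    have e4 : ENNReal.ofReal (‖V j q - V k q‖ ^ 2) ≤ ENNReal.ofReal (2 * ‖L‖ ^ 2) :=
      ENNReal.ofReal_le_ofReal e3
    rw [ENNReal.ofReal_pow (norm_nonneg _), ENNReal.ofReal_mul (by norm_num),
      ENNReal.ofReal_pow (norm_nonneg _), ofReal_norm, ofReal_norm, ENNReal.ofReal_ofNat] at e4
    exact e4
  obtain ⟨W, hW, hWt⟩ := exists_lim hVm fun ε hε => by
    obtain ⟨N, hN⟩ := h4 (ε / 2) (ENNReal.half_pos hε.ne')
    refine ⟨N, fun j hj k hk => ?_⟩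
    calc ∫⁻ q in cellR r, ‖V j q - V k q‖ₑ ^ 2
        ≤ ∫⁻ q, ‖V j q - V k q‖ₑ ^ 2 := setLIntegral_le_lintegral _ _
      _ ≤ ∫⁻ q, 2 * ‖fderiv ℝ (ψ j) q - fderiv ℝ (ψ k) q‖ₑ ^ 2 := lintegral_mono (hle j k)
      _ = 2 * ∫⁻ q, ‖fderiv ℝ (ψ j) q - fderiv ℝ (ψ k) q‖ₑ ^ 2 := lintegral_const_mul' _ _ (by simp)
      _ ≤ 2 * (ε / 2) := mul_le_mul_right (hN j hj k hk) _
      _ = ε := ENNReal.mul_div_cancel (by simp) (by simp)
  set A : ℝ × ℝ → ℂ := fun q => conj (dF F (cxp q)) * u₀ (F (cxp q)) with hA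
  have hO : MeasurableSet (cxp ⁻¹' O) := (hC.op.preimage cxp_cont).measurableSet
  have hOc : cxp ⁻¹' O ⊆ cellR r := fun q hq => by
    have := hC.sub_cell hq
    exact ⟨this.1, this.2.1, this.2.2.trans (by linarith)⟩
  have hAm : AEStronglyMeasurable A (volume.restrict (cxp ⁻¹' O)) := hC.aesm_comp hm.1
  have hVA : ∀ j q, cxp q ∈ O → V j q = conj (dF F (cxp q)) * gradPerp (Ψ j) (F (cxp q)) := by
    intro j q hq
    obtain ⟨c, hc⟩ := h3 j
    have e1 := hC.pull_perp (Ψ := fun x => Ψ j x - c) (((hΨ j).sub contDiff_const).differentiable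
      (by simp)) (subset_closure hq) (hc q (subset_closure hq))
    rw [gradPerp_sub_const] at e1
    exact e1.symm
  have hAt : Tendsto (fun j => ∫⁻ q in cxp ⁻¹' O, ‖V j q - A q‖ₑ ^ 2) atTop (𝓝 0) := by
    have e1 : ∀ j, ∫⁻ q in cxp ⁻¹' O, ‖V j q - A q‖ₑ ^ 2 =
        ∫⁻ x in Ω, ‖gradPerp (Ψ j) x - u₀ x‖ₑ ^ 2 := fun j => by
      rw [← hC.lint_eq fun x => gradPerp (Ψ j) x - u₀ x]
      refine setLIntegral_congr_fun hO fun q hq => ?_
      simp only [hVA j q hq, hA, mul_sub]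
    simpa only [e1] using hl
  have hres : (volume.restrict (cxp ⁻¹' O) : Measure (ℝ × ℝ)) ≤ volume.restrict (cellR r) :=
    Measure.restrict_mono hOc le_rfl
  have hWA : W =ᵐ[volume.restrict (cxp ⁻¹' O)] A := by
    refine lim_ae (fun j => (hVc j).aestronglyMeasurable) (hW.1.mono_measure hres) hAm ?_ hAt
    refine tendsto_of_tendsto_of_tendsto_of_le_of_le tendsto_const_nhds hWt (fun j => bot_le) fun j => ?_
    exact lintegral_mono' hres le_rfl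
  set Wt : ℝ × ℝ → ℂ := fun q => if cxp q ∈ O then A q else W q with hWtd
  have hWW : W =ᵐ[volume.restrict (cellR r)] Wt := by
    have e1 : ∀ᵐ q ∂(volume : Measure (ℝ × ℝ)), q ∈ cxp ⁻¹' O → W q = A q :=
      (ae_restrict_iff' hO).1 hWA
    filter_upwards [ae_restrict_of_ae e1] with q hq
    simp only [hWtd]
    split_ifs with h
    · exact hq h
    · rfl
  have hWm : MemLp Wt 2 (volume.restrict (cellR r)) := hW.ae_eq hWW
  have hWtt : Tendsto (fun j => ∫⁻ q in cellR r, ‖V j q - Wt q‖ₑ ^ 2) atTop (𝓝 0) := by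
    have e1 : ∀ j, ∫⁻ q in cellR r, ‖V j q - Wt q‖ₑ ^ 2 = ∫⁻ q in cellR r, ‖V j q - W q‖ₑ ^ 2 :=
      fun j => lintegral_congr_ae (by filter_upwards [hWW] with q hq; rw [hq])
    simpa only [e1] using hWt
  refine ⟨fun q => (Wt q).re, fun q => (Wt q).im, ⟨⟨ψ, h1, h2, ?_, ?_⟩, hWm.re, hWm.im⟩, ?_⟩
  · intro j y hy
    obtain ⟨hy2, hy3⟩ := hy
    obtain ⟨c, hc⟩ := h3 j
    have e1 : fderiv ℝ (fun x => Ψ j x - c) (F (cxp (y, 0))) = 0 := by
      rw [fderiv_sub_const]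
      exact hw j _ hy3
    have e2 : ∀ e, fderiv ℝ (ψ j) (y, 0) e = 0 := fun e => by
      rw [hC.pull (Ψ := fun x => Ψ j x - c) (((hΨ j).sub contDiff_const).differentiable (by simp))
        hy2 (hc _ hy2), e1]
      rfl
    exact ⟨e2 _, e2 _⟩
  · have e1 : ∀ j, ∫ q in cellR r, ((gz (ψ j) q - (Wt q).re) ^ 2 + (gy (ψ j) q + (Wt q).im) ^ 2) =
        (∫⁻ q in cellR r, ‖V j q - Wt q‖ₑ ^ 2).toReal := fun j => by
      have hm' : AEStronglyMeasurable (fun q => V j q - Wt q) (volume.restrict (cellR r)) :=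
        (hVc j).aestronglyMeasurable.sub hWm.1
      rw [← int_sq_eq hm']
      refine integral_congr_ae (Eventually.of_forall fun q => ?_)
      show _ = ‖V j q - Wt q‖ ^ 2
      rw [← Complex.normSq_eq_norm_sq, Complex.normSq_apply]
      show _ = (gz (ψ j) q - (Wt q).re) * (gz (ψ j) q - (Wt q).re) +
        (-gy (ψ j) q - (Wt q).im) * (-gy (ψ j) q - (Wt q).im)
      ring
    simp only [e1]
    have e2 : Tendsto (fun j => (∫⁻ q in cellR r, ‖V j q - Wt q‖ₑ ^ 2).toReal) atTop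
        (𝓝 (0 : ℝ≥0∞).toReal) := (ENNReal.tendsto_toReal (a := 0) (by simp)).comp hWtt
    rwa [ENNReal.toReal_zero] at e2
  · intro q hq
    show A q = _
    have e1 : Wt q = A q := if_pos hq
    rw [← e1]

end

end Pool.Agent.Lib.MP_79abb3_an.SC
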