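import Pool.Agent.Lib.MP_79abb3_an.SC.L2Gc
import Pool.Agent.Lib.MP_79abb3_an.SC.L2Ge

/-!
Theorem C, stage for `L²` data, the data, part f: extension of stream functions by reflection.
-/

set_option autoImplicit false
set_option linter.unusedSectionVars false

open MeasureTheory Set Filter Topology Function
open scoped ENNReal ComplexConjugate

namespace Pool.Agent.Lib.MP_79abb3_an.SC

/-- The derivative of the smooth transition is bounded. -/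
private theorem gf_bdd : ∃ C : ℝ, 0 ≤ C ∧ ∀ x, ‖fderiv ℝ Real.smoothTransition x‖ ≤ C := by
  have hc : Continuous (fderiv ℝ Real.smoothTransition) :=
    (Real.smoothTransition.contDiff (n := 1)).continuous_fderiv (by simp)
  obtain ⟨C, hC⟩ := (isCompact_Icc (a := (0:ℝ)) (b := 1)).exists_bound_of_continuousOn hc.continuousOn
  refine ⟨C, (norm_nonneg _).trans (hC 0 ⟨le_rfl, zero_le_one⟩), fun x => ?_⟩
  by_cases hx : x ∈ Icc (0:ℝ) 1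
  · exact hC x hx
  · have h0 : 0 ≤ C := (norm_nonneg _).trans (hC 0 ⟨le_rfl, zero_le_one⟩)
    have h1 : fderiv ℝ Real.smoothTransition x = 0 := by
      rcases lt_or_ge x 0 with h | h
      · have h2 : Real.smoothTransition =ᶠ[𝓝 x] fun _ => 0 := by
          filter_upwards [Iio_mem_nhds h] with y hy
          exact Real.smoothTransition.zero_of_nonpos (le_of_lt hy)
        rw [h2.fderiv_eq]
        exact fderiv_const_apply _
      · have h3 : 1 < x := by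
          by_contra h4
          exact hx ⟨h, not_lt.1 h4⟩
        have h2 : Real.smoothTransition =ᶠ[𝓝 x] fun _ => 1 := by
          filter_upwards [Ioi_mem_nhds h3] with y hy
          exact Real.smoothTransition.one_of_one_le (le_of_lt hy)
        rw [h2.fderiv_eq]
        exact fderiv_const_apply _
    rw [h1, norm_zero]
    exact h0

/-- The cut-off near the unit circle. -/
private noncomputable def gfcut (ε : ℝ) (ξ : ℂ) : ℝ :=
  Real.smoothTransition (ε⁻¹ * (1 + 2 * ε - ‖ξ‖ ^ 2))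

private theorem gfcut_smooth (ε : ℝ) : ContDiff ℝ ((⊤ : ℕ∞) : WithTop ℕ∞) (gfcut ε) :=
  Real.smoothTransition.contDiff.comp
    (contDiff_const.mul (contDiff_const.sub (contDiff_id.norm_sq ℝ)))

private theorem gfcut_one {ε : ℝ} (hε : 0 < ε) {ξ : ℂ} (h : ‖ξ‖ ^ 2 ≤ 1 + ε) : gfcut ε ξ = 1 := by
  refine Real.smoothTransition.one_of_one_le ?_
  calc (1 : ℝ) = ε⁻¹ * ε := (inv_mul_cancel₀ hε.ne').symm
    _ ≤ _ := mul_le_mul_of_nonneg_left (by linarith) (by positivity)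

private theorem gfcut_zero {ε : ℝ} (hε : 0 < ε) {ξ : ℂ} (h : 1 + 2 * ε ≤ ‖ξ‖ ^ 2) :
    gfcut ε ξ = 0 := by
  refine Real.smoothTransition.zero_of_nonpos ?_
  exact mul_nonpos_of_nonneg_of_nonpos (by positivity) (by linarith)

private theorem gfcut_fderiv {C : ℝ} (hC : ∀ x, ‖fderiv ℝ Real.smoothTransition x‖ ≤ C) {ε : ℝ}
    (hε : 0 < ε) (ξ : ℂ) : ‖fderiv ℝ (gfcut ε) ξ‖ ≤ C * (ε⁻¹ * (2 * ‖ξ‖)) := by
  have h1 : HasFDerivAt (fun ξ : ℂ => ε⁻¹ * (1 + 2 * ε - ‖ξ‖ ^ 2))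
      (ε⁻¹ • (-(2 • innerSL ℝ ξ) : ℂ →L[ℝ] ℝ)) ξ := by
    have h2 : HasFDerivAt (fun ξ : ℂ => ‖ξ‖ ^ 2) (2 • innerSL ℝ ξ : ℂ →L[ℝ] ℝ) ξ :=
      (hasStrictFDerivAt_norm_sq ξ).hasFDerivAt
    exact (h2.const_sub _).const_mul _
  have h3 : HasFDerivAt (gfcut ε) ((fderiv ℝ Real.smoothTransition
      (ε⁻¹ * (1 + 2 * ε - ‖ξ‖ ^ 2))).comp (ε⁻¹ • (-(2 • innerSL ℝ ξ) : ℂ →L[ℝ] ℝ))) ξ :=
    ((Real.smoothTransition.contDiff (n := 1)).differentiable (by simp) _).hasFDerivAt.comp ξ h1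
  rw [h3.fderiv]
  refine (ContinuousLinearMap.opNorm_comp_le _ _).trans ?_
  refine mul_le_mul (hC _) (le_of_eq ?_) (norm_nonneg _) ((norm_nonneg _).trans (hC 0))
  have h4 : (2 • (innerSL ℝ ξ) : ℂ →L[ℝ] ℝ) = (2 : ℝ) • (innerSL ℝ ξ) := by
    rw [two_smul, two_smul]
  rw [norm_smul, norm_neg, h4, norm_smul, innerSL_apply_norm, Real.norm_of_nonneg (by positivity),
    Real.norm_of_nonneg (by norm_num)]

private theorem l2gf_sub {ξ : ℂ} (h : 1 ≤ ‖ξ‖) : ‖ξ - cinv ξ‖ ≤ ‖ξ‖ ^ 2 - 1 := by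
  have h0 : ξ ≠ 0 := fun h' => by rw [h', norm_zero] at h; linarith
  have h0' : conj ξ ≠ 0 := by rwa [Ne, map_eq_zero]
  have h1 : (ξ - cinv ξ) * conj ξ = ((‖ξ‖ ^ 2 - 1 : ℝ) : ℂ) := by
    rw [cinv, sub_mul, inv_mul_cancel₀ h0', Complex.mul_conj, Complex.normSq_eq_norm_sq]
    push_cast
    ring
  have h2 : ‖ξ - cinv ξ‖ * ‖ξ‖ = ‖ξ‖ ^ 2 - 1 := by
    have := congrArg norm h1
    rw [norm_mul, RCLike.norm_conj, Complex.norm_real, Real.norm_of_nonneg (by nlinarith)] at this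
    exact this
  nlinarith [norm_nonneg (ξ - cinv ξ)]

private theorem gf_vol {ε : ℝ} (hε : 0 < ε) :
    volume {ξ : ℂ | 1 < ‖ξ‖ ∧ ‖ξ‖ ^ 2 ≤ 1 + 2 * ε} ≤ ENNReal.ofReal (2 * ε) * NNReal.pi := by
  have h1 : {ξ : ℂ | 1 < ‖ξ‖ ∧ ‖ξ‖ ^ 2 ≤ 1 + 2 * ε} ⊆
      Metric.closedBall 0 √(1 + 2 * ε) \ Metric.closedBall 0 1 := by
    rintro ξ ⟨h1, h2⟩
    refine ⟨?_, ?_⟩
    · rw [mem_closedBall_zero_iff]
      exact Real.le_sqrt_of_sq_le h2
    · rw [mem_closedBall_zero_iff, not_le]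
      exact h1
  have h2 : (1 : ℝ) ≤ √(1 + 2 * ε) := by
    rw [Real.one_le_sqrt]
    linarith
  refine (measure_mono h1).trans ?_
  rw [measure_sdiff (Metric.closedBall_subset_closedBall h2)
    Metric.isClosed_closedBall.measurableSet.nullMeasurableSet (isCompact_closedBall _ _).measure_ne_top,
    Complex.volume_closedBall, Complex.volume_closedBall, ENNReal.ofReal_one, one_pow, one_mul,
    ← ENNReal.ofReal_pow (Real.sqrt_nonneg _), Real.sq_sqrt (by positivity), tsub_le_iff_right,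
    add_comm (1 : ℝ), ENNReal.ofReal_add (by positivity) zero_le_one, add_mul, ENNReal.ofReal_one,
    one_mul]

/-- **Extension.** -/
theorem exists_refl_ext {φ : ℂ → ℝ} (hφ : ContDiff ℝ ((⊤ : ℕ∞) : WithTop ℕ∞) φ) {δ : ℝ≥0∞} (hδ : 0 < δ) :
    ∃ Φ : ℂ → ℝ, ContDiff ℝ ((⊤ : ℕ∞) : WithTop ℕ∞) Φ ∧
      (∀ ξ ∈ Metric.closedBall (0:ℂ) 1, Φ =ᶠ[𝓝 ξ] φ) ∧
      ∫⁻ ξ in {ξ : ℂ | 1 < ‖ξ‖}, ‖fderiv ℝ Φ ξ - fderiv ℝ (fun ξ => φ (cinv ξ)) ξ‖ₑ ^ 2 ≤ δ := by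
  obtain ⟨C, hC0, hC⟩ := gf_bdd
  have hdc : Continuous (fderiv ℝ φ) := hφ.continuous_fderiv (by simp)
  have hd : Differentiable ℝ φ := hφ.differentiable (by simp)
  obtain ⟨L, hL⟩ := (isCompact_closedBall (0:ℂ) 2).exists_bound_of_continuousOn hdc.continuousOn
  have hL0 : 0 ≤ L := (norm_nonneg _).trans (hL 0 (by simp))
  set M : ℝ := 2 * L + 8 * (L * C) with hM
  have hM0 : 0 ≤ M := by positivity
  set P : ℝ := (NNReal.pi : ℝ) with hP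
  have hP0 : 0 ≤ P := NNReal.coe_nonneg _
  -- choice of `ε`
  set δ' : ℝ≥0∞ := min δ 1 with hδ'
  have hδ1 : δ' ≠ ∞ := (lt_of_le_of_lt (min_le_right _ _) ENNReal.one_lt_top).ne
  have hδ0 : 0 < δ'.toReal := ENNReal.toReal_pos (lt_min hδ one_pos).ne' hδ1
  set ε : ℝ := min 1 (δ'.toReal / (M ^ 2 * 2 * P + 1)) with hε
  have hε0 : 0 < ε := lt_min one_pos (by positivity)
  have hε1 : ε ≤ 1 := min_le_left _ _
  have hε2 : M ^ 2 * (2 * ε * P) ≤ δ'.toReal := by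
    have h1 : ε ≤ δ'.toReal / (M ^ 2 * 2 * P + 1) := min_le_right _ _
    have h2 : 0 < M ^ 2 * 2 * P + 1 := by positivity
    rw [le_div_iff₀ h2] at h1
    nlinarith
  set Φ : ℂ → ℝ := fun ξ => gfcut ε ξ * φ ξ + (1 - gfcut ε ξ) * φ (cinv ξ) with hΦ
  have hnear : ∀ ξ : ℂ, ‖ξ‖ ^ 2 < 1 + ε → Φ =ᶠ[𝓝 ξ] φ := fun ξ hξ => by
    have ho : IsOpen {ξ : ℂ | ‖ξ‖ ^ 2 < 1 + ε} := isOpen_lt (by fun_prop) continuous_const
    filter_upwards [ho.mem_nhds hξ] with η hη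
    rw [hΦ]
    simp only
    rw [gfcut_one hε0 (le_of_lt hη)]
    ring
  have hfar : ∀ ξ : ℂ, 1 + 2 * ε < ‖ξ‖ ^ 2 → Φ =ᶠ[𝓝 ξ] fun ξ => φ (cinv ξ) := fun ξ hξ => by
    have ho : IsOpen {ξ : ℂ | 1 + 2 * ε < ‖ξ‖ ^ 2} := isOpen_lt continuous_const (by fun_prop)
    filter_upwards [ho.mem_nhds hξ] with η hη
    rw [hΦ]
    simp only
    rw [gfcut_zero hε0 (le_of_lt hη)]
    ring
  refine ⟨Φ, ?_, ?_, ?_⟩
  · rw [contDiff_iff_contDiffAt]
    intro ξ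
    rcases lt_or_ge (‖ξ‖ ^ 2) (1 + ε) with h | h
    · exact hφ.contDiffAt.congr_of_eventuallyEq (hnear ξ h)
    · have h0 : ξ ≠ 0 := fun h' => by
        rw [h', norm_zero] at h
        linarith
      have h1 := (gfcut_smooth ε).contDiffAt (x := ξ)
      exact (h1.mul hφ.contDiffAt).add ((contDiffAt_const.sub h1).mul
        (hφ.contDiffAt.comp ξ (cinv_contDiffAt h0)))
  · intro ξ hξ
    rw [mem_closedBall_zero_iff] at hξ
    refine hnear ξ ?_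
    have : ‖ξ‖ ^ 2 ≤ 1 := pow_le_one₀ (norm_nonneg _) hξ
    linarith
  · have hm : MeasurableSet {ξ : ℂ | 1 < ‖ξ‖} := (isOpen_lt continuous_const continuous_norm).measurableSet
    set A : Set ℂ := {ξ : ℂ | 1 < ‖ξ‖ ∧ ‖ξ‖ ^ 2 ≤ 1 + 2 * ε} with hA
    have hAm : MeasurableSet A := hm.inter
      (isClosed_le (f := fun ξ : ℂ => ‖ξ‖ ^ 2) (by fun_prop) continuous_const).measurableSet
    have key : ∀ ξ ∈ {ξ : ℂ | 1 < ‖ξ‖}, ‖fderiv ℝ Φ ξ - fderiv ℝ (fun ξ => φ (cinv ξ)) ξ‖ₑ ^ 2 ≤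
        A.indicator (fun _ => ENNReal.ofReal M ^ 2) ξ := by
      intro ξ hξ
      have hξ1 : 1 < ‖ξ‖ := hξ
      by_cases h : ‖ξ‖ ^ 2 ≤ 1 + 2 * ε
      · rw [indicator_of_mem (show ξ ∈ A from ⟨hξ, h⟩)]
        refine pow_le_pow_left' ?_ 2
        rw [← ofReal_norm]
        refine ENNReal.ofReal_le_ofReal ?_
        have h0 : ξ ≠ 0 := fun h' => by
          rw [h', norm_zero] at hξ1
          linarith
        have h2 : ‖ξ‖ ≤ 2 := by nlinarith [norm_nonneg ξ]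
        have h3 : ‖cinv ξ‖ ≤ 2 := by
          rw [norm_cinv]
          have := inv_le_one_of_one_le₀ hξ1.le
          linarith
        have b1 : ‖fderiv ℝ φ ξ‖ ≤ L := hL ξ (by simpa using h2)
        have b2 : ‖(fderiv ℝ φ (cinv ξ)).comp (cinvD ξ)‖ ≤ L := by
          refine (ContinuousLinearMap.opNorm_comp_le _ _).trans ?_
          calc ‖fderiv ℝ φ (cinv ξ)‖ * ‖cinvD ξ‖ ≤ L * 1 :=
                mul_le_mul (hL _ (by simpa using h3)) (cinvD_norm_le hξ1.le) (norm_nonneg _) hL0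
            _ = L := mul_one _
        have b3 : |φ ξ - φ (cinv ξ)| ≤ L * (2 * ε) := by
          have h4 := (convex_closedBall (0:ℂ) 2).norm_image_sub_le_of_norm_fderiv_le
            (𝕜 := ℝ) (f := φ) (C := L) (x := cinv ξ) (y := ξ) (fun x _ => hd x) hL (by simpa using h3)
            (by simpa using h2)
          refine h4.trans (mul_le_mul_of_nonneg_left ((l2gf_sub hξ1.le).trans (by linarith)) hL0)
        have b4 : ‖fderiv ℝ (gfcut ε) ξ‖ ≤ C * (ε⁻¹ * 4) := by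
          refine (gfcut_fderiv hC hε0 ξ).trans ?_
          have : 2 * ‖ξ‖ ≤ 4 := by linarith
          gcongr
        have hcut : |gfcut ε ξ| ≤ 1 := by
          rw [gfcut, abs_of_nonneg (Real.smoothTransition.nonneg _)]
          exact Real.smoothTransition.le_one _
        have hf1 : HasFDerivAt (fun ξ => φ (cinv ξ)) ((fderiv ℝ φ (cinv ξ)).comp (cinvD ξ)) ξ :=
          comp_cinv hd h0
        have hf2 : HasFDerivAt Φ (fderiv ℝ (fun ξ => φ (cinv ξ)) ξ + (gfcut ε ξ •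
            (fderiv ℝ φ ξ - (fderiv ℝ φ (cinv ξ)).comp (cinvD ξ)) +
            (φ ξ - φ (cinv ξ)) • fderiv ℝ (gfcut ε) ξ)) ξ := by
          have e1 : Φ = fun ξ => φ (cinv ξ) + gfcut ε ξ * (φ ξ - φ (cinv ξ)) := by
            funext η
            rw [hΦ]
            simp only
            ring
          rw [e1, hf1.fderiv]
          refine hf1.add ?_
          exact ((gfcut_smooth ε).differentiable (by simp) ξ).hasFDerivAt.mul
            ((hd ξ).hasFDerivAt.sub hf1)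
        rw [hf2.fderiv, add_sub_cancel_left]
        refine (norm_add_le _ _).trans ?_
        rw [norm_smul, norm_smul, Real.norm_eq_abs, Real.norm_eq_abs]
        have c1 : |gfcut ε ξ| * ‖fderiv ℝ φ ξ - (fderiv ℝ φ (cinv ξ)).comp (cinvD ξ)‖ ≤ 1 * (L + L) :=
          mul_le_mul hcut ((norm_sub_le _ _).trans (add_le_add b1 b2)) (norm_nonneg _) zero_le_one
        have c2 : |φ ξ - φ (cinv ξ)| * ‖fderiv ℝ (gfcut ε) ξ‖ ≤ L * (2 * ε) * (C * (ε⁻¹ * 4)) :=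
          mul_le_mul b3 b4 (norm_nonneg _) (by positivity)
        have c3 : L * (2 * ε) * (C * (ε⁻¹ * 4)) = 8 * (L * C) := by
          field_simp
          ring
        rw [c3] at c2
        rw [hM]
        linarith
      · have h1 : fderiv ℝ Φ ξ = fderiv ℝ (fun ξ => φ (cinv ξ)) ξ := (hfar ξ (not_le.1 h)).fderiv_eq
        rw [h1, sub_self, ← ofReal_norm, norm_zero, ENNReal.ofReal_zero, zero_pow two_ne_zero]
        exact bot_le
    calc ∫⁻ ξ in {ξ : ℂ | 1 < ‖ξ‖}, ‖fderiv ℝ Φ ξ - fderiv ℝ (fun ξ => φ (cinv ξ)) ξ‖ₑ ^ 2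
        ≤ ∫⁻ ξ in {ξ : ℂ | 1 < ‖ξ‖}, A.indicator (fun _ => ENNReal.ofReal M ^ 2) ξ :=
          setLIntegral_mono' hm key
      _ ≤ ∫⁻ ξ, A.indicator (fun _ => ENNReal.ofReal M ^ 2) ξ := setLIntegral_le_lintegral _ _
      _ = ENNReal.ofReal M ^ 2 * volume A := by
          rw [lintegral_indicator hAm, setLIntegral_const]
      _ ≤ ENNReal.ofReal M ^ 2 * (ENNReal.ofReal (2 * ε) * NNReal.pi) :=
          mul_le_mul_right (gf_vol hε0) _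
      _ = ENNReal.ofReal (M ^ 2 * (2 * ε * P)) := by
          rw [ENNReal.ofReal_mul (p := M ^ 2) (by positivity),
            ENNReal.ofReal_mul (p := 2 * ε) (by positivity), ENNReal.ofReal_pow hM0, hP,
            ENNReal.ofReal_coe_nnreal]
      _ ≤ ENNReal.ofReal δ'.toReal := ENNReal.ofReal_le_ofReal hε2
      _ = δ' := ENNReal.ofReal_toReal hδ1
      _ ≤ δ := min_le_left _ _

/-- The closed and the open disc. -/
theorem lint_closedBall (g : ℂ → ℝ≥0∞) :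
    ∫⁻ x in Metric.closedBall (0:ℂ) 1, g x ≤ ∫⁻ x in Metric.ball (0:ℂ) 1, g x := by
  rw [← Metric.ball_union_sphere]
  refine (lintegral_union_le _ _ _).trans ?_
  have h1 : volume (Metric.sphere (0:ℂ) 1) = 0 := Measure.addHaar_sphere volume 0 1
  have h2 : ∫⁻ x in Metric.sphere (0:ℂ) 1, g x = 0 := setLIntegral_measure_zero _ _ h1
  rw [h2, add_zero]

/-- **Extension of sequences.** -/
theorem exists_refl_seq {φ : ℕ → ℂ → ℝ} (hφ : ∀ j, ContDiff ℝ ((⊤ : ℕ∞) : WithTop ℕ∞) (φ j))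
    (hc : ∀ ε : ℝ≥0∞, 0 < ε → ∃ N, ∀ j ≥ N, ∀ k ≥ N,
      ∫⁻ x in Metric.ball (0:ℂ) 1, ‖fderiv ℝ (φ j) x - fderiv ℝ (φ k) x‖ₑ ^ 2 ≤ ε) :
    ∃ Φ : ℕ → ℂ → ℝ, (∀ j, ContDiff ℝ ((⊤ : ℕ∞) : WithTop ℕ∞) (Φ j)) ∧
      (∀ j, ∀ ξ ∈ Metric.closedBall (0:ℂ) 1, Φ j =ᶠ[𝓝 ξ] φ j) ∧ GCau Φ := by
  have hpos : ∀ j : ℕ, (0 : ℝ≥0∞) < ((j : ℝ≥0∞))⁻¹ := fun j => ENNReal.inv_pos.2 (ENNReal.natCast_ne_top j)
  choose Φ h1 h2 h3 using fun j => exists_refl_ext (hφ j) (hpos j)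
  refine ⟨Φ, h1, h2, fun R ε hε => ?_⟩
  set R' : ℝ := max R 2 with hR'
  have hR0 : 0 < R' := lt_of_lt_of_le two_pos (le_max_right _ _)
  set c : ℝ≥0∞ := ENNReal.ofReal (R' ^ 4) with hcd
  have hct : c ≠ ∞ := ENNReal.ofReal_ne_top
  -- constants
  have hK : (1 + 4 * c) ≠ ∞ := ENNReal.add_ne_top.2 ⟨by simp, ENNReal.mul_ne_top (by simp) hct⟩
  have hK0 : (1 + 4 * c) ≠ 0 := by
    have : (0 : ℝ≥0∞) < 1 + 4 * c := lt_of_lt_of_le one_pos le_self_add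
    exact this.ne'
  obtain ⟨N, hN⟩ := hc (ε / 2 / (1 + 4 * c)) (ENNReal.div_pos (ENNReal.half_pos hε.ne').ne' hK)
  obtain ⟨N', hN'⟩ : ∃ N' : ℕ, ((N' : ℝ≥0∞))⁻¹ < ε / 2 / 6 :=
    ENNReal.exists_inv_nat_lt (ENNReal.div_pos (ENNReal.half_pos hε.ne').ne' (by simp)).ne'
  have hinv : ∀ j ≥ N', ((j : ℝ≥0∞))⁻¹ ≤ ε / 2 / 6 := fun j hj =>
    (ENNReal.inv_le_inv.2 (by exact_mod_cast hj)).trans hN'.le
  refine ⟨max N N', fun j hj k hk => ?_⟩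
  have hjN : N ≤ j := (le_max_left _ _).trans hj
  have hkN : N ≤ k := (le_max_left _ _).trans hk
  have hjN' : N' ≤ j := (le_max_right _ _).trans hj
  have hkN' : N' ≤ k := (le_max_right _ _).trans hk
  set A : Set ℂ := {ξ : ℂ | 1 < ‖ξ‖ ∧ ‖ξ‖ < R'} with hA
  have hAm : MeasurableSet A := ((isOpen_lt continuous_const continuous_norm).inter
    (isOpen_lt continuous_norm continuous_const)).measurableSet
  have hsub : Metric.ball (0:ℂ) R ⊆ Metric.closedBall 0 1 ∪ A := by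
    intro ξ hξ
    rw [mem_ball_zero_iff] at hξ
    rcases le_or_gt ‖ξ‖ 1 with h | h
    · left
      simpa using h
    · right
      exact ⟨h, lt_of_lt_of_le hξ (le_max_left _ _)⟩
  have hD := hN j hjN k hkN
  set I : ℝ≥0∞ := ∫⁻ x in Metric.ball (0:ℂ) 1, ‖fderiv ℝ (φ j) x - fderiv ℝ (φ k) x‖ₑ ^ 2 with hI
  have p1 : ∫⁻ x in Metric.closedBall (0:ℂ) 1, ‖fderiv ℝ (Φ j) x - fderiv ℝ (Φ k) x‖ₑ ^ 2 ≤ I := by
    have e1 : ∫⁻ x in Metric.closedBall (0:ℂ) 1, ‖fderiv ℝ (Φ j) x - fderiv ℝ (Φ k) x‖ₑ ^ 2 =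
        ∫⁻ x in Metric.closedBall (0:ℂ) 1, ‖fderiv ℝ (φ j) x - fderiv ℝ (φ k) x‖ₑ ^ 2 :=
      setLIntegral_congr_fun Metric.isClosed_closedBall.measurableSet fun x hx => by
        simp only [(h2 j x hx).fderiv_eq, (h2 k x hx).fderiv_eq]
    rw [e1]
    exact lint_closedBall _
  have hdj : Differentiable ℝ (φ j) := (hφ j).differentiable (by simp)
  have hdk : Differentiable ℝ (φ k) := (hφ k).differentiable (by simp)
  have p2 : ∫⁻ ξ in A, ‖fderiv ℝ (fun ξ => φ j (cinv ξ)) ξ - fderiv ℝ (fun ξ => φ k (cinv ξ)) ξ‖ₑ ^ 2 ≤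
      c * I := by
    have e1 := energy_cinv (φ := fun x => φ j x - φ k x) (hdj.sub hdk) hR0
    have e2 : ∀ x, fderiv ℝ (fun x => φ j x - φ k x) x = fderiv ℝ (φ j) x - fderiv ℝ (φ k) x :=
      fun x => fderiv_fun_sub (hdj x) (hdk x)
    simp only [e2] at e1
    refine le_trans (le_of_eq ?_) e1
    refine setLIntegral_congr_fun hAm fun ξ hξ => ?_
    have h0 : ξ ≠ 0 := fun h' => by
      have := hξ.1
      rw [h', norm_zero] at this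
      linarith
    have e3 := ((comp_cinv hdj h0).sub (comp_cinv hdk h0)).fderiv
    have e4 : fderiv ℝ (fun ξ => φ j (cinv ξ) - φ k (cinv ξ)) ξ =
        (fderiv ℝ (φ j) (cinv ξ)).comp (cinvD ξ) - (fderiv ℝ (φ k) (cinv ξ)).comp (cinvD ξ) := e3
    simp only [e4, (comp_cinv hdj h0).fderiv, (comp_cinv hdk h0).fderiv]
  have hAs : A ⊆ {ξ : ℂ | 1 < ‖ξ‖} := fun ξ hξ => hξ.1
  have p3 : ∀ j, ∫⁻ ξ in A, ‖fderiv ℝ (Φ j) ξ - fderiv ℝ (fun ξ => φ j (cinv ξ)) ξ‖ₑ ^ 2 ≤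
      ((j : ℝ≥0∞))⁻¹ := fun j => (lintegral_mono_set hAs).trans (h3 j)
  have hmeas : ∀ j, Measurable (fderiv ℝ (fun ξ => φ j (cinv ξ))) := fun j =>
    measurable_fderiv ℝ _
  have hmeas' : ∀ j, Measurable (fderiv ℝ (Φ j)) := fun j =>
    ((h1 j).continuous_fderiv (by simp)).measurable
  have p4 : ∫⁻ ξ in A, ‖fderiv ℝ (Φ j) ξ - fderiv ℝ (Φ k) ξ‖ₑ ^ 2 ≤
      2 * ((j : ℝ≥0∞))⁻¹ + 4 * (c * I + ((k : ℝ≥0∞))⁻¹) := by
    have m1 : Measurable fun ξ => 2 * ‖fderiv ℝ (Φ j) ξ - fderiv ℝ (fun ξ => φ j (cinv ξ)) ξ‖ₑ ^ 2 :=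
      (((hmeas' j).sub (hmeas j)).enorm.pow_const 2).const_mul _
    have m2 : Measurable fun ξ =>
        ‖fderiv ℝ (fun ξ => φ j (cinv ξ)) ξ - fderiv ℝ (fun ξ => φ k (cinv ξ)) ξ‖ₑ ^ 2 :=
      ((hmeas j).sub (hmeas k)).enorm.pow_const 2
    calc ∫⁻ ξ in A, ‖fderiv ℝ (Φ j) ξ - fderiv ℝ (Φ k) ξ‖ₑ ^ 2
        ≤ ∫⁻ ξ in A, (2 * ‖fderiv ℝ (Φ j) ξ - fderiv ℝ (fun ξ => φ j (cinv ξ)) ξ‖ₑ ^ 2 +
          4 * (‖fderiv ℝ (fun ξ => φ j (cinv ξ)) ξ - fderiv ℝ (fun ξ => φ k (cinv ξ)) ξ‖ₑ ^ 2 +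
            ‖fderiv ℝ (Φ k) ξ - fderiv ℝ (fun ξ => φ k (cinv ξ)) ξ‖ₑ ^ 2)) := by
          refine lintegral_mono fun ξ => ?_
          refine (enorm_sq_sub _ (fderiv ℝ (fun ξ => φ j (cinv ξ)) ξ) _).trans ?_
          have e1 := enorm_sq_sub (fderiv ℝ (fun ξ => φ j (cinv ξ)) ξ)
            (fderiv ℝ (fun ξ => φ k (cinv ξ)) ξ) (fderiv ℝ (Φ k) ξ)
          rw [enorm_sub_rev (fderiv ℝ (fun ξ => φ k (cinv ξ)) ξ)] at e1
          rw [mul_add]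
          refine add_le_add le_rfl ((mul_le_mul_right e1 2).trans (le_of_eq ?_))
          rw [← mul_assoc]
          norm_num
      _ = 2 * (∫⁻ ξ in A, ‖fderiv ℝ (Φ j) ξ - fderiv ℝ (fun ξ => φ j (cinv ξ)) ξ‖ₑ ^ 2) +
          4 * ((∫⁻ ξ in A, ‖fderiv ℝ (fun ξ => φ j (cinv ξ)) ξ -
            fderiv ℝ (fun ξ => φ k (cinv ξ)) ξ‖ₑ ^ 2) +
            ∫⁻ ξ in A, ‖fderiv ℝ (Φ k) ξ - fderiv ℝ (fun ξ => φ k (cinv ξ)) ξ‖ₑ ^ 2) := by
          rw [lintegral_add_left m1, lintegral_const_mul' _ _ (by simp),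
            lintegral_const_mul' _ _ (by simp), lintegral_add_left m2]
      _ ≤ _ := add_le_add (mul_le_mul_right (p3 j) _)
          (mul_le_mul_right (add_le_add p2 (p3 k)) _)
  calc ∫⁻ x in Metric.ball (0:ℂ) R, ‖fderiv ℝ (Φ j) x - fderiv ℝ (Φ k) x‖ₑ ^ 2
      ≤ ∫⁻ x in Metric.closedBall (0:ℂ) 1 ∪ A, ‖fderiv ℝ (Φ j) x - fderiv ℝ (Φ k) x‖ₑ ^ 2 :=
        lintegral_mono_set hsub
    _ ≤ I + (2 * ((j : ℝ≥0∞))⁻¹ + 4 * (c * I + ((k : ℝ≥0∞))⁻¹)) :=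
        (lintegral_union_le _ _ _).trans (add_le_add p1 p4)
    _ = (1 + 4 * c) * I + (2 * ((j : ℝ≥0∞))⁻¹ + 4 * ((k : ℝ≥0∞))⁻¹) := by ring
    _ ≤ (1 + 4 * c) * (ε / 2 / (1 + 4 * c)) + (2 * (ε / 2 / 6) + 4 * (ε / 2 / 6)) := by
        have := hinv j hjN'
        have := hinv k hkN'
        gcongr
    _ = ε / 2 + ε / 2 := by
        congr 1
        · exact ENNReal.mul_div_cancel hK0 hK
        · rw [← add_mul]
          norm_num
          exact ENNReal.mul_div_cancel (by simp) (by simp)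
    _ = ε := ENNReal.add_halves ε

end Pool.Agent.Lib.MP_79abb3_an.SC
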