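import Pool.Agent.Lib.MP_79abb3_an.SC.L2Gd
import Pool.Agent.Lib.MP_79abb3_an.SC.L2Gf

/-!
Theorem C, stage for `L²` data, the data, part g: the chart which factors through the disc, and the data
theorem.
-/

set_option autoImplicit false
set_option linter.unusedSectionVars false

open MeasureTheory Set Filter Topology Function
open scoped ENNReal ComplexConjugate

namespace Pool.Agent.Lib.MP_79abb3_an.SC

/-- Data of class `L²`: limits in `L²(D)` of `∇^⊥ Ψ` with smooth `Ψ` such that `∇Ψ = 0` on the wall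
`∂Ω ∖ Γ`. -/
def IsAdL (D Ω Γ : Set ℂ) (u₀ : ℂ → ℂ) : Prop :=
  MemLp u₀ 2 (volume.restrict D) ∧ ∀ ε > 0, ∃ Ψ : ℂ → ℝ, ContDiff ℝ ((⊤ : ℕ∞) : WithTop ℕ∞) Ψ ∧
    (∀ x ∈ frontier Ω \ Γ, fderiv ℝ Ψ x = 0) ∧ ∫ x in D, ‖u₀ x - gradPerp Ψ x‖ ^ 2 ≤ ε

theorem gradPerp_norm_ge (Ψ : ℂ → ℝ) (x : ℂ) : ‖fderiv ℝ Ψ x‖ ≤ ‖gradPerp Ψ x‖ := by
  refine ContinuousLinearMap.opNorm_le_bound _ (norm_nonneg _) fun v => ?_
  set L := fderiv ℝ Ψ x with hL
  have h1 : v = v.re • (1 : ℂ) + v.im • Complex.I := by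
    apply Complex.ext <;> simp
  have h2 : L v = v.re * L 1 + v.im * L Complex.I := by
    conv_lhs => rw [h1]
    rw [map_add, map_smul, map_smul, smul_eq_mul, smul_eq_mul]
  have h3 : ‖gradPerp Ψ x‖ ^ 2 = L Complex.I ^ 2 + L 1 ^ 2 := by
    rw [← Complex.normSq_eq_norm_sq, Complex.normSq_apply]
    show L Complex.I * L Complex.I + -L 1 * -L 1 = _
    ring
  have h4 : ‖v‖ ^ 2 = v.re ^ 2 + v.im ^ 2 := by
    rw [← Complex.normSq_eq_norm_sq, Complex.normSq_apply]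
    ring
  rw [Real.norm_eq_abs]
  refine abs_le_of_sq_le_sq ?_ (by positivity)
  rw [mul_pow, h3, h4, h2]
  nlinarith [sq_nonneg (v.re * L Complex.I - v.im * L 1)]

theorem gradPerp_sub {Ψ Ψ' : ℂ → ℝ} {x : ℂ} (h : DifferentiableAt ℝ Ψ x)
    (h' : DifferentiableAt ℝ Ψ' x) :
    gradPerp (fun x => Ψ x - Ψ' x) x = gradPerp Ψ x - gradPerp Ψ' x := by
  rw [gradPerp, fderiv_fun_sub h h']
  apply Complex.ext
  · rfl
  · show -((fderiv ℝ Ψ x - fderiv ℝ Ψ' x) 1) = -(fderiv ℝ Ψ x 1) - -(fderiv ℝ Ψ' x 1)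
    rw [sub_apply]
    ring

theorem isConf_id : IsConf id where
  smooth := contDiff_id
  holo := differentiableOn_id
  inj := injOn_id _
  der := fun ξ _ h => by
    rw [fderiv_id] at h
    have := congrArg (fun L : ℂ →L[ℝ] ℂ => L 1) h
    simp at this

theorem IsConf.fderiv_one_ne {F : ℂ → ℂ} (hF : IsConf F) {ξ : ℂ}
    (hξ : ξ ∈ Metric.closedBall (0:ℂ) 1) : fderiv ℝ F ξ 1 ≠ 0 := by
  intro h
  apply hF.der ξ hξ
  ext v
  rw [hF.fderiv_eq hξ v, h, zero_mul]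
  rfl

/-- **The factorised chart.** -/
theorem IsDom.exists_factor {F : ℂ → ℂ} {Ω Γ : Set ℂ} (hD : IsDom F Ω Γ) :
    ∃ (F₁ : ℂ → ℂ) (O : Set ℂ) (r : ℝ), 0 < r ∧ IsChart (fun ζ => F (F₁ ζ)) O Ω Γ r ∧
      ContDiff ℝ ((⊤ : ℕ∞) : WithTop ℕ∞) F₁ ∧ (∀ ζ ∈ closure O, F₁ ζ ∈ Metric.closedBall (0:ℂ) 1) ∧
      ∀ ζ ∈ closure O, (fderiv ℝ F₁ ζ).det ≠ 0 := by
  have hFc : Continuous F := hD.conf.smooth.continuous
  set W : Set ℂ := frontier Ω \ Γ with hW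
  set Ω₁ : Set ℂ := {ξ | ξ ∈ Metric.ball (0:ℂ) 1 ∧ F ξ ∈ Ω} with hΩ₁
  set Γ₁ : Set ℂ := {ξ | F ξ ∉ W} with hΓ₁
  have hΩo : IsOpen Ω₁ := Metric.isOpen_ball.inter (hD.op.preimage hFc)
  have hΩb : Ω₁ ⊆ Metric.ball 0 1 := fun ξ hξ => hξ.1
  have hΩi : Ω = F '' Ω₁ := by
    ext x
    constructor
    · intro hx
      obtain ⟨ξ, hξ, rfl⟩ := hD.sub hx
      exact ⟨ξ, ⟨hξ, hx⟩, rfl⟩
    · rintro ⟨ξ, hξ, rfl⟩
      exact hξ.2
  have hcl : closure Ω₁ ⊆ Metric.closedBall 0 1 :=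
    (closure_mono hΩb).trans Metric.closure_ball_subset_closedBall
  have hsph : ∀ ξ ∈ Metric.closedBall (0:ℂ) 1, F ξ ∈ W → ξ ∈ Metric.sphere (0:ℂ) 1 := by
    intro ξ hξ hw
    obtain ⟨w, hw1, hw2⟩ := hD.wall hw
    have := hD.conf.inj (Metric.sphere_subset_closedBall hw1) hξ hw2
    rwa [← this]
  have hdom : IsDom id Ω₁ Γ₁ := by
    refine ⟨isConf_id, hΩo, ?_, ?_, ?_⟩
    · rw [image_id]
      exact hΩb
    · rw [image_id]
      rintro ξ ⟨h1, h2⟩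
      exact hsph ξ (hcl (frontier_subset_closure h1)) (not_not.1 h2)
    · obtain ⟨ξ, hξ, h1⟩ := hD.free
      refine ⟨ξ, hξ, fun h2 => h1 ?_⟩
      have h3 : closure (frontier Ω₁ \ Γ₁) ⊆ F ⁻¹' closure W := by
        refine closure_minimal ?_ (isClosed_closure.preimage hFc)
        rintro η ⟨-, hη⟩
        exact subset_closure (not_not.1 hη)
      exact h3 h2
  obtain ⟨F₁, O, r, hr, hC⟩ := hdom.exists_chart
  have hin : ∀ ζ ∈ closure O, F₁ ζ ∈ closure Ω₁ := fun ζ hζ => by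
    rw [hC.closure_img]
    exact ⟨ζ, hζ, rfl⟩
  have hdet : ∀ ζ ∈ closure O, (fderiv ℝ F₁ ζ).det ≠ 0 := fun ζ hζ => by
    rw [(hC.hasFDerivAt hζ).fderiv, det_mul_c]
    have := norm_pos_iff.2 (hC.der ζ hζ)
    positivity
  refine ⟨F₁, O, r, hr, ?_, hC.smooth, fun ζ hζ => hcl (hin ζ hζ), hdet⟩
  refine ⟨hD.conf.smooth.comp hC.smooth, hC.op, hC.pos, hC.box, ?_, ?_, ?_, ?_, ?_⟩
  · refine hD.conf.holo.comp hC.holo fun ζ hζ => ?_
    have h1 : F₁ ζ ∈ Ω₁ := by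
      rw [hC.img]
      exact ⟨ζ, hζ, rfl⟩
    exact hΩb h1
  · intro ζ hζ ζ' hζ' he
    exact hC.inj hζ hζ' (hD.conf.inj (hcl (hin ζ hζ)) (hcl (hin ζ' hζ')) he)
  · intro ζ hζ
    have h1 : HasFDerivAt (fun ζ => F (F₁ ζ)) ((fderiv ℝ F (F₁ ζ)).comp
        (ContinuousLinearMap.mul ℝ ℂ (dF F₁ ζ))) ζ :=
      (hD.conf.smooth.differentiable (by simp) _).hasFDerivAt.comp ζ (hC.hasFDerivAt hζ)
    rw [dF, h1.fderiv, ContinuousLinearMap.comp_apply, hD.conf.fderiv_eq (hcl (hin ζ hζ))]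
    refine mul_ne_zero (hD.conf.fderiv_one_ne (hcl (hin ζ hζ))) ?_
    simpa using hC.der ζ hζ
  · rw [hΩi, hC.img, image_image]
  · intro x hx
    obtain ⟨w, hw1, hw2⟩ := hD.wall hx
    have hwc : w ∈ Metric.closedBall (0:ℂ) 1 := Metric.sphere_subset_closedBall hw1
    have h1 : x ∈ F '' closure Ω₁ := by
      have h2 : closure Ω ⊆ F '' closure Ω₁ := by
        have hcpt : IsCompact (closure Ω₁) :=
          (isCompact_closedBall (0:ℂ) 1).of_isClosed_subset isClosed_closure hcl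
        refine closure_minimal ?_ (hcpt.image hFc).isClosed
        rw [hΩi]
        exact image_mono subset_closure
      exact h2 (frontier_subset_closure hx.1)
    obtain ⟨w', hw', hw3⟩ := h1
    have h3 : w' = w := hD.conf.inj (hcl hw') hwc (hw3.trans hw2.symm)
    rw [h3] at hw'
    have h4 : w ∈ frontier Ω₁ := by
      rw [frontier, hΩo.interior_eq]
      refine ⟨hw', fun h5 => ?_⟩
      have h6 := hΩb h5
      rw [mem_ball_zero_iff] at h6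
      rw [mem_sphere_zero_iff_norm] at hw1
      linarith
    have h5 : w ∈ frontier Ω₁ \ Γ₁ := ⟨h4, fun h6 => h6 (by rw [hw2]; exact hx)⟩
    obtain ⟨ζ, hζ, h6⟩ := hC.wall h5
    exact ⟨ζ, hζ, by show F (F₁ ζ) = x; rw [h6, hw2]⟩

/-- Energy of the pull back to the disc. -/
theorem IsConf.energy {F : ℂ → ℂ} (hF : IsConf F) {Ψ : ℂ → ℝ} (hΨ : Differentiable ℝ Ψ) :
    ∫⁻ ξ in Metric.ball (0:ℂ) 1, ‖fderiv ℝ (fun ξ => Ψ (F ξ)) ξ‖ₑ ^ 2 ≤
      ∫⁻ x in F '' Metric.ball (0:ℂ) 1, ‖gradPerp Ψ x‖ₑ ^ 2 := by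
  have hd : ∀ ξ ∈ Metric.ball (0:ℂ) 1, HasFDerivAt F (ContinuousLinearMap.mul ℝ ℂ (dF F ξ)) ξ := by
    intro ξ hξ
    have h1 := (hF.smooth.differentiable (by simp) ξ).hasFDerivAt
    have e : fderiv ℝ F ξ = ContinuousLinearMap.mul ℝ ℂ (dF F ξ) := ContinuousLinearMap.ext fun v =>
      hF.fderiv_eq (Metric.ball_subset_closedBall hξ) v
    rwa [e] at h1
  rw [lintegral_image_eq_lintegral_abs_det_fderiv_mul volume Metric.isOpen_ball.measurableSet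
    (fun ξ hξ => (hd ξ hξ).hasFDerivWithinAt) (hF.inj.mono Metric.ball_subset_closedBall)]
  refine setLIntegral_mono' Metric.isOpen_ball.measurableSet fun ξ hξ => ?_
  rw [det_mul_c, abs_of_nonneg (by positivity), ENNReal.ofReal_pow (norm_nonneg _), ← mul_pow]
  refine pow_le_pow_left' ?_ 2
  have h1 : fderiv ℝ (fun ξ => Ψ (F ξ)) ξ =
      (fderiv ℝ Ψ (F ξ)).comp (ContinuousLinearMap.mul ℝ ℂ (dF F ξ)) :=
    ((hΨ _).hasFDerivAt.comp ξ (hd ξ hξ)).fderiv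
  rw [h1, ← ofReal_norm, ← ofReal_norm, ← ENNReal.ofReal_mul (norm_nonneg _)]
  refine ENNReal.ofReal_le_ofReal ((ContinuousLinearMap.opNorm_comp_le _ _).trans ?_)
  rw [mul_comm]
  refine mul_le_mul (le_of_eq ?_) (gradPerp_norm_ge Ψ _) (norm_nonneg _) (norm_nonneg _)
  exact ContinuousLinearMap.opNorm_mul_apply ℝ ℂ _

/-- **The data theorem.** -/
theorem IsDom.exists_data {F : ℂ → ℂ} {Ω Γ : Set ℂ} (hD : IsDom F Ω Γ) {u₀ : ℂ → ℂ}
    (hu : IsAdL (F '' Metric.ball 0 1) Ω Γ u₀) :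
    ∃ (F' : ℂ → ℂ) (O : Set ℂ) (r : ℝ), 0 < r ∧ IsChart F' O Ω Γ r ∧ ∃ v₀ w₀,
      DataSeq r {y | cxp (y, 0) ∈ closure O ∧ F' (cxp (y, 0)) ∈ frontier Ω \ Γ} v₀ w₀ ∧
      ∀ q, cxp q ∈ O → conj (dF F' (cxp q)) * u₀ (F' (cxp q)) = ⟨v₀ q, w₀ q⟩ := by
  obtain ⟨F₁, O, r, hr, hC, hF₁, hF₁b, hF₁d⟩ := hD.exists_factor
  set D : Set ℂ := F '' Metric.ball 0 1 with hDd
  have hFc : Continuous F := hD.conf.smooth.continuous
  obtain ⟨hm, hap⟩ := hu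
  choose Ψ hΨ hΨw hΨl using fun j : ℕ => hap (1 / ((j : ℝ) + 1)) (by positivity)
  -- `∇^⊥ Ψ_j` in `L²(D)`
  have hDc : IsCompact (F '' Metric.closedBall 0 1) := (isCompact_closedBall (0:ℂ) 1).image hFc
  have hDs : D ⊆ F '' Metric.closedBall 0 1 := image_mono Metric.ball_subset_closedBall
  have hfin : IsFiniteMeasure (volume.restrict D) :=
    ⟨by rw [Measure.restrict_apply_univ]; exact (measure_mono hDs).trans_lt hDc.measure_lt_top⟩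
  have hDm : MeasurableSet D := Metric.isOpen_ball.measurableSet.image_of_continuousOn_injOn
    hFc.continuousOn (hD.conf.inj.mono Metric.ball_subset_closedBall)
  have hgm : ∀ j, MemLp (gradPerp (Ψ j)) 2 (volume.restrict D) := fun j => by
    obtain ⟨B, hB⟩ := hDc.exists_bound_of_continuousOn (gradPerp_cont (hΨ j)).continuousOn
    refine MemLp.of_bound (gradPerp_cont (hΨ j)).aestronglyMeasurable B ?_
    rw [ae_restrict_iff' hDm]
    exact Eventually.of_forall fun x hx => hB x (hDs hx)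
  have hdist : ∀ j, ∫⁻ x in D, ‖gradPerp (Ψ j) x - u₀ x‖ₑ ^ 2 ≤
      ENNReal.ofReal (1 / ((j : ℝ) + 1)) := fun j => by
    have e1 : ∫⁻ x in D, ‖gradPerp (Ψ j) x - u₀ x‖ₑ ^ 2 = ∫⁻ x in D, ‖u₀ x - gradPerp (Ψ j) x‖ₑ ^ 2 :=
      lintegral_congr fun x => by rw [enorm_sub_rev]
    have e2 : ∫⁻ x in D, ‖u₀ x - gradPerp (Ψ j) x‖ₑ ^ 2 =
        ENNReal.ofReal (∫ x in D, ‖u₀ x - gradPerp (Ψ j) x‖ ^ 2) := lint_sq_eq (hm.sub (hgm j))
    rw [e1, e2]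
    exact ENNReal.ofReal_le_ofReal (hΨl j)
  have hofR : Tendsto (fun j : ℕ => ENNReal.ofReal (1 / ((j : ℝ) + 1))) atTop (𝓝 0) := by
    have h1 := (ENNReal.continuous_ofReal.tendsto 0).comp (tendsto_one_div_add_atTop_nhds_zero_nat (𝕜 := ℝ))
    rw [ENNReal.ofReal_zero] at h1
    exact h1
  have hlim : Tendsto (fun j => ∫⁻ x in D, ‖gradPerp (Ψ j) x - u₀ x‖ₑ ^ 2) atTop (𝓝 0) :=
    tendsto_of_tendsto_of_tendsto_of_le_of_le tendsto_const_nhds hofR (fun j => bot_le) hdist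
  -- the functions in the disc
  set φ : ℕ → ℂ → ℝ := fun j ξ => Ψ j (F ξ) with hφ
  have hφs : ∀ j, ContDiff ℝ ((⊤ : ℕ∞) : WithTop ℕ∞) (φ j) := fun j =>
    (hΨ j).comp hD.conf.smooth
  have hΨd : ∀ j, Differentiable ℝ (Ψ j) := fun j => (hΨ j).differentiable (by simp)
  have hφd : ∀ j, Differentiable ℝ (φ j) := fun j => (hφs j).differentiable (by simp)
  obtain ⟨Φ, hΦs, hΦn, hΦc⟩ := exists_refl_seq hφs fun ε hε => by
    have h4 : 0 < ε / 4 := ENNReal.div_pos hε.ne' (by simp)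
    obtain ⟨N, hN⟩ := eventually_atTop.1 (hlim.eventually (ge_mem_nhds h4))
    refine ⟨N, fun j hj k hk => ?_⟩
    have e1 : ∀ x, fderiv ℝ (φ j) x - fderiv ℝ (φ k) x =
        fderiv ℝ (fun ξ => (fun x => Ψ j x - Ψ k x) (F ξ)) x := fun x =>
      (fderiv_fun_sub (hφd j x) (hφd k x)).symm
    simp only [e1]
    refine (hD.conf.energy ((hΨd j).sub (hΨd k))).trans ?_
    have m1 : AEMeasurable (fun x => ‖gradPerp (Ψ j) x - u₀ x‖ₑ ^ 2) (volume.restrict D) :=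
      (((gradPerp_cont (hΨ j)).aestronglyMeasurable).sub hm.1).enorm.pow_const 2
    calc ∫⁻ x in D, ‖gradPerp (fun x => Ψ j x - Ψ k x) x‖ₑ ^ 2
        ≤ ∫⁻ x in D, 2 * (‖gradPerp (Ψ j) x - u₀ x‖ₑ ^ 2 + ‖gradPerp (Ψ k) x - u₀ x‖ₑ ^ 2) := by
          refine lintegral_mono fun x => ?_
          rw [gradPerp_sub (hΨd j x) (hΨd k x)]
          have e2 := enorm_sq_sub (gradPerp (Ψ j) x) (u₀ x) (gradPerp (Ψ k) x)
          rwa [enorm_sub_rev (u₀ x)] at e2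
      _ = 2 * ((∫⁻ x in D, ‖gradPerp (Ψ j) x - u₀ x‖ₑ ^ 2) +
          ∫⁻ x in D, ‖gradPerp (Ψ k) x - u₀ x‖ₑ ^ 2) := by
          rw [lintegral_const_mul' _ _ (by simp), lintegral_add_left' m1]
      _ ≤ 2 * (ε / 4 + ε / 4) := mul_le_mul_right (add_le_add (hN j hj) (hN k hk)) _
      _ = ε := by
          rw [← two_mul, ← mul_assoc]
          norm_num
          exact ENNReal.mul_div_cancel (by simp) (by simp)
  obtain ⟨ψ, p1, p2, p3, p4⟩ := seq_of_chart hF₁ hC.compact hF₁d hr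
    (fun ζ hζ => ⟨(hC.closure_sub hζ).1, by
      rw [abs_of_nonneg (hC.closure_sub hζ).2.1]
      exact (hC.closure_sub hζ).2.2⟩) hΦs hΦc
  have hΩD : Ω ⊆ D := hD.sub
  refine ⟨fun ζ => F (F₁ ζ), O, r, hr, hC, ?_⟩
  refine hC.data_of_seq (Ψ := Ψ) (hm.mono_measure (Measure.restrict_mono hΩD le_rfl)) hΨ hΨw ?_ p1 p2
    (fun j => ?_) p4
  · exact tendsto_of_tendsto_of_tendsto_of_le_of_le tendsto_const_nhds hlim (fun j => bot_le)
      fun j => lintegral_mono_set hΩD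
  · obtain ⟨c, hc⟩ := p3 j
    refine ⟨c, fun q hq => ?_⟩
    have h1 := hΦn j (F₁ (cxp q)) (hF₁b _ hq)
    have h2 : Tendsto (fun p => F₁ (cxp p)) (𝓝 q) (𝓝 (F₁ (cxp q))) :=
      (hF₁.continuous.comp cxp_cont).tendsto q
    filter_upwards [hc q hq, h2.eventually h1] with p hp hp'
    rw [hp, hp']

end Pool.Agent.Lib.MP_79abb3_an.SC
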