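import Pool.Agent.Lib.MP_79abb3_an.SC.L2Eb

/-!
Theorem C, stage for `L²` data: initial values and wall values of the background of a sequence of smooth
stream functions.
-/

set_option autoImplicit false
set_option linter.unusedSectionVars false

open MeasureTheory Set Filter Topology Function
open scoped ENNReal InnerProductSpace

namespace Pool.Agent.Lib.MP_79abb3_an.SC

open Pool.Agent.Lib.MP_79abb3_an.P25

section
variable {H : ℝ} [hH : Fact (0 < H)] {a : ℝ × ℝ → ℝ} {τ : ℕ → ℝ} {k : ℕ} {t : ℝ}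

namespace Geo
variable {G : Geo H} (ha : PY H a) (hGa : G.a = fam a) {ψ : ℕ → ℝ × ℝ → ℝ} (hψ : ∀ j, PY H (ψ j))
  (ht : ∀ j, VanT H (ψ j))

/-- The lift data of the sequence. -/
noncomputable def Ls (G : Geo H) (ha : PY H a) (hGa : G.a = fam a) {ψ : ℕ → ℝ × ℝ → ℝ} (hψ : ∀ j, PY H (ψ j))
    (ht : ∀ j, VanT H (ψ j)) (k : ℕ) : G.LD := G.ld ha hGa (hψ k) (ht k)

/-- the coefficients of the background velocity. Proof: `BS_vf`, `ld_v`, `ld_w`. -/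
theorem Ls_vf (h : Tms τ) (htk : t ∈ Icc (τ (k + 1)) (τ k)) (n : ℤ) :
    G.vf (BS (G.Ls ha hGa hψ ht) τ) t 0 n = ((stj τ k t : ℝ) : ℂ) • fam (pZ (ψ k)) n +
      ((1 - stj τ k t : ℝ) : ℂ) • fam (pZ (ψ (k + 1))) n ∧
    G.wf (BS (G.Ls ha hGa hψ ht) τ) t 0 n = ((stj τ k t : ℝ) : ℂ) • -fam (pY (ψ k)) n +
      ((1 - stj τ k t : ℝ) : ℂ) • -fam (pY (ψ (k + 1))) n := by
  obtain ⟨h1, h2⟩ := BS_vf (G.Ls ha hGa hψ ht) h htk n
  have v1 := fun k => G.ld_v ha hGa (hψ k) (ht k) n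
  have w1 := fun k => G.ld_w ha hGa (hψ k) (ht k) n
  refine ⟨h1.trans ?_, h2.trans ?_⟩
  · rw [← v1 k, ← v1 (k + 1)]; rfl
  · rw [← w1 k, ← w1 (k + 1)]; rfl

theorem Ls_sum {F : ℝ × ℝ → ℝ} (hF : PY H F) (r : ℝ) :
    (Summable fun n => ‖(r : ℂ) • (fam F n : CI H)‖) ∧
      Summable fun n => ‖(r : ℂ) • (-fam F n : CI H)‖ := by
  have s := pz_fam_sum0 (H := H) hF
  constructor
  · simp only [norm_smul]; exact s.mul_left _
  · simp only [norm_smul, norm_neg]; exact s.mul_left _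

/-- the background velocity in physical space. -/
theorem Ls_fld (h : Tms τ) (htk : t ∈ Icc (τ (k + 1)) (τ k)) (y z : ℝ) :
    fld G.ω (G.vf (BS (G.Ls ha hGa hψ ht) τ) t 0) y z = stj τ k t * fld G.ω (fam (pZ (ψ k)) : ℤ → CI H) y z +
      (1 - stj τ k t) * fld G.ω (fam (pZ (ψ (k + 1))) : ℤ → CI H) y z ∧
    fld G.ω (G.wf (BS (G.Ls ha hGa hψ ht) τ) t 0) y z = -(stj τ k t * fld G.ω (fam (pY (ψ k)) : ℤ → CI H) y z +
      (1 - stj τ k t) * fld G.ω (fam (pY (ψ (k + 1))) : ℤ → CI H) y z) := by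
  have e1 : G.vf (BS (G.Ls ha hGa hψ ht) τ) t 0 = fun n => ((stj τ k t : ℝ) : ℂ) • fam (pZ (ψ k)) n +
      ((1 - stj τ k t : ℝ) : ℂ) • fam (pZ (ψ (k + 1))) n := funext fun n => (Ls_vf ha hGa hψ ht h htk n).1
  have e2 : G.wf (BS (G.Ls ha hGa hψ ht) τ) t 0 = fun n => ((stj τ k t : ℝ) : ℂ) • -fam (pY (ψ k)) n +
      ((1 - stj τ k t : ℝ) : ℂ) • -fam (pY (ψ (k + 1))) n :=
    funext fun n => (Ls_vf ha hGa hψ ht h htk n).2
  constructor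
  · rw [e1, fld_add (Ls_sum (hψ k).pZ _).1 (Ls_sum (hψ (k + 1)).pZ _).1, fld_csmul, fld_csmul]
  · rw [e2, fld_add (Ls_sum (hψ k).pY _).2 (Ls_sum (hψ (k + 1)).pY _).2, fld_csmul, fld_csmul,
      fld_neg, fld_neg]
    ring

/-- the velocity of the solution: background plus perturbation (`vf_split`, `fld_add`). -/
theorem Ls_fld_add (h : Tms τ) (htk : t ∈ Icc (τ (k + 1)) (τ k)) {x : HH H}
    (hx : Summable fun n => ‖Vf G.ω (G.Qd x) n‖) (y z : ℝ) :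
    fld G.ω (G.vf (BS (G.Ls ha hGa hψ ht) τ) t (0, x)) y z = fV G.ω (G.Qd x) (y, z) +
      fld G.ω (G.vf (BS (G.Ls ha hGa hψ ht) τ) t 0) y z ∧
    fld G.ω (G.wf (BS (G.Ls ha hGa hψ ht) τ) t (0, x)) y z = fW G.ω (G.Qd x) (y, z) +
      fld G.ω (G.wf (BS (G.Ls ha hGa hψ ht) τ) t 0) y z := by
  have e1 : G.vf (BS (G.Ls ha hGa hψ ht) τ) t (0, x) = fun n => uV G.ω (Vf G.ω (G.Qd x)) n +
      G.vf (BS (G.Ls ha hGa hψ ht) τ) t 0 n := funext fun n => vf_split G _ _ _ n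
  have e2 : G.wf (BS (G.Ls ha hGa hψ ht) τ) t (0, x) = fun n => wV G.ω (Vf G.ω (G.Qd x)) n +
      G.wf (BS (G.Ls ha hGa hψ ht) τ) t 0 n := funext fun n => wf_split G _ _ _ n
  have su : Summable fun n => ‖uV G.ω (Vf G.ω (G.Qd x)) n‖ :=
    Summable.of_nonneg_of_le (fun _ => norm_nonneg _) (fun n => norm_uV_le _ _ n) (hx.mul_left 2)
  have sw : Summable fun n => ‖wV G.ω (Vf G.ω (G.Qd x)) n‖ :=
    Summable.of_nonneg_of_le (fun _ => norm_nonneg _) (fun n => norm_wV_le _ _ n) (hx.mul_left 1)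
  have sv : Summable fun n => ‖G.vf (BS (G.Ls ha hGa hψ ht) τ) t 0 n‖ := by
    simp only [(Ls_vf ha hGa hψ ht h htk _).1]
    exact Summable.of_nonneg_of_le (fun _ => norm_nonneg _) (fun n => norm_add_le _ _)
      ((Ls_sum (hψ k).pZ _).1.add (Ls_sum (hψ (k + 1)).pZ _).1)
  have sv' : Summable fun n => ‖G.wf (BS (G.Ls ha hGa hψ ht) τ) t 0 n‖ := by
    simp only [(Ls_vf ha hGa hψ ht h htk _).2]
    exact Summable.of_nonneg_of_le (fun _ => norm_nonneg _) (fun n => norm_add_le _ _)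
      ((Ls_sum (hψ k).pY _).2.add (Ls_sum (hψ (k + 1)).pY _).2)
  constructor
  · rw [e1, fld_add su sv]; rfl
  · rw [e2, fld_add sw sv']; rfl

theorem Ls_fam {F : ℝ × ℝ → ℝ} (hF : PY H F) {y z : ℝ} (hy : y ∈ Icc (-H) H) (hz : z ∈ Icc (0:ℝ) H) :
    fld G.ω (fam F : ℤ → CI H) y z = F (y, z) := by
  rw [G.hω]; exact fld_fam hF hy hz

/-- **Wall values.** -/
theorem Ls_wall (h : Tms τ) (ht0 : t ∈ Ioc 0 (τ 0)) {x : HH H}
    (hx : Summable fun n => ‖Vf G.ω (G.Qd x) n‖) {y : ℝ} (hy : y ∈ Icc (-H) H)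
    (h0 : ∀ j, pZ (ψ j) (y, 0) = 0 ∧ pY (ψ j) (y, 0) = 0) :
    fld G.ω (G.vf (BS (G.Ls ha hGa hψ ht) τ) t (0, x)) y 0 = 0 ∧
    fld G.ω (G.wf (BS (G.Ls ha hGa hψ ht) τ) t (0, x)) y 0 = 0 := by
  obtain ⟨k, -, hk⟩ := h.exists_mem ht0
  have htk : t ∈ Icc (τ (k + 1)) (τ k) := ⟨hk.1.le, hk.2⟩
  have hz0 : (0:ℝ) ∈ Icc (0:ℝ) H := ⟨le_rfl, hH.out.le⟩
  obtain ⟨a1, a2⟩ := Ls_fld_add ha hGa hψ ht h htk hx y 0
  obtain ⟨b1, b2⟩ := Ls_fld ha hGa hψ ht h htk y 0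
  rw [Ls_fam (hψ k).pZ hy hz0, Ls_fam (hψ (k + 1)).pZ hy hz0, (h0 k).1, (h0 (k + 1)).1] at b1
  rw [Ls_fam (hψ k).pY hy hz0, Ls_fam (hψ (k + 1)).pY hy hz0, (h0 k).2, (h0 (k + 1)).2] at b2
  have c1 : fV G.ω (G.Qd x) (y, 0) = 0 :=
    fld_zero_at (fun n => by rw [ex_uV_zero, G.Vf_Qd_zero]) y
  have c2 : fW G.ω (G.Qd x) (y, 0) = 0 := fld_zero_at (fun n => wV_zero _ _ n) y
  rw [a1, a2, b1, b2, c1, c2]
  simp

/-- **Initial values.** Proof: convexity on `[τ_{k+1}, τ_k]`; `t → 0` means `k → ∞` (`Tms`). -/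
theorem Ls_init (h : Tms τ) {v₀ w₀ : ℝ × ℝ → ℝ} (m₀ : MemLp v₀ 2 (volume.restrict (Icc (-H) H ×ˢ Icc 0 H)))
    (m₁ : MemLp w₀ 2 (volume.restrict (Icc (-H) H ×ˢ Icc 0 H)))
    (hl : Tendsto (fun j => ∫ q in Icc (-H) H ×ˢ Icc 0 H,
      ((pZ (ψ j) q - v₀ q) ^ 2 + (-pY (ψ j) q - w₀ q) ^ 2)) atTop (𝓝 0)) {h' : ℝ} (hh' : h' ≤ H) :
    Tendsto (fun t => ∫ q in Icc (-H) H ×ˢ Icc 0 h',
      ((fld G.ω (G.vf (BS (G.Ls ha hGa hψ ht) τ) t 0) q.1 q.2 - v₀ q) ^ 2 +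
        (fld G.ω (G.wf (BS (G.Ls ha hGa hψ ht) τ) t 0) q.1 q.2 - w₀ q) ^ 2)) (𝓝[>] 0) (𝓝 0) := by
  have hcomp : IsCompact (Icc (-H) H ×ˢ Icc (0:ℝ) H) := isCompact_Icc.prod isCompact_Icc
  have mF : ∀ {F : ℝ × ℝ → ℝ}, PY H F → MemLp F 2 (volume.restrict (Icc (-H) H ×ˢ Icc (0:ℝ) H)) := by
    intro F hF
    obtain ⟨B, hB⟩ := hcomp.exists_bound_of_continuousOn (f := F) hF.smooth.continuous.continuousOn
    have : IsFiniteMeasure (volume.restrict (Icc (-H) H ×ˢ Icc (0:ℝ) H)) :=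
      ⟨by rw [Measure.restrict_apply_univ]; exact hcomp.measure_lt_top⟩
    refine MemLp.of_bound hF.smooth.continuous.aestronglyMeasurable B ?_
    rw [ae_restrict_iff' (measurableSet_Icc.prod measurableSet_Icc)]
    exact Eventually.of_forall hB
  have hsub : Icc (-H) H ×ˢ Icc (0:ℝ) h' ⊆ Icc (-H) H ×ˢ Icc (0:ℝ) H :=
    prod_mono le_rfl (Icc_subset_Icc le_rfl hh')
  have iG : ∀ j, IntegrableOn (fun q => (pZ (ψ j) q - v₀ q) ^ 2 + (-pY (ψ j) q - w₀ q) ^ 2)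
      (Icc (-H) H ×ˢ Icc (0:ℝ) H) := fun j =>
    ((mF (hψ j).pZ).sub m₀).integrable_sq.add (((mF (hψ j).pY).neg).sub m₁).integrable_sq
  obtain ⟨d, hd⟩ : ∃ d : ℕ → ℝ, ∀ j, d j = ∫ q in Icc (-H) H ×ˢ Icc 0 H,
      ((pZ (ψ j) q - v₀ q) ^ 2 + (-pY (ψ j) q - w₀ q) ^ 2) := ⟨_, fun _ => rfl⟩
  have hd0 : Tendsto d atTop (𝓝 0) := by
    have : d = fun j => ∫ q in Icc (-H) H ×ˢ Icc 0 H,
      ((pZ (ψ j) q - v₀ q) ^ 2 + (-pY (ψ j) q - w₀ q) ^ 2) := funext hd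
    rw [this]; exact hl
  have key : ∀ k, ∀ t ∈ Icc (τ (k + 1)) (τ k), ∫ q in Icc (-H) H ×ˢ Icc 0 h',
      ((fld G.ω (G.vf (BS (G.Ls ha hGa hψ ht) τ) t 0) q.1 q.2 - v₀ q) ^ 2 +
        (fld G.ω (G.wf (BS (G.Ls ha hGa hψ ht) τ) t 0) q.1 q.2 - w₀ q) ^ 2) ≤
      stj τ k t * d k + (1 - stj τ k t) * d (k + 1) := by
    intro k t htk
    obtain ⟨s0, s1⟩ := stj_mem (τ := τ) k t
    have s1' : 0 ≤ 1 - stj τ k t := by linarith
    have e1 : ∀ q ∈ Icc (-H) H ×ˢ Icc (0:ℝ) h',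
        ((fld G.ω (G.vf (BS (G.Ls ha hGa hψ ht) τ) t 0) q.1 q.2 - v₀ q) ^ 2 +
          (fld G.ω (G.wf (BS (G.Ls ha hGa hψ ht) τ) t 0) q.1 q.2 - w₀ q) ^ 2) =
        ((stj τ k t * pZ (ψ k) q + (1 - stj τ k t) * pZ (ψ (k + 1)) q) - v₀ q) ^ 2 +
          (-(stj τ k t * pY (ψ k) q + (1 - stj τ k t) * pY (ψ (k + 1)) q) - w₀ q) ^ 2 := by
      rintro ⟨y, z⟩ hq
      obtain ⟨hy, hz⟩ := hsub hq
      obtain ⟨b1, b2⟩ := Ls_fld ha hGa hψ ht h htk y z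
      rw [Ls_fam (hψ k).pZ hy hz, Ls_fam (hψ (k + 1)).pZ hy hz] at b1
      rw [Ls_fam (hψ k).pY hy hz, Ls_fam (hψ (k + 1)).pY hy hz] at b2
      show (fld G.ω (G.vf (BS (G.Ls ha hGa hψ ht) τ) t 0) y z - v₀ (y, z)) ^ 2 +
          (fld G.ω (G.wf (BS (G.Ls ha hGa hψ ht) τ) t 0) y z - w₀ (y, z)) ^ 2 = _
      rw [b1, b2]
    have hm : MeasurableSet (Icc (-H) H ×ˢ Icc (0:ℝ) h') := measurableSet_Icc.prod measurableSet_Icc
    rw [setIntegral_congr_fun hm e1]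
    have i1 : IntegrableOn (fun q => stj τ k t * ((pZ (ψ k) q - v₀ q) ^ 2 + (-pY (ψ k) q - w₀ q) ^ 2) +
        (1 - stj τ k t) * ((pZ (ψ (k + 1)) q - v₀ q) ^ 2 + (-pY (ψ (k + 1)) q - w₀ q) ^ 2))
        (Icc (-H) H ×ˢ Icc (0:ℝ) H) := ((iG k).const_mul _).add ((iG (k + 1)).const_mul _)
    have m2 : MemLp (fun q => (stj τ k t * pZ (ψ k) q + (1 - stj τ k t) * pZ (ψ (k + 1)) q) - v₀ q) 2
        (volume.restrict (Icc (-H) H ×ˢ Icc (0:ℝ) H)) :=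
      (((mF (hψ k).pZ).const_mul _).add ((mF (hψ (k + 1)).pZ).const_mul _)).sub m₀
    have m3 : MemLp (fun q => -(stj τ k t * pY (ψ k) q + (1 - stj τ k t) * pY (ψ (k + 1)) q) - w₀ q) 2
        (volume.restrict (Icc (-H) H ×ˢ Icc (0:ℝ) H)) :=
      ((((mF (hψ k).pY).const_mul _).add ((mF (hψ (k + 1)).pY).const_mul _)).neg).sub m₁
    have i2 : IntegrableOn (fun q =>
        ((stj τ k t * pZ (ψ k) q + (1 - stj τ k t) * pZ (ψ (k + 1)) q) - v₀ q) ^ 2 +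
          (-(stj τ k t * pY (ψ k) q + (1 - stj τ k t) * pY (ψ (k + 1)) q) - w₀ q) ^ 2)
        (Icc (-H) H ×ˢ Icc (0:ℝ) H) := m2.integrable_sq.add m3.integrable_sq
    calc _ ≤ ∫ q in Icc (-H) H ×ˢ Icc (0:ℝ) H,
          (((stj τ k t * pZ (ψ k) q + (1 - stj τ k t) * pZ (ψ (k + 1)) q) - v₀ q) ^ 2 +
          (-(stj τ k t * pY (ψ k) q + (1 - stj τ k t) * pY (ψ (k + 1)) q) - w₀ q) ^ 2) :=
          setIntegral_mono_set i2 (Eventually.of_forall fun q => by positivity)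
            (Eventually.of_forall fun q hq => hsub hq)
      _ ≤ ∫ q in Icc (-H) H ×ˢ Icc (0:ℝ) H,
          (stj τ k t * ((pZ (ψ k) q - v₀ q) ^ 2 + (-pY (ψ k) q - w₀ q) ^ 2) +
          (1 - stj τ k t) * ((pZ (ψ (k + 1)) q - v₀ q) ^ 2 + (-pY (ψ (k + 1)) q - w₀ q) ^ 2)) := by
          refine setIntegral_mono i2 i1 fun q => ?_
          obtain ⟨s, hs⟩ : ∃ s, s = stj τ k t := ⟨_, rfl⟩
          simp only []
          rw [← hs] at s0 s1 s1' ⊢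
          have c : ∀ x y v : ℝ, (s * x + (1 - s) * y - v) ^ 2 ≤ s * (x - v) ^ 2 + (1 - s) * (y - v) ^ 2 := by
            intro x y v
            nlinarith [mul_nonneg (mul_nonneg s0 s1') (sq_nonneg (x - y))]
          have c1 := c (pZ (ψ k) q) (pZ (ψ (k + 1)) q) (v₀ q)
          have c2 := c (-pY (ψ k) q) (-pY (ψ (k + 1)) q) (w₀ q)
          have e : -(s * pY (ψ k) q + (1 - s) * pY (ψ (k + 1)) q) =
              s * -pY (ψ k) q + (1 - s) * -pY (ψ (k + 1)) q := by ring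
          rw [e]
          linarith
      _ = _ := by
          rw [integral_add ((iG k).const_mul _) ((iG (k + 1)).const_mul _), integral_const_mul,
            integral_const_mul, hd, hd]
  rw [Metric.tendsto_nhds]
  intro ε hε
  obtain ⟨K, hK⟩ := (Metric.tendsto_atTop.1 hd0 ε hε)
  have hτK := h.pos K
  filter_upwards [Ioc_mem_nhdsGT hτK] with t htK
  obtain ⟨k, hk, hk'⟩ := h.exists_mem htK
  have h1 := key k t ⟨hk'.1.le, hk'.2⟩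
  obtain ⟨s0, s1⟩ := stj_mem (τ := τ) k t
  have d1 := hK k hk
  have d2 := hK (k + 1) (hk.trans k.le_succ)
  rw [Real.dist_eq, sub_zero] at d1 d2
  have d1' := (abs_lt.1 d1).2
  have d2' := (abs_lt.1 d2).2
  have n0 : 0 ≤ ∫ q in Icc (-H) H ×ˢ Icc 0 h',
      ((fld G.ω (G.vf (BS (G.Ls ha hGa hψ ht) τ) t 0) q.1 q.2 - v₀ q) ^ 2 +
        (fld G.ω (G.wf (BS (G.Ls ha hGa hψ ht) τ) t 0) q.1 q.2 - w₀ q) ^ 2) :=
    integral_nonneg fun q => by positivity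
  rw [Real.dist_eq, sub_zero, abs_of_nonneg n0]
  refine h1.trans_lt ?_
  rcases s0.eq_or_lt with h0 | h0
  · rw [← h0]; linarith
  · have : 0 ≤ 1 - stj τ k t := by linarith
    nlinarith

end Geo

end

end Pool.Agent.Lib.MP_79abb3_an.SC
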