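import Pool.Agent.Lib.MP_79abb3_an.SC.ChTime

/-!
Theorem C, assembly: a strip solution followed by a piece.
-/

set_option autoImplicit false
set_option linter.unusedSectionVars false

open MeasureTheory Set Filter Topology Function
open scoped ENNReal InnerProductSpace

namespace Pool.Agent.Lib.MP_79abb3_an.SC

section
variable {H h : ℝ} {a : ℝ × ℝ → ℝ} {T T₁ T₂ : ℝ}

/-- `V χ` is continuous with compact support. -/
theorem ts_cont {V : ℝ → ℝ × ℝ → ℝ} {χ : ℝ × (ℝ × ℝ) → ℝ}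
    (hV : ContinuousOn (uncurry V) (Ioc 0 T ×ˢ (univ ×ˢ Icc 0 h))) (hχ : Continuous χ)
    (hs : tsupport χ ⊆ Ioo 0 T ×ˢ (Ioo (-H) H ×ˢ Ioo 0 h)) :
    Continuous fun p : ℝ × (ℝ × ℝ) => V p.1 p.2 * χ p := by
  rw [continuous_iff_continuousAt]
  intro p
  by_cases hp : p ∈ tsupport χ
  · have ho : IsOpen (Ioo 0 T ×ˢ (univ ×ˢ Ioo 0 h) : Set (ℝ × (ℝ × ℝ))) :=
      isOpen_Ioo.prod (isOpen_univ.prod isOpen_Ioo)
    have hm : p ∈ (Ioo 0 T ×ˢ (univ ×ˢ Ioo 0 h) : Set (ℝ × (ℝ × ℝ))) :=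
      ⟨(hs hp).1, trivial, (hs hp).2.2⟩
    have h1 : ContinuousOn (uncurry V) (Ioo 0 T ×ˢ (univ ×ˢ Ioo 0 h)) :=
      hV.mono (prod_mono Ioo_subset_Ioc_self (prod_mono subset_rfl Ioo_subset_Icc_self))
    exact (h1.continuousAt (ho.mem_nhds hm)).mul hχ.continuousAt
  · have hz : χ =ᶠ[𝓝 p] fun _ => 0 := notMem_tsupport_iff_eventuallyEq.1 hp
    have h1 : (fun p : ℝ × (ℝ × ℝ) => V p.1 p.2 * χ p) =ᶠ[𝓝 p] fun _ => 0 := by
      filter_upwards [hz] with q hq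
      rw [hq, mul_zero]
    exact (continuousAt_const.congr h1.symm)

theorem ts_int {V : ℝ → ℝ × ℝ → ℝ} {χ : ℝ × (ℝ × ℝ) → ℝ}
    (hV : ContinuousOn (uncurry V) (Ioc 0 T ×ˢ (univ ×ˢ Icc 0 h))) (hχ : Continuous χ)
    (hc : HasCompactSupport χ) (hs : tsupport χ ⊆ Ioo 0 T ×ˢ (Ioo (-H) H ×ˢ Ioo 0 h)) :
    Integrable fun p : ℝ × (ℝ × ℝ) => V p.1 p.2 * χ p :=
  (ts_cont hV hχ hs).integrable_of_hasCompactSupport hc.mul_left

/-- A smooth cut-off in time: `1` for `t ≤ T₁ - 2ε`, `0` for `t ≥ T₁ - ε`. -/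
noncomputable def cuT (T₁ ε t : ℝ) : ℝ := Real.smoothTransition ((T₁ - ε - t) / ε)

theorem cuT_smooth (T₁ ε : ℝ) : ContDiff ℝ ((⊤ : ℕ∞) : WithTop ℕ∞) (cuT T₁ ε) :=
  Real.smoothTransition.contDiff.comp ((contDiff_const.sub contDiff_id).div_const ε)

theorem cuT_nonneg (T₁ ε t : ℝ) : 0 ≤ cuT T₁ ε t := Real.smoothTransition.nonneg _
theorem cuT_le_one (T₁ ε t : ℝ) : cuT T₁ ε t ≤ 1 := Real.smoothTransition.le_one _

theorem cuT_zero {T₁ ε t : ℝ} (hε : 0 < ε) (ht : T₁ - ε ≤ t) : cuT T₁ ε t = 0 :=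
  Real.smoothTransition.zero_of_nonpos (div_nonpos_of_nonpos_of_nonneg (by linarith) hε.le)

theorem cuT_one {T₁ ε t : ℝ} (hε : 0 < ε) (ht : t ≤ T₁ - 2 * ε) : cuT T₁ ε t = 1 := by
  refine Real.smoothTransition.one_of_one_le ?_
  rw [le_div_iff₀ hε]; linarith

theorem IsTs.cut {φ : ℝ × (ℝ × ℝ) → ℝ} (hφ : IsTs T₂ H h φ) {ε : ℝ} (hε : 0 < ε) :
    IsTs T₁ H h fun p => cuT T₁ ε p.1 * φ p := by
  have hs : tsupport (fun p : ℝ × (ℝ × ℝ) => cuT T₁ ε p.1 * φ p) ⊆ {p | p.1 ≤ T₁ - ε} ∩ tsupport φ := by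
    refine closure_minimal ?_ ((isClosed_le continuous_fst continuous_const).inter (isClosed_tsupport φ))
    intro p hp
    refine ⟨?_, subset_closure (right_ne_zero_of_mul hp)⟩
    by_contra hc
    exact left_ne_zero_of_mul hp (cuT_zero hε (not_le.1 hc).le)
  refine ⟨((cuT_smooth T₁ ε).comp contDiff_fst).mul hφ.smooth, ?_, ?_⟩
  · exact hφ.cpt.isCompact.of_isClosed_subset (isClosed_tsupport _) fun p hp => (hs hp).2
  · intro p hp
    obtain ⟨h1, h2⟩ := hs hp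
    have h3 := hφ.supp h2
    refine ⟨⟨h3.1.1, ?_⟩, h3.2⟩
    have : p.1 ≤ T₁ - ε := h1
    linarith

theorem cut_fd {φ : ℝ × (ℝ × ℝ) → ℝ} (hφ : Differentiable ℝ φ) (T₁ ε : ℝ) (e : ℝ × ℝ)
    (p : ℝ × (ℝ × ℝ)) :
    fderiv ℝ (fun p => cuT T₁ ε p.1 * φ p) p (0, e) = cuT T₁ ε p.1 * fderiv ℝ φ p (0, e) := by
  have h1 : HasFDerivAt (fun p : ℝ × (ℝ × ℝ) => cuT T₁ ε p.1)
      ((fderiv ℝ (cuT T₁ ε) p.1).comp (ContinuousLinearMap.fst ℝ ℝ (ℝ × ℝ))) p := by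
    have h2 : HasFDerivAt (cuT T₁ ε) (fderiv ℝ (cuT T₁ ε) p.1) p.1 :=
      ((cuT_smooth T₁ ε).differentiable (by simp) p.1).hasFDerivAt
    exact h2.comp p hasFDerivAt_fst
  have h3 : HasFDerivAt (fun p : ℝ × (ℝ × ℝ) => cuT T₁ ε p.1 * φ p) _ p :=
    h1.mul (hφ p).hasFDerivAt
  rw [h3.fderiv]
  simp

theorem ts_sq {E : Type*} [TopologicalSpace E] [MeasurableSpace E] [OpensMeasurableSpace E]
    {μ : Measure E} [IsFiniteMeasureOnCompacts μ] {φ : E → ℝ} (hc : Continuous φ)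
    (hs : HasCompactSupport φ) : Integrable (fun p => φ p ^ 2) μ := by
  have h1 : HasCompactSupport fun p => φ p ^ 2 := by
    refine hs.mono fun p hp => ?_
    intro h0
    refine hp ?_
    show φ p ^ 2 = 0
    rw [h0]; norm_num
  exact (hc.pow 2).integrable_of_hasCompactSupport h1

/-- The duality bound of a strip solution followed by a piece, for an operator `D` which commutes with
multiplication by functions of time and with time slices. -/
theorem op_append {V : ℝ → ℝ × ℝ → ℝ} (h12 : T₁ ≤ T₂) {C₁ C₂ : ℝ}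
    (D : (ℝ × (ℝ × ℝ) → ℝ) → ℝ × (ℝ × ℝ) → ℝ) (Dg : (ℝ × ℝ → ℝ) → ℝ × ℝ → ℝ)
    (hD1 : ∀ φ, IsTs T₂ H h φ → IsTs T₂ H h (D φ))
    (hD2 : ∀ φ, IsTs T₂ H h φ → ∀ ε p, D (fun p => cuT T₁ ε p.1 * φ p) p = cuT T₁ ε p.1 * D φ p)
    (hD3 : ∀ φ, IsTs T₂ H h φ → ∀ t q, Dg (fun q => φ (t, q)) q = D φ (t, q))
    (hV : ContinuousOn (uncurry V) (Ioc 0 T₂ ×ˢ (univ ×ˢ Icc 0 h)))
    (b1 : ∀ φ : ℝ × (ℝ × ℝ) → ℝ, IsTs T₁ H h φ →
      |∫ p, V p.1 p.2 * D φ p| ≤ C₁ * √(∫ p, φ p ^ 2))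
    (b2 : ∀ t ∈ Icc T₁ T₂, ∀ g, IsTg H h g →
      |∫ q, V t q * Dg g q| ≤ C₂ * √(∫ q, g q ^ 2)) (φ : ℝ × (ℝ × ℝ) → ℝ)
    (hφ : IsTs T₂ H h φ) :
    |∫ p, V p.1 p.2 * D φ p| ≤
      (max C₁ 0 + max C₂ 0 * √(T₂ - T₁)) * √(∫ p, φ p ^ 2) := by
  have hfd := hD1 φ hφ
  have hF := ts_int hV hfd.smooth.continuous hfd.cpt hfd.supp
  have hφ2 : Integrable fun p : ℝ × (ℝ × ℝ) => φ p ^ 2 := ts_sq hφ.smooth.continuous hφ.cpt
  set S : Set (ℝ × (ℝ × ℝ)) := {p | p.1 < T₁} with hS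
  have hSm : MeasurableSet S := measurableSet_lt measurable_fst measurable_const
  rw [← integral_add_compl hSm hF]
  -- the first part
  have p1 : |∫ p in S, V p.1 p.2 * D φ p| ≤ max C₁ 0 * √(∫ p, φ p ^ 2) := by
    have hlim : Tendsto (fun ε : ℝ => ∫ p, V p.1 p.2 * D (fun p => cuT T₁ ε p.1 * φ p) p)
        (𝓝[>] 0) (𝓝 (∫ p in S, V p.1 p.2 * D φ p)) := by
      rw [← integral_indicator hSm]
      refine tendsto_integral_filter_of_dominated_convergence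
        (fun p => ‖V p.1 p.2 * D φ p‖) ?_ ?_ hF.norm ?_
      · filter_upwards with ε
        have e1 : (fun p : ℝ × (ℝ × ℝ) => V p.1 p.2 * D (fun p => cuT T₁ ε p.1 * φ p) p) =
            fun p => cuT T₁ ε p.1 * (V p.1 p.2 * D φ p) := by
          funext p; rw [hD2 φ hφ]; ring
        rw [e1]
        exact (((cuT_smooth T₁ ε).continuous.comp continuous_fst).aestronglyMeasurable).mul
          hF.aestronglyMeasurable
      · filter_upwards with ε
        filter_upwards with p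
        rw [hD2 φ hφ, show V p.1 p.2 * (cuT T₁ ε p.1 * D φ p) =
          cuT T₁ ε p.1 * (V p.1 p.2 * D φ p) by ring, norm_mul, Real.norm_eq_abs,
          abs_of_nonneg (cuT_nonneg _ _ _)]
        exact mul_le_of_le_one_left (norm_nonneg _) (cuT_le_one _ _ _)
      · filter_upwards with p
        by_cases hp : p.1 < T₁
        · have e1 : ∀ᶠ ε in 𝓝[>] (0:ℝ), cuT T₁ ε p.1 = 1 := by
            have e2 : ∀ᶠ ε in 𝓝[>] (0:ℝ), ε < (T₁ - p.1) / 2 :=
              (eventually_lt_nhds (by linarith)).filter_mono nhdsWithin_le_nhds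
            filter_upwards [e2, self_mem_nhdsWithin] with ε h3 h4
            exact cuT_one h4 (by linarith)
          refine tendsto_const_nhds.congr' ?_
          filter_upwards [e1] with ε h3
          rw [hD2 φ hφ, h3, one_mul, indicator_of_mem (show p ∈ S from hp)]
        · refine tendsto_const_nhds.congr' ?_
          filter_upwards [self_mem_nhdsWithin] with ε h3
          have h4 : (0:ℝ) < ε := h3
          rw [hD2 φ hφ, cuT_zero h4 (by linarith [not_lt.1 hp]), zero_mul, mul_zero,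
            indicator_of_notMem (show p ∉ S from hp)]
    refine le_of_tendsto hlim.abs ?_
    filter_upwards [self_mem_nhdsWithin] with ε hε
    refine (b1 _ (hφ.cut hε)).trans ?_
    have h3 : ∫ p : ℝ × (ℝ × ℝ), (cuT T₁ ε p.1 * φ p) ^ 2 ≤ ∫ p, φ p ^ 2 := by
      have hi : Integrable fun p : ℝ × (ℝ × ℝ) => (cuT T₁ ε p.1 * φ p) ^ 2 := by
        have h4 := (hφ.cut (T₁ := T₁) hε)
        exact ts_sq h4.smooth.continuous h4.cpt
      refine integral_mono hi hφ2 fun p => ?_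
      show (cuT T₁ ε p.1 * φ p) ^ 2 ≤ φ p ^ 2
      rw [mul_pow]
      have h5 : cuT T₁ ε p.1 ^ 2 ≤ 1 := pow_le_one₀ (cuT_nonneg _ _ _) (cuT_le_one _ _ _)
      nlinarith [sq_nonneg (φ p)]
    calc C₁ * √(∫ p : ℝ × (ℝ × ℝ), (cuT T₁ ε p.1 * φ p) ^ 2)
        ≤ max C₁ 0 * √(∫ p : ℝ × (ℝ × ℝ), (cuT T₁ ε p.1 * φ p) ^ 2) :=
          mul_le_mul_of_nonneg_right (le_max_left _ _) (Real.sqrt_nonneg _)
      _ ≤ max C₁ 0 * √(∫ p, φ p ^ 2) :=
          mul_le_mul_of_nonneg_left (Real.sqrt_le_sqrt h3) (le_max_right _ _)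
  -- the second part
  have p2 : |∫ p in Sᶜ, V p.1 p.2 * D φ p| ≤
      max C₂ 0 * √(T₂ - T₁) * √(∫ p, φ p ^ 2) := by
    have hSc : Sᶜ = (Ici T₁ ×ˢ (univ : Set (ℝ × ℝ))) := by
      ext p; simp [hS]
    have e0 : ∫ p in Ici T₁ ×ˢ (univ : Set (ℝ × ℝ)), V p.1 p.2 * D φ p =
        ∫ t in Ici T₁, ∫ q, V t q * D φ (t, q) := by
      have h3 := setIntegral_prod (μ := (volume : Measure ℝ)) (ν := (volume : Measure (ℝ × ℝ)))
        (s := Ici T₁) (t := univ) (fun p : ℝ × (ℝ × ℝ) => V p.1 p.2 * D φ p)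
        hF.integrableOn
      simp only [Measure.restrict_univ] at h3
      exact h3
    have eφ : ∫ p, φ p ^ 2 = ∫ t, ∫ q, φ (t, q) ^ 2 := integral_prod _ hφ2
    rw [hSc, e0]
    have hzero : ∀ t, T₂ < t → (∫ q, V t q * D φ (t, q)) = 0 := by
      intro t ht
      have : ∀ q, V t q * D φ (t, q) = 0 := by
        intro q
        rw [show D φ (t, q) = 0 from image_eq_zero_of_notMem_tsupport
          (f := D φ) fun hq => absurd (hfd.supp hq).1.2 (not_lt.2 ht.le),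
          mul_zero]
      simp [this]
    have e1 : ∫ t in Ici T₁, ∫ q, V t q * D φ (t, q) =
        ∫ t in Icc T₁ T₂, ∫ q, V t q * D φ (t, q) := by
      rw [← Icc_union_Ioi_eq_Ici h12, setIntegral_union (by
        rw [disjoint_left]; intro x hx hx'; exact absurd hx.2 (not_le.2 hx')) measurableSet_Ioi]
      · rw [setIntegral_eq_zero_of_forall_eq_zero (t := Ioi T₂) (fun t ht => hzero t ht), add_zero]
      · have h3 := hF.integral_prod_left
        exact h3.integrableOn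
      · have h3 := hF.integral_prod_left
        exact h3.integrableOn
    rw [e1]
    have hI1 : Integrable fun t => ∫ q, φ (t, q) ^ 2 := hφ2.integral_prod_left
    have hnn : ∀ t, 0 ≤ ∫ q, φ (t, q) ^ 2 := fun t => integral_nonneg fun q => sq_nonneg _
    have hb : ∀ t ∈ Icc T₁ T₂, ‖∫ q, V t q * D φ (t, q)‖ ≤
        max C₂ 0 * √(∫ q, φ (t, q) ^ 2) := by
      intro t ht
      have h3 := b2 t ht _ (hφ.slice t)
      have h4 : (fun q => V t q * Dg (fun q => φ (t, q)) q) =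
          fun q => V t q * D φ (t, q) := by
        funext q
        rw [hD3 φ hφ]
      rw [h4] at h3
      exact h3.trans (mul_le_mul_of_nonneg_right (le_max_left _ _) (Real.sqrt_nonneg _))
    have hcs : ∫ t in Icc T₁ T₂, √(∫ q, φ (t, q) ^ 2) ≤ √(T₂ - T₁) * √(∫ p, φ p ^ 2) := by
      have hm : AEStronglyMeasurable (fun t => √(∫ q, φ (t, q) ^ 2)) (volume.restrict (Icc T₁ T₂)) :=
        (Real.continuous_sqrt.comp_aestronglyMeasurable hI1.aestronglyMeasurable).restrict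
      have h3 := integral_mul_le_Lp_mul_Lq_of_nonneg (μ := volume.restrict (Icc T₁ T₂))
        (p := 2) (q := 2) (f := fun _ => (1:ℝ)) (g := fun t => √(∫ q, φ (t, q) ^ 2))
        (by constructor <;> norm_num) (Eventually.of_forall fun _ => zero_le_one)
        (Eventually.of_forall fun _ => Real.sqrt_nonneg _)
        (by
          have : IsFiniteMeasure (volume.restrict (Icc T₁ T₂)) := by
            constructor; simp
          exact memLp_const 1)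
        (by
          rw [show ENNReal.ofReal 2 = 2 by norm_num]
          refine (memLp_two_iff_integrable_sq hm).2 ?_
          have : (fun t => √(∫ q, φ (t, q) ^ 2) ^ 2) = fun t => ∫ q, φ (t, q) ^ 2 := by
            funext t; rw [Real.sq_sqrt (hnn t)]
          rw [this]
          exact hI1.integrableOn)
      simp only [one_mul, Real.rpow_two] at h3
      refine h3.trans ?_
      rw [Real.sqrt_eq_rpow, Real.sqrt_eq_rpow]
      have h4 : ∫ _t in Icc T₁ T₂, (1:ℝ) = T₂ - T₁ := by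
        simp [h12]
      have h5 : ∫ t in Icc T₁ T₂, √(∫ q, φ (t, q) ^ 2) ^ 2 ≤ ∫ p, φ p ^ 2 := by
        have : (fun t => √(∫ q, φ (t, q) ^ 2) ^ 2) = fun t => ∫ q, φ (t, q) ^ 2 := by
          funext t; rw [Real.sq_sqrt (hnn t)]
        rw [this, eφ]
        exact setIntegral_le_integral hI1 (Eventually.of_forall hnn)
      have h6 : ∫ _t in Icc T₁ T₂, (1:ℝ) ^ 2 = T₂ - T₁ := by
        rw [one_pow]; exact h4
      rw [h6]
      refine mul_le_mul_of_nonneg_left ?_ (Real.rpow_nonneg (by linarith) _)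
      exact Real.rpow_le_rpow (integral_nonneg fun t => sq_nonneg _) h5 (by norm_num)
    calc |∫ t in Icc T₁ T₂, ∫ q, V t q * D φ (t, q)|
        ≤ ∫ t in Icc T₁ T₂, ‖∫ q, V t q * D φ (t, q)‖ := by
          rw [← Real.norm_eq_abs]
          exact norm_integral_le_integral_norm _
      _ ≤ ∫ t in Icc T₁ T₂, max C₂ 0 * √(∫ q, φ (t, q) ^ 2) := by
          refine setIntegral_mono_on ?_ ?_ measurableSet_Icc hb
          · exact hF.integral_prod_left.norm.integrableOn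
          · refine Integrable.const_mul ?_ _
            have hm : AEStronglyMeasurable (fun t => √(∫ q, φ (t, q) ^ 2))
                (volume.restrict (Icc T₁ T₂)) :=
              (Real.continuous_sqrt.comp_aestronglyMeasurable hI1.aestronglyMeasurable).restrict
            have : IsFiniteMeasure (volume.restrict (Icc T₁ T₂)) := by
              constructor; simp
            have h2 : MemLp (fun t => √(∫ q, φ (t, q) ^ 2)) 2 (volume.restrict (Icc T₁ T₂)) := by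
              refine (memLp_two_iff_integrable_sq hm).2 ?_
              have : (fun t => √(∫ q, φ (t, q) ^ 2) ^ 2) = fun t => ∫ q, φ (t, q) ^ 2 := by
                funext t; rw [Real.sq_sqrt (hnn t)]
              rw [this]
              exact hI1.integrableOn
            exact h2.integrable (by norm_num)
      _ = max C₂ 0 * ∫ t in Icc T₁ T₂, √(∫ q, φ (t, q) ^ 2) := integral_const_mul _ _
      _ ≤ max C₂ 0 * (√(T₂ - T₁) * √(∫ p, φ p ^ 2)) :=
          mul_le_mul_of_nonneg_left hcs (le_max_right _ _)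
      _ = _ := by ring
  calc |(∫ p in S, V p.1 p.2 * D φ p) + ∫ p in Sᶜ, V p.1 p.2 * D φ p|
      ≤ |∫ p in S, V p.1 p.2 * D φ p| + |∫ p in Sᶜ, V p.1 p.2 * D φ p| :=
        abs_add_le _ _
    _ ≤ _ := by rw [add_mul]; exact add_le_add p1 p2

/-- The weak gradient bound of a strip solution followed by a piece. -/
theorem grad_append {V : ℝ → ℝ × ℝ → ℝ} (h12 : T₁ ≤ T₂) {C₁ C₂ : ℝ} (e : ℝ × ℝ)
    (hV : ContinuousOn (uncurry V) (Ioc 0 T₂ ×ˢ (univ ×ˢ Icc 0 h)))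
    (b1 : ∀ φ : ℝ × (ℝ × ℝ) → ℝ, IsTs T₁ H h φ →
      |∫ p, V p.1 p.2 * fderiv ℝ φ p (0, e)| ≤ C₁ * √(∫ p, φ p ^ 2))
    (b2 : ∀ t ∈ Icc T₁ T₂, ∀ g, IsTg H h g →
      |∫ q, V t q * fderiv ℝ g q e| ≤ C₂ * √(∫ q, g q ^ 2)) (φ : ℝ × (ℝ × ℝ) → ℝ)
    (hφ : IsTs T₂ H h φ) :
    |∫ p, V p.1 p.2 * fderiv ℝ φ p (0, e)| ≤
      (max C₁ 0 + max C₂ 0 * √(T₂ - T₁)) * √(∫ p, φ p ^ 2) :=
  op_append h12 (fun φ p => fderiv ℝ φ p (0, e)) (fun g q => fderiv ℝ g q e)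
    (fun _ hψ => hψ.fd (0, e)) (fun _ hψ ε p => cut_fd hψ.diff T₁ ε e p)
    (fun _ hψ t q => slice_fd (hψ.diff (t, q)) e) hV b1 b2 φ hφ

/-- The duality bound of the velocity of a strip solution followed by a piece. -/
theorem zero_append {V : ℝ → ℝ × ℝ → ℝ} (h12 : T₁ ≤ T₂) {C₁ C₂ : ℝ}
    (hV : ContinuousOn (uncurry V) (Ioc 0 T₂ ×ˢ (univ ×ˢ Icc 0 h)))
    (b1 : ∀ φ : ℝ × (ℝ × ℝ) → ℝ, IsTs T₁ H h φ →
      |∫ p, V p.1 p.2 * φ p| ≤ C₁ * √(∫ p, φ p ^ 2))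
    (b2 : ∀ t ∈ Icc T₁ T₂, ∀ g, IsTg H h g →
      |∫ q, V t q * g q| ≤ C₂ * √(∫ q, g q ^ 2)) (φ : ℝ × (ℝ × ℝ) → ℝ)
    (hφ : IsTs T₂ H h φ) :
    |∫ p, V p.1 p.2 * φ p| ≤
      (max C₁ 0 + max C₂ 0 * √(T₂ - T₁)) * √(∫ p, φ p ^ 2) :=
  op_append h12 (fun φ => φ) (fun g => g) (fun _ hψ => hψ) (fun _ _ _ _ => rfl)
    (fun _ _ _ _ => rfl) hV b1 b2 φ hφ

end

end Pool.Agent.Lib.MP_79abb3_an.SC
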