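import Pool.Agent.Lib.MP_79abb3_an.SC.MnA
import Pool.Agent.Lib.MP_79abb3_an.SC.MnB

/-!
Theorem C, assembly: the main theorem in the strip.
-/

set_option autoImplicit false
set_option linter.unusedSectionVars false

open MeasureTheory Set Filter Topology Function
open scoped ENNReal InnerProductSpace

namespace Pool.Agent.Lib.MP_79abb3_an.SC

section
variable {H h : ℝ} {a : ℝ × ℝ → ℝ} {T₁ T₂ : ℝ} {v w v' w' : ℝ → ℝ × ℝ → ℝ} {v₀ w₀ : ℝ × ℝ → ℝ}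

theorem bdd_piece (P : Piece H h a T₁ T₂ v w) :
    ∃ C, ∀ t ∈ Icc T₁ T₂, ∫ q in Icc (-H) H ×ˢ Icc 0 h, (v t q ^ 2 + w t q ^ 2) ≤ C := by
  have hK : IsCompact (Icc T₁ T₂ ×ˢ (Icc (-H) H ×ˢ Icc (0:ℝ) h)) :=
    isCompact_Icc.prod (isCompact_Icc.prod isCompact_Icc)
  have hsub : (Icc T₁ T₂ ×ˢ (Icc (-H) H ×ˢ Icc (0:ℝ) h)) ⊆ Icc T₁ T₂ ×ˢ (univ ×ˢ Icc 0 h) :=
    prod_mono subset_rfl (prod_mono (subset_univ _) subset_rfl)
  have hc : ContinuousOn (fun p : ℝ × (ℝ × ℝ) => v p.1 p.2 ^ 2 + w p.1 p.2 ^ 2)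
      (Icc T₁ T₂ ×ˢ (Icc (-H) H ×ˢ Icc (0:ℝ) h)) :=
    ((P.cont₁.mono hsub).pow 2).add ((P.cont₂.mono hsub).pow 2)
  obtain ⟨M, hM⟩ := hK.exists_bound_of_continuousOn hc
  refine ⟨M * (volume (Icc (-H) H ×ˢ Icc (0:ℝ) h : Set (ℝ × ℝ))).toReal, fun t ht => ?_⟩
  have hfin : volume (Icc (-H) H ×ˢ Icc (0:ℝ) h : Set (ℝ × ℝ)) < ⊤ :=
    (isCompact_Icc.prod isCompact_Icc).measure_lt_top
  have h1 := norm_setIntegral_le_of_norm_le_const (μ := volume) (s := Icc (-H) H ×ˢ Icc (0:ℝ) h)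
    (f := fun q => v t q ^ 2 + w t q ^ 2) (C := M) hfin fun q hq => hM (t, q) ⟨ht, hq⟩
  exact (Real.le_norm_self _).trans h1

/-- A strip solution on `(0, T₁]` followed by a piece on `[T₁, T₂]`. -/
theorem StripSol.append (ha : ContDiffOn ℝ 1 a (univ ×ˢ Ioo 0 h)) (S : StripSol H h a T₁ v w v₀ w₀)
    (P : Piece H h a T₁ T₂ v' w') (h1 : 0 < T₁) (h12 : T₁ ≤ T₂)
    (hv : ∀ q : ℝ × ℝ, q.2 ∈ Icc 0 h → v' T₁ q = v T₁ q)
    (hw : ∀ q : ℝ × ℝ, q.2 ∈ Icc 0 h → w' T₁ q = w T₁ q) :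
    StripSol H h a T₂ (fun t => if t ≤ T₁ then v t else v' t) (fun t => if t ≤ T₁ then w t else w' t)
      v₀ w₀ := by
  set V : ℝ → ℝ × ℝ → ℝ := fun t => if t ≤ T₁ then v t else v' t with hVd
  set W : ℝ → ℝ × ℝ → ℝ := fun t => if t ≤ T₁ then w t else w' t with hWd
  have eV : ∀ t, t ≤ T₁ → V t = v t := fun t ht => if_pos ht
  have eW : ∀ t, t ≤ T₁ → W t = w t := fun t ht => if_pos ht
  have eV' : ∀ t, T₁ ≤ t → ∀ q : ℝ × ℝ, q.2 ∈ Icc 0 h → V t q = v' t q := by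
    intro t ht q hq
    by_cases hc : t ≤ T₁
    · rw [eV t hc, le_antisymm hc ht, hv q hq]
    · exact congrFun (if_neg hc) q
  have eW' : ∀ t, T₁ ≤ t → ∀ q : ℝ × ℝ, q.2 ∈ Icc 0 h → W t q = w' t q := by
    intro t ht q hq
    by_cases hc : t ≤ T₁
    · rw [eW t hc, le_antisymm hc ht, hw q hq]
    · exact congrFun (if_neg hc) q
  have hpiece : ∀ t₁ ∈ Ioc 0 T₂, Piece H h a t₁ T₂ V W := by
    intro t₁ ht₁
    by_cases hc : t₁ ≤ T₁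
    · exact (S.piece t₁ ⟨ht₁.1, hc⟩).glue' ha P hc h12 hv hw
    · have hc' := (not_le.1 hc).le
      exact (P.mono hc' le_rfl).congr (fun t ht q hq => eV' t (hc'.trans ht.1) q hq)
        (fun t ht q hq => eW' t (hc'.trans ht.1) q hq)
  have contOf : ∀ f : ℝ → ℝ × ℝ → ℝ, (∀ t₁ ∈ Ioc 0 T₂, ContinuousOn (uncurry f)
      (Icc t₁ T₂ ×ˢ (univ ×ˢ Icc 0 h))) → ContinuousOn (uncurry f) (Ioc 0 T₂ ×ˢ (univ ×ˢ Icc 0 h)) := by
    rintro f hf ⟨t, q⟩ ⟨ht, hq⟩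
    have h2 : t / 2 ∈ Ioc 0 T₂ := ⟨by linarith [ht.1], by linarith [ht.1, ht.2]⟩
    have h3 := hf (t / 2) h2 (t, q) ⟨⟨by linarith [ht.1], ht.2⟩, hq⟩
    refine h3.mono_of_mem_nhdsWithin ?_
    have h4 : {p : ℝ × (ℝ × ℝ) | t / 2 < p.1} ∈ 𝓝 (t, q) :=
      (isOpen_lt continuous_const continuous_fst).mem_nhds (by
        show t / 2 < t
        have := ht.1
        linarith)
    filter_upwards [self_mem_nhdsWithin, mem_nhdsWithin_of_mem_nhds h4] with p hp hp'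
    exact ⟨⟨le_of_lt hp', hp.1.2⟩, hp.2⟩
  have cV := contOf V fun t₁ ht => (hpiece t₁ ht).cont₁
  have cW := contOf W fun t₁ ht => (hpiece t₁ ht).cont₂
  refine ⟨hpiece, ?_, ?_, S.meas₁, S.meas₂, ?_⟩
  · obtain ⟨C₁, hC₁⟩ := S.grad
    obtain ⟨C₂, hC₂⟩ := P.h1
    have eint : ∀ (f g : ℝ → ℝ × ℝ → ℝ), (∀ t, t ≤ T₁ → f t = g t) → ∀ φ : ℝ × (ℝ × ℝ) → ℝ,
        IsTs T₁ H h φ → ∀ e : ℝ × ℝ, (fun p : ℝ × (ℝ × ℝ) => f p.1 p.2 * fderiv ℝ φ p (0, e)) =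
          fun p => g p.1 p.2 * fderiv ℝ φ p (0, e) := by
      intro f g hfg φ hφ e
      funext p
      by_cases hp : p.1 ≤ T₁
      · rw [hfg p.1 hp]
      · rw [show fderiv ℝ φ p (0, e) = 0 from image_eq_zero_of_notMem_tsupport
          (f := fun p => fderiv ℝ φ p (0, e)) fun hq => hp ((hφ.fd (0, e)).supp hq).1.2.le,
          mul_zero, mul_zero]
    have eint' : ∀ (f g : ℝ → ℝ × ℝ → ℝ) (t : ℝ), (∀ q : ℝ × ℝ, q.2 ∈ Icc 0 h → f t q = g t q) →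
        ∀ φ : ℝ × ℝ → ℝ, IsTg H h φ → ∀ e : ℝ × ℝ, (fun q => f t q * fderiv ℝ φ q e) =
          fun q => g t q * fderiv ℝ φ q e := by
      intro f g t hfg φ hφ e
      refine int_congr_test hφ (χ := fun q => fderiv ℝ φ q e) ?_ hfg
      exact tsupport_fderiv_apply_subset ℝ e
    have hM : ∀ {x y z : ℝ}, 0 ≤ z → x ≤ y → x * z ≤ y * z := fun hz hxy =>
      mul_le_mul_of_nonneg_right hxy hz
    refine ⟨max C₁ 0 + max C₂ 0 * √(T₂ - T₁), fun φ hφ => ⟨?_, ?_, ?_, ?_⟩⟩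
    · refine grad_append h12 (1, 0) cV (fun ψ hψ => ?_) (fun t ht g hg => ?_) φ hφ
      · rw [eint V v eV ψ hψ (1, 0)]; exact (hC₁ ψ hψ).1
      · rw [eint' V v' t (eV' t ht.1) g hg (1, 0)]; exact (hC₂ t ht g hg).1
    · refine grad_append h12 (0, 1) cV (fun ψ hψ => ?_) (fun t ht g hg => ?_) φ hφ
      · rw [eint V v eV ψ hψ (0, 1)]; exact (hC₁ ψ hψ).2.1
      · rw [eint' V v' t (eV' t ht.1) g hg (0, 1)]; exact (hC₂ t ht g hg).2.1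
    · refine grad_append h12 (1, 0) cW (fun ψ hψ => ?_) (fun t ht g hg => ?_) φ hφ
      · rw [eint W w eW ψ hψ (1, 0)]; exact (hC₁ ψ hψ).2.2.1
      · rw [eint' W w' t (eW' t ht.1) g hg (1, 0)]; exact (hC₂ t ht g hg).2.2.1
    · refine grad_append h12 (0, 1) cW (fun ψ hψ => ?_) (fun t ht g hg => ?_) φ hφ
      · rw [eint W w eW ψ hψ (0, 1)]; exact (hC₁ ψ hψ).2.2.2
      · rw [eint' W w' t (eW' t ht.1) g hg (0, 1)]; exact (hC₂ t ht g hg).2.2.2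
  · obtain ⟨C₁, hC₁⟩ := S.bdd
    obtain ⟨C₂, hC₂⟩ := bdd_piece P
    refine ⟨max C₁ C₂, fun t ht => ?_⟩
    by_cases hc : t ≤ T₁
    · rw [eV t hc, eW t hc]
      exact (hC₁ t ⟨ht.1, hc⟩).trans (le_max_left _ _)
    · have hc' := (not_le.1 hc).le
      have e1 : ∫ q in Icc (-H) H ×ˢ Icc 0 h, (V t q ^ 2 + W t q ^ 2) =
          ∫ q in Icc (-H) H ×ˢ Icc 0 h, (v' t q ^ 2 + w' t q ^ 2) := by
        refine setIntegral_congr_fun (measurableSet_Icc.prod measurableSet_Icc) fun q hq => ?_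
        show V t q ^ 2 + W t q ^ 2 = _
        rw [eV' t hc' q hq.2, eW' t hc' q hq.2]
      rw [e1]
      exact (hC₂ t ⟨hc', ht.2⟩).trans (le_max_right _ _)
  · refine S.init.congr' ?_
    have h2 : ∀ᶠ t in 𝓝[>] (0:ℝ), t < T₁ := (eventually_lt_nhds h1).filter_mono nhdsWithin_le_nhds
    filter_upwards [h2] with t ht
    rw [eV t ht.le, eW t ht.le]

end

section
variable {H : ℝ} [hH : Fact (0 < H)]

namespace Geo
variable {G : Geo H} {a : ℝ × ℝ → ℝ} {h : ℝ}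

/-- MAIN THEOREM in the strip, from the exports of the blocks. -/
theorem strip (ha : ContDiffOn ℝ 1 a (univ ×ˢ Ioo 0 h)) (hN : G.NullThm a h) (hS : G.SmallThm a h)
    (hF : G.FlushThm a h) (hR : G.RecutThm h) {S : Set ℝ} {v₀ w₀ : ℝ × ℝ → ℝ}
    (hP : G.Phase0Thm a h S v₀ w₀) : StripThm H h a S v₀ w₀ := by
  intro T hT
  obtain ⟨t, ht, htT, x, hx, v, w, hs, hwall, hfl⟩ := hP (T / 2) (by linarith)
  have hA := chain ha hN hS hF hR hx (T := T - t) (by linarith)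
  obtain ⟨v', w', B1, B2, B3, B4⟩ := hA.arc' t
  rw [add_sub_cancel] at B1 B2 B4
  have hle : t ≤ T := by linarith
  have ev : ∀ q : ℝ × ℝ, q.2 ∈ Icc 0 h → v' t q = v t q := fun q hq =>
    (B3 q.1 q.2 hq).1.trans (hfl q.1 q.2 hq).1.symm
  have ew : ∀ q : ℝ × ℝ, q.2 ∈ Icc 0 h → w' t q = w t q := fun q hq =>
    (B3 q.1 q.2 hq).2.trans (hfl q.1 q.2 hq).2.symm
  refine ⟨_, _, hs.append ha B1 ht hle ev ew, ?_, ?_⟩
  · intro s hs' y hy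
    show (if s ≤ t then v s else v' s) (y, 0) = 0 ∧ (if s ≤ t then w s else w' s) (y, 0) = 0
    by_cases hc : s ≤ t
    · rw [if_pos hc, if_pos hc]; exact hwall s ⟨hs'.1, hc⟩ y hy
    · rw [if_neg hc, if_neg hc]; exact B2 s ⟨(not_le.1 hc).le, hs'.2⟩ y
  · intro y z hz
    have hc : ¬ T ≤ t := by linarith
    show (if T ≤ t then v T else v' T) (y, z) = 0 ∧ (if T ≤ t then w T else w' T) (y, z) = 0
    rw [if_neg hc, if_neg hc]
    have h1 := B4 y z hz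
    rw [map_zero, fV_zero, fW_zero] at h1
    exact h1

end Geo

end

end Pool.Agent.Lib.MP_79abb3_an.SC
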