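import Pool.Agent.Lib.MP_79abb3_an.SC.L2C
import Pool.Agent.Lib.MP_79abb3_an.SC.L2D
import Pool.Agent.Lib.MP_79abb3_an.SC.L2Ec
import Pool.Agent.Lib.MP_79abb3_an.SC.L2F
import Pool.Agent.Lib.MP_79abb3_an.SC.L2Ha
import Pool.Agent.Lib.MP_79abb3_an.SC.L2Hb
import Pool.Agent.Lib.MP_79abb3_an.SC.LaTF
import Pool.Agent.Lib.MP_79abb3_an.SC.MnC

/-!
Theorem C, stage for `L²` data: phase 0 for a sequence of smooth stream functions whose flows converge in `L²`.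
-/

set_option autoImplicit false
set_option linter.unusedSectionVars false

open MeasureTheory Set Filter Topology Function
open scoped ENNReal InnerProductSpace

namespace Pool.Agent.Lib.MP_79abb3_an.SC

open Pool.Agent.Lib.MP_79abb3_an.P25

section
variable {H : ℝ} [hH : Fact (0 < H)] {a : ℝ × ℝ → ℝ}

namespace Geo

/-- The velocities of states are absolutely summable. -/
theorem Sol.sum_pos {G : Geo H} {B : Bg H} {b t h : ℝ} {x : ℝ → HH H} (hP : G.PcT a h) (hh0 : 0 ≤ h)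
    (hh : h ≤ G.ρ) (ht : t ≤ b) (hM : G.BgM B t b) (hs : G.Sol B t b (0, x t) fun t => (0, x t))
    (h0 : G.St (x t)) : Summable fun n => ‖Vf G.ω (G.Qd (x t)) n‖ := by
  obtain ⟨-, -, -, -, h3, -⟩ := hs.conv' hP G.smT hh0 hh hM Rl_zero h0
  exact h3 t ⟨le_rfl, ht⟩

/-- **PHASE 0 for `L²` data.** -/
theorem phase0_L2 (G : Geo H) (hBig : G.Big) {h : ℝ} (hh0 : 0 ≤ h) (hh : h ≤ G.ρ) (ha : PY H a)
    (hGa : G.a = fam a) {ψ : ℕ → ℝ × ℝ → ℝ} (hψ : ∀ j, PY H (ψ j)) (ht : ∀ j, VanT H (ψ j)) {S : Set ℝ}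
    (hS : ∀ y ∈ S, y ∈ Icc (-H) H) (hS0 : ∀ y ∈ S, ∀ j, pZ (ψ j) (y, 0) = 0 ∧ pY (ψ j) (y, 0) = 0)
    {v₀ w₀ : ℝ × ℝ → ℝ} (m₀ : MemLp v₀ 2 (volume.restrict (Cel H)))
    (m₁ : MemLp w₀ 2 (volume.restrict (Cel H)))
    (hl : Tendsto (fun j => ∫ q in Cel H, ((pZ (ψ j) q - v₀ q) ^ 2 + (-pY (ψ j) q - w₀ q) ^ 2)) atTop (𝓝 0)) :
    G.Phase0Thm a h S v₀ w₀ := by
  intro T hT
  have hH0 := hH.out
  have hhH : h ≤ H := hh.trans G.ρH.le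
  have hP := G.pcT ha hGa G.hω (hh.trans G.ρH.le)
  have hac : ContDiffOn ℝ 1 a (univ ×ˢ Ioo 0 h) := (ha.smooth.of_le (by simp)).contDiffOn
  obtain ⟨φ, hφ, hsum⟩ := G.exists_subseq ha hGa hψ ht m₀ m₁ hl
  have hl' := hl.comp hφ.tendsto_atTop
  obtain ⟨D, hD⟩ : ∃ D : ℕ → G.LD, D = G.Ls ha hGa (fun k => hψ (φ k)) (fun k => ht (φ k)) := ⟨_, rfl⟩
  obtain ⟨τ, hτ, hKB, R, hR⟩ := BS_KB D (by rw [hD]; exact hsum)
  obtain ⟨η₀, hη₀, hlim⟩ := KB.limit G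
  obtain ⟨J₀, hJ₀⟩ := hKB η₀ hη₀
  obtain ⟨J, hJ, hJT⟩ := hτ.exists_le (half_pos hT) J₀
  obtain ⟨b, hb⟩ : ∃ b, b = τ J := ⟨_, rfl⟩
  obtain ⟨B, hB⟩ : ∃ B : Bg H, B = BS D τ := ⟨_, rfl⟩
  have hb0 : 0 < b := by rw [hb]; exact hτ.pos J
  have hbτ : b ≤ τ 0 := by rw [hb]; exact hτ.anti (Nat.zero_le J)
  have hK : G.KB B b η₀ := by rw [hB, hb]; exact hJ₀ J hJ
  have hM : ∀ t₀ ∈ Ioc 0 b, G.BgM B t₀ b := fun t₀ h1 => by rw [hB]; exact BS_M D hτ h1.1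
  have hsmall : ∀ ε > 0, ∃ b' ∈ Ioc 0 b, G.KB B b' ε := by
    intro ε hε
    obtain ⟨J₁, hJ₁⟩ := hKB ε hε
    refine ⟨τ (max J J₁), ⟨hτ.pos _, ?_⟩, ?_⟩
    · rw [hb]; exact hτ.anti (le_max_left _ _)
    · rw [hB]; exact hJ₁ _ (le_max_right _ _)
  obtain ⟨x, hx, hxb, hxr⟩ := hlim B b η₀ hK hη₀ le_rfl hsmall
  have hr := hxr fun t h1 => (hM t h1).re t ⟨le_rfl, h1.2⟩
  have hSt := St_pos G (fun t₀ h1 => (hM t₀ h1).cont) hx hr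
  have hsm : ∀ t ∈ Ioc 0 b, Summable fun n => ‖Vf G.ω (G.Qd (x t)) n‖ := fun t h1 =>
    (hx t h1).sum_pos hP hh0 hh h1.2 (hM t h1) (hSt t h1)
  have hKh : Tendsto (fun t => ‖Kh G.D.K (x t)‖) (𝓝[>] 0) (𝓝 0) := by
    rw [Metric.tendsto_nhdsWithin_nhds]
    intro ε hε
    obtain ⟨η', hη'⟩ : ∃ η', η' = min η₀ (ε / 80) := ⟨_, rfl⟩
    have e0 : 0 < η' := by rw [hη']; exact lt_min hη₀ (by positivity)
    have e1 : η' ≤ η₀ := by rw [hη']; exact min_le_left _ _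
    have e2 : η' ≤ ε / 80 := by rw [hη']; exact min_le_right _ _
    obtain ⟨b', hb', hKb'⟩ := hsmall η' e0
    refine ⟨b', hb'.1, fun {t} h1 h2 => ?_⟩
    have h1' : 0 < t := h1
    rw [Real.dist_eq, sub_zero, abs_of_pos h1'] at h2
    rw [Real.dist_eq, sub_zero, abs_of_nonneg (norm_nonneg _)]
    have h3 := (hxb b' η' hb'.2 e0 e1 hKb' t ⟨h1', h2.le⟩).1
    linarith
  -- the bounds of the background
  obtain ⟨N, hN⟩ : ∃ N : ℝ → ℝ, N = Nb D τ := ⟨_, rfl⟩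
  have hNc : ∀ t₀ ∈ Ioc 0 b, ContinuousOn N (Icc t₀ b) := fun t₀ h1 => by
    rw [hN]; exact (Nb_cont D hτ h1.1).mono Icc_subset_Ici_self
  have hle : ∀ r ∈ Ioc 0 b, ∃ k, r ∈ Icc (τ (k + 1)) (τ k) := fun r h1 => by
    obtain ⟨k, -, h2⟩ := hτ.exists_mem (J := 0) (r := r) ⟨h1.1, h1.2.trans hbτ⟩
    exact ⟨k, h2.1.le, h2.2⟩
  have hN1 : ∀ r ∈ Ioc 0 b, 1 ≤ N r := fun r h1 => by
    obtain ⟨k, h2⟩ := hle r h1
    rw [hN]; exact (Nb_le D hτ h2).1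
  have hgL : ∀ r ∈ Ioc 0 b, ‖B.gL r‖ ≤ N r := fun r h1 => by
    obtain ⟨k, h2⟩ := hle r h1
    rw [hN, hB]; exact (BS_le D hτ h2).1
  have hn1 : ∀ r ∈ Ioc 0 b, n1 (G.vf B r 0) (G.wf B r 0) ≤ N r := fun r h1 => by
    obtain ⟨k, h2⟩ := hle r h1
    rw [hN, hB]; exact (BS_le D hτ h2).2.2.1
  have hve : ∀ r ∈ Ioc 0 b, ∑' n : ℤ, (|G.ω * n| * ‖(iota (hf G.lam (B.ve r) n) : Z2 H)‖) ^ 2 ≤ N r ^ 2 :=
    fun r h1 => by
      obtain ⟨k, h2⟩ := hle r h1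
      rw [hN, hB]; exact (BS_le D hτ h2).2.2.2.2.1
  have hwe : ∀ r ∈ Ioc 0 b, ∑' n : ℤ, (|G.ω * n| * ‖(iota (hf G.lam (B.we r) n) : Z2 H)‖) ^ 2 ≤ N r ^ 2 :=
    fun r h1 => by
      obtain ⟨k, h2⟩ := hle r h1
      rw [hN, hB]; exact (BS_le D hτ h2).2.2.2.2.2
  have hN4 : ∀ t₀ ∈ Ioc 0 b, ∫ r in t₀..b, N r ^ 4 ≤ R := by
    intro t₀ h1
    refine le_trans ?_ (hR t₀ ⟨h1.1, h1.2.trans hbτ⟩)
    rw [← hN]
    have hc : ContinuousOn (fun r => N r ^ 4) (Icc t₀ (τ 0)) := by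
      rw [hN]
      exact ((Nb_cont D hτ h1.1).mono Icc_subset_Ici_self).pow 4
    refine intervalIntegral.integral_mono_interval le_rfl h1.2 hbτ
      (Eventually.of_forall fun r => by positivity) (hc.intervalIntegrable_of_Icc (h1.2.trans hbτ))
  have hN2 : ∀ t₀ ∈ Ioc 0 b, ∫ r in t₀..b, N r ^ 2 ≤ R := by
    intro t₀ h1
    refine le_trans ?_ (hN4 t₀ h1)
    refine intervalIntegral.integral_mono_on h1.2 ((hNc t₀ h1).pow 2 |>.intervalIntegrable_of_Icc h1.2)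
      ((hNc t₀ h1).pow 4 |>.intervalIntegrable_of_Icc h1.2) fun r h2 => ?_
    exact pow_le_pow_right₀ (hN1 r ⟨h1.1.trans_le h2.1, h2.2⟩) (by norm_num)
  have hgL2 : ∀ t₀ ∈ Ioc 0 b, ∫ r in t₀..b, ‖B.gL r‖ ^ 2 ≤ R := by
    intro t₀ h1
    refine le_trans ?_ (hN2 t₀ h1)
    refine intervalIntegral.integral_mono_on h1.2
      ((hM t₀ h1).cont.gL.norm.pow 2 |>.intervalIntegrable_of_Icc h1.2)
      ((hNc t₀ h1).pow 2 |>.intervalIntegrable_of_Icc h1.2) fun r h2 => ?_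
    exact pow_le_pow_left₀ (norm_nonneg _) (hgL r ⟨h1.1.trans_le h2.1, h2.2⟩) 2
  obtain ⟨R', hR'⟩ := hK.energy G hx hr (fun t h1 => (hxb b η₀ le_rfl hη₀ le_rfl hK t h1).1) hgL2 N hNc hn1
    hN4
  -- the strip solution on `(0, b]`
  have hsub : (Icc (-H) H ×ˢ Icc 0 h : Set (ℝ × ℝ)) ⊆ Cel H :=
    prod_mono subset_rfl (Icc_subset_Icc le_rfl hhH)
  have hst := strip_of_sol G ha hGa hh0 hh hb0 hM hx hr hKh (R := max R R')
    (fun t₀ h1 => (hR' t₀ h1).trans (le_max_right _ _)) hNc (fun t₀ h1 => (hN2 t₀ h1).trans (le_max_left _ _))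
    hgL hve hwe (m₀.mono_measure (Measure.restrict_mono_set _ hsub))
    (m₁.mono_measure (Measure.restrict_mono_set _ hsub))
    (by
      rw [hB, hD]
      exact Ls_init ha hGa _ _ hτ m₀ m₁ hl' hhH)
  -- phase 0 from the state `x b`
  have hbm : b ∈ Ioc 0 b := ⟨hb0, le_rfl⟩
  obtain ⟨t, ht0, htT, x₁, hx₁, v', w', P, hi, hwall, hfl⟩ :=
    G.phase0' hBig G.tfex G.smT hP hh0 hh ha hGa (hψ (φ J)) (ht (φ J)) (hSt b hbm) (T / 2) (half_pos hT)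
  have P' := P.shift b
  rw [zero_add] at P'
  have hbk : b ∈ Icc (τ (J + 1)) (τ J) := by rw [hb]; exact ⟨(hτ.lt J).le, le_rfl⟩
  have hst1 : stj τ J b = 1 := (hτ.stj_one (by rw [hb])).1
  have ev : ∀ y z, fld G.ω (G.vf B b (0, x b)) y z = v' 0 (y, z) ∧
      fld G.ω (G.wf B b (0, x b)) y z = w' 0 (y, z) := by
    intro y z
    obtain ⟨h1, h2⟩ := Ls_fld_add ha hGa (fun k => hψ (φ k)) (fun k => ht (φ k)) hτ hbk (hsm b hbm) y z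
    obtain ⟨h3, h4⟩ := Ls_fld ha hGa (fun k => hψ (φ k)) (fun k => ht (φ k)) hτ hbk y z
    rw [← hD, ← hB] at h1 h2 h3 h4
    rw [hst1] at h3 h4
    rw [h1, h2, h3, h4, (hi y z).1, (hi y z).2]
    constructor <;> ring
  refine ⟨t + b, by positivity, by rw [hb] at *; linarith, x₁, hx₁, _, _,
    hst.append hac P' hb0 (by linarith) ?_ ?_, ?_, ?_⟩
  · intro q _
    show v' (b - b) q = fld G.ω (G.vf B b (0, x b)) q.1 q.2
    rw [sub_self]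
    exact (ev q.1 q.2).1.symm
  · intro q _
    show w' (b - b) q = fld G.ω (G.wf B b (0, x b)) q.1 q.2
    rw [sub_self]
    exact (ev q.1 q.2).2.symm
  · intro s hs y hy
    by_cases hc : s ≤ b
    · simp only [if_pos hc]
      have h1 : s ∈ Ioc 0 b := ⟨hs.1, hc⟩
      have h2 := Ls_wall ha hGa (fun k => hψ (φ k)) (fun k => ht (φ k)) hτ (t := s)
        ⟨hs.1, hc.trans hbτ⟩ (hsm s h1) (hS y hy) fun j => hS0 y hy (φ j)
      rw [← hD, ← hB] at h2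
      exact h2
    · simp only [if_neg hc]
      have hc' := not_le.1 hc
      exact hwall (s - b) ⟨by linarith, by linarith [hs.2]⟩ y (hS y hy) (hS0 y hy (φ J)).1
        (hS0 y hy (φ J)).2
  · have hc : ¬ t + b ≤ b := by linarith
    simp only [if_neg hc, add_sub_cancel_right]
    exact hfl

end Geo

end

end Pool.Agent.Lib.MP_79abb3_an.SC
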