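import Pool.Agent.Lib.MP_79abb3_an.SC.RlA
import Pool.Agent.Lib.MP_79abb3_an.SC.LaF

/-!
Theorem C: reality of the operators of `LaSG`, `LaOp`; the conjugation of `HH H`.
-/

set_option autoImplicit false
set_option linter.unusedSectionVars false

open ContinuousLinearMap Filter Topology MeasureTheory Set
open scoped InnerProductSpace ComplexConjugate ENNReal

namespace Pool.Agent.Lib.MP_79abb3_an.SC

open Pool.Agent.Lib.MP_79abb3_an.P25

section
variable {X : Type} [NormedAddCommGroup X] [InnerProductSpace ℂ X] [CompleteSpace X] {r : Cjn X}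
  {K : X →L[ℂ] X}

theorem ReO.Kh (hK : 0 ≤ K) (h : ReO r K) : ReO r (Kh K) :=
  ReO.cfc (selfAdjoint_of_nonneg hK) h _ Real.continuous_sqrt

theorem ReO.Sg (hK : 0 ≤ K) (h : ReO r K) (t : ℝ) : ReO r (Sg K t) := by
  unfold SC.Sg
  split_ifs with ht
  · exact ReO.one
  · exact ReO.fA hK h (adm_exp (not_le.1 ht))

theorem ReO.HS (hK : 0 ≤ K) (h : ReO r K) {t : ℝ} (ht : 0 < t) : ReO r (HS K t) :=
  ReO.fA hK h (adm_sqrt_exp ht)

theorem ReO.AS (hK : 0 ≤ K) (h : ReO r K) {t : ℝ} (ht : 0 < t) : ReO r (AS K t) :=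
  ReO.fA hK h (adm_mul_exp ht)

end

section
variable {X : Type} [NormedAddCommGroup X] [InnerProductSpace ℂ X] [CompleteSpace X] {r : Cjn X}

/-- Real data for the operator `A`. -/
structure OD.Re (D : OD X) (r : Cjn X) : Prop where
  T : ReO r D.T
  E : ReO r D.E
  P : ReO r D.P
  a : ReO r D.a
  b : ReO r D.b

variable {D : OD X}

theorem OD.Re.S0 (h : D.Re r) : ReO r D.S0 := (h.P.comp (h.a.comp h.P)).add (ReO.one.sub h.P)
theorem OD.Re.Si (h : D.Re r) : ReO r D.Si := h.S0.inv D.S0_Si D.Si_S0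
theorem OD.Re.R (h : D.Re r) : ReO r D.R := h.Si.comp h.P
theorem OD.Re.G (h : D.Re r) : ReO r D.G := h.R.comp (h.E.comp h.b)
theorem OD.Re.K (h : D.Re r) : ReO r D.K := h.b.comp (h.T.comp h.G)
theorem OD.Re.Kh (h : D.Re r) : ReO r (SC.Kh D.K) := ReO.Kh D.K_nonneg h.K
theorem OD.Re.Q (h : D.Re r) : ReO r (D.Q (SC.Kh D.K)) := by
  refine ReO.of_dense (N := SC.Kh D.K) D.isKh.dense h.Kh ?_
  have e : (D.Q (SC.Kh D.K)) ∘L SC.Kh D.K = D.G := by
    ext x
    exact D.isKh.Q_Kh x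
  rw [e]
  exact h.G

end

/-! ### The conjugation of `ℓ²` -/

/-- A conjugation of a complex normed space. -/
structure Cv (E : Type) [NormedAddCommGroup E] [NormedSpace ℂ E] where
  s : E → E
  ss : ∀ x, s (s x) = x
  ad : ∀ x y, s (x + y) = s x + s y
  sm : ∀ (z : ℂ) (x : E), s (z • x) = star z • s x
  nm : ∀ x, ‖s x‖ = ‖x‖

section
variable {E F G : Type} [NormedAddCommGroup E] [NormedSpace ℂ E] [NormedAddCommGroup F]
  [NormedSpace ℂ F] [NormedAddCommGroup G] [NormedSpace ℂ G]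

theorem Cv.zero (s : Cv E) : s.s 0 = 0 := by
  have := s.nm 0
  rw [norm_zero, norm_eq_zero] at this
  exact this

/-- `s` as a continuous real linear map -/
noncomputable def Cv.L (s : Cv E) : E →L[ℝ] E :=
  LinearMap.mkContinuous
    { toFun := s.s
      map_add' := s.ad
      map_smul' := fun a x => by
        have h := s.sm (a : ℂ) x
        have e1 : ((a : ℝ) : ℂ) • x = a • x := by simp
        have e2 : star ((a : ℝ) : ℂ) • s.s x = a • s.s x := by
          rw [show star ((a : ℝ) : ℂ) = (a : ℂ) from Complex.conj_ofReal a]; simp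
        rw [e1, e2] at h
        exact h } 1 (fun x => by rw [one_mul]; exact (s.nm x).le)

@[simp] theorem Cv.L_apply (s : Cv E) (x : E) : s.L x = s.s x := rfl

/-- `(cl x) n = conj (x (-n))` -/
noncomputable def cl (s : Cv E) : l2 E →L[ℝ] l2 E :=
  LinearMap.mkContinuous
    { toFun := fun x => mkl2 (fun n => s.s (x (-n))) (by
        have h := (Equiv.neg ℤ).summable_iff.2 (l2_summable x)
        refine h.congr fun n => ?_
        rw [s.nm]
        rfl)
      map_add' := fun x y => by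
        ext n
        show s.s (x (-n) + y (-n)) = s.s (x (-n)) + s.s (y (-n))
        exact s.ad _ _
      map_smul' := fun a x => by
        ext n
        exact s.L.map_smul a (x (-n)) } 1 (fun x => by
      rw [one_mul]
      refine l2_norm_le (norm_nonneg _) fun S => ?_
      have h1 : ∀ n : ℤ, ‖s.s (x (-n))‖ ^ 2 = ‖x (-n)‖ ^ 2 := fun n => by rw [s.nm]
      have h2 : ∑ n ∈ S, ‖s.s (x (-n))‖ ^ 2 = ∑ n ∈ S.map (Equiv.neg ℤ).toEmbedding, ‖x n‖ ^ 2 := by
        rw [Finset.sum_map]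
        exact Finset.sum_congr rfl fun n _ => h1 n
      show ∑ n ∈ S, ‖s.s (x (-n))‖ ^ 2 ≤ _
      rw [h2]
      exact l2_sum_le x _)

@[simp] theorem cl_apply (s : Cv E) (x : l2 E) (n : ℤ) : cl s x n = s.s (x (-n)) := rfl

theorem cl_cl (s : Cv E) (x : l2 E) : cl s (cl s x) = x := by
  ext n
  rw [cl_apply, cl_apply, s.ss, neg_neg]

theorem cl_sm (s : Cv E) (z : ℂ) (x : l2 E) : cl s (z • x) = star z • cl s x := by
  ext n
  rw [cl_apply]
  exact s.sm z (x (-n))

/-- diagonal operators -/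
theorem cl_dg (s : Cv E) (t : Cv F) {A : ℤ → E →L[ℂ] F} {C : ℝ} (hA : ∀ n, ‖A n‖ ≤ C)
    (h : ∀ n e, t.s (A (-n) e) = A n (s.s e)) (x : l2 E) : cl t (dg A x) = dg A (cl s x) := by
  ext n
  rw [cl_apply, dg_apply hA, dg_apply hA, cl_apply, h]

/-- matrices -/
theorem cl_mo [CompleteSpace F] (s : Cv E) (t : Cv F) {b : ℤ → ℝ} {A : ℤ → ℤ → E →L[ℂ] F} (hA : TD b A)
    (h : ∀ n j e, t.s (A (-n) (-j) e) = A n j (s.s e)) (x : l2 E) : cl t (mo A x) = mo A (cl s x) := by
  ext n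
  have h1 : HasSum (fun j => t.s (A (-n) j (x j))) (t.s (mo A x (-n))) :=
    t.L.hasSum (mo_hasSum hA x (-n))
  have h2 := (Equiv.neg ℤ).hasSum_iff.2 h1
  have h3 := mo_hasSum hA (cl s x) n
  rw [cl_apply]
  refine h2.unique ?_
  convert h3 using 2 with j
  show t.s (A (-n) (-j) (x (-j))) = A n j (cl s x j)
  rw [cl_apply, h]

end

section
variable {H : ℝ} [hH : Fact (0 < H)]

/-- complex conjugation on `L²(0,H)` -/
noncomputable def sZ : Cv (Z2 H) := ⟨cz, cz_cz, cz_add, cz_smul, norm_cz⟩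

/-- complex conjugation on `C([0,H])` -/
noncomputable def sC : Cv (CI H) := ⟨star, star_star, star_add, fun z x => by
  apply ci_ext
  intro t _
  rw [ex_star, ex_smul, ex_smul, ex_star, star_mul'], norm_star_ci⟩

@[simp] theorem sZ_s (f : Z2 H) : (sZ (H := H)).s f = cz f := rfl
@[simp] theorem sC_s (f : CI H) : (sC (H := H)).s f = star f := rfl

/-- The conjugation of `HH H`. -/
noncomputable def cjH : Cjn (HH H) where
  c := cl sZ
  cc := cl_cl _
  sm := cl_sm _
  inn := fun x y => by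
    rw [lp.inner_eq_tsum, lp.inner_eq_tsum, ← (Equiv.neg ℤ).tsum_eq fun n => ⟪y n, x n⟫_ℂ]
    refine tsum_congr fun n => ?_
    show ⟪cz (x (-n)), cz (y (-n))⟫_ℂ = ⟪y (-n), x (-n)⟫_ℂ
    exact inner_cz _ _

theorem cjH_apply (x : HH H) (n : ℤ) : cjH.c x n = cz (x (-n)) := rfl

theorem cjH_iff (x : HH H) : cjH.c x = x ↔ ∀ n : ℤ, x (-n) = star (x n) := by
  constructor
  · intro h n
    have h1 : cjH.c x n = x n := by rw [h]
    rw [cjH_apply] at h1
    have h2 : cz (cz (x (-n))) = cz (x n) := by rw [h1]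
    rw [cz_cz] at h2
    exact h2
  · intro h
    ext1
    funext n
    rw [cjH_apply, h n]
    exact cz_cz (x n)

end

end Pool.Agent.Lib.MP_79abb3_an.SC
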