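import Pool.Agent.Lib.MP_79abb3_an.SC.ExT
import Pool.Agent.Lib.MP_79abb3_an.SC.NcStep
import Pool.Agent.Lib.MP_79abb3_an.SC.RlB

/-!
Theorem C: reality of the solutions of the general background system.
-/

set_option autoImplicit false
set_option linter.unusedSectionVars false

open ContinuousLinearMap Filter Topology MeasureTheory Set
open scoped InnerProductSpace ComplexConjugate ENNReal

namespace Pool.Agent.Lib.MP_79abb3_an.SC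

open Pool.Agent.Lib.MP_79abb3_an.P25

section
variable {E F G : Type} [NormedAddCommGroup E] [NormedSpace ℂ E] [NormedAddCommGroup F]
  [NormedSpace ℂ F] [NormedAddCommGroup G] [NormedSpace ℂ G]

theorem cl_dg' (s : Cv E) (t : Cv F) {A : ℤ → E →L[ℂ] F}
    (h : ∀ n e, t.s (A (-n) e) = A n (s.s e)) (x : l2 E) : cl t (dg A x) = dg A (cl s x) := by
  by_cases hC : ∃ C, ∀ n, ‖A n‖ ≤ C
  · obtain ⟨C, hC⟩ := hC
    exact cl_dg s t hC h x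
  · have h0 : dg A = 0 := by rw [dg, dif_neg hC]
    rw [h0]
    exact map_zero _

theorem cl_mo' [CompleteSpace F] (s : Cv E) (t : Cv F) {A : ℤ → ℤ → E →L[ℂ] F}
    (h : ∀ n j e, t.s (A (-n) (-j) e) = A n j (s.s e)) (x : l2 E) : cl t (mo A x) = mo A (cl s x) := by
  by_cases hC : ∃ b, TD b A
  · obtain ⟨b, hb⟩ := hC
    exact cl_mo s t hb h x
  · have h0 : mo A = 0 := by rw [mo, dif_neg hC]
    rw [h0]
    exact map_zero _

theorem cl_uw (s : Cv E) {lam : ℤ → ℝ} (hl : ∀ n, lam (-n) = lam n) (α : ℝ) (x : l2 E) (n : ℤ) :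
    s.s (uw lam α x (-n)) = uw lam α (cl s x) n := by
  unfold uw
  rw [s.sm, hl, cl_apply]
  congr 1
  exact Complex.conj_ofReal _

theorem cl_pr [CompleteSpace G] (s : Cv E) (t : Cv F) (u : Cv G) (m : E →L[ℂ] F →L[ℂ] G)
    (hm : ∀ e f, u.s (m e f) = m (s.s e) (t.s f)) {lam : ℤ → ℝ} (hl : ∀ n, lam (-n) = lam n)
    {α β γ : ℝ} (w : PrW lam α β γ) (x : l2 E) (y : l2 F) :
    cl u (pr m w x y) = pr m w (cl s x) (cl t y) := by
  ext n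
  rw [cl_apply, pr_apply, pr_apply]
  have h1 := ((prF_sum w m.opNorm_nonneg (opn2 m) x y).1 (-n)).of_norm.hasSum
  have h1' := u.L.hasSum h1
  have h2 := (Equiv.neg ℤ).hasSum_iff.2 h1'
  have h3 := ((prF_sum w m.opNorm_nonneg (opn2 m) (cl s x) (cl t y)).1 n).of_norm.hasSum
  have h4 : u.s (cvm (fun e f => m e f) (uw lam α x) (uw lam β y) (-n)) =
      cvm (fun e f => m e f) (uw lam α (cl s x)) (uw lam β (cl t y)) n := by
    refine h2.unique ?_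
    have e5 : ((fun b => u.L (m (uw lam α x b) (uw lam β y (-n - b)))) ∘ (Equiv.neg ℤ)) =
        fun j => m (uw lam α (cl s x) j) (uw lam β (cl t y) (n - j)) := by
      funext j
      show u.s (m (uw lam α x (-j)) (uw lam β y (-n - -j))) = _
      rw [hm, cl_uw s hl, show -n - -j = -(n - j) by ring, cl_uw t hl]
    rw [e5]
    exact h3
  unfold prF uw at *
  rw [u.sm, hl]
  have e1 : star (((lam n ^ (-γ) : ℝ)) : ℂ) = ((lam n ^ (-γ) : ℝ) : ℂ) := Complex.conj_ofReal _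
  rw [e1, h4]

end

section
variable {H : ℝ} [hH : Fact (0 < H)]

theorem fe_star (m : ℝ) : star (fe m : CI H) = fe m := by
  apply ci_ext
  intro z hz
  rw [ex_star, ex_fe m hz]
  exact Complex.conj_ofReal _

theorem Tz_cz (k : ℝ) (f : Z2 H) : star (Tz k f) = Tz k (cz f) := by
  refine Tz_unique ?_ (by rw [ex_star, Tz_H, star_zero])
  have h := (Tz_dz k f).star
  have e : cz (((|k| : ℝ) : ℂ) • iota (Tz k f) - f) = ((|k| : ℝ) : ℂ) • iota (star (Tz k f)) - cz f := by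
    have h1 := cz_add (((|k| : ℝ) : ℂ) • iota (Tz k f) - f) f
    rw [sub_add_cancel, cz_smul, cz_iota] at h1
    have h2 : star ((|k| : ℝ) : ℂ) = ((|k| : ℝ) : ℂ) := Complex.conj_ofReal _
    rw [h2] at h1
    exact eq_sub_of_add_eq h1.symm
  rwa [e] at h

theorem Ez_cz (k : ℝ) (f : Z2 H) : star (Ez k f) = Ez k (cz f) := by
  refine Ez_unique ?_ (by rw [ex_star, Ez_zero, star_zero])
  have h := (Ez_dz k f).star
  have e : cz (f - ((|k| : ℝ) : ℂ) • iota (Ez k f)) = cz f - ((|k| : ℝ) : ℂ) • iota (star (Ez k f)) := by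
    have h1 := cz_add (f - ((|k| : ℝ) : ℂ) • iota (Ez k f)) (((|k| : ℝ) : ℂ) • iota (Ez k f))
    rw [sub_add_cancel, cz_smul, cz_iota] at h1
    have h2 : star ((|k| : ℝ) : ℂ) = ((|k| : ℝ) : ℂ) := Complex.conj_ofReal _
    rw [h2] at h1
    exact eq_sub_of_add_eq h1.symm
  rwa [e] at h

theorem Tz_neg (k : ℝ) (f : Z2 H) : Tz (-k) f = Tz k f := by
  refine Tz_unique ?_ (Tz_H _ _)
  have h := Tz_dz (-k) f
  rwa [abs_neg] at h

theorem Ez_neg (k : ℝ) (f : Z2 H) : Ez (-k) f = Ez k f := by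
  refine Ez_unique ?_ (Ez_zero _ _)
  have h := Ez_dz (-k) f
  rwa [abs_neg] at h

theorem T2_cz (k : ℝ) (f : Z2 H) : cz (T2 (-k) f) = T2 k (cz f) := by
  rw [T2_apply, T2_apply, Tz_neg, cz_iota, Tz_cz]

theorem E2_cz (k : ℝ) (f : Z2 H) : cz (E2 (-k) f) = E2 k (cz f) := by
  rw [E2_apply, E2_apply, Ez_neg, cz_iota, Ez_cz]

theorem gk_neg (k : ℝ) : (gk (-k) : Z2 H) = gk k := by unfold gk; rw [abs_neg]

theorem cz_gk (k : ℝ) : cz (gk k : Z2 H) = gk k := by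
  unfold gk
  rw [cz_smul, cz_iota, fe_star]
  congr 1
  exact Complex.conj_ofReal _

theorem P2_cz (k : ℝ) (f : Z2 H) : cz (P2 (-k) f) = P2 k (cz f) := by
  rw [P2_apply, P2_apply, gk_neg]
  have h1 := cz_add (f - ⟪gk k, f⟫_ℂ • gk k) (⟪gk k, f⟫_ℂ • gk k)
  rw [sub_add_cancel, cz_smul, cz_gk] at h1
  have h2 : star ⟪(gk k : Z2 H), f⟫_ℂ = ⟪(gk k : Z2 H), cz f⟫_ℂ := by
    have h3 := inner_cz (gk k : Z2 H) f
    rw [cz_gk] at h3
    rw [h3]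
    exact inner_conj_symm _ _
  rw [h2] at h1
  exact eq_sub_of_add_eq h1.symm

theorem om_neg (ω : ℝ) (n : ℤ) : ω * ((-n : ℤ) : ℝ) = -(ω * n) := by push_cast; ring

theorem RO_TT (ω : ℝ) : ReO (cjH (H := H)) (TT ω) := cl_dg' _ _ fun n e => by
  rw [om_neg]; exact T2_cz _ _

theorem RO_EE (ω : ℝ) : ReO (cjH (H := H)) (EE ω) := cl_dg' _ _ fun n e => by
  rw [om_neg]; exact E2_cz _ _

theorem RO_PP (ω : ℝ) : ReO (cjH (H := H)) (PP ω) := cl_dg' _ _ fun n e => by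
  rw [om_neg]; exact P2_cz _ _

theorem RO_Ms {b : CI H} (hb : star b = b) : ReO cjH (Ms b) := cl_dg' _ _ fun n e => by
  show cz (mz b e) = mz b (cz e)
  rw [cz_mz, hb]

theorem RO_cm {a : ℤ → CI H} (ha : ∀ n, a (-n) = star (a n)) : ReO cjH (cm a) := by
  intro x
  refine cl_mo' sZ sZ (fun n j e => ?_) x
  show cz ((((1 : ℝ) : ℂ) • mz (a (-n - -j))) e) = (((1 : ℝ) : ℂ) • mz (a (n - j))) (cz e)
  rw [show -n - -j = -(n - j) by ring, ha]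
  simp only [Complex.ofReal_one, one_smul]
  rw [cz_mz, star_star]

theorem RO_ws {w : ℤ → ℝ} {A : ℤ → Z2 H →L[ℂ] Z2 H} (hw : ∀ n, w (-n) = w n)
    (hA : ∀ n e, cz (A (-n) e) = A n (cz e)) : ReO cjH (dg fun n => ((w n : ℝ) : ℂ) • A n) :=
  cl_dg' _ _ fun n e => by
    show cz (((w (-n) : ℝ) : ℂ) • A (-n) e) = ((w n : ℝ) : ℂ) • A n (cz e)
    rw [cz_smul, hA, hw]
    congr 1
    exact Complex.conj_ofReal _

theorem T2_fam (ω : ℝ) (n : ℤ) (e : Z2 H) : cz (T2 (ω * ((-n : ℤ) : ℝ)) e) = T2 (ω * n) (cz e) := by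
  rw [om_neg]; exact T2_cz _ _

theorem RO_DTc (ω : ℝ) : ReO (cjH (H := H)) (DTc ω) :=
  RO_ws (w := fun n => |ω * n|) (fun n => by rw [om_neg, abs_neg]) (T2_fam ω)

theorem RO_Xz (ω : ℝ) : ReO (cjH (H := H)) (Xz ω) := (RO_DTc ω).sub ReO.one

theorem RO_Xy (ω : ℝ) : ReO (cjH (H := H)) (Xy ω) := cl_dg' _ _ fun n e => by
  show cz ((Complex.I * ((ω * ((-n : ℤ) : ℝ) : ℝ) : ℂ)) • T2 (ω * ((-n : ℤ) : ℝ)) e) =
    (Complex.I * ((ω * n : ℝ) : ℂ)) • T2 (ω * n) (cz e)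
  rw [cz_smul, T2_fam, om_neg]
  congr 1
  rw [star_mul', show star Complex.I = -Complex.I from Complex.conj_I,
    show star ((-(ω * n) : ℝ) : ℂ) = ((-(ω * n) : ℝ) : ℂ) from Complex.conj_ofReal _]
  push_cast
  ring

theorem RO_LT (ω : ℝ) {lam : ℤ → ℝ} (hl : ∀ n, lam (-n) = lam n) (s : ℝ) :
    ReO (cjH (H := H)) (LT ω lam s) :=
  RO_ws (w := fun n => lam n ^ s) (fun n => by rw [hl]) (T2_fam ω)

theorem ReO.smulR {L : HH H →L[ℂ] HH H} (h : ReO cjH L) (a : ℝ) : ReO cjH (((a : ℝ) : ℂ) • L) := fun x => by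
  show cjH.c (((a : ℝ) : ℂ) • L x) = ((a : ℝ) : ℂ) • L (cjH.c x)
  rw [cjH.sm, h]
  congr 1
  exact Complex.conj_ofReal _

namespace Geo
variable (G : Geo H)

theorem reD : G.D.Re cjH where
  T := RO_TT _
  E := RO_EE _
  P := RO_PP _
  a := RO_cm G.ha.c.re
  b := ReO.one

theorem reDo : G.Do.Re cjH where
  T := RO_TT _
  E := RO_EE _
  P := RO_PP _
  a := ReO.one
  b := RO_cm G.hb.c.re

theorem ro_Qo : ReO cjH G.Qo := G.reDo.Q
theorem ro_Qd : ReO cjH G.Qd := G.reD.Q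
theorem ro_qL : ReO cjH G.qL := (RO_TT _).comp G.ro_Qo
theorem ro_WL : ReO cjH G.WL := (RO_TT _).comp G.ro_Qd
theorem ro_J1 : ReO cjH G.J1 := ((RO_LT _ G.lw.neg _).comp G.ro_Qo).adj
theorem ro_J2 : ReO cjH G.J2 := ((RO_TT _).comp G.ro_Qo).adj
theorem ro_J3 : ReO cjH G.J3 := ((RO_LT _ G.lw.neg _).comp G.ro_Qd).adj
theorem ro_J4 : ReO cjH G.J4 := ((RO_TT _).comp G.ro_Qd).adj

/-- a real background at time `t` -/
structure ReB (B : Bg H) (t : ℝ) : Prop where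
  ve : cl sC (B.ve t) = B.ve t
  we : cl sC (B.we t) = B.we t
  gL : cjH.c (B.gL t) = B.gL t
  FL : cjH.c (B.FL t) = B.FL t
  fc : cjH.c (B.fc t) = B.fc t
  κ : star (B.κ t) = B.κ t
  κ1 : star (B.κ1 t) = B.κ1 t

theorem uvA (k : ℝ) (e : Z2 H) : star (vk (-k) e) = vk k (cz e) := by
  have h1 : ∀ k (e : Z2 H), vk k e = Tz k e - ((|k| : ℝ) : ℂ) • Ez k (iota (Tz k e)) := fun _ _ => rfl
  rw [h1, h1, star_sub, star_smul, Ez_cz, cz_iota, Tz_neg, Tz_cz, abs_neg, Ez_neg]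
  congr 2
  exact Complex.conj_ofReal _

theorem uwA (k : ℝ) (e : Z2 H) : star (wk (-k) e) = wk k (cz e) := by
  have h1 : ∀ k (e : Z2 H), wk k e = (-(Complex.I * (k : ℂ))) • Ez k (iota (Tz k e)) := fun _ _ => rfl
  rw [h1, h1, star_smul, Ez_cz, cz_iota, Tz_neg, Tz_cz, Ez_neg]
  congr 1
  rw [star_neg, star_mul', show star Complex.I = -Complex.I from Complex.conj_I,
    show star (((-k : ℝ)) : ℂ) = ((-k : ℝ) : ℂ) from Complex.conj_ofReal _]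
  push_cast
  ring

theorem cl_UV (x : HH H) : cl sC (UV G.ω G.lam x) = UV G.ω G.lam (cjH.c x) :=
  cl_dg' sZ sC (fun n e => by
    show star (((G.lam (-n) ^ (1 / 2 : ℝ) : ℝ) : ℂ) • vk (G.ω * ((-n : ℤ) : ℝ)) e) =
      ((G.lam n ^ (1 / 2 : ℝ) : ℝ) : ℂ) • vk (G.ω * n) (cz e)
    rw [star_smul, om_neg, uvA, G.lw.neg]
    congr 1
    exact Complex.conj_ofReal _) x

theorem cl_UW (x : HH H) : cl sC (UW G.ω G.lam x) = UW G.ω G.lam (cjH.c x) :=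
  cl_dg' sZ sC (fun n e => by
    show star (((G.lam (-n) ^ (1 / 2 : ℝ) : ℝ) : ℂ) • wk (G.ω * ((-n : ℤ) : ℝ)) e) =
      ((G.lam n ^ (1 / 2 : ℝ) : ℝ) : ℂ) • wk (G.ω * n) (cz e)
    rw [star_smul, om_neg, uwA, G.lw.neg]
    congr 1
    exact Complex.conj_ofReal _) x

theorem cl_prd (x : HH H) (u : l2 (CI H)) :
    cjH.c (prd G.pw x u) = prd G.pw (cjH.c x) (cl sC u) :=
  cl_pr sZ sC sZ (mz : CI H →L[ℂ] Z2 H →L[ℂ] Z2 H).flip (fun e f => by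
    show cz (mz f e) = mz (star f) (cz e)
    exact cz_mz _ _) G.lw.neg G.pw x u

/-- the conjugation of pairs -/
noncomputable def c2 : HH H × HH H →L[ℝ] HH H × HH H := (cjH.c).prodMap (cjH.c)

theorem c2_apply (x : HH H × HH H) : c2 x = (cjH.c x.1, cjH.c x.2) := rfl

section
variable {G} {B : Bg H} {t : ℝ} (h : ReB B t) (x : HH H × HH H)
include h

theorem c_gV : cjH.c (G.gV B t x) = G.gV B t (c2 x) := by
  unfold gV
  rw [map_sub, map_add, G.ro_Qd, h.gL, RO_Ms G.ζ_real, RO_cm G.hJ.c.re, G.ro_qL]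
  rfl

theorem c_VV : cjH.c (G.VV B t x) = G.VV B t (c2 x) := by
  unfold VV
  rw [RO_TT, c_gV h]

theorem c_uv : cl sC (G.uv B t x) = G.uv B t (c2 x) := by
  unfold uv
  rw [map_add, G.cl_UV, h.ve, map_add, G.ro_Qd, h.gL]
  rfl

theorem c_uw : cl sC (G.uw B t x) = G.uw B t (c2 x) := by
  unfold uw
  rw [map_add, G.cl_UW, h.we, map_add, G.ro_Qd, h.gL]
  rfl

theorem c_om : cjH.c (G.om B t x) = G.om B t (c2 x) := by
  unfold om
  rw [map_add, RO_Ms G.ζ_real, RO_Ms G.ζ_real, RO_cm G.ha.c.re, G.ro_qL, c_gV h]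
  rfl

theorem c_f1 : cjH.c (G.f1 B t x) = G.f1 B t (c2 x) := by
  unfold f1
  rw [map_neg, map_add, G.cl_prd, G.cl_prd, RO_Xy, RO_Xz, G.ro_Qo, c_uv h, c_uw h]
  rfl

theorem c_f2 : cjH.c (G.f2 B t x) = G.f2 B t (c2 x) := by
  unfold f2
  rw [map_sub, RO_Ms h.κ, RO_Ms h.κ1, c_gV h, c_VV h]

theorem c_f3 : cjH.c (G.f3 B t x) = G.f3 B t (c2 x) := by
  unfold f3 Pw
  rw [map_neg, map_add, RO_Xz, RO_Xy, G.cl_prd, G.cl_prd, c_om h, c_uv h, c_uw h]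

theorem c_jj : cjH.c (G.jj B t x) = G.jj B t (c2 x) := by
  unfold jj
  have e2 : cjH.c (-(2:ℂ) • Xz G.ω (Ms G.ζ1 (G.qL x.1))) =
      -(2:ℂ) • Xz G.ω (Ms G.ζ1 (G.qL (cjH.c x.1))) := by
    rw [cjH.sm, RO_Xz, RO_Ms G.ζ1_real, G.ro_qL]
    congr 1
    simp
  rw [map_add, map_add, e2, RO_TT, map_add, RO_Ms G.ζ2_real, RO_Ms G.ζ1_real, RO_Ms h.κ, c_VV h,
    RO_LT _ G.lw.neg, RO_Ms G.ζ1_real, G.cl_prd, c_uw h, G.ro_qL]
  rfl

theorem c_f4 : cjH.c (G.f4 B t x) = G.f4 B t (c2 x) := by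
  unfold f4
  rw [map_add, map_add, map_sub, map_add, c_jj h, RO_Ms G.ζ_real, RO_Ms h.κ, c_VV h, h.FL, h.fc]

/-- conjugation of the sources -/
theorem c_Phi : (c2 (G.Phi B t x).1, c2 (G.Phi B t x).2) = G.Phi B t (c2 x) := by
  unfold Phi
  rw [c2_apply, c2_apply, c_f1 h, c_f2 h, c_f3 h, c_f4 h]

end

/-- the conjugation of quadruples -/
noncomputable def c4 : (HH H × HH H) × (HH H × HH H) →L[ℝ] (HH H × HH H) × (HH H × HH H) :=
  c2.prodMap c2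

theorem c_SS (t : ℝ) (x : HH H × HH H) : c2 (G.SS t x) = G.SS t (c2 x) := by
  show (cjH.c (Sg G.Do.K t x.1), cjH.c (Sg G.D.K t x.2)) = (Sg G.Do.K t (cjH.c x.1), Sg G.D.K t (cjH.c x.2))
  rw [G.reDo.K.Sg G.Do.K_nonneg, G.reD.K.Sg G.D.K_nonneg]

theorem c_LL {t : ℝ} (ht : 0 < t) (y : (HH H × HH H) × (HH H × HH H)) :
    c2 (G.LL t y) = G.LL t (c4 y) := by
  show (cjH.c (AS G.Do.K t (G.J1 y.1.1 + G.J2 y.1.2)), cjH.c (AS G.D.K t (G.J3 y.2.1 + G.J4 y.2.2))) =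
    (AS G.Do.K t (G.J1 (cjH.c y.1.1) + G.J2 (cjH.c y.1.2)), AS G.D.K t (G.J3 (cjH.c y.2.1) + G.J4 (cjH.c y.2.2)))
  rw [G.reDo.K.AS G.Do.K_nonneg ht, G.reD.K.AS G.D.K_nonneg ht]
  rw [show cjH.c (G.J1 y.1.1 + G.J2 y.1.2) = G.J1 (cjH.c y.1.1) + G.J2 (cjH.c y.1.2) by
      rw [map_add, G.ro_J1, G.ro_J2],
    show cjH.c (G.J3 y.2.1 + G.J4 y.2.2) = G.J3 (cjH.c y.2.1) + G.J4 (cjH.c y.2.2) by
      rw [map_add, G.ro_J3, G.ro_J4]]

/-- **Reality of solutions.** -/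
theorem Sol.real {G : Geo H} {B : Bg H} {t₀ t₁ : ℝ} (hB : B.Cont t₀ t₁)
    (hr : ∀ t ∈ Icc t₀ t₁, ReB B t) {x₀ : HH H × HH H} {x : ℝ → HH H × HH H}
    (hx : G.Sol B t₀ t₁ x₀ x) (h0 : c2 x₀ = x₀) : ∀ t ∈ Icc t₀ t₁, c2 (x t) = x t := by
  obtain ⟨C, hC⟩ := G.ker
  obtain ⟨M, hM⟩ := Phi_nl (G := G) hB
  refine Mild.real hC hM hx c2 c4 (fun t _ x => G.c_SS t x) (fun t ht y => G.c_LL ht y) ?_ h0
  intro t ht x
  exact c_Phi (hr t ht) x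

theorem c2_iff (x : HH H × HH H) :
    c2 x = x ↔ (∀ n : ℤ, x.1 (-n) = star (x.1 n)) ∧ ∀ n : ℤ, x.2 (-n) = star (x.2 n) := by
  rw [← cjH_iff, ← cjH_iff, c2_apply]
  exact Prod.ext_iff

end Geo

end

end Pool.Agent.Lib.MP_79abb3_an.SC
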