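import Pool.Agent.Lib.MP_79abb3_an.SC.RcA
import Pool.Agent.Lib.MP_79abb3_an.SC.RlC
import Pool.Agent.Lib.MP_79abb3_an.SC.MnDef
import Pool.Agent.Lib.MP_79abb3_an.FW.Def

/-!
Theorem C (MP_79abb3_an), RECUT: the theorem `RecutThm`.
-/

set_option autoImplicit false
set_option linter.unusedSectionVars false

open MeasureTheory Set Filter Topology Function
open scoped ENNReal InnerProductSpace

namespace Pool.Agent.Lib.MP_79abb3_an.SC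

open Pool.Agent.Lib.MP_79abb3_an.P25
open Pool.Agent.Lib.MP_79abb3_an.FW (rc ex_rc)

section
variable {H : ℝ} [hH : Fact (0 < H)]

/-! ### The cut-off -/

theorem rcb_isD (F F1 : ℝ → ℝ) (hF : Continuous F) (hF1 : Continuous F1)
    (h : ∀ z, HasDerivAt F (F1 z) z) : IsD (rc F hF : CI H) (rc F1 hF1) := by
  intro z hz
  rw [ex_rc F1 hF1 hz]
  exact ((h z).ofReal_comp.hasDerivWithinAt).congr (fun y hy => ex_rc F hF hy) (ex_rc F hF hz)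

theorem rc_star (F : ℝ → ℝ) (hF : Continuous F) : star (rc F hF : CI H) = rc F hF := by
  refine ci_ext fun z hz => ?_
  rw [ex_star, ex_rc F hF hz]
  exact Complex.conj_ofReal _

theorem fld_congr' {ω : ℝ} {a b : ℤ → CI H} {y z : ℝ} (h : ∀ n, ex (a n) z = ex (b n) z) :
    fld ω a y z = fld ω b y z := by
  unfold fld
  simp only [h]

theorem deriv_zero_Iic {g : ℝ → ℝ} {c h : ℝ} (hg : Differentiable ℝ g) (h1 : ∀ z ≤ h, g z = c) {z : ℝ}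
    (hz : z ≤ h) : deriv g z = 0 := by
  have e1 : HasDerivWithinAt g (deriv g z) (Iic h) z := (hg z).hasDerivAt.hasDerivWithinAt
  have e2 : HasDerivWithinAt g 0 (Iic h) z :=
    (hasDerivWithinAt_const z (Iic h) c).congr (fun y hy => h1 y hy) (h1 z hz)
  exact (uniqueDiffOn_Iic h z hz).eq_deriv _ e1 e2

theorem deriv_zero_Ici {g : ℝ → ℝ} {c h : ℝ} (hg : Differentiable ℝ g) (h1 : ∀ z, h ≤ z → g z = c) {z : ℝ}
    (hz : h ≤ z) : deriv g z = 0 := by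
  have e1 : HasDerivWithinAt g (deriv g z) (Ici h) z := (hg z).hasDerivAt.hasDerivWithinAt
  have e2 : HasDerivWithinAt g 0 (Ici h) z :=
    (hasDerivWithinAt_const z (Ici h) c).congr (fun y hy => h1 y hy) (h1 z hz)
  exact (uniqueDiffOn_Ici h z hz).eq_deriv _ e1 e2

/-- Cut-off: one on `[0,h]`, zero on `[ρ,H]`. -/
theorem exists_cut {h ρ : ℝ} (hh : h < ρ) (hρ : ρ ≤ H) : ∃ χ χ1 χ2 : CI H, Cut χ χ1 χ2 ∧
    (∀ z ∈ Icc (0:ℝ) H, z ≤ h → ex χ z = 1 ∧ ex χ1 z = 0) ∧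
    ∀ z ∈ Icc (0:ℝ) H, ρ ≤ z → ex χ z = 0 ∧ ex χ1 z = 0 ∧ ex χ2 z = 0 := by
  set F : ℝ → ℝ := fun z => Real.smoothTransition ((ρ - z) / (ρ - h)) with hF
  have hd : 0 < ρ - h := sub_pos.2 hh
  have s0 : ContDiff ℝ ((⊤ : ℕ∞) : WithTop ℕ∞) F := by
    have h1 : ContDiff ℝ ((⊤ : ℕ∞) : WithTop ℕ∞) fun z : ℝ => (ρ - z) / (ρ - h) :=
      (contDiff_const.sub contDiff_id).div_const _
    exact Real.smoothTransition.contDiff.comp h1
  have one : ∀ z ≤ h, F z = 1 := fun z hz => by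
    refine Real.smoothTransition.one_of_one_le ?_
    rw [le_div_iff₀ hd]
    linarith
  have zero : ∀ z, ρ ≤ z → F z = 0 := fun z hz => by
    refine Real.smoothTransition.zero_of_nonpos ?_
    exact div_nonpos_of_nonpos_of_nonneg (by linarith) hd.le
  have step : ∀ {g : ℝ → ℝ}, ContDiff ℝ ((⊤ : ℕ∞) : WithTop ℕ∞) g →
      ContDiff ℝ ((⊤ : ℕ∞) : WithTop ℕ∞) (deriv g) := fun hg => (contDiff_infty_iff_deriv.1 hg).2
  have s1 := step s0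
  have s2 := step s1
  have s3 := step s2
  have df : ∀ {g : ℝ → ℝ}, ContDiff ℝ ((⊤ : ℕ∞) : WithTop ℕ∞) g → Differentiable ℝ g := fun hg =>
    (contDiff_infty_iff_deriv.1 hg).1
  have o1 : ∀ z ≤ h, deriv F z = 0 := fun z hz => deriv_zero_Iic (df s0) one hz
  have z1 : ∀ z, ρ ≤ z → deriv F z = 0 := fun z hz => deriv_zero_Ici (df s0) zero hz
  have z2 : ∀ z, ρ ≤ z → deriv (deriv F) z = 0 := fun z hz => deriv_zero_Ici (df s1) z1 hz
  refine ⟨rc F s0.continuous, rc (deriv F) s1.continuous, rc (deriv (deriv F)) s2.continuous, ?_, ?_, ?_⟩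
  · refine ⟨rcb_isD _ _ _ _ fun z => (df s0 z).hasDerivAt, rcb_isD _ _ _ _ fun z => (df s1 z).hasDerivAt,
      ⟨rc (deriv (deriv (deriv F))) s3.continuous, rcb_isD _ _ _ _ fun z => (df s2 z).hasDerivAt⟩,
      rc_star _ _, rc_star _ _, rc_star _ _, ?_⟩
    rw [ex_rc _ _ ⟨hH.out.le, le_rfl⟩, z1 H hρ]
    rfl
  · intro z hz hzh
    rw [ex_rc _ _ hz, ex_rc _ _ hz, one z hzh, o1 z hzh]
    exact ⟨rfl, rfl⟩
  · intro z hz hzρ
    rw [ex_rc _ _ hz, ex_rc _ _ hz, ex_rc _ _ hz, zero z hzρ, z1 z hzρ, z2 z hzρ]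
    exact ⟨rfl, rfl, rfl⟩

/-! ### Velocities -/

variable {χ χ1 χ2 : CI H}

theorem gR_mode (ω : ℝ) (g : HH H) (n : ℤ) : gR ω χ χ1 χ2 g n =
    (mz χ (g n) - mz χ1 (T2 (ω * n) (g n))) + (-(mz χ2 (E2 (ω * n) (T2 (ω * n) (g n)))) -
      mz χ1 (T2 (ω * n) (g n)) + (2:ℂ) • mz χ1 (((|ω * n| : ℝ) : ℂ) • E2 (ω * n) (T2 (ω * n) (g n)))) := by
  rw [gR_apply, lp.coeFn_add, Pi.add_apply, Bm_apply, Bz_apply, TT_apply]

theorem Cut.Vf (c : Cut χ χ1 χ2) (ω : ℝ) (g : HH H) (n : ℤ) :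
    SC.Vf ω (gR ω χ χ1 χ2 g) n = χ * SC.Vf ω g n + χ1 * Ez (ω * n) (iota (SC.Vf ω g n)) := by
  show Tz (ω * n) (gR ω χ χ1 χ2 g n) = _
  rw [gR_mode, map_add, Tz_mul _ c.d, Tz_zeta _ c.d1 c.z1]
  rfl

theorem Cut.Ez (c : Cut χ χ1 χ2) (ω : ℝ) (g : HH H) (n : ℤ) :
    SC.Ez (ω * n) (iota (SC.Vf ω (gR ω χ χ1 χ2 g) n)) = χ * SC.Ez (ω * n) (iota (SC.Vf ω g n)) := by
  set θ := SC.Ez (ω * n) (iota (SC.Vf ω g n)) with hθ
  refine (Ez_unique ?_ ?_).symm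
  · have h1 := (IsD.dz c.d).mul (Ez_dz (ω * n) (iota (SC.Vf ω g n) : Z2 H))
    have e : mz θ (iota χ1) + mz χ (iota (SC.Vf ω g n) - ((|ω * n| : ℝ) : ℂ) • iota θ) =
        iota (SC.Vf ω (gR ω χ χ1 χ2 g) n) - ((|ω * n| : ℝ) : ℂ) • iota (χ * θ) := by
      rw [c.Vf, map_add, map_sub, map_smul, mz_iota, mz_iota, mz_iota, mul_comm θ χ1]
      abel
    rwa [e] at h1
  · rw [ex_mul, Ez_zero, mul_zero]

theorem Cut.uV (c : Cut χ χ1 χ2) (ω : ℝ) (g : HH H) (n : ℤ) {z : ℝ} (h0 : ex χ z = 1)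
    (h1 : ex χ1 z = 0) : ex (SC.uV ω (SC.Vf ω (gR ω χ χ1 χ2 g)) n) z = ex (SC.uV ω (SC.Vf ω g) n) z := by
  unfold SC.uV
  rw [c.Ez, c.Vf, ex_sub, ex_add, ex_mul, ex_mul, ex_smul, ex_mul, ex_sub, ex_smul, h0, h1]
  ring

theorem Cut.wV (c : Cut χ χ1 χ2) (ω : ℝ) (g : HH H) (n : ℤ) {z : ℝ} (h0 : ex χ z = 1) :
    ex (SC.wV ω (SC.Vf ω (gR ω χ χ1 χ2 g)) n) z = ex (SC.wV ω (SC.Vf ω g) n) z := by
  unfold SC.wV
  rw [c.Ez, ex_smul, ex_mul, ex_smul, h0, one_mul]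

/-! ### Reality -/

theorem RO_DEc (ω : ℝ) : ReO (cjH (H := H)) (DEc ω) :=
  RO_ws (w := fun n => |ω * n|) (fun n => by rw [om_neg, abs_neg])
    (fun n e => by rw [om_neg]; exact E2_cz _ _)

theorem Cut.ro (c : Cut χ χ1 χ2) (ω : ℝ) : ReO cjH (gR ω χ χ1 χ2) := by
  have h1 : ReO cjH (Bm ω χ χ1) := (RO_Ms c.re).sub ((RO_Ms c.re1).comp (RO_TT ω))
  have h2 : ReO cjH (Bz ω χ1 χ2) := by
    have h3 := (((RO_Ms c.re2).comp (RO_EE ω)).neg.sub (RO_Ms c.re1)).add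
      (((RO_Ms c.re1).comp (RO_DEc ω)).smulR 2)
    have h4 : (((2:ℝ) : ℂ)) = 2 := by norm_num
    rw [h4] at h3
    exact h3
  exact h1.add (h2.comp (RO_TT ω))

/-! ### The theorem -/

/-- **RECUT.** -/
theorem Geo.recut (G : Geo H) {h : ℝ} (hh : h < G.ρ) : G.RecutThm h := by
  obtain ⟨χ, χ1, χ2, c, k1, k2⟩ := exists_cut hh G.ρH.le
  intro x hx
  have hPg : PP G.ω (G.Qd x) = G.Qd x := G.D.isKh.P_Q x
  set g' := gR G.ω χ χ1 χ2 (G.Qd x) with hg'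
  have hP' : G.D.P g' = g' := c.pp G.ω hPg
  have hQ : G.Qd (G.D.qi g') = g' := G.D.Q_qi hP'
  have hK : Kh G.D.K (G.D.qi g') = MR G.ω χ χ1 (Kh G.D.K x) := by
    have h1 : Kh G.D.K (G.D.qi g') = TT G.ω (G.Qd (G.D.qi g')) := (G.D.isKh.bTQ _).symm
    have h2 : Kh G.D.K x = TT G.ω (G.Qd x) := (G.D.isKh.bTQ _).symm
    rw [h1, h2, hQ, hg', c.tt]
  refine ⟨G.D.qi g', ⟨?_, ?_⟩, ?_, ?_⟩
  · -- reality
    have r1 : ReO cjH G.D.qi := G.reD.Q.adj.comp G.reD.a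
    have r2 : cjH.c (G.D.qi g') = G.D.qi g' := by
      have hx' : cjH.c x = x := (cjH_iff x).2 hx.real
      rw [r1, hg', c.ro, G.ro_Qd, hx']
    exact (cjH_iff _).1 r2
  · rw [hK]
    exact c.dd G hx.dd
  · -- support
    intro m hm
    rw [hQ, hg', gR_eq]
    have hz : ∀ {f : CI H}, (∀ z ∈ Icc (0:ℝ) H, G.ρ ≤ z → ex f z = 0) → ∀ y : HH H, Ms m (Ms f y) = 0 := by
      intro f hf y
      have h1 : m * f = 0 := by
        refine ci_ext fun z hz => ?_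
        rw [ex_mul]
        rcases le_total z G.ρ with h2 | h2
        · rw [hm z ⟨hz.1, h2⟩, zero_mul]
          simp
        · rw [hf z hz h2, mul_zero]
          simp
      have h2 : Ms m (Ms f y) = Ms (m * f) y := (mb_mul m f y).symm
      rw [h2, h1]
      ext1
      funext n
      rw [Ms_apply]
      simp
    rw [map_add, map_sub, hz (fun z a b => (k2 z a b).1), hz (fun z a b => (k2 z a b).2.1),
      hz (fun z a b => (k2 z a b).2.2), sub_zero, add_zero]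
  · intro v w hf y z hz
    have hz' : z ∈ Icc (0:ℝ) H := ⟨hz.1, hz.2.trans (hh.le.trans G.ρH.le)⟩
    obtain ⟨e0, e1⟩ := k1 z hz' hz.2
    obtain ⟨f1, f2⟩ := hf y z hz
    rw [hQ, f1, f2]
    constructor
    · exact fld_congr' fun n => (c.uV G.ω (G.Qd x) n e0 e1).symm
    · exact fld_congr' fun n => (c.wV G.ω (G.Qd x) n e0).symm

end

end Pool.Agent.Lib.MP_79abb3_an.SC
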