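import Pool.Agent.Lib.MP_79abb3_an.SC.ChGeoB
import Pool.Agent.Lib.MP_79abb3_an.SC.ExQ
import Pool.Agent.Lib.MP_79abb3_an.SC.FlFin
import Pool.Agent.Lib.MP_79abb3_an.SC.L2GDef
import Pool.Agent.Lib.MP_79abb3_an.SC.L2H
import Pool.Agent.Lib.MP_79abb3_an.SC.RcB

/-!
Theorem C, stage for `L²` data: the strip theorem for `L²` data.
-/

set_option autoImplicit false
set_option linter.unusedSectionVars false

open MeasureTheory Set Filter Topology Function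
open scoped ENNReal InnerProductSpace

namespace Pool.Agent.Lib.MP_79abb3_an.SC

open Pool.Agent.Lib.MP_79abb3_an.P25

/-- **The strip theorem for `L²` data.** -/
theorem strip_L2 {r : ℝ} (hr : 0 < r) {a : ℝ × ℝ → ℝ} (ha : PY (r + 2) a) (h0 : ∀ q, 0 < a q) {S : Set ℝ}
    (hS : ∀ y ∈ S, |y| ≤ r) {v₀ w₀ : ℝ × ℝ → ℝ} (hd : DataSeq r S v₀ w₀) :
    Geo.StripThm (r + 2) (r + 1 / 2) a S v₀ w₀ := by
  have hf : Fact (0 < r + 2) := ⟨by linarith⟩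
  obtain ⟨G, g1, g2, -, g3, g4, -⟩ := exists_geo_big ha h0 1 (ρ := r + 1) (by linarith) (by linarith)
  have hh0 : 0 ≤ r + 1 / 2 := by linarith
  have hh : r + 1 / 2 ≤ G.ρ := by rw [g3]; linarith
  have hh' : r + 1 / 2 < G.ρ := by rw [g3]; linarith
  have hP := G.pcT ha g1 G.hω (hh.trans G.ρH.le)
  obtain ⟨ψ, hψ, hv, hw, hl⟩ := hd.seq
  have hV : ∀ j, VanT (r + 2) (ψ j) := fun j => by
    refine ⟨1, one_pos, fun y z hz => hv j y z (Or.inr ?_)⟩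
    rw [abs_of_nonneg (by linarith)]
    linarith
  refine Geo.strip ((ha.smooth.of_le (by simp)).contDiffOn) (G.nullThm ha g1 g4 hh0 hh)
    (G.smallThm g2 ha g1 g4 hh0 hh) (G.flush_thm g2 G.tfex hP G.smT hh0 hh) (G.recut hh')
    (G.phase0_L2 g2 hh0 hh ha g1 hψ hV ?_ ?_ hd.m₁ hd.m₂ ?_)
  · intro y hy
    have := abs_le.1 (hS y hy)
    exact ⟨by linarith, by linarith⟩
  · intro y hy j
    exact hw j y hy
  · refine hl.congr fun j => ?_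
    refine setIntegral_congr_fun (measurableSet_Icc.prod measurableSet_Icc) fun q _ => ?_
    show (gz (ψ j) q - v₀ q) ^ 2 + (gy (ψ j) q + w₀ q) ^ 2 =
      (pZ (ψ j) q - v₀ q) ^ 2 + (-pY (ψ j) q - w₀ q) ^ 2
    have e : pY (ψ j) q = gy (ψ j) q := rfl
    have e' : pZ (ψ j) q = gz (ψ j) q := rfl
    rw [e, e']
    ring

section
variable {F : ℂ → ℂ} {O Ω Γ : Set ℂ} {r T : ℝ}

/-- **Theorem C for `L²` data**, chart form. -/
theorem IsChart.final_L2 (hC : IsChart F O Ω Γ r) (hr : 0 < r) (hT : 0 < T) {a : ℝ × ℝ → ℝ}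
    (ha : PY (r + 2) a) (h0 : ∀ q, 0 < a q) (haF : ∀ q, cxp q ∈ O → a q * ‖dF F (cxp q)‖ ^ 2 = 1)
    {v₀ w₀ : ℝ × ℝ → ℝ} {u₀ : ℂ → ℂ}
    (hd : DataSeq r {y | cxp (y, 0) ∈ closure O ∧ F (cxp (y, 0)) ∈ frontier Ω \ Γ} v₀ w₀)
    (hu : ∀ q, cxp q ∈ O → (starRingEnd ℂ) (dF F (cxp q)) * u₀ (F (cxp q)) = (⟨v₀ q, w₀ q⟩ : ℂ))
    (hu2 : MemLp u₀ 2 (volume.restrict Ω)) :
    ∃ u : ℝ × ℂ → ℂ, IsLeray Ω Γ T u₀ u ∧ ∀ x ∈ closure Ω, u (T, x) = 0 := by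
  refine hC.final hT ((ha.smooth.of_le (by simp)).contDiffOn) haF
    (S := {y | cxp (y, 0) ∈ closure O ∧ F (cxp (y, 0)) ∈ frontier Ω \ Γ}) (fun y h1 h2 => ⟨h1, h2⟩)
    (strip_L2 hr ha h0 (fun y hy => ?_) hd) hu hu2
  exact (hC.closure_sub (hy : _ ∧ _).1).1

end

end Pool.Agent.Lib.MP_79abb3_an.SC
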