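import Pool.Agent.Lib.MP_79abb3_an.SC.L2Gg
import Pool.Agent.Lib.MP_79abb3_an.SC.L2I

/-!
Theorem C for `L²` data: the final theorem.
-/

set_option autoImplicit false
set_option linter.unusedSectionVars false

open MeasureTheory Set Filter Topology Function
open scoped ENNReal ComplexConjugate

namespace Pool.Agent.Lib.MP_79abb3_an.SC

/-- **Theorem C for `L²` data.** -/
theorem L2_main {F : ℂ → ℂ} {Ω Γ : Set ℂ} (hD : IsDom F Ω Γ) {T : ℝ} (hT : 0 < T) {u₀ : ℂ → ℂ}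
    (hu : IsAdL (F '' Metric.ball 0 1) Ω Γ u₀) :
    ∃ u : ℝ × ℂ → ℂ, IsLeray Ω Γ T u₀ u ∧ ∀ x ∈ closure Ω, u (T, x) = 0 := by
  obtain ⟨F', O, r, hr, hC, v₀, w₀, hd, h0⟩ := hD.exists_data hu
  obtain ⟨a, a1, a2, a3⟩ := weightAll F' O Ω Γ r hr hC
  exact hC.final_L2 hr hT a1 a2 a3 hd h0 (hu.1.mono_measure (Measure.restrict_mono hD.sub le_rfl))

/-- Admissible data on the plane are admissible on `D`. -/
theorem IsAdm.isAdL {D Ω Γ : Set ℂ} {u₀ : ℂ → ℂ} (h : IsAdm Ω Γ u₀) : IsAdL D Ω Γ u₀ := by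
  obtain ⟨h1, h2⟩ := h
  refine ⟨h1.mono_measure Measure.restrict_le_self, fun ε hε => ?_⟩
  obtain ⟨Ψ, p1, p2, p3, p4⟩ := h2 ε hε
  refine ⟨Ψ, p1, p3, le_trans ?_ p4⟩
  have hm : MemLp (gradPerp Ψ) 2 volume := by
    have hc : HasCompactSupport (gradPerp Ψ) := by
      refine p2.fderiv (𝕜 := ℝ) |>.comp_left (g := fun L : ℂ →L[ℝ] ℝ => (⟨L Complex.I, -L 1⟩ : ℂ)) ?_
      apply Complex.ext <;> simp
    exact (gradPerp_cont p1).memLp_of_hasCompactSupport hc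
  exact setIntegral_le_integral ((h1.sub hm).integrable_norm_pow (by norm_num)) (Eventually.of_forall fun x => by positivity)

/-- **Theorem C** for data in the class `IsAdm`. -/
theorem adm_main {F : ℂ → ℂ} {Ω Γ : Set ℂ} (hD : IsDom F Ω Γ) {T : ℝ} (hT : 0 < T) {u₀ : ℂ → ℂ}
    (hu : IsAdm Ω Γ u₀) : ∃ u : ℝ × ℂ → ℂ, IsLeray Ω Γ T u₀ u ∧ ∀ x ∈ closure Ω, u (T, x) = 0 :=
  L2_main hD hT hu.isAdL

end Pool.Agent.Lib.MP_79abb3_an.SC
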