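import Pool.Agent.Lib.MP_79abb3_an.SC.ApPr
import Pool.Agent.Lib.MP_79abb3_an.SC.LaF

/-!
MP_79abb3_an, Theorem C, block (i): regularity of `K` and smoothing of `S(t)` in weighted norms.
-/

set_option autoImplicit false
set_option linter.unusedSectionVars false

open MeasureTheory Set Filter Topology Function
open scoped ENNReal InnerProductSpace

namespace Pool.Agent.Lib.MP_79abb3_an.SC

open Pool.Agent.Lib.MP_79abb3_an.P25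

section
variable {H : ℝ} [hH : Fact (0 < H)]

/-- An operator structure over the standard `T`, `P` on `HH`, with weights `lam`. -/
structure Std (D : OD (HH H)) (ω : ℝ) (lam : ℤ → ℝ) (Cl L Ca : ℝ) : Prop where
  T : D.T = TT ω
  P : D.P = PP ω
  one : ∀ n, 1 ≤ lam n
  Cl0 : 0 ≤ Cl
  Ca0 : 0 ≤ Ca
  le : ∀ n : ℤ, lam n ≤ Cl * (1 + |ω * n|)
  lip : ∀ n j : ℤ, |lam n - lam j| ≤ L * |((n - j : ℤ) : ℝ)|
  comm : ∀ (w : ℤ → ℝ) (C : ℝ), (∀ n, |w n| ≤ C) →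
    (∀ n j : ℤ, |w n - w j| ≤ L * |((n - j : ℤ) : ℝ)|) →
    ∀ x : HH H, ‖wd w (D.a x) - D.a (wd w x)‖ ≤ Ca * ‖x‖
  commb : ∀ (w : ℤ → ℝ) (C : ℝ), (∀ n, |w n| ≤ C) →
    (∀ n j : ℤ, |w n - w j| ≤ L * |((n - j : ℤ) : ℝ)|) →
    ∀ x : HH H, ‖wd w (D.b x) - D.b (wd w x)‖ ≤ Ca * ‖x‖

variable {D : OD (HH H)} {ω : ℝ} {lam : ℤ → ℝ} {Cl L Ca : ℝ}

theorem Std.wt (h : Std D ω lam Cl L Ca) {w : ℤ → ℝ} {C : ℝ} (hw : ∀ n, |w n| ≤ C) :
    D.Wt (wd w) where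
  adj := inner_wd hw
  T x := by rw [h.T]; exact wd_TT hw ω x
  P x := by rw [h.P]; exact wd_PP hw ω x

theorem norm_wd_sum {w : ℤ → ℝ} {C : ℝ} (hw : ∀ n, |w n| ≤ C) (x : HH H) (S : Finset ℤ) :
    ∑ n ∈ S, (|w n| * ‖x n‖) ^ 2 ≤ ‖wd w x‖ ^ 2 := by
  have h1 := l2_sum_le (wd w x) S
  refine le_trans (le_of_eq (Finset.sum_congr rfl fun n _ => ?_)) h1
  rw [wd_apply hw, norm_smul, Complex.norm_real, Real.norm_eq_abs]

theorem trunc_bd (h1 : ∀ n, 1 ≤ lam n) {M : ℝ} (hM : 1 ≤ M) (n : ℤ) : |min (lam n) M| ≤ M := by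
  rw [abs_of_nonneg (le_min (by linarith [h1 n]) (by linarith))]; exact min_le_right _ _

theorem trunc_lip {L : ℝ} (hl : ∀ n j : ℤ, |lam n - lam j| ≤ L * |((n - j : ℤ) : ℝ)|) (M : ℝ)
    (n j : ℤ) : |min (lam n) M - min (lam j) M| ≤ L * |((n - j : ℤ) : ℝ)| := by
  refine le_trans ?_ (hl n j)
  have := abs_min_sub_min_le_max (lam n) M (lam j) M
  rw [sub_self, abs_zero, max_eq_left (abs_nonneg _)] at this
  exact this

/-- Weighted norm from the truncated weights. -/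
theorem S2_of_trunc (h1 : ∀ n, 1 ≤ lam n) {y : HH H} {B : ℝ} (hB0 : 0 ≤ B)
    (hB : ∀ M : ℝ, 1 ≤ M → ‖wd (fun n => min (lam n) M) y‖ ≤ B) :
    S2 lam 1 y ∧ N2 lam 1 y ≤ B := by
  have hS : ∀ S : Finset ℤ, ∑ n ∈ S, (lam n ^ (1:ℝ) * ‖y n‖) ^ 2 ≤ B ^ 2 := by
    intro S
    obtain ⟨M, hM⟩ : ∃ M : ℝ, 1 ≤ M ∧ ∀ n ∈ S, lam n ≤ M := by
      classical
      refine ⟨1 + ∑ n ∈ S, lam n, ?_, fun n hn => ?_⟩
      · have : 0 ≤ ∑ n ∈ S, lam n := Finset.sum_nonneg fun n _ => by linarith [h1 n]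
        linarith
      · have := Finset.single_le_sum (f := lam) (fun i _ => by linarith [h1 i]) hn
        linarith
    have hw := trunc_bd h1 hM.1
    calc ∑ n ∈ S, (lam n ^ (1:ℝ) * ‖y n‖) ^ 2 = ∑ n ∈ S, (|min (lam n) M| * ‖y n‖) ^ 2 := by
          refine Finset.sum_congr rfl fun n hn => ?_
          rw [Real.rpow_one, min_eq_left (hM.2 n hn), abs_of_nonneg (by linarith [h1 n])]
      _ ≤ ‖wd (fun n => min (lam n) M) y‖ ^ 2 := norm_wd_sum hw _ S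
      _ ≤ B ^ 2 := pow_le_pow_left₀ (norm_nonneg _) (hB M hM.1) 2
  have hsum : S2 lam 1 y := summable_of_sum_le (fun n => sq_nonneg _) hS
  refine ⟨hsum, ?_⟩
  unfold N2
  exact Real.sqrt_le_iff.2 ⟨hB0, hsum.tsum_le_of_sum_le hS⟩

theorem norm_trunc_le (h1 : ∀ n, 1 ≤ lam n) {y : HH H} (hy : S2 lam 1 y) {M : ℝ} (hM : 1 ≤ M) :
    ‖wd (fun n => min (lam n) M) y‖ ≤ N2 lam 1 y := by
  have hw := trunc_bd h1 hM
  have h0 := N2_nonneg (lam := lam) 1 y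
  refine (pow_le_pow_iff_left₀ (norm_nonneg _) h0 two_ne_zero).1 ?_
  rw [N2_sq, l2_norm_sq]
  refine (l2_summable _).tsum_le_tsum (fun n => ?_) hy
  rw [wd_apply hw, norm_smul, Complex.norm_real, Real.norm_eq_abs, Real.rpow_one]
  refine pow_le_pow_left₀ (by positivity) (mul_le_mul_of_nonneg_right ?_ (norm_nonneg _)) 2
  rw [abs_of_nonneg (le_min (by linarith [h1 n]) (by linarith))]
  exact min_le_left _ _

/-- Regularity: `|Λ G y| ≤ C |y|`. -/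
theorem Std.reg1 (h : Std D ω lam Cl L Ca) (y : HH H) :
    S2 lam 1 (D.G y : HH H) ∧ N2 lam 1 (D.G y : HH H) ≤
      D.c₀⁻¹ * (Cl * H + Cl) * (‖D.b‖) * ‖y‖ + D.c₀⁻¹ * Ca * ‖D.G y‖ := by
  have hc := D.c₀_pos
  have hH0 := hH.out
  set B := D.c₀⁻¹ * (Cl * H + Cl) * (‖D.b‖) * ‖y‖ + D.c₀⁻¹ * Ca * ‖D.G y‖ with hB
  have hCl := h.Cl0
  have hCa := h.Ca0
  have hB0 : 0 ≤ B := by positivity
  refine S2_of_trunc h.one hB0 fun M hM => ?_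
  have hw := trunc_bd h.one hM
  have hwt := h.wt hw
  have h1 := hwt.reg (CW := Cl * H + Cl) (Ca := Ca) (fun x => by
    rw [h.T]
    exact norm_wd_TT_le (C₀ := Cl) (C₁ := Cl) hw hCl hCl (fun n => by
      rw [abs_of_nonneg (le_min (by linarith [h.one n]) (by linarith))]
      refine (min_le_left _ _).trans ((h.le n).trans (le_of_eq (by ring)))) x)
    (h.comm _ M hw (trunc_lip h.lip M)) (D.b y)
  have h3 : D.c₀ * ‖wd (fun n => min (lam n) M) (D.G y)‖ ≤ D.c₀ * B := by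
    refine h1.trans ?_
    have h4 : D.R (D.E (D.b y)) = D.G y := rfl
    rw [h4]
    have h5 := D.b.le_opNorm y
    have h6 : D.c₀ * B = (Cl * H + Cl) * (‖D.b‖ * ‖y‖) + Ca * ‖D.G y‖ := by
      rw [hB]; field_simp
    rw [h6]
    gcongr
  exact le_of_mul_le_mul_left h3 hc

/-- `|Λ b x| ≤ |b| |Λ x| + C |x|` -/
theorem Std.regb (h : Std D ω lam Cl L Ca) {x : HH H} (hx : S2 lam 1 x) :
    S2 lam 1 (D.b x : HH H) ∧ N2 lam 1 (D.b x : HH H) ≤ ‖D.b‖ * N2 lam 1 x + Ca * ‖x‖ := by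
  have hCa := h.Ca0
  have h0 := N2_nonneg (lam := lam) 1 x
  refine S2_of_trunc h.one (by positivity) fun M hM => ?_
  have hw := trunc_bd h.one hM
  have h1 := h.commb _ M hw (trunc_lip h.lip M) x
  have h2 := (D.b.le_opNorm (wd (fun n => min (lam n) M) x)).trans
    (mul_le_mul_of_nonneg_left (norm_trunc_le h.one hx hM) (norm_nonneg D.b))
  have h3 := norm_add_le (wd (fun n => min (lam n) M) (D.b x) - D.b (wd (fun n => min (lam n) M) x))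
    (D.b (wd (fun n => min (lam n) M) x))
  rw [sub_add_cancel] at h3
  linarith

/-- `|Λ a x| ≤ |a| |Λ x| + C |x|` -/
theorem Std.rega (h : Std D ω lam Cl L Ca) {x : HH H} (hx : S2 lam 1 x) :
    S2 lam 1 (D.a x : HH H) ∧ N2 lam 1 (D.a x : HH H) ≤ ‖D.a‖ * N2 lam 1 x + Ca * ‖x‖ := by
  have hCa := h.Ca0
  have h0 := N2_nonneg (lam := lam) 1 x
  refine S2_of_trunc h.one (by positivity) fun M hM => ?_
  have hw := trunc_bd h.one hM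
  have h1 := h.comm _ M hw (trunc_lip h.lip M) x
  have h2 := (D.a.le_opNorm (wd (fun n => min (lam n) M) x)).trans
    (mul_le_mul_of_nonneg_left (norm_trunc_le h.one hx hM) (norm_nonneg D.a))
  have h3 := norm_add_le (wd (fun n => min (lam n) M) (D.a x) - D.a (wd (fun n => min (lam n) M) x))
    (D.a (wd (fun n => min (lam n) M) x))
  rw [sub_add_cancel] at h3
  linarith

theorem Std.norm_G (D : OD (HH H)) (y : HH H) : ‖D.G y‖ ≤ ‖D.G‖ * ‖y‖ := D.G.le_opNorm y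

/-- `|Λ G y| ≤ C |y|` with one constant. -/
theorem Std.reg1' (h : Std D ω lam Cl L Ca) : ∃ C, 0 ≤ C ∧ ∀ y : HH H,
    S2 lam 1 (D.G y : HH H) ∧ N2 lam 1 (D.G y : HH H) ≤ C * ‖y‖ := by
  have hc := D.c₀_pos
  have hH0 := hH.out
  have hCl := h.Cl0
  have hCa := h.Ca0
  refine ⟨D.c₀⁻¹ * (Cl * H + Cl) * (‖D.b‖) + D.c₀⁻¹ * Ca * ‖D.G‖, by positivity, fun y => ?_⟩
  refine ⟨(h.reg1 y).1, (h.reg1 y).2.trans ?_⟩
  have h1 := D.G.le_opNorm y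
  calc _ ≤ D.c₀⁻¹ * (Cl * H + Cl) * (‖D.b‖) * ‖y‖ + D.c₀⁻¹ * Ca * (‖D.G‖ * ‖y‖) := by gcongr
    _ = _ := by ring

/-! ### Weighted norms on `HH` -/

theorem S2_zero_HH (x : HH H) (lam : ℤ → ℝ) : S2 lam 0 x ∧ N2 lam 0 x = ‖x‖ := by
  have h1 : ∀ n, (lam n ^ (0:ℝ) * ‖x n‖) ^ 2 = ‖x n‖ ^ 2 := fun n => by rw [Real.rpow_zero, one_mul]
  refine ⟨?_, ?_⟩
  · unfold S2; simp only [h1]; exact l2_summable x
  · unfold N2; simp only [h1]; rw [← l2_norm_sq, Real.sqrt_sq (norm_nonneg _)]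

theorem S2_neg_HH (h1 : ∀ n, 1 ≤ lam n) {s : ℝ} (hs : 0 ≤ s) (x : HH H) :
    S2 lam (-s) x ∧ N2 lam (-s) x ≤ ‖x‖ := by
  have := S2_mono h1 (neg_nonpos.2 hs) (S2_zero_HH x lam).1
  rwa [(S2_zero_HH x lam).2] at this

theorem rpow_neg_bd (h1 : ∀ n, 1 ≤ lam n) {s : ℝ} (hs : 0 ≤ s) (n : ℤ) : |lam n ^ (-s)| ≤ 1 := by
  have l0 : 0 < lam n := by linarith [h1 n]
  rw [abs_of_nonneg (Real.rpow_nonneg l0.le _)]
  exact Real.rpow_le_one_of_one_le_of_nonpos (h1 n) (neg_nonpos.2 hs)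

theorem N2_eq_wd (h1 : ∀ n, 1 ≤ lam n) {s : ℝ} (hs : 0 ≤ s) (x : HH H) :
    N2 lam (-s) x = ‖wd (fun n => lam n ^ (-s)) x‖ := by
  have h2 : ∀ n, (lam n ^ (-s) * ‖x n‖) ^ 2 = ‖wd (fun n => lam n ^ (-s)) x n‖ ^ 2 := fun n => by
    rw [wd_apply (rpow_neg_bd h1 hs), norm_smul, Complex.norm_real, Real.norm_eq_abs,
      abs_of_nonneg (Real.rpow_nonneg (by linarith [h1 n]) _)]
  unfold N2
  simp only [h2]
  rw [← l2_norm_sq, Real.sqrt_sq (norm_nonneg _)]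

/-- Interpolation `N_s ≤ μ^s N_0 + μ^{s-1} N_1`. -/
theorem N2_interp {E : Type} [NormedAddCommGroup E] (h1 : ∀ n, 1 ≤ lam n) {x : ℤ → E}
    (sx : S2 lam 1 x) {s μ : ℝ} (hs0 : 0 ≤ s) (hs1 : s ≤ 1) (hμ : 0 < μ) :
    S2 lam s x ∧ N2 lam s x ≤ 2 * (μ ^ s * N2 lam 0 x + μ ^ (s - 1) * N2 lam 1 x) := by
  have l0 : ∀ n, 0 < lam n := fun n => by linarith [h1 n]
  have sx0 := (S2_mono h1 zero_le_one sx).1
  have sxs := (S2_mono h1 hs1 sx).1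
  refine ⟨sxs, ?_⟩
  have key : ∀ n, (lam n ^ s * ‖x n‖) ^ 2 ≤
      2 * (μ ^ s) ^ 2 * (lam n ^ (0:ℝ) * ‖x n‖) ^ 2 +
        2 * (μ ^ (s - 1)) ^ 2 * (lam n ^ (1:ℝ) * ‖x n‖) ^ 2 := by
    intro n
    have h2 : lam n ^ s ≤ μ ^ s + μ ^ (s - 1) * lam n := by
      rcases le_total (lam n) μ with h | h
      · have h3 := Real.rpow_le_rpow (l0 n).le h hs0
        have h4 : 0 ≤ μ ^ (s - 1) * lam n := mul_nonneg (Real.rpow_nonneg hμ.le _) (l0 n).le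
        linarith
      · have h3 : lam n ^ (s - 1) ≤ μ ^ (s - 1) :=
          Real.rpow_le_rpow_of_nonpos hμ h (by linarith)
        have h4 : lam n ^ s = lam n ^ (s - 1) * lam n := by
          rw [← Real.rpow_add_one (l0 n).ne']; congr 1; ring
        have h5 : 0 ≤ μ ^ s := Real.rpow_nonneg hμ.le _
        rw [h4]
        have := mul_le_mul_of_nonneg_right h3 (l0 n).le
        linarith
    rw [Real.rpow_zero, Real.rpow_one, one_mul]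
    have h3 : lam n ^ s * ‖x n‖ ≤ μ ^ s * ‖x n‖ + μ ^ (s - 1) * (lam n * ‖x n‖) := by
      have := mul_le_mul_of_nonneg_right h2 (norm_nonneg (x n))
      linarith
    have h4 : 0 ≤ lam n ^ s * ‖x n‖ := mul_nonneg (Real.rpow_nonneg (l0 n).le _) (norm_nonneg _)
    have h5 := pow_le_pow_left₀ h4 h3 2
    nlinarith [sq_nonneg (μ ^ s * ‖x n‖ - μ ^ (s - 1) * (lam n * ‖x n‖))]
  have hA : 0 ≤ μ ^ s := Real.rpow_nonneg hμ.le _
  have hB : 0 ≤ μ ^ (s - 1) := Real.rpow_nonneg hμ.le _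
  have h0 := N2_nonneg (lam := lam) 0 x
  have h1' := N2_nonneg (lam := lam) 1 x
  have hsq : N2 lam s x ^ 2 ≤ (2 * (μ ^ s * N2 lam 0 x + μ ^ (s - 1) * N2 lam 1 x)) ^ 2 := by
    calc N2 lam s x ^ 2 = ∑' n, (lam n ^ s * ‖x n‖) ^ 2 := N2_sq s x
      _ ≤ ∑' n, (2 * (μ ^ s) ^ 2 * (lam n ^ (0:ℝ) * ‖x n‖) ^ 2 +
            2 * (μ ^ (s - 1)) ^ 2 * (lam n ^ (1:ℝ) * ‖x n‖) ^ 2) :=
          sxs.tsum_le_tsum key ((sx0.mul_left _).add (sx.mul_left _))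
      _ = 2 * (μ ^ s) ^ 2 * N2 lam 0 x ^ 2 + 2 * (μ ^ (s - 1)) ^ 2 * N2 lam 1 x ^ 2 := by
          rw [(sx0.mul_left _).tsum_add (sx.mul_left _), tsum_mul_left, tsum_mul_left, ← N2_sq,
            ← N2_sq]
      _ ≤ _ := by nlinarith [mul_nonneg (mul_nonneg hA h0) (mul_nonneg hB h1')]
  exact (pow_le_pow_iff_left₀ (N2_nonneg _ _) (by positivity) two_ne_zero).1 hsq

/-- `N_s(TT g)` for `0 ≤ s ≤ 1`. -/
theorem S2_TTs {Cl : ℝ} (h1 : ∀ n, 1 ≤ lam n) (hCl : 0 ≤ Cl) (hle : ∀ n : ℤ, lam n ≤ Cl * (1 + |ω * n|))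
    (g : HH H) : S2 lam 1 (TT ω g : HH H) ∧ N2 lam 1 (TT ω g : HH H) ≤ Cl * (H + 1) * ‖g‖ := by
  have hH0 := hH.out
  have hd : ∀ n, lam n * ‖TT ω g n‖ ≤ Cl * (H + 1) * ‖g n‖ := fun n => by
    have e1 : ‖T2 (ω * n) (g n)‖ ≤ H * ‖g n‖ :=
      ((T2 (ω * n)).le_opNorm _).trans (mul_le_mul_of_nonneg_right (norm_T2_le _) (norm_nonneg _))
    have e2 := norm_kT2_le (ω * n) (g n)
    rw [TT_apply]
    calc lam n * ‖T2 (ω * n) (g n)‖ ≤ Cl * (1 + |ω * n|) * ‖T2 (ω * n) (g n)‖ :=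
          mul_le_mul_of_nonneg_right (hle n) (norm_nonneg _)
      _ = Cl * (‖T2 (ω * n) (g n)‖ + |ω * n| * ‖T2 (ω * n) (g n)‖) := by ring
      _ ≤ Cl * (H * ‖g n‖ + ‖g n‖) := by gcongr
      _ = _ := by ring
  have hsum : ∀ n, (lam n ^ (1:ℝ) * ‖TT ω g n‖) ^ 2 ≤ (Cl * (H + 1)) ^ 2 * ‖g n‖ ^ 2 := fun n => by
    rw [Real.rpow_one, ← mul_pow]
    exact pow_le_pow_left₀ (mul_nonneg (by linarith [h1 n]) (norm_nonneg _)) (hd n) 2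
  have hs : S2 lam 1 (TT ω g : HH H) :=
    Summable.of_nonneg_of_le (fun n => sq_nonneg _) hsum ((l2_summable g).mul_left _)
  refine ⟨hs, ?_⟩
  unfold N2
  refine Real.sqrt_le_iff.2 ⟨by positivity, ?_⟩
  calc ∑' n, (lam n ^ (1:ℝ) * ‖TT ω g n‖) ^ 2 ≤ ∑' n, (Cl * (H + 1)) ^ 2 * ‖g n‖ ^ 2 :=
        hs.tsum_le_tsum hsum ((l2_summable g).mul_left _)
    _ = (Cl * (H + 1) * ‖g‖) ^ 2 := by rw [tsum_mul_left, ← l2_norm_sq]; ring

end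

end Pool.Agent.Lib.MP_79abb3_an.SC
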