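import Pool.Agent.Lib.MP_79abb3_an.SC.ApF
import Pool.Agent.Lib.MP_79abb3_an.SC.LaSmo

/-!
MP_79abb3_an, Theorem C, block (i): multiplication operators on families of continuous functions and
the product rule for `DZ` in sums.
-/

set_option autoImplicit false
set_option linter.unusedSectionVars false

open MeasureTheory Set Filter Topology Function
open scoped ENNReal InnerProductSpace

namespace Pool.Agent.Lib.MP_79abb3_an.SC

open Pool.Agent.Lib.MP_79abb3_an.P25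

section
variable {H : ℝ} [hH : Fact (0 < H)]

/-- `DZ` passes to sums. -/
theorem DZ.hasSum {ι : Type} {F : ι → CI H} {f : ι → Z2 H} {F' : CI H} {f' : Z2 H}
    (h : ∀ j, DZ (F j) (f j)) (hF : HasSum F F') (hf : HasSum f f') : DZ F' f' := by
  intro z hz
  have h1 : HasSum (fun j => ex (F j) z) (ex F' z) := hF.mapL (evC z)
  have h2 : HasSum (fun j => ex (F j) 0) (ex F' 0) := hF.mapL (evC 0)
  have h3 : HasSum (fun j => ex (Pz (f j)) z) (ex (Pz f') z) := hf.mapL ((evC z).comp Pz)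
  have h4 := h2.add h3
  refine h1.unique ?_
  convert h4 using 2 with j
  exact h j z hz

/-- `iota` on families -/
noncomputable def ioL : l2 (CI H) →L[ℂ] HH H := dg (fun _ => iota)

theorem norm_iota_op : ‖(iota : CI H →L[ℂ] Z2 H)‖ ≤ √H :=
  ContinuousLinearMap.opNorm_le_bound _ (Real.sqrt_nonneg _) norm_iota_le

theorem ioL_apply (x : l2 (CI H)) (n : ℤ) : ioL x n = iota (x n) :=
  dg_apply (fun _ => norm_iota_op) x n

/-- Multiplication by the function with coefficients `b`, on families of continuous functions. -/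
noncomputable def cc (b : ℤ → CI H) : l2 (CI H) →L[ℂ] l2 (CI H) :=
  mo (fun n j => ContinuousLinearMap.mul ℂ (CI H) (b (n - j)))

theorem cc_td {b : ℤ → CI H} (hb : Summable fun m => ‖b m‖) :
    TD (fun m => ‖b m‖) (fun n j => ContinuousLinearMap.mul ℂ (CI H) (b (n - j))) := by
  refine ⟨hb, fun n j => ?_⟩
  exact ContinuousLinearMap.opNorm_mul_apply_le ℂ (CI H) (b (n - j))

theorem cc_hasSum {b : ℤ → CI H} (hb : Summable fun m => ‖b m‖) (x : l2 (CI H)) (n : ℤ) :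
    HasSum (fun j => b (n - j) * x j) (cc b x n) := by
  have := mo_hasSum (cc_td hb) x n
  exact this

theorem norm_cc_le {b : ℤ → CI H} (hb : Summable fun m => ‖b m‖) : ‖cc b‖ ≤ ∑' m, ‖b m‖ :=
  norm_mo_le (cc_td hb)

theorem ioL_cc {b : ℤ → CI H} (hb : Summable fun m => ‖b m‖) (x : l2 (CI H)) :
    ioL (cc b x) = cm b (ioL x) := by
  ext1
  funext n
  rw [ioL_apply]
  have h1 : HasSum (fun j => iota (b (n - j) * x j)) (iota (cc b x n)) :=
    (cc_hasSum hb x n).mapL (iota : CI H →L[ℂ] Z2 H)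
  have h2 := cm_hasSum hb (ioL x) n
  refine h1.unique ?_
  convert h2 using 2 with j
  rw [ioL_apply, mz_iota]

/-- Product rule. -/
theorem cc_dz {b b1 : ℤ → CI H} (hb : Summable fun m => ‖b m‖) (hb1 : Summable fun m => ‖b1 m‖)
    (hd : ∀ n, IsD (b n) (b1 n)) {x : l2 (CI H)} {x1 : HH H} (hx : ∀ n, DZ (x n) (x1 n)) (n : ℤ) :
    DZ (cc b x n) ((cm b1 (ioL x) + cm b x1) n) := by
  refine DZ.hasSum (F := fun j => b (n - j) * x j)
    (f := fun j => mz (b1 (n - j)) (ioL x j) + mz (b (n - j)) (x1 j)) (fun j => ?_)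
    (cc_hasSum hb x n) ?_
  · have h1 := (IsD.dz (hd (n - j))).mul (hx j)
    rw [mz_iota, mul_comm (x j), ← mz_iota, ← ioL_apply] at h1
    exact h1
  · exact (cm_hasSum hb1 (ioL x) n).add (cm_hasSum hb x1 n)

/-! ### The representative of `a B V` -/

variable {D : OD (HH H)} {ω : ℝ} {lam : ℤ → ℝ} {Cl L Ca : ℝ}

theorem Std.E (h : Std D ω lam Cl L Ca) : D.E = EE ω := by
  ext1 x
  refine ext_inner_left ℂ fun y => ?_
  rw [← D.adjT, h.T, inner_TT]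

/-- `a B V = E (b g) + c e^{-|k|z}` -/
noncomputable def OD.Zc (D : OD (HH H)) (ω : ℝ) (g : HH H) (n : ℤ) : CI H :=
  Ez (ω * n) (D.b g n) + (⟪(gk (ω * n) : Z2 H), D.a (D.G g) n - E2 (ω * n) (D.b g n)⟫_ℂ *
    ((‖(iota (fe (-|ω * n|)) : Z2 H)‖⁻¹ : ℝ) : ℂ)) • fe (-|ω * n|)

theorem Std.iota_Zc (h : Std D ω lam Cl L Ca) (g : HH H) (n : ℤ) :
    iota (D.Zc ω g n) = D.a (D.G g) n := by
  have h1 : D.P (D.a (D.G g)) = D.P (EE ω (D.b g)) := by
    rw [← h.E]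
    exact D.P_a_R _
  have h2 : P2 (ω * n) (D.a (D.G g) n - E2 (ω * n) (D.b g n)) = 0 := by
    rw [map_sub, ← PP_apply, ← h.P, h1, h.P, PP_apply, EE_apply, sub_self]
  have h3 := P2_range (ω * n) (D.a (D.G g) n - E2 (ω * n) (D.b g n))
  rw [h2, sub_zero] at h3
  unfold OD.Zc
  rw [map_add, map_smul, mul_smul]
  have e : ((‖(iota (fe (-|ω * n|)) : Z2 H)‖⁻¹ : ℝ) : ℂ) • (iota (fe (-|ω * n|)) : Z2 H) =
    gk (ω * n) := rfl
  rw [e, ← h3, ← E2_apply]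
  abel

theorem fe_dz (k : ℝ) : DZ (fe (-|k|) : CI H) (-(((|k| : ℝ) : ℂ) • iota (fe (-|k|)))) := by
  have h1 := IsD.dz (fe_isD (H := H) (-|k|))
  rw [iota_rsmul] at h1
  convert h1 using 1
  push_cast
  rw [neg_smul]

theorem Std.Zc_dz (h : Std D ω lam Cl L Ca) (g : HH H) (n : ℤ) :
    DZ (D.Zc ω g n) (D.b g n - ((|ω * n| : ℝ) : ℂ) • D.a (D.G g) n) := by
  have h0 := h.iota_Zc g n
  obtain ⟨c, hc⟩ : ∃ c : ℂ, D.Zc ω g n = Ez (ω * n) (D.b g n) + c • fe (-|ω * n|) := ⟨_, rfl⟩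
  have h1 := (Ez_dz (ω * n) (D.b g n)).add ((fe_dz (H := H) (ω * n)).smul c)
  rw [← hc] at h1
  convert h1 using 1
  rw [← h0, hc, map_add, map_smul, smul_add, smul_neg, smul_comm c]
  abel

/-- `|k_n| ≤ lam_n` and the bounds of the representative: `|Z| + |Λ Z| + |Z_z| ≤ C |g|`, and in the
sup norm. -/
theorem Std.Zc_bd (h : Std D ω lam Cl L Ca) (hk : ∀ n : ℤ, |ω * n| ≤ lam n) :
    ∃ C, 0 ≤ C ∧ ∀ g : HH H,
      (S2 lam 1 (D.a (D.G g) : HH H) ∧ N2 lam 1 (D.a (D.G g) : HH H) ≤ C * ‖g‖) ∧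
      (∃ z1 : HH H, (∀ n, z1 n = D.b g n - ((|ω * n| : ℝ) : ℂ) • D.a (D.G g) n) ∧ ‖z1‖ ≤ C * ‖g‖) ∧
      (∃ z : l2 (CI H), (∀ n, z n = D.Zc ω g n) ∧ ‖z‖ ≤ C * ‖g‖) := by
  have hH0 := hH.out
  obtain ⟨C1, hC1, h1⟩ := h.reg1'
  have hCa := h.Ca0
  set C2 := ‖D.a‖ * C1 + Ca * ‖D.G‖ with hC2
  have hC20 : 0 ≤ C2 := by positivity
  set C3 := ‖D.b‖ + C2 with hC3
  have hC30 : 0 ≤ C3 := by positivity
  set C4 := √(C2 * (H⁻¹ * C2 + 2 * C3)) with hC4
  have hreg : ∀ g : HH H, S2 lam 1 (D.a (D.G g) : HH H) ∧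
      N2 lam 1 (D.a (D.G g) : HH H) ≤ C2 * ‖g‖ := by
    intro g
    have a1 := h.rega (h1 g).1
    refine ⟨a1.1, a1.2.trans ?_⟩
    have a2 := (h1 g).2
    have a3 := D.G.le_opNorm g
    calc ‖D.a‖ * N2 lam 1 (D.G g : HH H) + Ca * ‖D.G g‖
        ≤ ‖D.a‖ * (C1 * ‖g‖) + Ca * (‖D.G‖ * ‖g‖) := by gcongr
      _ = C2 * ‖g‖ := by rw [hC2]; ring
  refine ⟨C2 + C3 + C4, by positivity, fun g => ?_⟩
  have hg := norm_nonneg g
  have hC4' : 0 ≤ C4 := Real.sqrt_nonneg _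
  have r := hreg g
  -- the derivative
  have s1 : Summable fun n : ℤ => ‖((|ω * n| : ℝ) : ℂ) • D.a (D.G g) n‖ ^ 2 := by
    refine Summable.of_nonneg_of_le (fun n => sq_nonneg _) (fun n => ?_) r.1
    rw [norm_smul, Complex.norm_real, Real.norm_eq_abs, abs_abs, Real.rpow_one]
    exact pow_le_pow_left₀ (by positivity)
      (mul_le_mul_of_nonneg_right (hk n) (norm_nonneg _)) 2
  set w : HH H := mkl2 _ s1 with hw
  have hwn : ‖w‖ ≤ C2 * ‖g‖ := by
    refine le_trans ?_ r.2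
    refine (pow_le_pow_iff_left₀ (norm_nonneg _) (N2_nonneg _ _) two_ne_zero).1 ?_
    rw [N2_sq, l2_norm_sq]
    refine (l2_summable w).tsum_le_tsum (fun n => ?_) r.1
    rw [hw, mkl2_apply, norm_smul, Complex.norm_real, Real.norm_eq_abs, abs_abs, Real.rpow_one]
    exact pow_le_pow_left₀ (by positivity)
      (mul_le_mul_of_nonneg_right (hk n) (norm_nonneg _)) 2
  have hz1 : ‖D.b g - w‖ ≤ C3 * ‖g‖ := by
    have := norm_sub_le (D.b g) w
    have a3 := D.b.le_opNorm g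
    rw [hC3]
    nlinarith
  have z1n : ∀ n, (D.b g - w) n = D.b g n - ((|ω * n| : ℝ) : ℂ) • D.a (D.G g) n := fun n => by
    rw [lp.coeFn_sub, Pi.sub_apply, hw, mkl2_apply]
  have hC23 : 0 ≤ C2 + C3 + C4 := by positivity
  refine ⟨⟨r.1, r.2.trans (mul_le_mul_of_nonneg_right (by linarith) hg)⟩,
    ⟨D.b g - w, z1n, hz1.trans (mul_le_mul_of_nonneg_right (by linarith) hg)⟩, ?_⟩
  -- sup norms
  have e1 : io (D.Zc ω g) = fun n => D.a (D.G g) n := by
    funext n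
    rw [io_apply, h.iota_Zc]
  have z0 := S2_zero_HH (D.a (D.G g)) lam
  have z1 := S2_zero_HH (D.b g - w) lam
  have hN0 : N2 lam 0 (D.a (D.G g) : HH H) ≤ C2 * ‖g‖ :=
    (S2_mono h.one zero_le_one r.1).2.trans r.2
  have ag := agmon_fam (lam := lam) h.one (s := 0) (F := D.Zc ω g) (f := fun n => (D.b g - w) n)
    (fun n => by rw [z1n]; exact h.Zc_dz g n)
    (by rw [mul_zero, e1]; exact z0.1) (by rw [e1]; exact z0.1) z1.1
  rw [mul_zero, e1] at ag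
  have sz : Summable fun n => ‖D.Zc ω g n‖ ^ 2 := by
    have := ag.1
    unfold S2 at this
    simpa using this
  refine ⟨mkl2 _ sz, fun n => rfl, ?_⟩
  have hn : ‖mkl2 (D.Zc ω g) sz‖ ^ 2 = N2 lam 0 (D.Zc ω g) ^ 2 := by
    rw [N2_sq, norm_sq_mkl2]
    refine tsum_congr fun n => ?_
    rw [Real.rpow_zero, one_mul]
  have p0 := N2_nonneg (lam := lam) 0 (D.a (D.G g) : HH H)
  have hb : ‖mkl2 (D.Zc ω g) sz‖ ^ 2 ≤ (C4 * ‖g‖) ^ 2 := by
    rw [hn]
    refine ag.2.trans ?_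
    have a1 : N2 lam 0 (fun n => (D.b g - w) n) ≤ C3 * ‖g‖ := by
      have : N2 lam 0 (fun n => (D.b g - w) n) = ‖D.b g - w‖ := z1.2
      rw [this]; exact hz1
    have a2 : (C4 * ‖g‖) ^ 2 = (C2 * ‖g‖) * (H⁻¹ * (C2 * ‖g‖) + 2 * (C3 * ‖g‖)) := by
      rw [mul_pow, hC4, Real.sq_sqrt (by positivity)]
      ring
    rw [a2]
    have b0 := N2_nonneg (lam := lam) 0 (fun n => (D.b g - w) n)
    gcongr
  have hfin := (abs_le.1 (abs_le_of_sq_le_sq hb (by positivity))).2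
  exact hfin.trans (mul_le_mul_of_nonneg_right (by linarith) hg)

end

end Pool.Agent.Lib.MP_79abb3_an.SC
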