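import Pool.Agent.Lib.MP_79abb3_an.SC.LaSmo
import Pool.Agent.Lib.MP_79abb3_an.SC.BgDef

/-!
MP_79abb3_an, Theorem C, block (i): smoothing estimates of `S(t)` in weighted norms
(`N2 lam s`, `-1 ≤ s ≤ 1`), for the two operators `ODa`, `ODb`.
-/

set_option autoImplicit false
set_option linter.unusedSectionVars false

open MeasureTheory Set Filter Topology Function
open scoped ENNReal InnerProductSpace

namespace Pool.Agent.Lib.MP_79abb3_an.SC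

open Pool.Agent.Lib.MP_79abb3_an.P25

section
variable {H : ℝ} [hH : Fact (0 < H)]
variable {D : OD (HH H)} {ω : ℝ} {lam : ℤ → ℝ} {Cl L Ca : ℝ}

/-- `|⟪x, y⟫| ≤ |Λ^{-s} x| |Λ^s y|` -/
theorem inner_le_N2 (h1 : ∀ n, 1 ≤ lam n) {s : ℝ} {x y : HH H} (hx : S2 lam (-s) x)
    (hy : S2 lam s y) : ‖⟪x, y⟫_ℂ‖ ≤ N2 lam (-s) x * N2 lam s y := by
  have l0 : ∀ n, 0 < lam n := fun n => by linarith [h1 n]
  have px : ∀ n, 0 ≤ lam n ^ (-s) * ‖x n‖ := fun n =>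
    mul_nonneg (Real.rpow_nonneg (l0 n).le _) (norm_nonneg _)
  have py : ∀ n, 0 ≤ lam n ^ s * ‖y n‖ := fun n =>
    mul_nonneg (Real.rpow_nonneg (l0 n).le _) (norm_nonneg _)
  have h2 := cs_tsum px py hx hy
  have h3 : ∀ n, lam n ^ (-s) * ‖x n‖ * (lam n ^ s * ‖y n‖) = ‖x n‖ * ‖y n‖ := fun n => by
    rw [Real.rpow_neg (l0 n).le]
    have := Real.rpow_pos_of_pos (l0 n) s
    field_simp
  simp only [h3] at h2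
  have h4 : HasSum (fun n => ⟪x n, y n⟫_ℂ) ⟪x, y⟫_ℂ := lp.hasSum_inner x y
  rw [← h4.tsum_eq]
  have h5 : ∀ n, ‖⟪x n, y n⟫_ℂ‖ ≤ ‖x n‖ * ‖y n‖ := fun n => norm_inner_le_norm _ _
  have h6 : Summable fun n => ‖⟪x n, y n⟫_ℂ‖ :=
    Summable.of_nonneg_of_le (fun n => norm_nonneg _) h5 h2.1
  exact (norm_tsum_le_tsum_norm h6).trans ((h6.tsum_le_tsum h5 h2.1).trans h2.2)

theorem rpow_half_eq {τ : ℝ} (hτ : 0 < τ) (s : ℝ) : (τ ^ (-(1 / 2 : ℝ))) ^ s = τ ^ (-(s / 2)) := by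
  rw [← Real.rpow_mul hτ.le]; congr 1; ring

theorem one_le_rpow_neg {τ s : ℝ} (hτ : 0 < τ) (h1 : τ ≤ 1) (hs : 0 ≤ s) : 1 ≤ τ ^ (-s) :=
  Real.one_le_rpow_of_pos_of_le_one_of_nonpos hτ h1 (by linarith)

/-- Interpolation at the time scale: `N_0 ≤ C τ^{-α}`, `N_1 ≤ C τ^{-α-1/2}` give
`N_s ≤ 4 C τ^{-α-s/2}`. -/
theorem N2_scale {E : Type} [NormedAddCommGroup E] (h1 : ∀ n, 1 ≤ lam n) {x : ℤ → E}
    (sx : S2 lam 1 x) {τ α C : ℝ} (hτ : 0 < τ) (h0 : N2 lam 0 x ≤ C * τ ^ (-α))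
    (h1' : N2 lam 1 x ≤ C * τ ^ (-(α + 1 / 2))) {s : ℝ} (hs0 : 0 ≤ s) (hs1 : s ≤ 1) :
    S2 lam s x ∧ N2 lam s x ≤ 4 * C * τ ^ (-(α + s / 2)) := by
  have hμ : 0 < τ ^ (-(1 / 2 : ℝ)) := Real.rpow_pos_of_pos hτ _
  have h2 := N2_interp h1 sx hs0 hs1 hμ
  refine ⟨h2.1, h2.2.trans ?_⟩
  have e1 : (τ ^ (-(1 / 2 : ℝ))) ^ s * τ ^ (-α) = τ ^ (-(α + s / 2)) := by
    rw [rpow_half_eq hτ, ← Real.rpow_add hτ]; congr 1; ring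
  have e2 : (τ ^ (-(1 / 2 : ℝ))) ^ (s - 1) * τ ^ (-(α + 1 / 2)) = τ ^ (-(α + s / 2)) := by
    rw [rpow_half_eq hτ, ← Real.rpow_add hτ]; congr 1; ring
  have m1 : 0 ≤ (τ ^ (-(1 / 2 : ℝ))) ^ s := Real.rpow_nonneg hμ.le _
  have m2 : 0 ≤ (τ ^ (-(1 / 2 : ℝ))) ^ (s - 1) := Real.rpow_nonneg hμ.le _
  have b1 := mul_le_mul_of_nonneg_left h0 m1
  have b2 := mul_le_mul_of_nonneg_left h1' m2
  calc 2 * ((τ ^ (-(1 / 2 : ℝ))) ^ s * N2 lam 0 x + (τ ^ (-(1 / 2 : ℝ))) ^ (s - 1) * N2 lam 1 x)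
      ≤ 2 * ((τ ^ (-(1 / 2 : ℝ))) ^ s * (C * τ ^ (-α)) +
          (τ ^ (-(1 / 2 : ℝ))) ^ (s - 1) * (C * τ ^ (-(α + 1 / 2)))) := by linarith
    _ = 2 * C * ((τ ^ (-(1 / 2 : ℝ))) ^ s * τ ^ (-α)) +
          2 * C * ((τ ^ (-(1 / 2 : ℝ))) ^ (s - 1) * τ ^ (-(α + 1 / 2))) := by ring
    _ = _ := by rw [e1, e2]; ring

theorem sm_HS_norm {K : HH H →L[ℂ] HH H} (hK : 0 ≤ K) {τ : ℝ} (hτ : 0 < τ) (y : HH H) :
    ‖HS K τ y‖ ≤ τ ^ (-(1 / 2 : ℝ)) * ‖y‖ := by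
  have h := (HS K τ).le_of_opNorm_le (HS_norm hK hτ) y
  rwa [Real.sqrt_eq_rpow, ← Real.rpow_neg hτ.le] at h

theorem sm_AS_norm {K : HH H →L[ℂ] HH H} (hK : 0 ≤ K) {τ : ℝ} (hτ : 0 < τ) (y : HH H) :
    ‖AS K τ y‖ ≤ τ ^ (-(1 : ℝ)) * ‖y‖ := by
  have h := (AS K τ).le_of_opNorm_le (AS_norm hK hτ) y
  rwa [← Real.rpow_neg_one] at h

/-- `|Λ K^{1/2} x| ≤ C |x|` -/
theorem Std.Kh1 (h : Std D ω lam Cl L Ca) : ∃ C, 0 ≤ C ∧ ∀ x : HH H,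
    S2 lam 1 (Kh D.K x : HH H) ∧ N2 lam 1 (Kh D.K x : HH H) ≤ C * ‖x‖ := by
  have hH0 := hH.out
  have hCl := h.Cl0
  have hCa := h.Ca0
  have hc := D.c₀_pos
  refine ⟨‖D.b‖ * (Cl * (H + 1) * (√D.c₀)⁻¹) + Ca * (H * (√D.c₀)⁻¹), by positivity, fun x => ?_⟩
  have hQ := D.isKh.norm_Q_le x
  have e : Kh D.K x = D.b (TT ω (D.Q (Kh D.K) x)) := by rw [← h.T, D.isKh.bTQ]
  have h1 := S2_TTs h.one hCl h.le (D.Q (Kh D.K) x)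
  have h2 := h.regb h1.1
  rw [e]
  refine ⟨h2.1, h2.2.trans ?_⟩
  have h3 : ‖TT ω (D.Q (Kh D.K) x)‖ ≤ H * ((√D.c₀)⁻¹ * ‖x‖) :=
    ((TT ω).le_of_opNorm_le (norm_TT_le ω) _).trans (by gcongr)
  have h4 : N2 lam 1 (TT ω (D.Q (Kh D.K) x) : HH H) ≤ Cl * (H + 1) * ((√D.c₀)⁻¹ * ‖x‖) :=
    h1.2.trans (by gcongr)
  calc ‖D.b‖ * N2 lam 1 (TT ω (D.Q (Kh D.K) x) : HH H) + Ca * ‖TT ω (D.Q (Kh D.K) x)‖
      ≤ ‖D.b‖ * (Cl * (H + 1) * ((√D.c₀)⁻¹ * ‖x‖)) + Ca * (H * ((√D.c₀)⁻¹ * ‖x‖)) := by gcongr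
    _ = _ := by ring

/-- `|Λ^s S(τ) y| ≤ C τ^{-s/2} |y|` -/
theorem Std.Sg_up (h : Std D ω lam Cl L Ca) : ∃ C, 0 ≤ C ∧ ∀ τ, 0 < τ → τ ≤ 1 → ∀ s, 0 ≤ s →
    s ≤ 1 → ∀ y : HH H, S2 lam s (Sg D.K τ y : HH H) ∧
      N2 lam s (Sg D.K τ y : HH H) ≤ C * τ ^ (-(s / 2)) * ‖y‖ := by
  obtain ⟨C, hC, hK1⟩ := h.Kh1
  have hK := D.K_nonneg
  refine ⟨4 * (C + 1), by positivity, fun τ h0 h1 s s0 s1 y => ?_⟩
  have e : Sg D.K τ y = Kh D.K (HS D.K τ y) := by rw [← Kh_HS hK h0]; rfl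
  have h2 := hK1 (HS D.K τ y)
  rw [← e] at h2
  have h3 := sm_HS_norm hK h0 y
  have h4 := N2_scale (C := (C + 1) * ‖y‖) (α := 0) h.one h2.1 h0 (by
    rw [(S2_zero_HH _ lam).2, neg_zero, Real.rpow_zero, mul_one]
    refine (Sg_norm_apply hK τ y).trans ?_
    nlinarith [norm_nonneg y]) (by
    rw [zero_add]
    refine h2.2.trans ?_
    have h5 : 0 ≤ τ ^ (-(1 / 2 : ℝ)) := Real.rpow_nonneg h0.le _
    calc C * ‖HS D.K τ y‖ ≤ C * (τ ^ (-(1 / 2 : ℝ)) * ‖y‖) := by gcongr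
      _ ≤ (C + 1) * (τ ^ (-(1 / 2 : ℝ)) * ‖y‖) := by
          have := mul_nonneg h5 (norm_nonneg y)
          nlinarith
      _ = _ := by ring) s0 s1
  refine ⟨h4.1, h4.2.trans (le_of_eq ?_)⟩
  rw [zero_add]; ring

/-- `|S(τ) ψ| ≤ C τ^{-s/2} |Λ^{-s} ψ|` -/
theorem Std.Sg_neg (h : Std D ω lam Cl L Ca) : ∃ C, 0 ≤ C ∧ ∀ τ, 0 < τ → τ ≤ 1 → ∀ s, 0 ≤ s →
    s ≤ 1 → ∀ ψ : HH H, ‖Sg D.K τ ψ‖ ≤ C * τ ^ (-(s / 2)) * N2 lam (-s) ψ := by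
  obtain ⟨C, hC, hS⟩ := h.Sg_up
  refine ⟨C, hC, fun τ h0 h1 s s0 s1 ψ => ?_⟩
  have h2 := hS τ h0 h1 s s0 s1 (Sg D.K τ ψ)
  have h3 := inner_le_N2 h.one (S2_neg_HH h.one s0 ψ).1 h2.1
  rw [← Sg_inner, inner_self_eq_norm_sq_to_K] at h3
  have h4 : ‖Sg D.K τ ψ‖ ^ 2 ≤ N2 lam (-s) ψ * N2 lam s (Sg D.K τ (Sg D.K τ ψ) : HH H) := by
    refine le_trans (le_of_eq ?_) h3
    norm_cast
    rw [abs_of_nonneg (sq_nonneg _)]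
  have hN := N2_nonneg (lam := lam) (-s) ψ
  have h5 := mul_le_mul_of_nonneg_left h2.2 hN
  rcases eq_or_lt_of_le (norm_nonneg (Sg D.K τ ψ)) with h6 | h6
  · rw [← h6]
    have := Real.rpow_nonneg h0.le (-(s / 2))
    positivity
  · refine le_of_mul_le_mul_right ?_ h6
    nlinarith

theorem sm_half_rpow {τ a : ℝ} (h0 : 0 < τ) (ha : a ≤ 2) : (τ / 2) ^ (-a) ≤ 4 * τ ^ (-a) := by
  rw [Real.div_rpow h0.le (by norm_num), div_eq_mul_inv, ← Real.rpow_neg (by norm_num), neg_neg,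
    mul_comm]
  refine mul_le_mul_of_nonneg_right ?_ (Real.rpow_nonneg h0.le _)
  calc (2:ℝ) ^ a ≤ 2 ^ (2:ℝ) := Real.rpow_le_rpow_of_exponent_le (by norm_num) ha
    _ = 4 := by norm_num

/-- The estimate `|Λ^s X(τ) ψ| ≤ C τ^{-α-(s+r)/2} |Λ^{-r} ψ|`, `0 ≤ s, r ≤ 1`, `0 < τ ≤ 1`. -/
def Smb (lam : ℤ → ℝ) (X : ℝ → HH H →L[ℂ] HH H) (α : ℝ) : Prop :=
  ∃ C, 0 ≤ C ∧ ∀ τ, 0 < τ → τ ≤ 1 → ∀ s, 0 ≤ s → s ≤ 1 → ∀ r, 0 ≤ r → r ≤ 1 → ∀ ψ : HH H,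
    S2 lam s (X τ ψ : HH H) ∧
      N2 lam s (X τ ψ : HH H) ≤ C * τ ^ (-(α + (s + r) / 2)) * N2 lam (-r) ψ

/-- The estimate with `r = 0`. -/
def Smu (lam : ℤ → ℝ) (X : ℝ → HH H →L[ℂ] HH H) (α : ℝ) : Prop :=
  ∃ C, 0 ≤ C ∧ ∀ τ, 0 < τ → τ ≤ 1 → ∀ s, 0 ≤ s → s ≤ 1 → ∀ y : HH H,
    S2 lam s (X τ y : HH H) ∧ N2 lam s (X τ y : HH H) ≤ C * τ ^ (-(α + s / 2)) * ‖y‖

theorem Std.both (h : Std D ω lam Cl L Ca) {X : ℝ → HH H →L[ℂ] HH H} {α : ℝ} (ha : α ≤ 1)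
    (hX : ∀ τ, 0 < τ → ∀ x, X τ x = X (τ / 2) (Sg D.K (τ / 2) x)) (hu : Smu lam X α) :
    Smb lam X α := by
  obtain ⟨C, hC, hS⟩ := hu
  obtain ⟨C', hC', hN⟩ := h.Sg_neg
  refine ⟨16 * C * C', by positivity, fun τ h0 h1 s s0 s1 r r0 r1 ψ => ?_⟩
  have hp := N2_nonneg (lam := lam) (-r) ψ
  have h2 := hS (τ / 2) (by linarith) (by linarith) s s0 s1 (Sg D.K (τ / 2) ψ)
  have h3 := hN (τ / 2) (by linarith) (by linarith) r r0 r1 ψ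
  rw [← hX τ h0] at h2
  refine ⟨h2.1, h2.2.trans ?_⟩
  have h4 := sm_half_rpow h0 (a := α + s / 2) (by linarith)
  have h5 := sm_half_rpow h0 (a := r / 2) (by linarith)
  have p1 := Real.rpow_nonneg (half_pos h0).le (-(α + s / 2))
  have p2 := Real.rpow_nonneg (half_pos h0).le (-(r / 2))
  have p3 := Real.rpow_nonneg h0.le (-(α + s / 2))
  have p4 := Real.rpow_nonneg h0.le (-(r / 2))
  have e2 : τ ^ (-(α + (s + r) / 2)) = τ ^ (-(α + s / 2)) * τ ^ (-(r / 2)) := by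
    rw [← Real.rpow_add h0]; congr 1; ring
  calc C * (τ / 2) ^ (-(α + s / 2)) * ‖Sg D.K (τ / 2) ψ‖
      ≤ C * (4 * τ ^ (-(α + s / 2))) * (C' * (4 * τ ^ (-(r / 2))) * N2 lam (-r) ψ) := by
        gcongr
        exact h3.trans (by gcongr)
    _ = _ := by rw [e2]; ring

theorem sm_Sg_half {K : HH H →L[ℂ] HH H} {τ : ℝ} (h0 : 0 < τ) (x : HH H) :
    Sg K τ x = Sg K (τ / 2) (Sg K (τ / 2) x) := by
  have := Sg_add (K := K) (s := τ / 2) (t := τ / 2) (by linarith) (by linarith)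
  rw [add_halves] at this
  rw [this]; rfl

theorem sm_HS_half {K : HH H →L[ℂ] HH H} {τ : ℝ} (h0 : 0 < τ) (x : HH H) :
    HS K τ x = HS K (τ / 2) (Sg K (τ / 2) x) ∧ HS K τ x = Sg K (τ / 2) (HS K (τ / 2) x) := by
  have h2 : 0 < τ / 2 := by linarith
  have e1 := Sg_HS (K := K) (s := τ / 2) (t := τ / 2) h2.le h2
  rw [add_halves] at e1
  have e2 : Sg K (τ / 2) * HS K (τ / 2) = HS K (τ / 2) * Sg K (τ / 2) := by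
    rw [Sg_pos h2]
    unfold HS
    rw [← fA_mul (adm_exp h2) (adm_sqrt_exp h2), ← fA_mul (adm_sqrt_exp h2) (adm_exp h2)]
    exact fA_congr fun l _ => by ring
  refine ⟨?_, ?_⟩
  · rw [← e1, e2]; rfl
  · rw [← e1]; rfl

theorem sm_AS_half {K : HH H →L[ℂ] HH H} {τ : ℝ} (h0 : 0 < τ) (x : HH H) :
    AS K τ x = AS K (τ / 2) (Sg K (τ / 2) x) ∧ AS K τ x = Sg K (τ / 2) (AS K (τ / 2) x) := by
  have h2 : 0 < τ / 2 := by linarith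
  have e1 := Sg_AS (K := K) (s := τ / 2) (t := τ / 2) h2.le h2
  rw [add_halves] at e1
  have e2 : Sg K (τ / 2) * AS K (τ / 2) = AS K (τ / 2) * Sg K (τ / 2) := by
    rw [Sg_pos h2]
    unfold AS
    rw [← fA_mul (adm_exp h2) (adm_mul_exp h2), ← fA_mul (adm_mul_exp h2) (adm_exp h2)]
    exact fA_congr fun l _ => by ring
  refine ⟨?_, ?_⟩
  · rw [← e1, e2]; rfl
  · rw [← e1]; rfl

theorem Std.Sg_smu (h : Std D ω lam Cl L Ca) : Smu lam (Sg D.K) 0 := by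
  obtain ⟨C, hC, hS⟩ := h.Sg_up
  refine ⟨C, hC, fun τ h0 h1 s s0 s1 y => ?_⟩
  rw [zero_add]
  exact hS τ h0 h1 s s0 s1 y

/-- `|Λ^s S(τ) ψ| ≤ C τ^{-(s+r)/2} |Λ^{-r} ψ|` -/
theorem Std.Sg_smb (h : Std D ω lam Cl L Ca) : Smb lam (Sg D.K) 0 :=
  h.both zero_le_one (fun _ h0 x => sm_Sg_half h0 x) h.Sg_smu

theorem Std.HS_smu (h : Std D ω lam Cl L Ca) : Smu lam (HS D.K) (1 / 2) := by
  obtain ⟨C, hC, hS⟩ := h.Sg_up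
  have hK := D.K_nonneg
  refine ⟨16 * C, by positivity, fun τ h0 h1 s s0 s1 y => ?_⟩
  have h2 := hS (τ / 2) (by linarith) (by linarith) s s0 s1 (HS D.K (τ / 2) y)
  rw [← (sm_HS_half h0 y).2] at h2
  have h3 := sm_HS_norm hK (half_pos h0) y
  refine ⟨h2.1, h2.2.trans ?_⟩
  have h4 := sm_half_rpow h0 (a := s / 2) (by linarith)
  have h5 := sm_half_rpow h0 (a := 1 / 2) (by norm_num)
  have p1 := Real.rpow_nonneg (half_pos h0).le (-(s / 2))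
  have p3 := Real.rpow_nonneg h0.le (-(s / 2))
  have p4 := Real.rpow_nonneg h0.le (-(1 / 2 : ℝ))
  have e2 : τ ^ (-(1 / 2 + s / 2)) = τ ^ (-(s / 2)) * τ ^ (-(1 / 2 : ℝ)) := by
    rw [← Real.rpow_add h0]; congr 1; ring
  calc C * (τ / 2) ^ (-(s / 2)) * ‖HS D.K (τ / 2) y‖
      ≤ C * (4 * τ ^ (-(s / 2))) * (4 * τ ^ (-(1 / 2 : ℝ)) * ‖y‖) := by
        gcongr
        exact h3.trans (by gcongr)
    _ = _ := by rw [e2]; ring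

/-- `|Λ^s A^{1/2}S(τ) ψ| ≤ C τ^{-(1+s+r)/2} |Λ^{-r} ψ|` -/
theorem Std.HS_smb (h : Std D ω lam Cl L Ca) : Smb lam (HS D.K) (1 / 2) :=
  h.both (by norm_num) (fun _ h0 x => (sm_HS_half h0 x).1) h.HS_smu

theorem Std.AS_smu (h : Std D ω lam Cl L Ca) : Smu lam (AS D.K) 1 := by
  obtain ⟨C, hC, hS⟩ := h.Sg_up
  have hK := D.K_nonneg
  refine ⟨16 * C, by positivity, fun τ h0 h1 s s0 s1 y => ?_⟩
  have h2 := hS (τ / 2) (by linarith) (by linarith) s s0 s1 (AS D.K (τ / 2) y)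
  rw [← (sm_AS_half h0 y).2] at h2
  have h3 := sm_AS_norm hK (half_pos h0) y
  refine ⟨h2.1, h2.2.trans ?_⟩
  have h4 := sm_half_rpow h0 (a := s / 2) (by linarith)
  have h5 := sm_half_rpow h0 (a := 1) (by norm_num)
  have p1 := Real.rpow_nonneg (half_pos h0).le (-(s / 2))
  have p3 := Real.rpow_nonneg h0.le (-(s / 2))
  have p4 := Real.rpow_nonneg h0.le (-(1 : ℝ))
  have e2 : τ ^ (-(1 + s / 2)) = τ ^ (-(s / 2)) * τ ^ (-(1 : ℝ)) := by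
    rw [← Real.rpow_add h0]; congr 1; ring
  calc C * (τ / 2) ^ (-(s / 2)) * ‖AS D.K (τ / 2) y‖
      ≤ C * (4 * τ ^ (-(s / 2))) * (4 * τ ^ (-(1 : ℝ)) * ‖y‖) := by
        gcongr
        exact h3.trans (by gcongr)
    _ = _ := by rw [e2]; ring

/-- `|Λ^s A S(τ) ψ| ≤ C τ^{-1-(s+r)/2} |Λ^{-r} ψ|` -/
theorem Std.AS_smb (h : Std D ω lam Cl L Ca) : Smb lam (AS D.K) 1 :=
  h.both le_rfl (fun _ h0 x => (sm_AS_half h0 x).1) h.AS_smu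

/-- `B b⁻¹ S(τ)`, i.e. `Q A^{1/2}S(τ)` -/
noncomputable def OD.BS (D : OD (HH H)) (τ : ℝ) : HH H →L[ℂ] HH H := D.Q (Kh D.K) ∘L HS D.K τ

theorem Std.BS_eq (D : OD (HH H)) {τ : ℝ} (h0 : 0 < τ) (y : HH H) :
    D.BS τ y = D.G (AS D.K τ y) := by
  have hK := D.K_nonneg
  show D.Q (Kh D.K) (HS D.K τ y) = _
  rw [← D.isKh.Q_Kh, ← Kh_AS hK h0]; rfl

theorem Std.BS_smu (h : Std D ω lam Cl L Ca) : Smu lam D.BS (1 / 2) := by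
  obtain ⟨C, hC, hG⟩ := h.reg1'
  have hK := D.K_nonneg
  have hc := D.c₀_pos
  refine ⟨4 * (C + (√D.c₀)⁻¹), by positivity, fun τ h0 h1 s s0 s1 y => ?_⟩
  have h2 := hG (AS D.K τ y)
  rw [← Std.BS_eq D h0] at h2
  have p1 := Real.rpow_nonneg h0.le (-(1 / 2 : ℝ))
  have p2 := Real.rpow_nonneg h0.le (-(1 : ℝ))
  have hy := norm_nonneg y
  have h4 := N2_scale (C := (C + (√D.c₀)⁻¹) * ‖y‖) (α := 1 / 2) h.one h2.1 h0 (by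
    rw [(S2_zero_HH _ lam).2]
    calc ‖D.BS τ y‖ ≤ (√D.c₀)⁻¹ * ‖HS D.K τ y‖ := D.isKh.norm_Q_le _
      _ ≤ (√D.c₀)⁻¹ * (τ ^ (-(1 / 2 : ℝ)) * ‖y‖) := by
          gcongr; exact sm_HS_norm hK h0 y
      _ ≤ (C + (√D.c₀)⁻¹) * (τ ^ (-(1 / 2 : ℝ)) * ‖y‖) := by
          gcongr; linarith
      _ = _ := by ring) (by
    have e1 : (1 / 2 + 1 / 2 : ℝ) = 1 := by norm_num
    rw [e1]
    calc N2 lam 1 (D.BS τ y : HH H) ≤ C * ‖AS D.K τ y‖ := h2.2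
      _ ≤ C * (τ ^ (-(1 : ℝ)) * ‖y‖) := by
          gcongr; exact sm_AS_norm hK h0 y
      _ ≤ (C + (√D.c₀)⁻¹) * (τ ^ (-(1 : ℝ)) * ‖y‖) := by
          gcongr
          have : 0 ≤ (√D.c₀)⁻¹ := by positivity
          linarith
      _ = _ := by ring) s0 s1
  refine ⟨h4.1, h4.2.trans (le_of_eq ?_)⟩
  ring

/-- `|Λ^s B b⁻¹ S(τ) ψ| ≤ C τ^{-(1+s+r)/2} |Λ^{-r} ψ|` -/
theorem Std.BS_smb (h : Std D ω lam Cl L Ca) : Smb lam D.BS (1 / 2) :=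
  h.both (by norm_num) (fun _ h0 x => congrArg (D.Q (Kh D.K)) (sm_HS_half h0 x).1) h.BS_smu

/-! ### The two instances -/

theorem Std.ofODa {ω c₀ : ℝ} {a : ℤ → CI H} {ha : Cf 0 a} {hc : 0 < c₀}
    {hp : ∀ x : HH H, c₀ * ‖x‖ ^ 2 ≤ (⟪cm a x, x⟫_ℂ).re} (ha1 : Cf 1 a) {lam : ℤ → ℝ} {Cl L : ℝ}
    (h1 : ∀ n, 1 ≤ lam n) (hCl : 0 ≤ Cl) (hle : ∀ n : ℤ, lam n ≤ Cl * (1 + |ω * n|)) (hL : 0 ≤ L)
    (hlip : ∀ n j : ℤ, |lam n - lam j| ≤ L * |((n - j : ℤ) : ℝ)|) :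
    Std (ODa ω a c₀ ha hc hp) ω lam Cl L (∑' m : ℤ, L * (|(m:ℝ)| * ‖a m‖)) where
  T := rfl
  P := rfl
  one := h1
  Cl0 := hCl
  Ca0 := tsum_nonneg fun m => by positivity
  le := hle
  lip := hlip
  comm w C hw hwl x := norm_comm_cm_le hw hwl ha1 x
  commb w C hw hwl x := by
    show ‖wd w x - wd w x‖ ≤ _
    rw [sub_self, norm_zero]
    exact mul_nonneg (tsum_nonneg fun m => by positivity) (norm_nonneg _)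

theorem Std.ofODb {ω : ℝ} {b bi : ℤ → CI H} {hb : Cf 0 b} {hb1 : ∀ x : HH H, cm b (cm bi x) = x}
    {hb2 : ∀ x : HH H, cm bi (cm b x) = x} (hb' : Cf 1 b) {lam : ℤ → ℝ} {Cl L : ℝ}
    (h1 : ∀ n, 1 ≤ lam n) (hCl : 0 ≤ Cl) (hle : ∀ n : ℤ, lam n ≤ Cl * (1 + |ω * n|)) (hL : 0 ≤ L)
    (hlip : ∀ n j : ℤ, |lam n - lam j| ≤ L * |((n - j : ℤ) : ℝ)|) :
    Std (ODb ω b bi hb hb1 hb2) ω lam Cl L (∑' m : ℤ, L * (|(m:ℝ)| * ‖b m‖)) where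
  T := rfl
  P := rfl
  one := h1
  Cl0 := hCl
  Ca0 := tsum_nonneg fun m => by positivity
  le := hle
  lip := hlip
  comm w C hw hwl x := by
    show ‖wd w x - wd w x‖ ≤ _
    rw [sub_self, norm_zero]
    exact mul_nonneg (tsum_nonneg fun m => by positivity) (norm_nonneg _)
  commb w C hw hwl x := norm_comm_cm_le hw hwl hb' x

theorem Geo.lam_lip (G : Geo H) (n j : ℤ) :
    |G.lam n - G.lam j| ≤ |G.ω| * |((n - j : ℤ) : ℝ)| := by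
  unfold Geo.lam
  rw [← abs_mul]
  push_cast
  have := abs_abs_sub_abs_le_abs_sub (G.ω * n) (G.ω * j)
  rw [← mul_sub] at this
  rw [add_sub_add_left_eq_sub]
  exact this

/-- `Std` for `A = B* a B` -/
theorem Geo.std (G : Geo H) : Std G.D G.ω G.lam G.N₀ |G.ω| (∑' m : ℤ, |G.ω| * (|(m:ℝ)| * ‖G.a m‖)) :=
  Std.ofODa (G.ha.c.mono (by norm_num)) G.lw.h1 (by linarith [G.hN]) G.lam_le (abs_nonneg _)
    G.lam_lip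

/-- `Std` for `J^{-1/2} (-Δ) J^{-1/2}` -/
theorem Geo.stdo (G : Geo H) :
    Std G.Do G.ω G.lam G.N₀ |G.ω| (∑' m : ℤ, |G.ω| * (|(m:ℝ)| * ‖G.b m‖)) :=
  Std.ofODb (G.hb.c.mono (by norm_num)) G.lw.h1 (by linarith [G.hN]) G.lam_le (abs_nonneg _)
    G.lam_lip

end

end Pool.Agent.Lib.MP_79abb3_an.SC
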