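import Pool.Agent.Lib.MP_79abb3_an.SC.LaDZ
import Pool.Agent.Lib.MP_79abb3_an.SC.LaSmoB

/-!
MP_79abb3_an, Theorem C, block (i): `H²` regularity of `K g` and of `S(τ) ψ`, with continuous
representatives.
-/

set_option autoImplicit false
set_option linter.unusedSectionVars false

open MeasureTheory Set Filter Topology Function
open scoped ENNReal InnerProductSpace

namespace Pool.Agent.Lib.MP_79abb3_an.SC

open Pool.Agent.Lib.MP_79abb3_an.P25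

section
variable {H : ℝ} [hH : Fact (0 < H)]
variable {D : OD (HH H)} {ω : ℝ} {lam : ℤ → ℝ} {Cl L Ca : ℝ}

/-- `g₀ = B f` has a continuous representative with derivative `F1`; everything is bounded by
`C |g|`. -/
structure BRep (D : OD (HH H)) (lam : ℤ → ℝ) (C : ℝ) (g : HH H) (F : ℤ → CI H) (F1 : HH H) :
    Prop where
  ioF : ∀ n : ℤ, iota (F n) = D.G g n
  dz : ∀ n : ℤ, DZ (F n) (F1 n)
  s1 : S2 lam 1 (D.G g : HH H)
  n1 : N2 lam 1 (D.G g : HH H) ≤ C * ‖g‖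
  nF : ‖F1‖ ≤ C * ‖g‖

/-- The families `f`, `f_z`, `f_zz` for `f = T G g`. -/
structure H2R (D : OD (HH H)) (ω : ℝ) (lam : ℤ → ℝ) (C : ℝ) (g : HH H) (f f1 : ℤ → CI H)
    (f2 : ℤ → Z2 H) : Prop where
  F : ∀ n : ℤ, ((|ω * n| : ℝ) : ℂ) • (iota (f n) : Z2 H) - iota (f1 n) = D.G g n
  iof : ∀ n : ℤ, iota (f n) = TT ω (D.G g) n
  d1 : ∀ n : ℤ, DZ (f n) (iota (f1 n))
  d2 : ∀ n : ℤ, DZ (f1 n) (f2 n)
  z0 : ∀ n : ℤ, ex (f n) 0 = 0
  zH : ∀ n : ℤ, ex (f n) H = 0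
  s0 : S2 lam 2 (io f)
  n0 : N2 lam 2 (io f) ≤ C * ‖g‖
  s1 : S2 lam 1 (io f1)
  n1 : N2 lam 1 (io f1) ≤ C * ‖g‖
  s2 : S2 lam 0 f2
  n2 : N2 lam 0 f2 ≤ C * ‖g‖

theorem S2_of_le {E F : Type} [NormedAddCommGroup E] [NormedAddCommGroup F] {lam : ℤ → ℝ}
    (h1 : ∀ n, 1 ≤ lam n) {s t C : ℝ} (hC : 0 ≤ C) {x : ℤ → E} {y : ℤ → F}
    (hxy : ∀ n, lam n ^ s * ‖x n‖ ≤ C * (lam n ^ t * ‖y n‖)) (h : S2 lam t y) :
    S2 lam s x ∧ N2 lam s x ≤ C * N2 lam t y := by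
  have l0 : ∀ n, 0 < lam n := fun n => by linarith [h1 n]
  have key : ∀ n, (lam n ^ s * ‖x n‖) ^ 2 ≤ C ^ 2 * (lam n ^ t * ‖y n‖) ^ 2 := fun n => by
    rw [← mul_pow]
    exact pow_le_pow_left₀ (mul_nonneg (Real.rpow_nonneg (l0 n).le _) (norm_nonneg _)) (hxy n) 2
  have hs : S2 lam s x := Summable.of_nonneg_of_le (fun n => sq_nonneg _) key (h.mul_left _)
  refine ⟨hs, ?_⟩
  have h0 := N2_nonneg (lam := lam) t y
  refine (pow_le_pow_iff_left₀ (N2_nonneg _ _) (by positivity) two_ne_zero).1 ?_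
  rw [mul_pow, N2_sq, N2_sq, ← tsum_mul_left]
  exact hs.tsum_le_tsum key (h.mul_left _)

theorem N2_add_le {E : Type} [NormedAddCommGroup E] {lam : ℤ → ℝ} (h1 : ∀ n, 1 ≤ lam n) {s : ℝ}
    {x y : ℤ → E} (hx : S2 lam s x) (hy : S2 lam s y) :
    S2 lam s (fun n => x n + y n) ∧ N2 lam s (fun n => x n + y n) ≤ N2 lam s x + N2 lam s y := by
  have l0 : ∀ n, 0 < lam n := fun n => by linarith [h1 n]
  have p : ∀ n, 0 ≤ lam n ^ s := fun n => Real.rpow_nonneg (l0 n).le _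
  obtain ⟨c1, c2⟩ := cs_tsum (x := fun n => lam n ^ s * ‖x n‖) (y := fun n => lam n ^ s * ‖y n‖)
    (fun n => mul_nonneg (p n) (norm_nonneg _)) (fun n => mul_nonneg (p n) (norm_nonneg _)) hx hy
  have key : ∀ n, (lam n ^ s * ‖x n + y n‖) ^ 2 ≤ (lam n ^ s * ‖x n‖) ^ 2 +
      2 * ((lam n ^ s * ‖x n‖) * (lam n ^ s * ‖y n‖)) + (lam n ^ s * ‖y n‖) ^ 2 := fun n => by
    have h2 : lam n ^ s * ‖x n + y n‖ ≤ lam n ^ s * ‖x n‖ + lam n ^ s * ‖y n‖ := by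
      rw [← mul_add]; exact mul_le_mul_of_nonneg_left (norm_add_le _ _) (p n)
    have h3 := pow_le_pow_left₀ (mul_nonneg (p n) (norm_nonneg _)) h2 2
    linarith [h3, sq_nonneg (lam n ^ s * ‖x n‖)]
  have sm : Summable fun n => (lam n ^ s * ‖x n‖) ^ 2 +
      2 * ((lam n ^ s * ‖x n‖) * (lam n ^ s * ‖y n‖)) + (lam n ^ s * ‖y n‖) ^ 2 :=
    (Summable.add hx (c1.mul_left 2)).add hy
  have hs : S2 lam s (fun n => x n + y n) := Summable.of_nonneg_of_le (fun n => sq_nonneg _) key sm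
  refine ⟨hs, ?_⟩
  have n1 := N2_nonneg (lam := lam) s x
  have n2 := N2_nonneg (lam := lam) s y
  refine (pow_le_pow_iff_left₀ (N2_nonneg _ _) (by positivity) two_ne_zero).1 ?_
  calc N2 lam s (fun n => x n + y n) ^ 2 = ∑' n, (lam n ^ s * ‖x n + y n‖) ^ 2 := N2_sq _ _
    _ ≤ ∑' n, ((lam n ^ s * ‖x n‖) ^ 2 +
      2 * ((lam n ^ s * ‖x n‖) * (lam n ^ s * ‖y n‖)) + (lam n ^ s * ‖y n‖) ^ 2) :=
        hs.tsum_le_tsum key sm
    _ = N2 lam s x ^ 2 + 2 * ∑' n, (lam n ^ s * ‖x n‖) * (lam n ^ s * ‖y n‖) + N2 lam s y ^ 2 := by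
        rw [(Summable.add hx (c1.mul_left 2)).tsum_add hy, Summable.tsum_add hx (c1.mul_left 2),
          tsum_mul_left, ← N2_sq, ← N2_sq]
    _ ≤ N2 lam s x ^ 2 + 2 * (N2 lam s x * N2 lam s y) + N2 lam s y ^ 2 := by
        have c3 : ∑' n, (lam n ^ s * ‖x n‖) * (lam n ^ s * ‖y n‖) ≤ N2 lam s x * N2 lam s y := c2
        linarith
    _ = _ := by ring

/-- From `BRep` to `H2R`. -/
theorem BRep.h2 (h : Std D ω lam Cl L Ca) (hk : ∀ n : ℤ, |ω * n| ≤ lam n) {C : ℝ} (hC : 0 ≤ C)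
    {g : HH H} {F : ℤ → CI H} {F1 : HH H} (b : BRep D lam C g F F1) :
    H2R D ω lam ((2 * (Cl * (H + 1)) + 3) * C) g (fun n : ℤ => Tz (ω * n) (D.G g n))
      (fun n : ℤ => ((|ω * n| : ℝ) : ℂ) • Tz (ω * n) (D.G g n) - F n)
      (fun n : ℤ => ((|ω * n| : ℝ) : ℂ) •
        (((|ω * n| : ℝ) : ℂ) • iota (Tz (ω * n) (D.G g n)) - D.G g n) - F1 n) := by
  have hH0 := hH.out
  have hCl := h.Cl0
  have l0 : ∀ n, 0 < lam n := fun n => by linarith [h.one n]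
  have hg := norm_nonneg g
  -- first bound: `|Λ² f| ≤ Cl (H+1) |Λ F|`
  have key : ∀ n : ℤ, lam n * ‖T2 (ω * n) (D.G g n)‖ ≤ Cl * (H + 1) * ‖D.G g n‖ := fun n => by
    have e1 : ‖T2 (ω * n) (D.G g n)‖ ≤ H * ‖D.G g n‖ :=
      ((T2 (ω * n)).le_opNorm _).trans (mul_le_mul_of_nonneg_right (norm_T2_le _) (norm_nonneg _))
    have e2 := norm_kT2_le (ω * n) (D.G g n)
    calc lam n * ‖T2 (ω * n) (D.G g n)‖ ≤ Cl * (1 + |ω * n|) * ‖T2 (ω * n) (D.G g n)‖ :=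
          mul_le_mul_of_nonneg_right (h.le n) (norm_nonneg _)
      _ = Cl * (‖T2 (ω * n) (D.G g n)‖ + |ω * n| * ‖T2 (ω * n) (D.G g n)‖) := by ring
      _ ≤ Cl * (H * ‖D.G g n‖ + ‖D.G g n‖) := by gcongr
      _ = _ := by ring
  have B0 := S2_of_le h.one (s := 2) (t := 1) (C := Cl * (H + 1)) (by positivity)
    (x := io fun n : ℤ => Tz (ω * n) (D.G g n)) (y := fun n => D.G g n) (fun n => by
      rw [io_apply, ← T2_apply, Real.rpow_two, Real.rpow_one, pow_two, mul_assoc]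
      have := mul_le_mul_of_nonneg_left (key n) (l0 n).le
      linarith) b.s1
  have B0' := S2_of_le h.one (s := 1) (t := 2) (C := 1) zero_le_one
    (x := fun n : ℤ => ((|ω * n| : ℝ) : ℂ) • (iota (Tz (ω * n) (D.G g n)) : Z2 H))
    (y := io fun n : ℤ => Tz (ω * n) (D.G g n)) (fun n => by
      rw [io_apply, Real.rpow_two, Real.rpow_one, norm_smul, Complex.norm_real, Real.norm_eq_abs,
        abs_abs, one_mul, pow_two, mul_assoc]
      refine mul_le_mul_of_nonneg_left ?_ (l0 n).le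
      exact mul_le_mul_of_nonneg_right (hk n) (norm_nonneg _)) B0.1
  rw [one_mul] at B0'
  have B1 := S2_of_le h.one (s := 1) (t := 1) (C := 1) zero_le_one (x := fun n => -(D.G g n))
    (y := fun n => D.G g n) (fun n => by rw [norm_neg, one_mul]) b.s1
  rw [one_mul] at B1
  have B2 := N2_add_le h.one B0'.1 B1.1
  have hb1 := b.n1
  have hN2 : N2 lam 2 (io fun n : ℤ => Tz (ω * n) (D.G g n)) ≤ Cl * (H + 1) * (C * ‖g‖) :=
    B0.2.trans (by gcongr)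
  have nn1 := N2_nonneg (lam := lam) 1 (D.G g : HH H)
  -- `f1`
  have e1 : io (fun n : ℤ => ((|ω * n| : ℝ) : ℂ) • Tz (ω * n) (D.G g n) - F n) =
      fun n : ℤ => ((|ω * n| : ℝ) : ℂ) • (iota (Tz (ω * n) (D.G g n)) : Z2 H) + -(D.G g n) := by
    funext n
    rw [io_apply, map_sub, map_smul, b.ioF, sub_eq_add_neg]
  have hn1 : N2 lam 1 (fun n : ℤ => ((|ω * n| : ℝ) : ℂ) • (iota (Tz (ω * n) (D.G g n)) : Z2 H) +
      -(D.G g n)) ≤ Cl * (H + 1) * (C * ‖g‖) + C * ‖g‖ := by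
    refine B2.2.trans ?_
    have := B0'.2
    have := B1.2
    linarith
  -- `f2`
  have B3 := S2_of_le h.one (s := 0) (t := 1) (C := 1) zero_le_one
    (x := fun n : ℤ => ((|ω * n| : ℝ) : ℂ) •
        (((|ω * n| : ℝ) : ℂ) • (iota (Tz (ω * n) (D.G g n)) : Z2 H) + -(D.G g n)))
    (y := fun n : ℤ => ((|ω * n| : ℝ) : ℂ) • (iota (Tz (ω * n) (D.G g n)) : Z2 H) + -(D.G g n))
    (fun n => by
      rw [Real.rpow_zero, Real.rpow_one, norm_smul, Complex.norm_real, Real.norm_eq_abs, abs_abs,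
        one_mul, one_mul]
      exact mul_le_mul_of_nonneg_right (hk n) (norm_nonneg _)) B2.1
  rw [one_mul] at B3
  have z1 := S2_zero_HH F1 lam
  have B4 := S2_of_le h.one (s := 0) (t := 0) (C := 1) zero_le_one (x := fun n => -(F1 n))
    (y := fun n => F1 n) (fun n => by rw [norm_neg, one_mul]) z1.1
  rw [one_mul] at B4
  have B5 := N2_add_le h.one B3.1 B4.1
  have e2 : (fun n : ℤ => ((|ω * n| : ℝ) : ℂ) •
        (((|ω * n| : ℝ) : ℂ) • (iota (Tz (ω * n) (D.G g n)) : Z2 H) - D.G g n) - F1 n) =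
      fun n : ℤ => ((|ω * n| : ℝ) : ℂ) •
        (((|ω * n| : ℝ) : ℂ) • (iota (Tz (ω * n) (D.G g n)) : Z2 H) + -(D.G g n)) + -(F1 n) := by
    funext n
    rw [sub_eq_add_neg, sub_eq_add_neg]
  have hCg : 0 ≤ C * ‖g‖ := mul_nonneg hC hg
  have hT : 0 ≤ Cl * (H + 1) := by positivity
  refine
    { F := fun n => ?_
      iof := fun n => by rw [TT_apply, T2_apply]
      d1 := fun n => ?_
      d2 := fun n => ?_
      z0 := fun n => ?_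
      zH := fun n => Tz_H _ _
      s0 := B0.1
      n0 := ?_
      s1 := ?_
      n1 := ?_
      s2 := ?_
      n2 := ?_ }
  · rw [map_sub, map_smul, b.ioF, sub_sub_cancel]
  · have := Tz_dz (ω * n) (D.G g n)
    rwa [map_sub, map_smul, b.ioF]
  · exact ((Tz_dz (ω * n) (D.G g n)).smul _).sub (b.dz n)
  · have h1 : PP ω (D.G g) = D.G g := by rw [← h.P]; exact D.P_G g
    have h2 : P2 (ω * n) (D.G g n) = D.G g n := by rw [← PP_apply, h1]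
    exact (P2_iff _ _).1 h2
  · refine hN2.trans ?_
    have := mul_nonneg hT hCg
    have e : (2 * (Cl * (H + 1)) + 3) * C * ‖g‖ =
      2 * (Cl * (H + 1) * (C * ‖g‖)) + 3 * (C * ‖g‖) := by ring
    rw [e]; linarith
  · rw [e1]; exact B2.1
  · rw [e1]; refine hn1.trans ?_
    have := mul_nonneg hT hCg
    have e : (2 * (Cl * (H + 1)) + 3) * C * ‖g‖ =
      2 * (Cl * (H + 1) * (C * ‖g‖)) + 3 * (C * ‖g‖) := by ring
    rw [e]; linarith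
  · rw [e2]; exact B5.1
  · rw [e2]
    have h3 : N2 lam 0 (fun n => F1 n) ≤ C * ‖g‖ := by
      have : N2 lam 0 (fun n => F1 n) = ‖F1‖ := z1.2
      rw [this]; exact b.nF
    have h4 := B5.2
    have h5 := B3.2
    have h6 := B4.2
    have := mul_nonneg hT hCg
    have e : (2 * (Cl * (H + 1)) + 3) * C * ‖g‖ =
      2 * (Cl * (H + 1) * (C * ‖g‖)) + 3 * (C * ‖g‖) := by ring
    rw [e]; linarith

/-- The representative for `a = 1` (the operator `ODb`). -/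
theorem Std.brep1 (h : Std D ω lam Cl L Ca) (hk : ∀ n : ℤ, |ω * n| ≤ lam n)
    (ha : ∀ x, D.a x = x) : ∃ C, 0 ≤ C ∧ ∀ g : HH H, ∃ F F1, BRep D lam C g F F1 := by
  obtain ⟨C, hC, hb⟩ := h.Zc_bd hk
  refine ⟨C, hC, fun g => ?_⟩
  obtain ⟨⟨a1, a2⟩, ⟨z1, hz1, hz1n⟩, -⟩ := hb g
  rw [ha] at a1 a2
  refine ⟨D.Zc ω g, z1, ⟨fun n => ?_, fun n => ?_, a1, a2, hz1n⟩⟩
  · rw [h.iota_Zc, ha]
  · rw [hz1 n]; exact h.Zc_dz g n

/-- The representative when `a` is inverted by multiplication by a smooth `J`. -/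
theorem Std.brepJ (h : Std D ω lam Cl L Ca) (hk : ∀ n : ℤ, |ω * n| ≤ lam n) {J : ℤ → CI H}
    (hJ : C2f J) (ha : ∀ x, cm J (D.a x) = x) :
    ∃ C, 0 ≤ C ∧ ∀ g : HH H, ∃ F F1, BRep D lam C g F F1 := by
  obtain ⟨C, hC, hb⟩ := h.Zc_bd hk
  obtain ⟨C', hC', hr⟩ := h.reg1'
  obtain ⟨J1, J2, hJ1, -, hJ1c, -⟩ := hJ.d
  obtain ⟨A, hA⟩ : ∃ A, A = ‖(cm J : HH H →L[ℂ] HH H)‖ := ⟨_, rfl⟩
  obtain ⟨A1, hA1⟩ : ∃ A, A = ‖(cm J1 : HH H →L[ℂ] HH H)‖ := ⟨_, rfl⟩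
  have hA0 : 0 ≤ A := by rw [hA]; exact norm_nonneg _
  have hA10 : 0 ≤ A1 := by rw [hA1]; exact norm_nonneg _
  refine ⟨C' + (A1 * C + A * C), by positivity, fun g => ?_⟩
  have hg := norm_nonneg g
  obtain ⟨⟨a1, a2⟩, ⟨z1, hz1, hz1n⟩, ⟨z, hz, hzn⟩⟩ := hb g
  have hzd : ∀ n, DZ (z n) (z1 n) := fun n => by rw [hz, hz1]; exact h.Zc_dz g n
  have hzi : ioL z = D.a (D.G g) := by
    ext1
    funext n
    rw [ioL_apply, hz, h.iota_Zc]
  have hza : ‖D.a (D.G g)‖ ≤ C * ‖g‖ := by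
    have h1 := (S2_mono h.one zero_le_one a1).2
    rw [(S2_zero_HH _ lam).2] at h1
    exact h1.trans a2
  refine ⟨fun n => cc J z n, cm J1 (ioL z) + cm J z1, ⟨fun n => ?_, fun n => ?_, (hr g).1, ?_, ?_⟩⟩
  · rw [← ioL_apply, ioL_cc hJ.c.s0, hzi, ha]
  · exact cc_dz hJ.c.s0 hJ1c.s0 hJ1 hzd n
  · refine (hr g).2.trans (mul_le_mul_of_nonneg_right ?_ hg)
    have : 0 ≤ A1 * C + A * C := by positivity
    linarith
  · rw [hzi]
    have h1 := (cm J1).le_opNorm (D.a (D.G g))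
    have h2 := (cm J).le_opNorm z1
    rw [← hA] at h2
    rw [← hA1] at h1
    have h3 := norm_add_le (cm J1 (D.a (D.G g))) (cm J z1)
    have h4 : A1 * ‖D.a (D.G g)‖ ≤ A1 * (C * ‖g‖) := mul_le_mul_of_nonneg_left hza hA10
    have h5 : A * ‖z1‖ ≤ A * (C * ‖g‖) := mul_le_mul_of_nonneg_left hz1n hA0
    have h6 : 0 ≤ C' * ‖g‖ := mul_nonneg hC' hg
    have e : (C' + (A1 * C + A * C)) * ‖g‖ = C' * ‖g‖ + (A1 * (C * ‖g‖) + A * (C * ‖g‖)) := by ring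
    rw [e]; linarith

/-- **`H²` regularity** of `T G g = b⁻¹ K g` for `A = B* a B`. -/
theorem Geo.h2 (G : Geo H) : ∃ C, 0 ≤ C ∧ ∀ g : HH H, ∃ f f1 f2,
    H2R G.D G.ω G.lam C g f f1 f2 := by
  have hH0 := hH.out
  obtain ⟨C, hC, hb⟩ := G.std.brepJ G.lam_k G.hJ G.Ja
  have hCl := G.std.Cl0
  have hp : 0 ≤ (2 * (G.N₀ * (H + 1)) + 3) * C := by
    refine mul_nonneg ?_ hC
    have := mul_nonneg hCl (by linarith : 0 ≤ H + 1)
    linarith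
  refine ⟨(2 * (G.N₀ * (H + 1)) + 3) * C, hp, fun g => ?_⟩
  obtain ⟨F, F1, hF⟩ := hb g
  exact ⟨_, _, _, hF.h2 G.std G.lam_k hC⟩

/-- **`H²` regularity** for `J^{-1/2} (-Δ) J^{-1/2}`: `f = T G g = J^{-1/2} K g`. -/
theorem Geo.h2o (G : Geo H) : ∃ C, 0 ≤ C ∧ ∀ g : HH H, ∃ f f1 f2,
    H2R G.Do G.ω G.lam C g f f1 f2 := by
  have hH0 := hH.out
  obtain ⟨C, hC, hb⟩ := G.stdo.brep1 G.lam_k (fun _ => rfl)
  have hCl := G.stdo.Cl0
  have hp : 0 ≤ (2 * (G.N₀ * (H + 1)) + 3) * C := by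
    refine mul_nonneg ?_ hC
    have := mul_nonneg hCl (by linarith : 0 ≤ H + 1)
    linarith
  refine ⟨(2 * (G.N₀ * (H + 1)) + 3) * C, hp, fun g => ?_⟩
  obtain ⟨F, F1, hF⟩ := hb g
  exact ⟨_, _, _, hF.h2 G.stdo G.lam_k hC⟩

end

end Pool.Agent.Lib.MP_79abb3_an.SC
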