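import Pool.Agent.Lib.MP_79abb3_an.SC.LaH2

/-!
MP_79abb3_an, Theorem C, block (i): `f = S(τ) ψ` and `f = A^{1/2} S(τ) ψ` with first and second
derivatives, in `L²` and in the sup norm.
-/

set_option autoImplicit false
set_option linter.unusedSectionVars false

open MeasureTheory Set Filter Topology Function
open scoped ENNReal InnerProductSpace

namespace Pool.Agent.Lib.MP_79abb3_an.SC

open Pool.Agent.Lib.MP_79abb3_an.P25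

section
variable {H : ℝ} [hH : Fact (0 < H)]

/-- `f`, `f_z`, `f_zz` as families, with norms bounded by powers of `τ`. `x` is the element of `HH`
that `f` represents, `p` the exponent of its norm. -/
structure SH2 (ω : ℝ) (lam : ℤ → ℝ) (C τ p N : ℝ) (x Bx : HH H) (f f1 : ℤ → CI H)
    (f2 : ℤ → Z2 H) : Prop where
  iof : ∀ n : ℤ, iota (f n) = x n
  BF : ∀ n : ℤ, ((|ω * n| : ℝ) : ℂ) • (iota (f n) : Z2 H) - iota (f1 n) = Bx n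
  d1 : ∀ n : ℤ, DZ (f n) (iota (f1 n))
  d2 : ∀ n : ℤ, DZ (f1 n) (f2 n)
  z0 : ∀ n : ℤ, ex (f n) 0 = 0
  zH : ∀ n : ℤ, ex (f n) H = 0
  /-- `|Λ^s f|`, `0 ≤ s ≤ 1` -/
  ns : ∀ s, 0 ≤ s → s ≤ 1 → S2 lam s (io f) ∧ N2 lam s (io f) ≤ C * τ ^ (-(p + s / 2)) * N
  /-- `|f_z|` -/
  n1 : S2 lam 0 (io f1) ∧ N2 lam 0 (io f1) ≤ C * τ ^ (-(p + 1 / 2)) * N
  /-- second derivatives -/
  m0 : S2 lam 2 (io f) ∧ N2 lam 2 (io f) ≤ C * τ ^ (-(p + 1)) * N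
  m1 : S2 lam 1 (io f1) ∧ N2 lam 1 (io f1) ≤ C * τ ^ (-(p + 1)) * N
  m2 : S2 lam 0 f2 ∧ N2 lam 0 f2 ≤ C * τ ^ (-(p + 1)) * N
  /-- sup norms -/
  us : ∀ s, 0 ≤ s → s ≤ 1 / 2 → S2 lam s f ∧ N2 lam s f ≤ C * τ ^ (-(p + s / 2 + 1 / 4)) * N
  u1 : S2 lam 1 f ∧ N2 lam 1 f ≤ C * τ ^ (-(p + 3 / 4)) * N
  v0 : S2 lam 0 f1 ∧ N2 lam 0 f1 ≤ C * τ ^ (-(p + 3 / 4)) * N

theorem sqrt_pow_bd {X a b A B : ℝ} {τ p q r : ℝ} (hτ : 0 < τ) (h0 : 0 ≤ X) (ha : 0 ≤ a)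
    (hb : 0 ≤ b) (hX : X ^ 2 ≤ 2 * (a * b)) (h1 : a ≤ A * τ ^ (-p)) (h2 : b ≤ B * τ ^ (-q))
    (hr : p + q = 2 * r) (hA : 0 ≤ A) (hAB : A ≤ B) : X ≤ 2 * B * τ ^ (-r) := by
  have hB : 0 ≤ B := hA.trans hAB
  have t1 := Real.rpow_nonneg hτ.le (-p)
  have t2 := Real.rpow_nonneg hτ.le (-q)
  have t3 := Real.rpow_nonneg hτ.le (-r)
  have e : τ ^ (-p) * τ ^ (-q) = (τ ^ (-r)) ^ 2 := by
    rw [← Real.rpow_natCast (τ ^ (-r)) 2, ← Real.rpow_mul hτ.le, ← Real.rpow_add hτ]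
    congr 1
    push_cast
    linarith
  have h3 : a * b ≤ (A * τ ^ (-p)) * (B * τ ^ (-q)) := mul_le_mul h1 h2 hb (by positivity)
  have h4 : (A * τ ^ (-p)) * (B * τ ^ (-q)) ≤ B ^ 2 * (τ ^ (-r)) ^ 2 := by
    calc (A * τ ^ (-p)) * (B * τ ^ (-q)) = (A * B) * (τ ^ (-p) * τ ^ (-q)) := by ring
      _ = (A * B) * (τ ^ (-r)) ^ 2 := by rw [e]
      _ ≤ (B * B) * (τ ^ (-r)) ^ 2 :=
          mul_le_mul_of_nonneg_right (mul_le_mul_of_nonneg_right hAB hB) (sq_nonneg _)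
      _ = _ := by ring
  have h5 : X ^ 2 ≤ (2 * B * τ ^ (-r)) ^ 2 := by
    have h6 : (2 * B * τ ^ (-r)) ^ 2 = 4 * (B ^ 2 * (τ ^ (-r)) ^ 2) := by ring
    have h7 : 0 ≤ B ^ 2 * (τ ^ (-r)) ^ 2 := by positivity
    rw [h6]; linarith
  exact (abs_le.1 (abs_le_of_sq_le_sq h5 (by positivity))).2

theorem pow_mono {τ p q A B N : ℝ} (h0 : 0 < τ) (h1 : τ ≤ 1) (hpq : p ≤ q) (hA : 0 ≤ A)
    (hAB : A ≤ B) (hN : 0 ≤ N) : A * τ ^ (-p) * N ≤ B * τ ^ (-q) * N := by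
  have e : τ ^ (-p) ≤ τ ^ (-q) := Real.rpow_le_rpow_of_exponent_ge h0 h1 (by linarith)
  have := Real.rpow_nonneg h0.le (-p)
  have := hA.trans hAB
  gcongr

/-- Assembling `SH2` from the `L²` bounds. -/
theorem SH2.mk' {D : OD (HH H)} {ω : ℝ} {lam : ℤ → ℝ} {C' : ℝ} {g : HH H} {f f1 : ℤ → CI H}
    {f2 : ℤ → Z2 H} (h1 : ∀ n, 1 ≤ lam n) (hk : ∀ n : ℤ, |ω * n| ≤ lam n)
    (h : H2R D ω lam C' g f f1 f2) {τ p N C : ℝ} (hτ : 0 < τ) (hτ1 : τ ≤ 1) (hC : 0 ≤ C)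
    (hN : 0 ≤ N) {x : HH H} (hx : ∀ n : ℤ, iota (f n) = x n)
    (hs : ∀ s, 0 ≤ s → s ≤ 1 → S2 lam s x ∧ N2 lam s x ≤ C * τ ^ (-(p + s / 2)) * N)
    (hB : N2 lam 0 (D.G g : HH H) ≤ C * τ ^ (-(p + 1 / 2)) * N)
    (hg : C' * ‖g‖ ≤ C * τ ^ (-(p + 1)) * N) :
    SH2 ω lam ((4 * H⁻¹ + 16) * C) τ p N x (D.G g) f f1 f2 := by
  have hH0 := hH.out
  have hx' : io f = fun n => x n := by funext n; rw [io_apply, hx]
  have hHi : 0 ≤ H⁻¹ := by positivity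
  have hK : 0 ≤ 4 * H⁻¹ := by positivity
  have hC1 : C ≤ (4 * H⁻¹ + 16) * C := by nlinarith [mul_nonneg hK hC]
  have hC2 : 2 * C ≤ (4 * H⁻¹ + 16) * C := by nlinarith [mul_nonneg hK hC]
  have tn : ∀ q : ℝ, 0 ≤ τ ^ q := fun q => Real.rpow_nonneg hτ.le q
  -- `|f_z| ≤ |Λ f| + |B f|`
  have q1 := hs 1 zero_le_one le_rfl
  have b1 : S2 lam 0 (io f1) ∧ N2 lam 0 (io f1) ≤ 2 * C * τ ^ (-(p + 1 / 2)) * N := by
    have e : io f1 = fun n : ℤ => ((|ω * n| : ℝ) : ℂ) • x n + -(D.G g n) := by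
      funext n
      rw [io_apply, ← h.F n, hx]
      abel
    have B0 := S2_of_le h1 (s := 0) (t := 1) (C := 1) zero_le_one
      (x := fun n : ℤ => ((|ω * n| : ℝ) : ℂ) • x n) (y := fun n => x n) (fun n => by
        rw [Real.rpow_zero, Real.rpow_one, norm_smul, Complex.norm_real, Real.norm_eq_abs,
          abs_abs, one_mul, one_mul]
        exact mul_le_mul_of_nonneg_right (hk n) (norm_nonneg _)) q1.1
    rw [one_mul] at B0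
    have z1 := S2_zero_HH (D.G g) lam
    have B1 := S2_of_le h1 (s := 0) (t := 0) (C := 1) zero_le_one (x := fun n => -(D.G g n))
      (y := fun n => D.G g n) (fun n => by rw [norm_neg, one_mul]) z1.1
    rw [one_mul] at B1
    have B2 := N2_add_le h1 B0.1 B1.1
    rw [e]
    refine ⟨B2.1, B2.2.trans ?_⟩
    have a1 := B0.2
    have a2 := B1.2
    have a3 := q1.2
    have : 2 * C * τ ^ (-(p + 1 / 2)) * N = C * τ ^ (-(p + 1 / 2)) * N +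
      C * τ ^ (-(p + 1 / 2)) * N := by ring
    rw [this]
    linarith
  have z0' : ∀ n : ℤ, ∃ a ∈ Icc (0:ℝ) H, ex (f n) a = 0 := fun n => ⟨0, zero_memI, h.z0 n⟩
  have m0 : N2 lam 2 (io f) ≤ C * τ ^ (-(p + 1)) * N := h.n0.trans hg
  have m1 : N2 lam 1 (io f1) ≤ C * τ ^ (-(p + 1)) * N := h.n1.trans hg
  have m2 : N2 lam 0 f2 ≤ C * τ ^ (-(p + 1)) * N := h.n2.trans hg
  have lft : ∀ {X q : ℝ}, X ≤ C * τ ^ (-q) * N → X ≤ (C * N) * τ ^ (-q) := fun h =>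
    h.trans (le_of_eq (by ring))
  have lft2 : ∀ {X q : ℝ}, X ≤ 2 * C * τ ^ (-q) * N → X ≤ (2 * (C * N)) * τ ^ (-q) := fun h =>
    h.trans (le_of_eq (by ring))
  have hCN : 0 ≤ C * N := mul_nonneg hC hN
  have upg : ∀ {X q A : ℝ}, X ≤ A * (C * N) * τ ^ (-q) → A ≤ 4 * H⁻¹ + 16 →
      X ≤ (4 * H⁻¹ + 16) * C * τ ^ (-q) * N := by
    intro X q A hX hA
    refine hX.trans ?_
    calc A * (C * N) * τ ^ (-q) = A * (C * N * τ ^ (-q)) := by ring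
      _ ≤ (4 * H⁻¹ + 16) * (C * N * τ ^ (-q)) :=
          mul_le_mul_of_nonneg_right hA (mul_nonneg hCN (tn _))
      _ = _ := by ring
  refine
    { iof := hx
      BF := h.F
      d1 := h.d1
      d2 := h.d2
      z0 := h.z0
      zH := h.zH
      ns := fun s s0 s1 => ?_
      n1 := ⟨b1.1, b1.2.trans ?_⟩
      m0 := ⟨h.s0, m0.trans (pow_mono hτ hτ1 le_rfl hC hC1 hN)⟩
      m1 := ⟨h.s1, m1.trans (pow_mono hτ hτ1 le_rfl hC hC1 hN)⟩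
      m2 := ⟨h.s2, m2.trans (pow_mono hτ hτ1 le_rfl hC hC1 hN)⟩
      us := fun s s0 s1 => ?_
      u1 := ?_
      v0 := ?_ }
  · have := hs s s0 s1
    rw [hx']
    exact ⟨this.1, this.2.trans (pow_mono hτ hτ1 le_rfl hC hC1 hN)⟩
  · exact pow_mono hτ hτ1 le_rfl (by linarith) hC2 hN
  · have a1 := hs (2 * s) (by linarith) (by linarith)
    have a2 := agmon_fam0 h1 (s := s) h.d1 z0' (by rw [hx']; exact a1.1) b1.1
    rw [hx'] at a2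
    refine ⟨a2.1, ?_⟩
    have a3 := sqrt_pow_bd (r := p + s / 2 + 1 / 4) hτ (N2_nonneg _ _) (N2_nonneg _ _)
      (N2_nonneg _ _) a2.2 (lft a1.2) (lft2 b1.2) (by ring) hCN (by linarith)
    exact upg (A := 4) (a3.trans (le_of_eq (by ring))) (by linarith)
  · have a2 := agmon_fam0 h1 (s := 1) h.d1 z0' (by rw [mul_one]; exact h.s0) b1.1
    rw [mul_one] at a2
    refine ⟨a2.1, ?_⟩
    have a3 := sqrt_pow_bd (r := p + 3 / 4) hτ (N2_nonneg _ _) (N2_nonneg _ _)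
      (N2_nonneg _ _) a2.2 (lft m0) (lft2 b1.2) (by ring) hCN (by linarith)
    exact upg (A := 4) (a3.trans (le_of_eq (by ring))) (by linarith)
  · have a2 := agmon_fam h1 (s := 0) h.d2 (by rw [mul_zero]; exact b1.1) b1.1 h.s2
    rw [mul_zero] at a2
    refine ⟨a2.1, ?_⟩
    -- `N² ≤ x (H⁻¹ x + 2 y) `
    have x0 := N2_nonneg (lam := lam) 0 (io f1)
    have y0 := N2_nonneg (lam := lam) 0 f2
    have xb := b1.2
    have X1 : N2 lam 0 (io f1) ≤ 2 * C * τ ^ (-(p + 1)) * N := xb.trans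
      (pow_mono hτ hτ1 (by linarith) (by linarith) le_rfl hN)
    have Y1 : H⁻¹ * N2 lam 0 (io f1) + 2 * N2 lam 0 f2 ≤
        (2 * H⁻¹ + 2) * (C * N) * τ ^ (-(p + 1)) := by
      have c1 := mul_le_mul_of_nonneg_left X1 hHi
      have : (2 * H⁻¹ + 2) * (C * N) * τ ^ (-(p + 1)) =
        H⁻¹ * (2 * C * τ ^ (-(p + 1)) * N) + 2 * (C * τ ^ (-(p + 1)) * N) := by ring
      rw [this]; linarith
    have hz : N2 lam 0 f1 ^ 2 ≤ 2 * (N2 lam 0 (io f1) *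
        (H⁻¹ * N2 lam 0 (io f1) + 2 * N2 lam 0 f2)) := by
      have c0 : 0 ≤ N2 lam 0 (io f1) * (H⁻¹ * N2 lam 0 (io f1) + 2 * N2 lam 0 f2) := by positivity
      linarith [a2.2]
    have a3 := sqrt_pow_bd (r := p + 3 / 4) (A := 2 * (C * N)) (B := (2 * H⁻¹ + 2) * (C * N)) hτ
      (N2_nonneg _ _) (N2_nonneg _ _) (by positivity) hz (lft2 b1.2) Y1 (by ring) (by linarith)
      (by
        have := mul_nonneg hHi hCN
        calc 2 * (C * N) ≤ 2 * (H⁻¹ * (C * N)) + 2 * (C * N) := by linarith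
          _ = _ := by ring)
    refine upg (A := 4 * H⁻¹ + 4) (a3.trans (le_of_eq (by ring))) (by linarith)

/-- **`f = S(τ) ψ`**: all derivatives up to order two. -/
theorem Geo.SH2_Sg (G : Geo H) : ∃ C, 0 ≤ C ∧ ∀ τ, 0 < τ → τ ≤ 1 → ∀ ψ : HH H,
    ∃ f f1 f2, ∀ r, 0 ≤ r → r ≤ 1 →
      SH2 G.ω G.lam C τ (r / 2) (N2 G.lam (-r) ψ) (Sg G.D.K τ ψ) (G.D.BS τ ψ) f f1 f2 := by
  have hH0 := hH.out
  obtain ⟨C1, hC1, H1⟩ := G.h2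
  obtain ⟨C2, hC2, H2⟩ := G.std.Sg_smb
  obtain ⟨C3, hC3, H3⟩ := G.std.BS_smb
  obtain ⟨C4, hC4, H4⟩ := G.std.AS_smb
  have hK := G.D.K_nonneg
  set C := C2 + C3 + C1 * C4 with hC
  have hC14 : 0 ≤ C1 * C4 := mul_nonneg hC1 hC4
  have hC0 : 0 ≤ C := by rw [hC]; linarith
  have hHi : 0 ≤ H⁻¹ := by positivity
  refine ⟨(4 * H⁻¹ + 16) * C, by positivity, fun τ h0 h1 ψ => ?_⟩
  obtain ⟨f, f1, f2, hf⟩ := H1 (AS G.D.K τ ψ)
  refine ⟨f, f1, f2, fun r r0 r1 => ?_⟩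
  have hN := N2_nonneg (lam := G.lam) (-r) ψ
  have eB : G.D.BS τ ψ = G.D.G (AS G.D.K τ ψ) := Std.BS_eq G.D h0 ψ
  have eS : Sg G.D.K τ ψ = TT G.ω (G.D.G (AS G.D.K τ ψ)) := by
    rw [← K_AS hK h0]; rfl
  rw [eB]
  have tn : ∀ q : ℝ, 0 ≤ τ ^ q := fun q => Real.rpow_nonneg h0.le q
  refine SH2.mk' G.lw.h1 G.lam_k hf h0 h1 hC0 hN (x := Sg G.D.K τ ψ) (fun n => ?_)
    (fun s s0 s1 => ?_) ?_ ?_
  · rw [hf.iof, eS]
  · have := H2 τ h0 h1 s s0 s1 r r0 r1 ψ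
    refine ⟨this.1, this.2.trans ?_⟩
    have e : -(0 + (s + r) / 2) = -(r / 2 + s / 2) := by ring
    rw [e]
    exact pow_mono h0 h1 le_rfl hC2 (by rw [hC]; linarith) hN
  · have := H3 τ h0 h1 0 le_rfl zero_le_one r r0 r1 ψ
    rw [eB] at this
    refine this.2.trans ?_
    have e : -(1 / 2 + (0 + r) / 2) = -(r / 2 + 1 / 2) := by ring
    rw [e]
    exact pow_mono h0 h1 le_rfl hC3 (by rw [hC]; linarith) hN
  · have := H4 τ h0 h1 0 le_rfl zero_le_one r r0 r1 ψ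
    rw [(S2_zero_HH _ G.lam).2] at this
    have h5 := mul_le_mul_of_nonneg_left this.2 hC1
    refine h5.trans ?_
    have e : -(1 + (0 + r) / 2) = -(r / 2 + 1) := by ring
    rw [e]
    calc C1 * (C4 * τ ^ (-(r / 2 + 1)) * N2 G.lam (-r) ψ) =
        (C1 * C4) * τ ^ (-(r / 2 + 1)) * N2 G.lam (-r) ψ := by ring
      _ ≤ _ := pow_mono h0 h1 le_rfl hC14 (by rw [hC]; linarith) hN

/-- **`f = A^{1/2} S(τ) φ`**: all derivatives up to order two. -/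
theorem Geo.SH2_HS (G : Geo H) : ∃ C, 0 ≤ C ∧ ∀ τ, 0 < τ → τ ≤ 1 → ∀ φ : HH H,
    ∃ f f1 f2, SH2 G.ω G.lam C τ (1 / 2) ‖φ‖ (HS G.D.K τ φ) (G.D.G (CS G.D.K τ φ)) f f1 f2 := by
  have hH0 := hH.out
  obtain ⟨C1, hC1, H1⟩ := G.h2
  obtain ⟨C2, hC2, H2⟩ := G.std.HS_smu
  obtain ⟨C3, hC3, H3⟩ := G.std.BS_smu
  have hK := G.D.K_nonneg
  set C := C2 + 16 * C3 + C1 * 16 with hC
  have hC0 : 0 ≤ C := by rw [hC]; linarith
  have hHi : 0 ≤ H⁻¹ := by positivity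
  refine ⟨(4 * H⁻¹ + 16) * C, by positivity, fun τ h0 h1 φ => ?_⟩
  have h2 : 0 < τ / 2 := by linarith
  -- `A^{3/2} S(τ) = A S(τ/2) A^{1/2} S(τ/2)`
  have eC : ∀ y : HH H, CS G.D.K τ y = AS G.D.K (τ / 2) (HS G.D.K (τ / 2) y) := by
    intro y
    unfold CS AS HS
    rw [fA_comp (adm_mul_exp h2) (adm_sqrt_exp h2)]
    congr 1
    refine fA_congr fun l _ => ?_
    have e3 : Real.exp (-(τ * l)) = Real.exp (-(τ / 2 * l)) * Real.exp (-(τ / 2 * l)) := by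
      rw [← Real.exp_add]; congr 1; ring
    rw [e3]; ring
  have eHS : HS G.D.K τ φ = Sg G.D.K (τ / 2) (HS G.D.K (τ / 2) φ) := (sm_HS_half h0 φ).2
  obtain ⟨f, f1, f2, hf⟩ := H1 (CS G.D.K τ φ)
  refine ⟨f, f1, f2, ?_⟩
  have hN := norm_nonneg φ
  have eS : HS G.D.K τ φ = TT G.ω (G.D.G (CS G.D.K τ φ)) := by
    rw [eC, eHS, ← K_AS hK h2]; rfl
  have tn : ∀ q : ℝ, 0 ≤ τ ^ q := fun q => Real.rpow_nonneg h0.le q
  have b1 := sm_HS_norm hK h2 φ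
  have p1 := sm_half_rpow h0 (a := 1 / 2) (by norm_num)
  have b2 : ‖HS G.D.K (τ / 2) φ‖ ≤ 4 * τ ^ (-(1 / 2 : ℝ)) * ‖φ‖ :=
    b1.trans (mul_le_mul_of_nonneg_right p1 hN)
  refine SH2.mk' G.lw.h1 G.lam_k hf h0 h1 hC0 hN (x := HS G.D.K τ φ) (fun n => ?_)
    (fun s s0 s1 => ?_) ?_ ?_
  · rw [hf.iof, eS]
  · have := H2 τ h0 h1 s s0 s1 φ
    exact ⟨this.1, this.2.trans (pow_mono h0 h1 le_rfl hC2 (by rw [hC]; linarith) hN)⟩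
  · have e1 : G.D.G (CS G.D.K τ φ) = G.D.BS (τ / 2) (HS G.D.K (τ / 2) φ) := by
      rw [eC, Std.BS_eq G.D h2]
    have := H3 (τ / 2) h2 (by linarith) 0 le_rfl zero_le_one (HS G.D.K (τ / 2) φ)
    rw [e1]
    refine this.2.trans ?_
    have e : -(1 / 2 + 0 / 2 : ℝ) = -(1 / 2) := by ring
    rw [e]
    have e3 : τ ^ (-(1 / 2 + 1 / 2 : ℝ)) = τ ^ (-(1 / 2 : ℝ)) * τ ^ (-(1 / 2 : ℝ)) := by
      rw [← Real.rpow_add h0]; congr 1; ring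
    calc C3 * (τ / 2) ^ (-(1 / 2 : ℝ)) * ‖HS G.D.K (τ / 2) φ‖
        ≤ C3 * (4 * τ ^ (-(1 / 2 : ℝ))) * (4 * τ ^ (-(1 / 2 : ℝ)) * ‖φ‖) := by
          have := tn (-(1 / 2 : ℝ))
          gcongr
      _ = 16 * C3 * τ ^ (-(1 / 2 + 1 / 2 : ℝ)) * ‖φ‖ := by rw [e3]; ring
      _ ≤ _ := pow_mono h0 h1 le_rfl (by linarith) (by rw [hC]; linarith) hN
  · have a1 : ‖CS G.D.K τ φ‖ ≤ 16 * τ ^ (-(1 / 2 + 1 : ℝ)) * ‖φ‖ := by
      rw [eC]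
      have c1 := sm_AS_norm hK h2 (HS G.D.K (τ / 2) φ)
      have c2 := sm_half_rpow h0 (a := 1) (by norm_num)
      have e3 : τ ^ (-(1 / 2 + 1 : ℝ)) = τ ^ (-(1 : ℝ)) * τ ^ (-(1 / 2 : ℝ)) := by
        rw [← Real.rpow_add h0]; congr 1; ring
      refine c1.trans ?_
      calc (τ / 2) ^ (-(1 : ℝ)) * ‖HS G.D.K (τ / 2) φ‖
          ≤ (4 * τ ^ (-(1 : ℝ))) * (4 * τ ^ (-(1 / 2 : ℝ)) * ‖φ‖) := by
            have := tn (-(1 : ℝ))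
            gcongr
        _ = _ := by rw [e3]; ring
    calc C1 * ‖CS G.D.K τ φ‖ ≤ C1 * (16 * τ ^ (-(1 / 2 + 1 : ℝ)) * ‖φ‖) :=
          mul_le_mul_of_nonneg_left a1 hC1
      _ = (C1 * 16) * τ ^ (-(1 / 2 + 1 : ℝ)) * ‖φ‖ := by ring
      _ ≤ _ := pow_mono h0 h1 le_rfl (by linarith) (by rw [hC]; linarith) hN

end

end Pool.Agent.Lib.MP_79abb3_an.SC
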