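import Pool.Agent.Lib.MP_79abb3_an.SC.LaSmoB
import Pool.Agent.Lib.MP_79abb3_an.SC.LaDD

/-!
MP_79abb3_an, Theorem C, block (i): `S(s) x` in `ℓ¹(CI)` with the bound `s^{-9/16}`.
-/

set_option autoImplicit false
set_option linter.unusedSectionVars false

open MeasureTheory Set Filter Topology Function
open scoped ENNReal InnerProductSpace

attribute [-instance] PreLp.ring

namespace Pool.Agent.Lib.MP_79abb3_an.SC

open Pool.Agent.Lib.MP_79abb3_an.P25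

section
variable {H : ℝ} [hH : Fact (0 < H)]

theorem l1_sq_summable (y : L1 (CI H)) : (Summable fun n => ‖(iota (y n) : Z2 H)‖ ^ 2) ∧
    ∑' n, ‖(iota (y n) : Z2 H)‖ ^ 2 ≤ (√H * ‖y‖) ^ 2 := by
  have h1 := l1_summable y
  have hy : ∀ n, ‖y n‖ ≤ ‖y‖ := fun n => by
    rw [l1_norm]
    exact h1.le_tsum n fun _ _ => norm_nonneg _
  have key : ∀ n, ‖(iota (y n) : Z2 H)‖ ^ 2 ≤ (√H) ^ 2 * ‖y‖ * ‖y n‖ := fun n => by
    have h2 := norm_iota_le (y n)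
    have h3 := pow_le_pow_left₀ (norm_nonneg _) h2 2
    calc ‖(iota (y n) : Z2 H)‖ ^ 2 ≤ (√H * ‖y n‖) ^ 2 := h3
      _ = (√H) ^ 2 * (‖y n‖ * ‖y n‖) := by ring
      _ ≤ (√H) ^ 2 * (‖y‖ * ‖y n‖) := by
          gcongr
          exact hy n
      _ = _ := by ring
  have hs : Summable fun n => ‖(iota (y n) : Z2 H)‖ ^ 2 :=
    Summable.of_nonneg_of_le (fun n => sq_nonneg _) key (h1.mul_left _)
  refine ⟨hs, (hs.tsum_le_tsum key (h1.mul_left _)).trans (le_of_eq ?_)⟩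
  rw [tsum_mul_left, ← l1_norm]
  ring

/-- The embedding `ℓ¹(CI) → HH`. -/
noncomputable def i1 : L1 (CI H) →L[ℂ] HH H :=
  LinearMap.mkContinuous
    { toFun := fun y => mkl2 (fun n => iota (y n)) (l1_sq_summable y).1
      map_add' := fun x y => by
        ext1
        funext n
        show iota ((x + y) n) = iota (x n) + iota (y n)
        rw [lp.coeFn_add, Pi.add_apply, map_add]
      map_smul' := fun c x => by
        ext1
        funext n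
        show iota ((c • x) n) = c • iota (x n)
        rw [lp.coeFn_smul, Pi.smul_apply, map_smul] } (√H) (fun y => by
      have hH0 := hH.out
      show ‖mkl2 _ (l1_sq_summable y).1‖ ≤ √H * ‖y‖
      refine (pow_le_pow_iff_left₀ (norm_nonneg _) (by positivity) two_ne_zero).1 ?_
      rw [norm_sq_mkl2]
      exact (l1_sq_summable y).2)

theorem i1_apply (y : L1 (CI H)) (n : ℤ) : i1 y n = iota (y n) := rfl

theorem i1_inj (y : L1 (CI H)) (h : i1 y = 0) : y = 0 := by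
  ext1
  funext n
  refine iota_injective ?_
  have h1 := congrArg (fun x : HH H => x n) h
  have h2 : iota (y n) = 0 := h1
  rw [h2]
  exact (map_zero iota).symm

/-- Square summable families with a weight `> 1/2` are summable. -/
theorem l1_of_S2 {E : Type} [NormedAddCommGroup E] {lam : ℤ → ℝ} (h1 : ∀ n, 1 ≤ lam n) {s : ℝ}
    (hs : Summable fun n => (lam n ^ (-s)) ^ 2) {x : ℤ → E} (hx : S2 lam s x) :
    (Summable fun n => ‖x n‖) ∧ ∑' n, ‖x n‖ ≤ √(∑' n, (lam n ^ (-s)) ^ 2) * N2 lam s x := by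
  have l0 : ∀ n, 0 < lam n := fun n => by linarith [h1 n]
  have h2 := cs_tsum (x := fun n => lam n ^ (-s)) (y := fun n => lam n ^ s * ‖x n‖)
    (fun n => Real.rpow_nonneg (l0 n).le _)
    (fun n => mul_nonneg (Real.rpow_nonneg (l0 n).le _) (norm_nonneg _)) hs hx
  have e : ∀ n, lam n ^ (-s) * (lam n ^ s * ‖x n‖) = ‖x n‖ := fun n => by
    rw [← mul_assoc, ← Real.rpow_add (l0 n), neg_add_cancel, Real.rpow_zero, one_mul]
  simp only [e] at h2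
  exact h2

/-- `lam^{5/8} ‖T F‖_∞ ≤ C lam^{1/8} ‖F‖` -/
theorem Tz58 {ω Cl : ℝ} {lam : ℤ → ℝ} (h1 : ∀ n, 1 ≤ lam n) (hCl : 0 ≤ Cl)
    (hle : ∀ n : ℤ, lam n ≤ Cl * (1 + |ω * n|)) {F : HH H} (hF : S2 lam (1 / 8) F) :
    S2 lam (5 / 8) (fun n : ℤ => Tz (ω * n) (F n)) ∧
      N2 lam (5 / 8) (fun n : ℤ => Tz (ω * n) (F n)) ≤ √(Cl * (H + 1)) * N2 lam (1 / 8) F := by
  have hH0 := hH.out
  have l0 : ∀ n, 0 < lam n := fun n => by linarith [h1 n]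
  have hp : 0 ≤ Cl * (H + 1) := by positivity
  have key : ∀ n : ℤ, (lam n ^ (5 / 8 : ℝ) * ‖Tz (ω * n) (F n)‖) ^ 2 ≤
      (Cl * (H + 1)) * (lam n ^ (1 / 8 : ℝ) * ‖F n‖) ^ 2 := by
    intro n
    obtain ⟨a1, a2⟩ := Tz_sup_sq (ω * n) (F n)
    have e : (lam n ^ (5 / 8 : ℝ)) ^ 2 = lam n * (lam n ^ (1 / 8 : ℝ)) ^ 2 := by
      rw [← Real.rpow_natCast (lam n ^ (5 / 8 : ℝ)) 2, ← Real.rpow_mul (l0 n).le,
        ← Real.rpow_natCast (lam n ^ (1 / 8 : ℝ)) 2, ← Real.rpow_mul (l0 n).le,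
        mul_comm (lam n), ← Real.rpow_add_one (l0 n).ne']
      congr 1
      norm_num
    have h3 : lam n * ‖Tz (ω * n) (F n)‖ ^ 2 ≤ (Cl * (H + 1)) * ‖F n‖ ^ 2 := by
      have h4 : |ω * n| * ‖Tz (ω * n) (F n)‖ ^ 2 ≤ ‖F n‖ ^ 2 := by
        have := sq_nonneg ‖F n‖
        linarith
      calc lam n * ‖Tz (ω * n) (F n)‖ ^ 2 ≤ Cl * (1 + |ω * n|) * ‖Tz (ω * n) (F n)‖ ^ 2 :=
            mul_le_mul_of_nonneg_right (hle n) (sq_nonneg _)
        _ = Cl * (‖Tz (ω * n) (F n)‖ ^ 2 + |ω * n| * ‖Tz (ω * n) (F n)‖ ^ 2) := by ring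
        _ ≤ Cl * (H * ‖F n‖ ^ 2 + ‖F n‖ ^ 2) := by gcongr
        _ = _ := by ring
    calc (lam n ^ (5 / 8 : ℝ) * ‖Tz (ω * n) (F n)‖) ^ 2 =
          (lam n ^ (1 / 8 : ℝ)) ^ 2 * (lam n * ‖Tz (ω * n) (F n)‖ ^ 2) := by rw [mul_pow, e]; ring
      _ ≤ (lam n ^ (1 / 8 : ℝ)) ^ 2 * ((Cl * (H + 1)) * ‖F n‖ ^ 2) :=
          mul_le_mul_of_nonneg_left h3 (sq_nonneg _)
      _ = _ := by ring
  have hs : S2 lam (5 / 8) (fun n : ℤ => Tz (ω * n) (F n)) :=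
    Summable.of_nonneg_of_le (fun n => sq_nonneg _) key (hF.mul_left _)
  refine ⟨hs, ?_⟩
  have h0 := N2_nonneg (lam := lam) (1 / 8) F
  refine (pow_le_pow_iff_left₀ (N2_nonneg _ _) (by positivity) two_ne_zero).1 ?_
  rw [mul_pow, N2_sq, N2_sq, Real.sq_sqrt hp, ← tsum_mul_left]
  exact hs.tsum_le_tsum key (hF.mul_left _)

variable (G : Geo H)

/-- The modes of `S(s) x` are summable, with the bound. -/
theorem Geo.l1_bd : ∃ C, 0 ≤ C ∧ ∀ s, 0 < s → s ≤ 1 → ∀ x : HH H,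
    (Summable fun n : ℤ => ‖Tz (G.ω * n) (G.D.BS s x n)‖) ∧
      ∑' n : ℤ, ‖Tz (G.ω * n) (G.D.BS s x n)‖ ≤ C * s ^ (-(9 / 16 : ℝ)) * ‖x‖ := by
  have hH0 := hH.out
  obtain ⟨C, hC, hB⟩ := G.std.BS_smu
  have hN := G.std.Cl0
  have pw := G.prW (α := 5 / 8) (β := 0) (γ := 0) (by norm_num) le_rfl le_rfl (by norm_num)
  have hs := pw.hs
  have e0 : (5 / 8 + 0 + 0 : ℝ) = 5 / 8 := by norm_num
  rw [e0] at hs
  obtain ⟨A, hA⟩ : ∃ A, A = √(∑' n, (G.lam n ^ (-(5 / 8) : ℝ)) ^ 2) := ⟨_, rfl⟩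
  obtain ⟨A2, hA2⟩ : ∃ A, A = √(G.N₀ * (H + 1)) := ⟨_, rfl⟩
  have hA0 : 0 ≤ A := by rw [hA]; exact Real.sqrt_nonneg _
  have hA20 : 0 ≤ A2 := by rw [hA2]; exact Real.sqrt_nonneg _
  refine ⟨A * (A2 * C), mul_nonneg hA0 (mul_nonneg hA20 hC), fun s h0 h1 x => ?_⟩
  have b := hB s h0 h1 (1 / 8) (by norm_num) (by norm_num) x
  have e1 : -(1 / 2 + 1 / 8 / 2 : ℝ) = -(9 / 16 : ℝ) := by norm_num
  rw [e1] at b
  have t := Tz58 G.lw.h1 hN G.lam_le b.1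
  have l := l1_of_S2 G.lw.h1 hs t.1
  refine ⟨l.1, l.2.trans ?_⟩
  rw [← hA]
  calc A * N2 G.lam (5 / 8) (fun n : ℤ => Tz (G.ω * n) (G.D.BS s x n))
      ≤ A * (A2 * (C * s ^ (-(9 / 16 : ℝ)) * ‖x‖)) := by
        refine mul_le_mul_of_nonneg_left (t.2.trans ?_) hA0
        rw [← hA2]
        exact mul_le_mul_of_nonneg_left b.2 hA20
    _ = _ := by ring

/-- **The instance of `Smo` in `ℓ¹(CI)`.** -/
theorem Geo.smo : ∃ (ι : L1 (CI H) →L[ℂ] HH H) (P : ℝ → HH H →L[ℂ] L1 (CI H)) (C θ : ℝ),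
    (∀ y n, ι y n = iota (y n)) ∧ Smo G.D.K ι P C θ := by
  obtain ⟨C, hC, hb⟩ := G.l1_bd
  have hK := G.D.K_nonneg
  -- the operator for `0 < s ≤ 1`
  have hex : ∀ s : ℝ, 0 < s → s ≤ 1 → ∃ P : HH H →L[ℂ] L1 (CI H),
      (∀ x, ∀ n : ℤ, P x n = Tz (G.ω * n) (G.D.BS s x n)) ∧
      ∀ x, ‖P x‖ ≤ C * s ^ (-(9 / 16 : ℝ)) * ‖x‖ := by
    intro s h0 h1
    let P : HH H →L[ℂ] L1 (CI H) := LinearMap.mkContinuous
      { toFun := fun x => mkL1 _ (hb s h0 h1 x).1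
        map_add' := fun x y => by
          ext1
          funext n
          show Tz (G.ω * n) (G.D.BS s (x + y) n) =
            Tz (G.ω * n) (G.D.BS s x n) + Tz (G.ω * n) (G.D.BS s y n)
          rw [map_add, lp.coeFn_add, Pi.add_apply, map_add]
        map_smul' := fun c x => by
          ext1
          funext n
          show Tz (G.ω * n) (G.D.BS s (c • x) n) = c • Tz (G.ω * n) (G.D.BS s x n)
          rw [map_smul, lp.coeFn_smul, Pi.smul_apply, map_smul] } (C * s ^ (-(9 / 16 : ℝ))) (fun x => by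
        show ‖mkL1 _ (hb s h0 h1 x).1‖ ≤ _
        rw [norm_mkL1]
        exact (hb s h0 h1 x).2)
    refine ⟨P, fun x n => rfl, fun x => ?_⟩
    show ‖mkL1 _ (hb s h0 h1 x).1‖ ≤ _
    rw [norm_mkL1]
    exact (hb s h0 h1 x).2
  choose P hP1 hP2 using hex
  have hiP : ∀ s h0 h1 x, i1 (P s h0 h1 x) = Sg G.D.K s x := by
    intro s h0 h1 x
    have eS : Sg G.D.K s x = TT G.ω (G.D.BS s x) := by
      have h2 := G.D.isKh.bTQ (HS G.D.K s x)
      have h3 : Kh G.D.K (HS G.D.K s x) = Sg G.D.K s x := by rw [← Kh_HS hK h0]; rfl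
      rw [h3] at h2
      exact h2.symm
    ext1
    funext n
    rw [i1_apply, hP1, eS, TT_apply, T2_apply]
  refine ⟨i1, fun s => if h : 0 < s ∧ s ≤ 1 then P s h.1 h.2 else
    P 1 one_pos le_rfl ∘L Sg G.D.K (s - 1), C, 9 / 16, fun y n => rfl,
    { hK := hK
      hi := G.D.K_injective
      inj := i1_inj
      eq := fun s h0 x => ?_
      C0 := hC
      th0 := by norm_num
      th1 := by norm_num
      nb := fun s h0 h1 x => ?_ }⟩
  · by_cases h : 0 < s ∧ s ≤ 1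
    · rw [dif_pos h]; exact hiP s h.1 h.2 x
    · rw [dif_neg h]
      have h1 : 1 < s := by
        by_contra hc
        exact h ⟨h0, not_lt.1 hc⟩
      show i1 (P 1 one_pos le_rfl (Sg G.D.K (s - 1) x)) = _
      rw [hiP]
      have := Sg_add (K := G.D.K) (s := 1) (t := s - 1) zero_le_one (by linarith)
      rw [add_sub_cancel] at this
      rw [this]; rfl
  · rw [dif_pos ⟨h0, h1⟩]
    exact hP2 s h0 h1 x

end

end Pool.Agent.Lib.MP_79abb3_an.SC
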