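import Pool.Agent.Lib.MP_79abb3_an.SC.MnDef
import Pool.Agent.Lib.MP_79abb3_an.SC.PieceInt

/-!
Theorem C, assembly: concatenation of arcs and the chain flush, small data, null control, zero.
-/

set_option autoImplicit false
set_option linter.unusedSectionVars false

open MeasureTheory Set Filter Topology Function
open scoped ENNReal InnerProductSpace

namespace Pool.Agent.Lib.MP_79abb3_an.SC

open Pool.Agent.Lib.MP_79abb3_an.P25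

section
variable {H : ℝ} [hH : Fact (0 < H)]

theorem Rl.zero : Rl (0 : HH H) := by
  intro n
  apply Z2_ext
  have h1 := Lp.coeFn_star (0 : Z2 H)
  have h2 := Lp.coeFn_zero ℂ 2 (mH H)
  filter_upwards [h1, h2] with z e1 e2
  show (0 : Z2 H) z = (star (0 : Z2 H) : Z2 H) z
  rw [e1, Pi.star_apply, e2, Pi.zero_apply, star_zero]

theorem Vf_zero (ω : ℝ) (n : ℤ) : Vf ω (fun n => (0 : HH H) n) n = 0 := by
  show Tz (ω * n) (0 : Z2 H) = 0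
  exact map_zero _

theorem fV_zero (ω : ℝ) (q : ℝ × ℝ) : fV ω (0 : HH H) q = 0 := by
  have h : ∀ n : ℤ, uV ω (Vf ω (fun n => (0 : HH H) n)) n = 0 := by
    intro n
    have := Vf_zero (H := H) ω n
    unfold uV
    rw [this, map_zero, map_zero]
    apply ci_ext
    intro z _
    show (0:ℂ) - ka ω n * 0 = 0
    ring
  unfold fV fld
  have e : ∀ n : ℤ, ex (uV ω (Vf ω (fun n => (0 : HH H) n)) n) q.2 * ee ω n q.1 = 0 := by
    intro n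
    rw [h n]
    have : ex (0 : CI H) q.2 = 0 := rfl
    rw [this, zero_mul]
  show (∑' n : ℤ, ex (uV ω (Vf ω (fun n => (0 : HH H) n)) n) q.2 * ee ω n q.1).re = 0
  rw [tsum_congr e, tsum_zero, Complex.zero_re]

theorem fW_zero (ω : ℝ) (q : ℝ × ℝ) : fW ω (0 : HH H) q = 0 := by
  have h : ∀ n : ℤ, wV ω (Vf ω (fun n => (0 : HH H) n)) n = 0 := by
    intro n
    have := Vf_zero (H := H) ω n
    unfold wV
    rw [this, map_zero, map_zero]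
    apply ci_ext
    intro z _
    show -kI ω n * (0:ℂ) = 0
    ring
  have e : ∀ n : ℤ, ex (wV ω (Vf ω (fun n => (0 : HH H) n)) n) q.2 * ee ω n q.1 = 0 := by
    intro n
    rw [h n]
    have : ex (0 : CI H) q.2 = 0 := rfl
    rw [this, zero_mul]
  show (∑' n : ℤ, ex (wV ω (Vf ω (fun n => (0 : HH H) n)) n) q.2 * ee ω n q.1).re = 0
  rw [tsum_congr e, tsum_zero, Complex.zero_re]

namespace Geo
variable {G : Geo H} {a : ℝ × ℝ → ℝ} {h : ℝ}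

theorem St.zero : G.St 0 := by
  refine ⟨Rl.zero, 0, ?_⟩
  rw [map_zero]
  exact DDC.zero

theorem fl_zero : G.Fl h 0 (fun _ => 0) (fun _ => 0) := by
  intro y z _
  rw [map_zero, fV_zero, fW_zero]
  exact ⟨rfl, rfl⟩

theorem Fl.congr {x : HH H} {v w v' w' : ℝ × ℝ → ℝ} (hf : G.Fl h x v w)
    (hv : ∀ q : ℝ × ℝ, q.2 ∈ Icc 0 h → v' q = v q) (hw : ∀ q : ℝ × ℝ, q.2 ∈ Icc 0 h → w' q = w q) :
    G.Fl h x v' w' := by
  intro y z hz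
  rw [hv (y, z) hz, hw (y, z) hz]
  exact hf y z hz

/-- A no-slip piece on `[t₀, t₁]` from `x₀` to `x₁`. -/
def Arc' (G : Geo H) (a : ℝ × ℝ → ℝ) (h t₀ t₁ : ℝ) (x₀ x₁ : HH H) (v w : ℝ → ℝ × ℝ → ℝ) : Prop :=
  Piece H h a t₀ t₁ v w ∧ NoSlip t₀ t₁ v w ∧ G.Fl h x₀ (v t₀) (w t₀) ∧ G.Fl h x₁ (v t₁) (w t₁)

theorem Arc'.shift {t₀ t₁ : ℝ} {x₀ x₁ : HH H} {v w : ℝ → ℝ × ℝ → ℝ}
    (A : G.Arc' a h t₀ t₁ x₀ x₁ v w) (s : ℝ) :
    G.Arc' a h (t₀ + s) (t₁ + s) x₀ x₁ (fun t => v (t - s)) (fun t => w (t - s)) := by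
  obtain ⟨h1, h2, h3, h4⟩ := A
  refine ⟨h1.shift s, fun t ht => h2 (t - s) ⟨by linarith [ht.1], by linarith [ht.2]⟩, ?_, ?_⟩
  · show G.Fl h x₀ (v (t₀ + s - s)) (w (t₀ + s - s))
    rw [add_sub_cancel_right]; exact h3
  · show G.Fl h x₁ (v (t₁ + s - s)) (w (t₁ + s - s))
    rw [add_sub_cancel_right]; exact h4

theorem Arc'.trans (ha : ContDiffOn ℝ 1 a (univ ×ˢ Ioo 0 h)) {t₀ t₁ t₂ : ℝ} {x₀ x₁ x₂ : HH H}
    {v w v' w' : ℝ → ℝ × ℝ → ℝ} (A : G.Arc' a h t₀ t₁ x₀ x₁ v w) (B : G.Arc' a h t₁ t₂ x₁ x₂ v' w')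
    (h01 : t₀ ≤ t₁) (h12 : t₁ ≤ t₂) :
    ∃ v'' w'', G.Arc' a h t₀ t₂ x₀ x₂ v'' w'' := by
  obtain ⟨a1, a2, a3, a4⟩ := A
  obtain ⟨b1, b2, b3, b4⟩ := B
  have ev : ∀ q : ℝ × ℝ, q.2 ∈ Icc 0 h → v' t₁ q = v t₁ q := fun q hq => by
    have e1 := (a4 q.1 q.2 hq).1
    have e2 := (b3 q.1 q.2 hq).1
    exact e2.trans e1.symm
  have ew : ∀ q : ℝ × ℝ, q.2 ∈ Icc 0 h → w' t₁ q = w t₁ q := fun q hq => by
    have e1 := (a4 q.1 q.2 hq).2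
    have e2 := (b3 q.1 q.2 hq).2
    exact e2.trans e1.symm
  refine ⟨_, _, a1.glue' ha b1 h01 h12 ev ew, ?_, ?_, ?_⟩
  · intro t ht y
    show (if t ≤ t₁ then v t else v' t) (y, 0) = 0 ∧ (if t ≤ t₁ then w t else w' t) (y, 0) = 0
    by_cases hc : t ≤ t₁
    · rw [if_pos hc, if_pos hc]; exact a2 t ⟨ht.1, hc⟩ y
    · rw [if_neg hc, if_neg hc]; exact b2 t ⟨(not_le.1 hc).le, ht.2⟩ y
  · show G.Fl h x₀ (if t₀ ≤ t₁ then v t₀ else v' t₀) (if t₀ ≤ t₁ then w t₀ else w' t₀)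
    rw [if_pos h01, if_pos h01]; exact a3
  · show G.Fl h x₂ (if t₂ ≤ t₁ then v t₂ else v' t₂) (if t₂ ≤ t₁ then w t₂ else w' t₂)
    by_cases hc : t₂ ≤ t₁
    · have e : t₂ = t₁ := le_antisymm hc h12
      rw [if_pos hc, if_pos hc]
      refine b4.congr ?_ ?_
      · intro q hq; rw [e]; exact (ev q hq).symm
      · intro q hq; rw [e]; exact (ew q hq).symm
    · rw [if_neg hc, if_neg hc]; exact b4

theorem Arc.arc' {T : ℝ} {x₀ x₁ : HH H} (A : G.Arc a h T x₀ x₁) (s : ℝ) :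
    ∃ v w, G.Arc' a h s (s + T) x₀ x₁ v w := by
  obtain ⟨_, v, w, h1, h2, h3, h4⟩ := A
  have B : G.Arc' a h 0 T x₀ x₁ v w := ⟨h1, h2, h3, h4⟩
  have := B.shift s
  rw [zero_add, add_comm T s] at this
  exact ⟨_, _, this⟩

theorem Arc.trans (ha : ContDiffOn ℝ 1 a (univ ×ˢ Ioo 0 h)) {T T' : ℝ} (hT : 0 ≤ T) (hT' : 0 ≤ T')
    {x₀ x₁ x₂ : HH H} (A : G.Arc a h T x₀ x₁) (B : G.Arc a h T' x₁ x₂) : G.Arc a h (T + T') x₀ x₂ := by
  obtain ⟨v, w, A'⟩ := A.arc' 0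
  obtain ⟨v', w', B'⟩ := B.arc' T
  rw [zero_add] at A'
  obtain ⟨v'', w'', h1, h2, h3, h4⟩ := A'.trans ha B' hT (by linarith)
  exact ⟨B.1, v'', w'', h1, h2, h3, h4⟩

theorem Arc.zero (T : ℝ) : G.Arc a h T 0 0 :=
  ⟨St.zero, _, _, Piece.zero, fun _ _ _ => ⟨rfl, rfl⟩, fl_zero, fl_zero⟩

theorem Arc.start {T : ℝ} {x₀ x₀' x₁ : HH H} (A : G.Arc a h T x₀' x₁)
    (e : ∀ v w, G.Fl h x₀ v w ↔ G.Fl h x₀' v w) : G.Arc a h T x₀ x₁ := by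
  obtain ⟨h0, v, w, h1, h2, h3, h4⟩ := A
  exact ⟨h0, v, w, h1, h2, (e _ _).2 h3, h4⟩

/-- Two states with the same velocity below the height `h`. -/
theorem Fl.iff {x x' : HH H} (e : ∀ v w, G.Fl h x v w → G.Fl h x' v w) (v w : ℝ × ℝ → ℝ) :
    G.Fl h x v w ↔ G.Fl h x' v w := by
  refine ⟨e v w, fun hf => ?_⟩
  have h1 : G.Fl h x (fV G.ω (G.Qd x)) (fW G.ω (G.Qd x)) := fun y z _ => ⟨rfl, rfl⟩
  have h2 := e _ _ h1
  intro y z hz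
  obtain ⟨a1, a2⟩ := hf y z hz
  obtain ⟨b1, b2⟩ := h2 y z hz
  exact ⟨a1.trans b1.symm, a2.trans b2.symm⟩

/-- From every state to zero in arbitrarily short time. -/
theorem chain (ha : ContDiffOn ℝ 1 a (univ ×ˢ Ioo 0 h)) (hN : G.NullThm a h) (hS : G.SmallThm a h)
    (hF : G.FlushThm a h) (hR : G.RecutThm h) {x : HH H} (hx : G.St x) {T : ℝ} (hT : 0 < T) :
    G.Arc a h T x 0 := by
  obtain ⟨x', hx', hlow, hfl⟩ := hR x hx
  set Tn := min (1 / 2) (T / 4) with hTn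
  set Ts := min 1 (T / 4) with hTs
  have hn0 : 0 < Tn := lt_min (by norm_num) (by linarith)
  have hs0 : 0 < Ts := lt_min one_pos (by linarith)
  have hn1 : Tn ≤ T / 4 := min_le_right _ _
  have hs1 : Ts ≤ T / 4 := min_le_right _ _
  obtain ⟨ε, hε, hnull⟩ := hN Tn hn0 (min_le_left _ _)
  obtain ⟨δ, hδ, hsmall⟩ := hS Ts hs0 (min_le_left _ _) ε hε
  obtain ⟨t, ht0, htT, x₁, hx₁, A₁⟩ := hF x' hx' hlow (T / 4) (by linarith) δ hδ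
  obtain ⟨x₂, hx₂, A₂⟩ := hsmall x₁ A₁.1 hx₁
  have A₃ := hnull x₂ A₂.1 hx₂
  have B := ((A₁.trans ha ht0.le hs0.le A₂).trans ha (by linarith) hn0.le A₃).trans ha
    (T' := T - (t + Ts + Tn)) (by linarith) (by linarith) (Arc.zero _)
  rw [add_sub_cancel] at B
  exact B.start (Fl.iff hfl)

end Geo

end

end Pool.Agent.Lib.MP_79abb3_an.SC
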