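import Pool.Agent.Lib.MP_79abb3_an.SC.ChFinE
import Pool.Agent.Lib.MP_79abb3_an.SC.ChGeoB
import Pool.Agent.Lib.MP_79abb3_an.SC.ExQ
import Pool.Agent.Lib.MP_79abb3_an.SC.FlFin
import Pool.Agent.Lib.MP_79abb3_an.SC.MnC
import Pool.Agent.Lib.MP_79abb3_an.SC.PzH
import Pool.Agent.Lib.MP_79abb3_an.SC.RcB

/-!
Theorem C, assembly: the strip theorem for smooth data.
-/

set_option autoImplicit false
set_option linter.unusedSectionVars false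

open MeasureTheory Set Filter Topology Function
open scoped ENNReal InnerProductSpace

namespace Pool.Agent.Lib.MP_79abb3_an.SC

open Pool.Agent.Lib.MP_79abb3_an.P25

/-- the data of a strip solution matter on the cell only -/
theorem StripSol.congr_data {H h T : ℝ} {a : ℝ × ℝ → ℝ} {v w : ℝ → ℝ × ℝ → ℝ}
    {v₀ w₀ v₁ w₁ : ℝ × ℝ → ℝ} (S : StripSol H h a T v w v₀ w₀)
    (e : ∀ q ∈ Icc (-H) H ×ˢ Icc 0 h, v₀ q = v₁ q ∧ w₀ q = w₁ q) : StripSol H h a T v w v₁ w₁ := by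
  have hm : MeasurableSet (Icc (-H) H ×ˢ Icc 0 h : Set (ℝ × ℝ)) := measurableSet_Icc.prod measurableSet_Icc
  refine ⟨S.piece, S.grad, S.bdd, S.meas₁.ae_eq ?_, S.meas₂.ae_eq ?_, ?_⟩
  · rw [EventuallyEq, ae_restrict_iff' hm]
    exact Eventually.of_forall fun q hq => (e q hq).1
  · rw [EventuallyEq, ae_restrict_iff' hm]
    exact Eventually.of_forall fun q hq => (e q hq).2
  · refine S.init.congr fun t => ?_
    refine setIntegral_congr_fun hm fun q hq => ?_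
    show (v t q - v₀ q) ^ 2 + (w t q - w₀ q) ^ 2 = (v t q - v₁ q) ^ 2 + (w t q - w₁ q) ^ 2
    rw [(e q hq).1, (e q hq).2]

section
variable {H : ℝ} [hH : Fact (0 < H)] {a ψ : ℝ × ℝ → ℝ}

namespace Geo

theorem phase0Thm (G : Geo H) (hBig : G.Big) {h : ℝ} (hh0 : 0 ≤ h) (hh : h ≤ G.ρ) (ha : PY H a)
    (hGa : G.a = fam a) (hψ : PY H ψ) (ht : VanT H ψ) {S : Set ℝ}
    (hS : ∀ y ∈ S, y ∈ Icc (-H) H ∧ gz ψ (y, 0) = 0 ∧ gy ψ (y, 0) = 0) :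
    G.Phase0Thm a h S (gz ψ) (fun q => -gy ψ q) := by
  intro T hT
  have hP := G.pcT ha hGa G.hω (hh.trans G.ρH.le)
  obtain ⟨t, ht0, htT, x₁, hx₁, v, w, h1, h2, h3, h4⟩ :=
    G.phase0 hBig G.tfex G.smT hP hh0 hh ha hGa hψ ht St.zero T hT
  refine ⟨t, ht0, htT, x₁, hx₁, v, w, ?_, ?_, h4⟩
  · refine (h1.strip ht0).congr_data fun q hq => ?_
    obtain ⟨e1, e2⟩ := h2 q.1 hq.1 q.2 hq.2
    rw [map_zero, fV_zero, zero_add] at e1
    rw [map_zero, fW_zero, zero_sub] at e2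
    exact ⟨e1, e2⟩
  · intro s hs y hy
    obtain ⟨k1, k2, k3⟩ := hS y hy
    exact h3 s ⟨hs.1.le, hs.2⟩ y k1 k2 k3

end Geo

end

/-- **The strip theorem for smooth stream functions.** -/
theorem stripAll : StripAll := by
  intro r hr a ha h0 ψ₀ hψ hv
  have hf : Fact (0 < r + 2) := ⟨by linarith⟩
  obtain ⟨G, g1, g2, -, g3, g4, -⟩ := exists_geo_big ha h0 1 (ρ := r + 1) (by linarith) (by linarith)
  have hh0 : 0 ≤ r + 1 / 2 := by linarith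
  have hh : r + 1 / 2 ≤ G.ρ := by rw [g3]; linarith
  have hh' : r + 1 / 2 < G.ρ := by rw [g3]; linarith
  have hP := G.pcT ha g1 G.hω (hh.trans G.ρH.le)
  have hV : VanT (r + 2) ψ₀ := by
    refine ⟨1, one_pos, fun y z hz => hv y z (Or.inr ?_)⟩
    rw [abs_of_nonneg (by linarith)]
    linarith
  refine Geo.strip ((ha.smooth.of_le (by simp)).contDiffOn) (G.nullThm ha g1 g4 hh0 hh)
    (G.smallThm g2 ha g1 g4 hh0 hh) (G.flush_thm g2 G.tfex hP G.smT hh0 hh) (G.recut hh')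
    (G.phase0Thm g2 hh0 hh ha g1 hψ hV ?_)
  rintro y ⟨k1, k2, k3⟩
  have := abs_le.1 k1
  exact ⟨⟨by linarith, by linarith⟩, k2, k3⟩

/-- **Theorem C for smooth data.** -/
theorem smooth_main {F : ℂ → ℂ} {Ω Γ : Set ℂ} (hD : IsDom F Ω Γ) {T : ℝ} (hT : 0 < T) {Ψ : ℂ → ℝ}
    (hΨ : ContDiff ℝ ((⊤ : ℕ∞) : WithTop ℕ∞) Ψ) (hw : ∀ x ∈ frontier Ω \ Γ, fderiv ℝ Ψ x = 0) :
    ∃ u : ℝ × ℂ → ℂ, IsLeray Ω Γ T (gradPerp Ψ) u ∧ ∀ x ∈ closure Ω, u (T, x) = 0 :=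
  final_smooth stripAll weightAll hD hT hΨ hw

end Pool.Agent.Lib.MP_79abb3_an.SC
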