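import Pool.Agent.Lib.MP_79abb3_an.SC.LaF

/-!
MP_79abb3_an, Theorem C, block (iv): calculus on `HH H` (multiplication by functions of `z`,
weak `z`-derivatives, the relation `y = D x`).
-/

set_option autoImplicit false
set_option linter.unusedSectionVars false

open MeasureTheory Set Filter Topology Function
open scoped ENNReal InnerProductSpace

namespace Pool.Agent.Lib.MP_79abb3_an.SC

open Pool.Agent.Lib.MP_79abb3_an.P25

section
variable {H : ℝ} [hH : Fact (0 < H)]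

/-! ### Multiplication by functions of `z` -/

/-- Multiplication of all modes by a function of `z`. -/
noncomputable def mb (b : CI H) : HH H →L[ℂ] HH H := dg fun _ : ℤ => mz b

theorem mb_apply (b : CI H) (x : HH H) (n : ℤ) : mb b x n = mz b (x n) :=
  dg_apply (fun _ => norm_mz_le b) x n

theorem norm_mb_le (b : CI H) : ‖(mb b : HH H →L[ℂ] HH H)‖ ≤ ‖b‖ := norm_dg_le fun _ => norm_mz_le b

theorem norm_mb_apply_le (b : CI H) (x : HH H) : ‖mb b x‖ ≤ ‖b‖ * ‖x‖ :=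
  ((mb b).le_opNorm x).trans (mul_le_mul_of_nonneg_right (norm_mb_le b) (norm_nonneg _))

theorem mb_mul (b c : CI H) (x : HH H) : mb (b * c) x = mb b (mb c x) := by
  ext1
  funext n
  rw [mb_apply, mb_apply, mb_apply, mz_mul]

theorem mb_comm (b c : CI H) (x : HH H) : mb b (mb c x) = mb c (mb b x) := by
  rw [← mb_mul, ← mb_mul, mul_comm]

theorem mb_add (b c : CI H) (x : HH H) : mb (b + c) x = mb b x + mb c x := by
  ext1
  funext n
  rw [lp.coeFn_add, Pi.add_apply, mb_apply, mb_apply, mb_apply, map_add, add_apply]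

theorem mb_sub (b c : CI H) (x : HH H) : mb (b - c) x = mb b x - mb c x := by
  ext1
  funext n
  rw [lp.coeFn_sub, Pi.sub_apply, mb_apply, mb_apply, mb_apply, map_sub, sub_apply]

theorem mb_smul (c : ℂ) (b : CI H) (x : HH H) : mb (c • b) x = c • mb b x := by
  ext1
  funext n
  rw [lp.coeFn_smul, Pi.smul_apply, mb_apply, mb_apply, map_smul, smul_apply]

theorem mb_one (x : HH H) : mb 1 x = x := by
  ext1
  funext n
  rw [mb_apply, mz_one]

/-- Adjoint for real functions. -/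
theorem inner_mb {b : CI H} (hb : star b = b) (x y : HH H) : ⟪mb b x, y⟫_ℂ = ⟪x, mb b y⟫_ℂ := by
  refine inner_dg (fun _ => norm_mz_le b) (fun _ => norm_mz_le b) (fun n f g => ?_) x y
  rw [inner_mz, hb]

theorem mz_norm_mono {b c : CI H} (h : ∀ z ∈ Icc (0:ℝ) H, ‖ex b z‖ ≤ ‖ex c z‖) (f : Z2 H) :
    ‖mz b f‖ ≤ ‖mz c f‖ := by
  apply Lp.norm_le_norm_of_ae_le
  filter_upwards [coe_mz b f, coe_mz c f, ae_restrict_mem measurableSet_Ioc] with z h1 h2 h3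
  rw [h1, h2, norm_mul, norm_mul]
  exact mul_le_mul_of_nonneg_right (h z ⟨h3.1.le, h3.2⟩) (norm_nonneg _)

/-- Monotonicity of weighted norms. -/
theorem mb_norm_mono {b c : CI H} (h : ∀ z ∈ Icc (0:ℝ) H, ‖ex b z‖ ≤ ‖ex c z‖) (x : HH H) :
    ‖mb b x‖ ≤ ‖mb c x‖ := by
  refine l2_norm_le (norm_nonneg _) fun S => ?_
  refine le_trans ?_ (l2_sum_le (mb c x) S)
  refine Finset.sum_le_sum fun n _ => ?_
  rw [mb_apply, mb_apply]
  exact pow_le_pow_left₀ (norm_nonneg _) (mz_norm_mono h (x n)) 2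

/-- Weighted convolutions commute with functions of `z`. -/
theorem mb_cv {b : ℤ → ℝ} {c : ℤ → ℤ → ℝ} {a : ℤ → CI H} (hb : Summable b)
    (h : ∀ n j, |c n j| * ‖a (n - j)‖ ≤ b (n - j)) (f : CI H) (x : HH H) :
    mb f (cv c a x) = cv c a (mb f x) := by
  ext1
  funext n
  have h1 := cv_hasSum hb h x n
  have h2 := cv_hasSum hb h (mb f x) n
  have h3 : HasSum (fun j => mz f (((c n j : ℝ) : ℂ) • mz (a (n - j)) (x j))) (mz f (cv c a x n)) :=
    (mz f).hasSum h1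
  have h4 : (fun j => mz f (((c n j : ℝ) : ℂ) • mz (a (n - j)) (x j))) =
      fun j => ((c n j : ℝ) : ℂ) • mz (a (n - j)) (mb f x j) := by
    funext j
    rw [map_smul, mb_apply, mz_comm]
  rw [h4] at h3
  rw [mb_apply]
  exact h3.unique h2

theorem mb_cm {a : ℤ → CI H} (ha : Summable fun m => ‖a m‖) (f : CI H) (x : HH H) :
    mb f (cm a x) = cm a (mb f x) := mb_cv ha (cm_hyp a) f x

/-! ### Weak `z`-derivatives -/

/-- `x1` is the weak `z`-derivative of `x`. -/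
def DH (x x1 : HH H) : Prop := ∀ n, ∃ F : CI H, x n = iota F ∧ DZ F (x1 n)

/-- The value at `z` of a mode with a continuous representative. -/
noncomputable def tr (z : ℝ) (f : Z2 H) : ℂ :=
  open Classical in
  if h : ∃ F : CI H, f = iota F then ex h.choose z else 0

theorem tr_iota (z : ℝ) (F : CI H) : tr z (iota F : Z2 H) = ex F z := by
  have h : ∃ G : CI H, (iota F : Z2 H) = iota G := ⟨F, rfl⟩
  rw [tr, dif_pos h]
  congr 1
  exact (iota_injective h.choose_spec).symm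

/-- All modes of `x` vanish at `z`. -/
def Zr (z : ℝ) (x : HH H) : Prop := ∀ n, tr z (x n) = 0

theorem DH.mb {x x1 : HH H} (h : DH x x1) {b b1 : CI H} (hb : IsD b b1) :
    DH (SC.mb b x) (SC.mb b1 x + SC.mb b x1) := by
  intro n
  obtain ⟨F, h1, h2⟩ := h n
  refine ⟨b * F, ?_, ?_⟩
  · rw [mb_apply, h1, mz_iota]
  · have h3 := (IsD.dz hb).mul h2
    have e1 : mz F (iota b1 : Z2 H) = mz b1 (x n) := by
      rw [h1, mz_iota, mz_iota, mul_comm]
    rw [e1] at h3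
    rw [lp.coeFn_add, Pi.add_apply, mb_apply, mb_apply]
    exact h3

theorem Zr.mb {z : ℝ} {x x1 : HH H} (h : DH x x1) (hz : Zr z x) (b : CI H) : Zr z (SC.mb b x) := by
  intro n
  obtain ⟨F, h1, _⟩ := h n
  have h3 := hz n
  rw [h1, tr_iota] at h3
  rw [mb_apply, h1, mz_iota, tr_iota, ex_mul, h3, mul_zero]

/-- A function of `z` vanishing at `z` kills the trace. -/
theorem Zr.mb' {z : ℝ} {x x1 : HH H} (h : DH x x1) {b : CI H} (hb : ex b z = 0) :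
    Zr z (SC.mb b x) := by
  intro n
  obtain ⟨F, h1, _⟩ := h n
  rw [mb_apply, h1, mz_iota, tr_iota, ex_mul, hb, zero_mul]

theorem DH.add {x x1 y y1 : HH H} (h : DH x x1) (h' : DH y y1) : DH (x + y) (x1 + y1) := by
  intro n
  obtain ⟨F, h1, h2⟩ := h n
  obtain ⟨G, h3, h4⟩ := h' n
  refine ⟨F + G, ?_, ?_⟩
  · rw [lp.coeFn_add, Pi.add_apply, h1, h3, map_add]
  · rw [lp.coeFn_add, Pi.add_apply]
    exact h2.add h4

theorem DH.sub {x x1 y y1 : HH H} (h : DH x x1) (h' : DH y y1) : DH (x - y) (x1 - y1) := by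
  intro n
  obtain ⟨F, h1, h2⟩ := h n
  obtain ⟨G, h3, h4⟩ := h' n
  refine ⟨F - G, ?_, ?_⟩
  · rw [lp.coeFn_sub, Pi.sub_apply, h1, h3, map_sub]
  · rw [lp.coeFn_sub, Pi.sub_apply]
    exact h2.sub h4

theorem DH.smul {x x1 : HH H} (c : ℂ) (h : DH x x1) : DH (c • x) (c • x1) := by
  intro n
  obtain ⟨F, h1, h2⟩ := h n
  refine ⟨c • F, ?_, ?_⟩
  · rw [lp.coeFn_smul, Pi.smul_apply, h1, map_smul]
  · rw [lp.coeFn_smul, Pi.smul_apply]
    exact h2.smul c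

theorem Zr.add {z : ℝ} {x x1 y y1 : HH H} (h : DH x x1) (h' : DH y y1) (hx : Zr z x) (hy : Zr z y) :
    Zr z (x + y) := by
  intro n
  obtain ⟨F, h1, _⟩ := h n
  obtain ⟨G, h3, _⟩ := h' n
  have e1 := hx n
  have e2 := hy n
  rw [h1, tr_iota] at e1
  rw [h3, tr_iota] at e2
  rw [lp.coeFn_add, Pi.add_apply, h1, h3, ← map_add, tr_iota, ex_add, e1, e2, add_zero]

theorem Zr.sub {z : ℝ} {x x1 y y1 : HH H} (h : DH x x1) (h' : DH y y1) (hx : Zr z x) (hy : Zr z y) :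
    Zr z (x - y) := by
  intro n
  obtain ⟨F, h1, _⟩ := h n
  obtain ⟨G, h3, _⟩ := h' n
  have e1 := hx n
  have e2 := hy n
  rw [h1, tr_iota] at e1
  rw [h3, tr_iota] at e2
  rw [lp.coeFn_sub, Pi.sub_apply, h1, h3, ← map_sub, tr_iota, ex_sub, e1, e2, sub_zero]

theorem Zr.smul {z : ℝ} {x x1 : HH H} (c : ℂ) (h : DH x x1) (hx : Zr z x) : Zr z (c • x) := by
  intro n
  obtain ⟨F, h1, _⟩ := h n
  have e1 := hx n
  rw [h1, tr_iota] at e1
  rw [lp.coeFn_smul, Pi.smul_apply, h1, ← map_smul, tr_iota, ex_smul, e1, mul_zero]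

/-- Integration by parts. -/
theorem DH.ibp {x x1 y y1 : HH H} (h : DH x x1) (h' : DH y y1) (h0 : Zr 0 y) (h1 : Zr H y) :
    ⟪x1, y⟫_ℂ = -⟪x, y1⟫_ℂ := by
  rw [lp.inner_eq_tsum, lp.inner_eq_tsum, ← tsum_neg]
  refine tsum_congr fun n => ?_
  obtain ⟨F, e1, e2⟩ := h n
  obtain ⟨G, e3, e4⟩ := h' n
  have e5 := e2.ibp e4
  have e6 := h0 n
  have e7 := h1 n
  rw [e3, tr_iota] at e6 e7
  rw [e6, e7, mul_zero, mul_zero, sub_zero, ← e1, ← e3] at e5
  linear_combination e5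

/-- `2 Re ⟨x', b x⟩ + Re ⟨b' x, x⟩ ≤ 0` if `b(0) ≥ 0`, `x(H) = 0`. -/
theorem DH.re_le {x x1 : HH H} (h : DH x x1) (hH1 : Zr H x) {b b1 : CI H} (hb : IsD b b1)
    (hr : star b = b) (h0 : 0 ≤ (ex b 0).re) :
    2 * (⟪x1, SC.mb b x⟫_ℂ).re + (⟪SC.mb b1 x, x⟫_ℂ).re ≤ 0 := by
  have key : ∀ n, 2 * (⟪x1 n, SC.mb b x n⟫_ℂ).re + (⟪SC.mb b1 x n, x n⟫_ℂ).re ≤ 0 := by
    intro n
    obtain ⟨F, e1, e2⟩ := h n
    have e3 := hH1 n
    rw [e1, tr_iota] at e3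
    rw [mb_apply, mb_apply]
    have h3 := (IsD.dz hb).mul e2
    have e5 := e2.ibp h3
    have e6 : mz F (iota b1 : Z2 H) = mz b1 (x n) := by
      rw [e1, mz_iota, mz_iota, mul_comm]
    have e7 : (iota (b * F) : Z2 H) = mz b (x n) := by rw [e1, mz_iota]
    rw [e6, e7, ← e1, inner_add_right, ex_mul, ex_mul, e3, star_zero, zero_mul, zero_sub] at e5
    have e8 : ⟪x n, mz b (x1 n)⟫_ℂ = ⟪mz b (x n), x1 n⟫_ℂ := by rw [inner_mz, hr]
    have e9 : ⟪x n, mz b1 (x n)⟫_ℂ = ⟪mz (star b1) (x n), x n⟫_ℂ := by rw [inner_mz, star_star]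
    have e10 := congrArg Complex.re e5
    rw [Complex.add_re, Complex.add_re, Complex.neg_re, e8, re_inner_comm (mz b (x n)) (x1 n),
      re_inner_comm (x n) (mz b1 (x n))] at e10
    have e11 : (Star.star (ex F 0) * (ex b 0 * ex F 0)).re = (ex b 0).re * ‖ex F 0‖ ^ 2 := by
      have e12 : Star.star (ex F 0) * (ex b 0 * ex F 0) = ex b 0 * ((‖ex F 0‖ ^ 2 : ℝ) : ℂ) := by
        have := Complex.conj_mul' (ex F 0)
        calc Star.star (ex F 0) * (ex b 0 * ex F 0) = ex b 0 * ((starRingEnd ℂ) (ex F 0) * ex F 0) := by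
              show (starRingEnd ℂ) (ex F 0) * _ = _
              ring
          _ = ex b 0 * ((‖ex F 0‖ ^ 2 : ℝ) : ℂ) := by rw [this]; push_cast; rfl
      rw [e12, Complex.re_mul_ofReal]
    rw [e11] at e10
    have e13 : 0 ≤ (ex b 0).re * ‖ex F 0‖ ^ 2 := by positivity
    linarith
  have s1 := (lp.hasSum_inner (𝕜 := ℂ) x1 (SC.mb b x))
  have s2 := (lp.hasSum_inner (𝕜 := ℂ) (SC.mb b1 x) x)
  have s3 := (Complex.hasSum_re s1).mul_left 2
  have s4 := Complex.hasSum_re s2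
  have s5 := s3.add s4
  exact hasSum_le key s5 hasSum_zero

/-- `2 Re ⟨x', b x⟩ + Re ⟨b' x, x⟩ = 0` if `x(0) = x(H) = 0`. -/
theorem DH.re_eq {x x1 : HH H} (h : DH x x1) (h00 : Zr 0 x) (hH1 : Zr H x) {b b1 : CI H}
    (hb : IsD b b1) (hr : star b = b) :
    2 * (⟪x1, SC.mb b x⟫_ℂ).re + (⟪SC.mb b1 x, x⟫_ℂ).re = 0 := by
  have e1 := h.ibp (h.mb hb) (Zr.mb h h00 b) (Zr.mb h hH1 b)
  rw [inner_add_right] at e1
  have e2 : ⟪x, SC.mb b x1⟫_ℂ = ⟪SC.mb b x, x1⟫_ℂ := (inner_mb hr x x1).symm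
  have e3 := congrArg Complex.re e1
  rw [Complex.neg_re, Complex.add_re, e2, re_inner_comm (SC.mb b x) x1,
    re_inner_comm x (SC.mb b1 x)] at e3
  linarith

/-! ### The relation `y = D x`, `D = |D_y|` -/

/-- `y = D x` -/
def Dk (ω : ℝ) (x y : HH H) : Prop := ∀ n : ℤ, y n = ((|ω * n| : ℝ) : ℂ) • x n

theorem Dk.mb {ω : ℝ} {x y : HH H} (h : Dk ω x y) (b : CI H) : Dk ω (SC.mb b x) (SC.mb b y) := by
  intro n
  rw [mb_apply, mb_apply, h n, map_smul]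

theorem Dk.add {ω : ℝ} {x y x' y' : HH H} (h : Dk ω x y) (h' : Dk ω x' y') :
    Dk ω (x + x') (y + y') := by
  intro n
  rw [lp.coeFn_add, lp.coeFn_add, Pi.add_apply, Pi.add_apply, h n, h' n, smul_add]

theorem Dk.sub {ω : ℝ} {x y x' y' : HH H} (h : Dk ω x y) (h' : Dk ω x' y') :
    Dk ω (x - x') (y - y') := by
  intro n
  rw [lp.coeFn_sub, lp.coeFn_sub, Pi.sub_apply, Pi.sub_apply, h n, h' n, smul_sub]

theorem Dk.smul {ω : ℝ} {x y : HH H} (c : ℂ) (h : Dk ω x y) : Dk ω (c • x) (c • y) := by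
  intro n
  rw [lp.coeFn_smul, lp.coeFn_smul, Pi.smul_apply, Pi.smul_apply, h n, smul_comm]

theorem Dk.unique {ω : ℝ} {x y y' : HH H} (h : Dk ω x y) (h' : Dk ω x y') : y = y' := by
  ext1
  funext n
  rw [h n, h' n]

theorem Dk.inner {ω : ℝ} {x y x' y' : HH H} (h : Dk ω x y) (h' : Dk ω x' y') :
    ⟪y, x'⟫_ℂ = ⟪x, y'⟫_ℂ := by
  rw [lp.inner_eq_tsum, lp.inner_eq_tsum]
  refine tsum_congr fun n => ?_
  rw [h n, h' n, inner_smul_left, inner_smul_right, Complex.conj_ofReal]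

theorem DH.dd {ω : ℝ} {x x1 y y1 : HH H} (h : DH x x1) (h1 : Dk ω x y) (h2 : Dk ω x1 y1) : DH y y1 := by
  intro n
  obtain ⟨F, e1, e2⟩ := h n
  refine ⟨((|ω * n| : ℝ) : ℂ) • F, ?_, ?_⟩
  · rw [h1 n, e1, map_smul]
  · rw [h2 n]
    exact e2.smul _

theorem Zr.dd {ω z : ℝ} {x x1 y : HH H} (h : DH x x1) (h1 : Dk ω x y) (hx : Zr z x) : Zr z y := by
  intro n
  obtain ⟨F, e1, _⟩ := h n
  have e3 := hx n
  rw [e1, tr_iota] at e3
  rw [h1 n, e1, ← map_smul, tr_iota, ex_smul, e3, mul_zero]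

/-- `D T` as a bounded operator. -/
noncomputable def DT (ω : ℝ) : HH H →L[ℂ] HH H :=
  dg fun n : ℤ => ((|ω * n| : ℝ) : ℂ) • T2 (ω * n)

theorem norm_kT2_fam (k : ℝ) : ‖((|k| : ℝ) : ℂ) • (T2 k : Z2 H →L[ℂ] Z2 H)‖ ≤ 1 := by
  refine ContinuousLinearMap.opNorm_le_bound _ zero_le_one fun f => ?_
  rw [one_mul, smul_apply, norm_smul, Complex.norm_real, Real.norm_eq_abs, abs_abs]
  exact norm_kT2_le k f

theorem DT_apply (ω : ℝ) (x : HH H) (n : ℤ) :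
    DT ω x n = ((|ω * n| : ℝ) : ℂ) • T2 (ω * n) (x n) :=
  dg_apply (fun n : ℤ => norm_kT2_fam (ω * n)) x n

theorem norm_DT_le (ω : ℝ) : ‖(DT ω : HH H →L[ℂ] HH H)‖ ≤ 1 :=
  norm_dg_le (fun n : ℤ => norm_kT2_fam (ω * n))

theorem Dk_TT (ω : ℝ) (x : HH H) : Dk ω (TT ω x) (DT ω x) := by
  intro n
  rw [DT_apply, TT_apply]

/-- `(T w)' = D T w - w` -/
theorem DH_TT (ω : ℝ) (w : HH H) : DH (TT ω w) (DT ω w - w) := by
  intro n
  refine ⟨Tz (ω * n) (w n), ?_, ?_⟩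
  · rw [TT_apply, T2_apply]
  · rw [lp.coeFn_sub, Pi.sub_apply, DT_apply]
    exact Tz_dz (ω * n) (w n)

theorem Zr_TT_H (ω : ℝ) (w : HH H) : Zr H (TT ω w) := by
  intro n
  rw [TT_apply, T2_apply, tr_iota, Tz_H]

theorem Zr_TT_zero (ω : ℝ) {w : HH H} (hw : PP ω w = w) : Zr 0 (TT ω w) := by
  intro n
  rw [TT_apply, T2_apply, tr_iota, ← P2_iff, ← PP_apply, hw]

/-- `|B x|² = |x'|² + |D x|²` for `x(0) = x(H) = 0`, `B x = D x - x'`. -/
theorem DH.energy {ω : ℝ} {x x1 y : HH H} (h : DH x x1) (h00 : Zr 0 x) (hH1 : Zr H x)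
    (hy : Dk ω x y) : ‖y - x1‖ ^ 2 = ‖x1‖ ^ 2 + ‖y‖ ^ 2 := by
  rw [l2_norm_sq, l2_norm_sq, l2_norm_sq, ← (l2_summable x1).tsum_add (l2_summable y)]
  refine tsum_congr fun n => ?_
  obtain ⟨F, e1, e2⟩ := h n
  have e3 := h00 n
  have e4 := hH1 n
  rw [e1, tr_iota] at e3 e4
  have e5 := e2.energy (-|ω * n|) (g := x1 n - y n) (by
    rw [hy n, e1]; push_cast; rw [neg_smul]; abel)
  rw [e3, e4, norm_zero, sub_self, mul_zero, add_zero] at e5
  rw [lp.coeFn_sub, Pi.sub_apply, ← norm_neg, neg_sub, e5, hy n, norm_smul, Complex.norm_real,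
    Real.norm_eq_abs, abs_abs, ← e1]
  ring

end

end Pool.Agent.Lib.MP_79abb3_an.SC
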