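import Pool.Agent.Lib.MP_79abb3_an.SC.NcB

/-!
MP_79abb3_an, Theorem C, block (iv): the Carleman inequality at a fixed time.
-/

set_option autoImplicit false
set_option linter.unusedSectionVars false

open MeasureTheory Set Filter Topology Function
open scoped ENNReal InnerProductSpace

namespace Pool.Agent.Lib.MP_79abb3_an.SC

open Pool.Agent.Lib.MP_79abb3_an.P25

section ri
variable {E : Type} [NormedAddCommGroup E] [InnerProductSpace ℂ E]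

/-- Real part of the inner product. -/
noncomputable def ri (x y : E) : ℝ := (⟪x, y⟫_ℂ).re

theorem ri_comm (x y : E) : ri x y = ri y x := re_inner_comm x y
theorem ri_add_left (x y z : E) : ri (x + y) z = ri x z + ri y z := by
  rw [ri, inner_add_left, Complex.add_re]; rfl
theorem ri_add_right (x y z : E) : ri x (y + z) = ri x y + ri x z := by
  rw [ri, inner_add_right, Complex.add_re]; rfl
theorem ri_sub_left (x y z : E) : ri (x - y) z = ri x z - ri y z := by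
  rw [ri, inner_sub_left, Complex.sub_re]; rfl
theorem ri_sub_right (x y z : E) : ri x (y - z) = ri x y - ri x z := by
  rw [ri, inner_sub_right, Complex.sub_re]; rfl
theorem ri_neg_left (x y : E) : ri (-x) y = -ri x y := by
  rw [ri, inner_neg_left, Complex.neg_re]; rfl
theorem ri_neg_right (x y : E) : ri x (-y) = -ri x y := by
  rw [ri, inner_neg_right, Complex.neg_re]; rfl
theorem ri_smul_left (c : ℝ) (x y : E) : ri ((c : ℂ) • x) y = c * ri x y := by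
  rw [ri, inner_smul_left, Complex.conj_ofReal, Complex.re_ofReal_mul]; rfl
theorem ri_smul_right (c : ℝ) (x y : E) : ri x ((c : ℂ) • y) = c * ri x y := by
  rw [ri, inner_smul_right, Complex.re_ofReal_mul]; rfl
theorem ri_self (x : E) : ri x x = ‖x‖ ^ 2 := by
  rw [ri, inner_self_eq_norm_sq_to_K]; norm_cast
theorem abs_ri_le (x y : E) : |ri x y| ≤ ‖x‖ * ‖y‖ :=
  (Complex.abs_re_le_norm _).trans (norm_inner_le_norm _ _)
theorem ri_le (x y : E) : ri x y ≤ ‖x‖ * ‖y‖ := (le_abs_self _).trans (abs_ri_le x y)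
theorem neg_ri_le (x y : E) : -ri x y ≤ ‖x‖ * ‖y‖ := (neg_le_abs _).trans (abs_ri_le x y)
theorem norm_add_sq_ri (x y : E) : ‖x + y‖ ^ 2 = ‖x‖ ^ 2 + 2 * ri x y + ‖y‖ ^ 2 := by
  rw [← ri_self, ri_add_left, ri_add_right, ri_add_right, ri_self, ri_self, ri_comm y x]; ring

end ri

section
variable {H : ℝ} [hH : Fact (0 < H)]

theorem fe_add (l m : ℝ) : (fe (l + m) : CI H) = fe l * fe m := by
  apply ci_ext
  intro z hz
  rw [ex_mul, ex_fe _ hz, ex_fe _ hz, ex_fe _ hz, ← Complex.ofReal_mul, ← Real.exp_add]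
  congr 2
  ring

theorem star_fe (l : ℝ) : star (fe l : CI H) = fe l := by
  apply ci_ext
  intro z hz
  rw [ex_star, ex_fe _ hz]
  exact Complex.conj_ofReal _

theorem fe_isD' (l : ℝ) : IsD (fe l : CI H) ((l : ℂ) • fe l) := by
  have h := fe_isD (H := H) l
  have e : (l • fe l : CI H) = (l : ℂ) • fe l := by
    ext z
    simp
  rwa [e] at h

/-- `|e^{lz} x| ≤ |e^{mz} x|` for `l ≤ m`. -/
theorem norm_mb_fe_mono {l m : ℝ} (h : l ≤ m) (x : HH H) : ‖mb (fe l) x‖ ≤ ‖mb (fe m) x‖ := by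
  refine mb_norm_mono (fun z hz => ?_) x
  rw [ex_fe _ hz, ex_fe _ hz, Complex.norm_real, Complex.norm_real, Real.norm_eq_abs,
    Real.norm_eq_abs, abs_of_pos (Real.exp_pos _), abs_of_pos (Real.exp_pos _)]
  exact Real.exp_le_exp.2 (mul_le_mul_of_nonneg_right h hz.1)

/-- Splitting an exponential weight symmetrically. -/
theorem ri_fe (l : ℝ) (x y : HH H) : ri (mb (fe (l + l)) x) y = ri (mb (fe l) x) (mb (fe l) y) := by
  rw [fe_add, mb_mul, ri, ri, inner_mb (star_fe l)]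

/-- The data of the inequality at a fixed time. -/
structure FT (ω : ℝ) (a : ℤ → CI H) (W W1 Φ1 Ψ Ψ1 L : HH H) : Prop where
  dW : DH W W1
  W0 : Zr 0 W
  WH : Zr H W
  dΦ : DH (SC.cm a W1) Φ1
  ΦH : Zr H (SC.cm a W1)
  hΨ : Dk ω W Ψ
  hΨ1 : Dk ω W1 Ψ1
  hL : Dk ω (SC.cm a Ψ) L

/-- The symmetric part, `m = κ exp(l z)`. -/
noncomputable def FTS (a : ℤ → CI H) (l κ : ℝ) (g : CI H) (W Φ1 L : HH H) : HH H :=
  L - Φ1 - ((κ ^ 2 : ℝ) : ℂ) • mb (fe (2 * l)) (SC.cm a W) + mb g W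

/-- The skew part. -/
noncomputable def FTY (a a1 : ℤ → CI H) (l κ : ℝ) (W W1 : HH H) : HH H :=
  ((2 * κ : ℝ) : ℂ) • mb (fe l) (SC.cm a W1) + ((κ * l : ℝ) : ℂ) • mb (fe l) (SC.cm a W) +
    ((κ : ℝ) : ℂ) • mb (fe l) (SC.cm a1 W)

variable {ω : ℝ} {a a1 a2 : ℤ → CI H} {c₀ : ℝ} {W W1 Φ1 Ψ Ψ1 L : HH H}

theorem FT.dΨ (h : FT ω a W W1 Φ1 Ψ Ψ1 L) : DH Ψ Ψ1 := h.dW.dd h.hΨ h.hΨ1
theorem FT.Ψ0 (h : FT ω a W W1 Φ1 Ψ Ψ1 L) : Zr 0 Ψ := Zr.dd h.dW h.hΨ h.W0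
theorem FT.ΨH (h : FT ω a W W1 Φ1 Ψ Ψ1 L) : Zr H Ψ := Zr.dd h.dW h.hΨ h.WH

/-- The pairing of `-Φ'` with a weighted multiple of `W`. -/
theorem FT.pair_Z (h : FT ω a W W1 Φ1 Ψ Ψ1 L) {Z Z1 ZD : HH H} (dZ : DH Z Z1) (Z0 : Zr 0 Z)
    (ZH : Zr H Z) (hZ : Dk ω Z ZD) (l κ : ℝ) (g : CI H) :
    ri (FTS a l κ g W Φ1 L) Z = ri (SC.cm a W1) Z1 + ri (SC.cm a Ψ) ZD -
      κ ^ 2 * ri (mb (fe (2 * l)) (SC.cm a W)) Z + ri (mb g W) Z := by
  rw [FTS, ri_add_left, ri_sub_left, ri_sub_left, ri_smul_left]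
  have e1 : ri Φ1 Z = -ri (SC.cm a W1) Z1 := by
    rw [ri, ri, h.dΦ.ibp dZ Z0 ZH, Complex.neg_re]
  have e2 : ri L Z = ri (SC.cm a Ψ) ZD := by
    rw [ri, ri, h.hL.inner hZ]
  rw [e1, e2]
  ring

theorem ri_cm {p : ℕ} {a : ℤ → CI H} (ha : Cf p a) (x y : HH H) : ri (cm a x) y = ri x (cm a y) := by
  rw [ri, ri, inner_cm ha]

theorem ri_mb {b : CI H} (hb : star b = b) (x y : HH H) : ri (mb b x) y = ri x (mb b y) := by
  rw [ri, ri, inner_mb hb]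

theorem star_mul_ci {b c : CI H} (hb : star b = b) (hc : star c = c) : star (b * c) = b * c := by
  apply ci_ext
  intro z _
  have h1 : star (ex b z) = ex b z := by rw [← ex_star, hb]
  have h2 : star (ex c z) = ex c z := by rw [← ex_star, hc]
  rw [ex_star, ex_mul, star_mul', h1, h2]

/-- The quadratic form of the commutator, lower bound. -/
theorem FT.lower (h : FT ω a W W1 Φ1 Ψ Ψ1 L) (ha : Co a a1 a2 c₀) {l κ : ℝ} (hκ : 0 ≤ κ)
    {g g1 : CI H} (hg : IsD g g1) (hgr : star g = g) :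
    κ * (4 * l * ri (mb (fe l) (cm a W1)) (cm a W1) +
      4 * l * κ ^ 2 * ri (mb (fe (3 * l)) (cm a W)) (cm a W) +
      2 * ri (cm a W1) (mb (fe l) (cm a1 W1)) +
      2 * ri (cm a W1) (mb (fe l) (((l ^ 2 : ℝ) : ℂ) • cm a W + ((2 * l : ℝ) : ℂ) • cm a1 W + cm a2 W)) -
      2 * ri (mb (fe l) (cm a Ψ)) (cm a1 Ψ) + 4 * ri (mb (fe l) (cm a Ψ)) (cD ω a W1) +
      2 * ri (mb (fe l) (cm a Ψ)) (((l : ℝ) : ℂ) • cD ω a W + cD ω a1 W) +
      2 * κ ^ 2 * ri (mb (fe (3 * l)) (cm a W)) (cm a1 W) -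
      2 * ri (mb (g1 * fe l) W) (cm a W)) ≤ 2 * ri (FTS a l κ g W Φ1 L) (FTY a a1 l κ W W1) := by
  set Φ := cm a W1 with hΦ
  set X := cm a W with hX
  -- derivative of `X`
  have sa := ha.ca.s0
  have sa1 := ha.ca1.s0
  have sa2 := ha.ca2.s0
  have dX := (h.dW.cm sa sa1 ha.d1).1
  have X0 := (h.dW.cm sa sa1 ha.d1).2 0 zero_memI h.W0
  have XH := (h.dW.cm sa sa1 ha.d1).2 H H_memI h.WH
  rw [← hX, ← hΦ] at dX
  rw [← hX] at X0 XH
  have d1W := (h.dW.cm sa1 sa2 ha.d2).1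
  have W10 := (h.dW.cm sa1 sa2 ha.d2).2 0 zero_memI h.W0
  have W1H := (h.dW.cm sa1 sa2 ha.d2).2 H H_memI h.WH
  have dΨ := (h.dΨ.cm sa sa1 ha.d1).1
  have Ψ0 := (h.dΨ.cm sa sa1 ha.d1).2 0 zero_memI h.Ψ0
  have ΨH := (h.dΨ.cm sa sa1 ha.d1).2 H H_memI h.ΨH
  -- (I1)
  have I1 : 2 * ri Φ1 (mb (fe l) Φ) + l * ri (mb (fe l) Φ) Φ ≤ 0 := by
    have := h.dΦ.re_le h.ΦH (fe_isD' l) (star_fe l) (by rw [ex_fe_zero]; norm_num)
    rw [mb_smul] at this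
    have e := ri_smul_left l (mb (fe l) Φ) Φ
    rw [ri] at e
    rw [← hΦ, e] at this
    exact this
  -- (I2)
  have I2 : 2 * ri (cm a1 Ψ + cm a Ψ1) (mb (fe l) (cm a Ψ)) +
      l * ri (mb (fe l) (cm a Ψ)) (cm a Ψ) = 0 := by
    have := dΨ.re_eq Ψ0 ΨH (fe_isD' l) (star_fe l)
    rw [mb_smul] at this
    have e := ri_smul_left l (mb (fe l) (cm a Ψ)) (cm a Ψ)
    rw [ri] at e
    rw [e] at this
    exact this
  -- (I3)
  have I3 : 2 * ri (cm a1 W + Φ) (mb (fe (3 * l)) X) + 3 * l * ri (mb (fe (3 * l)) X) X = 0 := by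
    have := dX.re_eq X0 XH (fe_isD' (3 * l)) (star_fe (3 * l))
    rw [mb_smul] at this
    have e := ri_smul_left (3 * l) (mb (fe (3 * l)) X) X
    rw [ri] at e
    rw [e] at this
    exact this
  -- (T2)
  have T2a : ri Φ1 (mb (fe l) X) = -(l * ri Φ (mb (fe l) X) + ri Φ (mb (fe l) (cm a1 W + Φ))) := by
    have e1 := h.dΦ.ibp (dX.mb (fe_isD' l)) (Zr.mb dX X0 _) (Zr.mb dX XH _)
    rw [← hΦ, mb_smul] at e1
    have e2 := congrArg Complex.re e1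
    rw [Complex.neg_re] at e2
    have e3 : ri Φ (((l : ℝ) : ℂ) • mb (fe l) X + mb (fe l) (cm a1 W + Φ)) =
        l * ri Φ (mb (fe l) X) + ri Φ (mb (fe l) (cm a1 W + Φ)) := by
      rw [ri_add_right, ri_smul_right]
    rw [← e3]
    exact e2
  have T2b : ri Φ1 (mb (fe l) (cm a1 W)) = -(l * ri Φ (mb (fe l) (cm a1 W)) +
      ri Φ (mb (fe l) (cm a2 W + cm a1 W1))) := by
    have e1 := h.dΦ.ibp (d1W.mb (fe_isD' l)) (Zr.mb d1W W10 _) (Zr.mb d1W W1H _)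
    rw [← hΦ, mb_smul] at e1
    have e2 := congrArg Complex.re e1
    rw [Complex.neg_re] at e2
    have e3 : ri Φ (((l : ℝ) : ℂ) • mb (fe l) (cm a1 W) + mb (fe l) (cm a2 W + cm a1 W1)) =
        l * ri Φ (mb (fe l) (cm a1 W)) + ri Φ (mb (fe l) (cm a2 W + cm a1 W1)) := by
      rw [ri_add_right, ri_smul_right]
    rw [← e3]
    exact e2
  -- (T3), (T4)
  have T3 : ri L (mb (fe l) Φ) = ri (cm a Ψ) (mb (fe l) (cm a Ψ1 + cD ω a W1)) := by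
    have e1 := h.hL.inner ((h.hΨ1.cm ha.ca).mb (fe l))
    exact congrArg Complex.re e1
  have T4a : ri L (mb (fe l) X) = ri (cm a Ψ) (mb (fe l) (cm a Ψ + cD ω a W)) := by
    have e1 := h.hL.inner ((h.hΨ.cm ha.ca).mb (fe l))
    exact congrArg Complex.re e1
  have T4b : ri L (mb (fe l) (cm a1 W)) = ri (cm a Ψ) (mb (fe l) (cm a1 Ψ + cD ω a1 W)) := by
    have e1 := h.hL.inner ((h.hΨ.cm ha.ca1).mb (fe l))
    exact congrArg Complex.re e1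
  -- (T5)
  have T5 : ∀ V : HH H, ri (mb (fe (2 * l)) X) (mb (fe l) V) = ri (mb (fe (3 * l)) X) V := by
    intro V
    have e : (3 * l) = 2 * l + l := by ring
    rw [e, fe_add, mb_mul, ri_mb (star_fe _), ri_mb (star_fe _), ri_mb (star_fe _), mb_comm]
  -- (T6)
  have T6 : ∀ V : HH H, ri (mb g W) (mb (fe l) V) = ri (mb (g * fe l) W) V := by
    intro V
    rw [ri_mb (star_mul_ci hgr (star_fe l)), mb_mul, ri_mb hgr]
  have hgf : IsD (g * fe l) (g1 * fe l + g * ((l : ℂ) • fe l)) := by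
    intro z hz
    exact (hg z hz).mul (fe_isD' l z hz)
  have T6a : ri (mb (g1 * fe l) W) X + l * ri (mb (g * fe l) W) X + 2 * ri (mb (g * fe l) W) Φ +
      ri (mb (g * fe l) W) (cm a1 W) = 0 := by
    have e1 := (h.dW.mb hgf).ibp dX X0 XH
    have e2 := congrArg Complex.re e1
    rw [Complex.neg_re] at e2
    have e3 : mb (g1 * fe l + g * ((l : ℂ) • fe l)) W = mb (g1 * fe l) W + ((l : ℝ) : ℂ) • mb (g * fe l) W := by
      rw [mul_smul_comm, mb_add, mb_smul]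
    have e4 : ri (mb (g1 * fe l + g * ((l : ℂ) • fe l)) W + mb (g * fe l) W1) X =
        -ri (mb (g * fe l) W) (cm a1 W + Φ) := e2
    rw [e3, ri_add_left, ri_add_left, ri_smul_left, ri_add_right] at e4
    have e5 : ri (mb (g * fe l) W1) X = ri (mb (g * fe l) W) Φ := by
      rw [hX, ← ri_cm ha.ca, ← mb_cm sa, ← hΦ, ri_comm, ← ri_mb (star_mul_ci hgr (star_fe l))]
    rw [e5] at e4
    linarith
  -- expansion
  have S1 : ri (FTS a l κ g W Φ1 L) (FTY a a1 l κ W W1) =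
      κ * (2 * (ri L (mb (fe l) Φ) - ri Φ1 (mb (fe l) Φ) -
        κ ^ 2 * ri (mb (fe (2 * l)) X) (mb (fe l) Φ) + ri (mb g W) (mb (fe l) Φ)) +
      l * (ri L (mb (fe l) X) - ri Φ1 (mb (fe l) X) -
        κ ^ 2 * ri (mb (fe (2 * l)) X) (mb (fe l) X) + ri (mb g W) (mb (fe l) X)) +
      (ri L (mb (fe l) (cm a1 W)) - ri Φ1 (mb (fe l) (cm a1 W)) -
        κ ^ 2 * ri (mb (fe (2 * l)) X) (mb (fe l) (cm a1 W)) + ri (mb g W) (mb (fe l) (cm a1 W)))) := by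
    rw [FTS, FTY, ← hΦ, ← hX]
    simp only [ri_add_left, ri_sub_left, ri_add_right, ri_smul_left, ri_smul_right]
    ring
  rw [S1, T3, T4a, T4b, T5, T5, T5, T6, T6, T6, T2a, T2b]
  simp only [map_add, ri_add_right, ri_add_left, map_smul, ri_smul_right] at I1 I2 I3 ⊢
  have c1 : ri (mb (fe l) Φ) Φ = ri Φ (mb (fe l) Φ) := ri_mb (star_fe l) _ _
  have c2 : ri (mb (fe l) (cm a Ψ)) (cm a Ψ) = ri (cm a Ψ) (mb (fe l) (cm a Ψ)) := ri_mb (star_fe l) _ _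
  have c3 : ri (mb (fe l) (cm a Ψ)) (cm a1 Ψ) = ri (cm a Ψ) (mb (fe l) (cm a1 Ψ)) := ri_mb (star_fe l) _ _
  have c4 : ri (mb (fe l) (cm a Ψ)) (cD ω a W1) = ri (cm a Ψ) (mb (fe l) (cD ω a W1)) := ri_mb (star_fe l) _ _
  have c5 : ri (mb (fe l) (cm a Ψ)) (cD ω a W) = ri (cm a Ψ) (mb (fe l) (cD ω a W)) := ri_mb (star_fe l) _ _
  have c6 : ri (mb (fe l) (cm a Ψ)) (cD ω a1 W) = ri (cm a Ψ) (mb (fe l) (cD ω a1 W)) := ri_mb (star_fe l) _ _
  have c7 : ri (cm a1 Ψ) (mb (fe l) (cm a Ψ)) = ri (cm a Ψ) (mb (fe l) (cm a1 Ψ)) := by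
    rw [ri_comm, ri_mb (star_fe l)]
  have c8 : ri (cm a Ψ1) (mb (fe l) (cm a Ψ)) = ri (cm a Ψ) (mb (fe l) (cm a Ψ1)) := by
    rw [ri_comm, ri_mb (star_fe l)]
  have c9 : ri (cm a1 W) (mb (fe (3 * l)) X) = ri (mb (fe (3 * l)) X) (cm a1 W) := ri_comm _ _
  have c10 : ri Φ (mb (fe (3 * l)) X) = ri (mb (fe (3 * l)) X) Φ := ri_comm _ _
  rw [c1] at I1 ⊢
  rw [c2, c7, c8] at I2
  rw [c3, c4, c5, c6]
  rw [c9, c10] at I3
  have I1' : 0 ≤ κ * (-(2 * ri Φ1 (mb (fe l) Φ) + l * ri Φ (mb (fe l) Φ))) :=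
    mul_nonneg hκ (by linarith)
  linear_combination 2 * I1' - 2 * κ * I2 + 2 * κ ^ 3 * I3 - 2 * κ * T6a

end

end Pool.Agent.Lib.MP_79abb3_an.SC
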