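import Mathlib

/-!
MP_79abb3_an, Theorem C, block (iv): the Carleman inequality at a fixed time, absorption.
-/

set_option autoImplicit false
set_option linter.unusedSectionVars false

open MeasureTheory Set Filter Topology Function
open scoped ENNReal InnerProductSpace

namespace Pool.Agent.Lib.MP_79abb3_an.SC


/-- The arithmetic of the absorption. -/
theorem carl_arith {c₀ C e l P M κ x y w d σ q1 q2 : ℝ} (hc : 0 < c₀) (hcC : c₀ ≤ C) (hC : 1 ≤ C)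
    (he : e * (C + 1) = c₀ ^ 2) (hl : 1 ≤ l) (hP : P = e * c₀ * l) (hP16 : 16 * C ^ 2 ≤ P)
    (hM : M = 2 * C ^ 2 * (l + 1) ^ 2 + e * l ^ 2 * C + 2 * C ^ 2 * (l + 1)) (hκ1 : 1 ≤ κ)
    (hκ2 : 2 * M ≤ P * κ) (hκ3 : e ^ 2 * l ^ 2 ≤ P * κ) (hx : 0 ≤ x) (hy : 0 ≤ y) (hd : 0 ≤ d)
    (hdw : d ≤ w)
    (h1 : κ * (4 * l * c₀ ^ 2 * x ^ 2 + 4 * l * κ ^ 2 * (c₀ ^ 2 * w ^ 2) - 2 * C ^ 2 * x ^ 2 -
      2 * (C * x * ((l ^ 2 * C + 2 * l * C + C) * d)) - 2 * C ^ 2 * y ^ 2 - 4 * (C * y * (C * x)) -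
      2 * (C * y * ((l * C + C) * d)) - 2 * κ ^ 2 * (C ^ 2 * w ^ 2) - 2 * κ ^ 2 * (C * w ^ 2)) ≤ q1)
    (h2 : l * κ * (c₀ * x ^ 2 + c₀ * y ^ 2 - l * (C * x * d) - κ ^ 2 * (C * w ^ 2) - κ ^ 2 * w ^ 2) ≤
      l * κ * q2) (h3 : q2 ≤ σ * w) :
    P / 2 * (κ * x ^ 2 + κ * y ^ 2 + κ ^ 3 * w ^ 2) ≤ σ ^ 2 + q1 := by
  have hw : 0 ≤ w := hd.trans hdw
  have hC0 : 0 < C := by linarith
  have hκ : 0 ≤ κ := by linarith
  have he0 : 0 < e := by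
    by_contra hcon
    push Not at hcon
    have h4 : e * (C + 1) ≤ 0 := mul_nonpos_of_nonpos_of_nonneg hcon (by linarith)
    rw [he] at h4
    have h5 : 0 < c₀ ^ 2 := by positivity
    linarith
  have hec : e ≤ c₀ := by
    have h4 : e * c₀ ≤ c₀ * c₀ := by
      rw [← sq, ← he]
      exact mul_le_mul_of_nonneg_left (by linarith) he0.le
    exact le_of_mul_le_mul_right h4 hc
  have hPpos : 0 < P := by rw [hP]; positivity
  have hM0 : 0 ≤ M := by rw [hM]; positivity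
  -- step 1
  have s1 : e * (l * κ * (c₀ * x ^ 2 + c₀ * y ^ 2 - l * (C * x * d) - κ ^ 2 * (C * w ^ 2) -
      κ ^ 2 * w ^ 2)) ≤ σ ^ 2 + e ^ 2 * l ^ 2 * κ ^ 2 * w ^ 2 / 4 := by
    have h4 := mul_le_mul_of_nonneg_left h2 he0.le
    have h5 : l * κ * q2 ≤ l * κ * (σ * w) := mul_le_mul_of_nonneg_left h3 (by positivity)
    have h6 := mul_le_mul_of_nonneg_left h5 he0.le
    have h7 := sq_nonneg (σ - e * l * κ * w / 2)
    linear_combination h4 + h6 + h7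
  have s1' : P * κ * x ^ 2 + P * κ * y ^ 2 - e * l ^ 2 * C * (κ * x * d) - c₀ ^ 2 * l * (κ ^ 3 * w ^ 2) ≤
      σ ^ 2 + e ^ 2 * l ^ 2 * κ ^ 2 * w ^ 2 / 4 := by
    have h4 : e * (l * κ * (c₀ * x ^ 2 + c₀ * y ^ 2 - l * (C * x * d) - κ ^ 2 * (C * w ^ 2) -
      κ ^ 2 * w ^ 2)) = P * κ * x ^ 2 + P * κ * y ^ 2 - e * l ^ 2 * C * (κ * x * d) -
        c₀ ^ 2 * l * (κ ^ 3 * w ^ 2) := by
      rw [← he, hP]
      ring
    rwa [h4] at s1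
  -- cross terms
  have kxd : κ * x * d ≤ κ * x * w := mul_le_mul_of_nonneg_left hdw (by positivity)
  have kyd : κ * y * d ≤ κ * y * w := mul_le_mul_of_nonneg_left hdw (by positivity)
  have kx : 2 * (κ ^ 2 * x * w) ≤ κ * x ^ 2 + κ ^ 3 * w ^ 2 := by
    have h4 : 0 ≤ κ * (x - κ * w) ^ 2 := by positivity
    linear_combination h4
  have ky : 2 * (κ ^ 2 * y * w) ≤ κ * y ^ 2 + κ ^ 3 * w ^ 2 := by
    have h4 : 0 ≤ κ * (y - κ * w) ^ 2 := by positivity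
    linear_combination h4
  have fx : M * (κ * x * w) ≤ P / 4 * (κ * x ^ 2 + κ ^ 3 * w ^ 2) := by
    have h4 : M * (κ * x * w) ≤ (P * κ / 2) * (κ * x * w) :=
      mul_le_mul_of_nonneg_right (by linarith) (by positivity)
    have h5 := mul_le_mul_of_nonneg_left kx (show (0:ℝ) ≤ P / 4 by positivity)
    calc M * (κ * x * w) ≤ (P * κ / 2) * (κ * x * w) := h4
      _ = P / 4 * (2 * (κ ^ 2 * x * w)) := by ring
      _ ≤ _ := h5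
  have fy : M * (κ * y * w) ≤ P / 4 * (κ * y ^ 2 + κ ^ 3 * w ^ 2) := by
    have h4 : M * (κ * y * w) ≤ (P * κ / 2) * (κ * y * w) :=
      mul_le_mul_of_nonneg_right (by linarith) (by positivity)
    have h5 := mul_le_mul_of_nonneg_left ky (show (0:ℝ) ≤ P / 4 by positivity)
    calc M * (κ * y * w) ≤ (P * κ / 2) * (κ * y * w) := h4
      _ = P / 4 * (2 * (κ ^ 2 * y * w)) := by ring
      _ ≤ _ := h5
  have fw : e ^ 2 * l ^ 2 * κ ^ 2 * w ^ 2 / 4 ≤ P / 4 * (κ ^ 3 * w ^ 2) := by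
    have h4 := mul_le_mul_of_nonneg_right hκ3 (show (0:ℝ) ≤ κ ^ 2 * w ^ 2 / 4 by positivity)
    calc e ^ 2 * l ^ 2 * κ ^ 2 * w ^ 2 / 4 = e ^ 2 * l ^ 2 * (κ ^ 2 * w ^ 2 / 4) := by ring
      _ ≤ P * κ * (κ ^ 2 * w ^ 2 / 4) := h4
      _ = _ := by ring
  -- bounds of the cross coefficients
  have gx : (2 * C ^ 2 * (l + 1) ^ 2 + e * l ^ 2 * C) * (κ * x * d) ≤ M * (κ * x * w) := by
    have h4 : (2 * C ^ 2 * (l + 1) ^ 2 + e * l ^ 2 * C) ≤ M := by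
      rw [hM]
      have : 0 ≤ 2 * C ^ 2 * (l + 1) := by positivity
      linarith
    exact mul_le_mul h4 kxd (by positivity) hM0
  have gy : (2 * C ^ 2 * (l + 1)) * (κ * y * d) ≤ M * (κ * y * w) := by
    have h4 : (2 * C ^ 2 * (l + 1)) ≤ M := by
      rw [hM]
      have h5 : 0 ≤ 2 * C ^ 2 * (l + 1) ^ 2 := by positivity
      have h6 : 0 ≤ e * l ^ 2 * C := by positivity
      linarith
    exact mul_le_mul h4 kyd (by positivity) hM0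
  have gxy : 4 * C ^ 2 * (κ * (x * y)) ≤ 2 * C ^ 2 * (κ * x ^ 2) + 2 * C ^ 2 * (κ * y ^ 2) := by
    have h4 : 0 ≤ 2 * C ^ 2 * κ * (x - y) ^ 2 := by positivity
    linear_combination h4
  -- coefficients
  have hlc : P ≤ l * c₀ ^ 2 := by
    rw [hP]
    have h4 : e * (c₀ * l) ≤ c₀ * (c₀ * l) := mul_le_mul_of_nonneg_right hec (by positivity)
    calc e * c₀ * l = e * (c₀ * l) := by ring
      _ ≤ c₀ * (c₀ * l) := h4
      _ = l * c₀ ^ 2 := by ring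
  have hCC : C ≤ C ^ 2 := by
    have := mul_le_mul_of_nonneg_right hC hC0.le
    rwa [one_mul, ← sq] at this
  have X2 : 0 ≤ κ * x ^ 2 := by positivity
  have Y2 : 0 ≤ κ * y ^ 2 := by positivity
  have W3 : 0 ≤ κ ^ 3 * w ^ 2 := by positivity
  have hl2 : 0 ≤ l * c₀ ^ 2 := by positivity
  have cx := mul_le_mul_of_nonneg_right (show 4 * C ^ 2 ≤ P / 4 by linarith) X2
  have cx' := mul_nonneg hl2 X2
  have cy := mul_le_mul_of_nonneg_right (show 4 * C ^ 2 ≤ P / 4 by linarith) Y2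
  have cw := mul_le_mul_of_nonneg_right (show 2 * C ^ 2 + 2 * C ≤ P / 4 by linarith) W3
  have cw' := mul_le_mul_of_nonneg_right hlc W3
  have cw'' := mul_nonneg hPpos.le W3
  have e1 : κ * (4 * l * c₀ ^ 2 * x ^ 2 + 4 * l * κ ^ 2 * (c₀ ^ 2 * w ^ 2) - 2 * C ^ 2 * x ^ 2 -
      2 * (C * x * ((l ^ 2 * C + 2 * l * C + C) * d)) - 2 * C ^ 2 * y ^ 2 - 4 * (C * y * (C * x)) -
      2 * (C * y * ((l * C + C) * d)) - 2 * κ ^ 2 * (C ^ 2 * w ^ 2) - 2 * κ ^ 2 * (C * w ^ 2)) =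
      4 * ((l * c₀ ^ 2) * (κ * x ^ 2)) + 4 * ((l * c₀ ^ 2) * (κ ^ 3 * w ^ 2)) -
      2 * C ^ 2 * (κ * x ^ 2) - 2 * C ^ 2 * (l + 1) ^ 2 * (κ * x * d) - 2 * C ^ 2 * (κ * y ^ 2) -
      4 * C ^ 2 * (κ * (x * y)) - (2 * C ^ 2 * (l + 1)) * (κ * y * d) -
      (2 * C ^ 2 + 2 * C) * (κ ^ 3 * w ^ 2) := by ring
  rw [e1] at h1
  have e2 : c₀ ^ 2 * l * (κ ^ 3 * w ^ 2) = (l * c₀ ^ 2) * (κ ^ 3 * w ^ 2) := by ring
  rw [e2] at s1'
  have e3 : e * l ^ 2 * C * (κ * x * d) = (2 * C ^ 2 * (l + 1) ^ 2 + e * l ^ 2 * C) * (κ * x * d) -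
      2 * C ^ 2 * (l + 1) ^ 2 * (κ * x * d) := by ring
  rw [e3] at s1'
  have e4 : P / 2 * (κ * x ^ 2 + κ * y ^ 2 + κ ^ 3 * w ^ 2) = P * (κ * x ^ 2) / 2 + P * (κ * y ^ 2) / 2 +
    P * (κ ^ 3 * w ^ 2) / 2 := by ring
  rw [e4]
  have e5 : P * κ * x ^ 2 = P * (κ * x ^ 2) := by ring
  have e6 : P * κ * y ^ 2 = P * (κ * y ^ 2) := by ring
  rw [e5, e6] at s1'
  have e7 : P / 4 * (κ * x ^ 2 + κ ^ 3 * w ^ 2) = P * (κ * x ^ 2) / 4 + P * (κ ^ 3 * w ^ 2) / 4 := by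
    ring
  have e8 : P / 4 * (κ * y ^ 2 + κ ^ 3 * w ^ 2) = P * (κ * y ^ 2) / 4 + P * (κ ^ 3 * w ^ 2) / 4 := by
    ring
  have e9 : P / 4 * (κ ^ 3 * w ^ 2) = P * (κ ^ 3 * w ^ 2) / 4 := by ring
  rw [e7] at fx
  rw [e8] at fy
  rw [e9] at fw
  have e10 : P / 4 * (κ * x ^ 2) = P * (κ * x ^ 2) / 4 := by ring
  have e11 : P / 4 * (κ * y ^ 2) = P * (κ * y ^ 2) / 4 := by ring
  rw [e10] at cx
  rw [e11] at cy
  rw [e9] at cw
  generalize (l * c₀ ^ 2) * (κ * x ^ 2) = A1 at *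
  generalize (l * c₀ ^ 2) * (κ ^ 3 * w ^ 2) = A2 at *
  generalize (2 * C ^ 2 * (l + 1) ^ 2 + e * l ^ 2 * C) * (κ * x * d) = A3 at *
  generalize 2 * C ^ 2 * (l + 1) ^ 2 * (κ * x * d) = A4 at *
  generalize (2 * C ^ 2 * (l + 1)) * (κ * y * d) = A5 at *
  generalize (2 * C ^ 2 + 2 * C) * (κ ^ 3 * w ^ 2) = A6 at *
  generalize 4 * C ^ 2 * (κ * (x * y)) = A7 at *
  generalize P * (κ * x ^ 2) = A8 at *
  generalize P * (κ * y ^ 2) = A9 at *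
  generalize P * (κ ^ 3 * w ^ 2) = A10 at *
  linarith only [h1, s1', gx, gy, gxy, fx, fy, fw, cx, cx', cy, cw, cw', cw'']

end Pool.Agent.Lib.MP_79abb3_an.SC
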