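import Pool.Agent.Lib.MP_79abb3_an.SC.NcC
import Pool.Agent.Lib.MP_79abb3_an.SC.NcD

/-!
MP_79abb3_an, Theorem C, block (iv): the Carleman inequality at a fixed time.
-/

set_option autoImplicit false
set_option linter.unusedSectionVars false

open MeasureTheory Set Filter Topology Function
open scoped ENNReal InnerProductSpace

namespace Pool.Agent.Lib.MP_79abb3_an.SC

open Pool.Agent.Lib.MP_79abb3_an.P25

section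
variable {H : ℝ} [hH : Fact (0 < H)]
variable {ω : ℝ} {a a1 a2 : ℤ → CI H} {c₀ : ℝ} {W W1 Φ1 Ψ Ψ1 L : HH H}

theorem ri_fe' (l : ℝ) (x y : HH H) :
    ri (mb (fe l) x) y = ri (mb (fe (l / 2)) x) (mb (fe (l / 2)) y) := by
  conv_lhs => rw [show l = l / 2 + l / 2 by ring]
  exact ri_fe (l / 2) x y

theorem star_ri_mb (l : ℝ) (x y : HH H) : ri x (mb (fe l) y) = ri (mb (fe l) x) y :=
  (ri_mb (star_fe l) x y).symm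

theorem ri_le_mul {x y : HH H} {A B : ℝ} (hx : ‖x‖ ≤ A) (hy : ‖y‖ ≤ B) : |ri x y| ≤ A * B :=
  (abs_ri_le x y).trans (mul_le_mul hx hy (norm_nonneg _) ((norm_nonneg _).trans hx))

/-- Translation of the lower bound into weighted norms. -/
theorem FT.low1 (ha : Co a a1 a2 c₀) {C l κ : ℝ}
    (bA : ∀ x : HH H, ‖cm a x‖ ≤ C * ‖x‖) (bA1 : ∀ x : HH H, ‖cm a1 x‖ ≤ C * ‖x‖)
    (bA2 : ∀ x : HH H, ‖cm a2 x‖ ≤ C * ‖x‖) (bD : ∀ x : HH H, ‖cD ω a x‖ ≤ C * ‖x‖)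
    (bD1 : ∀ x : HH H, ‖cD ω a1 x‖ ≤ C * ‖x‖) (hl0 : 0 ≤ l) (hκ0 : 0 ≤ κ) {g g1 : CI H}
    (hg : IsD g g1) (hgr : star g = g) (hg1n : ‖g1 * fe (-(2 * l))‖ ≤ κ ^ 2)
    (h : FT ω a W W1 Φ1 Ψ Ψ1 L) {A B Cv Dv : HH H} (hA : A = mb (fe (l / 2)) W1)
    (hB : B = mb (fe (l / 2)) Ψ) (hCv : Cv = mb (fe (3 * l / 2)) W)
    (hDv : Dv = mb (fe (l / 2)) W) :
    κ * (4 * l * c₀ ^ 2 * ‖A‖ ^ 2 + 4 * l * κ ^ 2 * (c₀ ^ 2 * ‖Cv‖ ^ 2) -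
      2 * C ^ 2 * ‖A‖ ^ 2 - 2 * (C * ‖A‖ * ((l ^ 2 * C + 2 * l * C + C) * ‖Dv‖)) -
      2 * C ^ 2 * ‖B‖ ^ 2 - 4 * (C * ‖B‖ * (C * ‖A‖)) -
      2 * (C * ‖B‖ * ((l * C + C) * ‖Dv‖)) - 2 * κ ^ 2 * (C ^ 2 * ‖Cv‖ ^ 2) -
      2 * κ ^ 2 * (C * ‖Cv‖ ^ 2)) ≤ 2 * ri (FTS a l κ g W Φ1 L) (FTY a a1 l κ W W1) := by
  have sa := ha.ca.s0
  have sa1 := ha.ca1.s0
  have sa2 := ha.ca2.s0
  have hc := ha.c₀_pos
  -- translations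
  have t1 : ri (mb (fe l) (cm a W1)) (cm a W1) = ‖cm a A‖ ^ 2 := by
    rw [ri_fe', mb_cm sa, ← hA, ri_self]
  have t2 : ri (mb (fe (3 * l)) (cm a W)) (cm a W) = ‖cm a Cv‖ ^ 2 := by
    rw [ri_fe', mb_cm sa, ← hCv, ri_self]
  have t3 : ri (cm a W1) (mb (fe l) (cm a1 W1)) = ri (cm a A) (cm a1 A) := by
    rw [star_ri_mb, ri_fe', mb_cm sa, mb_cm sa1, ← hA]
  have t4 : ri (cm a W1) (mb (fe l) (((l ^ 2 : ℝ) : ℂ) • cm a W + ((2 * l : ℝ) : ℂ) • cm a1 W +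
      cm a2 W)) = ri (cm a A) (((l ^ 2 : ℝ) : ℂ) • cm a Dv + ((2 * l : ℝ) : ℂ) • cm a1 Dv +
      cm a2 Dv) := by
    rw [star_ri_mb, ri_fe', mb_cm sa, map_add, map_add, map_smul, map_smul, mb_cm sa, mb_cm sa1,
      mb_cm sa2, ← hA, ← hDv]
  have t5 : ri (mb (fe l) (cm a Ψ)) (cm a1 Ψ) = ri (cm a B) (cm a1 B) := by
    rw [ri_fe', mb_cm sa, mb_cm sa1, ← hB]
  have t6 : ri (mb (fe l) (cm a Ψ)) (cD ω a W1) = ri (cm a B) (cD ω a A) := by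
    rw [ri_fe', mb_cm sa, mb_cD ω ha.ca, ← hB, ← hA]
  have t7 : ri (mb (fe l) (cm a Ψ)) (((l : ℝ) : ℂ) • cD ω a W + cD ω a1 W) =
      ri (cm a B) (((l : ℝ) : ℂ) • cD ω a Dv + cD ω a1 Dv) := by
    rw [ri_fe', mb_cm sa, map_add, map_smul, mb_cD ω ha.ca, mb_cD ω ha.ca1, ← hB, ← hDv]
  have t8 : ri (mb (fe (3 * l)) (cm a W)) (cm a1 W) = ri (cm a Cv) (cm a1 Cv) := by
    rw [ri_fe', mb_cm sa, mb_cm sa1, ← hCv]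
  have t9 : ri (mb (g1 * fe l) W) (cm a W) = ri (mb (g1 * fe (-(2 * l))) Cv) (cm a Cv) := by
    have : g1 * fe l = fe (3 * l) * (g1 * fe (-(2 * l))) := by
      have e : (fe l : CI H) = fe (3 * l) * fe (-(2 * l)) := by
        rw [← fe_add]; congr 1; ring
      rw [e]; ring
    rw [this, mb_mul, ri_fe', mb_cm sa, mb_comm, ← hCv]
  have low := h.lower ha hκ0 hg hgr (l := l)
  rw [t1, t2, t3, t4, t5, t6, t7, t8, t9] at low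
  clear t1 t2 t3 t4 t5 t6 t7 t8 t9 hA hB hCv hDv
  -- bounds
  have nA : ‖cm a A‖ ≤ C * ‖A‖ := bA A
  have nB : ‖cm a B‖ ≤ C * ‖B‖ := bA B
  have nC : ‖cm a Cv‖ ≤ C * ‖Cv‖ := bA Cv
  have b3 := (abs_le.1 (ri_le_mul nA (bA1 A))).1
  have n4 : ‖((l ^ 2 : ℝ) : ℂ) • cm a Dv + ((2 * l : ℝ) : ℂ) • cm a1 Dv + cm a2 Dv‖ ≤
      (l ^ 2 * C + 2 * l * C + C) * ‖Dv‖ := by
    have h0 := norm_add_le (((l ^ 2 : ℝ) : ℂ) • cm a Dv + ((2 * l : ℝ) : ℂ) • cm a1 Dv) (cm a2 Dv)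
    have h0' := norm_add_le (((l ^ 2 : ℝ) : ℂ) • cm a Dv) (((2 * l : ℝ) : ℂ) • cm a1 Dv)
    rw [norm_smul, norm_smul, Complex.norm_real, Complex.norm_real, Real.norm_eq_abs,
      Real.norm_eq_abs, abs_of_nonneg (by positivity : (0:ℝ) ≤ l ^ 2),
      abs_of_nonneg (by positivity : (0:ℝ) ≤ 2 * l)] at h0'
    have h1 := mul_le_mul_of_nonneg_left (bA Dv) (by positivity : (0:ℝ) ≤ l ^ 2)
    have h2 := mul_le_mul_of_nonneg_left (bA1 Dv) (by positivity : (0:ℝ) ≤ 2 * l)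
    have h3 := bA2 Dv
    linarith only [h0, h0', h1, h2, h3]
  have b4 := (abs_le.1 (ri_le_mul nA n4)).1
  have b5 := (abs_le.1 (ri_le_mul nB (bA1 B))).2
  have b6 := (abs_le.1 (ri_le_mul nB (bD A))).1
  have n7 : ‖((l : ℝ) : ℂ) • cD ω a Dv + cD ω a1 Dv‖ ≤ (l * C + C) * ‖Dv‖ := by
    have h0 := norm_add_le (((l : ℝ) : ℂ) • cD ω a Dv) (cD ω a1 Dv)
    rw [norm_smul, Complex.norm_real, Real.norm_eq_abs, abs_of_nonneg hl0] at h0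
    have h1 := mul_le_mul_of_nonneg_left (bD Dv) hl0
    have h2 := bD1 Dv
    linarith only [h0, h1, h2]
  have b7 := (abs_le.1 (ri_le_mul nB n7)).1
  have b8 := (abs_le.1 (ri_le_mul nC (bA1 Cv))).1
  have n9 : ‖mb (g1 * fe (-(2 * l))) Cv‖ ≤ κ ^ 2 * ‖Cv‖ :=
    (norm_mb_apply_le _ _).trans (mul_le_mul_of_nonneg_right hg1n (norm_nonneg _))
  have b9 := (abs_le.1 (ri_le_mul n9 nC)).2
  have q1 : c₀ ^ 2 * ‖A‖ ^ 2 ≤ ‖cm a A‖ ^ 2 := by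
    rw [← mul_pow]; exact pow_le_pow_left₀ (by positivity) (ha.lower A) 2
  have q2 : c₀ ^ 2 * ‖Cv‖ ^ 2 ≤ ‖cm a Cv‖ ^ 2 := by
    rw [← mul_pow]; exact pow_le_pow_left₀ (by positivity) (ha.lower Cv) 2
  clear n4 n7 n9 nA nB nC bA bA1 bA2 bD bD1 h hg hgr hg1n
  refine le_trans (mul_le_mul_of_nonneg_left ?_ hκ0) low
  have r1 := mul_le_mul_of_nonneg_left q1 (by positivity : (0:ℝ) ≤ 4 * l)
  have r2 := mul_le_mul_of_nonneg_left q2 (by positivity : (0:ℝ) ≤ 4 * l * κ ^ 2)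
  have r8 := mul_le_mul_of_nonneg_left b8 (by positivity : (0:ℝ) ≤ 2 * κ ^ 2)
  clear low q1 q2 b8
  generalize ri (cm a A) (cm a1 A) = R3 at *
  generalize ri (cm a A) (((l ^ 2 : ℝ) : ℂ) • cm a Dv + ((2 * l : ℝ) : ℂ) • cm a1 Dv + cm a2 Dv) = R4 at *
  generalize ri (cm a B) (cm a1 B) = R5 at *
  generalize ri (cm a B) (cD ω a A) = R6 at *
  generalize ri (cm a B) (((l : ℝ) : ℂ) • cD ω a Dv + cD ω a1 Dv) = R7 at *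
  generalize ri (cm a Cv) (cm a1 Cv) = R8 at *
  generalize ri (mb (g1 * fe (-(2 * l))) Cv) (cm a Cv) = R9 at *
  generalize ‖cm a A‖ = R1 at *
  generalize ‖cm a Cv‖ = R2 at *
  generalize ‖A‖ = x at *
  generalize ‖B‖ = y at *
  generalize ‖Cv‖ = w at *
  generalize ‖Dv‖ = d at *
  linear_combination r1 + r2 + 2 * b3 + 2 * b4 + 2 * b5 + 4 * b6 + 2 * b7 + r8 + 2 * b9

/-- The multiplier `m W`. -/
theorem FT.low2 (ha : Co a a1 a2 c₀) {C l κ : ℝ} (bA : ∀ x : HH H, ‖cm a x‖ ≤ C * ‖x‖)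
    (hl0 : 0 ≤ l) (hκ0 : 0 ≤ κ) {g : CI H} (hgn : ‖g * fe (-(2 * l))‖ ≤ κ ^ 2)
    (h : FT ω a W W1 Φ1 Ψ Ψ1 L) {A B Cv Dv : HH H} (hA : A = mb (fe (l / 2)) W1)
    (hB : B = mb (fe (l / 2)) Ψ) (hCv : Cv = mb (fe (3 * l / 2)) W)
    (hDv : Dv = mb (fe (l / 2)) W) :
    l * κ * (c₀ * ‖A‖ ^ 2 + c₀ * ‖B‖ ^ 2 - l * (C * ‖A‖ * ‖Dv‖) - κ ^ 2 * (C * ‖Cv‖ ^ 2) -
      κ ^ 2 * ‖Cv‖ ^ 2) ≤ l * κ * ri (FTS a l κ g W Φ1 L) (mb (fe l) W) := by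
  have sa := ha.ca.s0
  have dZ := h.dW.mb (fe_isD' l)
  have pz := h.pair_Z dZ (Zr.mb h.dW h.W0 _) (Zr.mb h.dW h.WH _) (h.hΨ.mb (fe l)) l κ g
  have u1 : ri (cm a W1) (mb (((l : ℝ) : ℂ) • fe l) W + mb (fe l) W1) =
      l * ri (cm a A) Dv + ri (cm a A) A := by
    rw [mb_smul, ri_add_right, ri_smul_right, star_ri_mb, star_ri_mb, ri_fe' l (cm a W1) W,
      ri_fe' l (cm a W1) W1, mb_cm sa, ← hA, ← hDv]
  have u2 : ri (cm a Ψ) (mb (fe l) Ψ) = ri (cm a B) B := by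
    rw [star_ri_mb, ri_fe', mb_cm sa, ← hB]
  have u3 : ri (mb (fe (2 * l)) (cm a W)) (mb (fe l) W) = ri (cm a Cv) Cv := by
    rw [star_ri_mb, ← mb_mul, ← fe_add, show l + 2 * l = 3 * l by ring, ri_fe', mb_cm sa, ← hCv]
  have u4 : ri (mb g W) (mb (fe l) W) = ri (mb (g * fe (-(2 * l))) Cv) Cv := by
    have : g * fe l = fe (3 * l) * (g * fe (-(2 * l))) := by
      have e : (fe l : CI H) = fe (3 * l) * fe (-(2 * l)) := by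
        rw [← fe_add]; congr 1; ring
      rw [e]; ring
    rw [star_ri_mb, ← mb_mul, mul_comm, this, mb_mul, ri_fe', mb_comm, ← hCv]
  rw [u1, u2, u3, u4] at pz
  clear u1 u2 u3 u4 hA hB hCv hDv
  refine mul_le_mul_of_nonneg_left ?_ (by positivity)
  rw [pz]
  have v1 : c₀ * ‖A‖ ^ 2 ≤ ri (cm a A) A := ha.coer A
  have v2 : c₀ * ‖B‖ ^ 2 ≤ ri (cm a B) B := ha.coer B
  have v3 := mul_le_mul_of_nonneg_left (abs_le.1 (ri_le_mul (bA A) (le_refl ‖Dv‖))).1 hl0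
  have v4 := mul_le_mul_of_nonneg_left (abs_le.1 (ri_le_mul (bA Cv) (le_refl ‖Cv‖))).2
    (by positivity : (0:ℝ) ≤ κ ^ 2)
  have n5 : ‖mb (g * fe (-(2 * l))) Cv‖ ≤ κ ^ 2 * ‖Cv‖ :=
    (norm_mb_apply_le _ _).trans (mul_le_mul_of_nonneg_right hgn (norm_nonneg _))
  have v5 := (abs_le.1 (ri_le_mul n5 (le_refl ‖Cv‖))).1
  clear pz n5 h hgn bA
  generalize ri (cm a A) A = R1 at *
  generalize ri (cm a A) Dv = R2 at *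
  generalize ri (cm a B) B = R3 at *
  generalize ri (cm a Cv) Cv = R4 at *
  generalize ri (mb (g * fe (-(2 * l))) Cv) Cv = R5 at *
  generalize ‖A‖ = x at *
  generalize ‖B‖ = y at *
  generalize ‖Cv‖ = w at *
  generalize ‖Dv‖ = d at *
  linear_combination v1 + v2 + v3 + v4 + v5

/-- Choice of the parameters. -/
theorem carl_params {c₀ C : ℝ} (hc : 0 < c₀) (hC0 : 0 < C) : ∃ e l P M : ℝ, 0 < e ∧
    e * (C + 1) = c₀ ^ 2 ∧ 1 ≤ l ∧ P = e * c₀ * l ∧ 16 * C ^ 2 ≤ P ∧ 0 < P ∧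
    M = 2 * C ^ 2 * (l + 1) ^ 2 + e * l ^ 2 * C + 2 * C ^ 2 * (l + 1) ∧ 0 ≤ M := by
  have he0 : 0 < c₀ ^ 2 / (C + 1) := by positivity
  have hec : 0 < c₀ ^ 2 / (C + 1) * c₀ := by positivity
  have hl1 : 1 ≤ 1 + 16 * C ^ 2 / (c₀ ^ 2 / (C + 1) * c₀) := by
    have : 0 ≤ 16 * C ^ 2 / (c₀ ^ 2 / (C + 1) * c₀) := by positivity
    linarith
  refine ⟨c₀ ^ 2 / (C + 1), 1 + 16 * C ^ 2 / (c₀ ^ 2 / (C + 1) * c₀), _, _, he0, by field_simp, hl1,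
    rfl, ?_, ?_, rfl, ?_⟩
  · rw [mul_add, mul_one, mul_div_cancel₀ _ hec.ne']
    linarith
  · have : 0 < 1 + 16 * C ^ 2 / (c₀ ^ 2 / (C + 1) * c₀) := by linarith
    positivity
  · have : 0 < 1 + 16 * C ^ 2 / (c₀ ^ 2 / (C + 1) * c₀) := by linarith
    positivity

theorem carleman_fixed (ha : Co a a1 a2 c₀) (ω : ℝ) : ∃ l κ₀ c : ℝ, 1 ≤ l ∧ 1 ≤ κ₀ ∧ 0 < c ∧
    ∀ κ, κ₀ ≤ κ → ∀ g g1 : CI H, IsD g g1 → star g = g → ‖g * fe (-(2 * l))‖ ≤ κ ^ 2 →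
    ‖g1 * fe (-(2 * l))‖ ≤ κ ^ 2 → ∀ W W1 Φ1 Ψ Ψ1 L Z : HH H, FT ω a W W1 Φ1 Ψ Ψ1 L →
    2 * ri (FTS a l κ g W Φ1 L) Z + c * (κ * ‖mb (fe (l / 2)) W1‖ ^ 2 +
      κ * ‖mb (fe (l / 2)) Ψ‖ ^ 2 + κ ^ 3 * ‖mb (fe (3 * l / 2)) W‖ ^ 2) ≤
      ‖FTS a l κ g W Φ1 L + Z + FTY a a1 l κ W W1‖ ^ 2 := by
  obtain ⟨C, hC1, hcC, bA, bA1, bA2, bD, bD1⟩ := ha.bound ω
  have hc := ha.c₀_pos
  have hC0 : 0 < C := by linarith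
  obtain ⟨e, l, P, M, he0, heq, hl1, hP, hP16, hP0, hM, hM0⟩ := carl_params hc hC0
  have p1 : 0 ≤ 2 * M / P := by positivity
  have p2 : 0 ≤ e ^ 2 * l ^ 2 / P := by positivity
  refine ⟨l, 1 + 2 * M / P + e ^ 2 * l ^ 2 / P, P / 2, hl1, by linarith only [p1, p2],
    by linarith only [hP0], ?_⟩
  intro κ hκ g g1 hg hgr hgn hg1n W W1 Φ1 Ψ Ψ1 L Z h
  have hκ1 : 1 ≤ κ := by linarith only [hκ, p1, p2]
  have hκ0 : 0 ≤ κ := by linarith only [hκ1]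
  have hκ2 : 2 * M ≤ P * κ := by
    have h1 : 2 * M / P ≤ κ := by linarith only [hκ, p1, p2]
    rw [div_le_iff₀ hP0] at h1
    linarith only [h1]
  have hκ3 : e ^ 2 * l ^ 2 ≤ P * κ := by
    have h1 : e ^ 2 * l ^ 2 / P ≤ κ := by linarith only [hκ, p1, p2]
    rw [div_le_iff₀ hP0] at h1
    linarith only [h1]
  have hl0 : 0 ≤ l := by linarith only [hl1]
  have H1 := h.low1 ha bA bA1 bA2 bD bD1 hl0 hκ0 hg hgr hg1n rfl rfl rfl rfl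
  have H2 := h.low2 ha bA hl0 hκ0 hgn rfl rfl rfl rfl
  have H3 : ri (FTS a l κ g W Φ1 L) (mb (fe l) W) ≤
      ‖FTS a l κ g W Φ1 L‖ * ‖mb (fe (3 * l / 2)) W‖ :=
    (ri_le _ _).trans (mul_le_mul_of_nonneg_left (norm_mb_fe_mono (by linarith only [hl0]) W)
      (norm_nonneg _))
  have hdw : ‖mb (fe (l / 2)) W‖ ≤ ‖mb (fe (3 * l / 2)) W‖ :=
    norm_mb_fe_mono (by linarith only [hl0]) W
  have fin := carl_arith hc hcC hC1 heq hl1 hP hP16 hM hκ1 hκ2 hκ3 (norm_nonneg _) (norm_nonneg _)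
    (norm_nonneg _) hdw H1 H2 H3
  have ex1 : ‖FTS a l κ g W Φ1 L + Z + FTY a a1 l κ W W1‖ ^ 2 = ‖FTS a l κ g W Φ1 L‖ ^ 2 +
      2 * ri (FTS a l κ g W Φ1 L) Z + 2 * ri (FTS a l κ g W Φ1 L) (FTY a a1 l κ W W1) +
      ‖Z + FTY a a1 l κ W W1‖ ^ 2 := by
    rw [add_assoc, norm_add_sq_ri, ri_add_right]
    ring
  rw [ex1]
  have n0 : 0 ≤ ‖Z + FTY a a1 l κ W W1‖ ^ 2 := by positivity
  linarith only [fin, n0]

end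

end Pool.Agent.Lib.MP_79abb3_an.SC
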