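import Pool.Agent.Lib.MP_79abb3_an.SC.NcC

/-!
MP_79abb3_an, Theorem C, block (iv): the localised and conjugated solution at a fixed time.
-/

set_option autoImplicit false
set_option linter.unusedSectionVars false

open MeasureTheory Set Filter Topology Function
open scoped ENNReal InnerProductSpace

namespace Pool.Agent.Lib.MP_79abb3_an.SC

open Pool.Agent.Lib.MP_79abb3_an.P25

section
variable {H : ℝ} [hH : Fact (0 < H)]

theorem mb_neg (b : CI H) (x : HH H) : mb (-b) x = -mb b x := by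
  have h := mb_smul (-1) b x
  have e : ((-1 : ℂ) • b : CI H) = -b := by
    ext z
    simp
  rw [e, neg_one_smul] at h
  exact h

/-- Multiplication operators, linear in the function. -/
noncomputable def mbL : CI H →L[ℂ] HH H →L[ℂ] HH H :=
  LinearMap.mkContinuous
    { toFun := fun b => mb b
      map_add' := fun b c => by
        ext1 x
        exact mb_add b c x
      map_smul' := fun c b => by
        ext1 x
        exact mb_smul c b x } 1 (fun b => by rw [one_mul]; exact norm_mb_le b)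

theorem mbL_apply (b : CI H) : mbL b = mb b := rfl

/-- `q ∈ D(A)` with `h = A q`, at a fixed time: `q1 = q_z`, `p = D q`, `p1 = D q_z`, `r = (a q_z)_z`,
`L0 = D (a p)`. -/
structure Rg (ω : ℝ) (a a1 : ℤ → CI H) (q q1 p p1 L0 r h : HH H) : Prop where
  dq : DH q q1
  q0 : Zr 0 q
  qH : Zr H q
  hp : Dk ω q p
  hp1 : Dk ω q1 p1
  hL : Dk ω (cm a p) L0
  dr : DH (cm a q1) r
  eq : h = L0 - r + cm a1 p - cD ω a q1

/-- Weights: `φ = E χ`, `φ' = κ e^{lz} φ + e1`, `e1 = E χ'`, `e2 = E χ''`. -/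
structure Ws (l κ : ℝ) (φ φ1 φ2 e1 e2 : CI H) : Prop where
  d1 : IsD φ φ1
  d2 : IsD φ1 φ2
  f1 : φ1 = ((κ : ℝ) : ℂ) • (fe l * φ) + e1
  f2 : φ2 = ((κ * l : ℝ) : ℂ) • (fe l * φ) + ((κ : ℝ) : ℂ) • (fe l * φ1) +
    ((κ : ℝ) : ℂ) • (fe l * e1) + e2
  zH : ex φ H = 0
  z1H : ex φ1 H = 0

variable {ω : ℝ} {a a1 a2 : ℤ → CI H} {c₀ l κ : ℝ} {q q1 p p1 L0 r h : HH H}
  {φ φ1 φ2 e1 e2 : CI H}

/-- The structure `FT` for the localised conjugated function. -/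
theorem Rg.ft (R : Rg ω a a1 q q1 p p1 L0 r h) (w : Ws l κ φ φ1 φ2 e1 e2) (ha : Co a a1 a2 c₀) :
    FT ω a (mb φ q) (mb φ1 q + mb φ q1)
      (mb φ2 (cm a q) + mb φ1 (cm a1 q + cm a q1) + (mb φ1 (cm a q1) + mb φ r))
      (mb φ p) (mb φ1 p + mb φ p1) (mb φ L0) := by
  have sa := ha.ca.s0
  have sa1 := ha.ca1.s0
  have dq := R.dq
  have daq := (R.dq.cm sa sa1 ha.d1).1
  have e1' : cm a (mb φ1 q + mb φ q1) = mb φ1 (cm a q) + mb φ (cm a q1) := by
    rw [map_add, mb_cm sa, mb_cm sa]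
  refine ⟨dq.mb w.d1, Zr.mb dq R.q0 _, Zr.mb dq R.qH _, ?_, ?_, R.hp.mb φ, ?_, ?_⟩
  · rw [e1']
    exact (daq.mb w.d2).add (R.dr.mb w.d1)
  · rw [e1']
    exact Zr.add (daq.mb w.d2) (R.dr.mb w.d1) (Zr.mb' daq w.z1H) (Zr.mb' R.dr w.zH)
  · exact (R.hp.mb φ1).add (R.hp1.mb φ)
  · rw [← mb_cm sa]
    exact R.hL.mb φ

/-- The source: only commutator terms with the cut-off and first order terms remain. -/
theorem Rg.source (R : Rg ω a a1 q q1 p p1 L0 r h) (w : Ws l κ φ φ1 φ2 e1 e2)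
    (ha : Co a a1 a2 c₀) (g : CI H) :
    FTS a l κ g (mb φ q) (mb φ2 (cm a q) + mb φ1 (cm a1 q + cm a q1) + (mb φ1 (cm a q1) + mb φ r))
      (mb φ L0) + (-mb g (mb φ q) - mb φ h) + FTY a a1 l κ (mb φ q) (mb φ1 q + mb φ q1) =
      -mb e2 (cm a q) - mb e1 (cm a1 q) - (2 : ℂ) • mb e1 (cm a q1) - mb φ (cm a1 p) +
        mb φ (cD ω a q1) := by
  have sa := ha.ca.s0
  have sa1 := ha.ca1.s0
  rw [FTS, FTY, R.eq]
  have h1 : cm a (mb φ q) = mb φ (cm a q) := (mb_cm sa _ _).symm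
  have h2 : cm a1 (mb φ q) = mb φ (cm a1 q) := (mb_cm sa1 _ _).symm
  have h3 : cm a (mb φ1 q + mb φ q1) = mb φ1 (cm a q) + mb φ (cm a q1) := by
    rw [map_add, mb_cm sa, mb_cm sa]
  rw [h1, h2, h3]
  -- coefficients
  have fe2 : (fe (2 * l) : CI H) = fe l * fe l := by rw [← fe_add]; congr 1; ring
  have c1 : mb φ2 (cm a q) = mb (((κ * l : ℝ) : ℂ) • (fe l * φ) + ((κ : ℝ) : ℂ) • (fe l * φ1) +
      ((κ : ℝ) : ℂ) • (fe l * e1) + e2) (cm a q) := by rw [← w.f2]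
  have k1 : ∀ X : HH H, mb φ1 X = ((κ : ℝ) : ℂ) • mb (fe l) (mb φ X) + mb e1 X := by
    intro X
    conv_lhs => rw [w.f1]
    rw [mb_add, mb_smul, mb_mul]
  have k2 : mb φ2 (cm a q) = ((κ * l : ℝ) : ℂ) • mb (fe l) (mb φ (cm a q)) +
      ((κ : ℝ) : ℂ) • mb (fe l) (mb φ1 (cm a q)) + ((κ : ℝ) : ℂ) • mb (fe l) (mb e1 (cm a q)) +
      mb e2 (cm a q) := by
    rw [c1, mb_add, mb_add, mb_add, mb_smul, mb_smul, mb_smul, mb_mul, mb_mul, mb_mul]
  have k3 : ∀ X : HH H, mb (fe (2 * l)) X = mb (fe l) (mb (fe l) X) := by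
    intro X
    rw [fe2, mb_mul]
  rw [k2]
  simp only [k1, k3, map_add, map_sub, map_smul, smul_add, smul_smul]
  push_cast
  module

end

end Pool.Agent.Lib.MP_79abb3_an.SC
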