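import Pool.Agent.Lib.MP_79abb3_an.SC.NcC

/-!
MP_79abb3_an, Theorem C, block (iv): the weights of the Carleman inequality.
-/

set_option autoImplicit false
set_option linter.unusedSectionVars false

open MeasureTheory Set Filter Topology Function
open scoped ENNReal InnerProductSpace

namespace Pool.Agent.Lib.MP_79abb3_an.SC

open Pool.Agent.Lib.MP_79abb3_an.P25

section
variable {H : ℝ} [hH : Fact (0 < H)]

theorem nisD_mul {f f1 g g1 : CI H} (hf : IsD f f1) (hg : IsD g g1) :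
    IsD (f * g) (f1 * g + f * g1) := fun z hz => (hf z hz).mul (hg z hz)

theorem nisD_add {f f1 g g1 : CI H} (hf : IsD f f1) (hg : IsD g g1) :
    IsD (f + g) (f1 + g1) := fun z hz => (hf z hz).add (hg z hz)

theorem nisD_sub {f f1 g g1 : CI H} (hf : IsD f f1) (hg : IsD g g1) :
    IsD (f - g) (f1 - g1) := fun z hz => (hf z hz).sub (hg z hz)

theorem nisD_smul (c : ℂ) {f f1 : CI H} (hf : IsD f f1) : IsD (c • f) (c • f1) :=
  fun z hz => (hf z hz).const_mul c

theorem nisD_eq {f f1 g1 : CI H} (hf : IsD f f1) (h : ∀ z ∈ Icc (0:ℝ) H, ex f1 z = ex g1 z) :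
    IsD f g1 := by
  rw [← ci_ext h]
  exact hf

theorem nisD_one : IsD (1 : CI H) 0 := fun z _ => hasDerivWithinAt_const z _ (1 : ℂ)

theorem ex_one (z : ℝ) : ex (1 : CI H) z = 1 := rfl

variable (H) in
/-- `2 e^{lH} - e^{lz}` -/
noncomputable def b0 (l : ℝ) : CI H := ((2 * Real.exp (l * H) : ℝ) : ℂ) • (1 : CI H) - fe l

theorem ex_b0 (l : ℝ) {z : ℝ} (hz : z ∈ Icc (0:ℝ) H) :
    ex (b0 H l) z = ((2 * Real.exp (l * H) - Real.exp (l * z) : ℝ) : ℂ) := by
  rw [b0, ex_sub, ex_smul, ex_fe l hz, ex_one, mul_one]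
  push_cast
  rfl

theorem b0_isD (l : ℝ) : IsD (b0 H l) (-((l : ℂ) • fe l)) := by
  have h := nisD_sub (nisD_smul ((2 * Real.exp (l * H) : ℝ) : ℂ) (nisD_one (H := H))) (fe_isD' l)
  refine nisD_eq h fun z _ => ?_
  rw [ex_sub, ex_smul, ex_zero, ex_neg, mul_zero, zero_sub]

variable (H) in
/-- `exp(-u (2 e^{lH} - e^{lz}))` -/
noncomputable def ew (l u : ℝ) : CI H := NormedSpace.exp (u • (-b0 H l))

theorem ex_exp (x : CI H) (z : ℝ) : ex (NormedSpace.exp x) z = Complex.exp (ex x z) := by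
  have h := NormedSpace.map_exp (ContinuousMap.evalStarAlgHom ℂ ℂ (projIcc 0 H hH.out.le z))
    (continuous_eval_const _) x
  rw [Complex.exp_eq_exp_ℂ]
  exact h

theorem ex_ew (l u : ℝ) {z : ℝ} (hz : z ∈ Icc (0:ℝ) H) : ex (ew H l u) z =
    ((Real.exp (-(u * (2 * Real.exp (l * H) - Real.exp (l * z)))) : ℝ) : ℂ) := by
  rw [ew, ex_exp, ex_rsmul, ex_neg, ex_b0 l hz]
  push_cast
  congr 1
  ring

theorem star_ew (l u : ℝ) : star (ew H l u) = ew H l u := by
  apply ci_ext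
  intro z hz
  rw [ex_star, ex_ew l u hz]
  exact Complex.conj_ofReal _

theorem star_b0 (l : ℝ) : star (b0 H l) = b0 H l := by
  apply ci_ext
  intro z hz
  rw [ex_star, ex_b0 l hz]
  exact Complex.conj_ofReal _

theorem ew_hasDerivAt (l u : ℝ) : HasDerivAt (fun u => ew H l u) (-(b0 H l * ew H l u)) u := by
  have h := hasDerivAt_exp_smul_const' (𝕂 := ℝ) (-b0 H l) u
  refine h.congr_deriv ?_
  apply ci_ext
  intro z _
  rw [ex_mul, ex_neg, ex_neg, ex_mul, neg_mul]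
  rfl

theorem ew_isD (l u : ℝ) : IsD (ew H l u) (((u * l : ℝ) : ℂ) • (fe l * ew H l u)) := by
  intro z hz
  have h1 : HasDerivAt (fun z : ℝ => Real.exp (-(u * (2 * Real.exp (l * H) - Real.exp (l * z)))))
      (u * l * (Real.exp (l * z) * Real.exp (-(u * (2 * Real.exp (l * H) - Real.exp (l * z)))))) z := by
    have h2 : HasDerivAt (fun z : ℝ => Real.exp (l * z)) (Real.exp (l * z) * (l * 1)) z :=
      ((hasDerivAt_id z).const_mul l).exp
    have h3 := (((h2.const_sub (2 * Real.exp (l * H))).const_mul u).fun_neg).exp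
    refine h3.congr_deriv ?_
    ring
  have h4 := h1.ofReal_comp.hasDerivWithinAt (s := Icc (0:ℝ) H)
  have h5 : HasDerivWithinAt (ex (ew H l u)) _ (Icc 0 H) z :=
    h4.congr (fun y hy => ex_ew l u hy) (ex_ew l u hz)
  refine h5.congr_deriv ?_
  rw [ex_smul, ex_mul, ex_fe l hz, ex_ew l u hz]
  push_cast
  ring

theorem b0_ge {l : ℝ} (hl : 0 ≤ l) {z : ℝ} (hz : z ∈ Icc (0:ℝ) H) :
    1 ≤ 2 * Real.exp (l * H) - Real.exp (l * z) := by
  have h1 : Real.exp (l * z) ≤ Real.exp (l * H) :=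
    Real.exp_le_exp.2 (mul_le_mul_of_nonneg_left hz.2 hl)
  have h2 : 1 ≤ Real.exp (l * H) := Real.one_le_exp (mul_nonneg hl hH.out.le)
  linarith

theorem norm_ew_le {l u : ℝ} (hl : 0 ≤ l) (hu : 0 ≤ u) : ‖ew H l u‖ ≤ Real.exp (-u) := by
  refine ci_norm_le (Real.exp_pos _).le fun z hz => ?_
  rw [ex_ew l u hz, Complex.norm_real, Real.norm_eq_abs, abs_of_pos (Real.exp_pos _),
    Real.exp_le_exp]
  have := b0_ge hl hz
  nlinarith

theorem norm_ex_ew_ge {l u : ℝ} (hu : 0 ≤ u) {z : ℝ} (hz : z ∈ Icc (0:ℝ) H) :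
    Real.exp (-(u * (2 * Real.exp (l * H)))) ≤ ‖ex (ew H l u) z‖ := by
  rw [ex_ew l u hz, Complex.norm_real, Real.norm_eq_abs, abs_of_pos (Real.exp_pos _),
    Real.exp_le_exp]
  have := Real.exp_pos (l * z)
  nlinarith

theorem norm_b0_le {l : ℝ} (hl : 0 ≤ l) : ‖b0 H l‖ ≤ 2 * Real.exp (l * H) := by
  refine ci_norm_le (by positivity) fun z hz => ?_
  have h1 := b0_ge hl hz
  have h2 := Real.exp_pos (l * z)
  rw [ex_b0 l hz, Complex.norm_real, Real.norm_eq_abs, abs_of_nonneg (by linarith)]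
  linarith

theorem norm_fe_le {m : ℝ} {C : ℝ} (h : ∀ z ∈ Icc (0:ℝ) H, Real.exp (m * z) ≤ C) :
    ‖(fe m : CI H)‖ ≤ C := by
  refine ci_norm_le ((Real.exp_pos _).le.trans (h 0 zero_memI)) fun z hz => ?_
  rw [ex_fe m hz, Complex.norm_real, Real.norm_eq_abs, abs_of_pos (Real.exp_pos _)]
  exact h z hz

theorem norm_fe_neg_le {m : ℝ} (hm : 0 ≤ m) : ‖(fe (-m) : CI H)‖ ≤ 1 :=
  norm_fe_le fun _ hz => by
    rw [Real.exp_le_one_iff]
    have := mul_nonneg hm hz.1
    linarith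

theorem norm_fe_pos_le {m : ℝ} (hm : 0 ≤ m) : ‖(fe m : CI H)‖ ≤ Real.exp (m * H) :=
  norm_fe_le fun _ hz => Real.exp_le_exp.2 (mul_le_mul_of_nonneg_left hz.2 hm)

/-! ### Cut-offs -/

/-- The cut-offs: `χ` localises away from `z = H`, `ζ = 1` where `χ' ≠ 0`, all defects are observed by
`χc`. -/
structure Cu (χ χ1 χ2 ζ ζ1 χc : CI H) (M : ℝ) : Prop where
  M0 : 0 ≤ M
  d1 : IsD χ χ1
  d2 : IsD χ1 χ2
  dζ : IsD ζ ζ1
  rζ : star ζ = ζ
  zH : ex χ H = 0
  z1H : ex χ1 H = 0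
  le1 : ∀ z ∈ Icc (0:ℝ) H, ‖ex χ1 z‖ ≤ M * ‖ex ζ z‖
  le2 : ∀ z ∈ Icc (0:ℝ) H, ‖ex χ2 z‖ ≤ M * ‖ex ζ z‖
  leζ : ∀ z ∈ Icc (0:ℝ) H, ‖ex ζ z‖ ≤ M * ‖ex χc z‖
  leζ1 : ∀ z ∈ Icc (0:ℝ) H, ‖ex ζ1 z‖ ≤ M * ‖ex χc z‖
  leχ : ∀ z ∈ Icc (0:ℝ) H, ‖1 - ex χ z‖ ≤ M * ‖ex χc z‖

/-- A smooth step: `0` for `z ≤ a`, `1` for `b ≤ z`. -/
noncomputable def stp (a b z : ℝ) : ℝ := Real.smoothTransition ((z - a) / (b - a))

theorem stp_contDiff (a b : ℝ) : ContDiff ℝ 2 (stp a b) := by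
  unfold stp
  have h1 : ContDiff ℝ 2 Real.smoothTransition := Real.smoothTransition.contDiff
  exact h1.comp (by fun_prop)

theorem stp_zero {a b z : ℝ} (hab : a < b) (hz : z ≤ a) : stp a b z = 0 := by
  unfold stp
  exact Real.smoothTransition.zero_of_nonpos
    (div_nonpos_of_nonpos_of_nonneg (by linarith) (by linarith))

theorem stp_one {a b z : ℝ} (hab : a < b) (hz : b ≤ z) : stp a b z = 1 := by
  unfold stp
  refine Real.smoothTransition.one_of_one_le ?_
  rw [le_div_iff₀ (by linarith)]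
  linarith

theorem stp_nonneg (a b z : ℝ) : 0 ≤ stp a b z := Real.smoothTransition.nonneg _
theorem stp_le_one (a b z : ℝ) : stp a b z ≤ 1 := Real.smoothTransition.le_one _

theorem stp_deriv_zero {a b z : ℝ} (hab : a < b) (hz : z ≤ a) : deriv (stp a b) z = 0 := by
  have h1 : HasDerivWithinAt (stp a b) 0 (Iic z) z := by
    refine (hasDerivWithinAt_const z (Iic z) (0:ℝ)).congr (fun y hy => ?_) (stp_zero hab hz)
    exact stp_zero hab (le_trans hy hz)
  have h2 : HasDerivAt (stp a b) (deriv (stp a b) z) z :=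
    ((stp_contDiff a b).differentiable (by norm_num) z).hasDerivAt
  exact (uniqueDiffWithinAt_Iic z).eq_deriv _ h2.hasDerivWithinAt h1

theorem stp_deriv_one {a b z : ℝ} (hab : a < b) (hz : b ≤ z) : deriv (stp a b) z = 0 := by
  have h1 : HasDerivWithinAt (stp a b) 0 (Ici z) z := by
    refine (hasDerivWithinAt_const z (Ici z) (1:ℝ)).congr (fun y hy => ?_) (stp_one hab hz)
    exact stp_one hab (le_trans hz hy)
  have h2 : HasDerivAt (stp a b) (deriv (stp a b) z) z :=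
    ((stp_contDiff a b).differentiable (by norm_num) z).hasDerivAt
  exact (uniqueDiffWithinAt_Ici z).eq_deriv _ h2.hasDerivWithinAt h1

theorem stp_deriv2_zero {a b z : ℝ} (hab : a < b) (hz : z ≤ a) :
    deriv (deriv (stp a b)) z = 0 := by
  have h1 : HasDerivWithinAt (deriv (stp a b)) 0 (Iic z) z := by
    refine (hasDerivWithinAt_const z (Iic z) (0:ℝ)).congr (fun y hy => ?_) (stp_deriv_zero hab hz)
    exact stp_deriv_zero hab (le_trans hy hz)
  have h3 : ContDiff ℝ 1 (deriv (stp a b)) := by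
    have := (contDiff_succ_iff_deriv (n := 1)).1 (show ContDiff ℝ (1 + 1) (stp a b) from by
      have := stp_contDiff a b
      norm_num
      exact this)
    exact this.2.2
  have h2 : HasDerivAt (deriv (stp a b)) (deriv (deriv (stp a b)) z) z :=
    (h3.differentiable (by norm_num) z).hasDerivAt
  exact (uniqueDiffWithinAt_Iic z).eq_deriv _ h2.hasDerivWithinAt h1

theorem stp_deriv_contDiff (a b : ℝ) : ContDiff ℝ 1 (deriv (stp a b)) := by
  have := (contDiff_succ_iff_deriv (n := 1)).1 (show ContDiff ℝ (1 + 1) (stp a b) from by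
    have := stp_contDiff a b
    norm_num
    exact this)
  exact this.2.2

variable (H) in
/-- A real continuous function as an element of `CI H`. -/
noncomputable def rci (f : ℝ → ℝ) (hf : Continuous f) : CI H :=
  mkCI (fun z => ((f z : ℝ) : ℂ)) (Complex.continuous_ofReal.comp hf).continuousOn

theorem ex_rci {f : ℝ → ℝ} (hf : Continuous f) {z : ℝ} (hz : z ∈ Icc (0:ℝ) H) :
    ex (rci H f hf) z = ((f z : ℝ) : ℂ) := ex_mkCI _ hz

theorem star_rci {f : ℝ → ℝ} (hf : Continuous f) : star (rci H f hf) = rci H f hf := by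
  apply ci_ext
  intro z hz
  rw [ex_star, ex_rci hf hz]
  exact Complex.conj_ofReal _

theorem rci_isD {f f1 : ℝ → ℝ} (hf : Continuous f) (hf1 : Continuous f1)
    (h : ∀ z, HasDerivAt f (f1 z) z) : IsD (rci H f hf) (rci H f1 hf1) := by
  intro z hz
  have h4 := (h z).ofReal_comp.hasDerivWithinAt (s := Icc (0:ℝ) H)
  have h5 : HasDerivWithinAt (ex (rci H f hf)) _ (Icc 0 H) z :=
    h4.congr (fun y hy => ex_rci hf hy) (ex_rci hf hz)
  refine h5.congr_deriv ?_
  rw [ex_rci hf1 hz]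

theorem exists_Cu {χc : CI H} {r : ℝ} (hr : r < H)
    (h : ∀ z ∈ Icc (0:ℝ) H, r ≤ z → ‖ex χc z‖ = 1) : ∃ χ χ1 χ2 ζ ζ1 : CI H, ∃ M : ℝ,
    Cu χ χ1 χ2 ζ ζ1 χc M := by
  obtain ⟨r1, h1, h1'⟩ := exists_between hr
  obtain ⟨r2, h2, h2'⟩ := exists_between h1'
  have c0 : Continuous fun z => 1 - stp r1 r2 z := continuous_const.sub (stp_contDiff r1 r2).continuous
  have c1 : Continuous fun z => -deriv (stp r1 r2) z := (stp_deriv_contDiff r1 r2).continuous.neg
  have c2 : Continuous fun z => -deriv (deriv (stp r1 r2)) z :=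
    ((stp_deriv_contDiff r1 r2).continuous_deriv le_rfl).neg
  have d0 : Continuous (stp r r1) := (stp_contDiff r r1).continuous
  have d1 : Continuous (deriv (stp r r1)) := (stp_deriv_contDiff r r1).continuous
  have D0 : ∀ a b z : ℝ, HasDerivAt (stp a b) (deriv (stp a b) z) z := fun a b z =>
    ((stp_contDiff a b).differentiable (by norm_num) z).hasDerivAt
  have D1 : ∀ a b z : ℝ, HasDerivAt (deriv (stp a b)) (deriv (deriv (stp a b)) z) z := fun a b z =>
    ((stp_deriv_contDiff a b).differentiable (by norm_num) z).hasDerivAt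
  set M : ℝ := 1 + ‖rci H _ c1‖ + ‖rci H _ c2‖ + ‖rci H _ d1‖ with hM
  have n1 := norm_nonneg (rci H _ c1)
  have n2 := norm_nonneg (rci H _ c2)
  have n3 := norm_nonneg (rci H _ d1)
  have key : ∀ (f g : ℝ → ℂ) (z : ℝ), (‖f z‖ ≤ M) → (‖f z‖ = 0 ∨ ‖g z‖ = 1) → ‖f z‖ ≤ M * ‖g z‖ := by
    intro f g z h1 h2
    rcases h2 with h2 | h2
    · rw [h2]; exact mul_nonneg (by linarith) (norm_nonneg _)
    · rw [h2, mul_one]; exact h1
  have ζ1 : ∀ z ∈ Icc (0:ℝ) H, r1 ≤ z → ‖ex (rci H _ d0) z‖ = 1 := by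
    intro z hz hz1
    rw [ex_rci d0 hz, stp_one h1 hz1, Complex.ofReal_one, norm_one]
  refine ⟨rci H _ c0, rci H _ c1, rci H _ c2, rci H _ d0, rci H _ d1, M, by linarith,
    rci_isD c0 c1 fun z => (D0 r1 r2 z).const_sub 1, rci_isD c1 c2 fun z => (D1 r1 r2 z).neg,
    rci_isD d0 d1 fun z => D0 r r1 z, star_rci d0, ?_, ?_, ?_, ?_, ?_, ?_, ?_⟩
  · rw [ex_rci c0 H_memI, stp_one h2 h2'.le, sub_self, Complex.ofReal_zero]
  · rw [ex_rci c1 H_memI, stp_deriv_one h2 h2'.le, neg_zero, Complex.ofReal_zero]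
  · intro z hz
    refine key (ex _) (ex _) z ((norm_ex_le _ _).trans (by linarith)) ?_
    rcases le_total z r1 with h3 | h3
    · left
      rw [ex_rci c1 hz, stp_deriv_zero h2 h3, neg_zero, Complex.ofReal_zero, norm_zero]
    · right; exact ζ1 z hz h3
  · intro z hz
    refine key (ex _) (ex _) z ((norm_ex_le _ _).trans (by linarith)) ?_
    rcases le_total z r1 with h3 | h3
    · left
      rw [ex_rci c2 hz, stp_deriv2_zero h2 h3, neg_zero, Complex.ofReal_zero, norm_zero]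
    · right; exact ζ1 z hz h3
  · intro z hz
    have hb : ‖ex (rci H _ d0) z‖ ≤ M := by
      rw [ex_rci d0 hz, Complex.norm_real, Real.norm_eq_abs, abs_of_nonneg (stp_nonneg _ _ _)]
      linarith [stp_le_one r r1 z]
    refine key (ex _) (ex _) z hb ?_
    rcases le_total z r with h3 | h3
    · left
      rw [ex_rci d0 hz, stp_zero h1 h3, Complex.ofReal_zero, norm_zero]
    · right; exact h z hz h3
  · intro z hz
    refine key (ex _) (ex _) z ((norm_ex_le _ _).trans (by linarith)) ?_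
    rcases le_total z r with h3 | h3
    · left
      rw [ex_rci d1 hz, stp_deriv_zero h1 h3, Complex.ofReal_zero, norm_zero]
    · right; exact h z hz h3
  · intro z hz
    have e : 1 - ex (rci H _ c0) z = ((stp r1 r2 z : ℝ) : ℂ) := by
      rw [ex_rci c0 hz]
      push_cast
      ring
    have hb : ‖1 - ex (rci H _ c0) z‖ ≤ M := by
      rw [e, Complex.norm_real, Real.norm_eq_abs, abs_of_nonneg (stp_nonneg _ _ _)]
      linarith [stp_le_one r1 r2 z]
    refine key (fun z => 1 - ex (rci H _ c0) z) (ex _) z hb ?_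
    rcases le_total z r1 with h3 | h3
    · left
      show ‖1 - ex (rci H _ c0) z‖ = 0
      rw [e, stp_zero h2 h3, Complex.ofReal_zero, norm_zero]
    · right; exact h z hz (by linarith)

end

end Pool.Agent.Lib.MP_79abb3_an.SC
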