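import Pool.Agent.Lib.MP_79abb3_an.SC.NcE
import Pool.Agent.Lib.MP_79abb3_an.SC.NcF
import Pool.Agent.Lib.MP_79abb3_an.SC.NcG

/-!
MP_79abb3_an, Theorem C, block (iv): the Carleman inequality with time dependent weights, at a
fixed time.
-/

set_option autoImplicit false
set_option linter.unusedSectionVars false
set_option linter.unusedVariables false

open MeasureTheory Set Filter Topology Function
open scoped ENNReal InnerProductSpace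

namespace Pool.Agent.Lib.MP_79abb3_an.SC

open Pool.Agent.Lib.MP_79abb3_an.P25

section
variable {H : ℝ} [hH : Fact (0 < H)]

/-- `φ = E χ` -/
noncomputable def wφ (l u : ℝ) (χ : CI H) : CI H := ew H l u * χ

/-- `φ_z` -/
noncomputable def wφ1 (l u : ℝ) (χ χ1 : CI H) : CI H :=
  ((u * l : ℝ) : ℂ) • (fe l * wφ l u χ) + wφ l u χ1

/-- `φ_zz` -/
noncomputable def wφ2 (l u : ℝ) (χ χ1 χ2 : CI H) : CI H :=
  ((u * l * l : ℝ) : ℂ) • (fe l * wφ l u χ) + ((u * l : ℝ) : ℂ) • (fe l * wφ1 l u χ χ1) +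
    ((u * l : ℝ) : ℂ) • (fe l * wφ l u χ1) + wφ l u χ2

/-- `g = u' b0` -/
noncomputable def wg (l u1 : ℝ) : CI H := ((u1 : ℝ) : ℂ) • b0 H l

theorem wφ_isD (l u : ℝ) {χ χ1 : CI H} (h : IsD χ χ1) : IsD (wφ l u χ) (wφ1 l u χ χ1) := by
  refine nisD_eq (nisD_mul (ew_isD l u) h) fun z _ => ?_
  rw [wφ1, wφ, wφ, ex_add, ex_add, ex_mul, ex_smul, ex_smul, ex_mul, ex_mul, ex_mul, ex_mul]
  ring

variable {χ χ1 χ2 ζ ζ1 χc : CI H} {M : ℝ}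

theorem Cu.ws (c : Cu χ χ1 χ2 ζ ζ1 χc M) (l u : ℝ) :
    Ws l (u * l) (wφ l u χ) (wφ1 l u χ χ1) (wφ2 l u χ χ1 χ2) (wφ l u χ1) (wφ l u χ2) where
  d1 := wφ_isD l u c.d1
  d2 := by
    have h1 := wφ_isD l u c.d1
    have h2 := wφ_isD l u c.d2
    have h3 := nisD_add (nisD_smul ((u * l : ℝ) : ℂ) (nisD_mul (fe_isD' l) h1)) h2
    refine nisD_eq h3 fun z _ => ?_
    rw [wφ2, wφ1, wφ1]
    simp only [ex_add, ex_smul, ex_mul]
    push_cast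
    ring
  f1 := rfl
  f2 := rfl
  zH := by rw [wφ, ex_mul, c.zH, mul_zero]
  z1H := by rw [wφ1, ex_add, ex_smul, ex_mul, wφ, wφ, ex_mul, ex_mul, c.zH, c.z1H]; ring

theorem star_wg (l u1 : ℝ) : star (wg l u1 : CI H) = wg l u1 := by
  apply ci_ext
  intro z hz
  have h1 : star (ex (b0 H l) z) = ex (b0 H l) z := by rw [← ex_star, star_b0]
  rw [wg, ex_star, ex_smul, star_mul', h1]
  congr 1
  exact Complex.conj_ofReal _

theorem wg_isD (l u1 : ℝ) : IsD (wg l u1 : CI H) (-((u1 * l : ℝ) : ℂ) • fe l) := by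
  refine nisD_eq (nisD_smul ((u1 : ℝ) : ℂ) (b0_isD l)) fun z _ => ?_
  rw [ex_smul, ex_neg, ex_smul, ex_smul]
  push_cast
  ring

theorem norm_wg_le {l : ℝ} (hl : 0 ≤ l) (u1 : ℝ) : ‖(wg l u1 : CI H)‖ ≤ |u1| * (2 * Real.exp (l * H)) := by
  rw [wg, norm_smul, Complex.norm_real, Real.norm_eq_abs]
  exact mul_le_mul_of_nonneg_left (norm_b0_le hl) (abs_nonneg _)

theorem norm_smul_real (c : ℝ) (x : CI H) : ‖((c : ℝ) : ℂ) • x‖ = |c| * ‖x‖ := by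
  rw [norm_smul, Complex.norm_real, Real.norm_eq_abs]

/-- Arithmetic of the absorption. -/
theorem carl_abs {c C κ X Y A B D M : ℝ} (hκ1 : 1 ≤ κ) (hc : 20 * C ^ 2 ≤ c * κ) (hA : 0 ≤ A)
    (hB : 0 ≤ B) (hD : 0 ≤ D) (hX : 0 ≤ X) (hY : 0 ≤ Y) (hM : 0 ≤ M) (hC : 0 ≤ C) {S : ℝ} (hS0 : 0 ≤ S)
    (hS : S ≤ C * (3 * M * X + 2 * M * Y + B + A + κ * D)) :
    S ^ 2 ≤ c * (κ * A ^ 2 + κ * B ^ 2 + κ ^ 3 * D ^ 2) / 4 + 45 * C ^ 2 * M ^ 2 * (X ^ 2 + Y ^ 2) := by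
  have h1 : S ^ 2 ≤ (C * (3 * M * X + 2 * M * Y + B + A + κ * D)) ^ 2 := pow_le_pow_left₀ hS0 hS 2
  have h2 : (3 * M * X + 2 * M * Y + B + A + κ * D) ^ 2 ≤
      5 * (9 * M ^ 2 * X ^ 2 + 4 * M ^ 2 * Y ^ 2 + B ^ 2 + A ^ 2 + κ ^ 2 * D ^ 2) := by
    nlinarith [sq_nonneg (3 * M * X - 2 * M * Y), sq_nonneg (3 * M * X - B), sq_nonneg (3 * M * X - A),
      sq_nonneg (3 * M * X - κ * D), sq_nonneg (2 * M * Y - B), sq_nonneg (2 * M * Y - A),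
      sq_nonneg (2 * M * Y - κ * D), sq_nonneg (B - A), sq_nonneg (B - κ * D), sq_nonneg (A - κ * D)]
  have h3 : C ^ 2 * (3 * M * X + 2 * M * Y + B + A + κ * D) ^ 2 ≤ C ^ 2 *
      (5 * (9 * M ^ 2 * X ^ 2 + 4 * M ^ 2 * Y ^ 2 + B ^ 2 + A ^ 2 + κ ^ 2 * D ^ 2)) :=
    mul_le_mul_of_nonneg_left h2 (by positivity)
  have h4 : 20 * C ^ 2 * (A ^ 2 + B ^ 2 + κ ^ 2 * D ^ 2) ≤ c * κ * (A ^ 2 + B ^ 2 + κ ^ 2 * D ^ 2) :=
    mul_le_mul_of_nonneg_right hc (by positivity)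
  have h5 : 0 ≤ C ^ 2 * M ^ 2 * Y ^ 2 := by positivity
  rw [mul_pow] at h1
  nlinarith only [h1, h3, h4, h5]

theorem mb_le_of {b c : CI H} {N : ℝ} (hN : 0 ≤ N) (h : ∀ z ∈ Icc (0:ℝ) H, ‖ex b z‖ ≤ N * ‖ex c z‖) (x : HH H) :
    ‖mb b x‖ ≤ N * ‖mb c x‖ := by
  have h1 : ‖mb b x‖ ≤ ‖mb (((N : ℝ) : ℂ) • c) x‖ := by
    refine mb_norm_mono (fun z hz => ?_) x
    rw [ex_smul, norm_mul, Complex.norm_real, Real.norm_eq_abs, abs_of_nonneg hN]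
    exact h z hz
  rwa [mb_smul, norm_smul, Complex.norm_real, Real.norm_eq_abs, abs_of_nonneg hN] at h1

theorem wφ_le {l u : ℝ} {b c : CI H} {N : ℝ} (hN : 0 ≤ N)
    (h : ∀ z ∈ Icc (0:ℝ) H, ‖ex b z‖ ≤ N * ‖ex c z‖) (x : HH H) :
    ‖mb (wφ l u b) x‖ ≤ N * ‖mb (wφ l u c) x‖ := by
  refine mb_le_of hN (fun z hz => ?_) x
  rw [wφ, wφ, ex_mul, ex_mul, norm_mul, norm_mul]
  have := mul_le_mul_of_nonneg_left (h z hz) (norm_nonneg (ex (ew H l u) z))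
  linarith

variable {ω : ℝ} {a a1 a2 : ℤ → CI H} {c₀ : ℝ}

theorem carl_time (ha : Co a a1 a2 c₀) (hC : Cu χ χ1 χ2 ζ ζ1 χc M) (ω : ℝ) :
    ∃ l s c C : ℝ, 1 ≤ l ∧ 1 ≤ s ∧ 0 < c ∧ 0 ≤ C ∧ ∀ u u1 u2 : ℝ, s ≤ u → |u1| ≤ u ^ 2 / s →
    |u2| ≤ u ^ 3 / s → ∀ q q1 p p1 L0 r h : HH H, Rg ω a a1 q q1 p p1 L0 r h →
    ∀ W Z : HH H, W = mb (wφ l u χ) q → Z = -mb (wg l u1) W - mb (wφ l u χ) h →
    2 * ri (FTS a l (u * l) (wg l u1) W (mb (wφ2 l u χ χ1 χ2) (cm a q) +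
      mb (wφ1 l u χ χ1) (cm a1 q + cm a q1) + (mb (wφ1 l u χ χ1) (cm a q1) + mb (wφ l u χ) r))
      (mb (wφ l u χ) L0)) Z - 2 * (u * l) * (u1 * l) * ri (mb (fe (2 * l)) (cm a W)) W +
      ri (mb (wg l u2) W) W + c * u ^ 3 * ‖W‖ ^ 2 ≤
      C * (‖mb (wφ l u ζ) q‖ ^ 2 + ‖mb (wφ l u ζ) q1‖ ^ 2) := by
  obtain ⟨C, hC1, -, bA, bA1, -, bD, -⟩ := ha.bound ω
  obtain ⟨l, κ₀, c, hl1, hκ₀, hc, key⟩ := carleman_fixed ha ω
  obtain ⟨e, he⟩ : ∃ e : ℝ, e = 2 * Real.exp (l * H) := ⟨_, rfl⟩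
  have he0 : 0 < e := by rw [he]; positivity
  have hC0 : 0 ≤ C := by linarith only [hC1]
  have pA : 0 ≤ 20 * C ^ 2 / c := by positivity
  have pB : 0 ≤ 8 * (2 * C + e) / c := by positivity
  obtain ⟨s, hs⟩ : ∃ s : ℝ, s = κ₀ + e + 20 * C ^ 2 / c + 8 * (2 * C + e) / c := ⟨_, rfl⟩
  have hs1 : 1 ≤ s := by linarith only [hs, pA, pB, hκ₀, he0]
  have hs0 : 0 < s := by linarith only [hs1]
  refine ⟨l, s, c / 2, 45 * C ^ 2 * M ^ 2, hl1, hs1, by positivity, by positivity, ?_⟩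
  intro u u1 u2 hu hu1 hu2 q q1 p p1 L0 r h R W Z hW hZ
  have hl0 : 0 ≤ l := by linarith only [hl1]
  have hu0 : 0 < u := by linarith only [hu, hs0]
  have hκu : u ≤ u * l := by nlinarith only [hu0, hl1]
  have ws := hC.ws l u
  have ft := R.ft ws ha
  have src := R.source ws ha (wg l u1)
  rw [← hW, ← hZ] at src
  obtain ⟨κ, hκ⟩ : ∃ κ : ℝ, κ = u * l := ⟨_, rfl⟩
  rw [← hκ] at ws src hκu ⊢
  have hκ1 : 1 ≤ κ := by linarith only [hκu, hu, hs1]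
  have hκ0 : 0 ≤ κ := by linarith only [hκ1]
  have k1 : κ₀ ≤ κ := by linarith only [hκu, hu, hs, pA, pB, he0]
  -- hypotheses of the fixed time inequality
  have g1n : ‖(wg l u1 * fe (-(2 * l)) : CI H)‖ ≤ κ ^ 2 := by
    have h1 : ‖(wg l u1 * fe (-(2 * l)) : CI H)‖ ≤ ‖(wg l u1 : CI H)‖ * 1 :=
      (norm_mul_le _ _).trans (mul_le_mul_of_nonneg_left
        (norm_fe_neg_le (by linarith only [hl0])) (norm_nonneg _))
    have h2 := norm_wg_le (H := H) hl0 u1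
    rw [← he] at h2
    have h3 : |u1| * e ≤ u ^ 2 / s * e := mul_le_mul_of_nonneg_right hu1 he0.le
    have h4 : u ^ 2 / s * e ≤ u ^ 2 := by
      rw [div_mul_eq_mul_div, div_le_iff₀ hs0]
      exact mul_le_mul_of_nonneg_left (by linarith only [hs, pA, pB, hκ₀, he0]) (by positivity)
    have h5 : u ^ 2 ≤ κ ^ 2 := pow_le_pow_left₀ hu0.le hκu 2
    linarith only [h1, h2, h3, h4, h5]
  have g2n : ‖(-((u1 * l : ℝ) : ℂ) • fe l * fe (-(2 * l)) : CI H)‖ ≤ κ ^ 2 := by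
    have e1 : (-((u1 * l : ℝ) : ℂ) • fe l * fe (-(2 * l)) : CI H) = ((-(u1 * l) : ℝ) : ℂ) • fe (-l) := by
      have e2 : (fe (-l) : CI H) = fe l * fe (-(2 * l)) := by rw [← fe_add]; congr 1; ring
      rw [e2]
      apply ci_ext
      intro z _
      rw [ex_mul, ex_smul, ex_smul, ex_mul]
      push_cast
      ring
    rw [e1, norm_smul_real, abs_neg, abs_mul, abs_of_nonneg hl0]
    have h1 := norm_fe_neg_le (H := H) hl0
    have h2 : |u1| * l ≤ u ^ 2 / s * l := mul_le_mul_of_nonneg_right hu1 hl0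
    have h3 : u ^ 2 / s * l ≤ u ^ 2 * l ^ 2 := by
      have h4 : u ^ 2 / s ≤ u ^ 2 := div_le_self (by positivity) hs1
      have h5 : l ≤ l ^ 2 := by nlinarith only [hl1]
      exact mul_le_mul h4 h5 hl0 (by positivity)
    have h4 : |u1| * l * ‖(fe (-l) : CI H)‖ ≤ |u1| * l * 1 :=
      mul_le_mul_of_nonneg_left h1 (by positivity)
    have h5 : κ ^ 2 = u ^ 2 * l ^ 2 := by rw [hκ]; ring
    linarith only [h4, h2, h3, h5]
  have K1 := key κ k1 (wg l u1) _ (wg_isD l u1) (star_wg l u1) g1n g2n _ _ _ _ _ _ Z ft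
  rw [← hW, src] at K1
  rw [← hW] at ft
  clear src key g1n g2n
  generalize FTS a l κ (wg l u1) W (mb (wφ2 l u χ χ1 χ2) (cm a q) +
      mb (wφ1 l u χ χ1) (cm a1 q + cm a q1) + (mb (wφ1 l u χ χ1) (cm a q1) + mb (wφ l u χ) r))
      (mb (wφ l u χ) L0) = S0 at K1 ⊢
  obtain ⟨W1, hW1⟩ : ∃ x : HH H, x = mb (wφ1 l u χ χ1) q + mb (wφ l u χ) q1 := ⟨_, rfl⟩
  obtain ⟨Ψ, hΨ⟩ : ∃ x : HH H, x = mb (wφ l u χ) p := ⟨_, rfl⟩
  rw [← hW1, ← hΨ] at K1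
  obtain ⟨A, hA⟩ : ∃ x : ℝ, x = ‖mb (fe (l / 2)) W1‖ := ⟨_, rfl⟩
  obtain ⟨B, hB⟩ : ∃ x : ℝ, x = ‖mb (fe (l / 2)) Ψ‖ := ⟨_, rfl⟩
  obtain ⟨D, hD⟩ : ∃ x : ℝ, x = ‖mb (fe (3 * l / 2)) W‖ := ⟨_, rfl⟩
  obtain ⟨X, hX⟩ : ∃ x : ℝ, x = ‖mb (wφ l u ζ) q‖ := ⟨_, rfl⟩
  obtain ⟨Y, hY⟩ : ∃ x : ℝ, x = ‖mb (wφ l u ζ) q1‖ := ⟨_, rfl⟩
  rw [← hA, ← hB, ← hD] at K1
  rw [← hX, ← hY]
  have nA : 0 ≤ A := by rw [hA]; exact norm_nonneg _
  have nB : 0 ≤ B := by rw [hB]; exact norm_nonneg _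
  have nD : 0 ≤ D := by rw [hD]; exact norm_nonneg _
  have nX : 0 ≤ X := by rw [hX]; exact norm_nonneg _
  have nY : 0 ≤ Y := by rw [hY]; exact norm_nonneg _
  have feone : ∀ x : HH H, mb (fe 0) x = x := by
    intro x
    have : (fe 0 : CI H) = 1 := by
      apply ci_ext
      intro z hz
      rw [ex_fe _ hz, ex_one, zero_mul, Real.exp_zero, Complex.ofReal_one]
    rw [this, mb_one]
  have wΨ : ‖Ψ‖ ≤ B := by
    have := norm_mb_fe_mono (show (0:ℝ) ≤ l / 2 by linarith only [hl0]) Ψ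
    rwa [feone, ← hB] at this
  have wW1 : ‖W1‖ ≤ A := by
    have := norm_mb_fe_mono (show (0:ℝ) ≤ l / 2 by linarith only [hl0]) W1
    rwa [feone, ← hA] at this
  have wW : ‖W‖ ≤ D := by
    have := norm_mb_fe_mono (show (0:ℝ) ≤ 3 * l / 2 by linarith only [hl0]) W
    rwa [feone, ← hD] at this
  have wfW : ‖mb (fe l) W‖ ≤ D := by
    rw [hD]
    exact norm_mb_fe_mono (by linarith only [hl0]) W
  have x1 : ‖mb (wφ l u χ1) q‖ ≤ M * X := by rw [hX]; exact wφ_le hC.M0 hC.le1 q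
  have x2 : ‖mb (wφ l u χ2) q‖ ≤ M * X := by rw [hX]; exact wφ_le hC.M0 hC.le2 q
  have x3 : ‖mb (wφ l u χ1) q1‖ ≤ M * Y := by rw [hY]; exact wφ_le hC.M0 hC.le1 q1
  have sa := ha.ca.s0
  have sa1 := ha.ca1.s0
  have y1 : ‖mb (wφ l u χ2) (cm a q)‖ ≤ C * (M * X) := by
    rw [mb_cm sa]
    exact (bA _).trans (mul_le_mul_of_nonneg_left x2 hC0)
  have y2 : ‖mb (wφ l u χ1) (cm a1 q)‖ ≤ C * (M * X) := by
    rw [mb_cm sa1]
    exact (bA1 _).trans (mul_le_mul_of_nonneg_left x1 hC0)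
  have y3 : ‖mb (wφ l u χ1) (cm a q1)‖ ≤ C * (M * Y) := by
    rw [mb_cm sa]
    exact (bA _).trans (mul_le_mul_of_nonneg_left x3 hC0)
  have y4 : ‖mb (wφ l u χ) (cm a1 p)‖ ≤ C * B := by
    rw [mb_cm sa1, ← hΨ]
    exact (bA1 _).trans (mul_le_mul_of_nonneg_left wΨ hC0)
  have y5 : ‖mb (wφ l u χ) q1‖ ≤ A + κ * D + M * X := by
    have e1 : mb (wφ l u χ) q1 = W1 - (((κ : ℝ) : ℂ) • mb (fe l) W + mb (wφ l u χ1) q) := by
      rw [hW1, hW, ws.f1, mb_add, mb_smul, mb_mul]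
      abel
    rw [e1]
    have t1 := norm_sub_le W1 (((κ : ℝ) : ℂ) • mb (fe l) W + mb (wφ l u χ1) q)
    have t2 := norm_add_le (((κ : ℝ) : ℂ) • mb (fe l) W) (mb (wφ l u χ1) q)
    rw [norm_smul, Complex.norm_real, Real.norm_eq_abs, abs_of_nonneg hκ0] at t2
    have t3 := mul_le_mul_of_nonneg_left wfW hκ0
    linarith only [t1, t2, t3, wW1, x1]
  have y6 : ‖mb (wφ l u χ) (cD ω a q1)‖ ≤ C * (A + κ * D + M * X) := by
    rw [mb_cD ω ha.ca]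
    exact (bD _).trans (mul_le_mul_of_nonneg_left y5 hC0)
  have hS : ‖-mb (wφ l u χ2) (cm a q) - mb (wφ l u χ1) (cm a1 q) - (2 : ℂ) • mb (wφ l u χ1) (cm a q1) -
      mb (wφ l u χ) (cm a1 p) + mb (wφ l u χ) (cD ω a q1)‖ ≤
      C * (3 * M * X + 2 * M * Y + B + A + κ * D) := by
    generalize mb (wφ l u χ2) (cm a q) = v1 at *
    generalize mb (wφ l u χ1) (cm a1 q) = v2 at *
    generalize mb (wφ l u χ1) (cm a q1) = v3 at *
    generalize mb (wφ l u χ) (cm a1 p) = v4 at *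
    generalize mb (wφ l u χ) (cD ω a q1) = v5 at *
    have t1 := norm_add_le (-v1 - v2 - (2 : ℂ) • v3 - v4) v5
    have t2 := norm_sub_le (-v1 - v2 - (2 : ℂ) • v3) v4
    have t3 := norm_sub_le (-v1 - v2) ((2 : ℂ) • v3)
    have t4 := norm_sub_le (-v1) v2
    rw [norm_neg] at t4
    rw [norm_smul, Complex.norm_ofNat] at t3
    have e : C * (3 * M * X + 2 * M * Y + B + A + κ * D) = C * (M * X) + C * (M * X) +
        2 * (C * (M * Y)) + C * B + C * (A + κ * D + M * X) := by ring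
    rw [e]
    linarith only [t1, t2, t3, t4, y1, y2, y3, y4, y6]
  have hcκ : 20 * C ^ 2 ≤ c * κ := by
    have h1 : 20 * C ^ 2 / c ≤ κ := by linarith only [hκu, hu, hs, pA, pB, he0, hκ₀]
    rw [div_le_iff₀ hc] at h1
    linarith only [h1]
  have fin := carl_abs hκ1 hcκ nA nB nD nX nY hC.M0 hC0 (norm_nonneg _) hS
  clear y1 y2 y3 y4 y5 y6 hS x1 x2 x3 wΨ wW1 hA hB hX hY hΨ hW1 ft hcκ
  generalize ‖-mb (wφ l u χ2) (cm a q) - mb (wφ l u χ1) (cm a1 q) - (2 : ℂ) • mb (wφ l u χ1) (cm a q1) -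
      mb (wφ l u χ) (cm a1 p) + mb (wφ l u χ) (cD ω a q1)‖ = S1 at K1 fin
  -- lower order terms
  have l1 : |ri (mb (fe (2 * l)) (cm a W)) W| ≤ C * D ^ 2 := by
    rw [show 2 * l = l + l by ring, ri_fe, mb_cm sa]
    refine (abs_ri_le _ _).trans ?_
    have t1 := bA (mb (fe l) W)
    calc ‖cm a (mb (fe l) W)‖ * ‖mb (fe l) W‖ ≤ (C * ‖mb (fe l) W‖) * ‖mb (fe l) W‖ :=
          mul_le_mul_of_nonneg_right t1 (norm_nonneg _)
      _ = C * ‖mb (fe l) W‖ ^ 2 := by ring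
      _ ≤ C * D ^ 2 := mul_le_mul_of_nonneg_left (pow_le_pow_left₀ (norm_nonneg _) wfW 2) hC0
  have uk3 : u ^ 3 ≤ κ ^ 3 := pow_le_pow_left₀ hu0.le hκu 3
  have l2 : |2 * κ * (u1 * l) * ri (mb (fe (2 * l)) (cm a W)) W| ≤ 2 * C / s * (κ ^ 3 * D ^ 2) := by
    have e1 : |2 * κ * (u1 * l) * ri (mb (fe (2 * l)) (cm a W)) W| =
        2 * κ * (|u1| * l) * |ri (mb (fe (2 * l)) (cm a W)) W| := by
      rw [abs_mul, abs_mul, abs_mul, abs_mul, abs_of_nonneg hl0, abs_of_nonneg hκ0,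
        abs_of_nonneg (by norm_num : (0:ℝ) ≤ 2)]
    rw [e1]
    have t1 : |u1| * l ≤ κ ^ 2 / s := by
      have t2 : |u1| * l ≤ u ^ 2 / s * l := mul_le_mul_of_nonneg_right hu1 hl0
      have t3 : u ^ 2 / s * l ≤ κ ^ 2 / s := by
        rw [div_mul_eq_mul_div]
        refine div_le_div_of_nonneg_right ?_ hs0.le
        rw [hκ]
        have : l ≤ l ^ 2 := by nlinarith only [hl1]
        calc u ^ 2 * l ≤ u ^ 2 * l ^ 2 := mul_le_mul_of_nonneg_left this (by positivity)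
          _ = (u * l) ^ 2 := by ring
      linarith only [t2, t3]
    calc 2 * κ * (|u1| * l) * |ri (mb (fe (2 * l)) (cm a W)) W| ≤ 2 * κ * (κ ^ 2 / s) * (C * D ^ 2) := by
          refine mul_le_mul (mul_le_mul_of_nonneg_left t1 (by positivity)) l1 (abs_nonneg _) (by positivity)
      _ = 2 * C / s * (κ ^ 3 * D ^ 2) := by ring
  have l3 : |ri (mb (wg l u2) W) W| ≤ e / s * (κ ^ 3 * D ^ 2) := by
    refine (abs_ri_le _ _).trans ?_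
    have t1 := norm_mb_apply_le (wg l u2) W
    have t2 := norm_wg_le (H := H) hl0 u2
    rw [← he] at t2
    have t3 : ‖(wg l u2 : CI H)‖ ≤ κ ^ 3 / s * e := by
      have t4 : |u2| * e ≤ u ^ 3 / s * e := mul_le_mul_of_nonneg_right hu2 he0.le
      have t5 : u ^ 3 / s * e ≤ κ ^ 3 / s * e :=
        mul_le_mul_of_nonneg_right (div_le_div_of_nonneg_right uk3 hs0.le) he0.le
      linarith only [t2, t4, t5]
    calc ‖mb (wg l u2) W‖ * ‖W‖ ≤ (‖(wg l u2 : CI H)‖ * ‖W‖) * ‖W‖ :=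
          mul_le_mul_of_nonneg_right t1 (norm_nonneg _)
      _ = ‖(wg l u2 : CI H)‖ * ‖W‖ ^ 2 := by ring
      _ ≤ (κ ^ 3 / s * e) * D ^ 2 :=
          mul_le_mul t3 (pow_le_pow_left₀ (norm_nonneg _) wW 2) (by positivity) (by positivity)
      _ = e / s * (κ ^ 3 * D ^ 2) := by ring
  have l4 : (2 * C + e) / s ≤ c / 8 := by
    have h1 : 8 * (2 * C + e) / c ≤ s := by linarith only [hs, pA, pB, hκ₀, he0]
    rw [div_le_iff₀ hc] at h1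
    rw [div_le_div_iff₀ hs0 (by norm_num)]
    linarith only [h1]
  have l5 : (2 * C + e) / s * (κ ^ 3 * D ^ 2) ≤ c / 8 * (κ ^ 3 * D ^ 2) :=
    mul_le_mul_of_nonneg_right l4 (by positivity)
  have l6 : (2 * C + e) / s * (κ ^ 3 * D ^ 2) = 2 * C / s * (κ ^ 3 * D ^ 2) + e / s * (κ ^ 3 * D ^ 2) := by
    ring
  have l7 : c / 2 * u ^ 3 * ‖W‖ ^ 2 ≤ c / 2 * (κ ^ 3 * D ^ 2) := by
    rw [mul_assoc]
    exact mul_le_mul_of_nonneg_left (mul_le_mul uk3 (pow_le_pow_left₀ (norm_nonneg _) wW 2)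
      (by positivity) (by positivity)) (by positivity)
  have l8 := (abs_le.1 l2).1
  have l9 := (abs_le.1 l3).2
  have l10 : 0 ≤ c * (κ * A ^ 2) := by positivity
  have l11 : 0 ≤ c * (κ * B ^ 2) := by positivity
  have l12 : 0 ≤ c * (κ ^ 3 * D ^ 2) := by positivity
  linarith only [K1, fin, l5, l6, l7, l8, l9, l10, l11, l12]

end

end Pool.Agent.Lib.MP_79abb3_an.SC
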