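import Pool.Agent.Lib.MP_79abb3_an.SC.NcH

/-!
MP_79abb3_an, Theorem C, block (iv): the time derivative of the Carleman functional.
-/

set_option autoImplicit false
set_option linter.unusedSectionVars false
set_option linter.unusedVariables false

open MeasureTheory Set Filter Topology Function
open scoped ENNReal InnerProductSpace

namespace Pool.Agent.Lib.MP_79abb3_an.SC

open Pool.Agent.Lib.MP_79abb3_an.P25

section
variable {H : ℝ} [hH : Fact (0 < H)]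

theorem clm_hd (L : HH H →L[ℂ] HH H) {x : ℝ → HH H} {x' : HH H} {t : ℝ} (h : HasDerivAt x x' t) :
    HasDerivAt (fun t => L (x t)) (L x') t :=
  (L.restrictScalars ℝ).hasFDerivAt.comp_hasDerivAt t h

theorem ri_hd {x y : ℝ → HH H} {x' y' : HH H} {t : ℝ} (hx : HasDerivAt x x' t)
    (hy : HasDerivAt y y' t) :
    HasDerivAt (fun t => ri (x t) (y t)) (ri x' (y t) + ri (x t) y') t := by
  have h3 := hx.inner ℂ hy
  have h4 := Complex.reCLM.hasFDerivAt.comp_hasDerivAt t (h3.restrictScalars ℝ)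
  refine HasDerivAt.congr_deriv h4 ?_
  show (⟪x t, y'⟫_ℂ + ⟪x', y t⟫_ℂ).re = _
  rw [Complex.add_re, add_comm]
  rfl

theorem mb_hd {φ : ℝ → CI H} {φ' : CI H} {x : ℝ → HH H} {x' : HH H} {t : ℝ}
    (hφ : HasDerivAt φ φ' t) (hx : HasDerivAt x x' t) :
    HasDerivAt (fun t => mb (φ t) (x t)) (mb φ' (x t) + mb (φ t) x') t := by
  let B : CI H →L[ℝ] HH H →L[ℝ] HH H :=
    (ContinuousLinearMap.restrictScalarsL ℂ (HH H) (HH H) ℝ ℝ) ∘L (mbL.restrictScalars ℝ)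
  have h1 : HasDerivAt (fun t => B (φ t)) (B φ') t := B.hasFDerivAt.comp_hasDerivAt t hφ
  exact h1.clm_apply hx

/-- The Carleman functional. -/
noncomputable def FF (a : ℤ → CI H) (l κ : ℝ) (g : CI H) (W W1 Ψ : HH H) : ℝ :=
  ri (cm a W1) W1 + ri (cm a Ψ) Ψ - κ ^ 2 * ri (mb (fe (2 * l)) (cm a W)) W + ri (mb g W) W

theorem FF_hd {a : ℤ → CI H} {p : ℕ} (ha : Cf p a) (l : ℝ) {κ : ℝ → ℝ} {κ' : ℝ} {g : ℝ → CI H} {g' : CI H}
    {W W1 Ψ : ℝ → HH H} {W' W1' Ψ' : HH H} {t : ℝ} (hκ : HasDerivAt κ κ' t) (hg : HasDerivAt g g' t)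
    (hgr : star (g t) = g t) (hW : HasDerivAt W W' t) (hW1 : HasDerivAt W1 W1' t)
    (hΨ : HasDerivAt Ψ Ψ' t) :
    HasDerivAt (fun t => FF a l (κ t) (g t) (W t) (W1 t) (Ψ t))
      (2 * (ri (cm a (W1 t)) W1' + ri (cm a (Ψ t)) Ψ' -
        κ t ^ 2 * ri (mb (fe (2 * l)) (cm a (W t))) W' + ri (mb (g t) (W t)) W') -
        2 * κ t * κ' * ri (mb (fe (2 * l)) (cm a (W t))) (W t) + ri (mb g' (W t)) (W t)) t := by
  have sa := ha.s0
  have d1 := ri_hd (clm_hd (cm a) hW1) hW1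
  have d2 := ri_hd (clm_hd (cm a) hΨ) hΨ
  have d3 := ri_hd (clm_hd (mb (fe (2 * l))) (clm_hd (cm a) hW)) hW
  have d4 := ri_hd (mb_hd hg hW) hW
  have d5 := (hκ.pow 2).mul d3
  have d6 := ((d1.add d2).sub d5).add d4
  refine HasDerivAt.congr_deriv d6 ?_
  have e1 : ri (cm a W1') (W1 t) = ri (cm a (W1 t)) W1' := by rw [ri_cm ha, ri_comm]
  have e2 : ri (cm a Ψ') (Ψ t) = ri (cm a (Ψ t)) Ψ' := by rw [ri_cm ha, ri_comm]
  have e3 : ri (mb (fe (2 * l)) (cm a W')) (W t) = ri (mb (fe (2 * l)) (cm a (W t))) W' := by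
    rw [ri_mb (star_fe _), ri_cm ha, ri_comm, mb_cm sa]
  have e4 : ri (mb g' (W t) + mb (g t) W') (W t) = ri (mb g' (W t)) (W t) + ri (mb (g t) (W t)) W' := by
    rw [ri_add_left]
    congr 1
    rw [ri_mb hgr, ri_comm]
  rw [e1, e2, e3, e4]
  simp only [Pi.pow_apply]
  norm_num
  ring

/-! ### The weights in time -/

theorem wφ_hd (l : ℝ) (χ : CI H) {u : ℝ → ℝ} {u1 t : ℝ} (hu : HasDerivAt u u1 t) :
    HasDerivAt (fun t => wφ l (u t) χ) (-(wg l u1 * wφ l (u t) χ)) t := by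
  have h1 := (ew_hasDerivAt (H := H) l (u t)).scomp t hu
  have h2 := h1.mul_const χ
  refine HasDerivAt.congr_deriv h2 ?_
  apply ci_ext
  intro z _
  rw [ex_neg, ex_mul, ex_mul, wg, ex_smul, wφ, ex_mul, ex_rsmul, ex_neg, ex_mul]
  ring

theorem smulR_hd {f : ℝ → ℝ} {f' : ℝ} {x : ℝ → CI H} {x' : CI H} {t : ℝ} (hf : HasDerivAt f f' t)
    (hx : HasDerivAt x x' t) :
    HasDerivAt (fun t => ((f t : ℝ) : ℂ) • x t) (((f t : ℝ) : ℂ) • x' + ((f' : ℝ) : ℂ) • x t) t :=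
  hf.ofReal_comp.smul hx

theorem wφ1_hd (l : ℝ) (χ χ1 : CI H) {u : ℝ → ℝ} {u1 t : ℝ} (hu : HasDerivAt u u1 t) :
    HasDerivAt (fun t => wφ1 l (u t) χ χ1)
      (((u1 * l : ℝ) : ℂ) • (fe l * wφ l (u t) χ) - wg l u1 * wφ1 l (u t) χ χ1) t := by
  have h1 := wφ_hd l χ hu
  have h2 := wφ_hd l χ1 hu
  have h3 := h1.const_mul (fe l : CI H)
  have h4 := smulR_hd (hu.mul_const l) h3
  have h5 := h4.add h2
  refine HasDerivAt.congr_deriv h5 ?_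
  apply ci_ext
  intro z _
  rw [wφ1]
  simp only [ex_add, ex_sub, ex_neg, ex_mul, ex_smul]
  ring

theorem wg_hd (l : ℝ) {u1 : ℝ → ℝ} {u2 t : ℝ} (hu : HasDerivAt u1 u2 t) :
    HasDerivAt (fun t => (wg l (u1 t) : CI H)) (wg l u2) t := by
  have h := smulR_hd hu (hasDerivAt_const t (b0 H l))
  refine HasDerivAt.congr_deriv h ?_
  apply ci_ext
  intro z _
  rw [wg, ex_add, ex_smul, ex_smul, ex_zero, mul_zero, zero_add]

/-- `(K, Q1, ..)` gives all the regularity of `K h`, by bounded operators. -/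
structure NRO (ω : ℝ) (a a1 : ℤ → CI H) (K Q1 Pp P1 Lo Ro : HH H →L[ℂ] HH H) : Prop where
  rg : ∀ h, Rg ω a a1 (K h) (Q1 h) (Pp h) (P1 h) (Lo h) (Ro h) h

/-- `h' = -h₂`, `K h₂ = h` at time `t`. -/
structure Traj (K : HH H →L[ℂ] HH H) (h : ℝ → HH H) (h2 : HH H) (t : ℝ) : Prop where
  d : HasDerivAt h (-h2) t
  k : K h2 = h t

variable {χ χ1 χ2 ζ ζ1 χc : CI H} {M : ℝ}
variable {ω : ℝ} {a a1 a2 : ℤ → CI H} {c₀ : ℝ} {K Q1 Pp P1 Lo Ro : HH H →L[ℂ] HH H}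

/-- `W`, `W₁`, `Ψ` -/
noncomputable def ncW (K : HH H →L[ℂ] HH H) (l u : ℝ) (χ : CI H) (h : HH H) : HH H :=
  mb (wφ l u χ) (K h)

noncomputable def ncW1 (K Q1 : HH H →L[ℂ] HH H) (l u : ℝ) (χ χ1 : CI H) (h : HH H) : HH H :=
  mb (wφ1 l u χ χ1) (K h) + mb (wφ l u χ) (Q1 h)

/-- `Z = W_t` -/
noncomputable def ncZ (K : HH H →L[ℂ] HH H) (l u u1 : ℝ) (χ : CI H) (h : HH H) : HH H :=
  -mb (wg l u1) (ncW K l u χ h) - mb (wφ l u χ) h

theorem FFt_hd (ha : Co a a1 a2 c₀) (R : NRO ω a a1 K Q1 Pp P1 Lo Ro) (hC : Cu χ χ1 χ2 ζ ζ1 χc M)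
    (l : ℝ) {u u1 : ℝ → ℝ} {u2 t : ℝ} (hu : HasDerivAt u (u1 t) t) (hu1 : HasDerivAt u1 u2 t)
    {h : ℝ → HH H} {h2 : HH H} (hT : Traj K h h2 t) :
    HasDerivAt (fun t => FF a l (u t * l) (wg l (u1 t)) (ncW K l (u t) χ (h t))
      (ncW1 K Q1 l (u t) χ χ1 (h t)) (ncW Pp l (u t) χ (h t)))
      (2 * ri (FTS a l (u t * l) (wg l (u1 t)) (ncW K l (u t) χ (h t))
        (mb (wφ2 l (u t) χ χ1 χ2) (cm a (K (h t))) +
        mb (wφ1 l (u t) χ χ1) (cm a1 (K (h t)) + cm a (Q1 (h t))) +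
        (mb (wφ1 l (u t) χ χ1) (cm a (Q1 (h t))) + mb (wφ l (u t) χ) (Ro (h t))))
        (mb (wφ l (u t) χ) (Lo (h t)))) (ncZ K l (u t) (u1 t) χ (h t)) -
        2 * (u t * l) * (u1 t * l) * ri (mb (fe (2 * l)) (cm a (ncW K l (u t) χ (h t))))
          (ncW K l (u t) χ (h t)) +
        ri (mb (wg l u2) (ncW K l (u t) χ (h t))) (ncW K l (u t) χ (h t))) t := by
  have rg := R.rg (h t)
  have rg2 := R.rg h2
  rw [hT.k] at rg2
  have ws := hC.ws l (u t)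
  have ft := rg.ft ws ha
  -- derivative of W
  have dW : HasDerivAt (fun t => ncW K l (u t) χ (h t)) (ncZ K l (u t) (u1 t) χ (h t)) t := by
    have h1 := mb_hd (wφ_hd l χ hu) (clm_hd K hT.d)
    refine HasDerivAt.congr_deriv h1 ?_
    rw [ncZ, ncW, mb_neg, mb_mul, map_neg, hT.k, map_neg]
    abel
  have e1 : ncW1 K Q1 l (u t) χ χ1 (h t) = mb (wφ1 l (u t) χ χ1) (K (h t)) + mb (wφ l (u t) χ) (Q1 (h t)) :=
    rfl
  have e0 : ncW K l (u t) χ (h t) = mb (wφ l (u t) χ) (K (h t)) := rfl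
  have e2 : ncW Pp l (u t) χ (h t) = mb (wφ l (u t) χ) (Pp (h t)) := rfl
  rw [← e0, ← e1, ← e2] at ft
  -- derivative of W1
  have dW1 : HasDerivAt (fun t => ncW1 K Q1 l (u t) χ χ1 (h t))
      (-(mb (-((u1 t * l : ℝ) : ℂ) • fe l) (ncW K l (u t) χ (h t)) +
        mb (wg l (u1 t)) (ncW1 K Q1 l (u t) χ χ1 (h t))) -
        (mb (wφ1 l (u t) χ χ1) (h t) + mb (wφ l (u t) χ) (Q1 h2))) t := by
    have h1 := (mb_hd (wφ1_hd l χ χ1 hu) (clm_hd K hT.d)).add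
      (mb_hd (wφ_hd l χ hu) (clm_hd Q1 hT.d))
    refine HasDerivAt.congr_deriv h1 ?_
    rw [e1, e0, mb_sub, mb_smul, mb_smul, mb_mul, mb_mul, mb_neg, mb_mul, map_neg, map_neg, map_neg,
      map_neg, hT.k, map_add]
    module
  have dΨ : HasDerivAt (fun t => ncW Pp l (u t) χ (h t))
      (-mb (wg l (u1 t)) (ncW Pp l (u t) χ (h t)) - mb (wφ l (u t) χ) (Pp h2)) t := by
    have h1 := mb_hd (wφ_hd l χ hu) (clm_hd Pp hT.d)
    refine HasDerivAt.congr_deriv h1 ?_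
    rw [ncW, mb_neg, mb_mul, map_neg, map_neg]
    abel
  have main := FF_hd ha.ca l (hu.mul_const l) (wg_hd l hu1) (star_wg l (u1 t)) dW dW1 dΨ
  refine HasDerivAt.congr_deriv main ?_
  -- the pairing
  have dZ : DH (ncZ K l (u t) (u1 t) χ (h t)) (-(mb (-((u1 t * l : ℝ) : ℂ) • fe l) (ncW K l (u t) χ (h t)) +
        mb (wg l (u1 t)) (ncW1 K Q1 l (u t) χ χ1 (h t))) -
        (mb (wφ1 l (u t) χ χ1) (h t) + mb (wφ l (u t) χ) (Q1 h2))) := by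
    have h1 := (ft.dW.mb (wg_isD l (u1 t))).smul (-1)
    have h2' := rg2.dq.mb ws.d1
    have h3 := h1.sub h2'
    rw [neg_one_smul, neg_one_smul] at h3
    exact h3
  have z0 : Zr 0 (ncZ K l (u t) (u1 t) χ (h t)) := by
    have h1 := Zr.mb ft.dW ft.W0 (wg l (u1 t))
    have h2' := Zr.smul (-1) (ft.dW.mb (wg_isD l (u1 t))) h1
    have h3 := Zr.mb rg2.dq rg2.q0 (wφ l (u t) χ)
    have h4 := Zr.sub ((ft.dW.mb (wg_isD l (u1 t))).smul (-1)) (rg2.dq.mb ws.d1) h2' h3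
    rw [neg_one_smul] at h4
    exact h4
  have zH : Zr H (ncZ K l (u t) (u1 t) χ (h t)) := by
    have h1 := Zr.mb ft.dW ft.WH (wg l (u1 t))
    have h2' := Zr.smul (-1) (ft.dW.mb (wg_isD l (u1 t))) h1
    have h3 := Zr.mb rg2.dq rg2.qH (wφ l (u t) χ)
    have h4 := Zr.sub ((ft.dW.mb (wg_isD l (u1 t))).smul (-1)) (rg2.dq.mb ws.d1) h2' h3
    rw [neg_one_smul] at h4
    exact h4
  have hD : Dk ω (ncZ K l (u t) (u1 t) χ (h t))
      (-mb (wg l (u1 t)) (ncW Pp l (u t) χ (h t)) - mb (wφ l (u t) χ) (Pp h2)) := by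
    have h1 := (ft.hΨ.mb (wg l (u1 t))).smul (-1)
    have h2' := rg2.hp.mb (wφ l (u t) χ)
    have h3 := h1.sub h2'
    rw [neg_one_smul, neg_one_smul] at h3
    exact h3
  have pz := ft.pair_Z dZ z0 zH hD l (u t * l) (wg l (u1 t))
  rw [pz]

end

end Pool.Agent.Lib.MP_79abb3_an.SC
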