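import Pool.Agent.Lib.MP_79abb3_an.SC.LaSG
import Pool.Agent.Lib.MP_79abb3_an.SC.NcStep

section

/-!
MP_79abb3_an, Theorem C, block (iv): penalised HUM (approximate null control from observability),
abstract version.
-/

set_option autoImplicit false
set_option linter.unusedSectionVars false

open ContinuousLinearMap Filter Topology MeasureTheory Set
open scoped InnerProductSpace ComplexConjugate Interval

namespace Pool.Agent.Lib.MP_79abb3_an.SC

section Hum
variable {X : Type} [NormedAddCommGroup X] [InnerProductSpace ℂ X] [CompleteSpace X]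

/-- Data of the approximate control problem. -/
structure HumData (K χ : X →L[ℂ] X) (κ : ℝ → ℝ) (T M : ℝ) : Prop where
  hK : 0 ≤ K
  hi : ∀ x, K x = 0 → x = 0
  hT : 0 < T
  adjχ : ∀ x y, ⟪χ x, y⟫_ℂ = ⟪x, χ y⟫_ℂ
  cκ : Continuous κ
  κ0 : ∀ t, 0 ≤ κ t
  sym : ∀ t, κ (T - t) = κ t
  supp : ∀ t, t ≤ T / 4 → κ t = 0
  hM : 0 ≤ M
  obs : ∀ q, ‖Sg K T q‖ ^ 2 ≤ M ^ 2 * ∫ t in (0:ℝ)..T, κ t * ‖χ (Sg K t q)‖ ^ 2

variable {K χ : X →L[ℂ] X} {κ : ℝ → ℝ} {T M : ℝ}

/-- The integrand of the Gramian. -/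
noncomputable def gI (K χ : X →L[ℂ] X) (κ : ℝ → ℝ) (t : ℝ) : X →L[ℂ] X :=
  κ t • (Sg K t * (χ * χ) * Sg K t)

theorem HumData.cont_gI (h : HumData K χ κ T M) : Continuous (gI K χ κ) := by
  rw [continuous_iff_continuousAt]
  intro t
  have hT := h.hT
  rcases lt_or_ge t (T / 4) with ht | ht
  · have : gI K χ κ =ᶠ[𝓝 t] fun _ => 0 := by
      filter_upwards [Iio_mem_nhds ht] with s hs
      rw [gI, h.supp s (le_of_lt hs), zero_smul]
    exact continuousAt_const.congr this.symm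
  · have h0 : 0 < t := by linarith
    have h1 : ContinuousAt (fun t => Sg K t) t := (Sg_hasDerivAt h.hK h0).continuousAt
    exact h.cκ.continuousAt.smul ((h1.mul continuousAt_const).mul h1)

/-- The Gramian. -/
noncomputable def gram (K χ : X →L[ℂ] X) (κ : ℝ → ℝ) (T : ℝ) : X →L[ℂ] X :=
  ∫ t in (0:ℝ)..T, gI K χ κ t

theorem HumData.gram_apply (h : HumData K χ κ T M) (q : X) :
    gram K χ κ T q = ∫ t in (0:ℝ)..T, κ t • Sg K t (χ (χ (Sg K t q))) := by
  rw [gram, ContinuousLinearMap.intervalIntegral_apply (h.cont_gI.intervalIntegrable _ _)]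
  rfl

theorem HumData.cont_gI_apply (h : HumData K χ κ T M) (q : X) :
    Continuous fun t => κ t • Sg K t (χ (χ (Sg K t q))) :=
  (h.cont_gI.clm_apply continuous_const : Continuous fun t => gI K χ κ t q)

theorem HumData.inner_gram (h : HumData K χ κ T M) (q : X) :
    ⟪q, gram K χ κ T q⟫_ℂ = ((∫ t in (0:ℝ)..T, κ t * ‖χ (Sg K t q)‖ ^ 2 : ℝ) : ℂ) := by
  have h1 : ⟪q, gram K χ κ T q⟫_ℂ =
      ∫ t in (0:ℝ)..T, ⟪q, κ t • Sg K t (χ (χ (Sg K t q)))⟫_ℂ := by
    rw [h.gram_apply]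
    exact (((innerSL ℂ q).intervalIntegral_comp_comm
      ((h.cont_gI_apply q).intervalIntegrable 0 T))).symm
  rw [h1, ← intervalIntegral.integral_ofReal]
  refine intervalIntegral.integral_congr fun t _ => ?_
  show ⟪q, κ t • Sg K t (χ (χ (Sg K t q)))⟫_ℂ = _
  have h2 : (κ t • Sg K t (χ (χ (Sg K t q))) : X) = (κ t : ℂ) • Sg K t (χ (χ (Sg K t q))) := rfl
  rw [h2, inner_smul_right, ← Sg_inner, ← h.adjχ, inner_self_eq_norm_sq_to_K]
  push_cast
  rfl

theorem HumData.obs_nonneg (h : HumData K χ κ T M) (q : X) :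
    0 ≤ ∫ t in (0:ℝ)..T, κ t * ‖χ (Sg K t q)‖ ^ 2 :=
  intervalIntegral.integral_nonneg h.hT.le fun t _ => mul_nonneg (h.κ0 t) (by positivity)

theorem HumData.isUnit (h : HumData K χ κ T M) {ε : ℝ} (hε : 0 < ε) :
    IsUnit (gram K χ κ T + (ε : ℂ) • (1 : X →L[ℂ] X)) := by
  refine isUnit_of_forall_le_norm_inner_map _ (c := ⟨ε, hε.le⟩) hε fun x => ?_
  have h1 : ⟪x, (gram K χ κ T + (ε : ℂ) • (1 : X →L[ℂ] X)) x⟫_ℂ =
      (((∫ t in (0:ℝ)..T, κ t * ‖χ (Sg K t x)‖ ^ 2) + ε * ‖x‖ ^ 2 : ℝ) : ℂ) := by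
    rw [ContinuousLinearMap.add_apply, inner_add_right, h.inner_gram]
    rw [ContinuousLinearMap.smul_apply, inner_smul_right, ContinuousLinearMap.one_apply,
      inner_self_eq_norm_sq_to_K]
    push_cast
    rfl
  have h2 : ‖⟪(gram K χ κ T + (ε : ℂ) • (1 : X →L[ℂ] X)) x, x⟫_ℂ‖ =
      ‖⟪x, (gram K χ κ T + (ε : ℂ) • (1 : X →L[ℂ] X)) x⟫_ℂ‖ := by
    rw [← inner_conj_symm, RCLike.norm_conj]
  rw [h2, h1, Complex.norm_real]
  have h3 := h.obs_nonneg x
  calc ‖x‖ ^ 2 * ε = ε * ‖x‖ ^ 2 := mul_comm _ _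
    _ ≤ (∫ t in (0:ℝ)..T, κ t * ‖χ (Sg K t x)‖ ^ 2) + ε * ‖x‖ ^ 2 := by linarith
    _ ≤ _ := le_abs_self _

/-- **Penalised HUM.** -/
theorem HumData.hum (h : HumData K χ κ T M) {ε : ℝ} (hε : 0 < ε) (V : X) (J : X →L[ℝ] X)
    (hJS : ∀ t x, J (Sg K t x) = Sg K t (J x)) (hJχ : ∀ x, J (χ x) = χ (J x)) :
    ∃ q : X, √ε * ‖q‖ ≤ M * ‖V‖ ∧
      (∫ t in (0:ℝ)..T, κ t * ‖χ (Sg K t q)‖ ^ 2) ≤ M ^ 2 * ‖V‖ ^ 2 ∧
      Sg K T V + (∫ t in (0:ℝ)..T, Sg K (T - t) (κ t • χ (χ (Sg K (T - t) q)))) = -(ε • q) ∧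
      (J V = V → J q = q) := by
  obtain ⟨u, hu⟩ := h.isUnit hε
  set q : X := -((u⁻¹ : (X →L[ℂ] X)ˣ) : X →L[ℂ] X) (Sg K T V) with hq
  have hinv : ∀ x, ((u⁻¹ : (X →L[ℂ] X)ˣ) : X →L[ℂ] X) ((u : X →L[ℂ] X) x) = x := fun x => by
    have := congrArg (fun f : X →L[ℂ] X => f x) u.inv_mul
    exact this
  have hinv' : ∀ x, (u : X →L[ℂ] X) (((u⁻¹ : (X →L[ℂ] X)ˣ) : X →L[ℂ] X) x) = x := fun x => by
    have := congrArg (fun f : X →L[ℂ] X => f x) u.mul_inv
    exact this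
  have heq : gram K χ κ T q + (ε : ℂ) • q = -(Sg K T V) := by
    have h1 : (u : X →L[ℂ] X) q = -(Sg K T V) := by rw [hq, map_neg, hinv']
    rw [hu] at h1
    exact h1
  set I : ℝ := ∫ t in (0:ℝ)..T, κ t * ‖χ (Sg K t q)‖ ^ 2 with hI
  have hI0 : 0 ≤ I := h.obs_nonneg q
  -- energy identity
  have h2 : I + ε * ‖q‖ ^ 2 ≤ ‖V‖ * ‖Sg K T q‖ := by
    have h3 : ⟪q, gram K χ κ T q + (ε : ℂ) • q⟫_ℂ = ((I + ε * ‖q‖ ^ 2 : ℝ) : ℂ) := by
      rw [inner_add_right, h.inner_gram, inner_smul_right, inner_self_eq_norm_sq_to_K]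
      push_cast
      rfl
    rw [heq, inner_neg_right, ← Sg_inner] at h3
    have h4 : ‖-⟪Sg K T q, V⟫_ℂ‖ ≤ ‖Sg K T q‖ * ‖V‖ := by
      rw [norm_neg]; exact norm_inner_le_norm _ _
    rw [h3, Complex.norm_real] at h4
    have h5 := (le_abs_self (I + ε * ‖q‖ ^ 2)).trans h4
    linarith [mul_comm ‖V‖ ‖Sg K T q‖]
  have h6 : ‖Sg K T q‖ ≤ M * √I := by
    have h7 := h.obs q
    have h8 : ‖Sg K T q‖ ^ 2 ≤ (M * √I) ^ 2 := by
      rw [mul_pow, Real.sq_sqrt hI0]; exact h7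
    exact (pow_le_pow_iff_left₀ (norm_nonneg _) (mul_nonneg h.hM (Real.sqrt_nonneg _)) two_ne_zero).1 h8
  have hIle : √I ≤ M * ‖V‖ := by
    rcases eq_or_lt_of_le (Real.sqrt_nonneg I) with h0 | h0
    · rw [← h0]; exact mul_nonneg h.hM (norm_nonneg _)
    · refine le_of_mul_le_mul_right ?_ h0
      have h9 : √I * √I = I := Real.mul_self_sqrt hI0
      have h10 : 0 ≤ ε * ‖q‖ ^ 2 := by positivity
      have h11 : ‖V‖ * ‖Sg K T q‖ ≤ ‖V‖ * (M * √I) := mul_le_mul_of_nonneg_left h6 (norm_nonneg _)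
      nlinarith
  refine ⟨q, ?_, ?_, ?_, ?_⟩
  · have h12 : (√ε * ‖q‖) ^ 2 ≤ (M * ‖V‖) ^ 2 := by
      rw [mul_pow, Real.sq_sqrt hε.le]
      have h11 : ‖V‖ * ‖Sg K T q‖ ≤ ‖V‖ * (M * √I) := mul_le_mul_of_nonneg_left h6 (norm_nonneg _)
      have h13 : ‖V‖ * (M * √I) ≤ (M * ‖V‖) * (M * ‖V‖) := by
        calc ‖V‖ * (M * √I) = (M * ‖V‖) * √I := by ring
          _ ≤ _ := mul_le_mul_of_nonneg_left hIle (mul_nonneg h.hM (norm_nonneg _))
      nlinarith
    exact (pow_le_pow_iff_left₀ (by positivity) (mul_nonneg h.hM (norm_nonneg _)) two_ne_zero).1 h12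
  · calc I = √I * √I := (Real.mul_self_sqrt hI0).symm
      _ ≤ (M * ‖V‖) * (M * ‖V‖) := mul_self_le_mul_self (Real.sqrt_nonneg _) hIle
      _ = _ := by ring
  · have h14 : (∫ t in (0:ℝ)..T, Sg K (T - t) (κ t • χ (χ (Sg K (T - t) q)))) = gram K χ κ T q := by
      rw [h.gram_apply]
      have h15 := intervalIntegral.integral_comp_sub_left (a := 0) (b := T)
        (fun t => κ t • Sg K t (χ (χ (Sg K t q)))) T
      rw [sub_zero, sub_self] at h15
      rw [← h15]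
      refine intervalIntegral.integral_congr fun t _ => ?_
      simp only [h.sym]
      rw [ContinuousLinearMap.map_smul_of_tower]
    rw [h14]
    have h16 : (ε • q : X) = (ε : ℂ) • q := rfl
    rw [h16]
    have h17 : Sg K T V = -(gram K χ κ T q + (ε : ℂ) • q) := by rw [heq, neg_neg]
    rw [h17]
    abel
  · intro hJV
    have hJG : J (gram K χ κ T q) = gram K χ κ T (J q) := by
      rw [h.gram_apply, h.gram_apply, ← ContinuousLinearMap.intervalIntegral_comp_comm _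
        ((h.cont_gI_apply q).intervalIntegrable 0 T)]
      refine intervalIntegral.integral_congr fun t _ => ?_
      show J (κ t • Sg K t (χ (χ (Sg K t q)))) = _
      rw [map_smul, hJS, hJχ, hJχ, hJS]
    have h18 : (u : X →L[ℂ] X) (J q) = -(Sg K T V) := by
      rw [hu]
      show gram K χ κ T (J q) + (ε : ℂ) • J q = _
      have h19 : ((ε : ℂ) • J q : X) = ε • J q := rfl
      rw [← hJG, h19, ← map_smul, ← map_add]
      have h20 : gram K χ κ T q + ε • q = -(Sg K T V) := heq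
      rw [h20, map_neg, hJS, hJV]
    have h21 : (u : X →L[ℂ] X) q = -(Sg K T V) := by rw [hq, map_neg, hinv']
    rw [← hinv (J q), h18, ← h21, hinv]

end Hum

end Pool.Agent.Lib.MP_79abb3_an.SC
end

section

/-!
MP_79abb3_an, Theorem C, block (iv): one step of the control iteration (abstract).
-/

set_option autoImplicit false
set_option linter.unusedSectionVars false

open ContinuousLinearMap Filter Topology MeasureTheory Set Function
open scoped InnerProductSpace ComplexConjugate Interval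

namespace Pool.Agent.Lib.MP_79abb3_an.SC

/-- The time weight of the observability inequality. -/
noncomputable def kapT (T t : ℝ) : ℝ := (max 0 ((t - T / 4) * (3 * T / 4 - t))) ^ 2

theorem kapT_cont (T : ℝ) : Continuous (kapT T) := by
  unfold kapT
  fun_prop

theorem kapT_nonneg (T t : ℝ) : 0 ≤ kapT T t := sq_nonneg _

theorem kapT_symm (T t : ℝ) : kapT T (T - t) = kapT T t := by
  unfold kapT
  congr 2
  ring

theorem kapT_zero {T t : ℝ} (hT : 0 < T) (ht : t ≤ T / 4) : kapT T t = 0 := by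
  unfold kapT
  rw [max_eq_left, zero_pow two_ne_zero]
  exact mul_nonpos_of_nonpos_of_nonneg (by linarith) (by linarith)

theorem kapT_zero' {T t : ℝ} (hT : 0 < T) (ht : 3 * T / 4 ≤ t) : kapT T t = 0 := by
  rw [← kapT_symm, kapT_zero hT (by linarith)]

theorem kapT_le_one {T t : ℝ} (hT : 0 < T) (hT1 : T ≤ 1) : kapT T t ≤ 1 := by
  have h1 : (t - T / 4) * (3 * T / 4 - t) ≤ 1 := by nlinarith [sq_nonneg (t - T / 2)]
  have h2 : max 0 ((t - T / 4) * (3 * T / 4 - t)) ≤ 1 := max_le zero_le_one h1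
  have h3 : 0 ≤ max 0 ((t - T / 4) * (3 * T / 4 - t)) := le_max_left _ _
  unfold kapT
  nlinarith

section Step
variable {X Y : Type} [NormedAddCommGroup X] [InnerProductSpace ℂ X] [CompleteSpace X]
  [NormedAddCommGroup Y] [NormedSpace ℂ Y]

/-- The abstract control system. -/
structure NcSys (K χ : X →L[ℂ] X) (J3 : Y →L[ℂ] X) (CL θ C0 : ℝ) : Prop where
  hK : 0 ≤ K
  hi : ∀ x, K x = 0 → x = 0
  hk : Ker (Sg K) (Lc K J3) CL θ
  adjχ : ∀ x y, ⟪χ x, y⟫_ℂ = ⟪x, χ y⟫_ℂ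
  nχ : ∀ x, ‖χ x‖ ≤ ‖x‖
  C00 : 0 ≤ C0
  obs : ∀ T, 0 < T → T ≤ 1 → ∀ q, ‖Sg K T q‖ ^ 2 ≤
    Real.exp (C0 / T ^ 2) * ∫ t in (0:ℝ)..T, kapT T t * ‖χ (Sg K t q)‖ ^ 2

variable {K χ : X →L[ℂ] X} {J3 : Y →L[ℂ] X} {CL θ C0 : ℝ} {N : X →L[ℂ] X →L[ℂ] Y}

theorem NcSys.humData (h : NcSys K χ J3 CL θ C0) {T : ℝ} (hT : 0 < T) (hT1 : T ≤ 1) :
    HumData K χ (kapT T) T (Real.exp (C0 / T ^ 2 / 2)) where
  hK := h.hK
  hi := h.hi
  hT := hT
  adjχ := h.adjχ
  cκ := kapT_cont T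
  κ0 := kapT_nonneg T
  sym := kapT_symm T
  supp t ht := kapT_zero hT ht
  hM := (Real.exp_pos _).le
  obs q := by
    have h1 := h.obs T hT hT1 q
    rwa [← Real.exp_nat_mul, Nat.cast_ofNat, mul_div_cancel₀ _ (two_ne_zero (α := ℝ))]

/-- The control of one step. -/
noncomputable def fq (K χ : X →L[ℂ] X) (T : ℝ) (q : X) (t : ℝ) : X :=
  kapT T t • χ (χ (Sg K (T - t) q))

theorem NcSys.fq_cont (h : NcSys K χ J3 CL θ C0) (T : ℝ) (q : X) : Continuous (fq K χ T q) := by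
  have h1 : Continuous fun t => Sg K (T - t) q :=
    (Sg_continuousOn_apply h.hK h.hi q).comp (by fun_prop)
  exact (kapT_cont T).smul (χ.continuous.comp (χ.continuous.comp h1))

theorem fq_zero {T : ℝ} (hT : 0 < T) {q : X} {t : ℝ} (ht : t ≤ T / 4 ∨ 3 * T / 4 ≤ t) :
    fq K χ T q t = 0 := by
  rcases ht with ht | ht
  · rw [fq, kapT_zero hT ht, zero_smul]
  · rw [fq, kapT_zero' hT ht, zero_smul]

theorem NcSys.fq_norm (h : NcSys K χ J3 CL θ C0) {T : ℝ} (hT : 0 < T) (hT1 : T ≤ 1) (q : X) (t : ℝ) :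
    ‖fq K χ T q t‖ ≤ ‖q‖ := by
  rw [fq, norm_smul, Real.norm_of_nonneg (kapT_nonneg T t)]
  have h1 := kapT_le_one (t := t) hT hT1
  have h2 : ‖χ (χ (Sg K (T - t) q))‖ ≤ ‖q‖ :=
    ((h.nχ _).trans (h.nχ _)).trans (Sg_norm_apply h.hK _ _)
  calc kapT T t * ‖χ (χ (Sg K (T - t) q))‖ ≤ 1 * ‖q‖ :=
        mul_le_mul h1 h2 (norm_nonneg _) zero_le_one
    _ = ‖q‖ := one_mul _

theorem NcSys.fq_sq (h : NcSys K χ J3 CL θ C0) {T : ℝ} (hT : 0 < T) (hT1 : T ≤ 1) (q : X) {t : ℝ}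
    (ht : 0 ≤ t) : ∫ r in (0:ℝ)..t, ‖fq K χ T q r‖ ^ 2 ≤
      ∫ r in (0:ℝ)..T, kapT T r * ‖χ (Sg K r q)‖ ^ 2 := by
  have hcf := h.fq_cont T q
  have hci : ∀ a b : ℝ, IntervalIntegrable (fun r => ‖fq K χ T q r‖ ^ 2) volume a b :=
    fun a b => (hcf.norm.pow 2).intervalIntegrable _ _
  have h1 : ∫ r in (0:ℝ)..t, ‖fq K χ T q r‖ ^ 2 ≤ ∫ r in (0:ℝ)..T, ‖fq K χ T q r‖ ^ 2 := by
    rcases le_total t T with htT | htT
    · refine intervalIntegral.integral_mono_interval le_rfl ht htT ?_ (hci _ _)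
      exact Eventually.of_forall fun r => by positivity
    · rw [← intervalIntegral.integral_add_adjacent_intervals (hci 0 T) (hci T t)]
      have h2 : ∫ r in T..t, ‖fq K χ T q r‖ ^ 2 = 0 := by
        have : ∫ r in T..t, ‖fq K χ T q r‖ ^ 2 = ∫ r in T..t, (0:ℝ) := by
          refine intervalIntegral.integral_congr fun r hr => ?_
          rw [uIcc_of_le htT] at hr
          show ‖fq K χ T q r‖ ^ 2 = 0
          rw [fq_zero hT (Or.inr (by linarith [hr.1])), norm_zero, zero_pow two_ne_zero]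
        rw [this, intervalIntegral.integral_zero]
      rw [h2, add_zero]
  refine h1.trans ?_
  have h3 : ∫ r in (0:ℝ)..T, kapT T r * ‖χ (Sg K r q)‖ ^ 2 =
      ∫ r in (0:ℝ)..T, kapT T r * ‖χ (Sg K (T - r) q)‖ ^ 2 := by
    have h4 := intervalIntegral.integral_comp_sub_left (a := 0) (b := T)
      (fun t => kapT T t * ‖χ (Sg K t q)‖ ^ 2) T
    rw [sub_zero, sub_self] at h4
    rw [← h4]
    refine intervalIntegral.integral_congr fun r _ => ?_
    simp only [kapT_symm]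
  rw [h3]
  have hcS : Continuous fun t => χ (Sg K (T - t) q) :=
    χ.continuous.comp ((Sg_continuousOn_apply h.hK h.hi q).comp (by fun_prop))
  refine intervalIntegral.integral_mono_on hT.le (hci _ _)
    (((kapT_cont T).mul (hcS.norm.pow 2)).intervalIntegrable _ _) fun r _ => ?_
  show ‖kapT T r • χ (χ (Sg K (T - r) q))‖ ^ 2 ≤ _
  rw [norm_smul, Real.norm_of_nonneg (kapT_nonneg T r), mul_pow]
  have h5 := kapT_le_one (t := r) hT hT1
  have h6 := kapT_nonneg T r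
  have h7 : kapT T r ^ 2 ≤ kapT T r := by nlinarith
  have h8 : ‖χ (χ (Sg K (T - r) q))‖ ^ 2 ≤ ‖χ (Sg K (T - r) q)‖ ^ 2 :=
    pow_le_pow_left₀ (norm_nonneg _) (h.nχ _) 2
  exact mul_le_mul h7 h8 (by positivity) h6

theorem HS_comm_Sg (s : ℝ) {t : ℝ} (ht : 0 < t) (hs : 0 ≤ s) (x : X) :
    HS K t (Sg K s x) = HS K (s + t) x := by
  rcases hs.eq_or_lt with h0 | h0
  · rw [← h0, Sg_zero, zero_add]; rfl
  · have e1 : Sg K s * HS K t = HS K (s + t) := Sg_HS hs ht
    have h2 : HS K t * Sg K s = Sg K s * HS K t := by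
      have e1 : HS K t = fA (fun l => √l * Real.exp (-(t * l))) K := rfl
      rw [e1, Sg_pos h0, ← fA_mul (adm_sqrt_exp ht) (adm_exp h0),
        ← fA_mul (adm_exp h0) (adm_sqrt_exp ht)]
      congr 1
      funext l
      ring
    rw [e1] at h2
    exact congrArg (fun f : X →L[ℂ] X => f x) h2

/-- After the control time the linear part is `K^{-1/2} S(t-T) V_lin(T)`. -/
theorem NcSys.lc_after (h : NcSys K χ J3 CL θ C0) {T : ℝ} (hT : 0 < T) (q x₀ : X) {s : ℝ}
    (hs : 0 < s) : lc K (fq K χ T q) x₀ (T + s) =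
      HS K s (Sg K T (Kh K x₀) + ∫ t in (0:ℝ)..T, Sg K (T - t) (fq K χ T q t)) := by
  have hcf := h.fq_cont T q
  have hint := HS_conv_integrable h.hK (t := T + s) (by linarith) (hcf.continuousOn (s := Icc 0 (T + s)))
  have h0T : IntervalIntegrable (fun r => HS K (T + s - r) (fq K χ T q r)) volume 0 T :=
    hint.mono_set (by rw [uIcc_of_le hT.le, uIcc_of_le (by linarith)]
                      exact Icc_subset_Icc le_rfl (by linarith))
  have hTs : IntervalIntegrable (fun r => HS K (T + s - r) (fq K χ T q r)) volume T (T + s) :=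
    hint.mono_set (by rw [uIcc_of_le (by linarith), uIcc_of_le (by linarith)]
                      exact Icc_subset_Icc hT.le le_rfl)
  have e1 : ∫ r in T..(T + s), HS K (T + s - r) (fq K χ T q r) = 0 := by
    have : ∫ r in T..(T + s), HS K (T + s - r) (fq K χ T q r) = ∫ r in T..(T + s), (0 : X) := by
      refine intervalIntegral.integral_congr fun r hr => ?_
      rw [uIcc_of_le (by linarith)] at hr
      show HS K (T + s - r) (fq K χ T q r) = 0
      rw [fq_zero hT (Or.inr (by linarith [hr.1])), map_zero]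
    rw [this, intervalIntegral.integral_zero]
  have hS : Continuous fun t => Sg K (T - t) (fq K χ T q t) := by
    -- `Sg K (T-t) (fq t) = κ(t) • S(T-t) χ χ S(T-t) q`
    have hN : ∀ t, Sg K (T - t) (fq K χ T q t) =
        (fun u => kapT T u • Sg K u (χ (χ (Sg K u q)))) (T - t) := by
      intro t
      show Sg K (T - t) (kapT T t • χ (χ (Sg K (T - t) q))) =
        kapT T (T - t) • Sg K (T - t) (χ (χ (Sg K (T - t) q)))
      rw [kapT_symm, ContinuousLinearMap.map_smul_of_tower]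
    have h6 : Continuous fun u => kapT T u • Sg K u (χ (χ (Sg K u q))) := by
      rw [continuous_iff_continuousAt]
      intro u
      rcases lt_or_ge u (T / 4) with hu | hu
      · have : (fun u => kapT T u • Sg K u (χ (χ (Sg K u q)))) =ᶠ[𝓝 u] fun _ => 0 := by
          filter_upwards [Iio_mem_nhds hu] with v hv
          rw [kapT_zero hT (le_of_lt hv), zero_smul]
        exact continuousAt_const.congr this.symm
      · have hu0 : 0 < u := by linarith
        have h7 : ContinuousAt (fun t => Sg K t) u := (Sg_hasDerivAt h.hK hu0).continuousAt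
        exact (kapT_cont T).continuousAt.smul (h7.clm_apply (χ.continuous.continuousAt.comp
          (χ.continuous.continuousAt.comp (h7.clm_apply continuousAt_const))))
    have h8 : (fun t => Sg K (T - t) (fq K χ T q t)) =
        (fun u => kapT T u • Sg K u (χ (χ (Sg K u q)))) ∘ fun t => T - t := funext hN
    rw [h8]
    exact h6.comp (by fun_prop)
  rw [lc, ← intervalIntegral.integral_add_adjacent_intervals h0T hTs, e1, add_zero, map_add]
  congr 1
  · rw [HS_comm_Sg T hs hT.le]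
    have h9 : HS K (T + s) * Kh K = Kh K * HS K (T + s) := (Kh_comm_HS (by linarith)).symm
    have h10 : HS K (T + s) (Kh K x₀) = Kh K (HS K (T + s) x₀) :=
      congrArg (fun f : X →L[ℂ] X => f x₀) h9
    rw [h10]
    exact (congrArg (fun f : X →L[ℂ] X => f x₀) (Kh_HS h.hK (by linarith : 0 < T + s))).symm
  · rw [← ContinuousLinearMap.intervalIntegral_comp_comm _ (hS.intervalIntegrable _ _)]
    refine intervalIntegral.integral_congr fun r hr => ?_
    rw [uIcc_of_le hT.le] at hr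
    show HS K (T + s - r) (fq K χ T q r) = HS K s (Sg K (T - r) (fq K χ T q r))
    rw [HS_comm_Sg (T - r) hs (by linarith [hr.2])]
    congr 2
    ring

end Step

end Pool.Agent.Lib.MP_79abb3_an.SC
end
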