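import Pool.Agent.Lib.MP_79abb3_an.SC.NcI

/-!
MP_79abb3_an, Theorem C, block (iv): Caccioppoli inequality and the combined functional.
-/

set_option autoImplicit false
set_option linter.unusedSectionVars false
set_option linter.unusedVariables false

open MeasureTheory Set Filter Topology Function
open scoped ENNReal InnerProductSpace

namespace Pool.Agent.Lib.MP_79abb3_an.SC

open Pool.Agent.Lib.MP_79abb3_an.P25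

section
variable {H : ℝ} [hH : Fact (0 < H)]
variable {ω : ℝ} {a a1 a2 : ℤ → CI H} {c₀ : ℝ} {q q1 p p1 L0 r h : HH H}

theorem cacc_arith {c C P Y S X R1 R2 R3 R4 R5 : ℝ} (hc : 0 < c) (hR1 : c * P ^ 2 ≤ R1)
    (hR2 : c * Y ^ 2 ≤ R2) (hR3 : -(C * Y * S) ≤ R3) (hR4 : -(C * P * X) ≤ R4) (hR5 : R5 ≤ C * Y * X) :
    -2 * (R1 + (R2 + 2 * R3) + R4 - R5) + c * Y ^ 2 ≤ 8 * C ^ 2 / c * (S ^ 2 + X ^ 2) := by
  have e1 : 8 * C ^ 2 / c * (S ^ 2 + X ^ 2) - 4 * C * Y * S - 2 * C * P * X - 2 * C * Y * X +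
      c * Y ^ 2 + 2 * c * P ^ 2 =
      c / 2 * (Y - 4 * C / c * S) ^ 2 + c / 2 * (Y - 2 * C / c * X) ^ 2 +
      2 * c * (P - C / (2 * c) * X) ^ 2 + (11 / 2) * C ^ 2 / c * X ^ 2 := by
    field_simp
    ring
  have e2 : 0 ≤ c / 2 * (Y - 4 * C / c * S) ^ 2 + c / 2 * (Y - 2 * C / c * X) ^ 2 +
      2 * c * (P - C / (2 * c) * X) ^ 2 + (11 / 2) * C ^ 2 / c * X ^ 2 := by positivity
  linarith only [e1, e2, hR1, hR2, hR3, hR4, hR5]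

/-- Caccioppoli inequality at a fixed time. -/
theorem Rg.cacc (R : Rg ω a a1 q q1 p p1 L0 r h) (ha : Co a a1 a2 c₀) {C : ℝ}
    (bA : ∀ x : HH H, ‖cm a x‖ ≤ C * ‖x‖) (bA1 : ∀ x : HH H, ‖cm a1 x‖ ≤ C * ‖x‖)
    (bD : ∀ x : HH H, ‖cD ω a x‖ ≤ C * ‖x‖) {ρ ρ1 : CI H} (hρ : IsD ρ ρ1) (hr : star ρ = ρ) :
    -2 * ri (mb ρ q) (mb ρ h) + c₀ * ‖mb ρ q1‖ ^ 2 ≤
      8 * C ^ 2 / c₀ * (‖mb ρ1 q‖ ^ 2 + ‖mb ρ q‖ ^ 2) := by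
  have sa := ha.ca.s0
  have sa1 := ha.ca1.s0
  have d2 : IsD (ρ * ρ) (ρ1 * ρ + ρ * ρ1) := nisD_mul hρ hρ
  have dv := R.dq.mb d2
  have v0 := Zr.mb R.dq R.q0 (ρ * ρ)
  have vH := Zr.mb R.dq R.qH (ρ * ρ)
  have hv := R.hp.mb (ρ * ρ)
  have e0 : ri (mb ρ q) (mb ρ h) = ri h (mb (ρ * ρ) q) := by
    rw [ri_comm, ri_mb hr, mb_mul]
  have e1 : ri L0 (mb (ρ * ρ) q) = ri (cm a (mb ρ p)) (mb ρ p) := by
    have : ri L0 (mb (ρ * ρ) q) = ri (cm a p) (mb (ρ * ρ) p) := by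
      rw [ri, ri, R.hL.inner hv]
    rw [this, mb_mul, ← ri_mb hr, mb_cm sa]
  have e2 : ri r (mb (ρ * ρ) q) = -(ri (cm a (mb ρ q1)) (mb ρ q1) +
      2 * ri (cm a (mb ρ q1)) (mb ρ1 q)) := by
    have : ri r (mb (ρ * ρ) q) = -ri (cm a q1) (mb (ρ1 * ρ + ρ * ρ1) q + mb (ρ * ρ) q1) := by
      rw [ri, ri, R.dr.ibp dv v0 vH, Complex.neg_re]
    have e3 : ri (cm a q1) (mb (ρ * ρ1) q) = ri (cm a (mb ρ q1)) (mb ρ1 q) := by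
      rw [mb_mul, ← ri_mb hr, mb_cm sa]
    rw [this, ri_add_right, mb_add, ri_add_right, mul_comm ρ1 ρ, e3, mb_mul, ← ri_mb hr, mb_cm sa]
    ring
  have e4 : ri (cm a1 p) (mb (ρ * ρ) q) = ri (cm a1 (mb ρ p)) (mb ρ q) := by
    rw [mb_mul, ← ri_mb hr, mb_cm sa1]
  have e5 : ri (cD ω a q1) (mb (ρ * ρ) q) = ri (cD ω a (mb ρ q1)) (mb ρ q) := by
    rw [mb_mul, ← ri_mb hr, mb_cD ω ha.ca]
  have e6 : ri h (mb (ρ * ρ) q) = ri (cm a (mb ρ p)) (mb ρ p) + (ri (cm a (mb ρ q1)) (mb ρ q1) +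
      2 * ri (cm a (mb ρ q1)) (mb ρ1 q)) + ri (cm a1 (mb ρ p)) (mb ρ q) -
      ri (cD ω a (mb ρ q1)) (mb ρ q) := by
    conv_lhs => rw [R.eq]
    rw [ri_sub_left, ri_add_left, ri_sub_left, e1, e2, e4, e5]
    ring
  rw [e0, e6]
  refine cacc_arith ha.c₀_pos (P := ‖mb ρ p‖) (ha.coer _) (ha.coer _) ?_ ?_ ?_
  · exact (abs_le.1 (ri_le_mul (bA (mb ρ q1)) (le_refl ‖mb ρ1 q‖))).1
  · exact (abs_le.1 (ri_le_mul (bA1 (mb ρ p)) (le_refl ‖mb ρ q‖))).1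
  · exact (abs_le.1 (ri_le_mul (bD (mb ρ q1)) (le_refl ‖mb ρ q‖))).2

variable {χ χ1 χ2 ζ ζ1 χc : CI H} {M : ℝ}

theorem star_wφ (l u : ℝ) {b : CI H} (hb : star b = b) : star (wφ l u b) = wφ l u b :=
  star_mul_ci (star_ew l u) hb

theorem norm_wφ_le {l u : ℝ} (hl : 0 ≤ l) (hu : 0 ≤ u) (b : CI H) (x : HH H) :
    ‖mb (wφ l u b) x‖ ≤ Real.exp (-u) * ‖mb b x‖ := by
  rw [wφ, mb_mul]
  exact (norm_mb_apply_le _ _).trans (mul_le_mul_of_nonneg_right (norm_ew_le hl hu) (norm_nonneg _))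

theorem norm_wφ1_le {l u : ℝ} (hl : 0 ≤ l) (hu : 0 ≤ u) (b b1 : CI H) (x : HH H) :
    ‖mb (wφ1 l u b b1) x‖ ≤ Real.exp (-u) * (u * l * Real.exp (l * H) * ‖mb b x‖ + ‖mb b1 x‖) := by
  have e1 : mb (wφ1 l u b b1) x = ((u * l : ℝ) : ℂ) • mb (fe l) (mb (wφ l u b) x) + mb (wφ l u b1) x := by
    rw [wφ1, mb_add, mb_smul, mb_mul]
  rw [e1]
  have t1 := norm_add_le (((u * l : ℝ) : ℂ) • mb (fe l) (mb (wφ l u b) x)) (mb (wφ l u b1) x)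
  rw [norm_smul, Complex.norm_real, Real.norm_eq_abs, abs_of_nonneg (mul_nonneg hu hl)] at t1
  have t2 := norm_mb_apply_le (fe l) (mb (wφ l u b) x)
  have t3 := norm_wφ_le hl hu b x
  have t4 := norm_wφ_le hl hu b1 x
  have t5 := norm_fe_pos_le (H := H) hl
  have t6 : ‖mb (fe l) (mb (wφ l u b) x)‖ ≤ Real.exp (l * H) * (Real.exp (-u) * ‖mb b x‖) :=
    t2.trans (mul_le_mul t5 t3 (norm_nonneg _) (Real.exp_pos _).le)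
  have t7 := mul_le_mul_of_nonneg_left t6 (mul_nonneg hu hl)
  calc _ ≤ _ := t1
    _ ≤ u * l * (Real.exp (l * H) * (Real.exp (-u) * ‖mb b x‖)) + Real.exp (-u) * ‖mb b1 x‖ :=
      add_le_add t7 t4
    _ = _ := by ring

variable {K Q1 Pp P1 Lo Ro : HH H →L[ℂ] HH H}

theorem exp_sq (u : ℝ) : Real.exp (-u) ^ 2 = Real.exp (-(2 * u)) := by
  rw [← Real.exp_nat_mul]; congr 1; push_cast; ring

/-- Caccioppoli inequality with the time dependent weight. -/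
theorem cacc_time (ha : Co a a1 a2 c₀) (R : NRO ω a a1 K Q1 Pp P1 Lo Ro)
    (hC : Cu χ χ1 χ2 ζ ζ1 χc M) {l : ℝ} (hl : 0 ≤ l) : ∃ C : ℝ, 0 ≤ C ∧ ∀ u u1 : ℝ, 1 ≤ u →
    |u1| ≤ u ^ 2 → ∀ h : HH H, 2 * ri (ncW K l u ζ h) (ncZ K l u u1 ζ h) +
      c₀ * ‖mb (wφ l u ζ) (Q1 h)‖ ^ 2 ≤ C * (u ^ 2 * Real.exp (-(2 * u))) * ‖mb χc (K h)‖ ^ 2 := by
  obtain ⟨C, hC1, -, bA, bA1, -, bD, -⟩ := ha.bound ω
  obtain ⟨e, he⟩ : ∃ e : ℝ, e = Real.exp (l * H) := ⟨_, rfl⟩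
  have he0 : 0 < e := by rw [he]; positivity
  have hM := hC.M0
  have hc := ha.c₀_pos
  refine ⟨2 * (2 * e * M ^ 2) + 8 * C ^ 2 / c₀ * ((l * e * M + M) ^ 2 + M ^ 2), by positivity, ?_⟩
  intro u u1 hu hu1 h
  have hu0 : 0 ≤ u := by linarith only [hu]
  have n1 : 0 ≤ u ^ 2 * (2 * e) := by positivity
  have n2 : 0 ≤ u * l * e := by positivity
  have n3 : 0 ≤ 8 * C ^ 2 / c₀ := by positivity
  have n4 : 0 ≤ 2 * e := by positivity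
  have e1 : 2 * ri (ncW K l u ζ h) (ncZ K l u u1 ζ h) = -2 * ri (mb (wg l u1) (ncW K l u ζ h)) (ncW K l u ζ h)
      + -2 * ri (mb (wφ l u ζ) (K h)) (mb (wφ l u ζ) h) := by
    rw [ncZ, ri_sub_right, ri_neg_right, ri_comm (ncW K l u ζ h) (mb (wg l u1) (ncW K l u ζ h))]
    rw [show mb (wφ l u ζ) (K h) = ncW K l u ζ h from rfl]
    ring
  rw [e1]
  obtain ⟨O, hO⟩ : ∃ O : ℝ, O = ‖mb χc (K h)‖ := ⟨_, rfl⟩
  rw [← hO]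
  have nO : 0 ≤ O := by rw [hO]; exact norm_nonneg _
  have E0 : 0 < Real.exp (-u) := Real.exp_pos _
  have b1 : ‖mb ζ (K h)‖ ≤ M * O := by rw [hO]; exact mb_le_of hM hC.leζ _
  have b2 : ‖mb ζ1 (K h)‖ ≤ M * O := by rw [hO]; exact mb_le_of hM hC.leζ1 _
  have X1 : ‖ncW K l u ζ h‖ ≤ Real.exp (-u) * (M * O) :=
    (norm_wφ_le hl hu0 ζ _).trans (mul_le_mul_of_nonneg_left b1 E0.le)
  have S1 : ‖mb (wφ1 l u ζ ζ1) (K h)‖ ≤ Real.exp (-u) * (u * (l * e * M + M) * O) := by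
    refine (norm_wφ1_le hl hu0 ζ ζ1 _).trans (mul_le_mul_of_nonneg_left ?_ E0.le)
    rw [← he]
    have t1 := mul_le_mul_of_nonneg_left b1 n2
    have t2 : M * O ≤ u * (M * O) := le_mul_of_one_le_left (mul_nonneg hM nO) hu
    calc u * l * e * ‖mb ζ (K h)‖ + ‖mb ζ1 (K h)‖ ≤ u * l * e * (M * O) + u * (M * O) := by
          linarith only [t1, t2, b2]
      _ = _ := by ring
  have G1 : -2 * ri (mb (wg l u1) (ncW K l u ζ h)) (ncW K l u ζ h) ≤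
      2 * (2 * e * M ^ 2) * (u ^ 2 * Real.exp (-(2 * u))) * O ^ 2 := by
    have t1 := neg_ri_le (mb (wg l u1) (ncW K l u ζ h)) (ncW K l u ζ h)
    have t2 := norm_mb_apply_le (wg l u1) (ncW K l u ζ h)
    have t3 := norm_wg_le (H := H) hl u1
    rw [← he] at t3
    have t4 : ‖(wg l u1 : CI H)‖ ≤ u ^ 2 * (2 * e) :=
      t3.trans (mul_le_mul_of_nonneg_right hu1 n4)
    have t5 : ‖mb (wg l u1) (ncW K l u ζ h)‖ * ‖ncW K l u ζ h‖ ≤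
        (u ^ 2 * (2 * e)) * (Real.exp (-u) * (M * O)) ^ 2 := by
      calc ‖mb (wg l u1) (ncW K l u ζ h)‖ * ‖ncW K l u ζ h‖
          ≤ (‖(wg l u1 : CI H)‖ * ‖ncW K l u ζ h‖) * ‖ncW K l u ζ h‖ :=
            mul_le_mul_of_nonneg_right t2 (norm_nonneg _)
        _ = ‖(wg l u1 : CI H)‖ * ‖ncW K l u ζ h‖ ^ 2 := by ring
        _ ≤ _ := mul_le_mul t4 (pow_le_pow_left₀ (norm_nonneg _) X1 2) (sq_nonneg _) n1
    have e3 : (u ^ 2 * (2 * e)) * (Real.exp (-u) * (M * O)) ^ 2 =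
        (2 * e * M ^ 2) * (u ^ 2 * Real.exp (-(2 * u))) * O ^ 2 := by
      rw [mul_pow, exp_sq]; ring
    linarith only [t1, t5, e3]
  have S2 : ‖mb (wφ1 l u ζ ζ1) (K h)‖ ^ 2 ≤
      (l * e * M + M) ^ 2 * (u ^ 2 * Real.exp (-(2 * u))) * O ^ 2 := by
    refine (pow_le_pow_left₀ (norm_nonneg _) S1 2).trans (le_of_eq ?_)
    rw [mul_pow, exp_sq]; ring
  have X2 : ‖mb (wφ l u ζ) (K h)‖ ^ 2 ≤ M ^ 2 * (u ^ 2 * Real.exp (-(2 * u))) * O ^ 2 := by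
    refine (pow_le_pow_left₀ (norm_nonneg _) X1 2).trans ?_
    rw [mul_pow, exp_sq]
    have t1 : 1 ≤ u ^ 2 := one_le_pow₀ hu
    have t2 : 0 ≤ Real.exp (-(2 * u)) * (M * O) ^ 2 := mul_nonneg (Real.exp_pos _).le (sq_nonneg _)
    calc Real.exp (-(2 * u)) * (M * O) ^ 2 ≤ u ^ 2 * (Real.exp (-(2 * u)) * (M * O) ^ 2) :=
          le_mul_of_one_le_left t2 t1
      _ = _ := by ring
  have t9 : 8 * C ^ 2 / c₀ * (‖mb (wφ1 l u ζ ζ1) (K h)‖ ^ 2 + ‖mb (wφ l u ζ) (K h)‖ ^ 2) ≤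
      8 * C ^ 2 / c₀ * ((l * e * M + M) ^ 2 * (u ^ 2 * Real.exp (-(2 * u))) * O ^ 2 +
        M ^ 2 * (u ^ 2 * Real.exp (-(2 * u))) * O ^ 2) :=
    mul_le_mul_of_nonneg_left (add_le_add S2 X2) n3
  have c1 := (R.rg h).cacc ha bA bA1 bD (wφ_isD l u hC.dζ) (star_wφ l u hC.rζ)
  calc _ = -2 * ri (mb (wg l u1) (ncW K l u ζ h)) (ncW K l u ζ h) +
      (-2 * ri (mb (wφ l u ζ) (K h)) (mb (wφ l u ζ) h) + c₀ * ‖mb (wφ l u ζ) (Q1 h)‖ ^ 2) := by ring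
    _ ≤ 2 * (2 * e * M ^ 2) * (u ^ 2 * Real.exp (-(2 * u))) * O ^ 2 +
      8 * C ^ 2 / c₀ * ((l * e * M + M) ^ 2 * (u ^ 2 * Real.exp (-(2 * u))) * O ^ 2 +
        M ^ 2 * (u ^ 2 * Real.exp (-(2 * u))) * O ^ 2) := add_le_add G1 (c1.trans t9)
    _ = _ := by ring

end

end Pool.Agent.Lib.MP_79abb3_an.SC
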