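import Pool.Agent.Lib.MP_79abb3_an.SC.NcJ

/-!
MP_79abb3_an, Theorem C, block (iv): the combined functional.
-/

set_option autoImplicit false
set_option linter.unusedSectionVars false
set_option linter.unusedVariables false

open MeasureTheory Set Filter Topology Function
open scoped ENNReal InnerProductSpace

namespace Pool.Agent.Lib.MP_79abb3_an.SC

open Pool.Agent.Lib.MP_79abb3_an.P25

section
variable {H : ℝ} [hH : Fact (0 < H)]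
variable {ω : ℝ} {a a1 a2 : ℤ → CI H} {c₀ : ℝ}
variable {χ χ1 χ2 ζ ζ1 χc : CI H} {M : ℝ}
variable {K Q1 Pp P1 Lo Ro : HH H →L[ℂ] HH H}

theorem ncW_hd (l : ℝ) (χ : CI H) {u u1 : ℝ → ℝ} {t : ℝ} (hu : HasDerivAt u (u1 t) t)
    {h : ℝ → HH H} {h2 : HH H} (hT : Traj K h h2 t) :
    HasDerivAt (fun t => ncW K l (u t) χ (h t)) (ncZ K l (u t) (u1 t) χ (h t)) t := by
  have h1 := mb_hd (wφ_hd l χ hu) (clm_hd K hT.d)
  refine HasDerivAt.congr_deriv h1 ?_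
  rw [ncZ, ncW, mb_neg, mb_mul, map_neg, hT.k, map_neg]
  abel

/-- The combined functional. -/
noncomputable def GG (a : ℤ → CI H) (K Q1 Pp : HH H →L[ℂ] HH H) (l A u u1 : ℝ) (χ χ1 ζ : CI H)
    (h : HH H) : ℝ :=
  FF a l (u * l) (wg l u1) (ncW K l u χ h) (ncW1 K Q1 l u χ χ1 h) (ncW Pp l u χ h) +
    A * ri (ncW K l u ζ h) (ncW K l u ζ h)

theorem GG_arith {D1 D2 c u3 W X Y C1 C2 c₀ w O M A : ℝ} (hc : 0 < c₀) (hA : A = C1 / c₀)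
    (hC1 : 0 ≤ C1) (hcc : 0 ≤ c)
    (h1 : D1 + c * u3 * W ^ 2 ≤ C1 * (X ^ 2 + Y ^ 2)) (h2 : D2 + c₀ * Y ^ 2 ≤ C2 * w * O ^ 2)
    (h3 : X ^ 2 ≤ M ^ 2 * w * O ^ 2) (h4 : 1 ≤ u3) :
    (D1 + A * D2) + c * W ^ 2 ≤ (C1 * M ^ 2 + A * C2) * w * O ^ 2 := by
  have hA0 : 0 ≤ A := by rw [hA]; positivity
  have h5 := mul_le_mul_of_nonneg_left h2 hA0
  have h6 := mul_le_mul_of_nonneg_left h3 hC1
  have h7 : A * c₀ = C1 := by rw [hA, div_mul_cancel₀ _ hc.ne']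
  have h8 : c * W ^ 2 ≤ c * u3 * W ^ 2 := by
    rw [mul_assoc]
    exact mul_le_mul_of_nonneg_left (le_mul_of_one_le_left (sq_nonneg _) h4) hcc
  have h9 : A * (D2 + c₀ * Y ^ 2) = A * D2 + C1 * Y ^ 2 := by rw [mul_add, ← mul_assoc, h7]
  rw [h9] at h5
  linarith only [h1, h5, h6, h8]

theorem GG_main (ha : Co a a1 a2 c₀) (R : NRO ω a a1 K Q1 Pp P1 Lo Ro)
    (hC : Cu χ χ1 χ2 ζ ζ1 χc M) : ∃ l s c C A : ℝ, 1 ≤ l ∧ 1 ≤ s ∧ 0 < c ∧ 0 ≤ C ∧ 0 ≤ A ∧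
    ∀ u u1 : ℝ → ℝ, ∀ u2 t : ℝ, HasDerivAt u (u1 t) t → HasDerivAt u1 u2 t → s ≤ u t →
    |u1 t| ≤ u t ^ 2 / s → |u2| ≤ u t ^ 3 / s → ∀ (h : ℝ → HH H) (h2 : HH H), Traj K h h2 t →
    ∃ G' : ℝ, HasDerivAt (fun t => GG a K Q1 Pp l A (u t) (u1 t) χ χ1 ζ (h t)) G' t ∧
      G' + c * ‖ncW K l (u t) χ (h t)‖ ^ 2 ≤
        C * (u t ^ 2 * Real.exp (-(2 * u t))) * ‖mb χc (K (h t))‖ ^ 2 := by
  obtain ⟨l, s, c, C1, hl1, hs1, hc, hC1, key⟩ := carl_time ha hC ω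
  have hl0 : 0 ≤ l := by linarith only [hl1]
  obtain ⟨C2, hC2, cacc⟩ := cacc_time ha R hC hl0
  have hc₀ := ha.c₀_pos
  have hM := hC.M0
  have hA0 : 0 ≤ C1 / c₀ := by positivity
  refine ⟨l, s, c, C1 * M ^ 2 + C1 / c₀ * C2, C1 / c₀, hl1, hs1, hc, by positivity, hA0, ?_⟩
  intro u u1 u2 t hu hu1 hus hu1s hu2s h h2 hT
  have hs0 : 0 < s := by linarith only [hs1]
  have hut1 : 1 ≤ u t := by linarith only [hus, hs1]
  have hut0 : 0 ≤ u t := by linarith only [hut1]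
  have hu3 : 1 ≤ u t ^ 3 := one_le_pow₀ hut1
  have hu1t : |u1 t| ≤ u t ^ 2 := hu1s.trans (div_le_self (sq_nonneg _) hs1)
  have X2 : ‖mb (wφ l (u t) ζ) (K (h t))‖ ^ 2 ≤
      M ^ 2 * (u t ^ 2 * Real.exp (-(2 * u t))) * ‖mb χc (K (h t))‖ ^ 2 := by
    have b1 : ‖mb ζ (K (h t))‖ ≤ M * ‖mb χc (K (h t))‖ := mb_le_of hM hC.leζ _
    have X1 : ‖mb (wφ l (u t) ζ) (K (h t))‖ ≤ Real.exp (-(u t)) * (M * ‖mb χc (K (h t))‖) :=
      (norm_wφ_le hl0 hut0 ζ _).trans (mul_le_mul_of_nonneg_left b1 (Real.exp_pos _).le)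
    refine (pow_le_pow_left₀ (norm_nonneg _) X1 2).trans ?_
    rw [mul_pow, exp_sq]
    have t1 : 1 ≤ u t ^ 2 := one_le_pow₀ hut1
    have t2 : 0 ≤ Real.exp (-(2 * u t)) * (M * ‖mb χc (K (h t))‖) ^ 2 :=
      mul_nonneg (Real.exp_pos _).le (sq_nonneg _)
    calc Real.exp (-(2 * u t)) * (M * ‖mb χc (K (h t))‖) ^ 2
        ≤ u t ^ 2 * (Real.exp (-(2 * u t)) * (M * ‖mb χc (K (h t))‖) ^ 2) :=
          le_mul_of_one_le_left t2 t1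
      _ = _ := by ring
  have d1 := FFt_hd ha R hC l hu hu1 hT
  have d2 := ncW_hd (K := K) l ζ hu hT
  have d3 := (ri_hd d2 d2).const_mul (C1 / c₀)
  have d4 := d1.add d3
  refine ⟨_, d4, ?_⟩
  have i1 := key (u t) (u1 t) u2 hus hu1s hu2s _ _ _ _ _ _ _ (R.rg (h t)) _ _
    (show ncW K l (u t) χ (h t) = _ from rfl) (show ncZ K l (u t) (u1 t) χ (h t) = _ from rfl)
  have i2 := cacc (u t) (u1 t) hut1 hu1t (h t)
  have e1 : ri (ncZ K l (u t) (u1 t) ζ (h t)) (ncW K l (u t) ζ (h t)) +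
      ri (ncW K l (u t) ζ (h t)) (ncZ K l (u t) (u1 t) ζ (h t)) =
      2 * ri (ncW K l (u t) ζ (h t)) (ncZ K l (u t) (u1 t) ζ (h t)) := by
    rw [ri_comm (ncZ K l (u t) (u1 t) ζ (h t))]; ring
  rw [e1]
  exact GG_arith hc₀ rfl hC1 hc.le i1 i2 X2 hu3

/-- The functional is small when `u` is large. -/
theorem GG_bound (ha : Co a a1 a2 c₀) (K Q1 Pp : HH H →L[ℂ] HH H) {l A : ℝ} (hl : 0 ≤ l) (hA : 0 ≤ A)
    (χ χ1 ζ : CI H) : ∃ C : ℝ, 0 ≤ C ∧ ∀ u u1 : ℝ, 1 ≤ u → |u1| ≤ u ^ 2 → ∀ h : HH H,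
    |GG a K Q1 Pp l A u u1 χ χ1 ζ h| ≤ C * (u ^ 2 * Real.exp (-(2 * u))) * ‖h‖ ^ 2 := by
  obtain ⟨C, hC1, -, bA, -⟩ := ha.bound 0
  obtain ⟨e, he⟩ : ∃ e : ℝ, e = Real.exp (l * H) := ⟨_, rfl⟩
  have he0 : 0 < e := by rw [he]; positivity
  have sa := ha.ca.s0
  obtain ⟨kK, hkK, bK⟩ := op_bd (mb χ ∘L K)
  obtain ⟨kK1, hkK1, bK1⟩ := op_bd (mb χ1 ∘L K)
  obtain ⟨kQ, hkQ, bQ⟩ := op_bd (mb χ ∘L Q1)
  obtain ⟨kP, hkP, bP⟩ := op_bd (mb χ ∘L Pp)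
  obtain ⟨kZ, hkZ, bZ⟩ := op_bd (mb ζ ∘L K)
  have hC0 : 0 ≤ C := by linarith only [hC1]
  refine ⟨C * (l * e * kK + kK1 + kQ) ^ 2 + C * kP ^ 2 + l ^ 2 * (C * e ^ 2) * kK ^ 2 +
    2 * e * kK ^ 2 + A * kZ ^ 2, by positivity, ?_⟩
  intro u u1 hu hu1 h
  have hu0 : 0 ≤ u := by linarith only [hu]
  obtain ⟨N, hN⟩ : ∃ N : ℝ, N = ‖h‖ := ⟨_, rfl⟩
  have hN0 : 0 ≤ N := by rw [hN]; exact norm_nonneg _
  obtain ⟨E, hE⟩ : ∃ E : ℝ, E = Real.exp (-u) := ⟨_, rfl⟩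
  have hE0 : 0 < E := by rw [hE]; exact Real.exp_pos _
  have w1 : ‖ncW K l u χ h‖ ≤ E * (kK * N) := by
    rw [hE, hN]
    exact (norm_wφ_le hl hu0 χ _).trans (mul_le_mul_of_nonneg_left (bK h) (Real.exp_pos _).le)
  have w2 : ‖ncW Pp l u χ h‖ ≤ E * (kP * N) := by
    rw [hE, hN]
    exact (norm_wφ_le hl hu0 χ _).trans (mul_le_mul_of_nonneg_left (bP h) (Real.exp_pos _).le)
  have w3 : ‖ncW K l u ζ h‖ ≤ E * (kZ * N) := by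
    rw [hE, hN]
    exact (norm_wφ_le hl hu0 ζ _).trans (mul_le_mul_of_nonneg_left (bZ h) (Real.exp_pos _).le)
  have w4 : ‖ncW1 K Q1 l u χ χ1 h‖ ≤ E * (u * (l * e * kK + kK1 + kQ) * N) := by
    have t1 : ‖ncW1 K Q1 l u χ χ1 h‖ ≤ ‖mb (wφ1 l u χ χ1) (K h)‖ + ‖mb (wφ l u χ) (Q1 h)‖ :=
      norm_add_le _ _
    have t2 := norm_wφ1_le hl hu0 χ χ1 (K h)
    have t3 : ‖mb (wφ l u χ) (Q1 h)‖ ≤ E * (kQ * N) := by
      rw [hE, hN]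
      exact (norm_wφ_le hl hu0 χ _).trans (mul_le_mul_of_nonneg_left (bQ h) (Real.exp_pos _).le)
    rw [← he, ← hE] at t2
    have t4 : ‖mb χ (K h)‖ ≤ kK * N := by rw [hN]; exact bK h
    have t5 : ‖mb χ1 (K h)‖ ≤ kK1 * N := by rw [hN]; exact bK1 h
    have n1 : 0 ≤ u * l * e := mul_nonneg (mul_nonneg hu0 hl) he0.le
    have t6 : u * l * e * ‖mb χ (K h)‖ + ‖mb χ1 (K h)‖ ≤ u * l * e * (kK * N) + kK1 * N :=
      add_le_add (mul_le_mul_of_nonneg_left t4 n1) t5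
    have t7 := mul_le_mul_of_nonneg_left t6 hE0.le
    have t8 : kK1 * N + kQ * N ≤ u * (kK1 * N + kQ * N) :=
      le_mul_of_one_le_left (add_nonneg (mul_nonneg hkK1 hN0) (mul_nonneg hkQ hN0)) hu
    have t9 := mul_le_mul_of_nonneg_left t8 hE0.le
    calc ‖ncW1 K Q1 l u χ χ1 h‖ ≤ E * (u * l * e * (kK * N) + kK1 * N) + E * (kQ * N) := by
          linarith only [t1, t2, t3, t7]
      _ = E * (u * l * e * (kK * N)) + E * (kK1 * N + kQ * N) := by ring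
      _ ≤ E * (u * l * e * (kK * N)) + E * (u * (kK1 * N + kQ * N)) := by linarith only [t9]
      _ = _ := by ring
  -- the five terms
  have f1 : |ri (cm a (ncW1 K Q1 l u χ χ1 h)) (ncW1 K Q1 l u χ χ1 h)| ≤
      C * (E * (u * (l * e * kK + kK1 + kQ) * N)) ^ 2 := by
    refine (ri_le_mul (bA _) (le_refl _)).trans ?_
    calc _ = C * ‖ncW1 K Q1 l u χ χ1 h‖ ^ 2 := by ring
      _ ≤ _ := mul_le_mul_of_nonneg_left (pow_le_pow_left₀ (norm_nonneg _) w4 2) hC0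
  have f2 : |ri (cm a (ncW Pp l u χ h)) (ncW Pp l u χ h)| ≤ C * (E * (kP * N)) ^ 2 := by
    refine (ri_le_mul (bA _) (le_refl _)).trans ?_
    calc _ = C * ‖ncW Pp l u χ h‖ ^ 2 := by ring
      _ ≤ _ := mul_le_mul_of_nonneg_left (pow_le_pow_left₀ (norm_nonneg _) w2 2) hC0
  have f3 : |ri (mb (fe (2 * l)) (cm a (ncW K l u χ h))) (ncW K l u χ h)| ≤
      C * e ^ 2 * (E * (kK * N)) ^ 2 := by
    rw [show 2 * l = l + l by ring, ri_fe, mb_cm sa]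
    refine (ri_le_mul (bA _) (le_refl _)).trans ?_
    have t2 := norm_mb_apply_le (fe l) (ncW K l u χ h)
    have t5 := norm_fe_pos_le (H := H) hl
    rw [← he] at t5
    have t6 : ‖mb (fe l) (ncW K l u χ h)‖ ≤ e * (E * (kK * N)) :=
      t2.trans (mul_le_mul t5 w1 (norm_nonneg _) he0.le)
    calc _ = C * ‖mb (fe l) (ncW K l u χ h)‖ ^ 2 := by ring
      _ ≤ C * (e * (E * (kK * N))) ^ 2 :=
        mul_le_mul_of_nonneg_left (pow_le_pow_left₀ (norm_nonneg _) t6 2) hC0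
      _ = _ := by ring
  have f4 : |ri (mb (wg l u1) (ncW K l u χ h)) (ncW K l u χ h)| ≤ u ^ 2 * (2 * e) * (E * (kK * N)) ^ 2 := by
    refine (abs_ri_le _ _).trans ?_
    have t2 := norm_mb_apply_le (wg l u1) (ncW K l u χ h)
    have t3 := norm_wg_le (H := H) hl u1
    rw [← he] at t3
    have t4 : ‖(wg l u1 : CI H)‖ ≤ u ^ 2 * (2 * e) :=
      t3.trans (mul_le_mul_of_nonneg_right hu1 (mul_nonneg zero_le_two he0.le))
    calc ‖mb (wg l u1) (ncW K l u χ h)‖ * ‖ncW K l u χ h‖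
        ≤ (‖(wg l u1 : CI H)‖ * ‖ncW K l u χ h‖) * ‖ncW K l u χ h‖ :=
          mul_le_mul_of_nonneg_right t2 (norm_nonneg _)
      _ = ‖(wg l u1 : CI H)‖ * ‖ncW K l u χ h‖ ^ 2 := by ring
      _ ≤ _ := mul_le_mul t4 (pow_le_pow_left₀ (norm_nonneg _) w1 2) (sq_nonneg _)
          (mul_nonneg (sq_nonneg _) (mul_nonneg zero_le_two he0.le))
  have f5 : |ri (ncW K l u ζ h) (ncW K l u ζ h)| ≤ (E * (kZ * N)) ^ 2 := by
    rw [ri_self, abs_of_nonneg (sq_nonneg _)]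
    exact pow_le_pow_left₀ (norm_nonneg _) w3 2
  rw [GG, FF, ← hN]
  generalize ri (cm a (ncW1 K Q1 l u χ χ1 h)) (ncW1 K Q1 l u χ χ1 h) = r1 at *
  generalize ri (cm a (ncW Pp l u χ h)) (ncW Pp l u χ h) = r2 at *
  generalize ri (mb (fe (2 * l)) (cm a (ncW K l u χ h))) (ncW K l u χ h) = r3 at *
  generalize ri (mb (wg l u1) (ncW K l u χ h)) (ncW K l u χ h) = r4 at *
  generalize ri (ncW K l u ζ h) (ncW K l u ζ h) = r5 at *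
  clear w1 w2 w3 w4 bA bK bK1 bQ bP bZ
  have hu2 : 1 ≤ u ^ 2 := one_le_pow₀ hu
  have hEE : E ^ 2 = Real.exp (-(2 * u)) := by rw [hE, exp_sq]
  rw [← hEE]
  have s1 : |r1 + r2 - (u * l) ^ 2 * r3 + r4 + A * r5| ≤
      |r1| + |r2| + (u * l) ^ 2 * |r3| + |r4| + A * |r5| := by
    have t1 := abs_add_le (r1 + r2 - (u * l) ^ 2 * r3 + r4) (A * r5)
    have t2 := abs_add_le (r1 + r2 - (u * l) ^ 2 * r3) r4
    have t3 := abs_sub (r1 + r2) ((u * l) ^ 2 * r3)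
    have t4 := abs_add_le r1 r2
    rw [abs_mul, abs_of_nonneg hA] at t1
    rw [abs_mul, abs_of_nonneg (sq_nonneg (u * l))] at t3
    linarith only [t1, t2, t3, t4]
  have g3 := mul_le_mul_of_nonneg_left f3 (sq_nonneg (u * l))
  have g5 := mul_le_mul_of_nonneg_left f5 hA
  have k2 : C * (E * (kP * N)) ^ 2 ≤ u ^ 2 * (C * (E * (kP * N)) ^ 2) :=
    le_mul_of_one_le_left (mul_nonneg hC0 (sq_nonneg _)) hu2
  have k5 : A * (E * (kZ * N)) ^ 2 ≤ u ^ 2 * (A * (E * (kZ * N)) ^ 2) :=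
    le_mul_of_one_le_left (mul_nonneg hA (sq_nonneg _)) hu2
  calc |r1 + r2 - (u * l) ^ 2 * r3 + r4 + A * r5| ≤ C * (E * (u * (l * e * kK + kK1 + kQ) * N)) ^ 2 +
      u ^ 2 * (C * (E * (kP * N)) ^ 2) + (u * l) ^ 2 * (C * e ^ 2 * (E * (kK * N)) ^ 2) +
      u ^ 2 * (2 * e) * (E * (kK * N)) ^ 2 + u ^ 2 * (A * (E * (kZ * N)) ^ 2) := by
        linarith only [s1, f1, f2, g3, f4, g5, k2, k5]
    _ = _ := by ring

end

end Pool.Agent.Lib.MP_79abb3_an.SC
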