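import Pool.Agent.Lib.MP_79abb3_an.SC.NcK
import Pool.Agent.Lib.MP_79abb3_an.SC.NcL

/-!
MP_79abb3_an, Theorem C, block (iv): the observability inequality.
-/

set_option autoImplicit false
set_option linter.unusedSectionVars false
set_option linter.unusedVariables false

open MeasureTheory Set Filter Topology Function
open scoped ENNReal InnerProductSpace

namespace Pool.Agent.Lib.MP_79abb3_an.SC

open Pool.Agent.Lib.MP_79abb3_an.P25

section
variable {H : ℝ} [hH : Fact (0 < H)]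
variable {ω : ℝ} {a a1 a2 : ℤ → CI H} {c₀ : ℝ}
variable {χ χ1 χ2 ζ ζ1 χc : CI H} {M : ℝ}
variable {K Q1 Pp P1 Lo Ro : HH H →L[ℂ] HH H}

/-- Final constants. -/
theorem obs_const {T S I c C e M : ℝ} (hT : 0 < T) (hT1 : T ≤ 1) (hI : 0 ≤ I) (hc : 0 < c)
    (hC : 0 ≤ C) (he : 0 ≤ e)
    (h : T / 4 * S ≤ 2 * Real.exp (e / T ^ 2) * (C / c * I) + 2 * M ^ 2 * (4096 / T ^ 4 * I)) :
    S ≤ Real.exp ((e + 3 + (8 * C / c + 32768 * M ^ 2)) / T ^ 2) * I := by
  obtain ⟨y, hy⟩ : ∃ y : ℝ, y = 1 / T ^ 2 := ⟨_, rfl⟩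
  have hT2 : 0 < T ^ 2 := by positivity
  have hy1 : 1 ≤ y := by
    rw [hy, le_div_iff₀ hT2]
    nlinarith
  have e1 : e / T ^ 2 = e * y := by rw [hy]; ring
  have e2 : 4096 / T ^ 4 = 4096 * y ^ 2 := by rw [hy]; field_simp
  have e3 : (e + 3 + (8 * C / c + 32768 * M ^ 2)) / T ^ 2 =
      e * y + 3 * y + (8 * C / c + 32768 * M ^ 2) * y := by rw [hy]; ring
  have hTi : 1 / T ≤ Real.exp y := by
    have h1 : 1 / T ≤ y := by
      rw [hy, div_le_div_iff₀ hT hT2]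
      nlinarith
    have := Real.add_one_le_exp y
    linarith
  have hy2 : y ^ 2 ≤ Real.exp y * Real.exp y := by
    have := Real.add_one_le_exp y
    nlinarith
  rw [e1, e2] at h
  rw [e3]
  set k : ℝ := 8 * C / c + 32768 * M ^ 2 with hk
  have hk0 : 0 ≤ k := by positivity
  have hS : S ≤ 1 / T * (4 * (2 * Real.exp (e * y) * (C / c * I) + 2 * M ^ 2 * (4096 * y ^ 2 * I))) := by
    rw [one_div, inv_mul_eq_div, le_div_iff₀ hT]
    linarith
  have hey : 1 ≤ Real.exp (e * y) := Real.one_le_exp (by positivity)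
  have h3 : 4 * (2 * Real.exp (e * y) * (C / c * I) + 2 * M ^ 2 * (4096 * y ^ 2 * I)) ≤
      k * (Real.exp (e * y) * (Real.exp y * Real.exp y)) * I := by
    have hE1 : 1 ≤ Real.exp y := Real.one_le_exp (by linarith)
    have t1 : 8 * C / c * Real.exp (e * y) * I ≤
        8 * C / c * (Real.exp (e * y) * (Real.exp y * Real.exp y)) * I := by
      refine mul_le_mul_of_nonneg_right (mul_le_mul_of_nonneg_left ?_ (by positivity)) hI
      exact le_mul_of_one_le_right (by linarith) (by nlinarith)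
    have t2 : 32768 * M ^ 2 * y ^ 2 * I ≤
        32768 * M ^ 2 * (Real.exp (e * y) * (Real.exp y * Real.exp y)) * I := by
      refine mul_le_mul_of_nonneg_right (mul_le_mul_of_nonneg_left ?_ (by positivity)) hI
      exact hy2.trans (le_mul_of_one_le_left (by positivity) hey)
    calc _ = 8 * C / c * Real.exp (e * y) * I + 32768 * M ^ 2 * y ^ 2 * I := by ring
      _ ≤ _ := add_le_add t1 t2
      _ = _ := by rw [hk]; ring
  have h4 : k ≤ Real.exp (k * y) := by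
    have h5 : k ≤ k * y := by nlinarith
    have := Real.add_one_le_exp (k * y)
    linarith
  have h6 : Real.exp (e * y + 3 * y + k * y) =
      Real.exp (k * y) * (Real.exp (e * y) * (Real.exp y * Real.exp y)) * Real.exp y := by
    rw [← Real.exp_add, ← Real.exp_add, ← Real.exp_add, ← Real.exp_add]
    congr 1
    ring
  rw [h6]
  have p1 : 0 ≤ Real.exp (e * y) * (Real.exp y * Real.exp y) := by positivity
  calc S ≤ 1 / T * (4 * (2 * Real.exp (e * y) * (C / c * I) + 2 * M ^ 2 * (4096 * y ^ 2 * I))) := hS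
    _ ≤ 1 / T * (k * (Real.exp (e * y) * (Real.exp y * Real.exp y)) * I) :=
      mul_le_mul_of_nonneg_left h3 (by positivity)
    _ ≤ Real.exp y * (Real.exp (k * y) * (Real.exp (e * y) * (Real.exp y * Real.exp y)) * I) := by
      refine mul_le_mul hTi ?_ (by positivity) (Real.exp_pos _).le
      exact mul_le_mul_of_nonneg_right (mul_le_mul_of_nonneg_right h4 p1) hI
    _ = _ := by ring

theorem ncW_cont (l : ℝ) (χ : CI H) {u u1 : ℝ → ℝ} {h : ℝ → HH H} {s : Set ℝ}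
    (hd : ∀ t ∈ s, HasDerivAt u (u1 t) t) (hT : ∀ t ∈ s, ∃ h2, Traj K h h2 t) :
    ContinuousOn (fun t => ncW K l (u t) χ (h t)) s := fun t ht => by
  obtain ⟨h2, h3⟩ := hT t ht
  exact (ncW_hd l χ (hd t ht) h3).continuousAt.continuousWithinAt

/-- Integrated Carleman estimate on the middle interval. -/
theorem obs_mid (ha : Co a a1 a2 c₀) (R : NRO ω a a1 K Q1 Pp P1 Lo Ro) (hK : 0 ≤ K)
    (hi : ∀ x, K x = 0 → x = 0) (hC : Cu χ χ1 χ2 ζ ζ1 χc M) :
    ∃ l s c C : ℝ, 1 ≤ l ∧ 1 ≤ s ∧ 0 < c ∧ 0 ≤ C ∧ ∀ T, 0 < T → T ≤ 1 → ∀ q : HH H,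
    ContinuousOn (fun t => ‖ncW K l (s * th T t) χ (AS K t q)‖ ^ 2) (Ioo (T / 4) (3 * T / 4)) ∧
    c * ∫ t in (3 * T / 8)..(5 * T / 8), ‖ncW K l (s * th T t) χ (AS K t q)‖ ^ 2 ≤
      C * ∫ t in (0:ℝ)..T, kapT T t * ‖mb χc (Sg K t q)‖ ^ 2 := by
  obtain ⟨l, s, c, C, A, hl, hs, hc, hC0, hA, main⟩ := GG_main ha R hC
  have hl0 : 0 ≤ l := by linarith only [hl]
  obtain ⟨B, hB, bd⟩ := GG_bound ha K Q1 Pp hl0 hA χ χ1 ζ
  refine ⟨l, s, c, 2 * C, hl, hs, hc, by positivity, ?_⟩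
  intro T hT hT1 q
  have hs0 : 0 < s := by linarith only [hs]
  have Ipos : ∀ t ∈ Ioo (T / 4) (3 * T / 4), 0 < t := fun t ht => by linarith [ht.1]
  have hd : ∀ t ∈ Ioo (T / 4) (3 * T / 4), HasDerivAt (fun t => s * th T t) (s * th1 T t) t :=
    fun t ht => (th_hd ht).const_mul s
  have hTr : ∀ t ∈ Ioo (T / 4) (3 * T / 4), ∃ h2, Traj K (fun t => AS K t q) h2 t := by
    intro t ht
    obtain ⟨h2, h3, h4⟩ := AS_hd hK (Ipos t ht) q
    exact ⟨h2, h3, h4⟩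
  have cW : ContinuousOn (fun t => ‖ncW K l (s * th T t) χ (AS K t q)‖ ^ 2)
      (Ioo (T / 4) (3 * T / 4)) := (ncW_cont (u := fun t => s * th T t) l χ hd hTr).norm.pow 2
  refine ⟨cW, ?_⟩
  have cO : Continuous fun t => kapT T t * ‖mb χc (Sg K t q)‖ ^ 2 :=
    (kapT_cont T).mul (((mb χc).continuous.comp (Sg_continuousOn_apply hK hi q)).norm.pow 2)
  obtain ⟨I, hI⟩ : ∃ I : ℝ, I = ∫ t in (0:ℝ)..T, kapT T t * ‖mb χc (Sg K t q)‖ ^ 2 := ⟨_, rfl⟩
  rw [← hI]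
  have nO : ∀ t, 0 ≤ kapT T t * ‖mb χc (Sg K t q)‖ ^ 2 := fun t =>
    mul_nonneg (kapT_nonneg T t) (sq_nonneg _)
  have nW : ∀ t, 0 ≤ ‖ncW K l (s * th T t) χ (AS K t q)‖ ^ 2 := fun t => sq_nonneg _
  set G : ℝ → ℝ := fun t => GG a K Q1 Pp l A (s * th T t) (s * th1 T t) χ χ1 ζ (AS K t q) with hG
  -- the differential inequality
  have key : ∀ t ∈ Ioo (T / 4) (3 * T / 4), ∃ G', HasDerivAt G G' t ∧
      G' + (c * ‖ncW K l (s * th T t) χ (AS K t q)‖ ^ 2 -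
        2 * C * (kapT T t * ‖mb χc (Sg K t q)‖ ^ 2)) ≤ 0 := by
    intro t ht
    obtain ⟨h2, h3⟩ := hTr t ht
    have p0 := th_pos ht
    have p1 := th_ge hT1 ht
    have e1 : s ≤ s * th T t := le_mul_of_one_le_right hs0.le (by linarith only [p1])
    have e2 : |s * th1 T t| ≤ (s * th T t) ^ 2 / s := by
      rw [abs_mul, abs_of_pos hs0]
      have : (s * th T t) ^ 2 / s = s * th T t ^ 2 := by field_simp
      rw [this]
      exact mul_le_mul_of_nonneg_left (th1_le hT1 ht) hs0.le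
    have e3 : |s * th2 T t| ≤ (s * th T t) ^ 3 / s := by
      rw [abs_mul, abs_of_pos hs0]
      have : (s * th T t) ^ 3 / s = s ^ 2 * th T t ^ 3 := by field_simp
      rw [this]
      exact mul_le_mul (by nlinarith only [hs]) (th2_le hT1 ht) (abs_nonneg _) (sq_nonneg _)
    obtain ⟨G', g1, g2⟩ := main (fun t => s * th T t) (fun t => s * th1 T t) (s * th2 T t) t (hd t ht)
      ((th1_hd ht).const_mul s) e1 e2 e3 (fun t => AS K t q) h2 h3
    refine ⟨G', g1, ?_⟩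
    have e4 : K (AS K t q) = Sg K t q := by rw [← K_AS hK (Ipos t ht)]; rfl
    have e5 := u_kap (s := s) hs ht
    have e6 : C * ((s * th T t) ^ 2 * Real.exp (-(2 * (s * th T t)))) * ‖mb χc (Sg K t q)‖ ^ 2 ≤
        C * (2 * kapT T t) * ‖mb χc (Sg K t q)‖ ^ 2 :=
      mul_le_mul_of_nonneg_right (mul_le_mul_of_nonneg_left e5 hC0) (sq_nonneg _)
    have g2' : G' + c * ‖ncW K l (s * th T t) χ (AS K t q)‖ ^ 2 ≤
      C * ((s * th T t) ^ 2 * Real.exp (-(2 * (s * th T t)))) * ‖mb χc (K (AS K t q))‖ ^ 2 := g2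
    rw [e4] at g2'
    linarith only [g2', e6]
  have cf : ContinuousOn (fun t => c * ‖ncW K l (s * th T t) χ (AS K t q)‖ ^ 2 -
        2 * C * (kapT T t * ‖mb χc (Sg K t q)‖ ^ 2)) (Ioo (T / 4) (3 * T / 4)) :=
    (continuousOn_const.mul cW).sub (continuousOn_const.mul cO.continuousOn)
  -- smallness of `G` near the end points
  have Gsm : ∀ t ∈ Ioo (T / 4) (3 * T / 4), |G t| ≤ (2 * B * (4 / T * ‖q‖) ^ 2) * kapT T t := by
    intro t ht
    have p0 := th_pos ht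
    have p1 := th_ge hT1 ht
    have e1 : 1 ≤ s * th T t := by nlinarith only [hs, p1]
    have e2 : |s * th1 T t| ≤ (s * th T t) ^ 2 := by
      rw [abs_mul, abs_of_pos hs0, mul_pow]
      exact mul_le_mul (by nlinarith only [hs]) (th1_le hT1 ht) (abs_nonneg _) (sq_nonneg _)
    have b1 := bd _ _ e1 e2 (AS K t q)
    have b2 : ‖AS K t q‖ ≤ 4 / T * ‖q‖ := by
      refine ((AS K t).le_of_opNorm_le (AS_norm hK (Ipos t ht)) q).trans ?_
      refine mul_le_mul_of_nonneg_right ?_ (norm_nonneg _)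
      have h3 : 4 / T = (T / 4)⁻¹ := by rw [inv_div]
      rw [h3]
      exact inv_anti₀ (by positivity) ht.1.le
    have b3 := u_kap (s := s) hs ht
    have b4 : B * ((s * th T t) ^ 2 * Real.exp (-(2 * (s * th T t)))) * ‖AS K t q‖ ^ 2 ≤
        B * (2 * kapT T t) * (4 / T * ‖q‖) ^ 2 := by
      refine mul_le_mul (mul_le_mul_of_nonneg_left b3 hB) (pow_le_pow_left₀ (norm_nonneg _) b2 2)
        (sq_nonneg _) (mul_nonneg hB (mul_nonneg zero_le_two (kapT_nonneg T t)))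
    calc |G t| ≤ _ := b1
      _ ≤ _ := b4
      _ = _ := by ring
  have lim0 : ∀ x₀ : ℝ, kapT T x₀ = 0 → ∀ ε : ℝ, 0 < ε →
      ∀ᶠ t in 𝓝 x₀, (2 * B * (4 / T * ‖q‖) ^ 2) * kapT T t < ε := by
    intro x₀ hx ε hε
    have h1 : Tendsto (fun t => (2 * B * (4 / T * ‖q‖) ^ 2) * kapT T t) (𝓝 x₀) (𝓝 0) := by
      have := ((kapT_cont T).tendsto x₀).const_mul (2 * B * (4 / T * ‖q‖) ^ 2)
      rwa [hx, mul_zero] at this
    exact h1.eventually (gt_mem_nhds hε)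
  -- conclusion
  refine le_of_forall_pos_le_add fun ε hε => ?_
  have hε2 : 0 < ε / 2 := by linarith
  obtain ⟨α, ⟨α1, α2⟩, α3⟩ : ∃ α, (α ∈ Ioo (T / 4) (3 * T / 8)) ∧
      (2 * B * (4 / T * ‖q‖) ^ 2) * kapT T α < ε / 2 := by
    have h1 : ∀ᶠ t in 𝓝[>] (T / 4), t ∈ Ioo (T / 4) (3 * T / 8) :=
      Ioo_mem_nhdsGT (by linarith)
    have h2 := (lim0 (T / 4) (kapT_zero hT le_rfl) _ hε2).filter_mono
      (nhdsWithin_le_nhds : 𝓝[>] (T / 4) ≤ 𝓝 (T / 4))
    exact (h1.and h2).exists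
  obtain ⟨β, ⟨β1, β2⟩, β3⟩ : ∃ β, (β ∈ Ioo (5 * T / 8) (3 * T / 4)) ∧
      (2 * B * (4 / T * ‖q‖) ^ 2) * kapT T β < ε / 2 := by
    have h1 : ∀ᶠ t in 𝓝[<] (3 * T / 4), t ∈ Ioo (5 * T / 8) (3 * T / 4) :=
      Ioo_mem_nhdsLT (by linarith)
    have h2 := (lim0 (3 * T / 4) (kapT_zero' hT le_rfl) _ hε2).filter_mono
      (nhdsWithin_le_nhds : 𝓝[<] (3 * T / 4) ≤ 𝓝 (3 * T / 4))
    exact (h1.and h2).exists
  have hαβ : α ≤ β := by linarith
  have h1 := int_le α1 hαβ β2 cf key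
  have gα := (abs_le.1 (Gsm α ⟨α1, by linarith⟩)).2
  have gβ := (abs_le.1 (Gsm β ⟨by linarith, β2⟩)).1
  have hsub : uIcc α β ⊆ Ioo (T / 4) (3 * T / 4) := by
    rw [uIcc_of_le hαβ]
    exact Icc_subset_Ioo α1 β2
  have iW : IntervalIntegrable (fun t => ‖ncW K l (s * th T t) χ (AS K t q)‖ ^ 2) volume α β :=
    (cW.mono hsub).intervalIntegrable
  have iO : IntervalIntegrable (fun t => kapT T t * ‖mb χc (Sg K t q)‖ ^ 2) volume α β :=
    cO.intervalIntegrable _ _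
  rw [intervalIntegral.integral_sub (iW.const_mul c) (iO.const_mul (2 * C)),
    intervalIntegral.integral_const_mul, intervalIntegral.integral_const_mul] at h1
  have h2 : ∫ t in (3 * T / 8)..(5 * T / 8), ‖ncW K l (s * th T t) χ (AS K t q)‖ ^ 2 ≤
      ∫ t in α..β, ‖ncW K l (s * th T t) χ (AS K t q)‖ ^ 2 :=
    intervalIntegral.integral_mono_interval α2.le (by linarith) β1.le
      (Eventually.of_forall nW) iW
  have h3 : ∫ t in α..β, kapT T t * ‖mb χc (Sg K t q)‖ ^ 2 ≤ I := by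
    rw [hI]
    exact intervalIntegral.integral_mono_interval (by linarith) hαβ (by linarith)
      (Eventually.of_forall nO) (cO.intervalIntegrable _ _)
  have h4 := mul_le_mul_of_nonneg_left h2 hc.le
  have h5 := mul_le_mul_of_nonneg_left h3 (by positivity : 0 ≤ 2 * C)
  linarith only [h1, h4, h5, gα, gβ, α3, β3]

/-- OBSERVABILITY. -/
theorem obs_main (ha : Co a a1 a2 c₀) (R : NRO ω a a1 K Q1 Pp P1 Lo Ro) (hK : 0 ≤ K)
    (hi : ∀ x, K x = 0 → x = 0) (hC : Cu χ χ1 χ2 ζ ζ1 χc M) :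
    ∃ C0 : ℝ, 0 ≤ C0 ∧ ∀ T, 0 < T → T ≤ 1 → ∀ q : HH H, ‖Sg K T q‖ ^ 2 ≤
      Real.exp (C0 / T ^ 2) * ∫ t in (0:ℝ)..T, kapT T t * ‖mb χc (Sg K t q)‖ ^ 2 := by
  obtain ⟨l, s, c, C, hl, hs, hc, hC0, mid⟩ := obs_mid ha R hK hi hC
  obtain ⟨e, he⟩ : ∃ e : ℝ, e = 2 * (64 * s * (2 * Real.exp (l * H))) := ⟨_, rfl⟩
  have hs0 : 0 < s := by linarith only [hs]
  have he0 : 0 ≤ e := by rw [he]; positivity
  refine ⟨e + 3 + (8 * C / c + 32768 * M ^ 2), by positivity, ?_⟩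
  intro T hT hT1 q
  obtain ⟨cW, h1⟩ := mid T hT hT1 q
  have cS : Continuous fun t => Sg K t q := Sg_continuousOn_apply hK hi q
  have cO : Continuous fun t => kapT T t * ‖mb χc (Sg K t q)‖ ^ 2 :=
    (kapT_cont T).mul (((mb χc).continuous.comp cS).norm.pow 2)
  have nO : ∀ t, 0 ≤ kapT T t * ‖mb χc (Sg K t q)‖ ^ 2 := fun t =>
    mul_nonneg (kapT_nonneg T t) (sq_nonneg _)
  obtain ⟨I, hI⟩ : ∃ I : ℝ, I = ∫ t in (0:ℝ)..T, kapT T t * ‖mb χc (Sg K t q)‖ ^ 2 := ⟨_, rfl⟩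
  rw [← hI] at h1 ⊢
  have hI0 : 0 ≤ I := by
    rw [hI]
    exact intervalIntegral.integral_nonneg hT.le fun t _ => nO t
  refine obs_const hT hT1 hI0 hc hC0 he0 ?_
  have hsub : uIcc (3 * T / 8) (5 * T / 8) ⊆ Ioo (T / 4) (3 * T / 4) := by
    rw [uIcc_of_le (by linarith)]
    exact Icc_subset_Ioo (by linarith) (by linarith)
  have iW : IntervalIntegrable (fun t => ‖ncW K l (s * th T t) χ (AS K t q)‖ ^ 2) volume
      (3 * T / 8) (5 * T / 8) := (cW.mono hsub).intervalIntegrable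
  -- pointwise bound
  have pw : ∀ t ∈ Icc (3 * T / 8) (5 * T / 8), ‖Sg K T q‖ ^ 2 ≤
      2 * Real.exp (e / T ^ 2) * ‖ncW K l (s * th T t) χ (AS K t q)‖ ^ 2 +
        2 * M ^ 2 * (4096 / T ^ 4) * (kapT T t * ‖mb χc (Sg K t q)‖ ^ 2) := by
    intro t ht
    have ht' : t ∈ Ioo (T / 4) (3 * T / 4) := ⟨by linarith [ht.1], by linarith [ht.2]⟩
    have t0 : 0 < t := by linarith [ht'.1]
    have e4 : K (AS K t q) = Sg K t q := by rw [← K_AS hK t0]; rfl
    have m1 : ‖Sg K T q‖ ≤ ‖Sg K t q‖ := by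
      have h3 := Sg_add (K := K) (s := T - t) (t := t) (by linarith [ht.2]) t0.le
      rw [sub_add_cancel] at h3
      rw [h3]
      exact Sg_norm_apply hK _ _
    have m2 : ‖Sg K t q‖ ≤ ‖mb χ (Sg K t q)‖ + M * ‖mb χc (Sg K t q)‖ := by
      have e1 : Sg K t q = mb χ (Sg K t q) + mb (1 - χ) (Sg K t q) := by
        rw [mb_sub, mb_one]; abel
      have e2 : ‖mb (1 - χ) (Sg K t q)‖ ≤ M * ‖mb χc (Sg K t q)‖ :=
        mb_le_of hC.M0 hC.leχ _
      conv_lhs => rw [e1]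
      exact (norm_add_le _ _).trans (by linarith only [e2])
    have hth := th_mid hT ht
    have hp := th_pos ht'
    have m3 : Real.exp (-(64 * s * (2 * Real.exp (l * H)) / T ^ 2)) * ‖mb χ (Sg K t q)‖ ≤
        ‖ncW K l (s * th T t) χ (AS K t q)‖ := by
      rw [ncW, e4]
      have e1 : Real.exp (-(64 * s * (2 * Real.exp (l * H)) / T ^ 2)) * ‖mb χ (Sg K t q)‖ =
          ‖mb (((Real.exp (-(64 * s * (2 * Real.exp (l * H)) / T ^ 2)) : ℝ) : ℂ) • χ) (Sg K t q)‖ := by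
        rw [mb_smul, norm_smul, Complex.norm_real, Real.norm_eq_abs, abs_of_pos (Real.exp_pos _)]
      rw [e1]
      refine mb_norm_mono (fun z hz => ?_) _
      rw [wφ, ex_smul, ex_mul, norm_mul, norm_mul, Complex.norm_real, Real.norm_eq_abs,
        abs_of_pos (Real.exp_pos _)]
      refine mul_le_mul_of_nonneg_right ?_ (norm_nonneg _)
      refine le_trans ?_ (norm_ex_ew_ge (mul_nonneg hs0.le hp.le) hz)
      rw [Real.exp_le_exp, neg_le_neg_iff]
      have h6 : 0 ≤ s * (2 * Real.exp (l * H)) := mul_nonneg hs0.le (mul_nonneg zero_le_two (Real.exp_pos _).le)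
      calc s * th T t * (2 * Real.exp (l * H)) = s * (2 * Real.exp (l * H)) * th T t := by ring
        _ ≤ s * (2 * Real.exp (l * H)) * (64 / T ^ 2) := mul_le_mul_of_nonneg_left hth h6
        _ = _ := by ring
    have m4 : ‖mb χ (Sg K t q)‖ ^ 2 ≤
        Real.exp (e / T ^ 2) * ‖ncW K l (s * th T t) χ (AS K t q)‖ ^ 2 := by
      obtain ⟨y, hy⟩ : ∃ y : ℝ, y = 64 * s * (2 * Real.exp (l * H)) / T ^ 2 := ⟨_, rfl⟩
      rw [← hy] at m3
      have h7 : e / T ^ 2 = 2 * y := by rw [hy, he]; ring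
      have h8 := pow_le_pow_left₀ (mul_nonneg (Real.exp_pos _).le (norm_nonneg _)) m3 2
      rw [h7]
      rw [mul_pow, exp_sq] at h8
      have h9 : Real.exp (2 * y) * Real.exp (-(2 * y)) = 1 := by rw [← Real.exp_add]; simp
      have h10 := mul_le_mul_of_nonneg_left h8 (Real.exp_pos (2 * y)).le
      rw [← mul_assoc, h9, one_mul] at h10
      exact h10
    have m5 : ‖mb χc (Sg K t q)‖ ^ 2 ≤ 4096 / T ^ 4 * (kapT T t * ‖mb χc (Sg K t q)‖ ^ 2) := by
      rw [← mul_assoc]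
      exact le_mul_of_one_le_left (sq_nonneg _) (kap_mid hT ht)
    have m6 : ‖Sg K T q‖ ^ 2 ≤ 2 * ‖mb χ (Sg K t q)‖ ^ 2 + 2 * M ^ 2 * ‖mb χc (Sg K t q)‖ ^ 2 := by
      have h7 := pow_le_pow_left₀ (norm_nonneg _) (m1.trans m2) 2
      have h8 : (‖mb χ (Sg K t q)‖ + M * ‖mb χc (Sg K t q)‖) ^ 2 ≤
          2 * ‖mb χ (Sg K t q)‖ ^ 2 + 2 * M ^ 2 * ‖mb χc (Sg K t q)‖ ^ 2 := by
        have := sq_nonneg (‖mb χ (Sg K t q)‖ - M * ‖mb χc (Sg K t q)‖)
        linarith only [this, h7]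
      exact h7.trans h8
    have m7 := mul_le_mul_of_nonneg_left m5 (mul_nonneg zero_le_two (sq_nonneg M))
    linarith only [m6, m4, m7]
  have hint := intervalIntegral.integral_mono_on (a := 3 * T / 8) (b := 5 * T / 8) (by linarith)
    (continuous_const.intervalIntegrable (μ := volume) (3 * T / 8) (5 * T / 8) : IntervalIntegrable
      (fun _ => ‖Sg K T q‖ ^ 2) volume _ _)
    ((iW.const_mul (2 * Real.exp (e / T ^ 2))).add
      ((cO.intervalIntegrable _ _).const_mul (2 * M ^ 2 * (4096 / T ^ 4)))) pw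
  rw [intervalIntegral.integral_const, intervalIntegral.integral_add
    (iW.const_mul (2 * Real.exp (e / T ^ 2)))
      ((cO.intervalIntegrable _ _).const_mul (2 * M ^ 2 * (4096 / T ^ 4))),
    intervalIntegral.integral_const_mul, intervalIntegral.integral_const_mul, smul_eq_mul] at hint
  have h3 : ∫ t in (3 * T / 8)..(5 * T / 8), kapT T t * ‖mb χc (Sg K t q)‖ ^ 2 ≤ I := by
    rw [hI]
    exact intervalIntegral.integral_mono_interval (by linarith) (by linarith) (by linarith)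
      (Eventually.of_forall nO) (cO.intervalIntegrable _ _)
  have h2 : ∫ t in (3 * T / 8)..(5 * T / 8), ‖ncW K l (s * th T t) χ (AS K t q)‖ ^ 2 ≤ C / c * I := by
    rw [div_mul_eq_mul_div, le_div_iff₀ hc]
    linarith only [h1]
  have h4 := mul_le_mul_of_nonneg_left h2 (by positivity : 0 ≤ 2 * Real.exp (e / T ^ 2))
  have h5 := mul_le_mul_of_nonneg_left h3 (by positivity : 0 ≤ 2 * M ^ 2 * (4096 / T ^ 4))
  have h6 : 5 * T / 8 - 3 * T / 8 = T / 4 := by ring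
  rw [h6] at hint
  linarith only [hint, h4, h5]

end

end Pool.Agent.Lib.MP_79abb3_an.SC
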