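import Pool.Agent.Lib.MP_79abb3_an.SC.LaDZ
import Pool.Agent.Lib.MP_79abb3_an.SC.LaSmoB
import Pool.Agent.Lib.MP_79abb3_an.SC.NcM

/-!
MP_79abb3_an, Theorem C, block (iv): observability for the operator `B* a B`.
-/

set_option autoImplicit false
set_option linter.unusedSectionVars false
set_option linter.unusedVariables false

open MeasureTheory Set Filter Topology Function
open scoped ENNReal InnerProductSpace

namespace Pool.Agent.Lib.MP_79abb3_an.SC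

open Pool.Agent.Lib.MP_79abb3_an.P25

section
variable {H : ℝ} [hH : Fact (0 < H)]

/-- `D G` as a bounded operator. -/
theorem Geo.nc_DG (G : Geo H) : ∃ DG : HH H →L[ℂ] HH H, ∀ g, Dk G.ω (G.D.G g) (DG g) := by
  obtain ⟨C, hC, h1⟩ := G.std.reg1'
  have hsq : ∀ g : HH H, ∀ n : ℤ, ‖((|G.ω * n| : ℝ) : ℂ) • G.D.G g n‖ ^ 2 ≤
      (G.lam n ^ (1:ℝ) * ‖G.D.G g n‖) ^ 2 := by
    intro g n
    rw [norm_smul, Complex.norm_real, Real.norm_eq_abs, abs_abs, Real.rpow_one]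
    exact pow_le_pow_left₀ (mul_nonneg (abs_nonneg _) (norm_nonneg _))
      (mul_le_mul_of_nonneg_right (G.lam_k n) (norm_nonneg _)) 2
  have hs : ∀ g : HH H, Summable fun n : ℤ => ‖((|G.ω * n| : ℝ) : ℂ) • G.D.G g n‖ ^ 2 :=
    fun g => Summable.of_nonneg_of_le (fun n => sq_nonneg _) (hsq g) (h1 g).1
  refine ⟨LinearMap.mkContinuous
    { toFun := fun g => mkl2 (fun n : ℤ => ((|G.ω * n| : ℝ) : ℂ) • G.D.G g n) (hs g)
      map_add' := fun x y => by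
        ext1
        funext n
        rw [lp.coeFn_add, Pi.add_apply, mkl2_apply, mkl2_apply, mkl2_apply, map_add, lp.coeFn_add,
          Pi.add_apply, smul_add]
      map_smul' := fun c x => by
        ext1
        funext n
        rw [RingHom.id_apply, lp.coeFn_smul, Pi.smul_apply, mkl2_apply, mkl2_apply, map_smul,
          lp.coeFn_smul, Pi.smul_apply, smul_comm] } C (fun g => ?_), fun g n => rfl⟩
  refine le_trans ?_ (h1 g).2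
  refine (pow_le_pow_iff_left₀ (norm_nonneg _) (N2_nonneg _ _) two_ne_zero).1 ?_
  rw [N2_sq]
  show ‖mkl2 (fun n : ℤ => ((|G.ω * n| : ℝ) : ℂ) • G.D.G g n) (hs g)‖ ^ 2 ≤ _
  rw [norm_sq_mkl2]
  exact (hs g).tsum_le_tsum (hsq g) (h1 g).1

theorem Dk.DT {ω : ℝ} {x y : HH H} (h : Dk ω x y) : Dk ω (DT ω x) (DT ω y) := by
  intro n
  rw [DT_apply, DT_apply, h n, map_smul, smul_comm]

/-- The regularity operators. -/
theorem Geo.exists_NRO (G : Geo H) {a1 : ℤ → CI H} (ha1 : Cf 4 a1) (hd : ∀ n, IsD (G.a n) (a1 n)) :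
    ∃ Q1 Pp P1 Lo Ro : HH H →L[ℂ] HH H, NRO G.ω G.a a1 G.D.K Q1 Pp P1 Lo Ro := by
  obtain ⟨DG, hDG⟩ := G.nc_DG
  have sa := G.ha.c.s0
  have sa1 := ha1.s0
  have ca : Cf (0 + 1) G.a := G.ha.c.mono (by norm_num)
  refine ⟨DT G.ω ∘L G.D.G - G.D.G, DT G.ω ∘L G.D.G, DT G.ω ∘L DG - DG,
    cm G.a ∘L DT G.ω ∘L DG + cD G.ω G.a ∘L DT G.ω ∘L G.D.G,
    (cm a1 ∘L DT G.ω ∘L G.D.G + cm G.a ∘L (DT G.ω ∘L DG - DG)) -
      (ContinuousLinearMap.id ℂ (HH H) - (cm G.a ∘L DG + cD G.ω G.a ∘L G.D.G)), ⟨fun h => ?_⟩⟩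
  obtain ⟨w, hw⟩ : ∃ w : HH H, w = G.D.G h := ⟨_, rfl⟩
  have hPw : PP G.ω w = w := by rw [hw]; exact G.D.P_G h
  have eK : G.D.K h = TT G.ω w := by rw [hw]; rfl
  have hDw : Dk G.ω w (DG h) := by rw [hw]; exact hDG h
  have e1 : (DT G.ω ∘L G.D.G - G.D.G) h = DT G.ω w - w := by rw [hw]; rfl
  have e2 : (DT G.ω ∘L G.D.G) h = DT G.ω w := by rw [hw]; rfl
  have e3 : (DT G.ω ∘L DG - DG) h = DT G.ω (DG h) - DG h := rfl
  have e4 : (cm G.a ∘L DT G.ω ∘L DG + cD G.ω G.a ∘L DT G.ω ∘L G.D.G) h =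
      cm G.a (DT G.ω (DG h)) + cD G.ω G.a (DT G.ω w) := by rw [hw]; rfl
  have e5 : ((cm a1 ∘L DT G.ω ∘L G.D.G + cm G.a ∘L (DT G.ω ∘L DG - DG)) -
      (ContinuousLinearMap.id ℂ (HH H) - (cm G.a ∘L DG + cD G.ω G.a ∘L G.D.G))) h =
      (cm a1 (DT G.ω w) + cm G.a (DT G.ω (DG h) - DG h)) -
        (h - (cm G.a (DG h) + cD G.ω G.a w)) := by rw [hw]; rfl
  rw [eK, e1, e2, e3, e4, e5]
  have dq := DH_TT G.ω w
  have hp := Dk_TT G.ω w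
  have hp1 : Dk G.ω (DT G.ω w - w) (DT G.ω (DG h) - DG h) := hDw.DT.sub hDw
  have dp : DH (DT G.ω w) (DT G.ω (DG h) - DG h) := dq.dd hp hp1
  have daw : DH (cm G.a w) (h - (cm G.a (DG h) + cD G.ω G.a w)) := by
    intro n
    refine ⟨G.D.Zc G.ω h n, ?_, ?_⟩
    · rw [G.std.iota_Zc h n, hw]
      rfl
    · have h1 := G.std.Zc_dz h n
      have h2 : (h - (cm G.a (DG h) + cD G.ω G.a w)) n = G.D.b h n -
          ((|G.ω * n| : ℝ) : ℂ) • G.D.a (G.D.G h) n := by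
        have h3 := hDw.cm ca n
        rw [lp.coeFn_sub, Pi.sub_apply, h3, hw]
        rfl
      rw [h2]
      exact h1
  refine ⟨dq, Zr_TT_zero G.ω hPw, Zr_TT_H G.ω w, hp, hp1, hDw.DT.cm ca, ?_, ?_⟩
  · have h1 := (dp.cm sa sa1 hd).1
    have h2 := h1.sub daw
    rw [← map_sub] at h2
    exact h2
  · simp only [map_sub]
    abel

/-- **Observability** for `A = B* a B`. -/
theorem Geo.obs (G : Geo H) {χc : CI H} {r : ℝ} (hr : r < H)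
    (h : ∀ z ∈ Icc (0:ℝ) H, r ≤ z → ‖ex χc z‖ = 1) : ∃ C0 : ℝ, 0 ≤ C0 ∧ ∀ T, 0 < T → T ≤ 1 →
    ∀ q : HH H, ‖Sg G.D.K T q‖ ^ 2 ≤
      Real.exp (C0 / T ^ 2) * ∫ t in (0:ℝ)..T, kapT T t * ‖mb χc (Sg G.D.K t q)‖ ^ 2 := by
  obtain ⟨a1, a2, hd1, hd2, h1, h2⟩ := G.ha.d
  obtain ⟨Q1, Pp, P1, Lo, Ro, R⟩ := G.exists_NRO h1 hd1
  obtain ⟨χ, χ1, χ2, ζ, ζ1, M, hC⟩ := exists_Cu hr h
  have ha : Co G.a a1 a2 G.c₀ := ⟨G.ha.c.mono (by norm_num), h1.mono (by norm_num),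
    h2.mono (by norm_num), hd1, hd2, G.hc, G.coer⟩
  exact obs_main ha R G.D.K_nonneg G.D.K_injective hC

end

end Pool.Agent.Lib.MP_79abb3_an.SC
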