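import Pool.Agent.Lib.MP_79abb3_an.SC.RcA
import Pool.Agent.Lib.MP_79abb3_an.SC.ExE

/-!
Theorem C, phase 0: the vortex force of a smooth background velocity.
-/

set_option autoImplicit false
set_option linter.unusedSectionVars false

open MeasureTheory Set Filter Topology Function
open scoped ENNReal InnerProductSpace

namespace Pool.Agent.Lib.MP_79abb3_an.SC

open Pool.Agent.Lib.MP_79abb3_an.P25

section
variable {H : ℝ} [hH : Fact (0 < H)]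

/-- coefficients of a real `C¹` function -/
structure C1v (v : ℤ → CI H) : Prop where
  c : Cf 1 v
  d : ∃ v1 : ℤ → CI H, (∀ n, IsD (v n) (v1 n)) ∧ Summable fun n => ‖v1 n‖

theorem C2f.c1 {a : ℤ → CI H} (h : C2f a) : C1v a := by
  obtain ⟨a1, a2, h1, -, h3, -⟩ := h.d
  exact ⟨h.c.mono (by norm_num), a1, h1, h3.s0⟩

/-- A bounded operator `N` whose values have derivatives `N1` (in `z`) and `|D| N = N2`, bounded. -/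
structure RegO (ω : ℝ) (N N1 N2 : HH H →L[ℂ] HH H) : Prop where
  dh : ∀ g, PP ω g = g → DH (N g) (N1 g)
  dk : ∀ g, PP ω g = g → Dk ω (N g) (N2 g)
  z0 : ∀ g, PP ω g = g → Zr 0 (N g)

theorem Dk_Yy (ω : ℝ) (g : HH H) : Dk ω (Yy ω (TT ω g)) (DEc ω (Xy ω g)) := fun n => by
  rw [DEc_apply, Xy_apply, Yy_apply]
  show ka ω n • E2 (ω * n) (kI ω n • T2 (ω * n) (g n)) = ka ω n • (kI ω n • E2 (ω * n) (TT ω g n))
  rw [map_smul, TT_apply]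

theorem DH_Yy (ω : ℝ) (g : HH H) : DH (Yy ω (TT ω g)) (Xy ω g - DEc ω (Xy ω g)) := fun n => by
  refine ⟨Ez (ω * n) (kI ω n • T2 (ω * n) (g n)), ?_, ?_⟩
  · rw [Yy_apply]
    show kI ω n • E2 (ω * n) (TT ω g n) = _
    rw [TT_apply, map_smul, map_smul, E2_apply]
  · rw [lp.coeFn_sub, Pi.sub_apply, DEc_apply, Xy_apply]
    exact Ez_dz (ω * n) (kI ω n • T2 (ω * n) (g n))

theorem Zr_EE (ω : ℝ) (x : HH H) : Zr 0 (EE ω x) := fun n => by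
  rw [EE_apply, E2_apply, tr_iota, Ez_zero]

theorem Zr_Yy (ω : ℝ) (x : HH H) : Zr 0 (Yy ω x) := fun n => by
  rw [Yy_apply]
  show tr 0 (kI ω n • E2 (ω * n) (x n)) = 0
  rw [E2_apply, ← map_smul, tr_iota, ex_smul, Ez_zero, mul_zero]

/-- `∂_z E T` -/
theorem reg_tz (ω : ℝ) : RegO (H := H) ω (Yz ω ∘L TT ω) (DEc ω ∘L DT ω - 1) (DT ω - DEc ω ∘L DT ω) where
  dh g _ := by
    have h := (DH_TT ω g).sub (DH_DE ω g)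
    have e : DT ω g - g - (DT ω g - DEc ω (DT ω g)) = DEc ω (DT ω g) - g := by abel
    rw [e] at h
    exact h
  dk g _ := (Dk_TT ω g).sub (Dk_DE ω g)
  z0 g hg := (Zr_TT_zero ω hg).sub (DH_TT ω g) (DH_DE ω g) ((Zr_EE ω _).dd (DH_EE ω _) (Dk_EE ω _))

/-- `∂_y E T` -/
theorem reg_ty (ω : ℝ) : RegO (H := H) ω (Yy ω ∘L TT ω) (Xy ω - DEc ω ∘L Xy ω) (DEc ω ∘L Xy ω) where
  dh g _ := DH_Yy ω g
  dk g _ := Dk_Yy ω g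
  z0 _ _ := Zr_Yy ω _

variable {ω : ℝ} {N N1 N2 M M1 M2 : HH H →L[ℂ] HH H}

theorem RegO.add (h : RegO ω N N1 N2) (h' : RegO ω M M1 M2) : RegO ω (N + M) (N1 + M1) (N2 + M2) where
  dh g hg := (h.dh g hg).add (h'.dh g hg)
  dk g hg := (h.dk g hg).add (h'.dk g hg)
  z0 g hg := (h.z0 g hg).add (h.dh g hg) (h'.dh g hg) (h'.z0 g hg)

theorem RegO.cm (h : RegO ω N N1 N2) {v v1 : ℤ → CI H} (hv : Cf 1 v) (hd : ∀ n, IsD (v n) (v1 n))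
    (s1 : Summable fun n => ‖v1 n‖) :
    RegO ω (SC.cm v ∘L N) (SC.cm v1 ∘L N + SC.cm v ∘L N1) (SC.cm v ∘L N2 + cD ω v ∘L N) where
  dh g hg := ((h.dh g hg).cm hv.s0 s1 hd).1
  dk g hg := (h.dk g hg).cm (p := 0) hv
  z0 g hg := ((h.dh g hg).cm hv.s0 s1 hd).2 0 zero_memI (h.z0 g hg)

theorem RegO.ms (h : RegO ω N N1 N2) {m m1 : CI H} (hm : IsD m m1) :
    RegO ω (Ms m ∘L N) (Ms m1 ∘L N + Ms m ∘L N1) (Ms m ∘L N2) where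
  dh g hg := (h.dh g hg).mb hm
  dk g hg := (h.dk g hg).mb m
  z0 g hg := (h.z0 g hg).mb (h.dh g hg) m

/-- `⟪Φ, g⟫ = ⟪|D| Φ + Φ_z, T g⟫` for `Φ(0) = Φ(H) = 0`. -/
theorem inner_ibp0 {x x1 x2 : HH H} (h1 : DH x x1) (h2 : Dk ω x x2) (z0 : Zr 0 x) (zH : Zr H x)
    (g : HH H) : ⟪x, g⟫_ℂ = ⟪x2 + x1, TT ω g⟫_ℂ := by
  have e1 := (DH_TT ω g).ibp h1 z0 zH
  have e1' := congrArg (starRingEnd ℂ) e1
  rw [map_neg, inner_conj_symm, inner_conj_symm] at e1'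
  have e2 := h2.inner (Dk_TT ω g)
  have e3 : g = DT ω g - (DT ω g - g) := by abel
  rw [inner_add_left, e2]
  conv_lhs => rw [e3]
  rw [inner_sub_right, e1']
  ring

/-- **The vortex force of a smooth velocity `(v, w)`.** -/
theorem ue_bd (G : Geo H) {v w : ℤ → CI H} (hv : C1v v) (hw : C1v w) : ∃ E, 0 ≤ E ∧ ∀ g g' : HH H,
    PP G.ω g' = g' →
    ‖bf G.ω (⇑(Ms G.ζ (cm G.a g))) v w (⇑(TT G.ω g'))‖ ≤ E * ‖g'‖ * ‖TT G.ω g‖ := by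
  obtain ⟨v1, dv, sv⟩ := hv.d
  obtain ⟨w1, dw, sw⟩ := hw.d
  obtain ⟨ca, a1, da, sa⟩ := G.ha.c1
  have hN := ((reg_tz G.ω).cm hw.c dw sw).add ((reg_ty G.ω).cm hv.c dv sv)
  have hM := hN.ms G.ζ_d
  have hP := hM.cm ca da sa
  obtain ⟨A1, hA1, hA1'⟩ := op_bd (cm a1 ∘L (Ms G.ζ ∘L (cm w ∘L (Yz G.ω ∘L TT G.ω) +
    cm v ∘L (Yy G.ω ∘L TT G.ω))) + cm G.a ∘L (Ms G.ζ1 ∘L (cm w ∘L (Yz G.ω ∘L TT G.ω) +
    cm v ∘L (Yy G.ω ∘L TT G.ω)) + Ms G.ζ ∘L ((cm w1 ∘L (Yz G.ω ∘L TT G.ω) +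
    cm w ∘L (DEc G.ω ∘L DT G.ω - 1)) + (cm v1 ∘L (Yy G.ω ∘L TT G.ω) +
    cm v ∘L (Xy G.ω - DEc G.ω ∘L Xy G.ω)))))
  obtain ⟨A2, hA2, hA2'⟩ := op_bd (cm G.a ∘L (Ms G.ζ ∘L ((cm w ∘L (DT G.ω - DEc G.ω ∘L DT G.ω) +
    cD G.ω w ∘L (Yz G.ω ∘L TT G.ω)) + (cm v ∘L (DEc G.ω ∘L Xy G.ω) +
    cD G.ω v ∘L (Yy G.ω ∘L TT G.ω)))) + cD G.ω G.a ∘L (Ms G.ζ ∘L (cm w ∘L (Yz G.ω ∘L TT G.ω) +
    cm v ∘L (Yy G.ω ∘L TT G.ω))))
  refine ⟨A1 + A2, by positivity, fun g g' hg' => ?_⟩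
  set Φ : HH H := cm G.a (Ms G.ζ (cm w (Yz G.ω (TT G.ω g')) + cm v (Yy G.ω (TT G.ω g')))) with hΦ
  have e1 : bf G.ω (⇑(Ms G.ζ (cm G.a g))) v w (⇑(TT G.ω g')) = ⟪Φ, g⟫_ℂ := by
    rw [G.bf_eq, ← cm_pz hw.c.s0, ← cm_pz hv.c.s0, ← inner_dp, ← inner_dp, ← inner_cm hw.c,
      ← inner_cm hv.c, ← inner_add_left, ← G.inner_Ms_ζ, ← inner_cm ca]
  have zH : Zr H Φ := by
    have h1 : DH (Ms G.ζ (cm w (Yz G.ω (TT G.ω g')) + cm v (Yy G.ω (TT G.ω g')))) _ := hM.dh g' hg'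
    exact (h1.cm ca.s0 sa da).2 H H_memI (Zr.mb' (hN.dh g' hg') G.ζH)
  have e2 := inner_ibp0 (hP.dh g' hg') (hP.dk g' hg') (hP.z0 g' hg') zH g
  rw [e1]
  have e3 : ⟪Φ, g⟫_ℂ = _ := e2
  rw [e3]
  refine (norm_inner_le_norm _ _).trans ?_
  refine mul_le_mul_of_nonneg_right ?_ (norm_nonneg _)
  refine (norm_add_le _ _).trans ?_
  rw [add_mul, add_comm]
  exact add_le_add (hA1' g') (hA2' g')

end

end Pool.Agent.Lib.MP_79abb3_an.SC
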