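import Pool.Agent.Lib.MP_79abb3_an.SC.ExZ
import Pool.Agent.Lib.MP_79abb3_an.SC.FlYg
import Pool.Agent.Lib.MP_79abb3_an.SC.PzB

/-!
Theorem C, phase 0: a solution with bounded data exists on a short interval.
-/

set_option autoImplicit false
set_option linter.unusedSectionVars false

open MeasureTheory Set Filter Topology Function
open scoped ENNReal InnerProductSpace

namespace Pool.Agent.Lib.MP_79abb3_an.SC

open Pool.Agent.Lib.MP_79abb3_an.P25 Pool.Agent.Lib.MP_79abb3_an.FW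

section
variable {H : ℝ} [hH : Fact (0 < H)]

theorem TFn.norm_le {G : Geo H} {τ n0 : ℝ} {g' : HH H} {f1 : ℤ → CI H} {f2 : ℤ → Z2 H}
    (h : TFn G τ n0 (Vf G.ω (⇑g')) f1 f2) : ‖g'‖ ≤ 2 * n0 * τ ^ (-(11 / 16) : ℝ) := by
  have hw := G.lw.h1
  have e1 : (⇑g' : ℤ → Z2 H) = fun n => ka G.ω n • io (Vf G.ω (⇑g')) n + -io f1 n := by
    funext n
    have h1 := DZ.unique (h.d1 n) (Vf_dz G.ω g' n)
    rw [io_apply, io_apply, h1]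
    abel
  have s1 : S2 G.lam 1 (io (Vf G.ω (⇑g'))) := (S2_mono hw (by norm_num) h.s0).1
  have hle : ∀ n, (G.lam n ^ (0:ℝ) * ‖ka G.ω n • io (Vf G.ω (⇑g')) n‖) ^ 2 ≤
      (G.lam n ^ (1:ℝ) * ‖io (Vf G.ω (⇑g')) n‖) ^ 2 := by
    intro n
    have h3 : ‖ka G.ω n • io (Vf G.ω (⇑g')) n‖ ≤ G.lam n * ‖io (Vf G.ω (⇑g')) n‖ := by
      rw [norm_smul, norm_ka]
      exact mul_le_mul_of_nonneg_right (G.lam_k n) (norm_nonneg _)
    rw [Real.rpow_zero, one_mul, Real.rpow_one]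
    exact pow_le_pow_left₀ (norm_nonneg _) h3 2
  have s3 : S2 G.lam 0 (fun n => ka G.ω n • io (Vf G.ω (⇑g')) n) :=
    s1.of_nonneg_of_le (fun _ => sq_nonneg _) hle
  have n3 : N2 G.lam 0 (fun n => ka G.ω n • io (Vf G.ω (⇑g')) n) ≤ N2 G.lam 1 (io (Vf G.ω (⇑g'))) :=
    Real.sqrt_le_sqrt (s3.tsum_le_tsum hle s1)
  have s4 : S2 G.lam 0 (io f1) := (S2_mono hw zero_le_one h.s1).1
  have h4 := S2_add hw s3 (S2_neg.2 s4)
  rw [N2_neg] at h4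
  have h5 := h4.2
  rw [← e1, (S2l2 g').2] at h5
  have h6 := h.b01
  have h7 := h.b10
  linarith

namespace Geo
variable {G : Geo H} {B : Bg H} {t₀ t₁ : ℝ}

theorem norm_TT_le_LT (G : Geo H) (g : HH H) : ‖TT G.ω g‖ ≤ ‖LT G.ω G.lam (3 / 8) g‖ := by
  have h1 := (S2l2 (lam := G.lam) (TT G.ω g)).2
  have s : S2 G.lam (3 / 8) (⇑(TT G.ω g)) := S2_TT' G (by norm_num) g
  rw [← h1, ← N2_TT G (by norm_num : (3 / 8 : ℝ) ≤ 1)]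
  exact (S2_mono G.lw.h1 (by norm_num) s).2

/-- `(T g)(0) = 0` for `g = B W` -/
theorem trn_gV (B : Bg H) (t : ℝ) {y : HH H × HH H} (h1 : y.1 = 0) :
    trn G.ω (G.gV B t y) = trn G.ω (B.gL t) := by
  have e0 : ∀ n, ex (Vf G.ω (⇑(G.gV B t y)) n : CI H) 0 = ex (Vf G.ω (⇑(B.gL t)) n : CI H) 0 := by
    intro n
    have e1 : G.gV B t y = G.Qd y.2 + B.gL t := by
      show G.Qd y.2 + B.gL t - Ms G.ζ (cm G.J (G.qL y.1)) = _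
      rw [h1, map_zero, map_zero, map_zero, sub_zero]
    rw [e1]
    have e2 : Vf G.ω (⇑(G.Qd y.2 + B.gL t)) n = Vf G.ω (⇑(G.Qd y.2)) n + Vf G.ω (⇑(B.gL t)) n :=
      map_add (Tz (G.ω * n)) (G.Qd y.2 n) (B.gL t n)
    rw [e2, ex_add, G.Vf_Qd_zero, zero_add]
  unfold trn
  simp only [e0]

/-- Backgrounds without `κ` and without control, with a smooth explicit velocity. -/
structure Bg0 (G : Geo H) (B : Bg H) (t₀ t₁ E s : ℝ) : Prop where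
  cont : B.Cont t₀ t₁
  lift : G.Lift B t₀ t₁
  ok : ∀ t ∈ Icc t₀ t₁, G.Okt B t
  κ : ∀ t ∈ Icc t₀ t₁, B.κ t = 0
  κ1 : ∀ t ∈ Icc t₀ t₁, B.κ1 t = 0
  fc : ∀ t ∈ Icc t₀ t₁, B.fc t = 0
  ue : ∀ t ∈ Icc t₀ t₁, ∀ g g' : HH H, PP G.ω g' = g' →
    ‖bf G.ω (⇑(Ms G.ζ (cm G.a g))) (hf G.lam (B.ve t)) (hf G.lam (B.we t)) (⇑(TT G.ω g'))‖ ≤
      E * ‖g'‖ * ‖TT G.ω g‖
  tr : ∀ t ∈ Icc t₀ t₁, trn G.ω (B.gL t) ≤ s

theorem Bg0.mono {G : Geo H} {B : Bg H} {t₀ t₁ E s c : ℝ} (h : G.Bg0 B t₀ t₁ E s) (hc : c ≤ t₁) : G.Bg0 B t₀ c E s := by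
  have hs : Icc t₀ c ⊆ Icc t₀ t₁ := Icc_subset_Icc le_rfl hc
  exact
    { cont := ⟨h.cont.ve.mono hs, h.cont.we.mono hs, h.cont.gL.mono hs, h.cont.FL.mono hs,
        h.cont.fc.mono hs, h.cont.κ.mono hs, h.cont.κ1.mono hs⟩
      lift := h.lift.restrict le_rfl hc
      ok := fun t ht => h.ok t (hs ht)
      κ := fun t ht => h.κ t (hs ht)
      κ1 := fun t ht => h.κ1 t (hs ht)
      fc := fun t ht => h.fc t (hs ht)
      ue := fun t ht => h.ue t (hs ht)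
      tr := fun t ht => h.tr t (hs ht) }

theorem int_kernel (t₀ t : ℝ) :
    ∫ r in t₀..t, (t - r) ^ (-(15 / 16) : ℝ) = 16 * (t - t₀) ^ (1 / 16 : ℝ) := by
  rw [intervalIntegral.integral_comp_sub_left (fun x => x ^ (-(15 / 16) : ℝ)) t, sub_self,
    integral_rpow (Or.inl (by norm_num))]
  have e : (-(15 / 16) + 1 : ℝ) = 1 / 16 := by norm_num
  rw [e, Real.zero_rpow (by norm_num)]
  ring

theorem int_kernel_i (t₀ t : ℝ) :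
    IntervalIntegrable (fun r => (t - r) ^ (-(15 / 16) : ℝ)) volume t₀ t := by
  have h1 : IntervalIntegrable (fun x : ℝ => x ^ (-(15 / 16) : ℝ)) volume (t - t₀) (t - t) :=
    intervalIntegral.intervalIntegrable_rpow' (by norm_num)
  have h2 := h1.comp_sub_left t
  simpa using h2

theorem short_int {y q u : ℝ → ℝ} {t₀ t D K C s Y : ℝ} (h01 : t₀ ≤ t)
    (cy : ContinuousOn y (Icc t₀ t)) (cq : ContinuousOn q (Icc t₀ t)) (cu : ContinuousOn u (Icc t₀ t))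
    (y0 : ∀ r ∈ Icc t₀ t, 0 ≤ y r) (hy : ∀ r ∈ Icc t₀ t, y r ≤ Y + 1) (hq : ∀ r ∈ Icc t₀ t, q r = 0)
    (hu : ∀ r ∈ Icc t₀ t, u r ≤ s) (hK : 0 ≤ K) (hC : 0 ≤ C)
    (hD : D = K * (Y + 1) + C * ((Y + 1) ^ 2 + s)) (hD0 : 0 ≤ D)
    (hδ : t - t₀ ≤ (1 / (16 * (D + 1))) ^ 16) :
    ∫ r in t₀..t, (K * ((t - r) ^ (-(15 / 16) : ℝ) * y r) + C * ((t - r) ^ (-(15 / 16) : ℝ) *
      (y r ^ 2 + y r * q r + u r))) < 1 := by
  have h16 : (t - t₀) ^ (1 / 16 : ℝ) ≤ 1 / (16 * (D + 1)) := by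
    calc (t - t₀) ^ (1 / 16 : ℝ) ≤ ((1 / (16 * (D + 1))) ^ 16) ^ (1 / 16 : ℝ) :=
          Real.rpow_le_rpow (sub_nonneg.2 h01) hδ (by norm_num)
      _ = 1 / (16 * (D + 1)) := by
          rw [← Real.rpow_natCast, ← Real.rpow_mul (by positivity)]
          norm_num
  have ik := int_kernel_i t₀ t
  have h5 : ∫ r in t₀..t, (K * ((t - r) ^ (-(15 / 16) : ℝ) * y r) + C * ((t - r) ^ (-(15 / 16) : ℝ) *
      (y r ^ 2 + y r * q r + u r))) ≤ ∫ r in t₀..t, D * (t - r) ^ (-(15 / 16) : ℝ) := by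
    refine intervalIntegral.integral_mono_on h01 ?_ (ik.const_mul D) ?_
    · refine ((ik.mul_continuousOn ?_).const_mul _).add ((ik.mul_continuousOn ?_).const_mul _)
      · rw [uIcc_of_le h01]; exact cy
      · rw [uIcc_of_le h01]; exact ((cy.pow 2).add (cy.mul cq)).add cu
    · intro r hr
      have y1 := hy r hr
      have y2 := y0 r hr
      have t1 := hu r hr
      rw [hq r hr, mul_zero, add_zero, hD]
      have p0 : 0 ≤ (t - r) ^ (-(15 / 16) : ℝ) := Real.rpow_nonneg (sub_nonneg.2 hr.2) _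
      have e1 : y r ^ 2 ≤ (Y + 1) ^ 2 := pow_le_pow_left₀ y2 y1 2
      have e2 : K * ((t - r) ^ (-(15 / 16) : ℝ) * y r) ≤ K * ((t - r) ^ (-(15 / 16) : ℝ) * (Y + 1)) :=
        mul_le_mul_of_nonneg_left (mul_le_mul_of_nonneg_left y1 p0) hK
      have e3 : C * ((t - r) ^ (-(15 / 16) : ℝ) * (y r ^ 2 + u r)) ≤
          C * ((t - r) ^ (-(15 / 16) : ℝ) * ((Y + 1) ^ 2 + s)) :=
        mul_le_mul_of_nonneg_left (mul_le_mul_of_nonneg_left (add_le_add e1 t1) p0) hC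
      refine (add_le_add e2 e3).trans (le_of_eq ?_)
      ring
  refine h5.trans_lt ?_
  rw [intervalIntegral.integral_const_mul, int_kernel]
  calc D * (16 * (t - t₀) ^ (1 / 16 : ℝ)) ≤ D * (16 * (1 / (16 * (D + 1)))) :=
        mul_le_mul_of_nonneg_left (mul_le_mul_of_nonneg_left h16 (by norm_num)) hD0
    _ = D / (D + 1) := by field_simp
    _ < 1 := by rw [div_lt_one (by positivity)]; linarith

/-- the term of the explicit velocity -/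
theorem Bg0.w_bd {G : Geo H} {E s : ℝ} (hE : 0 ≤ E) {Ct : ℝ} (hCt : 0 ≤ Ct)
    (ht : ∀ τ, 0 < τ → τ ≤ 1 → ∀ ψ : HH H, ∃ f1 f2,
      TFn G τ (Ct * N2 G.lam (-(3 / 8)) ψ) (Vf G.ω (⇑(G.Qd (HS G.D.K τ ψ)))) f1 f2)
    {B : Bg H} {t₀ t₁ : ℝ} (hB : G.Bg0 B t₀ t₁ E s) {t r : ℝ} (hr : r ∈ Ico t₀ t) (htt : t ≤ t₁)
    (ht1 : t - t₀ ≤ 1) (y : HH H × HH H) (ψ : HH H) :
    ‖bf G.ω (⇑(Ms G.ζ (cm G.a (G.gV B r y)))) (hf G.lam (B.ve r)) (hf G.lam (B.we r))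
          (⇑(TT G.ω (G.Qd (HS G.D.K (t - r) ψ)))) -
        ⟪TT G.ω (G.Qd (HS G.D.K (t - r) ψ)), Ms (B.κ r) (G.VV B r y)⟫_ℂ +
        ⟪TT G.ω (G.Qd (HS G.D.K (t - r) ψ)), B.fc r⟫_ℂ‖ ≤ E * (2 * Ct) *
          ((t - r) ^ (-(15 / 16) : ℝ) * ‖LT G.ω G.lam (3 / 8) (G.gV B r y)‖) *
            N2 G.lam (-(3 / 8)) ψ := by
  have hrI : r ∈ Icc t₀ t₁ := ⟨hr.1, hr.2.le.trans htt⟩
  have hτ : 0 < t - r := sub_pos.2 hr.2
  have hτ1 : t - r ≤ 1 := by linarith [hr.1]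
  obtain ⟨f1, f2, hf⟩ := ht (t - r) hτ hτ1 ψ
  have n1 := hf.norm_le
  have e1 : Ms (B.κ r) (G.VV B r y) = 0 := by rw [hB.κ r hrI, Ms_zero']
  rw [e1, hB.fc r hrI, inner_zero_right, sub_zero, add_zero]
  refine (hB.ue r hrI _ _ (G.PP_Qd _)).trans ?_
  have n2 := G.norm_TT_le_LT (G.gV B r y)
  have n3 : (t - r) ^ (-(11 / 16) : ℝ) ≤ (t - r) ^ (-(15 / 16) : ℝ) :=
    Real.rpow_le_rpow_of_exponent_ge hτ hτ1 (by norm_num)
  have p0 : 0 ≤ N2 G.lam (-(3 / 8)) ψ := N2_nonneg _ _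
  have n4 : ‖G.Qd (HS G.D.K (t - r) ψ)‖ ≤ 2 * (Ct * N2 G.lam (-(3 / 8)) ψ) *
      (t - r) ^ (-(15 / 16) : ℝ) := n1.trans (mul_le_mul_of_nonneg_left n3 (by positivity))
  have a0 := norm_nonneg (G.Qd (HS G.D.K (t - r) ψ))
  have b0 := norm_nonneg (TT G.ω (G.gV B r y))
  generalize ‖G.Qd (HS G.D.K (t - r) ψ)‖ = a at n4 a0 ⊢
  generalize ‖TT G.ω (G.gV B r y)‖ = b at n2 b0 ⊢
  generalize ‖LT G.ω G.lam (3 / 8) (G.gV B r y)‖ = c at n2 ⊢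
  generalize N2 G.lam (-(3 / 8)) ψ = d at n4 p0 ⊢
  have hp : 0 ≤ (t - r) ^ (-(15 / 16) : ℝ) := Real.rpow_nonneg hτ.le _
  generalize (t - r) ^ (-(15 / 16) : ℝ) = e at n4 hp ⊢
  calc E * a * b ≤ E * (2 * (Ct * d) * e) * c :=
        mul_le_mul (mul_le_mul_of_nonneg_left n4 hE) n2 b0 (by positivity)
    _ = _ := by ring

/-- **A priori bound on a short interval.** -/
theorem y_short (G : Geo H) (hBig : G.Big) (hT : G.TFex) {E s Y : ℝ} (hE : 0 ≤ E) (hs0 : 0 ≤ s)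
    (hY : 0 ≤ Y) : ∃ δ, 0 < δ ∧ δ ≤ 1 ∧ ∀ {B : Bg H} {t₀ t₁ : ℝ} {h₀ : HH H}
    {x : ℝ → HH H × HH H}, G.Bg0 B t₀ t₁ E s → t₀ ≤ t₁ → t₁ - t₀ ≤ δ → G.Sol B t₀ t₁ (0, h₀) x →
    ‖LT G.ω G.lam (3 / 8) (G.gV B t₀ (0, h₀))‖ ≤ Y →
    ∀ t ∈ Icc t₀ t₁, ‖LT G.ω G.lam (3 / 8) (G.gV B t (x t))‖ < Y + 1 := by
  obtain ⟨C, hC, hy⟩ := Sol.y_int G hBig hT
  obtain ⟨Ct, hCt, ht⟩ := hT
  obtain ⟨D, hD⟩ : ∃ D, D = E * (2 * Ct) * (Y + 1) + C * ((Y + 1) ^ 2 + s) := ⟨_, rfl⟩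
  have hD0 : 0 ≤ D := by rw [hD]; positivity
  have hd1 : (1 / (16 * (D + 1))) ^ 16 ≤ 1 := by
    refine pow_le_one₀ (by positivity) ?_
    rw [div_le_one (by positivity)]
    linarith
  refine ⟨(1 / (16 * (D + 1))) ^ 16, by positivity, hd1, ?_⟩
  intro B t₀ t₁ h₀ x hB h01 hδ hx h0
  obtain ⟨Ck, hCk⟩ := G.ker
  have e0 : x t₀ = (0, h₀) := hx.init hCk h01
  have hq : ∀ t ∈ Icc t₀ t₁, (x t).1 = 0 := hx.q_zero hB.cont hB.κ hB.κ1 rfl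
  have hqh : ∀ t ∈ Icc t₀ t₁, ‖G.qh (x t)‖ = 0 := by
    intro t ht
    have e1 : G.qh (x t) = 0 := by
      show Ms G.ζ (cm G.J (G.qL (x t).1)) = 0
      rw [hq t ht, map_zero, map_zero, map_zero]
    rw [e1, norm_zero]
  obtain ⟨cy, cq, cu⟩ := hx.y_cont hB.cont
  refine boot_lt cy ?_ ?_
  · rw [e0]; linarith
  intro t htt hbd
  have hδ1 : t - t₀ ≤ (1 / (16 * (D + 1))) ^ 16 := by linarith [htt.2]
  have hsub : Icc t₀ t ⊆ Icc t₀ t₁ := Icc_subset_Icc le_rfl htt.2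
  have iw : IntervalIntegrable (fun r => E * (2 * Ct) * ((t - r) ^ (-(15 / 16) : ℝ) *
      ‖LT G.ω G.lam (3 / 8) (G.gV B r (x r))‖)) volume t₀ t := by
    refine ((int_kernel_i t₀ t).mul_continuousOn ?_).const_mul _
    rw [uIcc_of_le htt.1]
    exact cy.mono hsub
  have key := hy hx hB.cont hB.lift hB.ok htt (hδ1.trans hd1) iw
    (fun r hr ψ => hB.w_bd hE hCt ht hr htt.2 (hδ1.trans hd1) (x r) ψ)
  have h6 := short_int htt.1 (cy.mono hsub) (cq.mono hsub) (cu.mono hsub)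
    (fun r _ => norm_nonneg _) hbd (fun r hr => hqh r (hsub hr))
    (fun r hr => (trn_gV B r (hq r (hsub hr))).trans_le (hB.tr r (hsub hr))) (by positivity) hC hD hD0
    hδ1
  rw [e0] at key
  linarith only [key, h6, h0]

/-- **Existence on a short interval.** -/
theorem exists_short (G : Geo H) (hBig : G.Big) (hT : G.TFex) {E s Y : ℝ} (hE : 0 ≤ E) (hs0 : 0 ≤ s)
    (hY : 0 ≤ Y) : ∃ δ, 0 < δ ∧ δ ≤ 1 ∧ ∀ {B : Bg H} {t₀ t₁ : ℝ} {h₀ : HH H},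
    G.Bg0 B t₀ t₁ E s → t₀ ≤ t₁ → t₁ - t₀ ≤ δ →
    ‖LT G.ω G.lam (3 / 8) (G.gV B t₀ (0, h₀))‖ ≤ Y → ∃ x, G.Sol B t₀ t₁ (0, h₀) x := by
  obtain ⟨δ, hδ, hδ1, h⟩ := G.y_short hBig hT hE hs0 hY
  refine ⟨δ, hδ, hδ1, fun {B t₀ t₁ h₀} hB h01 h1 h0 => ?_⟩
  refine Sol.continuation h01 hB.cont (M := Y + 1) fun c hc x hx t ht => ⟨?_, ?_⟩
  · have hBc := hB.mono hc.2
    have h2 := hx.q_zero hBc.cont hBc.κ hBc.κ1 rfl t ht
    rw [h2, map_zero, norm_zero]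
    positivity
  · have h2 := h (hB.mono hc.2) hc.1 (by linarith [hc.2]) hx h0 t ht
    show N2 G.lam (3 / 8) (TT G.ω (G.gV B t (x t))) ≤ _
    rw [N2_TT G (by norm_num)]
    exact h2.le

end Geo

end

end Pool.Agent.Lib.MP_79abb3_an.SC
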