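import Pool.Agent.Lib.MP_79abb3_an.SC.ExM
import Pool.Agent.Lib.MP_79abb3_an.SC.ExRb
import Pool.Agent.Lib.MP_79abb3_an.SC.NcG
import Pool.Agent.Lib.MP_79abb3_an.SC.PzC

/-!
Theorem C, phase 0: exponential families.
-/

set_option autoImplicit false
set_option linter.unusedSectionVars false

open MeasureTheory Set Filter Topology Function
open scoped ENNReal InnerProductSpace

namespace Pool.Agent.Lib.MP_79abb3_an.SC

open Pool.Agent.Lib.MP_79abb3_an.P25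

section
variable {H : ℝ} [hH : Fact (0 < H)]

/-- `c n` decays fast, coefficients of a real function -/
structure Rap (c : ℤ → ℂ) : Prop where
  s : ∀ p : ℕ, Summable fun n : ℤ => (1 + |(n:ℝ)|) ^ p * ‖c n‖
  re : ∀ n, c (-n) = star (c n)

theorem Rap.kmul {c : ℤ → ℂ} (h : Rap c) (ω : ℝ) :
    Rap (fun n => -(ka ω n * c n)) ∧ Rap (fun n => -(kI ω n * c n)) := by
  have e1 : ∀ n : ℤ, |ω * n| ≤ |ω| * (1 + |(n:ℝ)|) := fun n => by
    rw [abs_mul]
    refine mul_le_mul_of_nonneg_left ?_ (abs_nonneg _)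
    linarith
  have hs : ∀ p : ℕ, Summable fun n : ℤ => (1 + |(n:ℝ)|) ^ p * (|ω * n| * ‖c n‖) := fun p => by
    refine Summable.of_nonneg_of_le (fun n => by positivity) (fun n => ?_) ((h.s (p + 1)).mul_left |ω|)
    calc (1 + |(n:ℝ)|) ^ p * (|ω * n| * ‖c n‖) ≤ (1 + |(n:ℝ)|) ^ p * (|ω| * (1 + |(n:ℝ)|) * ‖c n‖) := by
          gcongr
          exact e1 n
      _ = _ := by ring
  refine ⟨⟨fun p => ?_, fun n => ?_⟩, ⟨fun p => ?_, fun n => ?_⟩⟩
  · have e2 : (fun n : ℤ => (1 + |(n:ℝ)|) ^ p * ‖-(ka ω n * c n)‖) =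
        fun n : ℤ => (1 + |(n:ℝ)|) ^ p * (|ω * n| * ‖c n‖) := by
      funext n; rw [norm_neg, norm_mul, norm_ka]
    rw [e2]; exact hs p
  · show -(ka ω (-n) * c (-n)) = star (-(ka ω n * c n))
    rw [ka_neg, h.re, star_neg, star_mul', star_ka]
  · have e2 : (fun n : ℤ => (1 + |(n:ℝ)|) ^ p * ‖-(kI ω n * c n)‖) =
        fun n : ℤ => (1 + |(n:ℝ)|) ^ p * (|ω * n| * ‖c n‖) := by
      funext n; rw [norm_neg, norm_mul, norm_kI]
    rw [e2]; exact hs p
  · show -(kI ω (-n) * c (-n)) = star (-(kI ω n * c n))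
    rw [h.re, star_neg, star_mul', ← kI_neg ω (-n), neg_neg]

/-- `c_n e^{-|k_n| z}` -/
noncomputable def ef (ω : ℝ) (c : ℤ → ℂ) (n : ℤ) : CI H := c n • fe (-|ω * n|)

theorem norm_ef_le (ω : ℝ) (c : ℤ → ℂ) (n : ℤ) : ‖(ef ω c n : CI H)‖ ≤ ‖c n‖ := by
  unfold ef
  rw [norm_smul]
  exact mul_le_of_le_one_right (norm_nonneg _) (norm_fe_neg_le (abs_nonneg _))

theorem ef_neg (ω : ℝ) {c : ℤ → ℂ} (h : Rap c) (n : ℤ) : (ef ω c (-n) : CI H) = star (ef ω c n) := by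
  unfold ef
  rw [star_smul_ci, fe_starE, h.re]
  push_cast
  rw [mul_neg, abs_neg]

theorem ex_ef_zero (ω : ℝ) (c : ℤ → ℂ) (n : ℤ) : ex (ef ω c n : CI H) 0 = c n := by
  unfold ef
  rw [ex_smul, ex_fe_zero, mul_one]

theorem isD_csmul {f f1 : CI H} (h : IsD f f1) (c : ℂ) : IsD (c • f) (c • f1) := by
  intro z hz
  have e : ex (c • f) = fun z => c * ex f z := funext fun z => ex_smul c f z
  rw [e, ex_smul]
  exact (h z hz).const_mul c

theorem ef_isD (ω : ℝ) (c : ℤ → ℂ) (n : ℤ) :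
    IsD (ef ω c n : CI H) (ef ω (fun n => -(ka ω n * c n)) n) := by
  have h1 := isD_csmul (fe_isD (H := H) (-|ω * n|)) (c n)
  have e : c n • (-|ω * n| • (fe (-|ω * n|) : CI H)) = ef ω (fun n => -(ka ω n * c n)) n := by
    refine ci_ext fun z hz => ?_
    unfold ef ka
    rw [ex_smul, ex_rsmul, ex_smul]
    push_cast
    ring
  rw [← e]; exact h1

theorem ef_sum (ω : ℝ) {c : ℤ → ℂ} (h : Rap c) (p : ℕ) :
    Summable fun n : ℤ => (1 + |(n:ℝ)|) ^ p * ‖(ef ω c n : CI H)‖ :=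
  Summable.of_nonneg_of_le (fun n => by positivity)
    (fun n => mul_le_mul_of_nonneg_left (norm_ef_le ω c n) (by positivity)) (h.s p)

theorem ef_sum0 (ω : ℝ) {c : ℤ → ℂ} (h : Rap c) : Summable fun n : ℤ => ‖(ef ω c n : CI H)‖ := by
  simpa using ef_sum (H := H) ω h 0

theorem ef_cf (ω : ℝ) {c : ℤ → ℂ} (h : Rap c) (p : ℕ) : Cf p (ef ω c : ℤ → CI H) :=
  ⟨ef_neg ω h, ef_sum ω h p⟩

theorem ef_c1 (ω : ℝ) {c : ℤ → ℂ} (h : Rap c) : C1v (ef ω c : ℤ → CI H) :=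
  ⟨ef_cf ω h 1, _, ef_isD ω c, ef_sum0 ω (h.kmul ω).1⟩

/-- weighted square sums -/
theorem sq_wt {x : ℤ → CI H} (ω : ℝ) (h : Summable fun n : ℤ => (1 + |(n:ℝ)|) ^ 1 * ‖x n‖) :
    Summable fun n : ℤ => (|ω * n| * ‖(iota (x n) : Z2 H)‖) ^ 2 := by
  have h1 : Summable fun n : ℤ => ‖|ω * n| * ‖(iota (x n) : Z2 H)‖‖ := by
    refine Summable.of_nonneg_of_le (fun n => norm_nonneg _) (fun n => ?_)
      (h.mul_left (|ω| * ‖(iota : CI H →L[ℂ] Z2 H)‖))
    rw [Real.norm_of_nonneg (by positivity), abs_mul, pow_one]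
    calc |ω| * |(n:ℝ)| * ‖(iota (x n) : Z2 H)‖ ≤
          |ω| * (1 + |(n:ℝ)|) * (‖(iota : CI H →L[ℂ] Z2 H)‖ * ‖x n‖) := by
          gcongr
          · linarith
          · exact iota.le_opNorm _
      _ = _ := by ring
  have h2 := sq_summable_of h1
  refine h2.congr fun n => ?_
  rw [Real.norm_of_nonneg (by positivity)]

namespace Geo
variable (G : Geo H)

theorem S2_wt {x : ℤ → CI H} (h : Summable fun n : ℤ => (1 + |(n:ℝ)|) ^ 1 * ‖x n‖) :
    S2 G.lam (1 / 2) x := by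
  have hN := G.hN
  have h1 : Summable fun n : ℤ => ‖G.lam n ^ (1 / 2 : ℝ) * ‖x n‖‖ := by
    refine Summable.of_nonneg_of_le (fun n => norm_nonneg _) (fun n => ?_)
      (h.mul_left (G.N₀ * (1 + |G.ω|)))
    have l1 := G.lw.h1 n
    have l0 : 0 ≤ G.lam n := zero_le_one.trans l1
    rw [Real.norm_of_nonneg (mul_nonneg (Real.rpow_nonneg l0 _) (norm_nonneg _)), pow_one]
    have h2 : G.lam n ^ (1 / 2 : ℝ) ≤ G.lam n := by
      calc G.lam n ^ (1 / 2 : ℝ) ≤ G.lam n ^ (1 : ℝ) :=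
            Real.rpow_le_rpow_of_exponent_le l1 (by norm_num)
        _ = G.lam n := Real.rpow_one _
    have h3 : G.lam n ≤ G.N₀ * (1 + |G.ω|) * (1 + |(n:ℝ)|) := by
      refine (G.lam_le n).trans ?_
      rw [abs_mul, mul_assoc]
      refine mul_le_mul_of_nonneg_left ?_ (by linarith)
      have a1 := abs_nonneg G.ω
      have a2 := abs_nonneg (n:ℝ)
      have : (1 + |G.ω|) * (1 + |(n:ℝ)|) = 1 + |G.ω| * |(n:ℝ)| + |G.ω| + |(n:ℝ)| := by ring
      linarith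
    rw [← mul_assoc]
    exact mul_le_mul_of_nonneg_right (h2.trans h3) (norm_nonneg _)
  have h2 := sq_summable_of h1
  refine h2.congr fun n => ?_
  rw [Real.norm_of_nonneg (mul_nonneg (Real.rpow_nonneg (zero_le_one.trans (G.lw.h1 n)) _)
    (norm_nonneg _))]

/-- `Λ^{1/2} v` as an element of `ℓ²` -/
noncomputable def hl {v : ℤ → CI H} (hv : S2 G.lam (1 / 2) v) : l2 (CI H) :=
  mkl2 (fun n => ((G.lam n ^ (1 / 2 : ℝ) : ℝ) : ℂ) • v n) (by
    refine hv.congr fun n => ?_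
    rw [norm_smul, Complex.norm_real, Real.norm_of_nonneg (Real.rpow_nonneg (G.lw.pos n).le _)])

theorem hl_apply {v : ℤ → CI H} (hv : S2 G.lam (1 / 2) v) (n : ℤ) :
    G.hl hv n = ((G.lam n ^ (1 / 2 : ℝ) : ℝ) : ℂ) • v n := rfl

theorem hf_csmul (c : ℂ) (x : l2 (CI H)) (n : ℤ) : hf G.lam (c • x) n = c • hf G.lam x n := by
  refine ci_ext fun z _ => ?_
  rw [hf_apply, hf_apply, lp.coeFn_smul, Pi.smul_apply, ex_smul, ex_smul, ex_smul, ex_smul]
  ring

theorem hf_hl {v : ℤ → CI H} (hv : S2 G.lam (1 / 2) v) (n : ℤ) : hf G.lam (G.hl hv) n = v n := by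
  rw [hf_apply, hl_apply]
  have h1 := G.lw.pos n
  refine ci_ext fun z _ => ?_
  rw [ex_smul, ex_smul, ← mul_assoc, ← Complex.ofReal_mul, ← Real.rpow_add h1]
  norm_num

theorem cjC_hl {v : ℤ → CI H} (hv : S2 G.lam (1 / 2) v) (hr : ∀ n, v (-n) = star (v n)) :
    cjC (G.hl hv) = G.hl hv := by
  ext1
  funext n
  rw [cjC_apply, hl_apply, hl_apply, star_smul_ci, hr, star_star_ci, G.lw.neg, Complex.star_def,
    Complex.conj_ofReal]

end Geo

/-- homogeneity of the vortex force -/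
theorem bf_csmul (ω : ℝ) (om : ℤ → Z2 H) (v w : ℤ → CI H) (f : ℤ → Z2 H) (c : ℂ) :
    bf ω om (fun n => c • v n) (fun n => c • w n) f = c * bf ω om v w f := by
  have h1 : ∀ u : ℤ → CI H, pz om (fun n => c • u n) = fun n => c • pz om u n := by
    intro u
    funext n
    show ∑' j, mz (c • u (n - j)) (om j) = c • ∑' j, mz (u (n - j)) (om j)
    rw [← tsum_const_smul'']
    refine tsum_congr fun j => ?_
    rw [map_smul]; rfl
  have h2 : ∀ f g : ℤ → Z2 H, dp f (fun n => c • g n) = c * dp f g := by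
    intro f g
    unfold dp
    rw [← tsum_mul_left]
    exact tsum_congr fun n => inner_smul_right _ _ _
  unfold bf
  rw [h1, h1, h2, h2]
  ring

end

end Pool.Agent.Lib.MP_79abb3_an.SC
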