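import Pool.Agent.Lib.MP_79abb3_an.SC.PzD
import Pool.Agent.Lib.MP_79abb3_an.SC.PzE

/-!
Theorem C, phase 0: lift data (static) and the background `c(t) · (lift data)`.
-/

set_option autoImplicit false
set_option linter.unusedSectionVars false

open MeasureTheory Set Filter Topology Function
open scoped ENNReal InnerProductSpace

namespace Pool.Agent.Lib.MP_79abb3_an.SC

open Pool.Agent.Lib.MP_79abb3_an.P25

section
variable {H : ℝ} [hH : Fact (0 < H)]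

theorem cjC_csmul (c : ℂ) (x : l2 (CI H)) : cjC (c • x) = star c • cjC x := by
  ext1
  funext n
  show star (c • x (-n)) = star c • star (x (-n))
  rw [star_smul_ci]

namespace Geo

/-- Static lift data: the explicit velocity `(v, w)` (harmonic), `g = B V`, `A = B* a g`. -/
structure LD (G : Geo H) where
  v : ℤ → CI H
  w : ℤ → CI H
  g : HH H
  A : HH H
  cv : C1v v
  cw : C1v w
  div : ∀ n, DZ (w n) (-(kI G.ω n) • (iota (v n) : Z2 H))
  curl : ∀ n, DZ (v n) (kI G.ω n • (iota (w n) : Z2 H))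
  gr : cjX g = g
  Ar : cjX A = A
  adj : G.Qd.adjoint (cm G.a g) = G.J4 A
  l1 : Summable fun n => ‖Vf G.ω g n‖

namespace LD
variable {G : Geo H} (D : G.LD) (c c' : ℝ → ℝ) {t₀ t₁ : ℝ}

theorem sv : S2 G.lam (1 / 2) D.v := G.S2_wt D.cv.c.s

theorem sw : S2 G.lam (1 / 2) D.w := G.S2_wt D.cw.c.s

/-- The background `c(t) · (lift data)`. -/
noncomputable def bg : Bg H where
  ve t := (c t : ℂ) • G.hl D.sv
  we t := (c t : ℂ) • G.hl D.sw
  gL t := (c t : ℂ) • D.g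
  FL t := -((c' t : ℂ) • TT G.ω D.g) - (c t : ℂ) • D.A
  fc _ := 0
  κ _ := 0
  κ1 _ := 0

variable {c c'}

theorem hf_ve (t : ℝ) (n : ℤ) : hf G.lam ((D.bg c c').ve t) n = (c t : ℂ) • D.v n := by
  show hf G.lam ((c t : ℂ) • G.hl D.sv) n = _
  rw [G.hf_csmul, G.hf_hl]

theorem hf_we (t : ℝ) (n : ℤ) : hf G.lam ((D.bg c c').we t) n = (c t : ℂ) • D.w n := by
  show hf G.lam ((c t : ℂ) • G.hl D.sw) n = _
  rw [G.hf_csmul, G.hf_hl]

theorem Vf_gL (t : ℝ) (n : ℤ) : Vf G.ω ((D.bg c c').gL t) n = (c t : ℂ) • Vf G.ω D.g n := by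
  show Tz (G.ω * n) ((c t : ℂ) • D.g n) = _
  rw [map_smul]
  rfl

theorem bg_cont (hc : ContinuousOn c (Icc t₀ t₁)) (hc' : ContinuousOn c' (Icc t₀ t₁)) :
    (D.bg c c').Cont t₀ t₁ where
  ve := (Complex.continuous_ofReal.comp_continuousOn hc).smul continuousOn_const
  we := (Complex.continuous_ofReal.comp_continuousOn hc).smul continuousOn_const
  gL := (Complex.continuous_ofReal.comp_continuousOn hc).smul continuousOn_const
  FL := (((Complex.continuous_ofReal.comp_continuousOn hc').smul continuousOn_const).neg).sub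
    ((Complex.continuous_ofReal.comp_continuousOn hc).smul continuousOn_const)
  fc := continuousOn_const
  κ := continuousOn_const
  κ1 := continuousOn_const

theorem bg_lift (hc' : ContinuousOn c' (Icc t₀ t₁))
    (hd : ∀ t ∈ Icc t₀ t₁, HasDerivWithinAt c (c' t) (Icc t₀ t₁) t) :
    G.Lift (D.bg c c') t₀ t₁ := by
  have h1 : ∀ t ∈ Icc t₀ t₁, HasDerivWithinAt (fun t => (c t : ℂ) • TT G.ω D.g)
      ((c' t : ℂ) • TT G.ω D.g) (Icc t₀ t₁) t := fun t ht =>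
    ((hd t ht).ofReal_comp).smul_const (TT G.ω D.g)
  have h2 := Tst.of_hasDeriv (K := G.D.K) h1
    ((Complex.continuous_ofReal.comp_continuousOn hc').smul continuousOn_const)
  refine h2.congr (fun t _ => ?_) (fun t _ => ?_)
  · show TT G.ω ((c t : ℂ) • D.g) = _
    rw [map_smul]
  · show -(G.Qd.adjoint (cm G.a ((c t : ℂ) • D.g))) -
      G.J4 (-((c' t : ℂ) • TT G.ω D.g) - (c t : ℂ) • D.A) = Kh G.D.K ((c' t : ℂ) • TT G.ω D.g)
    rw [map_smul, map_smul, D.adj, map_sub, map_neg, map_smul, map_smul, map_smul, ← G.J4_eq]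
    abel

theorem bg_ok (t : ℝ) : G.Okt (D.bg c c') t where
  div n := by
    rw [hf_we, hf_ve, map_smul, smul_comm]
    exact (D.div n).smul _
  κd := by
    show IsD (0 : CI H) 0
    intro z _
    exact hasDerivWithinAt_const _ _ _

theorem norm_rc (x : ℝ) : ‖(x : ℂ)‖ = |x| := Complex.norm_real x

theorem bg_M (hc : ContinuousOn c (Icc t₀ t₁)) (hc' : ContinuousOn c' (Icc t₀ t₁))
    (hd : ∀ t ∈ Icc t₀ t₁, HasDerivWithinAt c (c' t) (Icc t₀ t₁) t) : G.BgM (D.bg c c') t₀ t₁ where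
  cont := D.bg_cont hc hc'
  lift := D.bg_lift hc' hd
  ok t _ := D.bg_ok t
  curl t _ n := by
    rw [hf_we, hf_ve, map_smul, smul_comm]
    exact (D.curl n).smul _
  fc t _ := fun m _ => map_zero (Ms m)
  re t _ := by
    have e1 : ∀ x : ℝ, star (x : ℂ) = x := fun x => Complex.conj_ofReal x
    refine ⟨?_, ?_, ?_, ?_, map_zero cjX, star_zero _, star_zero _⟩
    · show cjC ((c t : ℂ) • G.hl D.sv) = _
      rw [cjC_csmul, G.cjC_hl D.sv D.cv.c.re, e1]
      rfl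
    · show cjC ((c t : ℂ) • G.hl D.sw) = _
      rw [cjC_csmul, G.cjC_hl D.sw D.cw.c.re, e1]
      rfl
    · show cjX ((c t : ℂ) • D.g) = _
      rw [cjX_smul, D.gr, e1]
      rfl
    · show cjX (-((c' t : ℂ) • TT G.ω D.g) - (c t : ℂ) • D.A) = _
      rw [map_sub, map_neg, cjX_smul, cjX_smul, cj_TT, D.gr, D.Ar, e1, e1]
      rfl
  grad := by
    obtain ⟨M, hM⟩ := isCompact_Icc.exists_bound_of_continuousOn hc
    have key : ∀ (x : ℤ → CI H), (Summable fun n : ℤ => (1 + |(n:ℝ)|) ^ 1 * ‖x n‖) →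
        ∃ C, ∀ t ∈ Icc t₀ t₁,
          (Summable fun n : ℤ => (|G.ω * n| * ‖(iota ((c t : ℂ) • x n) : Z2 H)‖) ^ 2) ∧
          ∑' n : ℤ, (|G.ω * n| * ‖(iota ((c t : ℂ) • x n) : Z2 H)‖) ^ 2 ≤ C := by
      intro x hx
      have h1 := sq_wt (H := H) G.ω hx
      refine ⟨M ^ 2 * ∑' n : ℤ, (|G.ω * n| * ‖(iota (x n) : Z2 H)‖) ^ 2, fun t ht => ?_⟩
      have e2 : (fun n : ℤ => (|G.ω * n| * ‖(iota ((c t : ℂ) • x n) : Z2 H)‖) ^ 2) =
          fun n : ℤ => c t ^ 2 * (|G.ω * n| * ‖(iota (x n) : Z2 H)‖) ^ 2 := by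
        funext n
        rw [map_smul, norm_smul, norm_rc, ← sq_abs (c t)]
        ring
      rw [e2, tsum_mul_left]
      refine ⟨h1.mul_left _, mul_le_mul_of_nonneg_right ?_ (tsum_nonneg fun n => by positivity)⟩
      have h2 := hM t ht
      rw [Real.norm_eq_abs] at h2
      rw [← sq_abs (c t)]
      exact pow_le_pow_left₀ (abs_nonneg _) h2 2
    obtain ⟨C1, hC1⟩ := key D.v D.cv.c.s
    obtain ⟨C2, hC2⟩ := key D.w D.cw.c.s
    refine ⟨max C1 C2, fun t ht => ?_⟩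
    have f1 : ∀ n, hf G.lam ((D.bg c c').ve t) n = (c t : ℂ) • D.v n := D.hf_ve t
    have f2 : ∀ n, hf G.lam ((D.bg c c').we t) n = (c t : ℂ) • D.w n := D.hf_we t
    simp only [f1, f2]
    exact ⟨⟨(hC1 t ht).1, (hC1 t ht).2.trans (le_max_left _ _)⟩,
      ⟨(hC2 t ht).1, (hC2 t ht).2.trans (le_max_right _ _)⟩⟩
  l1 := by
    have cc : ContinuousOn (fun t => (c t : ℂ)) (Icc t₀ t₁) :=
      Complex.continuous_ofReal.comp_continuousOn hc
    have s1 : Summable fun n => ‖D.v n‖ := D.cv.c.s0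
    have s2 : Summable fun n => ‖D.w n‖ := D.cw.c.s0
    refine ⟨fun t => (c t : ℂ) • mkL1 D.v s1, fun t => (c t : ℂ) • mkL1 D.w s2,
      fun t => (c t : ℂ) • mkL1 (Vf G.ω D.g) D.l1, cc.smul continuousOn_const,
      cc.smul continuousOn_const, cc.smul continuousOn_const, fun t _ n => ?_⟩
    rw [hf_ve, hf_we, Vf_gL]
    exact ⟨rfl, rfl, rfl⟩

theorem trn_csmul (ω : ℝ) (c : ℝ) (g : HH H) : trn ω ((c : ℂ) • g) = |c| * trn ω g := by
  unfold trn
  have e : ∀ n, ‖ex (Vf ω (⇑((c : ℂ) • g)) n : CI H) 0‖ ^ 2 =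
      c ^ 2 * ‖ex (Vf ω (⇑g) n : CI H) 0‖ ^ 2 := by
    intro n
    have e1 : Vf ω (⇑((c : ℂ) • g)) n = (c : ℂ) • Vf ω (⇑g) n := by
      show Tz (ω * n) ((c : ℂ) • g n) = _
      rw [map_smul]
      rfl
    rw [e1, ex_smul, norm_mul, norm_rc, mul_pow, sq_abs]
  simp only [e]
  rw [tsum_mul_left, Real.sqrt_mul (sq_nonneg c), Real.sqrt_sq_eq_abs]

theorem bg_0 : ∃ E s, 0 ≤ E ∧ 0 ≤ s ∧ ∀ {c c' : ℝ → ℝ} {t₀ t₁ : ℝ}, ContinuousOn c (Icc t₀ t₁) →
    ContinuousOn c' (Icc t₀ t₁) → (∀ t ∈ Icc t₀ t₁, HasDerivWithinAt c (c' t) (Icc t₀ t₁) t) →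
    (∀ t ∈ Icc t₀ t₁, |c t| ≤ 1) → G.Bg0 (D.bg c c') t₀ t₁ E s := by
  obtain ⟨E, hE, h⟩ := ue_bd G D.cv D.cw
  refine ⟨E, trn G.ω D.g, hE, Real.sqrt_nonneg _, fun {c c' t₀ t₁} hc hc' hd h1 => ?_⟩
  exact
    { cont := D.bg_cont hc hc'
      lift := D.bg_lift hc' hd
      ok := fun t _ => D.bg_ok t
      κ := fun _ _ => rfl
      κ1 := fun _ _ => rfl
      fc := fun _ _ => rfl
      ue := fun t ht g g' hg' => by
        have f1 : hf G.lam ((D.bg c c').ve t) = fun n => (c t : ℂ) • D.v n := funext (D.hf_ve t)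
        have f2 : hf G.lam ((D.bg c c').we t) = fun n => (c t : ℂ) • D.w n := funext (D.hf_we t)
        rw [f1, f2, bf_csmul, norm_mul, norm_rc]
        exact (mul_le_of_le_one_left (norm_nonneg _) (h1 t ht)).trans (h g g' hg')
      tr := fun t ht => by
        show trn G.ω ((c t : ℂ) • D.g) ≤ _
        rw [trn_csmul]
        exact mul_le_of_le_one_left (Real.sqrt_nonneg _) (h1 t ht) }

end LD

end Geo

end

end Pool.Agent.Lib.MP_79abb3_an.SC
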