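import Pool.Agent.Lib.MP_79abb3_an.SC.LaSG

/-!
Theorem C: conjugations of Hilbert spaces, real operators, functions of real operators.
-/

set_option autoImplicit false
set_option linter.unusedSectionVars false

open ContinuousLinearMap Filter Topology
open scoped InnerProductSpace ComplexConjugate

namespace Pool.Agent.Lib.MP_79abb3_an.SC

/-- A conjugation of a complex Hilbert space. -/
structure Cjn (X : Type) [NormedAddCommGroup X] [InnerProductSpace ℂ X] where
  c : X →L[ℝ] X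
  cc : ∀ x, c (c x) = x
  sm : ∀ (z : ℂ) (x : X), c (z • x) = star z • c x
  inn : ∀ x y, ⟪c x, c y⟫_ℂ = ⟪y, x⟫_ℂ

section
variable {X : Type} [NormedAddCommGroup X] [InnerProductSpace ℂ X] [CompleteSpace X] (r : Cjn X)

theorem Cjn.nrm (x : X) : ‖r.c x‖ = ‖x‖ := by
  have h := r.inn x x
  rw [inner_self_eq_norm_sq_to_K, inner_self_eq_norm_sq_to_K] at h
  have h2 : ‖r.c x‖ ^ 2 = ‖x‖ ^ 2 := by exact_mod_cast h
  exact (sq_eq_sq₀ (norm_nonneg _) (norm_nonneg _)).1 h2

theorem Cjn.inn' (x y : X) : ⟪r.c x, y⟫_ℂ = ⟪r.c y, x⟫_ℂ := by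
  have h := r.inn x (r.c y)
  rwa [r.cc] at h

/-- Real operators. -/
def ReO (L : X →L[ℂ] X) : Prop := ∀ x, r.c (L x) = L (r.c x)

variable {r} {L M : X →L[ℂ] X}

theorem ReO.one : ReO r (1 : X →L[ℂ] X) := fun _ => rfl
theorem ReO.zero : ReO r (0 : X →L[ℂ] X) := fun x => by
  show r.c 0 = 0
  exact map_zero _

theorem ReO.comp (h : ReO r L) (h' : ReO r M) : ReO r (L ∘L M) := fun x => by
  show r.c (L (M x)) = L (M (r.c x))
  rw [h, h']

theorem ReO.add (h : ReO r L) (h' : ReO r M) : ReO r (L + M) := fun x => by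
  show r.c (L x + M x) = L (r.c x) + M (r.c x)
  rw [map_add, h, h']

theorem ReO.sub (h : ReO r L) (h' : ReO r M) : ReO r (L - M) := fun x => by
  show r.c (L x - M x) = L (r.c x) - M (r.c x)
  rw [map_sub, h, h']

theorem ReO.neg (h : ReO r L) : ReO r (-L) := fun x => by
  show r.c (-L x) = -L (r.c x)
  rw [map_neg, h]

theorem ReO.adj (h : ReO r L) : ReO r L.adjoint := fun x => by
  refine ext_inner_left ℂ fun y => ?_
  rw [adjoint_inner_right]
  have h1 := r.inn (L (r.c y)) x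
  have h2 : ⟪y, r.c (L.adjoint x)⟫_ℂ = ⟪L.adjoint x, r.c y⟫_ℂ := by
    have := r.inn (r.c y) (L.adjoint x)
    rwa [r.cc] at this
  rw [h2, adjoint_inner_left]
  have h3 := r.inn (L y) (r.c x)
  rw [r.cc, h] at h3
  have h4 : ⟪x, L (r.c y)⟫_ℂ = ⟪L y, r.c x⟫_ℂ := by
    rw [← inner_conj_symm x, h3, inner_conj_symm]
  exact h4

/-- If `L M = 1` and `L` is real and injective then `M` is real. -/
theorem ReO.inv (h : ReO r L) (h1 : ∀ x, L (M x) = x) (h2 : ∀ x, M (L x) = x) : ReO r M := fun x => by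
  rw [← h2 (r.c (M x)), ← h, h1]

theorem ReO.of_dense {N : X →L[ℂ] X} (hN : DenseRange N) (h : ReO r N)
    (hMN : ReO r (M ∘L N)) : ReO r M := fun x => by
  refine hN.induction (P := fun x => r.c (M x) = M (r.c x)) ?_
    (isClosed_eq (by fun_prop) (by fun_prop)) x
  rintro _ ⟨y, rfl⟩
  have h1 := hMN y
  rw [h y]
  exact h1

/-! ### Functional calculus -/

variable (r) in
/-- `c L c` -/
noncomputable def Cjn.Th (L : X →L[ℂ] X) : X →L[ℂ] X :=
  LinearMap.mkContinuous
    { toFun := fun x => r.c (L (r.c x))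
      map_add' := fun x y => by rw [map_add, map_add, map_add]
      map_smul' := fun z x => by rw [r.sm, map_smul, r.sm, star_star]; rfl } ‖L‖ (fun x => by
      show ‖r.c (L (r.c x))‖ ≤ _
      rw [r.nrm, ← r.nrm x]
      exact L.le_opNorm _)

theorem Cjn.Th_apply (L : X →L[ℂ] X) (x : X) : r.Th L x = r.c (L (r.c x)) := rfl

theorem Cjn.norm_Th (L : X →L[ℂ] X) : ‖r.Th L‖ ≤ ‖L‖ := LinearMap.mkContinuous_norm_le _ (norm_nonneg _) _

theorem ReO.iff : ReO r L ↔ r.Th L = L := by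
  constructor
  · intro h
    ext x
    rw [Cjn.Th_apply, h, r.cc]
  · intro h x
    have h1 : r.Th L (r.c x) = L (r.c x) := by rw [h]
    rw [Cjn.Th_apply, r.cc] at h1
    exact h1

variable (r) in
/-- `L ↦ c L c` as a homomorphism of real star algebras -/
noncomputable def Cjn.ThH : (X →L[ℂ] X) →⋆ₐ[ℝ] (X →L[ℂ] X) where
  toFun := r.Th
  map_one' := by
    ext x
    rw [Cjn.Th_apply]
    exact r.cc x
  map_mul' L M := by
    ext x
    show r.c (L (M (r.c x))) = r.c (L (r.c (r.c (M (r.c x)))))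
    rw [r.cc]
  map_zero' := by
    ext x
    rw [Cjn.Th_apply]
    show r.c 0 = 0
    exact map_zero _
  map_add' L M := by
    ext x
    show r.c (L (r.c x) + M (r.c x)) = r.c (L (r.c x)) + r.c (M (r.c x))
    rw [map_add]
  commutes' a := by
    ext x
    show r.c ((algebraMap ℝ (X →L[ℂ] X) a) (r.c x)) = (algebraMap ℝ (X →L[ℂ] X) a) x
    rw [ContinuousLinearMap.algebraMap_apply, ContinuousLinearMap.algebraMap_apply, map_smul, r.cc]
  map_star' L := by
    ext x
    refine ext_inner_left ℂ fun y => ?_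
    show ⟪y, r.c ((L.adjoint) (r.c x))⟫_ℂ = ⟪y, (r.Th L).adjoint x⟫_ℂ
    rw [adjoint_inner_right, Cjn.Th_apply]
    have h2 : ⟪y, r.c (L.adjoint (r.c x))⟫_ℂ = ⟪L.adjoint (r.c x), r.c y⟫_ℂ := by
      have := r.inn (r.c y) (L.adjoint (r.c x))
      rwa [r.cc] at this
    rw [h2, adjoint_inner_left]
    have h3 := r.inn (r.c x) (L (r.c y))
    have h4 := r.inn' (L (r.c y)) x
    rw [h4]

theorem Cjn.ThH_cont : Continuous r.ThH :=
  AddMonoidHomClass.continuous_of_bound r.ThH 1 fun L => by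
    rw [one_mul]; exact r.norm_Th L

/-- Real functions of a real selfadjoint operator are real. -/
theorem ReO.cfc {K : X →L[ℂ] X} (hK : IsSelfAdjoint K) (h : ReO r K) (f : ℝ → ℝ) (hf : Continuous f) :
    ReO r (cfc f K) := by
  have h1 : r.ThH K = K := ReO.iff.1 h
  have h2 := StarAlgHomClass.map_cfc (S := ℝ) r.ThH f K hf.continuousOn Cjn.ThH_cont hK (by rw [h1]; exact hK)
  rw [h1] at h2
  exact ReO.iff.2 h2

theorem ReO.fA {K : X →L[ℂ] X} (hK : 0 ≤ K) (h : ReO r K) {φ : ℝ → ℝ} (hφ : Adm φ) : ReO r (fA φ K) :=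
  ReO.cfc (selfAdjoint_of_nonneg hK) h _ (gf_continuous hφ)

end

end Pool.Agent.Lib.MP_79abb3_an.SC
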