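import Pool.Agent.Lib.MP_79abb3_an.SC.FcA
import Pool.Agent.Lib.MP_79abb3_an.SC.MsDef

/-!
Theorem C: from solutions in modes to physical pieces, part A: test functions and their families.
-/

set_option autoImplicit false
set_option linter.unusedSectionVars false

open MeasureTheory Set Filter Topology Function
open scoped ENNReal InnerProductSpace

namespace Pool.Agent.Lib.MP_79abb3_an.SC

open Pool.Agent.Lib.MP_79abb3_an.P25

section tg
variable {H h : ℝ} {F G a : ℝ × ℝ → ℝ}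

theorem IsTg.fd (hF : IsTg H h F) (v : ℝ × ℝ) : IsTg H h (fun p => fderiv ℝ F p v) where
  smooth := fo_contDiff hF.smooth le_rfl v
  cpt := hF.cpt.fderiv_apply (𝕜 := ℝ) v
  supp := (tsupport_fderiv_apply_subset ℝ v).trans hF.supp

theorem IsTg.gy (hF : IsTg H h F) : IsTg H h (gy F) := hF.fd (1, 0)

theorem IsTg.gz (hF : IsTg H h F) : IsTg H h (gz F) := hF.fd (0, 1)

theorem IsTg.add (hF : IsTg H h F) (hG : IsTg H h G) : IsTg H h (fun p => F p + G p) where
  smooth := hF.smooth.add hG.smooth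
  cpt := hF.cpt.add hG.cpt
  supp := by
    refine (closure_minimal ?_ ((isClosed_tsupport F).union (isClosed_tsupport G))).trans
      (union_subset hF.supp hG.supp)
    intro x hx
    by_contra hx2
    rw [mem_union, not_or] at hx2
    refine hx ?_
    show F x + G x = 0
    rw [image_eq_zero_of_notMem_tsupport hx2.1, image_eq_zero_of_notMem_tsupport hx2.2, add_zero]

theorem IsTg.neg (hF : IsTg H h F) : IsTg H h (fun p => -F p) where
  smooth := hF.smooth.neg
  cpt := hF.cpt.neg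
  supp := by
    refine (closure_minimal ?_ (isClosed_tsupport F)).trans hF.supp
    intro x hx
    by_contra hx2
    refine hx ?_
    show -F x = 0
    rw [image_eq_zero_of_notMem_tsupport hx2, neg_zero]

theorem IsTg.sub (hF : IsTg H h F) (hG : IsTg H h G) : IsTg H h (fun p => F p - G p) := by
  simpa [sub_eq_add_neg] using hF.add hG.neg

theorem IsTg.mul (hF : IsTg H h F) (ha : ContDiff ℝ ((⊤ : ℕ∞) : WithTop ℕ∞) a) :
    IsTg H h (fun p => a p * F p) where
  smooth := ha.mul hF.smooth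
  cpt := hF.cpt.mul_left
  supp := by
    refine (closure_minimal ?_ (isClosed_tsupport F)).trans hF.supp
    intro x hx
    by_contra hx2
    refine hx ?_
    show a x * F x = 0
    rw [image_eq_zero_of_notMem_tsupport hx2, mul_zero]

theorem IsTg.lap (hF : IsTg H h F) : IsTg H h (lapg F) := hF.gy.gy.add hF.gz.gz

/-- A test function vanishes near the lateral boundary, near `z = 0` and for `z ≥ h`. -/
theorem IsTg.eps (hF : IsTg H h F) :
    ∃ ε > 0, ∀ y z, H - ε ≤ |y| ∨ z ≤ ε ∨ h ≤ z → F (y, z) = 0 := by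
  have hc : Continuous fun p : ℝ × ℝ => min (H - |p.1|) p.2 := by fun_prop
  obtain ⟨d, hd, hd2⟩ := hF.cpt.isCompact.exists_forall_le' (f := fun p : ℝ × ℝ =>
    min (H - |p.1|) p.2) hc.continuousOn (a := 0) (fun p hp => by
      obtain ⟨h1, h2⟩ := hF.supp hp
      exact lt_min (by linarith [abs_lt.2 h1]) h2.1)
  refine ⟨d / 2, by positivity, fun y z hyz => ?_⟩
  by_contra hne
  have hm : (y, z) ∈ tsupport F := subset_tsupport F hne
  have h1 := hd2 (y, z) hm
  have h2 := hF.supp hm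
  rcases hyz with h3 | h3 | h3
  · have := h1.trans (min_le_left _ _)
    change d ≤ H - |y| at this
    linarith
  · have := h1.trans (min_le_right _ _)
    change d ≤ z at this
    linarith
  · exact absurd h2.2.2 (not_lt.2 h3)

theorem IsTg.py (hH0 : 0 < H) (hF : IsTg H h F) : PY H F := by
  obtain ⟨ε, hε, h1⟩ := hF.eps
  exact PY.of_van hε hH0 hF.smooth fun y z hy => h1 y z (Or.inl hy)

theorem IsTg.zero_of {q : ℝ × ℝ} (hF : IsTg H h F) (hq : q ∉ Ioo (-H) H ×ˢ Ioo 0 h) : F q = 0 :=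
  image_eq_zero_of_notMem_tsupport fun hm => hq (hF.supp hm)

theorem IsTg.int (hF : IsTg H h F) {u : ℝ × ℝ → ℝ} (hu : Continuous u) :
    Integrable (fun q => F q * u q) :=
  (hF.smooth.continuous.mul hu).integrable_of_hasCompactSupport hF.cpt.mul_right

end tg

section
variable {H : ℝ} [hH : Fact (0 < H)] {h : ℝ} {F G a : ℝ × ℝ → ℝ}

theorem fam_sum0 (hF : PY H F) : Summable fun n : ℤ => ‖(fam F n : CI H)‖ := by
  simpa using fam_sum hF 0

theorem fam_zero_of (hF : IsTg H h F) {ε : ℝ}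
    (h1 : ∀ y z, H - ε ≤ |y| ∨ z ≤ ε ∨ h ≤ z → F (y, z) = 0) (n : ℤ) {z : ℝ} (hz : z ∈ Icc (0:ℝ) H)
    (h2 : z ≤ ε ∨ h ≤ z) : ex (fam F n : CI H) z = 0 := by
  rw [ex_fam hF.smooth.continuous n hz, fco]
  have h3 : ∀ y, F (y, z) = 0 := fun y => h1 y z (Or.inr h2)
  simp only [h3, Complex.ofReal_zero, zero_mul, intervalIntegral.integral_zero, mul_zero]

theorem IsTg.fam0 (hF : IsTg H h F) (n : ℤ) : ex (fam F n : CI H) 0 = 0 := by
  obtain ⟨ε, hε, h1⟩ := hF.eps
  exact fam_zero_of hF h1 n ⟨le_rfl, hH.out.le⟩ (Or.inl hε.le)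

theorem IsTg.famH (hh : h ≤ H) (hF : IsTg H h F) (n : ℤ) : ex (fam F n : CI H) H = 0 := by
  obtain ⟨ε, hε, h1⟩ := hF.eps
  exact fam_zero_of hF h1 n ⟨hH.out.le, le_rfl⟩ (Or.inr hh)

theorem IsTg.tsF (hF : IsTg H h F) :
    TsF h (fam F : ℤ → CI H) (fam (SC.gz F)) (fam (SC.gz (SC.gz F))) where
  d1 := fam_isD (hF.py hH.out)
  d2 := fam_isD (hF.gz.py hH.out)
  s0 := fam_sum (hF.py hH.out) 4
  s1 := fam_sum (hF.gz.py hH.out) 4
  s2 := fam_sum (hF.gz.gz.py hH.out) 4
  supp := by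
    obtain ⟨ε, hε, h1⟩ := hF.eps
    exact ⟨ε, hε, fun n z hz h2 => fam_zero_of hF h1 n hz h2⟩

theorem IsTg.fam_gy (hF : IsTg H h F) (n : ℤ) :
    (fam (SC.gy F) n : CI H) = kI (Real.pi / H) n • fam F n := fam_dy (hF.py hH.out) n

theorem IsTg.fam_dz (hF : IsTg H h F) (n : ℤ) : DZ (fam F n : CI H) (iota (fam (SC.gz F) n)) :=
  IsD.dz (fam_isD (hF.py hH.out) n)

theorem IsTg.lapM (hF : IsTg H h F) :
    SC.lapM (Real.pi / H) (fam F : ℤ → CI H) (fam (SC.gz (SC.gz F))) = io (fam (lapg F)) := by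
  funext n
  have h1 : (fam (lapg F) n : CI H) = fam (SC.gy (SC.gy F)) n + fam (SC.gz (SC.gz F)) n :=
    fam_add hF.gy.gy.smooth.continuous hF.gz.gz.smooth.continuous n
  rw [io_apply, h1, hF.gy.fam_gy, hF.fam_gy, map_add, map_smul, map_smul, smul_smul]
  have h2 : kI (Real.pi / H) n * kI (Real.pi / H) n = -((Real.pi / H * n : ℝ) : ℂ) ^ 2 := by
    unfold kI
    have : Complex.I * Complex.I = -1 := Complex.I_mul_I
    linear_combination ((Real.pi / H * n : ℝ) : ℂ) ^ 2 * this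
  rw [h2, neg_smul, SC.lapM]
  abel

end

end Pool.Agent.Lib.MP_79abb3_an.SC
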