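import Pool.Agent.Lib.MP_79abb3_an.SC.WkMa

/-!
Theorem C: from solutions in modes to physical pieces, part B: pairings of test functions with fields.
-/

set_option autoImplicit false
set_option linter.unusedSectionVars false

open MeasureTheory Set Filter Topology Function
open scoped ENNReal InnerProductSpace

namespace Pool.Agent.Lib.MP_79abb3_an.SC

open Pool.Agent.Lib.MP_79abb3_an.P25

section
variable {H : ℝ} [hH : Fact (0 < H)] {h : ℝ} {F G a : ℝ × ℝ → ℝ}

theorem wk_inner_iota (f u : CI H) :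
    ⟪(iota f : Z2 H), iota u⟫_ℂ = ∫ z in (0:ℝ)..H, star (ex f z) * ex u z := by
  rw [inner_Z2]
  refine ii_congr ?_ zero_memI H_memI
  filter_upwards [coe_iota f, coe_iota u] with z h1 h2
  rw [h1, h2]

theorem wk_fco (F : ℝ × ℝ → ℝ) (n : ℤ) (z : ℝ) :
    ∫ y in (-H)..H, ((F (y, z) : ℝ) : ℂ) * ee (Real.pi / H) n y =
      ((2 * H : ℝ) : ℂ) * star (fco H F n z) := by
  have hH0 := hH.out
  have h0 : ((2 * H : ℝ) : ℂ) ≠ 0 := by
    norm_cast
    positivity
  rw [← fco_star, fco, mul_inv_cancel_left₀ h0]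
  refine intervalIntegral.integral_congr fun y _ => ?_
  show _ = ((F (y, z) : ℝ) : ℂ) * star (ee (Real.pi / H) (-n) y)
  rw [ee_neg, star_star]

/-- One mode of the pairing. -/
theorem pair_mode (hF : Continuous F) (u : CI H) (n : ℤ) :
    ∫ q, ((F q : ℝ) : ℂ) * (ex u q.2 * ee (Real.pi / H) n q.1)
      ∂((volume.restrict (Ioc (-H) H)).prod (volume.restrict (Ioc (0:ℝ) H))) =
      ((2 * H : ℝ) : ℂ) * ⟪(iota (fam F n) : Z2 H), iota u⟫_ℂ := by
  have hH0 := hH.out
  have hc : Continuous fun q : ℝ × ℝ => ((F q : ℝ) : ℂ) * (ex u q.2 * ee (Real.pi / H) n q.1) :=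
    (Complex.continuous_ofReal.comp hF).mul (((continuous_ex u).comp continuous_snd).mul
      ((fld_ee_continuous _ n).comp continuous_fst))
  have hi : Integrable (fun q : ℝ × ℝ => ((F q : ℝ) : ℂ) * (ex u q.2 * ee (Real.pi / H) n q.1))
      ((volume.restrict (Ioc (-H) H)).prod (volume.restrict (Ioc (0:ℝ) H))) := by
    rw [Measure.prod_restrict]
    have h1 : IntegrableOn (fun q : ℝ × ℝ => ((F q : ℝ) : ℂ) *
        (ex u q.2 * ee (Real.pi / H) n q.1)) (Icc (-H) H ×ˢ Icc (0:ℝ) H)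
        ((volume : Measure ℝ).prod volume) :=
      hc.continuousOn.integrableOn_compact (isCompact_Icc.prod isCompact_Icc)
    exact h1.mono_set (prod_mono Ioc_subset_Icc_self Ioc_subset_Icc_self)
  rw [integral_prod_symm _ hi, wk_inner_iota, ← intervalIntegral.integral_const_mul,
    intervalIntegral.integral_of_le hH0.le]
  refine setIntegral_congr_fun measurableSet_Ioc fun z hz => ?_
  have hz' : z ∈ Icc (0:ℝ) H := ⟨hz.1.le, hz.2⟩
  show ∫ y in Ioc (-H) H, ((F (y, z) : ℝ) : ℂ) * (ex u z * ee (Real.pi / H) n y) =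
    ((2 * H : ℝ) : ℂ) * (star (ex (fam F n) z) * ex u z)
  rw [← intervalIntegral.integral_of_le (by linarith), ex_fam hF n hz']
  have h2 : ∀ y, ((F (y, z) : ℝ) : ℂ) * (ex u z * ee (Real.pi / H) n y) =
      ex u z * (((F (y, z) : ℝ) : ℂ) * ee (Real.pi / H) n y) := fun y => by ring
  simp only [h2]
  rw [intervalIntegral.integral_const_mul, wk_fco]
  ring

/-- The cell. -/
theorem wk_cell (hh : h ≤ H) (hF : IsTg H h F) (u : ℝ × ℝ → ℝ) :
    ∫ q, F q * u q = ∫ q, F q * u q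
      ∂((volume.restrict (Ioc (-H) H)).prod (volume.restrict (Ioc (0:ℝ) H))) := by
  rw [Measure.prod_restrict]
  symm
  refine setIntegral_eq_integral_of_forall_compl_eq_zero fun q hq => ?_
  have h1 : F q = 0 := hF.zero_of fun hm => hq
    ⟨⟨hm.1.1, hm.1.2.le⟩, ⟨hm.2.1, hm.2.2.le.trans hh⟩⟩
  rw [h1, zero_mul]

/-- **The pairing of a test function with a field.** -/
theorem pair_fld (hh : h ≤ H) (hF : IsTg H h F) {u : ℤ → CI H} (hu : Summable fun n => ‖u n‖)
    (hs : Sy u) :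
    (((∫ q : ℝ × ℝ, F q * fld (Real.pi / H) u q.1 q.2) : ℝ) : ℂ) =
      ((2 * H : ℝ) : ℂ) * dp (io (fam F)) (io u) := by
  have hH0 := hH.out
  rw [wk_cell hh hF]
  set μ : Measure (ℝ × ℝ) := (volume.restrict (Ioc (-H) H)).prod (volume.restrict (Ioc (0:ℝ) H))
    with hμ
  have hfin : IsFiniteMeasure μ := by rw [hμ]; infer_instance
  obtain ⟨C, hC⟩ := hF.cpt.exists_bound_of_continuous hF.smooth.continuous
  have hC0 : 0 ≤ C := (norm_nonneg _).trans (hC (0, 0))
  rw [← integral_complex_ofReal]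
  have e1 : ∀ q : ℝ × ℝ, (((F q * fld (Real.pi / H) u q.1 q.2 : ℝ)) : ℂ) =
      ∑' n : ℤ, ((F q : ℝ) : ℂ) * (ex (u n) q.2 * ee (Real.pi / H) n q.1) := fun q => by
    rw [Complex.ofReal_mul, ← fld_real hu hs, tsum_mul_left]
  simp only [e1]
  have hc : ∀ n : ℤ, Continuous fun q : ℝ × ℝ =>
      ((F q : ℝ) : ℂ) * (ex (u n) q.2 * ee (Real.pi / H) n q.1) := fun n =>
    (Complex.continuous_ofReal.comp hF.smooth.continuous).mul
      (((continuous_ex (u n)).comp continuous_snd).mul ((fld_ee_continuous _ n).comp continuous_fst))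
  have hb : ∀ (n : ℤ) (q : ℝ × ℝ),
      ‖((F q : ℝ) : ℂ) * (ex (u n) q.2 * ee (Real.pi / H) n q.1)‖ ≤ C * ‖u n‖ := fun n q => by
    rw [norm_mul, Complex.norm_real]
    exact mul_le_mul (hC q) (fld_term_le u n q.1 q.2) (norm_nonneg _) hC0
  have hi : ∀ n : ℤ, Integrable (fun q : ℝ × ℝ =>
      ((F q : ℝ) : ℂ) * (ex (u n) q.2 * ee (Real.pi / H) n q.1)) μ := fun n =>
    Integrable.of_bound (hc n).aestronglyMeasurable (C * ‖u n‖) (Eventually.of_forall (hb n))
  have hS : Summable fun n : ℤ => ∫ q, ‖((F q : ℝ) : ℂ) *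
      (ex (u n) q.2 * ee (Real.pi / H) n q.1)‖ ∂μ := by
    refine Summable.of_nonneg_of_le (fun n => integral_nonneg fun q => norm_nonneg _) (fun n => ?_)
      (((hu.mul_left C).mul_left (μ.real univ)))
    calc ∫ q, ‖((F q : ℝ) : ℂ) * (ex (u n) q.2 * ee (Real.pi / H) n q.1)‖ ∂μ
        ≤ ∫ _q, C * ‖u n‖ ∂μ := integral_mono (hi n).norm (integrable_const _) (hb n)
      _ = μ.real univ * (C * ‖u n‖) := by rw [integral_const, smul_eq_mul]
  rw [← integral_tsum_of_summable_integral_norm hi hS]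
  simp only [hμ, pair_mode hF.smooth.continuous]
  rw [tsum_mul_left]
  rfl

end

end Pool.Agent.Lib.MP_79abb3_an.SC
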