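import Pool.Agent.Lib.MP_79abb3_an.SC.ExE
import Pool.Agent.Lib.MP_79abb3_an.SC.FcB
import Pool.Agent.Lib.MP_79abb3_an.SC.PieceGlue
import Pool.Agent.Lib.MP_79abb3_an.SC.WkMb

/-!
Theorem C: from solutions in modes to physical pieces, part C: the pairing with the vorticity,
divergence, the `H¹` bounds.
-/

set_option autoImplicit false
set_option linter.unusedSectionVars false

open MeasureTheory Set Filter Topology Function
open scoped ENNReal InnerProductSpace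

namespace Pool.Agent.Lib.MP_79abb3_an.SC

open Pool.Agent.Lib.MP_79abb3_an.P25

section
variable {H : ℝ} [hH : Fact (0 < H)] {h : ℝ} {F G a : ℝ × ℝ → ℝ}

theorem wk_io_le (u : CI H) : ‖(iota u : Z2 H)‖ ≤ √H * ‖u‖ :=
  (iota.le_opNorm _).trans (mul_le_mul_of_nonneg_right
    (LinearMap.mkContinuous_norm_le _ (Real.sqrt_nonneg H) _) (norm_nonneg _))

theorem wk_io_sum {u : ℤ → CI H} (hu : Summable fun n => ‖u n‖) : Summable fun n => ‖io u n‖ :=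
  Summable.of_nonneg_of_le (fun _ => norm_nonneg _) (fun n => wk_io_le (u n)) (hu.mul_left _)

theorem wk_bdd {E : Type} [NormedAddCommGroup E] {u : ℤ → E} (hu : Summable fun n => ‖u n‖) :
    ∃ C, ∀ n, ‖u n‖ ≤ C := ⟨_, fun n => hu.le_tsum n fun _ _ => norm_nonneg _⟩

theorem wk_dp {f g : ℤ → Z2 H} (hf : Summable fun n => ‖f n‖) {C : ℝ} (hg : ∀ n, ‖g n‖ ≤ C) :
    Summable fun n => ⟪f n, g n⟫_ℂ := by
  refine Summable.of_norm_bounded (hf.mul_right C) fun n => ?_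
  exact (norm_inner_le_norm _ _).trans (mul_le_mul_of_nonneg_left (hg n) (norm_nonneg _))

theorem wk_dp' {f g : ℤ → CI H} (hf : Summable fun n => ‖f n‖) (hg : Summable fun n => ‖g n‖) :
    Summable fun n => ⟪io f n, io g n⟫_ℂ := by
  obtain ⟨C, hC⟩ := wk_bdd (wk_io_sum hg)
  exact wk_dp (wk_io_sum hf) hC

/-- one mode of the pairing with the vorticity -/
theorem om_mode (hh : h ≤ H) (hF : IsTg H h F) {v w : CI H} {om : Z2 H} (n : ℤ)
    (rot : DZ v (kI (Real.pi / H) n • iota w - om)) :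
    ⟪(iota (fam F n) : Z2 H), om⟫_ℂ =
      ⟪(iota (fam (gz F) n) : Z2 H), iota v⟫_ℂ - ⟪(iota (fam (gy F) n) : Z2 H), iota w⟫_ℂ := by
  have h1 := DZ.ibp (hF.fam_dz n) rot
  rw [hF.fam0, hF.famH hh, star_zero, zero_mul, zero_mul, sub_zero, inner_sub_right,
    inner_smul_right] at h1
  rw [hF.fam_gy, map_smul, inner_smul_left, conj_kI]
  linear_combination -h1

/-- one mode of the divergence -/
theorem div_mode (hh : h ≤ H) (hF : IsTg H h F) {v w : CI H} (n : ℤ)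
    (div : DZ w (-(kI (Real.pi / H) n) • iota v)) :
    ⟪(iota (fam (gy F) n) : Z2 H), iota v⟫_ℂ + ⟪(iota (fam (gz F) n) : Z2 H), iota w⟫_ℂ = 0 := by
  have h1 := DZ.ibp (hF.fam_dz n) div
  rw [hF.fam0, hF.famH hh, star_zero, zero_mul, zero_mul, sub_zero, inner_smul_right] at h1
  rw [hF.fam_gy, map_smul, inner_smul_left, conj_kI]
  linear_combination h1

theorem dp_om (hh : h ≤ H) (hF : IsTg H h F) {v w : ℤ → CI H} {om : ℤ → Z2 H}
    (hv : Summable fun n => ‖v n‖) (hw : Summable fun n => ‖w n‖)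
    (rot : ∀ n, DZ (v n) (kI (Real.pi / H) n • iota (w n) - om n)) :
    dp (io (fam F)) om = dp (io (fam (gz F))) (io v) - dp (io (fam (gy F))) (io w) := by
  unfold dp
  rw [← (wk_dp' (fam_sum0 (hF.gz.py hH.out)) hv).tsum_sub
    (wk_dp' (fam_sum0 (hF.gy.py hH.out)) hw)]
  exact tsum_congr fun n => om_mode hh hF n (rot n)

/-- `2H ⟨F, Om⟩ = ∫ (v F_z - w F_y)` -/
theorem mG_om (hh : h ≤ H) (hF : IsTg H h F) {v w : ℤ → CI H} {om : ℤ → Z2 H}
    (hv : Summable fun n => ‖v n‖) (hw : Summable fun n => ‖w n‖) (sv : Sy v) (sw : Sy w)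
    (rot : ∀ n, DZ (v n) (kI (Real.pi / H) n • iota (w n) - om n)) :
    ((mG F (fun q => fld (Real.pi / H) v q.1 q.2) (fun q => fld (Real.pi / H) w q.1 q.2) : ℝ) : ℂ) =
      ((2 * H : ℝ) : ℂ) * dp (io (fam F)) om := by
  rw [dp_om hh hF hv hw rot, mul_sub, ← pair_fld hh hF.gz hv sv, ← pair_fld hh hF.gy hw sw, mG,
    ← Complex.ofReal_sub, ← integral_sub (hF.gz.int (fld_cont hv)) (hF.gy.int (fld_cont hw))]
  congr 2
  funext q
  ring

theorem div_fld (hh : h ≤ H) (hF : IsTg H h F) {v w : ℤ → CI H}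
    (hv : Summable fun n => ‖v n‖) (hw : Summable fun n => ‖w n‖) (sv : Sy v) (sw : Sy w)
    (div : ∀ n, DZ (w n) (-(kI (Real.pi / H) n) • iota (v n))) :
    ∫ q : ℝ × ℝ, (fld (Real.pi / H) v q.1 q.2 * gy F q + fld (Real.pi / H) w q.1 q.2 * gz F q) = 0 := by
  have h1 : ∫ q : ℝ × ℝ, (fld (Real.pi / H) v q.1 q.2 * gy F q +
      fld (Real.pi / H) w q.1 q.2 * gz F q) =
      (∫ q : ℝ × ℝ, gy F q * fld (Real.pi / H) v q.1 q.2) +
        ∫ q : ℝ × ℝ, gz F q * fld (Real.pi / H) w q.1 q.2 := by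
    rw [← integral_add (hF.gy.int (fld_cont hv)) (hF.gz.int (fld_cont hw))]
    congr 1
    funext q
    ring
  rw [h1]
  have h2 := pair_fld hh hF.gy hv sv
  have h3 := pair_fld hh hF.gz hw sw
  have h4 : dp (io (fam (gy F))) (io v) + dp (io (fam (gz F))) (io w) = 0 := by
    unfold dp
    rw [← (wk_dp' (fam_sum0 (hF.gy.py hH.out)) hv).tsum_add
      (wk_dp' (fam_sum0 (hF.gz.py hH.out)) hw), ← tsum_zero (α := ℂ) (β := ℤ)]
    exact tsum_congr fun n => div_mode hh hF n (div n)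
  apply Complex.ofReal_injective
  rw [Complex.ofReal_add, h2, h3, ← mul_add, h4, mul_zero, Complex.ofReal_zero]

/-- Parseval. -/
theorem wk_pars (hh : h ≤ H) (hF : IsTg H h F) :
    ∫ q, F q ^ 2 = 2 * H * ∑' n : ℤ, ‖(iota (fam F n) : Z2 H)‖ ^ 2 := by
  have hp : PY H F := hF.py hH.out
  have h1 := pair_fld hh hF (fam_sum0 hp) (fun n => fam_neg_n hp.smooth.continuous n)
  have h2 : ∫ q : ℝ × ℝ, F q * fld (Real.pi / H) (fam F : ℤ → CI H) q.1 q.2 = ∫ q, F q ^ 2 := by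
    congr 1
    funext q
    by_cases hq : q ∈ Ioo (-H) H ×ˢ Ioo 0 h
    · have e : fld (Real.pi / H) (fam F : ℤ → CI H) q.1 q.2 = F (q.1, q.2) :=
        fld_fam hp ⟨hq.1.1.le, hq.1.2.le⟩ ⟨hq.2.1.le, hq.2.2.le.trans hh⟩
      rw [e, sq]
    · rw [hF.zero_of hq, zero_mul, sq, zero_mul]
  rw [h2] at h1
  apply Complex.ofReal_injective
  rw [h1, Complex.ofReal_mul (2 * H), Complex.ofReal_tsum, dp]
  congr 1
  refine tsum_congr fun n => ?_
  rw [io_apply, inner_self_eq_norm_sq_to_K]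
  norm_cast

theorem wk_sq_sum (hF : IsTg H h F) :
    Summable fun n : ℤ => ‖(iota (fam F n) : Z2 H)‖ ^ 2 :=
  l1_l2 (wk_io_sum (fam_sum0 (hF.py hH.out)))

/-- Cauchy-Schwarz for the pairing with `F_y`. -/
theorem wk_gy_le (hh : h ≤ H) (hF : IsTg H h F) {v : ℤ → CI H} (hv : Summable fun n => ‖v n‖)
    (sv : Sy v) {C : ℝ}
    (h1 : Summable fun n : ℤ => (|Real.pi / H * n| * ‖(iota (v n) : Z2 H)‖) ^ 2)
    (h2 : ∑' n : ℤ, (|Real.pi / H * n| * ‖(iota (v n) : Z2 H)‖) ^ 2 ≤ C) :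
    |∫ q : ℝ × ℝ, gy F q * fld (Real.pi / H) v q.1 q.2| ≤ √(2 * H) * √C * √(∫ q, F q ^ 2) := by
  have hH0 := hH.out
  have e1 : |∫ q : ℝ × ℝ, gy F q * fld (Real.pi / H) v q.1 q.2| =
      2 * H * ‖dp (io (fam (gy F))) (io v)‖ := by
    have := congrArg (fun z : ℂ => ‖z‖) (pair_fld hh hF.gy hv sv)
    simp only [norm_mul, Complex.norm_real, Real.norm_eq_abs] at this
    rw [this, abs_of_pos hH0, abs_of_pos (two_pos : (0:ℝ) < 2)]
  have c1 := cs_tsum (x := fun n : ℤ => ‖(iota (fam F n) : Z2 H)‖)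
    (y := fun n : ℤ => |Real.pi / H * n| * ‖(iota (v n) : Z2 H)‖) (fun n => norm_nonneg _)
    (fun n => by positivity) (wk_sq_sum hF) h1
  have e2 : ‖dp (io (fam (gy F))) (io v)‖ ≤ √(∑' n : ℤ, ‖(iota (fam F n) : Z2 H)‖ ^ 2) * √C := by
    refine (tsum_of_norm_bounded c1.1.hasSum fun n => ?_).trans (c1.2.trans
      (mul_le_mul_of_nonneg_left (Real.sqrt_le_sqrt h2) (Real.sqrt_nonneg _)))
    rw [io_apply, io_apply, hF.fam_gy, map_smul, inner_smul_left, norm_mul, RCLike.norm_conj,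
      norm_kI]
    calc |Real.pi / H * n| * ‖⟪(iota (fam F n) : Z2 H), iota (v n)⟫_ℂ‖
        ≤ |Real.pi / H * n| * (‖(iota (fam F n) : Z2 H)‖ * ‖(iota (v n) : Z2 H)‖) :=
          mul_le_mul_of_nonneg_left (norm_inner_le_norm _ _) (abs_nonneg _)
      _ = _ := by ring
  rw [e1, wk_pars hh hF, Real.sqrt_mul (by positivity : (0:ℝ) ≤ 2 * H)]
  calc 2 * H * ‖dp (io (fam (gy F))) (io v)‖
      ≤ 2 * H * (√(∑' n : ℤ, ‖(iota (fam F n) : Z2 H)‖ ^ 2) * √C) :=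
        mul_le_mul_of_nonneg_left e2 (by positivity)
    _ = (√(2 * H) * √(2 * H)) * (√(∑' n : ℤ, ‖(iota (fam F n) : Z2 H)‖ ^ 2) * √C) := by
        rw [Real.mul_self_sqrt (by positivity)]
    _ = _ := by ring

/-- Cauchy-Schwarz for the pairing with the vorticity. -/
theorem wk_om_le (hh : h ≤ H) (hF : IsTg H h F) (Om : HH H) :
    2 * H * ‖dp (io (fam F)) Om‖ ≤ √(2 * H) * ‖Om‖ * √(∫ q, F q ^ 2) := by
  have hH0 := hH.out
  have c1 := cs_tsum (x := fun n : ℤ => ‖(iota (fam F n) : Z2 H)‖)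
    (y := fun n : ℤ => ‖Om n‖) (fun n => norm_nonneg _)
    (fun n => norm_nonneg _) (wk_sq_sum hF) (l2_summable Om)
  rw [← l2_norm_sq, Real.sqrt_sq (norm_nonneg _)] at c1
  have e2 : ‖dp (io (fam F)) Om‖ ≤ √(∑' n : ℤ, ‖(iota (fam F n) : Z2 H)‖ ^ 2) * ‖Om‖ :=
    (tsum_of_norm_bounded c1.1.hasSum fun n => norm_inner_le_norm _ _).trans c1.2
  rw [wk_pars hh hF, Real.sqrt_mul (by positivity : (0:ℝ) ≤ 2 * H)]
  calc 2 * H * ‖dp (io (fam F)) Om‖
      ≤ 2 * H * (√(∑' n : ℤ, ‖(iota (fam F n) : Z2 H)‖ ^ 2) * ‖Om‖) :=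
        mul_le_mul_of_nonneg_left e2 (by positivity)
    _ = (√(2 * H) * √(2 * H)) * (√(∑' n : ℤ, ‖(iota (fam F n) : Z2 H)‖ ^ 2) * ‖Om‖) := by
        rw [Real.mul_self_sqrt (by positivity)]
    _ = _ := by ring

/-- **The `H¹` bounds.** -/
theorem wk_h1 (hh : h ≤ H) (hF : IsTg H h F) {v w : ℤ → CI H} {Om : HH H}
    (hv : Summable fun n => ‖v n‖) (hw : Summable fun n => ‖w n‖) (sv : Sy v) (sw : Sy w)
    (rot : ∀ n, DZ (v n) (kI (Real.pi / H) n • iota (w n) - Om n))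
    (div : ∀ n, DZ (w n) (-(kI (Real.pi / H) n) • iota (v n))) {C D : ℝ} (hO : ‖Om‖ ≤ D)
    (hv1 : Summable fun n : ℤ => (|Real.pi / H * n| * ‖(iota (v n) : Z2 H)‖) ^ 2)
    (hv2 : ∑' n : ℤ, (|Real.pi / H * n| * ‖(iota (v n) : Z2 H)‖) ^ 2 ≤ C)
    (hw1 : Summable fun n : ℤ => (|Real.pi / H * n| * ‖(iota (w n) : Z2 H)‖) ^ 2)
    (hw2 : ∑' n : ℤ, (|Real.pi / H * n| * ‖(iota (w n) : Z2 H)‖) ^ 2 ≤ C) :
    |∫ q : ℝ × ℝ, fld (Real.pi / H) v q.1 q.2 * gy F q| ≤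
        √(2 * H) * (√C + D) * √(∫ q, F q ^ 2) ∧
      |∫ q : ℝ × ℝ, fld (Real.pi / H) v q.1 q.2 * gz F q| ≤
        √(2 * H) * (√C + D) * √(∫ q, F q ^ 2) ∧
      |∫ q : ℝ × ℝ, fld (Real.pi / H) w q.1 q.2 * gy F q| ≤
        √(2 * H) * (√C + D) * √(∫ q, F q ^ 2) ∧
      |∫ q : ℝ × ℝ, fld (Real.pi / H) w q.1 q.2 * gz F q| ≤
        √(2 * H) * (√C + D) * √(∫ q, F q ^ 2) := by
  have hH0 := hH.out
  have hD : 0 ≤ D := (norm_nonneg _).trans hO
  have s1 := Real.sqrt_nonneg (2 * H)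
  have s2 := Real.sqrt_nonneg C
  have s3 := Real.sqrt_nonneg (∫ q, F q ^ 2)
  have comm : ∀ (u k : ℝ × ℝ → ℝ), ∫ q : ℝ × ℝ, u q * k q = ∫ q : ℝ × ℝ, k q * u q := fun u k => by
    congr 1
    funext q
    ring
  have a1 := wk_gy_le hh hF hv sv hv1 hv2
  have a2 := wk_gy_le hh hF hw sw hw1 hw2
  have b1 : √(2 * H) * √C * √(∫ q, F q ^ 2) ≤ √(2 * H) * (√C + D) * √(∫ q, F q ^ 2) := by
    gcongr
    linarith
  -- `∫ v F_z = 2H ⟨F, Om⟩ + ∫ w F_y`
  have c1 := mG_om hh hF hv hw sv sw rot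
  have c2 : |mG F (fun q => fld (Real.pi / H) v q.1 q.2) (fun q => fld (Real.pi / H) w q.1 q.2)| ≤
      √(2 * H) * D * √(∫ q, F q ^ 2) := by
    have := congrArg (fun z : ℂ => ‖z‖) c1
    simp only [norm_mul, Complex.norm_real, Real.norm_eq_abs] at this
    rw [this, abs_of_pos hH0, abs_of_pos (two_pos : (0:ℝ) < 2)]
    refine (wk_om_le hh hF Om).trans ?_
    gcongr
  have c3 : mG F (fun q => fld (Real.pi / H) v q.1 q.2) (fun q => fld (Real.pi / H) w q.1 q.2) =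
      (∫ q : ℝ × ℝ, gz F q * fld (Real.pi / H) v q.1 q.2) -
        ∫ q : ℝ × ℝ, gy F q * fld (Real.pi / H) w q.1 q.2 := by
    rw [mG, ← integral_sub (hF.gz.int (fld_cont hv)) (hF.gy.int (fld_cont hw))]
    congr 1
    funext q
    ring
  have c4 := div_fld hh hF hv hw sv sw div
  have c5 : (∫ q : ℝ × ℝ, gy F q * fld (Real.pi / H) v q.1 q.2) +
      ∫ q : ℝ × ℝ, gz F q * fld (Real.pi / H) w q.1 q.2 = 0 := by
    rw [← c4, ← integral_add (hF.gy.int (fld_cont hv)) (hF.gz.int (fld_cont hw))]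
    congr 1
    funext q
    ring
  rw [c3] at c2
  refine ⟨?_, ?_, ?_, ?_⟩
  · rw [comm]
    exact a1.trans b1
  · rw [comm]
    have e : (∫ q : ℝ × ℝ, gz F q * fld (Real.pi / H) v q.1 q.2) =
        ((∫ q : ℝ × ℝ, gz F q * fld (Real.pi / H) v q.1 q.2) -
          ∫ q : ℝ × ℝ, gy F q * fld (Real.pi / H) w q.1 q.2) +
        ∫ q : ℝ × ℝ, gy F q * fld (Real.pi / H) w q.1 q.2 := by ring
    rw [e]
    refine (abs_add_le _ _).trans ((add_le_add c2 a2).trans (le_of_eq ?_))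
    ring
  · rw [comm]
    exact a2.trans b1
  · rw [comm]
    have e : (∫ q : ℝ × ℝ, gz F q * fld (Real.pi / H) w q.1 q.2) =
        -∫ q : ℝ × ℝ, gy F q * fld (Real.pi / H) v q.1 q.2 := by linarith
    rw [e, abs_neg]
    exact a1.trans b1

end

end Pool.Agent.Lib.MP_79abb3_an.SC
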