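import Pool.Agent.Lib.MP_79abb3_an.SC.WkMc

/-!
Theorem C: from solutions in modes to physical pieces, part D: the identity for the vortex force,
`lM` as an integral.
-/

set_option autoImplicit false
set_option linter.unusedSectionVars false

open MeasureTheory Set Filter Topology Function
open scoped ENNReal InnerProductSpace

namespace Pool.Agent.Lib.MP_79abb3_an.SC

open Pool.Agent.Lib.MP_79abb3_an.P25

section
variable {H : ℝ} [hH : Fact (0 < H)] {h : ℝ} {F G a P R : ℝ × ℝ → ℝ}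

/-- One triple of modes of the symmetrised vortex force, weights vanishing at both ends. -/
theorem sym_modeT {ω : ℝ} {i l : ℤ} {v w v' w' g h g1 h1 : CI H} {om om' : Z2 H}
    (dw : DZ w (-(kI ω i) • (iota v : Z2 H))) (dv : DZ v (kI ω i • (iota w : Z2 H) - om))
    (dw' : DZ w' (-(kI ω l) • (iota v' : Z2 H))) (dv' : DZ v' (kI ω l • (iota w' : Z2 H) - om'))
    (dg : DZ g (iota g1)) (dh : DZ h (iota h1)) (g0 : ex g 0 = 0)
    (h0 : ex h 0 = 0) (gH : ex g H = 0) (hHH : ex h H = 0) :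
    ⟪(iota g : Z2 H), mz w' om⟫_ℂ + ⟪(iota g : Z2 H), mz w om'⟫_ℂ +
      (⟪(iota h : Z2 H), mz v' om⟫_ℂ + ⟪(iota h : Z2 H), mz v om'⟫_ℂ) =
    -⟪kI ω (i + l) • (iota g : Z2 H) + iota h1, iota (w * w' - v * v')⟫_ℂ +
      ⟪(iota g1 : Z2 H) - kI ω (i + l) • (iota h : Z2 H), iota (v * w' + v' * w)⟫_ℂ := by
  have dQ := (dv.mul dw').add (dv'.mul dw)
  have dR := (dw.mul dw').sub (dv.mul dv')
  have e1 := DZ.ibp dg dQ
  have e2 := DZ.ibp dh dR
  rw [gH, g0, star_zero, zero_mul, zero_mul, sub_zero] at e1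
  rw [hHH, h0, star_zero, zero_mul, zero_mul, sub_zero] at e2
  simp only [map_smul, map_sub, map_neg, neg_smul, mz_iota, inner_add_right, inner_sub_right,
    inner_add_left, inner_sub_left, inner_smul_right, inner_smul_left, inner_neg_right, conj_kI,
    kI_add, map_add] at e1 e2 ⊢
  have c1 : w' * w = w * w' := mul_comm _ _
  have c2 : v' * v = v * v' := mul_comm _ _
  have c3 : w' * v = v * w' := mul_comm _ _
  have c4 : w * v' = v' * w := mul_comm _ _
  simp only [c1, c2, c3, c4] at e1 e2 ⊢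
  linear_combination -e1 + e2

/-- The trilinear form for summable families. -/
theorem wk_T3 {r : ℤ → Z2 H} {u : ℤ → CI H} {p : ℤ → Z2 H} (hr : Summable fun n => ‖r n‖)
    (hu : Summable fun n => ‖u n‖) {C : ℝ} (hp : ∀ n, ‖p n‖ ≤ C) :
    (Summable fun x : ℤ × ℤ => ⟪r (x.1 + x.2), mz (u x.2) (p x.1)⟫_ℂ) ∧ dp r (pz p u) = T3 r u p := by
  have hC : 0 ≤ C := (norm_nonneg _).trans (hp 0)
  let e1 : ℤ × ℤ ≃ ℤ × ℤ :=
    { toFun := fun q => (q.1 + q.2, q.2)
      invFun := fun q => (q.1 - q.2, q.2)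
      left_inv := fun q => by ext <;> simp
      right_inv := fun q => by ext <;> simp }
  have s1 : Summable fun x : ℤ × ℤ => ‖r x.1‖ * ‖u x.2‖ :=
    hr.mul_of_nonneg hu (fun _ => norm_nonneg _) (fun _ => norm_nonneg _)
  have s2 : Summable fun x : ℤ × ℤ => ‖r (x.1 + x.2)‖ * ‖u x.2‖ := by
    have := e1.summable_iff.2 s1
    exact this
  have s3 : Summable fun x : ℤ × ℤ => ⟪r (x.1 + x.2), mz (u x.2) (p x.1)⟫_ℂ := by
    refine Summable.of_norm_bounded (s2.mul_right C) fun x => ?_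
    refine (norm_inner_le_norm _ _).trans ?_
    calc ‖r (x.1 + x.2)‖ * ‖mz (u x.2) (p x.1)‖ ≤ ‖r (x.1 + x.2)‖ * (‖u x.2‖ * C) := by
          refine mul_le_mul_of_nonneg_left ((norm_mz_apply_le _ _).trans ?_) (norm_nonneg _)
          exact mul_le_mul_of_nonneg_left (hp _) (norm_nonneg _)
      _ = _ := by ring
  refine ⟨s3, ?_⟩
  have c1 : ∀ n : ℤ, Summable fun j => mz (u (n - j)) (p j) := fun n => by
    have := (Equiv.subLeft n).summable_iff.2 hu
    refine Summable.of_norm_bounded (this.mul_right C) fun j => ?_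
    exact (norm_mz_apply_le _ _).trans (mul_le_mul_of_nonneg_left (hp _) (norm_nonneg _))
  let e2 : ℤ × ℤ ≃ ℤ × ℤ :=
    { toFun := fun q => (q.2, q.1 - q.2)
      invFun := fun p => (p.1 + p.2, p.1)
      left_inv := fun p => by ext <;> simp
      right_inv := fun q => by ext <;> simp }
  set f : ℤ × ℤ → ℂ := fun x => ⟪r (x.1 + x.2), mz (u x.2) (p x.1)⟫_ℂ with hf
  have h2 : Summable (f ∘ e2) := e2.summable_iff.2 s3
  have e3 : ∀ n j, (f ∘ e2) (n, j) = ⟪r n, mz (u (n - j)) (p j)⟫_ℂ := fun n j => by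
    show ⟪r (j + (n - j)), mz (u (n - j)) (p j)⟫_ℂ = _
    rw [show j + (n - j) = n by ring]
  have e4 : T3 r u p = ∑' n, ∑' j, ⟪r n, mz (u (n - j)) (p j)⟫_ℂ := by
    unfold T3
    rw [← e2.tsum_eq f, show ∑' q, f (e2 q) = ∑' q, (f ∘ e2) q from rfl, h2.tsum_prod]
    exact tsum_congr fun n => tsum_congr fun j => e3 n j
  rw [e4]
  unfold dp
  refine tsum_congr fun n => ?_
  show ⟪r n, ∑' j, mz (u (n - j)) (p j)⟫_ℂ = _
  have := (innerSL ℂ (r n)).map_tsum (c1 n)
  simpa using this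

theorem wk_conv {v w : ℤ → CI H} (hv : Summable fun n => ‖v n‖) (hw : Summable fun n => ‖w n‖) :
    (Summable fun n => ‖conv v w n‖) ∧ io (conv v w) = pz (io v) w := by
  have hW : P25.Wt 1 (fun _ : ℤ => (1:ℝ)) := ⟨fun _ => le_rfl, fun _ _ => by norm_num, rfl⟩
  obtain ⟨h1, h2, -⟩ := conv_bound hW (a := v) (b := w) (by simpa using hv) (by simpa using hw)
  refine ⟨by simpa using h2, ?_⟩
  funext n
  show iota (∑' m, v m * w (n - m)) = ∑' m, mz (w (n - m)) (iota (v m))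
  rw [iota.map_tsum (h1 n)]
  refine tsum_congr fun m => ?_
  rw [mz_iota, mul_comm]

theorem wk_conv_sy {v w : ℤ → CI H} (sv : Sy v) (sw : Sy w) : Sy (conv v w) := by
  intro n
  show ∑' m, v m * w (-n - m) = star (∑' m, v m * w (n - m))
  rw [tsum_star, ← (Equiv.neg ℤ).tsum_eq]
  refine tsum_congr fun m => ?_
  show v (-m) * w (-n - -m) = star (v m * w (n - m))
  rw [show -n - -m = -(n - m) by ring, sv, sw, star_mul']

/-- **The vortex force as a divergence.** -/
theorem wk_star (hh : h ≤ H) (hP : IsTg H h P) (hR : IsTg H h R) {v w : ℤ → CI H} {Om : ℤ → Z2 H}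
    (hv : Summable fun n => ‖v n‖) (hw : Summable fun n => ‖w n‖) {C : ℝ} (hO : ∀ n, ‖Om n‖ ≤ C)
    (rot : ∀ n, DZ (v n) (kI (Real.pi / H) n • iota (w n) - Om n))
    (div : ∀ n, DZ (w n) (-(kI (Real.pi / H) n) • iota (v n))) :
    dp (io (fam P)) (pz Om w) + dp (io (fam R)) (pz Om v) =
      dp (io (fam fun p => gz P p - gy R p)) (io (conv v w)) -
        (1 / 2) * (dp (io (fam fun p => gy P p + gz R p)) (io (conv w w)) -
          dp (io (fam fun p => gy P p + gz R p)) (io (conv v v))) := by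
  have hQ := hP.gz.sub hR.gy
  have hS := hP.gy.add hR.gz
  set Q : ℝ × ℝ → ℝ := fun p => gz P p - gy R p with hQd
  set S : ℝ × ℝ → ℝ := fun p => gy P p + gz R p with hSd
  have nP := wk_io_sum (H := H) (fam_sum0 (hP.py hH.out))
  have nR := wk_io_sum (H := H) (fam_sum0 (hR.py hH.out))
  have nQ := wk_io_sum (H := H) (fam_sum0 (hQ.py hH.out))
  have nS := wk_io_sum (H := H) (fam_sum0 (hS.py hH.out))
  obtain ⟨Cv, hCv⟩ := wk_bdd (wk_io_sum hv)
  obtain ⟨Cw, hCw⟩ := wk_bdd (wk_io_sum hw)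
  rw [(wk_conv hv hw).2, (wk_conv hw hw).2, (wk_conv hv hv).2]
  obtain ⟨a1, b1⟩ := wk_T3 nP hw hO
  obtain ⟨a2, b2⟩ := wk_T3 nR hv hO
  obtain ⟨a3, b3⟩ := wk_T3 nQ hw hCv
  obtain ⟨a4, b4⟩ := wk_T3 nS hw hCw
  obtain ⟨a5, b5⟩ := wk_T3 nS hv hCv
  obtain ⟨a6, -⟩ := wk_T3 nQ hv hCw
  rw [b1, b2, b3, b4, b5]
  have b6 : T3 (io (fam Q)) w (io v) = T3 (io (fam Q)) v (io w) := T3_swap _ _ _
  have a1' : Summable fun x : ℤ × ℤ => ⟪io (fam P) (x.1 + x.2), mz (w x.1) (Om x.2)⟫_ℂ := by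
    have := (Equiv.prodComm ℤ ℤ).summable_iff.2 a1
    refine this.congr fun x => ?_
    show ⟪io (fam P) (x.2 + x.1), mz (w x.1) (Om x.2)⟫_ℂ =
      ⟪io (fam P) (x.1 + x.2), mz (w x.1) (Om x.2)⟫_ℂ
    rw [add_comm]
  have a2' : Summable fun x : ℤ × ℤ => ⟪io (fam R) (x.1 + x.2), mz (v x.1) (Om x.2)⟫_ℂ := by
    have := (Equiv.prodComm ℤ ℤ).summable_iff.2 a2
    refine this.congr fun x => ?_
    show ⟪io (fam R) (x.2 + x.1), mz (v x.1) (Om x.2)⟫_ℂ =
      ⟪io (fam R) (x.1 + x.2), mz (v x.1) (Om x.2)⟫_ℂ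
    rw [add_comm]
  have k1 := T3_swap' (io (fam P)) w Om
  have k2 := T3_swap' (io (fam R)) v Om
  have key : T3 (io (fam P)) w Om + T3 (io (fam P)) w Om + (T3 (io (fam R)) v Om +
      T3 (io (fam R)) v Om) = -(T3 (io (fam S)) w (io w) - T3 (io (fam S)) v (io v)) +
        (T3 (io (fam Q)) w (io v) + T3 (io (fam Q)) v (io w)) := by
    conv_lhs =>
      congr
      · rhs
        rw [k1]
      · rhs
        rw [k2]
    unfold T3
    rw [← a1.tsum_add a1', ← a2.tsum_add a2', ← (a1.add a1').tsum_add (a2.add a2'),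
      ← a4.tsum_sub a5, ← tsum_neg, ← a3.tsum_add a6, ← (a4.sub a5).neg.tsum_add (a3.add a6)]
    refine tsum_congr fun x => ?_
    have e := sym_modeT (div x.1) (rot x.1) (div x.2) (rot x.2) (hP.fam_dz (x.1 + x.2))
      (hR.fam_dz (x.1 + x.2)) (hP.fam0 _) (hR.fam0 _) (hP.famH hh _) (hR.famH hh _)
    have eS : kI (Real.pi / H) (x.1 + x.2) • (iota (fam P (x.1 + x.2)) : Z2 H) +
        iota (fam (gz R) (x.1 + x.2)) = io (fam S) (x.1 + x.2) := by
      rw [io_apply, hSd, fam_add hP.gy.smooth.continuous hR.gz.smooth.continuous, hP.fam_gy, map_add,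
        map_smul]
    have eQ : (iota (fam (gz P) (x.1 + x.2)) : Z2 H) -
        kI (Real.pi / H) (x.1 + x.2) • iota (fam R (x.1 + x.2)) = io (fam Q) (x.1 + x.2) := by
      rw [io_apply, hQd, fam_sub hP.gz.smooth.continuous hR.gy.smooth.continuous, hR.fam_gy, map_sub,
        map_smul]
    rw [eS, eQ] at e
    simp only [io_apply] at e ⊢
    rw [e, mz_iota, mz_iota, mz_iota, mz_iota, map_sub, map_add, inner_sub_right, inner_add_right,
      mul_comm (w x.2) (w x.1), mul_comm (v x.2) (v x.1), mul_comm (w x.2) (v x.1)]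
  rw [b6] at key ⊢
  linear_combination (1 / 2) * key

/-- Adjoint of the multiplication by `a`. -/
theorem wk_dp_cm (ha : PY H a) (hG : PY H G) (x : HH H) :
    dp (io (fam G)) (cm (fam a) x) = dp (io (fam fun p => a p * G p)) x := by
  have hca : Cf 0 (fam a : ℤ → CI H) := ⟨fam_neg_n ha.smooth.continuous, fam_sum ha 0⟩
  have s1 := l1_l2 (wk_io_sum (H := H) (fam_sum0 hG))
  set g : HH H := mkl2 (io (fam G)) s1 with hg
  have e1 : dp (io (fam G)) (cm (fam a) x) = ⟪g, cm (fam a) x⟫_ℂ := by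
    rw [lp.inner_eq_tsum]
    rfl
  have e2 : ⟪cm (fam a) g, x⟫_ℂ = dp (cm (fam a) g) x := lp.inner_eq_tsum _ _
  rw [e1, ← inner_cm hca, e2]
  congr 1
  funext n
  refine (cm_hasSum hca.s0 g n).unique ?_
  have h1 : HasSum (fun j : ℤ => fam G j * fam a (n - j)) (fam (fun p => G p * a p) n : CI H) := by
    rw [fam_mul hG ha]
    obtain ⟨C, hC⟩ := wk_bdd (fam_sum0 (H := H) ha)
    refine (Summable.of_norm_bounded ((fam_sum0 (H := H) hG).mul_right C) fun j => ?_).hasSum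
    exact (norm_mul_le _ _).trans (mul_le_mul_of_nonneg_left (hC _) (norm_nonneg _))
  have h2 := (iota : CI H →L[ℂ] Z2 H).hasSum h1
  have h3 : (fun p => a p * G p) = fun p => G p * a p := by
    funext p
    ring
  rw [h3]
  have h4 : (fun j => mz (fam a (n - j) : CI H) (g j)) =
      fun j => (iota (fam G j * fam a (n - j) : CI H) : Z2 H) := by
    funext j
    show mz (fam a (n - j) : CI H) (iota (fam G j)) = _
    rw [mz_iota, mul_comm]
  rw [h4]
  exact h2

/-- `2H lM` as an integral. -/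
theorem lM_fld (hh : h ≤ H) (ha : PY H a) (hF : IsTg H h F) {v w : ℤ → CI H} {Om : HH H}
    (hv : Summable fun n => ‖v n‖) (hw : Summable fun n => ‖w n‖) (sv : Sy v) (sw : Sy w)
    (rot : ∀ n, DZ (v n) (kI (Real.pi / H) n • iota (w n) - Om n))
    (div : ∀ n, DZ (w n) (-(kI (Real.pi / H) n) • iota (v n))) :
    ((2 * H : ℝ) : ℂ) * lM (Real.pi / H) (fam a) (fam F) (fam (gz F)) (fam (gz (gz F))) v w Om =
      ((lG a F (fun q => fld (Real.pi / H) v q.1 q.2) (fun q => fld (Real.pi / H) w q.1 q.2) : ℝ) :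
        ℂ) := by
  have hH0 := hH.out
  have hW := hF.lap.mul ha.smooth
  have hP := hF.gz.mul ha.smooth
  have hR := hF.gy.mul ha.smooth
  set W : ℝ × ℝ → ℝ := fun p => a p * lapg F p with hWd
  set P : ℝ × ℝ → ℝ := fun p => a p * gz F p with hPd
  set R : ℝ × ℝ → ℝ := fun p => a p * gy F p with hRd
  have hQ := hP.gz.sub hR.gy
  have hS := hP.gy.add hR.gz
  have sa := fam_sum0 (H := H) ha
  -- modes
  have m1 : dp (lapM (Real.pi / H) (fam F) (fam (gz (gz F)))) (cm (fam a) Om) =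
      dp (io (fam W)) Om := by
    rw [hF.lapM, wk_dp_cm ha (hF.lap.py hH0)]
  have m2 : dp (io (fam (gz F))) (pz (cm (fam a) Om) w) = dp (io (fam P)) (pz Om w) := by
    rw [← cm_pz hw, cm_comm hw sa, wk_dp_cm ha (hF.gz.py hH0), cm_pz hw]
  have m3 : dp (dy (Real.pi / H) (io (fam F))) (pz (cm (fam a) Om) v) =
      dp (io (fam R)) (pz Om v) := by
    have e : dy (Real.pi / H) (io (fam F : ℤ → CI H)) = io (fam (gy F)) := by
      funext n
      rw [dy_apply, io_apply, io_apply, hF.fam_gy, map_smul]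
    rw [e, ← cm_pz hv, cm_comm hv sa, wk_dp_cm ha (hF.gy.py hH0), cm_pz hv]
  have m4 := wk_star hh hP hR hv hw (Om := Om) (fun n => l2_norm_apply_le Om n) rot div
  rw [lM, m1, m2, m3, add_assoc, m4]
  -- integrals
  have s1 := (wk_conv hv hw).1
  have s2 := (wk_conv hw hw).1
  have s3 := (wk_conv hv hv).1
  have p0 := mG_om hh hW hv hw sv sw rot
  have p1 := pair_fld hh hQ s1 (wk_conv_sy sv sw)
  have p2 := pair_fld hh hS s2 (wk_conv_sy sw sw)
  have p3 := pair_fld hh hS s3 (wk_conv_sy sv sv)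
  have q1 : ((2 * H : ℝ) : ℂ) * (dp (io (fam W)) Om +
      (dp (io (fam fun p => gz P p - gy R p)) (io (conv v w)) -
        (1 / 2) * (dp (io (fam fun p => gy P p + gz R p)) (io (conv w w)) -
          dp (io (fam fun p => gy P p + gz R p)) (io (conv v v))))) =
      (((mG W (fun q => fld (Real.pi / H) v q.1 q.2) (fun q => fld (Real.pi / H) w q.1 q.2)) +
        ((∫ q : ℝ × ℝ, (gz P q - gy R q) * fld (Real.pi / H) (conv v w) q.1 q.2) -
          (1 / 2) * ((∫ q : ℝ × ℝ, (gy P q + gz R q) * fld (Real.pi / H) (conv w w) q.1 q.2) -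
            ∫ q : ℝ × ℝ, (gy P q + gz R q) * fld (Real.pi / H) (conv v v) q.1 q.2)) : ℝ) : ℂ) := by
    rw [Complex.ofReal_add, Complex.ofReal_sub, Complex.ofReal_mul (1 / 2), Complex.ofReal_sub, p0,
      p1, p2, p3]
    push_cast
    ring
  rw [q1, Complex.ofReal_inj]
  have c1 : ∀ y z : ℝ, fld (Real.pi / H) (conv v w) y z =
      fld (Real.pi / H) v y z * fld (Real.pi / H) w y z := fld_conv hv hw sv sw
  have c2 : ∀ y z : ℝ, fld (Real.pi / H) (conv w w) y z =
      fld (Real.pi / H) w y z * fld (Real.pi / H) w y z := fld_conv hw hw sw sw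
  have c3 : ∀ y z : ℝ, fld (Real.pi / H) (conv v v) y z =
      fld (Real.pi / H) v y z * fld (Real.pi / H) v y z := fld_conv hv hv sv sv
  have i0 : Integrable fun q : ℝ × ℝ => fld (Real.pi / H) v q.1 q.2 * gz W q -
      fld (Real.pi / H) w q.1 q.2 * gy W q := by
    refine ((hW.gz.int (fld_cont (ω := Real.pi / H) hv)).sub
      (hW.gy.int (fld_cont (ω := Real.pi / H) hw))).congr
      (Eventually.of_forall fun q => ?_)
    show gz W q * fld (Real.pi / H) v q.1 q.2 - gy W q * fld (Real.pi / H) w q.1 q.2 = _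
    ring
  have i1 := hQ.int (fld_cont (ω := Real.pi / H) s1)
  have i2 := hS.int (fld_cont (ω := Real.pi / H) s2)
  have i3 := hS.int (fld_cont (ω := Real.pi / H) s3)
  have i4 : Integrable fun q : ℝ × ℝ => 1 / 2 * ((gy P q + gz R q) *
      fld (Real.pi / H) (conv w w) q.1 q.2 -
        (gy P q + gz R q) * fld (Real.pi / H) (conv v v) q.1 q.2) := (i2.sub i3).const_mul _
  have i5 : Integrable fun q : ℝ × ℝ => (gz P q - gy R q) * fld (Real.pi / H) (conv v w) q.1 q.2 -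
      1 / 2 * ((gy P q + gz R q) * fld (Real.pi / H) (conv w w) q.1 q.2 -
        (gy P q + gz R q) * fld (Real.pi / H) (conv v v) q.1 q.2) := i1.sub i4
  rw [mG, ← integral_sub i2 i3, ← integral_const_mul, ← integral_sub i1 i4,
    ← integral_add i0 i5, lG]
  congr 1
  funext q
  show _ + ((gz P q - gy R q) * fld (Real.pi / H) (conv v w) q.1 q.2 -
    1 / 2 * ((gy P q + gz R q) * fld (Real.pi / H) (conv w w) q.1 q.2 -
      (gy P q + gz R q) * fld (Real.pi / H) (conv v v) q.1 q.2)) = _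
  rw [c1, c2, c3]
  ring

end

end Pool.Agent.Lib.MP_79abb3_an.SC
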